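import Pool.Agent.H4G.Arith.ExtZ

/-!
# Extremal states with `a'` maximal (helper40)

The potential of helper96: the area `a'` of the right lattice is maximal over all equivalent
states (this includes the mirror images), then `b = gcd (L × v)` is minimal, then `A ≤ b` and
`b' = gcd (L' × u)` is minimal.
-/

set_option autoImplicit false

namespace Pool.Agent.H4G

structure ExtA (S : PSt) (a' b b' : ℤ) : Prop where
  ok : S.Ok
  ha' : IsArea S.L' a'
  hb : IsC S.L S.v b
  hb' : IsC S.L' S.u b'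
  hA : cr S.u S.v ≤ b
  max : ∀ (T : PSt) (c : ℤ), SEq S T → IsArea T.L' c → c ≤ a'
  min : ∀ (T : PSt) (c : ℤ), SEq S T → IsArea T.L' a' → IsC T.L T.v c → b ≤ c
  min' : ∀ (T : PSt) (c : ℤ), SEq S T → IsArea T.L' a' → IsC T.L T.v b → cr T.u T.v ≤ b →
    IsC T.L' T.u c → b' ≤ c

theorem exists_extA {S : PSt} (hS : S.Ok) :
    ∃ (T : PSt) (a' b b' : ℤ), SEq S T ∧ ExtA T a' b b' := by
  obtain ⟨S0, a', j1, j2, hmax⟩ := exists_max hS
  obtain ⟨b, ⟨T0, k1, k1', k2⟩, hmin⟩ := exists_min_int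
    (P := fun c => ∃ T : PSt, SEq S T ∧ IsArea T.L' a' ∧ IsC T.L T.v c)
    (fun c ⟨T, _, _, h⟩ => h.1) (by
      obtain ⟨l, p, l', p', had⟩ := exists_Ad j1.ok'
      exact ⟨_, S0, j1, j2, had.isC⟩)
  obtain ⟨l, p, l', p', had⟩ := exists_Ad k1.ok'
  obtain ⟨u1, L1, θ, m1, m2, m3, m4, m5, m6, m7, m8⟩ :=
    SEq.node' (L := T0.L) (L' := T0.L') (u := T0.u) (v := T0.v) k1.ok' had.isArea k2
  have k3 : SEq S ⟨L1, u1, T0.v, T0.L'⟩ := k1.trans m1
  obtain ⟨b', ⟨T, n1, n1', n2, n3, n4⟩, hmin'⟩ := exists_min_int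
    (P := fun c => ∃ T : PSt, SEq S T ∧ IsArea T.L' a' ∧ IsC T.L T.v b ∧ cr T.u T.v ≤ b ∧
      IsC T.L' T.u c)
    (fun c ⟨T, _, _, _, _, h⟩ => h.1) (by
      obtain ⟨l, p, l', p', had⟩ := exists_Ad k3.ok'
      exact ⟨_, _, k3, k1', m8, m6, had.isC'⟩)
  exact ⟨T, a', b, b', n1, n1.ok', n1', n2, n4, n3, fun T2 c h1 h2 => hmax T2 c (n1.trans h1) h2,
    fun T2 c h1 h2 h3 => hmin c ⟨T2, n1.trans h1, h2, h3⟩,
    fun T2 c h1 h2 h3 h4 h5 => hmin' c ⟨T2, n1.trans h1, h2, h3, h4, h5⟩⟩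

theorem ExtA.of_eq {S T : PSt} {a' b b' : ℤ} (h : ExtA S a' b b') (h1 : SEq S T)
    (h0 : IsArea T.L' a') (h2 : IsC T.L T.v b) (h3 : cr T.u T.v ≤ b) (h4 : IsC T.L' T.u b') :
    ExtA T a' b b' :=
  ⟨h1.ok', h0, h2, h4, h3, fun T2 c k1 k2 => h.max T2 c (h1.trans k1) k2,
    fun T2 c k1 k2 k3 => h.min T2 c (h1.trans k1) k2 k3,
    fun T2 c k1 k2 k3 k4 k5 => h.min' T2 c (h1.trans k1) k2 k3 k4 k5⟩

theorem ExtA.bpos {S : PSt} {a' b b' : ℤ} (h : ExtA S a' b b') : 0 < b := h.hb.1

/-- at every equivalent state with the maximal `a'`: `A ≤ gcd (L' × u)` -/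
theorem ExtA.leA {S T : PSt} {a' b b' : ℤ} (h : ExtA S a' b b') (hST : SEq S T)
    (ha : IsArea T.L' a') {c : ℤ} (hc : IsC T.L' T.u c) : cr T.u T.v ≤ c :=
  max_stuck hST.ok' ha (fun S2 a2 h1 h2 => h.max S2 a2 (hST.trans h1) h2) hc

/-- the other area is not larger -/
theorem ExtA.area_le {S : PSt} {a a' b b' : ℤ} (h : ExtA S a' b b') (ha : IsArea S.L a) :
    a ≤ a' := by
  have m1 := SEq.mirror (L := S.L) (L' := S.L') (u := S.u) (v := S.v) h.ok
  exact h.max _ a m1 ha

/-- V-RIGIDITY -/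
theorem ExtA.vrig {S : PSt} {a' b b' : ℤ} (h : ExtA S a' b b') {l p l' p' : Z2}
    (ad : Ad S l p l' p') : b' ∣ cr (S.v + l) l' ∧ b' ∣ cr (S.v + l) p' := by
  have e1 : cr p S.v = b := ad.isC.unique h.hb
  have e2 : cr S.u p' = b' := ad.isC'.unique h.hb'
  have hB1 : cr (S.v + l) l' ≠ 0 := by
    have k1 := plucker l l' S.u S.v
    rw [ad.h1, cr_swap l' S.u, ad.h4, cr_swap l S.u] at k1
    have k2 : 0 < cr S.u l * cr l' S.v := mul_pos ad.h2 ad.h5
    have k3 : cr l l' * cr S.u S.v < 0 := by linarith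
    have k4 : cr l l' < 0 := by
      by_contra hn
      push Not at hn
      have := mul_nonneg hn ad.hA.le
      linarith
    have k5 := ad.h5
    rw [cr_add_left, cr_swap S.v l']
    omega
  refine crt_min h.hb'.1 hB1 fun j => ?_
  have k1 := ad.twV h.ok (by rw [e1]; exact h.hA) j
  have k2 : IsC (lat l (p - j • S.v)) S.v b := by
    have : cr (p - j • S.v) S.v = b := by rw [cr_sub_left, cr_smul_left, cr_self, e1]; ring
    rw [← this]
    exact isC_of_par ad.h1 (by rw [this]; exact h.bpos)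
  have e3 : cr (S.u - j • (S.v + l)) S.v = cr S.u S.v := by
    rw [cr_sub_left, cr_smul_left, cr_add_left, cr_self, ad.h1]; ring
  have e4 : cr (S.u - j • (S.v + l)) l' = -(j * cr (S.v + l) l') := by
    rw [cr_sub_left, cr_smul_left, ad.h4]; ring
  have e5 : cr (S.u - j • (S.v + l)) p' = b' - j * cr (S.v + l) p' := by
    rw [cr_sub_left, cr_smul_left, e2]
  have hb'0 := h.hb'.1
  have k3 : IsC S.L' (S.u - j • (S.v + l))
      (Int.gcd (j * cr (S.v + l) l') (b' - j * cr (S.v + l) p') : ℕ) := by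
    have := isC_lat (x := l') (y := p') (u := S.u - j • (S.v + l)) (by
      rw [e4, e5]
      rcases eq_or_ne j 0 with hj | hj
      · right; rw [hj]; simp; omega
      · left
        exact neg_ne_zero.2 (mul_ne_zero hj hB1))
    rw [e4, e5, Int.neg_gcd, ← ad.hL'] at this
    exact this
  exact h.min' _ _ k1 h.ha' k2 (by dsimp only; rw [e3]; exact h.hA) k3

/-- H-RIGIDITY, at every equivalent state with the same `a'` and `b` -/
theorem ExtA.hrig {S T : PSt} {a' b b' : ℤ} (h : ExtA S a' b b') (hST : SEq S T)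
    (haT : IsArea T.L' a') (hT : IsC T.L T.v b) {l p l' p' : Z2} (ad : Ad T l p l' p') :
    b ∣ cr (T.u + l') l ∧ b ∣ cr (T.u + l') p := by
  have hA : cr T.u T.v ≤ cr T.u p' := h.leA hST haT ad.isC'
  have e1 : cr p T.v = b := ad.isC.unique hT
  have hB1 : cr (T.u + l') l ≠ 0 := by
    have k1 := plucker l l' T.u T.v
    rw [ad.h1, cr_swap l' T.u, ad.h4, cr_swap l T.u] at k1
    have k2 : 0 < cr T.u l * cr l' T.v := mul_pos ad.h2 ad.h5
    have k3 : cr l l' * cr T.u T.v < 0 := by linarith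
    have k4 : cr l l' < 0 := by
      by_contra hn
      push Not at hn
      have := mul_nonneg hn ad.hA.le
      linarith
    have k5 := ad.h2
    rw [cr_add_left, cr_swap l' l]
    omega
  refine crt_min h.bpos hB1 fun i => ?_
  have k1 := ad.twH hST.ok' hA i
  have e4 : cr (T.v + i • (T.u + l')) l = i * cr (T.u + l') l := by
    rw [cr_add_left, cr_smul_left, cr_swap T.v l, ad.h1]; ring
  have e5 : cr (T.v + i • (T.u + l')) p = -(b - i * cr (T.u + l') p) := by
    rw [cr_add_left, cr_smul_left, cr_swap T.v p, e1]; ring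
  have hb0 := h.bpos
  have k3 : IsC T.L (T.v + i • (T.u + l'))
      (Int.gcd (i * cr (T.u + l') l) (b - i * cr (T.u + l') p) : ℕ) := by
    have := isC_lat (x := l) (y := p) (u := T.v + i • (T.u + l')) (by
      rw [e4, e5]
      rcases eq_or_ne i 0 with hj | hj
      · right; rw [hj]; simp; omega
      · left
        exact mul_ne_zero hj hB1)
    rw [e4, e5, Int.gcd_neg, ← ad.hL] at this
    exact this
  have k4 : IsArea (lat l' (p' + i • T.u)) a' := by
    have h1 : cr l' (p' + i • T.u) = cr l' p' := by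
      rw [cr_add_right, cr_smul_right, cr_swap l' T.u, ad.h4]; ring
    have h2 : cr l' p' = a' := ad.isArea'.unique haT
    exact ⟨haT.1, p' + i • T.u, l', by rw [h1, h2], lat_comm _ _⟩
  exact h.min _ _ (hST.trans k1) k4 k3

/-- H-rigidity in the form used for exits: `w ∈ L` arbitrary, `g = gcd (L' × u)` -/
theorem ExtA.hrig_mul {S T : PSt} {a' b b' : ℤ} (h : ExtA S a' b b') (hST : SEq S T)
    (haT : IsArea T.L' a') (hT : IsC T.L T.v b) {g : ℤ} (hg : IsC T.L' T.u g) {w : Z2}
    (hw : w ∈ T.L) : b * g ∣ (g + a') * cr T.u w := by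
  obtain ⟨l, p, l', p', ad⟩ := exists_Ad hST.ok'
  obtain ⟨h1, h2⟩ := h.hrig hST haT hT ad
  have e1 : cr T.u p' = g := ad.isC'.unique hg
  have e2 : cr l' p' = a' := ad.isArea'.unique haT
  have e3 := ad.area'
  rw [e1, e2] at e3
  -- `e' b' = a' A`
  have e4 : b ∣ cr (T.u + l') w := by
    rw [ad.hL] at hw
    obtain ⟨m, n, e⟩ := mem_lat.1 hw
    rw [← e, cr_add_right, cr_smul_right, cr_smul_right]
    exact dvd_add (h1.mul_left _) (h2.mul_left _)
  have e5 : cr (T.u + l') w * cr T.u T.v = (cr T.u T.v + cr l' T.v) * cr T.u w := by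
    have := plucker l' w T.u T.v
    rw [cr_swap l' T.u, ad.h4, cr_swap w T.u] at this
    rw [cr_add_left]
    linear_combination this
  have e6 : cr (T.u + l') w * g = (g + a') * cr T.u w := by
    have hA := ad.hA
    have : (cr (T.u + l') w * g - (g + a') * cr T.u w) * cr T.u T.v = 0 := by
      linear_combination g * e5 - cr T.u w * e3
    rcases mul_eq_zero.1 this with h9 | h9
    · linarith
    · omega
  rw [← e6]
  exact mul_dvd_mul_right e4 g

/-! ## Exits -/

/-- the exit state: `L₁ = ⟨l - n v, p + τ v⟩`, `u₁ = u + q v + τ l + n p`, `q = o - j (1 + n)` -/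
theorem ExtA.exitSt {S : PSt} {a' b b' : ℤ} (h : ExtA S a' b b') {l p l' p' : Z2}
    (ad : Ad S l p l' p') {n j o τ : ℤ} (hn : 0 ≤ n) (ho : o = 1 ∨ o = -1)
    (hco : IsCoprime (τ + j) n)
    (h1 : n * cr p S.v < o * ((τ + j) * cr S.u l + n * (cr S.u p +
      j * (cr p l + cr p S.v - cr S.u S.v))))
    (h2 : o * ((τ + j) * cr S.u l + n * (cr S.u p + j * (cr p l + cr p S.v - cr S.u S.v))) ≤
      cr p l) :
    ∃ T : PSt, SEq S T ∧ T.L' = S.L' ∧ T.v = S.v ∧
      T.L = lat (l - n • S.v) (p + τ • S.v) ∧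
      T.u = S.u + (o - j * (1 + n)) • S.v + τ • l + n • p ∧ IsC T.L T.v b := by
  have E1 : cr p S.v = b := ad.isC.unique h.hb
  have hb0 := h.bpos
  have k1 := ad.twV h.ok (by rw [E1]; exact h.hA) j
  set T : PSt := ⟨lat l (p - j • S.v), S.u - j • (S.v + l), S.v, S.L'⟩ with hT
  -- the vector
  have hco' : IsCoprime (o * (τ + j)) (o * n) := by
    rcases ho with rfl | rfl
    · simpa using hco
    · have := hco.neg_left.neg_right
      rwa [neg_one_mul, neg_one_mul]
  obtain ⟨y, m1, m2⟩ := exists_basis (l := l) (p := p - j • S.v)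
    (w := (o * (τ + j)) • l + (o * n) • (p - j • S.v)) rfl hco'
  set x := (o * (τ + j)) • l + (o * n) • (p - j • S.v) with hx
  have f1 : cr T.u x = o * ((τ + j) * cr S.u l + n * (cr S.u p +
      j * (cr p l + cr p S.v - cr S.u S.v))) := by
    simp only [hT, hx]
    simp only [cr_sub_left, cr_sub_right, cr_add_left, cr_add_right, cr_smul_left, cr_smul_right,
      cr_self]
    rw [cr_swap S.v l, cr_swap S.v p, cr_swap l p, ad.h1]; ring
  have f2 : cr y x = cr p l := by
    rw [m2, cr_sub_left, cr_smul_left, cr_swap S.v l, ad.h1]; ring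
  have f3 : cr x T.v = o * n * cr p S.v := by
    simp only [hT, hx]
    simp only [cr_sub_left, cr_add_left, cr_smul_left, cr_self]
    rw [ad.h1]; ring
  have f4 : cr T.u T.v = cr S.u S.v := by
    simp only [hT]
    rw [cr_sub_left, cr_smul_left, cr_add_left, cr_self, ad.h1]; ring
  have hTxy : T = ⟨lat x y, T.u, T.v, T.L'⟩ := by rw [m1]
  have hA0 := ad.hA
  have hnb : 0 ≤ n * cr p S.v := mul_nonneg hn (by rw [E1]; exact hb0.le)
  have hIC : IsC (lat x y) S.v b := by
    rw [m1]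
    have : cr (p - j • S.v) S.v = b := by rw [cr_sub_left, cr_smul_left, cr_self, E1]; ring
    rw [← this]
    exact isC_of_par ad.h1 (by rw [this]; exact hb0)
  obtain ⟨α, β, hαβ⟩ : ∃ α β : ℤ, y = α • l + β • (p - j • S.v) := by
    have : y ∈ lat l (p - j • S.v) := by rw [← m1]; exact mem_lat.2 ⟨0, 1, by module⟩
    obtain ⟨α, β, e⟩ := mem_lat.1 this
    exact ⟨α, β, e.symm⟩
  have hdet : β * (o * (τ + j)) - α * (o * n) = 1 := by
    have h9 : cr y x = (β * (o * (τ + j)) - α * (o * n)) * cr p l := by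
      rw [hαβ, hx]
      simp only [cr_sub_left, cr_sub_right, cr_add_left, cr_add_right, cr_smul_left,
        cr_smul_right, cr_self]
      rw [cr_swap S.v l, cr_swap S.v p, cr_swap l p, ad.h1]; ring
    rw [f2] at h9
    have hpos := ad.pos
    have : (β * (o * (τ + j)) - α * (o * n) - 1) * cr p l = 0 := by linarith
    rcases mul_eq_zero.1 this with h9 | h9
    · linarith
    · omega
  rcases ho with rfl | rfl
  · rw [one_mul] at f1 h1 h2
    have k2 := SEq.mPlus (l := x) (p := y) (u := T.u) (v := T.v) (L' := T.L')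
      (by rw [← hTxy]; exact k1.ok') (by rw [f1]; linarith) (by rw [f1, f2]; exact h2)
      (by rw [f3, f4, one_mul]; linarith) (by rw [f1, f3, one_mul]; exact h1)
    rw [← hTxy] at k2
    refine ⟨_, k1.trans k2, rfl, rfl, ?_, ?_, ?_⟩
    · dsimp only
      refine (closure_pair_eq (α := β) (β := -n) (γ := -α) (δ := τ + j) ?_ ?_ (Or.inl ?_)).symm
      · simp only [hT, hx]
        rw [hαβ]
        have e1 : β • ((1 * (τ + j)) • l + (1 * n) • (p - j • S.v)) +
            (-n) • (α • l + β • (p - j • S.v) + S.v) =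
            (β * (1 * (τ + j)) - α * (1 * n)) • l - n • S.v := by module
        rw [e1, hdet, one_smul]
      · simp only [hT, hx]
        rw [hαβ]
        have e1 : (-α) • ((1 * (τ + j)) • l + (1 * n) • (p - j • S.v)) +
            (τ + j) • (α • l + β • (p - j • S.v) + S.v) =
            (β * (1 * (τ + j)) - α * (1 * n)) • (p - j • S.v) + (τ + j) • S.v := by module
        rw [e1, hdet, one_smul]; module
      · linear_combination hdet
    · simp only [hT, hx]; module
    · dsimp only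
      have := hIC.congr (k := 1)
      rwa [one_smul] at this
  · have k2 := SEq.mMinus (l := x) (p := y) (u := T.u) (v := T.v) (L' := T.L')
      (by rw [← hTxy]; exact k1.ok') (by rw [f1]; linarith) (by rw [f1, f2]; exact h2)
      (by rw [f1, f3]; linarith) (by rw [f3, f4]; linarith)
    rw [← hTxy] at k2
    refine ⟨_, k1.trans k2, rfl, rfl, ?_, ?_, ?_⟩
    · dsimp only
      refine (closure_pair_eq (α := β) (β := n) (γ := -α) (δ := -(τ + j)) ?_ ?_ (Or.inl ?_)).symm
      · simp only [hT, hx]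
        rw [hαβ]
        have e1 : β • ((-1 * (τ + j)) • l + (-1 * n) • (p - j • S.v)) +
            n • (α • l + β • (p - j • S.v) - S.v) =
            (β * (-1 * (τ + j)) - α * (-1 * n)) • l - n • S.v := by module
        rw [e1, hdet, one_smul]
      · simp only [hT, hx]
        rw [hαβ]
        have e1 : (-α) • ((-1 * (τ + j)) • l + (-1 * n) • (p - j • S.v)) +
            (-(τ + j)) • (α • l + β • (p - j • S.v) - S.v) =
            (β * (-1 * (τ + j)) - α * (-1 * n)) • (p - j • S.v) + (τ + j) • S.v := by module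
        rw [e1, hdet, one_smul]; module
      · linear_combination hdet
    · simp only [hT, hx]; module
    · dsimp only
      have := hIC.congr (k := -1)
      have e9 : y + (-1 : ℤ) • S.v = y - S.v := by module
      rwa [e9] at this

/-- RIGIDITY in integers -/
theorem ExtA.rig {S : PSt} {a' b b' : ℤ} (h : ExtA S a' b b') {l p l' p' : Z2}
    (ad : Ad S l p l' p') :
    cr p S.v = b ∧ cr S.u p' = b' ∧ cr l' p' = a' ∧ cr S.u S.v ≤ b ∧ cr S.u S.v ≤ b' ∧
    cr p l ≤ a' ∧
    b' ∣ cr l' S.v + cr l' l ∧ b' ∣ cr p' S.v + cr p' l ∧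
    b ∣ cr S.u l + cr l' l ∧ b ∣ cr S.u p + cr l' p := by
  have e1 : cr p S.v = b := ad.isC.unique h.hb
  have e2 : cr S.u p' = b' := ad.isC'.unique h.hb'
  obtain ⟨h1, h2⟩ := h.vrig ad
  obtain ⟨h3, h4⟩ := h.hrig h.ok.seq h.ha' h.hb ad
  rw [cr_add_left] at h1 h2 h3 h4
  refine ⟨e1, e2, ad.isArea'.unique h.ha', h.hA, h.leA h.ok.seq h.ha' h.hb',
    h.area_le ad.isArea, ?_, ?_, h3, h4⟩
  · rw [cr_swap S.v l', cr_swap l l'] at h1
    have := (dvd_neg).2 h1
    rwa [show -(-cr l' S.v + -cr l' l) = cr l' S.v + cr l' l by ring] at this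
  · rw [cr_swap S.v p', cr_swap l p'] at h2
    have := (dvd_neg).2 h2
    rwa [show -(-cr p' S.v + -cr p' l) = cr p' S.v + cr p' l by ring] at this

/-- EXIT in integers: `q = o - j (1 + n)`, `g = gcd (L' × u₁)` for
`u₁ = u + q v + τ l + n p` -/
theorem ExtA.exit {S : PSt} {a' b b' : ℤ} (h : ExtA S a' b b') {l p l' p' : Z2}
    (ad : Ad S l p l' p') {n j o τ : ℤ} (hn : 0 ≤ n) (ho : o = 1 ∨ o = -1)
    (hco : IsCoprime (τ + j) n)
    (h1 : n * cr p S.v < o * ((τ + j) * cr S.u l + n * (cr S.u p +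
      j * (cr p l + cr p S.v - cr S.u S.v))))
    (h2 : o * ((τ + j) * cr S.u l + n * (cr S.u p + j * (cr p l + cr p S.v - cr S.u S.v))) ≤
      cr p l) {q g : ℤ} (hq : q = o - j * (1 + n))
    (hg : g = Int.gcd (q * cr l' S.v + τ * cr l' l + n * cr l' p)
      (cr S.u p' - q * cr p' S.v - τ * cr p' l - n * cr p' p)) :
    0 < g ∧ cr S.u S.v + n * cr p S.v ≤ g ∧
    cr p S.v * g ∣ (g + a') * (cr S.u l - n * cr S.u S.v + n * cr p l - n ^ 2 * cr p S.v) ∧
    cr p S.v * g ∣ (g + a') * (cr S.u p + τ * cr S.u S.v - q * cr p S.v - τ * cr p l +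
      n * τ * cr p S.v) := by
  obtain ⟨T, k1, k2, k3, k4, k5, k6⟩ := h.exitSt ad hn ho hco h1 h2
  rw [← hq] at k5
  have e1 : cr p S.v = b := ad.isC.unique h.hb
  have f1 : cr T.u l' = -(q * cr l' S.v + τ * cr l' l + n * cr l' p) := by
    rw [k5]
    simp only [cr_add_left, cr_smul_left]
    rw [ad.h4, cr_swap S.v l', cr_swap l l', cr_swap p l']; ring
  have f2 : cr T.u p' = cr S.u p' - q * cr p' S.v - τ * cr p' l - n * cr p' p := by
    rw [k5]
    simp only [cr_add_left, cr_smul_left]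
    rw [cr_swap S.v p', cr_swap l p', cr_swap p p']; ring
  have hne : cr T.u l' ≠ 0 ∨ cr T.u p' ≠ 0 := by
    by_contra hn
    push Not at hn
    obtain ⟨l2, p2, l2', p2', ad2⟩ := exists_Ad k1.ok'
    have n1 := ad2.h6
    have : p2' ∈ lat l' p' := by
      rw [← ad.hL', ← k2, ad2.hL']
      exact mem_lat.2 ⟨0, 1, by module⟩
    obtain ⟨m, n, e⟩ := mem_lat.1 this
    rw [← e, cr_add_right, cr_smul_right, cr_smul_right, hn.1, hn.2] at n1
    simp at n1
  have m1 : IsC T.L' T.u g := by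
    have := isC_lat hne
    rw [f1, f2, Int.neg_gcd, ← hg, ← ad.hL', ← k2] at this
    exact this
  have haT : IsArea T.L' a' := by rw [k2]; exact h.ha'
  have f3 : cr T.u T.v = cr S.u S.v + n * cr p S.v := by
    rw [k5, k3]
    simp only [cr_add_left, cr_smul_left, cr_self]
    rw [ad.h1]; ring
  have m2 := h.leA k1 haT m1
  rw [f3] at m2
  have m3 := h.hrig_mul k1 haT k6 m1 (w := l - n • S.v)
    (by rw [k4]; exact mem_lat.2 ⟨1, 0, by module⟩)
  have m4 := h.hrig_mul k1 haT k6 m1 (w := p + τ • S.v)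
    (by rw [k4]; exact mem_lat.2 ⟨0, 1, by module⟩)
  have f4 : cr T.u (l - n • S.v) =
      cr S.u l - n * cr S.u S.v + n * cr p l - n ^ 2 * cr p S.v := by
    rw [k5]
    simp only [cr_add_left, cr_smul_left, cr_sub_right, cr_smul_right, cr_self]
    rw [cr_swap S.v l, ad.h1]; ring
  have f5 : cr T.u (p + τ • S.v) = cr S.u p + τ * cr S.u S.v - q * cr p S.v - τ * cr p l +
      n * τ * cr p S.v := by
    rw [k5]
    simp only [cr_add_left, cr_smul_left, cr_add_right, cr_smul_right, cr_self]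
    rw [cr_swap S.v p, cr_swap l p, ad.h1]; ring
  rw [f4, ← e1] at m3
  rw [f5, ← e1] at m4
  exact ⟨m1.1, m2, m3, m4⟩

/-! ## Twisted extremal states -/

/-- the state after `V_j` (with the same `b'`): `m' = (e' + k₁) / b'`, `r' = (f' + k₂) / b'` -/
theorem ExtA.V {S : PSt} {a' b b' : ℤ} (h : ExtA S a' b b') {l p l' p' : Z2}
    (ad : Ad S l p l' p') {j γ δ m' r' : ℤ} (hm : cr l' S.v + cr l' l = b' * m')
    (hr : cr p' S.v + cr p' l = b' * r') (hγ : δ * (1 + j * r') + γ * (j * m') = 1) :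
    ∃ (T : PSt), SEq S T ∧ ExtA T a' b b' ∧
      Ad T l (p - j • S.v) ((1 + j * r') • l' + (-(j * m')) • p') (γ • l' + δ • p') ∧
      T.v = S.v ∧ T.u = S.u - j • (S.v + l) ∧ T.L' = S.L' ∧ T.L = lat l (p - j • S.v) ∧
      cr T.u T.v = cr S.u S.v ∧ cr T.u l = cr S.u l ∧
      cr T.u (p - j • S.v) = cr S.u p + j * (cr p l + cr p S.v - cr S.u S.v) ∧
      cr ((1 + j * r') • l' + (-(j * m')) • p') T.v = cr l' S.v ∧
      cr (γ • l' + δ • p') T.v = γ * cr l' S.v + δ * cr p' S.v := by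
  obtain ⟨E1, E2, -, hA, hA', -⟩ := h.rig ad
  have hb0 := h.bpos
  have hb0' := h.hb'.1
  have k1 := ad.twV h.ok (by rw [E1]; exact hA) j
  set T : PSt := ⟨lat l (p - j • S.v), S.u - j • (S.v + l), S.v, S.L'⟩ with hT
  have k2 : IsC T.L T.v b := by
    have : cr (p - j • S.v) S.v = b := by rw [cr_sub_left, cr_smul_left, cr_self, E1]; ring
    rw [← this]
    exact isC_of_par ad.h1 (by rw [this]; exact hb0)
  have e3 : cr T.u T.v = cr S.u S.v := by
    simp only [hT]
    rw [cr_sub_left, cr_smul_left, cr_add_left, cr_self, ad.h1]; ring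
  have e4 : cr T.u l = cr S.u l := by
    simp only [hT]
    rw [cr_sub_left, cr_smul_left, cr_add_left, cr_self, cr_swap S.v l, ad.h1]; ring
  have e5 : cr (p - j • S.v) T.v = b := by
    simp only [hT]
    rw [cr_sub_left, cr_smul_left, cr_self, E1]; ring
  have n1 : cr T.u l' = j * (b' * m') := by
    rw [← hm]
    simp only [hT]
    rw [cr_sub_left, cr_smul_left, cr_add_left, ad.h4, cr_swap S.v l', cr_swap l l']; ring
  have n2 : cr T.u p' = b' + j * (b' * r') := by
    rw [← hr]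
    simp only [hT]
    rw [cr_sub_left, cr_smul_left, cr_add_left, E2, cr_swap S.v p', cr_swap l p']; ring
  have hdet : (1 + j * r') * δ - -(j * m') * γ = 1 := by linarith
  have hL' : lat ((1 + j * r') • l' + (-(j * m')) • p') (γ • l' + δ • p') = lat l' p' :=
    closure_pair_eq rfl rfl (Or.inl hdet)
  have f1 : cr T.u ((1 + j * r') • l' + (-(j * m')) • p') = 0 := by
    rw [cr_add_right, cr_smul_right, cr_smul_right, n1, n2]; ring
  have f2 : cr T.u (γ • l' + δ • p') = b' := by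
    rw [cr_add_right, cr_smul_right, cr_smul_right, n1, n2]
    linear_combination b' * hγ
  have m3 : IsC T.L' T.u b' := by
    have : IsC (lat ((1 + j * r') • l' + (-(j * m')) • p') (γ • l' + δ • p')) T.u
        (cr T.u (γ • l' + δ • p')) := isC_adapted f1 (by rw [f2]; exact hb0')
    rw [hL', ← ad.hL', f2] at this
    exact this
  have f3 : cr ((1 + j * r') • l' + (-(j * m')) • p') T.v = cr l' S.v := by
    have num := ad.nums
    have q1 := num.r1
    have q2 := num.r2
    have q3 : (r' * cr l' S.v - m' * cr p' S.v) * (b' * cr S.u S.v) = 0 := by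
      have t1 : b' * r' = cr p' S.v + cr p' l := hr.symm
      have t2 : b' * m' = cr l' S.v + cr l' l := hm.symm
      linear_combination (cr l' S.v * cr S.u S.v) * t1 - (cr p' S.v * cr S.u S.v) * t2 +
        cr l' S.v * q2 - cr p' S.v * q1
    have hA0 := ad.hA
    have q4 : r' * cr l' S.v - m' * cr p' S.v = 0 := by
      rcases mul_eq_zero.1 q3 with q5 | q5
      · exact q5
      · exact absurd q5 (mul_pos hb0' hA0).ne'
    simp only [hT]
    rw [cr_add_left, cr_smul_left, cr_smul_left]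
    linear_combination j * q4
  have f4 : cr (γ • l' + δ • p') T.v = γ * cr l' S.v + δ * cr p' S.v := by
    simp only [hT]
    rw [cr_add_left, cr_smul_left, cr_smul_left]
  have ad2 : Ad T l (p - j • S.v) ((1 + j * r') • l' + (-(j * m')) • p') (γ • l' + δ • p') :=
    ⟨rfl, by rw [hL']; exact ad.hL', ad.h1, by rw [e4]; exact ad.h2, by rw [e5]; exact hb0, f1,
      by rw [f3]; exact ad.h5, by rw [f2]; exact hb0', by rw [e3]; exact ad.hA⟩
  refine ⟨T, k1, h.of_eq k1 h.ha' k2 (by rw [e3]; exact hA) m3, ad2, rfl, rfl, rfl, rfl, e3, e4,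
    ?_, f3, f4⟩
  simp only [hT]
  simp only [cr_sub_left, cr_sub_right, cr_smul_left, cr_smul_right, cr_add_left, cr_self]
  rw [cr_swap S.v p, cr_swap l p, ad.h1]; ring

/-- the state after `H_i` (with the same `b`): `m = (e + k₁) / b`, `r = (f + k₃) / b` -/
theorem ExtA.H {S : PSt} {a' b b' : ℤ} (h : ExtA S a' b b') {l p l' p' : Z2}
    (ad : Ad S l p l' p') {i γ δ m r : ℤ} (hm : cr S.u l + cr l' l = b * m)
    (hr : cr S.u p + cr l' p = b * r) (hγ : δ * (1 - i * r) - γ * (i * m) = 1) :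
    ∃ (T : PSt), SEq S T ∧ ExtA T a' b b' ∧
      Ad T ((1 - i * r) • l + (i * m) • p) (γ • l + δ • p) l' (p' + i • S.u) ∧
      T.u = S.u ∧ T.v = S.v + i • (S.u + l') ∧ T.L = S.L ∧ T.L' = lat l' (p' + i • S.u) ∧
      cr T.u T.v = cr S.u S.v ∧ cr T.u ((1 - i * r) • l + (i * m) • p) = cr S.u l ∧
      cr T.u (γ • l + δ • p) = γ * cr S.u l + δ * cr S.u p ∧
      cr l' T.v = cr l' S.v ∧
      cr (p' + i • S.u) T.v = cr p' S.v - i * (a' + b' - cr S.u S.v) := by
  obtain ⟨E1, E2, E3, hA, hA', -⟩ := h.rig ad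
  have hb0 := h.bpos
  have hb0' := h.hb'.1
  have k1 := ad.twH h.ok (by rw [E2]; exact hA') i
  set T : PSt := ⟨S.L, S.u, S.v + i • (S.u + l'), lat l' (p' + i • S.u)⟩ with hT
  have e3 : cr T.u T.v = cr S.u S.v := by
    simp only [hT]
    rw [cr_add_right, cr_smul_right, cr_add_right, cr_self, ad.h4]; ring
  have n1 : cr l T.v = -(i * (b * m)) := by
    rw [← hm]
    simp only [hT]
    rw [cr_add_right, cr_smul_right, cr_add_right, ad.h1, cr_swap l S.u, cr_swap l l']; ring
  have n2 : cr p T.v = b - i * (b * r) := by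
    rw [← hr]
    simp only [hT]
    rw [cr_add_right, cr_smul_right, cr_add_right, E1, cr_swap p S.u, cr_swap p l']; ring
  have hdet : (1 - i * r) * δ - (i * m) * γ = 1 := by linarith
  have hL : lat ((1 - i * r) • l + (i * m) • p) (γ • l + δ • p) = lat l p :=
    closure_pair_eq rfl rfl (Or.inl hdet)
  have f1 : cr ((1 - i * r) • l + (i * m) • p) T.v = 0 := by
    rw [cr_add_left, cr_smul_left, cr_smul_left, n1, n2]; ring
  have f2 : cr (γ • l + δ • p) T.v = b := by
    rw [cr_add_left, cr_smul_left, cr_smul_left, n1, n2]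
    linear_combination b * hγ
  have k3 : IsC T.L T.v b := by
    have := isC_of_par f1 (p := γ • l + δ • p) (by rw [f2]; exact hb0)
    rw [hL, ← ad.hL, f2] at this
    exact this
  have e4 : cr T.u (p' + i • S.u) = b' := by
    simp only [hT]
    rw [cr_add_right, cr_smul_right, cr_self, E2]; ring
  have k4 : IsC T.L' T.u b' := by
    have : IsC (lat l' (p' + i • S.u)) T.u (cr T.u (p' + i • S.u)) :=
      isC_adapted ad.h4 (by rw [e4]; exact hb0')
    rw [e4] at this
    exact this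
  have k5 : IsArea T.L' a' := by
    have h1 : cr l' (p' + i • S.u) = a' := by
      rw [cr_add_right, cr_smul_right, cr_swap l' S.u, ad.h4, E3]; ring
    exact ⟨h.ha'.1, p' + i • S.u, l', h1, lat_comm _ _⟩
  have e5 : cr l' T.v = cr l' S.v := by
    simp only [hT]
    rw [cr_add_right, cr_smul_right, cr_add_right, cr_self, cr_swap l' S.u, ad.h4]; ring
  have e6 : cr T.u ((1 - i * r) • l + (i * m) • p) = cr S.u l := by
    have num := ad.nums
    have q1 := num.r1
    have q3' := num.r3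
    have q3 : (m * cr S.u p - r * cr S.u l) * (b * cr S.u S.v) = 0 := by
      have t1 : b * m = cr S.u l + cr l' l := hm.symm
      have t2 : b * r = cr S.u p + cr l' p := hr.symm
      linear_combination (cr S.u p * cr S.u S.v) * t1 - (cr S.u l * cr S.u S.v) * t2 +
        cr S.u p * q1 - cr S.u l * q3'
    have hA0 := ad.hA
    have q4 : m * cr S.u p - r * cr S.u l = 0 := by
      rcases mul_eq_zero.1 q3 with q5 | q5
      · exact q5
      · exact absurd q5 (mul_pos hb0 hA0).ne'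
    simp only [hT]
    rw [cr_add_right, cr_smul_right, cr_smul_right]
    linear_combination i * q4
  have e7 : cr T.u (γ • l + δ • p) = γ * cr S.u l + δ * cr S.u p := by
    simp only [hT]
    rw [cr_add_right, cr_smul_right, cr_smul_right]
  have ad2 : Ad T ((1 - i * r) • l + (i * m) • p) (γ • l + δ • p) l' (p' + i • S.u) :=
    ⟨by rw [hL]; exact ad.hL, rfl, f1, by rw [e6]; exact ad.h2, by rw [f2]; exact hb0, ad.h4,
      by rw [e5]; exact ad.h5, by rw [e4]; exact hb0', by rw [e3]; exact ad.hA⟩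
  refine ⟨T, k1, h.of_eq k1 k5 k3 (by rw [e3]; exact hA) k4, ad2, rfl, rfl, rfl, rfl, e3, e6, e7,
    e5, ?_⟩
  simp only [hT]
  rw [cr_add_left, cr_smul_left, cr_add_right, cr_add_right, cr_smul_right, cr_smul_right,
    cr_add_right, cr_add_right, cr_self, ad.h4, cr_swap p' S.u, E2, cr_swap p' l', E3]; ring

end Pool.Agent.H4G
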