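import Pool.Agent.H4G.Arith.Ext

/-!
# Primitivity of states is an invariant (helper40)
-/

set_option autoImplicit false

namespace Pool.Agent.H4G

theorem span_le {a0 a1 a2 a3 a4 a5 : Z2} {K : AddSubgroup Z2} (h0 : a0 ∈ K) (h1 : a1 ∈ K)
    (h2 : a2 ∈ K) (h3 : a3 ∈ K) (h4 : a4 ∈ K) (h5 : a5 ∈ K) : span (a0, a1, a2, a3, a4, a5) ≤ K := by
  unfold span
  rw [AddSubgroup.closure_le]
  intro x hx
  simp only [Set.mem_insert_iff, Set.mem_singleton_iff] at hx
  rcases hx with rfl | rfl | rfl | rfl | rfl | rfl <;> assumption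

theorem mem_span (a0 a1 a2 a3 a4 a5 : Z2) : a0 ∈ span (a0, a1, a2, a3, a4, a5) ∧
    a1 ∈ span (a0, a1, a2, a3, a4, a5) ∧ a2 ∈ span (a0, a1, a2, a3, a4, a5) ∧
    a3 ∈ span (a0, a1, a2, a3, a4, a5) ∧ a4 ∈ span (a0, a1, a2, a3, a4, a5) ∧
    a5 ∈ span (a0, a1, a2, a3, a4, a5) := by
  unfold span
  refine ⟨?_, ?_, ?_, ?_, ?_, ?_⟩ <;> exact AddSubgroup.subset_closure (by simp)

theorem span_map (c : C6) (φ : Z2 →+ Z2) : span (c.map φ) = (span c).map φ := by
  obtain ⟨a0, a1, a2, a3, a4, a5⟩ := c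
  unfold span C6.map
  rw [AddMonoidHom.map_closure]
  simp only [Set.image_insert_eq, Set.image_singleton]

theorem top_map (g : Matrix.SpecialLinearGroup (Fin 2) ℤ) (K : AddSubgroup Z2) :
    K.map (act g) = ⊤ ↔ K = ⊤ := by
  constructor
  · intro h
    rw [eq_top_iff]
    intro x _
    have : act g x ∈ K.map (act g) := by rw [h]; trivial
    obtain ⟨y, hy, e⟩ := AddSubgroup.mem_map.1 this
    have e2 : act g⁻¹ (act g y) = act g⁻¹ (act g x) := by rw [e]
    rw [← act_mul, ← act_mul, inv_mul_cancel, act_one, act_one] at e2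
    rwa [← e2]
  · rintro rfl
    rw [eq_top_iff]
    intro x _
    refine AddSubgroup.mem_map.2 ⟨act g⁻¹ x, trivial, ?_⟩
    rw [← act_mul, mul_inv_cancel, act_one]

theorem Mv.top {c c' : C6} (h : Mv c c') : span c = ⊤ ↔ span c' = ⊤ := by
  cases h with
  | neg a0 a1 a2 a3 a4 a5 =>
    obtain ⟨m0, m1, m2, m3, m4, m5⟩ := mem_span a0 a1 a2 a3 a4 a5
    obtain ⟨n0, n1, n2, n3, n4, n5⟩ := mem_span (-a0) (-a1) (-a2) (-a3) (-a4) (-a5)
    have := le_antisymm (span_le (neg_mem_iff.1 n0) (neg_mem_iff.1 n1) (neg_mem_iff.1 n2)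
      (neg_mem_iff.1 n3) (neg_mem_iff.1 n4) (neg_mem_iff.1 n5))
      (span_le (neg_mem m0) (neg_mem m1) (neg_mem m2) (neg_mem m3) (neg_mem m4) (neg_mem m5))
    rw [this]
  | rev a0 a1 a2 a3 a4 a5 =>
    obtain ⟨m0, m1, m2, m3, m4, m5⟩ := mem_span a0 a1 a2 a3 a4 a5
    obtain ⟨n0, n1, n2, n3, n4, n5⟩ := mem_span a5 (-a4) a3 (-a2) a1 (-a0)
    have := le_antisymm (span_le (neg_mem_iff.1 n5) n4 (neg_mem_iff.1 n3) n2 (neg_mem_iff.1 n1) n0)
      (span_le m5 (neg_mem m4) m3 (neg_mem m2) m1 (neg_mem m0))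
    rw [this]
  | end0 a0 a1 a2 a3 a4 a5 =>
    obtain ⟨m0, m1, m2, m3, m4, m5⟩ := mem_span a0 a1 a2 a3 a4 a5
    obtain ⟨n0, n1, n2, n3, n4, n5⟩ := mem_span (a0 + a1) a1 a2 a3 a4 a5
    have := le_antisymm (span_le (by simpa using sub_mem n0 n1) n1 n2 n3 n4 n5)
      (span_le (add_mem m0 m1) m1 m2 m3 m4 m5)
    rw [this]
  | flip1 a0 a1 a2 a3 a4 a5 =>
    obtain ⟨m0, m1, m2, m3, m4, m5⟩ := mem_span a0 a1 a2 a3 a4 a5
    obtain ⟨n0, n1, n2, n3, n4, n5⟩ := mem_span a0 (a1 + a0 - a2) a2 a3 a4 a5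
    have := le_antisymm (span_le n0 (by simpa using sub_mem (add_mem n1 n2) n0) n2 n3 n4 n5)
      (span_le m0 (sub_mem (add_mem m1 m0) m2) m2 m3 m4 m5)
    rw [this]
  | flip1' a0 a1 a2 a3 a4 a5 =>
    obtain ⟨m0, m1, m2, m3, m4, m5⟩ := mem_span a0 a1 a2 a3 a4 a5
    obtain ⟨n0, n1, n2, n3, n4, n5⟩ := mem_span a0 (a1 - a0 + a2) a2 a3 a4 a5
    have := le_antisymm (span_le n0 (by simpa using add_mem (sub_mem n1 n2) n0) n2 n3 n4 n5)
      (span_le m0 (add_mem (sub_mem m1 m0) m2) m2 m3 m4 m5)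
    rw [this]
  | flip2 a0 a1 a2 a3 a4 a5 =>
    obtain ⟨m0, m1, m2, m3, m4, m5⟩ := mem_span a0 a1 a2 a3 a4 a5
    obtain ⟨n0, n1, n2, n3, n4, n5⟩ := mem_span a0 a1 (a2 + a1 - a3) a3 a4 a5
    have := le_antisymm (span_le n0 n1 (by simpa using sub_mem (add_mem n2 n3) n1) n3 n4 n5)
      (span_le m0 m1 (sub_mem (add_mem m2 m1) m3) m3 m4 m5)
    rw [this]
  | flip2' a0 a1 a2 a3 a4 a5 =>
    obtain ⟨m0, m1, m2, m3, m4, m5⟩ := mem_span a0 a1 a2 a3 a4 a5
    obtain ⟨n0, n1, n2, n3, n4, n5⟩ := mem_span a0 a1 (a2 - a1 + a3) a3 a4 a5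
    have := le_antisymm (span_le n0 n1 (by simpa using add_mem (sub_mem n2 n3) n1) n3 n4 n5)
      (span_le m0 m1 (add_mem (sub_mem m2 m1) m3) m3 m4 m5)
    rw [this]
  | star a0 a1 a2 a3 a4 a5 =>
    obtain ⟨m0, m1, m2, m3, m4, m5⟩ := mem_span a0 a1 a2 a3 a4 a5
    obtain ⟨n0, n1, n2, n3, n4, n5⟩ := mem_span (a2 - a3) (a3 - a1) (a0 - a3) a3 a4 a5
    have := le_antisymm (span_le (by simpa using add_mem n2 n3) (by simpa using sub_mem n3 n1)
      (by simpa using add_mem n0 n3) n3 n4 n5)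
      (span_le (sub_mem m2 m3) (sub_mem m3 m1) (sub_mem m0 m3) m3 m4 m5)
    rw [this]
  | star' a0 a1 a2 a3 a4 a5 =>
    obtain ⟨m0, m1, m2, m3, m4, m5⟩ := mem_span a0 a1 a2 a3 a4 a5
    obtain ⟨n0, n1, n2, n3, n4, n5⟩ := mem_span (a2 + a3) (a3 - a1) (a0 - a1 + a3) a3 a4 a5
    have k1 : a1 ∈ span (a2 + a3, a3 - a1, a0 - a1 + a3, a3, a4, a5) := by
      simpa using sub_mem n3 n1
    have := le_antisymm (span_le (by
        have h := add_mem (sub_mem n2 n3) k1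
        simpa using h) k1
      (by simpa using sub_mem n0 n3) n3 n4 n5)
      (span_le (add_mem m2 m3) (sub_mem m3 m1) (add_mem (sub_mem m0 m1) m3) m3 m4 m5)
    rw [this]
  | T c =>
    have e : c.map shT = c.map (act ModularGroup.T) := by
      congr 1
      funext p
      rw [act_apply]
      simp [ModularGroup.T, shT]
    rw [e, span_map, top_map]
  | J c =>
    have e : c.map shJ = c.map (act ModularGroup.S) := by
      congr 1
      funext p
      rw [act_apply]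
      simp [ModularGroup.S, shJ]
    rw [e, span_map, top_map]

theorem CEq.top {c c' : C6} (h : CEq c c') : span c = ⊤ ↔ span c' = ⊤ := by
  induction h with
  | rel x y h => exact h.2.top
  | refl x => exact Iff.rfl
  | symm x y _ ih => exact ih.symm
  | trans x y z _ _ ih1 ih2 => exact ih1.trans ih2

/-- the state generates the lattice -/
def PSt.Full (S : PSt) : Prop := S.L ⊔ S.L' ⊔ lat S.u S.v = ⊤

theorem IsRep.span {S : PSt} {c : C6} (h : IsRep S c) : H4G.span c = S.L ⊔ S.L' ⊔ lat S.u S.v := by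
  obtain ⟨a0, a1, a2, a3, a4, a5⟩ := c
  obtain ⟨⟨h1, h2, h3⟩, h4, h5, h6, h7, h8, h9⟩ := h
  obtain ⟨m0, m1, m2, m3, m4, m5⟩ := mem_span a0 a1 a2 a3 a4 a5
  apply le_antisymm
  · have u1 : S.u ∈ S.L ⊔ S.L' ⊔ lat S.u S.v :=
      AddSubgroup.mem_sup_right (mem_lat.2 ⟨1, 0, by module⟩)
    have v1 : S.v ∈ S.L ⊔ S.L' ⊔ lat S.u S.v :=
      AddSubgroup.mem_sup_right (mem_lat.2 ⟨0, 1, by module⟩)
    have l1 : a1 ∈ S.L ⊔ S.L' ⊔ lat S.u S.v :=
      AddSubgroup.mem_sup_left (AddSubgroup.mem_sup_left (by rw [← h3]; exact mem_lat.2 ⟨1, 0, by module⟩))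
    have q1 : a0 - S.u ∈ S.L ⊔ S.L' ⊔ lat S.u S.v :=
      AddSubgroup.mem_sup_left (AddSubgroup.mem_sup_left (by rw [← h3]; exact mem_lat.2 ⟨0, 1, by module⟩))
    have l2 : a4 ∈ S.L ⊔ S.L' ⊔ lat S.u S.v :=
      AddSubgroup.mem_sup_left (AddSubgroup.mem_sup_right (by rw [← h9]; exact mem_lat.2 ⟨1, 0, by module⟩))
    have q2 : a5 - S.v ∈ S.L ⊔ S.L' ⊔ lat S.u S.v :=
      AddSubgroup.mem_sup_left (AddSubgroup.mem_sup_right (by rw [← h9]; exact mem_lat.2 ⟨0, 1, by module⟩))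
    refine span_le ?_ l1 (by rw [h4]; exact u1) (by rw [h5]; exact v1) l2 ?_
    · have := add_mem q1 u1
      simpa using this
    · have := add_mem q2 v1
      simpa using this
  · have m2' : S.u ∈ H4G.span (a0, a1, a2, a3, a4, a5) := by rw [← h4]; exact m2
    have m3' : S.v ∈ H4G.span (a0, a1, a2, a3, a4, a5) := by rw [← h5]; exact m3
    refine sup_le (sup_le ?_ ?_) ?_
    · rw [← h3, AddSubgroup.closure_le]
      rintro x (rfl | rfl)
      · exact m1
      · exact sub_mem m0 m2'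
    · rw [← h9, AddSubgroup.closure_le]
      rintro x (rfl | rfl)
      · exact m4
      · exact sub_mem m5 m3'
    · rw [AddSubgroup.closure_le]
      rintro x (rfl | rfl)
      · exact m2'
      · exact m3'

theorem SEq.full {S T : PSt} (h : SEq S T) : S.Full ↔ T.Full := by
  obtain ⟨c, c', h1, h2, h3⟩ := h
  unfold PSt.Full
  rw [← h1.span, ← h2.span]
  exact h3.top

/-- PRIMITIVITY in integers: no prime divides all products -/
theorem Ad.full {S : PSt} {l p l' p' : Z2} (h : Ad S l p l' p') (hS : S.Full) {r : ℤ}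
    (h1 : r ∣ cr S.u S.v) (h2 : r ∣ cr S.u l) (h3 : r ∣ cr S.u p) (h4 : r ∣ cr p S.v)
    (h5 : r ∣ cr p l) (h6 : r ∣ cr l' S.v) (h7 : r ∣ cr S.u p') (h8 : r ∣ cr p' S.v)
    (h9 : r ∣ cr l' p') (h10 : r ∣ cr l' l) (h11 : r ∣ cr p' l) (h12 : r ∣ cr l' p)
    (h13 : r ∣ cr p' p) : r ∣ 1 := by
  have sw : ∀ x y : Z2, r ∣ cr x y → r ∣ cr y x := fun x y hxy => by
    rw [cr_swap y x]; exact (dvd_neg).2 hxy
  have key : ∀ x ∈ ({l, p, l', p', S.u, S.v} : Set Z2), ∀ y ∈ ({l, p, l', p', S.u, S.v} : Set Z2),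
      r ∣ cr x y := by
    have e1 := h.h1
    have e4 := h.h4
    rintro x (rfl | rfl | rfl | rfl | rfl | rfl) y (rfl | rfl | rfl | rfl | rfl | rfl)
    all_goals first
      | (rw [cr_self]; exact dvd_zero _)
      | assumption
      | (apply sw; assumption)
      | (rw [e1]; exact dvd_zero _)
      | (rw [e4]; exact dvd_zero _)
      | (apply sw; rw [e1]; exact dvd_zero _)
      | (apply sw; rw [e4]; exact dvd_zero _)
  have key2 : ∀ x ∈ AddSubgroup.closure ({l, p, l', p', S.u, S.v} : Set Z2),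
      ∀ y ∈ AddSubgroup.closure ({l, p, l', p', S.u, S.v} : Set Z2), r ∣ cr x y := by
    intro x hx y hy
    induction hx using AddSubgroup.closure_induction with
    | mem x hx =>
      induction hy using AddSubgroup.closure_induction with
      | mem y hy => exact key x hx y hy
      | zero => rw [cr_zero_right]; exact dvd_zero _
      | add a b _ _ ha hb => rw [cr_add_right]; exact dvd_add ha hb
      | neg a _ ha => rw [cr_neg_right]; exact (dvd_neg).2 ha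
    | zero => rw [cr_zero_left]; exact dvd_zero _
    | add a b _ _ ha hb => rw [cr_add_left]; exact dvd_add ha hb
    | neg a _ ha => rw [cr_neg_left]; exact (dvd_neg).2 ha
  have htop : AddSubgroup.closure ({l, p, l', p', S.u, S.v} : Set Z2) = ⊤ := by
    rw [eq_top_iff, ← hS, h.hL, h.hL']
    refine sup_le (sup_le ?_ ?_) ?_
    all_goals
      rw [AddSubgroup.closure_le]
      rintro x (rfl | rfl)
      all_goals exact AddSubgroup.subset_closure (by simp)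
  have := key2 (1, 0) (by rw [htop]; trivial) (0, 1) (by rw [htop]; trivial)
  simpa [cr] using this

end Pool.Agent.H4G
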