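import Mathlib

/-!
# Number theory tools: Chinese remainders in the form used for the K-level (helper40)
-/

set_option autoImplicit false

namespace Pool.Agent.H4G

/-- A common divisor which is prime spoils coprimality; conversely. -/
theorem isCoprime_of_prime {a b : ℤ}
    (h : ∀ l : ℕ, l.Prime → (l : ℤ) ∣ b → ¬ (l : ℤ) ∣ a) : IsCoprime a b := by
  rw [Int.isCoprime_iff_gcd_eq_one]
  by_contra hg
  obtain ⟨l, hl, hd⟩ := Nat.exists_prime_and_dvd hg
  have h1 : (l : ℤ) ∣ a := (Int.natCast_dvd_natCast.2 hd).trans (Int.gcd_dvd_left a b)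
  have h2 : (l : ℤ) ∣ b := (Int.natCast_dvd_natCast.2 hd).trans (Int.gcd_dvd_right a b)
  exact h l hl h2 h1

theorem not_dvd_of_isCoprime {a b : ℤ} (h : IsCoprime a b) {l : ℕ} (hl : l.Prime)
    (h1 : (l : ℤ) ∣ b) : ¬ (l : ℤ) ∣ a := by
  intro h2
  have h3 := h.isUnit_of_dvd' h2 h1
  have h4 := Int.isUnit_iff.1 h3
  have h5 := hl.one_lt
  rcases h4 with h4 | h4 <;> omega

/-- Chinese remainders for prime powers -/
theorem crt_primes (P : Finset ℕ) (hP : ∀ l ∈ P, l.Prime) (e : ℕ → ℕ) (f : ℕ → ℤ) :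
    ∃ k : ℤ, ∀ l ∈ P, ((l : ℤ) ^ (e l)) ∣ k - f l := by
  classical
  induction P using Finset.induction_on with
  | empty => exact ⟨0, by simp⟩
  | insert p P hp ih =>
    obtain ⟨k, hk⟩ := ih fun l hl => hP l (Finset.mem_insert_of_mem hl)
    have hco : IsCoprime ((p : ℤ) ^ (e p)) (∏ l ∈ P, (l : ℤ) ^ (e l)) := by
      refine IsCoprime.prod_right fun l hl => IsCoprime.pow ?_
      have hne : p ≠ l := fun h => hp (h ▸ hl)
      have := (Nat.coprime_primes (hP p (Finset.mem_insert_self p P))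
        (hP l (Finset.mem_insert_of_mem hl))).2 hne
      exact Nat.isCoprime_iff_coprime.2 this
    obtain ⟨x, y, hxy⟩ := hco
    refine ⟨k + (f p - k) * (y * ∏ l ∈ P, (l : ℤ) ^ (e l)), fun l hl => ?_⟩
    rcases Finset.mem_insert.1 hl with rfl | hl
    · refine ⟨-(f l - k) * x, ?_⟩
      linear_combination (f l - k) * hxy
    · have h1 : (l : ℤ) ^ (e l) ∣ ∏ l ∈ P, (l : ℤ) ^ (e l) := Finset.dvd_prod_of_mem _ hl
      have h2 := hk l hl
      have : k + (f p - k) * (y * ∏ l ∈ P, (l : ℤ) ^ (e l)) - f l =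
          (k - f l) + (f p - k) * y * ∏ l ∈ P, (l : ℤ) ^ (e l) := by ring
      rw [this]
      exact dvd_add h2 (h1.mul_left _)

/-- Chinese remainders for the prime divisors of `D` -/
theorem crt_dvd (D : ℤ) (hD : D ≠ 0) (f : ℕ → ℤ) :
    ∃ k : ℤ, ∀ l : ℕ, l.Prime → (l : ℤ) ∣ D → (l : ℤ) ∣ k - f l := by
  obtain ⟨k, hk⟩ := crt_primes D.natAbs.primeFactors (fun l hl => Nat.prime_of_mem_primeFactors hl)
    (fun _ => 1) f
  refine ⟨k, fun l hl hd => ?_⟩
  have h1 : l ∈ D.natAbs.primeFactors := by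
    rw [Nat.mem_primeFactors]
    exact ⟨hl, Int.natCast_dvd.1 hd, by simpa using hD⟩
  simpa using hk l h1

/-- choose `k` prime by prime: for every prime `l ∣ D` the condition `Q l` on `k` depends only on
`k` modulo `l` and is satisfiable -/
theorem crt_exists (D : ℤ) (hD : D ≠ 0) (Q : ℕ → ℤ → Prop)
    (h1 : ∀ l : ℕ, l.Prime → (l : ℤ) ∣ D → ∃ k, Q l k)
    (h2 : ∀ l : ℕ, l.Prime → (l : ℤ) ∣ D → ∀ k k' : ℤ, (l : ℤ) ∣ k' - k → Q l k → Q l k') :
    ∃ k : ℤ, ∀ l : ℕ, l.Prime → (l : ℤ) ∣ D → Q l k := by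
  classical
  obtain ⟨k, hk⟩ := crt_dvd D hD
    (fun l => if h : l.Prime ∧ (l : ℤ) ∣ D then (h1 l h.1 h.2).choose else 0)
  refine ⟨k, fun l hl hd => ?_⟩
  have h3 := hk l hl hd
  rw [dif_pos ⟨hl, hd⟩] at h3
  exact h2 l hl hd _ _ h3 (h1 l hl hd).choose_spec

/-- a residue class coprime to the modulus contains integers coprime to `d` -/
theorem coprime_shift (c s d : ℤ) (hd : d ≠ 0)
    (h : ∀ l : ℕ, l.Prime → (l : ℤ) ∣ d → (l : ℤ) ∣ s → ¬ (l : ℤ) ∣ c) :
    ∃ t : ℤ, IsCoprime (c + s * t) d := by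
  have key : ∃ t : ℤ, ∀ l : ℕ, l.Prime → (l : ℤ) ∣ d → ¬ (l : ℤ) ∣ c + s * t := by
   apply crt_exists d hd (fun l t => ¬ (l : ℤ) ∣ c + s * t)
   · intro l hl hd
     by_cases hs : (l : ℤ) ∣ s
     · exact ⟨0, by simpa using h l hl hd hs⟩
     · by_cases hc : (l : ℤ) ∣ c
       · refine ⟨1, fun h1 => hs ?_⟩
         have := dvd_sub h1 hc
         simpa using this
       · exact ⟨0, by simpa using hc⟩
   · intro l hl hd k k' h1 h2 h3
     apply h2
     have : c + s * k = (c + s * k') - s * (k' - k) := by ring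
     rw [this]
     exact dvd_sub h3 (h1.mul_left s)
  obtain ⟨t, ht⟩ := key
  exact ⟨t, isCoprime_of_prime ht⟩

theorem prime_not_dvd_one {l : ℕ} (hl : l.Prime) : ¬ (l : ℤ) ∣ 1 := by
  intro h
  have := Int.isUnit_iff.1 (isUnit_of_dvd_one h)
  have h6 := hl.one_lt
  rcases this with h | h <;> omega

/-- THE CRT LEMMA of the V-twists: if no pair `j B₁, g - j B₂` has a gcd smaller than `g`, then
`g ∣ B₁, B₂`. -/
theorem crt_min {g B1 B2 : ℤ} (hg : 0 < g) (hB1 : B1 ≠ 0)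
    (hmin : ∀ j : ℤ, g ≤ Int.gcd (j * B1) (g - j * B2)) : g ∣ B1 ∧ g ∣ B2 := by
  set G : ℤ := ((Int.gcd g ((Int.gcd B1 B2 : ℕ) : ℤ) : ℕ) : ℤ) with hG
  have hGpos : 0 < G := by
    rw [hG]
    have : 0 < Int.gcd g (Int.gcd B1 B2) := Int.gcd_pos_of_ne_zero_left _ hg.ne'
    exact_mod_cast this
  obtain ⟨g', hg'⟩ : G ∣ g := by rw [hG]; exact Int.gcd_dvd_left _ _
  have hB : G ∣ (Int.gcd B1 B2 : ℤ) := by rw [hG]; exact Int.gcd_dvd_right _ _
  have hB1' : G ∣ B1 := hB.trans (Int.gcd_dvd_left _ _)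
  have hB2' : G ∣ B2 := hB.trans (Int.gcd_dvd_right _ _)
  obtain ⟨b1, hb1⟩ := hB1'
  obtain ⟨b2, hb2⟩ := hB2'
  have hg'0 : 0 < g' := by
    rcases lt_trichotomy g' 0 with h | h | h
    · have := mul_neg_of_pos_of_neg hGpos h
      omega
    · rw [h, mul_zero] at hg'; omega
    · exact h
  have hb10 : b1 ≠ 0 := by rintro rfl; exact hB1 (by rw [hb1, mul_zero])
  have hcop : ∀ l : ℕ, l.Prime → (l : ℤ) ∣ g' → (l : ℤ) ∣ b1 → ¬ (l : ℤ) ∣ b2 := by
    intro l hl h1 h2 h3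
    have h4 : G * l ∣ G := by
      conv_rhs => rw [hG]
      refine Int.dvd_coe_gcd ?_ (Int.dvd_coe_gcd ?_ ?_)
      · rw [hg']; exact mul_dvd_mul_left G h1
      · rw [hb1]; exact mul_dvd_mul_left G h2
      · rw [hb2]; exact mul_dvd_mul_left G h3
    have h5 : (l : ℤ) ∣ 1 := by
      have : G * l ∣ G * 1 := by rwa [mul_one]
      exact (mul_dvd_mul_iff_left hGpos.ne').1 this
    exact prime_not_dvd_one hl h5
  obtain ⟨j, hj⟩ := crt_exists (g' * b1) (mul_ne_zero hg'0.ne' hb10)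
    (fun l j => ((l : ℤ) ∣ g' → ¬ (l : ℤ) ∣ j) ∧ ((l : ℤ) ∣ b1 → ¬ (l : ℤ) ∣ g' - j * b2))
    (fun l hl _ => by
      by_cases h1 : (l : ℤ) ∣ g'
      · refine ⟨1, fun _ => prime_not_dvd_one hl, fun h2 h3 => hcop l hl h1 h2 ?_⟩
        have := dvd_sub h1 h3
        simpa using this
      · exact ⟨0, fun h => absurd h h1, fun _ => by simpa using h1⟩)
    (fun l hl _ k k' h1 h2 => by
      refine ⟨fun h3 h4 => h2.1 h3 ?_, fun h3 h4 => h2.2 h3 ?_⟩
      · have := dvd_sub h4 h1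
        simpa using this
      · have : g' - k * b2 = (g' - k' * b2) + (k' - k) * b2 := by ring
        rw [this]
        exact dvd_add h4 (h1.mul_right b2))
  have key : Int.gcd (j * b1) (g' - j * b2) = 1 := by
    by_contra hne
    obtain ⟨l, hl, hd⟩ := Nat.exists_prime_and_dvd hne
    have k1 : (l : ℤ) ∣ j * b1 := (Int.natCast_dvd_natCast.2 hd).trans (Int.gcd_dvd_left _ _)
    have k2 : (l : ℤ) ∣ g' - j * b2 := (Int.natCast_dvd_natCast.2 hd).trans (Int.gcd_dvd_right _ _)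
    rcases (Nat.prime_iff_prime_int.1 hl).dvd_or_dvd k1 with h | h
    · have h3 : (l : ℤ) ∣ g' := by
        have := dvd_add k2 (h.mul_right b2)
        simpa using this
      exact (hj l hl (h3.mul_right _)).1 h3 h
    · exact (hj l hl (h.mul_left _)).2 h k2
  have h1 := hmin j
  have e1 : j * B1 = G * (j * b1) := by rw [hb1]; ring
  have e2 : g - j * B2 = G * (g' - j * b2) := by
    conv_lhs => rw [hg', hb2]
    ring
  rw [e1, e2, Int.gcd_mul_left, key, mul_one, Int.natAbs_of_nonneg hGpos.le] at h1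
  have h3 : g' = 1 := by
    have : G * g' ≤ G * 1 := by rw [mul_one, ← hg']; exact h1
    have := le_of_mul_le_mul_left this hGpos
    omega
  rw [h3, mul_one] at hg'
  rw [hg', hb1, hb2]
  exact ⟨⟨b1, rfl⟩, ⟨b2, rfl⟩⟩

end Pool.Agent.H4G
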