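import Mathlib
import Pool.Agent.H4G.Arith.Crt

/-!
# LEMMA B and LEMMA B' of the K-level page (row R2; helper64)

Pure arithmetic: on the residues `1, ..., m - 1`, `m` odd, the orbits `x -> x / (1 + k x)` and the
pairs `{2 y - 1, 2 y}` (respectively `{2 y, 2 y + 1}`) generate one class.
-/

set_option autoImplicit false

namespace Pool.Agent.H4G.LemB

/-- an inverse of a number prime to `m`, in the form needed below -/
theorem exists_quot {m x : ℕ} {c : ℤ} (hx : 0 < x) (hxm : x < m) (hc : IsCoprime c (m : ℤ)) :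
    ∃ x' : ℕ, 0 < x' ∧ x' < m ∧ (m : ℤ) ∣ (x' : ℤ) * c - x := by
  obtain ⟨a, b, hab⟩ := hc
  have hm0 : (0 : ℤ) < m := by exact_mod_cast (lt_trans hx hxm)
  have h1 : 0 ≤ ((x : ℤ) * a) % m := Int.emod_nonneg _ hm0.ne'
  have h2 : ((x : ℤ) * a) % m < m := Int.emod_lt_of_pos _ hm0
  have h3 : ((((x : ℤ) * a) % m).toNat : ℤ) = ((x : ℤ) * a) % m := Int.toNat_of_nonneg h1
  have h4 : (m : ℤ) ∣ ((((x : ℤ) * a) % m).toNat : ℤ) * c - x := by
    rw [h3]
    have h5 : (m : ℤ) ∣ ((x : ℤ) * a) % m - (x : ℤ) * a :=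
      ⟨-(((x : ℤ) * a) / m), by have := Int.emod_add_mul_ediv ((x : ℤ) * a) m; linear_combination this⟩
    obtain ⟨t, ht⟩ := h5
    refine ⟨t * c - x * b, ?_⟩
    linear_combination c * ht + (x : ℤ) * hab
  refine ⟨(((x : ℤ) * a) % m).toNat, ?_, ?_, h4⟩
  · rcases Nat.eq_zero_or_pos (((x : ℤ) * a) % m).toNat with h | h
    · exfalso
      rw [h] at h4
      have h6 : (m : ℤ) ∣ x := by
        have := (dvd_neg (α := ℤ)).2 h4
        simpa using this
      have h7 : m ∣ x := by exact_mod_cast h6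
      exact absurd (Nat.le_of_dvd hx h7) (not_le.2 hxm)
    · exact h
  · zify; rw [h3]; exact h2

/-- the choice of `k` and of the quotient -/
theorem exists_step {m x : ℕ} (hm : Odd m) (hx : 0 < x) (hxm : x < m) :
    ∃ k x' : ℕ, 0 < x' ∧ x' < m ∧ IsCoprime (1 + (k : ℤ) * x) (m : ℤ) ∧
      (m : ℤ) ∣ (x' : ℤ) * (1 + (k : ℤ) * x) - x ∧
      ∀ l : ℕ, l.Prime → l ∣ m → (l ∣ x → l ∣ x') ∧ (¬ l ∣ x → (l : ℤ) ∣ (x' : ℤ) - 2) := by
  have hm0 : (m : ℤ) ≠ 0 := by have := lt_trans hx hxm; exact_mod_cast this.ne'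
  have hmpos : (0 : ℤ) < m := by exact_mod_cast (lt_trans hx hxm)
  have hodd : ∀ l : ℕ, l.Prime → l ∣ m → l ≠ 2 := by
    rintro l - hd rfl
    exact (Nat.not_even_iff_odd.2 hm) (even_iff_two_dvd.2 hd)
  have hex : ∀ l : ℕ, ∃ f : ℤ, l.Prime → l ∣ m → (¬ l ∣ x → (l : ℤ) ∣ 2 * (1 + f * x) - x) := by
    intro l
    by_cases h : l.Prime ∧ l ∣ m ∧ ¬ l ∣ x
    · obtain ⟨hl, hd, hn⟩ := h
      have hc : IsCoprime ((2 * x : ℕ) : ℤ) (l : ℤ) := by
        rw [Nat.isCoprime_iff_coprime]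
        have h2 : Nat.Coprime 2 l := (Nat.coprime_primes Nat.prime_two hl).2 (hodd l hl hd).symm
        have h3 : Nat.Coprime x l := ((Nat.Prime.coprime_iff_not_dvd hl).2 hn).symm
        exact Nat.Coprime.mul_left h2 h3
      obtain ⟨a, b, hab⟩ := hc
      refine ⟨((x : ℤ) - 2) * a, fun _ _ _ => ⟨-((x : ℤ) - 2) * b, ?_⟩⟩
      push_cast at hab
      linear_combination ((x : ℤ) - 2) * hab
    · exact ⟨0, fun h1 h2 h3 => absurd ⟨h1, h2, h3⟩ h⟩
  choose f hf using hex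
  obtain ⟨k, hk⟩ := crt_dvd (m : ℤ) hm0 (fun l => if l ∣ x then 0 else f l)
  -- make `k` natural
  obtain ⟨k, hk⟩ : ∃ k' : ℕ, ∀ l : ℕ, l.Prime → (l : ℤ) ∣ (m : ℤ) →
      (l : ℤ) ∣ (k' : ℤ) - (if l ∣ x then 0 else f l) := by
    refine ⟨(k % m).toNat, fun l hl hd => ?_⟩
    have h3 : (((k % m).toNat : ℕ) : ℤ) = k % m := Int.toNat_of_nonneg (Int.emod_nonneg _ hm0)
    rw [h3]
    have h5 : (m : ℤ) ∣ k % m - k := ⟨-(k / m), by have := Int.emod_add_mul_ediv k m; linear_combination this⟩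
    have h6 := hk l hl hd
    have : k % m - (if l ∣ x then 0 else f l) = (k % m - k) + (k - if l ∣ x then 0 else f l) := by ring
    rw [this]
    exact dvd_add (hd.trans h5) h6
  have hkey : ∀ l : ℕ, l.Prime → l ∣ m → ¬ l ∣ x → (l : ℤ) ∣ 2 * (1 + (k : ℤ) * x) - x := by
    intro l hl hd hn
    have h1 := hk l hl (by exact_mod_cast hd)
    rw [if_neg hn] at h1
    have h2 := hf l hl hd hn
    have : 2 * (1 + (k : ℤ) * x) - x = (2 * (1 + f l * x) - x) + ((k : ℤ) - f l) * (2 * x) := by ring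
    rw [this]
    exact dvd_add h2 (h1.mul_right _)
  have hcop : IsCoprime (1 + (k : ℤ) * x) (m : ℤ) := by
    refine isCoprime_of_prime fun l hl hd hn => ?_
    have hd' : l ∣ m := by exact_mod_cast hd
    by_cases hlx : l ∣ x
    · have h1 : (l : ℤ) ∣ (k : ℤ) * x := Dvd.dvd.mul_left (by exact_mod_cast hlx) _
      have h2 : (l : ℤ) ∣ 1 := by
        have := dvd_sub hn h1
        simpa using this
      have h3 : l ∣ 1 := by exact_mod_cast h2
      exact hl.one_lt.ne' (Nat.dvd_one.1 h3)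
    · have h1 := hkey l hl hd' hlx
      have h2 : (l : ℤ) ∣ x := by
        have := dvd_sub (hn.mul_left 2) h1
        simpa using this
      exact hlx (by exact_mod_cast h2)
  obtain ⟨x', hx0, hx1, hx2⟩ := exists_quot hx hxm hcop
  refine ⟨k, x', hx0, hx1, hcop, hx2, fun l hl hd => ⟨fun hlx => ?_, fun hlx => ?_⟩⟩
  · have hd' : (l : ℤ) ∣ (m : ℤ) := by exact_mod_cast hd
    have h1 : (l : ℤ) ∣ (x' : ℤ) * (1 + (k : ℤ) * x) := by
      have h2 : (l : ℤ) ∣ (x : ℤ) := by exact_mod_cast hlx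
      have := dvd_add (hd'.trans hx2) h2
      simpa using this
    have h3 := (Nat.prime_iff_prime_int.1 hl).dvd_or_dvd h1
    rcases h3 with h3 | h3
    · exact_mod_cast h3
    · exact absurd h3 (not_dvd_of_isCoprime hcop hl hd')
  · have hd' : (l : ℤ) ∣ (m : ℤ) := by exact_mod_cast hd
    have h1 := hkey l hl hd hlx
    have h2 : (l : ℤ) ∣ ((x' : ℤ) - 2) * (1 + (k : ℤ) * x) := by
      have h3 := dvd_sub (hd'.trans hx2) h1
      have h4 : ((x' : ℤ) - 2) * (1 + (k : ℤ) * x) =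
          ((x' : ℤ) * (1 + (k : ℤ) * x) - x) - (2 * (1 + (k : ℤ) * x) - x) := by ring
      rw [h4]; exact h3
    rcases (Nat.prime_iff_prime_int.1 hl).dvd_or_dvd h2 with h3 | h3
    · exact h3
    · exact absurd h3 (not_dvd_of_isCoprime hcop hl hd')

section
variable {m : ℕ} {R : ℕ → ℕ → Prop}

/-- a unit is equivalent to `1` -/
theorem unit_one
    (hV : ∀ x x' k : ℕ, 0 < x → x < m → 0 < x' → x' < m → IsCoprime (1 + (k : ℤ) * x) (m : ℤ) →
      (m : ℤ) ∣ (x' : ℤ) * (1 + (k : ℤ) * x) - x → R x x')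
    {x : ℕ} (hx : 0 < x) (hxm : x < m) (hm1 : 1 < m) (hc : IsCoprime (x : ℤ) (m : ℤ)) : R x 1 := by
  obtain ⟨a, b, hab⟩ := hc
  have hm0 : (m : ℤ) ≠ 0 := by exact_mod_cast (lt_trans hx hxm).ne'
  have h3 : ((((a * ((x : ℤ) - 1)) % m).toNat : ℕ) : ℤ) = (a * ((x : ℤ) - 1)) % m :=
    Int.toNat_of_nonneg (Int.emod_nonneg _ hm0)
  have h5 : (m : ℤ) ∣ (a * ((x : ℤ) - 1)) % m - (a * ((x : ℤ) - 1)) :=
    ⟨-((a * ((x : ℤ) - 1)) / m), by
      have := Int.emod_add_mul_ediv (a * ((x : ℤ) - 1)) m; linear_combination this⟩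
  obtain ⟨t, ht⟩ := h5
  have h6 : 1 + ((((a * ((x : ℤ) - 1)) % m).toNat : ℕ) : ℤ) * x
      = x + (m : ℤ) * (t * x - b * ((x : ℤ) - 1)) := by
    rw [h3]; linear_combination (x : ℤ) * ht + ((x : ℤ) - 1) * hab
  refine hV x 1 ((a * ((x : ℤ) - 1)) % m).toNat hx hxm one_pos hm1 ?_ ?_
  · rw [h6]
    refine ⟨a, b - a * (t * x - b * ((x : ℤ) - 1)), ?_⟩
    linear_combination hab
  · rw [h6]
    exact ⟨t * x - b * ((x : ℤ) - 1), by push_cast; ring⟩

/-- one step followed by a partner move -/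
theorem finish (hm : Odd m) (hm3 : 3 ≤ m)
    (ht : ∀ x y z : ℕ, R x y → R y z → R x z)
    (hV : ∀ x x' k : ℕ, 0 < x → x < m → 0 < x' → x' < m → IsCoprime (1 + (k : ℤ) * x) (m : ℤ) →
      (m : ℤ) ∣ (x' : ℤ) * (1 + (k : ℤ) * x) - x → R x x')
    (hP : ∀ x : ℕ, 0 < x → x < m → IsCoprime (x : ℤ) (m : ℤ) ∨
      ∃ y : ℕ, 0 < y ∧ y < m ∧ R x y ∧ ((y : ℤ) = x + 1 ∨ (y : ℤ) = x - 1)) :
    ∀ x : ℕ, 0 < x → x < m → R x 1 := by
  -- one round
  have round : ∀ x : ℕ, 0 < x → x < m → ∃ t : ℕ, 0 < t ∧ t < m ∧ R x t ∧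
      ∀ l : ℕ, l.Prime → l ∣ m → l ∣ t → l = 3 ∧ ¬ 3 ∣ x := by
    intro x hx hxm
    obtain ⟨k, x', h0, h1, hc, hd, hl⟩ := exists_step hm hx hxm
    have hR := hV x x' k hx hxm h0 h1 hc hd
    rcases hP x' h0 h1 with hu | ⟨y, hy0, hym, hRy, hy⟩
    · refine ⟨x', h0, h1, hR, fun l hlp hlm hlx => ?_⟩
      exact absurd (by exact_mod_cast hlx) (not_dvd_of_isCoprime hu hlp (by exact_mod_cast hlm))
    · refine ⟨y, hy0, hym, ht _ _ _ hR hRy, fun l hlp hlm hly => ?_⟩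
      have hly' : (l : ℤ) ∣ (y : ℤ) := by exact_mod_cast hly
      by_cases hlx : l ∣ x
      · exfalso
        have h2 : (l : ℤ) ∣ (x' : ℤ) := by exact_mod_cast (hl l hlp hlm).1 hlx
        have h3 : (l : ℤ) ∣ 1 := by
          rcases hy with hy | hy
          · have := dvd_sub hly' h2; rw [hy] at this; simpa using this
          · have := dvd_sub h2 hly'; rw [hy] at this; simpa using this
        have h4 : l ∣ 1 := by exact_mod_cast h3
        exact hlp.one_lt.ne' (Nat.dvd_one.1 h4)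
      · have h2 := (hl l hlp hlm).2 hlx
        rcases hy with hy | hy
        · have h3 : (l : ℤ) ∣ 3 := by
            have := dvd_sub hly' h2; rw [hy] at this
            have h4 : (x' : ℤ) + 1 - ((x' : ℤ) - 2) = 3 := by ring
            rwa [h4] at this
          have h4 : l ∣ 3 := by exact_mod_cast h3
          have h5 := (Nat.prime_dvd_prime_iff_eq hlp Nat.prime_three).1 h4
          exact ⟨h5, h5 ▸ hlx⟩
        · exfalso
          have h3 : (l : ℤ) ∣ 1 := by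
            have := dvd_sub hly' h2; rw [hy] at this
            have h4 : (x' : ℤ) - 1 - ((x' : ℤ) - 2) = 1 := by ring
            rwa [h4] at this
          have h4 : l ∣ 1 := by exact_mod_cast h3
          exact hlp.one_lt.ne' (Nat.dvd_one.1 h4)
  have hunit : ∀ t : ℕ, 0 < t → t < m → (∀ l : ℕ, l.Prime → l ∣ m → ¬ l ∣ t) → R t 1 := by
    intro t h0 h1 h2
    refine unit_one hV h0 h1 (by omega) ?_
    exact isCoprime_of_prime fun l hl hd hn => h2 l hl (by exact_mod_cast hd) (by exact_mod_cast hn)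
  intro x hx hxm
  obtain ⟨t, ht0, htm, hRt, htl⟩ := round x hx hxm
  by_cases h3 : 3 ∣ m ∧ 3 ∣ t
  · obtain ⟨s, hs0, hsm, hRs, hsl⟩ := round t ht0 htm
    refine ht _ _ _ hRt (ht _ _ _ hRs (hunit s hs0 hsm fun l hl hd hn => ?_))
    exact (hsl l hl hd hn).2 h3.2
  · refine ht _ _ _ hRt (hunit t ht0 htm fun l hl hd hn => ?_)
    have h4 := htl l hl hd hn
    obtain ⟨h5, -⟩ := h4
    subst h5
    exact h3 ⟨hd, hn⟩

end

/-- **LEMMA B.** -/
theorem lemB {m : ℕ} (hm : Odd m) (hm3 : 3 ≤ m) (R : ℕ → ℕ → Prop)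
    (hs : ∀ x y : ℕ, R x y → R y x) (ht : ∀ x y z : ℕ, R x y → R y z → R x z)
    (hV : ∀ x x' k : ℕ, 0 < x → x < m → 0 < x' → x' < m → IsCoprime (1 + (k : ℤ) * x) (m : ℤ) →
      (m : ℤ) ∣ (x' : ℤ) * (1 + (k : ℤ) * x) - x → R x x')
    (hP : ∀ y : ℕ, 1 ≤ y → 2 * y < m → R (2 * y - 1) (2 * y)) :
    ∀ x : ℕ, 0 < x → x < m → R x 1 := by
  refine finish hm hm3 ht hV fun x hx hxm => Or.inr ?_
  obtain ⟨q, hq⟩ := hm
  rcases Nat.even_or_odd' x with ⟨y, hy | hy⟩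
  · refine ⟨2 * y - 1, by omega, by omega, ?_, Or.inr (by omega)⟩
    rw [hy]
    exact hs _ _ (hP y (by omega) (by omega))
  · refine ⟨2 * (y + 1), by omega, by omega, ?_, Or.inl (by push_cast; omega)⟩
    have h1 := hP (y + 1) (by omega) (by omega)
    have h2 : 2 * (y + 1) - 1 = x := by omega
    rwa [h2] at h1

/-- **LEMMA B'.** -/
theorem lemB' {m : ℕ} (hm : Odd m) (hm3 : 3 ≤ m) (R : ℕ → ℕ → Prop)
    (hs : ∀ x y : ℕ, R x y → R y x) (ht : ∀ x y z : ℕ, R x y → R y z → R x z)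
    (hV : ∀ x x' k : ℕ, 0 < x → x < m → 0 < x' → x' < m → IsCoprime (1 + (k : ℤ) * x) (m : ℤ) →
      (m : ℤ) ∣ (x' : ℤ) * (1 + (k : ℤ) * x) - x → R x x')
    (hP : ∀ y : ℕ, 1 ≤ y → 2 * y + 1 < m → R (2 * y) (2 * y + 1)) :
    ∀ x : ℕ, 0 < x → x < m → R x 1 := by
  refine finish hm hm3 ht hV fun x hx hxm => ?_
  obtain ⟨q, hq⟩ := hm
  rcases Nat.even_or_odd' x with ⟨y, hy | hy⟩
  · by_cases h : 2 * y + 1 < m
    · refine Or.inr ⟨2 * y + 1, by omega, h, ?_, Or.inl (by omega)⟩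
      rw [hy]
      exact hP y (by omega) h
    · left
      have h1 : (m : ℤ) = x + 1 := by omega
      exact ⟨-1, 1, by rw [h1]; ring⟩
  · by_cases h : y = 0
    · left
      have h1 : x = 1 := by omega
      rw [h1]
      exact isCoprime_one_left
    · refine Or.inr ⟨2 * y, by omega, by omega, ?_, Or.inr (by omega)⟩
      rw [hy]
      exact hs _ _ (hP y (by omega) (by omega))

end Pool.Agent.H4G.LemB
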