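import Pool.Agent.H4G.Arith.LMove
import Pool.Agent.H4G.Arith.LemB

/-!
# The K-states of areas `(3, m)` with `c = d = 1` (row R9, helper41)

`Z(3, z; m, x)` is `KC 3 z (-1) m 1 (-x)`.  For `m` odd, `m ≥ 3`, `3 ∤ m + 1`, all the admissible
states of this form are equivalent.
-/

set_option autoImplicit false

namespace Pool.Agent.H4G.K2b

open scoped MatrixGroups

/-! ## A lattice in congruence form in a basis `(u, v)` -/

theorem map_basis {g : SL(2, ℤ)} {u v : Z2} (hcr : cr u v = 1) (hu : act g u = (1, 0))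
    (hv : act g v = (0, 1)) (a A1 A2 : ℤ) :
    (Lc a A1 A2).map (act g) = Lc a (A1 * u.1 + A2 * u.2) (A1 * v.1 + A2 * v.2) := by
  have hact : ∀ s t : ℤ, act g (s • u + t • v) = (s, t) := by
    intro s t
    rw [map_add, act_smul, act_smul, hu, hv]
    ext <;> simp
  have hval : ∀ s t : ℤ, A1 * (s • u + t • v).1 + A2 * (s • u + t • v).2 =
      (A1 * u.1 + A2 * u.2) * s + (A1 * v.1 + A2 * v.2) * t := by
    intro s t
    simp only [Prod.fst_add, Prod.snd_add, Prod.smul_fst, Prod.smul_snd, smul_eq_mul]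
    ring
  ext w
  rw [AddSubgroup.mem_map]
  constructor
  · rintro ⟨x, hx, rfl⟩
    have e : x = (cr x v) • u + (cr u x) • v := by
      have := cr_expand u v x
      rw [hcr, one_smul, cr_swap x u] at this
      exact this.trans (by module)
    rw [e] at hx ⊢
    rw [hact]
    rw [mem_Lc, hval] at hx
    rw [mem_Lc]
    exact hx
  · intro hw
    refine ⟨w.1 • u + w.2 • v, ?_, ?_⟩
    · rw [mem_Lc, hval]
      rw [mem_Lc] at hw
      exact hw
    · rw [hact]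

/-! ## Admissibility -/

theorem ok_aux {m x : ℤ} (hx : 0 < x) (hxm : x < m) : (KC 3 1 (-1) m 1 (-x)).Ok := by
  have hm : 0 < m := hx.trans hxm
  refine ⟨((1, 3), (-1, -1), (1, 0), (0, 1), (-x, -1), (m, 1)), ⟨?_, ?_, ?_⟩, rfl, rfl, ?_,
    ?_, ?_, ?_⟩
  · simp [cr]
  · simp [cr, KC, KS]
  · have h1 : ((1, 3) : Z2) - (KC 3 1 (-1) m 1 (-x)).u = (0, 3) := by
      simp [KC, KS]
    rw [h1]
    show lat (-1, -1) (0, 3) = Lc 3 1 (-1)
    rw [Lcz_eq_lat (by norm_num)]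
    exact closure_pair_eq (α := 0) (β := -1) (γ := 1) (δ := 0) (by ext <;> simp)
      (by ext <;> simp) (Or.inl (by norm_num))
  · simp [cr, KC, KS]
  · simp [cr, KC, KS]; exact hx
  · simp [cr]; linarith
  · have h1 : ((m, 1) : Z2) - (KC 3 1 (-1) m 1 (-x)).v = (m, 0) := by
      simp [KC, KS]
    rw [h1]
    show lat (-x, -1) (m, 0) = Lc m 1 (-x)
    have h2 := Lc_eq_lat' (r := m) (c := 1) (p1 := 1) (q := -x) (x := x) hm one_pos
      isCoprime_one_left isCoprime_one_right ⟨0, by ring⟩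
    rw [mul_one, mul_one] at h2
    rw [h2]
    exact closure_pair_eq (α := 0) (β := -1) (γ := 1) (δ := 0) (by ext <;> simp)
      (by ext <;> simp) (Or.inl (by norm_num))

/-- reduction of `x` modulo `m` -/
theorem red {m x : ℤ} (hm : 0 < m) (hx : ¬ m ∣ x) :
    0 < x % m ∧ x % m < m ∧ m ∣ x % m - x := by
  refine ⟨?_, Int.emod_lt_of_pos _ hm, ⟨-(x / m), ?_⟩⟩
  · rcases (Int.emod_nonneg x hm.ne').lt_or_eq with h | h
    · exact h
    · exact absurd (Int.dvd_of_emod_eq_zero h.symm) hx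
  · have := Int.emod_add_mul_ediv x m
    linear_combination this

theorem okC {m x : ℤ} (hm : 0 < m) (hx : ¬ m ∣ x) : (KC 3 1 (-1) m 1 (-x)).Ok := by
  obtain ⟨h1, h2, h3⟩ := red hm hx
  have e : KC 3 1 (-1) m 1 (-x) = KC 3 1 (-1) m 1 (-(x % m)) :=
    KC.congr (by simp) (by simp) (by simp) (by
      have := (dvd_neg (α := ℤ)).2 h3
      have e : -(x % m) - -x = -(x % m - x) := by ring
      rw [e]; exact this)
  rw [e]
  exact ok_aux h1 h2

/-! ## H-freedom and V-freedom -/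

theorem zfree {z m q : ℤ} (hm : 0 < m) (h3 : ¬ (3 : ℤ) ∣ m + 1)
    (hok : (KC 3 z (-1) m 1 q).Ok) : SEq (KC 3 z (-1) m 1 q) (KC 3 1 (-1) m 1 q) := by
  have hz := (KC.ok_iff hok).1
  have h1 : z % 3 = 1 ∨ z % 3 = 2 := by omega
  rcases h1 with h1 | h1
  · have e : KC 3 z (-1) m 1 q = KC 3 1 (-1) m 1 q :=
      KC.congr (by omega) (by simp) (by simp) (by simp)
    rw [e] at hok ⊢
    exact hok.seq
  · have h2 : ∃ k : ℤ, (3 : ℤ) ∣ 2 + k * (m + 1) * z := by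
      obtain ⟨s, hs⟩ : ∃ s, z = 3 * s + 2 := ⟨z / 3, by omega⟩
      have h4 : (m + 1) % 3 = 1 ∨ (m + 1) % 3 = 2 := by omega
      rcases h4 with h4 | h4
      · obtain ⟨t, ht⟩ : ∃ t, m + 1 = 3 * t + 1 := ⟨(m + 1) / 3, by omega⟩
        rw [hs, ht]
        exact ⟨2, 2 + 6 * t * s + 4 * t + 2 * s, by ring⟩
      · obtain ⟨t, ht⟩ : ∃ t, m + 1 = 3 * t + 2 := ⟨(m + 1) / 3, by omega⟩
        rw [hs, ht]
        exact ⟨1, 2 + 3 * t * s + 2 * t + 2 * s, by ring⟩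
    obtain ⟨k, hk⟩ := h2
    have h5 := KC.H1 (a := 3) (p := z) (q := -1) (a' := m) (p' := 1) (q' := q) hm
      isCoprime_one_left k hok
    have e1 : KC 3 z (-1 - k * (m + 1) * z) m 1 q = KC 3 ((-1) * 1) ((-1) * (-1)) m 1 q :=
      KC.congr (by omega) (by
        have e : (-1) * (-1) - (-1 - k * (m + 1) * z) = 2 + k * (m + 1) * z := by ring
        rw [e]; exact hk) (by simp) (by simp)
    have e2 : KC 3 ((-1) * 1) ((-1) * (-1)) m 1 q = KC 3 1 (-1) m 1 q :=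
      KC.unit (isCoprime_one_right.neg_right)
    rw [e1, e2] at h5
    exact h5

theorem isCoprime_pow_two {m : ℤ} (hm : Odd m) : IsCoprime 8 m := by
  obtain ⟨t, ht⟩ := hm
  have h : IsCoprime 2 m := ⟨-t, 1, by rw [ht]; ring⟩
  have := h.pow_left (m := 3)
  norm_num at this
  exact this

theorem isCoprime_two {m : ℤ} (hm : Odd m) : IsCoprime m 2 := by
  obtain ⟨t, ht⟩ := hm
  exact ⟨1, -t, by rw [ht]; ring⟩

/-- the V-move on `C (x)`: `x ↦ x / (1 + 4 j x)` -/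
theorem vfree {m x x' j : ℤ} (hx : (KC 3 1 (-1) m 1 (-x)).Ok)
    (hc : IsCoprime m (1 + 4 * j * x)) (h : m ∣ x' * (1 + 4 * j * x) - x) :
    SEq (KC 3 1 (-1) m 1 (-x)) (KC 3 1 (-1) m 1 (-x')) := by
  have h1 := KC.V1 (a := 3) (p := 1) (q := -1) (a' := m) (p' := 1) (q' := -x) (by norm_num)
    isCoprime_one_left.neg_left j hx
  have e1 : KC 3 1 (-1) m (1 - j * (3 + 1) * -x) (-x) =
      KC 3 1 (-1) m ((1 + 4 * j * x) * 1) ((1 + 4 * j * x) * (-x')) :=
    KC.congr (by simp) (by simp) ⟨0, by ring⟩ (by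
      have e : (1 + 4 * j * x) * (-x') - -x = -(x' * (1 + 4 * j * x) - x) := by ring
      rw [e]; exact (dvd_neg).2 h)
  rw [e1, KC.unit' hc] at h1
  exact h1

/-! ## The class of a state behind `(v₁, L')` -/

/-- Every state with areas `(3, m)`, `A = 1`, left content `1` and a vector `e` with `e × v = 1`,
`2 A(e) ≡ 1 + A(v) mod m`, is the K-state `(3; 1, -1 | m; 1, 2 A(v))`. -/
theorem toC {L1 : AddSubgroup Z2} {u v e : Z2} {m A1 A2 : ℤ} (hm : 0 < m) (hodd : Odd m)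
    (h3 : ¬ (3 : ℤ) ∣ m + 1) (hok : PSt.Ok ⟨L1, u, v, Lc m A1 A2⟩) (hcr : cr u v = 1)
    (hA : IsArea L1 3) (hC : IsC L1 v 1) (he : cr e v = 1)
    (h2 : m ∣ 2 * (A1 * e.1 + A2 * e.2) - (1 + (A1 * v.1 + A2 * v.2))) :
    SEq ⟨L1, u, v, Lc m A1 A2⟩ (KC 3 1 (-1) m 1 (2 * (A1 * v.1 + A2 * v.2))) := by
  obtain ⟨g, k1, k2, k3⟩ := exists_KS_act hok hcr
  dsimp only at k1 k2 k3
  rw [map_basis hcr k1 k2] at k3
  have h4 := hC.act g
  rw [k2] at h4
  obtain ⟨z, hz⟩ := h4.exists_z (hA.act g)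
  rw [hz] at k3
  -- `u = e - c v`
  set c := cr u e with hc
  have hu : u = e - c • v := by
    have := cr_expand u v e
    rw [hcr, he, one_smul, one_smul, cr_swap e u, ← hc] at this
    rw [this]; module
  set Q := A1 * v.1 + A2 * v.2 with hQ
  set E := A1 * e.1 + A2 * e.2 with hE
  have hU : A1 * u.1 + A2 * u.2 = E - c * Q := by
    rw [hu, hE, hQ]
    simp only [Prod.fst_sub, Prod.snd_sub, Prod.smul_fst, Prod.smul_snd, smul_eq_mul]
    ring
  rw [hU] at k3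
  -- the choice of `j`
  obtain ⟨s, t, hst⟩ := isCoprime_pow_two hodd
  have h5 := KC.V1 (a := 3) (p := z) (q := -1) (a' := m) (p' := E - c * Q) (q' := Q) (by norm_num)
    isCoprime_one_left.neg_left (s * (1 - 2 * c)) k3.ok'
  have h6 := k3.trans h5
  have e1 : KC 3 z (-1) m (E - c * Q - s * (1 - 2 * c) * (3 + 1) * Q) Q =
      KC 3 z (-1) m (2 * (E - c * Q - s * (1 - 2 * c) * (3 + 1) * Q)) (2 * Q) :=
    (KC.unit' (isCoprime_two hodd)).symm
  obtain ⟨w, hw⟩ := h2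
  have e2 : KC 3 z (-1) m (2 * (E - c * Q - s * (1 - 2 * c) * (3 + 1) * Q)) (2 * Q) =
      KC 3 z (-1) m 1 (2 * Q) :=
    KC.congr (by simp) (by simp) ⟨-w - t * (1 - 2 * c) * Q, by
      linear_combination (-1) * hw + (1 - 2 * c) * Q * hst⟩ (by simp)
  rw [e1, e2] at h6
  exact h6.trans (zfree hm h3 h6.ok')

/-! ## The step (P) -/

theorem ok_two {m x : ℤ} (hx : 0 < x) (hxm : x < m) : (KC 2 1 (-1) m 1 (-x)).Ok := by
  have hm : 0 < m := hx.trans hxm
  refine ⟨((0, -1), (1, -1), (1, 0), (0, 1), (-x, -1), (m, 1)), ⟨?_, ?_, ?_⟩, rfl, rfl, ?_,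
    ?_, ?_, ?_⟩
  · simp [cr]
  · simp [cr, KC, KS]
  · have h1 : ((0, -1) : Z2) - (KC 2 1 (-1) m 1 (-x)).u = (-1, -1) := by
      simp [KC, KS]
    rw [h1]
    show lat (1, -1) (-1, -1) = Lc 2 1 (-1)
    rw [Lcz_eq_lat (by norm_num)]
    exact closure_pair_eq (α := -1) (β := 1) (γ := 0) (δ := -1) (by ext <;> simp)
      (by ext <;> simp) (Or.inl (by norm_num))
  · simp [cr, KC, KS]
  · simp [cr, KC, KS]; exact hx
  · simp [cr]; linarith
  · have h1 : ((m, 1) : Z2) - (KC 2 1 (-1) m 1 (-x)).v = (m, 0) := by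
      simp [KC, KS]
    rw [h1]
    show lat (-x, -1) (m, 0) = Lc m 1 (-x)
    have h2 := Lc_eq_lat' (r := m) (c := 1) (p1 := 1) (q := -x) (x := x) hm one_pos
      isCoprime_one_left isCoprime_one_right ⟨0, by ring⟩
    rw [mul_one, mul_one] at h2
    rw [h2]
    exact closure_pair_eq (α := 0) (β := -1) (γ := 1) (δ := 0) (by ext <;> simp)
      (by ext <;> simp) (Or.inl (by norm_num))

/-- a lattice `⟨(-x, -1), (-r, 0)⟩` or `⟨(x, 1), (r, 0)⟩` in congruence form -/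
theorem lat_eq_pos {r x : ℤ} (hr : 0 < r) : lat (x, 1) (r, 0) = Lc r 1 (-x) := by
  have h2 := Lc_eq_lat' (r := r) (c := 1) (p1 := 1) (q := -x) (x := x) hr one_pos
    isCoprime_one_left isCoprime_one_right ⟨0, by ring⟩
  rw [mul_one, mul_one] at h2
  rw [h2, lat_comm]

theorem lat_eq_neg {r x : ℤ} (hr : 0 < r) : lat (-x, -1) (-r, 0) = Lc r 1 (-x) := by
  rw [← lat_eq_pos hr, ← lat_neg_left, ← lat_neg_right]
  simp

/-- the products of `{X ≡ Y mod 2}` with `(X, 2)`, `X` odd, have gcd `1` -/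
theorem isC_two {X : ℤ} (hX : Odd X) : IsC (Lc 2 1 (-1)) (X, 2) 1 := by
  refine isC_Lc (prm_z 2 1) one_pos (one_dvd _) (one_dvd _) (one_dvd _) ?_
  intro l hl h1 h2 h3
  rw [one_mul] at h1 h2 h3
  have h4 : (l : ℤ) ∣ 4 := by
    norm_num at h2; exact h2
  have h5 : l ∣ 2 ^ 2 := by
    have : l ∣ 4 := by exact_mod_cast h4
    simpa using this
  have h6 : l = 2 := (Nat.prime_dvd_prime_iff_eq hl Nat.prime_two).1 (hl.dvd_of_dvd_pow h5)
  subst h6
  obtain ⟨k, hk⟩ := hX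
  obtain ⟨n, hn⟩ := h3
  push_cast at hn
  omega

/-- node' in the present situation -/
theorem step {m A1 A2 X e1 : ℤ} (hm : 0 < m) (hodd : Odd m) (h3 : ¬ (3 : ℤ) ∣ m + 1)
    (hX : Odd X) (hok : PSt.Ok ⟨Lc 2 1 (-1), (1, 0), (X, 2), Lc m A1 A2⟩)
    (he : 2 * e1 = X + 1) (h2 : m ∣ 2 * (A1 * e1 + A2) - (1 + (A1 * X + A2 * 2))) :
    SEq ⟨Lc 2 1 (-1), (1, 0), (X, 2), Lc m A1 A2⟩
      (KC 3 1 (-1) m 1 (2 * (A1 * X + A2 * 2))) := by
  obtain ⟨u1, L1, θ, h4, h5, h6, h7, h8, h9, h10, h11⟩ := SEq.node' hok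
    (isArea_Lc two_pos (prm_z 2 1)) (isC_two hX)
  have hA : cr u1 (X, 2) = 1 := by omega
  have hθ : θ = 1 := by
    have : cr ((1, 0) : Z2) (X, 2) = 2 := by simp [cr]
    rw [this] at h7
    omega
  rw [hθ] at h10
  norm_num at h10
  exact h4.trans (toC (e := (e1, 1)) hm hodd h3 h4.ok' hA h10 h11 (by simp [cr]; linarith)
    (by simpa using h2))

/-- the two right moves from `Z(2, 1; m + 1, 2 y)` -/
theorem pair {m y : ℤ} (hodd : Odd m) (h3 : ¬ (3 : ℤ) ∣ m + 1) (hy : 1 ≤ y)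
    (hym : 2 * y < m) : SEq (KC 3 1 (-1) m 1 (-(2 * (2 * y - 1)))) (KC 3 1 (-1) m 1 (-(2 * (2 * y)))) := by
  have hm : 0 < m := by linarith
  have hok : (KC 2 1 (-1) (m + 1) 1 (-(2 * y))).Ok := ok_two (by linarith) (by linarith)
  -- first move
  have r1 : SEq (KC 2 1 (-1) (m + 1) 1 (-(2 * y))) (KC 3 1 (-1) m 1 (-(2 * (2 * y - 1)))) := by
    have hok1 := hok
    unfold KC KS at hok1 ⊢
    rw [← lat_eq_neg (by linarith : 0 < m + 1)] at hok1 ⊢
    have h1 := SEq.mMinus' hok1 (by simp [cr]; linarith) (by simp [cr]; linarith)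
      (by simp [cr]; linarith) (by simp [cr])
    have e1 : ((0, 1) + (1, 0) - (-(2 * y), -1) : Z2) = (1 + 2 * y, 2) := by
      ext <;> simp
    have e2 : ((-(m + 1), 0) + (1, 0) : Z2) = (-m, 0) := by
      ext <;> simp
    rw [e1, e2, lat_eq_neg hm] at h1
    have h2 := step (A1 := 1) (A2 := -(2 * y)) (X := 1 + 2 * y) (e1 := y + 1) hm hodd h3
      ⟨y, by ring⟩ h1.ok' (by ring) ⟨0, by ring⟩
    have e3 : 2 * (1 * (1 + 2 * y) + -(2 * y) * 2) = -(2 * (2 * y - 1)) := by ring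
    rw [e3] at h2
    exact h1.trans h2
  -- second move
  have r2 : SEq (KC 2 1 (-1) (m + 1) 1 (-(2 * y))) (KC 3 1 (-1) m 1 (-(2 * (2 * y)))) := by
    obtain ⟨t, ht⟩ := hodd
    have hok1 := hok
    have e0 : KC 2 1 (-1) (m + 1) 1 (-(2 * y)) = KC 2 1 (-1) (m + 1) 1 (-(2 * y - (m + 1))) :=
      KC.congr (by simp) (by simp) (by simp) ⟨1, by ring⟩
    rw [e0] at hok1 ⊢
    unfold KC KS at hok1 ⊢
    rw [← lat_eq_pos (by linarith : 0 < m + 1)] at hok1 ⊢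
    have h1 := SEq.mPlus' hok1 (by simp [cr]; linarith) (by simp [cr]; linarith)
      (by simp [cr]) (by simp [cr]; linarith)
    have e1 : ((0, 1) - (1, 0) + (2 * y - (m + 1), 1) : Z2) = (2 * y - m - 2, 2) := by
      ext
      · simp; ring
      · simp
    have e2 : ((m + 1, 0) - (1, 0) : Z2) = (m, 0) := by
      ext <;> simp
    rw [e1, e2, lat_eq_pos hm] at h1
    have h2 := step (A1 := 1) (A2 := -(2 * y - (m + 1))) (X := 2 * y - m - 2) (e1 := y - t - 1)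
      hm ⟨t, ht⟩ h3 ⟨y - t - 2, by rw [ht]; ring⟩ h1.ok' (by rw [ht]; ring) ⟨0, by rw [ht]; ring⟩
    have e3 : KC 3 1 (-1) m 1 (2 * (1 * (2 * y - m - 2) + -(2 * y - (m + 1)) * 2)) =
        KC 3 1 (-1) m 1 (-(2 * (2 * y))) :=
      KC.congr (by simp) (by simp) (by simp) ⟨-2, by ring⟩
    rw [e3] at h2
    exact h1.trans h2
  exact r1.symm.trans r2

/-! ## The theorem -/

/-- **Row R9.** -/
theorem k2base {m z x : ℤ} (hodd : Odd m) (hm : 3 ≤ m) (h3 : ¬ (3 : ℤ) ∣ m + 1)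
    (hok : (KC 3 z (-1) m 1 (-x)).Ok) :
    SEq (KC 3 z (-1) m 1 (-x)) (KC 3 1 (-1) m 1 (-1)) := by
  have hm0 : 0 < m := by linarith
  lift m to ℕ using hm0.le with M
  have hoddM : Odd M := by exact_mod_cast hodd
  have hM3 : 3 ≤ M := by exact_mod_cast hm
  -- the relation of LEMMA B
  have hB := LemB.lemB hoddM hM3
    (fun ξ η => SEq (KC 3 1 (-1) M 1 (-(2 * ξ))) (KC 3 1 (-1) M 1 (-(2 * η))))
    (fun ξ η h => h.symm) (fun ξ η ζ h h' => h.trans h') (by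
      intro ξ ξ' k h0 h1 h0' h1' hc hd
      obtain ⟨s, t, hst⟩ := isCoprime_pow_two hodd
      obtain ⟨α, β, hab⟩ := hc
      have hξ : ¬ (M : ℤ) ∣ 2 * ξ := by
        intro h
        have h4 := (isCoprime_two hodd).dvd_of_dvd_mul_left h
        have h5 : M ∣ ξ := by exact_mod_cast h4
        exact absurd (Nat.le_of_dvd h0 h5) (by omega)
      -- `8 s ≡ 1`, `j = s k`: `1 + 4 j (2 ξ) ≡ 1 + k ξ`
      have e : 1 + 4 * (s * k) * (2 * (ξ : ℤ)) = (1 + k * ξ) - M * (t * k * ξ) := by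
        linear_combination (k : ℤ) * ξ * hst
      refine vfree (x := 2 * ξ) (x' := 2 * ξ') (j := s * k) (okC hm0 hξ) ?_ ?_
      · rw [e]
        exact ⟨β + α * (t * k * ξ), α, by linear_combination hab⟩
      · rw [e]
        obtain ⟨w, hw⟩ := hd
        exact ⟨2 * w - 2 * ξ' * (t * k * ξ), by linear_combination 2 * hw⟩) (by
      intro y h1 h2
      have h4 := pair (m := M) (y := y) hodd h3 (by exact_mod_cast h1) (by exact_mod_cast h2)
      have e : ((2 * y - 1 : ℕ) : ℤ) = 2 * y - 1 := by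
        push_cast [Nat.cast_sub (by omega : 1 ≤ 2 * y)]; ring
      rw [e]
      push_cast
      exact h4)
  -- every unit multiple
  have hall : ∀ x : ℤ, ¬ (M : ℤ) ∣ x →
      SEq (KC 3 1 (-1) M 1 (-x)) (KC 3 1 (-1) M 1 (-(2 * ((1 : ℕ) : ℤ)))) := by
    intro x hx
    obtain ⟨t, ht⟩ := hodd
    have h4 : ¬ (M : ℤ) ∣ x * (t + 1) := by
      intro h
      apply hx
      obtain ⟨w, hw⟩ := h
      exact ⟨2 * w - x, by linear_combination 2 * hw + (x : ℤ) * ht⟩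
    obtain ⟨h5, h6, h7⟩ := red hm0 h4
    have h8 : (((x * (t + 1) % M).toNat : ℕ) : ℤ) = x * (t + 1) % M := Int.toNat_of_nonneg h5.le
    have h9 := hB (x * (t + 1) % M).toNat (by omega) (by omega)
    rw [h8] at h9
    have e : KC 3 1 (-1) M 1 (-x) = KC 3 1 (-1) M 1 (-(2 * (x * (t + 1) % M))) :=
      KC.congr (by simp) (by simp) (by simp) (by
        obtain ⟨w, hw⟩ := h7
        exact ⟨-(2 * w) - x, by linear_combination (-2) * hw + (x : ℤ) * ht⟩)
    rw [e]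
    exact h9
  have hx : ¬ (M : ℤ) ∣ x := by
    have := (KC.ok_iff hok).2
    intro h
    exact this ((dvd_neg).2 h)
  have h1 : ¬ (M : ℤ) ∣ 1 := by
    intro h
    have := Int.le_of_dvd one_pos h
    omega
  exact (zfree hm0 h3 hok).trans ((hall x hx).trans (hall 1 h1).symm)

end Pool.Agent.H4G.K2b
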