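import Pool.Agent.H4G.Arith.K2
import Pool.Agent.H4G.Arith.K2base

/-!
# Type `(2, 311)` for `N` prime: all Z-states are equivalent (helper5, with K2base of helper41)
-/

set_option autoImplicit false

namespace Pool.Agent.H4G.K2

/-- for `N = a + 1 + a' ≥ 11` prime every Z-state with `n0 = 2` is equivalent to
`Z(3, 1; N - 4, 1)` -/
theorem unique {N : ℕ} (hN : N.Prime) (h11 : 11 ≤ N) {a z a' x : ℤ} (ha : 0 < a) (ha' : 0 < a')
    (hsum : a + 1 + a' = N) (hn : nL a z + nL a' (-x) = 2) (hok : (KC a z (-1) a' 1 (-x)).Ok) :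
    SEq (KC a z (-1) a' 1 (-x)) (KC 3 1 (-1) ((N : ℤ) - 4) 1 (-1)) := by
  obtain ⟨z1, x1, h1⟩ := to_three hN h11 ha ha' hsum hn hok
  have hodd : Odd N := hN.odd_of_ne_two (by omega)
  obtain ⟨k, hk⟩ := hodd
  have hkz : (N : ℤ) = 2 * k + 1 := by exact_mod_cast hk
  have h3 : ¬ (3 : ℤ) ∣ ((N : ℤ) - 4) + 1 := by
    intro h
    have h4 : (3 : ℤ) ∣ N := by
      have : (N : ℤ) = (N : ℤ) - 4 + 1 + 3 := by ring
      rw [this]; exact dvd_add h (dvd_refl 3)
    have h5 : 3 ∣ N := by exact_mod_cast h4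
    have := (Nat.prime_dvd_prime_iff_eq Nat.prime_three hN).1 h5
    omega
  exact h1.trans (K2b.k2base ⟨k - 2, by omega⟩ (by omega) h3 h1.ok')

end Pool.Agent.H4G.K2
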