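import Pool.Agent.H4G.Arith.KLev
import Pool.Agent.H4G.Arith.LemB

/-!
# The lemmas TL and TR (helper81): the left (right) coordinate of a Z-state is free inside its
parity class
-/

set_option autoImplicit false

open scoped MatrixGroups

namespace Pool.Agent.H4G

/-! ## All shears -/

theorem isCoprime_vol {N : ℕ} (hN : N.Prime) {a a' : ℤ} (hv : a + 1 + a' = N) (ha : 0 < a)
    (ha' : 0 < a') : IsCoprime (a + 1) a' := by
  have h1 : a + 1 = N - a' := by linarith
  have h2 : IsCoprime (N : ℤ) a' := by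
    refine isCoprime_of_prime fun l hl h3 h4 => ?_
    have h5 : l ∣ N := Int.natCast_dvd_natCast.1 h4
    have h6 : l = N := (Nat.prime_dvd_prime_iff_eq hl hN).1 h5
    have h7 := Int.le_of_dvd ha' h3
    rw [h6] at h7
    linarith
  rw [h1]
  obtain ⟨x, y, hxy⟩ := h2
  exact ⟨x, x + y, by linear_combination hxy⟩

/-- all shears `V^i` of the right lattice, when `q` is a unit modulo `a` -/
theorem KC.Vfree {N : ℕ} (hN : N.Prime) {a p q a' p' q' : ℤ} (hv : a + 1 + a' = N) (ha : 0 < a)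
    (ha' : 0 < a') (h1 : IsCoprime q a) (i : ℤ) (hok : (KC a p q a' p' q').Ok) :
    SEq (KC a p q a' p' q') (KC a p q a' (p' - i * q') q') := by
  obtain ⟨x, y, hxy⟩ := isCoprime_vol hN hv ha ha'
  have h2 := KC.V1 ha h1 (i * x) hok
  have e : KC a p q a' (p' - i * x * (a + 1) * q') q' = KC a p q a' (p' - i * q') q' :=
    KC.congr (by simp) (by simp) ⟨-(i * y * q'), by linear_combination (i * q') * hxy⟩ (by simp)
  rwa [e] at h2

/-- all shears `H^i` of the left lattice, when `p'` is a unit modulo `a'` -/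
theorem KC.Hfree {N : ℕ} (hN : N.Prime) {a p q a' p' q' : ℤ} (hv : a + 1 + a' = N) (ha : 0 < a)
    (ha' : 0 < a') (h1 : IsCoprime p' a') (i : ℤ) (hok : (KC a p q a' p' q').Ok) :
    SEq (KC a p q a' p' q') (KC a p (q - i * p) a' p' q') := by
  obtain ⟨x, y, hxy⟩ := isCoprime_vol hN (a := a') (a' := a) (by linarith) ha' ha
  have h2 := KC.H1 ha' h1 (i * x) hok
  have e : KC a p (q - i * x * (a' + 1) * p) a' p' q' = KC a p (q - i * p) a' p' q' :=
    KC.congr (by simp) ⟨-(i * y * p), by linear_combination (i * p) * hxy⟩ (by simp) (by simp)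
  rwa [e] at h2

/-- the mirror image of `Z(a,z;a',x)` is `Z(a',-x;a,-z)` -/
theorem ZS.mirror {a z a' x : ℤ} (hok : (KC a z (-1) a' 1 (-x)).Ok) :
    SEq (KC a z (-1) a' 1 (-x)) (KC a' (-x) (-1) a 1 (-(-z))) := by
  have h1 := KC.mirror hok
  have e : KC a' (-x) (-1) a (-1) (-z) = KC a' (-x) (-1) a 1 (-(-z)) := by
    have := KC.unit' (a := a') (p := -x) (q := -1) (a' := a) (p' := -1) (q' := -z) (t := -1)
      (isCoprime_one_right.neg_right)
    rw [← this]
    norm_num
  rwa [e] at h1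

/-! ## T-states -/

/-- the T-state with slit `(2, -e)` -/
def TS (m e : ℤ) (M : AddSubgroup Z2) : PSt := ⟨Lc m 0 1, (2, -e), (0, 1), M⟩

theorem map_map_shV (M : AddSubgroup Z2) (i j : ℤ) :
    (M.map (act (shV i))).map (act (shV j)) = M.map (act (shV (i + j))) := by
  rw [AddSubgroup.map_map]
  congr 1
  ext w <;> simp only [AddMonoidHom.coe_comp, Function.comp_apply, act_shV]
  ring

theorem map_shV_zero (M : AddSubgroup Z2) : M.map (act (shV 0)) = M := by
  ext w
  rw [AddSubgroup.mem_map]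
  constructor
  · rintro ⟨x, hx, rfl⟩
    rw [act_shV]
    simpa using hx
  · intro hw
    exact ⟨w, hw, by rw [act_shV]; simp⟩

theorem Lc_neg (a p q : ℤ) : Lc a (-p) (-q) = Lc a p q := by
  have := Lc_unit (a := a) (p := p) (q := q) (t := -1) isCoprime_one_right.neg_right
  rw [← this]
  norm_num

/-- the shear of a left lattice `{Y = z X}` -/
theorem shear_z (m z e : ℤ) (u : Z2) (hu : u = (2, 2 * z - e)) (M : AddSubgroup Z2) :
    PSt.act (shV (-z)) ⟨Lc m z (-1), u, (0, 1), M⟩ = TS m e (M.map (act (shV (-z)))) := by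
  unfold PSt.act TS
  rw [hu]
  simp only [map_shV_Lc, act_shV]
  have e1 : z - -z * -1 = (0 : ℤ) := by ring
  have e2 : 2 * z - e + -z * 2 = -e := by ring
  have e3 : (1 : ℤ) + -z * 0 = 1 := by ring
  rw [e1, e2, e3]
  have := Lc_neg m 0 1
  rw [neg_zero] at this
  rw [this]

/-- `{Y = z X mod a}` is generated by `(1, z)` and `(0, a)` -/
theorem Lz_eq {a z : ℤ} (ha : 0 < a) : Lc a z (-1) = lat (1, z) (0, a) := by
  have h1 : IsCoprime (-1 : ℤ) a := (isCoprime_one_left).neg_left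
  have h2 := Lc_eq_lat (s := a) (d := 1) (p := z) (q1 := -1) (z := z) ha one_pos h1
    isCoprime_one_right ⟨0, by ring⟩
  rw [mul_one, mul_one] at h2
  rw [h2, lat_comm]

/-- left move with `l = (1, z)` -/
theorem KS.toT {a z : ℤ} {M : AddSubgroup Z2} (hok : (KS (Lc a z (-1)) M).Ok) (ha : 1 < a)
    (hz : 2 ≤ z) (hza : z ≤ a) :
    SEq (KS (Lc a z (-1)) M) (TS (a - 1) (z - 1) (M.map (act (shV (-z))))) := by
  unfold KS at hok ⊢
  have e1 : Lc a z (-1) = lat (1, z) (0, -a) := by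
    rw [Lz_eq (by linarith)]
    have : ((0, -a) : Z2) = -(0, a) := by simp
    rw [this, lat_neg_right]
  rw [e1] at hok ⊢
  have h1 := SEq.mPlus hok (by simp only [cr]; linarith) (by simp only [cr]; linarith)
    (by simp only [cr]; linarith) (by simp only [cr]; linarith)
  refine h1.trans ?_
  have h2 := SEq.act (shV (-z)) h1.ok'
  have e2 : lat (1, z) ((0, -a) + (0, 1)) = Lc (a - 1) z (-1) := by
    rw [Lz_eq (by linarith)]
    have : ((0, -a) : Z2) + (0, 1) = -(0, a - 1) := by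
      ext <;> simp
      ring
    rw [this, lat_neg_right]
  rw [e2] at h2 ⊢
  rw [shear_z (a - 1) z (z - 1) _ (by ext <;> simp; ring) M] at h2
  exact h2

/-- left move with `l = (-1, a - z)` -/
theorem KS.toT' {a z : ℤ} {M : AddSubgroup Z2} (hok : (KS (Lc a z (-1)) M).Ok) (ha : 1 < a)
    (hz : 0 ≤ z) (hza : z + 2 ≤ a) :
    SEq (KS (Lc a z (-1)) M) (TS (a - 1) (z + (a - 1)) (M.map (act (shV (1 - z))))) := by
  unfold KS at hok ⊢
  have e1 : Lc a z (-1) = lat (-1, a - z) (0, a) := by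
    rw [Lz_eq (by linarith)]
    exact closure_pair_eq (α := -1) (β := 1) (γ := 0) (δ := 1) (by ext <;> simp)
      (by ext <;> simp) (Or.inr (by norm_num))
  rw [e1] at hok ⊢
  have h1 := SEq.mMinus hok (by simp only [cr]; linarith) (by simp only [cr]; linarith)
    (by simp only [cr]; linarith) (by simp only [cr]; linarith)
  refine h1.trans ?_
  have h2 := SEq.act (shV (-(z - 1))) h1.ok'
  have e2 : lat (-1, a - z) ((0, a) - (0, 1)) = Lc (a - 1) (z - 1) (-1) := by
    rw [Lz_eq (by linarith)]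
    exact closure_pair_eq (α := -1) (β := 1) (γ := 0) (δ := 1) (by ext <;> simp)
      (by ext <;> simp) (Or.inr (by norm_num))
  rw [e2] at h2 ⊢
  rw [shear_z (a - 1) (z - 1) (z + (a - 1)) _ (by ext <;> simp; ring) M] at h2
  rw [show -(z - 1) = 1 - z by ring] at h2
  exact h2

/-- the slit matters only modulo `2 m` -/
theorem TS.shift {m e : ℤ} {M : AddSubgroup Z2} (hok : (TS m e M).Ok) (k : ℤ) :
    SEq (TS m e M) (TS m (e + 2 * m * k) (M.map (act (shV (-(m * k)))))) := by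
  have h2 := SEq.act (shV (-(m * k))) hok
  have e1 : PSt.act (shV (-(m * k))) (TS m e M) =
      TS m (e + 2 * m * k) (M.map (act (shV (-(m * k))))) := by
    unfold PSt.act TS
    simp only [map_shV_Lc, act_shV]
    have e2 : Lc m (0 - -(m * k) * 1) 1 = Lc m 0 1 := (Lc_congr ⟨k, by ring⟩ (by simp)).symm
    rw [e2]
    have e3 : -e + -(m * k) * 2 = -(e + 2 * m * k) := by ring
    have e4 : (1 : ℤ) + -(m * k) * 0 = 1 := by ring
    rw [e3, e4]
  rw [e1] at h2
  exact h2

/-! ## Z-states are admissible -/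

theorem Lx_eq {a' x : ℤ} (ha' : 0 < a') : Lc a' 1 (-x) = lat (a', 0) (x, 1) := by
  have h2 := Lc_eq_lat' (r := a') (c := 1) (p1 := 1) (q := -x) (x := x) ha' one_pos
    isCoprime_one_left isCoprime_one_right ⟨0, by ring⟩
  rw [mul_one, mul_one] at h2
  exact h2

theorem ZS.ok_aux {a z a' x : ℤ} (hz : 0 < z) (hza : z < a) (hx : 0 < x) (hxa : x < a') :
    (KC a z (-1) a' 1 (-x)).Ok := by
  refine ⟨((1, a), (-1, -z), (1, 0), (0, 1), (-x, -1), (a', 1)), ⟨?_, ?_, ?_⟩, rfl, rfl, ?_,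
    ?_, ?_, ?_⟩
  · simp only [cr]; linarith
  · simp only [KC, KS, cr]; linarith
  · simp only [KC, KS]
    rw [Lz_eq (by linarith)]
    exact closure_pair_eq (α := -1) (β := 0) (γ := 0) (δ := 1) (by ext <;> simp)
      (by ext <;> simp) (Or.inr (by norm_num))
  · simp [KC, KS, cr]
  · simp only [KC, KS, cr]; linarith
  · simp only [cr]; linarith
  · simp only [KC, KS]
    rw [Lx_eq (by linarith)]
    exact closure_pair_eq (α := 0) (β := -1) (γ := 1) (δ := 0) (by ext <;> simp)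
      (by ext <;> simp) (Or.inl (by norm_num))

theorem ZS.congr {a z a' x z' x' : ℤ} (h : a ∣ z' - z) (h' : a' ∣ x' - x) :
    KC a z (-1) a' 1 (-x) = KC a z' (-1) a' 1 (-x') :=
  KC.congr h (by simp) (by simp) (by
    have : -x' - -x = -(x' - x) := by ring
    rw [this]; exact (dvd_neg).2 h')

/-- `Z(a,z;a',x)` is admissible when `z` and `x` are not `0` modulo `a` and `a'` -/
theorem ZS.ok {a z a' x : ℤ} (ha : 0 < a) (ha' : 0 < a') (hz : ¬ a ∣ z) (hx : ¬ a' ∣ x) :
    (KC a z (-1) a' 1 (-x)).Ok := by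
  have e : KC a z (-1) a' 1 (-x) = KC a (z % a) (-1) a' 1 (-(x % a')) := by
    refine ZS.congr ?_ ?_
    · rw [← dvd_neg, neg_sub]; exact Int.dvd_self_sub_emod
    · rw [← dvd_neg, neg_sub]; exact Int.dvd_self_sub_emod
  rw [e]
  refine ZS.ok_aux ?_ (Int.emod_lt_of_pos _ ha) ?_ (Int.emod_lt_of_pos _ ha')
  · rcases (Int.emod_nonneg z ha.ne').lt_or_eq with h | h
    · exact h
    · exact absurd (Int.dvd_of_emod_eq_zero h.symm) hz
  · rcases (Int.emod_nonneg x ha'.ne').lt_or_eq with h | h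
    · exact h
    · exact absurd (Int.dvd_of_emod_eq_zero h.symm) hx

theorem ZS.not_dvd {a z a' x : ℤ} (hok : (KC a z (-1) a' 1 (-x)).Ok) : ¬ a ∣ z ∧ ¬ a' ∣ x := by
  obtain ⟨h1, h2⟩ := KC.ok_iff hok
  exact ⟨h1, fun h => h2 ((dvd_neg).2 h)⟩

/-- the choice of the shear for which the product with the slit of the T-state is `2` -/
theorem exists_V2 {a' x e : ℤ} (ha' : 0 < a') (hae : Even a')
    (h : (Even x ∧ Odd e ∧ (¬ (4 : ℤ) ∣ a' ∨ (4 : ℤ) ∣ x)) ∨ (Odd x ∧ Even e)) :
    ∃ i : ℤ, IsC ((Lc a' 1 (-x)).map (act (shV i))) (2, -e) 2 := by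
  have hxe : (2 : ℤ) ∣ x * e := by
    rcases h with ⟨h1, _, _⟩ | ⟨_, h1⟩
    · exact h1.two_dvd.mul_right _
    · exact h1.two_dvd.mul_left _
  obtain ⟨i, hi⟩ := crt_exists a' ha'.ne' (fun l i => ((2 : ℤ) * l) ∣ a' * -e →
    ¬ ((2 : ℤ) * l) ∣ (1 - i * -x) * 2 + -x * -e) (by
      intro l hl hla
      by_contra hcon
      push Not at hcon
      obtain ⟨h0, h0'⟩ := hcon 0
      obtain ⟨_, h1'⟩ := hcon 1
      have h2 : (2 : ℤ) * l ∣ 2 * x := by
        have := dvd_sub h1' h0'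
        have e1 : (1 - 1 * -x) * 2 + -x * -e - ((1 - 0 * -x) * 2 + -x * -e) = 2 * x := by ring
        rwa [e1] at this
      have h3 : (l : ℤ) ∣ x := (mul_dvd_mul_iff_left (by norm_num)).1 h2
      have h4 : (l : ℤ) ∣ 2 := by
        have h5 : (l : ℤ) ∣ (1 - 0 * -x) * 2 + -x * -e := (Dvd.intro_left _ rfl).trans h0'
        have h6 := dvd_sub h5 (h3.mul_right e)
        have e1 : (1 - 0 * -x) * 2 + -x * -e - x * e = 2 := by ring
        rwa [e1] at h6
      have h5 : l = 2 := by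
        have : l ∣ 2 := by exact_mod_cast h4
        exact (Nat.prime_dvd_prime_iff_eq hl Nat.prime_two).1 this
      subst h5
      rcases h with ⟨k1, k2, k3⟩ | ⟨k1, k2⟩
      · obtain ⟨s, hs⟩ := k2
        have h6 : (4 : ℤ) ∣ a' := by
          obtain ⟨t, ht⟩ := h0
          push_cast at ht
          obtain ⟨b, hb⟩ := hae
          -- a' * e = a' (2 s + 1)
          rw [hs] at ht
          refine ⟨-t - b * s, ?_⟩
          have e1 : a' * (2 * s + 1) = -4 * t := by linarith
          have e2 : a' * (2 * s) = 4 * (b * s) := by rw [hb]; ring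
          linarith
        have h7 : (4 : ℤ) ∣ x := k3.resolve_left (fun h => h h6)
        have h8 : (4 : ℤ) ∣ 2 := by
          have h9 : (4 : ℤ) ∣ (1 - 0 * -x) * 2 + -x * -e := by
            simpa using h0'
          have h6 := dvd_sub h9 (h7.mul_right e)
          have e1 : (1 - 0 * -x) * 2 + -x * -e - x * e = 2 := by ring
          rwa [e1] at h6
        norm_num at h8
      · rcases k1 with ⟨s, hs⟩
        have : (2 : ℤ) ∣ x := by exact_mod_cast h3
        omega) (by
      intro l hl hla k k' hk h1 h2 h3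
      refine h1 h2 ?_
      obtain ⟨t, ht⟩ := hk
      have e1 : (1 - k * -x) * 2 + -x * -e = (1 - k' * -x) * 2 + -x * -e -
          2 * (k' - k) * x := by ring
      rw [e1]
      refine dvd_sub h3 ?_
      rw [ht]
      exact ⟨t * x, by ring⟩)
  refine ⟨i, ?_⟩
  rw [map_shV_Lc]
  have hP : Prm a' (1 - i * -x) (-x) := by
    have : Prm a' 1 (-x) := fun l hl _ h _ => prime_not_dvd_one hl h
    exact this.shV i
  refine isC_Lc hP (by norm_num) (Dvd.intro_left _ rfl) ((hae.two_dvd).mul_right _) ?_ ?_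
  · have e1 : (1 - i * -x) * 2 + -x * -e = 2 * (1 - i * -x) + x * e := by ring
    rw [e1]
    exact dvd_add (dvd_mul_right _ _) hxe
  · intro l hl h1 h2 h3
    refine hi l hl ?_ h2 h3
    rw [mul_comm a' 2] at h1
    exact (mul_dvd_mul_iff_left (by norm_num)).1 h1

/-! ## Shears along the slit -/

namespace TLaux

/-- the shear `w ↦ w + i (u × w) u` -/
def shu (u : Z2) (i : ℤ) : SL(2, ℤ) :=
  ⟨!![1 - i * u.1 * u.2, i * u.1 * u.1; -(i * u.2 * u.2), 1 + i * u.1 * u.2], by
    rw [Matrix.det_fin_two_of]; ring⟩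

theorem act_shu (u : Z2) (i : ℤ) (w : Z2) : act (shu u i) w = w + (i * cr u w) • u := by
  rw [act_apply]
  ext
  · simp [shu, cr]; ring
  · simp [shu, cr]; ring

/-- multiples of the index belong to the lattice -/
theorem smul_mem_of_isArea {L : AddSubgroup Z2} {a : ℤ} (h : IsArea L a) (w : Z2) :
    a • w ∈ L := by
  obtain ⟨_, l, p, h1, h2⟩ := h
  rw [h2, ← h1]
  exact mem_lat.2 ⟨-cr w p, cr w l, by rw [cr_expand p l w]; module⟩

theorem map_shu_le {L : AddSubgroup Z2} {a : ℤ} (h : IsArea L a) (u : Z2) {i j : ℤ}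
    (hij : a ∣ i - j) : L.map (act (shu u i)) ≤ L.map (act (shu u j)) := by
  rintro _ ⟨w, hw, rfl⟩
  obtain ⟨k, hk⟩ := hij
  refine ⟨w + a • ((k * cr u w) • u), L.add_mem hw (smul_mem_of_isArea h _), ?_⟩
  rw [act_shu, act_shu]
  simp only [cr_add_right, cr_smul_right, cr_self, mul_zero, add_zero]
  have : i = j + a * k := by linarith
  rw [this]
  module

theorem map_shu_congr {L : AddSubgroup Z2} {a : ℤ} (h : IsArea L a) (u : Z2) {i j : ℤ}
    (hij : a ∣ i - j) : L.map (act (shu u i)) = L.map (act (shu u j)) := by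
  refine le_antisymm (map_shu_le h u hij) (map_shu_le h u ?_)
  rw [← dvd_neg, neg_sub]; exact hij

/-- SFREE when `A` divides the area of the right lattice -/
theorem sfree_aux {N : ℕ} (hN : N.Prime) {L L' : AddSubgroup Z2} {u v : Z2} {a a' n : ℤ}
    (hok : PSt.Ok ⟨L, u, v, L'⟩) (ha : IsArea L a) (ha' : IsArea L' a')
    (hn : a' = cr u v * n) (hv : a + cr u v + a' = N) (hc : IsC L' u (cr u v)) (i : ℤ) :
    SEq ⟨L, u, v, L'⟩ ⟨L.map (act (shu u i)), u, v, L'⟩ := by
  have hA : 0 < cr u v := hok.pos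
  obtain ⟨ha0, l1, p1, h1, h2⟩ := ha'
  obtain ⟨e, f, k1, k2, k3, k4, k5, k6⟩ := exists_adapted (l := l1) (p := p1) (u := u) (v := v)
    (by rw [h1]; exact ha0) hA
  have hc' : cr u v = cr u f := by
    have := isC_adapted k3 k5
    rw [k1, ← h2] at this
    exact hc.unique this
  have hve : cr v e = a' := by
    rw [← hc', h1] at k6
    have : cr u v * cr v e = cr u v * a' := by linarith
    exact mul_left_cancel₀ hA.ne' this
  have he : e = (-n) • u := by
    have h3 := cr_expand u v e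
    have h4 : cr u v • e = cr u v • ((-n) • u) := by
      rw [h3, cr_swap e u, k3, cr_swap e v, hve, hn]; module
    exact smul_inj hA.ne' h4
  have hn0 : 0 < n := by
    rw [hn] at ha0
    exact (mul_pos_iff_of_pos_left hA).1 ha0
  -- the shears in the multiples of `1 + n`
  have key : ∀ j : ℤ, SEq ⟨L, u, v, L'⟩ ⟨L.map (act (shu u (-(j * (1 + n))))), u, v, L'⟩ := by
    intro j
    have e1 : L' = lat e f := by rw [k1, h2]
    have m1 := SEq.twist' (l := e) (p := f) (u := u) (v := v) (L := L) (by rw [← e1]; exact hok)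
      (by rw [hve]; exact ha0) (by rw [hve, k2, h1]) k3 (cr u v * j)
    have m2 := SEq.act (shu u (-(j * (1 + n)))) m1.ok'
    have m3 := m1.trans m2
    unfold PSt.act at m3
    simp only [map_lat] at m3
    have e2 : act (shu u (-(j * (1 + n)))) u = u := by
      rw [act_shu, cr_self]; module
    have e3 : act (shu u (-(j * (1 + n)))) (v + (cr u v * j) • (u - e)) = v := by
      rw [act_shu]
      simp only [cr_add_right, cr_smul_right, cr_sub_right, cr_self, k3]
      rw [he]; module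
    have e4 : act (shu u (-(j * (1 + n)))) e = e := by
      rw [act_shu, k3]; module
    have e5 : act (shu u (-(j * (1 + n)))) (f + (cr u v * j) • u) = f + (cr u v * j) • e := by
      rw [act_shu]
      simp only [cr_add_right, cr_smul_right, cr_self, ← hc']
      rw [he]; module
    rw [e2, e3, e4, e5, lat_add_smul, ← e1] at m3
    exact m3
  have hco : IsCoprime (1 + n) a := by
    refine isCoprime_of_prime fun l hl h3 h4 => ?_
    have h5 : (l : ℤ) ∣ N := by
      rw [← hv, hn]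
      have : a + cr u v + cr u v * n = a + cr u v * (1 + n) := by ring
      rw [this]
      exact dvd_add h3 (h4.mul_left _)
    have h6 : l = N := (Nat.prime_dvd_prime_iff_eq hl hN).1 (Int.natCast_dvd_natCast.1 h5)
    have h7 := Int.le_of_dvd ha.1 h3
    rw [h6] at h7
    linarith
  obtain ⟨x, y, hxy⟩ := hco
  have h3 := key (-(i * x))
  rw [map_shu_congr ha u (j := i) ⟨-(i * y), by linear_combination i * hxy⟩] at h3
  exact h3

end TLaux

open TLaux

/-- the image of `{Y = 0}` under the shear along `(2, -e)` -/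
theorem map_shu_L0 (m e i : ℤ) : (Lc m 0 1).map (act (shu (2, -e) i)) =
    Lc m (i * e * e) (1 + 2 * i * e) := by
  ext w
  rw [AddSubgroup.mem_map]
  constructor
  · rintro ⟨x, hx, rfl⟩
    rw [mem_Lc] at hx ⊢
    rw [act_shu]
    have : i * e * e * (x + (i * cr (2, -e) x) • ((2, -e) : Z2)).1 +
        (1 + 2 * i * e) * (x + (i * cr (2, -e) x) • ((2, -e) : Z2)).2 = 0 * x.1 + 1 * x.2 := by
      simp only [cr, Prod.fst_add, Prod.snd_add, Prod.smul_fst, Prod.smul_snd, smul_eq_mul]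
      ring
    rwa [this]
  · intro hw
    refine ⟨w - (i * cr (2, -e) w) • ((2, -e) : Z2), ?_, ?_⟩
    · rw [mem_Lc] at hw ⊢
      have : 0 * (w - (i * cr (2, -e) w) • ((2, -e) : Z2)).1 +
          1 * (w - (i * cr (2, -e) w) • ((2, -e) : Z2)).2 = i * e * e * w.1 +
          (1 + 2 * i * e) * w.2 := by
        simp only [cr, Prod.fst_sub, Prod.snd_sub, Prod.smul_fst, Prod.smul_snd, smul_eq_mul]
        ring
      rwa [this]
    · rw [act_shu, cr_sub_right, cr_smul_right, cr_self]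
      module

/-- the T-move: `e ↦ e / (1 + 2 i e)` modulo `m` -/
theorem TS.move {N : ℕ} (hN : N.Prime) {m e a' : ℤ} {M : AddSubgroup Z2} (hm : 0 < m)
    (hok : (TS m e M).Ok) (ha' : IsArea M a') (hae' : Even a') (hv : m + 2 + a' = N)
    (hc : IsC M (2, -e) 2) (i : ℤ) {e' : ℤ} (h1 : m ∣ e' * (1 + 2 * i * e) - e) (h2 : (2 : ℤ) ∣ e' - e)
    (hcop : IsCoprime (1 + 2 * i * e) m) (hmo : Odd m) :
    ∃ k, SEq (TS m e M) (TS m e' (M.map (act (shV k)))) := by
  have hA : cr ((2, -e) : Z2) (0, 1) = 2 := by simp [cr]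
  have hP : Prm m 0 1 := fun l hl _ _ h => prime_not_dvd_one hl h
  obtain ⟨n, hn⟩ := hae'
  have k1 := sfree_aux hN (L := Lc m 0 1) (L' := M) (u := (2, -e)) (v := (0, 1)) (a := m)
    (a' := a') (n := n) hok (isArea_Lc hm hP) ha' (by rw [hA, hn]; ring) (by rw [hA]; exact hv)
    (by rw [hA]; exact hc) i
  rw [map_shu_L0] at k1
  obtain ⟨y, hy⟩ := h2
  -- the left lattice is `{X y = -Y}`
  have e1 : Lc m (i * e * e) (1 + 2 * i * e) = Lc m y (-1) := by
    have e2 : Lc m ((1 + 2 * i * e) * y) ((1 + 2 * i * e) * (-1)) = Lc m y (-1) :=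
      Lc_unit hcop.symm
    rw [← e2, ← Lc_neg]
    refine Lc_congr ?_ ⟨0, by ring⟩
    -- m ∣ (1+2ie) y + i e e
    have h3 : m ∣ 2 * ((1 + 2 * i * e) * y - -(i * e * e)) := by
      obtain ⟨t, ht⟩ := h1
      refine ⟨t, ?_⟩
      have : e' = e + 2 * y := by linarith
      rw [this] at ht
      linear_combination ht
    have h4 : IsCoprime m 2 := by
      obtain ⟨t, ht⟩ := hmo
      exact ⟨1, -t, by linarith⟩
    exact h4.dvd_of_dvd_mul_left h3
  rw [e1] at k1
  have k2 := SEq.act (shV (-y)) k1.ok'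
  rw [shear_z m y (e + 2 * y) _ (by ext <;> simp) M] at k2
  have : e' = e + 2 * y := by linarith
  rw [this]
  exact ⟨-y, k1.trans k2⟩

/-! ## The lemma TL -/

/-- `z` and `e` are linked by a left move -/
def Lnk (a z e : ℤ) : Prop := (e = z - 1 ∧ 2 ≤ z ∧ z < a) ∨ (e = z + (a - 1) ∧ 0 < z ∧ z + 2 ≤ a)

theorem Lnk.seq {N : ℕ} (hN : N.Prime) {a z a' x e : ℤ} (hv : a + 1 + a' = N) (ha : 1 < a)
    (ha' : 0 < a') (hx : ¬ a' ∣ x) (h : Lnk a z e) (i : ℤ) :
    SEq (KC a z (-1) a' 1 (-x)) (TS (a - 1) e ((Lc a' 1 (-x)).map (act (shV i)))) := by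
  have hz : 0 < z ∧ z < a := by
    rcases h with ⟨_, h1, h2⟩ | ⟨_, h1, h2⟩
    · exact ⟨by linarith, h2⟩
    · exact ⟨h1, by linarith⟩
  have hok : (KC a z (-1) a' 1 (-x)).Ok := by
    refine ZS.ok (by linarith) ha' (fun h3 => ?_) hx
    have := Int.le_of_dvd hz.1 h3
    linarith [hz.2]
  have h1 : IsCoprime (-1 : ℤ) a := (isCoprime_one_left).neg_left
  have hf : ∀ j : ℤ, SEq (KC a z (-1) a' 1 (-x))
      (KS (Lc a z (-1)) ((Lc a' 1 (-x)).map (act (shV j)))) := by
    intro j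
    rw [map_shV_Lc]
    exact KC.Vfree hN hv (by linarith) ha' h1 j hok
  rcases h with ⟨rfl, h2, h3⟩ | ⟨rfl, h2, h3⟩
  · have h4 := hf (i + z)
    have h5 := KS.toT h4.ok' ha h2 h3.le
    rw [map_map_shV, show i + z + -z = i by ring] at h5
    exact h4.trans h5
  · have h4 := hf (i + z - 1)
    have h5 := KS.toT' h4.ok' ha h2.le h3
    rw [map_map_shV, show i + z - 1 + (1 - z) = i by ring] at h5
    exact h4.trans h5

theorem Lnk.step {N : ℕ} (hN : N.Prime) {a z a' x e z1 e1 k : ℤ} (hv : a + 1 + a' = N)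
    (ha : 1 < a) (ha' : 0 < a') (hae : Even a) (hx : ¬ a' ∣ x) (h : Lnk a z e)
    (h1 : Lnk a z1 e1)
    (hp : (Even x ∧ Odd e ∧ (¬ (4 : ℤ) ∣ a' ∨ (4 : ℤ) ∣ x)) ∨ (Odd x ∧ Even e))
    (h2 : (2 : ℤ) ∣ e1 - e) (hk : (a - 1) ∣ e1 * (1 + k * e) - e)
    (hc : IsCoprime (1 + k * e) (a - 1)) :
    SEq (KC a z (-1) a' 1 (-x)) (KC a z1 (-1) a' 1 (-x)) := by
  have hae' : Even a' := by
    have hN2 : Odd (N : ℤ) := by
      have h3 : N ≠ 2 := by
        intro h4; rw [h4] at hv; push_cast at hv; linarith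
      exact_mod_cast hN.odd_of_ne_two h3
    obtain ⟨s, hs⟩ := hN2
    obtain ⟨t, ht⟩ := hae
    exact ⟨s - t, by linarith⟩
  obtain ⟨i0, hi0⟩ := exists_V2 ha' hae' hp
  have k1 := h.seq hN hv ha ha' hx i0
  have hP : Prm a' 1 (-x) := fun l hl _ h _ => prime_not_dvd_one hl h
  have hA : IsArea ((Lc a' 1 (-x)).map (act (shV i0))) a' := (isArea_Lc ha' hP).act _
  obtain ⟨b, hb⟩ := hae
  have e2 : 1 + 2 * (k * b) * e = (1 + k * e) + (k * e) * (a - 1) := by
    have : 2 * (k * b) * e = k * e * (b + b) := by ring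
    rw [this, ← hb]; ring
  obtain ⟨j, k2⟩ := TS.move hN (m := a - 1) (e := e) (a' := a') (by linarith) k1.ok' hA hae'
    (by linarith) hi0 (k * b) (e' := e1) (by
      rw [e2]
      have : e1 * (1 + k * e + k * e * (a - 1)) - e = (e1 * (1 + k * e) - e) +
        (a - 1) * (e1 * (k * e)) := by ring
      rw [this]
      exact dvd_add hk (dvd_mul_right _ _)) h2 (by
      rw [e2]
      exact hc.add_mul_right_left _) ⟨b - 1, by linarith⟩
  rw [map_map_shV] at k2
  have k3 := h1.seq hN hv ha ha' hx (i0 + j)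
  exact k1.trans (k2.trans k3.symm)

/-- **LEMMA TL**, `z` and `x` even -/
theorem TL_even {N : ℕ} (hN : N.Prime) {m : ℕ} {a' x : ℤ} (hv : (m : ℤ) + 1 + 1 + a' = N)
    (hm3 : 3 ≤ m) (ha' : 0 < a') (hm : Odd m) (hx : ¬ a' ∣ x) (hxe : Even x)
    (h4 : ¬ (4 : ℤ) ∣ a' ∨ (4 : ℤ) ∣ x) (y : ℕ) (hy : 0 < y) (hym : 2 * y < m) :
    SEq (KC ((m : ℤ) + 1) (2 * y : ℕ) (-1) a' 1 (-x)) (KC ((m : ℤ) + 1) (2 : ℕ) (-1) a' 1 (-x)) := by
  obtain ⟨q, hq⟩ := hm
  -- the coordinate and the slit attached to `ξ`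
  let zz : ℕ → ℕ := fun t => if Even t then t else t + 1
  let ee : ℕ → ℤ := fun t => if Even t then (t : ℤ) + m else t
  have hz1 : ∀ t : ℕ, 0 < t → t < m → Lnk ((m : ℤ) + 1) (zz t) (ee t) := by
    intro t h1 h2
    by_cases ht : Even t
    · right
      simp only [zz, ee, if_pos ht]
      refine ⟨by ring, by exact_mod_cast h1, by
        have : t + 1 ≤ m := h2
        have h3 : (t : ℤ) + 1 ≤ m := by exact_mod_cast this
        linarith⟩
    · left
      simp only [zz, ee, if_neg ht]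
      have h3 : t + 1 < m + 1 := by omega
      push_cast
      refine ⟨by ring, by have : (1 : ℤ) ≤ t := by exact_mod_cast h1
                          linarith, by exact_mod_cast h3⟩
  have hee : ∀ t : ℕ, Odd (ee t) ∧ (m : ℤ) ∣ ee t - t := by
    intro t
    by_cases ht : Even t
    · simp only [ee, if_pos ht]
      obtain ⟨s, hs⟩ := ht
      refine ⟨⟨s + q, by rw [hs, hq]; push_cast; ring⟩, ⟨1, by ring⟩⟩
    · simp only [ee, if_neg ht]
      rw [Nat.not_even_iff_odd] at ht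
      exact ⟨by exact_mod_cast ht, by simp⟩
  have hmain : ∀ t : ℕ, 0 < t → t < m →
      SEq (KC ((m : ℤ) + 1) (zz t) (-1) a' 1 (-x)) (KC ((m : ℤ) + 1) (zz 1) (-1) a' 1 (-x)) := by
    refine LemB.lemB ⟨q, hq⟩ hm3
      (fun s t => SEq (KC ((m : ℤ) + 1) (zz s) (-1) a' 1 (-x))
        (KC ((m : ℤ) + 1) (zz t) (-1) a' 1 (-x))) (fun _ _ h => h.symm)
      (fun _ _ _ h h' => h.trans h') ?_ ?_
    · intro s t k hs hsm ht htm hco hdvd
      have e1 : (m : ℤ) + 1 - 1 = m := by ring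
      obtain ⟨u1, hu1⟩ := (hee s).2
      obtain ⟨u2, hu2⟩ := (hee t).2
      refine Lnk.step hN (k := k) hv (by
        have : (3 : ℤ) ≤ m := by exact_mod_cast hm3
        linarith) ha' ⟨(q : ℤ) + 1, by rw [hq]; push_cast; ring⟩ hx (hz1 s hs hsm) (hz1 t ht htm)
        (Or.inl ⟨hxe, (hee s).1, h4⟩) ?_ ?_ ?_
      · have := (hee t).1.sub_odd (hee s).1
        exact this.two_dvd
      · rw [e1]
        have f1 : ee s = s + m * u1 := by linarith
        have f2 : ee t = t + m * u2 := by linarith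
        rw [f1, f2]
        have : ((t : ℤ) + m * u2) * (1 + k * (s + m * u1)) - (s + m * u1) =
            ((t : ℤ) * (1 + k * s) - s) +
            m * (t * k * u1 + u2 * (1 + k * (s + m * u1)) - u1) := by ring
        rw [this]
        exact dvd_add hdvd (dvd_mul_right _ _)
      · rw [e1]
        have f1 : 1 + (k : ℤ) * ee s = (1 + k * s) + (k * u1) * m := by
          have : ee s = s + m * u1 := by linarith
          rw [this]; ring
        rw [f1]
        exact hco.add_mul_right_left _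
    · intro y hy1 hy2
      have f1 : zz (2 * y - 1) = 2 * y := by
        have : ¬ Even (2 * y - 1) := by
          rw [Nat.not_even_iff_odd]; exact ⟨y - 1, by omega⟩
        simp only [zz, if_neg this]; omega
      have f2 : zz (2 * y) = 2 * y := by
        simp only [zz, if_pos (even_two_mul y)]
      simp only [f1, f2]
      refine (ZS.ok (by positivity) ha' ?_ hx).seq
      intro h3
      have h5 : (m + 1) ∣ 2 * y := by exact_mod_cast h3
      have := Nat.le_of_dvd (by omega) h5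
      omega
  have h5 := hmain (2 * y) (by omega) hym
  have f1 : zz (2 * y) = 2 * y := by simp only [zz, if_pos (even_two_mul y)]
  have f2 : zz 1 = 2 := by simp [zz]
  rw [f1, f2] at h5
  exact h5

/-- **LEMMA TL**, `z` and `x` odd -/
theorem TL_odd {N : ℕ} (hN : N.Prime) {m : ℕ} {a' x : ℤ} (hv : (m : ℤ) + 1 + 1 + a' = N)
    (hm3 : 3 ≤ m) (ha' : 0 < a') (hm : Odd m) (hx : ¬ a' ∣ x) (hxo : Odd x)
    (y : ℕ) (hym : 2 * y + 1 ≤ m) :
    SEq (KC ((m : ℤ) + 1) (2 * y + 1 : ℕ) (-1) a' 1 (-x))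
      (KC ((m : ℤ) + 1) (1 : ℕ) (-1) a' 1 (-x)) := by
  obtain ⟨q, hq⟩ := hm
  let zz : ℕ → ℕ := fun t => if Even t then t + 1 else t
  let ee : ℕ → ℤ := fun t => if Even t then t else (t : ℤ) + m
  have hz1 : ∀ t : ℕ, 0 < t → t < m → Lnk ((m : ℤ) + 1) (zz t) (ee t) := by
    intro t h1 h2
    by_cases ht : Even t
    · left
      simp only [zz, ee, if_pos ht]
      have h3 : t + 1 < m + 1 := by omega
      push_cast
      refine ⟨by ring, by have : (1 : ℤ) ≤ t := by exact_mod_cast h1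
                          linarith, by exact_mod_cast h3⟩
    · right
      simp only [zz, ee, if_neg ht]
      refine ⟨by ring, by exact_mod_cast h1, by
        have : t + 1 ≤ m := h2
        have h3 : (t : ℤ) + 1 ≤ m := by exact_mod_cast this
        linarith⟩
  have hee : ∀ t : ℕ, Even (ee t) ∧ (m : ℤ) ∣ ee t - t := by
    intro t
    by_cases ht : Even t
    · simp only [ee, if_pos ht]
      exact ⟨by exact_mod_cast ht, by simp⟩
    · simp only [ee, if_neg ht]
      rw [Nat.not_even_iff_odd] at ht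
      obtain ⟨s, hs⟩ := ht
      refine ⟨⟨s + q + 1, by rw [hs, hq]; push_cast; ring⟩, ⟨1, by ring⟩⟩
  have hok : ∀ t : ℕ, 0 < t → t < m + 1 → (KC ((m : ℤ) + 1) (t : ℕ) (-1) a' 1 (-x)).Ok := by
    intro t h1 h2
    refine ZS.ok (by positivity) ha' ?_ hx
    intro h3
    have h5 : (m + 1) ∣ t := by exact_mod_cast h3
    have := Nat.le_of_dvd h1 h5
    omega
  have hmain : ∀ t : ℕ, 0 < t → t < m →
      SEq (KC ((m : ℤ) + 1) (zz t) (-1) a' 1 (-x)) (KC ((m : ℤ) + 1) (zz 1) (-1) a' 1 (-x)) := by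
    refine LemB.lemB' ⟨q, hq⟩ hm3
      (fun s t => SEq (KC ((m : ℤ) + 1) (zz s) (-1) a' 1 (-x))
        (KC ((m : ℤ) + 1) (zz t) (-1) a' 1 (-x))) (fun _ _ h => h.symm)
      (fun _ _ _ h h' => h.trans h') ?_ ?_
    · intro s t k hs hsm ht htm hco hdvd
      have e1 : (m : ℤ) + 1 - 1 = m := by ring
      obtain ⟨u1, hu1⟩ := (hee s).2
      obtain ⟨u2, hu2⟩ := (hee t).2
      refine Lnk.step hN (k := k) hv (by
        have : (3 : ℤ) ≤ m := by exact_mod_cast hm3
        linarith) ha' ⟨(q : ℤ) + 1, by rw [hq]; push_cast; ring⟩ hx (hz1 s hs hsm) (hz1 t ht htm)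
        (Or.inr ⟨hxo, (hee s).1⟩) ?_ ?_ ?_
      · have := (hee t).1.sub (hee s).1
        exact this.two_dvd
      · rw [e1]
        have f1 : ee s = s + m * u1 := by linarith
        have f2 : ee t = t + m * u2 := by linarith
        rw [f1, f2]
        have : ((t : ℤ) + m * u2) * (1 + k * (s + m * u1)) - (s + m * u1) =
            ((t : ℤ) * (1 + k * s) - s) +
            m * (t * k * u1 + u2 * (1 + k * (s + m * u1)) - u1) := by ring
        rw [this]
        exact dvd_add hdvd (dvd_mul_right _ _)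
      · rw [e1]
        have f1 : 1 + (k : ℤ) * ee s = (1 + k * s) + (k * u1) * m := by
          have : ee s = s + m * u1 := by linarith
          rw [this]; ring
        rw [f1]
        exact hco.add_mul_right_left _
    · intro y hy1 hy2
      have f1 : zz (2 * y + 1) = 2 * y + 1 := by
        have : ¬ Even (2 * y + 1) := by
          rw [Nat.not_even_iff_odd]; exact ⟨y, rfl⟩
        simp only [zz, if_neg this]
      have f2 : zz (2 * y) = 2 * y + 1 := by
        simp only [zz, if_pos (even_two_mul y)]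
      simp only [f1, f2]
      exact (hok _ (by omega) (by omega)).seq
  have f2 : zz 1 = 1 := by simp [zz]
  rw [f2] at hmain
  rcases Nat.eq_zero_or_pos y with rfl | hy
  · exact (hok 1 one_pos (by omega)).seq
  · have h5 := hmain (2 * y) (by omega) (by omega)
    have f1 : zz (2 * y) = 2 * y + 1 := by simp only [zz, if_pos (even_two_mul y)]
    rw [f1] at h5
    exact h5

/-- **LEMMA TL**: the left coordinate of a Z-state is free inside its parity class. -/
theorem TL {N : ℕ} (hN : N.Prime) {a z a' x : ℤ} (hv : a + 1 + a' = N) (ha : 0 < a)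
    (ha' : 0 < a') (hae : Even a) (hok : (KC a z (-1) a' 1 (-x)).Ok)
    (h : (Even z ∧ Even x ∧ (¬ (4 : ℤ) ∣ a' ∨ (4 : ℤ) ∣ x)) ∨ (Odd z ∧ Odd x))
    {z' : ℤ} (hz' : ¬ a ∣ z') (hzz : (2 : ℤ) ∣ z' - z) :
    SEq (KC a z (-1) a' 1 (-x)) (KC a z' (-1) a' 1 (-x)) := by
  obtain ⟨hz, hx⟩ := ZS.not_dvd hok
  obtain ⟨b, hb⟩ := hae
  have hb0 : 0 < b := by linarith
  -- reduction modulo `a`
  have hred : ∀ t : ℤ, ¬ a ∣ t → ∃ n : ℕ, 0 < n ∧ (n : ℤ) < a ∧ a ∣ (n : ℤ) - t := by
    intro t ht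
    have h0 := Int.emod_nonneg t ha.ne'
    refine ⟨(t % a).toNat, ?_, ?_, ?_⟩
    · rcases h0.lt_or_eq with h1 | h1
      · omega
      · exact absurd (Int.dvd_of_emod_eq_zero h1.symm) ht
    · rw [Int.toNat_of_nonneg h0]; exact Int.emod_lt_of_pos _ ha
    · rw [Int.toNat_of_nonneg h0, ← dvd_neg, neg_sub]; exact Int.dvd_self_sub_emod
  have h2a : (2 : ℤ) ∣ a := ⟨b, by linarith⟩
  by_cases hb1 : b = 1
  · -- `a = 2`
    have ha2 : a = 2 := by linarith
    have e1 : KC a z (-1) a' 1 (-x) = KC a z' (-1) a' 1 (-x) :=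
      ZS.congr (by rw [ha2]; exact hzz) (by simp)
    rw [← e1]
    exact hok.seq
  · obtain ⟨m, hm⟩ : ∃ m : ℕ, a = (m : ℤ) + 1 := ⟨(a - 1).toNat, by omega⟩
    have hm3 : 3 ≤ m := by omega
    have hmo : Odd m := by
      obtain ⟨c, hc⟩ : ∃ c : ℕ, b = c := ⟨b.toNat, by omega⟩
      exact ⟨c - 1, by omega⟩
    have hv' : (m : ℤ) + 1 + 1 + a' = N := by rw [← hm]; exact hv
    rcases h with ⟨h1, h2, h3⟩ | ⟨h1, h2⟩
    · have key : ∀ t : ℤ, ¬ a ∣ t → Even t →
          SEq (KC a t (-1) a' 1 (-x)) (KC a (2 : ℕ) (-1) a' 1 (-x)) := by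
        intro t ht hte
        obtain ⟨n, hn0, hna, hnt⟩ := hred t ht
        have hne : Even (n : ℤ) := by
          have h5 : (2 : ℤ) ∣ n := by
            have := dvd_add (h2a.trans hnt) hte.two_dvd
            simpa using this
          exact even_iff_two_dvd.2 h5
        obtain ⟨y, hy⟩ : ∃ y : ℕ, n = 2 * y := by
          have : Even n := by exact_mod_cast hne
          obtain ⟨y, hy⟩ := this
          exact ⟨y, by omega⟩
        rw [ZS.congr (x := x) (x' := x) (a' := a') hnt (by simp), hy, hm]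
        refine TL_even hN hv' hm3 ha' hmo hx h2 h3 y (by omega) ?_
        obtain ⟨c, hc⟩ := hmo
        omega
      have hz'e : Even z' := by
        have := dvd_add hzz h1.two_dvd
        rw [sub_add_cancel] at this
        exact even_iff_two_dvd.2 this
      exact (key z hz h1).trans (key z' hz' hz'e).symm
    · have key : ∀ t : ℤ, ¬ a ∣ t → Odd t →
          SEq (KC a t (-1) a' 1 (-x)) (KC a (1 : ℕ) (-1) a' 1 (-x)) := by
        intro t ht hte
        obtain ⟨n, hn0, hna, hnt⟩ := hred t ht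
        obtain ⟨y, hy⟩ : ∃ y : ℕ, n = 2 * y + 1 := by
          obtain ⟨s, hs⟩ := hte
          obtain ⟨r, hr⟩ := h2a.trans hnt
          exact ⟨(r + s).toNat, by omega⟩
        rw [ZS.congr (x := x) (x' := x) (a' := a') hnt (by simp), hy, hm]
        exact TL_odd hN hv' hm3 ha' hmo hx h2 y (by omega)
      have hz'e : Odd z' := by
        obtain ⟨s, hs⟩ := h1
        obtain ⟨r, hr⟩ := hzz
        exact ⟨r + s, by linarith⟩
      exact (key z hz h1).trans (key z' hz' hz'e).symm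

/-- **LEMMA TR**: the right coordinate of a Z-state is free inside its parity class. -/
theorem TR {N : ℕ} (hN : N.Prime) {a z a' x : ℤ} (hv : a + 1 + a' = N) (ha : 0 < a)
    (ha' : 0 < a') (hae : Even a) (hok : (KC a z (-1) a' 1 (-x)).Ok)
    (h : (Even z ∧ Even x ∧ (¬ (4 : ℤ) ∣ a ∨ (4 : ℤ) ∣ z)) ∨ (Odd z ∧ Odd x))
    {x' : ℤ} (hx' : ¬ a' ∣ x') (hxx : (2 : ℤ) ∣ x' - x) :
    SEq (KC a z (-1) a' 1 (-x)) (KC a z (-1) a' 1 (-x')) := by
  obtain ⟨hz, hx⟩ := ZS.not_dvd hok
  by_cases hN2 : N = 2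
  · -- volume `2` is impossible
    exfalso
    rw [hN2] at hv
    push_cast at hv
    have : a = 1 := by linarith
    rw [this] at hz
    exact hz (one_dvd _)
  have hae' : Even a' := by
    have h3 : Odd (N : ℤ) := by exact_mod_cast hN.odd_of_ne_two hN2
    obtain ⟨s, hs⟩ := h3
    obtain ⟨t, ht⟩ := hae
    exact ⟨s - t, by linarith⟩
  have h1 := ZS.mirror hok
  have hok' : (KC a z (-1) a' 1 (-x')).Ok := ZS.ok ha ha' hz hx'
  have h2 := ZS.mirror hok'
  have h3 := TL hN (a := a') (z := -x) (a' := a) (x := -z) (by linarith) ha' ha hae' h1.ok'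
    (by
      rcases h with ⟨k1, k2, k3⟩ | ⟨k1, k2⟩
      · refine Or.inl ⟨k2.neg, k1.neg, ?_⟩
        rcases k3 with k3 | k3
        · exact Or.inl k3
        · exact Or.inr ((dvd_neg).2 k3)
      · exact Or.inr ⟨k2.neg, k1.neg⟩) (z' := -x') (fun h => hx' ((dvd_neg).1 h))
    (by
      have : -x' - -x = -(x' - x) := by ring
      rw [this]; exact (dvd_neg).2 hxx)
  exact h1.trans (h3.trans h2.symm)

end Pool.Agent.H4G
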