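import Pool.Agent.H4G.Arith.K2
import Pool.Agent.H4G.Arith.TL

/-!
# The K-level for `N` prime, type `(0, 331)` (row R10; helper5, after helper19)

All Z-states `Z(a, z; a', x)` with `a` even, `z` and `x` odd and `N = a + 1 + a'` prime are
equivalent to `Z(2, 1; N - 3, 1)`.
-/

set_option autoImplicit false

open scoped MatrixGroups

namespace Pool.Agent.H4G.K331

/-- CONVERSION: `c = 2`, left content `1`, `q` odd: a Z-state -/
theorem conv {N : ℕ} (hN : N.Prime) {a p q a' p' q' : ℤ} (ha : 0 < a) (ha' : 0 < a')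
    (hsum : a + 1 + a' = N) (hae : Even a) (hP : Prm a p q) (hP' : Prm a' p' q')
    (hae' : Even a') (hq : Odd q) (hc : IsC (Lc a' p' q') (1, 0) 2)
    (hok : (KC a p q a' p' q').Ok) :
    ∃ z x, SEq (KC a p q a' p' q') (KC a z (-1) a' 1 (-x)) := by
  obtain ⟨s, d, q1, hs, hd, e1, e2, h1, h2⟩ := hP.split ha
  subst e1 e2
  have f2 : (2 : ℤ) ∣ p' := by
    have := hc.2.1 (q', -p') (by rw [mem_Lc]; exact ⟨0, by ring⟩)
    simpa [cr] using this
  have fl : ∀ l : ℕ, l.Prime → l ≠ 2 → (l : ℤ) ∣ a' → ¬ (l : ℤ) ∣ p' := by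
    intro l hl hl2 k1 k2
    obtain ⟨w, hw, hw2⟩ := hc.2.2
    rw [mem_Lc] at hw
    have k3 : (l : ℤ) ∣ q' * w.2 := (dvd_add_right (k2.mul_right _)).1 (k1.trans hw)
    rcases (Nat.prime_iff_prime_int.1 hl).dvd_or_dvd k3 with h | h
    · exact hP' l hl k1 k2 h
    · simp only [cr] at hw2
      have e : w.2 = 2 := by linarith
      rw [e] at h
      exact hl2 (K2.prime_dvd_two hl h)
  have hdo : Odd d := by
    by_contra hcon
    exact (Int.not_even_iff_odd.2 hq) ((Int.not_odd_iff_even.1 hcon).mul_left _)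
  have hse : Even s := by
    rcases Int.even_mul.1 hae with h | h
    · exact h
    · exact absurd h (Int.not_even_iff_odd.2 hdo)
  have hq'o : Odd q' := by
    by_contra hcon
    exact hP' 2 Nat.prime_two (by exact_mod_cast hae'.two_dvd) (by exact_mod_cast f2)
      (by exact_mod_cast (Int.not_odd_iff_even.1 hcon).two_dvd)
  -- the choice of `j`
  obtain ⟨j, hj⟩ := crt_exists (s * d * a') (mul_pos ha ha').ne'
    (fun l j => (l = 2 → ¬ (2 : ℤ) ∣ j) ∧ (l ≠ 2 → (l : ℤ) ∣ j))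
    (fun l hl _ => by
      by_cases hl2 : l = 2
      · exact ⟨1, fun _ => by norm_num, fun h => absurd hl2 h⟩
      · exact ⟨0, fun h => absurd h hl2, fun _ => dvd_zero _⟩)
    (fun l hl _ k k' k1 k2 => by
      refine ⟨fun h h3 => k2.1 h ?_, fun h => ?_⟩
      · subst h
        have := dvd_sub h3 (by exact_mod_cast k1 : (2 : ℤ) ∣ k' - k)
        simpa using this
      · have := dvd_add k1 (k2.2 h)
        simpa using this)
  have hj2 : ¬ (2 : ℤ) ∣ j := (hj 2 Nat.prime_two (by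
    push_cast
    exact hae.two_dvd.mul_right _)).1 rfl
  have hjo : Odd j := by
    rw [← Int.not_even_iff_odd, even_iff_two_dvd]
    exact hj2
  obtain ⟨p2, k1, k2, k3, k4⟩ := KC.V_exists hs hd h1 h2 j (by
    intro l hl g1 g2 g3
    have hl2 : l ≠ 2 := by
      rintro rfl
      exact (Int.not_even_iff_odd.2 hdo) (even_iff_two_dvd.2 (by exact_mod_cast g1))
    have g4 : (l : ℤ) ∣ j := (hj l hl ((g1.mul_left s).mul_right a')).2 hl2
    have g5 : (l : ℤ) ∣ p := by
      have := dvd_sub g3 (g4.mul_right q1)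
      simpa using this
    exact not_dvd_of_isCoprime h2 hl g1 g5) hok
  have hcop : IsCoprime (p' - j * (s + 1) * q') a' := by
    refine isCoprime_of_prime fun l hl g1 g2 => ?_
    by_cases hl2 : l = 2
    · subst hl2
      have g3 : (2 : ℤ) ∣ j * (s + 1) * q' := by
        have := dvd_sub f2 (by exact_mod_cast g2 : (2 : ℤ) ∣ p' - j * (s + 1) * q')
        simpa using this
      have g4 : Odd (j * (s + 1) * q') := (hjo.mul hse.add_one).mul hq'o
      exact (Int.not_even_iff_odd.2 g4) (even_iff_two_dvd.2 g3)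
    · have g4 : (l : ℤ) ∣ j := (hj l hl (g1.mul_left _)).2 hl2
      have g5 : (l : ℤ) ∣ p' := by
        have := dvd_add g2 ((g4.mul_right (s + 1)).mul_right q')
        simpa using this
      exact fl l hl hl2 g1 g5
  obtain ⟨α, β, hαβ⟩ := hcop
  have hu : IsCoprime a' α := ⟨β, p' - j * (s + 1) * q', by linear_combination hαβ⟩
  have e3 : KC (s * d) p2 (q1 * d) a' (p' - j * (s + 1) * q') q' =
      KC (s * d) p2 (q1 * d) a' 1 (-(-(α * q'))) := by
    rw [← KC.unit' hu]
    refine KC.congr (by simp) (by simp) ⟨β, by linear_combination -hαβ⟩ ⟨0, by ring⟩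
  rw [e3] at k4
  obtain ⟨z, k5, -⟩ := K2.znorm ha ha' k3 (K2.cop_of_prime hN ha' ha (by linarith)) k4.ok'
  exact ⟨z, _, k4.trans k5⟩

/-- the end of the level move -/
theorem finish {N : ℕ} (hN : N.Prime) {a a' z0 : ℤ} (ha : 0 < a) (hsum : a + 1 + a' = N)
    (hae : Even a) (hae' : Even a') (hz0 : Even z0) {u v : Z2} {L' : AddSubgroup Z2}
    (hok : PSt.Ok ⟨Lc a z0 (-1), u, v, L'⟩) (hA : cr u v = 1) (hc : IsC L' u 2)
    (hA' : IsArea L' a') (hu : Odd u.2)
    (hcase : (Odd v.2 ∧ ∃ w ∈ L', ev w = 0) ∨ (Even v.2 ∧ ∀ w ∈ L', ev w = 1)) :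
    ∃ z1 x1, SEq ⟨Lc a z0 (-1), u, v, L'⟩ (KC a z1 (-1) a' 1 (-x1)) := by
  have hPz := prm_z a z0
  have ha' := hA'.1
  obtain ⟨g, g1, g2, g3⟩ := exists_KS_act hok hA
  dsimp only at g1 g2 g3
  obtain ⟨p, q, k1, k2⟩ := ((isArea_Lc ha hPz).act g).exists_Lc (hPz.cont1.act g)
  have hno : ¬ Odd a := Int.not_odd_iff_even.2 hae
  have hpar : ∀ w : Z2, Even (z0 * w.1 + -1 * w.2) ↔ Even w.2 := by
    intro w
    have : z0 * w.1 + -1 * w.2 = z0 * w.1 - w.2 := by ring
    rw [this, Int.even_sub]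
    have h0 : Even (z0 * w.1) := hz0.mul_right _
    tauto
  have hq : Even q ↔ Even v.2 := by
    have h1 := inE_Lc_v k1
    rw [← k2, ← g2, inE_act, inE_Lc hPz, hpar] at h1
    tauto
  have hp : Odd p := by
    have h1 := inE_Lc_u k1
    rw [← k2, ← g1, inE_act, inE_Lc hPz, hpar] at h1
    rw [← Int.not_even_iff_odd] at hu ⊢
    tauto
  have hc3 := hc.act g
  rw [g1] at hc3
  have hA3 := hA'.act g
  rw [k2] at g3
  rcases hcase with ⟨hv, w, hw, hw0⟩ | ⟨hv, hall⟩
  · have hcont : Cont1 (L'.map (act g)) := by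
      intro t ht
      by_cases ht2 : t = 2
      · subst ht2
        refine ⟨act g w, AddSubgroup.mem_map_of_mem _ hw, fun h => ?_⟩
        have h3 : ev (act g w) = 0 := by
          rcases ev_le_one (act g w) with h4 | h4
          · exact h4
          · exfalso
            obtain ⟨y, hy⟩ := ev_zero_iff.1 h4
            have h5 : w = (2 : ℤ) • act g⁻¹ y := by
              rw [← act_smul, ← hy, ← act_mul, inv_mul_cancel, act_one]
            have h6 := ev_zero_iff.2 ⟨_, h5⟩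
            omega
        obtain ⟨⟨x1, hx1⟩, ⟨x2, hx2⟩⟩ := h
        have h4 : ev (act g w) = 1 := ev_zero_iff.2 ⟨(x1, x2), by
          ext
          · simp only [Prod.smul_fst, smul_eq_mul]; rw [hx1]; norm_num
          · simp only [Prod.smul_snd, smul_eq_mul]; rw [hx2]; norm_num⟩
        omega
      · obtain ⟨w1, hw1, hw2⟩ := hc3.2.2
        refine ⟨w1, hw1, fun h => ?_⟩
        simp only [cr] at hw2
        have e : w1.2 = 2 := by linarith
        rw [e] at h
        exact ht2 (K2.prime_dvd_two ht h.2)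
    obtain ⟨p', q', k3, k4⟩ := hA3.exists_Lc hcont
    rw [k4] at g3 hc3
    have hqo : Odd q := by
      rw [← Int.not_even_iff_odd, hq, Int.not_even_iff_odd]
      exact hv
    obtain ⟨z, x, k5⟩ := conv hN ha ha' hsum hae k1 k3 hae' hqo hc3 g3.ok'
    exact ⟨z, x, g3.trans k5⟩
  · obtain ⟨r, c, x, hr, hc0, e1, e2⟩ := hA3.hnf'
    have hc2 : c = 2 := by
      have : IsC (L'.map (act g)) (1, 0) c := by
        rw [e2]
        have := isC_adapted (e := (r, 0)) (f := (x, c)) (u := (1, 0)) (by simp [cr])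
          (by simp [cr]; exact hc0)
        simpa [cr] using this
      exact this.unique hc3
    subst hc2
    have hall' : ∀ w ∈ L'.map (act g), ev w = 1 := by
      rintro _ ⟨w, hw, rfl⟩
      obtain ⟨y, hy⟩ := ev_zero_iff.1 (hall w hw)
      exact ev_zero_iff.2 ⟨act g y, by
        rw [hy, act_smul]⟩
    have hre : Even r := by
      have h1 := hall' (r, 0) (by rw [e2]; exact mem_lat.2 ⟨1, 0, by module⟩)
      obtain ⟨y, hy⟩ := ev_zero_iff.1 h1
      have := congrArg Prod.fst hy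
      simp only [Prod.smul_fst, smul_eq_mul] at this
      exact even_iff_two_dvd.2 ⟨_, this⟩
    have hxe : Even x := by
      have h1 := hall' (x, 2) (by rw [e2]; exact mem_lat.2 ⟨0, 1, by module⟩)
      obtain ⟨y, hy⟩ := ev_zero_iff.1 h1
      have := congrArg Prod.fst hy
      simp only [Prod.smul_fst, smul_eq_mul] at this
      exact even_iff_two_dvd.2 ⟨_, this⟩
    rw [e2] at g3
    have h4 := KS.H hr hc0 g3.ok' 1
    rw [map_shH_Lc] at h4
    have hxo : Odd (x + 1 * (2 - 1)) := by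
      have : x + 1 * (2 - 1) = x + 1 := by ring
      rw [this]
      exact hxe.add_one
    obtain ⟨p', q', k3, k4⟩ := lat_eq_Lc' (x := x + 1 * (2 - 1)) hr hc0 (by
      intro l hl h5 _ h6
      have h7 := K2.prime_dvd_two hl h5
      subst h7
      exact (Int.not_even_iff_odd.2 hxo) (even_iff_two_dvd.2 (by exact_mod_cast h6)))
    have hcc : IsC (lat (r, 0) (x + 1 * (2 - 1), 2)) (1, 0) 2 := by
      have := isC_adapted (e := (r, 0)) (f := (x + 1 * (2 - 1), 2)) (u := (1, 0)) (by simp [cr])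
        (by simp [cr])
      simpa [cr] using this
    rw [k4] at h4 hcc
    rw [← e1] at h4 hcc k3
    have hqo : Odd (q - 1 * (r + 1) * p) := by
      have h5 : Even q := hq.2 hv
      have h6 : Odd (1 * (r + 1) * p) := by
        rw [one_mul]
        exact hre.add_one.mul hp
      exact h5.sub_odd h6
    obtain ⟨z, x, k5⟩ := conv hN ha ha' hsum hae (k1.shH _) k3 hae' hqo hcc h4.ok'
    exact ⟨z, x, g3.trans (h4.trans k5)⟩

theorem ev_one_of_even {w : Z2} (h1 : Even w.1) (h2 : Even w.2) : ev w = 1 := by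
  obtain ⟨x, hx⟩ := h1
  obtain ⟨y, hy⟩ := h2
  exact ev_zero_iff.2 ⟨(x, y), by
    ext
    · simp only [Prod.smul_fst, smul_eq_mul]; rw [hx]; ring
    · simp only [Prod.smul_snd, smul_eq_mul]; rw [hy]; ring⟩

theorem ev_zero_of_odd {w : Z2} (h : Odd w.2) : ev w = 0 := by
  rcases ev_le_one w with h1 | h1
  · exact h1
  · exfalso
    obtain ⟨t, ht⟩ := ev_zero_iff.1 h1
    have := congrArg Prod.snd ht
    simp only [Prod.smul_snd, smul_eq_mul] at this
    exact (Int.not_even_iff_odd.2 h) (even_iff_two_dvd.2 ⟨_, this⟩)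

/-- the second half of the level move: parities -/
theorem cases {a' m : ℤ} (hae' : Even a') (hme : Even m) {l p u v v1 p1 : Z2} {k : ℤ}
    (hlat : lat l p = Lc a' (1 - m * -1) (-1)) (hu1 : Odd u.1) (hu2 : Odd u.2)
    (hk : k = 1 ∨ k = -1) (hv : Odd v.2) (hv1 : v1 = v + k • (u - l)) (hp1 : p1 = p + k • u) :
    (Odd v1.2 ∧ ∃ w ∈ lat l p1, ev w = 0) ∨ (Even v1.2 ∧ ∀ w ∈ lat l p1, ev w = 1) := by
  have hk' : Odd k := by
    rcases hk with rfl | rfl
    · exact odd_one
    · exact odd_one.neg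
  have hmem : ∀ w ∈ lat l p, Even (w.1 + w.2) := by
    intro w hw
    rw [hlat, mem_Lc] at hw
    have h1 : Even ((1 - m * -1) * w.1 + -1 * w.2) := even_iff_two_dvd.2 (hae'.two_dvd.trans hw)
    have h2 : w.1 + w.2 = ((1 - m * -1) * w.1 + -1 * w.2) + (w.2 + w.2) - m * w.1 := by ring
    rw [h2]
    exact (h1.add ⟨w.2, rfl⟩).sub (hme.mul_right _)
  have hl := hmem l (mem_lat.2 ⟨1, 0, by module⟩)
  have hp := hmem p (mem_lat.2 ⟨0, 1, by module⟩)
  have e1 : v1.2 = v.2 + k * (u.2 - l.2) := by rw [hv1]; simp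
  rcases Int.even_or_odd l.2 with h | h
  · right
    have hl1 : Even l.1 := by
      have : l.1 = (l.1 + l.2) - l.2 := by ring
      rw [this]; exact hl.sub h
    have hp2 : Odd p.2 := by
      by_contra hcon
      have hp2 : Even p.2 := Int.not_odd_iff_even.1 hcon
      have hp3 : Even p.1 := by
        have : p.1 = (p.1 + p.2) - p.2 := by ring
        rw [this]; exact hp.sub hp2
      have hm : ((1, 1 + m) : Z2) ∈ lat l p := by
        rw [hlat, mem_Lc]
        exact ⟨0, by ring⟩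
      obtain ⟨i, j, hij⟩ := mem_lat.1 hm
      have h3 := congrArg Prod.fst hij
      simp only [Prod.fst_add, Prod.smul_fst, smul_eq_mul] at h3
      have h4 : Even (1 : ℤ) := by
        rw [← h3]
        exact (hl1.mul_left _).add (hp3.mul_left _)
      exact absurd h4 (by decide)
    have hp3 : Odd p.1 := by
      have : p.1 = (p.1 + p.2) - p.2 := by ring
      rw [this]; exact hp.sub_odd hp2
    refine ⟨?_, ?_⟩
    · rw [e1]
      exact hv.add_odd (hk'.mul (hu2.sub_even h))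
    · intro w hw
      obtain ⟨i, j, rfl⟩ := mem_lat.1 hw
      apply ev_one_of_even
      · simp only [Prod.fst_add, Prod.smul_fst, smul_eq_mul, hp1]
        exact (hl1.mul_left _).add ((hp3.add_odd (hk'.mul hu1)).mul_left _)
      · simp only [Prod.snd_add, Prod.smul_snd, smul_eq_mul, hp1]
        exact (h.mul_left _).add ((hp2.add_odd (hk'.mul hu2)).mul_left _)
  · left
    refine ⟨?_, l, mem_lat.2 ⟨1, 0, by module⟩, ev_zero_of_odd h⟩
    rw [e1]
    exact hv.add_even ((hu2.sub_odd h).mul_left _)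

/-- LEVEL MOVE `a → a - 2` from `Z(a, z; a', 1)` -/
theorem step {N : ℕ} (hN : N.Prime) {a z a' : ℤ} (hz : Odd z) (hz0 : 0 < z) (ha' : 0 < a')
    (hae : Even a) (hae' : Even a') (hsum : a + 1 + a' = N) (h4 : 4 ≤ a - 2 * z)
    (h3 : ¬ (3 : ℤ) ∣ 1 + (a - 2 * z)) (hok : (KC a z (-1) a' 1 (-1)).Ok) :
    ∃ z1 x1, SEq (KC a z (-1) a' 1 (-1)) (KC (a - 2) z1 (-1) (a' + 2) 1 (-x1)) := by
  have ha : 0 < a := by linarith
  obtain ⟨h, hh⟩ : ∃ h, h = a - 2 * z := ⟨_, rfl⟩
  rw [← hh] at h4 h3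
  have hhe : Even h := by rw [hh]; exact hae.sub (even_two_mul z)
  have hXY : IsCoprime (1 + 2 : ℤ) (-1 * (1 + h)) := by
    rw [neg_one_mul]
    refine IsCoprime.neg_right ?_
    have : (1 + 2 : ℤ) = 3 := by norm_num
    rw [this]
    exact (Int.prime_three.coprime_iff_not_dvd).2 h3
  obtain ⟨m0, hm0, hm1⟩ : ∃ m0 : ℤ, Even m0 ∧
      ¬ (4 : ℤ) ∣ (1 - m0 * -1) * (1 + 2) + -1 * (-1 * (1 + h)) := by
    obtain ⟨t, ht⟩ := hhe
    rcases Int.even_or_odd' t with ⟨t', ht' | ht'⟩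
    · exact ⟨2, even_two, by omega⟩
    · exact ⟨0, Even.zero, by omega⟩
  have hm2 : (2 : ℤ) ∣ (1 - m0 * -1) * (1 + 2) + -1 * (-1 * (1 + h)) := by
    obtain ⟨t, ht⟩ := hhe
    obtain ⟨t', ht'⟩ := hm0
    exact ⟨2 + 3 * t' + t, by rw [ht, ht']; ring⟩
  obtain ⟨m, hm4, hmc⟩ := exists_Vm2 (a' := a') (p' := 1) (q' := -1) ha'.ne' hXY (prm_x a' 1)
    (fun r hr _ _ h5 => absurd ((dvd_neg).1 h5) (prime_not_dvd_one hr)) m0 hae'.two_dvd hm2
    (Or.inr hm1)
  have hme : Even m := by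
    have h5 : Even (m - m0) := even_iff_two_dvd.2 ((by norm_num : (2 : ℤ) ∣ 4).trans hm4)
    have : m = (m - m0) + m0 := by ring
    rw [this]; exact h5.add hm0
  have h1 := K2.vfree ha (isCoprime_one_left.neg_left) (K2.cop_of_prime hN ha ha' hsum) m hok
  have hArea : IsArea (Lc a' (1 - m * -1) (-1)) a' := isArea_Lc ha' ((prm_x a' 1).shV m)
  have h2 := leftMove (a := a) (z := z) (s := -1) (e := 2) (h := h) (j := 1) (Or.inr rfl)
    two_pos (by linarith) (by linarith) (by rw [hh]; ring) isCoprime_one_right h1.ok'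
  have hok2 := h2.ok'
  obtain ⟨⟨a0, a1, a2, a3, a4, a5⟩, hl, e2, e3, hA, hr⟩ := h2.ok'
  dsimp only at hl e2 e3 hA hr
  have hcru : cr ((1 + 2, -1 * (1 + h)) : Z2) (0, 1) = 3 := by simp [cr]
  obtain ⟨l, p, k1, k2, k3, k4, k5, k6⟩ := exists_node_vec hr (by rw [hcru]; norm_num) hArea hmc
    (by rw [hcru]; norm_num)
  rw [hcru] at k5
  have hlM : l ∈ Lc a' (1 - m * -1) (-1) := by rw [← k1]; exact mem_lat.2 ⟨1, 0, by module⟩
  have hd2 : (2 : ℤ) ∣ cr (1 + 2, -1 * (1 + h)) l := hmc.2.1 l hlM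
  have hz0e : Even (z + 1 * -1) := by
    have : z + 1 * -1 = z - 1 := by ring
    rw [this]; exact hz.sub_odd odd_one
  have hu1 : Odd ((1 + 2, -1 * (1 + h)) : Z2).1 := by norm_num
  have hu2 : Odd ((1 + 2, -1 * (1 + h)) : Z2).2 := by
    simp only
    rw [neg_one_mul, add_comm]
    exact hhe.add_one.neg
  have hsum2 : a - 2 + 1 + (a' + 2) = N := by linarith
  have ha2e : Even (a - 2) := hae.sub even_two
  have ha2e' : Even (a' + 2) := hae'.add even_two
  have hmc2 : IsC (lat l p) (1 + 2, -1 * (1 + h)) 2 := by rw [k1]; exact hmc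
  rw [← k1] at hok2
  have hlval : cr (1 + 2, -1 * (1 + h)) l = 2 ∨ cr (1 + 2, -1 * (1 + h)) l = -2 := by
    rw [abs_lt] at k5
    omega
  rcases hlval with hv | hv
  · have h5 := SEq.mMinus' hok2 k3 (by rw [k2]; exact k4) (by rw [hv]; linarith)
      (by rw [hv, hcru]; norm_num)
    obtain ⟨z1, x1, h6⟩ := finish hN (a := a - 2) (a' := a' + 2) (by linarith) hsum2 ha2e ha2e'
      hz0e h5.ok' (by
        rw [cr_sub_right, cr_add_right, cr_self, hcru, hv]; norm_num) (by
        have := hmc2.congr (k := 1)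
        rwa [one_smul] at this) ⟨by linarith, l, _, by
          rw [cr_add_left, k2, hv], rfl⟩ hu2
      (cases hae' hme (k := 1) k1 hu1 hu2 (Or.inl rfl) (v := (0, 1)) odd_one (by module)
        (by module))
    rw [k1] at h5
    exact ⟨z1, x1, h1.trans (h2.trans (h5.trans h6))⟩
  · have h5 := SEq.mPlus' hok2 k3 (by rw [k2]; exact k4) (by rw [hv, hcru]; norm_num)
      (by rw [hv]; linarith)
    obtain ⟨z1, x1, h6⟩ := finish hN (a := a - 2) (a' := a' + 2) (by linarith) hsum2 ha2e ha2e'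
      hz0e h5.ok' (by
        rw [cr_add_right, cr_sub_right, cr_self, hcru, hv]; norm_num) (by
        have := hmc2.congr (k := -1)
        have e : p + (-1 : ℤ) • ((1 + 2, -1 * (1 + h)) : Z2) = p - (1 + 2, -1 * (1 + h)) := by
          module
        rwa [e] at this) ⟨by linarith, l, _, by
          rw [cr_sub_left, k2, hv]; ring, rfl⟩ hu2
      (cases hae' hme (k := -1) k1 hu1 hu2 (Or.inr rfl) (v := (0, 1)) odd_one (by module)
        (by module))
    rw [k1] at h5
    exact ⟨z1, x1, h1.trans (h2.trans (h5.trans h6))⟩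

/-- the level move for `a = 4` -/
theorem step4 {N : ℕ} (hN : N.Prime) {a' : ℤ} (ha' : 0 < a') (hsum : 4 + 1 + a' = N)
    (hok : (KC 4 1 (-1) a' 1 (-1)).Ok) :
    ∃ z1 x1, SEq (KC 4 1 (-1) a' 1 (-1)) (KC (4 - 2) z1 (-1) (a' + 2) 1 (-x1)) := by
  have h1 := K2.hfree ha' isCoprime_one_left (K2.cop_of_prime hN ha' (by norm_num) (by linarith))
    1 hok
  have e0 : Lc 4 1 (-1 - 1 * 1) = lat ((2, 3) : Z2) (0, -2) := by
    have h2 := Lc_eq_lat (s := 2) (d := 2) (p := 1) (q1 := -1) (z := 1) two_pos two_pos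
      isCoprime_one_left.neg_left isCoprime_one_left ⟨0, by norm_num⟩
    have h3 : Lc 4 1 (-1 - 1 * 1) = Lc (2 * 2) 1 (-1 * 2) := by norm_num
    rw [h3, h2]
    refine (closure_pair_eq (α := 1) (β := 1) (γ := -1) (δ := 0) ?_ ?_ (Or.inl ?_)).symm
    · ext <;> simp
    · ext <;> simp
    · norm_num
  have hok1 := h1.ok'
  have h1' := h1
  unfold KC KS at hok1 h1'
  rw [e0] at hok1 h1'
  have h3 := SEq.mPlus hok1 (by simp [cr]) (by simp [cr]) (by simp [cr]) (by simp [cr])
  have e1 : lat ((2, 3) : Z2) ((0, -2) + (0, 1)) = Lc 2 1 0 := by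
    have h2 := Lc_eq_lat (s := 1) (d := 2) (p := 1) (q1 := 0) (z := 0) one_pos two_pos
      isCoprime_one_right isCoprime_one_left (one_dvd _)
    have h3 : Lc 2 1 0 = Lc (1 * 2) 1 (0 * 2) := by norm_num
    rw [h3, h2]
    refine closure_pair_eq (α := 3) (β := 1) (γ := -1) (δ := 0) ?_ ?_ (Or.inl ?_)
    · ext <;> simp
    · ext <;> simp
    · norm_num
  have e2 : ((1, 0) + (0, 1) + (2, 3) : Z2) = (3, 4) := by
    ext <;> simp
  rw [e1, e2] at h3
  have hP : Prm 2 1 0 := fun l hl _ h _ => prime_not_dvd_one hl h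
  have hC : IsC (Lc a' 1 (-1)) (3, 4) 1 :=
    isC_Lc (prm_x a' 1) one_pos (one_dvd _) (one_dvd _) (one_dvd _) (by
      intro l hl _ _ h
      have e : (1 : ℤ) * 3 + -1 * 4 = -1 := by norm_num
      rw [one_mul, e, dvd_neg] at h
      exact prime_not_dvd_one hl h)
  obtain ⟨g, M1, k1, k2, k3, k4, k5⟩ := toKS h3.ok' (isArea_Lc (by norm_num) hP)
    (isArea_Lc ha' (prm_x a' 1)) hC
  obtain ⟨p, q, k6, k7⟩ := k3.exists_Lc (hP.cont1.act g)
  have e3 : a' + (cr ((3, 4) : Z2) (0, 1) - 1) = a' + 2 := by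
    simp [cr]
  rw [e3] at k4
  obtain ⟨x1, k8⟩ := k5.exists_x k4
  rw [k7, k8] at k2
  obtain ⟨z1, k9, -⟩ := K2.znorm (by norm_num : (0 : ℤ) < 2) (by linarith : 0 < a' + 2) k6
    (K2.cop_of_prime hN (by linarith) (by norm_num) (by linarith)) k2.ok'
  refine ⟨z1, x1, ?_⟩
  rw [show (4 : ℤ) - 2 = 2 by norm_num]
  exact h1'.trans (h3.trans (k2.trans k9))

theorem not_dvd_odd {a z : ℤ} (ha : Even a) (hz : Odd z) : ¬ a ∣ z := fun h =>
  (Int.not_even_iff_odd.2 hz) (even_iff_two_dvd.2 (ha.two_dvd.trans h))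

/-- induction on `a = 2 n + 2` -/
theorem unique_aux {N : ℕ} (hN : N.Prime) (hodd : Odd N) (n : ℕ) : ∀ {a z a' x : ℤ},
    a = 2 * n + 2 → 0 < a' → a + 1 + a' = N → Odd z → Odd x → (KC a z (-1) a' 1 (-x)).Ok →
    SEq (KC a z (-1) a' 1 (-x)) (KC 2 1 (-1) ((N : ℤ) - 3) 1 (-1)) := by
  induction n with
  | zero =>
    intro a z a' x h1 h2 h3 hz hx hok
    have e1 : a = 2 := by simpa using h1
    have e2 : a' = (N : ℤ) - 3 := by linarith
    subst e1
    have hae' : Even a' := by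
      obtain ⟨k, hk⟩ := hodd
      exact ⟨k - 1, by rw [hk] at e2; push_cast at e2; linarith⟩
    obtain ⟨t, ht⟩ := hz
    have e3 : KC 2 z (-1) a' 1 (-x) = KC 2 1 (-1) a' 1 (-x) :=
      KC.congr ⟨-t, by linarith⟩ (by simp) (by simp) (by simp)
    rw [e3] at hok ⊢
    obtain ⟨t', ht'⟩ := hx
    have h4 := TR hN h3 (by norm_num) h2 even_two hok (Or.inr ⟨odd_one, ⟨t', ht'⟩⟩) (x' := 1)
      (not_dvd_odd hae' odd_one) ⟨-t', by linarith⟩
    rw [e2] at h4 ⊢
    exact h4
  | succ n ih =>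
    intro a z a' x h1 h2 h3 hz hx hok
    push_cast at h1
    have hae : Even a := ⟨n + 2, by rw [h1]; ring⟩
    have ha : 0 < a := by linarith
    have hae' : Even a' := by
      obtain ⟨k, hk⟩ := hodd
      exact ⟨k - n - 2, by rw [hk] at h3; push_cast at h3; linarith⟩
    -- to `x = 1`
    obtain ⟨t', ht'⟩ := id hx
    have g1 := TR hN h3 ha h2 hae hok (Or.inr ⟨hz, hx⟩) (x' := 1)
      (not_dvd_odd hae' odd_one) ⟨-t', by linarith⟩
    have key : ∀ z0 : ℤ, Odd z0 → (∃ z1 x1, SEq (KC a z0 (-1) a' 1 (-1))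
        (KC (a - 2) z1 (-1) (a' + 2) 1 (-x1))) →
        SEq (KC a z (-1) a' 1 (-x)) (KC 2 1 (-1) ((N : ℤ) - 3) 1 (-1)) := by
      intro z0 hz0 hex
      obtain ⟨z1, x1, g2⟩ := hex
      obtain ⟨t, ht⟩ := id hz
      obtain ⟨t0, ht0⟩ := id hz0
      have g3 := TL hN h3 ha h2 hae g1.ok' (Or.inr ⟨hz, odd_one⟩) (z' := z0)
        (not_dvd_odd hae hz0) ⟨t0 - t, by rw [ht, ht0]; ring⟩
      have g4 := g1.trans (g3.trans g2)
      have hn := SEq.n0_KC ha h2 (prm_z a z) (prm_x a' x) (by linarith : 0 < a - 2)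
        (by linarith : 0 < a' + 2) (prm_z (a - 2) z1) (prm_x (a' + 2) x1) g4
      rw [nL_even_odd hae hz, nL_even_odd hae' hx.neg] at hn
      have hz1 : Odd z1 := by
        by_contra hcon
        rw [nL_even_even (hae.sub even_two) (Int.not_odd_iff_even.1 hcon)] at hn
        omega
      have hx1 : Odd x1 := by
        by_contra hcon
        rw [nL_even_even (hae'.add even_two) (Int.not_odd_iff_even.1 hcon).neg] at hn
        omega
      exact g4.trans (ih (by linarith) (by linarith) (by linarith) hz1 hx1 g4.ok')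
    by_cases hn0 : n = 0
    · -- `a = 4`
      subst hn0
      have e1 : a = 4 := by simpa using h1
      subst e1
      have hok4 : (KC 4 1 (-1) a' 1 (-1)).Ok :=
        ZS.ok (by norm_num) h2 (not_dvd_odd hae odd_one) (not_dvd_odd hae' odd_one)
      exact key 1 odd_one (step4 hN h2 h3 hok4)
    · have hn1 : 1 ≤ n := Nat.one_le_iff_ne_zero.2 hn0
      have hn1' : (1 : ℤ) ≤ n := by exact_mod_cast hn1
      by_cases h3a : (3 : ℤ) ∣ a - 1
      · -- `z = 3`
        have h10 : 10 ≤ a := by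
          by_contra hcon
          have h5 : n = 1 ∨ n = 2 := by omega
          rcases h5 with h5 | h5
          · rw [h5] at h1; norm_num at h1; rw [h1] at h3a; revert h3a; decide
          · rw [h5] at h1; norm_num at h1; rw [h1] at h3a; revert h3a; decide
        have hok3 : (KC a 3 (-1) a' 1 (-1)).Ok :=
          ZS.ok ha h2 (not_dvd_odd hae (by decide)) (not_dvd_odd hae' odd_one)
        refine key 3 (by decide) (step hN (by decide) (by norm_num) h2 hae hae' h3 (by linarith)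
          ?_ hok3)
        intro h5
        omega
      · have hok1 : (KC a 1 (-1) a' 1 (-1)).Ok :=
          ZS.ok ha h2 (not_dvd_odd hae odd_one) (not_dvd_odd hae' odd_one)
        refine key 1 odd_one (step hN odd_one one_pos h2 hae hae' h3 (by linarith) ?_ hok1)
        intro h5
        apply h3a
        have e : a - 1 = 1 + (a - 2 * 1) := by ring
        rw [e]
        exact h5

/-- TYPE `(0, 331)`, `N` prime: all Z-states with `z`, `x` odd are equivalent to
`Z(2, 1; N - 3, 1)` -/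
theorem unique {N : ℕ} (hN : N.Prime) (h11 : 11 ≤ N) {a z a' x : ℤ} (ha : 0 < a) (ha' : 0 < a')
    (hsum : a + 1 + a' = N) (hae : Even a) (hz : Odd z) (hx : Odd x)
    (hok : (KC a z (-1) a' 1 (-x)).Ok) :
    SEq (KC a z (-1) a' 1 (-x)) (KC 2 1 (-1) ((N : ℤ) - 3) 1 (-1)) := by
  obtain ⟨c, hc⟩ := hae
  exact unique_aux hN (hN.odd_of_ne_two (by omega)) (c - 1).toNat (by omega) ha' hsum hz hx hok

end Pool.Agent.H4G.K331
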