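import Pool.Agent.H4G.Arith.SFree

/-!
# SFREE and CHOICE for `A = 2` (helper97)

If `A = 2 = gcd (u × L')` and the area of `L` is odd, some equivalent state with the same `u` and
the same three areas has `gcd (v × L) = 1`. If `v` is even, one twist along `u` makes it odd.
-/

set_option autoImplicit false

open scoped MatrixGroups

namespace Pool.Agent.H4G

/-- a vector `v` with `u × v = 2`, not even, is primitive -/
theorem coprime_of_cr_two {u v : Z2} (h2 : cr u v = 2) (hp : ¬ ((2 : ℤ) ∣ v.1 ∧ (2 : ℤ) ∣ v.2)) :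
    IsCoprime v.1 v.2 := by
  refine isCoprime_of_prime fun l hl h3 h4 => ?_
  have h5 : (l : ℤ) ∣ 2 := by
    rw [← h2]
    simp only [cr]
    exact dvd_sub (h3.mul_left _) (h4.mul_left _)
  have h6 : l ∣ 2 := by exact_mod_cast h5
  have h7 := (Nat.prime_dvd_prime_iff_eq hl Nat.prime_two).1 h6
  subst h7
  exact hp ⟨by exact_mod_cast h4, by exact_mod_cast h3⟩

/-- one twist makes `v` odd -/
theorem SEq.two_twist {L L' : AddSubgroup Z2} {u v : Z2} {a' : ℤ}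
    (hok : PSt.Ok ⟨L, u, v, L'⟩) (ha' : IsArea L' a') (h2 : cr u v = 2) (hc : IsC L' u 2)
    (hv : (2 : ℤ) ∣ v.1 ∧ (2 : ℤ) ∣ v.2) (h4 : (4 : ℤ) ∣ a') :
    ∃ v1 L1', SEq ⟨L, u, v, L'⟩ ⟨L, u, v1, L1'⟩ ∧ cr u v1 = 2 ∧ IsArea L1' a' ∧
      IsC L1' u 2 ∧ ¬ ((2 : ℤ) ∣ v1.1 ∧ (2 : ℤ) ∣ v1.2) := by
  obtain ⟨ha0, l0, p0, h1, h3⟩ := ha'
  obtain ⟨e, f, k1, k2, k3, k4, k5, k6⟩ := exists_adapted (l := l0) (p := p0) (u := u) (v := v)
    (by rw [h1]; exact ha0) (by rw [h2]; norm_num)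
  rw [← k1] at h3
  rw [h1] at k2 k6
  subst h3
  have hcf : cr u f = 2 := (isC_adapted k3 k5).unique hc
  have hve : cr v e = a' := by
    rw [hcf, h2, mul_comm a'] at k6
    exact mul_left_cancel₀ two_ne_zero k6
  have m1 := SEq.twist' hok (by rw [hve]; exact ha0) (by rw [hve, k2]) k3 1
  refine ⟨_, _, m1, ?_, ⟨ha0, e, _, ?_, rfl⟩, IsC.congr hc, ?_⟩
  · rw [cr_add_right, cr_smul_right, cr_sub_right, cr_self, k3, h2]; ring
  · rw [cr_add_left, cr_smul_left, k2, k3]; ring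
  · rintro ⟨h5, h6⟩
    -- `e = -(a'/2) u` is even
    have hexp : (2 : ℤ) • e = -(a' • u) := by
      have h7 := cr_expand u v e
      rw [cr_swap e v, hve, cr_swap e u, k3, h2] at h7
      rw [h7]; module
    obtain ⟨b, hb⟩ := h4
    have he : e = (2 : ℤ) • (-(b • u)) := by
      refine smul_inj two_ne_zero ?_
      rw [hexp, hb]; module
    have hu : (2 : ℤ) ∣ u.1 ∧ (2 : ℤ) ∣ u.2 := by
      have e1 : u = (v + (1 : ℤ) • (u - e)) - v + e := by module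
      constructor
      · rw [e1, Prod.fst_add, Prod.fst_sub]
        exact dvd_add (dvd_sub h5 hv.1) ⟨_, by rw [he]; simp only [Prod.smul_fst, smul_eq_mul]; rfl⟩
      · rw [e1, Prod.snd_add, Prod.snd_sub]
        exact dvd_add (dvd_sub h6 hv.2) ⟨_, by rw [he]; simp only [Prod.smul_snd, smul_eq_mul]; rfl⟩
    obtain ⟨⟨x, hx⟩, ⟨y, hy⟩⟩ := hu
    obtain ⟨⟨z, hz⟩, ⟨t, ht⟩⟩ := hv
    simp only [cr] at h2
    rw [hx, hy, hz, ht] at h2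
    have : 2 * (2 * (x * t - y * z)) = 2 * 1 := by linear_combination h2
    have := mul_left_cancel₀ two_ne_zero this
    omega

/-- SFREE and CHOICE for `A = 2` -/
theorem SEq.two_choice {N : ℕ} (hN : N.Prime) {L L' : AddSubgroup Z2} {u v : Z2} {a a' : ℤ}
    (hok : PSt.Ok ⟨L, u, v, L'⟩) (ha : IsArea L a) (ha' : IsArea L' a')
    (hv : a + 2 + a' = N) (h2 : cr u v = 2) (hc : IsC L' u 2) (h1 : Cont1 L) (hodd : Odd a)
    (hp : ¬ ((2 : ℤ) ∣ v.1 ∧ (2 : ℤ) ∣ v.2) ∨ (4 : ℤ) ∣ a') :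
    ∃ L1 v1 L1', SEq ⟨L, u, v, L'⟩ ⟨L1, u, v1, L1'⟩ ∧ cr u v1 = 2 ∧ IsArea L1 a ∧
      IsArea L1' a' ∧ Cont1 L1 ∧ IsC L1 v1 1 ∧ IsC L1' u 2 := by
  have key : ∀ {v : Z2} {L' : AddSubgroup Z2}, PSt.Ok ⟨L, u, v, L'⟩ → IsArea L' a' →
      cr u v = 2 → IsC L' u 2 → ¬ ((2 : ℤ) ∣ v.1 ∧ (2 : ℤ) ∣ v.2) →
      ∃ L1 v1 L1', SEq ⟨L, u, v, L'⟩ ⟨L1, u, v1, L1'⟩ ∧ cr u v1 = 2 ∧ IsArea L1 a ∧
      IsArea L1' a' ∧ Cont1 L1 ∧ IsC L1 v1 1 ∧ IsC L1' u 2 := by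
    intro v L' hok ha' h2 hc hp
    obtain ⟨L1, m1, m2, m3, m4⟩ := SEq.sfree_choice hN hok ha ha' (by rw [h2]; exact hv)
      (by rw [h2]; exact hc) h1 (coprime_of_cr_two h2 hp) (by
        rw [h2]
        obtain ⟨k, hk⟩ := hodd
        exact ⟨1, -k, by rw [hk]; ring⟩)
    exact ⟨L1, v, L', m1, h2, m2, ha', m3, m4, hc⟩
  by_cases hve : (2 : ℤ) ∣ v.1 ∧ (2 : ℤ) ∣ v.2
  · have h4 : (4 : ℤ) ∣ a' := hp.resolve_left (fun h => h hve)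
    obtain ⟨v1, L1', m1, m2, m3, m4, m5⟩ := SEq.two_twist hok ha' h2 hc hve h4
    obtain ⟨L2, v2, L2', n1, n2, n3, n4, n5, n6, n7⟩ := key m1.ok' m3 m2 m4 m5
    exact ⟨L2, v2, L2', m1.trans n1, n2, n3, n4, n5, n6, n7⟩
  · exact key hok ha' h2 hc hve

end Pool.Agent.H4G
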