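import Pool.Agent.H4G.Arith.Par

/-!
# The normal form of K-states with `d = 1` or `c = 1` (row R4; helper42)

`KC a z (-1) a' 1 (-x)` is the Z-state: `L = {Y = z X mod a}`, `L' = {X = x Y mod a'}`.
-/

set_option autoImplicit false

open scoped MatrixGroups

namespace Pool.Agent.H4G

/-- a lattice with `d = 1` -/
theorem IsArea.eq_Lc_of_isC {L : AddSubgroup Z2} {a : ℤ} (ha : IsArea L a)
    (hd : IsC L (0, 1) 1) : ∃ z, L = Lc a z (-1) := by
  obtain ⟨s, d, z, hs, hd', e1, e2⟩ := ha.hnf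
  subst e2
  obtain ⟨_, _, w, hw, h3⟩ := hd
  obtain ⟨m, n, rfl⟩ := mem_lat.1 hw
  simp [cr] at h3
  have hd1 : d = 1 := by
    have h4 : d ∣ 1 := ⟨-n, by linarith⟩
    exact Int.eq_one_of_dvd_one hd'.le h4
  subst hd1
  refine ⟨z, ?_⟩
  have h := Lc_eq_lat (s := s) (d := 1) (p := z) (q1 := -1) (z := z) hs one_pos
    (isCoprime_one_left).neg_left isCoprime_one_right ⟨0, by ring⟩
  rw [mul_one, mul_one] at h
  rw [e1, mul_one, ← h]

/-- the choice of the twist -/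
theorem exists_kH {a z r c x : ℤ} (ha : 0 < a) (hc : 0 < c)
    (hne : ¬ ((2 : ℤ) ∣ a ∧ ¬ (2 : ℤ) ∣ z ∧ (2 : ℤ) ∣ r ∧ (2 : ℤ) ∣ c ∧ (2 : ℤ) ∣ x)) :
    ∃ k : ℤ, (∀ l : ℕ, l.Prime → (l : ℤ) ∣ c → (l : ℤ) ∣ r → ¬ (l : ℤ) ∣ x + k * (c - 1)) ∧
      IsCoprime (-1 - k * (r + 1) * z) a := by
  have key : ∃ k : ℤ, ∀ l : ℕ, l.Prime → (l : ℤ) ∣ a * c →
      ((l : ℤ) ∣ c → (l : ℤ) ∣ r → ¬ (l : ℤ) ∣ x + k * (c - 1)) ∧
        ((l : ℤ) ∣ a → ¬ (l : ℤ) ∣ -1 - k * (r + 1) * z) := by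
    apply crt_exists (a * c) (mul_pos ha hc).ne' (fun l k =>
      ((l : ℤ) ∣ c → (l : ℤ) ∣ r → ¬ (l : ℤ) ∣ x + k * (c - 1)) ∧
        ((l : ℤ) ∣ a → ¬ (l : ℤ) ∣ -1 - k * (r + 1) * z))
    · intro l hl _
      have hl0 : ¬ (l : ℤ) ∣ -1 - 0 * (r + 1) * z := by
        have : (-1 - 0 * (r + 1) * z : ℤ) = -1 := by ring
        rw [this, dvd_neg]
        exact prime_not_dvd_one hl
      by_cases hcr : (l : ℤ) ∣ c ∧ (l : ℤ) ∣ r
      · by_cases hx : (l : ℤ) ∣ x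
        · -- k not divisible by l
          by_cases h1 : (l : ℤ) ∣ a ∧ (l : ℤ) ∣ -1 - z
          · refine ⟨-1, fun _ _ h2 => ?_, fun _ h2 => ?_⟩
            · have h3 : (l : ℤ) ∣ 1 := by
                have e : (1 : ℤ) = (x + -1 * (c - 1)) - x + c := by ring
                rw [e]
                exact dvd_add (dvd_sub h2 hx) hcr.1
              exact prime_not_dvd_one hl h3
            · have h3 : (l : ℤ) ∣ 2 := by
                have e : (2 : ℤ) = -(-1 - -1 * (r + 1) * z) - (-1 - z) + r * z := by ring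
                rw [e]
                exact dvd_add (dvd_sub ((dvd_neg).2 h2) h1.2) (hcr.2.mul_right _)
              have hl2 : l = 2 := by
                have h4 : l ∣ 2 := by exact_mod_cast h3
                exact (Nat.prime_dvd_prime_iff_eq hl Nat.prime_two).1 h4
              subst hl2
              apply hne
              refine ⟨by exact_mod_cast h1.1, fun h5 => ?_, by exact_mod_cast hcr.2,
                by exact_mod_cast hcr.1, by exact_mod_cast hx⟩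
              have h6 : ((2 : ℕ) : ℤ) ∣ 1 := by
                have e : (1 : ℤ) = -(-1 - z) - z := by ring
                rw [e]
                exact dvd_sub ((dvd_neg).2 h1.2) (by exact_mod_cast h5)
              exact prime_not_dvd_one hl h6
          · refine ⟨1, fun _ _ h2 => ?_, fun h4 h2 => h1 ⟨h4, ?_⟩⟩
            · have h3 : (l : ℤ) ∣ 1 := by
                have e : (1 : ℤ) = -((x + 1 * (c - 1)) - x - c) := by ring
                rw [e]
                exact (dvd_neg).2 (dvd_sub (dvd_sub h2 hx) hcr.1)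
              exact prime_not_dvd_one hl h3
            · have e : (-1 - z : ℤ) = (-1 - 1 * (r + 1) * z) + r * z := by ring
              rw [e]
              exact dvd_add h2 (hcr.2.mul_right _)
        · refine ⟨0, fun _ _ => by simpa using hx, fun _ => hl0⟩
      · exact ⟨0, fun h1 h2 => absurd ⟨h1, h2⟩ hcr, fun _ => hl0⟩
    · intro l hl _ k k' h1 h2
      refine ⟨fun h3 h4 h5 => h2.1 h3 h4 ?_, fun h3 h5 => h2.2 h3 ?_⟩
      · have e : x + k * (c - 1) = (x + k' * (c - 1)) - (k' - k) * (c - 1) := by ring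
        rw [e]
        exact dvd_sub h5 (h1.mul_right _)
      · have e : -1 - k * (r + 1) * z = (-1 - k' * (r + 1) * z) + (k' - k) * ((r + 1) * z) := by
          ring
        rw [e]
        exact dvd_add h5 (h1.mul_right _)
  obtain ⟨k, hk⟩ := key
  refine ⟨k, fun l hl h1 h2 => (hk l hl (h1.mul_left _)).1 h1 h2, ?_⟩
  exact isCoprime_of_prime fun l hl h1 => (hk l hl (h1.mul_right _)).2 h1

/-- V-freedom: if `q` is a unit modulo `a` and `gcd (a + 1, a') = 1` then the right lattice may be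
sheared by any amount -/
theorem KC.Vall {a p q a' p' q' : ℤ} (ha : 0 < a) (h1 : IsCoprime q a)
    (hco : IsCoprime (a + 1) a') (i : ℤ) (hok : (KC a p q a' p' q').Ok) :
    SEq (KC a p q a' p' q') (KC a p q a' (p' - i * q') q') := by
  obtain ⟨u, w, huw⟩ := hco
  have h2 := KC.V1 ha h1 (i * u) hok
  have h3 : KC a p q a' (p' - i * u * (a + 1) * q') q' = KC a p q a' (p' - i * q') q' := by
    refine KC.congr ⟨0, by ring⟩ ⟨0, by ring⟩ ⟨-(i * w * q'), ?_⟩ ⟨0, by ring⟩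
    linear_combination (i * q') * huw
  rw [h3] at h2
  exact h2

/-- H-freedom -/
theorem KC.Hall {a p q a' p' q' : ℤ} (ha' : 0 < a') (h1 : IsCoprime p' a')
    (hco : IsCoprime (a' + 1) a) (i : ℤ) (hok : (KC a p q a' p' q').Ok) :
    SEq (KC a p q a' p' q') (KC a p (q - i * p) a' p' q') := by
  obtain ⟨u, w, huw⟩ := hco
  have h2 := KC.H1 ha' h1 (i * u) hok
  have h3 : KC a p (q - i * u * (a' + 1) * p) a' p' q' = KC a p (q - i * p) a' p' q' := by
    refine KC.congr ⟨0, by ring⟩ ⟨-(i * w * p), ?_⟩ ⟨0, by ring⟩ ⟨0, by ring⟩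
    linear_combination (i * p) * huw
  rw [h3] at h2
  exact h2

/-- if `q` is a unit modulo `a` we may take `q = -1` -/
theorem Lc_norm {a p q : ℤ} (h : IsCoprime q a) : ∃ z, Lc a p q = Lc a z (-1) := by
  obtain ⟨α, β, e⟩ := h
  refine ⟨-α * p, ?_⟩
  rw [← Lc_unit (a := a) (p := p) (q := q) (t := -α) ⟨β, -q, by linear_combination e⟩]
  exact Lc_congr ⟨0, by ring⟩ ⟨-β, by linear_combination e⟩

theorem Lc_norm' {a p q : ℤ} (h : IsCoprime p a) : ∃ x, Lc a p q = Lc a 1 (-x) := by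
  obtain ⟨α, β, e⟩ := h
  refine ⟨-(α * q), ?_⟩
  rw [← Lc_unit (a := a) (p := p) (q := q) (t := α) ⟨β, p, by linear_combination e⟩]
  exact Lc_congr ⟨β, by linear_combination -e⟩ ⟨0, by ring⟩

theorem Prm_left (a z : ℤ) : Prm a z (-1) := by
  intro l hl _ _ h
  exact prime_not_dvd_one hl ((dvd_neg).1 h)

theorem Prm_right (a x : ℤ) : Prm a 1 (-x) := by
  intro l hl _ h _
  exact prime_not_dvd_one hl h

/-! ## Parity -/

theorem ev_act (g : SL(2, ℤ)) (w : Z2) : ev (act g w) = ev w := by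
  have key : ∀ (g : SL(2, ℤ)) (w : Z2), ev w = 1 → ev (act g w) = 1 := by
    intro g w h
    obtain ⟨t, ht⟩ := ev_zero_iff.1 h
    exact ev_zero_iff.2 ⟨act g t, by rw [ht, act_smul]⟩
  rcases ev_le_one w with h | h
  · rcases ev_le_one (act g w) with h' | h'
    · rw [h, h']
    · exfalso
      have h2 := key g⁻¹ _ h'
      rw [← act_mul, inv_mul_cancel, act_one] at h2
      omega
  · rw [h, key g w h]

theorem ev_neg (w : Z2) : ev (-w) = ev w := ev_eq (-w) (by module)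

theorem inE_neg {M : AddSubgroup Z2} {w : Z2} : InE M (-w) ↔ InE M w := by
  have key : ∀ w : Z2, InE M w → InE M (-w) := by
    rintro w ⟨x, hx, t, rfl⟩
    exact ⟨-x, M.neg_mem hx, -t, by module⟩
  refine ⟨fun h => ?_, key w⟩
  have := key _ h
  rwa [neg_neg] at this

/-- vectors of `lat (r, 0) (x, c)` are even if `r, x, c` are -/
theorem lat_even {r x c : ℤ} (hr : (2 : ℤ) ∣ r) (hx : (2 : ℤ) ∣ x) (hc : (2 : ℤ) ∣ c) {w : Z2}
    (hw : w ∈ lat (r, 0) (x, c)) : ev w = 1 := by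
  obtain ⟨r', rfl⟩ := hr
  obtain ⟨x', rfl⟩ := hx
  obtain ⟨c', rfl⟩ := hc
  obtain ⟨m, n, rfl⟩ := mem_lat.1 hw
  refine ev_zero_iff.2 ⟨(m * r' + n * x', n * c'), ?_⟩
  ext
  · simp only [Prod.fst_add, Prod.smul_fst, smul_eq_mul]; ring
  · simp only [Prod.snd_add, Prod.smul_snd, smul_eq_mul]; ring

/-- the vector may be replaced by its remainder -/
theorem Lc_mod_left (a z : ℤ) : Lc a z (-1) = Lc a (z % a) (-1) := by
  refine Lc_congr ⟨-(z / a), ?_⟩ ⟨0, by ring⟩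
  have := Int.emod_add_mul_ediv z a
  linear_combination this

theorem Lc_mod_right (a x : ℤ) : Lc a 1 (-x) = Lc a 1 (-(x % a)) := by
  refine Lc_congr ⟨0, by ring⟩ ⟨x / a, ?_⟩
  have := Int.emod_add_mul_ediv x a
  linear_combination -this

/-- Z0 for K-states with `d = 1` -/
theorem KS.znorm {L L' : AddSubgroup Z2} (hok : (KS L L').Ok) {a a' : ℤ} (ha : IsArea L a)
    (ha' : IsArea L' a') (hco : IsCoprime (a + 1) a') (hd : IsC L (0, 1) 1)
    (hp : InE L (1, 0) ∨ ∃ w ∈ L', ev w = 0) :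
    ∃ z x : ℤ, 0 < z ∧ z < a ∧ 0 < x ∧ x < a' ∧ SEq (KS L L') (KC a z (-1) a' 1 (-x)) ∧
      (Odd a ∨ Even z ↔ InE L (1, 0)) ∧ (Odd a' ∨ Even x ↔ InE L' (0, 1)) := by
  have hapos := ha.1
  have hapos' := ha'.1
  obtain ⟨z, rfl⟩ := ha.eq_Lc_of_isC hd
  obtain ⟨r, c, x, hr, hc, e1, e2⟩ := ha'.hnf'
  subst e2
  have hne : ¬ ((2 : ℤ) ∣ a ∧ ¬ (2 : ℤ) ∣ z ∧ (2 : ℤ) ∣ r ∧ (2 : ℤ) ∣ c ∧ (2 : ℤ) ∣ x) := by
    rintro ⟨h1, h2, h3, h4, h5⟩
    rcases hp with hp | ⟨w, hw, hw0⟩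
    · rcases (inE_Lc_u (Prm_left a z)).1 hp with h6 | h6
      · exact (Int.not_even_iff_odd.2 h6) (even_iff_two_dvd.2 h1)
      · exact h2 (even_iff_two_dvd.1 h6)
    · have := lat_even h3 h5 h4 hw
      omega
  obtain ⟨k, hk1, hk2⟩ := exists_kH (a := a) (z := z) (r := r) (c := c) (x := x) hapos hc hne
  have s1 := KS.H hr hc hok k
  have i1 := inE_twistH r c x k
  have i2 := inE_shH (M := Lc a z (-1)) (k * (r + 1))
  obtain ⟨p', q', k3, k4⟩ := lat_eq_Lc' hr hc hk1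
  rw [k4, ← e1] at s1 i1
  rw [map_shH_Lc] at s1 i2
  rw [← e1] at k3
  obtain ⟨i, hi⟩ := coprime_shift p' (-q') a' hapos'.ne' (by
    intro l hl h1 h2 h3
    exact k3 l hl h1 h3 ((dvd_neg).1 h2))
  have s2 := KC.Vall (a := a) (p := z) (q := -1 - k * (r + 1) * z) (a' := a') (p' := p')
    (q' := q') hapos hk2 hco i s1.ok'
  have i3 := inE_shV (M := Lc a' p' q') i
  rw [map_shV_Lc] at i3
  obtain ⟨z1, hz1⟩ := Lc_norm (a := a) (p := z) hk2
  obtain ⟨x1, hx1⟩ := Lc_norm' (a := a') (p := p' - i * q') (q := q') (by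
    have : p' + -q' * i = p' - i * q' := by ring
    rwa [this] at hi)
  have s3 := s1.trans s2
  unfold KC at s3
  rw [hz1, hx1, Lc_mod_left a z1, Lc_mod_right a' x1] at s3
  rw [hx1, Lc_mod_right a' x1] at i3
  rw [hz1, Lc_mod_left a z1] at i2
  have hnd := KC.ok_iff s3.ok'
  have m1 := Int.emod_nonneg z1 hapos.ne'
  have m2 := Int.emod_lt_of_pos z1 hapos
  have m3 := Int.emod_nonneg x1 hapos'.ne'
  have m4 := Int.emod_lt_of_pos x1 hapos'
  have m5 : z1 % a ≠ 0 := fun h => hnd.1 (by rw [h]; exact dvd_zero _)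
  have m6 : x1 % a' ≠ 0 := fun h => hnd.2 (by rw [h, neg_zero]; exact dvd_zero _)
  refine ⟨z1 % a, x1 % a', by omega, m2, by omega, m4, s3, ?_, ?_⟩
  · rw [← inE_Lc_u (Prm_left a (z1 % a)), i2]
  · have i4 := inE_Lc_v (Prm_right a' (x1 % a'))
    rw [even_neg] at i4
    rw [← i4, i3, i1]

/-! ## The normal form for path states -/

/-- `exists_KS` with all the data -/
theorem exists_KS_all {S : PSt} (hS : S.Ok) (hA : cr S.u S.v = 1) :
    ∃ g : SL(2, ℤ), SEq S (KS (S.L.map (act g)) (S.L'.map (act g))) ∧ act g S.u = (1, 0) ∧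
      act g S.v = (0, 1) := by
  have hdet : Matrix.det !![S.v.2, -S.v.1; -S.u.2, S.u.1] = 1 := by
    rw [Matrix.det_fin_two_of]
    simp only [cr] at hA
    linarith
  refine ⟨⟨!![S.v.2, -S.v.1; -S.u.2, S.u.1], hdet⟩, ?_⟩
  set g : SL(2, ℤ) := ⟨!![S.v.2, -S.v.1; -S.u.2, S.u.1], hdet⟩ with hg
  have h1 : act g S.u = (1, 0) := by
    rw [act_apply]
    simp only [hg]
    simp only [cr] at hA
    ext
    · simp; linarith
    · simp; ring
  have h2 : act g S.v = (0, 1) := by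
    rw [act_apply]
    simp only [hg]
    simp only [cr] at hA
    ext
    · simp; ring
    · simp; linarith
  have := SEq.act g hS
  unfold PSt.act at this
  rw [h1, h2] at this
  exact ⟨this, h1, h2⟩

/-- NORMAL FORM Z0 for a state with `A = 1` and `d = 1` -/
theorem PSt.Ok.znorm {S : PSt} (hS : S.Ok) (hA : cr S.u S.v = 1) {a a' : ℤ} (ha : IsArea S.L a)
    (ha' : IsArea S.L' a') (hco : IsCoprime (a + 1) a') (hd : IsC S.L S.v 1)
    (hp : InE S.L S.u ∨ ∃ w ∈ S.L', ev w = 0) :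
    ∃ z x : ℤ, 0 < z ∧ z < a ∧ 0 < x ∧ x < a' ∧ SEq S (KC a z (-1) a' 1 (-x)) ∧
      (Odd a ∨ Even z ↔ InE S.L S.u) ∧ (Odd a' ∨ Even x ↔ InE S.L' S.v) := by
  obtain ⟨g, h1, h2, h3⟩ := exists_KS_all hS hA
  have hd' := hd.act g
  rw [h3] at hd'
  have i1 := inE_act (M := S.L) (w := S.u) g
  have i2 := inE_act (M := S.L') (w := S.v) g
  rw [h2] at i1
  rw [h3] at i2
  obtain ⟨z, x, k1, k2, k3, k4, k5, k6, k7⟩ := KS.znorm h1.ok' (ha.act g) (ha'.act g) hco hd' (by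
    rcases hp with hp | ⟨w, hw, hw0⟩
    · exact Or.inl (i1.2 hp)
    · exact Or.inr ⟨Pool.Agent.H4G.act g w, AddSubgroup.mem_map_of_mem _ hw,
        by rw [ev_act]; exact hw0⟩)
  exact ⟨z, x, k1, k2, k3, k4, h1.trans k5, k6.trans i1, k7.trans i2⟩

/-- the mirror image of a Z-state -/
theorem KC.zmirror {a z a' x : ℤ} (hok : (KC a z (-1) a' 1 (-x)).Ok) :
    SEq (KC a z (-1) a' 1 (-x)) (KC a' (a' - x) (-1) a 1 (-(a - z))) := by
  have h := KC.mirror hok
  have e1 : Lc a' (-x) (-1) = Lc a' (a' - x) (-1) := Lc_congr ⟨1, by ring⟩ ⟨0, by ring⟩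
  have e2 : Lc a (-1) (-z) = Lc a 1 (-(a - z)) := by
    rw [← Lc_unit (a := a) (p := -1) (q := -z) (t := -1) (isCoprime_one_right).neg_right]
    exact Lc_congr ⟨0, by ring⟩ ⟨-1, by ring⟩
  unfold KC at h ⊢
  rw [e1, e2] at h
  exact h

/-- NORMAL FORM Z0 for a state with `A = 1` and `c = 1` -/
theorem PSt.Ok.znorm' {S : PSt} (hS : S.Ok) (hA : cr S.u S.v = 1) {a a' : ℤ} (ha : IsArea S.L a)
    (ha' : IsArea S.L' a') (hco : IsCoprime (a' + 1) a) (hc : IsC S.L' S.u 1)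
    (hp : InE S.L' S.v ∨ ∃ w ∈ S.L, ev w = 0) :
    ∃ z x : ℤ, 0 < z ∧ z < a ∧ 0 < x ∧ x < a' ∧ SEq S (KC a z (-1) a' 1 (-x)) ∧
      (Odd a ∨ Even z ↔ InE S.L S.u) ∧ (Odd a' ∨ Even x ↔ InE S.L' S.v) := by
  obtain ⟨L, u, v, L'⟩ := S
  dsimp only at hA ha ha' hc hp ⊢
  have m1 := SEq.mirror hS
  have e1 : cr v (-u) = 1 := by rw [cr_neg_right, cr_swap v u, neg_neg, hA]
  obtain ⟨z, x, k1, k2, k3, k4, k5, k6, k7⟩ := PSt.Ok.znorm (S := ⟨L', v, -u, L⟩) m1.ok' e1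
    (a := a') (a' := a) ha' ha hco hc.neg hp
  dsimp only at k5 k6 k7
  rw [inE_neg] at k7
  refine ⟨a - x, a' - z, by omega, by omega, by omega, by omega,
    m1.trans (k5.trans (KC.zmirror k5.ok')), ?_, ?_⟩
  · rw [← k7]
    rcases Int.even_or_odd a with h | h
    · rw [Int.even_sub]
      tauto
    · tauto
  · rw [← k6]
    rcases Int.even_or_odd a' with h | h
    · rw [Int.even_sub]
      tauto
    · tauto

/-! ## The hypothesis on parities follows from `n0 ≠ 0` -/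

theorem ev_add_left {x y : Z2} (h : ev x = 1) : ev (x + y) = ev y := by
  obtain ⟨t, rfl⟩ := ev_zero_iff.1 h
  rw [add_comm]
  exact ev_eq t rfl

theorem ev_of_cr {u v : Z2} (h : cr u v = 1) : ev u = 0 := by
  rcases ev_le_one u with h1 | h1
  · exact h1
  · exfalso
    obtain ⟨t, rfl⟩ := ev_zero_iff.1 h1
    simp only [cr, Prod.smul_fst, Prod.smul_snd, smul_eq_mul] at h
    have : (2 : ℤ) ∣ 1 := ⟨t.1 * v.2 - t.2 * v.1, by linear_combination -h⟩
    omega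

/-- a chain of a state with `A = 1` and `n0 ≠ 0` satisfies the hypothesis of `znorm` -/
theorem IsRep.par_of_n0 {S : PSt} {c : C6} (hc : IsRep S c) (hA : cr S.u S.v = 1)
    (h : C6.n0 c ≠ 0) : InE S.L S.u ∨ ∃ w ∈ S.L', ev w = 0 := by
  obtain ⟨L, u, v, L'⟩ := S
  obtain ⟨a0, a1, a2, a3, a4, a5⟩ := c
  obtain ⟨h1, h2, h3, h4, h5⟩ := hc
  dsimp only at h1 h2 h3 h4 h5 hA ⊢
  subst h2 h3
  by_contra hcon
  push Not at hcon
  obtain ⟨hu, hw⟩ := hcon
  apply h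
  have hv : ev a3 = 0 := by
    apply ev_of_cr (v := -a2)
    rw [cr_neg_right, cr_swap a3 a2, neg_neg, hA]
  have huv : ev (a2 + a3) = 0 := by
    apply ev_of_cr (v := a3)
    rw [cr_add_left, cr_self, add_zero, hA]
  have hw' : ∀ w ∈ L', ev w = 1 := fun w hw1 => (ev_le_one w).resolve_left (hw w hw1)
  obtain ⟨_, _, rfl⟩ := h1
  obtain ⟨_, _, rfl⟩ := h5
  have ml : a1 ∈ lat a1 (a0 - a2) := AddSubgroup.subset_closure (by simp)
  have mp : a0 - a2 ∈ lat a1 (a0 - a2) := AddSubgroup.subset_closure (by simp)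
  have ml' : a4 ∈ lat a4 (a5 - a3) := AddSubgroup.subset_closure (by simp)
  have mp' : a5 - a3 ∈ lat a4 (a5 - a3) := AddSubgroup.subset_closure (by simp)
  have k1 : ev a0 = 0 := by
    rcases ev_le_one a0 with k | k
    · exact k
    · exact absurd (inE_of_ev mp (by rw [add_sub_cancel]; exact k)) hu
  have k2 : ev (a0 + a1) = 0 := by
    rcases ev_le_one (a0 + a1) with k | k
    · exact k
    · refine absurd (inE_of_ev (add_mem mp ml) ?_) hu
      rw [← add_assoc, add_sub_cancel]; exact k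
  have k3 : ev (a1 + a2) = 0 := by
    rcases ev_le_one (a1 + a2) with k | k
    · exact k
    · exact absurd (inE_of_ev ml (by rw [add_comm]; exact k)) hu
  have k4 : ev (a3 + a4) = 0 := by
    rw [add_comm, ev_add_left (hw' _ ml'), hv]
  have k5 : ev a5 = 0 := by
    have e : a5 = (a5 - a3) + a3 := by abel
    rw [e, ev_add_left (hw' _ mp'), hv]
  have k6 : ev (a4 + a5) = 0 := by
    rw [ev_add_left (hw' _ ml'), k5]
  simp only [C6.n0, k1, k2, k3, k4, k5, k6, huv]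

theorem IsRep.par_of_n0' {S : PSt} {c : C6} (hc : IsRep S c) (hA : cr S.u S.v = 1)
    (h : C6.n0 c ≠ 0) : InE S.L' S.v ∨ ∃ w ∈ S.L, ev w = 0 := by
  obtain ⟨L, u, v, L'⟩ := S
  dsimp only at hA ⊢
  have hS : PSt.Ok ⟨L, u, v, L'⟩ := ⟨c, hc⟩
  obtain ⟨c1, c2, h1, h2, h3⟩ := SEq.mirror hS
  have h4 : C6.n0 c2 ≠ 0 := by rw [h3.n0_eq, ((hc.ceq h1).n0_eq)]; exact h
  exact h2.par_of_n0 (by rw [cr_neg_right, cr_swap v u, neg_neg]; exact hA) h4

/-- NORMAL FORM Z0 when the state is equivalent to a K-state in congruence form with `n0 ≠ 0` -/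
theorem SEq.znorm {b p q b' p' q' : ℤ} (hb : 0 < b) (hb' : 0 < b') (hP : Prm b p q)
    (hP' : Prm b' p' q') (hn : nL b p + nL b' q' ≠ 0) {S : PSt}
    (hS : SEq (KC b p q b' p' q') S) (hA : cr S.u S.v = 1) {a a' : ℤ} (ha : IsArea S.L a)
    (ha' : IsArea S.L' a') (hco : IsCoprime (a + 1) a') (hco' : IsCoprime (a' + 1) a)
    (hd : IsC S.L S.v 1 ∨ IsC S.L' S.u 1) :
    ∃ z x : ℤ, 0 < z ∧ z < a ∧ 0 < x ∧ x < a' ∧ SEq S (KC a z (-1) a' 1 (-x)) ∧
      (Odd a ∨ Even z ↔ InE S.L S.u) ∧ (Odd a' ∨ Even x ↔ InE S.L' S.v) := by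
  obtain ⟨c1, c2, h1, h2, h3⟩ := id hS
  have h4 : C6.n0 c2 ≠ 0 := by
    rw [h3.n0_eq, h1.n0_KC hb hb' hP hP']; exact hn
  rcases hd with hd | hd
  · exact hS.ok'.znorm hA ha ha' hco hd (h2.par_of_n0 hA h4)
  · exact hS.ok'.znorm' hA ha ha' hco' hd (h2.par_of_n0' hA h4)

/-- the coprimality conditions follow from the primality of the volume -/
theorem coprime_of_vol {a a' : ℤ} {N : ℕ} (hN : N.Prime) (ha : 0 < a) (ha' : 0 < a')
    (h : a + 1 + a' = N) : IsCoprime (a + 1) a' ∧ IsCoprime (a' + 1) a := by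
  have key : ∀ b b' : ℤ, 0 < b → 0 < b' → b + 1 + b' = N → IsCoprime (b + 1) b' := by
    intro b b' hb hb' e
    refine isCoprime_of_prime fun l hl h1 h2 => ?_
    have h3 : (l : ℤ) ∣ (N : ℤ) := by rw [← e]; exact dvd_add h2 h1
    have h4 : l = N := (Nat.prime_dvd_prime_iff_eq hl hN).1 (by exact_mod_cast h3)
    subst h4
    have h5 := Int.le_of_dvd hb' h1
    omega
  exact ⟨key a a' ha ha' h, key a' a ha' ha (by linarith)⟩

end Pool.Agent.H4G
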