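import Pool.Agent.H4G.Arith.LMove
import Pool.Agent.H4G.Arith.TL
import Pool.Agent.H4G.Arith.SFreeTwo
import Pool.Agent.H4G.Arith.ZNorm

/-!
# Type (4,[1,1,1]), `N` prime (helper40, row R7)

All Z-states `Z(a,z;a',x)` with `a, z, x` even are equivalent (`K4.K4_main`). The proof is the
descent `D3` of helper1: a left move of length `3`, `TL` and `TR` (helper81), the node lemma,
`SFREE` and `CHOICE` (helper97), the normal form (helper42).
-/

set_option autoImplicit false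

namespace Pool.Agent.H4G.K4

open Pool.Agent.H4G

/-! ## The normal form for `n0 = 4` -/

theorem ev_add_even {x y : Z2} (h : ev y = 1) : ev (x + y) = ev x := by
  obtain ⟨t, rfl⟩ := ev_zero_iff.1 h
  exact ev_eq t rfl

theorem par_of_n0 {S : PSt} {c : C6} (h : IsRep S c) (hA : ev S.v = 0) (hB : ev (S.u + S.v) = 0)
    (h0 : C6.n0 c ≠ 0) : InE S.L S.u ∨ ∃ w ∈ S.L', ev w = 0 := by
  by_contra hn
  push Not at hn
  obtain ⟨hn1, hn2⟩ := hn
  obtain ⟨L, u, v, L'⟩ := S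
  obtain ⟨a0, a1, a2, a3, a4, a5⟩ := c
  obtain ⟨⟨h1, h2, h3⟩, e2, e3, h4, ⟨h5, h6, h7⟩⟩ := h
  dsimp only at hA hB hn1 hn2 h1 h2 h3 h4 h5 h6 h7 e2 e3
  subst e2 e3 h3 h7
  rw [inE_lat_iff] at hn1
  push Not at hn1
  obtain ⟨i1, i2, i3, i4⟩ := hn1
  have j4 : ev a4 = 1 := by
    rcases ev_le_one a4 with h | h
    · exact absurd h (hn2 a4 (mem_lat.2 ⟨1, 0, by module⟩))
    · exact h
  have j5 : ev (a5 - a3) = 1 := by
    rcases ev_le_one (a5 - a3) with h | h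
    · exact absurd h (hn2 _ (mem_lat.2 ⟨0, 1, by module⟩))
    · exact h
  have e1 : a2 + (a0 - a2) = a0 := by abel
  have e2 : a2 + (a0 - a2) + a1 = a0 + a1 := by abel
  rw [e1] at i3
  rw [e2] at i4
  have k0 : ev a0 = 0 := by rcases ev_le_one a0 with h | h; exacts [h, absurd h i3]
  have k1 : ev (a0 + a1) = 0 := by rcases ev_le_one (a0 + a1) with h | h; exacts [h, absurd h i4]
  have k2 : ev (a1 + a2) = 0 := by rcases ev_le_one (a1 + a2) with h | h; exacts [h, absurd h i2]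
  have k4 : ev (a3 + a4) = 0 := by rw [ev_add_even j4, hA]
  have k6 : ev a5 = 0 := by
    have := ev_add_even (x := a3) j5
    rw [show a3 + (a5 - a3) = a5 by abel, hA] at this
    exact this
  have k5 : ev (a4 + a5) = 0 := by rw [add_comm, ev_add_even j4, k6]
  apply h0
  simp only [C6.n0]
  omega

theorem par_of_n0' {S : PSt} {c : C6} (h : IsRep S c) (hA : ev S.u = 0) (hB : ev (S.u + S.v) = 0)
    (h0 : C6.n0 c ≠ 0) : InE S.L' S.v ∨ ∃ w ∈ S.L, ev w = 0 := by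
  have h1 := SEq.mirror (L := S.L) (L' := S.L') (u := S.u) (v := S.v) ⟨c, h⟩
  obtain ⟨d, d', m1, m2, m3⟩ := h1
  have e1 : C6.n0 d' ≠ 0 := by
    rw [m3.n0_eq, (h.ceq m1).n0_eq]; exact h0
  refine par_of_n0 (S := ⟨S.L', S.v, -S.u, S.L⟩) m2 ?_ ?_ e1
  · dsimp only
    have : ev (-S.u) = ev S.u := ev_eq (-S.u) (by module)
    rw [this, hA]
  · dsimp only
    have : ev (S.v + -S.u) = ev (S.u + S.v) := ev_eq (-S.u) (by module)
    rw [this, hB]

theorem znorm4 {N : ℕ} (hN : N.Prime) {L L' : AddSubgroup Z2} {a a' : ℤ}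
    (ha : IsArea L a) (ha' : IsArea L' a') (hv : a + 1 + a' = N)
    (h : IsC L (0, 1) 1 ∨ IsC L' (1, 0) 1) {b z b' x : ℤ} (hb : 0 < b) (hb' : 0 < b')
    (hbe : Even b) (hbe' : Even b') (hz : Even z) (hx : Even x)
    (hs : SEq (KC b z (-1) b' 1 (-x)) (KS L L')) (hae : Even a) (hae' : Even a') :
    ∃ z1 x1, Even z1 ∧ Even x1 ∧ SEq (KS L L') (KC a z1 (-1) a' 1 (-x1)) := by
  have h0 : nL b z + nL b' (-x) = 4 := by
    rw [nL_even_even hbe hz, nL_even_even hbe' hx.neg]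
  have key : ∃ z1 x1 : ℤ, SEq (KS L L') (KC a z1 (-1) a' 1 (-x1)) := by
    obtain ⟨c, c', m1, m2, m3⟩ := hs
    have e1 := m1.n0_KC hb hb' (prm_z b z) (prm_x b' x)
    have e2 : C6.n0 c' ≠ 0 := by rw [m3.n0_eq, e1, h0]; norm_num
    have hok : (KS L L').Ok := ⟨c', m2⟩
    rcases h with h | h
    · obtain ⟨z1, x1, -, -, -, -, k, -⟩ := PSt.Ok.znorm (S := KS L L') hok (by simp [KS, cr])
        ha ha' (isCoprime_vol hN hv ha.1 ha'.1) h
        (par_of_n0 m2 (by simp [ev, KS]) (by simp [ev, KS]) e2)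
      exact ⟨z1, x1, k⟩
    · obtain ⟨z1, x1, -, -, -, -, k, -⟩ := PSt.Ok.znorm' (S := KS L L') hok (by simp [KS, cr])
        ha ha' (isCoprime_vol hN (a := a') (a' := a) (by rw [← hv]; ring) ha'.1 ha.1) h
        (par_of_n0' m2 (by simp [ev, KS]) (by simp [ev, KS]) e2)
      exact ⟨z1, x1, k⟩
  obtain ⟨z1, x1, k⟩ := key
  have e3 := (hs.trans k).n0_KC hb hb' (prm_z b z) (prm_x b' x) ha.1 ha'.1 (prm_z a z1) (prm_x a' x1)
  rw [h0] at e3
  have e4 : Even z1 ∧ Even x1 := by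
    have i1 : nL a z1 = if Even z1 then 2 else 0 := by
      simp [nL, hae]
    have i2 : nL a' (-x1) = if Even x1 then 2 else 0 := by
      simp [nL, hae']
    rw [i1, i2] at e3
    split_ifs at e3 with j1 j2 j2
    · exact ⟨j1, j2⟩
    all_goals omega
  exact ⟨z1, x1, e4.1, e4.2, k⟩

/-! ## H-freedom for Z-states -/

/-- the H-orbit of `z` (with `c = 1` and `N` prime) -/
theorem ZH {N : ℕ} (hN : N.Prime) {a z a' x : ℤ} (hv : a + 1 + a' = N) (ha : 0 < a) (ha' : 0 < a')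
    (hok : (KC a z (-1) a' 1 (-x)).Ok) {z' : ℤ} (i : ℤ) (hc : IsCoprime a (1 + i * z))
    (hz : a ∣ z' * (1 + i * z) - z) :
    SEq (KC a z (-1) a' 1 (-x)) (KC a z' (-1) a' 1 (-x)) := by
  have h1 := KC.Hfree hN hv ha ha' isCoprime_one_left i hok
  have e : KC a z (-1 - i * z) a' 1 (-x) = KC a z' (-1) a' 1 (-x) := by
    rw [← KC.unit (a := a) (p := z') (q := -1) (t := 1 + i * z) hc]
    refine KC.congr ?_ ?_ ?_ ?_
    · have : (1 + i * z) * z' - z = z' * (1 + i * z) - z := by ring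
      rwa [this]
    · have : (1 + i * z) * -1 - (-1 - i * z) = 0 := by ring
      rw [this]; exact dvd_zero _
    · simp
    · simp
  rw [e] at h1
  exact h1

/-- `gcd (z, a) = 2` : `z` can be replaced by `2` -/
theorem ZH2 {N : ℕ} (hN : N.Prime) {b w a' x : ℤ} (hv : 2 * b + 1 + a' = N) (hb : 0 < b)
    (ha' : 0 < a') (hok : (KC (2 * b) (2 * w) (-1) a' 1 (-x)).Ok) (hc : IsCoprime w b) :
    SEq (KC (2 * b) (2 * w) (-1) a' 1 (-x)) (KC (2 * b) 2 (-1) a' 1 (-x)) := by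
  -- find `i` with `b ∣ 2 i w - (w - 1)`
  obtain ⟨i, hi⟩ : ∃ i : ℤ, b ∣ 2 * i * w - (w - 1) := by
    obtain ⟨α, β, hαβ⟩ := hc
    rcases Int.even_or_odd w with hw | hw
    · -- `b` odd
      have hbo : Odd b := by
        by_contra hbe
        rw [Int.not_odd_iff_even] at hbe
        obtain ⟨w', rfl⟩ := hw
        obtain ⟨b', rfl⟩ := hbe
        have h9 : (2 : ℤ) ∣ 1 := ⟨α * w' + β * b', by linear_combination -hαβ⟩
        norm_num at h9
      obtain ⟨b', rfl⟩ := hbo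
      -- inverse of 2 mod b is `-b'`
      refine ⟨-b' * α * (w - 1), ?_⟩
      -- 2 i w = -2 b' α w (w-1); α w = 1 - β b ; -2b' = 1 - b
      have : 2 * (-b' * α * (w - 1)) * w - (w - 1)
          = (2 * b' + 1) * (-(w - 1) * α * w - β * (w - 1)) := by
        linear_combination (w - 1) * hαβ
      rw [this]; exact dvd_mul_right _ _
    · obtain ⟨w', rfl⟩ := hw
      refine ⟨w' * α, ?_⟩
      have : 2 * (w' * α) * (2 * w' + 1) - (2 * w' + 1 - 1) = b * (-(2 * w' * β)) := by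
        linear_combination 2 * w' * hαβ
      rw [this]; exact dvd_mul_right _ _
  refine ZH hN hv (by linarith) ha' hok i ?_ ?_
  · rw [Int.isCoprime_iff_gcd_eq_one]
    by_contra hne
    obtain ⟨r, hr, h1⟩ := Nat.exists_prime_and_dvd hne
    have h2 : (r : ℤ) ∣ 2 * b := (Int.natCast_dvd_natCast.2 h1).trans (Int.gcd_dvd_left _ _)
    have h3 : (r : ℤ) ∣ 1 + i * (2 * w) := (Int.natCast_dvd_natCast.2 h1).trans (Int.gcd_dvd_right _ _)
    rcases (Nat.prime_iff_prime_int.1 hr).dvd_or_dvd h2 with h4 | h4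
    · have h5 : (r : ℤ) ∣ i * (2 * w) := by
        have := h4.mul_right (i * w)
        have e : 2 * (i * w) = i * (2 * w) := by ring
        rwa [e] at this
      exact prime_not_dvd_one hr ((dvd_add_left h5).1 h3)
    · have h5 : (r : ℤ) ∣ w := by
        have h6 := h4.trans hi
        have h7 := dvd_sub h3 h6
        have e : 1 + i * (2 * w) - (2 * i * w - (w - 1)) = w := by ring
        rwa [e] at h7
      exact not_dvd_of_isCoprime hc hr h4 h5
  · obtain ⟨t, ht⟩ := hi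
    refine ⟨t, ?_⟩
    linear_combination 2 * ht

/-! ## The descent step -/

/-- the node step `A : 4 → 2` for `c = 2`, with the parity of the new `v` -/
theorem node42 {L L' : AddSubgroup Z2} {u v : Z2} {a' : ℤ} (hok : PSt.Ok ⟨L, u, v, L'⟩)
    (ha' : IsArea L' a') (hc : IsC L' u 2) (hA : cr u v = 4)
    (huv : (2 : ℤ) ∣ (u + v).1 ∧ (2 : ℤ) ∣ (u + v).2)
    (h4 : (4 : ℤ) ∣ a' → ∀ w ∈ L', (2 : ℤ) ∣ w.1 → (2 : ℤ) ∣ w.2 → (4 : ℤ) ∣ cr u w)
    (hev : Even a') :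
    ∃ v1 L1, SEq ⟨L, u, v, L'⟩ ⟨L, u, v1, L1⟩ ∧ cr u v1 = 2 ∧ IsArea L1 (a' + 2) ∧ IsC L1 u 2 ∧
      (¬ ((2 : ℤ) ∣ v1.1 ∧ (2 : ℤ) ∣ v1.2) ∨ (4 : ℤ) ∣ a' + 2) := by
  have hok' := hok
  obtain ⟨⟨a0, a1, a2, a3, a4, a5⟩, hl, e2, e3, hA0, hr⟩ := hok'
  dsimp only at hl e2 e3 hA0 hr
  subst e2 e3
  obtain ⟨l, p, h1, h2, h3, h4', h5, h6⟩ := exists_node_vec hr hA0 ha' hc (by rw [hA]; norm_num)
  have hlm : l ∈ L' := by rw [← h1]; exact mem_lat.2 ⟨1, 0, by module⟩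
  have hd : (2 : ℤ) ∣ cr a2 l := hc.2.1 l hlm
  rw [hA, abs_lt] at h5
  -- the parity
  have par : ∀ v1 : Z2, (∃ t : Z2, v1 = l + (2 : ℤ) • t) →
      (¬ ((2 : ℤ) ∣ v1.1 ∧ (2 : ℤ) ∣ v1.2) ∨ (4 : ℤ) ∣ a' + 2) := by
    rintro v1 ⟨t, rfl⟩
    by_cases h7 : (4 : ℤ) ∣ a'
    · left
      rintro ⟨h8, h9⟩
      have h10 := h4 h7 l hlm (by
        have := dvd_sub h8 (dvd_mul_right (2 : ℤ) t.1)
        simpa using this) (by
        have := dvd_sub h9 (dvd_mul_right (2 : ℤ) t.2)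
        simpa using this)
      omega
    · right
      obtain ⟨b, rfl⟩ := hev
      omega
  obtain ⟨t, ht⟩ : ∃ t : Z2, a2 + a3 = (2 : ℤ) • t := by
    obtain ⟨⟨t1, ht1⟩, ⟨t2, ht2⟩⟩ := huv
    exact ⟨(t1, t2), by ext <;> simp [ht1, ht2]⟩
  subst h1
  rcases lt_or_gt_of_ne h6 with h | h
  · have hm2 : cr a2 l = -2 := by omega
    have := SEq.mPlus' hok h3 (by rw [h2]; exact h4') (by rw [hA]; linarith) (by linarith)
    refine ⟨_, _, this, ?_, ?_, ?_, par _ ⟨t - a2, ?_⟩⟩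
    · rw [cr_add_right, cr_sub_right, cr_self, hA, hm2]; ring
    · refine ⟨by linarith [ha'.1], l, p - a2, ?_, rfl⟩
      rw [cr_sub_left, h2, hm2]; ring
    · have := hc.congr (k := -1)
      have e : p + (-1 : ℤ) • a2 = p - a2 := by module
      rwa [e] at this
    · rw [smul_sub, ← ht]; module
  · have hm2 : cr a2 l = 2 := by omega
    have := SEq.mMinus' hok h3 (by rw [h2]; exact h4') (by linarith) (by rw [hA]; linarith)
    refine ⟨_, _, this, ?_, ?_, ?_, par _ ⟨t - l, ?_⟩⟩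
    · rw [cr_sub_right, cr_add_right, cr_self, hA, hm2]; ring
    · refine ⟨by linarith [ha'.1], l, p + a2, ?_, rfl⟩
      rw [cr_add_left, h2, hm2]
    · have := hc.congr (k := 1)
      rwa [one_smul] at this
    · rw [smul_sub, ← ht]; module

/-- `D3` with an explicit vector -/
theorem D3_vec {N : ℕ} (hN : N.Prime) {a z a' x s h j : ℤ} (hv : a + 1 + a' = N)
    (ha' : 0 < a') (hae : Even a) (hae' : Even a') (hze : Even z) (hxe : Even x)
    (hok : (KC a z (-1) a' 1 (-x)).Ok) (h4 : ¬ (4 : ℤ) ∣ a' ∨ ¬ (4 : ℤ) ∣ x)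
    (hs : s = 1 ∨ s = -1) (hh : h = s * 3 * z + j * a) (hhe : Even h) (hj : ¬ (3 : ℤ) ∣ j)
    (hh4 : 4 ≤ h) (hha : h ≤ a) : ∃ z2 x2, Even z2 ∧ Even x2 ∧
      SEq (KC a z (-1) a' 1 (-x)) (KC (a - 2) z2 (-1) (a' + 2) 1 (-x2)) := by
  have ha : 0 < a := by linarith
  -- the right lattice
  obtain ⟨m, -, hm⟩ := exists_Vm2 (a' := a') (p' := 1) (q' := -x) (X := 4) (Y := s * (1 + h))
    ha'.ne' (by
      obtain ⟨h', rfl⟩ := hhe
      rcases hs with rfl | rfl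
      · exact ⟨-(h' * (1 + (h' + h'))) * 0 + (h' * h'), 1 - (h' + h'), by ring⟩
      · exact ⟨h' * h', -(1 - (h' + h')), by ring⟩)
    (prm_x a' x)
    (by
      intro r hr hr2 _ _ h5
      have h6 : (r : ℤ) ∣ 2 * 2 := by norm_num; exact h5
      rcases (Nat.prime_iff_prime_int.1 hr).dvd_or_dvd h6 with h7 | h7
      · exact hr2 ((Nat.prime_dvd_prime_iff_eq hr Nat.prime_two).1 (by exact_mod_cast h7))
      · exact hr2 ((Nat.prime_dvd_prime_iff_eq hr Nat.prime_two).1 (by exact_mod_cast h7)))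
    0 hae'.two_dvd
    (by
      obtain ⟨x', rfl⟩ := hxe
      exact ⟨2 - x' * (s * (1 + h)), by ring⟩)
    (by
      refine h4.imp id fun h5 h6 => h5 ?_
      obtain ⟨h', rfl⟩ := hhe
      obtain ⟨x', rfl⟩ := hxe
      have e : (1 - 0 * -(x' + x')) * 4 + -(x' + x') * (s * (1 + (h' + h')))
        = 4 * (1 - s * x' * h') - s * (x' + x') := by ring
      rw [e] at h6
      have h7 : (4 : ℤ) ∣ s * (x' + x') := by
        have := dvd_sub (dvd_mul_right (4 : ℤ) (1 - s * x' * h')) h6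
        have e2 : 4 * (1 - s * x' * h') - (4 * (1 - s * x' * h') - s * (x' + x')) = s * (x' + x') := by
          ring
        rwa [e2] at this
      rcases hs with rfl | rfl
      · simpa using h7
      · have e3 : x' + x' = -(-1 * (x' + x')) := by ring
        rw [e3]; exact (dvd_neg).2 h7)
  have h1 := KC.Vfree hN hv ha ha' isCoprime_one_left.neg_left m hok
  -- the left move
  have h2 := leftMove (e := 3) hs (by norm_num) (by linarith) hha hh
    ((Int.isCoprime_iff_gcd_eq_one).2 (by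
      rw [← Int.isCoprime_iff_gcd_eq_one]
      exact (Int.isCoprime_iff_gcd_eq_one).2 (by
        have : Nat.Coprime 3 j.natAbs := (Nat.Prime.coprime_iff_not_dvd Nat.prime_three).2
          (fun h => hj (by
            have : ((3 : ℕ) : ℤ) ∣ j := Int.natCast_dvd.2 h
            exact_mod_cast this))
        exact this))) h1.ok'
  have e3 : (1 : ℤ) + 3 = 4 := by norm_num
  rw [e3] at h2
  -- the node
  have hM : IsArea (Lc a' (1 - m * -x) (-x)) a' := isArea_Lc ha' ((prm_x a' x).shV m)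
  have hcr : cr ((4, s * (1 + h)) : Z2) (0, 1) = 4 := by simp [cr]
  obtain ⟨v1, L1, k1, k9, k7, k8, hp1⟩ := node42 h2.ok' hM hm hcr
    (by
      obtain ⟨h', rfl⟩ := hhe
      refine ⟨⟨2, by simp⟩, ?_⟩
      rcases hs with rfl | rfl
      · exact ⟨1 + h', by simp; ring⟩
      · exact ⟨-h', by simp; ring⟩)
    (by
      intro h5 w hw hw1 hw2
      obtain ⟨w1, hw1⟩ := hw1
      obtain ⟨w2, hw2⟩ := hw2
      obtain ⟨x', rfl⟩ := hxe
      obtain ⟨h', rfl⟩ := hhe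
      rw [mem_Lc, hw1, hw2] at hw
      -- `2 ∣ w1`
      have h6 : (2 : ℤ) ∣ w1 := by
        have h7 := h5.trans hw
        obtain ⟨t, ht⟩ := h7
        refine ⟨t - m * x' * w1 + x' * w2, ?_⟩
        have h8 : 2 * w1 = 2 * (2 * (t - m * x' * w1 + x' * w2)) := by linear_combination ht
        linarith
      simp only [cr, hw1, hw2]
      obtain ⟨w3, rfl⟩ := h6
      exact ⟨2 * w2 - s * (1 + (h' + h')) * w3, by ring⟩) hae'
  -- SFREE and CHOICE
  have hP := prm_z (a - 3) (z + j * s)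
  have hL : IsArea (Lc (a - 3) (z + j * s) (-1)) (a - 3) := isArea_Lc (by linarith) hP
  obtain ⟨L2, v2, L3, f1, f2, f3, f4, f5, f6, f7⟩ := SEq.two_choice hN k1.ok' hL k7
    (by rw [← hv]; ring) k9 k8 hP.cont1
    (by
      obtain ⟨a1, rfl⟩ := hae
      exact ⟨a1 - 2, by ring⟩) hp1
  obtain ⟨g, M, g1, g2, g3, g4, g5⟩ := toKS' f1.ok' f3 f4 f6
  rw [f2] at g4
  have h3 := ((h1.trans h2).trans k1).trans (f1.trans g2)
  have e4 : a - 3 + (2 - 1) = a - 2 := by ring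
  rw [e4] at g4
  obtain ⟨z1, x1, q1, q2, q3⟩ := znorm4 hN g4 g3 (by rw [← hv]; ring) (Or.inl g5) ha ha'
    hae hae' hze hxe h3 (by
      obtain ⟨a1, rfl⟩ := hae
      exact ⟨a1 - 1, by ring⟩) (hae'.add even_two)
  exact ⟨z1, x1, q1, q2, h3.trans q3⟩

theorem exists_vec3 {a z : ℤ} (hae : Even a) (h6 : 6 ≤ a) (hz : Even z) (h0 : 0 < z)
    (h1 : z < a) :
    (∃ s j h : ℤ, (s = 1 ∨ s = -1) ∧ h = s * 3 * z + j * a ∧ Even h ∧ ¬ (3 : ℤ) ∣ j ∧ 4 ≤ h ∧
      h ≤ a) ∨ 3 * z = a - 2 ∨ 3 * (a - z) = a - 2 := by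
  obtain ⟨b, rfl⟩ := hae
  obtain ⟨w, rfl⟩ := hz
  by_cases c1 : 3 * (w + w) ≤ (b + b) - 4
  · exact Or.inl ⟨-1, 1, (b + b) - 3 * (w + w), Or.inr rfl, by ring, ⟨b - 3 * w, by ring⟩,
      by norm_num, by omega, by omega⟩
  by_cases c2 : 3 * (w + w) = (b + b) - 2
  · exact Or.inr (Or.inl c2)
  by_cases c3 : 3 * (w + w) ≤ 2 * (b + b) - 4
  · exact Or.inl ⟨-1, 2, 2 * (b + b) - 3 * (w + w), Or.inr rfl, by ring,
      ⟨2 * b - 3 * w, by ring⟩, by norm_num, by omega, by omega⟩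
  by_cases c4 : 3 * (w + w) ≤ 2 * (b + b)
  · exact Or.inl ⟨1, -1, 3 * (w + w) - (b + b), Or.inl rfl, by ring,
      ⟨3 * w - b, by ring⟩, by norm_num, by omega, by omega⟩
  by_cases c5 : 3 * (w + w) = 2 * (b + b) + 2
  · exact Or.inr (Or.inr (by omega))
  · exact Or.inl ⟨1, -2, 3 * (w + w) - 2 * (b + b), Or.inl rfl, by ring,
      ⟨3 * w - 2 * b, by ring⟩, by norm_num, by omega, by omega⟩

theorem ok_Z {a z a' x : ℤ} (hok : (KC a z (-1) a' 1 (-x)).Ok) : ¬ a ∣ z ∧ ¬ a' ∣ x := by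
  obtain ⟨h1, h2⟩ := KC.ok_iff hok
  exact ⟨h1, fun h => h2 ((dvd_neg).2 h)⟩

theorem KC_emod (a z a' x : ℤ) : KC a z (-1) a' 1 (-x) = KC a (z % a) (-1) a' 1 (-x) := by
  refine KC.congr ?_ (by simp) (by simp) (by simp)
  have := Int.emod_add_mul_ediv z a
  exact ⟨-(z / a), by linear_combination this⟩

/-- `a = 8`, `z = 2` -/
theorem D3_eight {N : ℕ} (hN : N.Prime) {a' x : ℤ} (hv : 8 + 1 + a' = N)
    (ha' : 0 < a') (hae' : Even a') (hxe : Even x) (hok : (KC 8 2 (-1) a' 1 (-x)).Ok) :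
    ∃ z2 x2, Even z2 ∧ Even x2 ∧
      SEq (KC 8 2 (-1) a' 1 (-x)) (KC 6 z2 (-1) (a' + 2) 1 (-x2)) := by
  obtain ⟨m, hm⟩ := exists_Vm (a' := a') (p' := 1) (q' := -x) (X := 1 + 2) (Y := -1 * (1 + 4))
    ha'.ne' ⟨2, 1, by norm_num⟩ (prm_x a' x) (by
      intro r hr h1 _ h2
      have h3 : (r : ℤ) ∣ 3 := by norm_num at h2; exact h2
      have h4 : r = 3 := (Nat.prime_dvd_prime_iff_eq hr Nat.prime_three).1 (by exact_mod_cast h3)
      subst h4
      have h6 : ((3 : ℕ) : ℤ) ∣ N := by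
        rw [← hv]
        exact dvd_add ⟨3, by norm_num⟩ h1
      have h7 := (Nat.prime_dvd_prime_iff_eq hr hN).1 (by exact_mod_cast h6)
      omega)
  have h1 := KC.Vfree hN hv (by norm_num) ha' isCoprime_one_left.neg_left m hok
  have hM : IsArea (Lc a' (1 - m * -x) (-x)) a' := isArea_Lc ha' ((prm_x a' x).shV m)
  obtain ⟨p, q, x1, k1, k2, -⟩ := leftMoveK (a := 8) (z := 2) (s := -1) (e := 2) (h := 4) (j := 1)
    (Or.inr rfl) (by norm_num) (by norm_num) (by norm_num) (by norm_num) isCoprime_one_right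
    h1.ok' hM hm
  have h2 := h1.trans k2
  have e : (8 : ℤ) - 2 = 6 := by norm_num
  rw [e] at h2 k1
  obtain ⟨z1, x2, q1, q2, q3⟩ := znorm4 hN (isArea_Lc (by norm_num) k1)
    (isArea_Lc (by linarith) (prm_x (a' + 2) x1)) (by rw [← hv]; ring) (Or.inr isC_x)
    (by norm_num : (0 : ℤ) < 8) ha' ⟨4, by norm_num⟩ hae' ⟨1, by norm_num⟩ hxe h2
    ⟨3, by norm_num⟩ (hae'.add even_two)
  exact ⟨z1, x2, q1, q2, h2.trans q3⟩

/-- `D3` : the areas `(a, a')` can be replaced by `(a - 2, a' + 2)` -/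
theorem D3 {N : ℕ} (hN : N.Prime) (h5 : 3 < N) {a z a' x : ℤ} (hv : a + 1 + a' = N) (h6 : 6 ≤ a)
    (ha' : 0 < a') (hae : Even a) (hae' : Even a') (hze : Even z) (hxe : Even x)
    (hok : (KC a z (-1) a' 1 (-x)).Ok) (h4 : ¬ (4 : ℤ) ∣ a' ∨ ¬ (4 : ℤ) ∣ x) :
    ∃ z2 x2, Even z2 ∧ Even x2 ∧
      SEq (KC a z (-1) a' 1 (-x)) (KC (a - 2) z2 (-1) (a' + 2) 1 (-x2)) := by
  have ha : 0 < a := by linarith
  have hz1 : ¬ a ∣ z := (ok_Z hok).1
  have hpos : 0 < z % a := by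
    rcases (Int.emod_nonneg z ha.ne').lt_or_eq with h | h
    · exact h
    · exact absurd (Int.dvd_of_emod_eq_zero h.symm) hz1
  have hlt : z % a < a := Int.emod_lt_of_pos z ha
  have hev : Even (z % a) := by
    rw [Int.emod_def]
    exact hze.sub (hae.mul_right _)
  rw [KC_emod] at hok ⊢
  generalize z % a = y at hok hpos hlt hev
  rcases exists_vec3 hae h6 hev hpos hlt with ⟨s, j, h, h1, h2, h3, h7, h8, h9⟩ | h1
  · exact D3_vec hN hv ha' hae hae' hev hxe hok h4 h1 h2 h3 h7 h8 h9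
  · -- `gcd (y, a) = 2`
    obtain ⟨b, rfl⟩ := hae.two_dvd
    obtain ⟨w, rfl⟩ := hev.two_dvd
    have hco : IsCoprime w b := by
      rcases h1 with h1 | h1
      · exact ⟨-3, 1, by linarith⟩
      · exact ⟨3, -2, by linarith⟩
    have hH := ZH2 hN hv (by linarith) ha' hok hco
    rcases exists_vec3 hae h6 even_two (by norm_num) (by linarith) with
      ⟨s, j, h, g1, g2, g3, g7, g8, g9⟩ | g1 | g1
    · obtain ⟨z2, x2, f1, f2, f3⟩ := D3_vec hN hv ha' hae hae' even_two hxe hH.ok' h4 g1 g2 g3 g7 g8 g9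
      exact ⟨z2, x2, f1, f2, hH.trans f3⟩
    · have hb : b = 4 := by linarith
      subst hb
      have e1 : (2 : ℤ) * 4 = 8 := by norm_num
      rw [e1] at hv hH ⊢
      obtain ⟨z2, x2, f1, f2, f3⟩ := D3_eight hN hv ha' hae' hxe hH.ok'
      have e2 : (8 : ℤ) - 2 = 6 := by norm_num
      rw [e2]
      exact ⟨z2, x2, f1, f2, hH.trans f3⟩
    · exfalso; linarith

/-- one step of the descent, all cases -/
theorem K4_step {N : ℕ} (hN : N.Prime) (h5 : 3 < N) {a z a' x : ℤ} (hv : a + 1 + a' = N)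
    (h6 : 8 ≤ a) (ha' : 0 < a') (hae : Even a) (hae' : Even a') (hze : Even z) (hxe : Even x)
    (hok : (KC a z (-1) a' 1 (-x)).Ok) :
    ∃ z2 x2, Even z2 ∧ Even x2 ∧
      SEq (KC a z (-1) a' 1 (-x)) (KC (a - 2) z2 (-1) (a' + 2) 1 (-x2)) := by
  have ha : 0 < a := by linarith
  have hx1 : ¬ a' ∣ x := (ok_Z hok).2
  have ha'2 : ¬ a' ∣ 2 := by
    intro h
    apply hx1
    exact h.trans hxe.two_dvd
  have ha4 : ¬ a ∣ 4 := fun h => by have := Int.le_of_dvd (by norm_num) h; omega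
  have h42 : ¬ (4 : ℤ) ∣ 2 := by norm_num
  -- `x := 2` and `D3`
  have main : ∀ y : ℤ, Even y → (KC a y (-1) a' 1 (-x)).Ok → (¬ (4 : ℤ) ∣ a ∨ (4 : ℤ) ∣ y) →
      ∃ z2 x2, Even z2 ∧ Even x2 ∧
      SEq (KC a y (-1) a' 1 (-x)) (KC (a - 2) z2 (-1) (a' + 2) 1 (-x2)) := by
    intro y hy hoky h
    have h1 := TR hN hv ha ha' hae hoky (Or.inl ⟨hy, hxe, h⟩) ha'2
      (dvd_sub_self_left.2 hxe.two_dvd : (2 : ℤ) ∣ 2 - x)
    obtain ⟨z2, x2, f1, f2, f3⟩ := D3 hN h5 hv (by linarith) ha' hae hae' hy even_two h1.ok'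
      (Or.inr h42)
    exact ⟨z2, x2, f1, f2, h1.trans f3⟩
  by_cases c1 : ¬ (4 : ℤ) ∣ a ∨ (4 : ℤ) ∣ z
  · exact main z hze hok c1
  · push Not at c1
    by_cases c2 : ¬ (4 : ℤ) ∣ a' ∨ (4 : ℤ) ∣ x
    · have h1 := TL hN hv ha ha' hae hok (Or.inl ⟨hze, hxe, c2⟩) ha4 (by
        obtain ⟨w, rfl⟩ := hze
        exact ⟨2 - w, by ring⟩)
      obtain ⟨z2, x2, f1, f2, f3⟩ := main 4 ⟨2, by norm_num⟩ h1.ok' (Or.inr dvd_rfl)
      exact ⟨z2, x2, f1, f2, h1.trans f3⟩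
    · push Not at c2
      exact D3 hN h5 hv (by linarith) ha' hae hae' hze hxe hok (Or.inr c2.2)

/-- the descent to `a = 6` -/
theorem K4_desc {N : ℕ} (hN : N.Prime) (h5 : 11 ≤ N) (n : ℕ) : ∀ {a z a' x : ℤ}, a.toNat = n →
    a + 1 + a' = N → 6 ≤ a → 0 < a' → Even a → Even a' → Even z → Even x →
    (KC a z (-1) a' 1 (-x)).Ok →
    SEq (KC a z (-1) a' 1 (-x)) (KC 6 2 (-1) (N - 7) 1 (-2)) := by
  induction n using Nat.strong_induction_on with
  | _ n ih =>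
  intro a z a' x hn hv h6 ha' hae hae' hze hxe hok
  have ha : 0 < a := by linarith
  by_cases c1 : a = 6
  · subst c1
    have hx1 : ¬ a' ∣ x := (ok_Z hok).2
    have ha'2 : ¬ a' ∣ 2 := fun h => hx1 (h.trans hxe.two_dvd)
    have h1 := TR hN hv ha ha' hae hok (Or.inl ⟨hze, hxe, Or.inl (by norm_num)⟩) ha'2
      (dvd_sub_self_left.2 hxe.two_dvd : (2 : ℤ) ∣ 2 - x)
    obtain ⟨w, rfl⟩ := hze.two_dvd
    have hw : ¬ (3 : ℤ) ∣ w := by
      rintro ⟨t, rfl⟩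
      exact (ok_Z hok).1 ⟨t, by ring⟩
    have hco : IsCoprime w 3 := by
      have : Nat.Coprime 3 w.natAbs := (Nat.Prime.coprime_iff_not_dvd Nat.prime_three).2
        (fun h => hw (by
          have : ((3 : ℕ) : ℤ) ∣ w := Int.natCast_dvd.2 h
          exact_mod_cast this))
      have h9 : IsCoprime (3 : ℤ) w := Int.isCoprime_iff_gcd_eq_one.2 this
      exact h9.symm
    have e6 : (6 : ℤ) = 2 * 3 := by norm_num
    have hok1 := h1.ok'
    rw [e6] at h1 hok1 hv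
    have h2 := ZH2 hN hv (by norm_num) ha' hok1 hco
    have h3 := h1.trans h2
    rw [← e6] at h3
    have e7 : (N : ℤ) - 7 = a' := by linarith
    rw [e7]
    exact h3
  · have h8 : 8 ≤ a := by
      obtain ⟨b, rfl⟩ := hae
      omega
    obtain ⟨z2, x2, f1, f2, f3⟩ := K4_step hN (by omega) hv h8 ha' hae hae' hze hxe hok
    have := ih (a - 2).toNat (by omega) rfl (by linarith : a - 2 + 1 + (a' + 2) = N) (by linarith)
      (by linarith) (hae.sub even_two) (hae'.add even_two) f1 f2 f3.ok'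
    exact f3.trans this

/-- (4,[1,1,1]): all Z-states of the class are equivalent -/
theorem K4_main {N : ℕ} (hN : N.Prime) (h5 : 11 ≤ N) {a z a' x : ℤ} (hv : a + 1 + a' = N)
    (ha : 0 < a) (ha' : 0 < a') (hae : Even a) (hze : Even z) (hxe : Even x)
    (hok : (KC a z (-1) a' 1 (-x)).Ok) :
    SEq (KC a z (-1) a' 1 (-x)) (KC 6 2 (-1) (N - 7) 1 (-2)) := by
  have hNo : Odd N := hN.odd_of_ne_two (by omega)
  have hae' : Even a' := by
    obtain ⟨k, hk⟩ := hNo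
    obtain ⟨b, rfl⟩ := hae
    exact ⟨k - b, by rw [hk] at hv; push_cast at hv; linarith⟩
  by_cases c1 : 6 ≤ a
  · exact K4_desc hN h5 _ rfl hv c1 ha' hae hae' hze hxe hok
  · have h1 := ZS.mirror hok
    have h6 : 6 ≤ a' := by
      obtain ⟨b, rfl⟩ := hae
      omega
    exact h1.trans (K4_desc hN h5 _ rfl (by linarith) h6 ha hae' hae hxe.neg hze.neg h1.ok')

end Pool.Agent.H4G.K4
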