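import Pool.Agent.H4G.Arith.KLev

/-!
# Parity invariants (row R3; helper64)

`C6.n0 c` is the number of the seven vectors `a0, a0+a1, a1+a2, a2+a3, a3+a4, a4+a5, a5` lying in
`2 Z^2`. It is invariant under the moves. For K-states it is computed from the parities.
`InE M w` says that `w` lies in `M + 2 Z^2`.
-/

set_option autoImplicit false

open Matrix.SpecialLinearGroup MatrixGroups

namespace Pool.Agent.H4G

/-- `1` if the vector lies in `2 Z^2`, else `0` -/
def ev (w : Z2) : ℕ := if (w.1 : ZMod 2) = 0 ∧ (w.2 : ZMod 2) = 0 then 1 else 0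

/-- the number of the seven vectors lying in `2 Z^2` -/
def C6.n0 : C6 → ℕ
  | (a0, a1, a2, a3, a4, a5) => ev a0 + ev (a0 + a1) + ev (a1 + a2) + ev (a2 + a3) +
      ev (a3 + a4) + ev (a4 + a5) + ev a5

theorem two_zmod : (2 : ZMod 2) = 0 := by decide

theorem ev_eq {x y : Z2} (t : Z2) (h : x = y + (2 : ℤ) • t) : ev x = ev y := by
  subst h
  unfold ev
  have h1 : (((y + (2 : ℤ) • t).1 : ℤ) : ZMod 2) = (y.1 : ZMod 2) := by
    simp [two_zmod]
  have h2 : (((y + (2 : ℤ) • t).2 : ℤ) : ZMod 2) = (y.2 : ZMod 2) := by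
    simp [two_zmod]
  rw [h1, h2]

theorem ev_shT (w : Z2) : ev (shT w) = ev w := by
  obtain ⟨x, y⟩ := w
  simp only [ev, shT]
  push_cast
  generalize (x : ZMod 2) = a
  generalize (y : ZMod 2) = b
  revert a b; decide

theorem ev_shJ (w : Z2) : ev (shJ w) = ev w := by
  obtain ⟨x, y⟩ := w
  simp only [ev, shJ]
  push_cast
  generalize (x : ZMod 2) = a
  generalize (y : ZMod 2) = b
  revert a b; decide

theorem shT_add (a b : Z2) : shT a + shT b = shT (a + b) := by
  ext <;> simp [shT]; ring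

theorem shJ_add (a b : Z2) : shJ a + shJ b = shJ (a + b) := by
  ext <;> simp [shJ]; ring

/-- `n0` is invariant under the moves -/
theorem Mv.n0_eq {c c' : C6} (h : Mv c c') : C6.n0 c' = C6.n0 c := by
  cases h with
  | neg a0 a1 a2 a3 a4 a5 =>
    simp only [C6.n0]
    rw [ev_eq (x := -a0) (y := a0) (-a0) (by module),
      ev_eq (x := -a0 + -a1) (y := a0 + a1) (-a0 - a1) (by module),
      ev_eq (x := -a1 + -a2) (y := a1 + a2) (-a1 - a2) (by module),
      ev_eq (x := -a2 + -a3) (y := a2 + a3) (-a2 - a3) (by module),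
      ev_eq (x := -a3 + -a4) (y := a3 + a4) (-a3 - a4) (by module),
      ev_eq (x := -a4 + -a5) (y := a4 + a5) (-a4 - a5) (by module),
      ev_eq (x := -a5) (y := a5) (-a5) (by module)]
  | rev a0 a1 a2 a3 a4 a5 =>
    simp only [C6.n0]
    rw [ev_eq (x := -a0) (y := a0) (-a0) (by module),
      ev_eq (x := a1 + -a0) (y := a0 + a1) (-a0) (by module),
      ev_eq (x := -a2 + a1) (y := a1 + a2) (-a2) (by module),
      ev_eq (x := a3 + -a2) (y := a2 + a3) (-a2) (by module),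
      ev_eq (x := -a4 + a3) (y := a3 + a4) (-a4) (by module),
      ev_eq (x := a5 + -a4) (y := a4 + a5) (-a4) (by module)]
    ring
  | end0 a0 a1 a2 a3 a4 a5 =>
    simp only [C6.n0]
    rw [ev_eq (x := a0 + a1 + a1) (y := a0) a1 (by module)]
    ring
  | flip1 a0 a1 a2 a3 a4 a5 h1 h2 =>
    simp only [C6.n0]
    rw [ev_eq (x := a0 + (a1 + a0 - a2)) (y := a1 + a2) (a0 - a2) (by module),
      ev_eq (x := a1 + a0 - a2 + a2) (y := a0 + a1) 0 (by module)]
    ring
  | flip1' a0 a1 a2 a3 a4 a5 h1 h2 =>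
    simp only [C6.n0]
    rw [ev_eq (x := a0 + (a1 - a0 + a2)) (y := a1 + a2) 0 (by module),
      ev_eq (x := a1 - a0 + a2 + a2) (y := a0 + a1) (a2 - a0) (by module)]
    ring
  | flip2 a0 a1 a2 a3 a4 a5 h1 h2 =>
    simp only [C6.n0]
    rw [ev_eq (x := a1 + (a2 + a1 - a3)) (y := a2 + a3) (a1 - a3) (by module),
      ev_eq (x := a2 + a1 - a3 + a3) (y := a1 + a2) 0 (by module)]
    ring
  | flip2' a0 a1 a2 a3 a4 a5 h1 h2 =>
    simp only [C6.n0]
    rw [ev_eq (x := a1 + (a2 - a1 + a3)) (y := a2 + a3) 0 (by module),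
      ev_eq (x := a2 - a1 + a3 + a3) (y := a1 + a2) (a3 - a1) (by module)]
    ring
  | star a0 a1 a2 a3 a4 a5 h1 h2 h3 h4 =>
    simp only [C6.n0]
    rw [ev_eq (x := a2 - a3) (y := a2 + a3) (-a3) (by module),
      ev_eq (x := a2 - a3 + (a3 - a1)) (y := a1 + a2) (-a1) (by module),
      ev_eq (x := a3 - a1 + (a0 - a3)) (y := a0 + a1) (-a1) (by module),
      ev_eq (x := a0 - a3 + a3) (y := a0) 0 (by module)]
    ring
  | star' a0 a1 a2 a3 a4 a5 h1 h2 h3 h4 =>
    simp only [C6.n0]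
    rw [ev_eq (x := a2 + a3 + (a3 - a1)) (y := a1 + a2) (a3 - a1) (by module),
      ev_eq (x := a3 - a1 + (a0 - a1 + a3)) (y := a0) (a3 - a1) (by module),
      ev_eq (x := a0 - a1 + a3 + a3) (y := a0 + a1) (a3 - a1) (by module)]
    ring
  | T c =>
    obtain ⟨a0, a1, a2, a3, a4, a5⟩ := c
    simp only [C6.n0, C6.map, shT_add, ev_shT]
  | J c =>
    obtain ⟨a0, a1, a2, a3, a4, a5⟩ := c
    simp only [C6.n0, C6.map, shJ_add, ev_shJ]

theorem CEq.n0_eq {c c' : C6} (h : CEq c c') : C6.n0 c' = C6.n0 c := by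
  induction h with
  | rel x y h => exact Mv.n0_eq h.2
  | refl x => rfl
  | symm x y _ ih => exact ih.symm
  | trans x y z _ _ ih1 ih2 => exact ih2.trans ih1

theorem SEq.n0_eq {S S' : PSt} (h : SEq S S') {c c' : C6} (hc : IsRep S c) (hc' : IsRep S' c') :
    C6.n0 c' = C6.n0 c := (h.ceq hc hc').n0_eq

/-! ## Membership modulo 2 -/

/-- `w` lies in `M + 2 Z^2` -/
def InE (M : AddSubgroup Z2) (w : Z2) : Prop := ∃ x ∈ M, ∃ t : Z2, w = x + (2 : ℤ) • t

theorem InE.map {M : AddSubgroup Z2} {w : Z2} (g : SL(2, ℤ)) (h : InE M w) :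
    InE (M.map (act g)) (act g w) := by
  obtain ⟨x, hx, t, rfl⟩ := h
  exact ⟨act g x, AddSubgroup.mem_map_of_mem _ hx, act g t, by rw [map_add, act_smul]⟩

theorem inE_act {M : AddSubgroup Z2} {w : Z2} (g : SL(2, ℤ)) :
    InE (M.map (act g)) (act g w) ↔ InE M w := by
  refine ⟨fun h => ?_, InE.map g⟩
  have h1 := h.map g⁻¹
  have e : ∀ p, act g⁻¹ (act g p) = p := by
    intro p; rw [← act_mul, inv_mul_cancel, act_one]
  rw [e, AddSubgroup.map_map] at h1
  have e2 : (act g⁻¹).comp (act g) = AddMonoidHom.id Z2 := by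
    ext p <;> simp [AddMonoidHom.comp_apply, e]
  rw [e2, AddSubgroup.map_id] at h1
  exact h1

/-- an element of `SL2` fixing `w` does not change `w ∈ M + 2 Z^2` -/
theorem inE_fix {M : AddSubgroup Z2} {w : Z2} {g : SL(2, ℤ)} (hg : act g w = w) :
    InE (M.map (act g)) w ↔ InE M w := by
  have := inE_act (M := M) (w := w) g
  rwa [hg] at this

theorem inE_shH {M : AddSubgroup Z2} (k : ℤ) : InE (M.map (act (shH k))) (1, 0) ↔ InE M (1, 0) :=
  inE_fix (by rw [act_shH]; simp)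

theorem inE_shV {M : AddSubgroup Z2} (k : ℤ) : InE (M.map (act (shV k))) (0, 1) ↔ InE M (0, 1) :=
  inE_fix (by rw [act_shV]; simp)

/-- for a lattice of content `1` -/
theorem inE_Lc {a p q : ℤ} (h : Prm a p q) {w : Z2} :
    InE (Lc a p q) w ↔ Odd a ∨ Even (p * w.1 + q * w.2) := by
  constructor
  · rintro ⟨x, hx, t, rfl⟩
    rcases Int.even_or_odd a with ha | ha
    · right
      obtain ⟨b, hb⟩ := ha
      rw [mem_Lc] at hx
      obtain ⟨m, hm⟩ := hx
      refine ⟨b * m + (p * t.1 + q * t.2), ?_⟩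
      simp only [Prod.fst_add, Prod.snd_add, Prod.smul_fst, Prod.smul_snd, smul_eq_mul]
      rw [hb] at hm
      linear_combination hm
    · exact Or.inl ha
  · rintro (ha | he)
    · obtain ⟨b, hb⟩ := ha
      refine ⟨a • w, ?_, (-b) • w, ?_⟩
      · rw [mem_Lc]
        exact ⟨p * w.1 + q * w.2, by simp only [Prod.smul_fst, Prod.smul_snd, smul_eq_mul]; ring⟩
      · rw [hb]; module
    · obtain ⟨m, hm⟩ := he
      obtain ⟨x, y, z, hxyz⟩ := h.bezout
      refine ⟨w - (2 : ℤ) • (m * y, m * z), ?_, (m * y, m * z), by module⟩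
      rw [mem_Lc]
      refine ⟨2 * m * x, ?_⟩
      simp only [Prod.fst_sub, Prod.snd_sub, Prod.smul_fst, Prod.smul_snd, smul_eq_mul]
      linear_combination hm - 2 * m * hxyz

theorem inE_Lc_u {a p q : ℤ} (h : Prm a p q) : InE (Lc a p q) (1, 0) ↔ Odd a ∨ Even p := by
  rw [inE_Lc h]; simp

theorem inE_Lc_v {a p q : ℤ} (h : Prm a p q) : InE (Lc a p q) (0, 1) ↔ Odd a ∨ Even q := by
  rw [inE_Lc h]; simp

/-! ## The value of `n0` -/

theorem ev_zero_iff {w : Z2} : ev w = 1 ↔ ∃ t : Z2, w = (2 : ℤ) • t := by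
  constructor
  · intro h
    unfold ev at h
    split at h
    · rename_i h1
      have h2 := (ZMod.intCast_zmod_eq_zero_iff_dvd _ _).1 h1.1
      have h3 := (ZMod.intCast_zmod_eq_zero_iff_dvd _ _).1 h1.2
      obtain ⟨x, hx⟩ := h2
      obtain ⟨y, hy⟩ := h3
      exact ⟨(x, y), by ext <;> simp <;> simpa using by assumption⟩
    · omega
  · rintro ⟨t, rfl⟩
    have : ev ((2 : ℤ) • t) = ev 0 := ev_eq t (by simp)
    rw [this]; simp [ev]

theorem cnt_odd {l p u : Z2} (h : ((cr p l : ℤ) : ZMod 2) = 1) (hu : ev u = 0) :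
    ev (u + p) + ev (u + p + l) + ev (l + u) = 1 := by
  obtain ⟨l1, l2⟩ := l
  obtain ⟨p1, p2⟩ := p
  obtain ⟨u1, u2⟩ := u
  simp only [ev, cr, Prod.mk_add_mk] at h hu ⊢
  push_cast at h hu ⊢
  generalize (l1 : ZMod 2) = a at *
  generalize (l2 : ZMod 2) = b at *
  generalize (p1 : ZMod 2) = c at *
  generalize (p2 : ZMod 2) = d at *
  generalize (u1 : ZMod 2) = e at *
  generalize (u2 : ZMod 2) = f at *
  clear * - h hu
  revert a b c d e f; decide

theorem cnt_even {l p u : Z2} (h : ((cr p l : ℤ) : ZMod 2) = 0) (hu : ev u = 0)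
    (hn : ev l = 0 ∨ ev p = 0) :
    ev (u + p) + ev (u + p + l) + ev (l + u) =
      if (ev (u + p) = 1 ∨ ev (u + p + l) = 1 ∨ ev (l + u) = 1) then 2 else 0 := by
  obtain ⟨l1, l2⟩ := l
  obtain ⟨p1, p2⟩ := p
  obtain ⟨u1, u2⟩ := u
  simp only [ev, cr, Prod.mk_add_mk] at h hu hn ⊢
  push_cast at h hu hn ⊢
  generalize (l1 : ZMod 2) = a at *
  generalize (l2 : ZMod 2) = b at *
  generalize (p1 : ZMod 2) = c at *
  generalize (p2 : ZMod 2) = d at *
  generalize (u1 : ZMod 2) = e at *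
  generalize (u2 : ZMod 2) = f at *
  clear * - h hu hn
  revert a b c d e f; decide


/-- the contribution of one side to `n0` -/
def nL (a x : ℤ) : ℕ := if Odd a then 1 else if Even x then 2 else 0

theorem nL_odd {a x : ℤ} (h : Odd a) : nL a x = 1 := by simp [nL, h]

theorem nL_even_even {a x : ℤ} (h : Even a) (hx : Even x) : nL a x = 2 := by
  simp [nL, Int.not_odd_iff_even.2 h, hx]

theorem nL_even_odd {a x : ℤ} (h : Even a) (hx : Odd x) : nL a x = 0 := by
  simp [nL, Int.not_odd_iff_even.2 h, Int.not_even_iff_odd.2 hx]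

theorem ev_le_one (w : Z2) : ev w = 0 ∨ ev w = 1 := by
  unfold ev; split
  · exact Or.inr rfl
  · exact Or.inl rfl

theorem inE_of_ev {M : AddSubgroup Z2} {x u : Z2} (hx : x ∈ M) (h : ev (u + x) = 1) : InE M u := by
  obtain ⟨t, ht⟩ := ev_zero_iff.1 h
  exact ⟨x, hx, t - x, by
    have : u = (u + x) - x := by abel
    rw [this, ht]; module⟩

theorem inE_lat_cases {l p u : Z2} (h : InE (lat l p) u) : ev u = 1 ∨ ev (l + u) = 1 ∨
    ev (u + p) = 1 ∨ ev (u + p + l) = 1 := by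
  obtain ⟨x, hx, t, rfl⟩ := h
  obtain ⟨m, n, rfl⟩ := mem_lat.1 hx
  rcases Int.even_or_odd' m with ⟨m', hm | hm⟩ <;> rcases Int.even_or_odd' n with ⟨n', hn | hn⟩ <;>
    subst hm hn
  · left; exact ev_zero_iff.2 ⟨m' • l + n' • p + t, by module⟩
  · right; right; left; exact ev_zero_iff.2 ⟨m' • l + (n' + 1) • p + t, by module⟩
  · right; left; exact ev_zero_iff.2 ⟨(m' + 1) • l + n' • p + t, by module⟩
  · right; right; right; exact ev_zero_iff.2 ⟨(m' + 1) • l + (n' + 1) • p + t, by module⟩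

theorem cnt_Lc {a p q : ℤ} (h : Prm a p q) {l p0 u : Z2}
    (hL : lat l p0 = Lc a p q) (hcr : cr p0 l = a) (hu : ev u = 0) :
    ev (u + p0) + ev (u + p0 + l) + ev (l + u) = nL a (p * u.1 + q * u.2) := by
  rcases Int.even_or_odd a with hae | hao
  · have h0 : ((cr p0 l : ℤ) : ZMod 2) = 0 := by
      rw [hcr]; exact (ZMod.intCast_zmod_eq_zero_iff_dvd _ _).2 (even_iff_two_dvd.1 hae)
    have hn : ev l = 0 ∨ ev p0 = 0 := by
      by_contra hcon
      push Not at hcon
      have h1 : ev l = 1 := (ev_le_one l).resolve_left hcon.1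
      have h2 : ev p0 = 1 := (ev_le_one p0).resolve_left hcon.2
      obtain ⟨t, ht⟩ := ev_zero_iff.1 h1
      obtain ⟨t', ht'⟩ := ev_zero_iff.1 h2
      have hm : ((q, -p) : Z2) ∈ lat l p0 := by rw [hL, mem_Lc]; exact ⟨0, by ring⟩
      obtain ⟨m, n, hmn⟩ := mem_lat.1 hm
      rw [ht, ht'] at hmn
      have e1 : q = 2 * (m * t.1 + n * t'.1) := by
        have := congrArg Prod.fst hmn
        simp only [Prod.fst_add, Prod.smul_fst, smul_eq_mul] at this
        linarith
      have e2 : -p = 2 * (m * t.2 + n * t'.2) := by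
        have := congrArg Prod.snd hmn
        simp only [Prod.snd_add, Prod.smul_snd, smul_eq_mul] at this
        linarith
      exact h 2 Nat.prime_two (by exact_mod_cast even_iff_two_dvd.1 hae)
        ((dvd_neg).1 ⟨_, by exact_mod_cast e2⟩) ⟨_, by exact_mod_cast e1⟩
    rw [cnt_even h0 hu hn]
    by_cases hx : Even (p * u.1 + q * u.2)
    · rw [nL_even_even hae hx, if_pos]
      have h3 : InE (Lc a p q) u := (inE_Lc h).2 (Or.inr hx)
      rw [← hL] at h3
      rcases inE_lat_cases h3 with h4 | h4 | h4 | h4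
      · omega
      · exact Or.inr (Or.inr h4)
      · exact Or.inl h4
      · exact Or.inr (Or.inl h4)
    · rw [nL_even_odd hae (Int.not_even_iff_odd.1 hx), if_neg]
      intro h4
      have h5 : InE (Lc a p q) u := by
        rw [← hL]
        have ml : l ∈ lat l p0 := AddSubgroup.subset_closure (by simp)
        have mp : p0 ∈ lat l p0 := AddSubgroup.subset_closure (by simp)
        rcases h4 with h4 | h4 | h4
        · exact inE_of_ev mp h4
        · exact inE_of_ev (add_mem mp ml) (by rw [← add_assoc]; exact h4)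
        · exact inE_of_ev ml (by rw [add_comm]; exact h4)
      rcases (inE_Lc h).1 h5 with h6 | h6
      · exact (Int.not_even_iff_odd.2 h6) hae
      · exact hx h6
  · have h0 : ((cr p0 l : ℤ) : ZMod 2) = 1 := by
      rw [hcr]
      obtain ⟨b, hb⟩ := hao
      rw [hb]; push_cast; rw [two_zmod]; ring
    rw [cnt_odd h0 hu, nL_odd hao]

/-- the value of `n0` on a chain whose two lattices have content `1` -/
theorem IsRep.n0_val {S : PSt} {a p q a' p' q' : ℤ} (hL : S.L = Lc a p q)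
    (hL' : S.L' = Lc a' p' q') (ha : 0 < a) (ha' : 0 < a') (h : Prm a p q) (h' : Prm a' p' q')
    (hu : ev S.u = 0) (hv : ev S.v = 0) {c : C6} (hc : IsRep S c) :
    C6.n0 c = nL a (p * S.u.1 + q * S.u.2) + ev (S.u + S.v) +
      nL a' (p' * S.v.1 + q' * S.v.2) := by
  obtain ⟨a0, a1, a2, a3, a4, a5⟩ := c
  obtain ⟨h1, h2, h3, h4, h5⟩ := hc
  subst h2 h3
  have i1 := h1.isArea
  have i2 := h5.isArea
  obtain ⟨x1, x2, x3⟩ := h1
  obtain ⟨y1, y2, y3⟩ := h5
  rw [hL] at x3 i1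
  rw [hL'] at y3 i2
  have j1 := i1.unique (isArea_Lc ha h)
  have j2 := i2.unique (isArea_Lc ha' h')
  have k1 := cnt_Lc h x3 (by
    rw [cr_sub_left, cr_swap S.u a1]; linarith) hu
  have k2 := cnt_Lc h' (l := -a4) (p0 := a5 - S.v) (u := S.v) (by rw [lat_neg_left]; exact y3) (by
    rw [cr_neg_right, cr_sub_left, cr_swap a5 a4]; linarith) hv
  have e1 : S.u + (a0 - S.u) = a0 := by abel
  have e2 : S.v + (a5 - S.v) = a5 := by abel
  rw [e1] at k1
  rw [e2] at k2
  have e3 : ev (a5 + -a4) = ev (a4 + a5) := ev_eq (-a4) (by module)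
  have e4 : ev (-a4 + S.v) = ev (S.v + a4) := ev_eq (-a4) (by module)
  rw [e3, e4] at k2
  simp only [C6.n0]
  omega

theorem IsRep.n0_KC {a p q a' p' q' : ℤ} (ha : 0 < a) (ha' : 0 < a') (h : Prm a p q)
    (h' : Prm a' p' q') {c : C6} (hc : IsRep (KC a p q a' p' q') c) :
    C6.n0 c = nL a p + nL a' q' := by
  have := IsRep.n0_val (S := KC a p q a' p' q') rfl rfl ha ha' h h' (by simp [ev, KS])
    (by simp [ev, KS]) hc
  rw [this]
  have e : ev ((KC a p q a' p' q').u + (KC a p q a' p' q').v) = 0 := by simp [ev, KS]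
  rw [e]
  simp [KS]

/-- the `n0`-invariant for K-states in congruence form -/
theorem SEq.n0_KC {a p q a' p' q' b r s b' r' s' : ℤ} (ha : 0 < a) (ha' : 0 < a') (h : Prm a p q)
    (h' : Prm a' p' q') (hb : 0 < b) (hb' : 0 < b') (k : Prm b r s) (k' : Prm b' r' s')
    (hs : SEq (KC a p q a' p' q') (KC b r s b' r' s')) :
    nL a p + nL a' q' = nL b r + nL b' s' := by
  obtain ⟨c, c', h1, h2, h3⟩ := hs
  rw [← h1.n0_KC ha ha' h h', ← h2.n0_KC hb hb' k k', h3.n0_eq]

/-! ## Parity is preserved by the normalisations -/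

/-- `exists_KS` with the parities -/
theorem exists_KS_par {S : PSt} (hS : S.Ok) (hA : cr S.u S.v = 1) {a a' : ℤ} (ha : IsArea S.L a)
    (ha' : IsArea S.L' a') :
    ∃ L L' : AddSubgroup Z2, SEq S (KS L L') ∧ IsArea L a ∧ IsArea L' a' ∧
      (InE L (1, 0) ↔ InE S.L S.u) ∧ (InE L' (0, 1) ↔ InE S.L' S.v) := by
  have hdet : Matrix.det !![S.v.2, -S.v.1; -S.u.2, S.u.1] = 1 := by
    rw [Matrix.det_fin_two_of]
    simp only [cr] at hA
    linarith
  set g : SL(2, ℤ) := ⟨!![S.v.2, -S.v.1; -S.u.2, S.u.1], hdet⟩ with hg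
  have h1 : act g S.u = (1, 0) := by
    rw [act_apply]
    simp only [hg]
    simp only [cr] at hA
    ext
    · simp; linarith
    · simp; ring
  have h2 : act g S.v = (0, 1) := by
    rw [act_apply]
    simp only [hg]
    simp only [cr] at hA
    ext
    · simp; ring
    · simp; linarith
  have := SEq.act g hS
  have i1 := inE_act (M := S.L) (w := S.u) g
  have i2 := inE_act (M := S.L') (w := S.v) g
  unfold PSt.act at this
  rw [h1, h2] at this
  rw [h1] at i1
  rw [h2] at i2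
  exact ⟨_, _, this, ha.act g, ha'.act g, i1, i2⟩

theorem inE_lat_iff {l p u : Z2} : InE (lat l p) u ↔ ev u = 1 ∨ ev (l + u) = 1 ∨
    ev (u + p) = 1 ∨ ev (u + p + l) = 1 := by
  refine ⟨inE_lat_cases, fun h => ?_⟩
  have ml : l ∈ lat l p := AddSubgroup.subset_closure (by simp)
  have mp : p ∈ lat l p := AddSubgroup.subset_closure (by simp)
  rcases h with h | h | h | h
  · exact inE_of_ev (zero_mem _) (by simpa using h)
  · exact inE_of_ev ml (by rw [add_comm]; exact h)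
  · exact inE_of_ev mp h
  · exact inE_of_ev (add_mem mp ml) (by rw [← add_assoc]; exact h)

theorem inE_twistV (y b t k : ℤ) :
    InE (lat (0, y) (b, t + k * (b - 1))) (1, 0) ↔ InE (lat (0, y) (b, t)) (1, 0) := by
  rw [inE_lat_iff, inE_lat_iff]
  simp only [ev, Prod.mk_add_mk]
  push_cast
  generalize (y : ZMod 2) = y
  generalize (b : ZMod 2) = b
  generalize (t : ZMod 2) = t
  generalize (k : ZMod 2) = k
  revert y b t k; decide

theorem inE_twistH (y b s k : ℤ) :
    InE (lat (y, 0) (s + k * (b - 1), b)) (0, 1) ↔ InE (lat (y, 0) (s, b)) (0, 1) := by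
  rw [inE_lat_iff, inE_lat_iff]
  simp only [ev, Prod.mk_add_mk]
  push_cast
  generalize (y : ZMod 2) = y
  generalize (b : ZMod 2) = b
  generalize (s : ZMod 2) = s
  generalize (k : ZMod 2) = k
  revert y b s k; decide

/-- `exists_KC` with the parities -/
theorem exists_KC_par {L L' : AddSubgroup Z2} (hok : (KS L L').Ok) {a a' : ℤ} (ha : IsArea L a)
    (ha' : IsArea L' a') : ∃ p q p' q', Prm a p q ∧ Prm a' p' q' ∧
    SEq (KS L L') (KC a p q a' p' q') ∧ (Odd a ∨ Even p ↔ InE L (1, 0)) ∧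
      (Odd a' ∨ Even q' ↔ InE L' (0, 1)) := by
  obtain ⟨s, d, z, hs, hd, e1, e2⟩ := ha.hnf
  subst e2
  obtain ⟨j, hj⟩ := exists_content s z hd
  have h1 := KS.V hs hd hok j
  have i1 := inE_twistV s d z j
  have i1' := inE_shV (M := L') (j * (s + 1))
  obtain ⟨p, q, k1, k2⟩ := lat_eq_Lc hs hd hj
  rw [k2, ← e1] at h1 i1
  rw [← e1] at k1
  obtain ⟨r, c, x, hr, hc, f1, f2⟩ := (ha'.act (shV (j * (s + 1)))).hnf'
  rw [f2] at h1 i1'
  obtain ⟨k, hk⟩ := exists_content r x hc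
  have h2 := KS.H hr hc h1.ok' k
  have i2 := inE_twistH r c x k
  have i2' := inE_shH (M := Lc a p q) (k * (r + 1))
  obtain ⟨p', q', k3, k4⟩ := lat_eq_Lc' hr hc hk
  rw [k4, ← f1] at h2 i2
  rw [map_shH_Lc] at h2 i2'
  rw [← f1] at k3
  refine ⟨p, _, p', q', k1.shH _, k3, h1.trans h2, ?_, ?_⟩
  · rw [← inE_Lc_u (k1.shH _), i2', i1]
  · rw [← inE_Lc_v k3, i2, i1']

end Pool.Agent.H4G
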