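import Pool.Agent.H4G.Arith.KLev
import Pool.Agent.H4G.Arith.Par

/-!
# The left move of a K-state, with outputs (row R5, helper40)
-/

set_option autoImplicit false

namespace Pool.Agent.H4G

open scoped MatrixGroups

/-! ## Contents -/

/-- the lattice is not contained in `r ℤ²` for any prime `r` -/
def Cont1 (L : AddSubgroup Z2) : Prop :=
  ∀ r : ℕ, r.Prime → ∃ w ∈ L, ¬ ((r : ℤ) ∣ w.1 ∧ (r : ℤ) ∣ w.2)

theorem Cont1.act {L : AddSubgroup Z2} (h : Cont1 L) (g : SL(2, ℤ)) :
    Cont1 (L.map (act g)) := by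
  intro r hr
  obtain ⟨w, hw, h1⟩ := h r hr
  refine ⟨_, AddSubgroup.mem_map_of_mem _ hw, fun h2 => h1 ?_⟩
  have h3 := det_eq g
  rw [act_apply] at h2
  obtain ⟨h4, h5⟩ := h2
  simp only at h4 h5
  constructor
  · have e : w.1 = g 1 1 * (g 0 0 * w.1 + g 0 1 * w.2) - g 0 1 * (g 1 0 * w.1 + g 1 1 * w.2) := by
      linear_combination (-w.1) * h3
    rw [e]
    exact dvd_sub (h4.mul_left _) (h5.mul_left _)
  · have e : w.2 = g 0 0 * (g 1 0 * w.1 + g 1 1 * w.2) - g 1 0 * (g 0 0 * w.1 + g 0 1 * w.2) := by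
      linear_combination (-w.2) * h3
    rw [e]
    exact dvd_sub (h5.mul_left _) (h4.mul_left _)

theorem Prm.cont1 {a p q : ℤ} (h : Prm a p q) : Cont1 (Lc a p q) := by
  intro r hr
  by_contra hn
  push Not at hn
  have h1 := hn (a, 0) (by rw [mem_Lc]; exact ⟨p, by ring⟩)
  have h2 := hn (-q, p) (by rw [mem_Lc]; exact ⟨0, by ring⟩)
  exact h r hr h1.1 h2.2 ((dvd_neg).1 h2.1)

/-- a lattice of content `1` in congruence form -/
theorem IsArea.exists_Lc {L : AddSubgroup Z2} {a : ℤ} (h : IsArea L a) (hc : Cont1 L) :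
    ∃ p q, Prm a p q ∧ L = Lc a p q := by
  obtain ⟨s, d, z, hs, hd, e1, e2⟩ := h.hnf
  obtain ⟨p, q, h1, h2⟩ := lat_eq_Lc (s := s) (d := d) (z := z) hs hd (by
    intro l hl h1 h2 h3
    obtain ⟨w, hw, h4⟩ := hc l hl
    rw [e2] at hw
    obtain ⟨m, n, e⟩ := mem_lat.1 hw
    apply h4
    rw [← e]
    simp only [Prod.fst_add, Prod.snd_add, Prod.smul_fst, Prod.smul_snd, smul_eq_mul, mul_zero,
      zero_add]
    exact ⟨h1.mul_left _, dvd_add (h2.mul_left _) (h3.mul_left _)⟩)
  exact ⟨p, q, by rwa [e1], by rw [e2, h2, e1]⟩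

/-- `c = 1`: the right lattice is `{X = x Y}` -/
theorem IsC.exists_x {L' : AddSubgroup Z2} {a' : ℤ} (h : IsArea L' a') (hc : IsC L' (1, 0) 1) :
    ∃ x, L' = Lc a' 1 (-x) := by
  obtain ⟨r, c, x, hr, h0, e1, e2⟩ := h.hnf'
  have hc1 : c = 1 := by
    have : IsC L' (1, 0) c := by
      rw [e2]
      have := isC_adapted (e := (r, 0)) (f := (x, c)) (u := (1, 0)) (by simp [cr])
        (by simp [cr]; exact h0)
      simpa [cr] using this
    exact this.unique hc
  subst hc1
  refine ⟨x, ?_⟩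
  rw [e2, e1]
  have := Lc_eq_lat' (r := r) (c := 1) (p1 := 1) (q := -x) (x := x) hr one_pos
    isCoprime_one_left isCoprime_one_right ⟨0, by ring⟩
  rw [← this, mul_one, mul_one]

/-- `d = 1`: the left lattice is `{Y = z X}` -/
theorem IsC.exists_z {L : AddSubgroup Z2} {a : ℤ} (h : IsArea L a) (hc : IsC L (0, 1) 1) :
    ∃ z, L = Lc a z (-1) := by
  obtain ⟨s, d, z, hs, h0, e1, e2⟩ := h.hnf
  have hd1 : d = 1 := by
    have : IsC L (0, 1) d := by
      rw [e2]
      have := isC_adapted (e := (0, s)) (f := (-d, -z)) (u := (0, 1)) (by simp [cr])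
        (by simp [cr]; exact h0)
      rw [show ((-d, -z) : Z2) = -(d, z) by simp, lat_neg_right] at this
      simpa [cr] using this
    exact this.unique hc
  subst hd1
  refine ⟨z, ?_⟩
  rw [e2, e1]
  have := Lc_eq_lat (s := s) (d := 1) (p := z) (q1 := -1) (z := z) hs one_pos
    isCoprime_one_left.neg_left isCoprime_one_right ⟨0, by ring⟩
  rw [← this, mul_one, mul_one]

theorem prm_z (a z : ℤ) : Prm a z (-1) := fun _ hl _ _ h =>
  prime_not_dvd_one hl ((dvd_neg).1 h)

theorem prm_x (a x : ℤ) : Prm a 1 (-x) := fun _ hl _ h _ => prime_not_dvd_one hl h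

theorem isC_z {a z : ℤ} : IsC (Lc a z (-1)) (0, 1) 1 :=
  isC_Lc (prm_z a z) one_pos (one_dvd _) (one_dvd _) (one_dvd _) (by
    intro l hl _ _ h
    rw [one_mul] at h
    exact prime_not_dvd_one hl (by simpa using h))

theorem isC_x {a x : ℤ} : IsC (Lc a 1 (-x)) (1, 0) 1 :=
  isC_Lc (prm_x a x) one_pos (one_dvd _) (one_dvd _) (one_dvd _) (by
    intro l hl _ _ h
    rw [one_mul] at h
    exact prime_not_dvd_one hl (by simpa using h))

/-- `{Y = z X}` as a span -/
theorem Lcz_eq_lat {a z : ℤ} (ha : 0 < a) : Lc a z (-1) = lat (0, a) (1, z) := by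
  have := Lc_eq_lat (s := a) (d := 1) (p := z) (q1 := -1) (z := z) ha one_pos
    isCoprime_one_left.neg_left isCoprime_one_right ⟨0, by ring⟩
  rw [← this, mul_one, mul_one]

/-! ## States with `A = 1` -/

/-- every state with `A = 1` is a K-state, by an explicit matrix -/
theorem exists_KS_act {S : PSt} (hS : S.Ok) (hA : cr S.u S.v = 1) : ∃ g : SL(2, ℤ),
    act g S.u = (1, 0) ∧ act g S.v = (0, 1) ∧
    SEq S (KS (S.L.map (act g)) (S.L'.map (act g))) := by
  have hdet : Matrix.det !![S.v.2, -S.v.1; -S.u.2, S.u.1] = 1 := by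
    rw [Matrix.det_fin_two_of]
    simp only [cr] at hA
    linarith
  set g : SL(2, ℤ) := ⟨!![S.v.2, -S.v.1; -S.u.2, S.u.1], hdet⟩ with hg
  have h1 : act g S.u = (1, 0) := by
    rw [act_apply]
    simp only [hg]
    simp only [cr] at hA
    ext
    · simp; linarith
    · simp; ring
  have h2 : act g S.v = (0, 1) := by
    rw [act_apply]
    simp only [hg]
    simp only [cr] at hA
    ext
    · simp; ring
    · simp; linarith
  have h3 := SEq.act g hS
  unfold PSt.act at h3
  rw [h1, h2] at h3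
  exact ⟨g, h1, h2, h3⟩

/-! ## The left move -/

/-- LEFT MOVE, first state: `L = {Y = z X mod a}`, `l = (s e, h)`, `h = s e z + j a`,
`gcd (e, j) = 1`, `0 < e < h ≤ a`: the new left lattice is `{Y = (z + j s) X mod (a - e)}`. -/
theorem leftMove {a z s e h j : ℤ} (hs : s = 1 ∨ s = -1) (he : 0 < e) (heh : e < h) (hha : h ≤ a)
    (hh : h = s * e * z + j * a) (hej : IsCoprime e j) {M : AddSubgroup Z2}
    (hok : (KS (Lc a z (-1)) M).Ok) :
    SEq (KS (Lc a z (-1)) M)
      ⟨Lc (a - e) (z + j * s) (-1), (1 + e, s * (1 + h)), (0, 1), M⟩ := by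
  have ha : 0 < a := by linarith
  have hss : s * s = 1 := by rcases hs with rfl | rfl <;> norm_num
  -- the basis of `L`
  obtain ⟨β, α, hαβ⟩ := hej
  -- `α j + β e = 1`; `p0 = α (1, z) - s β (0, a)`
  have hlat : Lc a z (-1) = lat (s * e, h) (α, α * z - s * β * a) := by
    rw [Lcz_eq_lat ha]
    refine (closure_pair_eq (α := j) (β := s * e) (γ := -(s * β)) (δ := α) ?_ ?_ (Or.inl ?_)).symm
    · ext
      · simp
      · simp; rw [hh]; ring
    · ext
      · simp
      · simp; ring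
    · linear_combination hαβ + e * β * hss
  have hcr : cr (α, α * z - s * β * a) (s * e, h) = a := by
    simp only [cr]
    rw [hh]
    linear_combination a * hαβ + a * e * β * hss
  have hok' := hok
  unfold KS at hok' ⊢
  rw [hlat] at hok' ⊢
  -- the new lattice
  have hnew : lat (s * e, h) (α, α * z - s * β * a + s) = Lc (a - e) (z + j * s) (-1) := by
    rw [Lcz_eq_lat (by linarith)]
    refine closure_pair_eq (α := j) (β := s * e) (γ := -(s * β)) (δ := α) ?_ ?_ (Or.inl ?_)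
    · ext
      · simp
      · simp; rw [hh]; linear_combination (-(e * j)) * hss
    · ext
      · simp
      · simp; linear_combination (-s) * hαβ
    · linear_combination hαβ + e * β * hss
  rcases hs with rfl | rfl
  · have h1 := SEq.mPlus hok' (by simp [cr]; linarith)
      (by rw [hcr]; simp [cr]; exact hha) (by simp [cr]; linarith)
      (by simp [cr]; linarith)
    have e1 : ((α, α * z - 1 * β * a) + (0, 1) : Z2) = (α, α * z - 1 * β * a + 1) := by
      ext <;> simp
    have e2 : ((1, 0) + (0, 1) + (1 * e, h) : Z2) = (1 + e, 1 * (1 + h)) := by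
      ext <;> simp
    rw [e1, e2, hnew] at h1
    exact h1
  · have h1 := SEq.mMinus hok' (by simp [cr]; linarith)
      (by rw [hcr]; simp [cr]; exact hha) (by simp [cr]; linarith)
      (by simp [cr]; linarith)
    have e1 : ((α, α * z - -1 * β * a) - (0, 1) : Z2) = (α, α * z - -1 * β * a + -1) := by
      ext <;> simp; ring
    have e2 : ((1, 0) - (0, 1) - (-1 * e, h) : Z2) = (1 + e, -1 * (1 + h)) := by
      ext <;> simp; ring
    rw [e1, e2, hnew] at h1
    exact h1

/-- the K-state behind a state with `gcd (L' × u) = 1`: reduction of `A` with `(L, u)` fixed -/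
theorem toKS {L L' : AddSubgroup Z2} {u v : Z2} (hok : PSt.Ok ⟨L, u, v, L'⟩) {a a' : ℤ}
    (ha : IsArea L a) (ha' : IsArea L' a') (hc : IsC L' u 1) : ∃ (g : SL(2, ℤ)) (M : AddSubgroup Z2),
    act g u = (1, 0) ∧ SEq ⟨L, u, v, L'⟩ (KS (L.map (act g)) M) ∧ IsArea (L.map (act g)) a ∧
    IsArea M (a' + (cr u v - 1)) ∧ IsC M (1, 0) 1 := by
  obtain ⟨v1, L1, θ, h1, h2, h3, h4, h5, h6, h7, h8⟩ := SEq.node _ rfl hok ha' hc
  have hA : cr u v1 = 1 := by omega
  have hθ : θ = cr u v - 1 := by omega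
  obtain ⟨g, k1, k2, k3⟩ := exists_KS_act (S := ⟨L, u, v1, L1⟩) h1.ok' hA
  refine ⟨g, L1.map (act g), k1, h1.trans k3, ha.act g, ?_, ?_⟩
  · rw [← hθ]; exact h7.act g
  · have := h8.act g
    dsimp only at k1
    rwa [k1] at this

/-- the same on the other side: a state with `gcd (L × v) = 1` -/
theorem toKS' {L L' : AddSubgroup Z2} {u v : Z2} (hok : PSt.Ok ⟨L, u, v, L'⟩) {a a' : ℤ}
    (ha : IsArea L a) (ha' : IsArea L' a') (hc : IsC L v 1) : ∃ (g : SL(2, ℤ)) (M : AddSubgroup Z2),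
    act g v = (0, 1) ∧ SEq ⟨L, u, v, L'⟩ (KS M (L'.map (act g))) ∧ IsArea (L'.map (act g)) a' ∧
    IsArea M (a + (cr u v - 1)) ∧ IsC M (0, 1) 1 := by
  obtain ⟨u1, L1, θ, h1, h2, h3, h4, h5, h6, h7, h8⟩ := SEq.node' hok ha hc
  have hA : cr u1 v = 1 := by omega
  have hθ : θ = cr u v - 1 := by omega
  obtain ⟨g, k1, k2, k3⟩ := exists_KS_act (S := ⟨L1, u1, v, L'⟩) h1.ok' hA
  refine ⟨g, L1.map (act g), k2, h1.trans k3, ha'.act g, ?_, ?_⟩
  · rw [← hθ]; exact h7.act g
  · have := h8.act g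
    dsimp only at k2
    rwa [k2] at this

/-- LEFT MOVE to a K-state: if `c₁ = gcd (L' × u₁) = 1` then the class contains a K-state with
areas `a - e, a' + e`, left content `1` and `c = 1`; the class of `u` in `L / 2` is known. -/
theorem leftMoveK {a z s e h j : ℤ} (hs : s = 1 ∨ s = -1) (he : 0 < e) (heh : e < h) (hha : h ≤ a)
    (hh : h = s * e * z + j * a) (hej : IsCoprime e j) {M : AddSubgroup Z2}
    (hok : (KS (Lc a z (-1)) M).Ok) {a' : ℤ} (ha' : IsArea M a')
    (hc : IsC M (1 + e, s * (1 + h)) 1) : ∃ p q x, Prm (a - e) p q ∧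
      SEq (KS (Lc a z (-1)) M) (KC (a - e) p q (a' + e) 1 (-x)) ∧
      (Odd (a - e) ∨ Even p ↔ Odd (a - e) ∨ Even ((z + j * s) * (1 + e) - s * (1 + h))) := by
  have h1 := leftMove hs he heh hha hh hej hok
  have hae : 0 < a - e := by linarith
  have hP := prm_z (a - e) (z + j * s)
  obtain ⟨g, M1, k1, k2, k3, k4, k5⟩ := toKS h1.ok' (isArea_Lc hae hP) ha' hc
  obtain ⟨p, q, k6, k7⟩ := k3.exists_Lc (hP.cont1.act g)
  have e1 : a' + (cr ((1 + e, s * (1 + h)) : Z2) (0, 1) - 1) = a' + e := by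
    simp [cr]
  rw [e1] at k4
  obtain ⟨x, k8⟩ := k5.exists_x k4
  refine ⟨p, q, x, k6, ?_, ?_⟩
  · have := h1.trans k2
    rw [k7, k8] at this
    exact this
  · rw [← inE_Lc_u k6, ← k7, ← k1, inE_act, inE_Lc hP]
    have : (z + j * s) * (1 + e) + -1 * (s * (1 + h)) = (z + j * s) * (1 + e) - s * (1 + h) := by
      ring
    simp only [this]

/-! ## The choice of `V^m` -/

/-- `gcd (L' × (X, Y)) = 1` for `V^m L'`, `L' = Lc a' p' q'` -/
theorem exists_Vm {a' p' q' X Y : ℤ} (ha' : a' ≠ 0) (hXY : IsCoprime X Y) (hP : Prm a' p' q')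
    (h : ∀ r : ℕ, r.Prime → (r : ℤ) ∣ a' → (r : ℤ) ∣ q' → ¬ (r : ℤ) ∣ X) :
    ∃ m, IsC (Lc a' (p' - m * q') q') (X, Y) 1 := by
  obtain ⟨m, hm⟩ := crt_exists a' ha' (fun r m => ¬ (r : ℤ) ∣ (p' - m * q') * X + q' * Y)
    (fun r hr h1 => by
      by_cases h2 : (r : ℤ) ∣ q'
      · refine ⟨0, fun h3 => ?_⟩
        have h4 : (r : ℤ) ∣ p' * X := by
          have := dvd_sub h3 (h2.mul_right Y)
          have e : (p' - 0 * q') * X + q' * Y - q' * Y = p' * X := by ring
          rwa [e] at this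
        rcases (Nat.prime_iff_prime_int.1 hr).dvd_or_dvd h4 with h5 | h5
        · exact hP r hr h1 h5 h2
        · exact h r hr h1 h2 h5
      · by_cases h3 : (r : ℤ) ∣ X
        · refine ⟨0, fun h4 => ?_⟩
          have h5 : (r : ℤ) ∣ q' * Y := by
            have := dvd_sub h4 (h3.mul_left (p' - 0 * q'))
            have e : (p' - 0 * q') * X + q' * Y - (p' - 0 * q') * X = q' * Y := by ring
            rwa [e] at this
          rcases (Nat.prime_iff_prime_int.1 hr).dvd_or_dvd h5 with h6 | h6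
          · exact h2 h6
          · exact not_dvd_of_isCoprime hXY hr h6 h3
        · by_cases h4 : (r : ℤ) ∣ (p' - 0 * q') * X + q' * Y
          · refine ⟨1, fun h5 => ?_⟩
            have h6 : (r : ℤ) ∣ q' * X := by
              have := dvd_sub h4 h5
              have e : (p' - 0 * q') * X + q' * Y - ((p' - 1 * q') * X + q' * Y) = q' * X := by ring
              rwa [e] at this
            rcases (Nat.prime_iff_prime_int.1 hr).dvd_or_dvd h6 with h7 | h7
            · exact h2 h7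
            · exact h3 h7
          · exact ⟨0, h4⟩)
    (fun r hr h1 k k' h2 h3 h4 => h3 (by
      have e : (p' - k * q') * X + q' * Y = ((p' - k' * q') * X + q' * Y) +
        (k' - k) * (q' * X) := by ring
      rw [e]
      exact dvd_add h4 (h2.mul_right _)))
  refine ⟨m, isC_Lc (hP.shV m) one_pos (one_dvd _) (one_dvd _) (one_dvd _) ?_⟩
  intro r hr h1 h2 h3
  rw [one_mul] at h1 h2 h3
  by_cases h4 : (r : ℤ) ∣ a'
  · exact hm r hr h4 h3
  · have h5 := Nat.prime_iff_prime_int.1 hr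
    exact not_dvd_of_isCoprime hXY hr ((h5.dvd_or_dvd h2).resolve_left h4)
      ((h5.dvd_or_dvd h1).resolve_left h4)

/-- `gcd (L' × (X, Y)) = 2` for `V^m L'`, with `m ≡ m₀ mod 4` -/
theorem exists_Vm2 {a' p' q' X Y : ℤ} (ha' : a' ≠ 0) (hXY : IsCoprime X Y) (hP : Prm a' p' q')
    (h : ∀ r : ℕ, r.Prime → r ≠ 2 → (r : ℤ) ∣ a' → (r : ℤ) ∣ q' → ¬ (r : ℤ) ∣ X) (m0 : ℤ)
    (h2 : 2 ∣ a') (h3 : 2 ∣ (p' - m0 * q') * X + q' * Y)
    (h4 : ¬ 4 ∣ a' ∨ ¬ 4 ∣ (p' - m0 * q') * X + q' * Y) :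
    ∃ m, 4 ∣ m - m0 ∧ IsC (Lc a' (p' - m * q') q') (X, Y) 2 := by
  classical
  -- the odd primes
  have hodd : ∀ r : ℕ, r.Prime → (r : ℤ) ∣ a' → r ≠ 2 →
      ∃ m, ¬ (r : ℤ) ∣ (p' - m * q') * X + q' * Y := by
    intro r hr h1 hr2
    by_cases h2 : (r : ℤ) ∣ q'
    · refine ⟨0, fun h3 => ?_⟩
      have h4 : (r : ℤ) ∣ p' * X := by
        have := dvd_sub h3 (h2.mul_right Y)
        have e : (p' - 0 * q') * X + q' * Y - q' * Y = p' * X := by ring
        rwa [e] at this
      rcases (Nat.prime_iff_prime_int.1 hr).dvd_or_dvd h4 with h5 | h5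
      · exact hP r hr h1 h5 h2
      · exact h r hr hr2 h1 h2 h5
    · by_cases h3 : (r : ℤ) ∣ X
      · refine ⟨0, fun h4 => ?_⟩
        have h5 : (r : ℤ) ∣ q' * Y := by
          have := dvd_sub h4 (h3.mul_left (p' - 0 * q'))
          have e : (p' - 0 * q') * X + q' * Y - (p' - 0 * q') * X = q' * Y := by ring
          rwa [e] at this
        rcases (Nat.prime_iff_prime_int.1 hr).dvd_or_dvd h5 with h6 | h6
        · exact h2 h6
        · exact not_dvd_of_isCoprime hXY hr h6 h3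
      · by_cases h4 : (r : ℤ) ∣ (p' - 0 * q') * X + q' * Y
        · refine ⟨1, fun h5 => ?_⟩
          have h6 : (r : ℤ) ∣ q' * X := by
            have := dvd_sub h4 h5
            have e : (p' - 0 * q') * X + q' * Y - ((p' - 1 * q') * X + q' * Y) = q' * X := by ring
            rwa [e] at this
          rcases (Nat.prime_iff_prime_int.1 hr).dvd_or_dvd h6 with h7 | h7
          · exact h2 h7
          · exact h3 h7
        · exact ⟨0, h4⟩
  obtain ⟨m, hm⟩ := crt_primes a'.natAbs.primeFactors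
    (fun l hl => Nat.prime_of_mem_primeFactors hl) (fun _ => 2)
    (fun r => if hr : r.Prime ∧ (r : ℤ) ∣ a' ∧ r ≠ 2 then (hodd r hr.1 hr.2.1 hr.2.2).choose
      else m0)
  have hmem : ∀ r : ℕ, r.Prime → (r : ℤ) ∣ a' → r ∈ a'.natAbs.primeFactors := by
    intro r hr h1
    rw [Nat.mem_primeFactors]
    exact ⟨hr, Int.natCast_dvd.1 h1, by simpa using ha'⟩
  have h5 := hm 2 (hmem 2 Nat.prime_two (by exact_mod_cast h2))
  rw [dif_neg (by simp)] at h5
  have h6 : (4 : ℤ) ∣ m - m0 := by norm_num at h5; exact h5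
  have e : (p' - m * q') * X + q' * Y = ((p' - m0 * q') * X + q' * Y) -
      (m - m0) * (q' * X) := by ring
  have h42 : (2 : ℤ) ∣ 4 := ⟨2, by norm_num⟩
  refine ⟨m, h6, isC_Lc (hP.shV m) two_pos (h2.mul_right _) (h2.mul_right _) ?_ ?_⟩
  · rw [e]
    exact dvd_sub h3 ((h42.trans h6).mul_right _)
  · intro r hr h7 h8 h9
    by_cases hr2 : r = 2
    · subst hr2
      have e4 : (2 : ℤ) * ((2 : ℕ) : ℤ) = 4 := by norm_num
      rw [e4] at h7 h8 h9
      rcases h4 with h4 | h4
      · -- `4 ∣ a' X`, `4 ∣ a' Y`, `gcd (X, Y) = 1`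
        obtain ⟨x, y, hxy⟩ := hXY
        apply h4
        have : a' = x * (a' * X) + y * (a' * Y) := by linear_combination (-a') * hxy
        rw [this]
        exact dvd_add (h7.mul_left _) (h8.mul_left _)
      · apply h4
        have := dvd_add h9 (h6.mul_right (q' * X))
        have e5 : (p' - m * q') * X + q' * Y + (m - m0) * (q' * X) =
          (p' - m0 * q') * X + q' * Y := by ring
        rwa [e5] at this
    · have h10 : (r : ℤ) ∣ a' := by
        obtain ⟨x, y, hxy⟩ := hXY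
        have : a' = x * (a' * X) + y * (a' * Y) := by linear_combination (-a') * hxy
        rw [this]
        exact dvd_add (((Dvd.intro_left 2 rfl).trans h7).mul_left _)
          (((Dvd.intro_left 2 rfl).trans h8).mul_left _)
      have h11 := hm r (hmem r hr h10)
      rw [dif_pos ⟨hr, h10, hr2⟩] at h11
      have h12 := (hodd r hr h10 hr2).choose_spec
      apply h12
      have h13 : (r : ℤ) ∣ m - (hodd r hr h10 hr2).choose := (dvd_pow_self _ two_ne_zero).trans h11
      have h14 : (r : ℤ) ∣ (p' - m * q') * X + q' * Y := (Dvd.intro_left 2 rfl).trans h9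
      have e5 : (p' - (hodd r hr h10 hr2).choose * q') * X + q' * Y =
          ((p' - m * q') * X + q' * Y) + (m - (hodd r hr h10 hr2).choose) * (q' * X) := by ring
      rw [e5]
      exact dvd_add h14 (h13.mul_right _)

end Pool.Agent.H4G
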