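import Pool.Agent.H4G.Arith.ZNorm
import Pool.Agent.H4G.Arith.LMove

/-!
# K-states with `n0 = 0` whose left lattice lies in `2 ℤ²` (row R11; helper19)

`N` prime. A K-state with `c = 1` (or `d = 1`) is equivalent to a Z-state or to
`C511 = KC 2 1 0 (N - 3) 2 (-1)`.
-/

set_option autoImplicit false

open scoped MatrixGroups

namespace Pool.Agent.H4G

/-- H-move with any left lattice -/
theorem KS.Hc {r c q' p1 q2 : ℤ} (hr : 0 < r) (hc : 0 < c) (h1 : IsCoprime p1 r)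
    (h2 : IsCoprime q' c) (k : ℤ) (h3 : IsCoprime q2 c) (h4 : r ∣ q2 - (q' - k * p1 * (c - 1)))
    {L : AddSubgroup Z2} (hok : (KS L (Lc (r * c) (p1 * c) q')).Ok) :
    SEq (KS L (Lc (r * c) (p1 * c) q'))
      (KS (L.map (act (shH (k * (r + 1))))) (Lc (r * c) (p1 * c) q2)) := by
  obtain ⟨x, hx⟩ := exists_z q' h1
  rw [Lc_eq_lat' hr hc h1 h2 hx] at hok ⊢
  have h5 := KS.H hr hc hok k
  have e : r ∣ q2 + p1 * (x + k * (c - 1)) := by
    have : q2 + p1 * (x + k * (c - 1)) = (q2 - (q' - k * p1 * (c - 1))) + (q' + p1 * x) := by ring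
    rw [this]; exact dvd_add h4 hx
  rw [Lc_eq_lat' hr hc h1 h3 e]
  exact h5

/-- V-move with the left lattice in Hermite normal form -/
theorem KS.Vc {y b t a' p q : ℤ} (hy : 0 < y) (hb : 0 < b)
    (hok : (KS (lat (0, y) (b, t)) (Lc a' p q)).Ok) (k : ℤ) :
    SEq (KS (lat (0, y) (b, t)) (Lc a' p q))
      (KS (lat (0, y) (b, t + k * (b - 1))) (Lc a' (p - k * (y + 1) * q) q)) := by
  have h := KS.V hy hb hok k
  rwa [map_shV_Lc] at h

namespace K511

/-- states whose left lattice lies in `2 ℤ²`, with `c = 1` and `gcd (L × v) = n` -/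
def Pn (S : PSt) (a a' : ℤ) (n : ℕ) : Prop :=
  ∃ s z p q : ℤ, 0 < s ∧ 0 < n ∧ s * n = a ∧ (2 : ℤ) ∣ s ∧ (2 : ℤ) ∣ n ∧ (2 : ℤ) ∣ z ∧
    IsCoprime p a' ∧ Odd q ∧ SEq S (KS (lat (0, s) ((n : ℤ), z)) (Lc a' p q))

theorem ev_lat {s n z : ℤ} (h1 : (2 : ℤ) ∣ s) (h2 : (2 : ℤ) ∣ n) (h3 : (2 : ℤ) ∣ z) {w : Z2}
    (hw : w ∈ lat (0, s) (n, z)) : ev w = 1 := by
  obtain ⟨s', rfl⟩ := h1
  obtain ⟨n', rfl⟩ := h2
  obtain ⟨z', rfl⟩ := h3
  obtain ⟨i, k, rfl⟩ := mem_lat.1 hw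
  refine ev_zero_iff.2 ⟨(k * n', i * s' + k * z'), ?_⟩
  ext
  · simp only [Prod.fst_add, Prod.smul_fst, smul_eq_mul]; ring
  · simp only [Prod.snd_add, Prod.smul_snd, smul_eq_mul]; ring

theorem dvd_of_ev {x y : ℤ} (h : ev (x, y) = 1) : (2 : ℤ) ∣ x ∧ (2 : ℤ) ∣ y := by
  obtain ⟨t, ht⟩ := ev_zero_iff.1 h
  have h1 := congrArg Prod.fst ht
  have h2 := congrArg Prod.snd ht
  simp only [Prod.smul_fst, Prod.smul_snd, smul_eq_mul] at h1 h2
  exact ⟨⟨_, h1⟩, ⟨_, h2⟩⟩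

/-- at the minimal `n` the number `n` divides `s` and `z` -/
theorem red_dvd {S : PSt} {a a' : ℤ} {n : ℕ} (ha' : 0 < a') (hco : IsCoprime (a' + 1) a)
    (hmin : ∀ m, Pn S a a' m → n ≤ m) {s z p q : ℤ} (hs : 0 < s) (hn : 0 < n) (e : s * n = a)
    (h2s : (2 : ℤ) ∣ s) (h2n : (2 : ℤ) ∣ n) (h2z : (2 : ℤ) ∣ z) (hp : IsCoprime p a')
    (hq : Odd q) (hS : SEq S (KS (lat (0, s) ((n : ℤ), z)) (Lc a' p q))) :
    (n : ℤ) ∣ s ∧ (n : ℤ) ∣ z := by
  have hn' : (0 : ℤ) < n := by exact_mod_cast hn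
  have ha0 : 0 < a := by rw [← e]; exact mul_pos hs hn'
  have key : ∀ j : ℤ, (n : ℤ) ≤ Int.gcd (j * ((a' + 1) * s)) (n - j * (-(a' + 1) * z)) := by
    intro j
    have h1 := KS.Hc (r := a') (c := 1) (q' := q) (p1 := p) (q2 := q) ha' one_pos hp
      isCoprime_one_right j isCoprime_one_right (by simp) (L := lat (0, s) ((n : ℤ), z))
      (by simpa using hS.ok')
    rw [mul_one, mul_one] at h1
    have hA : IsArea (lat (0, s) ((n : ℤ), z)) a := ⟨ha0, (0, s), ((n : ℤ), z), by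
      simp only [cr]; rw [← e]; ring, rfl⟩
    have hA1 := hA.act (shH (j * (a' + 1)))
    have hev : ∀ w ∈ (lat (0, s) ((n : ℤ), z)).map (act (shH (j * (a' + 1)))), ev w = 1 := by
      rintro _ ⟨x, hx, rfl⟩
      rw [ev_act]
      exact ev_lat h2s h2n h2z hx
    have m1 : act (shH (j * (a' + 1))) (0, s) ∈
        (lat (0, s) ((n : ℤ), z)).map (act (shH (j * (a' + 1)))) :=
      AddSubgroup.mem_map_of_mem _ (mem_lat.2 ⟨1, 0, by module⟩)
    have m2 : act (shH (j * (a' + 1))) ((n : ℤ), z) ∈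
        (lat (0, s) ((n : ℤ), z)).map (act (shH (j * (a' + 1)))) :=
      AddSubgroup.mem_map_of_mem _ (mem_lat.2 ⟨0, 1, by module⟩)
    obtain ⟨s1, d1, z1, hs1, hd1, e1, e2⟩ := hA1.hnf
    rw [e2] at hev m1 m2 h1
    rw [act_shH] at m1 m2
    have v1 := dvd_of_ev (hev (0, s1) (mem_lat.2 ⟨1, 0, by module⟩))
    have v2 := dvd_of_ev (hev (d1, z1) (mem_lat.2 ⟨0, 1, by module⟩))
    have hd1n : ((d1.toNat : ℕ) : ℤ) = d1 := Int.toNat_of_nonneg hd1.le
    have hP : Pn S a a' d1.toNat := by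
      refine ⟨s1, z1, p, q, hs1, by omega, by rw [hd1n, e1], v1.2, by rw [hd1n]; exact v2.1,
        v2.2, hp, hq, ?_⟩
      rw [hd1n]
      exact hS.trans h1
    have h2 := hmin _ hP
    have k1 : d1 ∣ j * ((a' + 1) * s) := by
      obtain ⟨i, k, e3⟩ := mem_lat.1 m1
      have := congrArg Prod.fst e3
      simp only [Prod.fst_add, Prod.smul_fst, smul_eq_mul] at this
      exact ⟨k, by linear_combination -this⟩
    have k2 : d1 ∣ n - j * (-(a' + 1) * z) := by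
      obtain ⟨i, k, e3⟩ := mem_lat.1 m2
      have := congrArg Prod.fst e3
      simp only [Prod.fst_add, Prod.smul_fst, smul_eq_mul] at this
      exact ⟨k, by linear_combination -this⟩
    have k3 : d1 ∣ (Int.gcd (j * ((a' + 1) * s)) (n - j * (-(a' + 1) * z)) : ℤ) :=
      Int.dvd_coe_gcd k1 k2
    have k4 : 0 < (Int.gcd (j * ((a' + 1) * s)) (n - j * (-(a' + 1) * z)) : ℤ) := by
      have : 0 < Int.gcd (j * ((a' + 1) * s)) (n - j * (-(a' + 1) * z)) := by
        rw [Int.gcd_pos_iff]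
        by_cases hj : j = 0
        · right
          rw [hj]; simp; omega
        · left
          exact mul_ne_zero hj (mul_ne_zero (by omega) hs.ne')
      exact_mod_cast this
    have k5 := Int.le_of_dvd k4 k3
    omega
  have h3 := crt_min hn' (mul_ne_zero (by omega : (a' + 1) ≠ 0) hs.ne') key
  have hcn : IsCoprime (n : ℤ) (a' + 1) := by
    refine IsCoprime.symm (hco.of_isCoprime_of_dvd_right ⟨s, by rw [← e]; ring⟩)
  refine ⟨hcn.dvd_of_dvd_mul_left h3.1, ?_⟩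
  have h4 : (n : ℤ) ∣ (a' + 1) * z := by
    have := (dvd_neg).2 h3.2
    have e5 : -(-(a' + 1) * z) = (a' + 1) * z := by ring
    rwa [e5] at this
  exact hcn.dvd_of_dvd_mul_left h4

/-- reduction to `n = 2` and `z = 0` -/
theorem exists_T0 {S : PSt} {a a' : ℤ} {n0 : ℕ} (ha' : 0 < a') (hco : IsCoprime (a' + 1) a)
    (h2 : (2 : ℤ) ∣ a') (hP : Pn S a a' n0) : ∃ s p q : ℤ, 0 < s ∧ s * 2 = a ∧ (2 : ℤ) ∣ s ∧
      Prm a' p q ∧ Odd p ∧ Odd q ∧ SEq S (KS (lat (0, s) (2, 0)) (Lc a' p q)) := by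
  classical
  have hex : ∃ n, Pn S a a' n := ⟨_, hP⟩
  obtain ⟨s, z, p, q, hs, hn, e, h2s, h2n, h2z, hp, hq, hS⟩ := Nat.find_spec hex
  have hmin : ∀ m, Pn S a a' m → Nat.find hex ≤ m := fun m hm => Nat.find_min' hex hm
  set n := Nat.find hex with hndef
  clear_value n
  obtain ⟨hns, hnz⟩ := red_dvd ha' hco hmin hs hn e h2s h2n h2z hp hq hS
  have hn' : (0 : ℤ) < n := by exact_mod_cast hn
  obtain ⟨m, hm⟩ := h2n
  have hm0 : 0 < m := by omega
  obtain ⟨i, hi⟩ := crt_exists (m * a') (mul_pos hm0 ha').ne'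
    (fun l i => ((l : ℤ) ∣ m → ¬ (l : ℤ) ∣ i) ∧
      ((l : ℤ) ∣ a' → ¬ (l : ℤ) ∣ p - 2 * i * (s + 1) * q)) (by
    intro l hl _
    by_cases h1 : (l : ℤ) ∣ m
    · by_cases h3 : (l : ℤ) ∣ a' ∧ (l : ℤ) ∣ p - 2 * 1 * (s + 1) * q
      · refine ⟨-1, fun _ h4 => prime_not_dvd_one hl ((dvd_neg).1 h4), fun h4 h5 => ?_⟩
        have h6 : (l : ℤ) ∣ 2 * p := by
          have : 2 * p = (p - 2 * 1 * (s + 1) * q) + (p - 2 * -1 * (s + 1) * q) := by ring
          rw [this]; exact dvd_add h3.2 h5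
        have h8 : ¬ (l : ℤ) ∣ p := not_dvd_of_isCoprime hp hl h4
        rcases (Nat.prime_iff_prime_int.1 hl).dvd_or_dvd h6 with h7 | h7
        · apply h8
          have : p = (p - 2 * 1 * (s + 1) * q) + 2 * ((s + 1) * q) := by ring
          rw [this]
          exact dvd_add h3.2 (h7.mul_right _)
        · exact h8 h7
      · exact ⟨1, fun _ => prime_not_dvd_one hl, fun h4 h5 => h3 ⟨h4, h5⟩⟩
    · refine ⟨0, fun h => absurd h h1, fun h4 h5 => not_dvd_of_isCoprime hp hl h4 ?_⟩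
      simpa using h5) (by
    intro l hl _ k k' h1 h3
    refine ⟨fun h4 h5 => h3.1 h4 ?_, fun h4 h5 => h3.2 h4 ?_⟩
    · have := dvd_sub h5 h1
      simpa using this
    · have : p - 2 * k * (s + 1) * q = (p - 2 * k' * (s + 1) * q) +
          (k' - k) * (2 * (s + 1) * q) := by ring
      rw [this]
      exact dvd_add h5 (h1.mul_right _))
  have hcp : IsCoprime (p - 2 * i * (s + 1) * q) a' :=
    isCoprime_of_prime fun l hl h1 => (hi l hl (h1.mul_left _)).2 h1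
  have hV := KS.Vc hs hn' hS.ok' (2 * i)
  obtain ⟨_, hnz2⟩ := red_dvd ha' hco hmin hs hn e h2s ⟨m, hm⟩
    (dvd_add h2z ((Dvd.intro _ rfl : (2 : ℤ) ∣ 2 * i).mul_right _)) hcp hq (hS.trans hV)
  have h3 : (n : ℤ) ∣ 2 * i := by
    have h4 := dvd_sub hnz2 hnz
    have h5 : z + 2 * i * ((n : ℤ) - 1) - z = n * (2 * i) - 2 * i := by ring
    rw [h5] at h4
    have h6 := dvd_sub (dvd_mul_right (n : ℤ) (2 * i)) h4
    simpa using h6
  have h4 : m ∣ i := by
    rw [hm] at h3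
    exact (mul_dvd_mul_iff_left two_ne_zero).1 h3
  have h5 : m = 1 := by
    by_contra hne
    obtain ⟨l, hl, hd⟩ := Nat.exists_prime_and_dvd (n := m.natAbs) (by omega)
    have hd' : (l : ℤ) ∣ m := Int.natCast_dvd.2 hd
    exact (hi l hl (hd'.mul_right _)).1 hd' (hd'.trans h4)
  subst h5
  rw [mul_one] at hm
  rw [hm] at hS e
  have hV2 := KS.Vc hs two_pos hS.ok' (-z)
  have e2 : z + -z * ((2 : ℤ) - 1) = 0 := by ring
  rw [e2] at hV2
  have hpo : Odd p := by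
    rcases Int.even_or_odd p with h | h
    · exfalso
      exact not_dvd_of_isCoprime hp Nat.prime_two (by exact_mod_cast h2)
        (by exact_mod_cast even_iff_two_dvd.1 h)
    · exact h
  obtain ⟨z', rfl⟩ := h2z
  refine ⟨s, p - -(2 * z') * (s + 1) * q, q, hs, e, h2s, ?_, ?_, hq, hS.trans hV2⟩
  · have hprm : Prm a' p q := fun l hl h1 h2 _ => not_dvd_of_isCoprime hp hl h1 h2
    exact hprm.shV _
  · have : p - -(2 * z') * (s + 1) * q = p + 2 * (z' * (s + 1) * q) := by ring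
    rw [this]
    exact hpo.add_even ⟨z' * (s + 1) * q, by ring⟩


/-- the lattice `{2 ∣ X, s ∣ Y - j X / 2}` is fixed by horizontal shears -/
theorem map_shH_fix {s j m : ℤ} (h2 : s ∣ j * (m * j)) :
    (lat (0, s) (2, j)).map (act (shH (2 * m))) = lat (0, s) (2, j) := by
  obtain ⟨t, ht⟩ := h2
  rw [map_lat, act_shH, act_shH]
  refine closure_pair_eq (α := 1 - m * j) (β := m * s) (γ := -t) (δ := 1 + m * j) ?_ ?_ ?_
  · ext
    · simp only [Prod.fst_add, Prod.smul_fst, smul_eq_mul]; ring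
    · simp only [Prod.snd_add, Prod.smul_snd, smul_eq_mul]; ring
  · ext
    · simp only [Prod.fst_add, Prod.smul_fst, smul_eq_mul]; ring
    · simp only [Prod.snd_add, Prod.smul_snd, smul_eq_mul]
      linear_combination -ht
  · left
    linear_combination -m * ht

/-- the number controlling the jump -/
abbrev ff (a ε p q : ℤ) : ℤ := p * (a - 1) + ε * q * (a + 1)

theorem map_shH_T0 {s : ℤ} (h2 : (2 : ℤ) ∣ s) (m : ℤ) :
    (lat (0, s) (2, 0)).map (act (shH m)) = lat (0, s) (2, 0) := by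
  obtain ⟨s', rfl⟩ := h2
  rw [map_lat, act_shH, act_shH]
  refine closure_pair_eq (α := 1) (β := m * s') (γ := 0) (δ := 1) ?_ ?_ ?_
  · ext
    · simp only [Prod.fst_add, Prod.smul_fst, smul_eq_mul]; ring
    · simp only [Prod.snd_add, Prod.smul_snd, smul_eq_mul]; ring
  · ext
    · simp only [Prod.fst_add, Prod.smul_fst, smul_eq_mul]; ring
    · simp only [Prod.snd_add, Prod.smul_snd, smul_eq_mul]; ring
  · left; ring

theorem odd_not_dvd {l : ℕ} (hl : l.Prime) (h : l ≠ 2) : ¬ (l : ℤ) ∣ 2 := by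
  intro h1
  have h2 : l ∣ 2 := by exact_mod_cast h1
  exact h ((Nat.prime_dvd_prime_iff_eq hl Nat.prime_two).1 h2)

theorem odd_not_dvd_pow {l : ℕ} (hl : l.Prime) (h : l ≠ 2) (e : ℕ) : ¬ (l : ℤ) ∣ 2 ^ e := by
  intro h1
  exact odd_not_dvd hl h ((Nat.prime_iff_prime_int.1 hl).dvd_of_dvd_pow h1)

/-- STEP (beta): the odd primes `l ∤ c`, `l ∤ c - 1` -/
theorem beta {S : PSt} {a s r c p1 q ε : ℤ} (hr : 0 < r) (hc : 0 < c)
    (hε : ε = 1 ∨ ε = -1) (hco : IsCoprime (a + 1) (r * c)) (h2s : (2 : ℤ) ∣ s)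
    (h1 : IsCoprime p1 r) (h2 : IsCoprime q c) (hq : Odd q) (hf : ff a ε (p1 * c) q % 4 = 2)
    (hS : SEq S (KS (lat (0, s) (2, 0)) (Lc (r * c) (p1 * c) q))) :
    ∃ q2 : ℤ, IsCoprime q2 c ∧ Odd q2 ∧ ff a ε (p1 * c) q2 % 4 = 2 ∧
      SEq S (KS (lat (0, s) (2, 0)) (Lc (r * c) (p1 * c) q2)) ∧
      ∀ l : ℕ, l.Prime → l ≠ 2 → (l : ℤ) ∣ r * c → ¬ (l : ℤ) ∣ c → (l : ℤ) ∣ ff a ε (p1 * c) q2 →
        (l : ℤ) ∣ c - 1 := by
  obtain ⟨k, hk⟩ := crt_exists (r * c) (mul_pos hr hc).ne'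
    (fun l k => ((l : ℤ) ∣ c → (l : ℤ) ∣ k) ∧ (l ≠ 2 → (l : ℤ) ∣ r * c → ¬ (l : ℤ) ∣ c →
      ¬ (l : ℤ) ∣ c - 1 → ¬ (l : ℤ) ∣ ff a ε (p1 * c) q - ε * (4 * k) * p1 * (c - 1) * (a + 1))) (by
    intro l hl _
    by_cases h3 : (l : ℤ) ∣ c
    · exact ⟨0, fun _ => dvd_zero _, fun _ _ h => absurd h3 h⟩
    · by_cases h4 : (l : ℤ) ∣ ff a ε (p1 * c) q
      · refine ⟨1, fun h => absurd h h3, fun k1 k2 _ k3 k4 => ?_⟩
        have hl' := Nat.prime_iff_prime_int.1 hl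
        have k5 : (l : ℤ) ∣ ε * (2 ^ 2 * (p1 * ((c - 1) * (a + 1)))) := by
          have := dvd_sub h4 k4
          have e : ff a ε (p1 * c) q - (ff a ε (p1 * c) q - ε * (4 * 1) * p1 * (c - 1) * (a + 1)) =
              ε * (2 ^ 2 * (p1 * ((c - 1) * (a + 1)))) := by ring
          rwa [e] at this
        have k6 : (l : ℤ) ∣ 2 ^ 2 * (p1 * ((c - 1) * (a + 1))) := by
          rcases hε with rfl | rfl
          · rwa [one_mul] at k5
          · rwa [neg_one_mul, dvd_neg] at k5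
        have hlr : (l : ℤ) ∣ r := (hl'.dvd_or_dvd k2).resolve_right h3
        rcases hl'.dvd_or_dvd k6 with h | h
        · exact odd_not_dvd_pow hl k1 2 h
        rcases hl'.dvd_or_dvd h with h | h
        · exact not_dvd_of_isCoprime h1 hl hlr h
        rcases hl'.dvd_or_dvd h with h | h
        · exact k3 h
        · exact not_dvd_of_isCoprime hco hl k2 h
      · exact ⟨0, fun h => absurd h h3, fun _ _ _ _ h => h4 (by simpa using h)⟩) (by
    intro l hl _ k k' e1 e2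
    refine ⟨fun h => ?_, fun k1 k2 k3 k4 k5 => e2.2 k1 k2 k3 k4 ?_⟩
    · have := dvd_add e1 (e2.1 h)
      simpa using this
    · have e : ff a ε (p1 * c) q - ε * (4 * k) * p1 * (c - 1) * (a + 1) =
          ff a ε (p1 * c) q - ε * (4 * k') * p1 * (c - 1) * (a + 1) +
            (k' - k) * (ε * 4 * p1 * (c - 1) * (a + 1)) := by ring
      rw [e]
      exact dvd_add k5 (e1.mul_right _))
  have ef : ff a ε (p1 * c) (q - 4 * k * p1 * (c - 1)) =
      ff a ε (p1 * c) q - ε * (4 * k) * p1 * (c - 1) * (a + 1) := by ring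
  have hcop : IsCoprime (q - 4 * k * p1 * (c - 1)) c := by
    refine isCoprime_of_prime fun l hl h3 h4 => not_dvd_of_isCoprime h2 hl h3 ?_
    have h5 := (hk l hl (h3.mul_left _)).1 h3
    have : q = (q - 4 * k * p1 * (c - 1)) + k * (4 * p1 * (c - 1)) := by ring
    rw [this]
    exact dvd_add h4 (h5.mul_right _)
  refine ⟨q - 4 * k * p1 * (c - 1), hcop, ?_, ?_, ?_, ?_⟩
  · have : q - 4 * k * p1 * (c - 1) = q + 2 * (-(2 * k * p1 * (c - 1))) := by ring
    rw [this]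
    exact hq.add_even ⟨_, two_mul _⟩
  · rw [ef]
    have : ff a ε (p1 * c) q - ε * (4 * k) * p1 * (c - 1) * (a + 1) =
      ff a ε (p1 * c) q + 4 * (-(ε * k * p1 * (c - 1) * (a + 1))) := by ring
    rw [this, Int.add_mul_emod_self_left]
    exact hf
  · have h3 := KS.Hc hr hc h1 h2 (4 * k) hcop (by simp) hS.ok'
    rw [map_shH_T0 h2s] at h3
    exact hS.trans h3
  · intro l hl k1 k2 k3 k4
    rw [ef] at k4
    by_contra k5
    exact (hk l hl k2).2 k1 k2 k3 k5 k4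


theorem exists_two_pow {n : ℤ} (hn : 0 < n) : ∃ (e : ℕ) (o : ℤ), Odd o ∧ n = 2 ^ e * o := by
  obtain ⟨e, o, ho, h⟩ := Nat.exists_eq_two_pow_mul_odd (n := n.toNat) (by omega)
  refine ⟨e, o, by exact_mod_cast ho, ?_⟩
  have h1 : ((n.toNat : ℕ) : ℤ) = n := Int.toNat_of_nonneg hn.le
  rw [← h1, h]
  push_cast
  ring

theorem isCoprime_two {x : ℤ} (hx : Odd x) : IsCoprime x 2 := by
  obtain ⟨y, rfl⟩ := hx
  exact ⟨1, -y, by ring⟩

/-- STEP (gamma): the odd primes `l ∤ c`, `l ∣ c - 1` -/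
theorem gamma {S : PSt} {a s r c p1 q ε : ℤ} (hr : 0 < r) (hc : 0 < c) (hs : 0 < s)
    (hε : ε = 1 ∨ ε = -1) (hco : IsCoprime (a + 1) (r * c)) (h2s : (2 : ℤ) ∣ s)
    (h2a : (2 : ℤ) ∣ r * c) (h1 : IsCoprime p1 r) (h2 : IsCoprime q c) (hp : Odd (p1 * c))
    (hq : Odd q) (hf : ff a ε (p1 * c) q % 4 = 2)
    (hbad : ∀ l : ℕ, l.Prime → l ≠ 2 → (l : ℤ) ∣ r * c → ¬ (l : ℤ) ∣ c →
      (l : ℤ) ∣ ff a ε (p1 * c) q → (l : ℤ) ∣ c - 1)
    (hS : SEq S (KS (lat (0, s) (2, 0)) (Lc (r * c) (p1 * c) q))) :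
    ∃ p2 q2 : ℤ, Prm (r * c) p2 q2 ∧ ff a ε p2 q2 % 4 = 2 ∧
      (∀ l : ℕ, l.Prime → l ≠ 2 → (l : ℤ) ∣ r * c → ¬ (l : ℤ) ∣ ff a ε p2 q2) ∧
      SEq S (KS (lat (0, s) (2, 0)) (Lc (r * c) p2 q2)) := by
  obtain ⟨e, o, ho, heo⟩ := exists_two_pow (mul_pos (mul_pos hr hc) hs)
  obtain ⟨hp1, hcodd⟩ := Int.odd_mul.1 hp
  have h2s1 : Odd (s + 1) := (even_iff_two_dvd.2 h2s).add_one
  have hw : Odd (o * (s + 1) * q) := (ho.mul h2s1).mul hq
  -- the choice of `j`
  obtain ⟨j, hj, hj4⟩ : ∃ j : ℤ, (j = o ∨ j = -o) ∧ (p1 * c - j * (s + 1) * q) % 4 = 2 := by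
    have e1 : p1 * c - -o * (s + 1) * q = p1 * c + o * (s + 1) * q := by ring
    obtain ⟨x, hx⟩ := hp
    obtain ⟨y, hy⟩ := hw
    by_cases h : (p1 * c - o * (s + 1) * q) % 4 = 2
    · exact ⟨o, Or.inl rfl, h⟩
    · refine ⟨-o, Or.inr rfl, ?_⟩
      rw [e1]
      rw [hx, hy] at h ⊢
      omega
  have hjj : j * j = o * o := by
    rcases hj with rfl | rfl
    · rfl
    · ring
  have hoj : o ∣ j := by
    rcases hj with rfl | rfl
    · exact dvd_rfl
    · exact (dvd_neg).2 dvd_rfl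
  have hodd : ∀ x : ℤ, Odd x → x ∣ r * c → x ∣ j := by
    intro x hx hxd
    have h3 : x ∣ 2 ^ e * o := by rw [← heo]; exact hxd.mul_right _
    exact ((isCoprime_two hx).pow_right.dvd_of_dvd_mul_left h3).trans hoj
  have hcj : c ∣ j := hodd c hcodd (dvd_mul_left _ _)
  have hcw : c ∣ p1 * c - j * (s + 1) * q :=
    dvd_sub (dvd_mul_left _ _) ((hcj.mul_right _).mul_right _)
  have h2w : (2 : ℤ) ∣ p1 * c - j * (s + 1) * q := by omega
  obtain ⟨pj, hpj⟩ : 2 * c ∣ p1 * c - j * (s + 1) * q :=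
    (isCoprime_two hcodd).symm.mul_dvd h2w hcw
  have h2r : (2 : ℤ) ∣ r := (isCoprime_two hcodd).symm.dvd_of_dvd_mul_right h2a
  obtain ⟨rj, rfl⟩ := h2r
  have hrj : 0 < rj := by omega
  have hcopj : IsCoprime pj rj := by
    refine isCoprime_of_prime fun l hl h3 h4 => ?_
    by_cases hl2 : l = 2
    · subst hl2
      obtain ⟨t, ht⟩ := h4
      rw [hpj, ht] at hj4
      push_cast at hj4
      have e3 : 2 * c * (2 * t) = 4 * (c * t) := by ring
      rw [e3] at hj4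
      omega
    · have hlo : Odd (l : ℤ) := by
        have := hl.odd_of_ne_two hl2
        exact_mod_cast this
      have k1 : (l : ℤ) * c ∣ j := by
        refine hodd _ (hlo.mul hcodd) ?_
        obtain ⟨t, ht⟩ := h3
        exact ⟨2 * t, by rw [ht]; ring⟩
      have k2 : (l : ℤ) * c ∣ p1 * c := by
        have e3 : p1 * c = 2 * c * pj + j * (s + 1) * q := by rw [← hpj]; ring
        rw [e3]
        refine dvd_add ?_ ((k1.mul_right _).mul_right _)
        obtain ⟨t, ht⟩ := h4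
        exact ⟨2 * t, by rw [ht]; ring⟩
      have k3 : (l : ℤ) ∣ p1 := (mul_dvd_mul_iff_right hc.ne').1 k2
      exact not_dvd_of_isCoprime h1 hl (h3.mul_left _) k3
  have era : 2 * rj * c = rj * (2 * c) := by ring
  have epj : p1 * c - j * (s + 1) * q = pj * (2 * c) := by rw [hpj]; ring
  -- the choice of `k`
  obtain ⟨k, hk⟩ := crt_exists (2 * rj * c) (mul_pos hr hc).ne'
    (fun l k => ((l : ℤ) ∣ c → (l : ℤ) ∣ k) ∧ (l ≠ 2 → (l : ℤ) ∣ 2 * rj * c → ¬ (l : ℤ) ∣ c →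
      ¬ (l : ℤ) ∣ ff a ε (p1 * c) q - ε * (4 * 2 ^ e * k) * pj * (2 * c - 1) * (a + 1))) (by
    intro l hl _
    by_cases h3 : (l : ℤ) ∣ c
    · exact ⟨0, fun _ => dvd_zero _, fun _ _ h => absurd h3 h⟩
    · by_cases h4 : (l : ℤ) ∣ ff a ε (p1 * c) q
      · refine ⟨1, fun h => absurd h h3, fun k1 k2 _ k4 => ?_⟩
        have k3 := hbad l hl k1 k2 h3 h4
        have hl' := Nat.prime_iff_prime_int.1 hl
        have k5 : (l : ℤ) ∣ ε * (2 ^ (e + 2) * (pj * ((2 * c - 1) * (a + 1)))) := by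
          have := dvd_sub h4 k4
          have e : ff a ε (p1 * c) q - (ff a ε (p1 * c) q -
              ε * (4 * 2 ^ e * 1) * pj * (2 * c - 1) * (a + 1)) =
              ε * (2 ^ (e + 2) * (pj * ((2 * c - 1) * (a + 1)))) := by ring
          rwa [e] at this
        have k6 : (l : ℤ) ∣ 2 ^ (e + 2) * (pj * ((2 * c - 1) * (a + 1))) := by
          rcases hε with rfl | rfl
          · rwa [one_mul] at k5
          · rwa [neg_one_mul, dvd_neg] at k5
        have hlr : (l : ℤ) ∣ 2 * rj := (hl'.dvd_or_dvd k2).resolve_right h3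
        have hlrj : (l : ℤ) ∣ rj := (hl'.dvd_or_dvd hlr).resolve_left (odd_not_dvd hl k1)
        rcases hl'.dvd_or_dvd k6 with h | h
        · exact odd_not_dvd_pow hl k1 _ h
        rcases hl'.dvd_or_dvd h with h | h
        · exact not_dvd_of_isCoprime hcopj hl hlrj h
        rcases hl'.dvd_or_dvd h with h | h
        · have h5 : (l : ℤ) ∣ 1 := by
            have e5 : (1 : ℤ) = (2 * c - 1) - 2 * (c - 1) := by ring
            rw [e5]
            exact dvd_sub h (k3.mul_left _)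
          exact prime_not_dvd_one hl h5
        · exact not_dvd_of_isCoprime hco hl k2 h
      · exact ⟨0, fun h => absurd h h3, fun _ _ _ h => h4 (by simpa using h)⟩) (by
    intro l hl _ k k' e1 e2
    refine ⟨fun h => ?_, fun k1 k2 k3 k5 => e2.2 k1 k2 k3 ?_⟩
    · have := dvd_add e1 (e2.1 h)
      simpa using this
    · have e : ff a ε (p1 * c) q - ε * (4 * 2 ^ e * k) * pj * (2 * c - 1) * (a + 1) =
          ff a ε (p1 * c) q - ε * (4 * 2 ^ e * k') * pj * (2 * c - 1) * (a + 1) +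
            (k' - k) * (ε * 4 * 2 ^ e * pj * (2 * c - 1) * (a + 1)) := by ring
      rw [e]
      exact dvd_add k5 (e1.mul_right _))
  set q2 := q - 4 * 2 ^ e * k * pj * (2 * c - 1) with hq2
  have hq2odd : Odd q2 := by
    have : q2 = q + 2 * (-(2 * 2 ^ e * k * pj * (2 * c - 1))) := by rw [hq2]; ring
    rw [this]
    exact hq.add_even ⟨_, two_mul _⟩
  have hcop : IsCoprime q2 (2 * c) := by
    refine IsCoprime.mul_right (isCoprime_two hq2odd) ?_
    refine isCoprime_of_prime fun l hl h3 h4 => not_dvd_of_isCoprime h2 hl h3 ?_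
    have h5 := (hk l hl (h3.mul_left _)).1 h3
    have : q = q2 + k * (4 * 2 ^ e * pj * (2 * c - 1)) := by rw [hq2]; ring
    rw [this]
    exact dvd_add h4 (h5.mul_right _)
  -- the moves
  have s1 := KS.Vc hs two_pos hS.ok' j
  have e0 : (0 : ℤ) + j * (2 - 1) = j := by ring
  rw [e0, epj, era] at s1
  have s2 := KS.Hc hrj (by omega : 0 < 2 * c) hcopj
    (IsCoprime.mul_right (isCoprime_two hq) h2) (4 * 2 ^ e * k) hcop (by simp [hq2]) s1.ok'
  have e1 : 4 * 2 ^ e * k * (rj + 1) = 2 * (2 * 2 ^ e * k * (rj + 1)) := by ring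
  rw [e1, map_shH_fix (s := s) (j := j) (m := 2 * 2 ^ e * k * (rj + 1)) (by
    refine ⟨2 * k * (rj + 1) * o * (2 * rj * c), ?_⟩
    linear_combination (2 * 2 ^ e * k * (rj + 1)) * hjj - 2 * k * (rj + 1) * o * heo)] at s2
  have s3 := KS.Vc hs two_pos s2.ok' (-j)
  have e2 : j + -j * ((2 : ℤ) - 1) = 0 := by ring
  rw [e2] at s3
  have s4 := s2.trans s3
  rw [← era] at s1 s4
  have e3 : ff a ε (pj * (2 * c) - -j * (s + 1) * q2) q2 =
      ff a ε (p1 * c) q - ε * (4 * 2 ^ e * k) * pj * (2 * c - 1) * (a + 1) -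
        j * ((s + 1) * (4 * 2 ^ e * k * pj * (2 * c - 1)) * (a - 1)) := by
    rw [← epj, hq2]; ring
  refine ⟨pj * (2 * c) - -j * (s + 1) * q2, q2, ?_, ?_, ?_, hS.trans (s1.trans s4)⟩
  · rw [era]
    exact (prm_of hcopj hcop).swap.shV _
  · rw [e3]
    have e4 : ff a ε (p1 * c) q - ε * (4 * 2 ^ e * k) * pj * (2 * c - 1) * (a + 1) -
        j * ((s + 1) * (4 * 2 ^ e * k * pj * (2 * c - 1)) * (a - 1)) =
        ff a ε (p1 * c) q + 4 * (-(ε * (2 ^ e * k) * pj * (2 * c - 1) * (a + 1)) -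
        j * ((s + 1) * (2 ^ e * k * pj * (2 * c - 1)) * (a - 1))) := by ring
    rw [e4, Int.add_mul_emod_self_left]
    exact hf
  · intro l hl k1 k2 k3
    have hlo : Odd (l : ℤ) := by
      have := hl.odd_of_ne_two k1
      exact_mod_cast this
    have hlj : (l : ℤ) ∣ j := hodd _ hlo k2
    by_cases k4 : (l : ℤ) ∣ c
    · have k5 : (l : ℤ) ∣ ε * (q2 * (a + 1)) := by
        have e5 : ε * (q2 * (a + 1)) = ff a ε (pj * (2 * c) - -j * (s + 1) * q2) q2 -
            (c * (2 * pj) + j * ((s + 1) * q2)) * (a - 1) := by ring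
        rw [e5]
        exact dvd_sub k3 ((dvd_add (k4.mul_right _) (hlj.mul_right _)).mul_right _)
      have k6 : (l : ℤ) ∣ q2 * (a + 1) := by
        rcases hε with rfl | rfl
        · rwa [one_mul] at k5
        · rwa [neg_one_mul, dvd_neg] at k5
      rcases (Nat.prime_iff_prime_int.1 hl).dvd_or_dvd k6 with h | h
      · exact not_dvd_of_isCoprime hcop hl (k4.mul_left _) h
      · exact not_dvd_of_isCoprime hco hl k2 h
    · refine (hk l hl k2).2 k1 k2 k4 ?_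
      rw [e3] at k3
      have := dvd_add k3 (hlj.mul_right ((s + 1) * (4 * 2 ^ e * k * pj * (2 * c - 1)) * (a - 1)))
      simpa using this


/-- STEP 3: the jump to the areas `(2, a' + a - 2)` -/
theorem jump {S : PSt} {a a' s p q ε : ℤ} (hs : 0 < s) (hsa : s * 2 = a) (h2s : (2 : ℤ) ∣ s)
    (ha' : 0 < a') (h2a : (2 : ℤ) ∣ a') (hε : ε = 1 ∨ ε = -1) (hprm : Prm a' p q)
    (hf : ff a ε p q % 4 = 2)
    (hodd : ∀ l : ℕ, l.Prime → l ≠ 2 → (l : ℤ) ∣ a' → ¬ (l : ℤ) ∣ ff a ε p q)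
    (hS : SEq S (KS (lat (0, s) (2, 0)) (Lc a' p q))) :
    ∃ L1 L1', SEq S (KS L1 L1') ∧ IsArea L1 2 ∧ IsArea L1' (a' + (a - 2)) := by
  have hC : IsC (Lc a' p q) (a - 1, ε * (a + 1)) 2 := by
    have e1 : p * (a - 1) + q * (ε * (a + 1)) = ff a ε p q := by ring
    refine isC_Lc hprm two_pos (h2a.mul_right _) (h2a.mul_right _) (by rw [e1]; omega) ?_
    intro l hl k1 k2 k3
    rw [e1] at k3
    by_cases hl2 : l = 2
    · subst hl2
      push_cast at k3
      omega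
    · have hl' := Nat.prime_iff_prime_int.1 hl
      have k4 : (l : ℤ) ∣ ff a ε p q := (dvd_mul_left _ _).trans k3
      have k5 : (l : ℤ) ∣ a' * (a - 1) := (dvd_mul_left _ _).trans k1
      have k6 : (l : ℤ) ∣ a' * (ε * (a + 1)) := (dvd_mul_left _ _).trans k2
      have k7 : ¬ (l : ℤ) ∣ a' := fun h => hodd l hl hl2 h k4
      have k8 := (hl'.dvd_or_dvd k5).resolve_left k7
      have k9 := (hl'.dvd_or_dvd k6).resolve_left k7
      have k10 : (l : ℤ) ∣ a + 1 := by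
        rcases hε with rfl | rfl
        · rwa [one_mul] at k9
        · rwa [neg_one_mul, dvd_neg] at k9
      have k11 := dvd_sub k10 k8
      have e2 : a + 1 - (a - 1) = 2 := by ring
      rw [e2] at k11
      exact odd_not_dvd hl hl2 k11
  obtain ⟨s', rfl⟩ := h2s
  have hs' : 0 < s' := by omega
  have hA : IsArea (lat (0, 2 * s') (2, 0)) a := ⟨by omega, (0, 2 * s'), (2, 0), by
    simp only [cr]; rw [← hsa]; ring, rfl⟩
  have hA' := isArea_Lc ha' hprm
  have ha2 : a - (a - 2) = 2 := by ring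
  rcases hε with rfl | rfl
  · have hL : lat (0, 2 * s') (2, 0) = lat (a - 2, a) (2 * (1 - s'), -(2 * s')) := by
      symm
      refine closure_pair_eq (α := 2) (β := 2 * s' - 1) (γ := -1) (δ := 1 - s') ?_ ?_ ?_
      · rw [← hsa]
        ext
        · simp only [Prod.fst_add, Prod.smul_fst, smul_eq_mul]; ring
        · simp only [Prod.snd_add, Prod.smul_snd, smul_eq_mul]; ring
      · ext
        · simp only [Prod.fst_add, Prod.smul_fst, smul_eq_mul]; ring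
        · simp only [Prod.snd_add, Prod.smul_snd, smul_eq_mul]; ring
      · left; ring
    obtain ⟨L1, L1', h1, h2, h3⟩ := KS.move' hS.ok' hA hA' hL (by
      simp only [cr]; rw [← hsa]; ring) (by omega) (by omega) le_rfl (c := 2) (by
      have e1 : 1 + (a - 2) = a - 1 := by ring
      have e2 : 1 + a = 1 * (a + 1) := by ring
      rw [e1, e2]; exact hC) ⟨2 * s' - 1, by rw [← hsa]; ring⟩
    rw [ha2] at h2
    exact ⟨L1, L1', hS.trans h1, h2, h3⟩
  · have hL : lat (0, 2 * s') (2, 0) = lat (-(a - 2), a) (2 * (1 - s'), 2 * s') := by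
      symm
      refine closure_pair_eq (α := 2) (β := -(2 * s' - 1)) (γ := 1) (δ := 1 - s') ?_ ?_ ?_
      · rw [← hsa]
        ext
        · simp only [Prod.fst_add, Prod.smul_fst, smul_eq_mul]; ring
        · simp only [Prod.snd_add, Prod.smul_snd, smul_eq_mul]; ring
      · ext
        · simp only [Prod.fst_add, Prod.smul_fst, smul_eq_mul]; ring
        · simp only [Prod.snd_add, Prod.smul_snd, smul_eq_mul]; ring
      · left; ring
    obtain ⟨L1, L1', h1, h2, h3⟩ := KS.move hS.ok' hA hA' hL (by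
      simp only [cr]; rw [← hsa]; ring) (by omega) (by omega) le_rfl (c := 2) (by
      have e1 : 1 + (a - 2) = a - 1 := by ring
      have e2 : -(1 + a) = -1 * (a + 1) := by ring
      rw [e1, e2]; exact hC) ⟨2 * s' - 1, by rw [← hsa]; ring⟩
    rw [ha2] at h2
    exact ⟨L1, L1', hS.trans h1, h2, h3⟩

/-- STEPS 2 and 3 -/
theorem toTwo {S : PSt} {a a' s p q : ℤ} (hs : 0 < s) (hsa : s * 2 = a) (h2s : (2 : ℤ) ∣ s)
    (ha' : 0 < a') (h2a : (2 : ℤ) ∣ a') (hco : IsCoprime (a + 1) a') (hprm : Prm a' p q)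
    (hp : Odd p) (hq : Odd q) (hS : SEq S (KS (lat (0, s) (2, 0)) (Lc a' p q))) :
    ∃ L1 L1', SEq S (KS L1 L1') ∧ IsArea L1 2 ∧ IsArea L1' (a' + (a - 2)) := by
  obtain ⟨ε, hε, hf⟩ : ∃ ε : ℤ, (ε = 1 ∨ ε = -1) ∧ ff a ε p q % 4 = 2 := by
    obtain ⟨s', rfl⟩ := h2s
    obtain ⟨p', rfl⟩ := hp
    obtain ⟨q', rfl⟩ := hq
    by_cases h : (p' + q') % 2 = 0
    · refine ⟨-1, Or.inr rfl, ?_⟩
      have e1 : ff a (-1) (2 * p' + 1) (2 * q' + 1) =
          2 + 4 * ((2 * p' + 1) * s' - (2 * q' + 1) * s' - 1) - 2 * (p' + q') := by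
        unfold ff
        rw [← hsa]; ring
      rw [e1]
      omega
    · refine ⟨1, Or.inl rfl, ?_⟩
      have e1 : ff a 1 (2 * p' + 1) (2 * q' + 1) =
          2 * (p' + q') + 4 * ((2 * p' + 1) * s' + (2 * q' + 1) * s' - p') := by
        unfold ff
        rw [← hsa]; ring
      rw [e1]
      omega
  obtain ⟨r, c, p1, hr, hc, rfl, rfl, h1, h2⟩ := hprm.split' ha'
  obtain ⟨q2, k1, k2, k3, k4, k5⟩ := beta hr hc hε hco h2s h1 h2 hq hf hS
  obtain ⟨p3, q3, m1, m2, m3, m4⟩ := gamma hr hc hs hε hco h2s h2a h1 k1 hp k2 k3 k5 k4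
  exact jump hs hsa h2s ha' h2a hε m1 m2 m3 m4

theorem exists_ev_zero {a p q : ℤ} (h : Prm a p q) : ∃ w ∈ Lc a p q, ev w = 0 := by
  obtain ⟨w, hw, h1⟩ := h.cont1 2 Nat.prime_two
  refine ⟨w, hw, ?_⟩
  rcases ev_le_one w with h2 | h2
  · exact h2
  · exact absurd (dvd_of_ev (x := w.1) (y := w.2) h2) (by exact_mod_cast h1)

/-- STEP 4: the areas `(2, M)` -/
theorem base {S : PSt} {M : ℤ} (hM : 0 < M) (h2M : (2 : ℤ) ∣ M) (hco : IsCoprime (2 + 1) M)
    {L L' : AddSubgroup Z2} (hS : SEq S (KS L L')) (hL : IsArea L 2) (hL' : IsArea L' M) :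
    (∃ z x : ℤ, 0 < z ∧ z < 2 ∧ 0 < x ∧ x < M ∧ SEq S (KC 2 z (-1) M 1 (-x))) ∨
      SEq S (KC 2 1 0 M 2 (-1)) := by
  have hco' : IsCoprime (M + 1) 2 := by
    obtain ⟨t, rfl⟩ := h2M
    exact ⟨1, -t, by ring⟩
  obtain ⟨p, q, p', q', h1, h2, h3⟩ := exists_KC hS.ok' hL hL'
  have hS1 := hS.trans h3
  have hpo : Odd p := by
    rcases Int.even_or_odd p with h | h
    · exact absurd (even_iff_two_dvd.1 h) (KC.ok_iff hS1.ok').1
    · exact h
  rcases Int.even_or_odd q with hq | hq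
  · -- `L = {X even}`
    have e0 : KC 2 p q M p' q' = KC (1 * 2) 1 (0 * 2) M p' q' := by
      rw [one_mul, zero_mul]
      obtain ⟨x, hx⟩ := hpo
      obtain ⟨y, hy⟩ := hq
      exact KC.congr ⟨-x, by rw [hx]; ring⟩ ⟨-y, by rw [hy]; ring⟩ ⟨0, by ring⟩ ⟨0, by ring⟩
    rw [e0] at hS1
    have hV : ∀ j : ℤ, SEq S (KC 2 1 0 M (p' - 2 * j * q') q') := by
      intro j
      have := KC.V (s := 1) (d := 2) (p := 1) (q1 := 0) (p2 := 1) one_pos two_pos
        isCoprime_one_right isCoprime_one_left j isCoprime_one_left (one_dvd _) hS1.ok'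
      have e1 : KC (1 * 2) 1 (0 * 2) M (p' - j * (1 + 1) * q') q' =
          KC 2 1 0 M (p' - 2 * j * q') q' := by
        have : p' - j * (1 + 1) * q' = p' - 2 * j * q' := by ring
        rw [this, one_mul, zero_mul]
      rw [e1] at this
      exact hS1.trans this
    rcases Int.even_or_odd p' with hp' | hp'
    · right
      obtain ⟨p0, hp0⟩ := even_iff_two_dvd.1 hp'
      have hq'o : Odd q' := by
        rcases Int.even_or_odd q' with h | h
        · exact absurd (by exact_mod_cast even_iff_two_dvd.1 h)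
            (h2 2 Nat.prime_two (by exact_mod_cast h2M) (by exact_mod_cast even_iff_two_dvd.1 hp'))
        · exact h
      obtain ⟨j, hj⟩ := crt_exists M hM.ne' (fun l j => ¬ (l : ℤ) ∣ p0 - j * q') (by
        intro l hl hlM
        by_cases k1 : (l : ℤ) ∣ p0
        · refine ⟨1, fun k2 => h2 l hl hlM (by rw [hp0]; exact k1.mul_left _) ?_⟩
          have := dvd_sub k1 k2
          simpa using this
        · exact ⟨0, by simpa using k1⟩) (by
        intro l hl _ k k' k1 k2 k3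
        apply k2
        have : p0 - k * q' = (p0 - k' * q') + (k' - k) * q' := by ring
        rw [this]
        exact dvd_add k3 (k1.mul_right _))
      set p1 := p0 - j * q' with hp1
      have hcp : IsCoprime p1 M := isCoprime_of_prime hj
      have s1 := hV j
      have e1 : p' - 2 * j * q' = p1 * 2 := by rw [hp1, hp0]; ring
      rw [e1] at s1
      obtain ⟨r, hr⟩ := h2M
      rw [mul_comm] at hr
      have hr0 : 0 < r := by omega
      have hp1o : Odd p1 := by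
        rcases Int.even_or_odd p1 with h | h
        · exact absurd (by exact_mod_cast even_iff_two_dvd.1 h)
            (hj 2 Nat.prime_two ⟨r, by rw [hr]; push_cast; ring⟩)
        · exact h
      rw [hr] at s1
      have hc1 : IsCoprime p1 r := by
        rw [hr] at hcp
        exact hcp.of_mul_right_left
      obtain ⟨u, v, huv⟩ := hc1
      have s2 := KC.H (r := r) (c := 2) (q' := q') (p1 := p1) (q2 := -p1) hr0 two_pos
        ⟨u, v, huv⟩ (isCoprime_two hq'o) ((q' + p1) * u) (isCoprime_two hp1o).neg_left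
        ⟨-(v * (q' + p1)), by linear_combination (q' + p1) * huv⟩ s1.ok'
      have e2 : KC 2 1 (0 - (q' + p1) * u * (r + 1) * 1) (r * 2) (p1 * 2) (-p1) =
          KC 2 1 0 M 2 (-1) := by
        have e3 : KC 2 1 0 (r * 2) (p1 * 2) (p1 * -1) = KC 2 1 0 (r * 2) 2 (-1) :=
          KC.unit' (hr ▸ hcp.symm)
        rw [hr, ← e3]
        refine KC.congr ⟨0, by ring⟩ ?_ ⟨0, by ring⟩ ⟨0, by ring⟩
        have h5 : Even (q' + p1) := hq'o.add_odd hp1o
        obtain ⟨t, ht⟩ := even_iff_two_dvd.1 h5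
        exact ⟨t * u * (r + 1), by rw [ht]; ring⟩
      rw [e2] at s2
      exact s1.trans s2
    · left
      obtain ⟨j, hj⟩ := crt_exists M hM.ne' (fun l j => ¬ (l : ℤ) ∣ p' - 2 * j * q') (by
        intro l hl hlM
        by_cases k1 : (l : ℤ) ∣ p'
        · refine ⟨1, fun k2 => ?_⟩
          have k3 := dvd_sub k1 k2
          have e1 : p' - (p' - 2 * 1 * q') = 2 * q' := by ring
          rw [e1] at k3
          rcases (Nat.prime_iff_prime_int.1 hl).dvd_or_dvd k3 with h | h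
          · have hl2 : l = 2 := by
              by_contra hne
              exact odd_not_dvd hl hne h
            subst hl2
            exact (Int.not_even_iff_odd.2 hp') (even_iff_two_dvd.2 (by exact_mod_cast k1))
          · exact h2 l hl hlM k1 h
        · exact ⟨0, by simpa using k1⟩) (by
        intro l hl _ k k' k1 k2 k3
        apply k2
        have : p' - 2 * k * q' = (p' - 2 * k' * q') + (k' - k) * (2 * q') := by ring
        rw [this]
        exact dvd_add k3 (k1.mul_right _))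
      have s1 := hV j
      have hcp : IsCoprime (p' - 2 * j * q') M := isCoprime_of_prime hj
      have hprm' : Prm M (p' - 2 * j * q') q' := h2.shV _
      have hprm2 : Prm 2 1 0 := fun l hl _ k _ => prime_not_dvd_one hl k
      obtain ⟨z, x, m1, m2, m3, m4, m5, _⟩ := PSt.Ok.znorm' s1.ok' (by simp [KS, cr])
        (isArea_Lc two_pos hprm2) (isArea_Lc hM hprm') hco' (isC_Lc hprm' one_pos
          (one_dvd _) (one_dvd _) (one_dvd _) (by
            intro l hl k1 _ k3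
            rw [one_mul] at k1 k3
            refine hj l hl (by simpa using k1) (by simpa using k3)))
        (Or.inr ⟨(0, 1), mem_Lc.2 (by simp), by simp [ev]⟩)
      exact ⟨z, x, m1, m2, m3, m4, s1.trans m5⟩
  · left
    obtain ⟨z, x, m1, m2, m3, m4, m5, _⟩ := PSt.Ok.znorm hS1.ok' (by simp [KS, cr])
      (isArea_Lc two_pos h1) (isArea_Lc hM h2) hco (isC_Lc h1 one_pos
        (one_dvd _) (one_dvd _) (one_dvd _) (by
          intro l hl _ k2 k3
          rw [one_mul] at k2 k3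
          have hl2 : l = 2 := by
            by_contra hne
            exact odd_not_dvd hl hne (by simpa using k2)
          subst hl2
          exact (Int.not_even_iff_odd.2 hq) (even_iff_two_dvd.2 (by simpa using k3))))
      (Or.inr (exists_ev_zero h2))
    exact ⟨z, x, m1, m2, m3, m4, hS1.trans m5⟩

theorem cop {N : ℕ} (hN : N.Prime) {a a' : ℤ} (ha : 0 < a) (ha' : 0 < a')
    (h : a + 1 + a' = N) : IsCoprime (a + 1) a' := by
  refine isCoprime_of_prime fun l hl h1 h2 => ?_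
  have h3 : (l : ℤ) ∣ N := by rw [← h]; exact dvd_add h2 h1
  have h4 : l ∣ N := by exact_mod_cast h3
  have h5 := (Nat.prime_dvd_prime_iff_eq hl hN).1 h4
  have h6 := Int.le_of_dvd ha' h1
  rw [h5] at h6
  linarith

/-- K-states with `c = 1` -/
theorem main_KS {N : ℕ} (hN : N.Prime) {L L' : AddSubgroup Z2} {a a' : ℤ} (hok : (KS L L').Ok)
    (ha : IsArea L a) (ha' : IsArea L' a') (hv : a + 1 + a' = N) (hc : IsC L' (1, 0) 1) :
    (∃ b z b' x : ℤ, 0 < z ∧ z < b ∧ 0 < x ∧ x < b' ∧ b + 1 + b' = N ∧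
      SEq (KS L L') (KC b z (-1) b' 1 (-x))) ∨ SEq (KS L L') (KC 2 1 0 (N - 3) 2 (-1)) := by
  have hco1 : IsCoprime (a' + 1) a := cop hN ha'.1 ha.1 (by linarith)
  have hco2 : IsCoprime (a + 1) a' := cop hN ha.1 ha'.1 hv
  by_cases h : InE L' (0, 1) ∨ ∃ w ∈ L, ev w = 0
  · left
    obtain ⟨z, x, k1, k2, k3, k4, k5, _⟩ := PSt.Ok.znorm' hok (by simp [KS, cr]) ha ha' hco1 hc h
    exact ⟨a, z, a', x, k1, k2, k3, k4, hv, k5⟩
  · push Not at h
    obtain ⟨h1, h2⟩ := h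
    have hev : ∀ w ∈ L, ev w = 1 := fun w hw => (ev_le_one w).resolve_left (h2 w hw)
    obtain ⟨x, hx⟩ := hc.exists_x ha'
    rw [hx, inE_Lc_v (prm_x a' x)] at h1
    push Not at h1
    obtain ⟨h3, h4⟩ := h1
    rw [Int.not_odd_iff_even] at h3
    rw [Int.not_even_iff_odd] at h4
    have h2a : (2 : ℤ) ∣ a' := even_iff_two_dvd.1 h3
    obtain ⟨s, d, z, hs, hd, e1, e2⟩ := ha.hnf
    have v1 := dvd_of_ev (hev (0, s) (by rw [e2]; exact mem_lat.2 ⟨1, 0, by module⟩))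
    have v2 := dvd_of_ev (hev (d, z) (by rw [e2]; exact mem_lat.2 ⟨0, 1, by module⟩))
    have hdn : ((d.toNat : ℕ) : ℤ) = d := Int.toNat_of_nonneg hd.le
    have hP : Pn (KS L L') a a' d.toNat := by
      refine ⟨s, z, 1, -x, hs, by omega, by rw [hdn, e1], v1.2, by rw [hdn]; exact v2.1, v2.2,
        isCoprime_one_left, h4, ?_⟩
      rw [hdn, ← e2, ← hx]
      exact hok.seq
    obtain ⟨s, p, q, k1, k2, k3, k4, k5, k6, k7⟩ := exists_T0 ha'.1 hco1 h2a hP
    obtain ⟨L1, L1', m1, m2, m3⟩ := toTwo k1 k2 k3 ha'.1 h2a hco2 k4 k5 k6 k7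
    have hpos := ha'.1
    have e3 : a' + (a - 2) = (N : ℤ) - 3 := by linarith
    rw [e3] at m3
    have h5 : (2 : ℤ) ∣ (N : ℤ) - 3 := by omega
    have h6 := base m3.1 h5 (cop hN two_pos m3.1 (by ring)) m1 m2 m3
    rcases h6 with ⟨z, x, n1, n2, n3, n4, n5⟩ | h6
    · exact Or.inl ⟨2, z, (N : ℤ) - 3, x, n1, n2, n3, n4, by ring, n5⟩
    · exact Or.inr h6

end K511

/-- ROW R11. `N` prime: every state with `A = 1` and `d = 1` or `c = 1` is equivalent to a
Z-state or to `C511`. -/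
theorem PSt.Ok.z_or_C511 {N : ℕ} (hN : N.Prime) {S : PSt} (hS : S.Ok) (hA : cr S.u S.v = 1)
    {a a' : ℤ} (ha : IsArea S.L a) (ha' : IsArea S.L' a') (hv : a + 1 + a' = N)
    (hb : IsC S.L S.v 1 ∨ IsC S.L' S.u 1) :
    (∃ b z b' x : ℤ, 0 < z ∧ z < b ∧ 0 < x ∧ x < b' ∧ b + 1 + b' = N ∧
      SEq S (KC b z (-1) b' 1 (-x))) ∨ SEq S (KC 2 1 0 (N - 3) 2 (-1)) := by
  have key : ∀ {S : PSt} (_ : S.Ok) (_ : cr S.u S.v = 1) {a a' : ℤ} (_ : IsArea S.L a)
      (_ : IsArea S.L' a') (_ : a + 1 + a' = N) (_ : IsC S.L' S.u 1),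
      (∃ b z b' x : ℤ, 0 < z ∧ z < b ∧ 0 < x ∧ x < b' ∧ b + 1 + b' = N ∧
        SEq S (KC b z (-1) b' 1 (-x))) ∨ SEq S (KC 2 1 0 (N - 3) 2 (-1)) := by
    intro S hS hA a a' ha ha' hv hc
    obtain ⟨g, h1, h2, h3⟩ := exists_KS_all hS hA
    have hc' := hc.act g
    rw [h2] at hc'
    rcases K511.main_KS hN h1.ok' (ha.act g) (ha'.act g) hv hc' with
      ⟨b, z, b', x, n1, n2, n3, n4, n5, n6⟩ | h
    · exact Or.inl ⟨b, z, b', x, n1, n2, n3, n4, n5, h1.trans n6⟩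
    · exact Or.inr (h1.trans h)
  rcases hb with hd | hc
  · obtain ⟨L, u, v, L'⟩ := S
    dsimp only at hA ha ha' hd
    have m1 := SEq.mirror hS
    have e1 : cr v (-u) = 1 := by rw [cr_neg_right, cr_swap v u, neg_neg, hA]
    rcases key (S := ⟨L', v, -u, L⟩) m1.ok' e1 (a := a') (a' := a) ha' ha (by linarith) hd with
      ⟨b, z, b', x, n1, n2, n3, n4, n5, n6⟩ | h
    · exact Or.inl ⟨b, z, b', x, n1, n2, n3, n4, n5, m1.trans n6⟩
    · exact Or.inr (m1.trans h)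
  · exact key hS hA ha ha' hv hc

/-- ROW R12. `N` prime: every state with `A = 1` and areas `(2, N - 3)` is equivalent to a Z-state
or to `C511`. -/
theorem PSt.Ok.area_two {N : ℕ} (hN : N.Prime) {S : PSt} (hS : S.Ok) (hA : cr S.u S.v = 1)
    (ha : IsArea S.L 2) (ha' : IsArea S.L' ((N : ℤ) - 3)) :
    (∃ z x : ℤ, 0 < z ∧ z < 2 ∧ 0 < x ∧ x < (N : ℤ) - 3 ∧
      SEq S (KC 2 z (-1) ((N : ℤ) - 3) 1 (-x))) ∨ SEq S (KC 2 1 0 (N - 3) 2 (-1)) := by
  obtain ⟨L, L', h1, h2, h3⟩ := exists_KS hS hA ha ha'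
  have hpos := ha'.1
  have hodd : (2 : ℤ) ∣ (N : ℤ) - 3 := by
    have := hN.odd_of_ne_two (by omega)
    obtain ⟨t, ht⟩ := this
    exact ⟨(t : ℤ) - 1, by rw [ht]; push_cast; ring⟩
  exact K511.base hpos hodd (K511.cop hN two_pos hpos (by ring)) h1 h2 h3

end Pool.Agent.H4G
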