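import Pool.Agent.H4G.FinC
import Pool.Agent.H4G.Fam
import Pool.Agent.H4G.Arith.K4
import Pool.Agent.H4G.Arith.K2Full
import Pool.Agent.H4G.Arith.K511
import Pool.Agent.H4G.Arith.K331
import Pool.Agent.H4G.Arith.Full
import Pool.Agent.H4G.Arith.ExtA

/-!
# `N` prime: assembly (helper40)

From the reduction (R) (`RedP N`) to the four orbits.
-/

set_option autoImplicit false

namespace Pool.Agent.H4G

/-- the four canonical states -/
def canS (N : ℕ) : Fin 4 → PSt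
  | 0 => KC 6 2 (-1) (N - 7) 1 (-2)
  | 1 => KC 3 1 (-1) ((N : ℤ) - 4) 1 (-1)
  | 2 => KC 2 1 0 (N - 3) 2 (-1)
  | 3 => KC 2 1 (-1) (N - 3) 1 (-1)

/-- Z-states, all types -/
theorem z_canS {N : ℕ} (hN : N.Prime) (h11 : 11 ≤ N) {a z a' x : ℤ} (ha : 0 < a)
    (ha' : 0 < a') (hv : a + 1 + a' = N) (hok : (KC a z (-1) a' 1 (-x)).Ok) :
    ∃ k, SEq (KC a z (-1) a' 1 (-x)) (canS N k) := by
  have hodd : Odd N := hN.odd_of_ne_two (by omega)
  obtain ⟨t, ht⟩ := hodd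
  have htz : (N : ℤ) = 2 * t + 1 := by exact_mod_cast ht
  rcases Int.even_or_odd a with hae | hao
  · have hae' : Even a' := by
      obtain ⟨s, rfl⟩ := hae
      exact ⟨t - s, by linarith⟩
    rcases Int.even_or_odd z with hz | hz
    · rcases Int.even_or_odd x with hx | hx
      · exact ⟨0, K4.K4_main hN h11 hv ha ha' hae hz hx hok⟩
      · refine ⟨1, K2.unique hN h11 ha ha' hv ?_ hok⟩
        rw [nL_even_even hae hz, nL_even_odd hae' hx.neg]
    · rcases Int.even_or_odd x with hx | hx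
      · refine ⟨1, K2.unique hN h11 ha ha' hv ?_ hok⟩
        rw [nL_even_odd hae hz, nL_even_even hae' hx.neg]
      · exact ⟨3, K331.unique hN h11 ha ha' hv hae hz hx hok⟩
  · have hao' : Odd a' := by
      obtain ⟨s, rfl⟩ := hao
      exact ⟨t - s - 1, by linarith⟩
    refine ⟨1, K2.unique hN h11 ha ha' hv ?_ hok⟩
    rw [nL_odd hao, nL_odd hao']

/-- a disjunction: Z-state or `C511` -/
theorem canS_of_z {N : ℕ} (hN : N.Prime) (h11 : 11 ≤ N) {S : PSt}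
    (h : (∃ b z b' x : ℤ, 0 < z ∧ z < b ∧ 0 < x ∧ x < b' ∧ b + 1 + b' = N ∧
      SEq S (KC b z (-1) b' 1 (-x))) ∨ SEq S (KC 2 1 0 (N - 3) 2 (-1))) :
    ∃ k, SEq S (canS N k) := by
  rcases h with ⟨b, z, b', x, k1, k2, k3, k4, k5, k6⟩ | h
  · obtain ⟨k, hk⟩ := z_canS hN h11 (by omega) (by omega) k5 k6.ok'
    exact ⟨k, k6.trans hk⟩
  · exact ⟨2, h⟩

/-- every state with `gcd (L × v) = 1` -/
theorem canS_of_isC {N : ℕ} (hN : N.Prime) (h11 : 11 ≤ N) {S : PSt} {a a' : ℤ}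
    (hok : S.Ok) (ha : IsArea S.L a) (ha' : IsArea S.L' a') (hv : a + cr S.u S.v + a' = N)
    (hc : IsC S.L S.v 1) : ∃ k, SEq S (canS N k) := by
  obtain ⟨L, u, v, L'⟩ := S
  dsimp only at ha ha' hv hc
  obtain ⟨u1, L1, θ, h1, h2, h3, h4, h5, h6, h7, h8⟩ := SEq.node' hok ha hc
  have hA : cr u1 v = 1 := by omega
  obtain ⟨k, hk⟩ := canS_of_z hN h11 (PSt.Ok.z_or_C511 hN (S := ⟨L1, u1, v, L'⟩) h1.ok' hA h7 ha'
    (by omega) (Or.inl h8))
  exact ⟨k, h1.trans hk⟩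

/-- the reduction (R) for `N` squares: the class of an extremal state contains a state with
`gcd (L × v) = 1`, or `A = 1` and `a = 2` -/
def RedP (N : ℕ) : Prop := ∀ (S : PSt) (a a' b b' : ℤ), S.Full → IsArea S.L a →
  a + cr S.u S.v + a' = N → ExtA S a' b b' →
  (∃ T, SEq S T ∧ IsC T.L T.v 1) ∨ (cr S.u S.v = 1 ∧ a = 2)

/-- the first form of (R) -/
theorem RedP.of_one {N : ℕ} (h : ∀ (S : PSt) (a a' b b' : ℤ), S.Full → IsArea S.L a →
    a + cr S.u S.v + a' = N → ExtA S a' b b' → b = 1 ∨ (cr S.u S.v = 1 ∧ a = 2)) : RedP N := by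
  intro S a a' b b' h1 h2 h3 h4
  rcases h S a a' b b' h1 h2 h3 h4 with rfl | h5
  · exact Or.inl ⟨S, h4.ok.seq, h4.hb⟩
  · exact Or.inr h5

open Classical in
/-- the canonical chains -/
noncomputable def canC (N : ℕ) (k : Fin 4) : C6 :=
  if h : (canS N k).Ok then h.choose else ((0, 0), (0, 0), (0, 0), (0, 0), (0, 0), (0, 0))

theorem canC_isRep {N : ℕ} {k : Fin 4} (h : (canS N k).Ok) : IsRep (canS N k) (canC N k) := by
  unfold canC
  rw [dif_pos h]
  exact h.choose_spec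

/-- the classification of the chains -/
theorem arith_prime {N : ℕ} (hN : N.Prime) (h11 : 11 ≤ N) (hR : RedP N) :
    ∀ c : C6, Pos c → span c = ⊤ → vol c = N → ∃ k, CEq c (canC N k) := by
  intro c hc hs hv
  have hrep := isRep_stOf hc
  have hfull : (stOf c).Full := by
    unfold PSt.Full
    rw [← hrep.span]; exact hs
  obtain ⟨T, a', b, b', k1, k2⟩ := exists_extA ⟨c, hrep⟩
  obtain ⟨d, d', m1, m2, m3⟩ := k1
  have k1 : SEq (stOf c) T := ⟨d, d', m1, m2, m3⟩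
  obtain ⟨a, a1, n1, n2, n3, n4⟩ := m2.areas
  have e1 : a1 = a' := n2.unique k2.ha'
  have e2 : vol d' = N := by rw [m3.vol_eq, (hrep.ceq m1).vol_eq, hv]
  rw [e2, e1] at n4
  have key : ∃ k, SEq T (canS N k) := by
    rcases hR T a a' b b' (k1.full.1 hfull) n1 n4.symm k2 with ⟨T1, hT1, hT2⟩ | ⟨hb1, hb2⟩
    · obtain ⟨c1, c2, o1, o2, o3⟩ := hT1
      have hT1 : SEq T T1 := ⟨c1, c2, o1, o2, o3⟩
      obtain ⟨x, x', w1, w2, w3, w4⟩ := o2.areas
      have e3 : vol c2 = N := by rw [← e2]; exact o3.vol_eq.trans (o1.ceq m2).vol_eq.symm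
      obtain ⟨k, hk⟩ := canS_of_isC hN h11 hT1.ok' w1 w2 (by rw [← w4, e3]) hT2
      exact ⟨k, hT1.trans hk⟩
    · subst hb2
      have ha' : a' = (N : ℤ) - 3 := by omega
      have h9 := k2.ha'
      rw [ha'] at h9
      refine canS_of_z hN h11 ?_
      rcases PSt.Ok.area_two hN k2.ok hb1 n1 h9 with ⟨z, x, q1, q2, q3, q4, q5⟩ | h
      · exact Or.inl ⟨2, z, N - 3, x, q1, q2, q3, q4, by ring, q5⟩
      · exact Or.inr h
  obtain ⟨k, hk⟩ := key
  exact ⟨k, (k1.trans hk).ceq hrep (canC_isRep hk.ok')⟩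

/-- Q1 (ii) for `N` prime, from (R) -/
theorem orbits_prime_of {N : ℕ} (hN : N.Prime) (h8 : 8 < N) (hR : RedP N) :
    ∃ o : Fin 4 → Ori N, (∀ k, (o k).PH ∧ ∀ v, (o k).HLK v ↔ v = valO k) ∧
      ∀ p : Ori N, p.PH → ∃! k, p.SameOrbit (o k) := by
  have h11 : 11 ≤ N := by
    by_contra hn
    have h9 : N = 9 ∨ N = 10 := by omega
    rcases h9 with rfl | rfl <;> revert hN <;> norm_num
  exact orbits_of valO_inj (arith_prime hN h11 hR)
    (exists_valO (hN.odd_of_ne_two (by omega)) h8)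

end Pool.Agent.H4G
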