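import Pool.Agent.H4G.Defs

/-!
# The arithmetic of chains, first layer: blocks and path states (helper40)

A path state is `(L, u, v, L')`; it is represented by the chains `(a0, a1, u, v, a4, a5)` with
`L = ⟨a1, a0 - u⟩` and `L' = ⟨a4, a5 - v⟩`.
-/

set_option autoImplicit false

namespace Pool.Agent.H4G

/-! ## The exterior product -/

theorem cr_add_left (a b c : Z2) : cr (a + b) c = cr a c + cr b c := by
  simp only [cr, Prod.fst_add, Prod.snd_add]; ring

theorem cr_add_right (a b c : Z2) : cr a (b + c) = cr a b + cr a c := by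
  simp only [cr, Prod.fst_add, Prod.snd_add]; ring

theorem cr_sub_left (a b c : Z2) : cr (a - b) c = cr a c - cr b c := by
  simp only [cr, Prod.fst_sub, Prod.snd_sub]; ring

theorem cr_sub_right (a b c : Z2) : cr a (b - c) = cr a b - cr a c := by
  simp only [cr, Prod.fst_sub, Prod.snd_sub]; ring

theorem cr_neg_left (a b : Z2) : cr (-a) b = -cr a b := by
  simp only [cr, Prod.fst_neg, Prod.snd_neg]; ring

theorem cr_neg_right (a b : Z2) : cr a (-b) = -cr a b := by
  simp only [cr, Prod.fst_neg, Prod.snd_neg]; ring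

theorem cr_smul_left (k : ℤ) (a b : Z2) : cr (k • a) b = k * cr a b := by
  simp only [cr, Prod.smul_fst, Prod.smul_snd, smul_eq_mul]; ring

theorem cr_smul_right (k : ℤ) (a b : Z2) : cr a (k • b) = k * cr a b := by
  simp only [cr, Prod.smul_fst, Prod.smul_snd, smul_eq_mul]; ring

theorem cr_self (a : Z2) : cr a a = 0 := by
  simp only [cr]; ring

theorem cr_swap (a b : Z2) : cr a b = -cr b a := by
  simp only [cr]; ring

theorem cr_zero_left (a : Z2) : cr 0 a = 0 := by simp [cr]

theorem cr_zero_right (a : Z2) : cr a 0 = 0 := by simp [cr]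

/-- `(c × b) a + (a × c) b = (a × b) c`, up to sign: three vectors of the plane are dependent. -/
theorem cr_dep (a b c : Z2) : cr b c • a + cr c a • b + cr a b • c = 0 := by
  ext <;> simp [cr] <;> ring

/-! ## The equivalence relation -/

theorem CEq.refl (c : C6) : CEq c c := Relation.EqvGen.refl c

theorem CEq.symm {c c' : C6} (h : CEq c c') : CEq c' c := Relation.EqvGen.symm _ _ h

theorem CEq.trans {c c' c'' : C6} (h : CEq c c') (h' : CEq c' c'') : CEq c c'' :=
  Relation.EqvGen.trans _ _ _ h h'

theorem CEq.mv {c c' : C6} (hp : Pos c) (h : Mv c c') : CEq c c' :=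
  Relation.EqvGen.rel _ _ ⟨hp, h⟩

/-- the first vector can be changed by multiples of the second one -/
theorem CEq.end0 (a0 a1 a2 a3 a4 a5 : Z2) (hp : Pos (a0, a1, a2, a3, a4, a5)) (k : ℤ) :
    CEq (a0, a1, a2, a3, a4, a5) (a0 + k • a1, a1, a2, a3, a4, a5) := by
  have hpos : ∀ k : ℤ, Pos (a0 + k • a1, a1, a2, a3, a4, a5) := by
    intro k
    obtain ⟨h1, h2⟩ := hp
    refine ⟨?_, h2⟩
    rw [cr_add_left, cr_smul_left, cr_self]; simpa using h1
  induction k using Int.induction_on with
  | zero => simpa using CEq.refl _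
  | succ n ih =>
    refine ih.trans ?_
    have := CEq.mv (hpos n) (Mv.end0 _ a1 a2 a3 a4 a5)
    rw [add_assoc, ← add_one_zsmul] at this
    exact this
  | pred n ih =>
    refine ih.trans ?_
    have := CEq.mv (hpos (-n - 1)) (Mv.end0 _ a1 a2 a3 a4 a5)
    rw [add_assoc, ← add_one_zsmul, sub_add_cancel] at this
    exact this.symm

/-- the basic flip of a block -/
theorem CEq.blk (p l u v a4 a5 : Z2) (hp : Pos (p + u, l, u, v, a4, a5)) (m : ℤ)
    (h1 : 0 < cr (m • l + p) u) (h2 : cr (m • l + p) u < cr p l) :
    CEq (p + u, l, u, v, a4, a5) (-l + u, m • l + p, u, v, a4, a5) := by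
  refine (CEq.end0 _ _ _ _ _ _ hp (m - 1)).trans ?_
  obtain ⟨g1, g2, g3⟩ := hp
  have hpos : Pos (p + u + (m - 1) • l, l, u, v, a4, a5) := by
    refine ⟨?_, g2, g3⟩
    rw [cr_add_left, cr_smul_left, cr_self]; simpa using g1
  have e1 : l + (p + u + (m - 1) • l) - u = m • l + p := by
    rw [sub_smul, one_smul]; abel
  have g4 : 0 < cr (p + u + (m - 1) • l) (m • l + p) := by
    have : cr (p + u + (m - 1) • l) (m • l + p) = cr p l - cr (m • l + p) u := by
      simp only [cr_add_left, cr_add_right, cr_smul_left, cr_smul_right, cr_self]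
      rw [cr_swap l p, cr_swap u l, cr_swap u p]; ring
    rw [this]; linarith
  have hm := Mv.flip1 (p + u + (m - 1) • l) l u v a4 a5 (by rw [e1]; exact g4)
    (by rw [e1]; exact h1)
  rw [e1] at hm
  refine (CEq.mv hpos hm).trans ?_
  have := CEq.end0 _ _ _ _ _ _ (show Pos (p + u + (m - 1) • l, m • l + p, u, v, a4, a5) from
    ⟨g4, h1, g3⟩) (-1)
  have e2 : p + u + (m - 1) • l + (-1 : ℤ) • (m • l + p) = -l + u := by
    rw [neg_smul, one_smul, sub_smul, one_smul]; abel
  rw [e2] at this
  exact this

/-- the basic flip of a block, second form -/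
theorem CEq.blk' (p l u v a4 a5 : Z2) (hp : Pos (p + u, l, u, v, a4, a5)) (m : ℤ)
    (h1 : 0 < cr (m • l - p) u) (h2 : cr (m • l - p) u < cr p l) :
    CEq (p + u, l, u, v, a4, a5) (l + u, m • l - p, u, v, a4, a5) := by
  refine (CEq.end0 _ _ _ _ _ _ hp (1 - m)).trans ?_
  obtain ⟨g1, g2, g3⟩ := hp
  have hpos : Pos (p + u + (1 - m) • l, l, u, v, a4, a5) := by
    refine ⟨?_, g2, g3⟩
    rw [cr_add_left, cr_smul_left, cr_self]; simpa using g1
  have e1 : l - (p + u + (1 - m) • l) + u = m • l - p := by
    rw [sub_smul, one_smul]; abel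
  have g4 : 0 < cr (p + u + (1 - m) • l) (m • l - p) := by
    have : cr (p + u + (1 - m) • l) (m • l - p) = cr p l - cr (m • l - p) u := by
      simp only [cr_add_left, cr_sub_left, cr_sub_right, cr_smul_left, cr_smul_right, cr_self]
      rw [cr_swap l p, cr_swap u l, cr_swap u p]; ring
    rw [this]; linarith
  have hm := Mv.flip1' (p + u + (1 - m) • l) l u v a4 a5 (by rw [e1]; exact g4)
    (by rw [e1]; exact h1)
  rw [e1] at hm
  refine (CEq.mv hpos hm).trans ?_
  have := CEq.end0 _ _ _ _ _ _ (show Pos (p + u + (1 - m) • l, m • l - p, u, v, a4, a5) from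
    ⟨g4, h1, g3⟩) 1
  have e2 : p + u + (1 - m) • l + (1 : ℤ) • (m • l - p) = l + u := by
    rw [one_smul, sub_smul, one_smul]; abel
  rw [e2] at this
  exact this

theorem CEq.block_aux (n : ℕ) : ∀ (p l u v a4 a5 l1 p1 : Z2) (α β γ δ : ℤ), β.natAbs = n →
    Pos (p + u, l, u, v, a4, a5) → l1 = α • l + β • p → p1 = γ • l + δ • p → IsCoprime α β →
    0 < cr l1 u → cr l1 u < cr p l → cr p1 l1 = cr p l →
    CEq (p + u, l, u, v, a4, a5) (p1 + u, l1, u, v, a4, a5) := by
  induction n using Nat.strong_induction_on with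
  | _ n ih =>
  intro p l u v a4 a5 l1 p1 α β γ δ hn hp hl1 hp1 hco h1 h2 h3
  have hlu : 0 < cr l u := hp.2.1
  have hpl : 0 < cr p l := by
    have := hp.1
    rw [cr_add_left, cr_swap u l] at this
    linarith
  have hdet : α * δ - β * γ = 1 := by
    have e : cr p1 l1 = (α * δ - β * γ) * cr p l := by
      rw [hl1, hp1]
      simp only [cr_add_left, cr_add_right, cr_smul_left, cr_smul_right, cr_self]
      rw [cr_swap l p]; ring
    rw [h3] at e
    have : (α * δ - β * γ - 1) * cr p l = 0 := by linarith
    rcases mul_eq_zero.1 this with h | h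
    · linarith
    · exact absurd h hpl.ne'
  by_cases hβ : β = 0
  · subst hβ
    have hα : α = 1 := by
      have hu : IsUnit α := by rwa [isCoprime_zero_right] at hco
      rcases Int.isUnit_iff.1 hu with h | h
      · exact h
      · exfalso
        rw [hl1, h, zero_smul, add_zero, neg_smul, one_smul, cr_neg_left] at h1
        linarith
    have hδ : δ = 1 := by rw [hα] at hdet; linarith
    have e1 : l1 = l := by rw [hl1, hα]; simp
    have e2 : p1 + u = p + u + γ • l := by rw [hp1, hδ, one_smul]; abel
    rw [e1, e2]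
    exact CEq.end0 _ _ _ _ _ _ hp γ
  · set D : ℤ := (β.natAbs : ℤ) with hD
    have hDpos : 0 < D := Int.natCast_pos.2 (Int.natAbs_pos.2 hβ)
    set s := (α - 1) / D with hs
    set r := (α - 1) % D + 1 with hr
    have hα : α = r + D * s := by
      have := Int.emod_add_mul_ediv (α - 1) D
      rw [hr, hs]; linarith
    have hr1 : 1 ≤ r := by
      have := Int.emod_nonneg (α - 1) hDpos.ne'
      linarith
    have hr2 : r ≤ D := by
      have := Int.emod_lt_of_pos (α - 1) hDpos
      linarith
    have hco' : IsCoprime D (D - r) := by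
      have h4 : IsCoprime α D := by
        rcases Int.natAbs_eq β with h | h
        · rw [h] at hco; exact hco
        · rw [h] at hco; exact (IsCoprime.neg_right_iff _ _).1 hco
      rw [hα] at h4
      have h5 : IsCoprime r D := by
        have := IsCoprime.add_mul_left_left_iff (x := r) (y := D) (z := s)
        exact this.1 h4
      have h6 : IsCoprime D (-r) := (IsCoprime.neg_right_iff _ _).2 h5.symm
      have h7 := (IsCoprime.add_mul_left_right_iff (x := D) (y := -r) (z := 1)).2 h6
      have e : -r + D * 1 = D - r := by ring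
      rwa [e] at h7
    have hnat : (D - r).natAbs < n := by
      rw [← hn]; omega
    have hnat' : (r - D).natAbs < n := by
      rw [← hn]; omega
    -- the size of the new vector
    have key : ∀ l2 : Z2, l1 = (r - D) • l + D • l2 → 0 < cr l2 u ∧ cr l2 u < cr p l := by
      intro l2 e
      have e1 : D * cr l2 u = cr l1 u + (D - r) * cr l u := by
        rw [e, cr_add_left, cr_smul_left, cr_smul_left]; ring
      have hlu2 : cr l u < cr p l := by
        have := hp.1
        rw [cr_add_left, cr_swap u l] at this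
        linarith
      have hnn : 0 ≤ (D - r) * cr l u := mul_nonneg (by linarith) hlu.le
      constructor
      · by_contra hneg
        push Not at hneg
        have : D * cr l2 u ≤ 0 := mul_nonpos_of_nonneg_of_nonpos hDpos.le hneg
        linarith
      · have h8 : (D - r) * cr l u ≤ (D - 1) * cr p l := by
          have h9 : (D - r) * cr l u ≤ (D - r) * cr p l :=
            mul_le_mul_of_nonneg_left hlu2.le (by linarith)
          have h10 : (D - r) * cr p l ≤ (D - 1) * cr p l :=
            mul_le_mul_of_nonneg_right (by linarith) hpl.le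
          linarith
        by_contra hge
        push Not at hge
        have : D * cr p l ≤ D * cr l2 u := mul_le_mul_of_nonneg_left hge hDpos.le
        have h11 : (D - 1) * cr p l = D * cr p l - cr p l := by ring
        linarith
    obtain ⟨g1, g2, g3⟩ := hp
    rcases Int.natAbs_eq β with hb | hb
    · -- β = D
      have hβD : β = D := hb
      set l2 := (s + 1) • l + p with hl2
      have el1 : l1 = (r - D) • l + D • l2 := by
        rw [hl1, hl2, hβD, hα]
        module
      obtain ⟨k1, k2⟩ := key l2 el1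
      have hstep := CEq.blk p l u v a4 a5 ⟨g1, g2, g3⟩ (s + 1) k1 k2
      rw [← hl2] at hstep
      have ecr : cr (-l) l2 = cr p l := by
        rw [hl2, cr_neg_left, cr_add_right, cr_smul_right, cr_self, cr_swap l p]; ring
      refine hstep.trans ?_
      refine ih _ hnat (-l) l2 u v a4 a5 l1 p1 D (D - r) δ ((s + 1) * δ - γ) rfl ?_ ?_ ?_
        hco' h1 (by rw [ecr]; exact h2) (by rw [ecr]; exact h3)
      · refine ⟨?_, k1, g3⟩
        rw [cr_add_left, ecr, cr_swap u l2]; linarith
      · rw [el1]; module
      · rw [hp1, hl2]; module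
    · have hβD : β = -D := hb
      set l2 := (s + 1) • l - p with hl2
      have el1 : l1 = (r - D) • l + D • l2 := by
        rw [hl1, hl2, hβD, hα]
        module
      obtain ⟨k1, k2⟩ := key l2 el1
      have hstep := CEq.blk' p l u v a4 a5 ⟨g1, g2, g3⟩ (s + 1) k1 k2
      rw [← hl2] at hstep
      have ecr : cr l l2 = cr p l := by
        rw [hl2, cr_sub_right, cr_smul_right, cr_self, cr_swap l p]; ring
      refine hstep.trans ?_
      refine ih _ hnat' l l2 u v a4 a5 l1 p1 D (r - D) (-δ) (γ + (s + 1) * δ) rfl ?_ ?_ ?_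
        ?_ h1 (by rw [ecr]; exact h2) (by rw [ecr]; exact h3)
      · refine ⟨?_, k1, g3⟩
        rw [cr_add_left, ecr, cr_swap u l2]; linarith
      · rw [el1]; module
      · rw [hp1, hl2]; module
      · have := (IsCoprime.neg_right_iff _ _).2 hco'
        rwa [neg_sub] at this

end Pool.Agent.H4G
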