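import Pool.Agent.H4G.Arith.Con1

/-!
# The frame ExtB (helper19; Lean: helper5)

`a'` maximal, content of `L'` one, `b` minimal, then `A ≤ b` and `c = gcd (L' × u)` minimal.
-/

set_option autoImplicit false

namespace Pool.Agent.H4G

structure ExtB (S : PSt) (a' b c : ℤ) : Prop where
  mx : Mx S a'
  con : Con1 S.L'
  hb : IsC S.L S.v b
  hc : IsC S.L' S.u c
  hA : cr S.u S.v ≤ b
  min : ∀ (T : PSt) (d : ℤ), SEq S T → IsArea T.L' a' → Con1 T.L' → IsC T.L T.v d → b ≤ d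
  min' : ∀ (T : PSt) (d : ℤ), SEq S T → IsArea T.L' a' → Con1 T.L' → IsC T.L T.v b →
    cr T.u T.v ≤ b → IsC T.L' T.u d → c ≤ d

theorem Mx.exists_extB {S : PSt} {a' : ℤ} (h : Mx S a') (hcon : Con1 S.L') :
    ∃ (T : PSt) (b c : ℤ), SEq S T ∧ ExtB T a' b c := by
  obtain ⟨b, ⟨T0, k1, k1', k2', k2⟩, hmin⟩ := exists_min_int
    (P := fun d => ∃ T : PSt, SEq S T ∧ IsArea T.L' a' ∧ Con1 T.L' ∧ IsC T.L T.v d)
    (fun d ⟨T, _, _, _, h⟩ => h.1) (by
      obtain ⟨l, p, l', p', had⟩ := exists_Ad h.ok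
      exact ⟨_, S, h.ok.seq, h.ha', hcon, had.isC⟩)
  obtain ⟨l, p, l', p', had⟩ := exists_Ad k1.ok'
  obtain ⟨u1, L1, θ, m1, m2, m3, m4, m5, m6, m7, m8⟩ :=
    SEq.node' (L := T0.L) (L' := T0.L') (u := T0.u) (v := T0.v) k1.ok' had.isArea k2
  have k3 : SEq S ⟨L1, u1, T0.v, T0.L'⟩ := k1.trans m1
  obtain ⟨c, ⟨T, n1, n1', n1'', n2, n3, n4⟩, hmin'⟩ := exists_min_int
    (P := fun d => ∃ T : PSt, SEq S T ∧ IsArea T.L' a' ∧ Con1 T.L' ∧ IsC T.L T.v b ∧
      cr T.u T.v ≤ b ∧ IsC T.L' T.u d)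
    (fun d ⟨T, _, _, _, _, _, h⟩ => h.1) (by
      obtain ⟨l, p, l', p', had⟩ := exists_Ad k3.ok'
      exact ⟨_, _, k3, k1', k2', m8, m6, had.isC'⟩)
  exact ⟨T, b, c, n1, h.trans n1 n1', n1'', n2, n4, n3,
    fun T2 d h1 h2 h3 h4 => hmin d ⟨T2, n1.trans h1, h2, h3, h4⟩,
    fun T2 d h1 h2 h3 h4 h5 h6 => hmin' d ⟨T2, n1.trans h1, h2, h3, h4, h5, h6⟩⟩

theorem ExtB.of_eq {S T : PSt} {a' b c : ℤ} (h : ExtB S a' b c) (h1 : SEq S T)
    (h0 : IsArea T.L' a') (h0' : Con1 T.L') (h2 : IsC T.L T.v b) (h3 : cr T.u T.v ≤ b)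
    (h4 : IsC T.L' T.u c) : ExtB T a' b c :=
  ⟨h.mx.trans h1 h0, h0', h2, h4, h3, fun T2 d k1 k2 k3 k4 => h.min T2 d (h1.trans k1) k2 k3 k4,
    fun T2 d k1 k2 k3 k4 k5 k6 => h.min' T2 d (h1.trans k1) k2 k3 k4 k5 k6⟩

theorem ExtB.ok {S : PSt} {a' b c : ℤ} (h : ExtB S a' b c) : S.Ok := h.mx.ok
theorem ExtB.ha' {S : PSt} {a' b c : ℤ} (h : ExtB S a' b c) : IsArea S.L' a' := h.mx.ha'
theorem ExtB.bpos {S : PSt} {a' b c : ℤ} (h : ExtB S a' b c) : 0 < b := h.hb.1

theorem ExtB.leA {S T : PSt} {a' b c : ℤ} (h : ExtB S a' b c) (hST : SEq S T)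
    (ha : IsArea T.L' a') (hcon : Con1 T.L') {d : ℤ} (hd : IsC T.L' T.u d) : cr T.u T.v ≤ d :=
  (h.mx.trans hST ha).leA hcon hd

/-- V-RIGIDITY -/
theorem ExtB.vrig {S : PSt} {a' b c : ℤ} (h : ExtB S a' b c) {l p l' p' : Z2}
    (ad : Ad S l p l' p') : c ∣ cr (S.v + l) l' ∧ c ∣ cr (S.v + l) p' := by
  have e1 : cr p S.v = b := ad.isC.unique h.hb
  have e2 : cr S.u p' = c := ad.isC'.unique h.hc
  have hB1 : cr (S.v + l) l' ≠ 0 := by
    have k1 := plucker l l' S.u S.v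
    rw [ad.h1, cr_swap l' S.u, ad.h4, cr_swap l S.u] at k1
    have k2 : 0 < cr S.u l * cr l' S.v := mul_pos ad.h2 ad.h5
    have k3 : cr l l' * cr S.u S.v < 0 := by linarith
    have k4 : cr l l' < 0 := by
      by_contra hn
      push Not at hn
      have := mul_nonneg hn ad.hA.le
      linarith
    have k5 := ad.h5
    rw [cr_add_left, cr_swap S.v l']
    omega
  refine crt_min h.hc.1 hB1 fun j => ?_
  have k1 := ad.twV h.ok (by rw [e1]; exact h.hA) j
  have k2 : IsC (lat l (p - j • S.v)) S.v b := by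
    have : cr (p - j • S.v) S.v = b := by rw [cr_sub_left, cr_smul_left, cr_self, e1]; ring
    rw [← this]
    exact isC_of_par ad.h1 (by rw [this]; exact h.bpos)
  have e3 : cr (S.u - j • (S.v + l)) S.v = cr S.u S.v := by
    rw [cr_sub_left, cr_smul_left, cr_add_left, cr_self, ad.h1]; ring
  have e4 : cr (S.u - j • (S.v + l)) l' = -(j * cr (S.v + l) l') := by
    rw [cr_sub_left, cr_smul_left, ad.h4]; ring
  have e5 : cr (S.u - j • (S.v + l)) p' = c - j * cr (S.v + l) p' := by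
    rw [cr_sub_left, cr_smul_left, e2]
  have hb'0 := h.hc.1
  have k3 : IsC S.L' (S.u - j • (S.v + l))
      (Int.gcd (j * cr (S.v + l) l') (c - j * cr (S.v + l) p') : ℕ) := by
    have := isC_lat (x := l') (y := p') (u := S.u - j • (S.v + l)) (by
      rw [e4, e5]
      rcases eq_or_ne j 0 with hj | hj
      · right; rw [hj]; simp; omega
      · left
        exact neg_ne_zero.2 (mul_ne_zero hj hB1))
    rw [e4, e5, Int.neg_gcd, ← ad.hL'] at this
    exact this
  exact h.min' _ _ k1 h.ha' h.con k2 (by dsimp only; rw [e3]; exact h.hA) k3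

/-- `K = (A + e) / c` is an integer -/
theorem ExtB.K_int {S : PSt} {a' b c : ℤ} (h : ExtB S a' b c) {l p l' p' : Z2}
    (ad : Ad S l p l' p') : c ∣ cr S.u S.v + cr S.u l := by
  obtain ⟨h1, h2⟩ := h.vrig ad
  have hc0 := h.hc.1
  have key : ∀ w ∈ S.L', Dz c ((cr S.u S.v + cr S.u l) • w) := by
    intro w hw
    have e1 := cr_dep S.u (S.v + l) w
    have e2 : c ∣ cr (S.v + l) w := by
      rw [ad.hL'] at hw
      obtain ⟨m, n, rfl⟩ := mem_lat.1 hw
      rw [cr_add_right, cr_smul_right, cr_smul_right]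
      exact dvd_add (h1.mul_left _) (h2.mul_left _)
    have e3 : c ∣ cr w S.u := by
      rw [cr_swap w S.u]
      exact (dvd_neg).2 (h.hc.2.1 w hw)
    have e4 : (cr S.u S.v + cr S.u l) • w = -(cr (S.v + l) w • S.u + cr w S.u • (S.v + l)) := by
      rw [← cr_add_right]
      exact eq_neg_of_add_eq_zero_right e1
    rw [e4]
    exact ((Dz.of_dvd e2 _).add (Dz.of_dvd e3 _)).neg
  exact h.con.dvd hc0.ne' key

/-! ## Allowed classes of H-twists -/

/-- the class of `i` modulo `q` keeps the content prime to `q` -/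
def Alw (l' p' u : Z2) (q : ℕ) (i : ℤ) : Prop := ¬ (Dz q l' ∧ Dz q (p' + i • u))

theorem Alw.zero {l' p' u : Z2} (h : Con1 (lat l' p')) {q : ℕ} (hq : q.Prime) :
    Alw l' p' u q 0 := by
  unfold Alw
  rw [zero_smul, add_zero]
  exact con1_lat.1 h q hq

theorem Alw.per {l' p' u : Z2} {q : ℕ} {k k' : ℤ} (h : (q : ℤ) ∣ k' - k)
    (hk : Alw l' p' u q k) : Alw l' p' u q k' := by
  rintro ⟨h1, h2⟩
  refine hk ⟨h1, ?_⟩
  have h3 := h2.sub (Dz.of_dvd h u)
  have : p' + k' • u - (k' - k) • u = p' + k • u := by module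
  rwa [this] at h3

/-- odd primes have an allowed unit class -/
theorem Alw.exists_odd {l' p' u : Z2} (h : Con1 (lat l' p')) {q : ℕ} (hq : q.Prime)
    (hq2 : q ≠ 2) : ∃ i : ℤ, ¬ (q : ℤ) ∣ i ∧ Alw l' p' u q i := by
  have h2 := hq.two_le
  by_cases h1 : Alw l' p' u q 1
  · exact ⟨1, prime_not_dvd_one hq, h1⟩
  · refine ⟨2, ?_, ?_⟩
    · intro h3
      have := Int.le_of_dvd (by norm_num) h3
      omega
    · rintro ⟨h3, h4⟩
      unfold Alw at h1
      push Not at h1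
      have h5 := h1.2
      rw [one_smul] at h5
      have h6 : Dz q p' := by
        have := ((h5.smul 2).sub h4)
        have e : (2 : ℤ) • (p' + u) - (p' + (2 : ℤ) • u) = p' := by module
        rwa [e] at this
      exact con1_lat.1 h q hq ⟨h3, h6⟩

/-- if `gcd (L' × u)` is prime to `q` then everything is allowed -/
theorem Alw.of_not_dvd {l' p' u : Z2} {q : ℕ} (h : ¬ (q : ℤ) ∣ cr u p') (i : ℤ) :
    Alw l' p' u q i := by
  rintro ⟨_, h2⟩
  apply h
  have := h2.cr_right u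
  rwa [cr_add_right, cr_smul_right, cr_self, mul_zero, add_zero] at this

theorem con1_of_alw {l' p' u : Z2} {a' i : ℤ} (hu : cr u l' = 0) (ha : cr l' p' = a')
    (h : ∀ q : ℕ, q.Prime → (q : ℤ) ∣ a' → Alw l' p' u q i) : Con1 (lat l' (p' + i • u)) := by
  rw [con1_lat]
  intro q hq hd
  by_cases hqa : (q : ℤ) ∣ a'
  · exact h q hq hqa hd
  · apply hqa
    have := hd.2.cr_right l'
    rwa [cr_add_right, cr_smul_right, cr_swap l' u, hu, neg_zero, mul_zero, add_zero, ha] at this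

/-- H-RIGIDITY at one prime -/
theorem ExtB.hrigAt {S T : PSt} {a' b c : ℤ} (h : ExtB S a' b c) (hST : SEq S T)
    (haT : IsArea T.L' a') (hcT : Con1 T.L') (hT : IsC T.L T.v b) {l p l' p' : Z2}
    (ad : Ad T l p l' p') {q : ℕ} (hq : q.Prime)
    (hal : ∃ i : ℤ, ¬ (q : ℤ) ∣ i ∧ Alw l' p' T.u q i) {k : ℕ} (hk : (q : ℤ) ^ k ∣ b) :
    (q : ℤ) ^ k ∣ cr (T.u + l') l ∧ (q : ℤ) ^ k ∣ cr (T.u + l') p := by
  have hA : cr T.u T.v ≤ cr T.u p' := h.leA hST haT hcT ad.isC'
  have e1 : cr p T.v = b := ad.isC.unique hT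
  have hB1 : cr (T.u + l') l ≠ 0 := by
    have k1 := plucker l l' T.u T.v
    rw [ad.h1, cr_swap l' T.u, ad.h4, cr_swap l T.u] at k1
    have k2 : 0 < cr T.u l * cr l' T.v := mul_pos ad.h2 ad.h5
    have k3 : cr l l' * cr T.u T.v < 0 := by linarith
    have k4 : cr l l' < 0 := by
      by_contra hn
      push Not at hn
      have := mul_nonneg hn ad.hA.le
      linarith
    have k5 := ad.h2
    rw [cr_add_left, cr_swap l' l]
    omega
  have hcl : Con1 (lat l' p') := by rw [← ad.hL']; exact hcT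
  have h2 : cr l' p' = a' := ad.isArea'.unique haT
  refine crt_minA h.bpos hB1 haT.1.ne' (Alw l' p' T.u) (fun l hl => Alw.zero hcl hl)
    (fun l _ k k' hkk => Alw.per hkk) hq hal (fun i hi => ?_) hk
  have k1 := ad.twH hST.ok' hA i
  have e4 : cr (T.v + i • (T.u + l')) l = i * cr (T.u + l') l := by
    rw [cr_add_left, cr_smul_left, cr_swap T.v l, ad.h1]; ring
  have e5 : cr (T.v + i • (T.u + l')) p = -(b - i * cr (T.u + l') p) := by
    rw [cr_add_left, cr_smul_left, cr_swap T.v p, e1]; ring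
  have hb0 := h.bpos
  have k3 : IsC T.L (T.v + i • (T.u + l'))
      (Int.gcd (i * cr (T.u + l') l) (b - i * cr (T.u + l') p) : ℕ) := by
    have := isC_lat (x := l) (y := p) (u := T.v + i • (T.u + l')) (by
      rw [e4, e5]
      rcases eq_or_ne i 0 with hj | hj
      · right; rw [hj]; simp; omega
      · left
        exact mul_ne_zero hj hB1)
    rw [e4, e5, Int.gcd_neg, ← ad.hL] at this
    exact this
  have k4 : IsArea (lat l' (p' + i • T.u)) a' := by
    have h1 : cr l' (p' + i • T.u) = cr l' p' := by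
      rw [cr_add_right, cr_smul_right, cr_swap l' T.u, ad.h4]; ring
    exact ⟨haT.1, p' + i • T.u, l', by rw [h1, h2], lat_comm _ _⟩
  have k5 : Con1 (lat l' (p' + i • T.u)) := con1_of_alw ad.h4 h2 hi
  exact h.min _ _ (hST.trans k1) k4 k5 k3

/-- H-RIGIDITY in general: exact for odd primes, up to the factor two otherwise -/
theorem ExtB.hrig_two {S T : PSt} {a' b c : ℤ} (h : ExtB S a' b c) (hST : SEq S T)
    (haT : IsArea T.L' a') (hcT : Con1 T.L') (hT : IsC T.L T.v b) {l p l' p' : Z2}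
    (ad : Ad T l p l' p') : b ∣ 2 * cr (T.u + l') l ∧ b ∣ 2 * cr (T.u + l') p := by
  have hA : cr T.u T.v ≤ cr T.u p' := h.leA hST haT hcT ad.isC'
  have e1 : cr p T.v = b := ad.isC.unique hT
  have hB1 : cr (T.u + l') l ≠ 0 := by
    have k1 := plucker l l' T.u T.v
    rw [ad.h1, cr_swap l' T.u, ad.h4, cr_swap l T.u] at k1
    have k2 : 0 < cr T.u l * cr l' T.v := mul_pos ad.h2 ad.h5
    have k3 : cr l l' * cr T.u T.v < 0 := by linarith
    have k4 : cr l l' < 0 := by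
      by_contra hn
      push Not at hn
      have := mul_nonneg hn ad.hA.le
      linarith
    have k5 := ad.h2
    rw [cr_add_left, cr_swap l' l]
    omega
  have hcl : Con1 (lat l' p') := by rw [← ad.hL']; exact hcT
  have h2 : cr l' p' = a' := ad.isArea'.unique haT
  have key : ∀ (q k : ℕ), q.Prime → (q : ℤ) ^ k ∣ b →
      (q : ℤ) ^ k ∣ 2 * cr (T.u + l') l ∧ (q : ℤ) ^ k ∣ 2 * cr (T.u + l') p := by
    intro q k hq hk
    by_cases hq2 : q = 2
    · refine crt_minA h.bpos (mul_ne_zero two_ne_zero hB1) haT.1.ne'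
        (fun q i => Alw l' p' T.u q (2 * i)) (fun l hl => ?_)
        (fun l _ k k' hkk hh => ?_) hq ?_ (fun i hi => ?_) hk
      · show Alw l' p' T.u l (2 * 0)
        rw [mul_zero]; exact Alw.zero hcl hl
      · refine Alw.per ?_ hh
        have : 2 * k' - 2 * k = 2 * (k' - k) := by ring
        rw [this]; exact hkk.mul_left 2
      · refine ⟨1, prime_not_dvd_one hq, ?_⟩
        refine Alw.per (k := 0) ?_ (Alw.zero hcl hq)
        rw [hq2]; norm_num
      · have k1 := ad.twH hST.ok' hA (2 * i)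
        have e4 : cr (T.v + (2 * i) • (T.u + l')) l = i * (2 * cr (T.u + l') l) := by
          rw [cr_add_left, cr_smul_left, cr_swap T.v l, ad.h1]; ring
        have e5 : cr (T.v + (2 * i) • (T.u + l')) p = -(b - i * (2 * cr (T.u + l') p)) := by
          rw [cr_add_left, cr_smul_left, cr_swap T.v p, e1]; ring
        have hb0 := h.bpos
        have k3 : IsC T.L (T.v + (2 * i) • (T.u + l'))
            (Int.gcd (i * (2 * cr (T.u + l') l)) (b - i * (2 * cr (T.u + l') p)) : ℕ) := by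
          have := isC_lat (x := l) (y := p) (u := T.v + (2 * i) • (T.u + l')) (by
            rw [e4, e5]
            rcases eq_or_ne i 0 with hj | hj
            · right; rw [hj]; simp; omega
            · left
              exact mul_ne_zero hj (mul_ne_zero two_ne_zero hB1))
          rw [e4, e5, Int.gcd_neg, ← ad.hL] at this
          exact this
        have k4 : IsArea (lat l' (p' + (2 * i) • T.u)) a' := by
          have h1 : cr l' (p' + (2 * i) • T.u) = cr l' p' := by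
            rw [cr_add_right, cr_smul_right, cr_swap l' T.u, ad.h4]; ring
          exact ⟨haT.1, p' + (2 * i) • T.u, l', by rw [h1, h2], lat_comm _ _⟩
        have k5 : Con1 (lat l' (p' + (2 * i) • T.u)) := con1_of_alw ad.h4 h2 hi
        exact h.min _ _ (hST.trans k1) k4 k5 k3
    · obtain ⟨n1, n2⟩ := h.hrigAt hST haT hcT hT ad hq (Alw.exists_odd hcl hq hq2) hk
      exact ⟨n1.mul_left 2, n2.mul_left 2⟩
  exact ⟨dvd_of_prime_pow fun q k hq hk => (key q k hq hk).1,
    dvd_of_prime_pow fun q k hq hk => (key q k hq hk).2⟩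

/-- H-RIGIDITY, exact when no class modulo two is forbidden -/
theorem ExtB.hrig {S T : PSt} {a' b c : ℤ} (h : ExtB S a' b c) (hST : SEq S T)
    (haT : IsArea T.L' a') (hcT : Con1 T.L') (hT : IsC T.L T.v b) {l p l' p' : Z2}
    (ad : Ad T l p l' p') (h2 : Alw l' p' T.u 2 1) :
    b ∣ cr (T.u + l') l ∧ b ∣ cr (T.u + l') p := by
  have hcl : Con1 (lat l' p') := by rw [← ad.hL']; exact hcT
  have key : ∀ (q k : ℕ), q.Prime → (q : ℤ) ^ k ∣ b →
      (q : ℤ) ^ k ∣ cr (T.u + l') l ∧ (q : ℤ) ^ k ∣ cr (T.u + l') p := by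
    intro q k hq hk
    refine h.hrigAt hST haT hcT hT ad hq ?_ hk
    by_cases hq2 : q = 2
    · subst hq2
      exact ⟨1, by norm_num, h2⟩
    · exact Alw.exists_odd hcl hq hq2
  exact ⟨dvd_of_prime_pow fun q k hq hk => (key q k hq hk).1,
    dvd_of_prime_pow fun q k hq hk => (key q k hq hk).2⟩

/-- `cr (u + l') w * g = (g + a') cr u w` for `g = cr u p'` -/
theorem Ad.cr_W {T : PSt} {l p l' p' : Z2} (ad : Ad T l p l' p') (w : Z2) :
    cr (T.u + l') w * cr T.u p' = (cr T.u p' + cr l' p') * cr T.u w := by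
  have e3 := ad.area'
  have e5 : cr (T.u + l') w * cr T.u T.v = (cr T.u T.v + cr l' T.v) * cr T.u w := by
    have := plucker l' w T.u T.v
    rw [cr_swap l' T.u, ad.h4, cr_swap w T.u] at this
    rw [cr_add_left]
    linear_combination this
  have hA := ad.hA
  have : (cr (T.u + l') w * cr T.u p' - (cr T.u p' + cr l' p') * cr T.u w) * cr T.u T.v = 0 := by
    linear_combination cr T.u p' * e5 - cr T.u w * e3
  rcases mul_eq_zero.1 this with h9 | h9
  · linarith
  · omega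

/-- H-rigidity at one prime, in the form used for exits -/
theorem ExtB.hrigAt_mul {S T : PSt} {a' b c : ℤ} (h : ExtB S a' b c) (hST : SEq S T)
    (haT : IsArea T.L' a') (hcT : Con1 T.L') (hT : IsC T.L T.v b) {g : ℤ}
    (hg : IsC T.L' T.u g) {q : ℕ} (hq : q.Prime) (hq2 : q ≠ 2 ∨ ¬ (q : ℤ) ∣ g) {k : ℕ}
    (hk : (q : ℤ) ^ k ∣ b) {w : Z2} (hw : w ∈ T.L) :
    (q : ℤ) ^ k * g ∣ (g + a') * cr T.u w := by
  obtain ⟨l, p, l', p', ad⟩ := exists_Ad hST.ok'
  have e1 : cr T.u p' = g := ad.isC'.unique hg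
  have e2 : cr l' p' = a' := ad.isArea'.unique haT
  have hcl : Con1 (lat l' p') := by rw [← ad.hL']; exact hcT
  obtain ⟨h1, h2⟩ := h.hrigAt hST haT hcT hT ad hq (by
    rcases hq2 with h | h
    · exact Alw.exists_odd hcl hq h
    · exact ⟨1, prime_not_dvd_one hq, Alw.of_not_dvd (by rw [e1]; exact h) 1⟩) hk
  have e4 : (q : ℤ) ^ k ∣ cr (T.u + l') w := by
    rw [ad.hL] at hw
    obtain ⟨m, n, e⟩ := mem_lat.1 hw
    rw [← e, cr_add_right, cr_smul_right, cr_smul_right]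
    exact dvd_add (h1.mul_left _) (h2.mul_left _)
  have e6 := ad.cr_W w
  rw [e1, e2] at e6
  rw [← e6]
  exact mul_dvd_mul_right e4 g

end Pool.Agent.H4G
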