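import Pool.Agent.H4G.Arith.WC2p
import Pool.Agent.H4G.Arith.ExtB

/-!
# The case `c = A` in the frame ExtB (helper9)

WC+ when the gap cannot become smaller, and its mirror image: in the frame ExtB with
`gcd (L' × u) = u × v` there is a gap `1` or `2`.
-/

set_option autoImplicit false

namespace Pool.Agent.H4G

/-- the choice of the H-twist in WC+ -/
theorem SEq.wcp_core {N : ℕ} (hN : N.Prime) {L L' : AddSubgroup Z2} {u v l p l' p' : Z2}
    {a a' : ℤ} (hok : PSt.Ok ⟨L, u, v, L'⟩) (ad : Ad ⟨L, u, v, L'⟩ l p l' p') (ha : IsArea L a)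
    (ha' : IsArea L' a') (hv : a + cr u v + a' = N) (hb : IsC L v (cr u v))
    (H : ∀ i : ℤ, (∀ r : ℕ, r.Prime → (r : ℤ) ∣ cr u v → (r : ℤ) ∣ a → ∀ k : ℕ,
        (r : ℤ) ^ k ∣ cr u v → (r : ℤ) ^ (k + 1) ∣ i) →
      (∀ r : ℕ, r.Prime → (r : ℤ) ∣ a → ¬ (r : ℤ) ∣ cr u v →
        ∃ w ∈ L, ¬ (r : ℤ) ∣ cr (v + i • (u + l')) w) →
      ∀ P : ℤ → Prop, (∀ d : ℤ, 0 < d → (∀ w ∈ lat l' (p' + i • u), Dz d w) → P d) →
      ∃ (T : PSt) (d : ℤ), SEq ⟨L, u, v, L'⟩ T ∧ IsC T.L T.v d ∧ P d) :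
    ∃ (T : PSt) (d : ℤ), SEq ⟨L, u, v, L'⟩ T ∧ IsC T.L T.v d ∧
      (d = 1 ∨ (d = 2 ∧ (2 : ℤ) ∣ a ∧ ∀ w ∈ L', Dz 2 w)) := by
  have hA0 : 0 < cr u v := hok.pos
  have ha0 := ha.1
  have ha0' := ha'.1
  have e2 : cr l' p' = a' := ad.isArea'.unique ha'
  have hul : cr u l' = 0 := ad.h4
  have hL' : L' = lat l' p' := ad.hL'
  obtain ⟨G, hG0, hG1, hG2⟩ := exists_mult (a := a) (κ := cr u v) ha0 hA0
  have hprim : ∀ r : ℕ, r.Prime → ¬ (r : ℤ) ∣ G → ¬ Dz r u := fun r hr h =>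
    not_dz_of ha hb hr fun h1 => h ((hG1 r hr).2 h1)
  have h0 : ∀ r : ℕ, r.Prime → ¬ (r : ℤ) ∣ G → (r : ℤ) ∣ a → ∃ w ∈ L, ¬ (r : ℤ) ∣ cr v w := by
    intro r hr hrG hra
    obtain ⟨w, hw, h1⟩ := hb.2.2
    exact ⟨w, hw, fun h3 => hrG ((hG1 r hr).2 ⟨by rwa [h1] at h3, hra⟩)⟩
  have hGa : ∀ r : ℕ, r.Prime → (r : ℤ) ∣ G → ¬ (r : ℤ) ∣ a' := by
    intro r hr hrG hra
    obtain ⟨h3, h4⟩ := (hG1 r hr).1 hrG
    have h5 : (r : ℤ) ∣ a + cr u v := dvd_add h4 h3
    exact not_dvd_of_prime hN (x := a + cr u v) (y := a') (by linarith) ha0' hv hr h5 hra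
  have ta : ∀ i : ℤ, IsArea (lat l' (p' + i • u)) a' := by
    intro i
    have h1 : cr l' (p' + i • u) = a' := by
      rw [cr_add_right, cr_smul_right, cr_swap l' u, hul, e2]; ring
    exact ⟨ha0', p' + i • u, l', h1, lat_comm _ _⟩
  have hne : a * a' ≠ 0 := mul_ne_zero ha0.ne' ha0'.ne'
  by_cases hE : (2 : ℤ) ∣ a ∧ Dz 2 l' ∧ Dz 2 p'
  · -- the exceptional case
    obtain ⟨hE1, hE2, hE3⟩ := hE
    have two : ((2 : ℕ) : ℤ) = 2 := rfl
    have hG2' : ¬ ((2 : ℕ) : ℤ) ∣ G := by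
      intro h3
      refine hGa 2 Nat.prime_two h3 ?_
      exact ha'.dvd_of_dz (by rw [hL']; exact dz_lat.2 ⟨hE2, hE3⟩)
    obtain ⟨j, hj⟩ := crt_exists (2 * (a * a')) (mul_ne_zero two_ne_zero hne)
      (fun r j => (r ≠ 2 → ¬ (r : ℤ) ∣ G → WQ L a u v l' p' r (G * (2 * j))) ∧
        (r = 2 → ¬ (Dz 4 l' ∧ Dz 4 (p' + (G * (2 * j)) • u))))
      (fun r hr _ => by
        by_cases h2 : r = 2
        · by_cases h3 : Dz 4 l' ∧ Dz 4 (p' + (G * (2 * (0 : ℤ))) • u)
          · refine ⟨1, fun h => absurd h2 h, fun _ h4 => ?_⟩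
            have h5 := h4.2.sub h3.2
            have e : p' + (G * (2 * (1 : ℤ))) • u - (p' + (G * (2 * (0 : ℤ))) • u) =
                (2 : ℤ) • (G • u) := by module
            rw [e] at h5
            have h8 : Dz 2 (G • u) := by
              rw [Dz.iff] at h5 ⊢
              intro z
              have h6 := h5 z
              rw [cr_smul_left] at h6
              have h7 : (2 : ℤ) * 2 ∣ 2 * cr (G • u) z := by simpa using h6
              exact (mul_dvd_mul_iff_left two_ne_zero).1 h7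
            rcases h8.mul_prime Nat.prime_two with h9 | h9
            · exact hG2' h9
            · exact hprim 2 Nat.prime_two hG2' h9
          · exact ⟨0, fun h => absurd h2 h, fun _ => h3⟩
        · by_cases hrG : (r : ℤ) ∣ G
          · exact ⟨0, fun _ h => absurd hrG h, fun h => absurd h h2⟩
          · rcases WQ.exists_aux (l' := l') (p' := p') hr (h0 r hr hrG) (hprim r hr hrG)
              with h3 | h3
            · obtain ⟨i, hi⟩ := h3
              have h4 : ¬ (r : ℤ) ∣ G * 2 := by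
                intro h4
                have h5 := prime_dvd_of_not hr h4 hrG
                have h6 : r ∣ 2 := by exact_mod_cast h5
                exact h2 ((Nat.prime_dvd_prime_iff_eq hr Nat.prime_two).1 h6)
              obtain ⟨j, hj⟩ := solve_mul hr h4 i
              exact ⟨j, fun _ _ => WQ.congr (by rw [← mul_assoc]; exact hj) hi,
                fun h => absurd h h2⟩
            · exact absurd h3.1 h2)
      (fun r hr _ k k' hkk hQ => by
        refine ⟨fun h2 h3 => WQ.congr ?_ (hQ.1 h2 h3), fun h2 hn => hQ.2 h2 ⟨hn.1, ?_⟩⟩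
        · have e : G * (2 * k') - G * (2 * k) = 2 * G * (k' - k) := by ring
          rw [e]; exact hkk.mul_left _
        · have e : p' + (G * (2 * k)) • u = (p' + (G * (2 * k')) • u) -
              (G * (2 * (k' - k))) • u := by module
          rw [e]
          refine hn.2.sub (Dz.of_dvd ?_ u)
          rw [h2] at hkk
          obtain ⟨m, hm⟩ := hkk
          exact ⟨G * m, by rw [hm, two]; ring⟩)
    have hQ : ∀ r : ℕ, r.Prime → (r : ℤ) ∣ a * a' → r ≠ 2 → ¬ (r : ℤ) ∣ G →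
        WQ L a u v l' p' r (G * (2 * j)) :=
      fun r hr h1 h2 => (hj r hr (h1.mul_left _)).1 h2
    have h4 : ¬ (Dz 4 l' ∧ Dz 4 (p' + (G * (2 * j)) • u)) :=
      (hj 2 Nat.prime_two (by rw [two]; exact dvd_mul_right _ _)).2 rfl
    refine H (G * (2 * j))
      (fun r hr h5 h6 k hk => (hG2 r hr h5 h6 k hk).mul_right _) (fun r hr hra hrκ => ?_)
      (fun d => d = 1 ∨ (d = 2 ∧ (2 : ℤ) ∣ a ∧ ∀ w ∈ L', Dz 2 w)) (fun d hd hdz => ?_)
    · have hrG : ¬ (r : ℤ) ∣ G := fun h => hrκ ((hG1 r hr).1 h).1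
      by_cases h2 : r = 2
      · obtain ⟨w, hw, h3⟩ := h0 r hr hrG hra
        refine ⟨w, hw, fun h5 => h3 ?_⟩
        have e : cr v w = cr (v + (G * (2 * j)) • (u + l')) w -
            2 * (G * j * cr (u + l') w) := by
          simp only [cr_add_left, cr_smul_left]; ring
        rw [e, h2]
        rw [h2] at h5
        exact dvd_sub h5 (by rw [two]; exact dvd_mul_right _ _)
      · exact (hQ r hr (hra.mul_right _) h2 hrG).1 hra
    · have h5 : ∀ r : ℕ, r.Prime → (r : ℤ) ∣ d → r = 2 := by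
        intro r hr hrd
        by_contra h2
        have h6 : ∀ w ∈ lat l' (p' + (G * (2 * j)) • u), Dz r w :=
          fun w hw => (hdz w hw).trans' hrd
        have h7 : (r : ℤ) ∣ a' := (ta (G * (2 * j))).dvd_of_dz h6
        exact (hQ r hr (h7.mul_left _) h2 (fun h => hGa r hr h h7)).2 (dz_lat.1 h6)
      have h6 : ¬ (4 : ℤ) ∣ d := fun h7 =>
        h4 (dz_lat.1 fun w hw => (hdz w hw).trans' h7)
      have h7 : d = 1 ∨ d = 2 := by
        obtain ⟨n, rfl⟩ := Int.eq_ofNat_of_zero_le hd.le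
        have h8 : ∀ r : ℕ, r.Prime → r ∣ n → r = 2 := fun r hr hrn =>
          h5 r hr (Int.natCast_dvd_natCast.2 hrn)
        have h9 : ¬ 4 ∣ n := fun h => h6 (by exact_mod_cast h)
        have h10 : n = 1 ∨ n = 2 := by
          have hn0 : n ≠ 0 := by rintro rfl; simp at hd
          by_cases h11 : n = 1
          · exact Or.inl h11
          · right
            obtain ⟨q, hq, hqn⟩ := Nat.exists_prime_and_dvd h11
            have := h8 q hq hqn
            subst this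
            obtain ⟨m, rfl⟩ := hqn
            by_cases h12 : m = 1
            · rw [h12]
            · obtain ⟨q, hq, hqm⟩ := Nat.exists_prime_and_dvd h12
              have := h8 q hq (hqm.mul_left _)
              subst this
              exact absurd (mul_dvd_mul_left 2 hqm) (by simpa using h9)
        rcases h10 with h | h
        · left; rw [h]; rfl
        · right; rw [h]; rfl
      rcases h7 with h | h
      · exact Or.inl h
      · refine Or.inr ⟨h, hE1, ?_⟩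
        rw [hL']
        exact dz_lat.2 ⟨hE2, hE3⟩
  · obtain ⟨j, hj⟩ := crt_exists (a * a') hne
      (fun r j => ¬ (r : ℤ) ∣ G → WQ L a u v l' p' r (G * j))
      (fun r hr _ => by
        by_cases hrG : (r : ℤ) ∣ G
        · exact ⟨0, fun h => absurd hrG h⟩
        · rcases WQ.exists_aux (l' := l') (p' := p') hr (h0 r hr hrG) (hprim r hr hrG) with h3 | h3
          · obtain ⟨i, hi⟩ := h3
            obtain ⟨j, hj⟩ := solve_mul hr hrG i
            exact ⟨j, fun _ => WQ.congr hj hi⟩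
          · exfalso
            obtain ⟨h4, h5, h6, h7⟩ := h3
            subst h4
            exact hE ⟨h5, h6, h7⟩)
      (fun r _ _ k k' hkk hQ h3 => (hQ h3).congr (by
        rw [← mul_sub]; exact hkk.mul_left _))
    refine H (G * j)
      (fun r hr h5 h6 k hk => (hG2 r hr h5 h6 k hk).mul_right _)
      (fun r hr hra hrκ => (hj r hr (hra.mul_right _) (fun h => hrκ ((hG1 r hr).1 h).1)).1 hra)
      (fun d => d = 1 ∨ (d = 2 ∧ (2 : ℤ) ∣ a ∧ ∀ w ∈ L', Dz 2 w)) (fun d hd hdz => ?_)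
    left
    obtain ⟨n, rfl⟩ := Int.eq_ofNat_of_zero_le hd.le
    by_contra h1
    have h2 : n ≠ 1 := by
      rintro rfl; exact h1 rfl
    obtain ⟨r, hr, hrn⟩ := Nat.exists_prime_and_dvd h2
    have h6 : ∀ w ∈ lat l' (p' + (G * j) • u), Dz r w :=
      fun w hw => (hdz w hw).trans' (Int.natCast_dvd_natCast.2 hrn)
    have h7 : (r : ℤ) ∣ a' := (ta (G * j)).dvd_of_dz h6
    exact (hj r hr (h7.mul_left _) (fun h => hGa r hr h h7)).2 (dz_lat.1 h6)

/-- WC+ when the gap `κ = A` cannot become smaller by H-twists -/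
theorem SEq.wcm_aux {N : ℕ} (hN : N.Prime) {L L' : AddSubgroup Z2} {u v l p l' p' : Z2}
    {a a' c : ℤ} (hok : PSt.Ok ⟨L, u, v, L'⟩) (ad : Ad ⟨L, u, v, L'⟩ l p l' p') (ha : IsArea L a)
    (ha' : IsArea L' a') (hv : a + cr u v + a' = N) (hb : IsC L v (cr u v))
    (h2 : ∀ r : ℕ, r.Prime → (r : ℤ) ∣ cr u v → ¬ (r : ℤ) ∣ a' → ¬ Dz r u)
    (hc : IsC L' u c) (hle : cr u v ≤ c) {i : ℤ}
    (hmin : ∀ d : ℤ, IsC L (v + i • (u + l')) d → cr u v ≤ d)
    (hi : ∀ r : ℕ, r.Prime → (r : ℤ) ∣ cr u v → (r : ℤ) ∣ a → ∀ k : ℕ, (r : ℤ) ^ k ∣ cr u v →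
      (r : ℤ) ^ (k + 1) ∣ i)
    (hw : ∀ r : ℕ, r.Prime → (r : ℤ) ∣ a → ¬ (r : ℤ) ∣ cr u v →
      ∃ w ∈ L, ¬ (r : ℤ) ∣ cr (v + i • (u + l')) w)
    {P : ℤ → Prop} (hP : ∀ d : ℤ, 0 < d → (∀ w ∈ lat l' (p' + i • u), Dz d w) → P d) :
    ∃ (T : PSt) (d : ℤ), SEq ⟨L, u, v, L'⟩ T ∧ IsC T.L T.v d ∧ P d := by
  have hA0 : 0 < cr u v := hok.pos
  have ha0' := ha'.1
  have e1 : cr u p' = c := ad.isC'.unique hc
  have e2 : cr l' p' = a' := ad.isArea'.unique ha'
  have hul : cr u l' = 0 := ad.h4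
  have tw : SEq ⟨L, u, v, L'⟩ ⟨L, u, v + i • (u + l'), lat l' (p' + i • u)⟩ :=
    ad.twH hok (by show cr u v ≤ cr u p'; rw [e1]; exact hle) i
  have ta : IsArea (lat l' (p' + i • u)) a' := by
    have h1 : cr l' (p' + i • u) = a' := by
      rw [cr_add_right, cr_smul_right, cr_swap l' u, hul, e2]; ring
    exact ⟨ha0', p' + i • u, l', h1, lat_comm _ _⟩
  have tA : cr u (v + i • (u + l')) = cr u v := by
    rw [cr_add_right, cr_smul_right, cr_add_right, cr_self, hul]; ring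
  obtain ⟨l2, p2, l2', p2', ad2⟩ := exists_Ad tw.ok'
  have hbi : IsC L (v + i • (u + l')) (cr p2 (v + i • (u + l'))) := ad2.isC
  set vi := v + i • (u + l') with hvi
  set b := cr p2 vi with hbdef
  have key1 : ∀ r : ℕ, r.Prime → (r : ℤ) ∣ a → (r : ℤ) ∣ b → (r : ℤ) ∣ cr u v := by
    intro r hr hra hrb
    by_contra hn
    obtain ⟨w, hw1, hw2⟩ := hw r hr hra hn
    exact hw2 (hrb.trans (hbi.2.1 w hw1))
  have e3 : ∀ w, cr v w = cr vi w - i * cr (u + l') w := by
    intro w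
    rw [hvi]
    simp only [cr_add_left, cr_smul_left]; ring
  have hbA : b ∣ cr u vi := by
    refine dvd_of_prime_pow fun r k hr hk => ?_
    rcases Nat.eq_zero_or_pos k with h0 | h0
    · rw [h0, pow_zero]; exact one_dvd _
    by_cases hra : (r : ℤ) ∣ a
    · have hrκ := key1 r hr hra ((dvd_pow_self _ h0.ne').trans hk)
      obtain ⟨j, m, h3, h4⟩ := exists_val hr hA0
      have hj : (r : ℤ) ^ j ∣ cr u v := by
        conv_rhs => rw [h3]
        exact dvd_mul_right _ _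
      rw [tA]
      by_contra hn
      have hjk : j + 1 ≤ k := by
        by_contra h5
        exact hn ((pow_dvd_pow _ (by omega)).trans hj)
      refine not_pow_succ_dvd hr h3 h4 ?_
      obtain ⟨w, hw1, hw2⟩ := hb.2.2
      rw [← hw2, e3 w]
      exact dvd_sub (((pow_dvd_pow _ hjk).trans hk).trans (hbi.2.1 w hw1))
        ((hi r hr hrκ hra j hj).mul_right _)
    · exact (Dz.of_isC ha hbi hr hra hk).cr_right u
  have hbκ : b = cr u v := by
    rw [tA] at hbA
    exact le_antisymm (Int.le_of_dvd hA0 hbA) (hmin b hbi)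
  have hDz : Dz (cr u vi) ((a + cr u vi) • vi) := by
    rw [Dz.iff]
    intro z
    rw [cr_smul_left, add_mul]
    refine dvd_add ?_ (dvd_mul_right _ _)
    have h3 := hbi.2.1 _ (ha.smul_mem z)
    rwa [cr_smul_right, hbκ, ← tA] at h3
  obtain ⟨Di, hDi⟩ := hDz
  obtain ⟨L1, u1, d, m1, m2, m3, m4, m5, m6⟩ := SEq.xone2 hN tw.ok' ha ta
    (by rw [tA]; exact hv) (by rw [tA, ← hbκ]; exact hbi) hDi.symm (fun r hr h3 h4 h5 => by
      rw [tA] at h3
      exact h2 r hr h3 h4 h5.1)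
  have m8 := SEq.mirror (L := L1) (L' := lat l' (p' + i • u)) (u := u1) (v := vi) m1.ok'
  exact ⟨_, d, (tw.trans m1).trans m8, m5.neg, hP d m5.1 m6⟩

/-- WC+ when the gap `κ = A` cannot become smaller -/
theorem SEq.wcm {N : ℕ} (hN : N.Prime) {L L' : AddSubgroup Z2} {u v : Z2}
    {a a' c : ℤ} (hok : PSt.Ok ⟨L, u, v, L'⟩) (ha : IsArea L a)
    (ha' : IsArea L' a') (hv : a + cr u v + a' = N) (hb : IsC L v (cr u v))
    (h2 : ∀ r : ℕ, r.Prime → (r : ℤ) ∣ cr u v → ¬ (r : ℤ) ∣ a' → ¬ Dz r u)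
    (hc : IsC L' u c) (hle : cr u v ≤ c)
    (hmin : ∀ (v1 : Z2) (M : AddSubgroup Z2) (d : ℤ), SEq ⟨L, u, v, L'⟩ ⟨L, u, v1, M⟩ →
      cr u v1 = cr u v → IsC L v1 d → cr u v ≤ d) :
    ∃ (T : PSt) (d : ℤ), SEq ⟨L, u, v, L'⟩ T ∧ IsC T.L T.v d ∧
      (d = 1 ∨ (d = 2 ∧ (2 : ℤ) ∣ a ∧ ∀ w ∈ L', Dz 2 w)) := by
  obtain ⟨l, p, l', p', ad⟩ := exists_Ad hok
  refine SEq.wcp_core hN hok ad ha ha' hv hb fun i hi hw P hP => ?_
  refine SEq.wcm_aux hN hok ad ha ha' hv hb h2 hc hle (fun d hd => ?_) hi hw hP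
  have hul : cr u l' = 0 := ad.h4
  refine hmin _ _ d (ad.twH hok (by show cr u v ≤ cr u p'; rw [ad.isC'.unique hc]; exact hle) i)
    ?_ hd
  show cr u (v + i • (u + l')) = cr u v
  rw [cr_add_right, cr_smul_right, cr_add_right, cr_self, hul]; ring

/-- The frame ExtB with `gcd (L' × u) = A` contains a gap `1` or `2`. -/
theorem ExtB.cA {N : ℕ} (hN : N.Prime) {S : PSt} {a' b c a : ℤ} (h : ExtB S a' b c)
    (ha : IsArea S.L a) (hv : a + cr S.u S.v + a' = N) (hcA : c = cr S.u S.v) :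
    ∃ (T : PSt) (d : ℤ), SEq S T ∧ IsC T.L T.v d ∧ d ≤ 2 := by
  obtain ⟨L, u, v, L'⟩ := S
  dsimp only at hcA ha hv
  have hok := h.ok
  have hc := h.hc
  have hb := h.hb
  have hA := h.hA
  dsimp only at hc hb hA
  have m1 := SEq.mirror (L := L) (L' := L') (u := u) (v := v) hok
  have e1 : cr v (-u) = cr u v := by rw [cr_neg_right, cr_swap v u, neg_neg]
  obtain ⟨T, d, k1, k2, k3⟩ := SEq.wcm hN m1.ok' h.ha' ha (by rw [e1]; linarith)
    (by rw [e1, ← hcA]; exact hc.neg) (fun r hr h1 h3 h4 => by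
      rw [e1] at h1
      -- `r ∣ v`, hence `r ∣ b` and `r ∣ a`
      obtain ⟨l, p, l', p', ad⟩ := exists_Ad hok
      have f1 := ad.area
      have f2 : cr p v = b := ad.isC.unique hb
      have f3 : cr p l = a := ad.isArea.unique ha
      have f4 : (r : ℤ) ∣ b := by rw [← f2]; exact h4.cr_right p
      have f5 : cr u v ∣ cr u v + cr u l := by
        have := h.K_int ad
        rwa [hcA] at this
      have f6 : cr u v ∣ cr u l := (dvd_add_right (dvd_refl _)).1 f5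
      obtain ⟨y, hy⟩ := f6
      have hA0 : 0 < cr u v := hok.pos
      dsimp only at f1
      rw [f2, f3, hy] at f1
      have f7 : a = y * b := by
        refine mul_left_cancel₀ hA0.ne' ?_
        linear_combination f1
      exact h3 (by rw [f7]; exact f4.mul_left _))
    hb (by rw [e1]; exact hA) (fun v1 M d n1 n2 n3 => by
      rw [e1]
      rw [e1] at n2
      -- back: `(M, -v1, v, L')`
      have n4 := SEq.mirror (L := L') (L' := M) (u := v) (v := v1) n1.ok'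
      have n5 := SEq.neg n4.ok'
      rw [neg_neg] at n5
      have n6 : SEq ⟨L, u, v, L'⟩ ⟨M, -v1, v, L'⟩ := (m1.trans n1).trans (n4.trans n5)
      have n7 := h.leA n6 h.ha' h.con (d := d) n3.neg
      dsimp only at n7
      rw [cr_neg_left, cr_swap v1 v, neg_neg, n2] at n7
      exact n7)
  exact ⟨T, d, m1.trans k1, k2, by rcases k3 with h | h <;> omega⟩

end Pool.Agent.H4G
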