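import Pool.Agent.H4G.Arith.HL

/-!
# Case D of helper23 (the defect case `u = 0 mod 2`) in the frame ExtB (helper5)
-/

set_option autoImplicit false

namespace Pool.Agent.H4G

/-- a state of the family: left gap `2 b`, `u × v = A₁`, right gap `d` -/
structure GD (S : PSt) (a' b a₀ A₁ B₀ : ℤ) (R : PSt) (d : ℤ) : Prop where
  seq : SEq S R
  ha' : IsArea R.L' a'
  con : Con1 R.L'
  ha : IsArea R.L a₀
  hb : IsC R.L R.v (2 * b)
  hA : cr R.u R.v = A₁
  hc : IsC R.L' R.u d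
  dvd : d ∣ B₀

namespace GD

variable {S R : PSt} {a' b a₀ A₁ B₀ d : ℤ} {l p l' p' : Z2}

theorem eb (g : GD S a' b a₀ A₁ B₀ R d) (ad : Ad R l p l' p') : cr p R.v = 2 * b :=
  ad.isC.unique g.hb

theorem ec (g : GD S a' b a₀ A₁ B₀ R d) (ad : Ad R l p l' p') : cr R.u p' = d :=
  ad.isC'.unique g.hc

theorem ea' (g : GD S a' b a₀ A₁ B₀ R d) (ad : Ad R l p l' p') : cr l' p' = a' :=
  ad.isArea'.unique g.ha'

theorem ea (g : GD S a' b a₀ A₁ B₀ R d) (ad : Ad R l p l' p') : cr p l = a₀ :=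
  ad.isArea.unique g.ha

/-- V-twists stay in the family -/
theorem twV (g : GD S a' b a₀ A₁ B₀ R d) (ad : Ad R l p l' p') (hAb : A₁ ≤ 2 * b) (j : ℤ)
    (hd : ((Int.gcd (j * cr (R.v + l) l') (d - j * cr (R.v + l) p') : ℕ) : ℤ) ∣ B₀) :
    GD S a' b a₀ A₁ B₀ ⟨lat l (p - j • R.v), R.u - j • (R.v + l), R.v, R.L'⟩
      ((Int.gcd (j * cr (R.v + l) l') (d - j * cr (R.v + l) p') : ℕ) : ℤ) := by
  have hb0 : 0 < 2 * b := g.hb.1
  refine ⟨?_, g.ha', g.con, ?_, ?_, ?_, ad.gapV (g.ec ad) j, hd⟩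
  · exact g.seq.trans (ad.twV g.seq.ok' (by rw [g.hA, g.eb ad]; exact hAb) j)
  · have : cr (p - j • R.v) l = a₀ := by
      rw [cr_sub_left, cr_smul_left, cr_swap R.v l, ad.h1, g.ea ad]; ring
    exact ⟨g.ha.1, l, p - j • R.v, this, rfl⟩
  · have : cr (p - j • R.v) R.v = 2 * b := by
      rw [cr_sub_left, cr_smul_left, cr_self, g.eb ad]; ring
    dsimp only
    rw [← this]
    exact isC_of_par ad.h1 (by rw [this]; exact hb0)
  · dsimp only
    rw [cr_sub_left, cr_smul_left, cr_add_left, cr_self, ad.h1, g.hA]; ring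

/-- rigidity of the odd part of `b` -/
theorem rig (g : GD S a' b a₀ A₁ B₀ R d) {c : ℤ} (h : ExtB S a' b c) (ad : Ad R l p l' p')
    {r k : ℕ} (hr : r.Prime) (hr2 : r ≠ 2) (hk : (r : ℤ) ^ k ∣ b) :
    (r : ℤ) ^ k ∣ cr (R.u + l') l ∧ (r : ℤ) ^ k ∣ cr (R.u + l') p := by
  have hcl : Con1 (lat l' p') := by rw [← ad.hL']; exact g.con
  have hAd : cr R.u R.v ≤ cr R.u p' := by
    rw [g.ec ad]; exact h.leA g.seq g.ha' g.con g.hc
  refine crt_minB g.hb.1 ad.X_ne h.ha'.1.ne' (Alw l' p' R.u) (fun r hr => Alw.zero hcl hr)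
    (fun r _ k k' hkk => Alw.per hkk) hr hr2 (Alw.exists_odd hcl hr hr2) (fun i hi => ?_)
    (hk.mul_left 2)
  have t1 := ad.twH g.seq.ok' hAd i
  have t2 := ad.gapH (g.eb ad) i
  have t3 : IsArea (lat l' (p' + i • R.u)) a' := by
    have h1 : cr l' (p' + i • R.u) = cr l' p' := by
      rw [cr_add_right, cr_smul_right, cr_swap l' R.u, ad.h4]; ring
    exact ⟨h.ha'.1, p' + i • R.u, l', by rw [h1, g.ea' ad], lat_comm _ _⟩
  have t4 : Con1 (lat l' (p' + i • R.u)) := con1_of_alw ad.h4 (g.ea' ad) hi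
  have := h.min _ _ (g.seq.trans t1) t3 t4 t2
  linarith

/-- rigidity in terms of `u × w` -/
theorem rigW (g : GD S a' b a₀ A₁ B₀ R d) {c : ℤ} (h : ExtB S a' b c)
    {r k : ℕ} (hr : r.Prime) (hr2 : r ≠ 2) (hk : (r : ℤ) ^ k ∣ b) {w : Z2} (hw : w ∈ R.L) :
    (r : ℤ) ^ k * d ∣ (d + a') * cr R.u w := by
  obtain ⟨l, p, l', p', ad⟩ := exists_Ad g.seq.ok'
  obtain ⟨h1, h2⟩ := g.rig h ad hr hr2 hk
  have h3 : (r : ℤ) ^ k ∣ cr (R.u + l') w := by
    rw [ad.hL] at hw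
    obtain ⟨m, n, rfl⟩ := mem_lat.1 hw
    rw [cr_add_right, cr_smul_right, cr_smul_right]
    exact dvd_add (h1.mul_left _) (h2.mul_left _)
  have h4 := ad.cr_W w
  rw [g.ec ad, g.ea' ad] at h4
  rw [← h4]
  exact mul_dvd_mul_right h3 d

end GD

/-- if `2^(i+2) ∣ x y` and `2^(i+1) ∤ x` then `4 ∣ y` -/
theorem four_dvd_aux {i : ℕ} {x y : ℤ} (h : (2 : ℤ) ^ (i + 2) ∣ x * y)
    (hx : ¬ (2 : ℤ) ^ (i + 1) ∣ x) : (4 : ℤ) ∣ y := by
  have hx0 : x ≠ 0 := by rintro rfl; exact hx (dvd_zero _)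
  obtain ⟨s, M, hM, hM2⟩ := exists_pow_mul Nat.prime_two hx0
  push_cast at hM hM2
  have hs : s ≤ i := by
    by_contra hn
    push Not at hn
    apply hx
    rw [hM]
    exact (pow_dvd_pow 2 (by omega)).mul_right M
  have h1 : (2 : ℤ) ^ (i + 2 - s) ∣ M * y := by
    have e : (2 : ℤ) ^ (i + 2) = 2 ^ s * 2 ^ (i + 2 - s) := by
      rw [← pow_add]; congr 1; omega
    rw [hM, e, mul_assoc] at h
    exact (mul_dvd_mul_iff_left (by positivity)).1 h
  have h2 : IsCoprime ((2 : ℤ) ^ (i + 2 - s)) M := by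
    have := isCoprime_of_not_dvd (p := 2) (x := M) Nat.prime_two (by exact_mod_cast hM2)
    exact (by exact_mod_cast this : IsCoprime (2 : ℤ) M).pow_left
  have h3 := h2.dvd_of_dvd_mul_left h1
  have h4 : (4 : ℤ) = 2 ^ 2 := by norm_num
  rw [h4]
  exact (pow_dvd_pow 2 (by omega)).trans h3

/-- a class prime to `r` which keeps the gap -/
theorem exists_unit_j {r : ℕ} (hr : r.Prime) (hr2 : r ≠ 2) {b1 b2 : ℤ} (hb1 : b1 ≠ 0) :
    ∃ j : ℤ, ¬ (r : ℤ) ∣ j ∧ (Int.gcd (j * b1) (1 - j * b2) : ℤ) = 1 := by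
  have hri := Nat.prime_iff_prime_int.1 hr
  have hr3 : (3 : ℤ) ≤ r := by
    have := hr.two_le
    omega
  obtain ⟨j0, h1, h2⟩ : ∃ j0 : ℤ, ¬ (r : ℤ) ∣ j0 ∧ ¬ (r : ℤ) ∣ 1 - j0 * b2 := by
    by_cases h9 : (r : ℤ) ∣ 1 - 1 * b2
    · refine ⟨2, fun h8 => ?_, fun h8 => ?_⟩
      · have := Int.le_of_dvd (by norm_num) h8
        omega
      · have h7 := dvd_sub h8 h9
        have e : 1 - 2 * b2 - (1 - 1 * b2) = -b2 := by ring
        rw [e] at h7
        have h6 := dvd_sub h9 h7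
        have e2 : 1 - 1 * b2 - -b2 = 1 := by ring
        rw [e2] at h6
        exact prime_not_dvd_one hr h6
    · exact ⟨1, prime_not_dvd_one hr, h9⟩
  obtain ⟨s, M, hM, hM2⟩ := exists_pow_mul hr hb1
  obtain ⟨j1, hj1⟩ := exists_mul_class hr hM2 j0
  refine ⟨M * j1, fun h9 => ?_, ?_⟩
  · apply h1
    have := dvd_sub h9 hj1
    rwa [sub_sub_cancel] at this
  · have hcop : IsCoprime (M * j1 * b1) (1 - M * j1 * b2) := by
      refine isCoprime_of_prime fun q hq hd1 hd2 => ?_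
      have hqi := Nat.prime_iff_prime_int.1 hq
      have hj : ¬ (q : ℤ) ∣ M * j1 := by
        intro h9
        have := dvd_add hd1 (h9.mul_right b2)
        rw [sub_add_cancel] at this
        exact prime_not_dvd_one hq this
      have hb : (q : ℤ) ∣ b1 := (hqi.dvd_or_dvd hd2).resolve_left hj
      by_cases hqr : q = r
      · subst hqr
        apply h2
        have := dvd_add hd1 (hj1.mul_right b2)
        have e : 1 - M * j1 * b2 + (M * j1 - j0) * b2 = 1 - j0 * b2 := by ring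
        rwa [e] at this
      · rw [hM] at hb
        rcases hqi.dvd_or_dvd hb with h9 | h9
        · have h8 := hqi.dvd_of_dvd_pow h9
          rw [Int.natCast_dvd_natCast] at h8
          exact hqr ((Nat.prime_dvd_prime_iff_eq hq hr).1 h8)
        · exact hj (h9.mul_right j1)
    have := Int.isCoprime_iff_gcd_eq_one.1 hcop
    exact_mod_cast this

namespace GD

variable {S R : PSt} {a' b a₀ A₁ B₀ d : ℤ} {l p l' p' : Z2}

/-- `2 b l_R = a₀ v_R` -/
theorem par (g : GD S a' b a₀ A₁ B₀ R d) (ad : Ad R l p l' p') :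
    (2 * b) • l = a₀ • R.v := by
  have h := cr_dep p l R.v
  rw [ad.h1, zero_smul, zero_add, g.ea ad, cr_swap R.v p, g.eb ad, neg_smul] at h
  have := eq_neg_of_add_eq_zero_right h
  rw [this, neg_neg]

/-- the minimal right gap divides `A₁` -/
theorem dvdA (g : GD S a' b a₀ A₁ B₀ R d) (hmin : ∀ d' R', GD S a' b a₀ A₁ B₀ R' d' → d ≤ d')
    (hAb : A₁ ≤ 2 * b) (hd2 : ¬ (2 : ℤ) ∣ B₀)
    (hR : ∀ r : ℕ, r.Prime → (r : ℤ) ∣ a' → (∃ m : ℕ, (r : ℤ) ^ m ∣ a₀ + 2 * b ∧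
      ¬ (r : ℤ) ^ m ∣ b) → ∀ k : ℕ, (r : ℤ) ^ k ∣ B₀ → (r : ℤ) ^ k ∣ A₁) : d ∣ A₁ := by
  obtain ⟨l, p, l', p', ad⟩ := exists_Ad g.seq.ok'
  have hd0 : 0 < d := g.hc.1
  have hA : 0 < A₁ := by rw [← g.hA]; exact ad.hA
  have ha0 : 0 < a₀ := g.ha.1
  have hb0 : 0 < 2 * b := g.hb.1
  have hV : d ∣ cr (R.v + l) l' ∧ d ∣ cr (R.v + l) p' := by
    refine crt_minD hd0 ad.B_ne fun j hj => ?_
    exact hmin _ _ (g.twV ad hAb j (hj.trans g.dvd))
  have hVw : ∀ w ∈ R.L', d ∣ cr (R.v + l) w := by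
    intro w hw
    rw [ad.hL'] at hw
    obtain ⟨m, n, rfl⟩ := mem_lat.1 hw
    rw [cr_add_right, cr_smul_right, cr_smul_right]
    exact dvd_add (hV.1.mul_left _) (hV.2.mul_left _)
  have hVw2 : ∀ w ∈ R.L', 2 * b * d ∣ (a₀ + 2 * b) * cr R.v w := by
    intro w hw
    have e : (2 * b) * cr (R.v + l) w = (a₀ + 2 * b) * cr R.v w := by
      have h1 : cr ((2 * b) • l) w = cr (a₀ • R.v) w := by rw [g.par ad]
      rw [cr_smul_left, cr_smul_left] at h1
      rw [cr_add_left]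
      linear_combination h1
    rw [← e]
    exact mul_dvd_mul_left _ (hVw w hw)
  refine dvd_of_prime_pow fun r k hr hk => ?_
  have hri := Nat.prime_iff_prime_int.1 hr
  rcases Nat.eq_zero_or_pos k with rfl | hk0
  · simp
  have hr2 : r ≠ 2 := by
    rintro rfl
    exact hd2 (((dvd_pow_self ((2 : ℕ) : ℤ) hk0.ne').trans hk).trans g.dvd)
  by_cases hra : (r : ℤ) ∣ a'
  · by_cases hex : ∃ m : ℕ, (r : ℤ) ^ m ∣ a₀ + 2 * b ∧ ¬ (r : ℤ) ^ m ∣ b
    · exact hR r hr hra hex k (hk.trans g.dvd)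
    · push Not at hex
      obtain ⟨s, M, hM, hM2⟩ := exists_pow_mul hr (x := a₀ + 2 * b) (by omega)
      have hsb : (r : ℤ) ^ s ∣ b := hex s (by rw [hM]; exact dvd_mul_right _ _)
      have hrv : ∀ w ∈ R.L', (r : ℤ) ^ k ∣ cr R.v w := by
        intro w hw
        have h1 : (r : ℤ) ^ s * (r : ℤ) ^ k ∣ (r : ℤ) ^ s * (M * cr R.v w) := by
          have h2 := hVw2 w hw
          rw [hM, mul_assoc ((r : ℤ) ^ s)] at h2
          exact (mul_dvd_mul (hsb.mul_left 2) hk).trans h2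
        have h3 := (mul_dvd_mul_iff_left (pow_ne_zero _ hri.ne_zero)).1 h1
        exact (isCoprime_pow_prime hr hM2 k).dvd_of_dvd_mul_left h3
      refine g.con.dvd (pow_ne_zero _ hri.ne_zero) fun w hw => ?_
      have g1 := cr_dep R.u R.v w
      have g3 : (r : ℤ) ^ k ∣ cr w R.u := by
        rw [cr_swap w R.u]
        exact (dvd_neg).2 (hk.trans (g.hc.2.1 w hw))
      have g4 : A₁ • w = -(cr R.v w • R.u + cr w R.u • R.v) := by
        rw [← g.hA]
        exact eq_neg_of_add_eq_zero_right g1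
      rw [g4]
      exact ((Dz.of_dvd (hrv w hw) _).add (Dz.of_dvd g3 _)).neg
  · have h1 := hk.trans (g.hc.2.1 _ (g.ha'.smul_mem R.v))
    rw [cr_smul_right, g.hA] at h1
    exact (isCoprime_pow_prime hr hra k).dvd_of_dvd_mul_left h1

/-- `L_R` is divisible by the odd part of `b` when the right gap is `A₁` -/
theorem full {N : ℕ} (hN : N.Prime) {c : ℤ} (h : ExtB S a' b c) {l p l' p' : Z2}
    (ad : Ad S l p l' p') (hv : cr p l + cr S.u S.v + cr l' p' = N)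
    (g : GD S a' b (cr p l - b) (cr S.u S.v + b) B₀ R (cr S.u S.v + b))
    {r k : ℕ} (hr : r.Prime) (hr2 : r ≠ 2) (hk0 : 1 ≤ k) (hk : (r : ℤ) ^ k ∣ b)
    (hW : (r : ℤ) ∣ c → (r : ℤ) ∣ a' → ¬ (r : ℤ) ∣ B₀) :
    ∀ w ∈ R.L, ∀ z, (r : ℤ) ^ k ∣ cr w z := by
  have hri := Nat.prime_iff_prime_int.1 hr
  have E3 : cr l' p' = a' := ad.isArea'.unique h.ha'
  have hrig := fun w hw => g.rigW h hr hr2 hk (w := w) hw
  have hA1 : 0 < cr R.u R.v := by
    rw [g.hA]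
    have := ad.hA
    have := h.bpos
    omega
  have hc' : IsC R.L' R.u (cr R.u R.v) := by rw [g.hA]; exact g.hc
  rcases f3 hN hA1 g.ha g.ha' (by rw [g.hA, ← hv, E3]; ring) g.hb hc' hr (hk.mul_left 2)
    (fun _ w hw => by rw [g.hA]; exact hrig w hw) with ⟨n1, n2⟩ | n1
  · exfalso
    have hrb : (r : ℤ) ∣ b := (dvd_pow_self _ (by omega)).trans hk
    have hra : ¬ (r : ℤ) ∣ cr p l := fun h9 => n1 (dvd_sub h9 hrb)
    have hrA1 : (r : ℤ) ∣ cr S.u S.v + b := by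
      have h1 : (r : ℤ) ^ k ∣ cr R.u R.v := by
        rw [cr_swap R.u R.v]
        exact (dvd_neg).2 (n2 _)
      rw [g.hA] at h1
      exact (dvd_pow_self _ (by omega)).trans h1
    by_cases hra' : (r : ℤ) ∣ a'
    · by_cases hrc : (r : ℤ) ∣ c
      · exact hW hrc hra' (hrA1.trans g.dvd)
      · apply hrc
        have h1 : ∀ w ∈ S.L, (r : ℤ) ∣ cr S.u w := by
          intro w hw
          have h2 := h.hrigAt_mul h.ok.seq h.ha' h.con h.hb h.hc hr (Or.inl hr2) (k := 1)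
            (by rw [pow_one]; exact hrb) hw
          have h3 : (r : ℤ) ∣ (c + a') * cr S.u w := by
            refine dvd_trans ?_ h2
            rw [pow_one]; exact dvd_mul_right _ _
          rcases hri.dvd_or_dvd h3 with h4 | h4
          · exact absurd ((dvd_add_left hra').1 h4) hrc
          · exact h4
        have h5 := h1 _ (ad.isArea.smul_mem p')
        rw [cr_smul_right, ad.isC'.unique h.hc] at h5
        exact (hri.dvd_or_dvd h5).resolve_left hra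
    · -- `r` does not divide `a'`
      obtain ⟨t, M, hM, hM2⟩ := exists_pow_mul hr (x := cr S.u S.v + b) (by
        rw [← g.hA]; exact hA1.ne')
      have h1 : ¬ (r : ℤ) ∣ (cr S.u S.v + b) + a' := fun h9 => hra' ((dvd_add_right hrA1).1 h9)
      have h2 := hrig _ (g.ha.smul_mem R.v)
      rw [cr_smul_right, g.hA] at h2
      have h3 : (r : ℤ) ^ (k + t) ∣ (cr S.u S.v + b + a') *
          ((cr p l - b) * (cr S.u S.v + b)) := by
        refine dvd_trans ?_ h2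
        rw [pow_add]
        exact mul_dvd_mul_left _ (Dvd.intro _ hM.symm)
      have h4 := (isCoprime_pow_prime hr h1 (k + t)).dvd_of_dvd_mul_left h3
      have h5 := (isCoprime_pow_prime hr n1 (k + t)).dvd_of_dvd_mul_left h4
      rw [hM, Nat.add_comm, pow_add] at h5
      have h6 : (r : ℤ) ^ k ∣ M := (mul_dvd_mul_iff_left (pow_ne_zero _ hri.ne_zero)).1 h5
      exact hM2 ((dvd_pow_self _ (by omega)).trans h6)
  · exact n1

end GD

/-- **CASE D** (helper23): the defect case `u = 0 mod 2` -/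
theorem ExtB.caseD {N : ℕ} (hN : N.Prime) {S : PSt} {a' b c : ℤ} (h : ExtB S a' b c)
    {l p l' p' : Z2} (ad : Ad S l p l' p') (hv : cr p l + cr S.u S.v + cr l' p' = N)
    (hb3 : 3 ≤ b) {o j τ q B0 : ℤ} (ho : o = 1 ∨ o = -1) (hq : q = o - 2 * j)
    (h1 : cr p S.v < o * ((τ + j) * cr S.u l + (cr S.u p +
      j * (cr p l + cr p S.v - cr S.u S.v))))
    (h2 : o * ((τ + j) * cr S.u l + (cr S.u p + j * (cr p l + cr p S.v - cr S.u S.v))) ≤
      cr p l)
    (hB0 : IsC S.L' (S.u + q • S.v + τ • l + p) B0) (hB2 : ¬ (2 : ℤ) ∣ B0)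
    (hu2 : Dz 2 S.u) {i : ℕ} (hc2 : (2 : ℤ) ^ (i + 2) ∣ c)
    (hA2 : ¬ (2 : ℤ) ^ (i + 1) ∣ cr S.u S.v)
    (hW : ∀ r : ℕ, r.Prime → (r : ℤ) ∣ c → (r : ℤ) ∣ a' → ¬ (r : ℤ) ∣ B0)
    (hR : ∀ r : ℕ, r.Prime → (r : ℤ) ∣ a' → (∃ m : ℕ, (r : ℤ) ^ m ∣ cr p l + b ∧
      ¬ (r : ℤ) ^ m ∣ b) → ∀ k : ℕ, (r : ℤ) ^ k ∣ B0 → (r : ℤ) ^ k ∣ cr S.u S.v + b) :
    False := by
  have E1 : cr p S.v = b := ad.isC.unique h.hb
  have E2 : cr S.u p' = c := ad.isC'.unique h.hc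
  have E3 : cr l' p' = a' := ad.isArea'.unique h.ha'
  have hb0 := h.bpos
  have hA0 : 0 < cr S.u S.v := ad.hA
  have hAb : cr S.u S.v ≤ b := h.hA
  have ha0' : 0 < a' := h.ha'.1
  have area := ad.area
  have area' := ad.area'
  rw [E1] at area
  rw [E2, E3] at area'
  -- parities
  have ha'4 : (4 : ℤ) ∣ a' := by
    refine four_dvd_aux (i := i) (x := cr S.u S.v) ?_ hA2
    rw [mul_comm, area']
    exact hc2.mul_left _
  have ha'2 : (2 : ℤ) ∣ a' := (by norm_num : (2 : ℤ) ∣ 4).trans ha'4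
  have hAe : (2 : ℤ) ∣ cr S.u S.v := hu2.cr_left _
  have hfe : (2 : ℤ) ∣ cr S.u p := hu2.cr_left _
  have haodd : ¬ (2 : ℤ) ∣ cr p l := by
    intro h9
    have h8 : (2 : ℤ) ∣ (N : ℤ) := by
      rw [← hv, E3]
      exact dvd_add (dvd_add h9 hAe) ha'2
    have h7 : (2 : ℕ) ∣ N := by exact_mod_cast h8
    have h6 := (Nat.prime_dvd_prime_iff_eq Nat.prime_two hN).1 h7
    have h5 : cr p l + cr S.u S.v + cr l' p' = 2 := by rw [hv, ← h6]; norm_num
    have := ad.pos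
    rw [E3] at h5
    have := Int.le_of_dvd hA0 hAe
    have := Int.le_of_dvd ha0' ha'2
    omega
  have hab4 : (4 : ℤ) ∣ cr p l + b := by
    refine four_dvd_aux (i := i) (x := cr S.u S.v) ?_ hA2
    have e : cr S.u S.v * (cr p l + b) = b * (cr S.u S.v + cr S.u l) := by
      linear_combination area
    rw [e]
    exact (hc2.trans (h.K_int ad)).mul_left b
  have hbodd : ¬ (2 : ℤ) ∣ b := by
    intro h9
    exact haodd ((dvd_add_left h9).1 ((by norm_num : (2 : ℤ) ∣ 4).trans hab4))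
  have hA1odd : ¬ (2 : ℤ) ∣ cr S.u S.v + b := fun h9 => hbodd ((dvd_add_right hAe).1 h9)
  have hba : b < cr p l := by
    have h9 := lt_of_lt_of_le h1 h2
    rwa [E1] at h9
  -- `b l = a v`
  have hpar : b • l = cr p l • S.v := by
    have h9 := cr_dep p l S.v
    rw [ad.h1, zero_smul, zero_add, cr_swap S.v p, E1, neg_smul] at h9
    have := eq_neg_of_add_eq_zero_right h9
    rw [this, neg_neg]
  have hlv : Dz 2 (l - S.v) := by
    refine Dz.of_coprime (k := b) ?_ ?_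
    · have := isCoprime_of_not_dvd (p := 2) (x := b) Nat.prime_two (by exact_mod_cast hbodd)
      exact_mod_cast this
    · have e : b • (l - S.v) = (cr p l - b) • S.v := by
        rw [smul_sub, hpar, sub_smul]
      rw [e]
      exact Dz.of_dvd (by omega) _
  -- the exit state
  have hq' : q = o - j * (1 + 1) := by rw [hq]; ring
  have h1' : 1 * cr p S.v < o * ((τ + j) * cr S.u l + 1 * (cr S.u p +
      j * (cr p l + cr p S.v - cr S.u S.v))) := by rw [one_mul, one_mul]; exact h1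
  have h2' : o * ((τ + j) * cr S.u l + 1 * (cr S.u p +
      j * (cr p l + cr p S.v - cr S.u S.v))) ≤ cr p l := by rw [one_mul]; exact h2
  have hco : IsCoprime (τ + j) (1 : ℤ) := isCoprime_one_right
  obtain ⟨T, k1, k2, k3, k4, k5, k6⟩ := ad.exitSt h.ok (by rw [E1]; exact hAb) (n := 1)
    (by norm_num) ho hco h1' h2'
  rw [one_smul] at k4 k5
  rw [← hq'] at k5
  obtain ⟨w1, hw1⟩ : ∃ w1, w1 = S.u + q • S.v + τ • l + p := ⟨_, rfl⟩
  rw [← hw1] at k5 hB0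
  rw [E1] at k6
  obtain ⟨l1, p1, l1', p1', ad1⟩ := exists_Ad k1.ok'
  have F1 : cr p1 T.v = b := ad1.isC.unique k6
  have F2 : cr T.u p1' = B0 := by
    refine ad1.isC'.unique ?_
    rw [k2, k5]; exact hB0
  have haT : IsArea T.L' a' := by rw [k2]; exact h.ha'
  have hcT : Con1 T.L' := by rw [k2]; exact h.con
  have F3 : cr l1' p1' = a' := ad1.isArea'.unique haT
  have hD2 : Dz 2 l1' := dz_two ad1.h4 (by rw [F2]; exact hB2) (by rw [F3]; exact ha'2)
  have hcl : Con1 (lat l1' p1') := by rw [← ad1.hL']; exact hcT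
  have hA1 : cr T.u T.v = cr S.u S.v + b := by
    rw [k5, k3, hw1]
    simp only [cr_add_left, cr_smul_left, cr_self, ad.h1, E1]
    ring
  -- the vectors `l1, p1`
  obtain ⟨m, hm⟩ : ∃ m : ℤ, l1 = m • (l - S.v) := by
    have hl1 : l1 ∈ lat (l - S.v) (p + τ • S.v) := by
      rw [← k4, ad1.hL]; exact mem_lat.2 ⟨1, 0, by module⟩
    obtain ⟨m, n, e⟩ := mem_lat.1 hl1
    have h9 := ad1.h1
    rw [k3, ← e] at h9
    simp only [cr_add_left, cr_smul_left, cr_sub_left, cr_self, ad.h1, E1] at h9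
    have h8 : n = 0 := by
      have : n * b = 0 := by linarith
      rcases mul_eq_zero.1 this with h7 | h7
      · exact h7
      · omega
    exact ⟨m, by rw [← e, h8]; module⟩
  obtain ⟨m', hm'⟩ : ∃ m' : ℤ, p1 = m' • (l - S.v) + (p + τ • S.v) := by
    have hp1 : p1 ∈ lat (l - S.v) (p + τ • S.v) := by
      rw [← k4, ad1.hL]; exact mem_lat.2 ⟨0, 1, by module⟩
    obtain ⟨m, n, e⟩ := mem_lat.1 hp1
    have h9 := F1
    rw [k3, ← e] at h9
    simp only [cr_add_left, cr_smul_left, cr_sub_left, cr_self, ad.h1, E1] at h9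
    have h8 : n = 1 := by
      have : (n - 1) * b = 0 := by linarith
      rcases mul_eq_zero.1 this with h7 | h7
      · omega
      · omega
    exact ⟨m, by rw [← e, h8]; module⟩
  obtain ⟨x, hx⟩ : b ∣ cr (T.u + l1') l1 := dvd_of_odd_pow hbodd fun q k hq hq2 hk =>
    (h.hrigAt k1 haT hcT k6 ad1 hq (Alw.exists_odd hcl hq hq2) hk).1
  obtain ⟨y, hy⟩ : b ∣ cr (T.u + l1') p1 := dvd_of_odd_pow hbodd fun q k hq hq2 hk =>
    (h.hrigAt k1 haT hcT k6 ad1 hq (Alw.exists_odd hcl hq hq2) hk).2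
  have hx0 : x ≠ 0 := by
    rintro rfl
    exact ad1.X_ne (by rw [hx, mul_zero])
  have hx2 : (2 : ℤ) ∣ x := by
    have h9 : (2 : ℤ) ∣ b * x := by
      rw [← hx, hm]
      exact (hlv.smul m).cr_right _
    exact (Int.prime_two.dvd_or_dvd h9).resolve_left hbodd
  have hy2 : ¬ (2 : ℤ) ∣ y := by
    intro h9
    have h8 : (2 : ℤ) ∣ cr (T.u + l1') p1 := by rw [hy]; exact h9.mul_left b
    rw [hm', cr_add_right] at h8
    have h7 := (dvd_add_right ((hlv.smul m').cr_right (T.u + l1'))).1 h8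
    rw [cr_add_left] at h7
    have h6 := (dvd_add_left (hD2.cr_left (p + τ • S.v))).1 h7
    rw [k5, hw1] at h6
    simp only [cr_add_left, cr_add_right, cr_smul_left, cr_smul_right, cr_self, ad.h1, E1] at h6
    rw [cr_swap l p, cr_swap S.v p, E1] at h6
    obtain ⟨f2, hf2⟩ := hfe
    obtain ⟨A2, hA2'⟩ := hAe
    obtain ⟨b2, hb2⟩ : ∃ b2, b = 2 * b2 + 1 := ⟨b / 2, by omega⟩
    obtain ⟨a2, ha2⟩ : ∃ a2, cr p l = 2 * a2 + 1 := ⟨cr p l / 2, by omega⟩
    obtain ⟨q2, hq2⟩ : ∃ q2, q = 2 * q2 + 1 := by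
      rcases ho with rfl | rfl
      · exact ⟨-j, by rw [hq]; ring⟩
      · exact ⟨-1 - j, by rw [hq]; ring⟩
    obtain ⟨s, hs⟩ := h6
    rw [hf2, hA2', hb2, ha2, hq2] at hs
    have : 2 * (f2 - q2 * (2 * b2 + 1) - b2 - τ * a2 + τ * A2 + τ * b2 - s) = 1 := by
      linear_combination hs
    omega
  obtain ⟨i1, n1, n2⟩ := hl_num1 hx0 hx2 hy2 ha0'.ne'
  have hAc1 : cr T.u T.v ≤ cr T.u p1' := h.leA k1 haT hcT ad1.isC'
  have t1 := ad1.twH k1.ok' hAc1 i1
  have hgap : IsC T.L (T.v + i1 • (T.u + l1')) (2 * b) := by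
    have := ad1.gapH F1 i1
    have e : (Int.gcd (i1 * cr (T.u + l1') l1) (b - i1 * cr (T.u + l1') p1) : ℤ) = 2 * b := by
      have e1 : i1 * cr (T.u + l1') l1 = b * (i1 * x) := by rw [hx]; ring
      have e2 : b - i1 * cr (T.u + l1') p1 = b * (1 - i1 * y) := by rw [hy]; ring
      rw [e1, e2, Int.gcd_mul_left, Nat.cast_mul, Int.natAbs_of_nonneg hb0.le, n2]; ring
    rwa [e] at this
  have hAlw : ∀ q : ℕ, q.Prime → (q : ℤ) ∣ a' → Alw l1' p1' T.u q i1 := by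
    intro q hq hqa
    by_cases hq2 : q = 2
    · subst hq2
      exact Alw.of_not_dvd (by rw [F2]; exact_mod_cast hB2) i1
    · refine Alw.per (k := 0) ?_ (Alw.zero hcl hq)
      rw [sub_zero]; exact n1 q hq hq2 hqa
  have hconi : Con1 (lat l1' (p1' + i1 • T.u)) := con1_of_alw ad1.h4 F3 hAlw
  have ha'i : IsArea (lat l1' (p1' + i1 • T.u)) a' := by
    have h9 : cr l1' (p1' + i1 • T.u) = cr l1' p1' := by
      rw [cr_add_right, cr_smul_right, cr_swap l1' T.u, ad1.h4]; ring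
    exact ⟨ha0', p1' + i1 • T.u, l1', by rw [h9, F3], lat_comm _ _⟩
  have hci : IsC (lat l1' (p1' + i1 • T.u)) T.u B0 := by
    have e : cr T.u (p1' + i1 • T.u) = B0 := by
      rw [cr_add_right, cr_smul_right, cr_self, F2]; ring
    have h6 := ad1.h6
    have : IsC (lat l1' (p1' + i1 • T.u)) T.u (cr T.u (p1' + i1 • T.u)) :=
      isC_adapted ad1.h4 (by rw [e, ← F2]; exact h6)
    rwa [e] at this
  have g0 : GD S a' b (cr p l - b) (cr S.u S.v + b) B0
      ⟨T.L, T.u, T.v + i1 • (T.u + l1'), lat l1' (p1' + i1 • T.u)⟩ B0 := by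
    refine ⟨k1.trans t1, ha'i, hconi, ?_, hgap, ?_, hci, dvd_rfl⟩
    · dsimp only
      refine ⟨by omega, l - S.v, p + τ • S.v, ?_, k4⟩
      simp only [cr_add_left, cr_sub_right, cr_smul_left, cr_self, E1]
      rw [cr_swap S.v l, ad.h1]; ring
    · dsimp only
      rw [cr_add_right, cr_smul_right, cr_add_right, cr_self, ad1.h4, hA1]; ring
  -- minimal right gap
  obtain ⟨d, ⟨R, g⟩, hmin⟩ := exists_min_int
    (P := fun d => ∃ R, GD S a' b (cr p l - b) (cr S.u S.v + b) B0 R d)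
    (fun d ⟨R, g⟩ => g.hc.1) ⟨B0, _, g0⟩
  have hA12 : cr S.u S.v + b ≤ 2 * b := by linarith
  have e2b : cr p l - b + 2 * b = cr p l + b := by ring
  have hdA : d ∣ cr S.u S.v + b := g.dvdA (fun d' R' g' => hmin d' ⟨R', g'⟩) hA12 hB2
    (by rw [e2b]; exact hR)
  have hdA' : d = cr S.u S.v + b := by
    refine le_antisymm (Int.le_of_dvd (by omega) hdA) ?_
    have := h.leA g.seq g.ha' g.con g.hc
    rwa [g.hA] at this
  subst hdA'
  -- an odd prime of `b`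
  obtain ⟨r, hr, hrb⟩ : ∃ r : ℕ, r.Prime ∧ (r : ℤ) ∣ b := by
    obtain ⟨r, hr, hd⟩ := Nat.exists_prime_and_dvd (n := b.natAbs) (by omega)
    exact ⟨r, hr, Int.natCast_dvd.2 hd⟩
  have hr2 : r ≠ 2 := by
    rintro rfl
    exact hbodd (by exact_mod_cast hrb)
  have hri := Nat.prime_iff_prime_int.1 hr
  obtain ⟨k, M, hM, hM2⟩ := exists_pow_mul hr hb0.ne'
  have hk0 : 1 ≤ k := by
    by_contra hn
    have : k = 0 := by omega
    rw [this, pow_zero, one_mul] at hM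
    exact hM2 (by rw [← hM]; exact hrb)
  have hk : (r : ℤ) ^ k ∣ b := Dvd.intro _ hM.symm
  obtain ⟨lR, pR, lR', pR', adR⟩ := exists_Ad g.seq.ok'
  have hd0 : 0 < cr S.u S.v + b := g.hc.1
  obtain ⟨⟨b1, hb1⟩, ⟨b2, hb2⟩⟩ : cr S.u S.v + b ∣ cr (R.v + lR) lR' ∧
      cr S.u S.v + b ∣ cr (R.v + lR) pR' := by
    refine crt_minD hd0 adR.B_ne fun j hj => ?_
    exact hmin _ ⟨_, g.twV adR hA12 j (hj.trans g.dvd)⟩
  have hb10 : b1 ≠ 0 := by
    rintro rfl
    exact adR.B_ne (by rw [hb1, mul_zero])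
  obtain ⟨jR, hj1, hj2⟩ := exists_unit_j hr hr2 (b2 := b2) hb10
  have hgj : (Int.gcd (jR * cr (R.v + lR) lR')
      (cr S.u S.v + b - jR * cr (R.v + lR) pR') : ℤ) = cr S.u S.v + b := by
    have e1 : jR * cr (R.v + lR) lR' = (cr S.u S.v + b) * (jR * b1) := by rw [hb1]; ring
    have e2 : cr S.u S.v + b - jR * cr (R.v + lR) pR' =
        (cr S.u S.v + b) * (1 - jR * b2) := by rw [hb2]; ring
    rw [e1, e2, Int.gcd_mul_left, Nat.cast_mul, Int.natAbs_of_nonneg hd0.le, hj2, mul_one]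
  have g2 := g.twV adR hA12 jR (by rw [hgj]; exact g.dvd)
  rw [hgj] at g2
  have w1' := g.full hN h ad hv hr hr2 hk0 hk (hW r hr) pR (by
    rw [adR.hL]; exact mem_lat.2 ⟨0, 1, by module⟩)
  have w2' := g2.full hN h ad hv hr hr2 hk0 hk (hW r hr) (pR - jR • R.v)
    (mem_lat.2 ⟨0, 1, by module⟩)
  have hDp : Dz ((r : ℤ) ^ k) pR := Dz.iff.2 w1'
  have hDv : Dz ((r : ℤ) ^ k) R.v := by
    have h9 : Dz ((r : ℤ) ^ k) (jR • R.v) := by
      have := hDp.sub (Dz.iff.2 w2')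
      rwa [sub_sub_cancel] at this
    exact Dz.of_coprime (isCoprime_pow_prime hr hj1 k) h9
  have h2b : cr pR R.v = 2 * b := g.eb adR
  obtain ⟨x1, hx1⟩ := hDp
  obtain ⟨x2, hx2'⟩ := hDv
  rw [hx1, hx2', cr_smul_left, cr_smul_right] at h2b
  have h9 : (r : ℤ) ^ k * cr x1 x2 = 2 * M := by
    have : (r : ℤ) ^ k * ((r : ℤ) ^ k * cr x1 x2) = (r : ℤ) ^ k * (2 * M) := by
      rw [h2b]
      conv_lhs => rw [hM]
      ring
    exact mul_left_cancel₀ (pow_ne_zero _ hri.ne_zero) this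
  have h8 : (r : ℤ) ∣ 2 * M := by
    rw [← h9]
    exact (dvd_pow_self _ (by omega)).mul_right _
  rcases hri.dvd_or_dvd h8 with h7 | h7
  · have h6 : (r : ℤ) ∣ ((2 : ℕ) : ℤ) := by exact_mod_cast h7
    rw [Int.natCast_dvd_natCast] at h6
    exact hr2 ((Nat.prime_dvd_prime_iff_eq hr Nat.prime_two).1 h6)
  · exact hM2 h7

end Pool.Agent.H4G
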