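import Pool.Agent.H4G.Arith.ExtA

/-!
# The node lemma with the span (helper40)

The node on the right side keeps the lattice generated by `L'` and `u`.
-/

set_option autoImplicit false

namespace Pool.Agent.H4G

/-- (B4), one step, with the span -/
theorem SEq.nodeStepD {L L' : AddSubgroup Z2} {u v : Z2} {a c : ℤ}
    (hok : PSt.Ok ⟨L, u, v, L'⟩) (ha : IsArea L' a) (hc : IsC L' u c) (hlt : c < cr u v) :
    ∃ (v1 : Z2) (L1 : AddSubgroup Z2) (θ : ℤ), SEq ⟨L, u, v, L'⟩ ⟨L, u, v1, L1⟩ ∧ 0 < θ ∧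
      c ∣ θ ∧ cr u v1 = cr u v - θ ∧ IsArea L1 (a + θ) ∧ IsC L1 u c ∧
      ∀ w ∈ L', ∃ w1 ∈ L1, ∃ k : ℤ, w = w1 + k • u := by
  have hok' := hok
  obtain ⟨⟨a0, a1, a2, a3, a4, a5⟩, hl, e2, e3, hA, hr⟩ := hok'
  dsimp only at hl e2 e3 hA hr
  subst e2 e3
  obtain ⟨l, p, h1, h2, h3, h4, h5, h6⟩ := exists_node_vec hr hA ha hc hlt
  have hd : c ∣ cr a2 l := hc.2.1 l (by rw [← h1]; exact mem_lat.2 ⟨1, 0, by module⟩)
  subst h1
  rw [abs_lt] at h5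
  rcases lt_or_gt_of_ne h6 with h | h
  · have := SEq.mPlus' hok h3 (by rw [h2]; exact h4) h5.1 (by linarith)
    refine ⟨_, _, -cr a2 l, this, by linarith, (dvd_neg).2 hd, ?_, ?_, ?_, ?_⟩
    · rw [cr_add_right, cr_sub_right, cr_self]; ring
    · refine ⟨by linarith [ha.1], l, p - a2, ?_, rfl⟩
      rw [cr_sub_left, h2]; ring
    · have := hc.congr (k := -1)
      have e : p + (-1 : ℤ) • a2 = p - a2 := by module
      rwa [e] at this
    · intro w hw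
      obtain ⟨m, n, e⟩ := mem_lat.1 hw
      exact ⟨m • l + n • (p - a2), mem_lat.2 ⟨m, n, rfl⟩, n, by rw [← e]; module⟩
  · have := SEq.mMinus' hok h3 (by rw [h2]; exact h4) (by linarith) h5.2
    refine ⟨_, _, cr a2 l, this, h, hd, ?_, ?_, ?_, ?_⟩
    · rw [cr_sub_right, cr_add_right, cr_self]; ring
    · refine ⟨by linarith [ha.1], l, p + a2, ?_, rfl⟩
      rw [cr_add_left, h2]
    · have := hc.congr (k := 1)
      rwa [one_smul] at this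
    · intro w hw
      obtain ⟨m, n, e⟩ := mem_lat.1 hw
      exact ⟨m • l + n • (p + a2), mem_lat.2 ⟨m, n, rfl⟩, -n, by rw [← e]; module⟩

/-- (B4) NODE LEMMA with the span -/
theorem SEq.nodeD (n : ℕ) : ∀ {L L' : AddSubgroup Z2} {u v : Z2} {a c : ℤ},
    (cr u v).toNat = n → PSt.Ok ⟨L, u, v, L'⟩ → IsArea L' a → IsC L' u c →
    ∃ (v1 : Z2) (L1 : AddSubgroup Z2) (θ : ℤ), SEq ⟨L, u, v, L'⟩ ⟨L, u, v1, L1⟩ ∧ 0 ≤ θ ∧
      c ∣ θ ∧ cr u v1 = cr u v - θ ∧ 0 < cr u v1 ∧ cr u v1 ≤ c ∧ IsArea L1 (a + θ) ∧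
      IsC L1 u c ∧ ∀ w ∈ L', ∃ w1 ∈ L1, ∃ k : ℤ, w = w1 + k • u := by
  induction n using Nat.strong_induction_on with
  | _ n ih =>
  intro L L' u v a c hn hok ha hc
  have hA : 0 < cr u v := by
    obtain ⟨⟨a0, a1, a2, a3, a4, a5⟩, hl, e2, e3, hA, hr⟩ := hok
    exact hA
  by_cases hlt : c < cr u v
  · obtain ⟨v1, L1, θ, h1, h2, h3, h4, h5, h6, h7⟩ := SEq.nodeStepD hok ha hc hlt
    have hok1 := h1.ok'
    have hA1 : 0 < cr u v1 := by
      obtain ⟨⟨a0, a1, a2, a3, a4, a5⟩, hl, e2, e3, hA, hr⟩ := hok1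
      exact hA
    obtain ⟨v2, L2, θ', k1, k2, k3, k4, k5, k6, k7, k8, k9⟩ :=
      ih (cr u v1).toNat (by omega) rfl hok1 h5 h6
    refine ⟨v2, L2, θ + θ', h1.trans k1, by linarith, dvd_add h3 k3, by rw [k4, h4]; ring, k5, k6,
      ?_, k8, ?_⟩
    · rw [← add_assoc]; exact k7
    · intro w hw
      obtain ⟨w1, g1, k, g2⟩ := h7 w hw
      obtain ⟨w2, g3, k', g4⟩ := k9 w1 g1
      exact ⟨w2, g3, k' + k, by rw [g2, g4]; module⟩
  · exact ⟨v, L', 0, hok.seq, le_rfl, dvd_zero c, by ring, hA, by linarith, by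
      rw [add_zero]; exact ha, hc, fun w hw => ⟨w, hw, 0, by module⟩⟩

end Pool.Agent.H4G
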