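import Pool.Agent.H4G.Arith.ExtA
import Pool.Agent.H4G.Arith.NodeD
import Pool.Agent.H4G.Arith.Full
import Pool.Agent.H4G.Arith.CrtA

/-!
# Content one (helper5; frame of helper19; the maximum over content one only: helper40)

States with maximal `a'` among the states with content one of the right lattice.
-/

set_option autoImplicit false

namespace Pool.Agent.H4G

/-- `d` divides the vector `w` -/
def Dz (d : ℤ) (w : Z2) : Prop := ∃ w' : Z2, w = d • w'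

theorem Dz.add {d : ℤ} {x y : Z2} (hx : Dz d x) (hy : Dz d y) : Dz d (x + y) := by
  obtain ⟨x', rfl⟩ := hx
  obtain ⟨y', rfl⟩ := hy
  exact ⟨x' + y', by rw [smul_add]⟩

theorem Dz.sub {d : ℤ} {x y : Z2} (hx : Dz d x) (hy : Dz d y) : Dz d (x - y) := by
  obtain ⟨x', rfl⟩ := hx
  obtain ⟨y', rfl⟩ := hy
  exact ⟨x' - y', by rw [smul_sub]⟩

theorem Dz.neg {d : ℤ} {x : Z2} (hx : Dz d x) : Dz d (-x) := by
  obtain ⟨x', rfl⟩ := hx
  exact ⟨-x', by rw [smul_neg]⟩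

theorem Dz.smul {d : ℤ} {x : Z2} (hx : Dz d x) (k : ℤ) : Dz d (k • x) := by
  obtain ⟨x', rfl⟩ := hx
  exact ⟨k • x', by rw [smul_comm]⟩

theorem Dz.of_dvd {d k : ℤ} (h : d ∣ k) (x : Z2) : Dz d (k • x) := by
  obtain ⟨m, rfl⟩ := h
  exact ⟨m • x, by rw [mul_smul]⟩

theorem Dz.zero (d : ℤ) : Dz d 0 := ⟨0, by rw [smul_zero]⟩

theorem Dz.cr_left {d : ℤ} {x : Z2} (hx : Dz d x) (z : Z2) : d ∣ cr x z := by
  obtain ⟨x', rfl⟩ := hx
  exact ⟨cr x' z, by rw [cr_smul_left]⟩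

theorem Dz.cr_right {d : ℤ} {x : Z2} (hx : Dz d x) (z : Z2) : d ∣ cr z x := by
  obtain ⟨x', rfl⟩ := hx
  exact ⟨cr z x', by rw [cr_smul_right]⟩

theorem Dz.iff {d : ℤ} {x : Z2} : Dz d x ↔ ∀ z, d ∣ cr x z := by
  refine ⟨fun h z => h.cr_left z, fun h => ?_⟩
  have h1 := h (0, 1)
  have h2 := h (-1, 0)
  simp only [cr, mul_one, mul_zero, sub_zero, zero_sub, mul_neg, neg_neg] at h1 h2
  obtain ⟨s, hs⟩ := h1
  obtain ⟨t, ht⟩ := h2
  refine ⟨(s, t), ?_⟩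
  ext
  · simpa using hs
  · simpa using ht

theorem Dz.mul_prime {q : ℕ} (hq : q.Prime) {k : ℤ} {x : Z2} (h : Dz q (k • x)) :
    (q : ℤ) ∣ k ∨ Dz q x := by
  by_cases hk : (q : ℤ) ∣ k
  · exact Or.inl hk
  · right
    rw [Dz.iff] at h ⊢
    intro z
    have h1 := h z
    rw [cr_smul_left] at h1
    exact ((Nat.prime_iff_prime_int.1 hq).dvd_or_dvd h1).resolve_left hk

/-- content one -/
def Con1 (M : AddSubgroup Z2) : Prop := ∀ q : ℕ, q.Prime → ∃ w ∈ M, ¬ Dz q w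

theorem dz_lat {d : ℤ} {x y : Z2} : (∀ w ∈ lat x y, Dz d w) ↔ Dz d x ∧ Dz d y := by
  constructor
  · intro h
    exact ⟨h x (mem_lat.2 ⟨1, 0, by module⟩), h y (mem_lat.2 ⟨0, 1, by module⟩)⟩
  · rintro ⟨h1, h2⟩ w hw
    obtain ⟨m, n, rfl⟩ := mem_lat.1 hw
    exact (h1.smul m).add (h2.smul n)

theorem con1_iff {M : AddSubgroup Z2} : Con1 M ↔ ∀ q : ℕ, q.Prime → ¬ ∀ w ∈ M, Dz q w := by
  unfold Con1
  refine forall_congr' fun q => forall_congr' fun _ => ?_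
  push Not
  rfl

theorem con1_lat {x y : Z2} : Con1 (lat x y) ↔ ∀ q : ℕ, q.Prime → ¬ (Dz q x ∧ Dz q y) := by
  rw [con1_iff]
  refine forall_congr' fun q => forall_congr' fun _ => ?_
  rw [dz_lat]

theorem IsArea.dvd_of_dz {M : AddSubgroup Z2} {a : ℤ} (ha : IsArea M a) {d : ℤ}
    (h : ∀ w ∈ M, Dz d w) : d ∣ a := by
  obtain ⟨_, l, p, h1, h2⟩ := ha
  rw [h2] at h
  rw [← h1]
  exact (dz_lat.1 h).2.cr_left l

/-- a number which divides `k w` for all `w` in a lattice of content one divides `k` -/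
theorem Con1.dvd {M : AddSubgroup Z2} (h : Con1 M) {c k : ℤ} (hc : c ≠ 0)
    (hk : ∀ w ∈ M, Dz c (k • w)) : c ∣ k := by
  set g : ℤ := ((Int.gcd c k : ℕ) : ℤ) with hg
  have hg0 : 0 < g := by
    rw [hg]
    have : 0 < Int.gcd c k := Int.gcd_pos_of_ne_zero_left _ hc
    exact_mod_cast this
  obtain ⟨c1, hc1⟩ : g ∣ c := by rw [hg]; exact Int.gcd_dvd_left _ _
  obtain ⟨k1, hk1⟩ : g ∣ k := by rw [hg]; exact Int.gcd_dvd_right _ _
  have hunit : c1.natAbs = 1 := by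
    by_contra hne
    obtain ⟨q, hq, hd⟩ := Nat.exists_prime_and_dvd hne
    have hqc : (q : ℤ) ∣ c1 := Int.natCast_dvd.2 hd
    obtain ⟨w, hw, hnw⟩ := h q hq
    have h1 := hk w hw
    apply hnw
    rw [Dz.iff] at h1 ⊢
    intro z
    have h2 := h1 z
    rw [cr_smul_left, hc1, hk1, mul_assoc] at h2
    have h3 : c1 ∣ k1 * cr w z := (mul_dvd_mul_iff_left hg0.ne').1 h2
    rcases (Nat.prime_iff_prime_int.1 hq).dvd_or_dvd (hqc.trans h3) with h4 | h4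
    · exfalso
      have h5 : g * q ∣ g := by
        conv_rhs => rw [hg]
        refine Int.dvd_coe_gcd ?_ ?_
        · rw [hc1]; exact mul_dvd_mul_left g hqc
        · rw [hk1]; exact mul_dvd_mul_left g h4
      have h6 : (q : ℤ) ∣ 1 := by
        have : g * q ∣ g * 1 := by rwa [mul_one]
        exact (mul_dvd_mul_iff_left hg0.ne').1 this
      exact prime_not_dvd_one hq h6
    · exact h4
  rw [hc1, hk1]
  rcases Int.natAbs_eq c1 with h1 | h1 <;> rw [h1, hunit] <;> simp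

/-! ## States with maximal `a'` among the states with content one -/

structure Mx (S : PSt) (a' : ℤ) : Prop where
  ok : S.Ok
  ha' : IsArea S.L' a'
  max : ∀ (T : PSt) (c : ℤ), SEq S T → IsArea T.L' c → Con1 T.L' → c ≤ a'

theorem Mx.trans {S T : PSt} {a' : ℤ} (h : Mx S a') (h1 : SEq S T) (h2 : IsArea T.L' a') :
    Mx T a' :=
  ⟨h1.ok', h2, fun T2 c k1 k2 k3 => h.max T2 c (h1.trans k1) k2 k3⟩

/-- one H-twist makes the content one, if no prime divides `u` and `L'` -/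
theorem con1_of_twH {T : PSt} (hok : T.Ok) {l p l' p' : Z2} (ad : Ad T l p l' p')
    (hA : cr T.u T.v ≤ cr T.u p') {a' : ℤ} (ha : IsArea T.L' a')
    (hn : ∀ q : ℕ, q.Prime → (∀ w ∈ T.L', Dz q w) → ¬ Dz q T.u) :
    ∃ i : ℤ, SEq T ⟨T.L, T.u, T.v + i • (T.u + l'), lat l' (p' + i • T.u)⟩ ∧
      IsArea (lat l' (p' + i • T.u)) a' ∧ Con1 (lat l' (p' + i • T.u)) := by
  classical
  have ha0 : a' ≠ 0 := ha.1.ne'
  obtain ⟨i, hi⟩ := crt_exists a' ha0
    (fun r i => ((∀ w ∈ T.L', Dz r w) → ¬ (r : ℤ) ∣ i) ∧ ((¬ ∀ w ∈ T.L', Dz r w) → (r : ℤ) ∣ i))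
    (fun r hr _ => by
      by_cases hrq : ∀ w ∈ T.L', Dz r w
      · exact ⟨1, fun _ => prime_not_dvd_one hr, fun h => absurd hrq h⟩
      · exact ⟨0, fun h => absurd h hrq, fun _ => dvd_zero _⟩)
    (fun r hr _ k k' h1 h2 => by
      refine ⟨fun h3 h4 => h2.1 h3 ?_, fun h3 => ?_⟩
      · have := dvd_sub h4 h1
        simpa using this
      · have := dvd_add h1 (h2.2 h3)
        simpa using this)
  have e0 : cr l' p' = a' := ad.isArea'.unique ha
  have e1 : cr l' (p' + i • T.u) = a' := by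
    rw [cr_add_right, cr_smul_right, cr_swap l' T.u, ad.h4, e0]; ring
  have hA' : IsArea (lat l' (p' + i • T.u)) a' :=
    ⟨ha.1, p' + i • T.u, l', by rw [e1], lat_comm _ _⟩
  refine ⟨i, ad.twH hok hA i, hA', con1_lat.2 fun q hq hbad => ?_⟩
  have hqa : (q : ℤ) ∣ a' := by
    rw [← e1]; exact hbad.1.cr_left _
  by_cases hq2 : ∀ w ∈ T.L', Dz q w
  · have h1 := hn q hq hq2
    rw [ad.hL', dz_lat] at hq2
    have h2 := hbad.2.sub hq2.2
    rw [add_sub_cancel_left] at h2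
    rcases h2.mul_prime hq with h3 | h3
    · refine (hi q hq hqa).1 ?_ h3
      rw [ad.hL', dz_lat]; exact hq2
    · exact h1 h3
  · have h1 := (hi q hq hqa).2 hq2
    apply hq2
    rw [ad.hL', dz_lat]
    refine ⟨hbad.1, ?_⟩
    have h2 := hbad.2.sub (Dz.of_dvd h1 T.u)
    rwa [add_sub_cancel_right] at h2

/-- maximality for all states of the class such that no prime divides `u` and `L'` -/
theorem Mx.stuck {S T : PSt} {a' a1 d : ℤ} (h : Mx S a') (hST : SEq S T) (ha : IsArea T.L' a1)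
    (hd : IsC T.L' T.u d) (hn : ∀ q : ℕ, q.Prime → (∀ w ∈ T.L', Dz q w) → ¬ Dz q T.u) :
    a1 + cr T.u T.v ≤ a' + d := by
  obtain ⟨L, u, v, L'⟩ := T
  dsimp only at ha hd hn ⊢
  obtain ⟨v1, L1, θ, m1, m2, m3, m4, m5, m6, m7, m8, m9⟩ :=
    SEq.nodeD _ (L := L) (L' := L') (u := u) (v := v) rfl hST.ok' ha hd
  obtain ⟨l, p, l', p', ad⟩ := exists_Ad m1.ok'
  have e1 : cr u p' = d := ad.isC'.unique m8
  obtain ⟨i, n1, n2, n3⟩ := con1_of_twH m1.ok' ad (by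
    show cr u v1 ≤ cr u p'
    rw [e1]; exact m6) (a' := a1 + θ) m7 (by
    intro q hq hbad hu
    dsimp only at hbad hu
    refine hn q hq (fun w hw => ?_) hu
    obtain ⟨w1, g1, k, rfl⟩ := m9 w hw
    exact (hbad w1 g1).add (hu.smul k))
  have := h.max _ _ ((hST.trans m1).trans n1) n2 n3
  linarith

theorem Mx.leA {S : PSt} {a' : ℤ} (h : Mx S a') (hcon : Con1 S.L') {c : ℤ} (hc : IsC S.L' S.u c) :
    cr S.u S.v ≤ c := by
  have := h.stuck h.ok.seq h.ha' hc fun q hq hbad => absurd hbad (con1_iff.1 hcon q hq)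
  linarith

open Classical in
/-- existence, if the class contains a state with content one -/
theorem exists_mx {S : PSt} (hS : ∃ T : PSt, SEq S T ∧ Con1 T.L') :
    ∃ (T : PSt) (a' : ℤ), SEq S T ∧ Mx T a' ∧ Con1 T.L' := by
  obtain ⟨T0, hT0, hcon0⟩ := hS
  obtain ⟨c0, hc0⟩ := hT0.ok
  have hex : ∃ n : ℕ, ∃ (S1 : PSt) (a1 : ℤ), SEq S S1 ∧ IsArea S1.L' a1 ∧ Con1 S1.L' ∧
      a1 = H4G.vol c0 - n := by
    obtain ⟨d, d', m1, m2, m3⟩ := hT0
    obtain ⟨b, b', n1, n2, n3, n4⟩ := m2.areas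
    have e2 : H4G.vol d' = H4G.vol c0 := by rw [m3.vol_eq, (hc0.ceq m1).vol_eq]
    refine ⟨(b + cr T0.u T0.v).toNat, T0, b', ⟨d, d', m1, m2, m3⟩, n2, hcon0, ?_⟩
    have := n1.1
    omega
  obtain ⟨S1, a1, h1, h2, h3, h4⟩ := Nat.find_spec hex
  refine ⟨S1, a1, h1, ⟨h1.ok', h2, ?_⟩, h3⟩
  intro S2 a2 k1 k2 k3
  by_contra hlt
  push Not at hlt
  obtain ⟨d, d', m1, m2, m3⟩ := h1.trans k1
  obtain ⟨b, b', n1, n2, n3, n4⟩ := m2.areas
  have e := n2.unique k2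
  have e2 : H4G.vol d' = H4G.vol c0 := by rw [m3.vol_eq, (hc0.ceq m1).vol_eq]
  have hb := n1.1
  refine Nat.find_min hex (m := (H4G.vol c0 - a2).toNat) (by omega) ⟨S2, a2, ⟨d, d', m1, m2, m3⟩,
    k2, k3, by omega⟩

theorem Mx.twH {S : PSt} {a' : ℤ} (h : Mx S a') (hcon : Con1 S.L') {l p l' p' : Z2}
    (ad : Ad S l p l' p') (i : ℤ) :
    SEq S ⟨S.L, S.u, S.v + i • (S.u + l'), lat l' (p' + i • S.u)⟩ ∧
    Mx ⟨S.L, S.u, S.v + i • (S.u + l'), lat l' (p' + i • S.u)⟩ a' := by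
  have k1 := ad.twH h.ok (h.leA hcon ad.isC') i
  refine ⟨k1, h.trans k1 ?_⟩
  have h1 : cr l' (p' + i • S.u) = cr l' p' := by
    rw [cr_add_right, cr_smul_right, cr_swap l' S.u, ad.h4]; ring
  have h2 : cr l' p' = a' := ad.isArea'.unique h.ha'
  exact ⟨h.ha'.1, p' + i • S.u, l', by rw [h1, h2], lat_comm _ _⟩

/-- in the exceptional case, a level-one exit is not exceptional -/
theorem exc_exit {T : PSt} {l p l' p' : Z2} (ad : Ad T l p l' p') (hF : T.Full) {q : ℕ}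
    (hu : Dz q T.u) (hv : Dz q (T.v + l)) (hL' : ∀ w ∈ T.L', Dz q w)
    {u1 : Z2} {k τ : ℤ} (hu1 : u1 = T.u + k • T.v + τ • l + p) (hq : q.Prime) : ¬ Dz q u1 := by
  intro h1
  -- `p ≡ m l`
  have h2 : Dz q (p + (τ - k) • l) := by
    have h3 := (h1.sub hu).sub (hv.smul k)
    have h4 : u1 - T.u - k • (T.v + l) = p + (τ - k) • l := by rw [hu1]; module
    rwa [h4] at h3
  have h5 : ∀ z : Z2, (q : ℤ) ∣ cr l z := by
    intro z
    have hz : z ∈ T.L ⊔ T.L' ⊔ lat T.u T.v := by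
      rw [show T.L ⊔ T.L' ⊔ lat T.u T.v = ⊤ from hF]; trivial
    obtain ⟨x, hx, y, hy, rfl⟩ := AddSubgroup.mem_sup.1 hz
    obtain ⟨x1, hx1, x2, hx2, rfl⟩ := AddSubgroup.mem_sup.1 hx
    rw [ad.hL] at hx1
    obtain ⟨m, n, rfl⟩ := mem_lat.1 hx1
    obtain ⟨m', n', rfl⟩ := mem_lat.1 hy
    have e1 : (q : ℤ) ∣ cr l p := by
      have := h2.cr_right l
      rw [cr_add_right, cr_smul_right, cr_self, mul_zero, add_zero] at this
      exact this
    have e2 : (q : ℤ) ∣ cr l T.v := by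
      have := hv.cr_right l
      rw [cr_add_right, cr_self, add_zero] at this
      exact this
    rw [cr_add_right, cr_add_right, cr_add_right, cr_add_right, cr_smul_right, cr_smul_right,
      cr_smul_right, cr_smul_right, cr_self]
    refine dvd_add (dvd_add (dvd_add (by simp) (e1.mul_left _)) ((hL' x2 hx2).cr_right l))
      (dvd_add ((hu.cr_right l).mul_left _) (e2.mul_left _))
  have hl : Dz q l := Dz.iff.2 h5
  have hvv : Dz q T.v := by
    have := hv.sub hl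
    rwa [add_sub_cancel_right] at this
  have hp : Dz q p := by
    have := h2.sub (hl.smul (τ - k))
    rwa [add_sub_cancel_right] at this
  have h6 : ∀ z : Z2, Dz q z := by
    intro z
    have hz : z ∈ T.L ⊔ T.L' ⊔ lat T.u T.v := by
      rw [show T.L ⊔ T.L' ⊔ lat T.u T.v = ⊤ from hF]; trivial
    obtain ⟨x, hx, y, hy, rfl⟩ := AddSubgroup.mem_sup.1 hz
    obtain ⟨x1, hx1, x2, hx2, rfl⟩ := AddSubgroup.mem_sup.1 hx
    rw [ad.hL] at hx1
    exact ((dz_lat.2 ⟨hl, hp⟩ x1 hx1).add (hL' x2 hx2)).add (dz_lat.2 ⟨hu, hvv⟩ y hy)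
  obtain ⟨w, hw⟩ := h6 (1, 0)
  have h7 := congrArg Prod.fst hw
  simp only [Prod.smul_fst, smul_eq_mul] at h7
  exact prime_not_dvd_one hq ⟨w.1, h7⟩

end Pool.Agent.H4G
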