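import Pool.Agent.H4G.Arith.ExitR

/-!
# More CRT lemmas for twists (helper5)
-/

set_option autoImplicit false

namespace Pool.Agent.H4G

/-- the CRT lemma at one odd prime, when the gap can drop by a factor two -/
theorem crt_minB {g B1 B2 D : ℤ} (hg : 0 < g) (hB1 : B1 ≠ 0) (hD : D ≠ 0)
    (Al : ℕ → ℤ → Prop) (h0 : ∀ l : ℕ, l.Prime → Al l 0)
    (hper : ∀ l : ℕ, l.Prime → ∀ k k' : ℤ, (l : ℤ) ∣ k' - k → Al l k → Al l k')
    {p : ℕ} (hp : p.Prime) (hp2 : p ≠ 2) (hu : ∃ j, ¬ (p : ℤ) ∣ j ∧ Al p j)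
    (hmin : ∀ j : ℤ, (∀ l : ℕ, l.Prime → (l : ℤ) ∣ D → Al l j) →
      g ≤ 2 * Int.gcd (j * B1) (g - j * B2)) {k : ℕ} (hk : (p : ℤ) ^ k ∣ g) :
    (p : ℤ) ^ k ∣ B1 ∧ (p : ℤ) ^ k ∣ B2 := by
  have hpi := Nat.prime_iff_prime_int.1 hp
  set G : ℤ := ((Int.gcd g ((Int.gcd B1 B2 : ℕ) : ℤ) : ℕ) : ℤ) with hG
  have hGpos : 0 < G := by
    rw [hG]
    have : 0 < Int.gcd g (Int.gcd B1 B2) := Int.gcd_pos_of_ne_zero_left _ hg.ne'
    exact_mod_cast this
  obtain ⟨g', hg'⟩ : G ∣ g := by rw [hG]; exact Int.gcd_dvd_left _ _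
  have hB : G ∣ (Int.gcd B1 B2 : ℤ) := by rw [hG]; exact Int.gcd_dvd_right _ _
  have hB1' : G ∣ B1 := hB.trans (Int.gcd_dvd_left _ _)
  have hB2' : G ∣ B2 := hB.trans (Int.gcd_dvd_right _ _)
  obtain ⟨b1, hb1⟩ := hB1'
  obtain ⟨b2, hb2⟩ := hB2'
  have hg'0 : 0 < g' := by
    rcases lt_trichotomy g' 0 with h | h | h
    · have := mul_neg_of_pos_of_neg hGpos h
      omega
    · rw [h, mul_zero] at hg'; omega
    · exact h
  have hb10 : b1 ≠ 0 := by rintro rfl; exact hB1 (by rw [hb1, mul_zero])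
  have hcop : (p : ℤ) ∣ g' → (p : ℤ) ∣ b1 → ¬ (p : ℤ) ∣ b2 := by
    intro h1 h2 h3
    have h4 : G * p ∣ G := by
      conv_rhs => rw [hG]
      refine Int.dvd_coe_gcd ?_ (Int.dvd_coe_gcd ?_ ?_)
      · rw [hg']; exact mul_dvd_mul_left G h1
      · rw [hb1]; exact mul_dvd_mul_left G h2
      · rw [hb2]; exact mul_dvd_mul_left G h3
    have h5 : (p : ℤ) ∣ 1 := by
      have : G * p ∣ G * 1 := by rwa [mul_one]
      exact (mul_dvd_mul_iff_left hGpos.ne').1 this
    exact prime_not_dvd_one hp h5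
  by_cases hpg : (p : ℤ) ∣ g'
  · exfalso
    obtain ⟨j0, hj0, hj0'⟩ := hu
    obtain ⟨r', M, hM, hpM⟩ := exists_pow_mul hp hg'0.ne'
    obtain ⟨r2, R, hR, hpR⟩ := exists_pow_mul hp
      (mul_ne_zero (mul_ne_zero hb10 hg'0.ne') hD)
    have hr' : r' ≠ 0 := by
      rintro rfl
      rw [pow_zero, one_mul] at hM
      exact hpM (by rw [← hM]; exact hpg)
    have hM0 : 0 < M := by
      have h1 : 0 < (p : ℤ) ^ r' := pow_pos (by exact_mod_cast hp.pos) _
      rcases lt_trichotomy M 0 with h | h | h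
      · have := mul_neg_of_pos_of_neg h1 h
        omega
      · rw [h, mul_zero] at hM; omega
      · exact h
    obtain ⟨j1, hj1⟩ := exists_mul_class hp (R := M * R)
      (fun h => (hpi.dvd_or_dvd h).elim hpM hpR) j0
    set j := M * R * j1 with hj
    have hpj : ¬ (p : ℤ) ∣ j := by
      intro h
      exact hj0 (by have := dvd_sub h hj1; simpa using this)
    -- the primes other than `p`
    have hother : ∀ l : ℕ, l.Prime → l ≠ p → (l : ℤ) ∣ b1 * g' * D → (l : ℤ) ∣ R := by
      intro l hl hlp hd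
      rw [hR] at hd
      rcases (Nat.prime_iff_prime_int.1 hl).dvd_or_dvd hd with h | h
      · exfalso
        have h1 := (Nat.prime_iff_prime_int.1 hl).dvd_of_dvd_pow h
        rw [Int.natCast_dvd_natCast] at h1
        exact hlp ((Nat.prime_dvd_prime_iff_eq hl hp).1 h1)
      · exact h
    have hall : ∀ l : ℕ, l.Prime → (l : ℤ) ∣ D → Al l j := by
      intro l hl hd
      by_cases hlp : l = p
      · subst hlp
        exact hper l hl j0 j hj1 hj0'
      · refine hper l hl 0 j ?_ (h0 l hl)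
        rw [sub_zero, hj]
        exact ((hother l hl hlp (hd.mul_left _)).mul_left M).mul_right j1
    have h1 := hmin j hall
    have e1 : j * B1 = G * (j * b1) := by rw [hb1]; ring
    have e2 : g - j * B2 = G * (g' - j * b2) := by
      conv_lhs => rw [hg', hb2]
      ring
    rw [e1, e2, Int.gcd_mul_left, Nat.cast_mul, Int.natAbs_of_nonneg hGpos.le] at h1
    have h2 : g' ≤ 2 * (Int.gcd (j * b1) (g' - j * b2) : ℤ) := by
      rw [hg'] at h1
      refine le_of_mul_le_mul_left (le_trans h1 (le_of_eq ?_)) hGpos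
      ring
    set d : ℤ := (Int.gcd (j * b1) (g' - j * b2) : ℤ) with hd
    have d1 : d ∣ j * b1 := by rw [hd]; exact Int.gcd_dvd_left _ _
    have d2 : d ∣ g' - j * b2 := by rw [hd]; exact Int.gcd_dvd_right _ _
    have e3 : g' - j * b2 = M * ((p : ℤ) ^ r' - R * j1 * b2) := by
      rw [hj]
      conv_lhs => rw [hM]
      ring
    have hdq : IsCoprime d ((p : ℤ) ^ r' - R * j1 * b2) := by
      refine isCoprime_of_prime fun l hl hl1 hl2 => ?_
      have hli := Nat.prime_iff_prime_int.1 hl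
      by_cases hlp : l = p
      · subst hlp
        have k1 : (l : ℤ) ∣ j * b1 := hl2.trans d1
        have k2 : (l : ℤ) ∣ b1 := (hli.dvd_or_dvd k1).resolve_left hpj
        have k3 : (l : ℤ) ∣ j * b2 := by
          have := dvd_sub hpg (hl2.trans d2)
          simpa using this
        have k4 : (l : ℤ) ∣ b2 := (hli.dvd_or_dvd k3).resolve_left hpj
        exact hcop hpg k2 k4
      · have hlpr : ¬ (l : ℤ) ∣ (p : ℤ) ^ r' := by
          intro h
          have h1 := hli.dvd_of_dvd_pow h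
          rw [Int.natCast_dvd_natCast] at h1
          exact hlp ((Nat.prime_dvd_prime_iff_eq hl hp).1 h1)
        have hlR : ¬ (l : ℤ) ∣ R * j1 := by
          intro h
          apply hlpr
          have := dvd_add hl1 (h.mul_right b2)
          simpa using this
        have k1 : (l : ℤ) ∣ j * b1 := hl2.trans d1
        rcases hli.dvd_or_dvd k1 with h | h
        · rw [hj, mul_assoc] at h
          rcases hli.dvd_or_dvd h with h | h
          · apply hlR
            refine (hother l hl hlp ?_).mul_right _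
            rw [hM]
            exact ((h.mul_left _).mul_left _).mul_right _
          · exact hlR h
        · exact hlR ((hother l hl hlp ((h.mul_right _).mul_right _)).mul_right _)
    rw [e3] at d2
    have d3 : d ∣ M := hdq.dvd_of_dvd_mul_right d2
    have d4 : d ≤ M := Int.le_of_dvd hM0 d3
    have d5 : 3 * M ≤ g' := by
      rw [hM]
      have h3 : (3 : ℤ) ≤ (p : ℤ) ^ r' := by
        have h4 : (3 : ℤ) ≤ p := by
          have := hp.two_le
          omega
        calc (3 : ℤ) ≤ (p : ℤ) := h4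
          _ = (p : ℤ) ^ 1 := (pow_one _).symm
          _ ≤ (p : ℤ) ^ r' := pow_le_pow_right₀ (by linarith) (by omega)
      nlinarith
    omega
  · have hcop2 : IsCoprime ((p : ℤ) ^ k) g' :=
      (isCoprime_of_not_dvd hp hpg).pow_left
    have hG1 : (p : ℤ) ^ k ∣ G := by
      rw [hg'] at hk
      exact hcop2.dvd_of_dvd_mul_right hk
    exact ⟨by rw [hb1]; exact hG1.mul_right _, by rw [hb2]; exact hG1.mul_right _⟩

/-- the CRT lemma at one prime; minimality is only used for new gaps which divide `g` -/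
theorem crt_minAD {g B1 B2 D : ℤ} (hg : 0 < g) (hB1 : B1 ≠ 0) (hD : D ≠ 0)
    (Al : ℕ → ℤ → Prop) (h0 : ∀ l : ℕ, l.Prime → Al l 0)
    (hper : ∀ l : ℕ, l.Prime → ∀ k k' : ℤ, (l : ℤ) ∣ k' - k → Al l k → Al l k')
    {p : ℕ} (hp : p.Prime) (hu : ∃ j, ¬ (p : ℤ) ∣ j ∧ Al p j)
    (hmin : ∀ j : ℤ, (∀ l : ℕ, l.Prime → (l : ℤ) ∣ D → Al l j) →
      (Int.gcd (j * B1) (g - j * B2) : ℤ) ∣ g → g ≤ Int.gcd (j * B1) (g - j * B2)) {k : ℕ} (hk : (p : ℤ) ^ k ∣ g) :
    (p : ℤ) ^ k ∣ B1 ∧ (p : ℤ) ^ k ∣ B2 := by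
  have hpi := Nat.prime_iff_prime_int.1 hp
  set G : ℤ := ((Int.gcd g ((Int.gcd B1 B2 : ℕ) : ℤ) : ℕ) : ℤ) with hG
  have hGpos : 0 < G := by
    rw [hG]
    have : 0 < Int.gcd g (Int.gcd B1 B2) := Int.gcd_pos_of_ne_zero_left _ hg.ne'
    exact_mod_cast this
  obtain ⟨g', hg'⟩ : G ∣ g := by rw [hG]; exact Int.gcd_dvd_left _ _
  have hB : G ∣ (Int.gcd B1 B2 : ℤ) := by rw [hG]; exact Int.gcd_dvd_right _ _
  have hB1' : G ∣ B1 := hB.trans (Int.gcd_dvd_left _ _)
  have hB2' : G ∣ B2 := hB.trans (Int.gcd_dvd_right _ _)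
  obtain ⟨b1, hb1⟩ := hB1'
  obtain ⟨b2, hb2⟩ := hB2'
  have hg'0 : 0 < g' := by
    rcases lt_trichotomy g' 0 with h | h | h
    · have := mul_neg_of_pos_of_neg hGpos h
      omega
    · rw [h, mul_zero] at hg'; omega
    · exact h
  have hb10 : b1 ≠ 0 := by rintro rfl; exact hB1 (by rw [hb1, mul_zero])
  have hcop : (p : ℤ) ∣ g' → (p : ℤ) ∣ b1 → ¬ (p : ℤ) ∣ b2 := by
    intro h1 h2 h3
    have h4 : G * p ∣ G := by
      conv_rhs => rw [hG]
      refine Int.dvd_coe_gcd ?_ (Int.dvd_coe_gcd ?_ ?_)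
      · rw [hg']; exact mul_dvd_mul_left G h1
      · rw [hb1]; exact mul_dvd_mul_left G h2
      · rw [hb2]; exact mul_dvd_mul_left G h3
    have h5 : (p : ℤ) ∣ 1 := by
      have : G * p ∣ G * 1 := by rwa [mul_one]
      exact (mul_dvd_mul_iff_left hGpos.ne').1 this
    exact prime_not_dvd_one hp h5
  by_cases hpg : (p : ℤ) ∣ g'
  · exfalso
    obtain ⟨j0, hj0, hj0'⟩ := hu
    obtain ⟨r', M, hM, hpM⟩ := exists_pow_mul hp hg'0.ne'
    obtain ⟨r2, R, hR, hpR⟩ := exists_pow_mul hp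
      (mul_ne_zero (mul_ne_zero hb10 hg'0.ne') hD)
    have hr' : r' ≠ 0 := by
      rintro rfl
      rw [pow_zero, one_mul] at hM
      exact hpM (by rw [← hM]; exact hpg)
    have hM0 : 0 < M := by
      have h1 : 0 < (p : ℤ) ^ r' := pow_pos (by exact_mod_cast hp.pos) _
      rcases lt_trichotomy M 0 with h | h | h
      · have := mul_neg_of_pos_of_neg h1 h
        omega
      · rw [h, mul_zero] at hM; omega
      · exact h
    obtain ⟨j1, hj1⟩ := exists_mul_class hp (R := M * R)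
      (fun h => (hpi.dvd_or_dvd h).elim hpM hpR) j0
    set j := M * R * j1 with hj
    have hpj : ¬ (p : ℤ) ∣ j := by
      intro h
      exact hj0 (by have := dvd_sub h hj1; simpa using this)
    -- the primes other than `p`
    have hother : ∀ l : ℕ, l.Prime → l ≠ p → (l : ℤ) ∣ b1 * g' * D → (l : ℤ) ∣ R := by
      intro l hl hlp hd
      rw [hR] at hd
      rcases (Nat.prime_iff_prime_int.1 hl).dvd_or_dvd hd with h | h
      · exfalso
        have h1 := (Nat.prime_iff_prime_int.1 hl).dvd_of_dvd_pow h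
        rw [Int.natCast_dvd_natCast] at h1
        exact hlp ((Nat.prime_dvd_prime_iff_eq hl hp).1 h1)
      · exact h
    have hall : ∀ l : ℕ, l.Prime → (l : ℤ) ∣ D → Al l j := by
      intro l hl hd
      by_cases hlp : l = p
      · subst hlp
        exact hper l hl j0 j hj1 hj0'
      · refine hper l hl 0 j ?_ (h0 l hl)
        rw [sub_zero, hj]
        exact ((hother l hl hlp (hd.mul_left _)).mul_left M).mul_right j1
    have e1 : j * B1 = G * (j * b1) := by rw [hb1]; ring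
    have e2 : g - j * B2 = G * (g' - j * b2) := by
      conv_lhs => rw [hg', hb2]
      ring
    set d : ℤ := (Int.gcd (j * b1) (g' - j * b2) : ℤ) with hd
    have d1 : d ∣ j * b1 := by rw [hd]; exact Int.gcd_dvd_left _ _
    have d2 : d ∣ g' - j * b2 := by rw [hd]; exact Int.gcd_dvd_right _ _
    have e3 : g' - j * b2 = M * ((p : ℤ) ^ r' - R * j1 * b2) := by
      rw [hj]
      conv_lhs => rw [hM]
      ring
    have hdq : IsCoprime d ((p : ℤ) ^ r' - R * j1 * b2) := by
      refine isCoprime_of_prime fun l hl hl1 hl2 => ?_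
      have hli := Nat.prime_iff_prime_int.1 hl
      by_cases hlp : l = p
      · subst hlp
        have k1 : (l : ℤ) ∣ j * b1 := hl2.trans d1
        have k2 : (l : ℤ) ∣ b1 := (hli.dvd_or_dvd k1).resolve_left hpj
        have k3 : (l : ℤ) ∣ j * b2 := by
          have := dvd_sub hpg (hl2.trans d2)
          simpa using this
        have k4 : (l : ℤ) ∣ b2 := (hli.dvd_or_dvd k3).resolve_left hpj
        exact hcop hpg k2 k4
      · have hlpr : ¬ (l : ℤ) ∣ (p : ℤ) ^ r' := by
          intro h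
          have h1 := hli.dvd_of_dvd_pow h
          rw [Int.natCast_dvd_natCast] at h1
          exact hlp ((Nat.prime_dvd_prime_iff_eq hl hp).1 h1)
        have hlR : ¬ (l : ℤ) ∣ R * j1 := by
          intro h
          apply hlpr
          have := dvd_add hl1 (h.mul_right b2)
          simpa using this
        have k1 : (l : ℤ) ∣ j * b1 := hl2.trans d1
        rcases hli.dvd_or_dvd k1 with h | h
        · rw [hj, mul_assoc] at h
          rcases hli.dvd_or_dvd h with h | h
          · apply hlR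
            refine (hother l hl hlp ?_).mul_right _
            rw [hM]
            exact ((h.mul_left _).mul_left _).mul_right _
          · exact hlR h
        · exact hlR ((hother l hl hlp ((h.mul_right _).mul_right _)).mul_right _)
    rw [e3] at d2
    have d3 : d ∣ M := hdq.dvd_of_dvd_mul_right d2
    have h1 := hmin j hall (by
      rw [e1, e2, Int.gcd_mul_left, Nat.cast_mul, Int.natAbs_of_nonneg hGpos.le]
      refine dvd_trans (mul_dvd_mul_left G (d3.trans (?_ : M ∣ g'))) ?_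
      · rw [hM]; exact dvd_mul_left _ _
      · rw [← hg'])
    rw [e1, e2, Int.gcd_mul_left, Nat.cast_mul, Int.natAbs_of_nonneg hGpos.le] at h1
    have h2 : g' ≤ (Int.gcd (j * b1) (g' - j * b2) : ℤ) := by
      rw [hg'] at h1
      exact le_of_mul_le_mul_left h1 hGpos
    have d4 : d ≤ M := Int.le_of_dvd hM0 d3
    have d5 : M < g' := by
      rw [hM]
      have h3 : 1 < (p : ℤ) ^ r' := one_lt_pow₀ (by exact_mod_cast hp.one_lt) hr'
      nlinarith
    omega
  · have hcop2 : IsCoprime ((p : ℤ) ^ k) g' :=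
      (isCoprime_of_not_dvd hp hpg).pow_left
    have hG1 : (p : ℤ) ^ k ∣ G := by
      rw [hg'] at hk
      exact hcop2.dvd_of_dvd_mul_right hk
    exact ⟨by rw [hb1]; exact hG1.mul_right _, by rw [hb2]; exact hG1.mul_right _⟩

/-- the CRT lemma without forbidden classes, minimality for divisors only -/
theorem crt_minD {g B1 B2 : ℤ} (hg : 0 < g) (hB1 : B1 ≠ 0)
    (hmin : ∀ j : ℤ, (Int.gcd (j * B1) (g - j * B2) : ℤ) ∣ g →
      g ≤ Int.gcd (j * B1) (g - j * B2)) : g ∣ B1 ∧ g ∣ B2 := by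
  have key : ∀ (p k : ℕ), p.Prime → (p : ℤ) ^ k ∣ g → (p : ℤ) ^ k ∣ B1 ∧ (p : ℤ) ^ k ∣ B2 := by
    intro p k hp hk
    exact crt_minAD hg hB1 one_ne_zero (fun _ _ => True) (fun _ _ => trivial)
      (fun _ _ _ _ _ _ => trivial) hp ⟨1, prime_not_dvd_one hp, trivial⟩ (fun j _ => hmin j) hk
  exact ⟨dvd_of_prime_pow fun p k hp hk => (key p k hp hk).1,
    dvd_of_prime_pow fun p k hp hk => (key p k hp hk).2⟩

end Pool.Agent.H4G
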