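import Pool.Agent.H4G.Arith.Full
import Pool.Agent.H4G.Arith.CrtD

/-!
# HEX: linear algebra at the primes of the contents (L7, L8, parity) (helper29)

Page of helper40, section 2: `L7` (a prime `r` of `L`, `v`, `u + l'`, and `r ∣ K`), `L8` (a prime
`q` of `L'`, `u`, `v + l`), and the parity in the conflict at two.
-/

set_option autoImplicit false

namespace Pool.Agent.H4G

theorem PSt.Full.exists_sum {T : PSt} (h : T.Full) (z : Z2) :
    ∃ w ∈ T.L, ∃ w' ∈ T.L', ∃ m n : ℤ, z = w + w' + (m • T.u + n • T.v) := by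
  have hz : z ∈ T.L ⊔ T.L' ⊔ lat T.u T.v := by
    rw [PSt.Full] at h
    rw [h]; trivial
  obtain ⟨x, hx, y, hy, rfl⟩ := AddSubgroup.mem_sup.1 hz
  obtain ⟨w, hw, w', hw', rfl⟩ := AddSubgroup.mem_sup.1 hx
  obtain ⟨m, n, rfl⟩ := mem_lat.1 hy
  exact ⟨w, hw, w', hw', m, n, rfl⟩

theorem Dz.not_one {q : ℕ} (hq : q.Prime) : ¬ ∀ z : Z2, Dz q z := by
  intro h
  have h1 := (h (1, 0)).cr_left (0, 1)
  have e1 : cr ((1, 0) : Z2) (0, 1) = 1 := by simp [cr]
  rw [e1] at h1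
  exact prime_not_dvd_one hq h1

theorem Dz.dvd_of_all {q k : ℤ} (h : ∀ z : Z2, Dz q (k • z)) : q ∣ k := by
  have h1 := (h (1, 0)).cr_left (0, 1)
  have e1 : cr (k • ((1, 0) : Z2)) (0, 1) = k := by simp [cr]
  rwa [e1] at h1

/-- (L7), first part -/
theorem Ad.e7 {T : PSt} {l p l' p' : Z2} (ad : Ad T l p l' p') (hok : T.Ok)
    (hA : cr T.u T.v ≤ cr T.u p')
    (hL1 : ∀ T2 : PSt, SEq T T2 → ∃ r : ℕ, r.Prime ∧ Dz r T2.v ∧ ∀ w ∈ T2.L, Dz r w) :
    ∃ r : ℕ, r.Prime ∧ (∀ w ∈ T.L, Dz r w) ∧ Dz r T.v ∧ Dz r (T.u + l') := by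
  classical
  obtain ⟨i, hi⟩ := crt_dvd (cr p l) ad.isArea.1.ne' (fun r => if Dz r T.v then 1 else 0)
  obtain ⟨r, hr, h1, h2⟩ := hL1 _ (ad.twH hok hA i)
  dsimp only at h1 h2
  have hp : Dz r p := h2 p (by rw [ad.hL]; exact mem_lat.2 ⟨0, 1, by module⟩)
  have h3 := hi r hr (hp.cr_left l)
  refine ⟨r, hr, h2, ?_⟩
  by_cases hv : Dz r T.v
  · rw [if_pos hv] at h3
    refine ⟨hv, ?_⟩
    have h4 : Dz r (i • (T.u + l')) := by
      have := h1.sub hv
      rwa [add_sub_cancel_left] at this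
    refine (h4.mul_prime hr).resolve_left fun h5 => prime_not_dvd_one hr ?_
    have := dvd_sub h5 h3
    simpa using this
  · exfalso
    rw [if_neg hv, sub_zero] at h3
    apply hv
    have := h1.sub (Dz.of_dvd h3 (T.u + l'))
    rwa [add_sub_cancel_right] at this

/-- `L' = Z²` modulo `r` -/
theorem PSt.Full.e7 {T : PSt} (hF : T.Full) {l' : Z2} (hl' : l' ∈ T.L') {r : ℤ}
    (h1 : ∀ w ∈ T.L, Dz r w) (h2 : Dz r T.v) (h3 : Dz r (T.u + l')) (z : Z2) :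
    ∃ w ∈ T.L', Dz r (z - w) := by
  obtain ⟨w, hw, w', hw', m, n, rfl⟩ := hF.exists_sum z
  refine ⟨w' - m • l', T.L'.sub_mem hw' (T.L'.zsmul_mem hl' m), ?_⟩
  have e1 : w + w' + (m • T.u + n • T.v) - (w' - m • l') = w + n • T.v + m • (T.u + l') := by
    module
  rw [e1]
  exact ((h1 w hw).add (h2.smul n)).add (h3.smul m)

/-- (L7), second part: `r ∣ K` -/
theorem PSt.Full.e7K {T : PSt} (hF : T.Full) {l l' : Z2} (hl : l ∈ T.L) (hl' : l' ∈ T.L')
    {r : ℕ} (hr : r.Prime) (h1 : ∀ w ∈ T.L, Dz r w) (h2 : Dz r T.v) (h3 : Dz r (T.u + l'))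
    {K c : ℤ} (hc : c ≠ 0) (hK : K * c = cr T.u T.v + cr T.u l)
    (hv1 : ∀ w ∈ T.L', c ∣ cr (T.v + l) w) (hv2 : ∀ w ∈ T.L', c ∣ cr T.u w) : (r : ℤ) ∣ K := by
  have hV : Dz r (T.v + l) := h2.add (h1 l hl)
  have hfull := hF.e7 hl' h1 h2 h3
  have key : ∀ w ∈ T.L', Dz r (K • w) := by
    intro w hw
    obtain ⟨x, hx⟩ := hv1 w hw
    obtain ⟨y, hy⟩ := hv2 w hw
    have e1 := cr_dep T.u (T.v + l) w
    have e2 : K • w = (-x) • T.u + y • (T.v + l) := by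
      refine smul_inj hc ?_
      have e3 : cr T.u (T.v + l) = K * c := by rw [cr_add_right, hK]
      have e4 : cr w T.u = -(c * y) := by rw [cr_swap w T.u, hy]
      rw [hx, e4, e3] at e1
      have e5 : c • K • w = -((c * x) • T.u + (-(c * y)) • (T.v + l)) := by
        rw [eq_neg_iff_add_eq_zero, ← e1]; module
      rw [e5]; module
    rw [e2]
    refine Dz.add ?_ (hV.smul y)
    by_cases hrc : (r : ℤ) ∣ c
    · have hu : Dz r T.u := by
        rw [Dz.iff]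
        intro z
        obtain ⟨w1, hw1, hz⟩ := hfull z
        have e6 : cr T.u z = cr T.u w1 + cr T.u (z - w1) := by rw [cr_sub_right]; ring
        rw [e6]
        exact dvd_add (hrc.trans (hv2 w1 hw1)) (hz.cr_right _)
      exact hu.smul _
    · have h4 : (r : ℤ) ∣ c * x := by rw [← hx]; exact hV.cr_left w
      have h5 := ((Nat.prime_iff_prime_int.1 hr).dvd_or_dvd h4).resolve_left hrc
      exact Dz.of_dvd ((dvd_neg).2 h5) _
  refine Dz.dvd_of_all fun z => ?_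
  obtain ⟨w, hw, hz⟩ := hfull z
  have e1 : K • z = K • w + K • (z - w) := by module
  rw [e1]
  exact (key w hw).add (hz.smul K)

/-- (L8): `L = Z²` modulo `q` -/
theorem PSt.Full.e8 {T : PSt} (hF : T.Full) {l : Z2} (hl : l ∈ T.L) {q : ℤ}
    (h1 : ∀ w ∈ T.L', Dz q w) (h2 : Dz q T.u) (h3 : Dz q (T.v + l)) (z : Z2) :
    ∃ w ∈ T.L, Dz q (z - w) := by
  obtain ⟨w, hw, w', hw', m, n, rfl⟩ := hF.exists_sum z
  refine ⟨w - n • l, T.L.sub_mem hw (T.L.zsmul_mem hl n), ?_⟩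
  have e1 : w + w' + (m • T.u + n • T.v) - (w - n • l) = w' + m • T.u + n • (T.v + l) := by
    module
  rw [e1]
  exact ((h1 w' hw').add (h2.smul m)).add (h3.smul n)

/-- (L8), the numbers -/
theorem Ad.e8 {T : PSt} {l p l' p' : Z2} (ad : Ad T l p l' p') (hF : T.Full) {q : ℕ}
    (hq : q.Prime) (h1 : ∀ w ∈ T.L', Dz q w) (h2 : Dz q T.u) (h3 : Dz q (T.v + l)) :
    ¬ (q : ℤ) ∣ cr p l ∧ (q : ℤ) ∣ cr T.u T.v ∧ (q : ℤ) ∣ cr p l + cr p T.v ∧
      ∀ r : ℕ, r.Prime → (∀ w ∈ T.L, Dz r w) → q ≠ r := by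
  have hl : l ∈ T.L := by rw [ad.hL]; exact mem_lat.2 ⟨1, 0, by module⟩
  have hfull := hF.e8 hl h1 h2 h3
  have hnot : ¬ ∀ w ∈ T.L, Dz q w := by
    intro h4
    refine Dz.not_one hq fun z => ?_
    obtain ⟨w, hw, hz⟩ := hfull z
    have e1 : z = w + (z - w) := by module
    rw [e1]
    exact (h4 w hw).add hz
  refine ⟨fun ha => hnot ?_, h2.cr_left _, ?_, ?_⟩
  · rw [ad.hL, dz_lat]
    constructor
    · rw [Dz.iff]
      intro z
      obtain ⟨w, hw, hz⟩ := hfull z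
      have e6 : cr l z = cr l w + cr l (z - w) := by rw [cr_sub_right]; ring
      rw [e6]
      refine dvd_add ?_ (hz.cr_right _)
      rw [ad.hL] at hw
      obtain ⟨m, n, rfl⟩ := mem_lat.1 hw
      rw [cr_add_right, cr_smul_right, cr_smul_right, cr_self, cr_swap l p]
      rw [mul_zero, zero_add]
      exact ((dvd_neg).2 ha).mul_left _
    · rw [Dz.iff]
      intro z
      obtain ⟨w, hw, hz⟩ := hfull z
      have e6 : cr p z = cr p w + cr p (z - w) := by rw [cr_sub_right]; ring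
      rw [e6]
      refine dvd_add ?_ (hz.cr_right _)
      rw [ad.hL] at hw
      obtain ⟨m, n, rfl⟩ := mem_lat.1 hw
      rw [cr_add_right, cr_smul_right, cr_smul_right, cr_self, mul_zero, add_zero]
      exact ha.mul_left _
  · have := h3.cr_right p
    rw [cr_add_right] at this
    rw [add_comm]; exact this
  · rintro r hr h4 rfl
    exact hnot h4

/-- the parity in the conflict at two: `L` is even -/
theorem Ad.e_parity {T : PSt} {l p l' p' : Z2} (ad : Ad T l p l' p') {N : ℕ} (hN : N.Prime)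
    (hv : cr p l + cr T.u T.v + cr l' p' = N) (h2 : ∀ w ∈ T.L, Dz 2 w) {K c α : ℤ}
    (hK : K * c = cr T.u T.v + cr T.u l) (hKa : K * cr l' p' = α * c) (hK2 : ¬ (2 : ℤ) ∣ K) :
    ¬ (2 : ℤ) ∣ cr T.u T.v ∧ (2 : ℤ) ∣ cr p T.v ∧ (2 : ℤ) ∣ cr p l ∧ (2 : ℤ) ∣ cr T.u l := by
  have hl : Dz 2 l := h2 l (by rw [ad.hL]; exact mem_lat.2 ⟨1, 0, by module⟩)
  have hp : Dz 2 p := h2 p (by rw [ad.hL]; exact mem_lat.2 ⟨0, 1, by module⟩)
  have he := hl.cr_right T.u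
  have ha := hl.cr_right p
  have hb := hp.cr_left T.v
  refine ⟨fun hA => ?_, hb, ha, he⟩
  have h3 : (2 : ℤ) ∣ K * c := by rw [hK]; exact dvd_add hA he
  have h4 := (Int.prime_two.dvd_or_dvd h3).resolve_left hK2
  have h5 : (2 : ℤ) ∣ K * cr l' p' := by rw [hKa]; exact h4.mul_left _
  have h6 := (Int.prime_two.dvd_or_dvd h5).resolve_left hK2
  have h7 : (2 : ℤ) ∣ N := by rw [← hv]; exact dvd_add (dvd_add ha hA) h6
  have h8 : 2 ∣ N := by exact_mod_cast h7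
  have h9 := (Nat.prime_dvd_prime_iff_eq Nat.prime_two hN).1 h8
  have k1 := ad.isArea.1
  have k2 := ad.hA
  have k3 := ad.isArea'.1
  rw [← h9] at hv
  push_cast at hv
  omega

end Pool.Agent.H4G
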