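import Pool.Agent.H4G.Arith.CrtD

/-!
# The lemma HL of helper23: `b, c, f` odd, `e = 2 mod 4`, `a'` even imply `c ∣ A` (helper5)
-/

set_option autoImplicit false

namespace Pool.Agent.H4G

theorem hl_num1 {x y D : ℤ} (hx : x ≠ 0) (hx2 : (2 : ℤ) ∣ x) (hy : ¬ (2 : ℤ) ∣ y) (hD : D ≠ 0) :
    ∃ i : ℤ, (∀ q : ℕ, q.Prime → q ≠ 2 → (q : ℤ) ∣ D → (q : ℤ) ∣ i) ∧
      (Int.gcd (i * x) (1 - i * y) : ℤ) = 2 := by
  obtain ⟨s, R, h1, h2⟩ := exists_pow_mul Nat.prime_two (mul_ne_zero hD hx)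
  push_cast at h1 h2
  have odd_sq : ∀ t : ℤ, ¬ (2 : ℤ) ∣ t → (4 : ℤ) ∣ t * t - 1 := by
    intro t ht
    obtain ⟨k, hk⟩ : ∃ k, t = 2 * k + 1 := ⟨t / 2, by omega⟩
    exact ⟨k * k + k, by rw [hk]; ring⟩
  refine ⟨-(y * (R * R)), ?_, ?_⟩
  · intro q hq hq2 hqD
    have h3 : (q : ℤ) ∣ (2 : ℤ) ^ s * R := by rw [← h1]; exact hqD.mul_right x
    have hqi := Nat.prime_iff_prime_int.1 hq
    rcases hqi.dvd_or_dvd h3 with h4 | h4
    · exfalso
      have h5 := hqi.dvd_of_dvd_pow h4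
      have h6 : (q : ℤ) ∣ ((2 : ℕ) : ℤ) := by exact_mod_cast h5
      rw [Int.natCast_dvd_natCast] at h6
      exact hq2 ((Nat.prime_dvd_prime_iff_eq hq Nat.prime_two).1 h6)
    · exact (dvd_neg).2 ((h4.mul_right R).mul_left y)
  · set i := -(y * (R * R)) with hi
    obtain ⟨w, hw, hw2⟩ : ∃ w : ℤ, 1 - i * y = 2 * w ∧ ¬ (2 : ℤ) ∣ w := by
      have e : 1 - i * y = 1 + (y * y) * (R * R) := by rw [hi]; ring
      obtain ⟨k1, k2⟩ := odd_sq y hy
      obtain ⟨k3, k4⟩ := odd_sq R h2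
      have e2 : (y * y) * (R * R) = 4 * (4 * k1 * k3 + k1 + k3) + 1 := by
        have a1 : y * y = 4 * k1 + 1 := by linarith
        have a2 : R * R = 4 * k3 + 1 := by linarith
        rw [a1, a2]; ring
      refine ⟨1 + 2 * (4 * k1 * k3 + k1 + k3), by rw [e, e2]; ring, ?_⟩
      rintro ⟨k, hk⟩
      omega
    obtain ⟨d, hd⟩ : ∃ d : ℤ, d = (Int.gcd (i * x) (1 - i * y) : ℤ) := ⟨_, rfl⟩
    have d0 : 0 ≤ d := by rw [hd]; positivity
    have d1 : d ∣ i * x := by rw [hd]; exact Int.gcd_dvd_left _ _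
    have d2 : d ∣ 1 - i * y := by rw [hd]; exact Int.gcd_dvd_right _ _
    have d3 : (2 : ℤ) ∣ d := by
      rw [hd]
      exact Int.dvd_coe_gcd (hx2.mul_left i) (by rw [hw]; exact dvd_mul_right _ _)
    have c1 : IsCoprime d i := by
      obtain ⟨k, hk⟩ := d2
      exact ⟨k, y, by linear_combination -hk⟩
    have c2 : IsCoprime d R := by
      have e : i = R * (-(y * R)) := by rw [hi]; ring
      rw [e] at c1
      exact c1.of_mul_right_left
    have d4 : d ∣ x := c1.dvd_of_dvd_mul_left d1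
    have d5 : d ∣ (2 : ℤ) ^ s := by
      refine c2.dvd_of_dvd_mul_right ?_
      rw [← h1]; exact d4.mul_left D
    have d6 : d ∣ 2 := by
      have c3 : IsCoprime ((2 : ℤ) ^ s) w :=
        (isCoprime_of_not_dvd (p := 2) Nat.prime_two (by exact_mod_cast hw2)).pow_left
      obtain ⟨α, β, hab⟩ := c3
      have e : (2 : ℤ) = 2 ^ s * (2 * α) + (2 * w) * β := by linear_combination (-2 : ℤ) * hab
      rw [e]
      exact dvd_add (d5.mul_right _) (by rw [← hw]; exact d2.mul_right _)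
    rw [← hd]
    exact Int.dvd_antisymm d0 (by norm_num) d6 d3

theorem hl_num2 {x y D : ℤ} (hx : ¬ (2 : ℤ) ∣ x) (hD : D ≠ 0) :
    ∃ i : ℤ, (∀ q : ℕ, q.Prime → q ≠ 2 → (q : ℤ) ∣ D → (q : ℤ) ∣ i) ∧
      (Int.gcd (i * x) (2 - i * y) : ℤ) = 1 := by
  have hx0 : x ≠ 0 := by rintro rfl; exact hx (dvd_zero _)
  obtain ⟨s, R, h1, h2⟩ := exists_pow_mul Nat.prime_two (mul_ne_zero hD hx0)
  push_cast at h1 h2
  refine ⟨R, ?_, ?_⟩
  · intro q hq hq2 hqD
    have h3 : (q : ℤ) ∣ (2 : ℤ) ^ s * R := by rw [← h1]; exact hqD.mul_right x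
    have hqi := Nat.prime_iff_prime_int.1 hq
    rcases hqi.dvd_or_dvd h3 with h4 | h4
    · exfalso
      have h5 := hqi.dvd_of_dvd_pow h4
      have h6 : (q : ℤ) ∣ ((2 : ℕ) : ℤ) := by exact_mod_cast h5
      rw [Int.natCast_dvd_natCast] at h6
      exact hq2 ((Nat.prime_dvd_prime_iff_eq hq Nat.prime_two).1 h6)
    · exact h4
  · have hxR : x ∣ R := by
      have c : IsCoprime x ((2 : ℤ) ^ s) :=
        ((isCoprime_of_not_dvd (p := 2) Nat.prime_two (by exact_mod_cast hx)).pow_left).symm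
      refine c.dvd_of_dvd_mul_left ?_
      rw [← h1]; exact dvd_mul_left _ _
    have c1 : IsCoprime (2 : ℤ) R := by
      have := isCoprime_of_not_dvd (p := 2) (x := R) Nat.prime_two (by exact_mod_cast h2)
      exact_mod_cast this
    have c2 : IsCoprime (R * x) (2 - R * y) := by
      have c3 : IsCoprime R (2 - R * y) := by
        have := (IsCoprime.add_mul_left_right_iff (x := R) (y := 2) (z := -y)).2 c1.symm
        have e : 2 + R * -y = 2 - R * y := by ring
        rwa [e] at this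
      have c4 : IsCoprime x (2 - R * y) := c3.of_isCoprime_of_dvd_left hxR
      exact c3.mul_left c4
    have := Int.isCoprime_iff_gcd_eq_one.1 c2
    exact_mod_cast this

/-- `c` odd, `a'` even: `l'` is divisible by two -/
theorem dz_two {u l' p' : Z2} (h4 : cr u l' = 0) (hc : ¬ (2 : ℤ) ∣ cr u p')
    (ha : (2 : ℤ) ∣ cr l' p') : Dz 2 l' := by
  have h := cr_dep u l' p'
  rw [h4, zero_smul, add_zero, cr_swap p' u] at h
  have h1 : cr u p' • l' = cr l' p' • u := by
    have := eq_neg_of_add_eq_zero_right h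
    rw [neg_smul, neg_eq_iff_eq_neg, neg_neg] at this
    exact this
  have h2 : Dz 2 (cr u p' • l') := by rw [h1]; exact Dz.of_dvd ha u
  refine Dz.of_coprime ?_ h2
  have := isCoprime_of_not_dvd (p := 2) (x := cr u p') Nat.prime_two (by exact_mod_cast hc)
  exact_mod_cast this

/-- the number `X` of an H-twist is not zero -/
theorem Ad.X_ne {T : PSt} {l p l' p' : Z2} (ad : Ad T l p l' p') : cr (T.u + l') l ≠ 0 := by
  have k1 := plucker l l' T.u T.v
  rw [ad.h1, cr_swap l' T.u, ad.h4, cr_swap l T.u] at k1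
  have k2 : 0 < cr T.u l * cr l' T.v := mul_pos ad.h2 ad.h5
  have k3 : cr l l' * cr T.u T.v < 0 := by linarith
  have k4 : cr l l' < 0 := by
    by_contra hn
    push Not at hn
    have := mul_nonneg hn ad.hA.le
    linarith
  have k5 := ad.h2
  rw [cr_add_left, cr_swap l' l]
  omega

/-- the number `B₁` of a V-twist is not zero -/
theorem Ad.B_ne {T : PSt} {l p l' p' : Z2} (ad : Ad T l p l' p') : cr (T.v + l) l' ≠ 0 := by
  have k1 := plucker l l' T.u T.v
  rw [ad.h1, cr_swap l' T.u, ad.h4, cr_swap l T.u] at k1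
  have k2 : 0 < cr T.u l * cr l' T.v := mul_pos ad.h2 ad.h5
  have k3 : cr l l' * cr T.u T.v < 0 := by linarith
  have k4 : cr l l' < 0 := by
    by_contra hn
    push Not at hn
    have := mul_nonneg hn ad.hA.le
    linarith
  have k5 := ad.h5
  rw [cr_add_left, cr_swap T.v l']
  omega

/-- the gap after an H-twist -/
theorem Ad.gapH {T : PSt} {l p l' p' : Z2} (ad : Ad T l p l' p') {g : ℤ} (hg : cr p T.v = g)
    (i : ℤ) : IsC T.L (T.v + i • (T.u + l'))
      (Int.gcd (i * cr (T.u + l') l) (g - i * cr (T.u + l') p) : ℕ) := by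
  have g0 : 0 < g := by rw [← hg]; exact ad.h3
  have e4 : cr (T.v + i • (T.u + l')) l = i * cr (T.u + l') l := by
    rw [cr_add_left, cr_smul_left, cr_swap T.v l, ad.h1]; ring
  have e5 : cr (T.v + i • (T.u + l')) p = -(g - i * cr (T.u + l') p) := by
    rw [cr_add_left, cr_smul_left, cr_swap T.v p, hg]; ring
  have := isC_lat (x := l) (y := p) (u := T.v + i • (T.u + l')) (by
    rw [e4, e5]
    rcases eq_or_ne i 0 with hj | hj
    · right; rw [hj]; simp; omega
    · left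
      exact mul_ne_zero hj ad.X_ne)
  rw [e4, e5, Int.gcd_neg, ← ad.hL] at this
  exact this

/-- the gap after a V-twist -/
theorem Ad.gapV {T : PSt} {l p l' p' : Z2} (ad : Ad T l p l' p') {g : ℤ} (hg : cr T.u p' = g)
    (j : ℤ) : IsC T.L' (T.u - j • (T.v + l))
      (Int.gcd (j * cr (T.v + l) l') (g - j * cr (T.v + l) p') : ℕ) := by
  have g0 : 0 < g := by rw [← hg]; exact ad.h6
  have e4 : cr (T.u - j • (T.v + l)) l' = -(j * cr (T.v + l) l') := by
    rw [cr_sub_left, cr_smul_left, ad.h4]; ring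
  have e5 : cr (T.u - j • (T.v + l)) p' = g - j * cr (T.v + l) p' := by
    rw [cr_sub_left, cr_smul_left, hg]
  have := isC_lat (x := l') (y := p') (u := T.u - j • (T.v + l)) (by
    rw [e4, e5]
    rcases eq_or_ne j 0 with hj | hj
    · right; rw [hj]; simp; omega
    · left
      exact neg_ne_zero.2 (mul_ne_zero hj ad.B_ne))
  rw [e4, e5, Int.neg_gcd, ← ad.hL'] at this
  exact this

/-- divisibility from odd prime powers, for an odd number -/
theorem dvd_of_odd_pow {b z : ℤ} (hb : ¬ (2 : ℤ) ∣ b)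
    (h : ∀ (q k : ℕ), q.Prime → q ≠ 2 → (q : ℤ) ^ k ∣ b → (q : ℤ) ^ k ∣ z) : b ∣ z := by
  refine dvd_of_prime_pow fun q k hq hk => ?_
  rcases Nat.eq_zero_or_pos k with rfl | hk0
  · simp
  · refine h q k hq ?_ hk
    rintro rfl
    exact hb ((dvd_pow_self ((2 : ℕ) : ℤ) hk0.ne').trans hk)

/-- **HL LEMMA** -/
theorem ExtB.hl {S : PSt} {a' b c : ℤ} (h : ExtB S a' b c) {l p l' p' : Z2}
    (ad : Ad S l p l' p') (hb2 : ¬ (2 : ℤ) ∣ b) (hc2 : ¬ (2 : ℤ) ∣ c)
    (hf2 : ¬ (2 : ℤ) ∣ cr S.u p) (he2 : (2 : ℤ) ∣ cr S.u l)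
    (he4 : ¬ (4 : ℤ) ∣ cr S.u l) (ha2 : (2 : ℤ) ∣ a') : c ∣ cr S.u S.v := by
  have E1 : cr p S.v = b := ad.isC.unique h.hb
  have E2 : cr S.u p' = c := ad.isC'.unique h.hc
  have E3 : cr l' p' = a' := ad.isArea'.unique h.ha'
  have hb0 := h.bpos
  have hc0 := h.hc.1
  have ha0 : a' ≠ 0 := h.ha'.1.ne'
  have hAc : cr S.u S.v ≤ cr S.u p' := by rw [E2]; exact h.leA h.ok.seq h.ha' h.con h.hc
  have hcl : Con1 (lat l' p') := by rw [← ad.hL']; exact h.con
  have hD2 : Dz 2 l' := dz_two ad.h4 (by rw [E2]; exact hc2) (by rw [E3]; exact ha2)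
  -- step 1: the H-twist to gap `2 b`
  obtain ⟨x, hx⟩ : b ∣ cr (S.u + l') l := dvd_of_odd_pow hb2 fun q k hq hq2 hk =>
    (h.hrigAt h.ok.seq h.ha' h.con h.hb ad hq (Alw.exists_odd hcl hq hq2) hk).1
  obtain ⟨y, hy⟩ : b ∣ cr (S.u + l') p := dvd_of_odd_pow hb2 fun q k hq hq2 hk =>
    (h.hrigAt h.ok.seq h.ha' h.con h.hb ad hq (Alw.exists_odd hcl hq hq2) hk).2
  have hx0 : x ≠ 0 := by
    rintro rfl
    exact ad.X_ne (by rw [hx, mul_zero])
  have hx2 : (2 : ℤ) ∣ x := by
    have h1 : (2 : ℤ) ∣ b * x := by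
      rw [← hx, cr_add_left]
      exact dvd_add he2 (hD2.cr_left l)
    exact (Int.prime_two.dvd_or_dvd h1).resolve_left hb2
  have hy2 : ¬ (2 : ℤ) ∣ y := by
    intro h9
    apply hf2
    have h1 : (2 : ℤ) ∣ cr (S.u + l') p := by rw [hy]; exact h9.mul_left b
    rw [cr_add_left] at h1
    exact (dvd_add_left (hD2.cr_left p)).1 h1
  obtain ⟨i, i1, i2⟩ := hl_num1 hx0 hx2 hy2 ha0
  have k1 := ad.twH h.ok hAc i
  have hgap : IsC S.L (S.v + i • (S.u + l')) (2 * b) := by
    have := ad.gapH E1 i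
    have e : (Int.gcd (i * cr (S.u + l') l) (b - i * cr (S.u + l') p) : ℤ) = 2 * b := by
      have e1 : i * cr (S.u + l') l = b * (i * x) := by rw [hx]; ring
      have e2 : b - i * cr (S.u + l') p = b * (1 - i * y) := by rw [hy]; ring
      rw [e1, e2, Int.gcd_mul_left, Nat.cast_mul, Int.natAbs_of_nonneg hb0.le, i2]; ring
    rwa [e] at this
  have hAlw : ∀ q : ℕ, q.Prime → (q : ℤ) ∣ a' → Alw l' p' S.u q i := by
    intro q hq hqa
    by_cases hq2 : q = 2
    · subst hq2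
      exact Alw.of_not_dvd (by rw [E2]; exact_mod_cast hc2) i
    · refine Alw.per (k := 0) ?_ (Alw.zero hcl hq)
      rw [sub_zero]; exact i1 q hq hq2 hqa
  have hconi : Con1 (lat l' (p' + i • S.u)) := con1_of_alw ad.h4 E3 hAlw
  obtain ⟨v, hv⟩ : ∃ v, v = S.v + i • (S.u + l') := ⟨_, rfl⟩
  rw [← hv] at k1 hgap
  have hA' : cr S.u v = cr S.u S.v := by
    rw [hv, cr_add_right, cr_smul_right, cr_add_right, cr_self, ad.h4]; ring
  obtain ⟨l1, p1, l1', p1', ad1⟩ := exists_Ad k1.ok'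
  have F1 : cr p1 v = 2 * b := ad1.isC.unique hgap
  have hareaL : IsArea S.L (cr p l) := ad.isArea
  have F0 : cr p1 l1 = cr p l := ad1.isArea.unique hareaL
  have hLi : lat l' (p' + i • S.u) = lat l1' p1' := ad1.hL'
  have ha'i : IsArea (lat l' (p' + i • S.u)) a' := by
    have h1 : cr l' (p' + i • S.u) = cr l' p' := by
      rw [cr_add_right, cr_smul_right, cr_swap l' S.u, ad.h4]; ring
    exact ⟨h.ha'.1, p' + i • S.u, l', by rw [h1, E3], lat_comm _ _⟩
  have hci : IsC (lat l' (p' + i • S.u)) S.u c := by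
    have e : cr S.u (p' + i • S.u) = c := by
      rw [cr_add_right, cr_smul_right, cr_self, E2]; ring
    have : IsC (lat l' (p' + i • S.u)) S.u (cr S.u (p' + i • S.u)) :=
      isC_adapted ad.h4 (by rw [e]; exact hc0)
    rwa [e] at this
  have F2 : cr S.u p1' = c := ad1.isC'.unique hci
  have F3 : cr l1' p1' = a' := ad1.isArea'.unique ha'i
  -- the height at gap `2 b`
  have hS := ad.area
  rw [E1] at hS
  obtain ⟨e1, he1⟩ : ∃ e1, cr S.u l = 2 * e1 := he2
  have he1' : ¬ (2 : ℤ) ∣ e1 := by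
    rintro ⟨k, hk⟩
    exact he4 ⟨k, by rw [he1, hk]; ring⟩
  have F4 : cr S.u l1 = e1 := by
    have h1 := ad1.area
    dsimp only at h1
    rw [F0, F1, hA', hS, he1] at h1
    have : (2 * b) * (cr S.u l1 - e1) = 0 := by linarith
    rcases mul_eq_zero.1 this with h9 | h9
    · omega
    · linarith
  have hAb : cr S.u v ≤ cr p1 v := by rw [hA', F1]; have := h.hA; linarith
  -- step 2: V-rigidity at this state
  have hV : c ∣ cr (v + l1) l1' ∧ c ∣ cr (v + l1) p1' := by
    refine crt_minD hc0 ad1.B_ne fun j hj => ?_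
    have k2 := ad1.twV k1.ok' hAb j
    dsimp only at k2
    have g1 := ad1.gapV F2 j
    dsimp only at g1
    set cj : ℤ := ((Int.gcd (j * cr (v + l1) l1') (c - j * cr (v + l1) p1') : ℕ) : ℤ) with hcj
    have hcj2 : ¬ (2 : ℤ) ∣ cj := fun h9 => hc2 (h9.trans hj)
    obtain ⟨u2, hu2⟩ : ∃ u2, u2 = S.u - j • (v + l1) := ⟨_, rfl⟩
    obtain ⟨q2, hq2⟩ : ∃ q2, q2 = p1 - j • v := ⟨_, rfl⟩
    rw [← hu2, ← hq2] at k2
    rw [← hu2] at g1
    have k3 := k1.trans k2
    have G0 : cr u2 v = cr S.u S.v := by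
      rw [hu2, cr_sub_left, cr_smul_left, cr_add_left, cr_self, ad1.h1, hA']; ring
    have hgap2 : IsC (lat l1 q2) v (2 * b) := by
      have : cr q2 v = 2 * b := by rw [hq2, cr_sub_left, cr_smul_left, cr_self, F1]; ring
      rw [← this]
      exact isC_of_par ad1.h1 (by rw [this]; linarith)
    have harea2 : IsArea (lat l1 q2) (cr p l) := by
      have : cr q2 l1 = cr p l := by
        rw [hq2, cr_sub_left, cr_smul_left, cr_swap v l1, ad1.h1, F0]; ring
      exact ⟨ad.pos, l1, q2, this, rfl⟩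
    obtain ⟨l2, p2, l2', p2', ad2⟩ := exists_Ad k3.ok'
    have G1 : cr p2 v = 2 * b := ad2.isC.unique hgap2
    have G2 : cr u2 p2' = cj := ad2.isC'.unique g1
    have G3 : cr l2' p2' = a' := ad2.isArea'.unique ha'i
    have G4 : cr p2 l2 = cr p l := ad2.isArea.unique harea2
    have G5 : cr u2 l2 = e1 := by
      have h1 := ad2.area
      dsimp only at h1
      rw [G4, G1, G0, hS, he1] at h1
      have : (2 * b) * (cr u2 l2 - e1) = 0 := by linarith
      rcases mul_eq_zero.1 this with h9 | h9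
      · omega
      · linarith
    have hcl2 : Con1 (lat l2' p2') := by
      have := ad2.hL'
      dsimp only at this
      rw [← this]; exact hconi
    have hD2' : Dz 2 l2' := dz_two ad2.h4 (by rw [G2]; exact hcj2) (by rw [G3]; exact ha2)
    have hAc2 : cr u2 v ≤ cr u2 p2' := by
      have := h.leA k3 (by exact ha'i) (by exact hconi) (d := cj) (by exact g1)
      rw [G2]; exact this
    -- rigidity of `b` at this state
    have hal2 : ∀ i' : ℤ, (∀ q : ℕ, q.Prime → (q : ℤ) ∣ a' → Alw l2' p2' u2 q i') →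
        2 * b ≤ 2 * (Int.gcd (i' * cr (u2 + l2') l2) (2 * b - i' * cr (u2 + l2') p2) : ℕ) := by
      intro i' hi'
      have t1 := ad2.twH k3.ok' hAc2 i'
      dsimp only at t1
      have t2 := ad2.gapH G1 i'
      dsimp only at t2
      have t3 : IsArea (lat l2' (p2' + i' • u2)) a' := by
        have h1 : cr l2' (p2' + i' • u2) = cr l2' p2' := by
          have := ad2.h4
          dsimp only at this
          rw [cr_add_right, cr_smul_right, cr_swap l2' u2, this]; ring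
        exact ⟨h.ha'.1, p2' + i' • u2, l2', by rw [h1, G3], lat_comm _ _⟩
      have t4 : Con1 (lat l2' (p2' + i' • u2)) := con1_of_alw ad2.h4 G3 hi'
      have := h.min _ _ (k3.trans t1) t3 t4 t2
      linarith
    have hrig2 : ∀ (q k : ℕ), q.Prime → q ≠ 2 → (q : ℤ) ^ k ∣ b →
        (q : ℤ) ^ k ∣ cr (u2 + l2') l2 ∧ (q : ℤ) ^ k ∣ cr (u2 + l2') p2 := by
      intro q k hq hq2 hk
      exact crt_minB (by linarith) ad2.X_ne ha0 (Alw l2' p2' u2)
        (fun r hr => Alw.zero hcl2 hr) (fun r _ k k' hkk => Alw.per hkk) hq hq2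
        (Alw.exists_odd hcl2 hq hq2) hal2 (hk.mul_left 2)
    obtain ⟨x2, hx2'⟩ : b ∣ cr (u2 + l2') l2 :=
      dvd_of_odd_pow hb2 fun q k hq hq2 hk => (hrig2 q k hq hq2 hk).1
    obtain ⟨y2, hy2'⟩ : b ∣ cr (u2 + l2') p2 :=
      dvd_of_odd_pow hb2 fun q k hq hq2 hk => (hrig2 q k hq hq2 hk).2
    have hx2o : ¬ (2 : ℤ) ∣ x2 := by
      intro h9
      apply he1'
      have h1 : (2 : ℤ) ∣ cr (u2 + l2') l2 := by rw [hx2']; exact h9.mul_left b
      rw [cr_add_left, G5] at h1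
      exact (dvd_add_left (hD2'.cr_left l2)).1 h1
    obtain ⟨i', j1, j2⟩ := hl_num2 (y := y2) hx2o ha0
    have hal : ∀ q : ℕ, q.Prime → (q : ℤ) ∣ a' → Alw l2' p2' u2 q i' := by
      intro q hq hqa
      by_cases hq2 : q = 2
      · subst hq2
        exact Alw.of_not_dvd (by rw [G2]; exact_mod_cast hcj2) i'
      · refine Alw.per (k := 0) ?_ (Alw.zero hcl2 hq)
        rw [sub_zero]; exact j1 q hq hq2 hqa
    have t1 := ad2.twH k3.ok' hAc2 i'
    dsimp only at t1
    have t2 : IsC (lat l1 q2) (v + i' • (u2 + l2')) b := by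
      have := ad2.gapH G1 i'
      dsimp only at this
      have e : (Int.gcd (i' * cr (u2 + l2') l2) (2 * b - i' * cr (u2 + l2') p2) : ℤ) = b := by
        have e1 : i' * cr (u2 + l2') l2 = b * (i' * x2) := by rw [hx2']; ring
        have e2 : 2 * b - i' * cr (u2 + l2') p2 = b * (2 - i' * y2) := by rw [hy2']; ring
        rw [e1, e2, Int.gcd_mul_left, Nat.cast_mul, Int.natAbs_of_nonneg hb0.le, j2]; ring
      rwa [e] at this
    have t3 : IsArea (lat l2' (p2' + i' • u2)) a' := by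
      have h1 : cr l2' (p2' + i' • u2) = cr l2' p2' := by
        have := ad2.h4
        dsimp only at this
        rw [cr_add_right, cr_smul_right, cr_swap l2' u2, this]; ring
      exact ⟨h.ha'.1, p2' + i' • u2, l2', by rw [h1, G3], lat_comm _ _⟩
    have t4 : Con1 (lat l2' (p2' + i' • u2)) := con1_of_alw ad2.h4 G3 hal
    have t5 : IsC (lat l2' (p2' + i' • u2)) u2 cj := by
      have h4 := ad2.h4
      dsimp only at h4
      have e : cr u2 (p2' + i' • u2) = cj := by
        rw [cr_add_right, cr_smul_right, cr_self, G2]; ring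
      have h6 := ad2.h6
      dsimp only at h6
      have : IsC (lat l2' (p2' + i' • u2)) u2 (cr u2 (p2' + i' • u2)) :=
        isC_adapted h4 (by rw [e, ← G2]; exact h6)
      rwa [e] at this
    have t6 : cr u2 (v + i' • (u2 + l2')) ≤ b := by
      have h4 := ad2.h4
      dsimp only at h4
      have : cr u2 (v + i' • (u2 + l2')) = cr S.u S.v := by
        rw [cr_add_right, cr_smul_right, cr_add_right, cr_self, h4, G0]; ring
      rw [this]; exact h.hA
    exact h.min' _ _ (k3.trans t1) t3 t4 t2 t6 t5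
  -- step 3
  have key : ∀ w ∈ lat l' (p' + i • S.u), Dz c ((cr S.u v + cr S.u l1) • w) := by
    intro w hw
    have g1 := cr_dep S.u (v + l1) w
    have g2 : c ∣ cr (v + l1) w := by
      rw [hLi] at hw
      obtain ⟨m, n, rfl⟩ := mem_lat.1 hw
      rw [cr_add_right, cr_smul_right, cr_smul_right]
      exact dvd_add (hV.1.mul_left _) (hV.2.mul_left _)
    have g3 : c ∣ cr w S.u := by
      rw [cr_swap w S.u]
      exact (dvd_neg).2 (hci.2.1 w hw)
    have g4 : (cr S.u v + cr S.u l1) • w = -(cr (v + l1) w • S.u + cr w S.u • (v + l1)) := by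
      rw [← cr_add_right]
      exact eq_neg_of_add_eq_zero_right g1
    rw [g4]
    exact ((Dz.of_dvd g2 _).add (Dz.of_dvd g3 _)).neg
  have r1 : c ∣ cr S.u v + cr S.u l1 := hconi.dvd hc0.ne' key
  have r2 := h.K_int ad
  rw [hA', F4] at r1
  rw [he1] at r2
  have r3 : c ∣ e1 := by
    have := dvd_sub r2 r1
    have e : cr S.u S.v + 2 * e1 - (cr S.u S.v + e1) = e1 := by ring
    rwa [e] at this
  have := dvd_sub r1 r3
  rwa [add_sub_cancel_right] at this

end Pool.Agent.H4G
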