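import Pool.Agent.H4G.Arith.F2
import Pool.Agent.H4G.Arith.HL

/-!
# A class without a state of content one (helper40's page HEX, 2, L1-L6; typed by helper5)

If no state of the class has content one, then there is a state without exits of level one.
-/

set_option autoImplicit false

namespace Pool.Agent.H4G

/-! ## The content of a lattice -/

theorem dz_coord {d : ℤ} {x : Z2} : Dz d x ↔ d ∣ x.1 ∧ d ∣ x.2 := by
  constructor
  · rintro ⟨w, rfl⟩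
    exact ⟨⟨w.1, rfl⟩, ⟨w.2, rfl⟩⟩
  · rintro ⟨⟨s, hs⟩, ⟨t, ht⟩⟩
    exact ⟨(s, t), Prod.ext hs ht⟩

theorem Dz.of_dz {d d' : ℤ} (h : d ∣ d') {x : Z2} (hx : Dz d' x) : Dz d x := by
  rw [dz_coord] at hx ⊢
  exact ⟨h.trans hx.1, h.trans hx.2⟩

/-- `d` is the content of `M` -/
def IsCont (M : AddSubgroup Z2) (d : ℤ) : Prop :=
  0 < d ∧ (∀ w ∈ M, Dz d w) ∧ ∀ d' : ℤ, (∀ w ∈ M, Dz d' w) → d' ∣ d

theorem exists_cont {M : AddSubgroup Z2} {a : ℤ} (ha : IsArea M a) : ∃ d, IsCont M d := by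
  obtain ⟨ha0, l, p, h1, h2⟩ := ha
  subst h2
  refine ⟨(Int.gcd (Int.gcd l.1 l.2 : ℕ) (Int.gcd p.1 p.2 : ℕ) : ℕ), ?_, ?_, ?_⟩
  · have : 0 < Int.gcd (Int.gcd l.1 l.2 : ℕ) (Int.gcd p.1 p.2 : ℕ) := by
      rw [Int.gcd_pos_iff]
      by_contra hn
      push Not at hn
      obtain ⟨h3, h4⟩ := hn
      have h5 : Int.gcd l.1 l.2 = 0 := by exact_mod_cast h3
      obtain ⟨h6, h7⟩ := Int.gcd_eq_zero_iff.1 h5
      rw [← h1] at ha0
      simp only [cr, h6, h7] at ha0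
      simp at ha0
    exact_mod_cast this
  · rw [dz_lat, dz_coord, dz_coord]
    have k1 : ((Int.gcd (Int.gcd l.1 l.2 : ℕ) (Int.gcd p.1 p.2 : ℕ) : ℕ) : ℤ) ∣
      (Int.gcd l.1 l.2 : ℕ) := Int.gcd_dvd_left _ _
    have k2 : ((Int.gcd (Int.gcd l.1 l.2 : ℕ) (Int.gcd p.1 p.2 : ℕ) : ℕ) : ℤ) ∣
      (Int.gcd p.1 p.2 : ℕ) := Int.gcd_dvd_right _ _
    exact ⟨⟨k1.trans (Int.gcd_dvd_left _ _), k1.trans (Int.gcd_dvd_right _ _)⟩,
      k2.trans (Int.gcd_dvd_left _ _), k2.trans (Int.gcd_dvd_right _ _)⟩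
  · intro d' hd'
    rw [dz_lat, dz_coord, dz_coord] at hd'
    exact Int.dvd_coe_gcd (Int.dvd_coe_gcd hd'.1.1 hd'.1.2) (Int.dvd_coe_gcd hd'.2.1 hd'.2.2)

/-! ## L1 -/

theorem nc_right {S : PSt} (hNC : ∀ T : PSt, SEq S T → ¬ Con1 T.L') {T : PSt} (hST : SEq S T) :
    ∃ q : ℕ, q.Prime ∧ Dz q T.u ∧ ∀ w ∈ T.L', Dz q w := by
  by_contra hcon
  have hn : ∀ q : ℕ, q.Prime → (∀ w ∈ T.L', Dz q w) → ¬ Dz q T.u :=
    fun q hq h1 h2 => hcon ⟨q, hq, h2, h1⟩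
  obtain ⟨l, p, l', p', ad⟩ := exists_Ad hST.ok'
  obtain ⟨v1, L1, θ, m1, m2, m3, m4, m5, m6, m7, m8, m9⟩ :=
    SEq.nodeD _ (L := T.L) (L' := T.L') (u := T.u) (v := T.v) rfl hST.ok' ad.isArea' ad.isC'
  obtain ⟨l2, p2, l2', p2', ad2⟩ := exists_Ad m1.ok'
  have e1 := ad2.isC'.unique m8
  dsimp only at e1
  obtain ⟨i, n1, n2, n3⟩ := con1_of_twH m1.ok' ad2 (by
    dsimp only
    rw [e1]; exact m6) m7 (by
    intro q hq hbad hu
    dsimp only at hbad hu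
    refine hn q hq (fun w hw => ?_) hu
    obtain ⟨w1, g1, k, rfl⟩ := m9 w hw
    exact (hbad w1 g1).add (hu.smul k))
  exact hNC _ ((hST.trans m1).trans n1) n3

theorem nc_left {S : PSt} (hNC : ∀ T : PSt, SEq S T → ¬ Con1 T.L') {T : PSt} (hST : SEq S T) :
    ∃ r : ℕ, r.Prime ∧ Dz r T.v ∧ ∀ w ∈ T.L, Dz r w := by
  have m := SEq.mirror (L := T.L) (L' := T.L') (u := T.u) (v := T.v) hST.ok'
  obtain ⟨r, h1, h2, h3⟩ := nc_right hNC (hST.trans m)
  exact ⟨r, h1, h2, h3⟩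

/-! ## L2: maximal `a'`, minimal content -/

/-- maximal `a'`, then minimal content of the right lattice -/
structure EFr (S : PSt) (a' d : ℤ) : Prop where
  ok : S.Ok
  ha' : IsArea S.L' a'
  hd : IsCont S.L' d
  max : ∀ (T : PSt) (c : ℤ), SEq S T → IsArea T.L' c → c ≤ a'
  min : ∀ (T : PSt) (d' : ℤ), SEq S T → IsArea T.L' a' → IsCont T.L' d' → d ≤ d'

theorem EFr.trans {S T : PSt} {a' d : ℤ} (h : EFr S a' d) (h1 : SEq S T) (h2 : IsArea T.L' a')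
    (h3 : IsCont T.L' d) : EFr T a' d :=
  ⟨h1.ok', h2, h3, fun T2 c k1 k2 => h.max T2 c (h1.trans k1) k2,
    fun T2 d' k1 k2 k3 => h.min T2 d' (h1.trans k1) k2 k3⟩

theorem exists_efr {S : PSt} (hS : S.Ok) : ∃ (T : PSt) (a' d : ℤ), SEq S T ∧ EFr T a' d := by
  obtain ⟨S0, a', j1, j2, hmax⟩ := exists_max hS
  obtain ⟨d, ⟨T, n1, n2, n3⟩, hmin⟩ := exists_min_int
    (P := fun d => ∃ T : PSt, SEq S T ∧ IsArea T.L' a' ∧ IsCont T.L' d)
    (fun d ⟨T, _, _, h⟩ => h.1) (by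
      obtain ⟨d, hd⟩ := exists_cont j2
      exact ⟨d, S0, j1, j2, hd⟩)
  exact ⟨T, a', d, n1, n1.ok', n2, n3, fun T2 c h1 h2 => hmax T2 c (n1.trans h1) h2,
    fun T2 d' h1 h2 h3 => hmin d' ⟨T2, n1.trans h1, h2, h3⟩⟩

theorem EFr.leA {S : PSt} {a' d : ℤ} (h : EFr S a' d) {c : ℤ} (hc : IsC S.L' S.u c) :
    cr S.u S.v ≤ c :=
  max_stuck h.ok h.ha' h.max hc

theorem EFr.area_le {S : PSt} {a a' d : ℤ} (h : EFr S a' d) (ha : IsArea S.L a) : a ≤ a' :=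
  h.max _ a (SEq.mirror (L := S.L) (L' := S.L') (u := S.u) (v := S.v) h.ok) ha

/-- the content divides `u` -/
theorem EFr.dvd_u {S : PSt} {a' d : ℤ} (h : EFr S a' d) : Dz d S.u := by
  by_contra hnd
  obtain ⟨l, p, l', p', ad⟩ := exists_Ad h.ok
  have hAc : cr S.u S.v ≤ cr S.u p' := h.leA ad.isC'
  have ea : cr l' p' = a' := ad.isArea'.unique h.ha'
  have ha0 : 0 < a' := h.ha'.1
  -- a prime power
  obtain ⟨q, s, hq, hqd, hqu⟩ : ∃ (q s : ℕ), q.Prime ∧ (q : ℤ) ^ s ∣ d ∧ ¬ Dz ((q : ℤ) ^ s) S.u := by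
    by_contra hcon
    apply hnd
    rw [Dz.iff]
    intro z
    refine dvd_of_prime_pow fun q k hq hk => ?_
    by_contra hz
    exact hcon ⟨q, k, hq, hk, fun h9 => hz (h9.cr_left z)⟩
  obtain ⟨r, R, hR, hqR⟩ := exists_pow_mul hq ha0.ne'
  have k1 := ad.twH h.ok hAc R
  have e1 : cr l' (p' + R • S.u) = a' := by
    rw [cr_add_right, cr_smul_right, cr_swap l' S.u, ad.h4, ea]; ring
  have hA2 : IsArea (lat l' (p' + R • S.u)) a' := ⟨ha0, p' + R • S.u, l', by rw [e1], lat_comm _ _⟩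
  obtain ⟨D, hD⟩ := exists_cont hA2
  have hle : d ≤ D := h.min _ D k1 hA2 hD
  obtain ⟨hd1, hd2, hd3⟩ := h.hd
  rw [ad.hL', dz_lat] at hd2
  obtain ⟨hD1, hD2, hD3⟩ := hD
  rw [dz_lat] at hD2
  have hnot : ¬ (q : ℤ) ^ s ∣ D := by
    intro hs
    have f1 : Dz ((q : ℤ) ^ s) (R • S.u) := by
      have := (hD2.2.of_dz hs).sub (hd2.2.of_dz hqd)
      rwa [add_sub_cancel_left] at this
    apply hqu
    rw [Dz.iff] at f1 ⊢
    intro z
    have f2 := f1 z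
    rw [cr_smul_left] at f2
    have hcop : IsCoprime ((q : ℤ) ^ s) R := (isCoprime_of_not_dvd hq hqR).pow_left
    exact hcop.dvd_of_dvd_mul_left f2
  have hdvd : D ∣ d := by
    refine dvd_of_prime_pow fun m k hm hk => ?_
    by_cases hmq : m = q
    · subst hmq
      have hks : k ≤ s := by
        by_contra hlt
        push Not at hlt
        exact hnot ((pow_dvd_pow _ hlt.le).trans hk)
      exact (pow_dvd_pow _ hks).trans hqd
    · have g1 := hD2.1.of_dz hk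
      have g2 := hD2.2.of_dz hk
      have g3 : (m : ℤ) ^ k ∣ (q : ℤ) ^ r * R := by
        rw [← hR, ← e1]; exact g1.cr_left _
      have hcop : IsCoprime ((m : ℤ) ^ k) ((q : ℤ) ^ r) := by
        have : IsCoprime (m : ℤ) (q : ℤ) :=
          Nat.isCoprime_iff_coprime.2 ((Nat.coprime_primes hm hq).2 hmq)
        exact this.pow
      have g4 : (m : ℤ) ^ k ∣ R := hcop.dvd_of_dvd_mul_left g3
      have g5 := g2.sub (Dz.of_dvd g4 S.u)
      rw [add_sub_cancel_right] at g5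
      refine hd3 _ ?_
      rw [ad.hL', dz_lat]
      exact ⟨g1, g5⟩
  have := Int.le_of_dvd hd1 hdvd
  have hDd : D = d := le_antisymm this hle
  rw [hDd] at hnot
  exact hnot hqd

/-- the content divides `v + l` -/
theorem EFr.dvd_V {S : PSt} {a' d : ℤ} (h : EFr S a' d) {l p l' p' : Z2} (ad : Ad S l p l' p')
    (hA : cr S.u S.v ≤ cr p S.v) : Dz d (S.v + l) := by
  have k1 := ad.twV h.ok hA 1
  have h2 := (h.trans k1 h.ha' h.hd).dvd_u
  have h3 := h.dvd_u.sub h2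
  dsimp only at h3
  have e : S.u - (S.u - (1 : ℤ) • (S.v + l)) = S.v + l := by module
  rwa [e] at h3

/-! ## L3: the right gap is minimal -/

structure EF2 (S : PSt) (a' d c : ℤ) : Prop where
  fr : EFr S a' d
  hc : IsC S.L' S.u c
  hA : ∀ b : ℤ, IsC S.L S.v b → cr S.u S.v ≤ b
  minc : ∀ (T : PSt) (c' : ℤ), SEq S T → IsArea T.L' a' → IsCont T.L' d →
    (∀ b : ℤ, IsC T.L T.v b → cr T.u T.v ≤ b) → IsC T.L' T.u c' → c ≤ c'

theorem exists_ef2 {S : PSt} (hS : S.Ok) : ∃ (T : PSt) (a' d c : ℤ), SEq S T ∧ EF2 T a' d c := by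
  obtain ⟨T0, a', d, j1, hfr⟩ := exists_efr hS
  obtain ⟨l, p, l', p', had⟩ := exists_Ad j1.ok'
  obtain ⟨u1, L1, θ, m1, m2, m3, m4, m5, m6, m7, m8⟩ :=
    SEq.node' (L := T0.L) (L' := T0.L') (u := T0.u) (v := T0.v) j1.ok' had.isArea had.isC
  obtain ⟨c, ⟨T, n1, n2, n3, n4, n5⟩, hmin⟩ := exists_min_int
    (P := fun c => ∃ T : PSt, SEq T0 T ∧ IsArea T.L' a' ∧ IsCont T.L' d ∧
      (∀ b : ℤ, IsC T.L T.v b → cr T.u T.v ≤ b) ∧ IsC T.L' T.u c)
    (fun c ⟨T, _, _, _, _, h⟩ => h.1) (by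
      obtain ⟨l2, p2, l2', p2', had2⟩ := exists_Ad m1.ok'
      exact ⟨_, _, m1, hfr.ha', hfr.hd, fun b hb => by rw [hb.unique m8]; exact m6, had2.isC'⟩)
  exact ⟨T, a', d, c, j1.trans n1, hfr.trans n1 n2 n3, n5, n4,
    fun T2 c' h1 h2 h3 h4 h5 => hmin c' ⟨T2, n1.trans h1, h2, h3, h4, h5⟩⟩

theorem EF2.leA {S : PSt} {a' d c : ℤ} (h : EF2 S a' d c) : cr S.u S.v ≤ c := h.fr.leA h.hc

/-- a V-twist with the same right gap -/
theorem EF2.twV {S : PSt} {a' d c : ℤ} (h : EF2 S a' d c) {l p l' p' : Z2} (ad : Ad S l p l' p')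
    (j : ℤ) : SEq S ⟨lat l (p - j • S.v), S.u - j • (S.v + l), S.v, S.L'⟩ ∧
      (∀ b : ℤ, IsC (lat l (p - j • S.v)) S.v b → cr (S.u - j • (S.v + l)) S.v ≤ b) := by
  have hA := h.hA _ ad.isC
  refine ⟨ad.twV h.fr.ok hA j, fun b hb => ?_⟩
  have e3 : cr (S.u - j • (S.v + l)) S.v = cr S.u S.v := by
    rw [cr_sub_left, cr_smul_left, cr_add_left, cr_self, ad.h1]; ring
  have e4 : cr (p - j • S.v) S.v = cr p S.v := by
    rw [cr_sub_left, cr_smul_left, cr_self]; ring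
  have h1 := isC_of_par (l := l) (p := p - j • S.v) (v := S.v) ad.h1 (by rw [e4]; exact ad.h3)
  rw [e4] at h1
  rw [e3, hb.unique h1]
  exact hA

theorem EF2.vrig {S : PSt} {a' d c : ℤ} (h : EF2 S a' d c) {l p l' p' : Z2}
    (ad : Ad S l p l' p') : c ∣ cr (S.v + l) l' ∧ c ∣ cr (S.v + l) p' := by
  have e2 : cr S.u p' = c := ad.isC'.unique h.hc
  refine crt_min h.hc.1 ad.B_ne fun j => ?_
  obtain ⟨k1, k2⟩ := h.twV ad j
  exact h.minc _ _ k1 h.fr.ha' h.fr.hd k2 (ad.gapV e2 j)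

/-- `K = (A + e) / c` is an integer -/
theorem EF2.K_int {S : PSt} {a' d c : ℤ} (h : EF2 S a' d c) {l p l' p' : Z2}
    (ad : Ad S l p l' p') : c ∣ cr S.u S.v + cr S.u l := by
  obtain ⟨h1, h2⟩ := h.vrig ad
  have hc0 := h.hc.1
  have hu := h.fr.dvd_u
  have hV := h.fr.dvd_V ad (h.hA _ ad.isC)
  obtain ⟨hd0, hd2, hd3⟩ := h.fr.hd
  rw [ad.hL'] at hd2 hd3
  have hl' := (dz_lat.1 hd2).1
  have hp' := (dz_lat.1 hd2).2
  obtain ⟨l'', hl''⟩ := hl'
  obtain ⟨p'', hp''⟩ := hp'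
  have hcon : Con1 (lat l'' p'') := by
    rw [con1_lat]
    rintro q hq ⟨g1, g2⟩
    have : (q : ℤ) * d ∣ d := by
      refine hd3 _ ?_
      rw [dz_lat]
      obtain ⟨x, hx⟩ := g1
      obtain ⟨y, hy⟩ := g2
      refine ⟨⟨x, ?_⟩, ⟨y, ?_⟩⟩
      · rw [hl'', hx]; module
      · rw [hp'', hy]; module
    have h3 : (q : ℤ) ∣ 1 := by
      have h4 : (q : ℤ) * d ∣ 1 * d := by rwa [one_mul]
      exact (mul_dvd_mul_iff_right hd0.ne').1 h4
    exact prime_not_dvd_one hq h3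
  have key : ∀ w ∈ lat l'' p'', Dz c ((cr S.u S.v + cr S.u l) • w) := by
    intro w hw
    have hdw : d • w ∈ S.L' := by
      rw [ad.hL', hl'', hp'']
      obtain ⟨m, n, rfl⟩ := mem_lat.1 hw
      exact mem_lat.2 ⟨m, n, by module⟩
    have e1 := cr_dep S.u (S.v + l) (d • w)
    have e2 : c ∣ cr (S.v + l) (d • w) := by
      rw [ad.hL'] at hdw
      obtain ⟨m, n, e⟩ := mem_lat.1 hdw
      rw [← e, cr_add_right, cr_smul_right, cr_smul_right]
      exact dvd_add (h1.mul_left _) (h2.mul_left _)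
    have e3 : c ∣ cr (d • w) S.u := by
      rw [cr_swap (d • w) S.u]
      exact (dvd_neg).2 (h.hc.2.1 _ hdw)
    obtain ⟨x, hx⟩ := e2
    obtain ⟨y, hy⟩ := e3
    obtain ⟨u1, hu1⟩ := hu
    obtain ⟨V1, hV1⟩ := hV
    refine ⟨-(x • u1 + y • V1), ?_⟩
    apply smul_inj hd0.ne'
    have e4 : (cr S.u S.v + cr S.u l) • (d • w) =
        -(cr (S.v + l) (d • w) • S.u + cr (d • w) S.u • (S.v + l)) := by
      rw [← cr_add_right]
      exact eq_neg_of_add_eq_zero_right e1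
    rw [smul_comm d, e4, hx, hy, hV1]
    nth_rewrite 1 [hu1]
    module
  exact hcon.dvd hc0.ne' key

theorem EF2.KY {S : PSt} {a' d c : ℤ} (h : EF2 S a' d c) {l p l' p' : Z2}
    (ad : Ad S l p l' p') : ∃ K Y : ℤ, K * cr S.u p' = cr S.u S.v + cr S.u l ∧
      K * cr l' p' = Y * cr S.u p' := by
  have e2 : cr S.u p' = c := ad.isC'.unique h.hc
  have hc0 := h.hc.1
  obtain ⟨K, hK⟩ := h.K_int ad
  obtain ⟨Y, hY⟩ := (h.vrig ad).1
  refine ⟨K, -Y, by rw [hK, e2]; ring, ?_⟩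
  have h1 : c * cr (S.v + l) l' = -(cr l' p' * (c * K)) := by
    have h2 := plucker (S.v + l) l' S.u p'
    rw [cr_swap l' S.u, ad.h4, e2, cr_swap (S.v + l) S.u, cr_add_right, hK] at h2
    linarith
  have h3 : c * (K * cr l' p') = c * (-Y * c) := by
    rw [hY] at h1
    linarith
  rw [e2]
  exact mul_left_cancel₀ hc0.ne' h3

/-! ## L4: the choice of `j` -/

theorem EF2.exists_good {S : PSt} {a' d c : ℤ} (h : EF2 S a' d c) :
    ∃ T : PSt, SEq S T ∧ EF2 T a' d c ∧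
      ∀ r : ℕ, r.Prime → r ≠ 2 → (∀ w ∈ T.L, Dz r w) → Dz r T.v := by
  obtain ⟨l, p, l', p', ad⟩ := exists_Ad h.fr.ok
  have e2 : cr S.u p' = c := ad.isC'.unique h.hc
  have hc0 := h.hc.1
  obtain ⟨⟨α, hα⟩, ⟨β, hβ⟩⟩ := h.vrig ad
  have hα0 : α ≠ 0 := by
    rintro rfl
    rw [mul_zero] at hα
    exact ad.B_ne hα
  have ha0 := ad.pos
  obtain ⟨j, hj⟩ := crt_exists (cr p l * α) (mul_ne_zero ha0.ne' hα0)
    (fun r j => (¬ ((r : ℤ) ∣ α ∧ (r : ℤ) ∣ 1 - j * β)) ∧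
      (r ≠ 2 → ¬ Dz r S.v → ¬ (Dz r l ∧ Dz r (p - j • S.v))))
    (fun r hr _ => by
      by_cases hr2 : r = 2
      · refine ⟨0, ?_, fun h => absurd hr2 h⟩
        rintro ⟨_, h1⟩
        rw [zero_mul, sub_zero] at h1
        exact prime_not_dvd_one hr h1
      by_cases h0 : ¬ Dz r S.v → ¬ (Dz r l ∧ Dz r (p - (0 : ℤ) • S.v))
      · refine ⟨0, ?_, fun _ => h0⟩
        rintro ⟨_, h1⟩
        rw [zero_mul, sub_zero] at h1
        exact prime_not_dvd_one hr h1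
      · push Not at h0
        obtain ⟨g1, g2, g3⟩ := h0
        rw [zero_smul, sub_zero] at g3
        have key : ∀ k : ℤ, ¬ (r : ℤ) ∣ k → ¬ Dz r (p - k • S.v) := by
          intro k hk hbad
          have := g3.sub hbad
          rw [sub_sub_cancel] at this
          rcases this.mul_prime hr with h5 | h5
          · exact hk h5
          · exact g1 h5
        have hr3 : ¬ (r : ℤ) ∣ 2 := by
          intro h5
          have h6 : r ∣ 2 := by exact_mod_cast h5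
          exact hr2 ((Nat.prime_dvd_prime_iff_eq hr Nat.prime_two).1 h6)
        by_cases h1 : (r : ℤ) ∣ 1 - 1 * β
        · refine ⟨2, ?_, fun _ _ h7 => key 2 hr3 h7.2⟩
          rintro ⟨_, h2⟩
          have h3 := dvd_sub (h1.mul_left 2) h2
          have h4 : 2 * (1 - 1 * β) - (1 - 2 * β) = 1 := by ring
          rw [h4] at h3
          exact prime_not_dvd_one hr h3
        · exact ⟨1, fun h7 => h1 h7.2, fun _ _ h7 => key 1 (prime_not_dvd_one hr) h7.2⟩)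
    (fun r hr _ k k' h1 h2 => by
      refine ⟨fun h3 => h2.1 ⟨h3.1, ?_⟩, fun h4 h5 h6 => h2.2 h4 h5 ⟨h6.1, ?_⟩⟩
      · have h4 := dvd_add h3.2 (h1.mul_right β)
        have e : 1 - k' * β + (k' - k) * β = 1 - k * β := by ring
        rwa [e] at h4
      · have h7 := h6.2.add (Dz.of_dvd h1 S.v)
        have e : p - k' • S.v + (k' - k) • S.v = p - k • S.v := by module
        rwa [e] at h7)
  obtain ⟨k1, k2⟩ := h.twV ad j
  have hcop : IsCoprime (j * α) (1 - j * β) := by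
    refine isCoprime_of_prime fun r hr h2 h1 => ?_
    have hri := Nat.prime_iff_prime_int.1 hr
    have h3 : ¬ (r : ℤ) ∣ j := by
      intro h4
      have := dvd_add h2 (h4.mul_right β)
      rw [sub_add_cancel] at this
      exact prime_not_dvd_one hr this
    have h4 := (hri.dvd_or_dvd h1).resolve_left h3
    exact (hj r hr (h4.mul_left _)).1 ⟨h4, h2⟩
  have hgap : IsC S.L' (S.u - j • (S.v + l)) c := by
    have h1 := ad.gapV e2 j
    have h2 : ((Int.gcd (j * cr (S.v + l) l') (c - j * cr (S.v + l) p') : ℕ) : ℤ) = c := by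
      rw [hα, hβ]
      have e5 : j * (c * α) = c * (j * α) := by ring
      have e6 : c - j * (c * β) = c * (1 - j * β) := by ring
      rw [e5, e6, Int.gcd_mul_left, Int.isCoprime_iff_gcd_eq_one.1 hcop, mul_one,
        Int.natAbs_of_nonneg hc0.le]
    rwa [h2] at h1
  refine ⟨_, k1, ⟨h.fr.trans k1 h.fr.ha' h.fr.hd, hgap, k2, fun T2 c' g1 g2 g3 g4 g5 =>
    h.minc T2 c' (k1.trans g1) g2 g3 g4 g5⟩, ?_⟩
  intro r hr hr2 hL
  dsimp only at hL ⊢
  rw [dz_lat] at hL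
  by_contra hv
  have h1 : (r : ℤ) ∣ cr p l * α := (hL.1.cr_right p).mul_right _
  exact (hj r hr h1).2 hr2 hv hL

/-! ## L5, L6: no exits of level one -/

theorem PSt.Full.not_dz {T : PSt} (hF : T.Full) {q : ℕ} (hq : q.Prime)
    (h1 : ∀ w ∈ T.L, Dz q w) (h2 : ∀ w ∈ T.L', Dz q w) (h3 : Dz q T.u) (h4 : Dz q T.v) : False := by
  have h6 : ∀ z : Z2, Dz q z := by
    intro z
    have hz : z ∈ T.L ⊔ T.L' ⊔ lat T.u T.v := by
      rw [show T.L ⊔ T.L' ⊔ lat T.u T.v = ⊤ from hF]; trivial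
    obtain ⟨x, hx, y, hy, rfl⟩ := AddSubgroup.mem_sup.1 hz
    obtain ⟨x1, hx1, x2, hx2, rfl⟩ := AddSubgroup.mem_sup.1 hx
    exact ((h1 x1 hx1).add (h2 x2 hx2)).add (dz_lat.2 ⟨h3, h4⟩ y hy)
  obtain ⟨w, hw⟩ := h6 (1, 0)
  have h7 := congrArg Prod.fst hw
  simp only [Prod.smul_fst, smul_eq_mul] at h7
  exact prime_not_dvd_one hq ⟨w.1, h7⟩

/-- a prime dividing the right lattice divides the content, `u` and `v + l` -/
theorem EF2.dz_of_dz {S : PSt} {a' d c : ℤ} (h : EF2 S a' d c) {l p l' p' : Z2}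
    (ad : Ad S l p l' p') {q : ℤ} (hq : ∀ w ∈ S.L', Dz q w) : Dz q S.u ∧ Dz q (S.v + l) := by
  have h1 := h.fr.hd.2.2 q hq
  exact ⟨h.fr.dvd_u.of_dz h1, (h.fr.dvd_V ad (h.hA _ ad.isC)).of_dz h1⟩

theorem EF2.no_left {S : PSt} {a' d c : ℤ} (h : EF2 S a' d c)
    (hNC : ∀ T : PSt, SEq S T → ¬ Con1 T.L') (hF : S.Full) {l p l' p' : Z2}
    (ad : Ad S l p l' p') {x y o : ℤ} (ho : o = 1 ∨ o = -1)
    (h1 : cr p S.v < o * (x * cr S.u l + cr S.u p + y * (cr p l + cr p S.v - cr S.u S.v)))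
    (h2 : o * (x * cr S.u l + cr S.u p + y * (cr p l + cr p S.v - cr S.u S.v)) ≤ cr p l) :
    False := by
  have e : x * cr S.u l + cr S.u p + y * (cr p l + cr p S.v - cr S.u S.v) =
      (x - y + y) * cr S.u l + 1 * (cr S.u p + y * (cr p l + cr p S.v - cr S.u S.v)) := by ring
  rw [e] at h1 h2
  obtain ⟨T, k1, k2, k3, k4, k5, k6⟩ := ad.exitSt h.fr.ok (h.hA _ ad.isC) (n := 1) (j := y)
    (o := o) (τ := x - y) zero_le_one ho isCoprime_one_right (by rw [one_mul]; exact h1) h2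
  obtain ⟨q, hq, hqu, hqL⟩ := nc_right hNC k1
  rw [k2] at hqL
  obtain ⟨g1, g2⟩ := h.dz_of_dz ad hqL
  rw [one_smul] at k5
  exact exc_exit ad hF g1 g2 hqL k5 hq hqu

theorem EF2.no_right {S : PSt} {a' d c : ℤ} (h : EF2 S a' d c)
    (hNC : ∀ T : PSt, SEq S T → ¬ Con1 T.L') (hF : S.Full)
    (hgood : ∀ r : ℕ, r.Prime → (∀ w ∈ S.L, Dz r w) → Dz r S.v) {l p l' p' : Z2}
    (ad : Ad S l p l' p') {x y o : ℤ} (ho : o = 1 ∨ o = -1)
    (h1 : cr S.u p' < o * (x * cr l' S.v + cr p' S.v + y * (cr l' p' + cr S.u p' - cr S.u S.v)))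
    (h2 : o * (x * cr l' S.v + cr p' S.v + y * (cr l' p' + cr S.u p' - cr S.u S.v)) ≤
      cr l' p') : False := by
  have hA : cr S.u S.v ≤ cr S.u p' := h.fr.leA ad.isC'
  have e : x * cr l' S.v + cr p' S.v + y * (cr l' p' + cr S.u p' - cr S.u S.v) =
      x * cr l' S.v + 1 * (cr p' S.v - (-y) * (cr l' p' + cr S.u p' - cr S.u S.v)) := by ring
  rw [e] at h1 h2
  obtain ⟨T, k1, k2, k3, k4, k5, k6⟩ := ad.rexitSt h.fr.ok hA (n := 1) (i := -y)
    (o := o) (t := x) zero_le_one ho isCoprime_one_right (by rw [one_mul]; exact h1) h2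
  obtain ⟨r, hr, hrv, hrL⟩ := nc_left hNC k1
  rw [k2] at hrL
  have hv := hgood r hr hrL
  rw [k4] at hrv
  have hW : Dz r ((o + -y * (1 + 1)) • S.u + (x + -y) • l' + p') := by
    have := hrv.sub hv
    have e7 : S.v + (o + -y * (1 + 1)) • S.u + (x + -y) • l' + (1 : ℤ) • p' - S.v =
        (o + -y * (1 + 1)) • S.u + (x + -y) • l' + p' := by module
    rwa [e7] at this
  have hup : (r : ℤ) ∣ cr S.u p' := by
    have := hW.cr_right S.u
    rwa [cr_add_right, cr_add_right, cr_smul_right, cr_smul_right, cr_self, ad.h4, mul_zero,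
      mul_zero, zero_add, zero_add] at this
  have hlp : (r : ℤ) ∣ cr l' p' := by
    have := hW.cr_right l'
    rwa [cr_add_right, cr_add_right, cr_smul_right, cr_smul_right, cr_self, cr_swap l' S.u,
      ad.h4, neg_zero, mul_zero, mul_zero, zero_add, zero_add] at this
  have gen : ∀ x0 : Z2, cr x0 l' = 0 → cr x0 S.u = 0 → (r : ℤ) ∣ cr x0 p' → Dz r x0 := by
    intro x0 g1 g2 g3
    rw [Dz.iff]
    intro z
    have hz : z ∈ S.L ⊔ S.L' ⊔ lat S.u S.v := by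
      rw [show S.L ⊔ S.L' ⊔ lat S.u S.v = ⊤ from hF]; trivial
    obtain ⟨z1, hz1, z2, hz2, rfl⟩ := AddSubgroup.mem_sup.1 hz
    obtain ⟨z3, hz3, z4, hz4, rfl⟩ := AddSubgroup.mem_sup.1 hz1
    rw [ad.hL'] at hz4
    obtain ⟨m, n, rfl⟩ := mem_lat.1 hz4
    obtain ⟨m', n', rfl⟩ := mem_lat.1 hz2
    rw [cr_add_right, cr_add_right, cr_add_right, cr_add_right, cr_smul_right, cr_smul_right,
      cr_smul_right, cr_smul_right, g1, g2]
    refine dvd_add (dvd_add ((hrL z3 hz3).cr_right x0) (dvd_add (by simp) (g3.mul_left _)))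
      (dvd_add (by simp) ((hv.cr_right x0).mul_left _))
  have hu : Dz r S.u := gen _ ad.h4 (cr_self _) hup
  have hl' : Dz r l' := gen _ (cr_self _) (by rw [cr_swap l' S.u, ad.h4, neg_zero]) hlp
  have hp' : Dz r p' := by
    have := hW.sub ((hu.smul (o + -y * (1 + 1))).add (hl'.smul (x + -y)))
    rwa [add_sub_cancel_left] at this
  exact hF.not_dz hr hrL (by rw [ad.hL', dz_lat]; exact ⟨hl', hp'⟩) hu hv

/-- no value of `±(f + g ℤ)` in the window `(b, a]` -/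
theorem no_window {e D f a b : ℤ} (he : 0 < e) (hea : e ≤ a)
    (hno : ∀ x y o : ℤ, (o = 1 ∨ o = -1) → b < o * (x * e + f + y * D) →
      o * (x * e + f + y * D) ≤ a → False) :
    a - b < (Int.gcd e D : ℤ) ∧ (Int.gcd e D : ℤ) ≤ 2 * b := by
  set g : ℤ := (Int.gcd e D : ℤ) with hg
  have hg0 : 0 < g := by
    have : 0 < Int.gcd e D := Int.gcd_pos_of_ne_zero_left _ he.ne'
    rw [hg]; exact_mod_cast this
  have hge : g ≤ e := Int.le_of_dvd he (by rw [hg]; exact Int.gcd_dvd_left _ _)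
  have hbez : g = e * Int.gcdA e D + D * Int.gcdB e D := by rw [hg]; exact Int.gcd_eq_gcd_ab _ _
  have hno' : ∀ k o : ℤ, (o = 1 ∨ o = -1) → b < o * (f + k * g) → o * (f + k * g) ≤ a →
      False := by
    intro k o ho h1 h2
    have e1 : f + k * g = (k * Int.gcdA e D) * e + f + (k * Int.gcdB e D) * D := by
      conv_lhs => rw [hbez]
      ring
    rw [e1] at h1 h2
    exact hno _ _ o ho h1 h2
  constructor
  · by_contra hlt
    push Not at hlt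
    have h1 := Int.emod_nonneg (f - b - 1) hg0.ne'
    have h2 := Int.emod_lt_of_pos (f - b - 1) hg0
    have h3 := Int.emod_add_mul_ediv (f - b - 1) g
    refine hno' (-((f - b - 1) / g)) 1 (Or.inl rfl) ?_ ?_ <;> linarith
  · by_contra hlt
    push Not at hlt
    have h1 := Int.emod_nonneg f hg0.ne'
    have h2 := Int.emod_lt_of_pos f hg0
    have h3 := Int.emod_add_mul_ediv f g
    rcases lt_or_ge b (f % g) with h4 | h4
    · refine hno' (-(f / g)) 1 (Or.inl rfl) ?_ ?_ <;> linarith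
    · refine hno' (-(f / g) - 1) (-1) (Or.inr rfl) ?_ ?_ <;> linarith

theorem Ad.e_le_a {S : PSt} {l p l' p' : Z2} (ad : Ad S l p l' p')
    (hA : cr S.u S.v ≤ cr p S.v) : cr S.u l ≤ cr p l := by
  have h1 := ad.area
  have h2 := mul_le_mul_of_nonneg_left hA ad.pos.le
  rw [h1] at h2
  exact le_of_mul_le_mul_right h2 ad.h3

theorem Ad.e_le_a' {S : PSt} {l p l' p' : Z2} (ad : Ad S l p l' p')
    (hA : cr S.u S.v ≤ cr S.u p') : cr l' S.v ≤ cr l' p' := by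
  have h1 := ad.area'
  have h2 := mul_le_mul_of_nonneg_left hA ad.pos'.le
  rw [h1] at h2
  exact le_of_mul_le_mul_right h2 ad.h6

/-- L1-L6 -/
theorem exists_hex {S : PSt} (hS : S.Ok) (hF : S.Full)
    (hNC : ∀ T : PSt, SEq S T → ¬ Con1 T.L') :
    ∃ (T : PSt) (a' d c : ℤ), SEq S T ∧ EF2 T a' d c ∧
      (∀ r : ℕ, r.Prime → r ≠ 2 → (∀ w ∈ T.L, Dz r w) → Dz r T.v) ∧
      ∀ l p l' p' : Z2, Ad T l p l' p' →
        cr p l - cr p T.v < (Int.gcd (cr T.u l) (cr p l + cr p T.v - cr T.u T.v) : ℤ) ∧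
        (Int.gcd (cr T.u l) (cr p l + cr p T.v - cr T.u T.v) : ℤ) ≤ 2 * cr p T.v ∧
        (((∀ w ∈ T.L, Dz 2 w) → Dz 2 T.v) →
          cr l' p' - cr T.u p' <
            (Int.gcd (cr l' T.v) (cr l' p' + cr T.u p' - cr T.u T.v) : ℤ) ∧
          (Int.gcd (cr l' T.v) (cr l' p' + cr T.u p' - cr T.u T.v) : ℤ) ≤ 2 * cr T.u p') := by
  obtain ⟨T0, a', d, c, h1, h2⟩ := exists_ef2 hS
  obtain ⟨T, h3, h4, h5⟩ := h2.exists_good
  have h6 := h1.trans h3
  have hNC' : ∀ T2 : PSt, SEq T T2 → ¬ Con1 T2.L' := fun T2 h => hNC T2 (h6.trans h)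
  have hF' : T.Full := h6.full.1 hF
  refine ⟨T, a', d, c, h6, h4, h5, fun l p l' p' ad => ?_⟩
  have hA := h4.hA _ ad.isC
  have hA' : cr T.u T.v ≤ cr T.u p' := h4.fr.leA ad.isC'
  obtain ⟨g1, g2⟩ := no_window (f := cr T.u p) ad.h2 (ad.e_le_a hA)
    (D := cr p l + cr p T.v - cr T.u T.v) (fun x y o ho k1 k2 => h4.no_left hNC' hF' ad ho k1 k2)
  refine ⟨g1, g2, fun hg => ?_⟩
  refine no_window (f := cr p' T.v) ad.h5 (ad.e_le_a' hA') (fun x y o ho k1 k2 => ?_)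
  refine h4.no_right hNC' hF' (fun r hr hL => ?_) ad ho k1 k2
  by_cases hr2 : r = 2
  · subst hr2
    exact hg hL
  · exact h5 r hr hr2 hL

end Pool.Agent.H4G
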