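import Mathlib

/-!
# HEX: the numbers of the conflict at two (page of helper40, section 3) (helper29)
-/

set_option autoImplicit false

namespace Pool.Agent.H4G

/-- the common parametrization of `a A = e b` -/
theorem ENum.setup {A b a e : ℤ} (hA : 0 < A) (hb : 0 < b) (ha : 0 < a) (he : 0 < e)
    (h1 : a * A = e * b) :
    ∃ g m h A0 b0 : ℕ, 0 < g ∧ 0 < m ∧ 0 < h ∧ 0 < A0 ∧ 0 < b0 ∧ Nat.Coprime g m ∧
      Nat.Coprime A0 b0 ∧ A = g * h * A0 ∧ e = m * h * A0 ∧ b = g * h * b0 ∧ a = m * h * b0 := by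
  obtain ⟨A, rfl⟩ := Int.eq_ofNat_of_zero_le hA.le
  obtain ⟨b, rfl⟩ := Int.eq_ofNat_of_zero_le hb.le
  obtain ⟨a, rfl⟩ := Int.eq_ofNat_of_zero_le ha.le
  obtain ⟨e, rfl⟩ := Int.eq_ofNat_of_zero_le he.le
  have hA : 0 < A := by exact_mod_cast hA
  have hb : 0 < b := by exact_mod_cast hb
  have ha : 0 < a := by exact_mod_cast ha
  have he : 0 < e := by exact_mod_cast he
  have h1 : a * A = e * b := by exact_mod_cast h1
  obtain ⟨A1, g, m, hA1, hgm, hAg, hem⟩ : ∃ A1 g m : ℕ, 0 < A1 ∧ Nat.Coprime g m ∧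
      A = A1 * g ∧ e = A1 * m := by
    obtain ⟨g, m, k1, k2, k3⟩ := Nat.exists_coprime A e
    exact ⟨Nat.gcd A e, g, m, Nat.gcd_pos_of_pos_left _ hA, k1, by rw [mul_comm]; exact k2,
      by rw [mul_comm]; exact k3⟩
  have hg : 0 < g := Nat.pos_of_ne_zero (by rintro rfl; omega)
  have hm : 0 < m := Nat.pos_of_ne_zero (by rintro rfl; omega)
  have k1 : a * g = m * b := by
    refine Nat.eq_of_mul_eq_mul_left hA1 ?_
    rw [hAg, hem] at h1
    linarith
  obtain ⟨b1, hb1⟩ : g ∣ b := hgm.dvd_of_dvd_mul_left (Dvd.intro_left _ k1)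
  have hb10 : 0 < b1 := Nat.pos_of_ne_zero (by rintro rfl; omega)
  have ha1 : a = m * b1 := by
    refine Nat.eq_of_mul_eq_mul_right hg ?_
    rw [k1, hb1]; ring
  obtain ⟨A0, b0, k2, k3, k4⟩ := Nat.exists_coprime A1 b1
  have hh : 0 < Nat.gcd A1 b1 := Nat.gcd_pos_of_pos_left _ hA1
  set h := Nat.gcd A1 b1 with hhdef
  have hA0 : 0 < A0 := Nat.pos_of_ne_zero (by rintro rfl; omega)
  have hb0 : 0 < b0 := Nat.pos_of_ne_zero (by rintro rfl; omega)
  refine ⟨g, m, h, A0, b0, hg, hm, hh, hA0, hb0, hgm, k2, ?_, ?_, ?_, ?_⟩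
  · rw [hAg, k3]; push_cast; ring
  · rw [hem, k3]; push_cast; ring
  · rw [hb1, k4]; push_cast; ring
  · rw [ha1, k4]; push_cast; ring

/-- the left gap condition -/
theorem ENum.left {g m h A0 b0 : ℕ} (hh : 0 < h)
    (hgm : Nat.Coprime g m) (hAb : Nat.Coprime A0 b0) {A b a e : ℤ}
    (hA : A = g * h * A0) (he : e = m * h * A0) (hb : b = g * h * b0) (ha : a = m * h * b0)
    (hl : a - b < (Int.gcd e (a + b - A) : ℤ)) :
    ∃ f d : ℕ, f ∣ m ∧ d ∣ A0 ∧ (f : ℤ) ∣ (b0 : ℤ) - A0 ∧ d ∣ g + m ∧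
      ((m : ℤ) - g) * b0 < f * d := by
  have e1 : e = (h : ℤ) * (m * A0) := by rw [he]; ring
  have e2 : a + b - A = (h : ℤ) * ((g + m) * b0 - g * A0) := by rw [ha, hb, hA]; ring
  have e3 : a - b = (h : ℤ) * (((m : ℤ) - g) * b0) := by rw [ha, hb]; ring
  set G : ℕ := Int.gcd (m * A0 : ℤ) ((g + m) * b0 - g * A0) with hG
  have hh' : (0 : ℤ) < h := by exact_mod_cast hh
  have h1 : (Int.gcd e (a + b - A) : ℤ) = h * G := by
    rw [e1, e2, Int.gcd_mul_left, hG]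
    push_cast
    rw [abs_of_pos hh']
  rw [h1, e3] at hl
  have h2 : ((m : ℤ) - g) * b0 < G := lt_of_mul_lt_mul_left hl hh'.le
  have h3 : G ∣ m * A0 := by
    have := Int.gcd_dvd_left (m * A0 : ℤ) ((g + m) * b0 - g * A0)
    rw [← hG] at this
    exact_mod_cast this
  have h4 : (G : ℤ) ∣ (g + m) * b0 - g * A0 := by
    have := Int.gcd_dvd_right (m * A0 : ℤ) ((g + m) * b0 - g * A0)
    rwa [← hG] at this
  obtain ⟨f, d, hf, hd, hfd⟩ := (Nat.dvd_mul).1 h3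
  have hfG : (f : ℤ) ∣ (G : ℤ) := by exact_mod_cast Dvd.intro _ hfd
  have hdG : (d : ℤ) ∣ (G : ℤ) := by exact_mod_cast Dvd.intro_left _ hfd
  refine ⟨f, d, hf, hd, ?_, ?_, ?_⟩
  · have h5 : (f : ℤ) ∣ g * ((b0 : ℤ) - A0) := by
      have h6 := hfG.trans h4
      have h7 : (f : ℤ) ∣ (m : ℤ) * b0 := Dvd.dvd.mul_right (by exact_mod_cast hf) _
      have e4 : (g : ℤ) * ((b0 : ℤ) - A0) = ((g + m) * b0 - g * A0) - m * b0 := by ring
      rw [e4]; exact dvd_sub h6 h7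
    have h6 : IsCoprime (f : ℤ) (g : ℤ) :=
      Nat.isCoprime_iff_coprime.2 (hgm.symm.coprime_dvd_left hf)
    exact h6.dvd_of_dvd_mul_left h5
  · have h5 : (d : ℤ) ∣ ((g + m : ℕ) : ℤ) * b0 := by
      have h6 := hdG.trans h4
      have h7 : (d : ℤ) ∣ (g : ℤ) * A0 := Dvd.dvd.mul_left (by exact_mod_cast hd) _
      have e4 : ((g + m : ℕ) : ℤ) * b0 = ((g + m) * b0 - g * A0) + g * A0 := by push_cast; ring
      rw [e4]; exact dvd_add h6 h7
    have h5' : d ∣ (g + m) * b0 := by exact_mod_cast h5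
    exact (hAb.coprime_dvd_left hd).dvd_of_dvd_mul_right h5'
  · have : ((f * d : ℕ) : ℤ) = G := by exact_mod_cast hfd
    rw [← this] at h2
    push_cast at h2
    exact h2

/-- the prime `q` -/
theorem ENum.q_dvd {g m h A0 b0 q : ℕ} (hq : q.Prime) {A b a : ℤ}
    (hA : A = g * h * A0) (hb : b = g * h * b0) (ha : a = m * h * b0)
    (hqA : (q : ℤ) ∣ A) (hqa : ¬ (q : ℤ) ∣ a) (hqab : (q : ℤ) ∣ a + b) :
    q ∣ g + m ∧ q ∣ A0 ∧ ¬ q ∣ g ∧ ¬ q ∣ m := by
  have h1 : ¬ q ∣ m * h * b0 := by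
    intro h2
    apply hqa
    rw [ha]
    exact_mod_cast h2
  have hm : ¬ q ∣ m := fun h2 => h1 ((h2.mul_right _).mul_right _)
  have hh : ¬ q ∣ h := fun h2 => h1 ((h2.mul_left _).mul_right _)
  have hb0 : ¬ q ∣ b0 := fun h2 => h1 (h2.mul_left _)
  have h2 : q ∣ (g + m) * (h * b0) := by
    have e1 : a + b = (((g + m) * (h * b0) : ℕ) : ℤ) := by rw [ha, hb]; push_cast; ring
    rw [e1] at hqab
    exact_mod_cast hqab
  have h3 : q ∣ g + m := by
    rcases hq.dvd_or_dvd h2 with h3 | h3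
    · exact h3
    · rcases hq.dvd_or_dvd h3 with h3 | h3
      · exact absurd h3 hh
      · exact absurd h3 hb0
  have hg : ¬ q ∣ g := fun h4 => hm ((Nat.dvd_add_right h4).1 h3)
  refine ⟨h3, ?_, hg, hm⟩
  have h4 : q ∣ g * h * A0 := by
    rw [hA] at hqA
    exact_mod_cast hqA
  rcases hq.dvd_or_dvd h4 with h5 | h5
  · rcases hq.dvd_or_dvd h5 with h5 | h5
    · exact absurd h5 hg
    · exact absurd h5 hh
  · exact h5

/-- `K = 3`: the only possibility left is `A₀ = z`, `b₀ = z + k m` -/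
theorem ENum.three {g m A0 b0 : ℕ} (hg : 0 < g) (hm2 : 2 * g ≤ m) (hb0 : A0 < b0)
    (hl : ∃ f d : ℕ, f ∣ m ∧ d ∣ A0 ∧ (f : ℤ) ∣ (b0 : ℤ) - A0 ∧ d ∣ g + m ∧
      ((m : ℤ) - g) * b0 < f * d) (hA0 : 0 < A0) :
    A0 = g + m ∧ b0 = g + 2 * m := by
  obtain ⟨f, d, hf, hd, hfb, hdz, hlt⟩ := hl
  have hm0 : 0 < m := by omega
  have hf0 : 0 < f := Nat.pos_of_dvd_of_pos hf hm0
  have hd0 : 0 < d := Nat.pos_of_dvd_of_pos hd hA0
  have hfm : f = m := by
    by_contra hne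
    obtain ⟨k, hk⟩ := hf
    have hk2 : 2 ≤ k := by
      by_contra hk2
      interval_cases k
      · omega
      · exact hne (by omega)
    have h1 : 2 * f ≤ m := by rw [hk]; nlinarith
    have hdA : d ≤ A0 := Nat.le_of_dvd hA0 hd
    have h2 : (f : ℤ) ≤ (m : ℤ) - g := by omega
    have h3 : (d : ℤ) ≤ b0 := by omega
    have h4 : (f : ℤ) * d ≤ ((m : ℤ) - g) * b0 :=
      mul_le_mul h2 h3 (by positivity) (by omega)
    linarith
  subst hfm
  have hd2 : b0 < 2 * d := by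
    have h1 : (f : ℤ) * b0 ≤ 2 * (((f : ℤ) - g) * b0) := by
      have h2 : (f : ℤ) ≤ 2 * ((f : ℤ) - g) := by omega
      have := mul_le_mul_of_nonneg_right h2 (by positivity : (0 : ℤ) ≤ b0)
      linarith
    have h2 : (f : ℤ) * b0 < f * (2 * d) := by linarith
    have h3 := lt_of_mul_lt_mul_left h2 (by positivity)
    exact_mod_cast h3
  have hdA : d = A0 := by
    obtain ⟨k, hk⟩ := hd
    have hk2 : k < 2 := by
      by_contra hk2
      push Not at hk2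
      have : 2 * d ≤ A0 := by rw [hk]; nlinarith
      omega
    interval_cases k <;> omega
  subst hdA
  obtain ⟨k, hk⟩ := hfb
  have hk1 : 1 ≤ k := by
    by_contra hk1
    have h1 : k ≤ 0 := by omega
    have h2 : (f : ℤ) * k ≤ 0 := mul_nonpos_of_nonneg_of_nonpos (by positivity) h1
    omega
  have hbm : (d : ℤ) + f ≤ b0 := by
    have h2 : (f : ℤ) * 1 ≤ f * k := mul_le_mul_of_nonneg_left hk1 (by positivity)
    linarith
  obtain ⟨j, hj⟩ := hdz
  have hj1 : j = 1 := by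
    have hj0 : j ≠ 0 := by rintro rfl; omega
    by_contra hne
    have hj2 : 2 ≤ j := by omega
    have : 2 * d ≤ g + f := by rw [hj]; nlinarith
    omega
  rw [hj1, mul_one] at hj
  refine ⟨hj.symm, ?_⟩
  have hk2 : k < 2 := by
    by_contra hk2
    push Not at hk2
    have h2 : (f : ℤ) * 2 ≤ f * k := mul_le_mul_of_nonneg_left hk2 (by positivity)
    omega
  have hk3 : k = 1 := by omega
  rw [hk3, mul_one] at hk
  omega

theorem ENum.conf {A b c a e K : ℤ} (hA : 0 < A) (hb : A ≤ b) (hc : A ≤ c) (ha : 0 < a)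
    (he : 0 < e) (h1 : a * A = e * b) (h3 : K * c = A + e)
    (hl1 : a - b < (Int.gcd e (a + b - A) : ℤ)) (hl2 : (Int.gcd e (a + b - A) : ℤ) ≤ 2 * b)
    {q r : ℕ} (hq : q.Prime) (hr : r.Prime) (_hqr : q ≠ r) (hqA : (q : ℤ) ∣ A)
    (hqa : ¬ (q : ℤ) ∣ a) (hqab : (q : ℤ) ∣ a + b) (hrK : (r : ℤ) ∣ K)
    (hA2 : ¬ (2 : ℤ) ∣ A) (hb2 : (2 : ℤ) ∣ b) (hr2 : r ≠ 2) : False := by
  have hb0 : 0 < b := by linarith
  have hc0 : 0 < c := by linarith
  have ha3 : a < 3 * b := by linarith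
  have he3 : e < 3 * A := by
    have h2 : e * b < 3 * A * b := by
      rw [← h1]
      have := mul_lt_mul_of_pos_right ha3 hA
      linarith
    exact lt_of_mul_lt_mul_right h2 hb0.le
  have hK4 : K < 4 := by
    have h2 : K * c < 4 * c := by linarith
    exact lt_of_mul_lt_mul_right h2 hc0.le
  have hK0 : 0 < K := by
    have h2 : 0 < K * c := by linarith
    exact (mul_pos_iff_of_pos_right hc0).1 h2
  have hrle := Int.le_of_dvd hK0 hrK
  have hr3 : 3 ≤ r := by have := hr.two_le; omega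
  have hK3 : K = 3 := by omega
  subst hK3
  have he2 : 2 * A ≤ e := by linarith
  obtain ⟨g, m, h, A0, b0, k1, k2, k3, k4, k5, k6, k7, rfl, rfl, rfl, rfl⟩ :=
    ENum.setup hA hb0 ha he h1
  have hl := ENum.left k3 k6 k7 rfl rfl rfl rfl hl1
  obtain ⟨n1, n2, n3, n4⟩ := ENum.q_dvd hq rfl rfl rfl hqA hqa hqab
  have hhA : (0 : ℤ) < h * A0 := by positivity
  have hgh : (0 : ℤ) < g * h := by positivity
  have hm2 : 2 * g ≤ m := by
    have h2 : (2 * g : ℤ) * (h * A0) ≤ m * (h * A0) := by linarith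
    exact_mod_cast le_of_mul_le_mul_right h2 hhA
  have hAb : A0 < b0 := by
    have h2 : (g * h : ℤ) * A0 ≤ g * h * b0 := hb
    have h4 : A0 ≤ b0 := by exact_mod_cast le_of_mul_le_mul_left h2 hgh
    rcases h4.lt_or_eq with h4 | h4
    · exact h4
    · exfalso
      subst h4
      rw [Nat.coprime_self] at k7
      subst k7
      exact hq.one_lt.ne' (Nat.dvd_one.1 n2)
  obtain ⟨e1, e2⟩ := ENum.three k1 hm2 hAb hl k4
  have o1 : ¬ 2 ∣ g * h * A0 := by
    intro h2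
    exact hA2 (by exact_mod_cast h2)
  have o2 : ¬ 2 ∣ g := fun h2 => o1 ((h2.mul_right _).mul_right _)
  have o3 : ¬ 2 ∣ h := fun h2 => o1 ((h2.mul_left _).mul_right _)
  have o4 : 2 ∣ g * h * b0 := by exact_mod_cast hb2
  rcases Nat.prime_two.dvd_or_dvd o4 with h5 | h5
  · rcases Nat.prime_two.dvd_or_dvd h5 with h5 | h5
    · exact o2 h5
    · exact o3 h5
  · omega

end Pool.Agent.H4G
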