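import Pool.Agent.H4G.Arith.ENumConf

/-!
# HEX: the numbers of the main case (page of helper40, section 3) (helper29)
-/

set_option autoImplicit false

namespace Pool.Agent.H4G

theorem ENum.dec (Y g m : ℕ) (hY6 : Y < 6) (hg : g < 15) (hm : m < 30) (hY3 : 3 ≤ Y) (h1 : g < m)
    (h2 : m < 3 * g) (h3 : g + m < 30) (h4 : Nat.gcd g m = 1)
    (h5 : (Y - 2) * (g + m) < Nat.gcd (2 * Y * g) ((Y + 2) * (g + m) - 4 * g)) :
    (Y = 3 ∧ g = 5 ∧ m = 8) ∨ (Y = 3 ∧ g = 5 ∧ m = 11) ∨ (Y = 4 ∧ g = 3 ∧ m = 7) := by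
  have key : ∀ Y : Fin 6, ∀ g : Fin 15, ∀ m : Fin 30, ¬ (3 ≤ Y.1 ∧ g.1 < m.1 ∧ m.1 < 3 * g.1 ∧
      g.1 + m.1 < 30 ∧ Nat.gcd g.1 m.1 = 1 ∧
      (Y.1 - 2) * (g.1 + m.1) < Nat.gcd (2 * Y.1 * g.1) ((Y.1 + 2) * (g.1 + m.1) - 4 * g.1) ∧
      ¬ ((Y.1 = 3 ∧ g.1 = 5 ∧ m.1 = 8) ∨ (Y.1 = 3 ∧ g.1 = 5 ∧ m.1 = 11) ∨
        (Y.1 = 4 ∧ g.1 = 3 ∧ m.1 = 7))) := by
    decide +kernel
  by_contra hn
  exact key ⟨Y, hY6⟩ ⟨g, hg⟩ ⟨m, hm⟩ ⟨hY3, h1, h2, h3, h4, h5, hn⟩

/-- the right gap condition for `K = 2` -/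
theorem ENum.right {g m h A0 : ℕ} (hh : 0 < h) (hA0 : 0 < A0) {A c a' e' Y : ℤ}
    (hA : A = g * h * A0) (hc : 2 * c = h * A0 * (g + m)) (hY : 2 * a' = Y * c)
    (he' : 2 * e' = Y * A) (hr : a' - c < (Int.gcd e' (a' + c - A) : ℤ)) :
    (Y - 2) * (g + m) < (Int.gcd (2 * Y * g) ((Y + 2) * (g + m) - 4 * g) : ℤ) := by
  have hh' : (0 : ℤ) < h * A0 := by positivity
  have e1 : 4 * e' = (h * A0 : ℤ) * (2 * Y * g) := by
    have : 4 * e' = 2 * (2 * e') := by ring
    rw [this, he', hA]; ring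
  have e2 : 4 * (a' + c - A) = (h * A0 : ℤ) * ((Y + 2) * (g + m) - 4 * g) := by
    have : 4 * (a' + c - A) = 2 * (2 * a') + 2 * (2 * c) - 4 * A := by ring
    rw [this, hY, hA]
    linear_combination (Y + 2) * hc
  have e3 : 4 * (a' - c) = (h * A0 : ℤ) * ((Y - 2) * (g + m)) := by
    have : 4 * (a' - c) = 2 * (2 * a') - 2 * (2 * c) := by ring
    rw [this, hY]
    linear_combination (Y - 2) * hc
  have h1 : 4 * (Int.gcd e' (a' + c - A) : ℤ) =
      (h * A0 : ℤ) * (Int.gcd (2 * Y * g) ((Y + 2) * (g + m) - 4 * g) : ℤ) := by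
    have k1 : (Int.gcd (4 * e') (4 * (a' + c - A)) : ℤ) = 4 * (Int.gcd e' (a' + c - A) : ℤ) := by
      rw [Int.gcd_mul_left]; push_cast; norm_num
    rw [← k1, e1, e2, Int.gcd_mul_left]
    push_cast
    rw [abs_mul, Nat.abs_cast, Nat.abs_cast]
  have h2 : (h * A0 : ℤ) * ((Y - 2) * (g + m)) <
      (h * A0 : ℤ) * (Int.gcd (2 * Y * g) ((Y + 2) * (g + m) - 4 * g) : ℤ) := by
    rw [← e3, ← h1]; linarith
  exact lt_of_mul_lt_mul_left h2 hh'.le

theorem ENum.main {A b c a a' e e' K Y : ℤ} (hA : 0 < A) (hb : A ≤ b) (hc : A ≤ c) (ha : 0 < a)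
    (haa' : a ≤ a') (he : 0 < e) (_he' : 0 < e')
    (h1 : a * A = e * b) (h2 : a' * A = e' * c) (h3 : K * c = A + e) (h4 : K * a' = Y * c)
    (hl1 : a - b < (Int.gcd e (a + b - A) : ℤ)) (hl2 : (Int.gcd e (a + b - A) : ℤ) ≤ 2 * b)
    (hr1 : a' - c < (Int.gcd e' (a' + c - A) : ℤ)) (hr2 : (Int.gcd e' (a' + c - A) : ℤ) ≤ 2 * c)
    {q r : ℕ} (hq : q.Prime) (hr : r.Prime) (hqr : q ≠ r) (hqA : (q : ℤ) ∣ A)
    (hqa : ¬ (q : ℤ) ∣ a) (hqab : (q : ℤ) ∣ a + b) (hrK : (r : ℤ) ∣ K) : False := by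
  have hb0 : 0 < b := by linarith
  have hc0 : 0 < c := by linarith
  have ha3 : a < 3 * b := by linarith
  have ha3' : a' < 3 * c := by linarith
  have he3 : e < 3 * A := by
    have h5 : e * b < 3 * A * b := by
      rw [← h1]
      have := mul_lt_mul_of_pos_right ha3 hA
      linarith
    exact lt_of_mul_lt_mul_right h5 hb0.le
  have hK4 : K < 4 := by
    have h5 : K * c < 4 * c := by linarith
    exact lt_of_mul_lt_mul_right h5 hc0.le
  have hK0 : 0 < K := by
    have h5 : 0 < K * c := by linarith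
    exact (mul_pos_iff_of_pos_right hc0).1 h5
  have hrle := Int.le_of_dvd hK0 hrK
  have hr2' : 2 ≤ r := hr.two_le
  obtain ⟨g, m, h, A0, b0, k1, k2, k3, k4, k5, k6, k7, rfl, rfl, rfl, rfl⟩ :=
    ENum.setup hA hb0 ha he h1
  have hl := ENum.left k3 k6 k7 rfl rfl rfl rfl hl1
  obtain ⟨n1, n2, n3, n4⟩ := ENum.q_dvd hq rfl rfl rfl hqA hqa hqab
  have hhA : (0 : ℤ) < h * A0 := by positivity
  have hgh : (0 : ℤ) < g * h := by positivity
  have hh0 : (0 : ℤ) < h := by positivity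
  have hm3 : m < 3 * g := by
    have h5 : (m : ℤ) * (h * A0) < (3 * g) * (h * A0) := by linarith
    exact_mod_cast lt_of_mul_lt_mul_right h5 hhA.le
  have hAb : A0 < b0 := by
    have h5 : (g * h : ℤ) * A0 ≤ g * h * b0 := hb
    have h4 : A0 ≤ b0 := by exact_mod_cast le_of_mul_le_mul_left h5 hgh
    rcases h4.lt_or_eq with h4 | h4
    · exact h4
    · exfalso
      subst h4
      rw [Nat.coprime_self] at k7
      subst k7
      exact hq.one_lt.ne' (Nat.dvd_one.1 n2)
  have hK23 : K = 2 ∨ K = 3 := by omega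
  rcases hK23 with rfl | rfl
  · -- `K = 2`
    have hr22 : r = 2 := by
      have h5 : r ∣ 2 := by exact_mod_cast hrK
      exact (Nat.prime_dvd_prime_iff_eq hr Nat.prime_two).1 h5
    subst hr22
    have hgm : g ≤ m := by
      have h5 : (g : ℤ) * (h * A0) ≤ m * (h * A0) := by linarith
      exact_mod_cast le_of_mul_le_mul_right h5 hhA
    have hgm1 : g < m := by
      rcases hgm.lt_or_eq with h5 | h5
      · exact h5
      · exfalso
        subst h5
        rw [Nat.coprime_self] at k6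
        subst k6
        exact hqr ((Nat.prime_dvd_prime_iff_eq hq Nat.prime_two).1 (by simpa using n1))
    have hY6 : Y < 6 := by
      have h5 : Y * c < 6 * c := by linarith
      exact lt_of_mul_lt_mul_right h5 hc0.le
    have hcz : 2 * c = h * A0 * (g + m) := by rw [h3]; ring
    have heY : 2 * e' = Y * (g * h * A0) := by
      refine mul_right_cancel₀ hc0.ne' ?_
      have h5 : Y * (g * h * A0) * c = (Y * c) * (g * h * A0) := by ring
      rw [h5, ← h4]
      linear_combination (-2) * h2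
    have haY : 4 * (m * b0 : ℤ) ≤ Y * (A0 * (g + m)) := by
      have h5 : (h : ℤ) * (4 * (m * b0)) ≤ h * (Y * (A0 * (g + m))) := by
        have h6 : 4 * a' = Y * (h * A0 * (g + m)) := by
          have : 4 * a' = 2 * (2 * a') := by ring
          rw [this, h4, ← hcz]; ring
        have h7 : (h : ℤ) * (4 * (m * b0)) = 4 * (m * h * b0) := by ring
        have h8 : (h : ℤ) * (Y * (A0 * (g + m))) = Y * (h * A0 * (g + m)) := by ring
        rw [h7, h8, ← h6]
        linarith
      exact le_of_mul_le_mul_left h5 hh0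
    have hY3 : 3 ≤ Y := by
      by_contra hY3
      have h5 : Y * (A0 * (g + m) : ℤ) ≤ 2 * (A0 * (g + m)) :=
        mul_le_mul_of_nonneg_right (by omega) (by positivity)
      have h6 : (A0 * (g + m) : ℤ) < b0 * (2 * m) := by
        have h7 : ((g : ℤ) + m) ≤ 2 * m := by omega
        have h8 : (A0 : ℤ) < b0 := by exact_mod_cast hAb
        have h9 : (A0 * (g + m) : ℤ) ≤ A0 * (2 * m) := mul_le_mul_of_nonneg_left h7 (by positivity)
        have h10 : (A0 * (2 * m) : ℤ) < b0 * (2 * m) := mul_lt_mul_of_pos_right h8 (by positivity)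
        linarith
      linarith
    obtain ⟨Y, rfl⟩ := Int.eq_ofNat_of_zero_le (by omega : 0 ≤ Y)
    have hY6' : Y < 6 := by exact_mod_cast hY6
    have hY3' : 3 ≤ Y := by exact_mod_cast hY3
    have hR := ENum.right k3 k4 rfl hcz h4 heY hr1
    set G : ℕ := Nat.gcd (2 * Y * g) ((Y + 2) * (g + m) - 4 * g) with hG
    have hsub : 4 * g ≤ (Y + 2) * (g + m) := by nlinarith
    have hGi : (Int.gcd (2 * (Y : ℤ) * g) (((Y : ℤ) + 2) * (g + m) - 4 * g) : ℤ) = G := by
      rw [hG]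
      have e1 : (2 * (Y : ℤ) * g) = ((2 * Y * g : ℕ) : ℤ) := by push_cast; ring
      have e2 : (((Y : ℤ) + 2) * (g + m) - 4 * g) = (((Y + 2) * (g + m) - 4 * g : ℕ) : ℤ) := by
        rw [Nat.cast_sub hsub]; push_cast; ring
      rw [e1, e2]
      norm_cast
    rw [hGi] at hR
    have hR' : (Y - 2) * (g + m) < G := by
      have e1 : (((Y - 2) * (g + m) : ℕ) : ℤ) = ((Y : ℤ) - 2) * (g + m) := by
        rw [Nat.cast_mul, Nat.cast_sub (by omega)]; push_cast; ring
      have : (((Y - 2) * (g + m) : ℕ) : ℤ) < G := by rw [e1]; exact hR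
      exact_mod_cast this
    have hGle : G ≤ 2 * Y * (Y + 2) := by
      have h5 : G ∣ 2 * Y * g := by rw [hG]; exact Nat.gcd_dvd_left _ _
      have h6 : G ∣ 2 * Y * Nat.gcd G g := by
        rw [← Nat.gcd_mul_left]
        exact Nat.dvd_gcd (Dvd.intro_left _ rfl) h5
      have h7 : Nat.gcd G g ∣ Y + 2 := by
        have h8 : Nat.gcd G g ∣ (Y + 2) * (g + m) - 4 * g :=
          (Nat.gcd_dvd_left G g).trans (by rw [hG]; exact Nat.gcd_dvd_right _ _)
        have h9 : Nat.gcd G g ∣ 4 * g := (Nat.gcd_dvd_right G g).mul_left _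
        have h10 : Nat.gcd G g ∣ (Y + 2) * (g + m) := by
          have := (Nat.dvd_add_right h9).2 h8
          rwa [Nat.add_sub_cancel' hsub] at this
        have h11 : Nat.Coprime (Nat.gcd G g) (g + m) := by
          have : Nat.Coprime g (g + m) := by simpa using k6
          exact this.coprime_dvd_left (Nat.gcd_dvd_right G g)
        exact h11.dvd_of_dvd_mul_right h10
      have h8 := Nat.le_of_dvd (by omega) h7
      have h9 : 0 < 2 * Y * Nat.gcd G g :=
        Nat.mul_pos (by omega) (Nat.gcd_pos_of_pos_right _ k1)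
      exact (Nat.le_of_dvd h9 h6).trans (Nat.mul_le_mul_left _ h8)
    have hz30 : g + m < 30 := by
      have h5 := hR'.trans_le hGle
      interval_cases Y <;> omega
    have hdec := ENum.dec Y g m hY6' (by omega) (by omega) hY3' hgm1 hm3 hz30 k6 hR'
    obtain ⟨f, d, hf, hd, hfb, hdz, hlt⟩ := hl
    have hfle : f ≤ m := Nat.le_of_dvd k2 hf
    have hdle : d ≤ g + m := Nat.le_of_dvd (by omega) hdz
    rcases hdec with ⟨rfl, rfl, rfl⟩ | ⟨rfl, rfl, rfl⟩ | ⟨rfl, rfl, rfl⟩
    · -- `(3, 5, 8)`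
      have hq13 : q = 13 := (Nat.prime_dvd_prime_iff_eq hq (by norm_num)).1 (by simpa using n1)
      subst hq13
      push_cast at hlt haY
      have hfd : (f : ℤ) * d ≤ 8 * 13 := by
        have h5 : f * d ≤ 8 * 13 := Nat.mul_le_mul hfle (by simpa using hdle)
        exact_mod_cast h5
      have hb34 : b0 < 35 := by omega
      have hd13 : d = 1 ∨ d = 13 := (Nat.dvd_prime (by norm_num)).1 (by simpa using hdz)
      obtain ⟨j, rfl⟩ := n2
      have hj : j = 1 ∨ j = 2 := by omega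
      have hf8 : f = 1 ∨ f = 2 ∨ f = 4 ∨ f = 8 := by
        have : f ∈ Nat.divisors 8 := by rw [Nat.mem_divisors]; exact ⟨hf, by norm_num⟩
        have e1 : Nat.divisors 8 = {1, 2, 4, 8} := by decide
        rw [e1] at this
        simpa using this
      rcases hj with rfl | rfl
      · have hb15 : b0 ≤ 15 := by omega
        have hf2 : f ≤ 2 := by
          have h5 : (0 : ℤ) < (b0 : ℤ) - ((13 * 1 : ℕ) : ℤ) := by push_cast; omega
          have := Int.le_of_dvd h5 hfb
          push_cast at this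
          omega
        have : f * d ≤ 2 * 13 := Nat.mul_le_mul hf2 (by omega)
        have h6 : (f : ℤ) * d ≤ 26 := by exact_mod_cast this
        omega
      · have hb2 : ¬ 2 ∣ b0 := fun h5 =>
          Nat.not_coprime_of_dvd_of_dvd (by norm_num) (by norm_num : 2 ∣ 13 * 2) h5 k7
        have hf1 : f = 1 := by
          rcases hf8 with h5 | h5 | h5 | h5
          · exact h5
          · exfalso; subst h5; push_cast at hfb; omega
          · exfalso; subst h5; push_cast at hfb; omega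
          · exfalso; subst h5; push_cast at hfb; omega
        subst hf1
        push_cast at hlt
        omega
    · -- `(3, 5, 11)`
      have hq2 : q ∣ 2 ^ 4 := by simpa using n1
      exact hqr ((Nat.prime_dvd_prime_iff_eq hq Nat.prime_two).1 (hq.dvd_of_dvd_pow hq2))
    · -- `(4, 3, 7)`
      push_cast at hlt haY
      have hf7 : f = 1 ∨ f = 7 := (Nat.dvd_prime (by norm_num)).1 hf
      rcases hf7 with rfl | rfl
      · have hdA : d ≤ A0 := Nat.le_of_dvd k4 hd
        push_cast at hlt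
        omega
      · push_cast at hlt
        have h5 : (0 : ℤ) < (b0 : ℤ) - A0 := by omega
        have h6 := Int.le_of_dvd h5 hfb
        push_cast at h6
        omega
  · -- `K = 3`
    have hm2 : 2 * g ≤ m := by
      have h5 : (2 * g : ℤ) * (h * A0) ≤ m * (h * A0) := by linarith
      exact_mod_cast le_of_mul_le_mul_right h5 hhA
    obtain ⟨e1, e2⟩ := ENum.three k1 hm2 hAb hl k4
    have h5 : (m * h * b0 : ℤ) < g * h * A0 + m * h * A0 := by linarith
    have h6 : (h : ℤ) * (m * b0) < h * ((g + m) * A0) := by linarith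
    have h7 := lt_of_mul_lt_mul_left h6 hh0.le
    rw [e1, e2] at h7
    push_cast at h7
    have hm2' : (2 * g : ℤ) ≤ m := by exact_mod_cast hm2
    have hg0 : (0 : ℤ) < g := by exact_mod_cast k1
    nlinarith

end Pool.Agent.H4G
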