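import Pool.Agent.H4G.Arith.EExist
import Pool.Agent.H4G.Arith.ECont
import Pool.Agent.H4G.Arith.ENumMain
import Pool.Agent.H4G.Arith.ENumConf

/-!
# Every class of odd volume contains a state with content one (helper40's page HEX, (E))

Typed by helper5 (L1-L6, assembly) and helper29 (L7, L8, numbers).
-/

set_option autoImplicit false

namespace Pool.Agent.H4G

/-- (E): every class with prime volume contains a state with content one on the right -/
theorem exists_con1 {S : PSt} (hS : S.Ok) (hF : S.Full) {l p l' p' : Z2} (ad : Ad S l p l' p')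
    {N : ℕ} (hN : N.Prime) (hv : cr p l + cr S.u S.v + cr l' p' = N) :
    ∃ T : PSt, SEq S T ∧ Con1 T.L' := by
  by_contra hcon
  have hNC : ∀ T : PSt, SEq S T → ¬ Con1 T.L' := fun T h1 h2 => hcon ⟨T, h1, h2⟩
  obtain ⟨T, a', d, c, h1, h2, h3, h4⟩ := exists_hex hS hF hNC
  obtain ⟨l1, p1, l1', p1', ad1⟩ := exists_Ad h1.ok'
  have hv1 : cr p1 l1 + cr T.u T.v + cr l1' p1' = N := by
    rw [← hv]
    exact h1.vol ad.isArea ad.isArea' ad1.isArea ad1.isArea'
  obtain ⟨g1, g2, g3⟩ := h4 _ _ _ _ ad1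
  have hF1 : T.Full := h1.full.1 hF
  have hAb : cr T.u T.v ≤ cr p1 T.v := h2.hA _ ad1.isC
  have hAc : cr T.u T.v ≤ cr T.u p1' := h2.fr.leA ad1.isC'
  have haa : cr p1 l1 ≤ cr l1' p1' := by
    rw [ad1.isArea'.unique h2.fr.ha']
    exact h2.fr.area_le ad1.isArea
  have ec : cr T.u p1' = c := ad1.isC'.unique h2.hc
  have hNC1 : ∀ T2 : PSt, SEq T T2 → ¬ Con1 T2.L' := fun T2 h => hNC T2 (h1.trans h)
  -- L7
  obtain ⟨r, hr, r1, r2, r3⟩ := ad1.e7 h1.ok' hAc (fun T2 h => nc_left hNC1 h)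
  obtain ⟨K, Y, hK, hY⟩ := h2.KY ad1
  obtain ⟨hvr1, hvr2⟩ := h2.vrig ad1
  have hrK : (r : ℤ) ∣ K := by
    refine hF1.e7K (l := l1) (l' := l1') (c := cr T.u p1')
      (by rw [ad1.hL]; exact mem_lat.2 ⟨1, 0, by module⟩)
      (by rw [ad1.hL']; exact mem_lat.2 ⟨1, 0, by module⟩) hr r1 r2 r3 ad1.h6.ne' hK
      (fun w hw => ?_) (fun w hw => by rw [ec]; exact h2.hc.2.1 w hw)
    rw [ad1.hL'] at hw
    obtain ⟨m, n, rfl⟩ := mem_lat.1 hw
    rw [ec, cr_add_right, cr_smul_right, cr_smul_right]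
    exact dvd_add (hvr1.mul_left _) (hvr2.mul_left _)
  -- L8
  obtain ⟨q, hq, q1, q2⟩ := nc_right hNC1 h1.ok'.seq
  obtain ⟨q3, q4⟩ := h2.dz_of_dz ad1 q2
  obtain ⟨m1, m2, m3, m4⟩ := ad1.e8 hF1 hq q2 q3 q4
  have hqr := m4 r hr r1
  have hA0 := ad1.hA
  by_cases hconf : (∀ w ∈ T.L, Dz 2 w) → Dz 2 T.v
  · obtain ⟨g4, g5⟩ := g3 hconf
    exact ENum.main hA0 hAb hAc ad1.pos haa ad1.h2 ad1.h5 ad1.area ad1.area' hK hY g1 g2 g4 g5
      hq hr hqr m2 m1 m3 hrK
  · push Not at hconf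
    obtain ⟨n1, n2⟩ := hconf
    have hr2 : r ≠ 2 := by
      rintro rfl
      exact n2 r2
    have hK0 : 0 < K := by
      have h5 : 0 < K * cr T.u p1' := by
        rw [hK]
        have := ad1.h2
        linarith
      exact (mul_pos_iff_of_pos_right ad1.h6).1 h5
    have he3 : cr T.u l1 < 3 * cr T.u T.v := by
      have h5 : cr p1 l1 < 3 * cr p1 T.v := by linarith
      have h6 := ad1.area
      have h7 : cr T.u l1 * cr p1 T.v < 3 * cr T.u T.v * cr p1 T.v := by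
        rw [← h6]
        have := mul_lt_mul_of_pos_right h5 hA0
        linarith
      exact lt_of_mul_lt_mul_right h7 ad1.h3.le
    have hK4 : K < 4 := by
      by_contra hge
      push Not at hge
      have h5 := mul_le_mul_of_nonneg_right hge ad1.h6.le
      rw [hK] at h5
      linarith
    have hK2 : ¬ (2 : ℤ) ∣ K := by
      intro h5
      have h6 : (r : ℤ) ≤ K := Int.le_of_dvd hK0 hrK
      have h7 := hr.two_le
      have h8 : r = 3 := by omega
      subst h8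
      omega
    obtain ⟨f1, f2, f3, f4⟩ := ad1.e_parity hN hv1 n1 hK hY hK2
    exact ENum.conf hA0 hAb hAc ad1.pos ad1.h2 ad1.area hK g1 g2 hq hr hqr m2 m1 m3 hrK f1 f2 hr2

end Pool.Agent.H4G
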