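import Pool.Agent.H4G.Arith.EFin

/-!
# The frame ExtB exists in every class with prime volume (helper19, helper40; Lean: helper5)
-/

set_option autoImplicit false

namespace Pool.Agent.H4G

/-- the common start of the cases of `K` -/
theorem exists_frame {S : PSt} (hS : S.Ok) (hF : S.Full) {l p l' p' : Z2} (ad : Ad S l p l' p')
    {N : ℕ} (hN : N.Prime) (hv : cr p l + cr S.u S.v + cr l' p' = N) :
    ∃ (T : PSt) (a' b c : ℤ) (l2 p2 l2' p2' : Z2), SEq S T ∧ ExtB T a' b c ∧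
      Ad T l2 p2 l2' p2' ∧ T.Full ∧ cr p2 l2 + cr T.u T.v + cr l2' p2' = N := by
  obtain ⟨S1, a', h1, h2, h3⟩ := exists_mx (exists_con1 hS hF ad hN hv)
  obtain ⟨T, b, c, h4, h5⟩ := h2.exists_extB h3
  obtain ⟨l2, p2, l2', p2', ad2⟩ := exists_Ad h4.ok'
  have h6 := h1.trans h4
  refine ⟨T, a', b, c, l2, p2, l2', p2', h6, h5, ad2, h6.full.1 hF, ?_⟩
  rw [← hv]
  exact h6.vol ad.isArea ad.isArea' ad2.isArea ad2.isArea'

end Pool.Agent.H4G
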