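import Pool.Agent.H4G.Arith.LMove

/-!
# Free shears for `N` prime (row R1: SFREE, SFREE', CHOICE; helper97)

If `c (S) = gcd (u × L')` equals `A = u × v` and `N = a + A + a'` is prime, then the left lattice
may be replaced by its image under every shear `w ↦ w + i (u × w) u`.
-/

set_option autoImplicit false

open scoped MatrixGroups

namespace Pool.Agent.H4G

/-! ## The shear along `u` -/

/-- the shear `w ↦ w + i (u × w) u` -/
def shU (u : Z2) (i : ℤ) : SL(2, ℤ) :=
  ⟨!![1 - i * u.1 * u.2, i * u.1 * u.1; -(i * u.2 * u.2), 1 + i * u.1 * u.2], by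
    rw [Matrix.det_fin_two_of]; ring⟩

theorem act_shU (u : Z2) (i : ℤ) (w : Z2) : act (shU u i) w = w + (i * cr u w) • u := by
  rw [act_apply]
  ext
  · simp only [shU, cr, Prod.fst_add, Prod.smul_fst, smul_eq_mul, Matrix.SpecialLinearGroup.coe_mk,
      Matrix.of_apply, Matrix.cons_val', Matrix.cons_val_zero, Matrix.cons_val_one,
      Matrix.cons_val_fin_one]
    ring
  · simp only [shU, cr, Prod.snd_add, Prod.smul_snd, smul_eq_mul, Matrix.SpecialLinearGroup.coe_mk,
      Matrix.of_apply, Matrix.cons_val', Matrix.cons_val_zero, Matrix.cons_val_one,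
      Matrix.cons_val_fin_one]
    ring

theorem act_shU_self (u : Z2) (i : ℤ) : act (shU u i) u = u := by
  rw [act_shU, cr_self, mul_zero, zero_smul, add_zero]

theorem act_shU_add (u : Z2) (i j : ℤ) (w : Z2) :
    act (shU u i) (act (shU u j) w) = act (shU u (i + j)) w := by
  simp only [act_shU, cr_add_right, cr_smul_right, cr_self]
  module

theorem shU_e1 (i : ℤ) : shU (1, 0) i = shH i := by
  ext a b
  fin_cases a <;> fin_cases b <;> simp [shU, shH]

theorem shU_e2 (i : ℤ) : shU (0, 1) i = shV (-i) := by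
  ext a b
  fin_cases a <;> fin_cases b <;> simp [shU, shV]

theorem map_shU_add (L : AddSubgroup Z2) (u : Z2) (i j : ℤ) :
    (L.map (act (shU u j))).map (act (shU u i)) = L.map (act (shU u (i + j))) := by
  ext w
  simp only [AddSubgroup.mem_map]
  constructor
  · rintro ⟨_, ⟨x, hx, rfl⟩, rfl⟩
    exact ⟨x, hx, (act_shU_add u i j x).symm⟩
  · rintro ⟨x, hx, rfl⟩
    exact ⟨_, ⟨x, hx, rfl⟩, act_shU_add u i j x⟩

theorem map_shU_zero (L : AddSubgroup Z2) (u : Z2) : L.map (act (shU u 0)) = L := by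
  ext w
  rw [AddSubgroup.mem_map]
  constructor
  · rintro ⟨x, hx, rfl⟩
    rw [act_shU, zero_mul, zero_smul, add_zero]; exact hx
  · intro hw
    exact ⟨w, hw, by rw [act_shU, zero_mul, zero_smul, add_zero]⟩

/-- `a ℤ² ⊆ L` -/
theorem IsArea.smul_mem {L : AddSubgroup Z2} {a : ℤ} (h : IsArea L a) (w : Z2) : a • w ∈ L := by
  obtain ⟨_, l, p, h1, h2⟩ := h
  have := cr_expand p l w
  rw [h1] at this
  rw [this, h2]
  exact mem_lat.2 ⟨-cr w p, cr w l, by module⟩

/-- the lattice is invariant under the shears by multiples of its area -/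
theorem IsArea.map_shU {L : AddSubgroup Z2} {a : ℤ} (h : IsArea L a) (u : Z2) (k : ℤ) :
    L.map (H4G.act (shU u (a * k))) = L := by
  have key : ∀ k : ℤ, L.map (H4G.act (shU u (a * k))) ≤ L := by
    rintro k _ ⟨x, hx, rfl⟩
    rw [act_shU]
    have : (a * k * cr u x) • u = (k * cr u x) • (a • u) := by module
    rw [this]
    exact L.add_mem hx (L.zsmul_mem (h.smul_mem u) _)
  refine le_antisymm (key k) ?_
  intro w hw
  refine ⟨H4G.act (shU u (a * -k)) w, key (-k) ⟨w, hw, rfl⟩, ?_⟩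
  rw [act_shU_add]
  have : a * k + a * -k = 0 := by ring
  rw [this, act_shU, zero_mul, zero_smul, add_zero]

theorem IsArea.map_shU_congr {L : AddSubgroup Z2} {a : ℤ} (h : IsArea L a) (u : Z2) {i j : ℤ}
    (hij : a ∣ i - j) : L.map (H4G.act (shU u i)) = L.map (H4G.act (shU u j)) := by
  obtain ⟨k, hk⟩ := hij
  have e : i = j + a * k := by linarith
  rw [e, ← map_shU_add, h.map_shU]

/-- the action of the shear along `u` on lattices in congruence form -/
theorem map_shU_Lc (a p q : ℤ) (u : Z2) (i : ℤ) : (Lc a p q).map (act (shU u i)) =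
    Lc a (p + i * u.2 * (p * u.1 + q * u.2)) (q - i * u.1 * (p * u.1 + q * u.2)) := by
  ext w
  rw [AddSubgroup.mem_map]
  constructor
  · rintro ⟨x, hx, rfl⟩
    rw [mem_Lc] at hx ⊢
    rw [act_shU]
    have : (p + i * u.2 * (p * u.1 + q * u.2)) * (x + (i * cr u x) • u).1 +
        (q - i * u.1 * (p * u.1 + q * u.2)) * (x + (i * cr u x) • u).2 = p * x.1 + q * x.2 := by
      simp only [cr, Prod.fst_add, Prod.smul_fst, Prod.snd_add, Prod.smul_snd, smul_eq_mul]; ring
    rwa [this]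
  · intro hw
    refine ⟨act (shU u (-i)) w, ?_, ?_⟩
    · rw [mem_Lc] at hw
      show _ ∈ Lc a p q
      rw [mem_Lc, act_shU]
      have : p * (w + (-i * cr u w) • u).1 + q * (w + (-i * cr u w) • u).2 =
          (p + i * u.2 * (p * u.1 + q * u.2)) * w.1 +
          (q - i * u.1 * (p * u.1 + q * u.2)) * w.2 := by
        simp only [cr, Prod.fst_add, Prod.smul_fst, Prod.snd_add, Prod.smul_snd, smul_eq_mul]; ring
      rwa [this]
    · rw [act_shU_add, add_neg_cancel, act_shU, zero_mul, zero_smul, add_zero]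

/-! ## SFREE -/

/-- the twists with `c (S) = A`: the left lattice is free under the shears by the multiples of
`g + t`, where `g : t = A : a'` -/
theorem SEq.sfree_aux {L L' : AddSubgroup Z2} {u v : Z2} {a' : ℤ}
    (hok : PSt.Ok ⟨L, u, v, L'⟩) (ha' : IsArea L' a') (hc : IsC L' u (cr u v)) :
    ∃ g t d : ℤ, cr u v = g * d ∧ a' = t * d ∧
      ∀ k : ℤ, SEq ⟨L, u, v, L'⟩ ⟨L.map (H4G.act (shU u (k * (g + t)))), u, v, L'⟩ := by
  have hA : 0 < cr u v := hok.pos
  obtain ⟨ha0, l0, p0, h1, h2⟩ := ha'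
  obtain ⟨e, f, k1, k2, k3, k4, k5, k6⟩ := exists_adapted (l := l0) (p := p0) (u := u) (v := v)
    (by rw [h1]; exact ha0) hA
  rw [← k1] at h2
  rw [h1] at k2 k6
  subst h2
  have hcf : cr u f = cr u v := (isC_adapted k3 k5).unique hc
  have hve : cr v e = a' := by
    rw [hcf, mul_comm a'] at k6
    exact mul_left_cancel₀ hA.ne' k6
  obtain ⟨d, g, t, hd0, hco, hg, ht⟩ := Int.exists_gcd_one' (m := cr u v) (n := a')
    (Int.gcd_pos_of_ne_zero_left _ hA.ne')
  obtain ⟨x, y, hxy⟩ := (Int.isCoprime_iff_gcd_eq_one (m := g) (n := t)).2 hco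
  have hd : (d : ℤ) ≠ 0 := by exact_mod_cast hd0.ne'
  have hexp : g • e = -(t • u) := by
    have h3 := cr_expand u v e
    rw [cr_swap e v, hve, cr_swap e u, k3] at h3
    have h4 : (d : ℤ) • (g • e) = (d : ℤ) • (-(t • u)) := by
      rw [smul_smul, mul_comm (d : ℤ) g, ← hg, h3, ht]; module
    exact smul_inj hd h4
  -- the common vector
  have hu : u = g • (x • u - y • e) := by
    have : g • (x • u - y • e) = (x * g) • u - y • (g • e) := by module
    rw [this, hexp]
    have : (x * g) • u - y • -(t • u) = (x * g + y * t) • u := by module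
    rw [this, hxy, one_smul]
  have he : e = -(t • (x • u - y • e)) := by
    have : -(t • (x • u - y • e)) = x • (-(t • u)) + (y * t) • e := by module
    rw [this, ← hexp]
    have : x • g • e + (y * t) • e = (x * g + y * t) • e := by module
    rw [this, hxy, one_smul]
  set w := x • u - y • e with hw
  refine ⟨g, t, d, hg, ht, fun k => ?_⟩
  have m1 := SEq.twist' hok (by rw [hve]; exact ha0) (by rw [hve, k2]) k3 (-(k * g * cr u v))
  have m2 := SEq.act (shU u (k * (g + t))) m1.ok'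
  unfold PSt.act at m2
  simp only [map_lat] at m2
  have e1 : H4G.act (shU u (k * (g + t))) (v + (-(k * g * cr u v)) • (u - e)) = v := by
    have h5 : (u - e : Z2) = (g + t) • w := by
      conv_lhs => rw [hu, he]
      module
    have h6 : cr u (u - e) = 0 := by rw [cr_sub_right, cr_self, k3]; ring
    rw [act_shU, cr_add_right, cr_smul_right, h6, mul_zero, add_zero, h5]
    have h7 : (k * (g + t) * cr u v) • u = (k * (g + t) * cr u v * g) • w := by
      refine (congrArg (fun z => (k * (g + t) * cr u v) • z) hu).trans ?_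
      module
    rw [h7]; module
  have e2 : H4G.act (shU u (k * (g + t))) e = e := by
    rw [act_shU, k3, mul_zero, zero_smul, add_zero]
  have e3 : H4G.act (shU u (k * (g + t))) (f + (-(k * g * cr u v)) • u) = f + (-(k * cr u v * g)) • e := by
    rw [act_shU, cr_add_right, cr_smul_right, cr_self, mul_zero, add_zero, hcf]
    have h7 : (-(k * cr u v * g)) • e = (k * cr u v) • (t • u) := by
      have : (-(k * cr u v * g)) • e = (-(k * cr u v)) • (g • e) := by module
      rw [this, hexp]; module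
    rw [h7]; module
  rw [e1, e2, e3, act_shU_self, lat_add_smul] at m2
  exact m1.trans m2

/-- every integer is a multiple of `g + t` modulo the area -/
theorem SEq.sfree {N : ℕ} (hN : N.Prime) {L L' : AddSubgroup Z2} {u v : Z2} {a a' : ℤ}
    (hok : PSt.Ok ⟨L, u, v, L'⟩) (ha : IsArea L a) (ha' : IsArea L' a')
    (hv : a + cr u v + a' = N) (hc : IsC L' u (cr u v)) (i : ℤ) :
    SEq ⟨L, u, v, L'⟩ ⟨L.map (H4G.act (shU u i)), u, v, L'⟩ := by
  obtain ⟨g, t, d, h1, h2, h3⟩ := SEq.sfree_aux hok ha' hc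
  have hA : 0 < cr u v := hok.pos
  have hco : IsCoprime (g + t) a := by
    refine isCoprime_of_prime fun l hl h4 h5 => ?_
    have h6 : (l : ℤ) ∣ N := by
      rw [← hv, h1, h2]
      have : a + g * d + t * d = a + (g + t) * d := by ring
      rw [this]
      exact dvd_add h4 (h5.mul_right _)
    have h7 := (Nat.prime_dvd_prime_iff_eq hl hN).1 (Int.natCast_dvd_natCast.1 h6)
    have h8 := Int.le_of_dvd ha.1 h4
    rw [h7, ← hv] at h8
    linarith [ha'.1]
  obtain ⟨x, y, hxy⟩ := hco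
  have e : L.map (H4G.act (shU u i)) = L.map (H4G.act (shU u (i * x * (g + t)))) :=
    ha.map_shU_congr u ⟨i * y, by linear_combination (-i) * hxy⟩
  rw [e]
  exact h3 _

/-- SFREE' : the mirror of `SEq.sfree` -/
theorem SEq.sfree' {N : ℕ} (hN : N.Prime) {L L' : AddSubgroup Z2} {u v : Z2} {a a' : ℤ}
    (hok : PSt.Ok ⟨L, u, v, L'⟩) (ha : IsArea L a) (ha' : IsArea L' a')
    (hv : a + cr u v + a' = N) (hc : IsC L v (cr u v)) (i : ℤ) :
    SEq ⟨L, u, v, L'⟩ ⟨L, u, v, L'.map (H4G.act (shU v i))⟩ := by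
  have m1 := SEq.mirror hok
  have e : cr v (-u) = cr u v := by rw [cr_neg_right, cr_swap v u, neg_neg]
  have m2 := SEq.sfree hN (u := v) (v := -u) m1.ok' ha' ha (by rw [e]; linarith)
    (by rw [e]; exact hc) i
  exact m1.trans (m2.trans (SEq.mirror' m2.ok'))

/-! ## CHOICE -/

/-- CHOICE: some shear along `u` gives `gcd (v × L) = 1` (`v` primitive, `L` with content `1`,
`gcd (a, u × v) = 1`) -/
theorem choice {L : AddSubgroup Z2} {u v : Z2} {a : ℤ} (ha : IsArea L a) (h1 : Cont1 L)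
    (hv : IsCoprime v.1 v.2) (hcop : IsCoprime a (cr u v)) :
    ∃ i, IsC (L.map (act (shU u i))) v 1 := by
  obtain ⟨p, q, hP, rfl⟩ := ha.exists_Lc h1
  obtain ⟨i, hi⟩ := crt_exists a ha.1.ne'
    (fun r i => ¬ (r : ℤ) ∣ (p * v.1 + q * v.2) - i * cr u v * (p * u.1 + q * u.2))
    (fun r hr hra => by
      by_cases h2 : (r : ℤ) ∣ p * v.1 + q * v.2
      · refine ⟨1, fun h3 => ?_⟩
        have h4 : (r : ℤ) ∣ cr u v * (p * u.1 + q * u.2) := by
          have := dvd_sub h2 h3
          have e : (p * v.1 + q * v.2) - ((p * v.1 + q * v.2) - 1 * cr u v * (p * u.1 + q * u.2)) =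
            cr u v * (p * u.1 + q * u.2) := by ring
          rwa [e] at this
        have hA : ¬ (r : ℤ) ∣ cr u v := fun h => not_dvd_of_isCoprime hcop.symm hr hra h
        have h5 : (r : ℤ) ∣ p * u.1 + q * u.2 :=
          ((Nat.prime_iff_prime_int.1 hr).dvd_or_dvd h4).resolve_left hA
        have h6 : (r : ℤ) ∣ cr u v * p := by
          have e : cr u v * p = (p * u.1 + q * u.2) * v.2 - (p * v.1 + q * v.2) * u.2 := by
            simp only [cr]; ring
          rw [e]; exact dvd_sub (h5.mul_right _) (h2.mul_right _)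
        have h7 : (r : ℤ) ∣ cr u v * q := by
          have e : cr u v * q = (p * v.1 + q * v.2) * u.1 - (p * u.1 + q * u.2) * v.1 := by
            simp only [cr]; ring
          rw [e]; exact dvd_sub (h2.mul_right _) (h5.mul_right _)
        exact hP r hr hra (((Nat.prime_iff_prime_int.1 hr).dvd_or_dvd h6).resolve_left hA)
          (((Nat.prime_iff_prime_int.1 hr).dvd_or_dvd h7).resolve_left hA)
      · exact ⟨0, by simpa using h2⟩)
    (fun r hr hra k k' h2 h3 h4 => h3 (by
      have e : (p * v.1 + q * v.2) - k * cr u v * (p * u.1 + q * u.2) =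
        ((p * v.1 + q * v.2) - k' * cr u v * (p * u.1 + q * u.2)) +
          (k' - k) * (cr u v * (p * u.1 + q * u.2)) := by ring
      rw [e]
      exact dvd_add h4 (h2.mul_right _)))
  refine ⟨i, ?_⟩
  have hP' : Prm a (p + i * u.2 * (p * u.1 + q * u.2)) (q - i * u.1 * (p * u.1 + q * u.2)) := by
    intro r hr h2 h3 h4
    refine hi r hr h2 ?_
    have e : (p * v.1 + q * v.2) - i * cr u v * (p * u.1 + q * u.2) =
      (p + i * u.2 * (p * u.1 + q * u.2)) * v.1 + (q - i * u.1 * (p * u.1 + q * u.2)) * v.2 := by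
      simp only [cr]; ring
    rw [e]
    exact dvd_add (h3.mul_right _) (h4.mul_right _)
  rw [map_shU_Lc]
  obtain ⟨v1, v2⟩ := v
  refine isC_Lc hP' one_pos (one_dvd _) (one_dvd _) (one_dvd _) fun r hr h2 h3 h4 => ?_
  rw [one_mul] at h2 h3 h4
  have hr' := Nat.prime_iff_prime_int.1 hr
  have hra : (r : ℤ) ∣ a := by
    rcases hr'.dvd_or_dvd h2 with h | h
    · exact h
    · rcases hr'.dvd_or_dvd h3 with h' | h'
      · exact h'
      · exact absurd h (not_dvd_of_isCoprime hv hr h')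
  refine hi r hr hra ?_
  have e : (p * v1 + q * v2) - i * cr u (v1, v2) * (p * u.1 + q * u.2) =
      (p + i * u.2 * (p * u.1 + q * u.2)) * v1 + (q - i * u.1 * (p * u.1 + q * u.2)) * v2 := by
    simp only [cr]; ring
  simp only
  rw [e]
  exact h4

/-- CHOICE, mirror -/
theorem choice' {L' : AddSubgroup Z2} {u v : Z2} {a' : ℤ} (ha' : IsArea L' a') (h1 : Cont1 L')
    (hu : IsCoprime u.1 u.2) (hcop : IsCoprime a' (cr u v)) :
    ∃ i, IsC (L'.map (act (shU v i))) u 1 :=
  choice ha' h1 hu (by rw [cr_swap v u]; exact hcop.neg_right)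

theorem Cont1.shU {L : AddSubgroup Z2} (h : Cont1 L) (u : Z2) (i : ℤ) :
    Cont1 (L.map (H4G.act (shU u i))) := h.act _

/-- SFREE and CHOICE together -/
theorem SEq.sfree_choice {N : ℕ} (hN : N.Prime) {L L' : AddSubgroup Z2} {u v : Z2} {a a' : ℤ}
    (hok : PSt.Ok ⟨L, u, v, L'⟩) (ha : IsArea L a) (ha' : IsArea L' a')
    (hv : a + cr u v + a' = N) (hc : IsC L' u (cr u v)) (h1 : Cont1 L)
    (hp : IsCoprime v.1 v.2) (hcop : IsCoprime a (cr u v)) :
    ∃ L1, SEq ⟨L, u, v, L'⟩ ⟨L1, u, v, L'⟩ ∧ IsArea L1 a ∧ Cont1 L1 ∧ IsC L1 v 1 := by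
  obtain ⟨i, hi⟩ := choice ha h1 hp hcop
  exact ⟨_, SEq.sfree hN hok ha ha' hv hc i, ha.act _, h1.act _, hi⟩

theorem SEq.sfree_choice' {N : ℕ} (hN : N.Prime) {L L' : AddSubgroup Z2} {u v : Z2} {a a' : ℤ}
    (hok : PSt.Ok ⟨L, u, v, L'⟩) (ha : IsArea L a) (ha' : IsArea L' a')
    (hv : a + cr u v + a' = N) (hc : IsC L v (cr u v)) (h1 : Cont1 L')
    (hp : IsCoprime u.1 u.2) (hcop : IsCoprime a' (cr u v)) :
    ∃ L1, SEq ⟨L, u, v, L'⟩ ⟨L, u, v, L1⟩ ∧ IsArea L1 a' ∧ Cont1 L1 ∧ IsC L1 u 1 := by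
  obtain ⟨i, hi⟩ := choice' ha' h1 hp hcop
  exact ⟨_, SEq.sfree' hN hok ha ha' hv hc i, ha'.act _, h1.act _, hi⟩

end Pool.Agent.H4G
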