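import Pool.Agent.H4G.Arith.ExtA
import Pool.Agent.H4G.Arith.SFree

/-!
# Case `gcd (L' × u) = u × v` (F3; helper19)
-/

set_option autoImplicit false

namespace Pool.Agent.H4G

theorem plk (u v w z : Z2) : cr u v * cr w z = cr w v * cr u z - cr w u * cr v z := by
  simp only [cr]; ring

theorem not_dvd_of_prime {N : ℕ} (hN : N.Prime) {x y : ℤ} (hx : 0 < x) (hy : 0 < y)
    (h : x + y = N) {p : ℕ} (hp : p.Prime) (hpx : (p : ℤ) ∣ x) : ¬ (p : ℤ) ∣ y := by
  intro h2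
  have h3 : (p : ℤ) ∣ (N : ℤ) := by rw [← h]; exact dvd_add hpx h2
  have h4 := (Nat.prime_dvd_prime_iff_eq hp hN).1 (Int.natCast_dvd_natCast.1 h3)
  have h5 := Int.le_of_dvd hx hpx
  rw [h4, ← h] at h5
  linarith

/-- F3: at a state with `gcd (L' × u) = u × v = A` every prime power `p ^ k ∣ b = gcd (L × v)`
divides `v` or `L` -/
theorem f3 {N : ℕ} (hN : N.Prime) {L L' : AddSubgroup Z2} {u v : Z2} {a a' b : ℤ}
    (hA0 : 0 < cr u v) (ha : IsArea L a) (ha' : IsArea L' a')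
    (hv : a + cr u v + a' = N) (hb : IsC L v b) (hc : IsC L' u (cr u v)) {p : ℕ} (hp : p.Prime)
    {k : ℕ} (hk : (p : ℤ) ^ k ∣ b)
    (hRH : (p : ℤ) ∣ a → ∀ w ∈ L, (p : ℤ) ^ k * cr u v ∣ (cr u v + a') * cr u w) :
    (¬ (p : ℤ) ∣ a ∧ ∀ z, (p : ℤ) ^ k ∣ cr v z) ∨ ∀ w ∈ L, ∀ z, (p : ℤ) ^ k ∣ cr w z := by
  have hp' := Nat.prime_iff_prime_int.1 hp
  have ha0 := ha.1
  have ha0' := ha'.1
  by_cases hpa : (p : ℤ) ∣ a
  · right
    intro w hw z
    have hna : ¬ (p : ℤ) ∣ cr u v + a' :=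
      not_dvd_of_prime hN ha0 (by linarith) (by linarith) hp hpa
    have hfin : FiniteMultiplicity (p : ℤ) (cr u v) :=
      Int.finiteMultiplicity_iff.2 ⟨by simpa using hp.one_lt.ne', hA0.ne'⟩
    obtain ⟨A', hA', hpA'⟩ := hfin.exists_eq_pow_mul_and_not_dvd
    set α := multiplicity (p : ℤ) (cr u v) with hα
    -- `p ^ α` divides `u`
    have hu : ∀ z, (p : ℤ) ^ α ∣ cr u z := by
      intro z
      rcases Nat.eq_zero_or_pos α with h0 | h0
      · rw [h0, pow_zero]; exact one_dvd _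
      · have h1 : (p : ℤ) ∣ cr u v := by
          rw [hA']; exact (dvd_pow_self _ h0.ne').mul_right _
        have h2 : ¬ (p : ℤ) ∣ a' := by
          intro h3
          exact hna (dvd_add h1 h3)
        have h3 := hc.2.1 _ (ha'.smul_mem z)
        rw [cr_smul_right] at h3
        have h4 : (p : ℤ) ^ α ∣ a' * cr u z := (Dvd.intro _ hA'.symm).trans h3
        exact ((IsCoprime.pow_left ((hp'.coprime_iff_not_dvd).2 h2)).dvd_of_dvd_mul_left h4)
    have h1 := hRH hpa w hw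
    have h2 : (p : ℤ) ^ k * (p : ℤ) ^ α ∣ cr u w := by
      have h3 : (p : ℤ) ^ k * (p : ℤ) ^ α ∣ (cr u v + a') * cr u w := by
        refine Dvd.dvd.trans ?_ h1
        exact mul_dvd_mul_left _ (Dvd.intro _ hA'.symm)
      rw [← pow_add] at h3 ⊢
      exact (IsCoprime.pow_left ((hp'.coprime_iff_not_dvd).2 hna)).dvd_of_dvd_mul_left h3
    have h4 : (p : ℤ) ^ k ∣ cr w v := by
      have := hk.trans (hb.2.1 w hw)
      rw [cr_swap w v]; exact (dvd_neg).2 this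
    have h5 : (p : ℤ) ^ k * (p : ℤ) ^ α ∣ cr u v * cr w z := by
      rw [plk]
      refine dvd_sub (mul_dvd_mul h4 (hu z)) ?_
      refine Dvd.dvd.mul_right ?_ _
      rw [cr_swap w u]; exact (dvd_neg).2 h2
    have h6 : (p : ℤ) ^ k ∣ A' * cr w z := by
      have h7 : (p : ℤ) ^ α * (p : ℤ) ^ k ∣ (p : ℤ) ^ α * (A' * cr w z) := by
        have e1 : (p : ℤ) ^ α * (A' * cr w z) = cr u v * cr w z := by
          conv_rhs => rw [hA']
          ring
        rw [e1, mul_comm]; exact h5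
      exact (mul_dvd_mul_iff_left (pow_ne_zero _ hp'.ne_zero)).1 h7
    exact (IsCoprime.pow_left ((hp'.coprime_iff_not_dvd).2 hpA')).dvd_of_dvd_mul_left h6
  · left
    refine ⟨hpa, fun z => ?_⟩
    have h1 := hk.trans (hb.2.1 _ (ha.smul_mem z))
    rw [cr_smul_right] at h1
    exact (IsCoprime.pow_left ((hp'.coprime_iff_not_dvd).2 hpa)).dvd_of_dvd_mul_left h1

end Pool.Agent.H4G
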