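import Pool.Agent.H4G.Arith.Con1
import Pool.Agent.H4G.Arith.F3

/-!
# X1 and WC (helper9)

`N` prime. At a state with `gcd (a, gcd (L × v)) = 1` the node and one V-twist lead to a state with
`u × v = gcd (L × v)` and `gcd (L' × u)` equal to the content of `L'`.
-/

set_option autoImplicit false

namespace Pool.Agent.H4G

theorem Dz.of_coprime {d k : ℤ} (h : IsCoprime d k) {x : Z2} (hx : Dz d (k • x)) : Dz d x := by
  rw [Dz.iff] at hx ⊢
  intro z
  have h1 := hx z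
  rw [cr_smul_left] at h1
  exact h.dvd_of_dvd_mul_left h1

theorem Dz.trans {d e : ℤ} (h : d ∣ e) {x : Z2} (hx : Dz e x) : Dz d x := by
  obtain ⟨x', rfl⟩ := hx
  exact Dz.of_dvd h x'

theorem isCoprime_pow_prime {r : ℕ} (hr : r.Prime) {x : ℤ} (h : ¬ (r : ℤ) ∣ x) (k : ℕ) :
    IsCoprime ((r : ℤ) ^ k) x :=
  (((Nat.prime_iff_prime_int.1 hr).coprime_iff_not_dvd).2 h).pow_left

/-- the choice of `t` prime by prime -/
theorem x1_choice {M : AddSubgroup Z2} {a' : ℤ} (ha' : a' ≠ 0) {u D : Z2}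
    (h1 : IsCoprime a' (cr u D)) :
    ∃ t : ℤ, ∀ r : ℕ, r.Prime → (r : ℤ) ∣ a' → ∀ k : ℕ,
      (∀ w ∈ M, (r : ℤ) ^ k ∣ cr (u - t • D) w) → ∀ w ∈ M, Dz ((r : ℤ) ^ k) w := by
  obtain ⟨t, ht⟩ := crt_exists a' ha'
    (fun r t => ∀ j : ℕ, (∀ w ∈ M, Dz ((r : ℤ) ^ j) w) → ¬ (∀ w ∈ M, Dz ((r : ℤ) ^ (j + 1)) w) →
      ¬ ∀ w ∈ M, (r : ℤ) ^ (j + 1) ∣ cr (u - t • D) w)
    (fun r hr hra => by
      by_contra hn
      push Not at hn
      obtain ⟨j, k1, ⟨w1, hw1, k2⟩, k3⟩ := hn 0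
      obtain ⟨j', m1, ⟨w2, hw2, m2⟩, m3⟩ := hn 1
      have hjj : j = j' := by
        rcases lt_trichotomy j j' with h | h | h
        · exact absurd ((m1 w1 hw1).trans (pow_dvd_pow _ (by omega))) k2
        · exact h
        · exact absurd ((k1 w2 hw2).trans (pow_dvd_pow _ (by omega))) m2
      subst hjj
      apply k2
      refine Dz.of_coprime (isCoprime_pow_prime hr
        (fun h => not_dvd_of_isCoprime h1 hr h hra) (j + 1)) ?_
      have e1 := k3 w1 hw1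
      have e2 := m3 w1 hw1
      rw [zero_smul, sub_zero] at e1
      rw [one_smul, cr_sub_left] at e2
      have e3 : (r : ℤ) ^ (j + 1) ∣ cr D w1 := by
        have := dvd_sub e1 e2
        rwa [sub_sub_cancel] at this
      rw [cr_expand u D w1]
      refine Dz.sub (Dz.of_dvd ?_ u) (Dz.of_dvd ?_ D)
      · rw [cr_swap w1 D]; exact (dvd_neg).2 e3
      · rw [cr_swap w1 u]; exact (dvd_neg).2 e1)
    (fun r hr hra k k' hkk hQ j n1 n2 n3 => hQ j n1 n2 fun w hw => by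
      have e1 := n3 w hw
      have e2 : cr (u - k • D) w = cr (u - k' • D) w + (k' - k) * cr D w := by
        simp only [cr_sub_left, cr_smul_left]; ring
      rw [e2]
      refine dvd_add e1 ?_
      rw [pow_succ, mul_comm ((r : ℤ) ^ j)]
      exact mul_dvd_mul hkk ((n1 w hw).cr_right D))
  refine ⟨t, fun r hr hra k => ?_⟩
  induction k with
  | zero =>
    intro _ w _
    rw [pow_zero]
    exact ⟨w, (one_smul _ _).symm⟩
  | succ k ih =>
    intro hk
    have h2 : ∀ w ∈ M, Dz ((r : ℤ) ^ k) w :=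
      ih fun w hw => (pow_dvd_pow _ (Nat.le_succ k)).trans (hk w hw)
    by_contra hn
    exact ht r hr hra k h2 hn hk

/-- X1 for a lattice: `D ∥ v` and `u × D` prime to the area and to `u × v` -/
theorem x1_lat {M : AddSubgroup Z2} {a' : ℤ} (ha' : IsArea M a') {u v D : Z2}
    (h1 : IsCoprime a' (cr u D)) (h2 : IsCoprime (cr u v) (cr u D)) (h3 : cr D v = 0) :
    ∃ t : ℤ, ∀ c : ℤ, IsC M (u - t • D) c → ∀ w ∈ M, Dz c w := by
  obtain ⟨t, ht⟩ := x1_choice (M := M) ha'.1.ne' h1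
  refine ⟨t, fun c hc w hw => ?_⟩
  rw [Dz.iff]
  intro z
  refine dvd_of_prime_pow fun r k hr hk => ?_
  rcases Nat.eq_zero_or_pos k with h0 | h0
  · rw [h0, pow_zero]; exact one_dvd _
  by_cases hra : (r : ℤ) ∣ a'
  · exact (ht r hr hra k (fun w hw => hk.trans (hc.2.1 w hw)) w hw).cr_left z
  · exfalso
    have hrc : (r : ℤ) ∣ c := (dvd_pow_self _ h0.ne').trans hk
    have h4 : ∀ z, (r : ℤ) ∣ cr (u - t • D) z := by
      intro z
      have h5 := hrc.trans (hc.2.1 _ (ha'.smul_mem z))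
      rw [cr_smul_right] at h5
      exact ((Nat.prime_iff_prime_int.1 hr).dvd_or_dvd h5).resolve_left hra
    have h5 := h4 v
    have h6 := h4 D
    rw [cr_sub_left, cr_smul_left, h3, mul_zero, sub_zero] at h5
    rw [cr_sub_left, cr_smul_left, cr_self, mul_zero, sub_zero] at h6
    exact not_dvd_of_isCoprime h2 hr h6 h5

/-- X1 : `N` prime, `A = gcd (L × v)` prime to the area of `L`. A V-twist makes `gcd (L' × u)` equal
to the content of `L'`. -/
theorem Ad.xone {N : ℕ} (hN : N.Prime) {S : PSt} {l p l' p' : Z2} (ad : Ad S l p l' p')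
    (hok : S.Ok) (hv : cr p l + cr S.u S.v + cr l' p' = N) (hA : cr S.u S.v = cr p S.v)
    (hco : IsCoprime (cr p l) (cr p S.v)) :
    ∃ t c : ℤ, SEq S ⟨lat l (p - t • S.v), S.u - t • (S.v + l), S.v, S.L'⟩ ∧
      IsC S.L' (S.u - t • (S.v + l)) c ∧ ∀ w ∈ S.L', Dz c w := by
  have ha0 := ad.pos
  have hA0 := ad.hA
  have ha0' := ad.pos'
  have e1 : cr S.u l = cr p l := by
    have h1 := ad.area
    rw [hA] at h1
    exact (mul_right_cancel₀ ad.h3.ne' h1).symm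
  have e2 : cr S.u (S.v + l) = cr p S.v + cr p l := by rw [cr_add_right, e1, hA]
  have e3 : cr (S.v + l) S.v = 0 := by rw [cr_add_left, cr_self, ad.h1, add_zero]
  have h1 : IsCoprime (cr l' p') (cr S.u (S.v + l)) := by
    refine isCoprime_of_prime fun r hr h2 h3 => ?_
    refine not_dvd_of_prime hN (x := cr S.u (S.v + l)) (y := cr l' p') ?_ ha0' ?_ hr h2 h3
    · rw [e2]; linarith
    · rw [e2]; linarith
  have h2 : IsCoprime (cr S.u S.v) (cr S.u (S.v + l)) := by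
    rw [e2, hA]
    exact (IsCoprime.add_mul_left_right hco.symm 1 : IsCoprime (cr p S.v)
      (cr p l + cr p S.v * 1)) |>.mono (dvd_refl _) (by rw [mul_one, add_comm])
  obtain ⟨t, ht⟩ := x1_lat ad.isArea' h1 h2 e3
  have k1 := ad.twV hok hA.le t
  obtain ⟨l2, p2, l2', p2', ad2⟩ := exists_Ad k1.ok'
  exact ⟨t, _, k1, ad2.isC', ht _ ad2.isC'⟩

/-- X1 without bases -/
theorem SEq.xone {N : ℕ} (hN : N.Prime) {L L' : AddSubgroup Z2} {u v : Z2} {a a' : ℤ}
    (hok : PSt.Ok ⟨L, u, v, L'⟩) (ha : IsArea L a) (ha' : IsArea L' a')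
    (hv : a + cr u v + a' = N) (hb : IsC L v (cr u v)) (hco : IsCoprime a (cr u v)) :
    ∃ (L1 : AddSubgroup Z2) (u1 : Z2) (c : ℤ), SEq ⟨L, u, v, L'⟩ ⟨L1, u1, v, L'⟩ ∧ IsArea L1 a ∧
      cr u1 v = cr u v ∧ IsC L1 v (cr u v) ∧ IsC L' u1 c ∧ ∀ w ∈ L', Dz c w := by
  obtain ⟨l, p, l', p', ad⟩ := exists_Ad hok
  have e1 : cr p l = a := ad.isArea.unique ha
  have e2 : cr l' p' = a' := ad.isArea'.unique ha'
  have e3 : cr p v = cr u v := ad.isC.unique hb
  obtain ⟨t, c, k1, k2, k3⟩ := ad.xone hN hok (by rw [e1, e2]; exact hv) e3.symm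
    (by rw [e1]; show IsCoprime a (cr p v); rw [e3]; exact hco)
  dsimp only at k1 k2 k3
  have h1 := ad.h1
  dsimp only at h1
  have e4 : cr (u - t • (v + l)) v = cr u v := by
    rw [cr_sub_left, cr_smul_left, cr_add_left, cr_self, h1]; ring
  refine ⟨_, _, c, k1, ?_, e4, ?_, k2, k3⟩
  · refine ⟨ha.1, l, p - t • v, ?_, rfl⟩
    rw [cr_sub_left, cr_smul_left, cr_swap v l, h1, ← e1]; ring
  · have e5 : cr (p - t • v) v = cr u v := by
      rw [cr_sub_left, cr_smul_left, cr_self, e3]; ring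
    rw [← e5]
    exact isC_of_par h1 (by rw [e5]; exact hb.1)

/-- `gcd (a, b) = 1`, `b = gcd (L × v)`: `b` divides the vector `v` -/
theorem IsC.dz_of_coprime {L : AddSubgroup Z2} {v : Z2} {a b : ℤ} (ha : IsArea L a)
    (hb : IsC L v b) (hco : IsCoprime a b) : Dz b v := by
  rw [Dz.iff]
  intro z
  have h1 := hb.2.1 _ (ha.smul_mem z)
  rw [cr_smul_right] at h1
  exact hco.symm.dvd_of_dvd_mul_left h1

/-- WC: `N` prime and `gcd (L × v)` prime to the area of `L` -/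
theorem SEq.wc {N : ℕ} (hN : N.Prime) {L L' : AddSubgroup Z2} {u v : Z2} {a a' b : ℤ}
    (hok : PSt.Ok ⟨L, u, v, L'⟩) (ha : IsArea L a) (ha' : IsArea L' a')
    (hv : a + cr u v + a' = N) (hb : IsC L v b) (hco : IsCoprime a b) :
    ∃ (L1 : AddSubgroup Z2) (u1 : Z2) (c : ℤ), SEq ⟨L, u, v, L'⟩ ⟨L1, u1, v, L'⟩ ∧
      IsArea L1 (a + cr u v - b) ∧ IsCoprime (a + cr u v - b) b ∧ cr u1 v = b ∧ IsC L1 v b ∧
      IsC L' u1 c ∧ ∀ w ∈ L', Dz c w := by
  have hA0 : 0 < cr u v := hok.pos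
  have h1 : b ∣ cr u v := (hb.dz_of_coprime ha hco).cr_right u
  obtain ⟨u1, L1, θ, k1, k2, k3, k4, k5, k6, k7, k8⟩ := SEq.node' hok ha hb
  have h2 : cr u1 v = b := by
    have h3 : b ∣ cr u1 v := by rw [k4]; exact dvd_sub h1 k3
    exact le_antisymm k6 (Int.le_of_dvd k5 h3)
  have h3 : θ = cr u v - b := by linarith
  rw [h3] at k7 k3
  have h4 : IsCoprime (a + (cr u v - b)) b := by
    obtain ⟨m, hm⟩ := k3
    rw [hm]
    exact (IsCoprime.add_mul_left_left hco m)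
  have h5 : a + (cr u v - b) = a + cr u v - b := by ring
  rw [h5] at k7 h4
  obtain ⟨L2, u2, c, m1, m2, m3, m4, m5, m6⟩ := SEq.xone hN k1.ok' k7 ha'
    (by rw [h2]; linarith) (by rw [h2]; exact k8) (by rw [h2]; exact h4)
  rw [h2] at m3 m4
  exact ⟨L2, u2, c, k1.trans m1, m2, h4, m3, m4, m5, m6⟩

/-- WC in a class with minimal gap `β`: a state with `gcd (a, gcd (L × v)) = 1` has a right lattice
which is divisible by some `g ≥ β` -/
theorem SEq.wc_min {N : ℕ} (hN : N.Prime) {L L' : AddSubgroup Z2} {u v : Z2} {a a' b β : ℤ}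
    (hok : PSt.Ok ⟨L, u, v, L'⟩) (ha : IsArea L a) (ha' : IsArea L' a')
    (hv : a + cr u v + a' = N) (hb : IsC L v b) (hco : IsCoprime a b)
    (hmin : ∀ (T : PSt) (c : ℤ), SEq ⟨L, u, v, L'⟩ T → IsC T.L T.v c → β ≤ c) :
    ∃ g : ℤ, β ≤ g ∧ 0 < g ∧ ∀ w ∈ L', Dz g w := by
  obtain ⟨L1, u1, c, m1, m2, m3, m4, m5, m6, m7⟩ := SEq.wc hN hok ha ha' hv hb hco
  have m8 := SEq.mirror (L := L1) (L' := L') (u := u1) (v := v) m1.ok'
  exact ⟨c, hmin _ c (m1.trans m8) m6.neg, m6.1, m7⟩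

end Pool.Agent.H4G
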