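import Pool.Agent.H4G.Arith.ExtBLoop
import Pool.Agent.H4G.Arith.XOne

/-!
# (E4) with loops which are trivial modulo `R` (helper5, plan of helper23)
-/

set_option autoImplicit false

namespace Pool.Agent.H4G

/-- the second CRT lemma; minimality is only used for new values which divide `g` -/
theorem crt_min2D {g α β γ D : ℤ} (hg : 0 < g) (hα : α ≠ 0) (hD : D ≠ 0)
    (hgcd : (Int.gcd α β : ℤ) = g)
    (Al : ℕ → ℤ → Prop) (h0 : ∀ l : ℕ, l.Prime → Al l 0)
    (hper : ∀ l : ℕ, l.Prime → ∀ k k' : ℤ, (l : ℤ) ∣ k' - k → Al l k → Al l k')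
    {p : ℕ} (hp : p.Prime) (hu : ∃ j, ¬ (p : ℤ) ∣ j ∧ Al p j)
    (hmin : ∀ j : ℤ, (∀ l : ℕ, l.Prime → (l : ℤ) ∣ D → Al l j) →
      (Int.gcd α (β - j * γ) : ℤ) ∣ g → g ≤ Int.gcd α (β - j * γ)) {k : ℕ} (hk : (p : ℤ) ^ k ∣ g) :
    (p : ℤ) ^ k ∣ γ := by
  have hpi := Nat.prime_iff_prime_int.1 hp
  set G : ℤ := ((Int.gcd g γ : ℕ) : ℤ) with hG
  have hGpos : 0 < G := by
    rw [hG]
    have : 0 < Int.gcd g γ := Int.gcd_pos_of_ne_zero_left _ hg.ne'
    exact_mod_cast this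
  have hGg : G ∣ g := by rw [hG]; exact Int.gcd_dvd_left _ _
  have hGγ : G ∣ γ := by rw [hG]; exact Int.gcd_dvd_right _ _
  obtain ⟨g', hg'⟩ := hGg
  obtain ⟨γ1, hγ1⟩ := hGγ
  have hgα : g ∣ α := by rw [← hgcd]; exact Int.gcd_dvd_left _ _
  have hgβ : g ∣ β := by rw [← hgcd]; exact Int.gcd_dvd_right _ _
  have hGg : G ∣ g := ⟨g', hg'⟩
  obtain ⟨α1, hα1⟩ := hGg.trans hgα
  obtain ⟨β1, hβ1⟩ := hGg.trans hgβ
  have hα10 : α1 ≠ 0 := by rintro rfl; exact hα (by rw [hα1, mul_zero])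
  have hg'0 : 0 < g' := by
    rcases lt_trichotomy g' 0 with h | h | h
    · have := mul_neg_of_pos_of_neg hGpos h
      omega
    · rw [h, mul_zero] at hg'; omega
    · exact h
  have hgcd' : (Int.gcd α1 β1 : ℤ) = g' := by
    have h1 := hgcd
    rw [hα1, hβ1, Int.gcd_mul_left, Nat.cast_mul, Int.natAbs_of_nonneg hGpos.le, hg'] at h1
    exact mul_left_cancel₀ hGpos.ne' h1
  have hcop : (p : ℤ) ∣ g' → ¬ (p : ℤ) ∣ γ1 := by
    intro h1 h2
    have h4 : G * p ∣ G := by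
      conv_rhs => rw [hG]
      refine Int.dvd_coe_gcd ?_ ?_
      · rw [hg']; exact mul_dvd_mul_left G h1
      · rw [hγ1]; exact mul_dvd_mul_left G h2
    have h5 : (p : ℤ) ∣ 1 := by
      have : G * p ∣ G * 1 := by rwa [mul_one]
      exact (mul_dvd_mul_iff_left hGpos.ne').1 this
    exact prime_not_dvd_one hp h5
  by_cases hpg : (p : ℤ) ∣ g'
  · exfalso
    obtain ⟨j0, hj0, hj0'⟩ := hu
    obtain ⟨r', M, hM, hpM⟩ := exists_pow_mul hp hg'0.ne'
    obtain ⟨r2, R, hR, hpR⟩ := exists_pow_mul hp (mul_ne_zero hα10 hD)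
    obtain ⟨r3, A, hA, hpA⟩ := exists_pow_mul hp hα10
    have hr' : r' ≠ 0 := by
      rintro rfl
      rw [pow_zero, one_mul] at hM
      exact hpM (by rw [← hM]; exact hpg)
    have hM0 : 0 < M := by
      have h1 : 0 < (p : ℤ) ^ r' := pow_pos (by exact_mod_cast hp.pos) _
      rcases lt_trichotomy M 0 with h | h | h
      · have := mul_neg_of_pos_of_neg h1 h
        omega
      · rw [h, mul_zero] at hM; omega
      · exact h
    obtain ⟨j1, hj1⟩ := exists_mul_class hp hpR j0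
    set j := R * j1 with hj
    have hpj : ¬ (p : ℤ) ∣ j := by
      intro h
      exact hj0 (by have := dvd_sub h hj1; simpa using this)
    have hother : ∀ l : ℕ, l.Prime → l ≠ p → (l : ℤ) ∣ α1 * D → (l : ℤ) ∣ R := by
      intro l hl hlp hd
      rw [hR] at hd
      rcases (Nat.prime_iff_prime_int.1 hl).dvd_or_dvd hd with h | h
      · exfalso
        have h1 := (Nat.prime_iff_prime_int.1 hl).dvd_of_dvd_pow h
        rw [Int.natCast_dvd_natCast] at h1
        exact hlp ((Nat.prime_dvd_prime_iff_eq hl hp).1 h1)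
      · exact h
    have hall : ∀ l : ℕ, l.Prime → (l : ℤ) ∣ D → Al l j := by
      intro l hl hd
      by_cases hlp : l = p
      · subst hlp
        exact hper l hl j0 j hj1 hj0'
      · refine hper l hl 0 j ?_ (h0 l hl)
        rw [sub_zero, hj]
        exact (hother l hl hlp (hd.mul_left _)).mul_right j1
    have e2 : β - j * γ = G * (β1 - j * γ1) := by
      conv_lhs => rw [hβ1, hγ1]
      ring
    set d : ℤ := (Int.gcd α1 (β1 - j * γ1) : ℤ) with hd
    have d1 : d ∣ α1 := by rw [hd]; exact Int.gcd_dvd_left _ _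
    have d2 : d ∣ β1 - j * γ1 := by rw [hd]; exact Int.gcd_dvd_right _ _
    have hg'β : g' ∣ β1 := by rw [← hgcd']; exact Int.gcd_dvd_right _ _
    have hpd : ¬ (p : ℤ) ∣ d := by
      intro h
      have k1 : (p : ℤ) ∣ j * γ1 := by
        have := dvd_sub (hpg.trans hg'β) (h.trans d2)
        simpa using this
      exact hcop hpg ((hpi.dvd_or_dvd k1).resolve_left hpj)
    have hAR : A ∣ R := by
      have h3 : A ∣ (p : ℤ) ^ r2 * R := by
        rw [← hR, hA]; exact ((dvd_mul_left _ _).mul_right _)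
      exact (isCoprime_of_not_dvd hp hpA).symm.pow_right.dvd_of_dvd_mul_left h3
    have d3 : d ∣ A := by
      rw [hA] at d1
      exact (isCoprime_of_not_dvd hp hpd).symm.pow_right.dvd_of_dvd_mul_left d1
    have d4 : d ∣ β1 := by
      have h3 : d ∣ j * γ1 := ((d3.trans hAR).mul_right j1).mul_right γ1
      have := dvd_add d2 h3
      simpa using this
    have d5 : d ∣ g' := by
      rw [← hgcd']
      exact Int.dvd_coe_gcd (by rw [hd]; exact Int.gcd_dvd_left _ _) d4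
    have d6 : d ∣ M := by
      rw [hM] at d5
      exact (isCoprime_of_not_dvd hp hpd).symm.pow_right.dvd_of_dvd_mul_left d5
    have h1 := hmin j hall (by
      rw [e2, hα1, Int.gcd_mul_left, Nat.cast_mul, Int.natAbs_of_nonneg hGpos.le]
      refine dvd_trans (mul_dvd_mul_left G d5) ?_
      rw [← hg'])
    rw [e2, hα1, Int.gcd_mul_left, Nat.cast_mul, Int.natAbs_of_nonneg hGpos.le] at h1
    have h2 : g' ≤ (Int.gcd α1 (β1 - j * γ1) : ℤ) := by
      rw [hg'] at h1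
      exact le_of_mul_le_mul_left h1 hGpos
    have d7 : d ≤ M := Int.le_of_dvd hM0 d6
    have d8 : M < g' := by
      rw [hM]
      have h3 : 1 < (p : ℤ) ^ r' := one_lt_pow₀ (by exact_mod_cast hp.one_lt) hr'
      nlinarith
    omega
  · have hcop2 : IsCoprime ((p : ℤ) ^ k) g' :=
      (isCoprime_of_not_dvd hp hpg).pow_left
    have hG1 : (p : ℤ) ^ k ∣ G := by
      rw [hg'] at hk
      exact hcop2.dvd_of_dvd_mul_right hk
    rw [hγ1]; exact hG1.mul_right _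

/-- a vector which is orthogonal to two independent vectors is zero -/
theorem eq_zero_of_cr2 {x u w : Z2} (h0 : cr u w ≠ 0) (h1 : cr u x = 0) (h2 : cr x w = 0) :
    x = 0 := by
  have h := cr_dep u w x
  rw [cr_swap w x, h2, cr_swap x u, h1] at h
  simp only [neg_zero, zero_smul, zero_add] at h
  exact (smul_eq_zero.1 h).resolve_left h0

/-- H-twist at `S` which shears `(L, u)`, with the moved vectors congruent to the old ones -/
theorem Ad.loop4CoreR {S : PSt} {l p l' p' : Z2} (ad : Ad S l p l' p') (hok : S.Ok)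
    (hAc : cr S.u S.v ≤ cr S.u p') {hh P m : ℤ} (hhh : IsC S.L S.u hh)
    (hPm : m * (cr p l * cr S.u S.v * cr S.u p') = P * hh ^ 2 * (cr S.u p' + cr l' p'))
    {R A₀ A₁ : ℤ} (hA01 : cr S.u S.v = A₀ * A₁) (hA0R : IsCoprime R A₀) (hPR : R * A₁ ∣ P) (k : ℤ) :
    ∃ l₁ p₁ vi : Z2, SEq S ⟨S.L, S.u, vi, lat l' (p' + (k * P) • S.u)⟩ ∧
      Ad ⟨S.L, S.u, vi, lat l' (p' + (k * P) • S.u)⟩ l₁ p₁ l' (p' + (k * P) • S.u) ∧
      cr S.u vi = cr S.u S.v ∧ cr S.u l₁ = cr S.u l ∧ cr S.u p₁ = cr S.u p ∧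
      cr p₁ l₁ = cr p l ∧ cr p₁ vi = cr p S.v ∧
      Dz R (vi - S.v) ∧ Dz R (l₁ - l) ∧ Dz R (p₁ - p) ∧ Dz R ((p' + (k * P) • S.u) - p') ∧
      ∀ q τ n : ℤ, cr (S.u + q • vi + τ • l₁ + n • p₁) l' =
          cr (S.u + q • S.v + τ • l + n • p) l' ∧
        cr S.u S.v * cr (S.u + q • vi + τ • l₁ + n • p₁) (p' + (k * P) • S.u) =
          cr S.u S.v * cr (S.u + q • S.v + τ • l + n • p) p' +
            k * (P * cr S.u (S.u + q • S.v + τ • l + n • p) *
              (cr S.u p' + cr l' p' - cr S.u S.v)) := by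
  obtain ⟨l₁, p₁, vi, h1, h2, h3, h4, h5, h6, h7, h8⟩ := ad.loop4Core hok hAc hhh hPm k
  have hA0 : 0 < cr S.u S.v := ad.hA
  have hc0 : 0 < cr S.u p' := ad.h6
  have hu' : cr S.u l' = 0 := ad.h4
  -- the new `v`
  have hv : vi = S.v + (k * P) • (S.u + l') := by
    obtain ⟨_, e1⟩ := h8 1 0 0
    have e2 : cr S.u (vi - (S.v + (k * P) • (S.u + l'))) = 0 := by
      simp only [cr_sub_right, cr_add_right, cr_smul_right, cr_self]
      rw [h3, hu']; ring
    have e3 : cr (vi - (S.v + (k * P) • (S.u + l'))) p' = 0 := by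
      simp only [one_smul, zero_smul, add_zero] at e1
      simp only [cr_add_left, cr_add_right, cr_smul_right, cr_self] at e1
      simp only [cr_sub_left, cr_add_left, cr_smul_left]
      rw [cr_swap vi S.u, h3] at e1
      have : cr S.u S.v * (cr vi p' - (cr S.v p' + k * P * (cr S.u p' + cr l' p'))) = 0 := by
        linear_combination e1
      rcases mul_eq_zero.1 this with h9 | h9
      · omega
      · exact h9
    exact sub_eq_zero.1 (eq_zero_of_cr2 hc0.ne' e2 e3)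
  have hdv : Dz (R * A₁) (vi - S.v) := by
    have e : vi - S.v = (k * P) • (S.u + l') := by rw [hv]; abel
    rw [e]
    exact Dz.of_dvd (hPR.mul_left k) _
  have hA1 : A₁ ≠ 0 := by rintro rfl; rw [mul_zero] at hA01; omega
  -- vectors with the same products
  have key : ∀ x y : Z2, cr S.u y = cr S.u x → cr y vi = cr x S.v → Dz R (y - x) := by
    intro x y e1 e2
    have f1 := cr_dep S.u S.v x
    have f2 := cr_dep S.u vi y
    have e3 : cr S.u S.v • (y - x) = cr S.u x • (vi - S.v) := by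
      rw [cr_swap S.v x, cr_swap x S.u] at f1
      rw [cr_swap vi y, cr_swap y S.u, e1, e2, h3] at f2
      have g1 : cr S.u S.v • x = cr x S.v • S.u + cr S.u x • S.v := by
        have := eq_neg_of_add_eq_zero_right f1
        rw [this]; module
      have g2 : cr S.u S.v • y = cr x S.v • S.u + cr S.u x • vi := by
        have := eq_neg_of_add_eq_zero_right f2
        rw [this]; module
      rw [smul_sub, smul_sub, g1, g2]; abel
    obtain ⟨z, hz⟩ := hdv
    have e4 : A₀ • (y - x) = R • (cr S.u x • z) := by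
      have : A₁ • (A₀ • (y - x)) = A₁ • (R • (cr S.u x • z)) := by
        rw [smul_smul, mul_comm A₁ A₀, ← hA01, e3, hz, smul_smul, smul_smul, smul_smul]
        congr 1; ring
      exact smul_right_injective Z2 hA1 this
    exact Dz.of_coprime hA0R ⟨_, e4⟩
  refine ⟨l₁, p₁, vi, h1, h2, h3, h4, h5, h6, h7, ?_, key l l₁ h4 ?_, key p p₁ h5 h7, ?_, h8⟩
  · exact Dz.trans (Dvd.intro _ rfl) hdv
  · have := h2.h1
    dsimp only at this
    rw [this, ad.h1]
  · rw [add_sub_cancel_left]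
    exact Dz.of_dvd (((Dvd.intro _ rfl).trans hPR).mul_left k) _

/-- The data of an exit of an ExtB state; `B` prime to `R` and minimal among the states which
are congruent modulo `R` and have `B` prime to `R`. -/
structure ExitMinR (R : ℤ) (S : PSt) (a' b c : ℤ) (l p l' p' : Z2) (q τ n B : ℤ) : Prop where
  ext : ExtB S a' b c
  ad : Ad S l p l' p'
  hB : IsC S.L' (S.u + q • S.v + τ • l + n • p) B
  cop : IsCoprime B R
  minB : ∀ (T : PSt) (l₁ p₁ l₁' p₁' : Z2) (d : ℤ), SEq S T → ExtB T a' b c → T.u = S.u →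
    T.L = S.L → Ad T l₁ p₁ l₁' p₁' → cr T.u T.v = cr S.u S.v → cr T.u l₁ = cr S.u l →
    cr T.u p₁ = cr S.u p → cr p₁ l₁ = cr p l → Dz R (T.v - S.v) → Dz R (l₁ - l) →
    Dz R (p₁ - p) → l₁' = l' → Dz R (p₁' - p') → IsCoprime d R →
    IsC T.L' (T.u + q • T.v + τ • l₁ + n • p₁) d → B ≤ d

theorem exists_exitMinR (R : ℤ) {S : PSt} {a' b c : ℤ} (h : ExtB S a' b c) {l p l' p' : Z2}
    (ad : Ad S l p l' p') (q τ n : ℤ) {B0 : ℤ}
    (hB0 : IsC S.L' (S.u + q • S.v + τ • l + n • p) B0) (hcop : IsCoprime B0 R) :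
    ∃ (T : PSt) (l₁ p₁ l₁' p₁' : Z2) (B : ℤ), SEq S T ∧
      ExitMinR R T a' b c l₁ p₁ l₁' p₁' q τ n B ∧
      T.u = S.u ∧ T.L = S.L ∧ cr T.u T.v = cr S.u S.v ∧ cr T.u l₁ = cr S.u l ∧
      cr T.u p₁ = cr S.u p ∧ cr p₁ l₁ = cr p l ∧ Dz R (T.v - S.v) ∧ Dz R (l₁ - l) ∧
      Dz R (p₁ - p) ∧ l₁' = l' ∧ Dz R (p₁' - p') := by
  obtain ⟨B, ⟨T, l₁, p₁, l₁', p₁', x1, x2, x3, x4, x5, x6, x7, x8, x9, r1, r2, r3, r4, r5, r6,
    x10⟩, hmin⟩ :=
    exists_min_int
    (P := fun d => ∃ (T : PSt) (l₁ p₁ l₁' p₁' : Z2), SEq S T ∧ ExtB T a' b c ∧ T.u = S.u ∧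
      T.L = S.L ∧ Ad T l₁ p₁ l₁' p₁' ∧ cr T.u T.v = cr S.u S.v ∧ cr T.u l₁ = cr S.u l ∧
      cr T.u p₁ = cr S.u p ∧ cr p₁ l₁ = cr p l ∧ Dz R (T.v - S.v) ∧ Dz R (l₁ - l) ∧
      Dz R (p₁ - p) ∧ l₁' = l' ∧ Dz R (p₁' - p') ∧ IsCoprime d R ∧
      IsC T.L' (T.u + q • T.v + τ • l₁ + n • p₁) d)
    (fun d ⟨_, _, _, _, _, _, _, _, _, _, _, _, _, _, _, _, _, _, _, _, h⟩ => h.1)
    ⟨B0, S, l, p, l', p', h.ok.seq, h, rfl, rfl, ad, rfl, rfl, rfl, rfl,
      by rw [sub_self]; exact Dz.zero R, by rw [sub_self]; exact Dz.zero R,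
      by rw [sub_self]; exact Dz.zero R, rfl, by rw [sub_self]; exact Dz.zero R, hcop, hB0⟩
  refine ⟨T, l₁, p₁, l₁', p₁', B, x1, ⟨x2, x5, x10, r6, ?_⟩, x3, x4, x6, x7, x8, x9, r1, r2, r3,
    r4, r5⟩
  intro T2 l₂ p₂ l₂' p₂' d y1 y2 y3 y4 y5 y6 y7 y8 y9 s1 s2 s3 s4 s5 s6 y10
  have tr : ∀ x y z : Z2, Dz R (z - y) → Dz R (y - x) → Dz R (z - x) := by
    intro x y z h1 h2
    have := h1.add h2
    rwa [sub_add_sub_cancel] at this
  exact hmin d ⟨T2, l₂, p₂, l₂', p₂', x1.trans y1, y2, y3.trans x3, y4.trans x4, y5, y6.trans x6,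
    y7.trans x7, y8.trans x8, y9.trans x9, tr _ _ _ s1 r1, tr _ _ _ s2 r2, tr _ _ _ s3 r3,
    s4.trans r4, tr _ _ _ s5 r5, s6, y10⟩

/-- (E4) at one prime `r`, `r ∤ R`, with `B` minimal among the states congruent modulo `R` -/
theorem ExitMinR.e4At {R₀ : ℤ} {S : PSt} {a' b c : ℤ} {l p l' p' : Z2} {q τ n B : ℤ}
    (h : ExitMinR R₀ S a' b c l p l' p' q τ n B) {u₁ : Z2}
    (hu₁ : u₁ = S.u + q • S.v + τ • l + n • p) {hh : ℤ} (hhh : IsC S.L S.u hh)
    {r : ℕ} (hr : r.Prime) (hrR : ¬ (r : ℤ) ∣ R₀) (hr2 : r ≠ 2 ∨ ¬ (r : ℤ) ∣ c) (π : ℕ)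
    (hπ : ∀ k : ℕ, (r : ℤ) ^ k ∣ cr p l * cr S.u S.v * c →
      (r : ℤ) ^ k ∣ (r : ℤ) ^ π * (hh ^ 2 * (c + a'))) {i : ℕ}
    (hi : (r : ℤ) ^ i ∣ B * cr S.u S.v) :
    (r : ℤ) ^ i ∣ (r : ℤ) ^ π * (cr S.u u₁ * (c + a' - cr S.u S.v)) := by
  have E1 : cr p S.v = b := h.ad.isC.unique h.ext.hb
  have E2 : cr S.u p' = c := h.ad.isC'.unique h.ext.hc
  have E3 : cr l' p' = a' := h.ad.isArea'.unique h.ext.ha'
  have hA0 : 0 < cr S.u S.v := h.ad.hA
  have ha0 : 0 < cr p l := h.ad.pos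
  have hc0 : 0 < c := h.ext.hc.1
  have hAc : cr S.u S.v ≤ cr S.u p' := by
    rw [E2]; exact h.ext.leA h.ext.ok.seq h.ext.ha' h.ext.con h.ext.hc
  obtain ⟨R, m, hR, hm⟩ := exists_P hr
    (mul_ne_zero (mul_ne_zero ha0.ne' hA0.ne') hc0.ne') π hπ
  obtain ⟨s, A₁, hA1, hA2⟩ := exists_pow_mul hr hA0.ne'
  have hcop : IsCoprime R₀ ((r : ℤ) ^ s) := (isCoprime_of_not_dvd hr hrR).symm.pow_right
  have key := h.ad.loop4CoreR h.ext.ok hAc hhh (P := (r : ℤ) ^ π * (R * (R₀ * A₁)))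
    (m := m * (R₀ * A₁))
    (by rw [E2, E3]; linear_combination (R₀ * A₁) * hm) hA1 hcop
    (by exact ⟨(r : ℤ) ^ π * R, by ring⟩)
  have hRR : ¬ (r : ℤ) ∣ R * (R₀ * A₁) := by
    have hri := Nat.prime_iff_prime_int.1 hr
    intro h9
    rcases hri.dvd_or_dvd h9 with h9 | h9
    · exact hR h9
    · rcases hri.dvd_or_dvd h9 with h9 | h9
      · exact hrR h9
      · exact hA2 h9
  by_cases hw0 : cr S.u u₁ = 0
  · rw [hw0]; simp
  have hl'0 : cr S.u l' = 0 := h.ad.h4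
  have hl1 : cr u₁ l' ≠ 0 := by
    intro h9
    have e1 := plucker l' u₁ S.u S.v
    rw [cr_swap l' u₁, h9, cr_swap l' S.u, hl'0] at e1
    have e2 : cr l' S.v * cr S.u u₁ = 0 := by rw [cr_swap S.u u₁]; linarith
    rcases mul_eq_zero.1 e2 with e3 | e3
    · have := h.ad.h5
      omega
    · exact hw0 e3
  have hcl : Con1 (lat l' p') := by rw [← h.ad.hL']; exact h.ext.con
  set P := (r : ℤ) ^ π * (R * (R₀ * A₁)) with hP
  obtain ⟨γ, hγA⟩ : ∃ γ : ℤ, cr S.u S.v * γ = P * cr S.u u₁ * (c + a' - cr S.u S.v) := by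
    obtain ⟨l1, p1, v1, _, _, _, _, _, _, _, _, _, _, _, hv⟩ := key 1
    have hv2 := (hv q τ n).2
    rw [← hu₁] at hv2
    rw [E2, E3] at hv2
    refine ⟨cr (S.u + q • v1 + τ • l1 + n • p1) (p' + (1 * P) • S.u) - cr u₁ p', ?_⟩
    linear_combination hv2
  have hg : (Int.gcd (cr u₁ l') (cr u₁ p') : ℤ) = B := by
    have := isC_lat (x := l') (y := p') (u := u₁) (Or.inl hl1)
    rw [← h.ad.hL', hu₁] at this
    rw [hu₁]
    exact this.unique h.hB
  have hfin : ∀ k : ℕ, (r : ℤ) ^ k ∣ B → (r : ℤ) ^ k ∣ γ := by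
    intro k hk
    refine crt_min2D h.hB.1 hl1 h.ext.ha'.1.ne' hg (fun q k => Alw l' p' S.u q ((-k) * P))
      (fun q hq => ?_) (fun q _ k k' hkk hh' => ?_) hr ?_ (fun k hk hdv => ?_) hk
    · show Alw l' p' S.u q (-0 * P)
      rw [neg_zero, zero_mul]; exact Alw.zero hcl hq
    · refine Alw.per ?_ hh'
      have : -k' * P - -k * P = -(k' - k) * P := by ring
      rw [this]; exact ((dvd_neg).2 hkk).mul_right P
    · obtain ⟨k0, z1, z2⟩ := exists_unit_alw (u := S.u) hcl hr (by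
        rcases hr2 with h9 | h9
        · exact Alw.exists_odd hcl hr h9
        · exact ⟨1, prime_not_dvd_one hr, Alw.of_not_dvd (by rw [E2]; exact h9) 1⟩) P
      refine ⟨-k0, fun h9 => z1 ((dvd_neg).1 h9), ?_⟩
      show Alw l' p' S.u r (- -k0 * P)
      rw [neg_neg]; exact z2
    · obtain ⟨l1, p1, v1, t1, y1, y2, y3, y4, y5, y6, z1, z2, z3, z4, hv⟩ := key (-k)
      obtain ⟨hv1, hv2⟩ := hv q τ n
      rw [← hu₁] at hv1 hv2
      rw [E2, E3] at hv2
      have t7 : IsArea (lat l' (p' + (-k * P) • S.u)) a' := by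
        have : cr l' (p' + (-k * P) • S.u) = a' := by
          rw [cr_add_right, cr_smul_right, cr_swap l' S.u, hl'0, E3]; ring
        exact ⟨h.ext.ha'.1, p' + (-k * P) • S.u, l', this, lat_comm _ _⟩
      have t7' : Con1 (lat l' (p' + (-k * P) • S.u)) := con1_of_alw hl'0 E3 hk
      have c8 : cr S.u (p' + (-k * P) • S.u) = c := by
        rw [cr_add_right, cr_smul_right, cr_self, E2]; ring
      have t4 : IsC (lat l' (p' + (-k * P) • S.u)) S.u c := by
        have : IsC (lat l' (p' + (-k * P) • S.u)) S.u (cr S.u (p' + (-k * P) • S.u)) :=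
          isC_adapted hl'0 (by rw [c8]; exact hc0)
        rwa [c8] at this
      have t3 : IsC S.L v1 b := by
        have := y1.isC
        dsimp only at this
        rwa [y6, E1] at this
      have ext : ExtB ⟨S.L, S.u, v1, lat l' (p' + (-k * P) • S.u)⟩ a' b c :=
        h.ext.of_eq t1 t7 t7' t3 (by dsimp only; rw [y2]; exact h.ext.hA) t4
      have y9 : cr (S.u + q • v1 + τ • l1 + n • p1) (p' + (-k * P) • S.u) =
          cr u₁ p' - k * γ := by
        have : (cr (S.u + q • v1 + τ • l1 + n • p1) (p' + (-k * P) • S.u) -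
            (cr u₁ p' - k * γ)) * cr S.u S.v = 0 := by
          linear_combination hv2 + k * hγA
        rcases mul_eq_zero.1 this with h9 | h9
        · linarith
        · omega
      have t9 := isC_lat (x := l') (y := p' + (-k * P) • S.u)
        (u := S.u + q • v1 + τ • l1 + n • p1) (Or.inl (by rw [hv1]; exact hl1))
      rw [hv1, y9] at t9
      exact h.minB _ l1 p1 l' (p' + (-k * P) • S.u) _ t1 ext rfl rfl y1 y2 y3 y4 y5 z1 z2 z3 rfl
        z4 (h.cop.of_isCoprime_of_dvd_left hdv) t9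
  exact local_fin hr h.hB.1.ne' hRR (w := cr S.u u₁ * (c + a' - cr S.u S.v))
    (by rw [hγA, hP]; ring) hfin hi

end Pool.Agent.H4G
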