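import Pool.Agent.H4G.Arith.SL
import Pool.Agent.H4G.Arith.Crt

/-!
# Extremal states for the reduction (R) (helper40)

`b = gcd (L × v)` minimal over all equivalent states, `A ≤ b`, then `b' = gcd (L' × u)` minimal.
-/

set_option autoImplicit false

namespace Pool.Agent.H4G

/-- the gcd of the products of a vector with a lattice -/
theorem isC_lat {x y u : Z2} (h : cr u x ≠ 0 ∨ cr u y ≠ 0) :
    IsC (lat x y) u (Int.gcd (cr u x) (cr u y) : ℕ) := by
  refine ⟨?_, ?_, ?_⟩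
  · have : 0 < Int.gcd (cr u x) (cr u y) := Int.gcd_pos_iff.2 h
    exact_mod_cast this
  · intro w hw
    obtain ⟨m, n, e⟩ := mem_lat.1 hw
    rw [← e, cr_add_right, cr_smul_right, cr_smul_right]
    exact dvd_add ((Int.gcd_dvd_left _ _).mul_left _) ((Int.gcd_dvd_right _ _).mul_left _)
  · refine ⟨Int.gcdA (cr u x) (cr u y) • x + Int.gcdB (cr u x) (cr u y) • y,
      mem_lat.2 ⟨_, _, rfl⟩, ?_⟩
    rw [cr_add_right, cr_smul_right, cr_smul_right, Int.gcd_eq_gcd_ab]; ring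

/-- Adapted bases: `l ∥ v`, `l' ∥ u`. -/
structure Ad (S : PSt) (l p l' p' : Z2) : Prop where
  hL : S.L = lat l p
  hL' : S.L' = lat l' p'
  h1 : cr l S.v = 0
  h2 : 0 < cr S.u l
  h3 : 0 < cr p S.v
  h4 : cr S.u l' = 0
  h5 : 0 < cr l' S.v
  h6 : 0 < cr S.u p'
  hA : 0 < cr S.u S.v

theorem plucker (a b c d : Z2) : cr a b * cr c d - cr a c * cr b d + cr a d * cr b c = 0 := by
  simp only [cr]; ring

theorem Ad.area {S : PSt} {l p l' p' : Z2} (h : Ad S l p l' p') :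
    cr p l * cr S.u S.v = cr S.u l * cr p S.v := by
  have := plucker p l S.u S.v
  rw [h.h1, cr_swap l S.u] at this
  linarith

theorem Ad.area' {S : PSt} {l p l' p' : Z2} (h : Ad S l p l' p') :
    cr l' p' * cr S.u S.v = cr l' S.v * cr S.u p' := by
  have := plucker l' p' S.u S.v
  rw [cr_swap l' S.u, h.h4, cr_swap p' S.u] at this
  linarith

theorem Ad.pos {S : PSt} {l p l' p' : Z2} (h : Ad S l p l' p') : 0 < cr p l := by
  have h1 := h.area
  have h2 : 0 < cr S.u l * cr p S.v := mul_pos h.h2 h.h3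
  rw [← h1] at h2
  exact (mul_pos_iff_of_pos_right h.hA).1 h2

theorem Ad.pos' {S : PSt} {l p l' p' : Z2} (h : Ad S l p l' p') : 0 < cr l' p' := by
  have h1 := h.area'
  have h2 : 0 < cr l' S.v * cr S.u p' := mul_pos h.h5 h.h6
  rw [← h1] at h2
  exact (mul_pos_iff_of_pos_right h.hA).1 h2

theorem Ad.isArea {S : PSt} {l p l' p' : Z2} (h : Ad S l p l' p') : IsArea S.L (cr p l) :=
  ⟨h.pos, l, p, rfl, h.hL⟩

theorem Ad.isArea' {S : PSt} {l p l' p' : Z2} (h : Ad S l p l' p') : IsArea S.L' (cr l' p') :=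
  ⟨h.pos', p', l', rfl, by rw [h.hL', lat_comm]⟩

theorem isC_of_par {l p v : Z2} (h1 : cr l v = 0) (h3 : 0 < cr p v) : IsC (lat l p) v (cr p v) := by
  refine ⟨h3, ?_, -p, (lat l p).neg_mem (mem_lat.2 ⟨0, 1, by module⟩), ?_⟩
  · intro w hw
    obtain ⟨m, n, e⟩ := mem_lat.1 hw
    refine ⟨-n, ?_⟩
    rw [← e, cr_add_right, cr_smul_right, cr_smul_right, cr_swap v l, h1, cr_swap v p]; ring
  · rw [cr_neg_right, cr_swap v p, neg_neg]

theorem Ad.isC {S : PSt} {l p l' p' : Z2} (h : Ad S l p l' p') : IsC S.L S.v (cr p S.v) := by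
  rw [h.hL]; exact isC_of_par h.h1 h.h3

theorem Ad.isC' {S : PSt} {l p l' p' : Z2} (h : Ad S l p l' p') : IsC S.L' S.u (cr S.u p') := by
  rw [h.hL']; exact isC_adapted h.h4 h.h6

theorem exists_Ad {S : PSt} (hS : S.Ok) : ∃ l p l' p', Ad S l p l' p' := by
  obtain ⟨c, hc⟩ := hS
  obtain ⟨a, a', ⟨ha, l, p, k1, k2⟩, ⟨ha', l', p', k3, k4⟩, hA, _⟩ := hc.areas
  have hA' : 0 < cr S.v (-S.u) := by rw [cr_neg_right, cr_swap S.v S.u, neg_neg]; exact hA
  obtain ⟨e, f, m1, m2, m3, m4, m5, m6⟩ := exists_adapted (l := l) (p := p) (u := S.v)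
    (v := -S.u) (by rw [k1]; exact ha) hA'
  obtain ⟨e', f', n1, n2, n3, n4, n5, n6⟩ := exists_adapted (l := l') (p := p') (u := S.u)
    (v := S.v) (by rw [k3]; exact ha') hA
  refine ⟨-e, -f, -e', f', ?_, ?_, ?_, ?_, ?_, ?_, ?_, n5, hA⟩
  · rw [k2, lat_neg_left, lat_neg_right, m1]
  · rw [k4, lat_neg_left, n1]
  · rw [cr_neg_left, cr_swap e S.v, m3]; simp
  · rw [cr_neg_right, ← cr_neg_left]; exact m4
  · rw [cr_neg_left, cr_swap f S.v, neg_neg]; exact m5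
  · rw [cr_neg_right, n3]; simp
  · rw [cr_neg_left, cr_swap e' S.v, neg_neg]; exact n4

/-! ## Twists in adapted bases -/

theorem Ad.twV {S : PSt} {l p l' p' : Z2} (h : Ad S l p l' p') (hok : S.Ok)
    (hA : cr S.u S.v ≤ cr p S.v) (j : ℤ) :
    SEq S ⟨lat l (p - j • S.v), S.u - j • (S.v + l), S.v, S.L'⟩ := by
  obtain ⟨L, u, v, L'⟩ := S
  obtain ⟨h0, h0', h1, h2, h3, h4, h5, h6, h7⟩ := h
  dsimp only at h0 h0' h1 h2 h3 h4 h5 h6 h7 hA hok ⊢
  subst h0
  refine SEq.twist hok h2 ?_ h1 j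
  have e1 := (show Ad ⟨lat l p, u, v, L'⟩ l p l' p' from ⟨rfl, h0', h1, h2, h3, h4, h5, h6, h7⟩).area
  dsimp only at e1
  have e2 : cr u l * cr u v ≤ cr u l * cr p v := mul_le_mul_of_nonneg_left hA h2.le
  rw [← e1] at e2
  exact le_of_mul_le_mul_right e2 h7

theorem Ad.twH {S : PSt} {l p l' p' : Z2} (h : Ad S l p l' p') (hok : S.Ok)
    (hA : cr S.u S.v ≤ cr S.u p') (i : ℤ) :
    SEq S ⟨S.L, S.u, S.v + i • (S.u + l'), lat l' (p' + i • S.u)⟩ := by
  obtain ⟨L, u, v, L'⟩ := S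
  obtain ⟨h0, h0', h1, h2, h3, h4, h5, h6, h7⟩ := h
  dsimp only at h0 h0' h1 h2 h3 h4 h5 h6 h7 hA hok ⊢
  subst h0'
  have e1 := (show Ad ⟨L, u, v, lat l' p'⟩ l p l' p' from ⟨h0, rfl, h1, h2, h3, h4, h5, h6, h7⟩).area'
  dsimp only at e1
  have e2 : cr l' v * cr u v ≤ cr l' v * cr u p' := mul_le_mul_of_nonneg_left hA h5.le
  rw [← e1] at e2
  have e3 : cr l' v ≤ cr l' p' := le_of_mul_le_mul_right e2 h7
  rw [← lat_neg_left l' p'] at hok ⊢
  have := SEq.twist' (l := -l') (p := p') hok (by rw [cr_neg_right, cr_swap v l', neg_neg]; exact h5)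
    (by rw [cr_neg_right, cr_neg_right, cr_swap v l', neg_neg, cr_swap p' l', neg_neg]; exact e3)
    (by rw [cr_neg_right, h4, neg_zero]) i
  rw [sub_neg_eq_add, lat_neg_left l' (p' + i • u)] at this
  exact this

/-! ## Extremal states -/

/-- `b = gcd (L × v)` is minimal over all equivalent states, `A ≤ b`, and then `b' = gcd (L' × u)`
is minimal. -/
structure Ext (S : PSt) (b b' : ℤ) : Prop where
  ok : S.Ok
  hb : IsC S.L S.v b
  hb' : IsC S.L' S.u b'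
  hA : cr S.u S.v ≤ b
  min : ∀ (T : PSt) (c : ℤ), SEq S T → IsC T.L T.v c → b ≤ c
  min' : ∀ (T : PSt) (c : ℤ), SEq S T → IsC T.L T.v b → cr T.u T.v ≤ b → IsC T.L' T.u c → b' ≤ c

theorem exists_min_int {P : ℤ → Prop} (h0 : ∀ c, P c → 0 < c) (h : ∃ c, P c) :
    ∃ c, P c ∧ ∀ d, P d → c ≤ d := by
  classical
  have hex : ∃ n : ℕ, P n := by
    obtain ⟨c, hc⟩ := h
    have := h0 c hc
    exact ⟨c.toNat, by rwa [Int.toNat_of_nonneg this.le]⟩
  refine ⟨Nat.find hex, Nat.find_spec hex, fun d hd => ?_⟩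
  have h1 := h0 d hd
  have h2 : Nat.find hex ≤ d.toNat := Nat.find_min' hex (by rwa [Int.toNat_of_nonneg h1.le])
  omega

theorem exists_ext {S : PSt} (hS : S.Ok) : ∃ (T : PSt) (b b' : ℤ), SEq S T ∧ Ext T b b' := by
  obtain ⟨b, ⟨T0, k1, k2⟩, hmin⟩ := exists_min_int
    (P := fun c => ∃ T : PSt, SEq S T ∧ IsC T.L T.v c) (fun c ⟨T, _, h⟩ => h.1) (by
      obtain ⟨l, p, l', p', had⟩ := exists_Ad hS
      exact ⟨_, S, hS.seq, had.isC⟩)
  obtain ⟨l, p, l', p', had⟩ := exists_Ad k1.ok'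
  obtain ⟨u1, L1, θ, m1, m2, m3, m4, m5, m6, m7, m8⟩ :=
    SEq.node' (L := T0.L) (L' := T0.L') (u := T0.u) (v := T0.v) k1.ok' had.isArea k2
  have k3 : SEq S ⟨L1, u1, T0.v, T0.L'⟩ := k1.trans m1
  obtain ⟨b', ⟨T, n1, n2, n3, n4⟩, hmin'⟩ := exists_min_int
    (P := fun c => ∃ T : PSt, SEq S T ∧ IsC T.L T.v b ∧ cr T.u T.v ≤ b ∧ IsC T.L' T.u c)
    (fun c ⟨T, _, _, _, h⟩ => h.1) (by
      obtain ⟨l, p, l', p', had⟩ := exists_Ad k3.ok'
      exact ⟨_, _, k3, m8, m6, had.isC'⟩)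
  exact ⟨T, b, b', n1, n1.ok', n2, n4, n3, fun T2 c h1 h2 => hmin c ⟨T2, n1.trans h1, h2⟩,
    fun T2 c h1 h2 h3 h4 => hmin' c ⟨T2, n1.trans h1, h2, h3, h4⟩⟩

theorem Ext.of_eq {S T : PSt} {b b' : ℤ} (h : Ext S b b') (h1 : SEq S T) (h2 : IsC T.L T.v b)
    (h3 : cr T.u T.v ≤ b) (h4 : IsC T.L' T.u b') : Ext T b b' :=
  ⟨h1.ok', h2, h4, h3, fun T2 c k1 k2 => h.min T2 c (h1.trans k1) k2,
    fun T2 c k1 k2 k3 k4 => h.min' T2 c (h1.trans k1) k2 k3 k4⟩

/-- the minimality of `b` on the other side -/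
theorem Ext.min2 {S : PSt} {b b' : ℤ} (h : Ext S b b') {T : PSt} {c : ℤ} (h1 : SEq S T)
    (h2 : IsC T.L' T.u c) : b ≤ c := by
  have m1 := SEq.mirror (L := T.L) (L' := T.L') (u := T.u) (v := T.v) h1.ok'
  exact h.min _ c (h1.trans m1) h2.neg

theorem Ext.le {S : PSt} {b b' : ℤ} (h : Ext S b b') : b ≤ b' := h.min2 h.ok.seq h.hb'

theorem Ext.bpos {S : PSt} {b b' : ℤ} (h : Ext S b b') : 0 < b := h.hb.1

/-- V-RIGIDITY -/
theorem Ext.vrig {S : PSt} {b b' : ℤ} (h : Ext S b b') {l p l' p' : Z2} (ad : Ad S l p l' p') :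
    b' ∣ cr (S.v + l) l' ∧ b' ∣ cr (S.v + l) p' := by
  have e1 : cr p S.v = b := ad.isC.unique h.hb
  have e2 : cr S.u p' = b' := ad.isC'.unique h.hb'
  have hB1 : cr (S.v + l) l' ≠ 0 := by
    have k1 := plucker l l' S.u S.v
    rw [ad.h1, cr_swap l' S.u, ad.h4, cr_swap l S.u] at k1
    have k2 : 0 < cr S.u l * cr l' S.v := mul_pos ad.h2 ad.h5
    have k3 : cr l l' * cr S.u S.v < 0 := by linarith
    have k4 : cr l l' < 0 := by
      by_contra hn
      push Not at hn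
      have := mul_nonneg hn ad.hA.le
      linarith
    have k5 := ad.h5
    rw [cr_add_left, cr_swap S.v l']
    omega
  refine crt_min h.hb'.1 hB1 fun j => ?_
  have k1 := ad.twV h.ok (by rw [e1]; exact h.hA) j
  have k2 : IsC (lat l (p - j • S.v)) S.v b := by
    have : cr (p - j • S.v) S.v = b := by rw [cr_sub_left, cr_smul_left, cr_self, e1]; ring
    rw [← this]
    exact isC_of_par ad.h1 (by rw [this]; exact h.bpos)
  have e3 : cr (S.u - j • (S.v + l)) S.v = cr S.u S.v := by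
    rw [cr_sub_left, cr_smul_left, cr_add_left, cr_self, ad.h1]; ring
  have e4 : cr (S.u - j • (S.v + l)) l' = -(j * cr (S.v + l) l') := by
    rw [cr_sub_left, cr_smul_left, ad.h4]; ring
  have e5 : cr (S.u - j • (S.v + l)) p' = b' - j * cr (S.v + l) p' := by
    rw [cr_sub_left, cr_smul_left, e2]
  have hb'0 := h.hb'.1
  have k3 : IsC S.L' (S.u - j • (S.v + l))
      (Int.gcd (j * cr (S.v + l) l') (b' - j * cr (S.v + l) p') : ℕ) := by
    have := isC_lat (x := l') (y := p') (u := S.u - j • (S.v + l)) (by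
      rw [e4, e5]
      rcases eq_or_ne j 0 with hj | hj
      · right; rw [hj]; simp; omega
      · left
        exact neg_ne_zero.2 (mul_ne_zero hj hB1))
    rw [e4, e5, Int.neg_gcd, ← ad.hL'] at this
    exact this
  exact h.min' _ _ k1 k2 (by dsimp only; rw [e3]; exact h.hA) k3

/-- H-RIGIDITY, at every equivalent state with the same `b` where the H-twists exist -/
theorem Ext.hrig {S T : PSt} {b b' : ℤ} (h : Ext S b b') (hST : SEq S T) (hT : IsC T.L T.v b)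
    {l p l' p' : Z2} (ad : Ad T l p l' p') (hA : cr T.u T.v ≤ cr T.u p') :
    b ∣ cr (T.u + l') l ∧ b ∣ cr (T.u + l') p := by
  have e1 : cr p T.v = b := ad.isC.unique hT
  have hB1 : cr (T.u + l') l ≠ 0 := by
    have k1 := plucker l l' T.u T.v
    rw [ad.h1, cr_swap l' T.u, ad.h4, cr_swap l T.u] at k1
    have k2 : 0 < cr T.u l * cr l' T.v := mul_pos ad.h2 ad.h5
    have k3 : cr l l' * cr T.u T.v < 0 := by linarith
    have k4 : cr l l' < 0 := by
      by_contra hn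
      push Not at hn
      have := mul_nonneg hn ad.hA.le
      linarith
    have k5 := ad.h2
    rw [cr_add_left, cr_swap l' l]
    omega
  refine crt_min h.bpos hB1 fun i => ?_
  have k1 := ad.twH hST.ok' hA i
  have e4 : cr (T.v + i • (T.u + l')) l = i * cr (T.u + l') l := by
    rw [cr_add_left, cr_smul_left, cr_swap T.v l, ad.h1]; ring
  have e5 : cr (T.v + i • (T.u + l')) p = -(b - i * cr (T.u + l') p) := by
    rw [cr_add_left, cr_smul_left, cr_swap T.v p, e1]; ring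
  have hb0 := h.bpos
  have k3 : IsC T.L (T.v + i • (T.u + l'))
      (Int.gcd (i * cr (T.u + l') l) (b - i * cr (T.u + l') p) : ℕ) := by
    have := isC_lat (x := l) (y := p) (u := T.v + i • (T.u + l')) (by
      rw [e4, e5]
      rcases eq_or_ne i 0 with hj | hj
      · right; rw [hj]; simp; omega
      · left
        exact mul_ne_zero hj hB1)
    rw [e4, e5, Int.gcd_neg, ← ad.hL] at this
    exact this
  exact h.min _ _ (hST.trans k1) k3

/-! ## Exits -/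

/-- EXIT on the left side (`u → u + v + x`) -/
theorem Ext.exitPlus {S : PSt} {b b' : ℤ} (h : Ext S b b') {T : PSt} (hST : SEq S T) {x y : Z2}
    (hL : T.L = lat x y) (h1 : 0 < cr T.u x) (h2 : cr T.u x ≤ cr y x)
    (h3 : -cr T.u T.v < cr x T.v) (h4 : cr x T.v < cr T.u x) {c : ℤ}
    (hc : IsC T.L' (T.u + T.v + x) c) : b ≤ c := by
  obtain ⟨L, u, v, L'⟩ := T
  dsimp only at hL h1 h2 h3 h4 hc
  subst hL
  have k1 := SEq.mPlus hST.ok' h1 h2 h3 h4
  exact h.min2 (hST.trans k1) hc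

/-- EXIT on the left side (`u → u - v - x`) -/
theorem Ext.exitMinus {S : PSt} {b b' : ℤ} (h : Ext S b b') {T : PSt} (hST : SEq S T) {x y : Z2}
    (hL : T.L = lat x y) (h1 : 0 < cr T.u x) (h2 : cr T.u x ≤ cr y x)
    (h3 : -cr T.u x < cr x T.v) (h4 : cr x T.v < cr T.u T.v) {c : ℤ}
    (hc : IsC T.L' (T.u - T.v - x) c) : b ≤ c := by
  obtain ⟨L, u, v, L'⟩ := T
  dsimp only at hL h1 h2 h3 h4 hc
  subst hL
  have k1 := SEq.mMinus hST.ok' h1 h2 h3 h4
  exact h.min2 (hST.trans k1) hc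

/-- EXIT on the right side (`v → v - u + x`) -/
theorem Ext.exitPlus' {S : PSt} {b b' : ℤ} (h : Ext S b b') {T : PSt} (hST : SEq S T) {x y : Z2}
    (hL : T.L' = lat x y) (h1 : 0 < cr T.v x) (h2 : cr T.v x ≤ cr y x)
    (h3 : -cr T.u T.v < cr T.u x) (h4 : cr T.u x < cr T.v x) {c : ℤ}
    (hc : IsC T.L (T.v - T.u + x) c) : b ≤ c := by
  obtain ⟨L, u, v, L'⟩ := T
  dsimp only at hL h1 h2 h3 h4 hc
  subst hL
  have k1 := SEq.mPlus' hST.ok' h1 h2 h3 h4
  exact h.min _ _ (hST.trans k1) hc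

/-- EXIT on the right side (`v → v + u - x`) -/
theorem Ext.exitMinus' {S : PSt} {b b' : ℤ} (h : Ext S b b') {T : PSt} (hST : SEq S T) {x y : Z2}
    (hL : T.L' = lat x y) (h1 : 0 < cr T.v x) (h2 : cr T.v x ≤ cr y x)
    (h3 : -cr T.v x < cr T.u x) (h4 : cr T.u x < cr T.u T.v) {c : ℤ}
    (hc : IsC T.L (T.v + T.u - x) c) : b ≤ c := by
  obtain ⟨L, u, v, L'⟩ := T
  dsimp only at hL h1 h2 h3 h4 hc
  subst hL
  have k1 := SEq.mMinus' hST.ok' h1 h2 h3 h4
  exact h.min _ _ (hST.trans k1) hc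

/-- if the extremal `b` is `1`, the class contains a state with `A = 1` -/
theorem Ext.one {S : PSt} {b' : ℤ} (h : Ext S 1 b') : cr S.u S.v = 1 := by
  have := h.hA
  obtain ⟨l, p, l', p', ad⟩ := exists_Ad h.ok
  have := ad.hA
  omega

end Pool.Agent.H4G
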