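import Pool.Agent.H4G.Arith.F3

/-!
# The finish of the one-exit argument (helper19)

The pair: a state `S` and an exit `w1 = u + q v + τ l + p` of level 1, `A₁ = A + b`.
All arithmetic of the two loops (E3), (E4), prime by prime.
-/

set_option autoImplicit false

namespace Pool.Agent.H4G

/-! ## Valuations -/

theorem pv_dvd {p : ℕ} (hp : p.Prime) {k : ℕ} {x : ℤ} (hx : x ≠ 0) :
    (p : ℤ) ^ k ∣ x ↔ k ≤ padicValInt p x := by
  have := Fact.mk hp
  rw [padicValInt_dvd_iff]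
  simp [hx]

theorem pv_mul {p : ℕ} (hp : p.Prime) {x y : ℤ} (hx : x ≠ 0) (hy : y ≠ 0) :
    padicValInt p (x * y) = padicValInt p x + padicValInt p y := by
  have := Fact.mk hp
  exact padicValInt.mul hx hy

theorem pv_self_dvd {p : ℕ} (x : ℤ) : (p : ℤ) ^ (padicValInt p x) ∣ x := by
  exact padicValInt_dvd x

theorem pv_zero {p : ℕ} (hp : p.Prime) {x : ℤ} (h : ¬ (p : ℤ) ∣ x) : padicValInt p x = 0 := by
  have hx : x ≠ 0 := by rintro rfl; exact h (dvd_zero _)
  by_contra hn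
  apply h
  have := (pv_dvd hp (k := 1) hx).2 (by omega)
  simpa using this

theorem pv_pos {p : ℕ} (hp : p.Prime) {x : ℤ} (hx : x ≠ 0) (h : (p : ℤ) ∣ x) :
    1 ≤ padicValInt p x := by
  rw [← pv_dvd hp hx]; simpa using h

/-- divisibility prime by prime -/
theorem dvd_of_primes {x y : ℤ}
    (h : ∀ (p : ℕ), p.Prime → ∀ k : ℕ, (p : ℤ) ^ k ∣ x → (p : ℤ) ^ k ∣ y) : x ∣ y := by
  rw [← Int.natAbs_dvd_natAbs, Nat.dvd_iff_prime_pow_dvd_dvd]
  intro p k hp hk
  have h1 : (p : ℤ) ^ k ∣ x := by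
    rw [← Int.natAbs_dvd_natAbs, Int.natAbs_pow, Int.natAbs_natCast]; exact hk
  have h2 := h p hp k h1
  rw [← Int.natAbs_dvd_natAbs, Int.natAbs_pow, Int.natAbs_natCast] at h2
  exact h2

theorem pow_dvd_of_mul {p : ℕ} (hp : p.Prime) {k : ℕ} {x y : ℤ} (h : (p : ℤ) ^ k ∣ x * y)
    (hx : ¬ (p : ℤ) ∣ x) : (p : ℤ) ^ k ∣ y :=
  (IsCoprime.pow_left (((Nat.prime_iff_prime_int.1 hp).coprime_iff_not_dvd).2 hx)).dvd_of_dvd_mul_left h

theorem p_dvd_mul {p : ℕ} (hp : p.Prime) {x y : ℤ} (h : (p : ℤ) ∣ x * y)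
    (hx : ¬ (p : ℤ) ∣ x) : (p : ℤ) ∣ y :=
  ((Nat.prime_iff_prime_int.1 hp).dvd_or_dvd h).resolve_left hx

/-- elements of the plane are in the lattice up to the area -/
theorem IsArea.dvd_all {L : AddSubgroup Z2} {a : ℤ} (ha : IsArea L a) {p : ℕ} (hp : p.Prime)
    (hpa : ¬ (p : ℤ) ∣ a) {k : ℕ} {u : Z2} (h : ∀ z ∈ L, (p : ℤ) ^ k ∣ cr u z) (z : Z2) :
    (p : ℤ) ^ k ∣ cr u z := by
  have h1 := h _ (ha.smul_mem z)
  rw [cr_smul_right] at h1
  exact pow_dvd_of_mul hp h1 hpa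

/-! ## The pair -/

/-- the hypotheses on a state and an exit of level 1 -/
structure Pair (N : ℕ) (S : PSt) (l p l' p' w1 : Z2) (q τ B : ℤ) : Prop where
  hN : N.Prime
  ad : Ad S l p l' p'
  hv : cr p l + cr S.u S.v + cr l' p' = N
  hq : ¬ (2 : ℤ) ∣ q
  hw1 : w1 = S.u + q • S.v + τ • l + p
  ha1 : cr p S.v < cr p l
  hB : IsC S.L' w1 B
  hw0 : cr S.u w1 ≠ 0
  rv : ∀ z ∈ S.L', cr S.u p' ∣ cr z (S.v + l)
  rh : ∀ r : ℕ, r.Prime → ¬ (r : ℤ) ∣ cr S.u p' → ∀ k : ℕ, (r : ℤ) ^ k ∣ cr p S.v →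
    ∀ z ∈ S.L, (r : ℤ) ^ k ∣ (cr S.u p' + cr l' p') * cr S.u z
  rht : ∀ r : ℕ, r.Prime → ¬ (r : ℤ) ∣ B → ∀ k : ℕ, (r : ℤ) ^ k ∣ cr p S.v →
    ∀ z ∈ lat (l - S.v) (p + τ • S.v), (r : ℤ) ^ k ∣ (B + cr l' p') * cr w1 z
  e3 : ∀ r : ℕ, r.Prime → ¬ (r : ℤ) ∣ B → ∀ π : ℕ,
    (∀ k : ℕ, (r : ℤ) ^ k ∣ cr w1 S.v * (cr p l - cr p S.v) →
      ∀ z ∈ lat (l - S.v) (p + τ • S.v), ∀ z' ∈ lat (l - S.v) (p + τ • S.v),
        (r : ℤ) ^ k ∣ (r : ℤ) ^ π * ((B + cr l' p') * (cr w1 z * cr w1 z'))) →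
    ∀ j : ℕ, (r : ℤ) ^ j ∣ cr S.u p' * cr w1 S.v →
      (r : ℤ) ^ j ∣ (r : ℤ) ^ π * (cr S.u w1 * (B + cr l' p' - cr w1 S.v))
  e4 : ∀ r : ℕ, r.Prime → ¬ (r : ℤ) ∣ cr S.u p' → ∀ π : ℕ,
    (∀ k : ℕ, (r : ℤ) ^ k ∣ cr S.u S.v * cr p l → ∀ z ∈ S.L, ∀ z' ∈ S.L,
        (r : ℤ) ^ k ∣ (r : ℤ) ^ π * ((cr S.u p' + cr l' p') * (cr S.u z * cr S.u z'))) →
    ∀ j : ℕ, (r : ℤ) ^ j ∣ B * cr S.u S.v →
      (r : ℤ) ^ j ∣ (r : ℤ) ^ π * (cr S.u w1 * (cr S.u p' + cr l' p' - cr S.u S.v))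

namespace Pair

variable {N : ℕ} {S : PSt} {l p l' p' w1 : Z2} {q τ B : ℤ}

theorem hA1 (h : Pair N S l p l' p' w1 q τ B) : cr w1 S.v = cr S.u S.v + cr p S.v := by
  rw [h.hw1]
  simp only [cr_add_left, cr_smul_left, cr_self]
  rw [h.ad.h1]; ring

theorem w0_eq (h : Pair N S l p l' p' w1 q τ B) :
    cr S.u w1 = q * cr S.u S.v + τ * cr S.u l + cr S.u p := by
  rw [h.hw1]
  simp only [cr_add_right, cr_smul_right, cr_self]
  ring

/-- `A (z × u₁) = (z × v) w₀ + (z × u) A₁` -/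
theorem key (z : Z2) : cr S.u S.v * cr z w1 =
    cr z S.v * cr S.u w1 + cr z S.u * cr w1 S.v := by
  rw [plk S.u S.v z w1, cr_swap S.v w1]; ring

/-- `A (a - b) = b (e - A)` -/
theorem area1 (h : Pair N S l p l' p' w1 q τ B) :
    cr S.u S.v * (cr p l - cr p S.v) = cr p S.v * (cr S.u l - cr S.u S.v) := by
  have := h.ad.area
  linear_combination this

theorem area1' (h : Pair N S l p l' p' w1 q τ B) :
    IsArea (lat (l - S.v) (p + τ • S.v)) (cr p l - cr p S.v) := by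
  refine ⟨by linarith [h.ha1], l - S.v, p + τ • S.v, ?_, rfl⟩
  simp only [cr_add_left, cr_sub_right, cr_smul_left, cr_self]
  rw [cr_swap S.v l, h.ad.h1]; ring

/-- `u₁ × (l - v) = (e - A) + (a - b)` -/
theorem cr1 (h : Pair N S l p l' p' w1 q τ B) :
    cr w1 (l - S.v) = (cr S.u l - cr S.u S.v) + (cr p l - cr p S.v) := by
  rw [h.hw1]
  simp only [cr_add_left, cr_sub_right, cr_smul_left, cr_self]
  rw [cr_swap S.v l, h.ad.h1]; ring

/-- `u₁ × (p + τ v) = f + τ A - q b - τ (a - b)` -/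
theorem cr2 (h : Pair N S l p l' p' w1 q τ B) :
    cr w1 (p + τ • S.v) = cr S.u p + τ * cr S.u S.v - q * cr p S.v - τ * (cr p l - cr p S.v) := by
  rw [h.hw1]
  simp only [cr_add_left, cr_add_right, cr_smul_left, cr_smul_right, cr_self]
  rw [cr_swap S.v p, cr_swap l p, h.ad.h1]; ring

/-- RV at `z`: `A (z × (v + l)) = (A + e) (z × v)` -/
theorem rvA (h : Pair N S l p l' p' w1 q τ B) (z : Z2) :
    cr S.u S.v * cr z (S.v + l) = (cr S.u S.v + cr S.u l) * cr z S.v := by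
  have := plk S.u S.v z l
  rw [cr_swap S.v l, h.ad.h1] at this
  rw [cr_add_right]
  linear_combination this

theorem A0 (h : Pair N S l p l' p' w1 q τ B) : cr S.u S.v ≠ 0 := h.ad.hA.ne'

theorem A10 (h : Pair N S l p l' p' w1 q τ B) : 0 < cr w1 S.v := by
  rw [h.hA1]; linarith [h.ad.hA, h.ad.h3]

/-- if `r ∣ c` and `r ∤ A` then `r ∣ a'`; more precisely the powers of `r` in `c` beyond those of `A`
divide `a'` -/
theorem c_dvd (h : Pair N S l p l' p' w1 q τ B) : cr S.u p' ∣ cr l' p' * cr S.u S.v :=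
  ⟨cr l' S.v, by rw [h.ad.area']; ring⟩

/-- a prime that divides `A` and `a'` does not divide `a` -/
theorem na (h : Pair N S l p l' p' w1 q τ B) {r : ℕ} (hr : r.Prime) (h1 : (r : ℤ) ∣ cr S.u S.v)
    (h2 : (r : ℤ) ∣ cr l' p') : ¬ (r : ℤ) ∣ cr p l :=
  not_dvd_of_prime h.hN (by linarith [h.ad.hA, h.ad.pos'] : (0 : ℤ) < cr S.u S.v + cr l' p')
    h.ad.pos (by linarith [h.hv]) hr (dvd_add h1 h2)

/-- the same at the exit -/
theorem na1 (h : Pair N S l p l' p' w1 q τ B) {r : ℕ} (hr : r.Prime) (h1 : (r : ℤ) ∣ cr w1 S.v)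
    (h2 : (r : ℤ) ∣ cr l' p') : ¬ (r : ℤ) ∣ cr p l - cr p S.v :=
  not_dvd_of_prime h.hN (by linarith [h.A10, h.ad.pos'] : (0 : ℤ) < cr w1 S.v + cr l' p')
    (by linarith [h.ha1]) (by linarith [h.hv, h.hA1]) hr (dvd_add h1 h2)

/-- `r ∤ a'` : the right lattice is full at `r` -/
theorem full' (h : Pair N S l p l' p' w1 q τ B) {r : ℕ} (hr : r.Prime)
    (h2 : ¬ (r : ℤ) ∣ cr l' p') {k : ℕ} (hk : (r : ℤ) ^ k ∣ cr S.u p') :
    (r : ℤ) ^ k ∣ cr S.u S.v :=
  h.ad.isArea'.dvd_all hr h2 (fun z hz => hk.trans (h.ad.isC'.2.1 z hz)) _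

/-- there is a vector with `z × u₁ = - B` -/
theorem exZ (h : Pair N S l p l' p' w1 q τ B) : ∃ z ∈ S.L', cr z w1 = -B := by
  obtain ⟨-, -, z, hz, h1⟩ := h.hB
  exact ⟨z, hz, by rw [cr_swap, h1]⟩

theorem Bpos (h : Pair N S l p l' p' w1 q τ B) : 0 < B := h.hB.1

/-- F1 at `r`, up to the defect at `2` -/
theorem f1_loc (h : Pair N S l p l' p' w1 q τ B) {r : ℕ} (hr : r.Prime)
    (hW : (r : ℤ) ∣ cr S.u p' → (r : ℤ) ∣ cr l' p' → ¬ (r : ℤ) ∣ B) {k : ℕ}
    (hk : (r : ℤ) ^ k ∣ cr S.u p') :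
    (r : ℤ) ^ k ∣ cr S.u S.v * (B - cr w1 S.v) ∨
      (r = 2 ∧ (r : ℤ) ^ k ∣ 2 * (cr S.u S.v * (B - cr w1 S.v)) ∧ (∀ z, (2 : ℤ) ∣ cr S.u z) ∧
        ∃ j : ℕ, (2 : ℤ) ^ (j + 2) ∣ cr S.u p' ∧ ¬ (2 : ℤ) ^ (j + 1) ∣ cr S.u S.v) := by
  have hrp := Nat.prime_iff_prime_int.1 hr
  set A := cr S.u S.v with hAdef
  set c := cr S.u p' with hcdef
  set e := cr S.u l with hedef
  set b := cr p S.v with hbdef
  set a := cr p l with hadef
  set a' := cr l' p' with ha'def
  set A1 := cr w1 S.v with hA1def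
  set w0 := cr S.u w1 with hw0def
  have hA0 : A ≠ 0 := h.ad.hA.ne'
  have hc0 : c ≠ 0 := h.ad.h6.ne'
  have hb0 : b ≠ 0 := h.ad.h3.ne'
  have he0 : e ≠ 0 := h.ad.h2.ne'
  have ha'0 : a' ≠ 0 := h.ad.pos'.ne'
  have hA10 : A1 ≠ 0 := h.A10.ne'
  have hw00 : w0 ≠ 0 := h.hw0
  have ha10 : a - b ≠ 0 := by have := h.ha1; omega
  have hA1e : A1 = A + b := h.hA1
  have har : A * (a - b) = b * (e - A) := h.area1
  -- easy cases
  by_cases hkA : (r : ℤ) ^ k ∣ A
  · exact Or.inl (hkA.mul_right _)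
  have hk0 : k ≠ 0 := by rintro rfl; exact hkA (by simp)
  have hrc : (r : ℤ) ∣ c := (dvd_pow_self _ hk0).trans hk
  have hra' : (r : ℤ) ∣ a' := by
    by_contra hn
    exact hkA (h.full' hr hn hk)
  have hrB : ¬ (r : ℤ) ∣ B := hW hrc hra'
  obtain ⟨z0, hz0, hz1⟩ := h.exZ
  -- valuations
  set γ := padicValInt r c with hγ
  set α := padicValInt r A with hα
  have hkγ : k ≤ γ := (pv_dvd hr hc0).1 hk
  have hαk : α < k := by
    by_contra hn
    exact hkA ((pv_dvd hr hA0).2 (by omega))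
  set ω := padicValInt r w0 with hω
  have hkey := key (S := S) (w1 := w1) z0
  rw [hz1] at hkey
  -- `z0 × v ≠ 0`, its valuation is `α - ω`
  have hzu : (r : ℤ) ^ γ ∣ cr z0 S.u := by
    have := (pv_self_dvd (p := r) c).trans (h.ad.isC'.2.1 z0 hz0)
    rw [cr_swap z0 S.u]; exact (dvd_neg).2 this
  have hzvw : (r : ℤ) ^ α ∣ cr z0 S.v * w0 ∧ ¬ (r : ℤ) ^ (α + 1) ∣ cr z0 S.v * w0 := by
    have e1 : cr z0 S.v * w0 = -(A * B) - cr z0 S.u * A1 := by linear_combination -hkey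
    constructor
    · rw [e1]
      refine dvd_sub ((dvd_neg).2 ((pv_self_dvd A).mul_right _)) (Dvd.dvd.mul_right ?_ _)
      exact (pow_dvd_pow _ (by omega)).trans hzu
    · intro h1
      have h2 : (r : ℤ) ^ (α + 1) ∣ B * A := by
        have e2 : B * A = -(cr z0 S.v * w0) - cr z0 S.u * A1 := by linear_combination -hkey
        rw [e2]
        exact dvd_sub ((dvd_neg).2 h1)
          (((pow_dvd_pow _ (by omega)).trans hzu).mul_right _)
      have h3 := pow_dvd_of_mul hr h2 hrB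
      have := (pv_dvd hr hA0).1 h3
      omega
  have hzv0 : cr z0 S.v ≠ 0 := by
    intro h0
    apply hzvw.2
    rw [h0, zero_mul]; exact dvd_zero _
  have hval : padicValInt r (cr z0 S.v) + ω = α := by
    have h0 : cr z0 S.v * w0 ≠ 0 := mul_ne_zero hzv0 hw00
    have h1 := (pv_dvd hr h0).1 hzvw.1
    have h2 : ¬ α + 1 ≤ padicValInt r (cr z0 S.v * w0) := fun h3 =>
      hzvw.2 ((pv_dvd hr h0).2 h3)
    rw [pv_mul hr hzv0 hw00] at h1 h2
    omega
  -- RV: `r ^ (γ + ω) ∣ A + e`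
  have hrv : (r : ℤ) ^ (γ + ω) ∣ A + e := by
    have h1 := h.rv z0 hz0
    have h2 := h.rvA z0
    have hAe : A + e ≠ 0 := by
      have := h.ad.hA; have := h.ad.h2; omega
    have h3 : (r : ℤ) ^ (γ + α) ∣ (A + e) * cr z0 S.v := by
      rw [← h2, pow_add, mul_comm]
      exact mul_dvd_mul (pv_self_dvd A) ((pv_self_dvd c).trans h1)
    rw [pv_dvd hr (mul_ne_zero hAe hzv0), pv_mul hr hAe hzv0] at h3
    rw [pv_dvd hr hAe]
    omega
  -- the powers of `r` in `a'`
  have ha'v : (r : ℤ) ^ (γ - α) ∣ a' := by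
    have h1 := (pv_self_dvd (p := r) c).trans h.c_dvd
    rw [pv_dvd hr (mul_ne_zero ha'0 hA0), pv_mul hr ha'0 hA0] at h1
    rw [pv_dvd hr ha'0]
    omega
  -- it is enough to divide `B + a' - A₁`
  have fin1 : (r : ℤ) ^ (γ - α) ∣ B + a' - A1 → (r : ℤ) ^ k ∣ A * (B - A1) := by
    intro h1
    have h2 : (r : ℤ) ^ (γ - α) ∣ B - A1 := by
      have := dvd_sub h1 ha'v
      have e1 : B + a' - A1 - a' = B - A1 := by ring
      rwa [e1] at this
    have h3 : (r : ℤ) ^ (α + (γ - α)) ∣ A * (B - A1) := by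
      rw [pow_add]; exact mul_dvd_mul (pv_self_dvd A) h2
    exact (pow_dvd_pow _ (by omega)).trans h3
  have hrBa : ¬ (r : ℤ) ∣ B + a' := by
    intro h1
    apply hrB
    have := dvd_sub h1 hra'
    simpa using this
  by_cases hrA : (r : ℤ) ∣ A
  · -- `r ∣ A`
    have hna := h.na hr hrA hra'
    have hα1 : 1 ≤ α := pv_pos hr hA0 hrA
    -- `b` is a unit
    have hrb : ¬ (r : ℤ) ∣ b := by
      intro hb
      have hn1 : ¬ (r : ℤ) ∣ a - b := by
        intro h1
        apply hna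
        have := dvd_add h1 hb
        simpa using this
      have h1 : ∀ z ∈ lat (l - S.v) (p + τ • S.v), (r : ℤ) ^ 1 ∣ cr w1 z := by
        intro z hz
        have h2 := h.rht r hr hrB 1 (by simpa using hb) z hz
        exact pow_dvd_of_mul hr h2 hrBa
      have h2 := h.area1'.dvd_all hr hn1 h1 z0
      rw [pow_one, cr_swap w1 z0, hz1, neg_neg] at h2
      exact hrB h2
    have hrA1 : ¬ (r : ℤ) ∣ A1 := by
      rw [hA1e]
      intro h1
      apply hrb
      have := dvd_sub h1 hrA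
      simpa using this
    have hvA1 : padicValInt r A1 = 0 := pv_zero hr hrA1
    have hvb : padicValInt r b = 0 := pv_zero hr hrb
    -- `v (a - b) = v (e - A) - α`
    have heA : e - A ≠ 0 := by
      intro h0
      rw [h0, mul_zero] at har
      rcases mul_eq_zero.1 har with h1 | h1
      · exact hA0 h1
      · exact ha10 h1
    have hva : α + padicValInt r (a - b) = padicValInt r (e - A) := by
      have := congrArg (padicValInt r) har
      rw [pv_mul hr hA0 ha10, pv_mul hr hb0 heA, hvb] at this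
      omega
    -- the loop with exponent `π`
    have loop : ∀ π : ℕ, (∀ k : ℕ, (r : ℤ) ^ k ∣ (a - b) →
        ∀ z ∈ lat (l - S.v) (p + τ • S.v), ∀ z' ∈ lat (l - S.v) (p + τ • S.v),
          (r : ℤ) ^ k ∣ (r : ℤ) ^ π * ((B + a') * (cr w1 z * cr w1 z'))) →
        (r : ℤ) ^ γ ∣ (r : ℤ) ^ π * (w0 * (B + a' - A1)) := by
      intro π h1
      refine h.e3 r hr hrB π (fun k hk z hz z' hz' => h1 k ?_ z hz z' hz') γ ?_
      · exact pow_dvd_of_mul hr hk hrA1
      · exact (pv_self_dvd c).mul_right _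
    -- from the loop
    have fin2 : ∀ π : ℕ, (r : ℤ) ^ γ ∣ (r : ℤ) ^ π * (w0 * (B + a' - A1)) → π + ω ≤ α →
        (r : ℤ) ^ (γ - α) ∣ B + a' - A1 := by
      intro π h1 h2
      rcases eq_or_ne (B + a' - A1) 0 with h0 | h0
      · rw [h0]; exact dvd_zero _
      have hr0 : (r : ℤ) ^ π ≠ 0 := pow_ne_zero _ hrp.ne_zero
      rw [pv_dvd hr (mul_ne_zero hr0 (mul_ne_zero hw00 h0)), pv_mul hr hr0 (mul_ne_zero hw00 h0),
        pv_mul hr hw00 h0] at h1
      have h3 : padicValInt r ((r : ℤ) ^ π) = π := by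
        have h4 : π ≤ padicValInt r ((r : ℤ) ^ π) := (pv_dvd hr hr0).1 dvd_rfl
        have h5 : ¬ π + 1 ≤ padicValInt r ((r : ℤ) ^ π) := by
          intro h6
          have h7 := (pv_dvd hr hr0).2 h6
          rw [pow_succ] at h7
          have h8 : (r : ℤ) ∣ 1 := by
            obtain ⟨t, ht⟩ := h7
            refine ⟨t, ?_⟩
            have h9 : (r : ℤ) ^ π * (1 - r * t) = 0 := by linear_combination ht
            rcases mul_eq_zero.1 h9 with h | h
            · exact absurd h hr0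
            · linarith
          exact hrp.not_isUnit (isUnit_of_dvd_one h8)
        omega
      rw [h3] at h1
      rw [pv_dvd hr h0]
      omega
    have hAe : A + e ≠ 0 := by
      have := h.ad.hA; have := h.ad.h2; omega
    -- odd primes
    by_cases hr2 : r = 2
    · subst hr2
      -- `v (e - A)`
      by_cases hγα : γ = α + 1
      · -- parity
        left
        have hoB : Odd B := by
          rw [← Int.not_even_iff_odd, even_iff_two_dvd]; exact_mod_cast hrB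
        have hoA1 : Odd A1 := by
          rw [← Int.not_even_iff_odd, even_iff_two_dvd]; exact_mod_cast hrA1
        have hev : ((2 : ℕ) : ℤ) ∣ B - A1 := by
          have := hoB.sub_odd hoA1
          exact_mod_cast even_iff_two_dvd.1 this
        have h3 : ((2 : ℕ) : ℤ) ^ (α + 1) ∣ A * (B - A1) := by
          rw [pow_succ]; exact mul_dvd_mul (pv_self_dvd A) hev
        exact (pow_dvd_pow _ (by omega)).trans h3
      · have hγ2 : α + 2 ≤ γ := by omega
        -- `v (e - A) = α + 1`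
        have hv1 : padicValInt 2 (e - A) = α + 1 := by
          have h1 : ((2 : ℕ) : ℤ) ^ (α + 2) ∣ A + e := (pow_dvd_pow _ (by omega)).trans hrv
          have h2 : ((2 : ℕ) : ℤ) ^ (α + 1) ∣ e - A := by
            have e1 : e - A = (A + e) - 2 * A := by ring
            rw [e1]
            refine dvd_sub ((pow_dvd_pow _ (by omega)).trans h1) ?_
            rw [pow_succ, mul_comm]
            exact mul_dvd_mul (by norm_num) (pv_self_dvd A)
          have h3 : ¬ ((2 : ℕ) : ℤ) ^ (α + 2) ∣ e - A := by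
            intro h4
            have h5 : ((2 : ℕ) : ℤ) ^ (α + 2) ∣ 2 * A := by
              have e1 : 2 * A = (A + e) - (e - A) := by ring
              rw [e1]; exact dvd_sub h1 h4
            rw [pv_dvd hr (mul_ne_zero two_ne_zero hA0), pv_mul hr two_ne_zero hA0] at h5
            have h6 : padicValInt 2 (2 : ℤ) = 1 := by
              have := Fact.mk hr
              exact_mod_cast padicValInt_self
            omega
          rw [pv_dvd hr heA] at h2 h3
          omega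
        have hva1 : padicValInt 2 (a - b) = 1 := by omega
        by_cases hωα : ω < α
        · left
          apply fin1
          refine fin2 1 (loop 1 ?_) (by omega)
          intro k hk z _ z' _
          have hk1 : k ≤ 1 := by
            have := (pv_dvd hr ha10).1 hk
            omega
          exact (pow_dvd_pow _ hk1).mul_right _
        · -- `ω = α`: `u` is even
          have hωe : ω = α := by omega
          right
          refine ⟨rfl, ?_, ?_, α, ?_, ?_⟩
          · -- the loop with `π = 1`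
            have h1 := loop 1 (by
              intro k hk z _ z' _
              have hk1 : k ≤ 1 := by
                have := (pv_dvd hr ha10).1 hk
                omega
              exact (pow_dvd_pow _ hk1).mul_right _)
            rcases eq_or_ne (B - A1) 0 with h0 | h0
            · rw [h0]; simp
            -- `2 ^ (γ - 1 - α) ∣ B + a' - A₁`
            have h2 : ((2 : ℕ) : ℤ) ^ (γ - 1 - α) ∣ B + a' - A1 := by
              rcases eq_or_ne (B + a' - A1) 0 with h0 | h0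
              · rw [h0]; exact dvd_zero _
              rw [pow_one, pv_dvd hr (mul_ne_zero (by norm_num) (mul_ne_zero hw00 h0)),
                pv_mul hr (by norm_num) (mul_ne_zero hw00 h0), pv_mul hr hw00 h0] at h1
              have h6 : padicValInt 2 (((2 : ℕ) : ℤ)) = 1 := by
                have := Fact.mk hr
                exact padicValInt_self
              rw [pv_dvd hr h0]
              omega
            have h3 : ((2 : ℕ) : ℤ) ^ (γ - 1 - α) ∣ B - A1 := by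
              have h4 : ((2 : ℕ) : ℤ) ^ (γ - 1 - α) ∣ a' := (pow_dvd_pow _ (by omega)).trans ha'v
              have := dvd_sub h2 h4
              have e1 : B + a' - A1 - a' = B - A1 := by ring
              rwa [e1] at this
            have h4 : ((2 : ℕ) : ℤ) ^ (1 + (α + (γ - 1 - α))) ∣ 2 * (A * (B - A1)) := by
              rw [pow_add, pow_add, pow_one]
              exact mul_dvd_mul (by norm_num) (mul_dvd_mul (pv_self_dvd A) h3)
            exact (pow_dvd_pow _ (by omega)).trans h4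
          · -- `u` is even
            have hve : (2 : ℤ) ∣ e := by
              have h1 : ((2 : ℕ) : ℤ) ^ 1 ∣ A + e := (pow_dvd_pow _ (by omega)).trans hrv
              have h2 := dvd_sub h1 (by simpa using hrA : ((2 : ℕ) : ℤ) ^ 1 ∣ A)
              have e1 : A + e - A = e := by ring
              rw [e1] at h2
              exact_mod_cast h2
            have hvf : (2 : ℤ) ∣ cr S.u p := by
              have h1 : ((2 : ℕ) : ℤ) ^ 1 ∣ w0 := (pv_dvd hr hw00).2 (by omega)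
              have h2 := h.w0_eq
              have e1 : cr S.u p = w0 - q * A - τ * e := by
                rw [hw0def, h2]; ring
              rw [e1]
              have h3 : (2 : ℤ) ∣ w0 := by exact_mod_cast (by simpa using h1)
              have h4 : (2 : ℤ) ∣ A := by exact_mod_cast hrA
              exact dvd_sub (dvd_sub h3 (h4.mul_left _)) (hve.mul_left _)
            intro z
            have h1 : ∀ z ∈ S.L, ((2 : ℕ) : ℤ) ^ 1 ∣ cr S.u z := by
              intro z hz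
              rw [h.ad.hL] at hz
              obtain ⟨m, n, rfl⟩ := mem_lat.1 hz
              rw [cr_add_right, cr_smul_right, cr_smul_right, pow_one]
              exact_mod_cast dvd_add (hve.mul_left _) (hvf.mul_left _)
            have h2 := h.ad.isArea.dvd_all hr hna h1 z
            simpa using h2
          · have h1 := (pv_dvd hr hc0).2 hγ2
            exact_mod_cast h1
          · intro h1
            have h2 := (pv_dvd hr hA0 (k := α + 1)).1 (by exact_mod_cast h1)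
            omega
    · -- `r` odd
      left
      apply fin1
      have hv1 : padicValInt r (e - A) = α := by
        have h1 : (r : ℤ) ^ (α + 1) ∣ A + e := (pow_dvd_pow _ (by omega)).trans hrv
        have h2 : (r : ℤ) ^ α ∣ e - A := by
          have e1 : e - A = (A + e) - 2 * A := by ring
          rw [e1]
          exact dvd_sub ((pow_dvd_pow _ (by omega)).trans h1) ((pv_self_dvd A).mul_left _)
        have h3 : ¬ (r : ℤ) ^ (α + 1) ∣ e - A := by
          intro h4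
          have h5 : (r : ℤ) ^ (α + 1) ∣ 2 * A := by
            have e1 : 2 * A = (A + e) - (e - A) := by ring
            rw [e1]; exact dvd_sub h1 h4
          have h6 : ¬ (r : ℤ) ∣ 2 := by
            intro h7
            have h8 : r ∣ 2 := by exact_mod_cast h7
            exact hr2 ((Nat.prime_dvd_prime_iff_eq hr Nat.prime_two).1 h8)
          have h7 := pow_dvd_of_mul hr h5 h6
          rw [pv_dvd hr hA0] at h7
          omega
        rw [pv_dvd hr heA] at h2 h3
        omega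
      have hva0 : padicValInt r (a - b) = 0 := by omega
      refine fin2 0 (loop 0 ?_) (by omega)
      intro k hk z _ z' _
      have hk1 : k = 0 := by
        have := (pv_dvd hr ha10).1 hk
        omega
      rw [hk1, pow_zero]; exact one_dvd _
  · -- `r ∤ A`
    have hα0 : α = 0 := pv_zero hr hrA
    have hω0 : ω = 0 := by omega
    have hrw0 : ¬ (r : ℤ) ∣ w0 := by
      intro h1
      have := pv_pos hr hw00 h1
      omega
    have hγ1 : 1 ≤ γ := pv_pos hr hc0 hrc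
    left
    -- `A₁` is a unit
    have hrA1 : ¬ (r : ℤ) ∣ A1 := by
      intro h1
      have h2 := h.na1 hr h1 hra'
      have h3 : padicValInt r (a - b) = 0 := pv_zero hr h2
      have h4 := h.e3 r hr hrB (padicValInt r A1) (by
        intro k hk z _ z' _
        have h5 := (pv_dvd hr (mul_ne_zero hA10 ha10)).1 hk
        rw [pv_mul hr hA10 ha10] at h5
        exact (pow_dvd_pow _ (by omega)).mul_right _) (padicValInt r A1 + 1) (by
        rw [pow_succ, mul_comm]
        exact mul_dvd_mul hrc (pv_self_dvd A1))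
      have h5 : (r : ℤ) ^ (padicValInt r A1) * (r : ℤ) ∣
          (r : ℤ) ^ (padicValInt r A1) * (w0 * (B + a' - A1)) := by
        rw [← pow_succ]; exact h4
      have h6 := (mul_dvd_mul_iff_left (pow_ne_zero _ hrp.ne_zero)).1 h5
      have h7 := p_dvd_mul hr h6 hrw0
      apply hrBa
      have := dvd_add h7 h1
      simpa using this
    have hrt : ∀ k : ℕ, (r : ℤ) ^ k ∣ b → ∀ z ∈ lat (l - S.v) (p + τ • S.v),
        (r : ℤ) ^ k ∣ cr w1 z := by
      intro k hk z hz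
      exact pow_dvd_of_mul hr (h.rht r hr hrB k hk z hz) hrBa
    have hrv1 : (r : ℤ) ^ γ ∣ A + e := by
      have := hrv
      rwa [hω0, add_zero] at this
    -- the loop with `π = 0`
    have loop : (∀ k : ℕ, (r : ℤ) ^ k ∣ (a - b) →
        ∀ z ∈ lat (l - S.v) (p + τ • S.v), ∀ z' ∈ lat (l - S.v) (p + τ • S.v),
          (r : ℤ) ^ k ∣ cr w1 z * cr w1 z') → (r : ℤ) ^ (γ - α) ∣ B + a' - A1 := by
      intro h1
      have h2 := h.e3 r hr hrB 0 (fun k hk z hz z' hz' => by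
        rw [pow_zero, one_mul]
        exact (h1 k (pow_dvd_of_mul hr hk hrA1) z hz z' hz').mul_left _) γ
        ((pv_self_dvd c).mul_right _)
      rw [pow_zero, one_mul] at h2
      rw [hα0, Nat.sub_zero]
      exact pow_dvd_of_mul hr h2 hrw0
    by_cases hr2 : r = 2
    · subst hr2
      have hoA : Odd A := by
        rw [← Int.not_even_iff_odd, even_iff_two_dvd]; exact_mod_cast hrA
      have hoA1 : Odd A1 := by
        rw [← Int.not_even_iff_odd, even_iff_two_dvd]; exact_mod_cast hrA1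
      have hoB : Odd B := by
        rw [← Int.not_even_iff_odd, even_iff_two_dvd]; exact_mod_cast hrB
      by_cases hγ2 : γ = 1
      · have hev : ((2 : ℕ) : ℤ) ∣ B - A1 := by
          have := hoB.sub_odd hoA1
          exact_mod_cast even_iff_two_dvd.1 this
        have hk1 : k ≤ 1 := by omega
        refine (pow_dvd_pow _ hk1).trans ?_
        rw [pow_one]
        exact hev.mul_left _
      · apply fin1
        apply loop
        have h4 : (4 : ℤ) ∣ A + e := by
          have h1 : ((2 : ℕ) : ℤ) ^ 2 ∣ A + e := (pow_dvd_pow _ (by omega)).trans hrv1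
          norm_num at h1
          exact h1
        have heA2 : (2 : ℤ) ∣ e - A := by
          obtain ⟨t, ht⟩ := h4
          exact ⟨2 * t - A, by linarith⟩
        have heA4 : ¬ (4 : ℤ) ∣ e - A := by
          intro h5
          obtain ⟨t, ht⟩ := h4
          obtain ⟨s, hs⟩ := h5
          obtain ⟨x, hx⟩ := hoA
          omega
        have heA0 : e - A ≠ 0 := by
          intro h0; apply heA4; rw [h0]; exact dvd_zero _
        have hb2 : (2 : ℤ) ∣ b := by
          have e1 : b = A1 - A := by rw [hA1e]; ring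
          rw [e1]
          exact even_iff_two_dvd.1 (hoA1.sub_odd hoA)
        have hab2 : (2 : ℤ) ∣ a - b := by
          have h5 : (2 : ℤ) ∣ A * (a - b) := by rw [har]; exact hb2.mul_right _
          rcases Int.prime_two.dvd_or_dvd h5 with h6 | h6
          · exact absurd (by exact_mod_cast h6) hrA
          · exact h6
        -- all products with `u₁` are even
        have hg1 : (2 : ℤ) ∣ cr w1 (l - S.v) := by
          rw [h.cr1]; exact dvd_add heA2 hab2
        have hg2 : (2 : ℤ) ∣ cr w1 (p + τ • S.v) := by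
          have hoq : Odd q := by
            rw [← Int.not_even_iff_odd, even_iff_two_dvd]; exact h.hq
          have how : Odd w0 := by
            rw [← Int.not_even_iff_odd, even_iff_two_dvd]; exact_mod_cast hrw0
          have h5 : cr w1 (p + τ • S.v) = (w0 - q * A) - τ * (e - A) - q * b - τ * (a - b) := by
            rw [h.cr2, hw0def, h.w0_eq]; ring
          rw [h5]
          have h6 : (2 : ℤ) ∣ w0 - q * A := even_iff_two_dvd.1 (how.sub_odd (hoq.mul hoA))
          exact dvd_sub (dvd_sub (dvd_sub h6 (heA2.mul_left _)) (hb2.mul_left _))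
            (hab2.mul_left _)
        have hall : ∀ z ∈ lat (l - S.v) (p + τ • S.v), (2 : ℤ) ∣ cr w1 z := by
          intro z hz
          obtain ⟨m, n, rfl⟩ := mem_lat.1 hz
          rw [cr_add_right, cr_smul_right, cr_smul_right]
          exact dvd_add (hg1.mul_left _) (hg2.mul_left _)
        intro k hk z hz z' hz'
        rcases Nat.eq_zero_or_pos k with hk0 | hk0
        · rw [hk0, pow_zero]; exact one_dvd _
        have hkb : ((2 : ℕ) : ℤ) ^ (k - 1) ∣ b := by
          have h5 : ((2 : ℕ) : ℤ) ^ k ∣ b * (e - A) := by rw [← har]; exact hk.mul_left _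
          rw [pv_dvd hr (mul_ne_zero hb0 heA0), pv_mul hr hb0 heA0] at h5
          have h6 : padicValInt 2 (e - A) < 2 := by
            by_contra hn
            push Not at hn
            have h7 := (pv_dvd hr heA0 (k := 2)).2 hn
            norm_num at h7
            exact heA4 h7
          rw [pv_dvd hr hb0]
          omega
        have h5 := hrt (k - 1) hkb z hz
        have h6 : k = (k - 1) + 1 := by omega
        rw [h6, pow_succ]
        exact mul_dvd_mul h5 (by exact_mod_cast hall z' hz')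
    · apply fin1
      apply loop
      intro k hk z hz z' _
      have h2 : ¬ (r : ℤ) ∣ e - A := by
        intro h3
        have h4 : (r : ℤ) ∣ 2 * A := by
          have h5 : (r : ℤ) ∣ A + e := (dvd_pow_self _ (by omega)).trans hrv1
          have e1 : 2 * A = (A + e) - (e - A) := by ring
          rw [e1]; exact dvd_sub h5 h3
        rcases hrp.dvd_or_dvd h4 with h6 | h6
        · have h8 : r ∣ 2 := by exact_mod_cast h6
          exact hr2 ((Nat.prime_dvd_prime_iff_eq hr Nat.prime_two).1 h8)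
        · exact hrA h6
      have h3 : (r : ℤ) ^ k ∣ (e - A) * b := by rw [mul_comm, ← har]; exact hk.mul_left _
      exact (hrt k (pow_dvd_of_mul hr h3 h2) z hz).mul_right _

/-- F2 at `r` -/
theorem f2_loc (h : Pair N S l p l' p' w1 q τ B) {r : ℕ} (hr : r.Prime)
    (hW : (r : ℤ) ∣ cr S.u p' → (r : ℤ) ∣ cr l' p' → ¬ (r : ℤ) ∣ B)
    (hS : ¬ (r : ℤ) ∣ cr S.u p' → ¬ (r : ℤ) ∣ cr S.u S.v → (r : ℤ) ∣ B → (r : ℤ) ∣ cr l' p' →
      ∀ k : ℕ, (r : ℤ) ^ k ∣ cr p l → ∀ z ∈ S.L, ∀ z' ∈ S.L, (r : ℤ) ^ k ∣ cr S.u z * cr S.u z')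
    {j : ℕ} (hj : (r : ℤ) ^ j ∣ B) (hj1 : ¬ (r : ℤ) ^ j ∣ cr w1 S.v) :
    ¬ (r : ℤ) ∣ cr S.u S.v ∧ ¬ (r : ℤ) ∣ cr S.u p' ∧
      ∀ i : ℕ, (r : ℤ) ^ (i + padicValInt r (cr w1 S.v)) ∣ B → (r : ℤ) ^ i ∣ cr S.u p' - cr S.u S.v := by
  have hrp := Nat.prime_iff_prime_int.1 hr
  set A := cr S.u S.v with hAdef
  set c := cr S.u p' with hcdef
  set b := cr p S.v with hbdef
  set a := cr p l with hadef
  set a' := cr l' p' with ha'def
  set A1 := cr w1 S.v with hA1def
  set w0 := cr S.u w1 with hw0def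
  have hA0 : A ≠ 0 := h.ad.hA.ne'
  have hB0 : B ≠ 0 := h.Bpos.ne'
  have hc0 : c ≠ 0 := h.ad.h6.ne'
  have ha0 : a ≠ 0 := h.ad.pos.ne'
  have ha'0 : a' ≠ 0 := h.ad.pos'.ne'
  have hA10 : A1 ≠ 0 := h.A10.ne'
  have hw00 : w0 ≠ 0 := h.hw0
  have hA1e : A1 = A + b := h.hA1
  set β := padicValInt r B with hβ
  set δ := padicValInt r A1 with hδ
  have hjβ : j ≤ β := (pv_dvd hr hB0).1 hj
  have hδj : δ < j := by
    by_contra hn
    exact hj1 ((pv_dvd hr hA10).2 (by omega))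
  have hrB : (r : ℤ) ∣ B := (dvd_pow_self _ (by omega)).trans hj
  have hra' : (r : ℤ) ∣ a' := by
    by_contra hn
    apply hj1
    have h1 := h.ad.isArea'.dvd_all hr hn (k := j) (u := w1)
      (fun z hz => hj.trans (h.hB.2.1 z hz)) S.v
    exact h1
  have hrc : ¬ (r : ℤ) ∣ c := fun h1 => hW h1 hra' hrB
  have hrca : ¬ (r : ℤ) ∣ c + a' := by
    intro h1
    apply hrc
    have := dvd_sub h1 hra'
    simpa using this
  have hrA : ¬ (r : ℤ) ∣ A := by
    intro hrA
    have hna := h.na hr hrA hra'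
    have hrb : ¬ (r : ℤ) ∣ b := by
      intro hb
      have h1 : ∀ z ∈ S.L, (r : ℤ) ^ 1 ∣ cr S.u z := by
        intro z hz
        exact pow_dvd_of_mul hr (h.rh r hr hrc 1 (by simpa using hb) z hz) hrca
      have h2 := h.ad.isArea.dvd_all hr hna h1 p'
      rw [pow_one] at h2
      exact hrc h2
    have hrA1 : ¬ (r : ℤ) ∣ A1 := by
      rw [hA1e]
      intro h1
      apply hrb
      have := dvd_sub h1 hrA
      simpa using this
    have hrw0 : ¬ (r : ℤ) ∣ w0 := by
      intro h1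
      have h2 := key (S := S) (w1 := w1) p'
      have h3 : (r : ℤ) ∣ cr p' S.u * A1 := by
        have e1 : cr p' S.u * A1 = A * cr p' w1 - cr p' S.v * w0 := by linear_combination -h2
        rw [e1]
        exact dvd_sub (hrA.mul_right _) (h1.mul_left _)
      rcases hrp.dvd_or_dvd h3 with h4 | h4
      · rw [cr_swap p' S.u, dvd_neg] at h4
        exact hrc h4
      · exact hrA1 h4
    have h4 := h.e4 r hr hrc (padicValInt r A) (by
      intro k hk z _ z' _
      have h5 := (pv_dvd hr (mul_ne_zero hA0 ha0)).1 hk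
      rw [pv_mul hr hA0 ha0] at h5
      have h6 : padicValInt r a = 0 := pv_zero hr hna
      exact (pow_dvd_pow _ (by omega)).mul_right _) (padicValInt r A + 1) (by
      rw [pow_succ, mul_comm]
      exact mul_dvd_mul hrB (pv_self_dvd A))
    have h5 : (r : ℤ) ^ (padicValInt r A) * (r : ℤ) ∣
        (r : ℤ) ^ (padicValInt r A) * (w0 * (c + a' - A)) := by
      rw [← pow_succ]; exact h4
    have h6 := (mul_dvd_mul_iff_left (pow_ne_zero _ hrp.ne_zero)).1 h5
    have h7 := p_dvd_mul hr h6 hrw0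
    apply hrca
    have := dvd_add h7 hrA
    simpa using this
  refine ⟨hrA, hrc, ?_⟩
  -- `v (w₀) ≤ δ`
  have hzw : ¬ (r : ℤ) ^ (δ + 1) ∣ w0 := by
    intro h1
    have h2 := key (S := S) (w1 := w1) p'
    have h3 : (r : ℤ) ^ (δ + 1) ∣ cr p' S.u * A1 := by
      have e1 : cr p' S.u * A1 = A * cr p' w1 - cr p' S.v * w0 := by linear_combination -h2
      rw [e1]
      refine dvd_sub (Dvd.dvd.mul_left ?_ _) (h1.mul_left _)
      have h4 : (r : ℤ) ^ (δ + 1) ∣ B := (pv_dvd hr hB0).2 (by omega)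
      have h5 := h4.trans (h.hB.2.1 p' (by rw [h.ad.hL']; exact mem_lat.2 ⟨0, 1, by module⟩))
      rw [cr_swap p' w1]; exact (dvd_neg).2 h5
    have h4 : ¬ (r : ℤ) ∣ cr p' S.u := by
      rw [cr_swap p' S.u, dvd_neg]; exact hrc
    have h5 := pow_dvd_of_mul hr h3 h4
    rw [pv_dvd hr hA10] at h5
    omega
  have hw0δ : padicValInt r w0 ≤ δ := by
    by_contra hn
    exact hzw ((pv_dvd hr hw00).2 (by omega))
  -- the loop
  have h4 := h.e4 r hr hrc 0 (by
    intro k hk z hz z' hz'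
    rw [pow_zero, one_mul]
    exact (hS hrc hrA hrB hra' k (pow_dvd_of_mul hr hk hrA) z hz z' hz').mul_left _) β
    ((pv_self_dvd B).mul_right _)
  rw [pow_zero, one_mul] at h4
  -- the powers of `r` in `a'`
  have ha'v : (r : ℤ) ^ (β - δ) ∣ a' := by
    have h1 : (r : ℤ) ^ β ∣ cr l' S.v * w0 := by
      have h2 := key (S := S) (w1 := w1) l'
      have h3 : cr l' S.u = 0 := by rw [cr_swap l' S.u, h.ad.h4, neg_zero]
      rw [h3, zero_mul, add_zero] at h2
      rw [← h2]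
      refine Dvd.dvd.mul_left ?_ _
      have h5 := (pv_self_dvd (p := r) B).trans
        (h.hB.2.1 l' (by rw [h.ad.hL']; exact mem_lat.2 ⟨1, 0, by module⟩))
      rw [cr_swap l' w1]; exact (dvd_neg).2 h5
    have he'0 : cr l' S.v ≠ 0 := h.ad.h5.ne'
    rw [pv_dvd hr (mul_ne_zero he'0 hw00), pv_mul hr he'0 hw00] at h1
    have h2 : (r : ℤ) ^ (β - δ) ∣ cr l' S.v := (pv_dvd hr he'0).2 (by omega)
    have h3 := h.ad.area'
    have h5 : (r : ℤ) ^ (β - δ) ∣ A * a' := by
      rw [mul_comm A a', h3]; exact h2.mul_right _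
    exact pow_dvd_of_mul hr h5 hrA
  intro i hi
  have hi2 : i + δ ≤ β := (pv_dvd hr hB0).1 hi
  have h5 : (r : ℤ) ^ (β - δ) ∣ c + a' - A := by
    rcases eq_or_ne (c + a' - A) 0 with h0 | h0
    · rw [h0]; exact dvd_zero _
    rw [pv_dvd hr (mul_ne_zero hw00 h0), pv_mul hr hw00 h0] at h4
    rw [pv_dvd hr h0]; omega
  have h6 := dvd_sub h5 ha'v
  have e1 : c + a' - A - a' = c - A := by ring
  rw [e1] at h6
  exact (pow_dvd_pow _ (by omega)).trans h6

/-- F1 -/
theorem f1 (h : Pair N S l p l' p' w1 q τ B)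
    (hW : ∀ r : ℕ, r.Prime → (r : ℤ) ∣ cr S.u p' → (r : ℤ) ∣ cr l' p' → ¬ (r : ℤ) ∣ B)
    (hD : ¬ ((∀ z, (2 : ℤ) ∣ cr S.u z) ∧
      ∃ j : ℕ, (2 : ℤ) ^ (j + 2) ∣ cr S.u p' ∧ ¬ (2 : ℤ) ^ (j + 1) ∣ cr S.u S.v)) :
    cr S.u p' ∣ cr S.u S.v * (B - cr w1 S.v) := by
  refine dvd_of_primes fun r hr k hk => ?_
  rcases h.f1_loc hr (hW r hr) hk with h1 | ⟨-, -, h1⟩
  · exact h1
  · exact absurd h1 hD

/-- F1 with the defect -/
theorem f1d (h : Pair N S l p l' p' w1 q τ B)
    (hW : ∀ r : ℕ, r.Prime → (r : ℤ) ∣ cr S.u p' → (r : ℤ) ∣ cr l' p' → ¬ (r : ℤ) ∣ B) :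
    cr S.u p' ∣ 2 * (cr S.u S.v * (B - cr w1 S.v)) := by
  refine dvd_of_primes fun r hr k hk => ?_
  rcases h.f1_loc hr (hW r hr) hk with h1 | ⟨-, h1, -⟩
  · exact h1.mul_left _
  · exact h1

/-- the integers of the finish -/
theorem fin_aux (h : Pair N S l p l' p' w1 q τ B)
    (hW : ∀ r : ℕ, r.Prime → (r : ℤ) ∣ cr S.u p' → (r : ℤ) ∣ cr l' p' → ¬ (r : ℤ) ∣ B)
    (hS : ∀ r : ℕ, r.Prime → ¬ (r : ℤ) ∣ cr S.u p' → ¬ (r : ℤ) ∣ cr S.u S.v → (r : ℤ) ∣ B →
      (r : ℤ) ∣ cr l' p' →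
      ∀ k : ℕ, (r : ℤ) ^ k ∣ cr p l → ∀ z ∈ S.L, ∀ z' ∈ S.L, (r : ℤ) ^ k ∣ cr S.u z * cr S.u z') :
    ∃ g c1 Aa G Z k : ℤ, 0 < g ∧ 0 < G ∧ cr S.u p' = g * c1 ∧ cr S.u S.v = g * Aa ∧
      B = G * Z ∧ cr w1 S.v = G * k ∧ 0 < c1 ∧ 0 < Aa ∧ 0 < Z ∧ 0 < k ∧ IsCoprime c1 Aa ∧
      IsCoprime c1 G ∧ IsCoprime Z k ∧ Z ∣ c1 - Aa := by
  have hc := h.ad.h6
  have hA := h.ad.hA
  have hB := h.Bpos
  have hA1 := h.A10
  obtain ⟨g, c1, Aa, hg, hco, e1, e2⟩ := Int.exists_gcd_one' (m := cr S.u p') (n := cr S.u S.v)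
    (Int.gcd_pos_of_ne_zero_left _ hc.ne')
  obtain ⟨G, Z, k, hG, hco2, e3, e4⟩ := Int.exists_gcd_one' (m := B) (n := cr w1 S.v)
    (Int.gcd_pos_of_ne_zero_left _ hB.ne')
  have hg' : (0 : ℤ) < g := by exact_mod_cast hg
  have hG' : (0 : ℤ) < G := by exact_mod_cast hG
  have pos : ∀ {x y z : ℤ}, 0 < x → x = y * z → 0 < z → 0 < y := by
    intro x y z hx hxy hz
    rw [hxy] at hx
    exact (mul_pos_iff_of_pos_right hz).1 hx
  have hc1 : 0 < c1 := pos hc e1 hg'
  have hAa : 0 < Aa := pos hA e2 hg'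
  have hZ : 0 < Z := pos hB e3 hG'
  have hk : 0 < k := pos hA1 e4 hG'
  have hcoc := (Int.isCoprime_iff_gcd_eq_one (m := c1) (n := Aa)).2 hco
  have hcoZ := (Int.isCoprime_iff_gcd_eq_one (m := Z) (n := k)).2 hco2
  have hcG : IsCoprime c1 (G : ℤ) := by
    refine (isCoprime_of_prime fun r hr h1 h2 => ?_).symm
    -- `r ∣ c₁`, `r ∣ G`
    have hrB : (r : ℤ) ∣ B := by rw [e3]; exact h2.mul_left _
    have hrc : (r : ℤ) ∣ cr S.u p' := by rw [e1]; exact h1.mul_right _
    by_cases hra : (r : ℤ) ∣ cr l' p'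
    · exact hW r hr hrc hra hrB
    · have hα : padicValInt r (cr S.u p') = padicValInt r c1 + padicValInt r (g : ℤ) := by
        rw [e1, pv_mul hr hc1.ne' hg'.ne']
      have h3 := h.full' hr hra (pv_self_dvd (cr S.u p'))
      rw [pv_dvd hr hA.ne', hα, e2, pv_mul hr hAa.ne' hg'.ne'] at h3
      have h4 : 1 ≤ padicValInt r c1 := pv_pos hr hc1.ne' h1
      have h5 : (r : ℤ) ∣ Aa := by
        have := (pv_dvd hr hAa.ne' (k := 1)).2 (by omega)
        simpa using this
      exact not_dvd_of_isCoprime hcoc hr h5 h1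
  refine ⟨g, c1, Aa, G, Z, k, hg', hG', by rw [e1]; ring, by rw [e2]; ring, by rw [e3]; ring,
    by rw [e4]; ring, hc1, hAa, hZ, hk, hcoc, hcG, hcoZ, ?_⟩
  refine dvd_of_primes fun r hr j hj => ?_
  rcases Nat.eq_zero_or_pos j with hj0 | hj0
  · rw [hj0, pow_zero]; exact one_dvd _
  have hrZ : (r : ℤ) ∣ Z := (dvd_pow_self _ (by omega)).trans hj
  have hrk : ¬ (r : ℤ) ∣ k := fun h1 => not_dvd_of_isCoprime hcoZ hr h1 hrZ
  have hvA1 : padicValInt r (cr w1 S.v) = padicValInt r (G : ℤ) := by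
    rw [e4, pv_mul hr hk.ne' hG'.ne', pv_zero hr hrk, zero_add]
  have hvB : padicValInt r B = padicValInt r Z + padicValInt r (G : ℤ) := by
    rw [e3, pv_mul hr hZ.ne' hG'.ne']
  have hvZ : j ≤ padicValInt r Z := (pv_dvd hr hZ.ne').1 hj
  obtain ⟨f1, f2, f3⟩ := h.f2_loc hr (hW r hr) (hS r hr) (j := padicValInt r B)
    (pv_self_dvd B) (by
      intro h1
      rw [pv_dvd hr hA1.ne'] at h1
      omega)
  have f4 := f3 j (by rw [pv_dvd hr hB.ne']; omega)
  have e5 : cr S.u p' - cr S.u S.v = g * (c1 - Aa) := by rw [e1, e2]; ring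
  rw [e5] at f4
  refine pow_dvd_of_mul hr f4 fun h1 => f1 ?_
  rw [e2]; exact h1.mul_left _

/-- FINISH -/
theorem fin (h : Pair N S l p l' p' w1 q τ B)
    (hW : ∀ r : ℕ, r.Prime → (r : ℤ) ∣ cr S.u p' → (r : ℤ) ∣ cr l' p' → ¬ (r : ℤ) ∣ B)
    (hS : ∀ r : ℕ, r.Prime → ¬ (r : ℤ) ∣ cr S.u p' → ¬ (r : ℤ) ∣ cr S.u S.v → (r : ℤ) ∣ B →
      (r : ℤ) ∣ cr l' p' →
      ∀ k : ℕ, (r : ℤ) ^ k ∣ cr p l → ∀ z ∈ S.L, ∀ z' ∈ S.L, (r : ℤ) ^ k ∣ cr S.u z * cr S.u z')
    (hD : ¬ ((∀ z, (2 : ℤ) ∣ cr S.u z) ∧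
      ∃ j : ℕ, (2 : ℤ) ^ (j + 2) ∣ cr S.u p' ∧ ¬ (2 : ℤ) ^ (j + 1) ∣ cr S.u S.v))
    (hcA : cr S.u S.v < cr S.u p') (hBA : cr w1 S.v ≤ B) : B = cr w1 S.v := by
  obtain ⟨g, c1, Aa, G, Z, k, hg, hG, e1, e2, e3, e4, hc1, hAa, hZ, hk, hco1, hco2, hco3, hZd⟩ :=
    h.fin_aux hW hS
  have hf1 := h.f1 hW hD
  have hlt : Aa < c1 := by
    rw [e1, e2] at hcA
    exact lt_of_mul_lt_mul_left hcA hg.le
  have hle : k ≤ Z := by
    have : G * k ≤ G * Z := by rw [← e3, ← e4]; exact hBA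
    exact le_of_mul_le_mul_left this hG
  have h1 : c1 ∣ Z - k := by
    have h2 : g * c1 ∣ g * (Aa * (G * (Z - k))) := by
      have e5 : g * (Aa * (G * (Z - k))) = cr S.u S.v * (B - cr w1 S.v) := by
        rw [e2, e3, e4]; ring
      rw [e5, ← e1]; exact hf1
    have h3 := (mul_dvd_mul_iff_left hg.ne').1 h2
    exact hco2.dvd_of_dvd_mul_left (hco1.dvd_of_dvd_mul_left h3)
  rcases lt_or_eq_of_le hle with h4 | h4
  · exfalso
    have h5 := Int.le_of_dvd (by linarith) h1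
    have h6 := Int.le_of_dvd (by linarith) hZd
    linarith
  · rw [e3, e4, h4]

/-- FINISH with the defect at `2` -/
theorem fin_d (h : Pair N S l p l' p' w1 q τ B)
    (hW : ∀ r : ℕ, r.Prime → (r : ℤ) ∣ cr S.u p' → (r : ℤ) ∣ cr l' p' → ¬ (r : ℤ) ∣ B)
    (hS : ∀ r : ℕ, r.Prime → ¬ (r : ℤ) ∣ cr S.u p' → ¬ (r : ℤ) ∣ cr S.u S.v → (r : ℤ) ∣ B →
      (r : ℤ) ∣ cr l' p' →
      ∀ k : ℕ, (r : ℤ) ^ k ∣ cr p l → ∀ z ∈ S.L, ∀ z' ∈ S.L, (r : ℤ) ^ k ∣ cr S.u z * cr S.u z')
    (hcA : cr S.u S.v < cr S.u p') (hBA : cr w1 S.v ≤ B) : B = cr w1 S.v ∨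
      B * (cr S.u p' - 2 * cr S.u S.v) = 2 * cr w1 S.v * (cr S.u p' - cr S.u S.v) := by
  obtain ⟨g, c1, Aa, G, Z, k, hg, hG, e1, e2, e3, e4, hc1, hAa, hZ, hk, hco1, hco2, hco3, hZd⟩ :=
    h.fin_aux hW hS
  have hf1 := h.f1d hW
  have hlt : Aa < c1 := by
    rw [e1, e2] at hcA
    exact lt_of_mul_lt_mul_left hcA hg.le
  have hle : k ≤ Z := by
    have : G * k ≤ G * Z := by rw [← e3, ← e4]; exact hBA
    exact le_of_mul_le_mul_left this hG
  have h1 : c1 ∣ 2 * (Z - k) := by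
    have h2 : g * c1 ∣ g * (Aa * (G * (2 * (Z - k)))) := by
      have e5 : g * (Aa * (G * (2 * (Z - k)))) = 2 * (cr S.u S.v * (B - cr w1 S.v)) := by
        rw [e2, e3, e4]; ring
      rw [e5, ← e1]; exact hf1
    have h3 := (mul_dvd_mul_iff_left hg.ne').1 h2
    exact hco2.dvd_of_dvd_mul_left (hco1.dvd_of_dvd_mul_left h3)
  rcases lt_or_eq_of_le hle with h4 | h4
  · right
    obtain ⟨s, hs⟩ := h1
    obtain ⟨t, ht⟩ := hZd
    have hs0 : 0 < s := by
      by_contra hn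
      push Not at hn
      have := mul_nonpos_of_nonneg_of_nonpos hc1.le hn
      linarith
    have ht0 : 0 < t := by
      by_contra hn
      push Not at hn
      have := mul_nonpos_of_nonneg_of_nonpos hZ.le hn
      linarith
    have h5 : t = 1 := by
      by_contra hn
      have h6 : 2 ≤ t := by omega
      have h7 : Z * 2 ≤ Z * t := mul_le_mul_of_nonneg_left h6 hZ.le
      have h8 : c1 * 1 ≤ c1 * s := mul_le_mul_of_nonneg_left hs0 hc1.le
      linarith
    have h6 : s = 1 := by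
      by_contra hn
      have h6 : 2 ≤ s := by omega
      have h8 : c1 * 2 ≤ c1 * s := mul_le_mul_of_nonneg_left h6 hc1.le
      rw [h5] at ht
      linarith
    rw [h5, mul_one] at ht
    rw [h6, mul_one] at hs
    rw [e1, e2, e3, e4, ← ht]
    have e6 : g * c1 - 2 * (g * Aa) = g * (2 * k) := by
      have : c1 - 2 * Aa = 2 * k := by linarith
      linear_combination g * this
    have e7 : g * c1 - g * Aa = g * Z := by linear_combination g * ht
    linear_combination (G * (c1 - Aa)) * e6 - (2 * (G * k)) * e7 + 2 * G * k * g * ht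
  · left
    rw [e3, e4, h4]

end Pair

end Pool.Agent.H4G
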