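import Pool.Agent.H4G.Arith.LoopCore
import Pool.Agent.H4G.Arith.Fin19

/-!
# (E3), (E4) in the frame ExtB, prime by prime, and the structure `Pair` (helper5)
-/

set_option autoImplicit false

namespace Pool.Agent.H4G

theorem exists_unit_alw {l' p' u : Z2} (h : Con1 (lat l' p')) {r : ℕ} (hr : r.Prime)
    (hal : ∃ i : ℤ, ¬ (r : ℤ) ∣ i ∧ Alw l' p' u r i) (P : ℤ) :
    ∃ k : ℤ, ¬ (r : ℤ) ∣ k ∧ Alw l' p' u r (k * P) := by
  by_cases hP : (r : ℤ) ∣ P
  · refine ⟨1, prime_not_dvd_one hr, Alw.per (k := 0) ?_ (Alw.zero h hr)⟩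
    rw [one_mul, sub_zero]; exact hP
  · obtain ⟨i, h1, h2⟩ := hal
    obtain ⟨k, hk⟩ := exists_mul_class hr hP i
    refine ⟨k, fun h3 => h1 ?_, Alw.per (k := i) ?_ h2⟩
    · have := dvd_sub (h3.mul_left P) hk
      simpa using this
    · rw [mul_comm k P]; exact hk

/-- the multiplier `P` for a local condition -/
theorem exists_P {r : ℕ} (hr : r.Prime) {X Y : ℤ} (hX : X ≠ 0) (π : ℕ)
    (h : ∀ k : ℕ, (r : ℤ) ^ k ∣ X → (r : ℤ) ^ k ∣ (r : ℤ) ^ π * Y) :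
    ∃ R m : ℤ, ¬ (r : ℤ) ∣ R ∧ m * X = (r : ℤ) ^ π * R * Y := by
  obtain ⟨s, R, h1, h2⟩ := exists_pow_mul hr hX
  obtain ⟨m, hm⟩ := h s (by rw [h1]; exact dvd_mul_right _ _)
  refine ⟨R, m, h2, ?_⟩
  rw [h1]
  linear_combination -R * hm

/-- `A γ = r^π R w`, `r ∤ R` -/
theorem local_fin {r : ℕ} (hr : r.Prime) {A γ R w c : ℤ} {π j : ℕ} (hc : c ≠ 0)
    (hR : ¬ (r : ℤ) ∣ R) (h : A * γ = (r : ℤ) ^ π * R * w)
    (hγ : ∀ k : ℕ, (r : ℤ) ^ k ∣ c → (r : ℤ) ^ k ∣ γ) (hj : (r : ℤ) ^ j ∣ c * A) :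
    (r : ℤ) ^ j ∣ (r : ℤ) ^ π * w := by
  obtain ⟨s, c', h1, h2⟩ := exists_pow_mul hr hc
  have h3 : (r : ℤ) ^ j ∣ (r : ℤ) ^ s * A := by
    rw [h1] at hj
    have : (r : ℤ) ^ s * c' * A = c' * ((r : ℤ) ^ s * A) := by ring
    rw [this] at hj
    exact ((isCoprime_of_not_dvd hr h2).pow_left).dvd_of_dvd_mul_left hj
  have h4 : (r : ℤ) ^ s ∣ γ := hγ s (by rw [h1]; exact dvd_mul_right _ _)
  have h5 : (r : ℤ) ^ j ∣ R * ((r : ℤ) ^ π * w) := by
    have h6 : (r : ℤ) ^ s * A ∣ A * γ := by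
      rw [mul_comm A γ]; exact mul_dvd_mul_right h4 A
    have h7 : R * ((r : ℤ) ^ π * w) = A * γ := by rw [h]; ring
    rw [h7]
    exact h3.trans h6
  exact ((isCoprime_of_not_dvd hr hR).pow_left).dvd_of_dvd_mul_left h5

/-- (E3) at one prime `r` in the frame ExtB -/
theorem ExtB.e3At {S : PSt} {a' b c : ℤ} (h : ExtB S a' b c) {l p l' p' : Z2}
    (ad : Ad S l p l' p') {n j o τ : ℤ} (hn : 0 ≤ n) (ho : o = 1 ∨ o = -1)
    (hco : IsCoprime (τ + j) n)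
    (h1 : n * cr p S.v < o * ((τ + j) * cr S.u l + n * (cr S.u p +
      j * (cr p l + cr p S.v - cr S.u S.v))))
    (h2 : o * ((τ + j) * cr S.u l + n * (cr S.u p + j * (cr p l + cr p S.v - cr S.u S.v))) ≤
      cr p l) {u₁ : Z2} (hu₁ : u₁ = S.u + (o - j * (1 + n)) • S.v + τ • l + n • p)
    {B hh : ℤ} (hB : IsC S.L' u₁ B) (hhh : IsC (lat (l - n • S.v) (p + τ • S.v)) u₁ hh)
    {r : ℕ} (hr : r.Prime) (hr2 : r ≠ 2 ∨ ¬ (r : ℤ) ∣ B) (π : ℕ)
    (hπ : ∀ k : ℕ, (r : ℤ) ^ k ∣ (cr p l - n * cr p S.v) * cr u₁ S.v * B →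
      (r : ℤ) ^ k ∣ (r : ℤ) ^ π * (hh ^ 2 * (B + a'))) {i : ℕ}
    (hi : (r : ℤ) ^ i ∣ c * cr u₁ S.v) :
    (r : ℤ) ^ i ∣ (r : ℤ) ^ π * (cr S.u u₁ * (B + a' - cr u₁ S.v)) := by
  obtain ⟨T, k1, k2, k3, k4, k5, k6⟩ := ad.exitSt h.ok (by rw [ad.isC.unique h.hb]; exact h.hA)
    hn ho hco h1 h2
  have E3 : cr l' p' = a' := ad.isArea'.unique h.ha'
  have E1 : cr p S.v = b := ad.isC.unique h.hb
  have hAB : cr u₁ S.v ≤ B := by
    have := h.leA k1 (by rw [k2]; exact h.ha') (by rw [k2]; exact h.con) (d := B) (by rw [k2, k5, ← hu₁]; exact hB)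
    rwa [k5, k3, ← hu₁] at this
  obtain ⟨l2, p2, l2', p2', ad2⟩ := exists_Ad k1.ok'
  have hA1 : 0 < cr u₁ S.v := by
    have := ad2.hA
    rwa [k5, k3, ← hu₁] at this
  have ha1 : 0 < cr p l - n * cr p S.v := by
    have e1 : cr p2 l2 = cr p l - n * cr p S.v := by
      refine ad2.isArea.unique ?_
      rw [k4]
      have hdet : cr (p + τ • S.v) (l - n • S.v) = cr p l - n * cr p S.v := by
        simp only [cr_add_left, cr_smul_left, cr_sub_right, cr_smul_right, cr_self]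
        rw [cr_swap S.v l, ad.h1]; ring
      refine ⟨?_, _, _, hdet, rfl⟩
      rcases (show cr p l - n * cr p S.v ≥ 0 by linarith [h1.trans_le h2]).lt_or_eq with h9 | h9
      · exact h9
      · exfalso
        have hp := ad2.pos
        have m3 : l2 ∈ lat (l - n • S.v) (p + τ • S.v) := by
          rw [← k4, ad2.hL]; exact mem_lat.2 ⟨1, 0, by module⟩
        have m4 : p2 ∈ lat (l - n • S.v) (p + τ • S.v) := by
          rw [← k4, ad2.hL]; exact mem_lat.2 ⟨0, 1, by module⟩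
        obtain ⟨α, β, w1⟩ := mem_lat.1 m3
        obtain ⟨γ, δ, w2⟩ := mem_lat.1 m4
        have w3 : cr p2 l2 = (α * δ - β * γ) * cr (p + τ • S.v) (l - n • S.v) := by
          rw [← w1, ← w2]
          generalize l - n • S.v = f1
          generalize p + τ • S.v = f2
          simp only [cr_add_left, cr_add_right, cr_smul_left, cr_smul_right, cr_self]
          rw [cr_swap f1 f2]; ring
        rw [hdet, ← h9, mul_zero] at w3
        omega
    rw [← e1]; exact ad2.pos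
  have hB0 : 0 < B := hB.1
  obtain ⟨R, m, hR, hm⟩ := exists_P hr
    (mul_ne_zero (mul_ne_zero ha1.ne' hA1.ne') hB0.ne') π hπ
  obtain ⟨l₁, p₁, x1, x2, x3, x4, x5, key⟩ := ad.loopCore h.ok
    (by rw [E1]; exact h.hA) hn ho hco h1 h2 hu₁ hB hAB hhh
    (P := (r : ℤ) ^ π * R) (m := m) (by rw [hm, E3]; ring)
  rw [E3] at x4 key
  -- arithmetic
  by_cases hw0 : cr S.u u₁ = 0
  · rw [hw0]; simp
  have hl1 : cr S.u l₁ ≠ 0 := by
    intro h9
    have e1 := plucker l₁ S.u u₁ S.v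
    rw [cr_swap l₁ S.u, h9, cr_swap l₁ u₁, x2] at e1
    have e2 : cr l₁ S.v * cr S.u u₁ = 0 := by linarith
    rcases mul_eq_zero.1 e2 with e3 | e3
    · omega
    · exact hw0 e3
  have hcl : Con1 (lat l₁ p₁) := by rw [← x1]; exact h.con
  obtain ⟨_, _, _, _, _, _, _, _, _, _, _, _, v1⟩ := key 1
  rename_i ui1 _ _ _ _ _ _ _ _ _
  set P := (r : ℤ) ^ π * R with hP
  obtain ⟨γ, hγA⟩ : ∃ γ : ℤ, cr u₁ S.v * γ = P * cr S.u u₁ * (B + a' - cr u₁ S.v) := by
    refine ⟨cr S.u p₁ - cr ui1 (p₁ + (1 * P) • u₁), ?_⟩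
    linear_combination -v1
  have hg : (Int.gcd (cr S.u l₁) (cr S.u p₁) : ℤ) = c := by
    have := isC_lat (x := l₁) (y := p₁) (u := S.u) (Or.inl hl1)
    rw [← x1] at this
    exact this.unique h.hc
  have hfin : ∀ k : ℕ, (r : ℤ) ^ k ∣ c → (r : ℤ) ^ k ∣ γ := by
    intro k hk
    refine crt_min2A h.hc.1 hl1 h.ha'.1.ne' hg (fun q k => Alw l₁ p₁ u₁ q (k * P))
      (fun q hq => ?_) (fun q _ k k' hkk hh' => ?_) hr (exists_unit_alw hcl hr ?_ P)
      (fun k hk => ?_) hk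
    · show Alw l₁ p₁ u₁ q (0 * P)
      rw [zero_mul]; exact Alw.zero hcl hq
    · refine Alw.per ?_ hh'
      rw [← sub_mul]; exact hkk.mul_right P
    · rcases hr2 with h9 | h9
      · exact Alw.exists_odd hcl hr h9
      · exact ⟨1, prime_not_dvd_one hr, Alw.of_not_dvd (by rw [x3]; exact h9) 1⟩
    · obtain ⟨li, pi, ui, vi, t6, y1, y2, y3, y4, y5, y6, y7, y8⟩ := key k
      have t7 : IsArea (lat l₁ (p₁ + (k * P) • u₁)) a' := by
        have : cr l₁ (p₁ + (k * P) • u₁) = a' := by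
          rw [cr_add_right, cr_smul_right, cr_swap l₁ u₁, x2, x4]; ring
        exact ⟨h.ha'.1, p₁ + (k * P) • u₁, l₁, this, lat_comm _ _⟩
      have t7' : Con1 (lat l₁ (p₁ + (k * P) • u₁)) := con1_of_alw x2 x4 hk
      have t8 : IsC (lat li pi) vi b := by
        have := isC_of_par (l := li) (p := pi) (v := vi) y1 (by rw [y3]; exact ad.h3)
        rwa [y3, E1] at this
      have y9 : cr ui (p₁ + (k * P) • u₁) = cr S.u p₁ - k * γ := by
        have : (cr ui (p₁ + (k * P) • u₁) - (cr S.u p₁ - k * γ)) * cr u₁ S.v = 0 := by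
          linear_combination y8 + k * hγA
        rcases mul_eq_zero.1 this with h9 | h9
        · linarith
        · omega
      have t9 := isC_lat (x := l₁) (y := p₁ + (k * P) • u₁) (u := ui) (Or.inl (by
        rw [y7]; exact hl1))
      rw [y7, y9] at t9
      exact h.min' _ _ t6 t7 t7' t8 (by dsimp only; rw [y4]; exact h.hA) t9
  exact local_fin hr h.hc.1.ne' hR (w := cr S.u u₁ * (B + a' - cr u₁ S.v))
    (by rw [hγA, hP]; ring) hfin hi

/-- The data of an exit of an ExtB state; `B` minimal among all states with the same numbers. -/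
structure ExitMin (S : PSt) (a' b c : ℤ) (l p l' p' : Z2) (q τ n B : ℤ) : Prop where
  ext : ExtB S a' b c
  ad : Ad S l p l' p'
  hB : IsC S.L' (S.u + q • S.v + τ • l + n • p) B
  minB : ∀ (T : PSt) (l₁ p₁ l₁' p₁' : Z2) (d : ℤ), SEq S T → ExtB T a' b c → T.u = S.u →
    T.L = S.L → Ad T l₁ p₁ l₁' p₁' → cr T.u T.v = cr S.u S.v → cr T.u l₁ = cr S.u l →
    cr T.u p₁ = cr S.u p → cr p₁ l₁ = cr p l →
    IsC T.L' (T.u + q • T.v + τ • l₁ + n • p₁) d → B ≤ d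

theorem exists_exitMin {S : PSt} {a' b c : ℤ} (h : ExtB S a' b c) {l p l' p' : Z2}
    (ad : Ad S l p l' p') (q τ n : ℤ) {B0 : ℤ}
    (hB0 : IsC S.L' (S.u + q • S.v + τ • l + n • p) B0) :
    ∃ (T : PSt) (l₁ p₁ l₁' p₁' : Z2) (B : ℤ), SEq S T ∧ ExitMin T a' b c l₁ p₁ l₁' p₁' q τ n B ∧
      T.u = S.u ∧ T.L = S.L ∧ cr T.u T.v = cr S.u S.v ∧ cr T.u l₁ = cr S.u l ∧
      cr T.u p₁ = cr S.u p ∧ cr p₁ l₁ = cr p l := by
  obtain ⟨B, ⟨T, l₁, p₁, l₁', p₁', x1, x2, x3, x4, x5, x6, x7, x8, x9, x10⟩, hmin⟩ :=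
    exists_min_int
    (P := fun d => ∃ (T : PSt) (l₁ p₁ l₁' p₁' : Z2), SEq S T ∧ ExtB T a' b c ∧ T.u = S.u ∧
      T.L = S.L ∧ Ad T l₁ p₁ l₁' p₁' ∧ cr T.u T.v = cr S.u S.v ∧ cr T.u l₁ = cr S.u l ∧
      cr T.u p₁ = cr S.u p ∧ cr p₁ l₁ = cr p l ∧
      IsC T.L' (T.u + q • T.v + τ • l₁ + n • p₁) d)
    (fun d ⟨_, _, _, _, _, _, _, _, _, _, _, _, _, _, h⟩ => h.1)
    ⟨B0, S, l, p, l', p', h.ok.seq, h, rfl, rfl, ad, rfl, rfl, rfl, rfl, hB0⟩
  refine ⟨T, l₁, p₁, l₁', p₁', B, x1, ⟨x2, x5, x10, ?_⟩, x3, x4, x6, x7, x8, x9⟩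
  intro T2 l₂ p₂ l₂' p₂' d y1 y2 y3 y4 y5 y6 y7 y8 y9 y10
  exact hmin d ⟨T2, l₂, p₂, l₂', p₂', x1.trans y1, y2, y3.trans x3, y4.trans x4, y5, y6.trans x6,
    y7.trans x7, y8.trans x8, y9.trans x9, y10⟩

/-- (E4) at one prime `r` in the frame ExtB -/
theorem ExitMin.e4At {S : PSt} {a' b c : ℤ} {l p l' p' : Z2} {q τ n B : ℤ}
    (h : ExitMin S a' b c l p l' p' q τ n B) {u₁ : Z2}
    (hu₁ : u₁ = S.u + q • S.v + τ • l + n • p) {hh : ℤ} (hhh : IsC S.L S.u hh)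
    {r : ℕ} (hr : r.Prime) (hr2 : r ≠ 2 ∨ ¬ (r : ℤ) ∣ c) (π : ℕ)
    (hπ : ∀ k : ℕ, (r : ℤ) ^ k ∣ cr p l * cr S.u S.v * c →
      (r : ℤ) ^ k ∣ (r : ℤ) ^ π * (hh ^ 2 * (c + a'))) {i : ℕ}
    (hi : (r : ℤ) ^ i ∣ B * cr S.u S.v) :
    (r : ℤ) ^ i ∣ (r : ℤ) ^ π * (cr S.u u₁ * (c + a' - cr S.u S.v)) := by
  have E1 : cr p S.v = b := h.ad.isC.unique h.ext.hb
  have E2 : cr S.u p' = c := h.ad.isC'.unique h.ext.hc
  have E3 : cr l' p' = a' := h.ad.isArea'.unique h.ext.ha'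
  have hA0 : 0 < cr S.u S.v := h.ad.hA
  have ha0 : 0 < cr p l := h.ad.pos
  have hc0 : 0 < c := h.ext.hc.1
  have hAc : cr S.u S.v ≤ cr S.u p' := by
    rw [E2]; exact h.ext.leA h.ext.ok.seq h.ext.ha' h.ext.con h.ext.hc
  obtain ⟨R, m, hR, hm⟩ := exists_P hr
    (mul_ne_zero (mul_ne_zero ha0.ne' hA0.ne') hc0.ne') π hπ
  have key := h.ad.loop4Core h.ext.ok hAc hhh (P := (r : ℤ) ^ π * R) (m := m)
    (by rw [E2, E3, hm]; ring)
  by_cases hw0 : cr S.u u₁ = 0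
  · rw [hw0]; simp
  have hl'0 : cr S.u l' = 0 := h.ad.h4
  have hl1 : cr u₁ l' ≠ 0 := by
    intro h9
    have e1 := plucker l' u₁ S.u S.v
    rw [cr_swap l' u₁, h9, cr_swap l' S.u, hl'0] at e1
    have e2 : cr l' S.v * cr S.u u₁ = 0 := by rw [cr_swap S.u u₁]; linarith
    rcases mul_eq_zero.1 e2 with e3 | e3
    · have := h.ad.h5
      omega
    · exact hw0 e3
  have hcl : Con1 (lat l' p') := by rw [← h.ad.hL']; exact h.ext.con
  set P := (r : ℤ) ^ π * R with hP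
  obtain ⟨γ, hγA⟩ : ∃ γ : ℤ, cr S.u S.v * γ = P * cr S.u u₁ * (c + a' - cr S.u S.v) := by
    obtain ⟨l1, p1, v1, _, _, _, _, _, _, _, hv⟩ := key 1
    have hv2 := (hv q τ n).2
    rw [← hu₁] at hv2
    rw [E2, E3] at hv2
    refine ⟨cr (S.u + q • v1 + τ • l1 + n • p1) (p' + (1 * P) • S.u) - cr u₁ p', ?_⟩
    linear_combination hv2
  have hg : (Int.gcd (cr u₁ l') (cr u₁ p') : ℤ) = B := by
    have := isC_lat (x := l') (y := p') (u := u₁) (Or.inl hl1)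
    rw [← h.ad.hL', hu₁] at this
    rw [hu₁]
    exact this.unique h.hB
  have hfin : ∀ k : ℕ, (r : ℤ) ^ k ∣ B → (r : ℤ) ^ k ∣ γ := by
    intro k hk
    refine crt_min2A h.hB.1 hl1 h.ext.ha'.1.ne' hg (fun q k => Alw l' p' S.u q ((-k) * P))
      (fun q hq => ?_) (fun q _ k k' hkk hh' => ?_) hr ?_ (fun k hk => ?_) hk
    · show Alw l' p' S.u q (-0 * P)
      rw [neg_zero, zero_mul]; exact Alw.zero hcl hq
    · refine Alw.per ?_ hh'
      have : -k' * P - -k * P = -(k' - k) * P := by ring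
      rw [this]; exact ((dvd_neg).2 hkk).mul_right P
    · obtain ⟨k0, z1, z2⟩ := exists_unit_alw (u := S.u) hcl hr (by
        rcases hr2 with h9 | h9
        · exact Alw.exists_odd hcl hr h9
        · exact ⟨1, prime_not_dvd_one hr, Alw.of_not_dvd (by rw [E2]; exact h9) 1⟩) P
      refine ⟨-k0, fun h9 => z1 ((dvd_neg).1 h9), ?_⟩
      show Alw l' p' S.u r (- -k0 * P)
      rw [neg_neg]; exact z2
    · obtain ⟨l1, p1, v1, t1, y1, y2, y3, y4, y5, y6, hv⟩ := key (-k)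
      obtain ⟨hv1, hv2⟩ := hv q τ n
      rw [← hu₁] at hv1 hv2
      rw [E2, E3] at hv2
      have t7 : IsArea (lat l' (p' + (-k * P) • S.u)) a' := by
        have : cr l' (p' + (-k * P) • S.u) = a' := by
          rw [cr_add_right, cr_smul_right, cr_swap l' S.u, hl'0, E3]; ring
        exact ⟨h.ext.ha'.1, p' + (-k * P) • S.u, l', this, lat_comm _ _⟩
      have t7' : Con1 (lat l' (p' + (-k * P) • S.u)) := con1_of_alw hl'0 E3 hk
      have c8 : cr S.u (p' + (-k * P) • S.u) = c := by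
        rw [cr_add_right, cr_smul_right, cr_self, E2]; ring
      have t4 : IsC (lat l' (p' + (-k * P) • S.u)) S.u c := by
        have : IsC (lat l' (p' + (-k * P) • S.u)) S.u (cr S.u (p' + (-k * P) • S.u)) :=
          isC_adapted hl'0 (by rw [c8]; exact hc0)
        rwa [c8] at this
      have t3 : IsC S.L v1 b := by
        have := y1.isC
        dsimp only at this
        rwa [y6, E1] at this
      have ext : ExtB ⟨S.L, S.u, v1, lat l' (p' + (-k * P) • S.u)⟩ a' b c :=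
        h.ext.of_eq t1 t7 t7' t3 (by dsimp only; rw [y2]; exact h.ext.hA) t4
      have y9 : cr (S.u + q • v1 + τ • l1 + n • p1) (p' + (-k * P) • S.u) =
          cr u₁ p' - k * γ := by
        have : (cr (S.u + q • v1 + τ • l1 + n • p1) (p' + (-k * P) • S.u) -
            (cr u₁ p' - k * γ)) * cr S.u S.v = 0 := by
          linear_combination hv2 + k * hγA
        rcases mul_eq_zero.1 this with h9 | h9
        · linarith
        · omega
      have t9 := isC_lat (x := l') (y := p' + (-k * P) • S.u)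
        (u := S.u + q • v1 + τ • l1 + n • p1) (Or.inl (by rw [hv1]; exact hl1))
      rw [hv1, y9] at t9
      exact h.minB _ l1 p1 l' (p' + (-k * P) • S.u) _ t1 ext rfl rfl y1 y2 y3 y4 y5 t9
  exact local_fin hr h.hB.1.ne' hR (w := cr S.u u₁ * (c + a' - cr S.u S.v))
    (by rw [hγA, hP]; ring) hfin hi

/-- the structure `Pair` of helper19 at a level-one exit with minimal `B` -/
theorem ExitMin.pair {N : ℕ} (hN : N.Prime) {S : PSt} {a' b c : ℤ} {l p l' p' : Z2}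
    {q τ B : ℤ} (h : ExitMin S a' b c l p l' p' q τ 1 B)
    (hv : cr p l + cr S.u S.v + cr l' p' = N) {o j : ℤ} (ho : o = 1 ∨ o = -1)
    (hq : q = o - 2 * j)
    (h1 : cr p S.v < o * ((τ + j) * cr S.u l + (cr S.u p +
      j * (cr p l + cr p S.v - cr S.u S.v))))
    (h2 : o * ((τ + j) * cr S.u l + (cr S.u p + j * (cr p l + cr p S.v - cr S.u S.v))) ≤
      cr p l) (hw0 : cr S.u (S.u + q • S.v + τ • l + p) ≠ 0) :
    Pair N S l p l' p' (S.u + q • S.v + τ • l + p) q τ B := by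
  have ad := h.ad
  have hx := h.ext
  have E1 : cr p S.v = b := ad.isC.unique hx.hb
  have E2 : cr S.u p' = c := ad.isC'.unique hx.hc
  have E3 : cr l' p' = a' := ad.isArea'.unique hx.ha'
  have hAb : cr S.u S.v ≤ cr p S.v := by rw [E1]; exact hx.hA
  have hq' : q = o - j * (1 + 1) := by rw [hq]; ring
  have h1' : 1 * cr p S.v < o * ((τ + j) * cr S.u l + 1 * (cr S.u p +
      j * (cr p l + cr p S.v - cr S.u S.v))) := by rw [one_mul, one_mul]; exact h1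
  have h2' : o * ((τ + j) * cr S.u l + 1 * (cr S.u p +
      j * (cr p l + cr p S.v - cr S.u S.v))) ≤ cr p l := by rw [one_mul]; exact h2
  have hco : IsCoprime (τ + j) (1 : ℤ) := isCoprime_one_right
  set w1 := S.u + q • S.v + τ • l + p with hw1
  have hw1' : w1 = S.u + (o - j * (1 + 1)) • S.v + τ • l + (1 : ℤ) • p := by
    rw [hw1, ← hq', one_smul]
  have hB : IsC S.L' w1 B := by
    have := h.hB
    rwa [one_smul] at this
  obtain ⟨T, k1, k2, k3, k4, k5, k6⟩ := ad.exitSt hx.ok hAb (n := 1) (by norm_num) ho hco h1' h2'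
  rw [← hw1'] at k5
  rw [one_smul] at k4
  refine ⟨hN, ad, hv, ?_, rfl, by linarith, hB, hw0, ?_, ?_, ?_, ?_, ?_⟩
  · rw [hq]
    rcases ho with rfl | rfl <;> omega
  · intro z hz
    obtain ⟨v1, v2⟩ := hx.vrig ad
    rw [E2]
    rw [ad.hL'] at hz
    obtain ⟨m, n, rfl⟩ := mem_lat.1 hz
    rw [cr_swap _ (S.v + l), cr_add_right, cr_smul_right, cr_smul_right]
    exact (dvd_neg).2 (dvd_add (v1.mul_left _) (v2.mul_left _))
  · intro r hr hrc k hk z hz
    rw [E2] at hrc ⊢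
    rw [E1] at hk
    rw [E3]
    exact (Dvd.intro _ rfl).trans
      (hx.hrigAt_mul hx.ok.seq hx.ha' hx.con hx.hb hx.hc hr (Or.inr hrc) hk hz)
  · intro r hr hrB k hk z hz
    rw [E1] at hk
    rw [E3]
    have := hx.hrigAt_mul k1 (by rw [k2]; exact hx.ha') (by rw [k2]; exact hx.con)
      (by rw [← E1]; exact k6) (g := B) (by rw [k2, k5]; exact hB) hr (Or.inr hrB) hk
      (w := z) (by rw [k4]; exact hz)
    rw [k5] at this
    exact (Dvd.intro _ rfl).trans this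
  · intro r hr hrB π hπ i hi
    obtain ⟨l2, p2, l2', p2', ad2⟩ := exists_Ad k1.ok'
    obtain ⟨hh, hhh⟩ : ∃ hh, IsC (lat (l - S.v) (p + τ • S.v)) w1 hh := by
      have hA1 := ad2.hA
      have hp2 := ad2.pos
      obtain ⟨ρ0, π0, r1, r2, r3, r4, r5, r6⟩ := exists_adapted (l := l2) (p := p2) (u := T.u)
        (v := T.v) hp2 hA1
      refine ⟨cr T.u π0, ?_⟩
      have : IsC (lat ρ0 π0) T.u (cr T.u π0) := isC_adapted r3 r5
      rw [r1, ← ad2.hL, k4, k5] at this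
      rw [k5]; exact this
    rw [E3]
    rw [E2] at hi
    refine hx.e3At ad (n := 1) (by norm_num) ho hco h1' h2' hw1' hB
      (hh := hh) (by rw [one_smul]; exact hhh) hr (Or.inr hrB) π (fun k hk => ?_) hi
    have hk' : (r : ℤ) ^ k ∣ cr w1 S.v * (cr p l - cr p S.v) := by
      rw [one_mul] at hk
      have : (cr p l - cr p S.v) * cr w1 S.v * B = B * (cr w1 S.v * (cr p l - cr p S.v)) := by
        ring
      rw [this] at hk
      exact ((isCoprime_of_not_dvd hr hrB).pow_left).dvd_of_dvd_mul_left hk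
    obtain ⟨z, hz, hzz⟩ := hhh.2.2
    have := hπ k hk' z hz z hz
    rw [hzz, E3] at this
    have e : hh ^ 2 * (B + a') = (B + a') * (hh * hh) := by ring
    rw [e]; exact this
  · intro r hr hrc π hπ i hi
    rw [E2] at hrc hπ ⊢
    rw [E3] at hπ ⊢
    obtain ⟨hh, hhh⟩ : ∃ hh, IsC S.L S.u hh := by
      obtain ⟨ρ0, π0, r1, r2, r3, r4, r5, r6⟩ := exists_adapted (l := l) (p := p) (u := S.u)
        (v := S.v) ad.pos ad.hA
      refine ⟨cr S.u π0, ?_⟩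
      have : IsC (lat ρ0 π0) S.u (cr S.u π0) := isC_adapted r3 r5
      rw [r1, ← ad.hL] at this
      exact this
    refine h.e4At (by rw [one_smul]) hhh hr (Or.inr hrc) π (fun k hk => ?_) hi
    have hk' : (r : ℤ) ^ k ∣ cr S.u S.v * cr p l := by
      have : cr p l * cr S.u S.v * c = c * (cr S.u S.v * cr p l) := by ring
      rw [this] at hk
      exact ((isCoprime_of_not_dvd hr hrc).pow_left).dvd_of_dvd_mul_left hk
    obtain ⟨z, hz, hzz⟩ := hhh.2.2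
    have := hπ k hk' z hz z hz
    rw [hzz] at this
    have e : hh ^ 2 * (c + a') = (c + a') * (hh * hh) := by ring
    rw [e]; exact this

end Pool.Agent.H4G
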