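import Pool.Agent.H4G.Arith.Ext

/-!
# Extremal states: the integer interface (helper40)

All data of a state in adapted bases: `A = cr u v`, `b = cr p v`, `e = cr u l`, `f = cr u p`,
`b' = cr u p'`, `e' = cr l' v`, `f' = cr p' v`, `a = cr p l`, `a' = cr l' p'` and the mixed products
`k₁ = cr l' l`, `k₂ = cr p' l`, `k₃ = cr l' p`, `k₄ = cr p' p`.
-/

set_option autoImplicit false

namespace Pool.Agent.H4G

/-- the integers attached to a state in adapted bases -/
structure Nums (A b e f b' e' f' a a' k1 k2 k3 k4 : ℤ) : Prop where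
  A0 : 0 < A
  b0 : 0 < b
  e0 : 0 < e
  b0' : 0 < b'
  e0' : 0 < e'
  a0 : 0 < a
  a0' : 0 < a'
  ra : a * A = e * b
  ra' : a' * A = e' * b'
  r1 : k1 * A = e * e'
  r2 : k2 * A = e * f'
  r3 : k3 * A = e' * f
  r4 : k4 * A = f * f' - b * b'

theorem Ad.nums {S : PSt} {l p l' p' : Z2} (h : Ad S l p l' p') :
    Nums (cr S.u S.v) (cr p S.v) (cr S.u l) (cr S.u p) (cr S.u p') (cr l' S.v) (cr p' S.v)
      (cr p l) (cr l' p') (cr l' l) (cr p' l) (cr l' p) (cr p' p) := by
  refine ⟨h.hA, h.h3, h.h2, h.h6, h.h5, h.pos, h.pos', h.area, h.area', ?_, ?_, ?_, ?_⟩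
  · have := plucker l' l S.u S.v
    rw [cr_swap l' S.u, h.h4, cr_swap l S.u] at this
    linarith
  · have := plucker p' l S.u S.v
    rw [h.h1, cr_swap l S.u] at this
    linarith
  · have := plucker l' p S.u S.v
    rw [cr_swap l' S.u, h.h4, cr_swap p S.u] at this
    linarith
  · have := plucker p' p S.u S.v
    rw [cr_swap p' S.u, cr_swap p S.u] at this
    linarith

/-- `N = a + A + a'` -/
theorem Ad.vol {S : PSt} {l p l' p' : Z2} (h : Ad S l p l' p') {c : C6} (hc : IsRep S c) :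
    vol c = cr p l + cr S.u S.v + cr l' p' := hc.vol h.isArea h.isArea'

/-- RIGIDITY in integers -/
theorem Ext.rig {S : PSt} {b b' : ℤ} (h : Ext S b b') {l p l' p' : Z2} (ad : Ad S l p l' p') :
    cr p S.v = b ∧ cr S.u p' = b' ∧ cr S.u S.v ≤ b ∧ b ≤ b' ∧
    b' ∣ cr l' S.v + cr l' l ∧ b' ∣ cr p' S.v + cr p' l ∧
    b ∣ cr S.u l + cr l' l ∧ b ∣ cr S.u p + cr l' p := by
  have e1 : cr p S.v = b := ad.isC.unique h.hb
  have e2 : cr S.u p' = b' := ad.isC'.unique h.hb'
  obtain ⟨h1, h2⟩ := h.vrig ad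
  obtain ⟨h3, h4⟩ := h.hrig h.ok.seq h.hb ad (by rw [e2]; exact h.hA.trans h.le)
  rw [cr_add_left] at h1 h2 h3 h4
  refine ⟨e1, e2, h.hA, h.le, ?_, ?_, h3, h4⟩
  · rw [cr_swap S.v l', cr_swap l l'] at h1
    have := (dvd_neg).2 h1
    rwa [show -(-cr l' S.v + -cr l' l) = cr l' S.v + cr l' l by ring] at this
  · rw [cr_swap S.v p', cr_swap l p'] at h2
    have := (dvd_neg).2 h2
    rwa [show -(-cr p' S.v + -cr p' l) = cr p' S.v + cr p' l by ring] at this

/-- SECOND RIGIDITY (H after `V_j`): if `gcd (j B₁, b' + j B₂) = b' w`, `B₁ = e' + k₁`,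
`B₂ = f' + k₂`, then `b A ∣ (A + e'/w) e` and `b A ∣ (A + e'/w) (f + j (b + a - A))`. -/
theorem Ext.rig2 {S : PSt} {b b' : ℤ} (h : Ext S b b') {l p l' p' : Z2} (ad : Ad S l p l' p')
    (j w e1 : ℤ) (hw : 0 < w)
    (h1 : (Int.gcd (j * (cr l' S.v + cr l' l)) (b' + j * (cr p' S.v + cr p' l)) : ℤ) = b' * w)
    (h2 : cr l' S.v = w * e1) :
    b * cr S.u S.v ∣ (cr S.u S.v + e1) * cr S.u l ∧
    b * cr S.u S.v ∣ (cr S.u S.v + e1) * (cr S.u p + j * (b + cr p l - cr S.u S.v)) := by
  obtain ⟨E1, E2, hA, hle, _⟩ := h.rig ad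
  have hb0 := h.bpos
  have hb0' := h.hb'.1
  -- the state after the V-twist
  have k1 := ad.twV h.ok (by rw [E1]; exact hA) j
  set T : PSt := ⟨lat l (p - j • S.v), S.u - j • (S.v + l), S.v, S.L'⟩ with hT
  have k2 : IsC T.L T.v b := by
    have : cr (p - j • S.v) S.v = b := by rw [cr_sub_left, cr_smul_left, cr_self, E1]; ring
    rw [← this]
    exact isC_of_par ad.h1 (by rw [this]; exact hb0)
  have e3 : cr T.u T.v = cr S.u S.v := by
    simp only [hT]
    rw [cr_sub_left, cr_smul_left, cr_add_left, cr_self, ad.h1]; ring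
  -- adapted bases of the new state
  obtain ⟨l1, p1, l1', p1', ad1⟩ := exists_Ad k1.ok'
  -- we use the old left basis
  have e4 : cr T.u l = cr S.u l := by
    simp only [hT]
    rw [cr_sub_left, cr_smul_left, cr_add_left, cr_self, cr_swap S.v l, ad.h1]; ring
  have e5 : cr (p - j • S.v) T.v = b := by
    simp only [hT]
    rw [cr_sub_left, cr_smul_left, cr_self, E1]; ring
  have ad2 : Ad T l (p - j • S.v) l1' p1' :=
    ⟨rfl, ad1.hL', ad.h1, by rw [e4]; exact ad.h2, by rw [e5]; exact hb0, ad1.h4, ad1.h5, ad1.h6,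
      ad1.hA⟩
  -- the gcd of the new slit
  have e6 : cr T.u p1' = b' * w := by
    have m1 : IsC T.L' T.u (cr T.u p1') := ad2.isC'
    have m2 := isC_lat (x := l') (y := p') (u := T.u)
    have n1 : cr T.u l' = j * (cr l' S.v + cr l' l) := by
      simp only [hT]
      rw [cr_sub_left, cr_smul_left, cr_add_left, ad.h4, cr_swap S.v l', cr_swap l l']; ring
    have n2 : cr T.u p' = b' + j * (cr p' S.v + cr p' l) := by
      simp only [hT]
      rw [cr_sub_left, cr_smul_left, cr_add_left, E2, cr_swap S.v p', cr_swap l p']; ring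
    rw [n1, n2] at m2
    have m3 := m2 (by
      by_contra hn
      push Not at hn
      rw [hn.1, hn.2] at h1
      simp at h1
      rcases h1 with h1 | h1 <;> omega)
    rw [h1, ← ad.hL'] at m3
    exact m1.unique m3
  have e7 : cr T.u T.v ≤ cr T.u p1' := by
    rw [e3, e6]
    have : b' * 1 ≤ b' * w := mul_le_mul_of_nonneg_left (by omega) hb0'.le
    linarith
  obtain ⟨m1, m2⟩ := h.hrig k1 k2 ad2 e7
  -- the length of the new closed geodesic
  have e8 : cr l1' T.v = e1 := by
    have n1 := ad2.area'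
    have n2 := ad.area'
    have n3 : cr l1' p1' = cr l' p' := ad2.isArea'.unique ad.isArea'
    rw [n3, e3, n2, h2, e6, E2] at n1
    have n4 : (cr l1' T.v - e1) * (b' * w) = 0 := by linarith
    rcases mul_eq_zero.1 n4 with n5 | n5
    · linarith
    · rcases mul_eq_zero.1 n5 with n5 | n5 <;> omega
  have e9 : ∀ x : Z2, cr l1' x * cr S.u S.v = e1 * cr T.u x := by
    intro x
    have := plucker l1' x T.u T.v
    rw [cr_swap l1' T.u, ad2.h4, cr_swap x T.u, e8, e3] at this
    linarith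
  have e10 : ∀ x : Z2, cr (T.u + l1') x * cr S.u S.v = (cr S.u S.v + e1) * cr T.u x := by
    intro x
    rw [cr_add_left, add_mul, e9]; ring
  have e11 : cr T.u (p - j • S.v) = cr S.u p + j * (b + cr p l - cr S.u S.v) := by
    simp only [hT]
    simp only [cr_sub_left, cr_sub_right, cr_smul_left, cr_smul_right, cr_add_left, cr_self]
    rw [cr_swap S.v p, E1, cr_swap l p, ad.h1]; ring
  constructor
  · have := mul_dvd_mul_right m1 (cr S.u S.v)
    rwa [e10, e4] at this
  · have := mul_dvd_mul_right m2 (cr S.u S.v)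
    rwa [e10, e11] at this

/-- SECOND RIGIDITY with the same `b'`: the state after `V_j` is again extremal -/
theorem Ext.V {S : PSt} {b b' : ℤ} (h : Ext S b b') {l p l' p' : Z2} (ad : Ad S l p l' p') (j : ℤ)
    (h1 : (Int.gcd (j * (cr l' S.v + cr l' l)) (b' + j * (cr p' S.v + cr p' l)) : ℤ) = b') :
    ∃ T : PSt, ∃ l1' p1' : Z2, SEq S T ∧ Ext T b b' ∧ Ad T l (p - j • S.v) l1' p1' ∧
      T.L = lat l (p - j • S.v) ∧ T.u = S.u - j • (S.v + l) ∧ T.v = S.v ∧ T.L' = S.L' := by
  obtain ⟨E1, E2, hA, hle, _⟩ := h.rig ad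
  have hb0 := h.bpos
  have hb0' := h.hb'.1
  have k1 := ad.twV h.ok (by rw [E1]; exact hA) j
  set T : PSt := ⟨lat l (p - j • S.v), S.u - j • (S.v + l), S.v, S.L'⟩ with hT
  have k2 : IsC T.L T.v b := by
    have : cr (p - j • S.v) S.v = b := by rw [cr_sub_left, cr_smul_left, cr_self, E1]; ring
    rw [← this]
    exact isC_of_par ad.h1 (by rw [this]; exact hb0)
  have e3 : cr T.u T.v = cr S.u S.v := by
    simp only [hT]
    rw [cr_sub_left, cr_smul_left, cr_add_left, cr_self, ad.h1]; ring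
  obtain ⟨l1, p1, l1', p1', ad1⟩ := exists_Ad k1.ok'
  have e4 : cr T.u l = cr S.u l := by
    simp only [hT]
    rw [cr_sub_left, cr_smul_left, cr_add_left, cr_self, cr_swap S.v l, ad.h1]; ring
  have e5 : cr (p - j • S.v) T.v = b := by
    simp only [hT]
    rw [cr_sub_left, cr_smul_left, cr_self, E1]; ring
  have ad2 : Ad T l (p - j • S.v) l1' p1' :=
    ⟨rfl, ad1.hL', ad.h1, by rw [e4]; exact ad.h2, by rw [e5]; exact hb0, ad1.h4, ad1.h5, ad1.h6,
      ad1.hA⟩
  have m3 : IsC T.L' T.u b' := by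
    have m2 := isC_lat (x := l') (y := p') (u := T.u)
    have n1 : cr T.u l' = j * (cr l' S.v + cr l' l) := by
      simp only [hT]
      rw [cr_sub_left, cr_smul_left, cr_add_left, ad.h4, cr_swap S.v l', cr_swap l l']; ring
    have n2 : cr T.u p' = b' + j * (cr p' S.v + cr p' l) := by
      simp only [hT]
      rw [cr_sub_left, cr_smul_left, cr_add_left, E2, cr_swap S.v p', cr_swap l p']; ring
    rw [n1, n2] at m2
    have m3 := m2 (by
      by_contra hn
      push Not at hn
      rw [hn.1, hn.2] at h1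
      simp at h1
      omega)
    rw [h1, ← ad.hL'] at m3
    exact m3
  exact ⟨T, l1', p1', k1, h.of_eq k1 k2 (by rw [e3]; exact hA) m3, ad2, rfl, rfl, rfl, rfl⟩

/-! ## Exits in integers -/

/-- LEVEL `i` EXIT on the left side, `x = t l + i p`, `u → u + v + x` -/
theorem Ext.exP {S : PSt} {b b' : ℤ} (h : Ext S b b') {T : PSt} (hST : SEq S T) {l p l' p' : Z2}
    (ad : Ad T l p l' p') {i t : ℤ} (hit : IsCoprime t i)
    (h1 : 0 < t * cr T.u l + i * cr T.u p) (h2 : t * cr T.u l + i * cr T.u p ≤ cr p l)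
    (h3 : -cr T.u T.v < i * cr p T.v) (h4 : i * cr p T.v < t * cr T.u l + i * cr T.u p) :
    b ≤ Int.gcd (cr l' T.v + t * cr l' l + i * cr l' p)
      (cr T.u p' - cr p' T.v - t * cr p' l - i * cr p' p) := by
  obtain ⟨y, m1, m2⟩ := exists_basis (l := l) (p := p) (w := t • l + i • p) (α := t) (β := i) rfl
    hit
  have e1 : cr T.u (t • l + i • p) = t * cr T.u l + i * cr T.u p := by
    rw [cr_add_right, cr_smul_right, cr_smul_right]
  have e2 : cr (t • l + i • p) T.v = i * cr p T.v := by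
    rw [cr_add_left, cr_smul_left, cr_smul_left, ad.h1]; ring
  have e3 : cr (T.u + T.v + (t • l + i • p)) l' = -(cr l' T.v + t * cr l' l + i * cr l' p) := by
    simp only [cr_add_left, cr_smul_left]
    rw [ad.h4, cr_swap T.v l', cr_swap l l', cr_swap p l']; ring
  have e4 : cr (T.u + T.v + (t • l + i • p)) p' =
      cr T.u p' - cr p' T.v - t * cr p' l - i * cr p' p := by
    simp only [cr_add_left, cr_smul_left]
    rw [cr_swap T.v p', cr_swap l p', cr_swap p p']; ring
  have hne : cr (T.u + T.v + (t • l + i • p)) l' ≠ 0 ∨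
      cr (T.u + T.v + (t • l + i • p)) p' ≠ 0 := by
    by_contra hn
    push Not at hn
    -- the new state is admissible, so its slit is not zero
    have k1 : SEq T ⟨lat (t • l + i • p) (y + T.v), T.u + T.v + (t • l + i • p), T.v, T.L'⟩ := by
      have hT : T = ⟨lat (t • l + i • p) y, T.u, T.v, T.L'⟩ := by
        rw [m1, ← ad.hL]
      have hok := hST.ok'
      rw [hT] at hok
      have := SEq.mPlus hok (by rw [e1]; exact h1) (by rw [m2, e1]; exact h2)
        (by rw [e2]; exact h3) (by rw [e1, e2]; exact h4)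
      rw [← hT] at this
      exact this
    obtain ⟨l2, p2, l2', p2', ad2⟩ := exists_Ad k1.ok'
    have n1 := ad2.h6
    have n2 : cr (T.u + T.v + (t • l + i • p)) p2' = 0 := by
      have : p2' ∈ lat l' p' := by
        have := ad2.hL'
        dsimp only at this
        rw [← ad.hL', this]
        exact mem_lat.2 ⟨0, 1, by module⟩
      obtain ⟨m, n, e⟩ := mem_lat.1 this
      rw [← e, cr_add_right, cr_smul_right, cr_smul_right, hn.1, hn.2]; ring
    dsimp only at n1
    omega
  have k2 := isC_lat hne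
  rw [e3, e4, Int.neg_gcd, ← ad.hL'] at k2
  exact h.exitPlus hST (x := t • l + i • p) (y := y) (by rw [m1]; exact ad.hL)
    (by rw [e1]; exact h1) (by rw [m2, e1]; exact h2) (by rw [e2]; exact h3)
    (by rw [e1, e2]; exact h4) k2

/-- LEVEL `i` EXIT on the left side, `x = t l + i p`, `u → u - v - x` -/
theorem Ext.exM {S : PSt} {b b' : ℤ} (h : Ext S b b') {T : PSt} (hST : SEq S T) {l p l' p' : Z2}
    (ad : Ad T l p l' p') {i t : ℤ} (hit : IsCoprime t i)
    (h1 : 0 < t * cr T.u l + i * cr T.u p) (h2 : t * cr T.u l + i * cr T.u p ≤ cr p l)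
    (h3 : -(t * cr T.u l + i * cr T.u p) < i * cr p T.v) (h4 : i * cr p T.v < cr T.u T.v) :
    b ≤ Int.gcd (cr l' T.v + t * cr l' l + i * cr l' p)
      (cr T.u p' + cr p' T.v + t * cr p' l + i * cr p' p) := by
  obtain ⟨y, m1, m2⟩ := exists_basis (l := l) (p := p) (w := t • l + i • p) (α := t) (β := i) rfl
    hit
  have e1 : cr T.u (t • l + i • p) = t * cr T.u l + i * cr T.u p := by
    rw [cr_add_right, cr_smul_right, cr_smul_right]
  have e2 : cr (t • l + i • p) T.v = i * cr p T.v := by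
    rw [cr_add_left, cr_smul_left, cr_smul_left, ad.h1]; ring
  have e3 : cr (T.u - T.v - (t • l + i • p)) l' = cr l' T.v + t * cr l' l + i * cr l' p := by
    simp only [cr_sub_left, cr_add_left, cr_smul_left]
    rw [ad.h4, cr_swap T.v l', cr_swap l l', cr_swap p l']; ring
  have e4 : cr (T.u - T.v - (t • l + i • p)) p' =
      cr T.u p' + cr p' T.v + t * cr p' l + i * cr p' p := by
    simp only [cr_sub_left, cr_add_left, cr_smul_left]
    rw [cr_swap T.v p', cr_swap l p', cr_swap p p']; ring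
  have hne : cr (T.u - T.v - (t • l + i • p)) l' ≠ 0 ∨
      cr (T.u - T.v - (t • l + i • p)) p' ≠ 0 := by
    by_contra hn
    push Not at hn
    have k1 : SEq T ⟨lat (t • l + i • p) (y - T.v), T.u - T.v - (t • l + i • p), T.v, T.L'⟩ := by
      have hT : T = ⟨lat (t • l + i • p) y, T.u, T.v, T.L'⟩ := by
        rw [m1, ← ad.hL]
      have hok := hST.ok'
      rw [hT] at hok
      have := SEq.mMinus hok (by rw [e1]; exact h1) (by rw [m2, e1]; exact h2)
        (by rw [e1, e2]; exact h3) (by rw [e2]; exact h4)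
      rw [← hT] at this
      exact this
    obtain ⟨l2, p2, l2', p2', ad2⟩ := exists_Ad k1.ok'
    have n1 := ad2.h6
    have n2 : cr (T.u - T.v - (t • l + i • p)) p2' = 0 := by
      have : p2' ∈ lat l' p' := by
        have := ad2.hL'
        dsimp only at this
        rw [← ad.hL', this]
        exact mem_lat.2 ⟨0, 1, by module⟩
      obtain ⟨m, n, e⟩ := mem_lat.1 this
      rw [← e, cr_add_right, cr_smul_right, cr_smul_right, hn.1, hn.2]; ring
    dsimp only at n1
    omega
  have k2 := isC_lat hne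
  rw [e3, e4, ← ad.hL'] at k2
  exact h.exitMinus hST (x := t • l + i • p) (y := y) (by rw [m1]; exact ad.hL)
    (by rw [e1]; exact h1) (by rw [m2, e1]; exact h2) (by rw [e1, e2]; exact h3)
    (by rw [e2]; exact h4) k2

/-! ## The mirror, exits on the right side -/

theorem Ad.mirror {S : PSt} {l p l' p' : Z2} (h : Ad S l p l' p') :
    Ad ⟨S.L', S.v, -S.u, S.L⟩ (-l') p' l (-p) := by
  refine ⟨?_, ?_, ?_, ?_, ?_, ?_, ?_, ?_, ?_⟩
  · dsimp only; rw [lat_neg_left, h.hL']
  · dsimp only; rw [lat_neg_right, h.hL]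
  · dsimp only; rw [cr_neg_left, cr_neg_right, neg_neg, cr_swap l' S.u, h.h4, neg_zero]
  · dsimp only; rw [cr_neg_right, cr_swap S.v l', neg_neg]; exact h.h5
  · dsimp only; rw [cr_neg_right, cr_swap p' S.u, neg_neg]; exact h.h6
  · dsimp only; rw [cr_swap S.v l, h.h1, neg_zero]
  · dsimp only; rw [cr_neg_right, cr_swap l S.u, neg_neg]; exact h.h2
  · dsimp only; rw [cr_neg_right, cr_swap S.v p, neg_neg]; exact h.h3
  · dsimp only; rw [cr_neg_right, cr_swap S.v S.u, neg_neg]; exact h.hA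

/-- LEVEL `i` EXIT on the right side, `x = t l' + i p'` (the mirror of `Ext.exP`) -/
theorem Ext.exP' {S : PSt} {b b' : ℤ} (h : Ext S b b') {T : PSt} (hST : SEq S T) {l p l' p' : Z2}
    (ad : Ad T l p l' p') {i t : ℤ} (hit : IsCoprime t i)
    (h1 : 0 < t * cr l' T.v + i * cr p' T.v) (h2 : t * cr l' T.v + i * cr p' T.v ≤ cr l' p')
    (h3 : -cr T.u T.v < i * cr T.u p') (h4 : i * cr T.u p' < t * cr l' T.v + i * cr p' T.v) :
    b ≤ Int.gcd (cr T.u l + t * cr l' l + i * cr p' l)
      (cr p T.v - cr T.u p - t * cr l' p - i * cr p' p) := by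
  have m1 : SEq S ⟨T.L', T.v, -T.u, T.L⟩ :=
    hST.trans (SEq.mirror (L := T.L) (L' := T.L') (u := T.u) (v := T.v) hST.ok')
  have e1 : cr T.v (-l') = cr l' T.v := by rw [cr_neg_right, cr_swap T.v l', neg_neg]
  have e2 : cr T.v p' = -cr p' T.v := cr_swap _ _
  have e3 : cr p' (-l') = cr l' p' := by rw [cr_neg_right, cr_swap p' l', neg_neg]
  have e4 : cr p' (-T.u) = cr T.u p' := by rw [cr_neg_right, cr_swap p' T.u, neg_neg]
  have e5 : cr T.v (-T.u) = cr T.u T.v := by rw [cr_neg_right, cr_swap T.v T.u, neg_neg]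
  have h6 := h.exM m1 ad.mirror (i := -i) (t := t) hit.neg_right
    (by dsimp only; rw [e1, e2]; linarith) (by dsimp only; rw [e1, e2, e3]; linarith)
    (by dsimp only; rw [e1, e2, e4]; linarith) (by dsimp only; rw [e4, e5]; linarith)
  dsimp only at h6
  have f1 : cr l (-T.u) + t * cr l (-l') + -i * cr l p' =
      cr T.u l + t * cr l' l + i * cr p' l := by
    rw [cr_neg_right, cr_neg_right, cr_swap l T.u, cr_swap l l', cr_swap l p']; ring
  have f2 : cr T.v (-p) + cr (-p) (-T.u) + t * cr (-p) (-l') + -i * cr (-p) p' =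
      cr p T.v - cr T.u p - t * cr l' p - i * cr p' p := by
    simp only [cr_neg_right, cr_neg_left]
    rw [cr_swap T.v p, cr_swap p T.u, cr_swap p l', cr_swap p p']; ring
  rw [f1, f2] at h6
  exact h6

/-- LEVEL `i` EXIT on the right side, `x = t l' + i p'` (the mirror of `Ext.exM`) -/
theorem Ext.exM' {S : PSt} {b b' : ℤ} (h : Ext S b b') {T : PSt} (hST : SEq S T) {l p l' p' : Z2}
    (ad : Ad T l p l' p') {i t : ℤ} (hit : IsCoprime t i)
    (h1 : 0 < t * cr l' T.v + i * cr p' T.v) (h2 : t * cr l' T.v + i * cr p' T.v ≤ cr l' p')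
    (h3 : -(t * cr l' T.v + i * cr p' T.v) < i * cr T.u p') (h4 : i * cr T.u p' < cr T.u T.v) :
    b ≤ Int.gcd (cr T.u l + t * cr l' l + i * cr p' l)
      (cr p T.v + cr T.u p + t * cr l' p + i * cr p' p) := by
  have m1 : SEq S ⟨T.L', T.v, -T.u, T.L⟩ :=
    hST.trans (SEq.mirror (L := T.L) (L' := T.L') (u := T.u) (v := T.v) hST.ok')
  have e1 : cr T.v (-l') = cr l' T.v := by rw [cr_neg_right, cr_swap T.v l', neg_neg]
  have e2 : cr T.v p' = -cr p' T.v := cr_swap _ _
  have e3 : cr p' (-l') = cr l' p' := by rw [cr_neg_right, cr_swap p' l', neg_neg]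
  have e4 : cr p' (-T.u) = cr T.u p' := by rw [cr_neg_right, cr_swap p' T.u, neg_neg]
  have e5 : cr T.v (-T.u) = cr T.u T.v := by rw [cr_neg_right, cr_swap T.v T.u, neg_neg]
  have h6 := h.exP m1 ad.mirror (i := -i) (t := t) hit.neg_right
    (by dsimp only; rw [e1, e2]; linarith) (by dsimp only; rw [e1, e2, e3]; linarith)
    (by dsimp only; rw [e4, e5]; linarith) (by dsimp only; rw [e1, e2, e4]; linarith)
  dsimp only at h6
  have f1 : cr l (-T.u) + t * cr l (-l') + -i * cr l p' =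
      cr T.u l + t * cr l' l + i * cr p' l := by
    rw [cr_neg_right, cr_neg_right, cr_swap l T.u, cr_swap l l', cr_swap l p']; ring
  have f2 : cr T.v (-p) - cr (-p) (-T.u) - t * cr (-p) (-l') - -i * cr (-p) p' =
      cr p T.v + cr T.u p + t * cr l' p + i * cr p' p := by
    simp only [cr_neg_right, cr_neg_left]
    rw [cr_swap T.v p, cr_swap p T.u, cr_swap p l', cr_swap p p']; ring
  rw [f1, f2] at h6
  exact h6

/-- the state after `H_i` is again extremal if `b` does not change -/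
theorem Ext.H {S : PSt} {b b' : ℤ} (h : Ext S b b') {l p l' p' : Z2} (ad : Ad S l p l' p') (i : ℤ)
    (h1 : (Int.gcd (i * (cr S.u l + cr l' l)) (b - i * (cr S.u p + cr l' p)) : ℤ) = b) :
    ∃ T : PSt, ∃ l1 p1 : Z2, SEq S T ∧ Ext T b b' ∧ Ad T l1 p1 l' (p' + i • S.u) ∧
      T.L = S.L ∧ T.u = S.u ∧ T.v = S.v + i • (S.u + l') ∧ T.L' = lat l' (p' + i • S.u) := by
  obtain ⟨E1, E2, hA, hle, _⟩ := h.rig ad
  have hb0 := h.bpos
  have hb0' := h.hb'.1
  have k1 := ad.twH h.ok (by rw [E2]; exact hA.trans hle) i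
  set T : PSt := ⟨S.L, S.u, S.v + i • (S.u + l'), lat l' (p' + i • S.u)⟩ with hT
  have e3 : cr T.u T.v = cr S.u S.v := by
    simp only [hT]
    rw [cr_add_right, cr_smul_right, cr_add_right, cr_self, ad.h4]; ring
  have k3 : IsC T.L T.v b := by
    have m2 := isC_lat (x := l) (y := p) (u := T.v)
    have n1 : cr T.v l = i * (cr S.u l + cr l' l) := by
      simp only [hT]
      rw [cr_add_left, cr_smul_left, cr_add_left, cr_swap S.v l, ad.h1]; ring
    have n2 : cr T.v p = -(b - i * (cr S.u p + cr l' p)) := by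
      simp only [hT]
      rw [cr_add_left, cr_smul_left, cr_add_left, cr_swap S.v p, E1]; ring
    rw [n1, n2] at m2
    have m3 := m2 (by
      by_contra hn
      push Not at hn
      rw [hn.1, neg_eq_zero.1 hn.2] at h1
      simp at h1
      omega)
    rw [Int.gcd_neg, h1, ← ad.hL] at m3
    exact m3
  have e4 : cr T.u (p' + i • S.u) = b' := by
    simp only [hT]
    rw [cr_add_right, cr_smul_right, cr_self, E2]; ring
  have k4 : IsC T.L' T.u b' := by
    have : IsC (lat l' (p' + i • S.u)) T.u (cr T.u (p' + i • S.u)) :=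
      isC_adapted ad.h4 (by rw [e4]; exact hb0')
    rw [e4] at this
    exact this
  obtain ⟨l1, p1, l1', p1', ad1⟩ := exists_Ad k1.ok'
  have e5 : cr l' T.v = cr l' S.v := by
    simp only [hT]
    rw [cr_add_right, cr_smul_right, cr_add_right, cr_self, cr_swap l' S.u, ad.h4]; ring
  have ad2 : Ad T l1 p1 l' (p' + i • S.u) :=
    ⟨ad1.hL, rfl, ad1.h1, ad1.h2, ad1.h3, ad.h4, by rw [e5]; exact ad.h5,
      by rw [e4]; exact hb0', ad1.hA⟩
  exact ⟨T, l1, p1, k1, h.of_eq k1 k3 (by rw [e3]; exact hA) k4, ad2, rfl, rfl, rfl, rfl⟩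

end Pool.Agent.H4G
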