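import Pool.Agent.H4G.Arith.LoopCore

/-!
# Right exits of every level from the H-twisted states (helper5)

Mirror of `Ad.exitSt`; only `A ≤ gcd (L' × u)` is used.
-/

set_option autoImplicit false

namespace Pool.Agent.H4G

/-- RIGHT EXIT of level `n` from `H_i T`: the new state is
`(L, u, v + (o + i (1 + n)) u + (t + i) l' + n p', ⟨l' - n u, p' + (t + i) u⟩)`. -/
theorem Ad.rexitSt {T : PSt} {l p l' p' : Z2} (ad : Ad T l p l' p') (hok : T.Ok)
    (hA : cr T.u T.v ≤ cr T.u p') {n i o t : ℤ} (hn : 0 ≤ n) (ho : o = 1 ∨ o = -1)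
    (hco : IsCoprime t n)
    (h1 : n * cr T.u p' < o * (t * cr l' T.v + n * (cr p' T.v -
      i * (cr l' p' + cr T.u p' - cr T.u T.v))))
    (h2 : o * (t * cr l' T.v + n * (cr p' T.v -
      i * (cr l' p' + cr T.u p' - cr T.u T.v))) ≤ cr l' p') :
    ∃ T' : PSt, SEq T T' ∧ T'.L = T.L ∧ T'.u = T.u ∧
      T'.v = T.v + (o + i * (1 + n)) • T.u + (t + i) • l' + n • p' ∧
      T'.L' = lat (l' - n • T.u) (p' + (t + i) • T.u) ∧ IsC T'.L' T'.u (cr T.u p') := by
  have m1 := SEq.mirror (L := T.L) (L' := T.L') (u := T.u) (v := T.v) hok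
  have e1 : cr T.v (-l') = cr l' T.v := by rw [cr_neg_right, cr_swap T.v l', neg_neg]
  have e2 : cr T.v p' = -cr p' T.v := cr_swap _ _
  have e3 : cr p' (-l') = cr l' p' := by rw [cr_neg_right, cr_swap p' l', neg_neg]
  have e4 : cr p' (-T.u) = cr T.u p' := by rw [cr_neg_right, cr_swap p' T.u, neg_neg]
  have e5 : cr T.v (-T.u) = cr T.u T.v := by rw [cr_neg_right, cr_swap T.v T.u, neg_neg]
  obtain ⟨T2, k1, k2, k3, k4, k5, k6⟩ := ad.mirror.exitSt m1.ok' (by
      dsimp only; rw [e4, e5]; exact hA) (n := n) (j := i) (o := -o) (τ := -(t + i)) hn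
    (by rcases ho with rfl | rfl <;> simp) (by
      have : -(t + i) + i = -t := by ring
      rw [this]; exact hco.neg_left)
    (by dsimp only; rw [e1, e2, e3, e4, e5]; linarith)
    (by dsimp only; rw [e1, e2, e3, e4, e5]; linarith)
  dsimp only at k2 k3 k4 k5 k6
  obtain ⟨L2, u2, v2, L2'⟩ := T2
  dsimp only at k2 k3 k4 k5 k6
  subst k2 k3
  have m2 := SEq.mirror (L := L2) (L' := T.L) (u := u2) (v := -T.u) k1.ok'
  -- `(T.L, -u, -u2, L2)`
  have m3 := SEq.neg m2.ok'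
  rw [neg_neg, neg_neg] at m3
  refine ⟨⟨T.L, T.u, u2, L2⟩, (m1.trans k1).trans (m2.trans m3), rfl, rfl, ?_, ?_, ?_⟩
  · dsimp only
    rw [k5]; module
  · dsimp only
    rw [k4]
    have f1 : -l' - n • -T.u = -(l' - n • T.u) := by module
    have f2 : p' + -(t + i) • -T.u = p' + (t + i) • T.u := by module
    rw [f1, f2, lat_neg_left]
  · dsimp only
    rw [e4] at k6
    have := k6.neg
    rwa [neg_neg] at this

/-- the gap after a right exit, frame `Ext` (`b` minimal over the whole class) -/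
theorem Ext.rexit {S T : PSt} {b b' : ℤ} (h : Ext S b b') (hST : SEq S T) {l p l' p' : Z2}
    (ad : Ad T l p l' p') (hA : cr T.u T.v ≤ cr T.u p') {n i o t : ℤ} (hn : 0 ≤ n)
    (ho : o = 1 ∨ o = -1) (hco : IsCoprime t n)
    (h1 : n * cr T.u p' < o * (t * cr l' T.v + n * (cr p' T.v -
      i * (cr l' p' + cr T.u p' - cr T.u T.v))))
    (h2 : o * (t * cr l' T.v + n * (cr p' T.v -
      i * (cr l' p' + cr T.u p' - cr T.u T.v))) ≤ cr l' p') {c : ℤ}
    (hc : IsC T.L (T.v + (o + i * (1 + n)) • T.u + (t + i) • l' + n • p') c) : b ≤ c := by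
  obtain ⟨T', k1, k2, k3, k4, k5, k6⟩ := ad.rexitSt hST.ok' hA hn ho hco h1 h2
  refine h.min T' c (hST.trans k1) ?_
  rw [k2, k4]; exact hc

/-- the gap after a left exit, frame `Ext` -/
theorem Ext.lexit {S T : PSt} {b b' : ℤ} (h : Ext S b b') (hST : SEq S T) {l p l' p' : Z2}
    (ad : Ad T l p l' p') (hA : cr T.u T.v ≤ cr p T.v) {n j o τ : ℤ} (hn : 0 ≤ n)
    (ho : o = 1 ∨ o = -1) (hco : IsCoprime (τ + j) n)
    (h1 : n * cr p T.v < o * ((τ + j) * cr T.u l + n * (cr T.u p +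
      j * (cr p l + cr p T.v - cr T.u T.v))))
    (h2 : o * ((τ + j) * cr T.u l + n * (cr T.u p + j * (cr p l + cr p T.v - cr T.u T.v))) ≤
      cr p l) {c : ℤ}
    (hc : IsC T.L' (T.u + (o - j * (1 + n)) • T.v + τ • l + n • p) c) : b ≤ c := by
  obtain ⟨T', k1, k2, k3, k4, k5, k6⟩ := ad.exitSt hST.ok' hA hn ho hco h1 h2
  refine h.min2 (hST.trans k1) ?_
  rw [k2, k5]; exact hc

/-- the same in integers: `v^ = v + q u + τ l' + n p'`, `q = o + i (1 + n)`, `τ = t + i`,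
`l × v^ = -(q e + τ k₁ + n k₂)`, `p × v^ = b - q f - τ k₃ - n k₄` -/
theorem Ext.rexitZ {S T : PSt} {b b' : ℤ} (h : Ext S b b') (hST : SEq S T) {l p l' p' : Z2}
    (ad : Ad T l p l' p') (hA : cr T.u T.v ≤ cr T.u p') {n i o t : ℤ} (hn : 0 ≤ n)
    (ho : o = 1 ∨ o = -1) (hco : IsCoprime t n)
    (h1 : n * cr T.u p' < o * (t * cr l' T.v + n * (cr p' T.v -
      i * (cr l' p' + cr T.u p' - cr T.u T.v))))
    (h2 : o * (t * cr l' T.v + n * (cr p' T.v -
      i * (cr l' p' + cr T.u p' - cr T.u T.v))) ≤ cr l' p') :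
    b ≤ Int.gcd ((o + i * (1 + n)) * cr T.u l + (t + i) * cr l' l + n * cr p' l)
      (cr p T.v - (o + i * (1 + n)) * cr T.u p - (t + i) * cr l' p - n * cr p' p) := by
  obtain ⟨T', k1, k2, k3, k4, k5, k6⟩ := ad.rexitSt hST.ok' hA hn ho hco h1 h2
  set w := T.v + (o + i * (1 + n)) • T.u + (t + i) • l' + n • p' with hw
  have e1 : cr w l = (o + i * (1 + n)) * cr T.u l + (t + i) * cr l' l + n * cr p' l := by
    rw [hw]
    simp only [cr_add_left, cr_smul_left]
    rw [cr_swap T.v l, ad.h1]; ring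
  have e2 : cr w p = -(cr p T.v - (o + i * (1 + n)) * cr T.u p - (t + i) * cr l' p -
      n * cr p' p) := by
    rw [hw]
    simp only [cr_add_left, cr_smul_left]
    rw [cr_swap T.v p]; ring
  have hne : cr w l ≠ 0 ∨ cr w p ≠ 0 := by
    by_contra hn'
    push Not at hn'
    obtain ⟨l2, p2, l2', p2', ad2⟩ := exists_Ad k1.ok'
    have n1 := ad2.h3
    rw [k4] at n1
    have : p2 ∈ lat l p := by
      have := ad2.hL
      rw [← ad.hL, ← k2, this]
      exact mem_lat.2 ⟨0, 1, by module⟩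
    obtain ⟨m, n', e⟩ := mem_lat.1 this
    have : cr p2 w = 0 := by
      rw [← e, cr_add_left, cr_smul_left, cr_smul_left, cr_swap l w, cr_swap p w, hn'.1, hn'.2]
      ring
    omega
  have k7 := isC_lat hne
  rw [e1, e2, Int.gcd_neg, ← ad.hL] at k7
  exact h.rexit hST ad hA hn ho hco h1 h2 k7

end Pool.Agent.H4G
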