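import Pool.Agent.H4G.Arith.Fin20
import Pool.Agent.H4G.Arith.ExitD

/-!
# Exits of level one in the frame ExtB; the case `gcd (L' × u₁) = u₁ × v` (helper23)
-/

set_option autoImplicit false

namespace Pool.Agent.H4G

/-- the numbers of an allowed left exit of level one -/
def LEx (A b e f a q τ : ℤ) : Prop :=
  ∃ o j : ℤ, (o = 1 ∨ o = -1) ∧ q = o - 2 * j ∧
    b < o * ((τ + j) * e + (f + j * (a + b - A))) ∧
    o * ((τ + j) * e + (f + j * (a + b - A))) ≤ a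

theorem LEx.odd {A b e f a q τ : ℤ} (h : LEx A b e f a q τ) : ¬ (2 : ℤ) ∣ q := by
  obtain ⟨o, j, ho, hq, _⟩ := h
  rw [hq]
  rcases ho with rfl | rfl <;> omega

theorem LEx.lt {A b e f a q τ : ℤ} (h : LEx A b e f a q τ) : b < a := by
  obtain ⟨o, j, ho, hq, h1, h2⟩ := h
  omega

/-- the exit state -/
theorem ExtB.exitT {S : PSt} {a' b c : ℤ} (h : ExtB S a' b c) {l p l' p' : Z2}
    (ad : Ad S l p l' p') {q τ : ℤ}
    (hx : LEx (cr S.u S.v) (cr p S.v) (cr S.u l) (cr S.u p) (cr p l) q τ) :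
    ∃ T : PSt, SEq S T ∧ T.L' = S.L' ∧ T.v = S.v ∧ T.L = lat (l - S.v) (p + τ • S.v) ∧
      T.u = S.u + q • S.v + τ • l + p ∧ IsC T.L T.v b := by
  obtain ⟨o, j, ho, hq, h1, h2⟩ := hx
  have E1 : cr p S.v = b := ad.isC.unique h.hb
  obtain ⟨T, k1, k2, k3, k4, k5, k6⟩ := ad.exitSt h.ok (by rw [E1]; exact h.hA) (n := 1)
    (by norm_num) ho isCoprime_one_right (τ := τ) (j := j)
    (by rw [one_mul, one_mul]; exact h1) (by rw [one_mul]; exact h2)
  refine ⟨T, k1, k2, k3, by rw [k4, one_smul], ?_, by rw [← E1]; exact k6⟩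
  rw [k5, hq, one_smul]
  congr 4
  ring

/-- `u₁ × v ≤ gcd (L' × u₁)` -/
theorem ExtB.exit_le {S : PSt} {a' b c : ℤ} (h : ExtB S a' b c) {l p l' p' : Z2}
    (ad : Ad S l p l' p') {q τ : ℤ}
    (hx : LEx (cr S.u S.v) (cr p S.v) (cr S.u l) (cr S.u p) (cr p l) q τ) {B : ℤ}
    (hB : IsC S.L' (S.u + q • S.v + τ • l + p) B) :
    cr (S.u + q • S.v + τ • l + p) S.v ≤ B := by
  obtain ⟨T, k1, k2, k3, k4, k5, k6⟩ := h.exitT ad hx
  have := h.leA k1 (by rw [k2]; exact h.ha') (by rw [k2]; exact h.con) (d := B) (by rw [k2, k5]; exact hB)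
  rwa [k5, k3] at this

/-- the structure `Pair` at an exit with minimal `B` -/
theorem ExitMinD.pair' {N : ℕ} (hN : N.Prime) {S : PSt} {a' b c : ℤ} {l p l' p' : Z2}
    {q τ B : ℤ} (h : ExitMinD S a' b c l p l' p' q τ 1 B)
    (hv : cr p l + cr S.u S.v + cr l' p' = N)
    (hx : LEx (cr S.u S.v) (cr p S.v) (cr S.u l) (cr S.u p) (cr p l) q τ)
    (hw0 : cr S.u (S.u + q • S.v + τ • l + p) ≠ 0) :
    Pair N S l p l' p' (S.u + q • S.v + τ • l + p) q τ B := by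
  obtain ⟨o, j, ho, hq, h1, h2⟩ := hx
  exact h.pair hN hv ho hq h1 h2 hw0

/-- H-rigidity at one prime, also when `q ∤ a'` -/
theorem ExtB.hrigAt_mulF {S T : PSt} {a' b c : ℤ} (h : ExtB S a' b c) (hST : SEq S T)
    (haT : IsArea T.L' a') (hcT : Con1 T.L') (hT : IsC T.L T.v b) {g : ℤ}
    (hg : IsC T.L' T.u g) {q : ℕ} (hq : q.Prime)
    (hq2 : q ≠ 2 ∨ ¬ (q : ℤ) ∣ g ∨ ¬ (q : ℤ) ∣ a') {k : ℕ}
    (hk : (q : ℤ) ^ k ∣ b) {w : Z2} (hw : w ∈ T.L) :
    (q : ℤ) ^ k * g ∣ (g + a') * cr T.u w := by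
  obtain ⟨l, p, l', p', ad⟩ := exists_Ad hST.ok'
  have e1 : cr T.u p' = g := ad.isC'.unique hg
  have e2 : cr l' p' = a' := ad.isArea'.unique haT
  have hcl : Con1 (lat l' p') := by rw [← ad.hL']; exact hcT
  obtain ⟨h1, h2⟩ := h.hrigAt hST haT hcT hT ad hq (by
    rcases hq2 with h | h | h
    · exact Alw.exists_odd hcl hq h
    · exact ⟨1, prime_not_dvd_one hq, Alw.of_not_dvd (by rw [e1]; exact h) 1⟩
    · refine ⟨1, prime_not_dvd_one hq, ?_⟩
      rintro ⟨h3, h4⟩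
      apply h
      have h5 := h3.cr_left (p' + (1 : ℤ) • T.u)
      rwa [cr_add_right, cr_smul_right, cr_swap l' T.u, ad.h4, neg_zero, mul_zero, add_zero,
        e2] at h5) hk
  have e4 : (q : ℤ) ^ k ∣ cr (T.u + l') w := by
    rw [ad.hL] at hw
    obtain ⟨m, n, e⟩ := mem_lat.1 hw
    rw [← e, cr_add_right, cr_smul_right, cr_smul_right]
    exact dvd_add (h1.mul_left _) (h2.mul_left _)
  have e6 := ad.cr_W w
  rw [e1, e2] at e6
  rw [← e6]
  exact mul_dvd_mul_right e4 g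

/-- F3 in the frame ExtB: `gcd (L' × u₁) = u₁ × v` forces `b ∣ L₁` -/
theorem ExtB.f3D {N : ℕ} (hN : N.Prime) {S : PSt} {a' b c : ℤ} (h : ExtB S a' b c)
    {l p l' p' : Z2} (ad : Ad S l p l' p') (hv : cr p l + cr S.u S.v + cr l' p' = N) {q τ : ℤ}
    (hx : LEx (cr S.u S.v) (cr p S.v) (cr S.u l) (cr S.u p) (cr p l) q τ)
    (hB : IsC S.L' (S.u + q • S.v + τ • l + p) (cr (S.u + q • S.v + τ • l + p) S.v))
    (hW : ∀ r : ℕ, r.Prime → (r : ℤ) ∣ c → (r : ℤ) ∣ a' →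
      ¬ (r : ℤ) ∣ cr (S.u + q • S.v + τ • l + p) S.v) :
    ∀ w ∈ lat (l - S.v) (p + τ • S.v), Dz b w := by
  obtain ⟨T, k1, k2, k3, k4, k5, k6⟩ := h.exitT ad hx
  have hab := hx.lt
  have E1 : cr p S.v = b := ad.isC.unique h.hb
  have E2 : cr S.u p' = c := ad.isC'.unique h.hc
  have E3 : cr l' p' = a' := ad.isArea'.unique h.ha'
  set w1 := S.u + q • S.v + τ • l + p with hw1
  have hA1 : cr w1 S.v = cr S.u S.v + b := by
    rw [hw1]
    simp only [cr_add_left, cr_smul_left, cr_self]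
    rw [ad.h1, E1]; ring
  have hA0 := ad.hA
  have hb0 := h.bpos
  have ha'0 := h.ha'.1
  have hA10 : 0 < cr w1 S.v := by rw [hA1]; linarith
  have area1 : IsArea (lat (l - S.v) (p + τ • S.v)) (cr p l - b) := by
    refine ⟨by rw [← E1]; linarith, l - S.v, p + τ • S.v, ?_, rfl⟩
    simp only [cr_add_left, cr_sub_right, cr_smul_left, cr_self]
    rw [cr_swap S.v l, ad.h1, E1]; ring
  have hv1 : (cr p l - b) + cr w1 S.v + a' = N := by rw [hA1, ← E3]; linarith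
  have kC : IsC (lat (l - S.v) (p + τ • S.v)) S.v b := by rw [← k4, ← k3]; exact k6
  have rig : ∀ r : ℕ, r.Prime → (r ≠ 2 ∨ ¬ (r : ℤ) ∣ cr w1 S.v ∨ ¬ (r : ℤ) ∣ a') →
      ∀ k : ℕ, (r : ℤ) ^ k ∣ b → ∀ w ∈ lat (l - S.v) (p + τ • S.v),
        (r : ℤ) ^ k * cr w1 S.v ∣ (cr w1 S.v + a') * cr w1 w := by
    intro r hr hr2 k hk w hw
    have := h.hrigAt_mulF k1 (by rw [k2]; exact h.ha') (by rw [k2]; exact h.con) k6
      (g := cr w1 S.v) (by rw [k2, k5]; exact hB) hr hr2 hk (w := w) (by rw [k4]; exact hw)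
    rwa [k5] at this
  have key : ∀ r : ℕ, r.Prime → ∀ k : ℕ, (r : ℤ) ^ k ∣ b →
      ∀ w ∈ lat (l - S.v) (p + τ • S.v), ∀ z, (r : ℤ) ^ k ∣ cr w z := by
    intro r hr k hk
    have hri := Nat.prime_iff_prime_int.1 hr
    rcases Nat.eq_zero_or_pos k with hk0 | hk0
    · intro w _ z; rw [hk0, pow_zero]; exact one_dvd _
    have hrb : (r : ℤ) ∣ b := (dvd_pow_self _ (by omega)).trans hk
    rcases f3 hN hA10 area1 h.ha' hv1 kC hB hr hk (fun hra w hw => by
      refine rig r hr ?_ k hk w hw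
      by_cases hr2 : r = 2
      · right
        by_cases h3 : (r : ℤ) ∣ cr w1 S.v
        · right
          exact not_dvd_of_prime hN (by have := area1.1; linarith :
            (0 : ℤ) < (cr p l - b) + cr w1 S.v) ha'0 hv1 hr (dvd_add hra h3)
        · exact Or.inl h3
      · exact Or.inl hr2) with h1 | h1
    swap
    · exact h1
    exfalso
    obtain ⟨hna, hvr⟩ := h1
    have hrv : ∀ z, (r : ℤ) ∣ cr S.v z := fun z => (dvd_pow_self _ (by omega)).trans (hvr z)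
    have hrA1 : (r : ℤ) ∣ cr w1 S.v := by
      rw [cr_swap w1 S.v]; exact (dvd_neg).2 (hrv _)
    have hna2 : ¬ (r : ℤ) ∣ cr p l := fun h3 => hna (dvd_sub h3 hrb)
    by_cases hra' : (r : ℤ) ∣ a'
    · by_cases hrc : (r : ℤ) ∣ c
      · exact hW r hr hrc hra' hrA1
      · have h2 : ∀ w ∈ S.L, (r : ℤ) ^ 1 ∣ cr S.u w := by
          intro w hw
          have h3 := h.hrigAt_mulF h.ok.seq h.ha' h.con h.hb h.hc hr (Or.inr (Or.inl hrc))
            (k := 1) (by simpa using hrb) hw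
          have h4 : (r : ℤ) ^ 1 ∣ (c + a') * cr S.u w := (Dvd.intro _ rfl).trans h3
          refine pow_dvd_of_mul hr h4 fun h5 => hrc ?_
          have := dvd_sub h5 hra'
          simpa using this
        have h3 := ad.isArea.dvd_all hr hna2 h2 p'
        rw [pow_one, E2] at h3
        exact hrc h3
    · have hna3 : ¬ (r : ℤ) ∣ cr w1 S.v + a' := by
        intro h3
        apply hra'
        have := dvd_sub h3 hrA1
        simpa using this
      obtain ⟨s, R, hR, hrR⟩ := exists_pow_mul hr hA10.ne'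
      have h2 : ∀ w ∈ lat (l - S.v) (p + τ • S.v), (r : ℤ) ^ (s + 1) ∣ cr w1 w := by
        intro w hw
        have h3 := rig r hr (Or.inr (Or.inr hra')) 1 (by simpa using hrb) w hw
        have h4 : (r : ℤ) ^ (s + 1) ∣ (cr w1 S.v + a') * cr w1 w := by
          refine Dvd.dvd.trans ?_ h3
          rw [pow_succ, mul_comm, pow_one]
          exact mul_dvd_mul_left _ (Dvd.intro _ hR.symm)
        exact pow_dvd_of_mul hr h4 hna3
      have h3 := area1.dvd_all hr hna h2 S.v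
      rw [hR, pow_succ] at h3
      have h4 := (mul_dvd_mul_iff_left (pow_ne_zero _ hri.ne_zero)).1 h3
      exact hrR h4
  intro w hw
  rw [Dz.iff]
  intro z
  exact dvd_of_primes fun r hr k hk => key r hr k hk w hw z

end Pool.Agent.H4G
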