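import Mathlib
import Pool.Agent.H4G.Asy.CVE

/-!
# The count for the second exit of case F3 (integer lemma of helper23; Lean helper73)
-/

set_option autoImplicit false

namespace Pool.Agent.H4G.F3c

open Finset

/-- distinct primes: some integer avoids one class modulo each of them -/
theorem avoid_primes (T : Finset ℕ) (hT : ∀ r ∈ T, r.Prime) (a : ℕ → ℤ) :
    ∃ x : ℤ, ∀ r ∈ T, ¬ (r : ℤ) ∣ x - a r := by
  classical
  induction T using Finset.induction_on with
  | empty => exact ⟨0, by simp⟩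
  | insert q T hq ih =>
    obtain ⟨x, hx⟩ := ih (fun r hr => hT r (mem_insert_of_mem hr))
    set M : ℤ := ∏ r ∈ T, (r : ℤ) with hM
    have hMd : ∀ r ∈ T, (r : ℤ) ∣ M := fun r hr => dvd_prod_of_mem _ hr
    have hqM : ¬ (q : ℤ) ∣ M := by
      intro h
      have hqp := Nat.prime_iff_prime_int.1 (hT q (mem_insert_self _ _))
      obtain ⟨r, hr, h2⟩ := (hqp.dvd_finsetProd_iff _).1 h
      have h3 := (Nat.prime_dvd_prime_iff_eq (hT q (mem_insert_self _ _))
        (hT r (mem_insert_of_mem hr))).1 (Int.natCast_dvd_natCast.1 h2)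
      exact hq (h3 ▸ hr)
    by_cases h : (q : ℤ) ∣ x - a q
    · refine ⟨x + M, fun r hr => ?_⟩
      rcases mem_insert.1 hr with rfl | hr'
      · intro h2
        apply hqM
        have h3 := dvd_sub h2 h
        have e : x + M - a r - (x - a r) = M := by ring
        rwa [e] at h3
      · intro h2
        apply hx r hr'
        have h3 := dvd_sub h2 (hMd r hr')
        have e : x + M - a r - M = x - a r := by ring
        rwa [e] at h3
    · refine ⟨x, fun r hr => ?_⟩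
      rcases mem_insert.1 hr with rfl | hr'
      · exact h
      · exact hx r hr'

theorem cve_primes (T : Finset ℕ) (hT : ∀ r ∈ T, r.Prime) (a : ℕ → ℤ) (s : ℤ) :
    ∃ x : ℤ, s ≤ x ∧ x < s + 2 ^ T.card ∧ ∀ r ∈ T, ¬ (r : ℤ) ∣ x - a r := by
  obtain ⟨x₀, h₀⟩ := avoid_primes T hT a
  exact Asy.exists_avoid T (fun r => (r : ℤ)) a
    (fun r hr => by exact_mod_cast (hT r hr).pos) h₀ s

/-- the window contains `K` consecutive integers -/
theorem window {c G M K : ℤ} (hG : 0 < G) (hK : K * G < M) :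
    ∃ s : ℤ, ∀ n, s ≤ n → n < s + K → |c + 2 * G * n| < M := by
  refine ⟨(-M - c) / (2 * G) + 1, fun n h1 h2 => ?_⟩
  have hG2 : 0 < 2 * G := by linarith
  have e1 : 2 * G * ((-M - c) / (2 * G)) ≤ -M - c := Int.mul_ediv_self_le hG2.ne'
  have e2 : -M - c < 2 * G * ((-M - c) / (2 * G) + 1) := by
    have := Int.lt_mul_ediv_self_add (x := -M - c) hG2
    linarith
  set q := (-M - c) / (2 * G) with hq
  rw [abs_lt]
  constructor
  · have : 2 * G * (q + 1) ≤ 2 * G * n := mul_le_mul_of_nonneg_left h1 hG2.le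
    linarith
  · have h3 : n ≤ q + K := by linarith
    have : 2 * G * n ≤ 2 * G * (q + K) := mul_le_mul_of_nonneg_left h3 hG2.le
    nlinarith

/-- the forbidden `n` of the last condition -/
theorem forb {A b m f G n : ℤ}
    (h : 2 * b ∣ 2 * f - (b - A) * (2 + b * m) + 2 * G * n - b * m * (b - A)) :
    b ∣ f + A + G * n := by
  obtain ⟨t, ht⟩ := h
  refine ⟨t + (1 + (b - A) * m), ?_⟩
  have : 2 * (f + A + G * n) = 2 * (b * (t + (1 + (b - A) * m))) := by
    linear_combination ht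
  linarith

/-- a prime outside `P` whose power in `b` is larger than in `A` -/
theorem case_out {A b m f : ℤ} {G e1 : ℤ} (hG : 0 < G) (he : A * (1 + b * m) = G * e1)
    (P : Finset ℕ) (κ : ℕ → ℤ) (hP : ∀ r ∈ P, r.Prime)
    {r : ℕ} (hr : r.Prime) (hrP : r ∉ P) {i : ℕ} (hrb : (r : ℤ) ^ (i + 1) ∣ b)
    (hrA : ¬ (r : ℤ) ^ (i + 1) ∣ A) (hL : 2 ^ (P.card + 1) * G < (b + A) * (b * m)) :
    ∃ n : ℤ, |2 * f - (b - A) * (2 + b * m) + 2 * G * n| < (b + A) * (b * m) ∧
      (∀ r ∈ P, ¬ (r : ℤ) ∣ n - κ r) ∧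
      ¬ 2 * b ∣ 2 * f - (b - A) * (2 + b * m) + 2 * G * n - b * m * (b - A) := by
  classical
  have hr' := Nat.prime_iff_prime_int.1 hr
  have hrb1 : (r : ℤ) ∣ b := (dvd_pow_self _ (Nat.succ_ne_zero i)).trans hrb
  have hry : IsCoprime ((r : ℤ) ^ (i + 1)) (1 + b * m) := by
    refine IsCoprime.pow_left ((hr'.coprime_iff_not_dvd).2 ?_)
    intro h
    have h2 : (r : ℤ) ∣ 1 := by
      have := dvd_sub h (hrb1.mul_right m)
      simpa using this
    exact hr'.not_isUnit (isUnit_of_dvd_one h2)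
  have hrG : ¬ (r : ℤ) ^ (i + 1) ∣ G := by
    intro h
    apply hrA
    refine hry.dvd_of_dvd_mul_right ?_
    rw [he]
    exact h.mul_right _
  -- the class modulo `r`
  obtain ⟨n₀, hn₀⟩ : ∃ n₀ : ℤ, ∀ n, b ∣ f + A + G * n → (r : ℤ) ∣ n - n₀ := by
    by_cases hex : ∃ n₀, b ∣ f + A + G * n₀
    · obtain ⟨n₀, hn₀⟩ := hex
      refine ⟨n₀, fun n hn => ?_⟩
      by_contra hc
      apply hrG
      have h1 : (r : ℤ) ^ (i + 1) ∣ G * (n - n₀) := by
        have := hrb.trans (dvd_sub hn hn₀)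
        have e : f + A + G * n - (f + A + G * n₀) = G * (n - n₀) := by ring
        rwa [e] at this
      exact (IsCoprime.pow_left ((hr'.coprime_iff_not_dvd).2 hc)).dvd_of_dvd_mul_right h1
    · exact ⟨0, fun n hn => absurd ⟨n, hn⟩ hex⟩
  obtain ⟨s, hs⟩ := window (c := 2 * f - (b - A) * (2 + b * m)) hG hL
  obtain ⟨x, hx1, hx2, hx3⟩ := cve_primes (insert r P)
    (by
      intro q hq
      rcases mem_insert.1 hq with rfl | h
      · exact hr
      · exact hP q h)
    (fun q => if q = r then n₀ else κ q) s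
  rw [card_insert_of_notMem hrP] at hx2
  refine ⟨x, hs x hx1 hx2, fun q hq => ?_, fun hforb => ?_⟩
  · have hqr : q ≠ r := fun h => hrP (h ▸ hq)
    have := hx3 q (mem_insert_of_mem hq)
    simpa only [if_neg hqr] using this
  · have := hx3 r (mem_insert_self _ _)
    simp only [if_true] at this
    exact this (hn₀ x (forb hforb))

/-- `2 ∈ P`, `4 ∣ b`, `A` odd -/
theorem case_two {A b m f : ℤ} {G e1 : ℤ} (hG : 0 < G) (he : A * (1 + b * m) = G * e1)
    (P : Finset ℕ) (κ : ℕ → ℤ) (hP : ∀ r ∈ P, r.Prime) (h2P : 2 ∈ P)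
    (h4 : (4 : ℤ) ∣ b) (hA : ¬ (2 : ℤ) ∣ A)
    (hL : 2 ^ (P.card + 1) * G < (b + A) * (b * m)) :
    ∃ n : ℤ, |2 * f - (b - A) * (2 + b * m) + 2 * G * n| < (b + A) * (b * m) ∧
      (∀ r ∈ P, ¬ (r : ℤ) ∣ n - κ r) ∧
      ¬ 2 * b ∣ 2 * f - (b - A) * (2 + b * m) + 2 * G * n - b * m * (b - A) := by
  classical
  have h2b : (2 : ℤ) ∣ b := (by norm_num : (2 : ℤ) ∣ 4).trans h4
  have hGo : ¬ (2 : ℤ) ∣ G := by
    intro h
    have h1 : (2 : ℤ) ∣ A * (1 + b * m) := by rw [he]; exact h.mul_right _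
    rcases Int.prime_two.dvd_or_dvd h1 with h3 | h3
    · exact hA h3
    · have : (2 : ℤ) ∣ 1 := by
        have h5 := dvd_sub h3 (h2b.mul_right m)
        simp at h5
      norm_num at this
  -- the class modulo `2` for `n'`
  obtain ⟨n₀, hn₀⟩ : ∃ n₀ : ℤ, ∀ n, b ∣ f + A + G * (κ 2 + 1 + 2 * n) → (2 : ℤ) ∣ n - n₀ := by
    by_cases hex : ∃ n₀, b ∣ f + A + G * (κ 2 + 1 + 2 * n₀)
    · obtain ⟨n₀, hn₀⟩ := hex
      refine ⟨n₀, fun n hn => ?_⟩
      have h1 : (4 : ℤ) ∣ G * (2 * (n - n₀)) := by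
        have := h4.trans (dvd_sub hn hn₀)
        have e : f + A + G * (κ 2 + 1 + 2 * n) - (f + A + G * (κ 2 + 1 + 2 * n₀))
          = G * (2 * (n - n₀)) := by ring
        rwa [e] at this
      obtain ⟨t, ht⟩ := h1
      have h2 : (2 : ℤ) ∣ G * (n - n₀) := ⟨t, by linarith⟩
      rcases Int.prime_two.dvd_or_dvd h2 with h3 | h3
      · exact absurd h3 hGo
      · exact h3
    · exact ⟨0, fun n hn => absurd ⟨n, hn⟩ hex⟩
  have hL2 : 2 ^ P.card * (2 * G) < (b + A) * (b * m) := by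
    rw [pow_succ] at hL
    linarith
  obtain ⟨s, hs⟩ := window (c := 2 * f - (b - A) * (2 + b * m) + 2 * G * (κ 2 + 1))
    (G := 2 * G) (by linarith) hL2
  obtain ⟨x, hx1, hx2, hx3⟩ := cve_primes P hP
    (fun q => if q = 2 then n₀ else (κ q - κ 2 - 1) * (((q : ℤ) + 1) / 2)) s
  refine ⟨κ 2 + 1 + 2 * x, ?_, fun q hq => ?_, fun hforb => ?_⟩
  · have := hs x hx1 hx2
    have e : 2 * f - (b - A) * (2 + b * m) + 2 * G * (κ 2 + 1) + 2 * (2 * G) * x
      = 2 * f - (b - A) * (2 + b * m) + 2 * G * (κ 2 + 1 + 2 * x) := by ring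
    rwa [e] at this
  · by_cases hq2 : q = 2
    · subst hq2
      intro h
      have h1 : (2 : ℤ) ∣ κ 2 + 1 + 2 * x - κ 2 := by exact_mod_cast h
      omega
    · have h1 := hx3 q hq
      simp only [if_neg hq2] at h1
      intro h
      apply h1
      have hqodd : q % 2 = 1 := by
        rcases (hP q hq).eq_two_or_odd with h2 | h2
        · exact absurd h2 hq2
        · exact h2
      have hdiv : 2 * (((q : ℤ) + 1) / 2) = q + 1 := by omega
      have hq' := Nat.prime_iff_prime_int.1 (hP q hq)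
      have h3 : (q : ℤ) ∣ 2 * (x - (κ q - κ 2 - 1) * (((q : ℤ) + 1) / 2)) := by
        have e : 2 * (x - (κ q - κ 2 - 1) * (((q : ℤ) + 1) / 2))
          = (κ 2 + 1 + 2 * x - κ q) - (κ q - κ 2 - 1) * q := by
          linear_combination (-(κ q - κ 2 - 1)) * hdiv
        rw [e]
        exact dvd_sub h (dvd_mul_left _ _)
      rcases hq'.dvd_or_dvd h3 with h4 | h4
      · exfalso
        have h5 : q ∣ 2 := by exact_mod_cast h4
        exact hq2 ((Nat.prime_dvd_prime_iff_eq (hP q hq) Nat.prime_two).1 h5)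
      · exact h4
  · have := hx3 2 h2P
    simp only [if_true] at this
    apply this
    have := hn₀ x (forb hforb)
    exact_mod_cast this

/-- a prime power of `b` which does not divide `A` -/
theorem exists_pp {A c : ℤ} (hc : 0 < c) (h : ¬ c ∣ A) :
    ∃ r : ℕ, r.Prime ∧ ∃ i : ℕ, (r : ℤ) ^ (i + 1) ∣ c ∧ ¬ (r : ℤ) ^ (i + 1) ∣ A := by
  by_contra hcon
  push Not at hcon
  apply h
  rw [← Int.natAbs_dvd_natAbs, Nat.dvd_iff_prime_pow_dvd_dvd]
  intro p k hp hk
  rcases k with _ | i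
  · simp
  · have h1 : (p : ℤ) ^ (i + 1) ∣ c := by
      have := Int.natCast_dvd.2 hk
      exact_mod_cast this
    have h2 := hcon p hp i h1
    have h3 : ((p ^ (i + 1) : ℕ) : ℤ) ∣ A := by exact_mod_cast h2
    exact Int.natCast_dvd.1 h3

/-- all cases when the window is long -/
theorem long {A b m f : ℤ} (hA : 0 < A) (hAb : A < b)
    (h2 : ¬ (b = 2 * A ∧ ¬ (2 : ℤ) ∣ A))
    {G D1 e1 : ℤ} (hG : 0 < G) (he : A * (1 + b * m) = G * e1)
    (P : Finset ℕ) (κ : ℕ → ℤ)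
    (hP : ∀ r ∈ P, r.Prime ∧ (((r : ℤ) ∣ D1 ∧ (r : ℤ) ∣ 2 + b * m) ∨
      ((r : ℤ) ∣ e1 ∧ (r : ℤ) ∣ 1 + b * m ∧ ¬ (r : ℤ) ∣ A)))
    (hP2 : 2 ∈ P → ¬ ((2 : ℤ) ∣ A ∧ (2 : ℤ) ∣ b))
    (hL : 2 ^ (P.card + 1) * G < (b + A) * (b * m)) :
    ∃ n : ℤ, |2 * f - (b - A) * (2 + b * m) + 2 * G * n| < (b + A) * (b * m) ∧
      (∀ r ∈ P, ¬ (r : ℤ) ∣ n - κ r) ∧
      ¬ 2 * b ∣ 2 * f - (b - A) * (2 + b * m) + 2 * G * n - b * m * (b - A) := by
  have hPp : ∀ r ∈ P, r.Prime := fun r hr => (hP r hr).1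
  -- a prime of `P` which divides `b` is two
  have hPb : ∀ r ∈ P, (r : ℤ) ∣ b → r = 2 := by
    intro r hr hrb
    have hr' := Nat.prime_iff_prime_int.1 (hPp r hr)
    rcases (hP r hr).2 with ⟨_, h⟩ | ⟨_, h, _⟩
    · have h3 : (r : ℤ) ∣ 2 := by
        have := dvd_sub h (hrb.mul_right m)
        simpa using this
      have h4 : r ∣ 2 := by exact_mod_cast h3
      exact (Nat.prime_dvd_prime_iff_eq (hPp r hr) Nat.prime_two).1 h4
    · exfalso
      have h3 : (r : ℤ) ∣ 1 := by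
        have := dvd_sub h (hrb.mul_right m)
        simpa using this
      exact hr'.not_isUnit (isUnit_of_dvd_one h3)
  have hbA : ¬ b ∣ A := fun h => by
    have := Int.le_of_dvd hA h
    linarith
  by_cases hcase : 2 ∈ P ∧ (2 : ℤ) ∣ b
  · obtain ⟨h2P, h2b⟩ := hcase
    have hAo : ¬ (2 : ℤ) ∣ A := fun h => hP2 h2P ⟨h, h2b⟩
    by_cases h4 : (4 : ℤ) ∣ b
    · exact case_two hG he P κ hPp h2P h4 hAo hL
    · -- `b = 2 b'`, `b'` odd
      obtain ⟨b', hb'⟩ := h2b
      have hb'o : ¬ (2 : ℤ) ∣ b' := by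
        rintro ⟨c, hc⟩
        exact h4 ⟨c, by rw [hb', hc]; ring⟩
      have hb'0 : 0 < b' := by linarith
      have hb'A : ¬ b' ∣ A := by
        rintro ⟨c, hc⟩
        apply h2
        have hc0 : 0 < c := by
          by_contra hcon
          have : b' * c ≤ 0 := mul_nonpos_of_nonneg_of_nonpos hb'0.le (not_lt.1 hcon)
          linarith
        have hc1 : c < 2 := by
          by_contra hcon
          have : b' * 2 ≤ b' * c := mul_le_mul_of_nonneg_left (not_lt.1 hcon) hb'0.le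
          linarith
        have hc2 : c = 1 := by omega
        rw [hc2, mul_one] at hc
        exact ⟨by rw [hb', hc], hAo⟩
      obtain ⟨r, hr, i, h5, h6⟩ := exists_pp hb'0 hb'A
      have h7 : (r : ℤ) ∣ b' := (dvd_pow_self _ (Nat.succ_ne_zero i)).trans h5
      have hrP : r ∉ P := by
        intro hrP
        have h8 := hPb r hrP (h7.trans ⟨2, by rw [hb']; ring⟩)
        rw [h8] at h7
        exact hb'o (by exact_mod_cast h7)
      exact case_out hG he P κ hPp hr hrP (h5.trans ⟨2, by rw [hb']; ring⟩) h6 hL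
  · obtain ⟨r, hr, i, h5, h6⟩ := exists_pp (by linarith) hbA
    have h7 : (r : ℤ) ∣ b := (dvd_pow_self _ (Nat.succ_ne_zero i)).trans h5
    have hrP : r ∉ P := by
      intro hrP
      have h8 := hPb r hrP h7
      rw [h8] at h7 hrP
      exact hcase ⟨hrP, by exact_mod_cast h7⟩
    exact case_out hG he P κ hPp hr hrP h5 h6 hL

/-- `k` distinct primes -/
theorem primes_bound (P : Finset ℕ) (hP : ∀ r ∈ P, r.Prime) {n : ℕ} (hn : 0 < n)
    (h : ∏ r ∈ P, r ∣ n) :
    n = 2 ∨ n = 6 ∨ n = 30 ∨ 5 * 4 ^ (P.card + 1) ≤ 38 * n := by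
  classical
  obtain ⟨t, ht⟩ := h
  set P0 := P.filter (fun r => r < 7) with hP0
  set P1 := P.filter (fun r => ¬ r < 7) with hP1
  have hcard : P.card = P0.card + P1.card := (card_filter_add_card_filter_not _).symm
  have hprod : ∏ r ∈ P, r = (∏ r ∈ P0, r) * ∏ r ∈ P1, r :=
    (prod_filter_mul_prod_filter_not P (fun r => r < 7) (fun r => r)).symm
  have h7 : 7 ^ P1.card ≤ ∏ r ∈ P1, r := by
    apply pow_card_le_prod
    intro r hr
    have := (mem_filter.1 hr).2
    omega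
  have hsub : P0 ⊆ {2, 3, 5} := by
    intro r hr
    have h1 := (mem_filter.1 hr).2
    have h2 := hP r (mem_filter.1 hr).1
    interval_cases r <;> first | (exfalso; revert h2; norm_num; done) | (simp; done)
  have hmem : P0 ∈ ({2, 3, 5} : Finset ℕ).powerset := mem_powerset.2 hsub
  have hall : ∀ S ∈ ({2, 3, 5} : Finset ℕ).powerset,
      (20 * 4 ^ (S.card + 1) ≤ 266 * ∏ r ∈ S, r) ∧ (5 * 4 ^ (S.card + 1) ≤ 76 * ∏ r ∈ S, r) ∧
      ((∏ r ∈ S, r = 2) ∨ (∏ r ∈ S, r = 6) ∨ (∏ r ∈ S, r = 30) ∨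
        5 * 4 ^ (S.card + 1) ≤ 38 * ∏ r ∈ S, r) := by
    decide
  obtain ⟨ha, hb, hc⟩ := hall P0 hmem
  have ht0 : 0 < t := by
    rcases Nat.eq_zero_or_pos t with h0 | h0
    · rw [h0, mul_zero] at ht
      omega
    · exact h0
  set q0 := ∏ r ∈ P0, r with hq0
  set q1 := ∏ r ∈ P1, r with hq1
  rw [hprod] at ht
  rcases Nat.eq_zero_or_pos P1.card with h0 | h0
  · have h1 : P1 = ∅ := card_eq_zero.1 h0
    have h2 : q1 = 1 := by rw [hq1, h1]; simp
    rw [h2, mul_one] at ht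
    rw [h0, add_zero] at hcard
    rw [hcard]
    rcases Nat.lt_or_ge t 2 with h3 | h3
    · have h4 : t = 1 := by omega
      rw [h4, mul_one] at ht
      rw [ht]
      exact hc
    · right; right; right
      have h5 : q0 * 2 ≤ q0 * t := Nat.mul_le_mul_left _ h3
      rw [← ht] at h5
      omega
  · right; right; right
    -- `4 ^ j * 7 ≤ 4 * 7 ^ j`
    obtain ⟨j, hj⟩ : ∃ j, P1.card = j + 1 := ⟨P1.card - 1, by omega⟩
    have h47 : 4 ^ j ≤ 7 ^ j := Nat.pow_le_pow_left (by norm_num) j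
    have h1 : 4 ^ (P.card + 1) = 4 ^ (P0.card + 1) * (4 * 4 ^ j) := by
      rw [hcard, hj]; ring
    have h2 : q0 * (7 * 7 ^ j) ≤ n := by
      rw [ht]
      calc q0 * (7 * 7 ^ j) = q0 * 7 ^ P1.card := by rw [hj]; ring
        _ ≤ q0 * q1 := Nat.mul_le_mul_left _ h7
        _ = q0 * q1 * 1 := (mul_one _).symm
        _ ≤ q0 * q1 * t := Nat.mul_le_mul_left _ ht0
    calc 5 * 4 ^ (P.card + 1) = (20 * 4 ^ (P0.card + 1)) * 4 ^ j := by rw [h1]; ring
      _ ≤ (266 * q0) * 4 ^ j := Nat.mul_le_mul_right _ ha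
      _ ≤ (266 * q0) * 7 ^ j := Nat.mul_le_mul_left _ h47
      _ = 38 * (q0 * (7 * 7 ^ j)) := by ring
      _ ≤ 38 * n := Nat.mul_le_mul_left _ h2

/-- `y < 2 n` -/
theorem y_lt {A b m G D1 e1 : ℤ} (hA : 0 < A) (hAb : A < b) (hm : 0 < m) (hG : 0 < G)
    (hD0 : 0 < D1) (he0 : 0 < e1)
    (he : A * (1 + b * m) = G * e1) (hD : (b - A) * (2 + b * m) = G * D1) :
    1 + b * m < 2 * (D1 * e1) := by
  set y := 1 + b * m with hy
  have hbm : 0 < b * m := mul_pos (by linarith) hm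
  have hy0 : 0 < y := by linarith
  set Q := (D1 + e1) * y + e1 with hQ
  have h1 : A * Q = b * (y + 1) * e1 := by
    have h2 : G * (A * Q) = G * (b * (y + 1) * e1) := by
      have e2 : b * m = y - 1 := by rw [hy]; ring
      have hD' : (b - A) * (y + 1) = G * D1 := by
        rw [← hD, hy]; ring
      rw [hQ]
      linear_combination (-(A * y)) * hD' + (b * (y + 1) - A * (y + 1)) * he
    exact mul_left_cancel₀ hG.ne' h2
  have h3 : m * A * Q = (y - 1) * (y + 1) * e1 := by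
    have e2 : b * m = y - 1 := by rw [hy]; ring
    linear_combination m * h1 + (y + 1) * e1 * e2
  have h4 : Q ∣ e1 * D1 * (D1 + 2 * e1) := by
    refine ⟨e1 * (Q - 2 * e1) - m * A * (D1 + e1) ^ 2, ?_⟩
    have e3 : Q * (m * A * (D1 + e1) ^ 2) = (y - 1) * (y + 1) * e1 * (D1 + e1) ^ 2 := by
      linear_combination (D1 + e1) ^ 2 * h3
    have e4 : Q * (e1 * (Q - 2 * e1) - m * A * (D1 + e1) ^ 2)
      = Q * (e1 * (Q - 2 * e1)) - Q * (m * A * (D1 + e1) ^ 2) := by ring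
    rw [e4, e3, hQ]
    ring
  have h5 := Int.le_of_dvd (by positivity) h4
  have hn0 : 0 < D1 * e1 := mul_pos hD0 he0
  by_contra hcon
  push Not at hcon
  have h6 : (D1 + e1) * (2 * (D1 * e1)) ≤ (D1 + e1) * y :=
    mul_le_mul_of_nonneg_left hcon (by linarith)
  have h7 : 0 < D1 * e1 * D1 := mul_pos hn0 hD0
  nlinarith

/-- the main inequality for `y ≥ 60` -/
theorem main_large {A b m G D1 e1 : ℤ} (hA : 0 < A) (hAb : A < b)
    (hD0 : 0 < D1) (he0 : 0 < e1)
    (he : A * (1 + b * m) = G * e1) (hD : (b - A) * (2 + b * m) = G * D1)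
    (hy : 60 ≤ 1 + b * m) {k : ℕ} (hk : 5 * 4 ^ (k + 1) ≤ 38 * (D1 * e1)) :
    2 ^ (k + 1) * G < (b + A) * (b * m) := by
  by_contra hcon
  push Not at hcon
  set y := 1 + b * m with hyd
  have e2 : b * m = y - 1 := by rw [hyd]; ring
  rw [e2] at hcon
  have hD' : (b - A) * (y + 1) = G * D1 := by
    rw [← hD, hyd]; ring
  have hM0 : 0 < (b + A) * (y - 1) := mul_pos (by linarith) (by linarith)
  have h1 : ((b + A) * (y - 1)) ^ 2 ≤ (2 ^ (k + 1) * G) ^ 2 :=
    pow_le_pow_left₀ hM0.le hcon 2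
  have e4 : ((2 : ℤ) ^ (k + 1)) ^ 2 = 4 ^ (k + 1) := by
    rw [← pow_mul, mul_comm, pow_mul]; norm_num
  rw [mul_pow (2 ^ (k + 1)), e4] at h1
  have hn0 : 0 < D1 * e1 := mul_pos hD0 he0
  have h2 : ((b + A) * (y - 1)) ^ 2 * (D1 * e1) ≤ 4 ^ (k + 1) * (A * (b - A)) * (y * (y + 1)) := by
    have h3 := mul_le_mul_of_nonneg_right h1 hn0.le
    have h4 : 4 ^ (k + 1) * G ^ 2 * (D1 * e1) = 4 ^ (k + 1) * (A * (b - A)) * (y * (y + 1)) := by
      have : G ^ 2 * (D1 * e1) = (A * (b - A)) * (y * (y + 1)) := by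
        linear_combination (-(G * e1)) * hD' - ((b - A) * (y + 1)) * he
      rw [mul_assoc, this]; ring
    rwa [h4] at h3
  have hAA : 0 < A * (b - A) := mul_pos hA (by linarith)
  have h5 : 8 * (A * (b - A)) ≤ (b + A) ^ 2 := by nlinarith [sq_nonneg (b - 3 * A)]
  have h6 : 8 * (A * (b - A)) * ((y - 1) ^ 2 * (D1 * e1))
      ≤ 4 ^ (k + 1) * (A * (b - A)) * (y * (y + 1)) := by
    refine le_trans ?_ h2
    have h7 : 0 ≤ (y - 1) ^ 2 * (D1 * e1) := by positivity
    have := mul_le_mul_of_nonneg_right h5 h7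
    calc 8 * (A * (b - A)) * ((y - 1) ^ 2 * (D1 * e1))
        ≤ (b + A) ^ 2 * ((y - 1) ^ 2 * (D1 * e1)) := this
      _ = ((b + A) * (y - 1)) ^ 2 * (D1 * e1) := by ring
  have h8 : 8 * ((y - 1) ^ 2 * (D1 * e1)) ≤ 4 ^ (k + 1) * (y * (y + 1)) := by
    have h9 : (A * (b - A)) * (8 * ((y - 1) ^ 2 * (D1 * e1)))
        ≤ (A * (b - A)) * (4 ^ (k + 1) * (y * (y + 1))) := by
      calc (A * (b - A)) * (8 * ((y - 1) ^ 2 * (D1 * e1)))
          = 8 * (A * (b - A)) * ((y - 1) ^ 2 * (D1 * e1)) := by ring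
        _ ≤ 4 ^ (k + 1) * (A * (b - A)) * (y * (y + 1)) := h6
        _ = (A * (b - A)) * (4 ^ (k + 1) * (y * (y + 1))) := by ring
    exact le_of_mul_le_mul_left h9 hAA
  have hyy : 0 < y * (y + 1) := mul_pos (by linarith) (by linarith)
  have h10 : 5 * (4 ^ (k + 1) * (y * (y + 1))) ≤ 38 * (D1 * e1) * (y * (y + 1)) := by
    have := mul_le_mul_of_nonneg_right hk hyy.le
    linarith
  have h11 : (D1 * e1) * (40 * (y - 1) ^ 2) ≤ (D1 * e1) * (38 * (y * (y + 1))) := by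
    nlinarith
  have h12 := le_of_mul_le_mul_left h11 hn0
  nlinarith

/-- the primes up to sixty -/
def primeList : List ℕ := [2, 3, 5, 7, 11, 13, 17, 19, 23, 29, 31, 37, 41, 43, 47, 53, 59]

/-- the primes allowed in `P` for given values -/
def allowed (A b y G e D : ℕ) : List ℕ :=
  primeList.filter fun r =>
    (((D / G) % r == 0 && (y + 1) % r == 0) || ((e / G) % r == 0 && y % r == 0)) &&
      !(r == 2 && A % 2 == 0 && b % 2 == 0)

/-- the four exceptions -/
def excl (A b m : ℕ) : Bool :=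
  (A == 1 && b == 3 && m == 1) || (A == 3 && b == 7 && m == 1) ||
    (A == 1 && b == 4 && m == 2) || (A == 5 && b == 8 && m == 1)

/-- the check for one triple -/
def chk (A b m : ℕ) : Bool :=
  excl A b m ||
    decide (2 ^ ((allowed A b (1 + b * m) (Nat.gcd (A * (1 + b * m)) ((b - A) * (2 + b * m)))
      (A * (1 + b * m)) ((b - A) * (2 + b * m))).length + 1) *
      (Nat.gcd (A * (1 + b * m)) ((b - A) * (2 + b * m))) < (b + A) * (b * m))

theorem chk_all : ((List.range 59).all fun b => (List.range 59).all fun m =>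
    !(decide (3 ≤ b) && decide (0 < m) && decide (b * m ≤ 58)) ||
      (List.range b).all fun A => A == 0 || chk A b m) = true := by
  decide +kernel

theorem mem_primeList : ∀ r < 61, r.Prime → r ∈ primeList := by
  decide +kernel

theorem small {A b m G D1 e1 : ℕ} (hA : 0 < A) (hAb : A < b) (hb : 3 ≤ b) (hm : 0 < m)
    (hG : 0 < G) (he : A * (1 + b * m) = G * e1) (hD : (b - A) * (2 + b * m) = G * D1)
    (hco : Nat.Coprime D1 e1) (hy : b * m ≤ 58) (P : Finset ℕ)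
    (hP : ∀ r ∈ P, r.Prime ∧ ((r ∣ D1 ∧ r ∣ 2 + b * m) ∨
      (r ∣ e1 ∧ r ∣ 1 + b * m)))
    (hP2 : 2 ∈ P → ¬ (2 ∣ A ∧ 2 ∣ b)) :
    excl A b m = true ∨ 2 ^ (P.card + 1) * G < (b + A) * (b * m) := by
  classical
  have hb58 : b < 59 := by nlinarith
  have hm58 : m < 59 := by nlinarith
  have h1 := chk_all
  rw [List.all_eq_true] at h1
  have h2 := h1 b (List.mem_range.2 hb58)
  rw [List.all_eq_true] at h2
  have h3 := h2 m (List.mem_range.2 hm58)
  have e3 : (decide (3 ≤ b) && decide (0 < m) && decide (b * m ≤ 58)) = true := by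
    simp [hb, hm, hy]
  rw [e3] at h3
  simp only [Bool.not_true, Bool.false_or] at h3
  rw [List.all_eq_true] at h3
  have h4 := h3 A (List.mem_range.2 hAb)
  have hA0 : (A == 0) = false := by simp; omega
  rw [hA0, Bool.false_or] at h4
  unfold chk at h4
  have hgcd : Nat.gcd (A * (1 + b * m)) ((b - A) * (2 + b * m)) = G := by
    rw [he, hD, Nat.gcd_mul_left, Nat.Coprime.gcd_eq_one hco.symm, mul_one]
  rw [hgcd] at h4
  rcases Bool.or_eq_true _ _ ▸ h4 with h5 | h5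
  · left; exact h5
  · right
    have h6 := of_decide_eq_true h5
    refine lt_of_le_of_lt ?_ h6
    refine Nat.mul_le_mul_right _ (Nat.pow_le_pow_right (by norm_num) ?_)
    apply Nat.succ_le_succ
    refine le_trans (card_le_card ?_) (List.toFinset_card_le _)
    intro r hr
    obtain ⟨hrp, hrd⟩ := hP r hr
    have hr61 : r < 61 := by
      rcases hrd with ⟨_, h⟩ | ⟨_, h⟩
      · have := Nat.le_of_dvd (by omega) h
        omega
      · have := Nat.le_of_dvd (by omega) h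
        omega
    rw [List.mem_toFinset]
    unfold allowed
    rw [List.mem_filter]
    refine ⟨mem_primeList r hr61 hrp, ?_⟩
    rw [he, hD, Nat.mul_div_cancel_left _ hG, Nat.mul_div_cancel_left _ hG]
    have hlast : (r == 2 && A % 2 == 0 && b % 2 == 0) = false := by
      by_contra hcon
      simp only [Bool.not_eq_false, Bool.and_eq_true, beq_iff_eq] at hcon
      obtain ⟨⟨h7, h8⟩, h9⟩ := hcon
      rw [h7] at hr
      exact hP2 hr ⟨Nat.dvd_of_mod_eq_zero h8, Nat.dvd_of_mod_eq_zero h9⟩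
    rw [hlast]
    simp only [Bool.not_false, Bool.and_true, Bool.or_eq_true, Bool.and_eq_true, beq_iff_eq]
    rcases hrd with ⟨h7, h8⟩ | ⟨h7, h8⟩
    · left
      refine ⟨Nat.mod_eq_zero_of_dvd h7, Nat.mod_eq_zero_of_dvd ?_⟩
      have e5 : 1 + b * m + 1 = 2 + b * m := by ring
      rw [e5]; exact h8
    · right
      exact ⟨Nat.mod_eq_zero_of_dvd h7, Nat.mod_eq_zero_of_dvd h8⟩

/-- the finite check for one exception -/
def tst (g : ℕ) (D M c b2 : ℤ) (u2 u3 u5 : Bool) : Bool :=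
  (List.range g).all fun f0 => (List.range 2).all fun l2 => (List.range 3).all fun l3 =>
    (List.range 5).all fun l5 => (List.range 20).any fun j =>
      decide (-M < 2 * (f0 : ℤ) - D + 2 * (g : ℤ) * ((j : ℤ) - 5)) &&
      decide (2 * (f0 : ℤ) - D + 2 * (g : ℤ) * ((j : ℤ) - 5) < M) &&
      (!u2 || !decide (((j : ℤ) - 5 - (l2 : ℤ)) % 2 = 0)) &&
      (!u3 || !decide (((j : ℤ) - 5 - (l3 : ℤ)) % 3 = 0)) &&
      (!u5 || !decide (((j : ℤ) - 5 - (l5 : ℤ)) % 5 = 0)) &&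
      !decide ((2 * (f0 : ℤ) - D + 2 * (g : ℤ) * ((j : ℤ) - 5) - c) % b2 = 0)

/-- reduction of one exception to a finite check -/
theorem exc_red {g : ℕ} {D M c b2 f : ℤ} (hg : 0 < g) (u2 u3 u5 : Bool) (P : Finset ℕ)
    (κ : ℕ → ℤ)
    (hP : ∀ r ∈ P, (r = 2 ∧ u2 = true) ∨ (r = 3 ∧ u3 = true) ∨ (r = 5 ∧ u5 = true))
    (hdec : tst g D M c b2 u2 u3 u5 = true) :
    ∃ n : ℤ, |2 * f - D + 2 * (g : ℤ) * n| < M ∧ (∀ r ∈ P, ¬ (r : ℤ) ∣ n - κ r) ∧
      ¬ b2 ∣ 2 * f - D + 2 * (g : ℤ) * n - c := by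
  have hgZ : (0 : ℤ) < g := by exact_mod_cast hg
  set q := f / (g : ℤ) with hq
  have hf0 := Int.emod_nonneg f hgZ.ne'
  have hf1 := Int.emod_lt_of_pos f hgZ
  obtain ⟨f0, hf0'⟩ := Int.eq_ofNat_of_zero_le hf0
  have hfe : f = f0 + g * q := by
    have := Int.emod_add_mul_ediv f g
    rw [hf0'] at this
    linarith
  have hl : ∀ r : ℕ, 0 < r → ∃ l < r, (r : ℤ) ∣ (q + κ r) - l := by
    intro r hr
    have hrZ : (0 : ℤ) < r := by exact_mod_cast hr
    obtain ⟨l, hl⟩ := Int.eq_ofNat_of_zero_le (Int.emod_nonneg (q + κ r) hrZ.ne')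
    refine ⟨l, ?_, ?_⟩
    · have := Int.emod_lt_of_pos (q + κ r) hrZ
      rw [hl] at this
      exact_mod_cast this
    · have := Int.dvd_self_sub_emod (x := q + κ r) (m := (r : ℤ))
      rw [hl] at this
      exact this
  obtain ⟨l2, hl2, hl2'⟩ := hl 2 (by norm_num)
  obtain ⟨l3, hl3, hl3'⟩ := hl 3 (by norm_num)
  obtain ⟨l5, hl5, hl5'⟩ := hl 5 (by norm_num)
  have hf0g : f0 < g := by rw [hf0'] at hf1; exact_mod_cast hf1
  unfold tst at hdec
  rw [List.all_eq_true] at hdec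
  have t1 := hdec f0 (List.mem_range.2 hf0g)
  rw [List.all_eq_true] at t1
  have t2 := t1 l2 (List.mem_range.2 hl2)
  rw [List.all_eq_true] at t2
  have t3 := t2 l3 (List.mem_range.2 hl3)
  rw [List.all_eq_true] at t3
  have t4 := t3 l5 (List.mem_range.2 hl5)
  rw [List.any_eq_true] at t4
  obtain ⟨j, _, t5⟩ := t4
  simp only [Bool.and_eq_true, decide_eq_true_eq, Bool.or_eq_true, Bool.not_eq_true',
    decide_eq_false_iff_not] at t5
  obtain ⟨⟨⟨⟨⟨h1, h1'⟩, h2⟩, h3⟩, h5⟩, h6⟩ := t5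
  refine ⟨(j : ℤ) - 5 - q, ?_, ?_, ?_⟩
  · have e : 2 * f - D + 2 * (g : ℤ) * ((j : ℤ) - 5 - q)
      = 2 * (f0 : ℤ) - D + 2 * (g : ℤ) * ((j : ℤ) - 5) := by
      rw [hfe]; ring
    rw [e, abs_lt]
    exact ⟨h1, h1'⟩
  · intro r hr hd
    rcases hP r hr with ⟨rfl, hu⟩ | ⟨rfl, hu⟩ | ⟨rfl, hu⟩
    · rw [hu] at h2
      rcases h2 with h2 | h2
      · exact Bool.noConfusion h2
      apply h2
      apply Int.emod_eq_zero_of_dvd
      have := dvd_add hd hl2'
      have e : (j : ℤ) - 5 - q - κ 2 + (q + κ 2 - l2) = j - 5 - l2 := by ring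
      rw [e] at this
      exact_mod_cast this
    · rw [hu] at h3
      rcases h3 with h3 | h3
      · exact Bool.noConfusion h3
      apply h3
      apply Int.emod_eq_zero_of_dvd
      have := dvd_add hd hl3'
      have e : (j : ℤ) - 5 - q - κ 3 + (q + κ 3 - l3) = j - 5 - l3 := by ring
      rw [e] at this
      exact_mod_cast this
    · rw [hu] at h5
      rcases h5 with h5 | h5
      · exact Bool.noConfusion h5
      apply h5
      apply Int.emod_eq_zero_of_dvd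
      have := dvd_add hd hl5'
      have e : (j : ℤ) - 5 - q - κ 5 + (q + κ 5 - l5) = j - 5 - l5 := by ring
      rw [e] at this
      exact_mod_cast this
  · intro hd
    apply h6
    apply Int.emod_eq_zero_of_dvd
    have e : 2 * f - D + 2 * (g : ℤ) * ((j : ℤ) - 5 - q)
      = 2 * (f0 : ℤ) - D + 2 * (g : ℤ) * ((j : ℤ) - 5) := by
      rw [hfe]; ring
    rw [e] at hd
    exact hd

theorem dec1 : tst 2 10 12 6 6 true false true = true := by decide +kernel

theorem dec2 : tst 12 36 70 28 14 true true false = true := by decide +kernel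

theorem dec3 : tst 3 30 40 24 8 true true true = true := by decide +kernel

theorem dec4 : tst 15 30 104 24 16 true true false = true := by decide +kernel

theorem prime_dvd_two {r : ℕ} (hr : r.Prime) (h : r ∣ 2) : r = 2 :=
  (Nat.prime_dvd_prime_iff_eq hr Nat.prime_two).1 h

theorem prime_dvd_three {r : ℕ} (hr : r.Prime) (h : r ∣ 3) : r = 3 :=
  (Nat.prime_dvd_prime_iff_eq hr Nat.prime_three).1 h

theorem prime_dvd_five {r : ℕ} (hr : r.Prime) (h : r ∣ 5) : r = 5 :=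
  (Nat.prime_dvd_prime_iff_eq hr Nat.prime_five).1 h

/-- helper23's count for the second exit of case F3 -/
theorem f3count {A b m f : ℤ} (hA : 0 < A) (hAb : A < b) (hb : 3 ≤ b) (hm : 0 < m)
    (h2 : ¬ (b = 2 * A ∧ ¬ (2 : ℤ) ∣ A))
    {G D1 e1 : ℤ} (hG : 0 < G) (he : A * (1 + b * m) = G * e1)
    (hD : (b - A) * (2 + b * m) = G * D1) (hco : IsCoprime D1 e1)
    (P : Finset ℕ) (κ : ℕ → ℤ)
    (hP : ∀ r ∈ P, r.Prime ∧ (((r : ℤ) ∣ D1 ∧ (r : ℤ) ∣ 2 + b * m) ∨
      ((r : ℤ) ∣ e1 ∧ (r : ℤ) ∣ 1 + b * m ∧ ¬ (r : ℤ) ∣ A)))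
    (hP2 : 2 ∈ P → ¬ ((2 : ℤ) ∣ A ∧ (2 : ℤ) ∣ b)) :
    ∃ n : ℤ, |2 * f - (b - A) * (2 + b * m) + 2 * G * n| < (b + A) * (b * m) ∧
      (∀ r ∈ P, ¬ (r : ℤ) ∣ n - κ r) ∧
      ¬ 2 * b ∣ 2 * f - (b - A) * (2 + b * m) + 2 * G * n - b * m * (b - A) := by
  classical
  have hbm : 0 < b * m := mul_pos (by linarith) hm
  have he0 : 0 < e1 := by
    have h1 : 0 < G * e1 := by rw [← he]; exact mul_pos hA (by linarith)
    exact (mul_pos_iff_of_pos_left hG).1 h1
  have hD0 : 0 < D1 := by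
    have h1 : 0 < G * D1 := by rw [← hD]; exact mul_pos (by linarith) (by linarith)
    exact (mul_pos_iff_of_pos_left hG).1 h1
  by_cases hL : 2 ^ (P.card + 1) * G < (b + A) * (b * m)
  · exact long hA hAb h2 hG he P κ hP hP2 hL
  -- the short windows
  have hsmall : b * m ≤ 58 := by
    by_contra hbig
    push Not at hbig
    apply hL
    have hy : 60 ≤ 1 + b * m := by linarith
    refine main_large hA hAb hD0 he0 he hD hy (k := P.card) ?_
    have hyl := y_lt hA hAb hm hG hD0 he0 he hD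
    have hn0 : 0 < D1 * e1 := mul_pos hD0 he0
    obtain ⟨N, hN⟩ := Int.eq_ofNat_of_zero_le hn0.le
    have hN0 : 0 < N := by
      rw [hN] at hn0
      exact_mod_cast hn0
    have hdiv : ∏ r ∈ P, r ∣ N := by
      refine Finset.prod_primes_dvd N (fun r hr => (hP r hr).1.prime) (fun r hr => ?_)
      have h1 : (r : ℤ) ∣ (N : ℤ) := by
        rw [← hN]
        rcases (hP r hr).2 with ⟨h, _⟩ | ⟨h, _⟩
        · exact h.mul_right _
        · exact h.mul_left _
      exact_mod_cast h1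
    rcases primes_bound P (fun r hr => (hP r hr).1) hN0 hdiv with h3 | h3 | h3 | h3
    · exfalso
      rw [h3] at hN
      rw [hN] at hyl
      norm_num at hyl
      linarith
    · exfalso
      rw [h3] at hN
      rw [hN] at hyl
      norm_num at hyl
      linarith
    · exfalso
      rw [h3] at hN
      rw [hN] at hyl
      norm_num at hyl
      linarith
    · rw [hN]
      exact_mod_cast h3
  obtain ⟨A', rfl⟩ := Int.eq_ofNat_of_zero_le hA.le
  obtain ⟨b', rfl⟩ := Int.eq_ofNat_of_zero_le (show 0 ≤ b by linarith)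
  obtain ⟨m', rfl⟩ := Int.eq_ofNat_of_zero_le hm.le
  obtain ⟨G', rfl⟩ := Int.eq_ofNat_of_zero_le hG.le
  obtain ⟨D', rfl⟩ := Int.eq_ofNat_of_zero_le hD0.le
  obtain ⟨e', rfl⟩ := Int.eq_ofNat_of_zero_le he0.le
  have hA' : 0 < A' := by exact_mod_cast hA
  have hAb' : A' < b' := by exact_mod_cast hAb
  have hb' : 3 ≤ b' := by exact_mod_cast hb
  have hm' : 0 < m' := by exact_mod_cast hm
  have hG' : 0 < G' := by exact_mod_cast hG
  have he' : A' * (1 + b' * m') = G' * e' := by exact_mod_cast he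
  have hD' : (b' - A') * (2 + b' * m') = G' * D' := by
    have h3 : ((b' - A' : ℕ) : ℤ) = (b' : ℤ) - A' := by
      rw [Nat.cast_sub hAb'.le]
    have h4 : (((b' - A') * (2 + b' * m') : ℕ) : ℤ) = ((G' * D' : ℕ) : ℤ) := by
      push_cast
      rw [h3]
      exact hD
    exact_mod_cast h4
  have hco' : Nat.Coprime D' e' := Nat.isCoprime_iff_coprime.1 hco
  have hsm' : b' * m' ≤ 58 := by exact_mod_cast hsmall
  have hP' : ∀ r ∈ P, r.Prime ∧ ((r ∣ D' ∧ r ∣ 2 + b' * m') ∨ (r ∣ e' ∧ r ∣ 1 + b' * m')) := by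
    intro r hr
    refine ⟨(hP r hr).1, ?_⟩
    rcases (hP r hr).2 with ⟨h3, h4⟩ | ⟨h3, h4, _⟩
    · exact Or.inl ⟨by exact_mod_cast h3, by exact_mod_cast h4⟩
    · exact Or.inr ⟨by exact_mod_cast h3, by exact_mod_cast h4⟩
  have hP2' : 2 ∈ P → ¬ (2 ∣ A' ∧ 2 ∣ b') := by
    intro h3 h4
    exact hP2 h3 ⟨by exact_mod_cast h4.1, by exact_mod_cast h4.2⟩
  rcases small hA' hAb' hb' hm' hG' he' hD' hco' hsm' P hP' hP2' with h3 | h3
  · unfold excl at h3
    simp only [Bool.or_eq_true, Bool.and_eq_true, beq_iff_eq] at h3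
    have hgcd : Nat.gcd (A' * (1 + b' * m')) ((b' - A') * (2 + b' * m')) = G' := by
      rw [he', hD', Nat.gcd_mul_left, Nat.Coprime.gcd_eq_one hco'.symm, mul_one]
    rcases h3 with ((⟨⟨rfl, rfl⟩, rfl⟩ | ⟨⟨rfl, rfl⟩, rfl⟩) | ⟨⟨rfl, rfl⟩, rfl⟩) |
      ⟨⟨rfl, rfl⟩, rfl⟩
    · have hGv : G' = 2 := by rw [← hgcd]; decide
      subst hGv
      have hev : e' = 2 := by omega
      have hDv : D' = 5 := by omega
      subst hev hDv
      have hPs : ∀ r ∈ P, (r = 2 ∧ true = true) ∨ (r = 3 ∧ false = true) ∨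
          (r = 5 ∧ true = true) := by
        intro r hr
        obtain ⟨h4, h5⟩ := hP' r hr
        rcases h5 with ⟨h6, _⟩ | ⟨h6, _⟩
        · exact Or.inr (Or.inr ⟨prime_dvd_five h4 h6, rfl⟩)
        · exact Or.inl ⟨prime_dvd_two h4 h6, rfl⟩
      have := exc_red (f := f) (by norm_num) true false true P κ hPs dec1
      norm_num at this ⊢
      exact this
    · have hGv : G' = 12 := by rw [← hgcd]; decide
      subst hGv
      have hev : e' = 2 := by omega
      have hDv : D' = 3 := by omega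
      subst hev hDv
      have hPs : ∀ r ∈ P, (r = 2 ∧ true = true) ∨ (r = 3 ∧ true = true) ∨
          (r = 5 ∧ false = true) := by
        intro r hr
        obtain ⟨h4, h5⟩ := hP' r hr
        rcases h5 with ⟨h6, _⟩ | ⟨h6, _⟩
        · exact Or.inr (Or.inl ⟨prime_dvd_three h4 h6, rfl⟩)
        · exact Or.inl ⟨prime_dvd_two h4 h6, rfl⟩
      have := exc_red (f := f) (by norm_num) true true false P κ hPs dec2
      norm_num at this ⊢
      exact this
    · have hGv : G' = 3 := by rw [← hgcd]; decide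
      subst hGv
      have hev : e' = 3 := by omega
      have hDv : D' = 10 := by omega
      subst hev hDv
      have hPs : ∀ r ∈ P, (r = 2 ∧ true = true) ∨ (r = 3 ∧ true = true) ∨
          (r = 5 ∧ true = true) := by
        intro r hr
        obtain ⟨h4, h5⟩ := hP' r hr
        rcases h5 with ⟨h6, _⟩ | ⟨h6, _⟩
        · have h7 : r ∣ 2 * 5 := h6
          rcases (Nat.Prime.dvd_mul h4).1 h7 with h8 | h8
          · exact Or.inl ⟨prime_dvd_two h4 h8, rfl⟩
          · exact Or.inr (Or.inr ⟨prime_dvd_five h4 h8, rfl⟩)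
        · exact Or.inr (Or.inl ⟨prime_dvd_three h4 h6, rfl⟩)
      have := exc_red (f := f) (by norm_num) true true true P κ hPs dec3
      norm_num at this ⊢
      exact this
    · have hGv : G' = 15 := by rw [← hgcd]; decide
      subst hGv
      have hev : e' = 3 := by omega
      have hDv : D' = 2 := by omega
      subst hev hDv
      have hPs : ∀ r ∈ P, (r = 2 ∧ true = true) ∨ (r = 3 ∧ true = true) ∨
          (r = 5 ∧ false = true) := by
        intro r hr
        obtain ⟨h4, h5⟩ := hP' r hr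
        rcases h5 with ⟨h6, _⟩ | ⟨h6, _⟩
        · exact Or.inl ⟨prime_dvd_two h4 h6, rfl⟩
        · exact Or.inr (Or.inl ⟨prime_dvd_three h4 h6, rfl⟩)
      have := exc_red (f := f) (by norm_num) true true false P κ hPs dec4
      norm_num at this ⊢
      exact this
  · exfalso
    apply hL
    have : ((2 ^ (P.card + 1) * G' : ℕ) : ℤ) < (((b' + A') * (b' * m') : ℕ) : ℤ) := by
      exact_mod_cast h3
    push_cast at this
    exact this

end Pool.Agent.H4G.F3c
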