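import Pool.Agent.H4G.Arith.Fin19

/-!
# The finish with sieved primes (helper23)

Variant of `Fin19`: no hypothesis on squares, but the exit avoids the bad primes of `e`.
-/

set_option autoImplicit false

namespace Pool.Agent.H4G

namespace Pair

variable {N : ℕ} {S : PSt} {l p l' p' w1 : Z2} {q τ B : ℤ}

/-- the hypothesis on squares holds at a prime not dividing `e` -/
theorem hS_of_not_dvd (h : Pair N S l p l' p' w1 q τ B) {r : ℕ} (hr : r.Prime)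
    (hre : ¬ (r : ℤ) ∣ cr S.u l) (hrc : ¬ (r : ℤ) ∣ cr S.u p') (hra' : (r : ℤ) ∣ cr l' p')
    (k : ℕ) (hk : (r : ℤ) ^ k ∣ cr p l) (z : Z2) (hz : z ∈ S.L) (z' : Z2) :
    (r : ℤ) ^ k ∣ cr S.u z * cr S.u z' := by
  have h1 : (r : ℤ) ^ k ∣ cr S.u l * cr p S.v := by
    have := h.ad.area
    have e1 : cr S.u l * cr p S.v = cr S.u S.v * cr p l := by linear_combination -this
    rw [e1]; exact hk.mul_left _
  have h2 := pow_dvd_of_mul hr h1 hre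
  have h3 := h.rh r hr hrc k h2 z hz
  have h4 : ¬ (r : ℤ) ∣ cr S.u p' + cr l' p' := by
    intro h5
    apply hrc
    have := dvd_sub h5 hra'
    simpa using this
  exact (pow_dvd_of_mul hr h3 h4).mul_right _

/-- the hypothesis on squares at `2`, `e = 2 mod 4`, `f` even -/
theorem hS_two (h : Pair N S l p l' p' w1 q τ B)
    (he : (2 : ℤ) ∣ cr S.u l) (he4 : ¬ (4 : ℤ) ∣ cr S.u l) (hf : (2 : ℤ) ∣ cr S.u p)
    (hrc : ¬ (2 : ℤ) ∣ cr S.u p') (hra' : (2 : ℤ) ∣ cr l' p')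
    (k : ℕ) (hk : (2 : ℤ) ^ k ∣ cr p l) (z : Z2) (hz : z ∈ S.L) (z' : Z2) (hz' : z' ∈ S.L) :
    (2 : ℤ) ^ k ∣ cr S.u z * cr S.u z' := by
  rcases Nat.eq_zero_or_pos k with hk0 | hk0
  · rw [hk0, pow_zero]; exact one_dvd _
  obtain ⟨e', he'⟩ := he
  have he'2 : ¬ ((2 : ℕ) : ℤ) ∣ e' := by
    rintro ⟨t, ht⟩
    apply he4
    rw [he', ht]
    exact ⟨t, by push_cast; ring⟩
  obtain ⟨j, rfl⟩ : ∃ j, k = j + 1 := ⟨k - 1, by omega⟩
  have h1 : (2 : ℤ) ^ (j + 1) ∣ 2 * (e' * cr p S.v) := by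
    have := h.ad.area
    have e1 : 2 * (e' * cr p S.v) = cr S.u S.v * cr p l := by
      rw [← mul_assoc, ← he']; linear_combination -this
    rw [e1]; exact hk.mul_left _
  have h2 : (2 : ℤ) ^ j ∣ e' * cr p S.v := by
    rw [pow_succ, mul_comm] at h1
    exact (mul_dvd_mul_iff_left two_ne_zero).1 h1
  have h3 : ((2 : ℕ) : ℤ) ^ j ∣ cr p S.v :=
    pow_dvd_of_mul Nat.prime_two (by exact_mod_cast h2) he'2
  have h4 := h.rh 2 Nat.prime_two (by exact_mod_cast hrc) j h3 z hz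
  have h5 : ¬ ((2 : ℕ) : ℤ) ∣ cr S.u p' + cr l' p' := by
    intro h5
    apply hrc
    have := dvd_sub (by exact_mod_cast h5 : (2 : ℤ) ∣ cr S.u p' + cr l' p') hra'
    simpa using this
  have h6 := pow_dvd_of_mul Nat.prime_two h4 h5
  have h7 : (2 : ℤ) ∣ cr S.u z' := by
    rw [h.ad.hL] at hz'
    obtain ⟨m, n, rfl⟩ := mem_lat.1 hz'
    rw [cr_add_right, cr_smul_right, cr_smul_right]
    exact dvd_add ((Dvd.intro _ he'.symm).mul_left _) (hf.mul_left _)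
  rw [pow_succ]
  exact mul_dvd_mul (by exact_mod_cast h6) h7

/-- the integers of the finish -/
theorem fin_aux' (h : Pair N S l p l' p' w1 q τ B)
    (hW : ∀ r : ℕ, r.Prime → (r : ℤ) ∣ cr S.u p' → (r : ℤ) ∣ cr l' p' → ¬ (r : ℤ) ∣ B)
    (hT : ∀ r : ℕ, r.Prime → r ≠ 2 → (r : ℤ) ∣ cr S.u l → ¬ (r : ℤ) ∣ cr S.u S.v →
      ¬ (r : ℤ) ∣ cr S.u p' → (r : ℤ) ∣ cr l' p' →
      ∀ k : ℕ, (r : ℤ) ^ k ∣ B → (r : ℤ) ^ k ∣ cr w1 S.v)
    (hT2 : (4 : ℤ) ∣ cr S.u l → ¬ (2 : ℤ) ∣ cr S.u S.v → ¬ (2 : ℤ) ∣ cr S.u p' →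
      (2 : ℤ) ∣ cr l' p' → ∀ k : ℕ, (2 : ℤ) ^ (k + 2) ∣ B → (2 : ℤ) ^ (k + 1) ∣ cr w1 S.v)
    (hHL : ¬ (2 : ℤ) ∣ cr S.u S.v → ¬ (2 : ℤ) ∣ cr p S.v → ¬ (2 : ℤ) ∣ cr S.u p' →
      ¬ (2 : ℤ) ∣ cr S.u p → (2 : ℤ) ∣ cr S.u l → ¬ (4 : ℤ) ∣ cr S.u l → (2 : ℤ) ∣ cr l' p' →
      False) :
    ∃ g c1 Aa G Z k : ℤ, 0 < g ∧ 0 < G ∧ cr S.u p' = g * c1 ∧ cr S.u S.v = g * Aa ∧
      B = G * Z ∧ cr w1 S.v = G * k ∧ 0 < c1 ∧ 0 < Aa ∧ 0 < Z ∧ 0 < k ∧ IsCoprime c1 Aa ∧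
      IsCoprime c1 G ∧ IsCoprime Z k ∧ Z ∣ c1 - Aa := by
  have hc := h.ad.h6
  have hA := h.ad.hA
  have hB := h.Bpos
  have hA1 := h.A10
  obtain ⟨g, c1, Aa, hg, hco, e1, e2⟩ := Int.exists_gcd_one' (m := cr S.u p') (n := cr S.u S.v)
    (Int.gcd_pos_of_ne_zero_left _ hc.ne')
  obtain ⟨G, Z, k, hG, hco2, e3, e4⟩ := Int.exists_gcd_one' (m := B) (n := cr w1 S.v)
    (Int.gcd_pos_of_ne_zero_left _ hB.ne')
  have hg' : (0 : ℤ) < g := by exact_mod_cast hg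
  have hG' : (0 : ℤ) < G := by exact_mod_cast hG
  have pos : ∀ {x y z : ℤ}, 0 < x → x = y * z → 0 < z → 0 < y := by
    intro x y z hx hxy hz
    rw [hxy] at hx
    exact (mul_pos_iff_of_pos_right hz).1 hx
  have hc1 : 0 < c1 := pos hc e1 hg'
  have hAa : 0 < Aa := pos hA e2 hg'
  have hZ : 0 < Z := pos hB e3 hG'
  have hk : 0 < k := pos hA1 e4 hG'
  have hcoc := (Int.isCoprime_iff_gcd_eq_one (m := c1) (n := Aa)).2 hco
  have hcoZ := (Int.isCoprime_iff_gcd_eq_one (m := Z) (n := k)).2 hco2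
  have hcG : IsCoprime c1 (G : ℤ) := by
    refine (isCoprime_of_prime fun r hr h1 h2 => ?_).symm
    have hrB : (r : ℤ) ∣ B := by rw [e3]; exact h2.mul_left _
    have hrc : (r : ℤ) ∣ cr S.u p' := by rw [e1]; exact h1.mul_right _
    by_cases hra : (r : ℤ) ∣ cr l' p'
    · exact hW r hr hrc hra hrB
    · have hα : padicValInt r (cr S.u p') = padicValInt r c1 + padicValInt r (g : ℤ) := by
        rw [e1, pv_mul hr hc1.ne' hg'.ne']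
      have h3 := h.full' hr hra (pv_self_dvd (cr S.u p'))
      rw [pv_dvd hr hA.ne', hα, e2, pv_mul hr hAa.ne' hg'.ne'] at h3
      have h4 : 1 ≤ padicValInt r c1 := pv_pos hr hc1.ne' h1
      have h5 : (r : ℤ) ∣ Aa := by
        have := (pv_dvd hr hAa.ne' (k := 1)).2 (by omega)
        simpa using this
      exact not_dvd_of_isCoprime hcoc hr h5 h1
  refine ⟨g, c1, Aa, G, Z, k, hg', hG', by rw [e1]; ring, by rw [e2]; ring, by rw [e3]; ring,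
    by rw [e4]; ring, hc1, hAa, hZ, hk, hcoc, hcG, hcoZ, ?_⟩
  refine dvd_of_primes fun r hr j hj => ?_
  rcases Nat.eq_zero_or_pos j with hj0 | hj0
  · rw [hj0, pow_zero]; exact one_dvd _
  have hrZ : (r : ℤ) ∣ Z := (dvd_pow_self _ (by omega)).trans hj
  have hrk : ¬ (r : ℤ) ∣ k := fun h1 => not_dvd_of_isCoprime hcoZ hr h1 hrZ
  have hvA1 : padicValInt r (cr w1 S.v) = padicValInt r (G : ℤ) := by
    rw [e4, pv_mul hr hk.ne' hG'.ne', pv_zero hr hrk, zero_add]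
  have hvB : padicValInt r B = padicValInt r Z + padicValInt r (G : ℤ) := by
    rw [e3, pv_mul hr hZ.ne' hG'.ne']
  have hvZ : j ≤ padicValInt r Z := (pv_dvd hr hZ.ne').1 hj
  have hnd : ¬ (r : ℤ) ^ (padicValInt r B) ∣ cr w1 S.v := by
    intro h1
    rw [pv_dvd hr hA1.ne'] at h1
    omega
  -- the conclusion from the hypothesis on squares at `r`
  have concl : (¬ (r : ℤ) ∣ cr S.u p' → ¬ (r : ℤ) ∣ cr S.u S.v → (r : ℤ) ∣ B →
      (r : ℤ) ∣ cr l' p' → ∀ k : ℕ, (r : ℤ) ^ k ∣ cr p l → ∀ z ∈ S.L, ∀ z' ∈ S.L,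
        (r : ℤ) ^ k ∣ cr S.u z * cr S.u z') → (r : ℤ) ^ j ∣ c1 - Aa := by
    intro hS
    obtain ⟨f1, f2, f3⟩ := h.f2_loc hr (hW r hr) hS (j := padicValInt r B)
      (pv_self_dvd B) hnd
    have f4 := f3 j (by rw [pv_dvd hr hB.ne']; omega)
    have e5 : cr S.u p' - cr S.u S.v = g * (c1 - Aa) := by rw [e1, e2]; ring
    rw [e5] at f4
    refine pow_dvd_of_mul hr f4 fun h1 => f1 ?_
    rw [e2]; exact h1.mul_left _
  by_cases hre : (r : ℤ) ∣ cr S.u l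
  swap
  · exact concl fun x1 x2 x3 x4 k hk z hz z' _ => h.hS_of_not_dvd hr hre x1 x4 k hk z hz z'
  by_cases hr2 : r = 2
  swap
  · refine concl fun x1 x2 x3 x4 => ?_
    exact absurd (hT r hr hr2 hre x2 x1 x4 _ (pv_self_dvd B)) hnd
  subst hr2
  by_cases hgood : ¬ ((2 : ℕ) : ℤ) ∣ cr S.u p' ∧ ¬ ((2 : ℕ) : ℤ) ∣ cr S.u S.v ∧
      ((2 : ℕ) : ℤ) ∣ cr l' p'
  swap
  · exact concl fun x1 x2 x3 x4 => absurd ⟨x1, x2, x4⟩ hgood
  obtain ⟨g1, g2, g3⟩ := hgood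
  by_cases h4 : (4 : ℤ) ∣ cr S.u l
  · -- `v (Z) ≤ 1`
    have hZ1 : padicValInt 2 Z ≤ 1 := by
      by_contra hn
      push Not at hn
      have h5 : (2 : ℤ) ^ (padicValInt 2 (G : ℤ) + 2) ∣ B := by
        have := (pv_dvd hr hB.ne' (k := padicValInt 2 (G : ℤ) + 2)).2 (by omega)
        exact_mod_cast this
      have h6 := hT2 h4 (by exact_mod_cast g2) (by exact_mod_cast g1) (by exact_mod_cast g3) _ h5
      have h7 := (pv_dvd hr hA1.ne' (k := padicValInt 2 (G : ℤ) + 1)).1 (by exact_mod_cast h6)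
      omega
    have hj1 : j = 1 := by omega
    rw [hj1, pow_one]
    have o1 : ¬ (2 : ℤ) ∣ c1 := by
      intro h5
      apply g1
      rw [e1]; exact_mod_cast h5.mul_right _
    have o2 : ¬ (2 : ℤ) ∣ Aa := by
      intro h5
      apply g2
      rw [e2]; exact_mod_cast h5.mul_right _
    push_cast
    omega
  · by_cases hf : (2 : ℤ) ∣ cr S.u p
    · refine concl fun x1 x2 x3 x4 k hk z hz z' hz' => ?_
      have := h.hS_two (by exact_mod_cast hre) h4 hf (by exact_mod_cast g1)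
        (by exact_mod_cast g3) k (by exact_mod_cast hk) z hz z' hz'
      exact_mod_cast this
    · exfalso
      refine hHL (by exact_mod_cast g2) ?_ (by exact_mod_cast g1) hf (by exact_mod_cast hre) h4
        (by exact_mod_cast g3)
      intro hb
      have h5 := h.rh 2 hr g1 1 (by simpa using hb) p (by
        rw [h.ad.hL]; exact mem_lat.2 ⟨0, 1, by module⟩)
      have h6 : ¬ ((2 : ℕ) : ℤ) ∣ cr S.u p' + cr l' p' := by
        intro h6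
        apply g1
        have := dvd_sub h6 g3
        simpa using this
      have h7 := pow_dvd_of_mul hr h5 h6
      apply hf
      simpa using h7

/-- FINISH: `B = A₁` -/
theorem fin' (h : Pair N S l p l' p' w1 q τ B)
    (hW : ∀ r : ℕ, r.Prime → (r : ℤ) ∣ cr S.u p' → (r : ℤ) ∣ cr l' p' → ¬ (r : ℤ) ∣ B)
    (hT : ∀ r : ℕ, r.Prime → r ≠ 2 → (r : ℤ) ∣ cr S.u l → ¬ (r : ℤ) ∣ cr S.u S.v →
      ¬ (r : ℤ) ∣ cr S.u p' → (r : ℤ) ∣ cr l' p' →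
      ∀ k : ℕ, (r : ℤ) ^ k ∣ B → (r : ℤ) ^ k ∣ cr w1 S.v)
    (hT2 : (4 : ℤ) ∣ cr S.u l → ¬ (2 : ℤ) ∣ cr S.u S.v → ¬ (2 : ℤ) ∣ cr S.u p' →
      (2 : ℤ) ∣ cr l' p' → ∀ k : ℕ, (2 : ℤ) ^ (k + 2) ∣ B → (2 : ℤ) ^ (k + 1) ∣ cr w1 S.v)
    (hHL : ¬ (2 : ℤ) ∣ cr S.u S.v → ¬ (2 : ℤ) ∣ cr p S.v → ¬ (2 : ℤ) ∣ cr S.u p' →
      ¬ (2 : ℤ) ∣ cr S.u p → (2 : ℤ) ∣ cr S.u l → ¬ (4 : ℤ) ∣ cr S.u l → (2 : ℤ) ∣ cr l' p' →
      False)
    (hD : ¬ ((∀ z, (2 : ℤ) ∣ cr S.u z) ∧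
      ∃ j : ℕ, (2 : ℤ) ^ (j + 2) ∣ cr S.u p' ∧ ¬ (2 : ℤ) ^ (j + 1) ∣ cr S.u S.v))
    (hcA : cr S.u S.v < cr S.u p') (hBA : cr w1 S.v ≤ B) : B = cr w1 S.v := by
  obtain ⟨g, c1, Aa, G, Z, k, hg, hG, e1, e2, e3, e4, hc1, hAa, hZ, hk, hco1, hco2, hco3, hZd⟩ :=
    h.fin_aux' hW hT hT2 hHL
  have hf1 := h.f1 hW hD
  have hlt : Aa < c1 := by
    rw [e1, e2] at hcA
    exact lt_of_mul_lt_mul_left hcA hg.le
  have hle : k ≤ Z := by
    have : G * k ≤ G * Z := by rw [← e3, ← e4]; exact hBA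
    exact le_of_mul_le_mul_left this hG
  have h1 : c1 ∣ Z - k := by
    have h2 : g * c1 ∣ g * (Aa * (G * (Z - k))) := by
      have e5 : g * (Aa * (G * (Z - k))) = cr S.u S.v * (B - cr w1 S.v) := by
        rw [e2, e3, e4]; ring
      rw [e5, ← e1]; exact hf1
    have h3 := (mul_dvd_mul_iff_left hg.ne').1 h2
    exact hco2.dvd_of_dvd_mul_left (hco1.dvd_of_dvd_mul_left h3)
  rcases lt_or_eq_of_le hle with h4 | h4
  · exfalso
    have h5 := Int.le_of_dvd (by linarith) h1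
    have h6 := Int.le_of_dvd (by linarith) hZd
    linarith
  · rw [e3, e4, h4]

end Pair

end Pool.Agent.H4G
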