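import Pool.Agent.H4G.Arith.K1HM

/-!
# H-mobility, all `K` (helper23; Lean: helper64)

In a state `T` of the class (area `a'`, content one) some V-twist has the right gap
`c' = gcd (u × z, (v + l) × z : z ∈ L'_T)`; hence `A ≤ c'`, `c' ∣ c_T`, `c' ∣ A + u × l`.
-/

set_option autoImplicit false

namespace Pool.Agent.H4G

/-- the CRT lemma of the V-twists, with the value of the gcd -/
theorem crt_gcd {g B1 B2 : ℤ} (hg : 0 < g) (hB1 : B1 ≠ 0) :
    ∃ (j G : ℤ), 0 < G ∧ G ∣ g ∧ G ∣ B1 ∧ G ∣ B2 ∧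
      (Int.gcd (j * B1) (g - j * B2) : ℤ) = G := by
  set G : ℤ := ((Int.gcd g ((Int.gcd B1 B2 : ℕ) : ℤ) : ℕ) : ℤ) with hG
  have hGpos : 0 < G := by
    rw [hG]
    have : 0 < Int.gcd g (Int.gcd B1 B2) := Int.gcd_pos_of_ne_zero_left _ hg.ne'
    exact_mod_cast this
  have hGg : G ∣ g := by rw [hG]; exact Int.gcd_dvd_left _ _
  obtain ⟨g', hg'⟩ := hGg
  have hB : G ∣ (Int.gcd B1 B2 : ℤ) := by rw [hG]; exact Int.gcd_dvd_right _ _
  have hB1' : G ∣ B1 := hB.trans (Int.gcd_dvd_left _ _)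
  have hB2' : G ∣ B2 := hB.trans (Int.gcd_dvd_right _ _)
  obtain ⟨b1, hb1⟩ := hB1'
  obtain ⟨b2, hb2⟩ := hB2'
  have hg'0 : 0 < g' := by
    rcases lt_trichotomy g' 0 with h | h | h
    · have := mul_neg_of_pos_of_neg hGpos h
      omega
    · rw [h, mul_zero] at hg'; omega
    · exact h
  have hb10 : b1 ≠ 0 := by rintro rfl; exact hB1 (by rw [hb1, mul_zero])
  have hcop : ∀ l : ℕ, l.Prime → (l : ℤ) ∣ g' → (l : ℤ) ∣ b1 → ¬ (l : ℤ) ∣ b2 := by
    intro l hl h1 h2 h3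
    have h4 : G * l ∣ G := by
      conv_rhs => rw [hG]
      refine Int.dvd_coe_gcd ?_ (Int.dvd_coe_gcd ?_ ?_)
      · rw [hg']; exact mul_dvd_mul_left G h1
      · rw [hb1]; exact mul_dvd_mul_left G h2
      · rw [hb2]; exact mul_dvd_mul_left G h3
    have h5 : (l : ℤ) ∣ 1 := by
      have : G * l ∣ G * 1 := by rwa [mul_one]
      exact (mul_dvd_mul_iff_left hGpos.ne').1 this
    exact prime_not_dvd_one hl h5
  obtain ⟨j, hj⟩ := crt_exists (g' * b1) (mul_ne_zero hg'0.ne' hb10)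
    (fun l j => ((l : ℤ) ∣ g' → ¬ (l : ℤ) ∣ j) ∧ ((l : ℤ) ∣ b1 → ¬ (l : ℤ) ∣ g' - j * b2))
    (fun l hl _ => by
      by_cases h1 : (l : ℤ) ∣ g'
      · refine ⟨1, fun _ => prime_not_dvd_one hl, fun h2 h3 => hcop l hl h1 h2 ?_⟩
        have := dvd_sub h1 h3
        simpa using this
      · exact ⟨0, fun h => absurd h h1, fun _ => by simpa using h1⟩)
    (fun l hl _ k k' h1 h2 => by
      refine ⟨fun h3 h4 => h2.1 h3 ?_, fun h3 h4 => h2.2 h3 ?_⟩
      · have := dvd_sub h4 h1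
        simpa using this
      · have : g' - k * b2 = (g' - k' * b2) + (k' - k) * b2 := by ring
        rw [this]
        exact dvd_add h4 (h1.mul_right b2))
  have key : Int.gcd (j * b1) (g' - j * b2) = 1 := by
    by_contra hne
    obtain ⟨l, hl, hd⟩ := Nat.exists_prime_and_dvd hne
    have k1 : (l : ℤ) ∣ j * b1 := (Int.natCast_dvd_natCast.2 hd).trans (Int.gcd_dvd_left _ _)
    have k2 : (l : ℤ) ∣ g' - j * b2 := (Int.natCast_dvd_natCast.2 hd).trans (Int.gcd_dvd_right _ _)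
    rcases (Nat.prime_iff_prime_int.1 hl).dvd_or_dvd k1 with h | h
    · have h3 : (l : ℤ) ∣ g' := by
        have := dvd_add k2 (h.mul_right b2)
        simpa using this
      exact (hj l hl (h3.mul_right _)).1 h3 h
    · exact (hj l hl (h.mul_left _)).2 h k2
  refine ⟨j, G, hGpos, ⟨g', hg'⟩, ⟨b1, hb1⟩, ⟨b2, hb2⟩, ?_⟩
  have e1 : j * B1 = G * (j * b1) := by rw [hb1]; ring
  have e2 : g - j * B2 = G * (g' - j * b2) := by
    conv_lhs => rw [hg', hb2]
    ring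
  rw [e1, e2, Int.gcd_mul_left, key, mul_one, Int.natAbs_of_nonneg hGpos.le]

/-- **KSTAR** -/
theorem ExtB.kstar {S T : PSt} {a' b c : ℤ} (h : ExtB S a' b c) (hST : SEq S T)
    (ha : IsArea T.L' a') (hcon : Con1 T.L') {l p l' p' : Z2} (ad : Ad T l p l' p')
    (hA : cr T.u T.v ≤ cr p T.v) :
    ∃ cs j : ℤ, 0 < cs ∧ cr T.u T.v ≤ cs ∧ cs ∣ cr T.u p' ∧
      (∀ z ∈ T.L', cs ∣ cr T.u z ∧ cs ∣ cr (T.v + l) z) ∧
      cs ∣ cr T.u T.v + cr T.u l ∧ IsC T.L' (T.u - j • (T.v + l)) cs := by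
  obtain ⟨j, cs, k1, k2, k3, k4, k5⟩ := crt_gcd (B2 := cr (T.v + l) p') ad.h6 ad.B_ne
  have k6 := ad.gapV rfl j
  rw [k5] at k6
  have k7 := ad.twV hST.ok' hA j
  have k8 := h.leA (hST.trans k7) ha hcon (d := cs) k6
  have e1 : cr (T.u - j • (T.v + l)) T.v = cr T.u T.v := by
    rw [cr_sub_left, cr_smul_left, cr_add_left, cr_self, ad.h1]; ring
  have k9 : ∀ z ∈ T.L', cs ∣ cr T.u z ∧ cs ∣ cr (T.v + l) z := by
    intro z hz
    rw [ad.hL'] at hz
    obtain ⟨m, n, rfl⟩ := mem_lat.1 hz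
    rw [cr_add_right, cr_smul_right, cr_smul_right, cr_add_right, cr_smul_right, cr_smul_right,
      ad.h4, mul_zero, zero_add]
    exact ⟨k2.mul_left _, dvd_add (k3.mul_left _) (k4.mul_left _)⟩
  refine ⟨cs, j, k1, ?_, k2, k9, ?_, k6⟩
  · rw [← e1]; exact k8
  · have := dvd_Ae hcon k1.ne' (fun w hw => (k9 w hw).1) (fun w hw => (k9 w hw).2)
    rwa [cr_add_right] at this

/-- an allowed H-twist with the gap `b g` -/
theorem ExtB.hmob {S : PSt} {a' b c : ℤ} (h : ExtB S a' b c) {l p l' p' : Z2}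
    (ad : Ad S l p l' p') {i g : ℤ} (hg : 0 < g) (hcon : Con1 (lat l' (p' + i • S.u)))
    (hgap : IsC S.L (S.v + i • (S.u + l')) (b * g)) :
    ∃ cs e2 : ℤ, cr S.u l = g * e2 ∧ 0 < e2 ∧ 0 < cs ∧ cr S.u S.v ≤ cs ∧ cs ∣ c ∧
      cs ∣ cr S.u S.v + e2 := by
  have hb0 : 0 < b := h.bpos
  have ec : cr S.u p' = c := ad.isC'.unique h.hc
  have eb : cr p S.v = b := ad.isC.unique h.hb
  have ea : cr l' p' = a' := ad.isArea'.unique h.ha'
  have hAc : cr S.u S.v ≤ cr S.u p' := by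
    rw [ec]; exact h.leA h.ok.seq h.ha' h.con h.hc
  have k1 := ad.twH h.ok hAc i
  obtain ⟨v, hv⟩ : ∃ v, v = S.v + i • (S.u + l') := ⟨_, rfl⟩
  rw [← hv] at k1 hgap
  have hA' : cr S.u v = cr S.u S.v := by
    rw [hv, cr_add_right, cr_smul_right, cr_add_right, cr_self, ad.h4]; ring
  obtain ⟨l1, p1, l1', p1', ad1⟩ := exists_Ad k1.ok'
  have F1 : cr p1 v = b * g := ad1.isC.unique hgap
  have F0 : cr p1 l1 = cr p l := ad1.isArea.unique ad.isArea
  have ha'i : IsArea (lat l' (p' + i • S.u)) a' := by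
    have h1 : cr l' (p' + i • S.u) = a' := by
      rw [cr_add_right, ea, cr_smul_right, cr_swap l' S.u, ad.h4]; ring
    exact ⟨h.ha'.1, _, _, h1, lat_comm _ _⟩
  have hci : IsC (lat l' (p' + i • S.u)) S.u c := by
    have e1 : cr S.u (p' + i • S.u) = c := by
      rw [cr_add_right, ec, cr_smul_right, cr_self]; ring
    have : IsC (lat l' (p' + i • S.u)) S.u (cr S.u (p' + i • S.u)) :=
      isC_adapted ad.h4 (by rw [e1, ← ec]; exact ad.h6)
    rwa [e1] at this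
  have F2 : cr S.u p1' = c := ad1.isC'.unique hci
  have F4 : g * cr S.u l1 = cr S.u l := by
    have h1 := ad1.area
    dsimp only at h1
    rw [F0, F1, hA', ad.area, eb] at h1
    have h3 : b * (g * cr S.u l1 - cr S.u l) = 0 := by linarith
    rcases mul_eq_zero.1 h3 with h9 | h9
    · exact absurd h9 hb0.ne'
    · linarith
  have hg1 : 1 ≤ g := hg
  have hAb : cr S.u v ≤ cr p1 v := by
    rw [hA', F1]
    have h1 : b * 1 ≤ b * g := mul_le_mul_of_nonneg_left hg1 hb0.le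
    have := h.hA
    linarith
  obtain ⟨cs, j, m1, m2, m3, m4, m5, m6⟩ := h.kstar k1 ha'i hcon ad1 hAb
  dsimp only at m2 m3 m5
  rw [hA'] at m2 m5
  rw [F2] at m3
  exact ⟨cs, cr S.u l1, F4.symm, ad1.h2, m1, m2, m3, m5⟩

/-- **HM-NUM**: the numbers -/
theorem hm_num {A e e2 g c cs K : ℤ} (hA : 0 < A) (he2 : 0 < e2) (he : e = g * e2) (hg : 2 ≤ g)
    (hK : K * c = A + e) (h0 : 0 < cs) (h1 : A ≤ cs) (h2 : cs ∣ c) (h3 : cs ∣ A + e2)
    (h4 : e < 3 * A) :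
    ∃ M m : ℤ, A + e = M * cs ∧ A + e2 = m * cs ∧ 1 ≤ m ∧ m < M ∧ M ≤ 3 ∧ K ∣ M := by
  obtain ⟨t, ht⟩ := h2
  obtain ⟨m, hm⟩ := h3
  have e1 : A + e = (K * t) * cs := by rw [← hK, ht]; ring
  refine ⟨K * t, m, e1, by rw [hm]; ring, ?_, ?_, ?_, dvd_mul_right _ _⟩
  · have : 0 < cs * m := by rw [← hm]; linarith
    have := (mul_pos_iff_of_pos_left h0).1 this
    omega
  · have h5 : e2 < e := by rw [he]; nlinarith
    have h6 : m * cs < (K * t) * cs := by rw [← e1, mul_comm, ← hm]; linarith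
    exact lt_of_mul_lt_mul_right h6 h0.le
  · have h6 : (K * t) * cs < 4 * cs := by rw [← e1]; linarith
    have := lt_of_mul_lt_mul_right h6 h0.le
    omega

/-- the three cases of HM-NUM -/
theorem hm_cases {A e e2 g cs M m : ℤ} (he : e = g * e2) (h1 : A + e = M * cs)
    (h2 : A + e2 = m * cs) (h3 : 1 ≤ m) (h4 : m < M) (h5 : M ≤ 3) :
    (M = 2 ∧ e * (g - 2) = g * A) ∨ (M = 3 ∧ m = 1 ∧ e * (g - 3) = 2 * (g * A)) ∨
      (M = 3 ∧ m = 2 ∧ e * (2 * g - 3) = g * A) := by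
  have h6 : M = 2 ∨ M = 3 := by omega
  rcases h6 with rfl | rfl
  · left
    have hm : m = 1 := by omega
    subst hm
    refine ⟨rfl, ?_⟩
    linear_combination g * h1 - 2 * g * h2 - 2 * he
  · have hm : m = 1 ∨ m = 2 := by omega
    rcases hm with rfl | rfl
    · right; left
      refine ⟨rfl, rfl, ?_⟩
      linear_combination g * h1 - 3 * g * h2 - 3 * he
    · right; right
      refine ⟨rfl, rfl, ?_⟩
      linear_combination 2 * g * h1 - 3 * g * h2 - 3 * he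

end Pool.Agent.H4G
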