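import Pool.Agent.H4G.Arith.K1L2b

/-!
# LINE B, `K = 1`: level two, the end (helper9; Lean: helper64)
-/

set_option autoImplicit false

namespace Pool.Agent.H4G

variable {S : PSt} {a' b c A a e f y φ : ℤ} {l p : Z2} {N d A1 B k g e2 Y : ℕ}

/-! ## The sets of primes -/

theorem PA_sub {B g e2 Y r : ℕ} (h : r ∈ PA B g e2 Y) : r ∈ PB B g e2 Y := by
  unfold PB
  split
  · by_cases h3 : r = 3
    · exact Finset.mem_insert.2 (Or.inl h3)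
    · exact Finset.mem_insert.2 (Or.inr (Finset.mem_erase.2 ⟨h3, h⟩))
  · exact h

theorem PB_sub {B g e2 Y r : ℕ} (h : r ∈ PB B g e2 Y) : r ∈ PA B g e2 Y ∨ r = 3 := by
  unfold PB at h
  split at h
  · rcases Finset.mem_insert.1 h with h | h
    · exact Or.inr h
    · exact Or.inl (Finset.mem_erase.1 h).2
  · exact Or.inl h

theorem three_PB {B g e2 Y : ℕ} (h : 3 ∣ g * e2) (h2 : ¬ 3 ∣ g * Y) : 3 ∈ PB B g e2 Y := by
  unfold PB
  rw [if_pos ⟨h, h2⟩]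
  exact Finset.mem_insert_self _ _

theorem three_PC {g e2 Y : ℕ} (h : 3 ∣ g * e2) (h2 : ¬ 3 ∣ g * Y) (h9 : 9 ∣ g * e2) :
    3 ∈ PC g e2 Y := by
  unfold PC
  rw [if_pos ⟨⟨h, h2⟩, h9⟩]
  exact Finset.mem_singleton_self _

theorem PC_sub {g e2 Y r : ℕ} (h : r ∈ PC g e2 Y) : r = 3 := by
  unfold PC at h
  split at h
  · exact Finset.mem_singleton.1 h
  · simp at h

theorem K2N.mem_PA (H : K2N S a' b c A a e f y φ l p N d A1 B k g e2 Y) {r : ℕ} (hr : r.Prime)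
    (hra : (r : ℤ) ∣ a) (hry : (r : ℤ) ∣ 1 + y) : r ∈ PA B g e2 Y := by
  unfold PA
  rw [Nat.mem_primeFactors]
  rw [H.D.ha] at hra
  rw [H.D.hy] at hry
  refine ⟨hr, Nat.dvd_gcd (by exact_mod_cast hra) (by exact_mod_cast hry), ?_⟩
  have := Nat.gcd_pos_of_pos_right (g * e2 * B) (show 0 < 1 + g * Y by omega)
  omega

theorem K2N.PB_odd (H : K2N S a' b c A a e f y φ l p N d A1 B k g e2 Y) {r : ℕ}
    (hr : r ∈ PB B g e2 Y) : r.Prime ∧ 3 ≤ r := by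
  rcases PB_sub hr with h1 | h1
  · unfold PA at h1
    have h2 := Nat.prime_of_mem_primeFactors h1
    have h3 := (Nat.dvd_of_mem_primeFactors h1).trans (Nat.gcd_dvd_right _ _)
    refine ⟨h2, ?_⟩
    have h4 : r ≠ 2 := by
      rintro rfl
      have h5 := H.par.2.1
      rw [H.D.hy] at h5
      have h6 : 2 ∣ g * Y := by exact_mod_cast h5
      omega
    have := h2.two_le
    omega
  · subst h1
    exact ⟨Nat.prime_three, le_refl _⟩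

/-! ## The classes -/

theorem K2N.rho1 (H : K2N S a' b c A a e f y φ l p N d A1 B k g e2 Y) {o Q : ℤ}
    (ho : o = 1 ∨ o = -1) (hQ : Q = B * k * (A1 + g * e2)) (w : ℤ) :
    ∃ ρ1 : ℕ → ℤ, ∀ x : ℤ, (∀ r ∈ PB B g e2 Y, ¬ (r : ℤ) ∣ x - ρ1 r) →
      (∀ r : ℕ, r.Prime → (r : ℤ) ∣ a → (r : ℤ) ∣ 1 + y → (r ≠ 3 ∨ ¬ (3 : ℤ) ∣ e) →
        ∀ i : ℤ, ¬ ((r : ℤ) ∣ (o * (1 + 2 * (w + g * x)) + i * (1 + y + 2 * Q)) * e ∧
          (r : ℤ) ∣ 3 * b + 2 * a - (o * (1 + 2 * (w + g * x)) + i * (1 + y + 2 * Q)) * f)) ∧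
      ((3 : ℤ) ∣ e → ¬ (3 : ℤ) ∣ A → ¬ (3 : ℤ) ∣ y → ¬ (3 : ℤ) ∣ 1 + 2 * (w + g * x)) := by
  have key : ∀ r : ℕ, ∃ ρ : ℤ, r.Prime → ∀ x : ℤ,
      (((r ≠ 3 ∨ ¬ (3 : ℤ) ∣ e) ∧ (r : ℤ) ∣ a ∧ (r : ℤ) ∣ 1 + y ∧ ∃ i : ℤ,
        ((r : ℤ) ∣ (o * (1 + 2 * (w + g * x)) + i * (1 + y + 2 * Q)) * e ∧
          (r : ℤ) ∣ 3 * b + 2 * a - (o * (1 + 2 * (w + g * x)) + i * (1 + y + 2 * Q)) * f)) ∨
      (r = 3 ∧ (3 : ℤ) ∣ e ∧ ¬ (3 : ℤ) ∣ y ∧ (3 : ℤ) ∣ 1 + 2 * (w + g * x))) →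
        (r : ℤ) ∣ x - ρ := by
    intro r
    by_cases hr : r.Prime
    · obtain ⟨ρ, hρ⟩ := class_of_diff (m := (r : ℤ)) (P := fun x =>
        (((r ≠ 3 ∨ ¬ (3 : ℤ) ∣ e) ∧ (r : ℤ) ∣ a ∧ (r : ℤ) ∣ 1 + y ∧ ∃ i : ℤ,
          ((r : ℤ) ∣ (o * (1 + 2 * (w + g * x)) + i * (1 + y + 2 * Q)) * e ∧
            (r : ℤ) ∣ 3 * b + 2 * a - (o * (1 + 2 * (w + g * x)) + i * (1 + y + 2 * Q)) * f)) ∨
        (r = 3 ∧ (3 : ℤ) ∣ e ∧ ¬ (3 : ℤ) ∣ y ∧ (3 : ℤ) ∣ 1 + 2 * (w + g * x)))) (by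
          intro x x' h1 h2
          rcases h1 with ⟨m1, m2, m3, i, m4⟩ | ⟨m1, m2, m3, m4⟩
          · rcases h2 with ⟨n1, n2, n3, i', n4⟩ | ⟨n1, n2, n3, n4⟩
            · exact H.pcls ho hQ w hr m2 m3 m1 m4 n4
            · exfalso
              rcases m1 with m1 | m1
              · exact m1 n1
              · exact m1 n2
          · rcases h2 with ⟨n1, n2, n3, i', n4⟩ | ⟨n1, n2, n3, n4⟩
            · exfalso
              rcases n1 with n1 | n1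
              · exact n1 m1
              · exact n1 m2
            · subst m1
              exact_mod_cast H.tcls1 m3 m4 n4)
      exact ⟨ρ, fun _ => hρ⟩
    · exact ⟨0, fun h => absurd h hr⟩
  choose ρ1 hρ1 using key
  refine ⟨ρ1, fun x hx => ⟨fun r hr hra hry hr3 i h9 => ?_, fun h3e h3A h3y h9 => ?_⟩⟩
  · exact hx r (PA_sub (H.mem_PA hr hra hry)) (hρ1 r hr x (Or.inl ⟨hr3, hra, hry, i, h9⟩))
  · refine hx 3 (three_PB (H.three.1 ⟨h3e, h3A⟩) ?_)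
      (hρ1 3 Nat.prime_three x (Or.inr ⟨rfl, h3e, h3y, h9⟩))
    intro h10
    apply h3y
    rw [H.D.hy]
    exact_mod_cast h10

theorem K2N.rho2 (H : K2N S a' b c A a e f y φ l p N d A1 B k g e2 Y) {o Q y2 : ℤ}
    (ho : o = 1 ∨ o = -1) (hQ : Q = B * k * (A1 + g * e2)) (hy2 : y = 2 * y2) (w : ℤ) :
    ∃ ρ2 : ℕ → ℤ, ∀ x : ℤ,
      ((3 : ℤ) ∣ e → ¬ (3 : ℤ) ∣ A → ¬ (3 : ℤ) ∣ y → (3 : ℤ) ∣ f → ¬ (9 : ℤ) ∣ f → ∀ i : ℤ,
        (9 : ℤ) ∣ 3 * b + 2 * a - (o * (1 + 2 * (w + g * x)) + i * (1 + y + 2 * Q)) * f →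
        (3 : ℤ) ∣ x - ρ2 3) ∧
      (∀ r : ℕ, r.Prime → ∀ t i : ℤ, o * (w + g * x) = t * y2 + φ + i * (1 - Q) →
        Dz r ((y - 2) • S.u) → Dz r ((φ + t + i) • S.u + (S.v + l)) →
        (r : ℤ) ∣ x - ρ2 r) := by
  have key : ∀ r : ℕ, ∃ ρ : ℤ, r.Prime → ∀ x : ℤ,
      ((r = 3 ∧ (3 : ℤ) ∣ e ∧ ¬ (3 : ℤ) ∣ A ∧ ¬ (3 : ℤ) ∣ y ∧ (3 : ℤ) ∣ f ∧ ¬ (9 : ℤ) ∣ f ∧
        ∃ i : ℤ, (9 : ℤ) ∣ 3 * b + 2 * a -
          (o * (1 + 2 * (w + g * x)) + i * (1 + y + 2 * Q)) * f) ∨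
      (∃ t i : ℤ, o * (w + g * x) = t * y2 + φ + i * (1 - Q) ∧ Dz r ((y - 2) • S.u) ∧
        Dz r ((φ + t + i) • S.u + (S.v + l)))) → (r : ℤ) ∣ x - ρ := by
    intro r
    by_cases hr : r.Prime
    · obtain ⟨ρ, hρ⟩ := class_of_diff (m := (r : ℤ)) (P := fun x =>
        ((r = 3 ∧ (3 : ℤ) ∣ e ∧ ¬ (3 : ℤ) ∣ A ∧ ¬ (3 : ℤ) ∣ y ∧ (3 : ℤ) ∣ f ∧ ¬ (9 : ℤ) ∣ f ∧
          ∃ i : ℤ, (9 : ℤ) ∣ 3 * b + 2 * a -
            (o * (1 + 2 * (w + g * x)) + i * (1 + y + 2 * Q)) * f) ∨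
        (∃ t i : ℤ, o * (w + g * x) = t * y2 + φ + i * (1 - Q) ∧ Dz r ((y - 2) • S.u) ∧
          Dz r ((φ + t + i) • S.u + (S.v + l))))) (by
          have mix : r = 3 → (3 : ℤ) ∣ e → ¬ (3 : ℤ) ∣ A → ∀ τ : ℤ, Dz r ((y - 2) • S.u) →
              Dz r (τ • S.u + (S.v + l)) → False := by
            intro h1 h2 h3 τ h4 h5
            have h6 := (H.cfact hr h4 h5).1
            rw [h1, H.h.hc] at h6
            exact h3 ((dvd_add_left h2).1 (by exact_mod_cast h6))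
          intro x x' h1 h2
          rcases h1 with ⟨m1, m2, m3, m4, m5, m6, i, m7⟩ | ⟨t, i, m1, m2, m3⟩
          · rcases h2 with ⟨n1, n2, n3, n4, n5, n6, i', n7⟩ | ⟨t', i', n1, n2, n3⟩
            · subst m1
              exact_mod_cast H.tcls2 ho hQ m2 m3 m4 m5 m6 m7 n7
            · exact absurd n3 (fun h9 => mix m1 m2 m3 _ n2 h9)
          · rcases h2 with ⟨n1, n2, n3, n4, n5, n6, i', n7⟩ | ⟨t', i', n1, n2, n3⟩
            · exact absurd m3 (fun h9 => mix n1 n2 n3 _ m2 h9)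
            · exact H.ccls ho hQ hy2 hr m1 m2 m3 n1 n3)
      exact ⟨ρ, fun _ => hρ⟩
    · exact ⟨0, fun h => absurd h hr⟩
  choose ρ2 hρ2 using key
  refine ⟨ρ2, fun x => ⟨fun h3e h3A h3y h3f h9f i h9 => ?_, fun r hr t i h1 h2 h3 => ?_⟩⟩
  · exact_mod_cast hρ2 3 Nat.prime_three x (Or.inl ⟨rfl, h3e, h3A, h3y, h3f, h9f, i, h9⟩)
  · exact hρ2 r hr x (Or.inr ⟨t, i, h1, h2, h3⟩)

/-- the sign -/
theorem exists_sign (b a f : ℤ) : ∃ o : ℤ, (o = 1 ∨ o = -1) ∧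
    (¬ (9 : ℤ) ∣ f → ¬ (9 : ℤ) ∣ 3 * b + 2 * a - o * f) := by
  by_cases h1 : (9 : ℤ) ∣ 3 * b + 2 * a - 1 * f
  · refine ⟨-1, Or.inr rfl, fun h2 h3 => h2 ?_⟩
    omega
  · exact ⟨1, Or.inl rfl, fun _ => h1⟩

/-- the parities in `ℕ` -/
theorem K2N.npar (H : K2N S a' b c A a e f y φ l p N d A1 B k g e2 Y) :
    d % 2 = 1 ∧ A1 % 2 = 1 ∧ k % 2 = 1 ∧ B % 4 = d % 4 ∧ 4 ∣ g * e2 ∧ 2 ∣ g * Y ∧
      2 ≤ g * Y := by
  obtain ⟨k1, k2, k3, k4, k5⟩ := H.par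
  have hd : d % 2 = 1 := by
    by_contra h
    have h1 : 2 ∣ d := by omega
    apply H.hA2
    rw [H.D.hA]
    exact Dvd.dvd.mul_right (by exact_mod_cast h1) _
  have hA : A1 % 2 = 1 := by
    by_contra h
    have h1 : 2 ∣ A1 := by omega
    apply H.hA2
    rw [H.D.hA]
    exact Dvd.dvd.mul_left (by exact_mod_cast h1) _
  have hy : 2 ∣ g * Y := by
    rw [H.D.hy] at k2
    exact_mod_cast k2
  have hk : k % 2 = 1 := by
    by_contra h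
    have h1 : 2 ∣ k := by omega
    have h2 : 2 ∣ A1 * (B * k) := (h1.mul_left _).mul_left _
    rw [H.D.hM] at h2
    omega
  have h4e : 4 ∣ g * e2 := by
    have h1 := H.he4
    rw [H.D.he] at h1
    have h2 : 4 ∣ d * (g * e2) := by exact_mod_cast h1
    have h3 : Nat.Coprime 4 d := by
      have : Nat.Coprime (2 ^ 2) d := Nat.Coprime.pow_left 2
        ((Nat.Prime.coprime_iff_not_dvd Nat.prime_two).2 (by omega))
      simpa using this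
    exact h3.dvd_of_dvd_mul_left h2
  have hBd : B % 4 = d % 4 := by
    have h1 := H.hbA
    rw [H.D.hb, H.D.hA] at h1
    have h2 : (4 : ℤ) ∣ A1 * ((B : ℤ) - d) := by
      have e1 : (A1 : ℤ) * ((B : ℤ) - d) = A1 * B - d * A1 := by ring
      rw [e1]; exact h1
    have h3 : IsCoprime (4 : ℤ) (A1 : ℤ) := by
      have h4 : ((2 : ℕ) : ℤ) ∣ A1 → False := fun h5 => by
        have : 2 ∣ A1 := by exact_mod_cast h5
        omega
      have h5 : IsCoprime (((2 : ℕ) : ℤ) ^ 2) (A1 : ℤ) :=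
        (isCoprime_of_not_dvd Nat.prime_two h4).pow_left
      norm_num at h5
      exact h5
    have h4 := h3.dvd_of_dvd_mul_left h2
    omega
  have hg0 := H.D.g0
  have hY0 := H.D.Y0
  have : 0 < g * Y := Nat.mul_pos hg0 hY0
  exact ⟨hd, hA, hk, hBd, h4e, hy, Nat.le_of_dvd this hy⟩

/-! ## The windows -/

theorem cast_win {K A1 g c1 z : ℕ} {y2 : ℤ} (hy : (z : ℤ) = 2 * y2) (h2 : 2 ≤ z)
    (hn : K * (2 * (A1 * g)) ≤ c1 * (z - 2)) : (K : ℤ) * (A1 * g) ≤ c1 * y2 - c1 := by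
  have h1 : ((K * (2 * (A1 * g)) : ℕ) : ℤ) ≤ ((c1 * (z - 2) : ℕ) : ℤ) := by exact_mod_cast hn
  rw [Nat.cast_mul c1, Nat.cast_sub h2, hy] at h1
  push_cast at h1
  linarith

theorem win2 {P1 P2 : Finset ℕ} (h1 : ∀ r ∈ P1, r.Prime ∧ 3 ≤ r)
    (h2 : ∀ r ∈ P2, r.Prime ∧ 3 ≤ r) (ρ1 ρ2 : ℕ → ℤ) {A1 g c1 z : ℕ} {y2 : ℤ} (hA : 0 < A1)
    (hg : 0 < g) (hy : (z : ℤ) = 2 * y2) (hz : 2 ≤ z)
    (hn : 2 ^ (P1.card + P2.card) * (2 * (A1 * g)) ≤ c1 * (z - 2)) (w : ℤ) :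
    ∃ x : ℤ, ((c1 : ℤ) < A1 * (w + g * x) ∧ (A1 : ℤ) * (w + g * x) ≤ c1 * y2) ∧
      (∀ r ∈ P1, ¬ (r : ℤ) ∣ x - ρ1 r) ∧ (∀ r ∈ P2, ¬ (r : ℤ) ∣ x - ρ2 r) := by
  obtain ⟨x₀, k1, k2⟩ := avoid0 P1 P2 h1 h2 ρ1 ρ2
  obtain ⟨x, hw, hx⟩ := window_avoid (P1.disjSum P2)
    (Sum.elim (fun r => (r : ℤ)) (fun r => (r : ℤ))) (Sum.elim ρ1 ρ2) (by
      intro s hs
      rcases Finset.mem_disjSum.1 hs with ⟨r, hr, rfl⟩ | ⟨r, hr, rfl⟩
      · have := (h1 r hr).2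
        show (0 : ℤ) < (r : ℤ)
        omega
      · have := (h2 r hr).2
        show (0 : ℤ) < (r : ℤ)
        omega) (x₀ := x₀) (by
      intro s hs
      rcases Finset.mem_disjSum.1 hs with ⟨r, hr, rfl⟩ | ⟨r, hr, rfl⟩
      · exact k1 r hr
      · exact k2 r hr) (A := (A1 : ℤ)) (g := (g : ℤ)) (w := w) (lo := (c1 : ℤ))
      (hi := (c1 : ℤ) * y2) (by exact_mod_cast hA) (by exact_mod_cast hg) (by
        rw [Finset.card_disjSum]
        have := cast_win hy hz hn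
        push_cast at this
        exact this)
  exact ⟨x, hw, fun r hr => hx (Sum.inl r) (Finset.mem_disjSum.2 (Or.inl ⟨r, hr, rfl⟩)),
    fun r hr => hx (Sum.inr r) (Finset.mem_disjSum.2 (Or.inr ⟨r, hr, rfl⟩))⟩

theorem win3 {P1 P2 : Finset ℕ} (h1 : ∀ r ∈ P1, r.Prime ∧ 3 ≤ r)
    (h2 : ∀ r ∈ P2, r.Prime ∧ 3 ≤ r) (ρ1 ρ2 : ℕ → ℤ) {A1 g c1 z : ℕ} {y2 : ℤ} (hA : 0 < A1)
    (hg : 0 < g) (hy : (z : ℤ) = 2 * y2) (hz : 2 ≤ z) {m ρ x₀ : ℤ} (hm : 3 ≤ m)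
    (k1 : ∀ r ∈ P1, ¬ (r : ℤ) ∣ x₀ - ρ1 r) (k2 : ∀ r ∈ P2, ¬ (r : ℤ) ∣ x₀ - ρ2 r)
    (k3 : ¬ m ∣ x₀ - ρ)
    (hn : 2 ^ (P1.card + P2.card + 1) * (2 * (A1 * g)) ≤ c1 * (z - 2) ∨
      (P1.card + P2.card ≤ 1 ∧ 3 * (2 * (A1 * g)) ≤ c1 * (z - 2))) (w : ℤ) :
    ∃ x : ℤ, ((c1 : ℤ) < A1 * (w + g * x) ∧ (A1 : ℤ) * (w + g * x) ≤ c1 * y2) ∧
      (∀ r ∈ P1, ¬ (r : ℤ) ∣ x - ρ1 r) ∧ (∀ r ∈ P2, ¬ (r : ℤ) ∣ x - ρ2 r) ∧ ¬ m ∣ x - ρ := by
  have hpos : ∀ s ∈ P1.disjSum P2, (3 : ℤ) ≤ Sum.elim (fun r : ℕ => (r : ℤ))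
      (fun r : ℕ => (r : ℤ)) s := by
    intro s hs
    rcases Finset.mem_disjSum.1 hs with ⟨r, hr, rfl⟩ | ⟨r, hr, rfl⟩
    · have := (h1 r hr).2
      show (3 : ℤ) ≤ (r : ℤ)
      omega
    · have := (h2 r hr).2
      show (3 : ℤ) ≤ (r : ℤ)
      omega
  rcases hn with hn | ⟨hc, hn⟩
  · obtain ⟨x, hw, hx⟩ := window_avoid (Finset.insertNone (P1.disjSum P2))
      (fun s : Option (ℕ ⊕ ℕ) => s.elim m (Sum.elim (fun r : ℕ => (r : ℤ)) (fun r : ℕ => (r : ℤ))))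
      (fun s : Option (ℕ ⊕ ℕ) => s.elim ρ (Sum.elim ρ1 ρ2)) (by
        intro s hs
        rcases s with - | s
        · show (0 : ℤ) < m
          omega
        · have := hpos s (Finset.some_mem_insertNone.1 hs)
          show (0 : ℤ) < Sum.elim (fun r : ℕ => (r : ℤ)) (fun r : ℕ => (r : ℤ)) s
          omega) (x₀ := x₀) (by
        intro s hs
        rcases s with - | s
        · exact k3
        · rcases Finset.mem_disjSum.1 (Finset.some_mem_insertNone.1 hs) with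
            ⟨r, hr, rfl⟩ | ⟨r, hr, rfl⟩
          · exact k1 r hr
          · exact k2 r hr) (A := (A1 : ℤ)) (g := (g : ℤ)) (w := w) (lo := (c1 : ℤ))
        (hi := (c1 : ℤ) * y2) (by exact_mod_cast hA) (by exact_mod_cast hg) (by
          rw [Finset.card_insertNone, Finset.card_disjSum]
          have := cast_win hy hz hn
          push_cast at this
          exact this)
    exact ⟨x, hw, fun r hr => hx (some (Sum.inl r)) (Finset.some_mem_insertNone.2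
        (Finset.mem_disjSum.2 (Or.inl ⟨r, hr, rfl⟩))),
      fun r hr => hx (some (Sum.inr r)) (Finset.some_mem_insertNone.2
        (Finset.mem_disjSum.2 (Or.inr ⟨r, hr, rfl⟩))), hx none (Finset.none_mem_insertNone)⟩
  · have hn' : (3 : ℤ) * ((A1 : ℤ) * g) ≤ (c1 : ℤ) * y2 - c1 := by
      have := cast_win hy hz hn
      push_cast at this
      exact this
    rcases (P1.disjSum P2).eq_empty_or_nonempty with h0 | ⟨s, hs⟩
    · obtain ⟨x, hw, -, hx2⟩ := window_three (m1 := 3) (m2 := m) (r1 := 0) (r2 := ρ)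
        (A := (A1 : ℤ)) (g := (g : ℤ)) (w := w) (lo := (c1 : ℤ)) (hi := (c1 : ℤ) * y2)
        (by norm_num) hm (by exact_mod_cast hA) (by exact_mod_cast hg) hn'
      refine ⟨x, hw, fun r hr => ?_, fun r hr => ?_, hx2⟩
      · have : (Sum.inl r : ℕ ⊕ ℕ) ∈ P1.disjSum P2 := Finset.mem_disjSum.2 (Or.inl ⟨r, hr, rfl⟩)
        rw [h0] at this
        simp at this
      · have : (Sum.inr r : ℕ ⊕ ℕ) ∈ P1.disjSum P2 := Finset.mem_disjSum.2 (Or.inr ⟨r, hr, rfl⟩)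
        rw [h0] at this
        simp at this
    · have hs1 : ∀ s' ∈ P1.disjSum P2, s' = s := by
        intro s' hs'
        rw [← Finset.card_disjSum] at hc
        exact Finset.card_le_one.1 hc s' hs' s hs
      obtain ⟨x, hw, hx1, hx2⟩ := window_three
        (m1 := Sum.elim (fun r : ℕ => (r : ℤ)) (fun r : ℕ => (r : ℤ)) s) (m2 := m)
        (r1 := Sum.elim ρ1 ρ2 s) (r2 := ρ)
        (A := (A1 : ℤ)) (g := (g : ℤ)) (w := w) (lo := (c1 : ℤ)) (hi := (c1 : ℤ) * y2)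
        (hpos s hs) hm (by exact_mod_cast hA) (by exact_mod_cast hg) hn'
      refine ⟨x, hw, fun r hr => ?_, fun r hr => ?_, hx2⟩
      · have := hs1 (Sum.inl r) (Finset.mem_disjSum.2 (Or.inl ⟨r, hr, rfl⟩))
        rw [← this] at hx1
        exact hx1
      · have := hs1 (Sum.inr r) (Finset.mem_disjSum.2 (Or.inr ⟨r, hr, rfl⟩))
        rw [← this] at hx1
        exact hx1

/-! ## The ends -/

/-- the end for `d > 1` -/
theorem K2N.fin_d (H : K2N S a' b c A a e f y φ l p N d A1 B k g e2 Y) (hd : 2 ≤ d) :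
    ∃ (T : PSt) (δ : ℤ), SEq S T ∧ IsC T.L T.v δ ∧ δ ≤ 2 := by
  classical
  obtain ⟨k1, ⟨y2, hy2⟩, k3, k4, k5⟩ := H.par
  obtain ⟨n1, n2, n3, n4, n5, n6, n7⟩ := H.npar
  obtain ⟨o, ho, hs⟩ := exists_sign b a f
  have ho2 : o * o = 1 := by rcases ho with rfl | rfl <;> norm_num
  obtain ⟨Q, hQ⟩ : ∃ Q : ℤ, Q = B * k * (A1 + g * e2) := ⟨_, rfl⟩
  obtain ⟨w, hw⟩ : ∃ w : ℤ, w = o * (y2 + φ) := ⟨_, rfl⟩
  obtain ⟨ρ1, hρ1⟩ := H.rho1 ho hQ w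
  obtain ⟨ρ2, hρ2⟩ := H.rho2 ho hQ hy2 w
  obtain ⟨P2, hP2⟩ : ∃ P2 : Finset ℕ, P2 = PC g e2 Y ∪
    (Nat.gcd (d * (A1 + g * e2)) (g * Y - 2)).primeFactors := ⟨_, rfl⟩
  have hP2' : ∀ r ∈ P2, r.Prime ∧ 3 ≤ r := by
    intro r hr
    rw [hP2] at hr
    rcases Finset.mem_union.1 hr with h1 | h1
    · rw [PC_sub h1]; exact ⟨Nat.prime_three, le_refl _⟩
    · have h2 := Nat.prime_of_mem_primeFactors h1
      have h3 := (Nat.dvd_of_mem_primeFactors h1).trans (Nat.gcd_dvd_left _ _)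
      refine ⟨h2, ?_⟩
      have h4 : r ≠ 2 := by
        rintro rfl
        apply k5
        rw [H.D.hc]
        exact_mod_cast h3
      have := h2.two_le
      omega
  have hT : 2 ^ ((PB B g e2 Y).card + P2.card) * (2 * (A1 * g)) ≤
      (A1 + g * e2) * (g * Y - 2) := by
    refine le_trans (Nat.mul_le_mul_right _ (Nat.pow_le_pow_right (by norm_num) ?_))
      (K1.t6 hd n1 n2 H.D.g0 H.D.e0 H.D.Y0 n3 H.D.hB n4 n5 H.D.hM H.D.h3 H.D.co1 H.D.co2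
        H.D.co3 H.D.rad)
    have h1 := card_k2 A1 B k g e2 Y
    have h2 : P2.card ≤ (PC g e2 Y).card +
        ((Nat.gcd (d * (A1 + g * e2)) (g * Y - 2)).primeFactors).card := by
      rw [hP2]; exact Finset.card_union_le _ _
    omega
  have hzy : ((g * Y : ℕ) : ℤ) = 2 * y2 := by
    rw [← hy2, H.D.hy]; push_cast; ring
  obtain ⟨x, ⟨w1, w2⟩, hx1, hx2⟩ := win2 (fun r hr => H.PB_odd hr) hP2' ρ1 ρ2 H.D.A0 H.D.g0
    hzy n7 hT w
  obtain ⟨c1, hc1⟩ : ∃ c1 : ℤ, c1 = A1 + g * e2 := ⟨_, rfl⟩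
  have hd0 : (0 : ℤ) < d := by exact_mod_cast H.D.d0
  have w1' : c < A * (w + g * x) := by
    have h1 := mul_lt_mul_of_pos_left w1 hd0
    push_cast at h1
    rw [H.D.hc, H.D.hA]
    have e1 : (d : ℤ) * A1 * (w + g * x) = d * (A1 * (w + g * x)) := by ring
    rw [e1]; exact h1
  have w2' : A * (w + g * x) ≤ c * y2 := by
    have h1 := mul_le_mul_of_nonneg_left w2 hd0.le
    push_cast at h1
    rw [H.D.hc, H.D.hA]
    have e1 : (d : ℤ) * A1 * (w + g * x) = d * (A1 * (w + g * x)) := by ring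
    have e2 : (d : ℤ) * (A1 + g * e2) * y2 = d * ((A1 + g * e2) * y2) := by ring
    rw [e1, e2]; exact h1
  have hc0 := H.h.c0
  have hy22 : 1 < y2 := by
    have h1 : c * 1 < c * y2 := by linarith
    exact lt_of_mul_lt_mul_left h1 hc0.le
  obtain ⟨q1, q2⟩ := hρ1 x hx1
  obtain ⟨q3, q4⟩ := hρ2 x
  obtain ⟨t, i, W, κ, j1, j2, j3, j4, j5, j6, j7⟩ := H.h.exit2 H.hN H.hv H.hb3 H.he3 H.hA2 k1
    H.hf2 H.hnf (o := o) (Q := Q) (y2 := y2) (ω := w + g * x) ho hs (H.Qeq hQ) hy2 (by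
      refine (H.gQ hQ).trans ⟨o * x, ?_⟩
      rw [hw]; linear_combination (y2 + φ) * ho2) w1' w2' q1
    (fun h3e h3A h3y => ⟨q2 h3e h3A h3y, fun h3f h9e h9f i h9 => by
      have h3 := H.three.1 ⟨h3e, h3A⟩
      have h3Y : ¬ 3 ∣ g * Y := by
        intro h10
        apply h3y
        rw [H.D.hy]
        exact_mod_cast h10
      have h9' : 9 ∣ g * e2 := by
        rw [H.D.he] at h9e
        have h11 : 9 ∣ d * (g * e2) := by exact_mod_cast h9e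
        have h12 : Nat.Coprime (3 ^ 2) d := Nat.Coprime.pow_left 2
          ((Nat.Prime.coprime_iff_not_dvd Nat.prime_three).2 (fun h13 => h3A (by
            rw [H.D.hA]
            exact Dvd.dvd.mul_right (by exact_mod_cast h13) _)))
        norm_num at h12
        exact h12.dvd_of_dvd_mul_left h11
      refine hx2 3 ?_ (q3 h3e h3A h3y h3f h9f i h9)
      rw [hP2]
      exact Finset.mem_union_left _ (three_PC h3 h3Y h9')⟩)
  refine H.h.fin2 H.hN H.hv (n := 2) (by rw [hy2]; linarith) j3 j5 j6 j7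
    (fun r hr hr2 h9 => ?_) (fun h9 => ?_)
  · obtain ⟨m1, m2, m3, m4, m5⟩ := H.cfact hr h9.1 h9.2
    refine hx2 r ?_ (q4 r hr t i j2 h9.1 h9.2)
    rw [hP2]
    refine Finset.mem_union_right _ ?_
    rw [Nat.mem_primeFactors]
    rw [H.D.hc] at m1
    have m3' : (r : ℤ) ∣ ((g * Y - 2 : ℕ) : ℤ) := by
      rw [Nat.cast_sub n7]
      push_cast
      rw [← H.D.hy]; exact m3
    refine ⟨hr, Nat.dvd_gcd (by exact_mod_cast m1) (by exact_mod_cast m3'), ?_⟩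
    have := Nat.gcd_pos_of_pos_left (g * Y - 2) (Nat.mul_pos H.D.d0
      (show 0 < A1 + g * e2 from Nat.add_pos_left H.D.A0 _))
    omega
  · have h10 : (2 : ℤ) ∣ c := by
      have h3 := h9.2.cr_right S.u
      rw [cr_add_right, cr_smul_right, cr_self, H.h.uw, mul_zero, zero_add] at h3
      exact (by norm_num : (2 : ℤ) ∣ 4).trans h3
    exact k5 h10

/-- the modulus of the last class for `d = 1` -/
theorem exists_mod {A e : ℤ} (hA0 : 0 < A) (he0 : 0 < e) (hco : IsCoprime A e) :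
    ∃ m : ℤ, 3 ≤ m ∧ m ∣ 3 * A + 2 * e ∧ ∀ W : ℤ, 3 * A + 2 * e ∣ W * e → m ∣ W := by
  by_cases h3 : (3 : ℤ) ∣ e
  · obtain ⟨e', rfl⟩ := h3
    have hco1 : IsCoprime A e' := hco.of_mul_right_right
    have hco2 : IsCoprime (A + 2 * e') e' := by
      obtain ⟨α, β, hαβ⟩ := hco1
      exact ⟨α, β - 2 * α, by linear_combination hαβ⟩
    refine ⟨A + 2 * e', by omega, ⟨3, by ring⟩, fun W hW => ?_⟩
    have h4 : (3 : ℤ) * (A + 2 * e') ∣ 3 * (W * e') := by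
      have e1 : (3 : ℤ) * (A + 2 * e') = 3 * A + 2 * (3 * e') := by ring
      have e2 : (3 : ℤ) * (W * e') = W * (3 * e') := by ring
      rw [e1, e2]; exact hW
    exact hco2.dvd_of_dvd_mul_right ((mul_dvd_mul_iff_left (by norm_num)).1 h4)
  · have hco3 : IsCoprime (3 : ℤ) e :=
      isCoprime_of_not_dvd (p := 3) Nat.prime_three (by exact_mod_cast h3)
    have hco2 : IsCoprime (3 * A + 2 * e) e := by
      obtain ⟨α, β, hαβ⟩ := hco3.mul_left hco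
      exact ⟨α, β - 2 * α, by linear_combination hαβ⟩
    exact ⟨3 * A + 2 * e, by omega, dvd_refl _, fun W hW => hco2.dvd_of_dvd_mul_right hW⟩

/-- the end for `d = 1` -/
theorem K2N.fin_1 (H : K2N S a' b c A a e f y φ l p N d A1 B k g e2 Y) (hd : d = 1) :
    ∃ (T : PSt) (δ : ℤ), SEq S T ∧ IsC T.L T.v δ ∧ δ ≤ 2 := by
  classical
  obtain ⟨k1, ⟨y2, hy2⟩, k3, k4, k5⟩ := H.par
  obtain ⟨n1, n2, n3, n4, n5, n6, n7⟩ := H.npar
  obtain ⟨o, ho, hs⟩ := exists_sign b a f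
  have ho2 : o * o = 1 := by rcases ho with rfl | rfl <;> norm_num
  obtain ⟨Q, hQ⟩ : ∃ Q : ℤ, Q = B * k * (A1 + g * e2) := ⟨_, rfl⟩
  obtain ⟨w, hw⟩ : ∃ w : ℤ, w = o * (y2 + φ) := ⟨_, rfl⟩
  obtain ⟨ρ1, hρ1⟩ := H.rho1 ho hQ w
  obtain ⟨ρ2, hρ2⟩ := H.rho2 ho hQ hy2 w
  have hc0 := H.h.c0
  have hA0 := H.h.A0
  have he0 := H.h.e0
  have hc := H.h.hc
  have hAA : A = A1 := by rw [H.D.hA, hd]; push_cast; ring
  have hee : e = g * e2 := by rw [H.D.he, hd]; push_cast; ring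
  have hcoAe : IsCoprime A e := by
    rw [hAA, hee]
    exact_mod_cast Nat.isCoprime_iff_coprime.2 H.D.co1
  obtain ⟨m, hm3, hm2, hmW⟩ := exists_mod hA0 he0 hcoAe
  -- primes of `m`
  have hmq : ∀ q : ℕ, q.Prime → (q : ℤ) ∣ m → q ≠ 2 ∧ ¬ (q : ℤ) ∣ A ∧
      ((q : ℤ) ∣ e → q = 3) := by
    intro q hq hqm
    have h1 := hqm.trans hm2
    have hq2 : q ≠ 2 := by
      rintro rfl
      apply H.hA2
      have h2 : (2 : ℤ) ∣ 3 * A + 2 * e := by exact_mod_cast h1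
      omega
    have hqA : ¬ (q : ℤ) ∣ A := by
      intro hqA
      have h2 : (q : ℤ) ∣ 2 * e := (dvd_add_right (hqA.mul_left 3)).1 h1
      rcases pdvd_mul hq h2 with h3 | h3
      · exact not_dvd_two hq hq2 h3
      · exact (Nat.prime_iff_prime_int.1 hq).not_isUnit (hcoAe.isUnit_of_dvd' hqA h3)
    refine ⟨hq2, hqA, fun hqe => ?_⟩
    have h2 : (q : ℤ) ∣ 3 * A := (dvd_add_left (hqe.mul_left 2)).1 h1
    have h3 := (pdvd_mul hq h2).resolve_right hqA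
    have h4 : q ∣ 3 := by exact_mod_cast h3
    exact (Nat.prime_dvd_prime_iff_eq hq Nat.prime_three).1 h4
  -- the prime three in `g`
  have hno : (3 : ℤ) ∣ e → ¬ (3 : ℤ) ∣ A → (3 : ℤ) ∣ y → ∀ x : ℤ,
      ¬ (3 : ℤ) ∣ 1 + 2 * (w + g * x) := by
    intro h3e h3A h3y x h9
    have h3φ := (H.h.three_y H.hN H.hv H.hb3 H.he3 H.hA2 h3e h3A h3y).1
    have h3y2 : (3 : ℤ) ∣ y2 := by
      rw [hy2] at h3y
      omega
    have h3g : (3 : ℤ) ∣ g := by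
      have h4 : 3 ∣ g * Y := by
        rw [H.D.hy] at h3y
        exact_mod_cast h3y
      have h5 := H.three.1 ⟨h3e, h3A⟩
      rcases (Nat.Prime.dvd_mul Nat.prime_three).1 h4 with h6 | h6
      · exact_mod_cast h6
      · rcases (Nat.Prime.dvd_mul Nat.prime_three).1 h5 with h7 | h7
        · exact_mod_cast h7
        · exfalso
          have h8 : 3 ∣ Nat.gcd Y e2 := Nat.dvd_gcd h6 h7
          rw [H.D.co4] at h8
          omega
    have h10 : (3 : ℤ) ∣ 2 * (w + g * x) := by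
      rw [hw]
      exact Dvd.dvd.mul_left (dvd_add (Dvd.dvd.mul_left (dvd_add h3y2 h3φ) _)
        (h3g.mul_right _)) _
    have h11 := (dvd_add_left h10).1 h9
    omega
  -- no common factor with `2 g` if there is a solution
  have hcom : ∀ x : ℤ, m ∣ 1 + 2 * (w + g * x) → IsCoprime m (2 * g) := by
    intro x hx
    refine isCoprime_of_prime fun q hq h1 h2 => ?_
    obtain ⟨m1, m2, m3⟩ := hmq q hq h2
    have h3 := (pdvd_mul hq h1).resolve_left (not_dvd_two hq m1)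
    have h4 := m3 (h3.trans H.g_e)
    subst h4
    exact hno (by exact_mod_cast h3.trans H.g_e) (by exact_mod_cast m2)
      (by exact_mod_cast h3.trans H.g_y) x (by exact_mod_cast h2.trans hx)
  have hCm : m ∣ 1 + y + 2 * Q := by
    have h1 : IsCoprime m A := isCoprime_of_prime fun q hq h1 h2 => (hmq q hq h2).2.1 h1
    refine h1.dvd_of_dvd_mul_left ?_
    rw [H.co hQ]
    exact hm2.mul_left _
  -- the point `x₀`
  obtain ⟨q, hq, hqm⟩ := Nat.exists_prime_and_dvd (show m.natAbs ≠ 1 by omega)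
  have hqm' : (q : ℤ) ∣ m := Int.natCast_dvd.2 hqm
  obtain ⟨q1, q2, q3⟩ := hmq q hq hqm'
  have hPC : ∀ r ∈ PC g e2 Y, r.Prime ∧ 3 ≤ r := by
    intro r hr
    rw [PC_sub hr]; exact ⟨Nat.prime_three, le_refl _⟩
  obtain ⟨x₀, hx1, hx2, hx3⟩ : ∃ x₀ : ℤ, (∀ r ∈ PB B g e2 Y, ¬ (r : ℤ) ∣ x₀ - ρ1 r) ∧
      (∀ r ∈ PC g e2 Y, ¬ (r : ℤ) ∣ x₀ - ρ2 r) ∧ ¬ (q : ℤ) ∣ 1 + 2 * (w + g * x₀) := by
    by_cases hq3 : q = 3
    · subst hq3
      obtain ⟨x₀, hx1, hx2⟩ := avoid0 (PB B g e2 Y) (PC g e2 Y) (fun r hr => H.PB_odd hr) hPC ρ1 ρ2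
      refine ⟨x₀, hx1, hx2, ?_⟩
      have h3A : ¬ (3 : ℤ) ∣ A := by exact_mod_cast q2
      have h3e : (3 : ℤ) ∣ e := by
        have h4 : (3 : ℤ) ∣ 3 * A + 2 * e := by exact_mod_cast hqm'.trans hm2
        omega
      by_cases h3y : (3 : ℤ) ∣ y
      · exact_mod_cast hno h3e h3A h3y x₀
      · exact_mod_cast (hρ1 x₀ hx1).2 h3e h3A h3y
    · have hqg : ¬ (q : ℤ) ∣ (g : ℤ) := fun h9 => hq3 (q3 (h9.trans H.g_e))
      obtain ⟨ρq, hρq⟩ := class_of_diff (m := (q : ℤ))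
        (P := fun x => (q : ℤ) ∣ 1 + 2 * (w + g * x)) (by
          intro x x' h1 h2
          refine x_of_W (o := 1) (Or.inl rfl) hq q1 hqg (x := x) (x' := x') (i := 0) (i' := 0)
            (w := w) (C := 0) (dvd_zero _) ?_
          rw [one_mul, one_mul, mul_zero, add_zero, add_zero]
          exact dvd_sub h1 h2)
      obtain ⟨x₀, hx1, hx2⟩ := avoid0 (PB B g e2 Y) (insert q (PC g e2 Y))
        (fun r hr => H.PB_odd hr) (fun r hr => by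
          rcases Finset.mem_insert.1 hr with h1 | h1
          · subst h1
            have := hq.two_le
            exact ⟨hq, by omega⟩
          · exact hPC r h1) ρ1 (fun r => if r = q then ρq else ρ2 r)
      refine ⟨x₀, hx1, fun r hr => ?_, fun h9 => ?_⟩
      · have h1 := hx2 r (Finset.mem_insert_of_mem hr)
        have h2 : r ≠ q := by
          rintro rfl
          exact hq3 (PC_sub hr)
        simp only [if_neg h2] at h1
        exact h1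
      · have h1 := hx2 q (Finset.mem_insert_self _ _)
        simp only [if_true] at h1
        exact h1 (hρq x₀ h9)
  -- the class modulo `m`
  obtain ⟨ρ, hρ, hρ'⟩ : ∃ ρ : ℤ, (∀ x : ℤ, m ∣ 1 + 2 * (w + g * x) → m ∣ x - ρ) ∧
      ¬ m ∣ x₀ - ρ := by
    by_cases hsol : ∃ x' : ℤ, m ∣ 1 + 2 * (w + g * x')
    · obtain ⟨x', hx'⟩ := hsol
      refine ⟨x', fun x hx => ?_, fun h9 => hx3 ?_⟩
      · have h1 : m ∣ (2 * g) * (x - x') := by
          have e1 : (2 * (g : ℤ)) * (x - x') = (1 + 2 * (w + g * x)) - (1 + 2 * (w + g * x')) := by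
            ring
          rw [e1]; exact dvd_sub hx hx'
        exact (hcom x' hx').dvd_of_dvd_mul_left h1
      · refine hqm'.trans ?_
        have e1 : 1 + 2 * (w + g * x₀) = (1 + 2 * (w + g * x')) + (x₀ - x') * (2 * g) := by ring
        rw [e1]; exact dvd_add hx' (h9.mul_right _)
    · refine ⟨x₀ + 1, fun x hx => absurd ⟨x, hx⟩ hsol, fun h9 => ?_⟩
      have e1 : x₀ - (x₀ + 1) = -1 := by ring
      rw [e1, dvd_neg] at h9
      have := Int.le_of_dvd (by norm_num) h9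
      omega
  -- the window
  have hB5 : 5 ≤ B := by
    have h1 := H.D.hB
    rw [hd] at h1 n4
    omega
  have hT : 2 ^ ((PB B g e2 Y).card + (PC g e2 Y).card + 1) * (2 * (A1 * g)) ≤
      (A1 + g * e2) * (g * Y - 2) ∨ ((PB B g e2 Y).card + (PC g e2 Y).card ≤ 1 ∧
        3 * (2 * (A1 * g)) ≤ (A1 + g * e2) * (g * Y - 2)) := by
    have h1 := card_k2 A1 B k g e2 Y
    rcases K1.t4 n2 H.D.g0 H.D.e0 H.D.Y0 n3 hB5 (by rw [n4, hd]) n5 H.D.hM H.D.h3 H.D.co1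
      with h2 | ⟨h2, -, -, h3⟩
    · left
      refine le_trans (Nat.mul_le_mul_right _ (Nat.pow_le_pow_right (by norm_num) ?_)) h2
      omega
    · exact Or.inr ⟨by omega, h3⟩
  have hzy : ((g * Y : ℕ) : ℤ) = 2 * y2 := by
    rw [← hy2, H.D.hy]; push_cast; ring
  obtain ⟨x, ⟨w1, w2⟩, hy1, hy2', hy3⟩ := win3 (fun r hr => H.PB_odd hr) hPC ρ1 ρ2 H.D.A0 H.D.g0
    hzy n7 hm3 hx1 hx2 hρ' hT w
  have hcc : c = ((A1 + g * e2 : ℕ) : ℤ) := by rw [hc, hAA, hee]; push_cast; ring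
  have w1' : c < A * (w + g * x) := by rw [hcc, hAA]; exact w1
  have w2' : A * (w + g * x) ≤ c * y2 := by rw [hcc, hAA]; exact w2
  have hy22 : 1 < y2 := by
    have h1 : c * 1 < c * y2 := by linarith
    exact lt_of_mul_lt_mul_left h1 hc0.le
  obtain ⟨r1, r2⟩ := hρ1 x hy1
  obtain ⟨r3, r4⟩ := hρ2 x
  obtain ⟨t, i, W, κ, j1, j2, j3, j4, j5, j6, j7⟩ := H.h.exit2 H.hN H.hv H.hb3 H.he3 H.hA2 k1
    H.hf2 H.hnf (o := o) (Q := Q) (y2 := y2) (ω := w + g * x) ho hs (H.Qeq hQ) hy2 (by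
      refine (H.gQ hQ).trans ⟨o * x, ?_⟩
      rw [hw]; linear_combination (y2 + φ) * ho2) w1' w2' r1
    (fun h3e h3A h3y => ⟨r2 h3e h3A h3y, fun h3f h9e h9f i h9 => by
      have h3 := H.three.1 ⟨h3e, h3A⟩
      have h3Y : ¬ 3 ∣ g * Y := by
        intro h10
        apply h3y
        rw [H.D.hy]
        exact_mod_cast h10
      have h9' : 9 ∣ g * e2 := by
        rw [hee] at h9e
        exact_mod_cast h9e
      exact hy2' 3 (three_PC h3 h3Y h9') (r3 h3e h3A h3y h3f h9f i h9)⟩)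
  -- `κ ≤ c`
  have hA2c : A + 2 * c = 3 * A + 2 * e := by rw [hc]; ring
  have hle : κ ≤ c := by
    obtain ⟨s, hs'⟩ := j6
    have hκ0 : 0 < κ := j5.1
    have hs0 : 0 < s := by
      have h1 : 0 < κ * s := by rw [← hs']; linarith
      exact (mul_pos_iff_of_pos_left hκ0).1 h1
    have hs2 : ¬ (2 : ℤ) ∣ s := by
      intro h1
      apply H.hA2
      have h2 : (2 : ℤ) ∣ A + 2 * c := by rw [hs']; exact h1.mul_left _
      omega
    have hs1 : s ≠ 1 := by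
      rintro rfl
      rw [mul_one] at hs'
      obtain ⟨h1, -⟩ := (H.h.xgap j5).1 (dvd_refl κ)
      rw [← hs', hA2c] at h1
      have h2 := hmW W h1
      rw [j1] at h2
      have h3 : m ∣ 1 + 2 * (w + g * x) :=
        unit_o ho ((dvd_add_left (hCm.mul_left i)).1 h2)
      exact hy3 (hρ x h3)
    have hs3 : 3 ≤ s := by omega
    have h1 : κ * 3 ≤ κ * s := mul_le_mul_of_nonneg_left hs3 hκ0.le
    have hAc : A ≤ c := by linarith
    linarith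
  have hcoAc : IsCoprime A c := by
    rw [hc]
    obtain ⟨α, β, hαβ⟩ := hcoAe
    exact ⟨α - β, β, by linear_combination hαβ⟩
  exact K1.fin1 H.hN H.h H.hv (n := 2) (by norm_num) (by rw [hy2]; linarith) j3 j4 j5 j6 j7
    hcoAc hle

/-- **LEVEL TWO** -/
theorem K1.level2 (h : K1 S a' b c A a e f y φ l p) (hF : S.Full) {N : ℕ} (hN : N.Prime)
    (hv : a + A + a' = N) (hb3 : 3 ≤ b) (hAb : A < b) (he3 : e < 3 * A)
    (hA2 : ¬ (2 : ℤ) ∣ A) (he4 : (4 : ℤ) ∣ e) (hf2 : (2 : ℤ) ∣ f) (hbA : (4 : ℤ) ∣ b - A) :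
    ∃ (T : PSt) (δ : ℤ), SEq S T ∧ IsC T.L T.v δ ∧ δ ≤ 2 := by
  obtain ⟨k1, k2, k3, k4, k5⟩ := h.P0 hN hv hb3 he3 hA2 ((by norm_num : (2 : ℤ) ∣ 4).trans he4)
  obtain ⟨d, A1, B, k, g, e2, Y, hD⟩ := h.data hF hN hv hb3 he3 hAb
  obtain ⟨j, φ2, h2, hnf⟩ := h.normj
  have hD2 : (2 : ℤ) ∣ a + b - A := by omega
  have H : K2N (vst S l p j) a' b c A a e (f + j * (a + b - A)) y φ2 l (p - j • S.v) N d A1 B k g
      e2 Y := ⟨h2, hN, hv, hb3, he3, hAb, hD, hA2, he4, dvd_add hf2 (hD2.mul_left _), hbA, hnf⟩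
  obtain ⟨T, δ, m1, m2, m3⟩ : ∃ (T : PSt) (δ : ℤ), SEq (vst S l p j) T ∧ IsC T.L T.v δ ∧ δ ≤ 2 := by
    by_cases hd : 2 ≤ d
    · exact H.fin_d hd
    · have := hD.d0
      exact H.fin_1 (by omega)
  exact ⟨T, δ, (h.vseq j).trans m1, m2, m3⟩

end Pool.Agent.H4G
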