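import Pool.Agent.H4G.Arith.K1Fin
import Pool.Agent.H4G.Arith.K1L2c

/-!
# The frame ExtB with `K = 1` and `e < 3 A` is finished (helper9)
-/

set_option autoImplicit false

namespace Pool.Agent.H4G

/-- **`K = 1`, `e < 3 A`** -/
theorem K1.fin {S : PSt} {a' b c A a e f y φ : ℤ} {l p : Z2} (h : K1 S a' b c A a e f y φ l p)
    (hF : S.Full) {N : ℕ} (hN : N.Prime) (hv : a + A + a' = N) (hb3 : 3 ≤ b) (he3 : e < 3 * A) :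
    ∃ (T : PSt) (δ : ℤ), SEq S T ∧ IsC T.L T.v δ ∧ δ ≤ 2 := by
  rcases h.Ab.eq_or_lt with hAb | hAb
  · exact h.fin_eq hN hv hAb.symm
  by_cases hI : ¬ (2 : ℤ) ∣ A ∧ (4 : ℤ) ∣ e ∧ (2 : ℤ) ∣ f ∧ (4 : ℤ) ∣ b - A
  · obtain ⟨h1, h2, h3, h4⟩ := hI
    exact h.level2 hF hN hv hb3 hAb he3 h1 h2 h3 h4
  · exact h.fin_level1 hF hN hv hb3 he3 hAb fun h1 h2 h3 _ h5 => hI ⟨h1, h2, h3, h5⟩

/-- **`K = 1`, `e < 3 A`**, in the words of the frame ExtB -/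
theorem ExtB.k1_end {N : ℕ} (hN : N.Prime) {S : PSt} {a' b c : ℤ} (h : ExtB S a' b c)
    (hF : S.Full) {l p l' p' : Z2} (ad : Ad S l p l' p')
    (hv : cr p l + cr S.u S.v + cr l' p' = N) (hb3 : 3 ≤ b)
    (he3 : cr S.u l < 3 * cr S.u S.v) (hc : c = cr S.u S.v + cr S.u l) :
    ∃ (T : PSt) (δ : ℤ), SEq S T ∧ IsC T.L T.v δ ∧ δ ≤ 2 := by
  obtain ⟨y, φ, h1⟩ := h.K1 ad hc
  have e3 : cr l' p' = a' := ad.isArea'.unique h.ha'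
  exact h1.fin hF hN (by rw [← e3]; exact hv) hb3 he3

end Pool.Agent.H4G
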