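import Pool.Agent.H4G.Arith.K1L1c

/-!
# Content of the right lattice after a level one exit, `K = 1` (helper29)
-/

set_option autoImplicit false

namespace Pool.Agent.H4G

variable {S : PSt} {a' b c A a e f y φ : ℤ} {l p : Z2} {N d A1 B k g e2 Y : ℕ}

theorem Dz.dvd_four {k : ℤ} {x : Z2} (hx : ¬ Dz 2 x) (h : Dz 4 (k • x)) : (4 : ℤ) ∣ k := by
  rw [Dz.iff] at hx h
  push Not at hx
  obtain ⟨z, hz⟩ := hx
  have h1 := h z
  rw [cr_smul_left] at h1
  have h2 : IsCoprime ((2 : ℕ) : ℤ) (cr x z) :=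
    (Nat.prime_iff_prime_int.1 Nat.prime_two).coprime_iff_not_dvd.2 (by exact_mod_cast hz)
  have h3 : IsCoprime (4 : ℤ) (cr x z) := by
    have h4 := h2.pow_left (m := 2)
    have e1 : ((2 : ℕ) : ℤ) ^ 2 = 4 := by norm_num
    rwa [e1] at h4
  exact h3.dvd_of_dvd_mul_right h1

/-- `c = d (A₁ + g e₂)`, `Q = B k (A₁ + g e₂)` -/
theorem kQ_dvd {q : ℤ} {A1 B k g e2 : ℕ} (h : q ∣ (A1 : ℤ) + g * e2) : q ∣ kQ A1 B k g e2 := by
  rw [kQ]; exact h.mul_left _

theorem K1N.u_not (H : K1N S a' b c A a e f y φ l p N d A1 B k g e2 Y) {q : ℕ} (hq : q.Prime)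
    (hw : Dz q (S.v + l)) : ¬ Dz q S.u := by
  intro hu
  have hcon := H.h.ext.con
  rw [H.h.L'_eq, con1_lat] at hcon
  exact hcon q hq ⟨hu.smul _, (hu.smul _).add hw⟩

/-- the primes of `d` divide `1 + y` -/
theorem KD.dvd_y (D : KD A b c a e y d A1 B k g e2 Y) {r : ℕ} (hr : r.Prime) (h : r ∣ d) :
    (r : ℤ) ∣ 1 + y := by
  have h1 : (A1 : ℤ) * (B * k) = 1 + g * Y := by exact_mod_cast D.hM
  have h2 : (r : ℤ) ∣ (k : ℤ) := by exact_mod_cast D.rad r hr h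
  rw [D.hy, ← h1]
  exact (h2.mul_left _).mul_left _

theorem KD.dvd_d (D : KD A b c a e y d A1 B k g e2 Y) {r : ℕ} (hr : r.Prime) (hA : (r : ℤ) ∣ A)
    (he : (r : ℤ) ∣ e) : r ∣ d := by
  by_contra h
  rw [D.hA] at hA
  rw [D.he] at he
  have h0 : ¬ (r : ℤ) ∣ (d : ℤ) := by exact_mod_cast h
  have h1 := (pdvd_mul hr hA).resolve_left h0
  have h2 := (pdvd_mul hr he).resolve_left h0
  have h1' : r ∣ A1 := by exact_mod_cast h1
  have h2' : r ∣ g * e2 := by exact_mod_cast h2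
  exact Nat.not_coprime_of_dvd_of_dvd hr.one_lt h1' h2' D.co1

/-- odd content after an exit of level one -/
theorem K1N.odd_content (H : K1N S a' b c A a e f y φ l p N d A1 B k g e2 Y) {o t i ω : ℤ}
    {r : ℕ} (hr : r.Prime) (hr2 : r ≠ 2) (h1 : Dz r ((y - 1) • S.u))
    (h2 : Dz r ((φ + t + i) • S.u + (S.v + l)))
    (hω : ω = o * (t * y + φ + i * (1 - kQ A1 B k g e2))) :
    (r : ℤ) ∣ y - 1 ∧ (r : ℤ) ∣ (A1 : ℤ) + g * e2 ∧ (r : ℤ) ∣ ω := by
  have hrc : (r : ℤ) ∣ c := by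
    have := h2.cr_right S.u
    rwa [cr_add_right, cr_smul_right, cr_self, H.h.uw, mul_zero, zero_add] at this
  have hne : (r : ℤ) ∣ 1 + y → ¬ (r : ℤ) ∣ y - 1 := by
    intro h3 h4
    have h5 : (r : ℤ) ∣ 2 := by
      have := dvd_sub h3 h4
      have e1 : (1 + y) - (y - 1) = 2 := by ring
      rwa [e1] at this
    have h6 : r ∣ 2 := by exact_mod_cast h5
    exact hr2 ((Nat.prime_dvd_prime_iff_eq hr Nat.prime_two).1 h6)
  by_cases hrA : (r : ℤ) ∣ A
  · exfalso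
    have hre : (r : ℤ) ∣ e := by
      have e1 : e = c - A := by rw [H.h.hc]; ring
      rw [e1]; exact dvd_sub hrc hrA
    have hrd := H.D.dvd_d hr hrA hre
    have h3 := hne (H.D.dvd_y hr hrd)
    have h4 : Dz r S.u := (h1.mul_prime hr).resolve_left h3
    have h5 : Dz r (S.v + l) := by
      have := h2.sub (h4.smul (φ + t + i))
      rwa [add_sub_cancel_left] at this
    exact H.u_not hr h5 h4
  · have hw := H.h.dz_w hr hrA hrc
    have hu := H.u_not hr hw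
    have h3 : (r : ℤ) ∣ y - 1 := (h1.mul_prime hr).resolve_right hu
    have h4 : (r : ℤ) ∣ φ + t + i := by
      have := h2.sub hw
      rw [add_sub_cancel_right] at this
      exact (this.mul_prime hr).resolve_right hu
    have h5 : ¬ (r : ℤ) ∣ (d : ℤ) := fun h5 => hne (H.D.dvd_y hr (by exact_mod_cast h5)) h3
    have h6 : (r : ℤ) ∣ (A1 : ℤ) + g * e2 := by
      rw [H.D.hc] at hrc
      exact (pdvd_mul hr hrc).resolve_left h5
    refine ⟨h3, h6, ?_⟩
    have e1 : ω = o * (φ + t + i) + o * t * (y - 1) - o * i * kQ A1 B k g e2 := by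
      rw [hω]; ring
    rw [e1]
    exact dvd_sub (dvd_add (h4.mul_left _) (h3.mul_left _)) ((kQ_dvd h6).mul_left _)

/-- content four after an exit of level one -/
theorem K1N.four_content (H : K1N S a' b c A a e f y φ l p N d A1 B k g e2 Y) {o t i ω : ℤ}
    (ho : o = 1 ∨ o = -1) (h1 : Dz 4 ((y - 1) • S.u))
    (h2 : Dz 4 ((φ + t + i) • S.u + (S.v + l)))
    (hω : ω = o * (t * y + φ + i * (1 - kQ A1 B k g e2))) :
    (4 : ℤ) ∣ y - 1 ∧ (2 : ℤ) ∣ (A1 : ℤ) + g * e2 ∧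
      ((¬ 2 ∣ d ∧ (4 : ℤ) ∣ ω) ∨ (2 ∣ d ∧ ∃ τ : ℤ, Dz 2 (τ • S.u + (S.v + l)) ∧ (2 : ℤ) ∣ ω - τ)) := by
  have hrc : (4 : ℤ) ∣ c := by
    have := h2.cr_right S.u
    rwa [cr_add_right, cr_smul_right, cr_self, H.h.uw, mul_zero, zero_add] at this
  have h22 : Dz 2 ((φ + t + i) • S.u + (S.v + l)) := h2.trans' (by norm_num)
  have hu : ¬ Dz 2 S.u := by
    intro hu
    have h5 : Dz (2 : ℕ) (S.v + l) := by
      have := h22.sub (hu.smul (φ + t + i))
      rw [add_sub_cancel_left] at this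
      exact_mod_cast this
    exact H.u_not Nat.prime_two h5 (by exact_mod_cast hu)
  have hy : (4 : ℤ) ∣ y - 1 := Dz.dvd_four hu h1
  have hodd : ∀ x : ℤ, (2 : ℤ) ∣ o * x - x := by
    intro x
    rcases ho with rfl | rfl
    · simp
    · exact ⟨-x, by ring⟩
  by_cases hA : (2 : ℤ) ∣ A
  · have he : (2 : ℤ) ∣ e := by
      have e1 : e = c - A := by rw [H.h.hc]; ring
      rw [e1]; exact dvd_sub ((by norm_num : (2 : ℤ) ∣ 4).trans hrc) hA
    have hd : 2 ∣ d := H.D.dvd_d Nat.prime_two (by exact_mod_cast hA) (by exact_mod_cast he)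
    have hk := H.D.rad 2 Nat.prime_two hd
    have hA1 : ¬ 2 ∣ A1 := by
      intro hA1
      have h3 : 4 ∣ A1 * (B * k) := by
        obtain ⟨x, rfl⟩ := hA1
        obtain ⟨z, rfl⟩ := hk
        exact ⟨x * (B * z), by ring⟩
      have h4 : (4 : ℤ) ∣ 1 + y := by
        rw [H.D.hM] at h3
        rw [H.D.hy]
        exact_mod_cast h3
      omega
    have hge : ¬ 2 ∣ g * e2 := fun h3 =>
      Nat.not_coprime_of_dvd_of_dvd (by norm_num) hd h3 H.D.co3
    have hc1 : (2 : ℤ) ∣ (A1 : ℤ) + g * e2 := by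
      have : 2 ∣ A1 + g * e2 := by omega
      exact_mod_cast this
    refine ⟨hy, hc1, Or.inr ⟨hd, φ + t + i, h22, ?_⟩⟩
    have e1 : ω - (φ + t + i) = (o * (φ + t + i) - (φ + t + i)) + o * t * (y - 1) -
        o * i * kQ A1 B k g e2 := by
      rw [hω]; ring
    rw [e1]
    exact dvd_sub (dvd_add (hodd _) (((by norm_num : (2 : ℤ) ∣ 4).trans hy).mul_left _))
      ((kQ_dvd hc1).mul_left _)
  · have hd : ¬ 2 ∣ d := by
      intro hd
      apply hA
      rw [H.D.hA]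
      exact Dvd.dvd.mul_right (by exact_mod_cast hd) _
    have hcop4 : ∀ {x : ℤ}, ¬ (2 : ℤ) ∣ x → IsCoprime (4 : ℤ) x := by
      intro x hx
      have h2 : IsCoprime ((2 : ℕ) : ℤ) x :=
        (Nat.prime_iff_prime_int.1 Nat.prime_two).coprime_iff_not_dvd.2 (by exact_mod_cast hx)
      have h4 := h2.pow_left (m := 2)
      have e1 : ((2 : ℕ) : ℤ) ^ 2 = 4 := by norm_num
      rwa [e1] at h4
    have hw : Dz 4 (S.v + l) := by
      refine Dz.of_coprime (hcop4 hA) ?_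
      rw [H.h.Aw]
      exact Dz.of_dvd hrc _
    have hτ : (4 : ℤ) ∣ φ + t + i := by
      have := h2.sub hw
      rw [add_sub_cancel_right] at this
      exact Dz.dvd_four hu this
    have hc1 : (4 : ℤ) ∣ (A1 : ℤ) + g * e2 := by
      rw [H.D.hc] at hrc
      exact (hcop4 (by exact_mod_cast hd)).dvd_of_dvd_mul_left hrc
    refine ⟨hy, (by norm_num : (2 : ℤ) ∣ 4).trans hc1, Or.inl ⟨hd, ?_⟩⟩
    have e1 : ω = o * (φ + t + i) + o * t * (y - 1) - o * i * kQ A1 B k g e2 := by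
      rw [hω]; ring
    rw [e1]
    exact dvd_sub (dvd_add (hτ.mul_left _) (hy.mul_left _)) ((kQ_dvd hc1).mul_left _)

end Pool.Agent.H4G
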