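import Pool.Agent.H4G.Arith.K1F
import Pool.Agent.H4G.Arith.F2

/-!
# Right exits of level `n` in the frame ExtB with `K = 1` (helper9)

`v₁ = v + n w + W u`, `W = o + i (1 + n) + (t + i) y + n φ`, `ω = o (t y + n (φ + i (1 - Q)))`,
`A Q = (1 + y) c`, `n c < A ω ≤ c y`.
-/

set_option autoImplicit false

namespace Pool.Agent.H4G

variable {S : PSt} {a' b c A a e f y φ : ℤ} {l p : Z2}

/-- the vector after the exit -/
def xv (S : PSt) (l : Z2) (n W : ℤ) : Z2 := S.v + n • (S.v + l) + W • S.u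

/-- the right lattice after the exit -/
def xL (S : PSt) (l : Z2) (y n τ : ℤ) : AddSubgroup Z2 :=
  lat ((y - n) • S.u) (τ • S.u + (S.v + l))

theorem K1.exit (h : K1 S a' b c A a e f y φ l p) {n o t i ω Q W : ℤ} (hn : 0 < n)
    (ho : o = 1 ∨ o = -1) (hco : IsCoprime t n) (hQ : A * Q = (1 + y) * c)
    (hω : ω = o * (t * y + n * (φ + i * (1 - Q)))) (h1 : n * c < A * ω) (h2 : A * ω ≤ c * y)
    (hW : W = o + i * (1 + n) + (t + i) * y + n * φ) :
    SEq S ⟨S.L, S.u, xv S l n W, xL S l y n (φ + t + i)⟩ ∧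
    IsC (xL S l y n (φ + t + i)) S.u c := by
  have e1 : cr S.u (φ • S.u + (S.v + l)) = c := by
    rw [cr_add_right, cr_smul_right, cr_self, h.uw]; ring
  have e2 : cr (y • S.u) S.v = y * A := by rw [cr_smul_left, h.hA]
  have e3 : cr (φ • S.u + (S.v + l)) S.v = φ * A := by
    rw [cr_add_left, cr_smul_left, h.hA, cr_add_left, cr_self, h.lv]; ring
  have e4 : cr (y • S.u) (φ • S.u + (S.v + l)) = y * c := by
    rw [cr_smul_left, e1]
  obtain ⟨T', k1, k2, k3, k4, k5, k6⟩ := h.ad.rexitSt h.ext.ok (by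
      rw [e1, h.hA]
      have := h.hc; have := h.e0; linarith) (n := n) (i := i) (o := o) (t := t) hn.le ho hco
    (by rw [e1, e2, e3, e4, h.hA]
        have : o * (t * (y * A) + n * (φ * A - i * (y * c + c - A))) = A * ω := by
          rw [hω]; linear_combination (o * n * i) * hQ
        rw [this]; exact h1)
    (by rw [e1, e2, e3, e4, h.hA]
        have : o * (t * (y * A) + n * (φ * A - i * (y * c + c - A))) = A * ω := by
          rw [hω]; linear_combination (o * n * i) * hQ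
        rw [this]; linarith)
  obtain ⟨L2, u2, v2, L2'⟩ := T'
  dsimp only at k2 k3 k4 k5 k6
  subst k2 k3
  have f1 : v2 = xv S l n W := by
    rw [k4, xv, hW]; module
  have f2 : L2' = xL S l y n (φ + t + i) := by
    rw [k5, xL]
    congr 1
    · module
    · module
  rw [e1] at k6
  subst f1 f2
  exact ⟨k1, k6⟩

theorem K1.xA (h : K1 S a' b c A a e f y φ l p) (n W : ℤ) :
    cr S.u (xv S l n W) = A + n * c := by
  rw [xv, cr_add_right, cr_add_right, cr_smul_right, cr_smul_right, cr_self, h.uw, h.hA]; ring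

theorem K1.xl (h : K1 S a' b c A a e f y φ l p) (n W : ℤ) :
    cr (xv S l n W) l = W * e := by
  rw [xv, cr_add_left, cr_add_left, cr_smul_left, cr_smul_left, h.he, cr_add_left, cr_self,
    cr_swap S.v l, h.lv]; ring

theorem K1.xp (h : K1 S a' b c A a e f y φ l p) (n W : ℤ) :
    cr (xv S l n W) p = -((n + 1) * b + n * a - W * f) := by
  rw [xv, cr_add_left, cr_add_left, cr_smul_left, cr_smul_left, h.hf, cr_swap S.v p, h.hb,
    cr_swap (S.v + l) p, h.pw]; ring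

/-- `v × v₁ = - W A` -/
theorem K1.xvv (h : K1 S a' b c A a e f y φ l p) (n W : ℤ) :
    cr S.v (xv S l n W) = -(W * A) := by
  rw [xv, cr_add_right, cr_add_right, cr_smul_right, cr_smul_right, cr_self, h.vw,
    cr_swap S.v S.u, h.hA]; ring

/-- the gap after the exit -/
theorem K1.xgap (h : K1 S a' b c A a e f y φ l p) {n W κ : ℤ}
    (hκ : IsC S.L (xv S l n W) κ) {q : ℤ} :
    q ∣ κ ↔ q ∣ W * e ∧ q ∣ (n + 1) * b + n * a - W * f := by
  constructor
  · intro hq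
    constructor
    · have := hκ.2.1 l (by rw [h.L_eq]; exact mem_lat.2 ⟨1, 0, by module⟩)
      rw [h.xl] at this
      exact hq.trans this
    · have := hκ.2.1 p (by rw [h.L_eq]; exact mem_lat.2 ⟨0, 1, by module⟩)
      rw [h.xp] at this
      exact hq.trans ((dvd_neg).1 this)
  · rintro ⟨h1, h2⟩
    obtain ⟨w, hw, hw2⟩ := hκ.2.2
    rw [← hw2]
    rw [h.L_eq] at hw
    obtain ⟨m, k, rfl⟩ := mem_lat.1 hw
    rw [cr_add_right, cr_smul_right, cr_smul_right, h.xl, h.xp]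
    exact dvd_add (h1.mul_left _) (((dvd_neg).2 h2).mul_left _)

theorem K1.exists_kap {n W : ℤ} {L' : AddSubgroup Z2}
    (hS : SEq S ⟨S.L, S.u, xv S l n W, L'⟩) : ∃ κ, IsC S.L (xv S l n W) κ := by
  obtain ⟨l2, p2, l2', p2', ad2⟩ := exists_Ad hS.ok'
  exact ⟨_, ad2.isC⟩

theorem K1.xarea (h : K1 S a' b c A a e f y φ l p) {n τ : ℤ} (hny : n < y) :
    IsArea (xL S l y n τ) (c * (y - n)) := by
  refine ⟨mul_pos h.c0 (by linarith), τ • S.u + (S.v + l), (y - n) • S.u, ?_, ?_⟩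
  · rw [cr_smul_left, cr_add_right, cr_smul_right, cr_self, h.uw]; ring
  · rw [xL, lat_comm]

/-- `κ` divides `A + n c` if this holds at the primes of `a` -/
theorem K1.kap_dvd (h : K1 S a' b c A a e f y φ l p) {n W κ : ℤ}
    (hκ : IsC S.L (xv S l n W) κ)
    (hloc : ∀ r : ℕ, r.Prime → (r : ℤ) ∣ a → ∀ k : ℕ, (r : ℤ) ^ k ∣ κ → (r : ℤ) ^ k ∣ A + n * c) :
    κ ∣ A + n * c := by
  refine dvd_of_prime_pow fun r k hr hk => ?_
  by_cases hra : (r : ℤ) ∣ a
  · exact hloc r hr hra k hk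
  · rw [← h.xA n W]
    exact (Dz.of_isC h.area hκ hr hra hk).cr_right S.u

/-- the vector `D` -/
theorem K1.exists_D (h : K1 S a' b c A a e f y φ l p) {n W κ : ℤ}
    (hκ : IsC S.L (xv S l n W) κ) (hd : κ ∣ A + n * c) :
    ∃ D : Z2, κ • D = (a + (A + n * c)) • xv S l n W := by
  have hDz : Dz κ ((a + (A + n * c)) • xv S l n W) := by
    rw [Dz.iff]
    intro z
    rw [cr_smul_left, add_mul]
    refine dvd_add ?_ (hd.mul_right _)
    have h3 := hκ.2.1 _ (h.area.smul_mem z)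
    rwa [cr_smul_right] at h3
  obtain ⟨D, hD⟩ := hDz
  exact ⟨D, hD.symm⟩

/-- first end: `κ ≤ c`, `gcd (A, c) = 1` -/
theorem K1.fin1 {N : ℕ} (hN : N.Prime) (h : K1 S a' b c A a e f y φ l p)
    (hv : a + A + a' = N) {n W τ κ : ℤ} (hn : 0 < n) (hny : n < y)
    (hS : SEq S ⟨S.L, S.u, xv S l n W, xL S l y n τ⟩) (hc : IsC (xL S l y n τ) S.u c)
    (hκ : IsC S.L (xv S l n W) κ) (hd : κ ∣ A + n * c)
    (hD : ∀ r : ℕ, r.Prime → (r : ℤ) ∣ κ → (r : ℤ) ∣ a → ∀ D : Z2,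
      κ • D = (a + (A + n * c)) • xv S l n W → ¬ Dz r D)
    (hco : IsCoprime A c) (hle : κ ≤ c) :
    ∃ (T : PSt) (d : ℤ), SEq S T ∧ IsC T.L T.v d ∧ d ≤ 2 := by
  obtain ⟨D, hDD⟩ := h.exists_D hκ hd
  have hA1 := h.xA n W
  have hc0 := h.c0
  have hvol : a + cr S.u (xv S l n W) + c * (y - n) = N := by
    rw [hA1, ← hv, h.hy]; ring
  have hcop : IsCoprime c (cr S.u D) := by
    have e1 : κ * cr S.u D = (a + (A + n * c)) * (A + n * c) := by
      rw [← cr_smul_right, hDD, cr_smul_right, hA1]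
    have g1 : IsCoprime c (a + (A + n * c)) := by
      refine isCoprime_of_prime fun r hr h1 h2 => ?_
      have h3 : (r : ℤ) ∣ (N : ℤ) := by
        rw [← hvol, hA1]
        exact dvd_add h1 (h2.mul_right _)
      have h4 : r ∣ N := by exact_mod_cast h3
      have h5 := (Nat.prime_dvd_prime_iff_eq hr hN).1 h4
      have h6 := Int.le_of_dvd hc0 h2
      have h7 := (h.lt_N hv).2.2
      rw [h.hy] at h7
      have h8 : c ≤ c * y := le_mul_of_one_le_right hc0.le h.y0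
      rw [h5] at h6
      linarith
    have g2 : IsCoprime c (A + n * c) := by
      have := hco.symm.add_mul_left_right n
      rwa [mul_comm c n] at this
    have g3 : IsCoprime c (κ * cr S.u D) := by rw [e1]; exact g1.mul_right g2
    exact g3.of_mul_right_right
  obtain ⟨T, d, k1, k2, k3⟩ := SEq.wcx hN hS.ok' h.area (h.xarea hny) hvol hκ
    (by rw [hA1]; exact hd) (by rw [hA1]; exact hDD) (fun r hr h1 h2 => hD r hr h1 h2 D hDD)
    (fun w hw => hc.2.1 w hw) hcop hle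
  refine ⟨T, d, hS.trans k1, k2, ?_⟩
  rcases k3 with k3 | k3
  · omega
  · omega

/-- second end: content at most two -/
theorem K1.fin2 {N : ℕ} (hN : N.Prime) (h : K1 S a' b c A a e f y φ l p)
    (hv : a + A + a' = N) {n W τ κ : ℤ} (hny : n < y)
    (hS : SEq S ⟨S.L, S.u, xv S l n W, xL S l y n τ⟩)
    (hκ : IsC S.L (xv S l n W) κ) (hd : κ ∣ A + n * c)
    (hD : ∀ r : ℕ, r.Prime → (r : ℤ) ∣ κ → (r : ℤ) ∣ a → ∀ D : Z2,
      κ • D = (a + (A + n * c)) • xv S l n W → ¬ Dz r D)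
    (hodd : ∀ r : ℕ, r.Prime → r ≠ 2 → ¬ (Dz r ((y - n) • S.u) ∧ Dz r (τ • S.u + (S.v + l))))
    (h4 : ¬ (Dz 4 ((y - n) • S.u) ∧ Dz 4 (τ • S.u + (S.v + l)))) :
    ∃ (T : PSt) (d : ℤ), SEq S T ∧ IsC T.L T.v d ∧ d ≤ 2 := by
  obtain ⟨D, hDD⟩ := h.exists_D hκ hd
  have hA1 := h.xA n W
  have hvol : a + cr S.u (xv S l n W) + c * (y - n) = N := by
    rw [hA1, ← hv, h.hy]; ring
  refine SEq.wc_end2 hN hS h.area (h.xarea hny) hvol hκ (by rw [hA1]; exact hd)
    (by rw [hA1]; exact hDD) (fun r hr h1 h2 => hD r hr h1 h2 D hDD) (P := fun d => d ≤ 2)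
    (fun d hd0 hdz => ?_)
  obtain ⟨m, rfl⟩ := Int.eq_ofNat_of_zero_le hd0.le
  by_contra hgt
  have h5 : ∀ r : ℕ, r.Prime → r ∣ m → r = 2 := by
    intro r hr hrm
    by_contra h2
    refine hodd r hr h2 (dz_lat.1 fun w hw => ?_)
    exact (hdz w hw).trans' (by exact_mod_cast hrm)
  have h6 : ¬ 4 ∣ m := fun h7 => h4 (dz_lat.1 fun w hw => (hdz w hw).trans' (by exact_mod_cast h7))
  have hm3 : 3 ≤ m := by omega
  obtain ⟨q, hq, hqm⟩ := Nat.exists_prime_and_dvd (show m ≠ 1 by omega)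
  have := h5 q hq hqm
  subst this
  obtain ⟨k, rfl⟩ := hqm
  have hk1 : k ≠ 1 := by rintro rfl; omega
  obtain ⟨q, hq, hqk⟩ := Nat.exists_prime_and_dvd hk1
  have := h5 q hq (hqk.mul_left _)
  subst this
  exact h6 (by obtain ⟨j, rfl⟩ := hqk; exact ⟨j, by ring⟩)

end Pool.Agent.H4G
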