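import Pool.Agent.H4G.Arith.CA
import Pool.Agent.H4G.Arith.HL

/-!
# The frame ExtB with `K = 1` (helper9)

`c = A + e`, `e = u × l`.  Then `l' = y u`, `p' = φ u + w`, `w = v + l`, `y` and `φ` integers.
-/

set_option autoImplicit false

namespace Pool.Agent.H4G

/-- the frame ExtB with `c = A + e` -/
structure K1 (S : PSt) (a' b c A a e f y φ : ℤ) (l p : Z2) : Prop where
  ext : ExtB S a' b c
  ad : Ad S l p (y • S.u) (φ • S.u + (S.v + l))
  hA : cr S.u S.v = A
  he : cr S.u l = e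
  hf : cr S.u p = f
  ha : cr p l = a
  hb : cr p S.v = b
  hc : c = A + e
  hy : a' = c * y

theorem ExtB.K1 {S : PSt} {a' b c : ℤ} (h : ExtB S a' b c) {l p l' p' : Z2}
    (ad : Ad S l p l' p') (hc : c = cr S.u S.v + cr S.u l) :
    ∃ y φ : ℤ, K1 S a' b c (cr S.u S.v) (cr p l) (cr S.u l) (cr S.u p) y φ l p := by
  obtain ⟨h1, h2⟩ := h.vrig ad
  have hc0 := h.hc.1
  have e1 : cr p S.v = b := ad.isC.unique h.hb
  have e2 : cr S.u p' = c := ad.isC'.unique h.hc
  have e3 : cr l' p' = a' := ad.isArea'.unique h.ha'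
  have hw : cr S.u (S.v + l) = c := by rw [cr_add_right, hc]
  obtain ⟨m, hm⟩ := h1
  obtain ⟨n, hn⟩ := h2
  have key : ∀ x : Z2, c • x = cr x (S.v + l) • S.u + cr S.u x • (S.v + l) := by
    intro x
    have := cr_expand S.u (S.v + l) x
    rw [hw] at this
    rw [this, cr_swap x S.u]; module
  have f1 : l' = (-m) • S.u := by
    refine smul_inj hc0.ne' ?_
    rw [key l', ad.h4, cr_swap l' (S.v + l), hm]; module
  have f2 : p' = (-n) • S.u + (S.v + l) := by
    refine smul_inj hc0.ne' ?_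
    rw [key p', e2, cr_swap p' (S.v + l), hn]; module
  refine ⟨-m, -n, ⟨h, ?_, rfl, rfl, rfl, rfl, e1, hc, ?_⟩⟩
  · rw [← f1, ← f2]; exact ad
  · rw [← e3, f1, f2, cr_smul_left, cr_add_right, cr_smul_right, cr_self, hw]; ring

variable {S : PSt} {a' b c A a e f y φ : ℤ} {l p : Z2}

theorem K1.uw (h : K1 S a' b c A a e f y φ l p) : cr S.u (S.v + l) = c := by
  rw [cr_add_right, h.hA, h.he, h.hc]

theorem K1.lv (h : K1 S a' b c A a e f y φ l p) : cr l S.v = 0 := h.ad.h1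

theorem K1.A0 (h : K1 S a' b c A a e f y φ l p) : 0 < A := by rw [← h.hA]; exact h.ad.hA

theorem K1.e0 (h : K1 S a' b c A a e f y φ l p) : 0 < e := by rw [← h.he]; exact h.ad.h2

theorem K1.b0 (h : K1 S a' b c A a e f y φ l p) : 0 < b := h.ext.bpos

theorem K1.c0 (h : K1 S a' b c A a e f y φ l p) : 0 < c := h.ext.hc.1

theorem K1.y0 (h : K1 S a' b c A a e f y φ l p) : 0 < y := by
  have h1 := h.ext.ha'.1
  rw [h.hy] at h1
  exact (mul_pos_iff_of_pos_left h.c0).1 h1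

theorem K1.Ab (h : K1 S a' b c A a e f y φ l p) : A ≤ b := by rw [← h.hA]; exact h.ext.hA

theorem K1.aA (h : K1 S a' b c A a e f y φ l p) : a * A = e * b := by
  have := h.ad.area
  rw [h.ha, h.hA, h.he, h.hb] at this
  exact this

theorem K1.a0 (h : K1 S a' b c A a e f y φ l p) : 0 < a := by
  have h1 : 0 < a * A := by rw [h.aA]; exact mul_pos h.e0 h.b0
  exact (mul_pos_iff_of_pos_right h.A0).1 h1

theorem K1.area (h : K1 S a' b c A a e f y φ l p) : IsArea S.L a := by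
  have := h.ad.isArea
  rwa [h.ha] at this

/-- `A w = c v` -/
theorem K1.Aw (h : K1 S a' b c A a e f y φ l p) : A • (S.v + l) = c • S.v := by
  have hA0 := h.A0
  have e1 := cr_expand S.u S.v (S.v + l)
  rw [h.hA, cr_add_left, cr_self, h.lv, cr_swap (S.v + l) S.u, h.uw] at e1
  rw [e1]; module

/-- `A l = e v` -/
theorem K1.Al (h : K1 S a' b c A a e f y φ l p) : A • l = e • S.v := by
  have e1 := h.Aw
  rw [h.hc] at e1
  have : A • l = A • (S.v + l) - A • S.v := by module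
  rw [this, e1]; module

theorem K1.pw (h : K1 S a' b c A a e f y φ l p) : cr p (S.v + l) = a + b := by
  rw [cr_add_right, h.hb, h.ha]; ring

theorem K1.vw (h : K1 S a' b c A a e f y φ l p) : cr S.v (S.v + l) = 0 := by
  rw [cr_add_right, cr_self, cr_swap S.v l, h.lv]; ring

theorem K1.L_eq (h : K1 S a' b c A a e f y φ l p) : S.L = lat l p := h.ad.hL

theorem K1.L'_eq (h : K1 S a' b c A a e f y φ l p) :
    S.L' = lat (y • S.u) (φ • S.u + (S.v + l)) := h.ad.hL'

/-- the volume -/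
theorem K1.lt_N (h : K1 S a' b c A a e f y φ l p) {N : ℕ} (hv : a + A + a' = N) :
    a < N ∧ A < N ∧ a' < N := by
  have h1 := h.a0
  have h2 := h.A0
  have h3 := h.ext.ha'.1
  refine ⟨by linarith, by linarith, by linarith⟩

/-- a prime which divides `A` and `c` does not divide `a` -/
theorem K1.not_a (h : K1 S a' b c A a e f y φ l p) {N : ℕ} (hN : N.Prime) (hv : a + A + a' = N)
    {r : ℕ} (hr : r.Prime) (h1 : (r : ℤ) ∣ A) (h2 : (r : ℤ) ∣ c) : ¬ (r : ℤ) ∣ a := by
  intro h3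
  have h4 : (r : ℤ) ∣ a' := by rw [h.hy]; exact h2.mul_right _
  have h5 : (r : ℤ) ∣ (N : ℤ) := by rw [← hv]; exact dvd_add (dvd_add h3 h1) h4
  have h6 : r ∣ N := by exact_mod_cast h5
  have h7 := (Nat.prime_dvd_prime_iff_eq hr hN).1 h6
  have h8 := Int.le_of_dvd h.a0 h3
  have h9 := (h.lt_N hv).1
  rw [h7] at h8
  omega

/-! ## V-twists -/

/-- the V-twisted state -/
def vst (S : PSt) (l p : Z2) (j : ℤ) : PSt :=
  ⟨lat l (p - j • S.v), S.u - j • (S.v + l), S.v, S.L'⟩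

theorem K1.vseq (h : K1 S a' b c A a e f y φ l p) (j : ℤ) : SEq S (vst S l p j) :=
  h.ad.twV h.ext.ok (by rw [h.hA, h.hb]; exact h.Ab) j

theorem K1.vst_A (h : K1 S a' b c A a e f y φ l p) (j : ℤ) :
    cr (vst S l p j).u (vst S l p j).v = A := by
  show cr (S.u - j • (S.v + l)) S.v = A
  rw [cr_sub_left, cr_smul_left, cr_add_left, cr_self, h.lv, h.hA]; ring

theorem K1.vst_b (h : K1 S a' b c A a e f y φ l p) (j : ℤ) :
    IsC (vst S l p j).L (vst S l p j).v b := by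
  show IsC (lat l (p - j • S.v)) S.v b
  have : cr (p - j • S.v) S.v = b := by rw [cr_sub_left, cr_smul_left, cr_self, h.hb]; ring
  rw [← this]
  exact isC_of_par h.lv (by rw [this]; exact h.b0)

/-- the gcd of the V-twisted state on the right -/
theorem K1.vst_c (h : K1 S a' b c A a e f y φ l p) (j : ℤ) :
    IsC (vst S l p j).L' (vst S l p j).u (c * (Int.gcd y (1 + j * φ) : ℤ)) := by
  have hc0 := h.c0
  have e0 : cr (S.v + l) S.u = -c := by rw [cr_swap, h.uw]
  have e4 : cr (S.u - j • (S.v + l)) (y • S.u) = c * (j * y) := by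
    rw [cr_sub_left, cr_smul_left, cr_smul_right, cr_self, cr_smul_right, e0]; ring
  have e5 : cr (S.u - j • (S.v + l)) (φ • S.u + (S.v + l)) = c * (1 + j * φ) := by
    rw [cr_sub_left, cr_smul_left, cr_add_right, cr_smul_right, cr_self, h.uw, cr_add_right,
      cr_smul_right, cr_self, e0]; ring
  have hne : j * y ≠ 0 ∨ 1 + j * φ ≠ 0 := by
    rcases eq_or_ne j 0 with hj | hj
    · right; rw [hj]; simp
    · left; exact mul_ne_zero hj h.y0.ne'
  have h1 : IsC (lat (y • S.u) (φ • S.u + (S.v + l))) (S.u - j • (S.v + l))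
      (Int.gcd (cr (S.u - j • (S.v + l)) (y • S.u))
        (cr (S.u - j • (S.v + l)) (φ • S.u + (S.v + l))) : ℕ) := by
    refine isC_lat ?_
    rw [e4, e5]
    rcases hne with h1 | h1
    · exact Or.inl (mul_ne_zero hc0.ne' h1)
    · exact Or.inr (mul_ne_zero hc0.ne' h1)
  have h2 : (Int.gcd (j * y) (1 + j * φ) : ℤ) = Int.gcd y (1 + j * φ) := by
    have h3 : IsCoprime j (1 + j * φ) := ⟨-φ, 1, by ring⟩
    rw [Int.isCoprime_iff_gcd_eq_one] at h3
    have : Int.gcd (j * y) (1 + j * φ) = Int.gcd y (1 + j * φ) := by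
      rw [mul_comm]
      exact Int.gcd_mul_left_left_of_gcd_eq_one h3
    rw [this]
  show IsC S.L' (S.u - j • (S.v + l)) _
  rw [h.L'_eq]
  rw [e4, e5, Int.gcd_mul_left] at h1
  push_cast at h1
  rw [abs_of_pos hc0, h2] at h1
  exact h1

/-- the V-twisted state is again a frame if `y` is prime to `1 + j φ` -/
theorem K1.vtw (h : K1 S a' b c A a e f y φ l p) {j : ℤ} (hj : IsCoprime y (1 + j * φ)) :
    ∃ φ2 : ℤ, K1 (vst S l p j) a' b c A a e (f + j * (a + b - A)) y φ2 l (p - j • S.v) := by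
  have h1 := h.vseq j
  have hc : IsC (vst S l p j).L' (vst S l p j).u c := by
    have := h.vst_c j
    rw [Int.isCoprime_iff_gcd_eq_one] at hj
    rw [hj] at this
    simpa using this
  have h2 : ExtB (vst S l p j) a' b c := h.ext.of_eq h1 h.ext.ha' h.ext.con (h.vst_b j)
    (by rw [h.vst_A]; exact h.Ab) hc
  obtain ⟨l2, p2, l2', p2', ad2⟩ := exists_Ad h1.ok'
  have f0 : cr (vst S l p j).u l = e := by
    show cr (S.u - j • (S.v + l)) l = e
    rw [cr_sub_left, cr_smul_left, cr_add_left, cr_self, cr_swap S.v l, h.lv, h.he]; ring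
  have ad3 : Ad (vst S l p j) l (p - j • S.v) l2' p2' := by
    refine ⟨rfl, ad2.hL', h.lv, ?_, ?_, ad2.h4, ad2.h5, ad2.h6, ad2.hA⟩
    · rw [f0]; exact h.e0
    · show 0 < cr (p - j • S.v) S.v
      rw [cr_sub_left, cr_smul_left, cr_self, h.hb]
      have := h.b0; linarith
  obtain ⟨y2, φ2, h3⟩ := h2.K1 ad3 (by rw [h.vst_A, f0]; exact h.hc)
  have g1 : cr (p - j • S.v) l = a := by
    rw [cr_sub_left, cr_smul_left, h.ha, cr_swap S.v l, h.lv]; ring
  have g2 : cr (vst S l p j).u (p - j • S.v) = f + j * (a + b - A) := by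
    show cr (S.u - j • (S.v + l)) (p - j • S.v) = _
    simp only [cr_sub_left, cr_sub_right, cr_smul_left, cr_smul_right, cr_add_left, cr_self]
    rw [h.lv, h.hf, h.hA, cr_swap S.v p, cr_swap l p, h.hb, h.ha]; ring
  rw [h.vst_A, f0, g1, g2] at h3
  have hy2 : y2 = y := by
    have k1 := h3.hy
    rw [h.hy] at k1
    exact (mul_left_cancel₀ h.c0.ne' k1).symm
  rw [hy2] at h3
  exact ⟨φ2, h3⟩

/-! ## H-twists -/

/-- the gap after an H-twist -/
theorem K1.hgap (h : K1 S a' b c A a e f y φ l p) (i : ℤ) :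
    cr (S.v + i • (S.u + y • S.u)) l = i * ((1 + y) * e) ∧
    cr (S.v + i • (S.u + y • S.u)) p = -(b - i * ((1 + y) * f)) := by
  constructor
  · simp only [cr_add_left, cr_smul_left]
    rw [cr_swap S.v l, h.lv, h.he]; ring
  · simp only [cr_add_left, cr_smul_left]
    rw [cr_swap S.v p, h.hb, h.hf]; ring

theorem K1.alw_odd (h : K1 S a' b c A a e f y φ l p) {q : ℕ} (hq : q.Prime)
    (h2 : q ≠ 2 ∨ ¬ (q : ℤ) ∣ c) :
    ∃ i : ℤ, ¬ (q : ℤ) ∣ i ∧ Alw (y • S.u) (φ • S.u + (S.v + l)) S.u q i := by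
  have hcl : Con1 (lat (y • S.u) (φ • S.u + (S.v + l))) := by rw [← h.L'_eq]; exact h.ext.con
  rcases h2 with h2 | h2
  · exact Alw.exists_odd hcl hq h2
  · refine ⟨1, prime_not_dvd_one hq, Alw.of_not_dvd ?_ 1⟩
    rw [cr_add_right, cr_smul_right, cr_self, h.uw]
    simpa using h2

/-- H-rigidity at the prime `q` -/
theorem K1.hrig (h : K1 S a' b c A a e f y φ l p) {q : ℕ} (hq : q.Prime)
    (h2 : ∃ i : ℤ, ¬ (q : ℤ) ∣ i ∧ Alw (y • S.u) (φ • S.u + (S.v + l)) S.u q i) {k : ℕ}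
    (hk : (q : ℤ) ^ k ∣ b) : (q : ℤ) ^ k ∣ (1 + y) * e ∧ (q : ℤ) ^ k ∣ (1 + y) * f := by
  obtain ⟨h3, h4⟩ := h.ext.hrigAt h.ext.ok.seq h.ext.ha' h.ext.con h.ext.hb h.ad hq h2 hk
  rw [cr_add_left, cr_smul_left, h.he] at h3
  rw [cr_add_left, cr_smul_left, h.hf] at h4
  constructor
  · have e1 : (1 + y) * e = e + y * e := by ring
    rw [e1]; exact h3
  · have e1 : (1 + y) * f = f + y * f := by ring
    rw [e1]; exact h4

/-- H-rigidity in the V-twisted states, for all classes `j` -/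
theorem K1.hrigV (h : K1 S a' b c A a e f y φ l p) {j g : ℤ} (hg : g = Int.gcd y (1 + j * φ))
    {q : ℕ} (hq : q.Prime) (h2 : q ≠ 2 ∨ ¬ (q : ℤ) ∣ c * g) {k : ℕ} (hk : (q : ℤ) ^ k ∣ b) :
    (q : ℤ) ^ k * g ∣ (g + y) * e ∧ (q : ℤ) ^ k * g ∣ (g + y) * (f + j * (a + b - A)) := by
  have hc0 := h.c0
  have h3 := h.vst_c j
  rw [← hg] at h3
  have key : ∀ w ∈ (vst S l p j).L, (q : ℤ) ^ k * g ∣ (g + y) * cr (vst S l p j).u w := by
    intro w hw
    have h4 := h.ext.hrigAt_mul (h.vseq j) h.ext.ha' h.ext.con (h.vst_b j) h3 hq h2 hk hw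
    have e1 : (q : ℤ) ^ k * (c * g) = c * ((q : ℤ) ^ k * g) := by ring
    have e2 : (c * g + a') * cr (vst S l p j).u w = c * ((g + y) * cr (vst S l p j).u w) := by
      rw [h.hy]; ring
    rw [e1, e2] at h4
    exact (mul_dvd_mul_iff_left hc0.ne').1 h4
  constructor
  · have := key l (mem_lat.2 ⟨1, 0, by module⟩)
    have f0 : cr (vst S l p j).u l = e := by
      show cr (S.u - j • (S.v + l)) l = e
      rw [cr_sub_left, cr_smul_left, cr_add_left, cr_self, cr_swap S.v l, h.lv, h.he]; ring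
    rwa [f0] at this
  · have := key (p - j • S.v) (mem_lat.2 ⟨0, 1, by module⟩)
    have g2 : cr (vst S l p j).u (p - j • S.v) = f + j * (a + b - A) := by
      show cr (S.u - j • (S.v + l)) (p - j • S.v) = _
      simp only [cr_sub_left, cr_sub_right, cr_smul_left, cr_smul_right, cr_add_left, cr_self]
      rw [h.lv, h.hf, h.hA, cr_swap S.v p, cr_swap l p, h.hb, h.ha]; ring
    rwa [g2] at this

end Pool.Agent.H4G
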