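import Pool.Agent.H4G.Arith.K1HM

/-!
# F-D for `K = 1`: `r ∣ A, e` implies `r b_r ∣ 1 + y` (helper9; Lean: helper64)
-/

set_option autoImplicit false

namespace Pool.Agent.H4G

variable {S : PSt} {a' b c A a e f y φ : ℤ} {l p : Z2}

/-- the products with all vectors, from the products with the generators -/
theorem K1.dz_of (h : K1 S a' b c A a e f y φ l p) (hF : S.Full) {r : ℕ} {x : Z2}
    (h1 : (r : ℤ) ∣ cr x l) (h2 : (r : ℤ) ∣ cr x p) (h3 : (r : ℤ) ∣ cr x S.u)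
    (h4 : (r : ℤ) ∣ cr x S.v) : Dz r x := by
  refine Dz.iff.2 fun z => ?_
  have hz : z ∈ S.L ⊔ S.L' ⊔ lat S.u S.v := by
    rw [show S.L ⊔ S.L' ⊔ lat S.u S.v = ⊤ from hF]; trivial
  obtain ⟨x1, hx1, y1, hy1, rfl⟩ := AddSubgroup.mem_sup.1 hz
  obtain ⟨x2, hx2, x3, hx3, rfl⟩ := AddSubgroup.mem_sup.1 hx1
  rw [h.L_eq] at hx2
  rw [h.L'_eq] at hx3
  obtain ⟨m, n, rfl⟩ := mem_lat.1 hx2
  obtain ⟨m', n', rfl⟩ := mem_lat.1 hx3
  obtain ⟨m2, n2, rfl⟩ := mem_lat.1 hy1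
  simp only [cr_add_right, cr_smul_right]
  refine dvd_add (dvd_add (dvd_add (h1.mul_left _) (h2.mul_left _))
    (dvd_add ((h3.mul_left _).mul_left _) ?_)) (dvd_add (h3.mul_left _) (h4.mul_left _))
  exact (dvd_add (h3.mul_left _) (dvd_add h4 h1)).mul_left _

/-- `r ∣ A, e, f` implies `r ∣ u` -/
theorem K1.dz_u (h : K1 S a' b c A a e f y φ l p) (hF : S.Full) {r : ℕ}
    (hA : (r : ℤ) ∣ A) (he : (r : ℤ) ∣ e) (hf : (r : ℤ) ∣ f) : Dz r S.u := by
  refine h.dz_of hF ?_ ?_ ?_ ?_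
  · rw [h.he]; exact he
  · rw [h.hf]; exact hf
  · rw [cr_self]; exact dvd_zero _
  · rw [h.hA]; exact hA

/-- `r ∣ u` implies `r ∤ a + b` -/
theorem K1.not_ab (h : K1 S a' b c A a e f y φ l p) (hF : S.Full) {r : ℕ} (hr : r.Prime)
    (hu : Dz r S.u) : ¬ (r : ℤ) ∣ a + b := by
  intro hab
  have h1 : Dz r (S.v + l) := by
    refine h.dz_of hF ?_ ?_ (hu.cr_right _) ?_
    · rw [cr_add_left, cr_self, cr_swap S.v l, h.lv]; simp
    · rw [cr_swap _ p, h.pw]; exact (dvd_neg).2 hab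
    · rw [cr_add_left, cr_self, h.lv]; simp
  have h2 := con1_iff.1 h.ext.con r hr
  apply h2
  rw [h.L'_eq, dz_lat]
  exact ⟨hu.smul y, (hu.smul φ).add h1⟩

/-- all classes are allowed at `r` if `r ∤ y`, `r ∤ f` -/
theorem K1.alw_all (h : K1 S a' b c A a e f y φ l p) {r : ℕ} (hr : r.Prime)
    (hf : ¬ (r : ℤ) ∣ f) (hy : ¬ (r : ℤ) ∣ y) (i : ℤ) :
    Alw (y • S.u) (φ • S.u + (S.v + l)) S.u r i := by
  rintro ⟨h1, -⟩
  rcases h1.mul_prime hr with h2 | h2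
  · exact hy h2
  · apply hf
    rw [← h.hf]
    exact h2.cr_left p

/-- F-D when the class `b / f` is allowed -/
theorem K1.fd_aux (h : K1 S a' b c A a e f y φ l p) {r : ℕ} (hr : r.Prime)
    (hA : (r : ℤ) ∣ A) (hc : (r : ℤ) ∣ c) (hf : ¬ (r : ℤ) ∣ f)
    (hu : ∃ i : ℤ, ¬ (r : ℤ) ∣ i ∧ Alw (y • S.u) (φ • S.u + (S.v + l)) S.u r i)
    (hal : ∀ i y2 b2 : ℤ, (∃ β : ℕ, 1 + y = (r : ℤ) ^ β * y2 ∧ b = (r : ℤ) ^ β * b2) →
      ¬ (r : ℤ) ∣ y2 → ¬ (r : ℤ) ∣ b2 →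
      (r : ℤ) ∣ y2 * f * i - b2 → Alw (y • S.u) (φ • S.u + (S.v + l)) S.u r i) {k : ℕ}
    (hk : (r : ℤ) ^ k ∣ b) : (r : ℤ) ^ (k + 1) ∣ 1 + y := by
  have hri := Nat.prime_iff_prime_int.1 hr
  have hr0 : (r : ℤ) ≠ 0 := by exact_mod_cast hr.ne_zero
  have he : (r : ℤ) ∣ e := by
    rw [h.hc] at hc
    exact (dvd_add_right hA).1 hc
  obtain ⟨β, b2, x1, x2⟩ := exists_pow_mul hr h.b0.ne'
  have hkβ : k ≤ β := by
    have h1 : (r : ℤ) ^ k ∣ (r : ℤ) ^ β := by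
      rw [x1] at hk
      exact ((isCoprime_of_not_dvd hr x2).pow_left).dvd_of_dvd_mul_right hk
    rwa [pow_dvd_pow_iff hr0 hri.not_isUnit] at h1
  refine (pow_dvd_pow _ (by omega)).trans (?_ : (r : ℤ) ^ (β + 1) ∣ 1 + y)
  have h1 := (h.hrig hr hu (k := β) (by rw [x1]; exact dvd_mul_right _ _)).2
  have h2 : (r : ℤ) ^ β ∣ 1 + y :=
    ((isCoprime_of_not_dvd hr hf).pow_left).dvd_of_dvd_mul_right h1
  obtain ⟨y2, hy2⟩ := h2
  by_contra hn
  have hy2' : ¬ (r : ℤ) ∣ y2 := by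
    intro h9
    apply hn
    rw [hy2, pow_succ]
    exact mul_dvd_mul_left _ h9
  obtain ⟨ε, e2, z1, z2⟩ := exists_pow_mul hr h.e0.ne'
  have hε : 0 < ε := by
    rcases Nat.eq_zero_or_pos ε with h9 | h9
    · exfalso
      rw [h9, pow_zero, one_mul] at z1
      exact z2 (by rw [← z1]; exact he)
    · exact h9
  obtain ⟨j0, hj0⟩ := exists_classP hr (x := y2 * f)
    (fun h9 => (hri.dvd_or_dvd h9).elim hy2' hf) b2 ε
  obtain ⟨i, y3, y4, y5⟩ := h.exists_up hr z1 z2 hy2 hy2' x1 x2 hj0 hε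
  have hcls : (r : ℤ) ∣ y2 * f * i - b2 := by
    have e1 : y2 * f * i - b2 = (y2 * f * j0 - b2) + y2 * f * (i - j0) := by ring
    rw [e1]
    exact dvd_add ((dvd_pow_self _ hε.ne').trans hj0) (y3.mul_left _)
  exact h.hm hr hε z1 z2 (h.con_of y4 (hal i y2 b2 ⟨β, hy2, x1⟩ hy2' x2 hcls)) y5
    (Or.inr ⟨hc, hA⟩)

/-- F-D, `r ∤ y`, `r ∤ f` -/
theorem K1.fd1 (h : K1 S a' b c A a e f y φ l p) {r : ℕ} (hr : r.Prime)
    (hA : (r : ℤ) ∣ A) (hc : (r : ℤ) ∣ c) (hf : ¬ (r : ℤ) ∣ f) (hy : ¬ (r : ℤ) ∣ y) {k : ℕ}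
    (hk : (r : ℤ) ^ k ∣ b) : (r : ℤ) ^ (k + 1) ∣ 1 + y :=
  h.fd_aux hr hA hc hf ⟨1, prime_not_dvd_one hr, h.alw_all hr hf hy 1⟩
    (fun i _ _ _ _ _ _ => h.alw_all hr hf hy i) hk

/-- a V-frame with a given class `j` at the prime `r` -/
theorem K1.vframe (h : K1 S a' b c A a e f y φ l p) {r : ℕ} (hr : r.Prime) (j0 : ℤ)
    (hj0 : (r : ℤ) ∣ y → ¬ (r : ℤ) ∣ 1 + j0 * φ) :
    ∃ j φ2 : ℤ, (r : ℤ) ∣ j - j0 ∧
      K1 (vst S l p j) a' b c A a e (f + j * (a + b - A)) y φ2 l (p - j • S.v) := by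
  have hy0 := h.y0
  obtain ⟨j, hj⟩ := crt_exists (y * r) (mul_ne_zero hy0.ne' (by exact_mod_cast hr.ne_zero))
    (fun q j => (q = r → (r : ℤ) ∣ j - j0) ∧ (q ≠ r → (q : ℤ) ∣ j))
    (fun q hq _ => by
      by_cases hqr : q = r
      · exact ⟨j0, fun _ => by simp, fun h => absurd hqr h⟩
      · exact ⟨0, fun h => absurd h hqr, fun _ => dvd_zero _⟩)
    (fun q hq _ k k' h1 h2 => by
      refine ⟨fun h3 => ?_, fun h3 => ?_⟩
      · have e1 : k' - j0 = (k' - k) + (k - j0) := by ring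
        rw [e1]
        exact dvd_add (by rw [← h3]; exact h1) (h2.1 h3)
      · have := dvd_add h1 (h2.2 h3)
        simpa using this)
  have hrj : (r : ℤ) ∣ j - j0 := (hj r hr (dvd_mul_left _ _)).1 rfl
  have hco : IsCoprime y (1 + j * φ) := by
    refine isCoprime_of_prime fun q hq h1 h2 => ?_
    by_cases hqr : q = r
    · subst hqr
      apply hj0 h2
      have e1 : 1 + j0 * φ = (1 + j * φ) - (j - j0) * φ := by ring
      rw [e1]
      exact dvd_sub h1 (hrj.mul_right φ)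
    · have h3 := (hj q hq (h2.mul_right _)).2 hqr
      exact prime_not_dvd_one hq ((dvd_add_left (h3.mul_right φ)).1 h1)
  obtain ⟨φ2, h3⟩ := h.vtw hco
  exact ⟨j, φ2, hrj, h3⟩

/-- F-D, `r ∤ y` -/
theorem K1.fd2 (h : K1 S a' b c A a e f y φ l p) (hF : S.Full) {r : ℕ} (hr : r.Prime)
    (hA : (r : ℤ) ∣ A) (hc : (r : ℤ) ∣ c) (hy : ¬ (r : ℤ) ∣ y) {k : ℕ}
    (hk : (r : ℤ) ^ k ∣ b) : (r : ℤ) ^ (k + 1) ∣ 1 + y := by
  by_cases hf : (r : ℤ) ∣ f
  · have he : (r : ℤ) ∣ e := by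
      rw [h.hc] at hc
      exact (dvd_add_right hA).1 hc
    have hu := h.dz_u hF hA he hf
    have hab := h.not_ab hF hr hu
    obtain ⟨j, φ2, h1, h2⟩ := h.vframe hr 1 (fun h9 => absurd h9 hy)
    refine h2.fd1 hr hA hc ?_ hy hk
    intro h9
    apply hab
    have e1 : a + b = (f + j * (a + b - A)) - f - (j - 1) * (a + b - A) + A := by ring
    rw [e1]
    exact dvd_add (dvd_sub (dvd_sub h9 hf) (h1.mul_right _)) hA
  · exact h.fd1 hr hA hc hf hy hk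

/-- the relation between `φ` and the `φ` of a V-frame -/
theorem K1.phi_rel (h : K1 S a' b c A a e f y φ l p) {j φ2 f2 : ℤ}
    (h2 : K1 (vst S l p j) a' b c A a e f2 y φ2 l (p - j • S.v)) : y ∣ φ2 * (1 + j * φ) - φ := by
  have hc0 := h.c0
  have h1 := h2.L'_eq
  have h3 : φ2 • (S.u - j • (S.v + l)) + (S.v + l) ∈ S.L' := by
    have h4 : φ2 • (vst S l p j).u + ((vst S l p j).v + l) ∈ (vst S l p j).L' := by
      rw [h1]; exact mem_lat.2 ⟨0, 1, by module⟩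
    exact h4
  rw [h.L'_eq] at h3
  obtain ⟨m, n, hmn⟩ := mem_lat.1 h3
  have e0 : cr (S.v + l) S.u = -c := by rw [cr_swap, h.uw]
  have x1 := congrArg (fun z => cr z (S.v + l)) hmn
  have x2 := congrArg (fun z => cr S.u z) hmn
  generalize S.v + l = w at x1 x2 e0 h3 hmn
  generalize S.u = u at x1 x2 e0 h3 hmn
  have hcw : cr u w = c := by
    rw [cr_swap, e0]; ring
  simp only [cr_add_left, cr_add_right, cr_smul_left, cr_smul_right, cr_sub_left, cr_sub_right,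
    cr_self, hcw] at x1 x2
  have y1 : m * y + n * φ = φ2 := by
    have : c * (m * y + n * φ - φ2) = 0 := by linear_combination x1
    rcases mul_eq_zero.1 this with h9 | h9
    · exact absurd h9 hc0.ne'
    · linarith
  have y2 : n = 1 - j * φ2 := by
    have : c * (n - (1 - j * φ2)) = 0 := by linear_combination x2
    rcases mul_eq_zero.1 this with h9 | h9
    · exact absurd h9 hc0.ne'
    · linarith
  refine ⟨m, ?_⟩
  rw [y2] at y1
  linear_combination -y1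

/-- an H-twist with the gap `b * r ^ ε`, general valuations -/
theorem K1.exists_up2 (h : K1 S a' b c A a e f y φ l p) {r : ℕ} (hr : r.Prime) {ε : ℕ} {e2 : ℤ}
    (he : e = (r : ℤ) ^ ε * e2) (he2 : ¬ (r : ℤ) ∣ e2) {α : ℕ} {b2 : ℤ}
    (hb : b = (r : ℤ) ^ α * b2) (hb2 : ¬ (r : ℤ) ∣ b2) {j0 z : ℤ}
    (hj0 : (r : ℤ) ^ (α + ε) ∣ b - j0 * ((1 + y) * f)) (hz : j0 * (1 + y) = (r : ℤ) ^ α * z)
    (hz2 : ¬ (r : ℤ) ∣ z) :
    ∃ i : ℤ, (r : ℤ) ^ (α + ε + 1) ∣ i - j0 ∧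
      (∀ q : ℕ, q.Prime → q ≠ r → (q : ℤ) ∣ a' → (q : ℤ) ∣ i) ∧
      IsC S.L (S.v + i • (S.u + y • S.u)) (b * (r : ℤ) ^ ε) := by
  have hri := Nat.prime_iff_prime_int.1 hr
  have hb0 := h.b0
  have he0 := h.e0
  have hy0 := h.y0
  have hr0 : (r : ℤ) ≠ 0 := by exact_mod_cast hr.ne_zero
  obtain ⟨i, n1, n2, k', n3⟩ := crt_twist (B1 := (1 + y) * e) (B2 := (1 + y) * f) hb0
    (mul_pos (by linarith) he0).ne' (h.ext.ha'.1.ne') hr j0 (α + ε + 1) hb hb2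
  refine ⟨i, n1, n2, ?_⟩
  have h1 := h.gapHK i
  rw [n3] at h1
  obtain ⟨s, hs⟩ := n1
  have hi : i * (1 + y) = (r : ℤ) ^ α * (z + (r : ℤ) ^ (ε + 1) * (s * (1 + y))) := by
    have e1 : i = j0 + (r : ℤ) ^ (α + ε + 1) * s := by linarith
    have e2 : (r : ℤ) ^ (α + ε + 1) = (r : ℤ) ^ α * (r : ℤ) ^ (ε + 1) := by
      rw [← pow_add]; congr 1
    rw [e1, add_mul, hz, e2]; ring
  have hz3 : ¬ (r : ℤ) ∣ z + (r : ℤ) ^ (ε + 1) * (s * (1 + y)) := by
    intro h9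
    apply hz2
    have h10 : (r : ℤ) ∣ (r : ℤ) ^ (ε + 1) * (s * (1 + y)) :=
      (dvd_pow_self _ (by omega)).mul_right _
    exact (dvd_add_left h10).1 h9
  obtain ⟨z3, hz4⟩ : ∃ z3, z3 = z + (r : ℤ) ^ (ε + 1) * (s * (1 + y)) := ⟨_, rfl⟩
  rw [← hz4] at hi hz3
  have hk : k' = α + ε := by
    apply le_antisymm
    · by_contra h9
      push Not at h9
      have h10 : (r : ℤ) ^ (α + ε + 1) ∣ i * ((1 + y) * e) := by
        have : (r : ℤ) ^ (α + ε + 1) ∣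
            (Int.gcd (i * ((1 + y) * e)) (b - i * ((1 + y) * f)) : ℤ) := by
          rw [n3]; exact (pow_dvd_pow _ h9).mul_right _
        exact this.trans (Int.gcd_dvd_left _ _)
      have e1 : i * ((1 + y) * e) = (r : ℤ) ^ (α + ε) * (z3 * e2) := by
        rw [← mul_assoc, hi, he, pow_add]; ring
      rw [e1, pow_succ] at h10
      have h11 := (mul_dvd_mul_iff_left (pow_ne_zero _ hr0)).1 h10
      exact (hri.dvd_or_dvd h11).elim hz3 he2
    · by_contra h9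
      push Not at h9
      have h10 : (r : ℤ) ^ (α + ε) ∣
          (Int.gcd (i * ((1 + y) * e)) (b - i * ((1 + y) * f)) : ℤ) := by
        refine Int.dvd_coe_gcd ?_ ?_
        · have e1 : i * ((1 + y) * e) = (r : ℤ) ^ (α + ε) * (z3 * e2) := by
            rw [← mul_assoc, hi, he, pow_add]; ring
          rw [e1]; exact dvd_mul_right _ _
        · have e1 : b - i * ((1 + y) * f) = (b - j0 * ((1 + y) * f)) -
              (i - j0) * ((1 + y) * f) := by ring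
          rw [e1]
          refine dvd_sub hj0 (Dvd.dvd.mul_right ?_ _)
          rw [hs]
          exact (pow_dvd_pow _ (by omega)).mul_right _
      rw [n3] at h10
      have h11 : (r : ℤ) ^ (α + ε) ∣ (r : ℤ) ^ k' :=
        (((isCoprime_of_not_dvd hr hb2).pow_left).dvd_of_dvd_mul_right h10)
      rw [pow_dvd_pow_iff hr0 hri.not_isUnit] at h11
      omega
  have e1 : (r : ℤ) ^ k' * b2 = b * (r : ℤ) ^ ε := by rw [hk, hb, pow_add]; ring
  rwa [e1] at h1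

/-- F-D, `r ∣ y`, `r ∣ φ`, `r ∤ f`, `r` odd -/
theorem K1.fd3 (h : K1 S a' b c A a e f y φ l p) {N : ℕ} (hN : N.Prime) (hv : a + A + a' = N)
    {r : ℕ} (hr : r.Prime) (hr2 : r ≠ 2) (hA : (r : ℤ) ∣ A) (hc : (r : ℤ) ∣ c)
    (hy : (r : ℤ) ∣ y) (hφ : (r : ℤ) ∣ φ) (hf : ¬ (r : ℤ) ∣ f) {k : ℕ}
    (hk : (r : ℤ) ^ k ∣ b) : (r : ℤ) ^ (k + 1) ∣ 1 + y := by
  refine h.fd_aux hr hA hc hf (h.alw_odd hr (Or.inl hr2)) ?_ hk
  rintro i y2 b2 ⟨β, x1, x2⟩ - - x5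
  have hβ : β = 0 := by
    by_contra h9
    have h10 : (r : ℤ) ∣ 1 + y := by rw [x1]; exact (dvd_pow_self _ h9).mul_right _
    exact prime_not_dvd_one hr ((dvd_add_left hy).1 h10)
  rw [hβ, pow_zero, one_mul] at x1 x2
  rintro ⟨-, h2⟩
  have h3 := h2.cr_right p
  have e1 : cr p (φ • S.u + (S.v + l) + i • S.u) = a + b - φ * f - i * f := by
    rw [cr_add_right, cr_add_right, cr_smul_right, cr_smul_right, h.pw, cr_swap p S.u, h.hf]; ring
  rw [e1] at h3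
  refine h.not_a hN hv hr hA hc ?_
  have e2 : a = (a + b - φ * f - i * f) + φ * f + (y2 * f * i - b2) - y * (f * i) := by
    rw [← x1, ← x2]; ring
  rw [e2]
  exact dvd_sub (dvd_add (dvd_add h3 (hφ.mul_right f)) x5) (hy.mul_right _)

/-- F-D at `2`, `y` and `φ` even, `f` odd: impossible -/
theorem K1.fd4 (h : K1 S a' b c A a e f y φ l p)
    (hA : (2 : ℤ) ∣ A) (hc : (2 : ℤ) ∣ c) (ha : ¬ (2 : ℤ) ∣ a) (hy : (2 : ℤ) ∣ y)
    (hφ : (2 : ℤ) ∣ φ) (hf : ¬ (2 : ℤ) ∣ f) : False := by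
  have hp2 := Nat.prime_two
  have h2i := Int.prime_two
  have he : (2 : ℤ) ∣ e := by
    rw [h.hc] at hc
    exact (dvd_add_right hA).1 hc
  have hcl : Con1 (lat (y • S.u) (φ • S.u + (S.v + l))) := by rw [← h.L'_eq]; exact h.ext.con
  obtain ⟨δ, e2, x1, x2⟩ := exists_pow_mul hp2 h.e0.ne'
  obtain ⟨α, b2, x3, x4⟩ := exists_pow_mul hp2 h.b0.ne'
  push_cast at x1 x2 x3 x4
  have hy1 : ¬ (2 : ℤ) ∣ 1 + y := by omega
  have hyf : ¬ (2 : ℤ) ∣ (1 + y) * f := fun h9 => (h2i.dvd_or_dvd h9).elim hy1 hf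
  have hδ : 0 < δ := by
    rcases Nat.eq_zero_or_pos δ with h9 | h9
    · exfalso
      rw [h9, pow_zero, one_mul] at x1
      exact x2 (by rw [← x1]; exact he)
    · exact h9
  rcases Nat.eq_zero_or_pos α with hα | hα
  · -- `b` odd
    rw [hα, pow_zero, one_mul] at x3
    have hb : ¬ (2 : ℤ) ∣ b := by rw [x3]; exact x4
    -- `A = 2 ^ δ A1`, `A1` odd
    have hA0 := h.A0
    have haA := h.aA
    obtain ⟨s, A1, z1, z2⟩ := exists_pow_mul hp2 hA0.ne'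
    push_cast at z1 z2
    have haA1 : ¬ (2 : ℤ) ∣ a * A1 := fun h9 => (h2i.dvd_or_dvd h9).elim ha z2
    have he2b : ¬ (2 : ℤ) ∣ e2 * b := fun h9 => (h2i.dvd_or_dvd h9).elim x2 hb
    have key : (2 : ℤ) ^ s * (a * A1) = 2 ^ δ * (e2 * b) := by
      have : a * A = e * b := haA
      rw [z1, x1] at this
      linarith
    have hsδ : s = δ := by
      apply le_antisymm
      · have h1 : (2 : ℤ) ^ s ∣ 2 ^ δ * (e2 * b) := by rw [← key]; exact dvd_mul_right _ _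
        have hcop : IsCoprime ((2 : ℤ) ^ s) (e2 * b) :=
          (isCoprime_of_not_dvd (p := 2) hp2 (by exact_mod_cast he2b)).pow_left
        exact (pow_dvd_pow_iff (by norm_num) h2i.not_isUnit).1 (hcop.dvd_of_dvd_mul_right h1)
      · have h1 : (2 : ℤ) ^ δ ∣ 2 ^ s * (a * A1) := by rw [key]; exact dvd_mul_right _ _
        have hcop : IsCoprime ((2 : ℤ) ^ δ) (a * A1) :=
          (isCoprime_of_not_dvd (p := 2) hp2 (by exact_mod_cast haA1)).pow_left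
        exact (pow_dvd_pow_iff (by norm_num) h2i.not_isUnit).1 (hcop.dvd_of_dvd_mul_right h1)
    obtain ⟨t, ht⟩ : ∃ t, A1 + e2 = 2 * t := ⟨(A1 + e2) / 2, by omega⟩
    have hAw := h.Aw
    have h1 : (2 : ℤ) ^ δ • (A1 • (S.v + l)) = (2 : ℤ) ^ δ • ((2 * t) • S.v) := by
      rw [← mul_smul, ← mul_smul]
      have e1 : (2 : ℤ) ^ δ * A1 = A := by rw [z1, hsδ]
      have e3 : (2 : ℤ) ^ δ * (2 * t) = c := by rw [← ht, h.hc, z1, x1, hsδ]; ring
      rw [e1, e3]; exact hAw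
    have h3 := smul_inj (by positivity) h1
    have h4 : Dz 2 (A1 • (S.v + l)) := ⟨t • S.v, by rw [h3, mul_smul]⟩
    have h5 : Dz 2 (S.v + l) := by
      have h4' : Dz ((2 : ℕ) : ℤ) (A1 • (S.v + l)) := by exact_mod_cast h4
      rcases h4'.mul_prime hp2 with h6 | h6
      · exact absurd (by exact_mod_cast h6) z2
      · exact_mod_cast h6
    refine con1_iff.1 hcl 2 hp2 (dz_lat.2 ⟨?_, ?_⟩)
    · exact Dz.of_dvd (by exact_mod_cast hy) _
    · exact (Dz.of_dvd (by exact_mod_cast hφ) _).add (by exact_mod_cast h5)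
  · -- `b` even
    have h1 := (h.ext.hrig_two h.ext.ok.seq h.ext.ha' h.ext.con h.ext.hb h.ad).2
    have e1 : cr (S.u + y • S.u) p = (1 + y) * f := by
      rw [cr_add_left, cr_smul_left, h.hf]; ring
    rw [e1] at h1
    have hα1 : α = 1 := by
      by_contra h9
      have h10 : (2 : ℤ) ^ 2 ∣ 2 * ((1 + y) * f) := by
        refine Dvd.dvd.trans ?_ h1
        rw [x3]
        exact (pow_dvd_pow _ (by omega)).mul_right _
      have h11 : (2 : ℤ) * 2 ∣ 2 * ((1 + y) * f) := by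
        have : (2 : ℤ) ^ 2 = 2 * 2 := by norm_num
        rwa [this] at h10
      exact hyf ((mul_dvd_mul_iff_left (by norm_num)).1 h11)
    rw [hα1, pow_one] at x3
    obtain ⟨i0, hi0⟩ := exists_classP hp2 (x := (1 + y) * f) (by exact_mod_cast hyf) b2 δ
    push_cast at hi0
    have hi0o : ¬ (2 : ℤ) ∣ i0 := by
      intro h9
      apply x4
      have h10 := dvd_sub (h9.mul_left ((1 + y) * f)) ((dvd_pow_self 2 hδ.ne').trans hi0)
      simpa using h10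
    obtain ⟨i, y3, y4, y5⟩ := h.exists_up2 hp2 (ε := δ) (e2 := e2) (by exact_mod_cast x1)
      (by exact_mod_cast x2) (α := 1) (b2 := b2) (by rw [pow_one]; exact_mod_cast x3)
      (by exact_mod_cast x4) (j0 := 2 * i0) (z := i0 * (1 + y)) (by
        push_cast
        have e1 : b - 2 * i0 * ((1 + y) * f) = 2 * -((1 + y) * f * i0 - b2) := by
          rw [x3]; ring
        rw [e1, pow_add, pow_one]
        exact mul_dvd_mul_left _ ((dvd_neg).2 hi0))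
      (by push_cast; ring)
      (by
        intro h9
        have h9' : (2 : ℤ) ∣ i0 * (1 + y) := by exact_mod_cast h9
        exact (h2i.dvd_or_dvd h9').elim hi0o hy1)
    have hie : (2 : ℤ) ∣ i := by
      have h10 : (2 : ℤ) ∣ i - 2 * i0 := by
        refine Dvd.dvd.trans ?_ y3
        push_cast
        exact dvd_pow_self _ (by omega)
      omega
    refine h.hm hp2 hδ (by exact_mod_cast x1) (by exact_mod_cast x2) (h.con_of y4 ?_) y5
      (Or.inr ⟨by exact_mod_cast hc, by exact_mod_cast hA⟩)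
    refine Alw.per (k := 0) ?_ (Alw.zero hcl hp2)
    rw [sub_zero]; exact_mod_cast hie

/-- **F-D** -/
theorem K1.fd (h : K1 S a' b c A a e f y φ l p) (hF : S.Full) {N : ℕ} (hN : N.Prime)
    (hv : a + A + a' = N) {r : ℕ} (hr : r.Prime) (hA : (r : ℤ) ∣ A) (hc : (r : ℤ) ∣ c)
    (hφ : (r : ℤ) ∣ y → (r : ℤ) ∣ φ) {k : ℕ} (hk : (r : ℤ) ^ k ∣ b) :
    (r : ℤ) ^ (k + 1) ∣ 1 + y := by
  have he : (r : ℤ) ∣ e := by
    have hc' := hc
    rw [h.hc] at hc'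
    exact (dvd_add_right hA).1 hc'
  have hna := h.not_a hN hv hr hA hc
  by_cases hy : (r : ℤ) ∣ y
  · have hφ' := hφ hy
    have main : ∀ (S1 : PSt) (f1 φ1 : ℤ) (p1 : Z2), K1 S1 a' b c A a e f1 y φ1 l p1 →
        ¬ (r : ℤ) ∣ f1 → (r : ℤ) ∣ φ1 → (r : ℤ) ^ (k + 1) ∣ 1 + y := by
      intro S1 f1 φ1 p1 h1 h2 h3
      by_cases hr2 : r = 2
      · exfalso
        subst hr2
        exact h1.fd4 (by exact_mod_cast hA) (by exact_mod_cast hc) (by exact_mod_cast hna)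
          (by exact_mod_cast hy) (by exact_mod_cast h3) (by exact_mod_cast h2)
      · exact h1.fd3 hN hv hr hr2 hA hc hy h3 h2 hk
    by_cases hf : (r : ℤ) ∣ f
    · have hu := h.dz_u hF hA he hf
      have hab := h.not_ab hF hr hu
      obtain ⟨j, φ2, h1, h2⟩ := h.vframe hr 1 (fun _ h9 => by
        rw [one_mul] at h9
        exact prime_not_dvd_one hr ((dvd_add_left hφ').1 h9))
      refine main _ _ _ _ h2 ?_ ?_
      · intro h9
        apply hab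
        have e1 : a + b = (f + j * (a + b - A)) - f - (j - 1) * (a + b - A) + A := by ring
        rw [e1]
        exact dvd_add (dvd_sub (dvd_sub h9 hf) (h1.mul_right _)) hA
      · have h3 := hy.trans (h.phi_rel h2)
        have e1 : φ2 = (φ2 * (1 + j * φ) - φ) + φ - φ * (φ2 * j) := by ring
        rw [e1]
        exact dvd_sub (dvd_add h3 hφ') (hφ'.mul_right _)
    · exact main _ _ _ _ h hf hφ'
  · exact h.fd2 hF hr hA hc hy hk

end Pool.Agent.H4G
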