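import Pool.Agent.H4G.Asy.CVE
set_option autoImplicit false

/-!
# Line B, K = 1: windows (helper24, statements of helper9)
-/

namespace Pool.Agent.H4G

/-- window: the terms `w + g x` with `lo < A (w + g x) <= hi` contain `n` consecutive `x` -/
theorem window_terms {A g w lo hi : ℤ} (hA : 0 < A) (hg : 0 < g) {n : ℤ} (hn : n * (A * g) ≤ hi - lo) :
    ∃ s : ℤ, ∀ x : ℤ, s ≤ x → x < s + n → lo < A * (w + g * x) ∧ A * (w + g * x) ≤ hi := by
  have hG : 0 < A * g := mul_pos hA hg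
  refine ⟨(lo - A * w) / (A * g) + 1, fun x h1 h2 => ?_⟩
  have e := Int.mul_ediv_add_emod (lo - A * w) (A * g)
  have e1 := Int.emod_nonneg (lo - A * w) hG.ne'
  have e2 := Int.emod_lt_of_pos (lo - A * w) hG
  set s := (lo - A * w) / (A * g) with hs
  have h3 : A * g * (s + 1) ≤ A * g * x := mul_le_mul_of_nonneg_left h1 hG.le
  have h4 : A * g * x ≤ A * g * (s + n) := mul_le_mul_of_nonneg_left (by linarith) hG.le
  constructor
  · nlinarith
  · nlinarith

/-- `exists_avoid` in a window -/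
theorem window_avoid {ι : Type*} (T : Finset ι) (m r : ι → ℤ) (hm : ∀ i ∈ T, 0 < m i) {x₀ : ℤ}
    (h₀ : ∀ i ∈ T, ¬ m i ∣ x₀ - r i) {A g w lo hi : ℤ} (hA : 0 < A) (hg : 0 < g)
    (hn : 2 ^ T.card * (A * g) ≤ hi - lo) :
    ∃ x : ℤ, (lo < A * (w + g * x) ∧ A * (w + g * x) ≤ hi) ∧ ∀ i ∈ T, ¬ m i ∣ x - r i := by
  obtain ⟨s, hs⟩ := window_terms (w := w) hA hg hn
  obtain ⟨x, h1, h2, h3⟩ := Asy.exists_avoid T m r hm h₀ s
  exact ⟨x, hs x h1 h2, h3⟩

/-- three consecutive integers, two classes with moduli `>= 3` -/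
theorem window_three {m1 m2 r1 r2 A g w lo hi : ℤ} (h1 : 3 ≤ m1) (h2 : 3 ≤ m2) (hA : 0 < A) (hg : 0 < g)
    (hn : 3 * (A * g) ≤ hi - lo) :
    ∃ x : ℤ, (lo < A * (w + g * x) ∧ A * (w + g * x) ≤ hi) ∧ ¬ m1 ∣ x - r1 ∧ ¬ m2 ∣ x - r2 := by
  obtain ⟨s, hs⟩ := window_terms (w := w) hA hg hn
  have key : ∀ {m r x y : ℤ}, 3 ≤ m → m ∣ x - r → m ∣ y - r → x < y → y < x + 3 → False := by
    intro m r x y hm hx hy h3 h4
    have h5 : m ∣ y - x := by
      have := dvd_sub hy hx
      rwa [show y - r - (x - r) = y - x by ring] at this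
    have := Int.le_of_dvd (by linarith) h5
    linarith
  by_contra hcon
  push Not at hcon
  have c0 := hcon s (hs s le_rfl (by linarith))
  have c1 := hcon (s + 1) (hs (s + 1) (by linarith) (by linarith))
  have c2 := hcon (s + 2) (hs (s + 2) (by linarith) (by linarith))
  by_cases a0 : m1 ∣ s - r1
  · have b1 : m2 ∣ s + 1 - r2 := c1 fun h => key h1 a0 h (by linarith) (by linarith)
    have b2 : m2 ∣ s + 2 - r2 := c2 fun h => key h1 a0 h (by linarith) (by linarith)
    exact key h2 b1 b2 (by linarith) (by linarith)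
  · have b0 : m2 ∣ s - r2 := c0 a0
    have b1 : m1 ∣ s + 1 - r1 := by
      by_contra h
      exact key h2 b0 (c1 h) (by linarith) (by linarith)
    have b2 : m1 ∣ s + 2 - r1 := by
      by_contra h
      exact key h2 b0 (c2 h) (by linarith) (by linarith)
    exact key h1 b1 b2 (by linarith) (by linarith)

end Pool.Agent.H4G
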