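import Pool.Agent.H4G.Arith.K1Cont
import Pool.Agent.H4G.Arith.K1NumW

/-!
# Level one exit for `K = 1` with content at most two (helper29)
-/

set_option autoImplicit false

namespace Pool.Agent.H4G

variable {S : PSt} {a' b c A a e f y φ : ℤ} {l p : Z2} {N d A1 B k g e2 Y : ℕ}

theorem int_dvd_of_sub_one {r : ℕ} (hr : r.Prime) {x s : ℤ} (h : (r : ℤ) ∣ x - (s + 1)) :
    ¬ (r : ℤ) ∣ x - s := by
  intro h1
  refine prime_not_dvd_one hr ?_
  have := dvd_sub h1 h
  have e1 : (x - s) - (x - (s + 1)) = 1 := by ring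
  rwa [e1] at this

/-- the exit, if the count of the classes holds (`K1.t5` for `2 ≤ d`) -/
theorem K1N.fin_d_of (H : K1N S a' b c A a e f y φ l p N d A1 B k g e2 Y)
    (hT5 : 2 ^ ((Nat.gcd (g * e2 * B) (1 + g * Y)).primeFactors.card +
      ((Nat.gcd (A1 + g * e2) (g * Y - 1)).primeFactors.erase 2).card +
      (if 2 ∣ A1 + g * e2 ∧ 4 ∣ g * Y - 1 then 1 else 0)) * (A1 * g) ≤
      (A1 + g * e2) * (g * Y - 1)) :
    ∃ (T : PSt) (δ : ℤ), SEq S T ∧ IsC T.L T.v δ ∧ δ ≤ 2 := by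
  classical
  have D := H.D
  have hy0 := H.h.y0
  have hA0 := H.h.A0
  set P : Finset ℕ := (Nat.gcd (g * e2 * B) (1 + g * Y)).primeFactors with hP
  set C : Finset ℕ := (Nat.gcd (A1 + g * e2) (g * Y - 1)).primeFactors.erase 2 with hC
  set E : Prop := 2 ∣ A1 + g * e2 ∧ 4 ∣ g * Y - 1 with hE
  have hgY : 2 ≤ g * Y := by
    by_contra h1
    have h2 : g * Y - 1 = 0 := by omega
    rw [h2, mul_zero] at hT5
    exact absurd (Nat.le_zero.1 hT5) (Nat.mul_pos (by positivity) (Nat.mul_pos D.A0 D.g0)).ne'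
  have hy2 : (1 : ℤ) < y := by
    rw [D.hy]; exact_mod_cast hgY
  have hy1 : ((g * Y - 1 : ℕ) : ℤ) = y - 1 := by
    rw [D.hy, Nat.cast_sub (by omega)]; push_cast; ring
  have hyp : ((1 + g * Y : ℕ) : ℤ) = 1 + y := by rw [D.hy]; push_cast; ring
  -- membership
  have hPmem : ∀ r : ℕ, r ∈ P ↔ r.Prime ∧ (r : ℤ) ∣ a ∧ (r : ℤ) ∣ 1 + y := by
    intro r
    rw [hP, Nat.mem_primeFactors, Nat.dvd_gcd_iff]
    have e1 : ((g * e2 * B : ℕ) : ℤ) = a := by rw [D.ha]; push_cast; ring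
    rw [← e1, ← hyp, Int.natCast_dvd_natCast, Int.natCast_dvd_natCast]
    constructor
    · rintro ⟨h1, h2, -⟩; exact ⟨h1, h2⟩
    · rintro ⟨h1, h2⟩
      refine ⟨h1, h2, ?_⟩
      exact (Nat.gcd_pos_of_pos_right _ (by omega)).ne'
  have hCmem : ∀ r : ℕ, r ∈ C ↔ r ≠ 2 ∧ r.Prime ∧ (r : ℤ) ∣ (A1 : ℤ) + g * e2 ∧ (r : ℤ) ∣ y - 1 := by
    intro r
    rw [hC, Finset.mem_erase, Nat.mem_primeFactors, Nat.dvd_gcd_iff]
    have e1 : ((A1 + g * e2 : ℕ) : ℤ) = (A1 : ℤ) + g * e2 := by push_cast; ring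
    rw [← e1, ← hy1, Int.natCast_dvd_natCast, Int.natCast_dvd_natCast]
    constructor
    · rintro ⟨h0, h1, h2, -⟩; exact ⟨h0, h1, h2⟩
    · rintro ⟨h0, h1, h2⟩
      refine ⟨h0, h1, h2, ?_⟩
      exact (Nat.gcd_pos_of_pos_right _ (by omega)).ne'
  have hgr : ∀ r : ℕ, r.Prime → (r : ℤ) ∣ y - 1 → IsCoprime (r : ℤ) (g : ℤ) := by
    intro r hr h1
    refine ((Nat.prime_iff_prime_int.1 hr).coprime_iff_not_dvd).2 fun h2 => ?_
    refine prime_not_dvd_one hr ?_
    have h3 : (r : ℤ) ∣ y := by rw [D.hy]; exact h2.mul_right _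
    have := dvd_sub h3 h1
    have e1 : y - (y - 1) = 1 := by ring
    rwa [e1] at this
  -- the classes at the primes
  have hs : ∀ r : ℕ, ∃ s : ℤ,
      (r ∈ P → ∀ x : ℤ, (r : ℤ) ∣ 1 * (1 + (φ + g * x)) * e →
        (r : ℤ) ∣ 2 * b + a - 1 * (1 + (φ + g * x)) * f → (r : ℤ) ∣ x - s) ∧
      (r ∈ C → ∀ x : ℤ, (r : ℤ) ∣ φ + g * x → (r : ℤ) ∣ x - s) := by
    intro r
    by_cases h1 : r ∈ P
    · obtain ⟨h2, h3, h4⟩ := (hPmem r).1 h1
      obtain ⟨s, hs⟩ := H.pclass (o := 1) (Or.inl rfl) h2 h3 h4 φ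
      refine ⟨s, fun _ => hs, fun h5 => ?_⟩
      obtain ⟨h6, -, -, h7⟩ := (hCmem r).1 h5
      exfalso
      have h8 : (r : ℤ) ∣ 2 := by
        have := dvd_sub h4 h7
        have e1 : (1 + y) - (y - 1) = 2 := by ring
        rwa [e1] at this
      have h9 : r ∣ 2 := by exact_mod_cast h8
      exact h6 ((Nat.prime_dvd_prime_iff_eq h2 Nat.prime_two).1 h9)
    · by_cases h5 : r ∈ C
      · obtain ⟨h6, h2, -, h7⟩ := (hCmem r).1 h5
        obtain ⟨s, hs⟩ := K1.lin_class (hgr r h2 h7) φ 0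
        exact ⟨s, fun h => absurd h h1, fun _ x hx => hs x (by simpa using hx)⟩
      · exact ⟨0, fun h => absurd h h1, fun h => absurd h h5⟩
  choose s hsP hsC using hs
  -- the class at two
  obtain ⟨mE, sE, t2, hm4, hm0, hEbad, h2P, hEt⟩ : ∃ mE sE t2 : ℤ, mE ∣ 4 ∧ 0 < mE ∧
      (E → ∀ x : ℤ, ((¬ 2 ∣ d ∧ (4 : ℤ) ∣ φ + g * x) ∨
        (2 ∣ d ∧ ∃ τ : ℤ, Dz 2 (τ • S.u + (S.v + l)) ∧ (2 : ℤ) ∣ (φ + g * x) - τ)) → mE ∣ x - sE) ∧
      (2 ∈ P → ¬ (2 : ℤ) ∣ t2 - s 2) ∧ (E → ¬ mE ∣ t2 - sE) := by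
    by_cases hE1 : E
    · have h4y : (4 : ℤ) ∣ y - 1 := by rw [← hy1]; exact_mod_cast hE1.2
      have hg2 : IsCoprime ((2 : ℕ) : ℤ) (g : ℤ) :=
        hgr 2 Nat.prime_two ((by norm_num : ((2 : ℕ) : ℤ) ∣ 4).trans h4y)
      have hg4 : IsCoprime (4 : ℤ) (g : ℤ) := by
        have h4 := hg2.pow_left (m := 2)
        have e1 : ((2 : ℕ) : ℤ) ^ 2 = 4 := by norm_num
        rwa [e1] at h4
      by_cases hd2 : 2 ∣ d
      · -- modulus two, `2 ∉ P`
        have h2P : 2 ∉ P := by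
          intro h1
          obtain ⟨-, h2, -⟩ := (hPmem 2).1 h1
          have h3 : 2 ∣ g * e2 * B := by
            have e1 : ((g * e2 * B : ℕ) : ℤ) = a := by rw [D.ha]; push_cast; ring
            rw [← e1] at h2
            exact_mod_cast h2
          rcases Nat.prime_two.dvd_or_dvd h3 with h3 | h3
          · exact Nat.not_coprime_of_dvd_of_dvd (by norm_num) hd2 h3 D.co3
          · exact Nat.not_coprime_of_dvd_of_dvd (by norm_num) hd2 h3 D.co2
        by_cases hη : ∃ η : ℤ, Dz 2 (η • S.u + (S.v + l))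
        · obtain ⟨η, hη⟩ := hη
          have hu : ¬ Dz 2 S.u := by
            intro hu
            have h5 : Dz (2 : ℕ) (S.v + l) := by
              have := hη.sub (hu.smul η)
              rw [add_sub_cancel_left] at this
              exact_mod_cast this
            exact H.u_not Nat.prime_two h5 (by exact_mod_cast hu)
          obtain ⟨sE, hsE⟩ := K1.lin_class hg2 φ η
          refine ⟨2, sE, sE + 1, by norm_num, by norm_num, fun _ x hx => ?_,
            fun h => absurd h h2P, fun _ => by omega⟩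
          rcases hx with ⟨h1, -⟩ | ⟨-, τ, h1, h2⟩
          · exact absurd hd2 h1
          · have h3 : (2 : ℤ) ∣ τ - η := by
              have h4 : Dz (2 : ℕ) ((τ - η) • S.u) := by
                have h5 := h1.sub hη
                have e1 : (τ • S.u + (S.v + l)) - (η • S.u + (S.v + l)) = (τ - η) • S.u := by module
                rw [e1] at h5
                exact_mod_cast h5
              have h6 := (h4.mul_prime Nat.prime_two).resolve_right (by exact_mod_cast hu)
              exact_mod_cast h6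
            have h4 : (2 : ℤ) ∣ (φ + g * x) - η := by
              have e1 : (φ + g * x) - η = ((φ + g * x) - τ) + (τ - η) := by ring
              rw [e1]; exact dvd_add h2 h3
            exact_mod_cast hsE x (by exact_mod_cast h4)
        · refine ⟨2, 0, 1, by norm_num, by norm_num, fun _ x hx => ?_,
            fun h => absurd h h2P, fun _ => by omega⟩
          rcases hx with ⟨h1, -⟩ | ⟨-, τ, h1, -⟩
          · exact absurd hd2 h1
          · exact absurd ⟨τ, h1⟩ hη
      · -- modulus four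
        obtain ⟨sE, hsE⟩ := K1.lin_class hg4 φ 0
        refine ⟨4, sE, if (4 : ℤ) ∣ s 2 + 1 - sE then s 2 + 3 else s 2 + 1, by norm_num,
          by norm_num, fun _ x hx => ?_, fun _ => ?_, fun _ => ?_⟩
        · rcases hx with ⟨-, h1⟩ | ⟨h1, -⟩
          · exact hsE x (by simpa using h1)
          · exact absurd h1 hd2
        · split_ifs <;> omega
        · split_ifs with h1 <;> omega
    · exact ⟨1, 0, s 2 + 1, by norm_num, by norm_num, fun h => absurd h hE1, fun _ => by omega,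
        fun h => absurd h hE1⟩
  -- the finite set of classes
  set T : Finset ℕ := P ∪ C ∪ (if E then {4} else ∅) with hT
  have hn4 : ∀ r : ℕ, r.Prime → r ≠ 4 := by rintro r hr rfl; exact absurd hr (by norm_num)
  have hTcard : T.card ≤ P.card + C.card + (if E then 1 else 0) := by
    refine (Finset.card_union_le _ _).trans ?_
    refine Nat.add_le_add (Finset.card_union_le _ _) ?_
    split_ifs <;> simp
  have hTmem : ∀ r ∈ T, (r ∈ P ∧ r ≠ 4) ∨ (r ∈ C ∧ r ≠ 4) ∨ (r = 4 ∧ E) := by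
    intro r hr
    rw [hT, Finset.mem_union, Finset.mem_union] at hr
    rcases hr with (hr | hr) | hr
    · exact Or.inl ⟨hr, hn4 r ((hPmem r).1 hr).1⟩
    · exact Or.inr (Or.inl ⟨hr, hn4 r ((hCmem r).1 hr).2.1⟩)
    · split_ifs at hr with h1
      · exact Or.inr (Or.inr ⟨by simpa using hr, h1⟩)
      · simp at hr
  obtain ⟨x₀, hx₀⟩ := crt_primes (insert 2 (P ∪ C)) (by
    intro r hr
    rw [Finset.mem_insert, Finset.mem_union] at hr
    rcases hr with rfl | hr | hr
    · exact Nat.prime_two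
    · exact ((hPmem r).1 hr).1
    · exact ((hCmem r).1 hr).2.1) (fun _ => 2) (fun r => if r = 2 then t2 else s r + 1)
  have hx4 : (4 : ℤ) ∣ x₀ - t2 := by
    have := hx₀ 2 (by simp)
    simpa using this
  have hxr : ∀ r ∈ P ∪ C, r ≠ 2 → (r : ℤ) ∣ x₀ - (s r + 1) := by
    intro r hr h2
    have := hx₀ r (Finset.mem_insert_of_mem hr)
    simp only [h2, if_false] at this
    exact (dvd_pow_self _ (by norm_num)).trans this
  obtain ⟨x, ⟨hx1, hx2⟩, hxT⟩ := window_avoid T (fun i => if i = 4 then mE else (i : ℤ))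
    (fun i => if i = 4 then sE else s i) (x₀ := x₀) (by
      intro i hi
      rcases hTmem i hi with ⟨h1, h2⟩ | ⟨h1, h2⟩ | ⟨rfl, -⟩
      · simp only [h2, if_false]
        exact_mod_cast ((hPmem i).1 h1).1.pos
      · simp only [h2, if_false]
        exact_mod_cast ((hCmem i).1 h1).2.1.pos
      · simpa using hm0) (by
      intro i hi
      rcases hTmem i hi with ⟨h1, h2⟩ | ⟨h1, h2⟩ | ⟨rfl, h1⟩
      · simp only [h2, if_false]
        by_cases h3 : i = 2
        · subst h3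
          intro h4
          refine h2P h1 ?_
          have h4' : (2 : ℤ) ∣ x₀ - s 2 := by exact_mod_cast h4
          omega
        · exact int_dvd_of_sub_one ((hPmem i).1 h1).1 (hxr i (Finset.mem_union_left _ h1) h3)
      · simp only [h2, if_false]
        obtain ⟨h3, h4, -⟩ := (hCmem i).1 h1
        exact int_dvd_of_sub_one h4 (hxr i (Finset.mem_union_right _ h1) h3)
      · simp only [if_true]
        intro h4
        refine hEt h1 ?_
        have h5 := dvd_sub h4 (hm4.trans hx4)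
        have e1 : (x₀ - sE) - (x₀ - t2) = t2 - sE := by ring
        rwa [e1] at h5) (A := A) (g := g) (w := φ) (lo := c) (hi := c * y) hA0
      (by exact_mod_cast D.g0) (by
        have h1 : 2 ^ T.card * (A1 * g) ≤ (A1 + g * e2) * (g * Y - 1) :=
          (Nat.mul_le_mul_right _ (Nat.pow_le_pow_right (by norm_num) hTcard)).trans hT5
        have h2 : (2 ^ T.card * (A1 * g) : ℤ) ≤ ((A1 : ℤ) + g * e2) * (y - 1) := by
          rw [← hy1]; exact_mod_cast h1
        have h3 : (0 : ℤ) ≤ d := by positivity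
        have h4 := mul_le_mul_of_nonneg_left h2 h3
        rw [D.hA, D.hc]
        have e1 : (2 : ℤ) ^ T.card * (d * A1 * g) = d * (2 ^ T.card * (A1 * g)) := by ring
        have e2 : d * ((A1 : ℤ) + g * e2) * y - d * (A1 + g * e2) =
          d * (((A1 : ℤ) + g * e2) * (y - 1)) := by ring
        rw [e1, e2]
        exact h4)
  have hxP : ∀ r ∈ P, ¬ (r : ℤ) ∣ x - s r := by
    intro r hr
    have h1 := hxT r (by rw [hT]; exact Finset.mem_union_left _ (Finset.mem_union_left _ hr))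
    simpa only [hn4 r ((hPmem r).1 hr).1, if_false] using h1
  have hxC : ∀ r ∈ C, ¬ (r : ℤ) ∣ x - s r := by
    intro r hr
    have h1 := hxT r (by rw [hT]; exact Finset.mem_union_left _ (Finset.mem_union_right _ hr))
    simpa only [hn4 r ((hCmem r).1 hr).2.1, if_false] using h1
  have hxE : E → ¬ mE ∣ x - sE := by
    intro h1
    have h2 := hxT 4 (by rw [hT, if_pos h1]; exact Finset.mem_union_right _ (by simp))
    simpa using h2
  obtain ⟨t, i, κ, W, k1, k2, k3, k4, k5, k6, k7⟩ := H.sel (o := 1) (ω := φ + g * x) (m := x)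
    (Or.inl rfl) (by ring) hx1 hx2 (fun r hr hra hry hbad =>
      hxP r ((hPmem r).2 ⟨hr, hra, hry⟩) (hsP r ((hPmem r).2 ⟨hr, hra, hry⟩) x hbad.1 hbad.2))
  refine H.h.fin2 H.hN H.hv (n := 1) hy2 k3 k5 k6 k7 (fun r hr hr2 hbad => ?_) (fun hbad => ?_)
  · obtain ⟨h1, h2, h3⟩ := H.odd_content hr hr2 hbad.1 hbad.2 k1
    have hrC : r ∈ C := (hCmem r).2 ⟨hr2, hr, h2, h1⟩
    exact hxC r hrC (hsC r hrC x h3)
  · obtain ⟨h1, h2, h3⟩ := H.four_content (Or.inl rfl) hbad.1 hbad.2 k1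
    have hE1 : E := by
      refine ⟨by exact_mod_cast h2, ?_⟩
      rw [← hy1] at h1
      exact_mod_cast h1
    exact hxE hE1 (hEbad hE1 x h3)

end Pool.Agent.H4G
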