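import Pool.Agent.H4G.Arith.K1L1g
import Pool.Agent.H4G.Arith.K1L1d

/-!
# The frame ExtB with `K = 1` and `e < 3 A` (helper9): level one
-/

set_option autoImplicit false

namespace Pool.Agent.H4G

variable {S : PSt} {a' b c A a e f y φ : ℤ} {l p : Z2} {N : ℕ}

/-- the case `b = A` -/
theorem K1.fin_eq (h : K1 S a' b c A a e f y φ l p) (hN : N.Prime) (hv : a + A + a' = N)
    (hbA : b = A) : ∃ (T : PSt) (δ : ℤ), SEq S T ∧ IsC T.L T.v δ ∧ δ ≤ 2 := by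
  have hA0 := h.A0
  have hae : a = e := by
    have h1 := h.aA
    rw [hbA] at h1
    exact mul_right_cancel₀ hA0.ne' h1
  have hD : A • (S.v + l) = (a + A) • S.v := by
    rw [h.Aw, hae, h.hc, add_comm A e]
  obtain ⟨T, d, k1, k2, k3⟩ := SEq.wcp2 hN (L := S.L) (L' := S.L') (u := S.u) (v := S.v)
    (D := S.v + l) (a := a) (a' := a') (c := c) h.ext.ok h.area h.ext.ha'
    (by rw [h.hA]; exact hv) (by rw [h.hA, ← hbA]; exact h.ext.hb) (by rw [h.hA]; exact hD)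
    (fun r hr h1 h2 _ => by
      rw [h.hA] at h1
      exact h.not_a hN hv hr h1 (by rw [h.hc, ← hae]; exact dvd_add h1 h2) h2)
    h.ext.hc (by rw [h.hA, h.hc]; linarith [h.e0])
  refine ⟨T, d, k1, k2, ?_⟩
  rcases k3 with k3 | k3
  · omega
  · omega

/-- **level one**: the case where no 2-adic obstruction occurs -/
theorem K1.fin_level1 (h : K1 S a' b c A a e f y φ l p) (hF : S.Full) (hN : N.Prime)
    (hv : a + A + a' = N) (hb3 : 3 ≤ b) (he3 : e < 3 * A) (hAb : A < b)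
    (hI0 : ¬ (2 : ℤ) ∣ A → (4 : ℤ) ∣ e → (2 : ℤ) ∣ f → ¬ (4 : ℤ) ∣ f → ¬ (4 : ℤ) ∣ b - A) :
    ∃ (T : PSt) (δ : ℤ), SEq S T ∧ IsC T.L T.v δ ∧ δ ≤ 2 := by
  obtain ⟨d, A1, B, k, g, e2, Y, D⟩ := h.data hF hN hv hb3 he3 hAb
  obtain ⟨S1, f1, φ1, p1, k1, k2, k3, k4⟩ := h.norm hN hv hb3 he3 hI0
  have H : K1N S1 a' b c A a e f1 y φ1 l p1 N d A1 B k g e2 Y :=
    ⟨k2, hN, hv, hb3, he3, hAb, D, k3, k4⟩
  obtain ⟨T, δ, m1, m2, m3⟩ : ∃ (T : PSt) (δ : ℤ), SEq S1 T ∧ IsC T.L T.v δ ∧ δ ≤ 2 := by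
    have hd0 := D.d0
    rcases Nat.lt_or_ge 1 d with hd | hd
    · exact H.fin_d_of (K1.t5 hd D.A0 D.g0 D.e0 D.Y0 D.k0 D.hB D.hM D.h3 D.co1 D.co2 D.co3 D.rad)
    · have hd1 : d = 1 := by omega
      subst hd1
      exact H.fin_one
  exact ⟨T, δ, k1.trans m1, m2, m3⟩

end Pool.Agent.H4G
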