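import Pool.Agent.H4G.Arith.K1F

/-!
# Lemma HM (helper9; Lean: helper64)

`ExtB` with `c = A + e`. If an allowed H-twist has the gap `r ^ ε * b`, `r ^ ε` the exact power of
the prime `r` in `e = u × l`, and `r ∣ a'`, `r ∤ c` or `r ∣ c`, `r ∣ A`, then there is a word
(H-twist, V-twist, H-twist) with the gap `b` and a smaller `c`.
-/

set_option autoImplicit false

namespace Pool.Agent.H4G

/-- a twist which changes only the part at the prime `r` -/
theorem crt_twist {g B1 B2 D : ℤ} (hg : 0 < g) (hB1 : B1 ≠ 0) (hD : D ≠ 0) {r : ℕ}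
    (hr : r.Prime) (j0 : ℤ) (K : ℕ) {k : ℕ} {g1 : ℤ} (hg1 : g = (r : ℤ) ^ k * g1)
    (hr1 : ¬ (r : ℤ) ∣ g1) :
    ∃ j : ℤ, (r : ℤ) ^ K ∣ j - j0 ∧
      (∀ q : ℕ, q.Prime → q ≠ r → (q : ℤ) ∣ D → (q : ℤ) ∣ j) ∧
      ∃ k' : ℕ, (Int.gcd (j * B1) (g - j * B2) : ℤ) = (r : ℤ) ^ k' * g1 := by
  have hri := Nat.prime_iff_prime_int.1 hr
  have hrk : 0 < (r : ℤ) ^ k := pow_pos (by exact_mod_cast hr.pos) _
  have hg10 : 0 < g1 := by
    rcases lt_trichotomy g1 0 with h | h | h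
    · have := mul_neg_of_pos_of_neg hrk h
      omega
    · rw [h, mul_zero] at hg1; omega
    · exact h
  obtain ⟨r2, R, hR, hpR⟩ := exists_pow_mul hr
    (mul_ne_zero (mul_ne_zero hB1 hg10.ne') hD)
  have hcop : IsCoprime ((r : ℤ) ^ K) (g1 * R) :=
    (isCoprime_of_not_dvd hr (fun h => (hri.dvd_or_dvd h).elim hr1 hpR)).pow_left
  obtain ⟨x, y, hxy⟩ := hcop
  obtain ⟨j1, hj1⟩ : ∃ j1 : ℤ, (r : ℤ) ^ K ∣ g1 * R * j1 - j0 := by
    refine ⟨y * j0, -(x * j0), ?_⟩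
    linear_combination j0 * hxy
  have hother : ∀ q : ℕ, q.Prime → q ≠ r → (q : ℤ) ∣ B1 * g1 * D → (q : ℤ) ∣ R := by
    intro q hq hqr hd
    rw [hR] at hd
    rcases (Nat.prime_iff_prime_int.1 hq).dvd_or_dvd hd with h | h
    · exfalso
      have h1 := (Nat.prime_iff_prime_int.1 hq).dvd_of_dvd_pow h
      rw [Int.natCast_dvd_natCast] at h1
      exact hqr ((Nat.prime_dvd_prime_iff_eq hq hr).1 h1)
    · exact h
  refine ⟨g1 * R * j1, hj1, fun q hq hqr hd => ?_, ?_⟩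
  · exact ((hother q hq hqr (hd.mul_left _)).mul_left g1).mul_right j1
  · have e1 : g1 * R * j1 * B1 = g1 * (R * j1 * B1) := by ring
    have e2 : g - g1 * R * j1 * B2 = g1 * ((r : ℤ) ^ k - R * j1 * B2) := by
      conv_lhs => rw [hg1]
      ring
    obtain ⟨d, hd⟩ : ∃ d : ℕ, d = Int.gcd (R * j1 * B1) ((r : ℤ) ^ k - R * j1 * B2) := ⟨_, rfl⟩
    have d1 : (d : ℤ) ∣ R * j1 * B1 := by rw [hd]; exact Int.gcd_dvd_left _ _
    have d2 : (d : ℤ) ∣ (r : ℤ) ^ k - R * j1 * B2 := by rw [hd]; exact Int.gcd_dvd_right _ _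
    have hd0 : d ≠ 0 := by
      intro h0
      rw [h0, Nat.cast_zero, zero_dvd_iff] at d1 d2
      rcases mul_eq_zero.1 d1 with h | h
      · rw [h, zero_mul, sub_zero] at d2
        exact hrk.ne' d2
      · exact hB1 h
    have huniq : ∀ {q : ℕ}, q.Prime → q ∣ d → q = r := by
      intro q hq hqd
      by_contra hqr
      have hqi := Nat.prime_iff_prime_int.1 hq
      have h1 : (q : ℤ) ∣ R * j1 * B1 := (Int.natCast_dvd_natCast.2 hqd).trans d1
      have h2 : (q : ℤ) ∣ (r : ℤ) ^ k - R * j1 * B2 := (Int.natCast_dvd_natCast.2 hqd).trans d2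
      have h3 : ¬ (q : ℤ) ∣ R * j1 := by
        intro h
        have h4 : (q : ℤ) ∣ (r : ℤ) ^ k := by
          have := dvd_add h2 (h.mul_right B2)
          simpa using this
        have h5 := hqi.dvd_of_dvd_pow h4
        rw [Int.natCast_dvd_natCast] at h5
        exact hqr ((Nat.prime_dvd_prime_iff_eq hq hr).1 h5)
      have h4 : (q : ℤ) ∣ B1 := (hqi.dvd_or_dvd h1).resolve_left h3
      exact h3 ((hother q hq hqr ((h4.mul_right g1).mul_right D)).mul_right j1)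
    refine ⟨d.primeFactorsList.length, ?_⟩
    have h5 := Nat.eq_prime_pow_of_unique_prime_dvd hd0 huniq
    rw [e1, e2, Int.gcd_mul_left, Nat.cast_mul, Int.natAbs_of_nonneg hg10.le, ← hd, mul_comm g1]
    congr 1
    exact_mod_cast h5

/-- a number dividing all `cr u w`, `cr (v + l) w`, `w ∈ L'`, divides `A + e` -/
theorem dvd_Ae {M : AddSubgroup Z2} (hM : Con1 M) {u w1 : Z2} {d : ℤ} (hd : d ≠ 0)
    (h1 : ∀ w ∈ M, d ∣ cr u w) (h2 : ∀ w ∈ M, d ∣ cr w1 w) : d ∣ cr u w1 := by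
  refine hM.dvd hd fun w hw => ?_
  have e1 := cr_dep u w1 w
  have e3 : d ∣ cr w u := by
    rw [cr_swap w u]
    exact (dvd_neg).2 (h1 w hw)
  have e4 : (cr u w1) • w = -(cr w1 w • u + cr w u • w1) :=
    eq_neg_of_add_eq_zero_right e1
  rw [e4]
  exact ((Dz.of_dvd (h2 w hw) _).add (Dz.of_dvd e3 _)).neg

/-- a prime power in `c` which does not divide the products with `L'`, when `c` does not
divide `u × w1` -/
theorem exists_bad_prime {M : AddSubgroup Z2} (hM : Con1 M) {u w1 l' p' : Z2}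
    (hL : M = lat l' p') {c : ℤ} (hc : 0 < c) (hcM : ∀ w ∈ M, c ∣ cr u w)
    (hn : ¬ c ∣ cr u w1) : ∃ (q : ℕ) (k : ℕ) (c1 : ℤ), q.Prime ∧ c = (q : ℤ) ^ k * c1 ∧
      ¬ (q : ℤ) ∣ c1 ∧ ¬ ((q : ℤ) ^ k ∣ cr w1 l' ∧ (q : ℤ) ^ k ∣ cr w1 p') := by
  by_contra hcon
  push Not at hcon
  have key : ∀ (q : ℕ) (k : ℕ), q.Prime → (q : ℤ) ^ k ∣ c →
      (q : ℤ) ^ k ∣ cr w1 l' ∧ (q : ℤ) ^ k ∣ cr w1 p' := by
    intro q k hq hk
    obtain ⟨m, c1, h1, h2⟩ := exists_pow_mul hq hc.ne'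
    obtain ⟨h3, h4⟩ := hcon q m c1 hq h1 h2
    have h5 : (q : ℤ) ^ k ∣ (q : ℤ) ^ m := by
      rw [h1] at hk
      exact ((isCoprime_of_not_dvd hq h2).pow_left).dvd_of_dvd_mul_right hk
    exact ⟨h5.trans h3, h5.trans h4⟩
  apply hn
  refine dvd_Ae hM hc.ne' hcM fun w hw => ?_
  rw [hL] at hw
  obtain ⟨m, n, rfl⟩ := mem_lat.1 hw
  rw [cr_add_right, cr_smul_right, cr_smul_right]
  exact dvd_add ((dvd_of_prime_pow fun q k hq hk => (key q k hq hk).1).mul_left _)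
    ((dvd_of_prime_pow fun q k hq hk => (key q k hq hk).2).mul_left _)

variable {S : PSt} {a' b c A a e f y φ : ℤ} {l p : Z2}

/-- **LEMMA HM** -/
theorem K1.hm (h : K1 S a' b c A a e f y φ l p) {r : ℕ} (hr : r.Prime) {ε : ℕ} (hε : 0 < ε)
    {e2 : ℤ} (he : e = (r : ℤ) ^ ε * e2) (he2 : ¬ (r : ℤ) ∣ e2) {i : ℤ}
    (hcon : Con1 (lat (y • S.u) (φ • S.u + (S.v + l) + i • S.u)))
    (hgap : IsC S.L (S.v + i • (S.u + y • S.u)) (b * (r : ℤ) ^ ε))
    (h2 : ((r : ℤ) ∣ a' ∧ ¬ (r : ℤ) ∣ c) ∨ ((r : ℤ) ∣ c ∧ (r : ℤ) ∣ A)) : False := by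
  have hri := Nat.prime_iff_prime_int.1 hr
  have ad := h.ad
  have hb0 := h.b0
  have hc0 := h.c0
  have hA0 := h.A0
  have he0 := h.e0
  have ha0 : a' ≠ 0 := h.ext.ha'.1.ne'
  have hrε : 1 < (r : ℤ) ^ ε := one_lt_pow₀ (by exact_mod_cast hr.one_lt) hε.ne'
  have he20 : 0 < e2 := by
    rw [he] at he0
    exact (mul_pos_iff_of_pos_left (by linarith)).1 he0
  have hra : (r : ℤ) ∣ a' := by
    rcases h2 with h2 | h2
    · exact h2.1
    · rw [h.hy]; exact h2.1.mul_right _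
  have E2 : cr S.u (φ • S.u + (S.v + l)) = c := by
    rw [cr_add_right, cr_smul_right, cr_self, h.uw]; ring
  have E3 : cr (y • S.u) (φ • S.u + (S.v + l)) = a' := ad.isArea'.unique h.ext.ha'
  -- step 1: the state `T = H_i S`
  have k1 := ad.twH h.ext.ok (by rw [h.hA, E2, h.hc]; linarith) i
  obtain ⟨v, hv⟩ : ∃ v, v = S.v + i • (S.u + y • S.u) := ⟨_, rfl⟩
  rw [← hv] at k1 hgap
  have hA' : cr S.u v = A := by
    rw [hv, cr_add_right, cr_smul_right, cr_add_right, cr_self, cr_smul_right, cr_self, h.hA]; ring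
  obtain ⟨l1, p1, l1', p1', ad1⟩ := exists_Ad k1.ok'
  have F1 : cr p1 v = b * (r : ℤ) ^ ε := ad1.isC.unique hgap
  have F0 : cr p1 l1 = a := ad1.isArea.unique h.area
  have hLi : lat (y • S.u) (φ • S.u + (S.v + l) + i • S.u) = lat l1' p1' := ad1.hL'
  have ha'i : IsArea (lat (y • S.u) (φ • S.u + (S.v + l) + i • S.u)) a' := by
    have h1 : cr (y • S.u) (φ • S.u + (S.v + l) + i • S.u) = a' := by
      rw [cr_add_right, E3, cr_smul_right, cr_smul_left, cr_self]; ring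
    exact ⟨h.ext.ha'.1, _, _, h1, lat_comm _ _⟩
  have hci : IsC (lat (y • S.u) (φ • S.u + (S.v + l) + i • S.u)) S.u c := by
    have e1 : cr S.u (φ • S.u + (S.v + l) + i • S.u) = c := by
      rw [cr_add_right, E2, cr_smul_right, cr_self]; ring
    have : IsC (lat (y • S.u) (φ • S.u + (S.v + l) + i • S.u)) S.u
        (cr S.u (φ • S.u + (S.v + l) + i • S.u)) :=
      isC_adapted ad.h4 (by rw [e1]; exact hc0)
    rwa [e1] at this
  have F2 : cr S.u p1' = c := ad1.isC'.unique hci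
  have F3 : cr l1' p1' = a' := ad1.isArea'.unique ha'i
  have F4 : cr S.u l1 = e2 := by
    have h1 := ad1.area
    dsimp only at h1
    rw [F0, F1, hA', h.aA, he] at h1
    have h3 : (r : ℤ) ^ ε * b * (cr S.u l1 - e2) = 0 := by linarith
    rcases mul_eq_zero.1 h3 with h9 | h9
    · exact absurd h9 (mul_pos (by linarith) hb0).ne'
    · linarith
  have hbr : b ≤ b * (r : ℤ) ^ ε := by nlinarith
  have hAb : cr S.u v ≤ cr p1 v := by rw [hA', F1]; have := h.Ab; linarith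
  -- step 2: a V-twist with a smaller `c`
  obtain ⟨w1, hw1⟩ : ∃ w1, w1 = v + l1 := ⟨_, rfl⟩
  have hκ : cr S.u w1 = A + e2 := by rw [hw1, cr_add_right, hA', F4]
  have hκc : ¬ c ∣ cr S.u w1 := by
    intro h9
    rw [hκ] at h9
    have h10 := Int.le_of_dvd (by linarith) h9
    rw [h.hc, he] at h10
    nlinarith
  have hL1 : Con1 (lat l1' p1') := by rw [← hLi]; exact hcon
  have hcM : ∀ w ∈ lat l1' p1', c ∣ cr S.u w := by rw [← hLi]; exact hci.2.1
  obtain ⟨q, k, c1, hq, hq1, hq2, hq3, hq4⟩ : ∃ (q : ℕ) (k : ℕ) (c1 : ℤ), q.Prime ∧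
      c = (q : ℤ) ^ k * c1 ∧ ¬ (q : ℤ) ∣ c1 ∧
      ¬ ((q : ℤ) ^ k ∣ cr w1 l1' ∧ (q : ℤ) ^ k ∣ cr w1 p1') ∧
      ((r : ℤ) ∣ c → q = r ∧ ¬ ((r : ℤ) ∣ cr w1 l1' ∧ (r : ℤ) ∣ cr w1 p1')) := by
    rcases h2 with h2 | h2
    · obtain ⟨q, k, c1, hq, x1, x2, x3⟩ := exists_bad_prime hL1 rfl hc0 hcM hκc
      exact ⟨q, k, c1, hq, x1, x2, x3, fun h9 => absurd h9 h2.2⟩
    · obtain ⟨k, c1, x1, x2⟩ := exists_pow_mul hr hc0.ne'
      have x3 : ¬ ((r : ℤ) ∣ cr w1 l1' ∧ (r : ℤ) ∣ cr w1 p1') := by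
        rintro ⟨x4, x5⟩
        have x6 : (r : ℤ) ∣ cr S.u w1 := by
          refine dvd_Ae hL1 (by exact_mod_cast hr.ne_zero)
            (fun w hw => h2.1.trans (hcM w hw)) fun w hw => ?_
          obtain ⟨m, n, rfl⟩ := mem_lat.1 hw
          rw [cr_add_right, cr_smul_right, cr_smul_right]
          exact dvd_add (x4.mul_left _) (x5.mul_left _)
        rw [hκ] at x6
        exact he2 ((dvd_add_right h2.2).1 x6)
      have x7 : k ≠ 0 := by
        rintro rfl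
        rw [pow_zero, one_mul] at x1
        exact x2 (by rw [← x1]; exact h2.1)
      refine ⟨r, k, c1, hr, x1, x2, ?_, fun _ => ⟨rfl, x3⟩⟩
      rintro ⟨x8, x9⟩
      exact x3 ⟨(dvd_pow_self _ x7).trans x8, (dvd_pow_self _ x7).trans x9⟩
  have hqi := Nat.prime_iff_prime_int.1 hq
  have hB1 : cr w1 l1' ≠ 0 := by rw [hw1]; exact ad1.B_ne
  obtain ⟨j, j1, -, k', j2⟩ := crt_twist (B2 := cr w1 p1') hc0 hB1 one_ne_zero hq 1 1 hq1 hq2
  rw [pow_one] at j1
  have hqj : ¬ (q : ℤ) ∣ j := by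
    intro h9
    have := dvd_sub h9 j1
    rw [sub_sub_cancel] at this
    exact prime_not_dvd_one hq this
  obtain ⟨c2, hc2⟩ : ∃ c2 : ℤ, c2 = (q : ℤ) ^ k' * c1 := ⟨_, rfl⟩
  have hk' : k' < k := by
    by_contra h9
    push Not at h9
    apply hq3
    have h10 : (q : ℤ) ^ k ∣ (Int.gcd (j * cr w1 l1') (c - j * cr w1 p1') : ℤ) := by
      rw [j2]; exact (pow_dvd_pow _ h9).mul_right _
    have h11 : (q : ℤ) ^ k ∣ j * cr w1 l1' := h10.trans (Int.gcd_dvd_left _ _)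
    have h12 : (q : ℤ) ^ k ∣ c - j * cr w1 p1' := h10.trans (Int.gcd_dvd_right _ _)
    have h13 : (q : ℤ) ^ k ∣ j * cr w1 p1' := by
      have h14 : (q : ℤ) ^ k ∣ c := by rw [hq1]; exact dvd_mul_right _ _
      have := dvd_sub h14 h12
      simpa using this
    have hcop : IsCoprime ((q : ℤ) ^ k) j := (isCoprime_of_not_dvd hq hqj).pow_left
    exact ⟨hcop.dvd_of_dvd_mul_left h11, hcop.dvd_of_dvd_mul_left h13⟩
  have hc10 : 0 < c1 := by
    rw [hq1] at hc0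
    exact (mul_pos_iff_of_pos_left (pow_pos (by exact_mod_cast hq.pos) _)).1 hc0
  have hc2c : c2 ∣ c := by
    rw [hc2, hq1]
    exact mul_dvd_mul_right (pow_dvd_pow _ hk'.le) _
  have hc2lt : c2 < c := by
    rw [hc2, hq1]
    exact mul_lt_mul_of_pos_right (pow_lt_pow_right₀ (by exact_mod_cast hq.one_lt) hk') hc10
  have hrc2 : ¬ (r : ℤ) ∣ c2 := by
    intro h9
    have h10 : (r : ℤ) ∣ c := h9.trans hc2c
    obtain ⟨h11, h12⟩ := hq4 h10
    rw [h11] at j2 hqj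
    have h13 : (r : ℤ) ∣ (Int.gcd (j * cr w1 l1') (c - j * cr w1 p1') : ℤ) := by
      rw [hc2, h11] at h9
      rw [j2]; exact h9
    have h14 : (r : ℤ) ∣ j * cr w1 l1' := h13.trans (Int.gcd_dvd_left _ _)
    have h15 : (r : ℤ) ∣ j * cr w1 p1' := by
      have := dvd_sub h10 (h13.trans (Int.gcd_dvd_right _ _))
      simpa using this
    exact h12 ⟨(hri.dvd_or_dvd h14).resolve_left hqj, (hri.dvd_or_dvd h15).resolve_left hqj⟩
  have k2 := ad1.twV k1.ok' hAb j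
  have g1 := ad1.gapV F2 j
  dsimp only at k2 g1
  rw [← hw1] at k2 g1
  rw [j2, ← hc2] at g1
  obtain ⟨u2, hu2⟩ : ∃ u2, u2 = S.u - j • w1 := ⟨_, rfl⟩
  obtain ⟨p2, hp2⟩ : ∃ p2, p2 = p1 - j • v := ⟨_, rfl⟩
  rw [← hu2, ← hp2] at k2
  rw [← hu2] at g1
  have k3 := k1.trans k2
  have hw1v : cr w1 v = 0 := by rw [hw1, cr_add_left, cr_self, ad1.h1]; ring
  have G0 : cr u2 v = A := by
    rw [hu2, cr_sub_left, cr_smul_left, hw1v, hA']; ring
  have hgap2 : IsC (lat l1 p2) v (b * (r : ℤ) ^ ε) := by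
    have : cr p2 v = b * (r : ℤ) ^ ε := by
      rw [hp2, cr_sub_left, cr_smul_left, cr_self, F1]; ring
    rw [← this]
    exact isC_of_par ad1.h1 (by rw [this]; linarith)
  have harea2 : IsArea (lat l1 p2) a := by
    have : cr p2 l1 = a := by
      rw [hp2, cr_sub_left, cr_smul_left, cr_swap v l1, ad1.h1, F0]; ring
    exact ⟨h.a0, l1, p2, this, rfl⟩
  obtain ⟨l3, p3, l3', p3', ad3⟩ := exists_Ad k3.ok'
  have G1 : cr p3 v = b * (r : ℤ) ^ ε := ad3.isC.unique hgap2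
  have G2 : cr u2 p3' = c2 := ad3.isC'.unique g1
  have G3 : cr l3' p3' = a' := ad3.isArea'.unique ha'i
  have G4 : cr p3 l3 = a := ad3.isArea.unique harea2
  have G5 : cr u2 l3 = e2 := by
    have h1 := ad3.area
    dsimp only at h1
    rw [G4, G1, G0, h.aA, he] at h1
    have h3 : (r : ℤ) ^ ε * b * (cr u2 l3 - e2) = 0 := by linarith
    rcases mul_eq_zero.1 h3 with h9 | h9
    · exact absurd h9 (mul_pos (by linarith) hb0).ne'
    · linarith
  have hL3 : Con1 (lat l3' p3') := by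
    have := ad3.hL'
    dsimp only at this
    rw [← this]; exact hcon
  have hAc3 : cr u2 v ≤ cr u2 p3' := by
    have := h.ext.leA k3 (by exact ha'i) (by exact hcon) (d := c2) (by exact g1)
    rw [G2]; exact this
  -- step 3: the H-twist back
  have hX := ad3.cr_W l3
  dsimp only at hX
  rw [G2, G3, G5] at hX
  have hrX : ¬ (r : ℤ) ∣ cr (u2 + l3') l3 := by
    intro h9
    have h10 : (r : ℤ) ∣ (c2 + a') * e2 := by rw [← hX]; exact h9.mul_right _
    rcases hri.dvd_or_dvd h10 with h11 | h11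
    · exact hrc2 ((dvd_add_left hra).1 h11)
    · exact he2 h11
  obtain ⟨k4, b1, m1, m2⟩ := exists_pow_mul hr (show b * (r : ℤ) ^ ε ≠ 0 by
    exact (mul_pos hb0 (by linarith)).ne')
  obtain ⟨i', n1, n2, k5, n3⟩ := crt_twist (B2 := cr (u2 + l3') p3)
    (show 0 < b * (r : ℤ) ^ ε from mul_pos hb0 (by linarith)) ad3.X_ne ha0 hr 1 1 m1 m2
  rw [pow_one] at n1
  have hri' : ¬ (r : ℤ) ∣ i' := by
    intro h9
    have := dvd_sub h9 n1
    rw [sub_sub_cancel] at this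
    exact prime_not_dvd_one hr this
  have hk5 : k5 = 0 := by
    by_contra h9
    have h10 : (r : ℤ) ∣ (Int.gcd (i' * cr (u2 + l3') l3)
        (b * (r : ℤ) ^ ε - i' * cr (u2 + l3') p3) : ℤ) := by
      rw [n3]; exact (dvd_pow_self _ h9).mul_right _
    have h11 : (r : ℤ) ∣ i' * cr (u2 + l3') l3 := h10.trans (Int.gcd_dvd_left _ _)
    exact (hri.dvd_or_dvd h11).elim hri' hrX
  rw [hk5, pow_zero, one_mul] at n3
  have hal : ∀ q : ℕ, q.Prime → (q : ℤ) ∣ a' → Alw l3' p3' u2 q i' := by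
    intro q hq hqa
    by_cases hqr : q = r
    · rw [hqr]
      exact Alw.of_not_dvd (by rw [G2]; exact hrc2) i'
    · refine Alw.per (k := 0) ?_ (Alw.zero hL3 hq)
      rw [sub_zero]; exact n2 q hq hqr hqa
  have h4 := ad3.h4
  dsimp only at h4
  have t1 := ad3.twH k3.ok' hAc3 i'
  have t2 := ad3.gapH G1 i'
  dsimp only at t1 t2
  rw [n3] at t2
  have t3 : IsArea (lat l3' (p3' + i' • u2)) a' := by
    have h1 : cr l3' (p3' + i' • u2) = cr l3' p3' := by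
      rw [cr_add_right, cr_smul_right, cr_swap l3' u2, h4]; ring
    exact ⟨h.ext.ha'.1, p3' + i' • u2, l3', by rw [h1, G3], lat_comm _ _⟩
  have t4 : Con1 (lat l3' (p3' + i' • u2)) := con1_of_alw h4 G3 hal
  have t5 : IsC (lat l3' (p3' + i' • u2)) u2 c2 := by
    have e1 : cr u2 (p3' + i' • u2) = c2 := by
      rw [cr_add_right, cr_smul_right, cr_self, G2]; ring
    have h6 := ad3.h6
    dsimp only at h6
    have : IsC (lat l3' (p3' + i' • u2)) u2 (cr u2 (p3' + i' • u2)) :=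
      isC_adapted h4 (by rw [e1, ← G2]; exact h6)
    rwa [e1] at this
  have hb1 : b ≤ b1 := h.ext.min _ _ (k3.trans t1) t3 t4 t2
  have hb1d : b1 ∣ b := by
    have h9 : b1 ∣ b * (r : ℤ) ^ ε := by rw [m1]; exact dvd_mul_left _ _
    exact ((isCoprime_of_not_dvd hr m2).symm.pow_right).dvd_of_dvd_mul_right h9
  have hbb : b1 = b := le_antisymm (Int.le_of_dvd hb0 hb1d) hb1
  rw [hbb] at t2
  have t6 : cr u2 (v + i' • (u2 + l3')) ≤ b := by
    have : cr u2 (v + i' • (u2 + l3')) = A := by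
      rw [cr_add_right, cr_smul_right, cr_add_right, cr_self, h4, G0]; ring
    rw [this]; exact h.Ab
  have := h.ext.min' _ _ (k3.trans t1) t3 t4 t2 t6 t5
  linarith

/-- the gap after an H-twist, `K1` form -/
theorem K1.gapHK (h : K1 S a' b c A a e f y φ l p) (i : ℤ) :
    IsC S.L (S.v + i • (S.u + y • S.u))
      (Int.gcd (i * ((1 + y) * e)) (b - i * ((1 + y) * f)) : ℕ) := by
  have h1 := h.ad.gapH h.hb i
  have e1 : cr (S.u + y • S.u) l = (1 + y) * e := by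
    rw [cr_add_left, cr_smul_left, h.he]; ring
  have e2 : cr (S.u + y • S.u) p = (1 + y) * f := by
    rw [cr_add_left, cr_smul_left, h.hf]; ring
  rwa [e1, e2] at h1

theorem K1.up' (h : K1 S a' b c A a e f y φ l p) : cr S.u (φ • S.u + (S.v + l)) = c := by
  rw [cr_add_right, cr_smul_right, cr_self, h.uw]; ring

/-- the content of an H-twisted lattice: only the prime `r` has to be checked -/
theorem K1.con_of (h : K1 S a' b c A a e f y φ l p) {r : ℕ} {i : ℤ}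
    (h1 : ∀ q : ℕ, q.Prime → q ≠ r → (q : ℤ) ∣ a' → (q : ℤ) ∣ i)
    (h2 : Alw (y • S.u) (φ • S.u + (S.v + l)) S.u r i) :
    Con1 (lat (y • S.u) (φ • S.u + (S.v + l) + i • S.u)) := by
  have hcl : Con1 (lat (y • S.u) (φ • S.u + (S.v + l))) := by rw [← h.L'_eq]; exact h.ext.con
  refine con1_of_alw h.ad.h4 (h.ad.isArea'.unique h.ext.ha') fun q hq hqa => ?_
  by_cases hqr : q = r
  · rw [hqr]; exact h2
  · refine Alw.per (k := 0) ?_ (Alw.zero hcl hq)
    rw [sub_zero]; exact h1 q hq hqr hqa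

/-- an allowed H-twist with the gap `b * r ^ ε`, `r ^ ε` the exact power of `r` in `e`. `r ^ β` is
the exact power of `r` in `1 + y` and divides `b`. -/
theorem K1.exists_up (h : K1 S a' b c A a e f y φ l p) {r : ℕ} (hr : r.Prime) {ε : ℕ} {e2 : ℤ}
    (he : e = (r : ℤ) ^ ε * e2) (he2 : ¬ (r : ℤ) ∣ e2) {β : ℕ} {y2 b2 : ℤ}
    (hy : 1 + y = (r : ℤ) ^ β * y2) (hy2 : ¬ (r : ℤ) ∣ y2) (hb : b = (r : ℤ) ^ β * b2)
    (hb2 : ¬ (r : ℤ) ∣ b2) {j0 : ℤ}
    (hj0 : (r : ℤ) ^ ε ∣ y2 * f * j0 - b2) (hε : 0 < ε) :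
    ∃ i : ℤ, (r : ℤ) ∣ i - j0 ∧ (∀ q : ℕ, q.Prime → q ≠ r → (q : ℤ) ∣ a' → (q : ℤ) ∣ i) ∧
      IsC S.L (S.v + i • (S.u + y • S.u)) (b * (r : ℤ) ^ ε) := by
  have hri := Nat.prime_iff_prime_int.1 hr
  have hb0 := h.b0
  have he0 := h.e0
  have hy0 := h.y0
  have hr0 : (r : ℤ) ≠ 0 := by exact_mod_cast hr.ne_zero
  obtain ⟨i, n1, n2, k', n3⟩ := crt_twist (B1 := (1 + y) * e) (B2 := (1 + y) * f) hb0
    (mul_pos (by linarith) he0).ne' (h.ext.ha'.1.ne') hr j0 ε hb hb2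
  have hrε : (r : ℤ) ∣ (r : ℤ) ^ ε := dvd_pow_self _ hε.ne'
  have hij : (r : ℤ) ∣ i - j0 := hrε.trans n1
  have hrj : ¬ (r : ℤ) ∣ i := by
    intro h9
    have h10 : (r : ℤ) ∣ j0 := by
      have := dvd_sub h9 hij
      simpa using this
    apply hb2
    have := dvd_sub (h10.mul_left (y2 * f)) (hrε.trans hj0)
    simpa using this
  refine ⟨i, hij, n2, ?_⟩
  have h1 := h.gapHK i
  rw [n3] at h1
  have hk : k' = β + ε := by
    apply le_antisymm
    · by_contra h9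
      push Not at h9
      have h10 : (r : ℤ) ^ (β + ε + 1) ∣ i * ((1 + y) * e) := by
        have : (r : ℤ) ^ (β + ε + 1) ∣
            (Int.gcd (i * ((1 + y) * e)) (b - i * ((1 + y) * f)) : ℤ) := by
          rw [n3]; exact (pow_dvd_pow _ h9).mul_right _
        exact this.trans (Int.gcd_dvd_left _ _)
      have e1 : i * ((1 + y) * e) = (r : ℤ) ^ (β + ε) * (i * (y2 * e2)) := by
        rw [hy, he, pow_add]; ring
      rw [e1, pow_succ] at h10
      have h11 := (mul_dvd_mul_iff_left (pow_ne_zero _ hr0)).1 h10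
      rcases hri.dvd_or_dvd h11 with h12 | h12
      · exact hrj h12
      · exact (hri.dvd_or_dvd h12).elim hy2 he2
    · by_contra h9
      push Not at h9
      have h10 : (r : ℤ) ^ (β + ε) ∣
          (Int.gcd (i * ((1 + y) * e)) (b - i * ((1 + y) * f)) : ℤ) := by
        refine Int.dvd_coe_gcd ?_ ?_
        · have e1 : i * ((1 + y) * e) = (r : ℤ) ^ (β + ε) * (i * (y2 * e2)) := by
            rw [hy, he, pow_add]; ring
          rw [e1]; exact dvd_mul_right _ _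
        · have e1 : b - i * ((1 + y) * f) = (r : ℤ) ^ β *
              (-(y2 * f * j0 - b2) - y2 * f * (i - j0)) := by
            rw [hb, hy]; ring
          rw [e1, pow_add]
          exact mul_dvd_mul_left _ (dvd_sub ((dvd_neg).2 hj0) (n1.mul_left _))
      rw [n3] at h10
      have h11 : (r : ℤ) ^ (β + ε) ∣ (r : ℤ) ^ k' :=
        (((isCoprime_of_not_dvd hr hb2).pow_left).dvd_of_dvd_mul_right h10)
      rw [pow_dvd_pow_iff hr0 hri.not_isUnit] at h11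
      omega
  have e1 : (r : ℤ) ^ k' * b2 = b * (r : ℤ) ^ ε := by rw [hk, hb, pow_add]; ring
  rwa [e1] at h1

/-- a solution of `x j = b` modulo `r ^ k` -/
theorem exists_classP {r : ℕ} (hr : r.Prime) {x : ℤ} (hx : ¬ (r : ℤ) ∣ x) (b : ℤ) (k : ℕ) :
    ∃ j : ℤ, (r : ℤ) ^ k ∣ x * j - b := by
  obtain ⟨s, t, h⟩ : IsCoprime ((r : ℤ) ^ k) x := (isCoprime_of_not_dvd hr hx).pow_left
  exact ⟨t * b, -(s * b), by linear_combination b * h⟩

/-- **F-T** -/
theorem K1.ft (h : K1 S a' b c A a e f y φ l p) {r : ℕ} (hr : r.Prime) (he : (r : ℤ) ∣ e)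
    (hA : ¬ (r : ℤ) ∣ A) (hy : (r : ℤ) ∣ y) : (r : ℤ) ∣ f := by
  by_contra hf
  have hri := Nat.prime_iff_prime_int.1 hr
  have hrc : ¬ (r : ℤ) ∣ c := by
    rw [h.hc]
    intro h9
    exact hA ((dvd_add_left he).1 h9)
  have hra : (r : ℤ) ∣ a' := by rw [h.hy]; exact hy.mul_left _
  have hy1 : ¬ (r : ℤ) ∣ 1 + y := by
    intro h9
    exact prime_not_dvd_one hr ((dvd_add_left hy).1 h9)
  have hb : ¬ (r : ℤ) ∣ b := by
    intro h9
    have h10 := (h.hrig hr (h.alw_odd hr (Or.inr hrc)) (k := 1) (by rw [pow_one]; exact h9)).2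
    rw [pow_one] at h10
    exact (hri.dvd_or_dvd h10).elim hy1 hf
  obtain ⟨ε, e2, x1, x2⟩ := exists_pow_mul hr h.e0.ne'
  have hε : 0 < ε := by
    rcases Nat.eq_zero_or_pos ε with h9 | h9
    · exfalso
      rw [h9, pow_zero, one_mul] at x1
      exact x2 (by rw [← x1]; exact he)
    · exact h9
  obtain ⟨j0, hj0⟩ := exists_classP hr (x := (1 + y) * f)
    (fun h9 => (hri.dvd_or_dvd h9).elim hy1 hf) b ε
  obtain ⟨i, y1, y2, y3⟩ := h.exists_up hr x1 x2 (β := 0) (y2 := 1 + y) (b2 := b) (by simp) hy1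
    (by simp) hb hj0 hε
  exact h.hm hr hε x1 x2 (h.con_of y2 (Alw.of_not_dvd (by rw [h.up']; exact hrc) i)) y3
    (Or.inl ⟨hra, hrc⟩)

end Pool.Agent.H4G
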