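import Pool.Agent.H4G.Arith.K1E

/-!
# Level one exits for `K = 1`: the condition for `κ ∣ A + c`, the number `Q`, the classes (helper9)
-/

set_option autoImplicit false

namespace Pool.Agent.H4G

variable {S : PSt} {a' b c A a e f y φ : ℤ} {l p : Z2}

theorem pdvd_mul {r : ℕ} (hr : r.Prime) {x z : ℤ} (h : (r : ℤ) ∣ x * z) :
    (r : ℤ) ∣ x ∨ (r : ℤ) ∣ z := (Nat.prime_iff_prime_int.1 hr).dvd_or_dvd h

theorem ppow_cancel {r : ℕ} (hr : r.Prime) {x z : ℤ} {k : ℕ} (hx : ¬ (r : ℤ) ∣ x)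
    (h : (r : ℤ) ^ k ∣ x * z) : (r : ℤ) ^ k ∣ z :=
  (isCoprime_pow_prime hr hx k).dvd_of_dvd_mul_left h

/-- the facts about a prime of `a` which does not divide `1 + y` -/
theorem K1.of_a (h : K1 S a' b c A a e f y φ l p) {N : ℕ} (hN : N.Prime)
    (hv : a + A + a' = N) (hb : ∀ r : ℕ, r.Prime → (r : ℤ) ∣ a → (r : ℤ) ∣ b → (r : ℤ) ∣ 1 + y)
    {r : ℕ} (hr : r.Prime) (h1 : (r : ℤ) ∣ a) (h2 : ¬ (r : ℤ) ∣ 1 + y) :
    ¬ (r : ℤ) ∣ b ∧ (r : ℤ) ∣ e ∧ ¬ (r : ℤ) ∣ A := by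
  have h3 : ¬ (r : ℤ) ∣ b := fun h3 => h2 (hb r hr h1 h3)
  have h4 : (r : ℤ) ∣ e * b := by rw [← h.aA]; exact h1.mul_right _
  have h5 : (r : ℤ) ∣ e := (pdvd_mul hr h4).resolve_right h3
  refine ⟨h3, h5, fun h6 => h.not_a hN hv hr h6 ?_ h1⟩
  rw [h.hc]; exact dvd_add h6 h5

theorem K1.good1 (h : K1 S a' b c A a e f y φ l p) {N : ℕ} (hN : N.Prime)
    (hv : a + A + a' = N) (hb : ∀ r : ℕ, r.Prime → (r : ℤ) ∣ a → (r : ℤ) ∣ b → (r : ℤ) ∣ 1 + y)
    {W κ : ℤ} (hκ : IsC S.L (xv S l 1 W) κ)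
    (hP : ¬ (2 : ℤ) ∣ A → (2 : ℤ) ∣ e → ¬ (2 : ℤ) ∣ W)
    (hI : ¬ (2 : ℤ) ∣ A → (4 : ℤ) ∣ e → (2 : ℤ) ∣ f → (4 : ℤ) ∣ f)
    (G1 : ∀ r : ℕ, r.Prime → (r : ℤ) ∣ a → (r : ℤ) ∣ 1 + y →
      ¬ ((r : ℤ) ∣ W * e ∧ (r : ℤ) ∣ 2 * b + a - W * f))
    (G2 : ∀ r : ℕ, r.Prime → r ≠ 2 → (r : ℤ) ∣ e → ¬ (r : ℤ) ∣ A → ¬ (r : ℤ) ∣ 1 + y →
      ¬ (r : ℤ) ∣ 2 * b + a - W * f) :
    κ ∣ A + 1 * c ∧ (∀ r : ℕ, r.Prime → (r : ℤ) ∣ κ → (r : ℤ) ∣ a → ∀ D : Z2,
      κ • D = (a + (A + 1 * c)) • xv S l 1 W → ¬ Dz r D) := by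
  have hgap : ∀ {q : ℤ}, q ∣ κ → q ∣ W * e ∧ q ∣ 2 * b + a - W * f := by
    intro q hq
    have h1 := (h.xgap hκ).1 hq
    refine ⟨h1.1, ?_⟩
    have e1 : (1 + 1) * b + 1 * a - W * f = 2 * b + a - W * f := by ring
    rw [← e1]; exact h1.2
  -- the only bad prime is 2
  have key : ∀ r : ℕ, r.Prime → (r : ℤ) ∣ a → (r : ℤ) ∣ κ →
      r = 2 ∧ ¬ (2 : ℤ) ∣ b ∧ (2 : ℤ) ∣ e ∧ ¬ (2 : ℤ) ∣ A ∧ (2 : ℤ) ∣ a ∧ ¬ (2 : ℤ) ∣ W := by
    intro r hr hra hrκ
    obtain ⟨h1, h2⟩ := hgap hrκ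
    have h3 : ¬ (r : ℤ) ∣ 1 + y := fun h3 => G1 r hr hra h3 ⟨h1, h2⟩
    obtain ⟨h4, h5, h6⟩ := h.of_a hN hv hb hr hra h3
    have h7 : r = 2 := by
      by_contra h7
      exact G2 r hr h7 h5 h6 h3 h2
    subst h7
    have e2 : ((2 : ℕ) : ℤ) = 2 := rfl
    rw [e2] at h4 h5 h6 hra
    exact ⟨rfl, h4, h5, h6, hra, hP h6 h5⟩
  constructor
  · refine h.kap_dvd hκ fun r hr hra k hk => ?_
    rcases Nat.eq_zero_or_pos k with h0 | h0
    · rw [h0, pow_zero]; exact one_dvd _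
    obtain ⟨h1, h2, h3, h4, h5, h6⟩ := key r hr hra ((dvd_pow_self _ h0.ne').trans hk)
    subst h1
    have e2 : ((2 : ℕ) : ℤ) = 2 := rfl
    rw [e2] at hk ⊢
    obtain ⟨g1, g2⟩ := hgap hk
    have hk1 : k = 1 := by
      by_contra hk1
      have h42 : (4 : ℤ) ∣ 2 ^ k := by
        have : (2 : ℤ) ^ 2 ∣ 2 ^ k := pow_dvd_pow _ (by omega)
        simpa using this
      by_cases he4 : (4 : ℤ) ∣ e
      · have ha4 : (4 : ℤ) ∣ a := by
          have : ((2 : ℕ) : ℤ) ^ 2 ∣ A * a := by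
            have e3 : A * a = e * b := by rw [mul_comm, h.aA]
            rw [e3]; exact Dvd.dvd.mul_right (by simpa using he4) _
          simpa using ppow_cancel Nat.prime_two (by simpa using h4) this
        have hf2 : (2 : ℤ) ∣ f := by
          have g3 : (2 : ℤ) ∣ 2 * b + a - W * f := (by norm_num : (2 : ℤ) ∣ 4).trans
            (h42.trans g2)
          have g4 : (2 : ℤ) ∣ W * f := by
            have : W * f = 2 * b + a - (2 * b + a - W * f) := by ring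
            rw [this]
            exact dvd_sub (dvd_add (dvd_mul_right _ _) h5) g3
          exact (pdvd_mul Nat.prime_two (by simpa using g4)).resolve_left (by simpa using h6)
        have hf4 := hI h4 he4 hf2
        have g3 : (4 : ℤ) ∣ 2 * b := by
          have : 2 * b = (2 * b + a - W * f) - a + W * f := by ring
          rw [this]
          exact dvd_add (dvd_sub (h42.trans g2) ha4) (hf4.mul_left _)
        omega
      · have g3 : ((2 : ℕ) : ℤ) ^ 2 ∣ W * e := by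
          have := h42.trans g1
          simpa using this
        have := ppow_cancel Nat.prime_two (by simpa using h6) g3
        exact he4 (by simpa using this)
    rw [hk1, h.hc]
    obtain ⟨e', he'⟩ := h3
    exact ⟨A + e', by rw [he']; ring⟩
  · intro r hr hrκ hra D hD hDz
    obtain ⟨h1, h2, h3, h4, h5, h6⟩ := key r hr hra hrκ
    subst h1
    have e2 : ((2 : ℕ) : ℤ) = 2 := rfl
    rw [e2] at hrκ
    obtain ⟨D', hD'⟩ := hDz
    rw [e2] at hD'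
    obtain ⟨κ', hκ'⟩ := hrκ
    -- `4 ∣ a + e`
    have g1 : (4 : ℤ) ∣ a + e := by
      have g2 : (4 : ℤ) ∣ A * (a + e) := by
        have e3 : A * (a + e) = e * (b + A) := by
          have := h.aA
          linear_combination this
        rw [e3]
        have g3 : (2 : ℤ) ∣ b + A := by omega
        have := mul_dvd_mul h3 g3
        simpa using this
      have g4 : ((2 : ℕ) : ℤ) ^ 2 ∣ A * (a + e) := by simpa using g2
      simpa using ppow_cancel Nat.prime_two (by simpa using h4) g4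
    obtain ⟨m, hm⟩ := g1
    have e4 : a + (A + 1 * c) = 2 * (2 * m + A) := by rw [h.hc]; linear_combination hm
    have e5 : (2 * κ') • D' = (2 * m + A) • xv S l 1 W := by
      refine smul_inj (a := 2) (by norm_num) ?_
      have : (2 : ℤ) • ((2 * κ') • D') = κ • D := by rw [hκ', hD']; module
      rw [this, hD, e4]; module
    have g5 : Dz ((2 : ℕ) : ℤ) ((2 * m + A) • xv S l 1 W) := by
      rw [← e5]
      exact Dz.of_dvd (by simp) D'
    rcases g5.mul_prime Nat.prime_two with g6 | g6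
    · rw [e2] at g6; omega
    · have g7 := g6.cr_right S.v
      rw [h.xvv] at g7
      have g8 : ((2 : ℕ) : ℤ) ∣ W * A := (dvd_neg).1 g7
      rcases pdvd_mul Nat.prime_two g8 with g9 | g9
      · exact h6 (by simpa using g9)
      · exact h4 (by simpa using g9)

/-! ## The number `Q` -/

/-- `A ∣ (1 + y) c`; the primes of `gcd (A, c)` divide the quotient -/
theorem K1.exists_Q (h : K1 S a' b c A a e f y φ l p) {N : ℕ} (hN : N.Prime)
    (hv : a + A + a' = N)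
    (hb : ∀ r : ℕ, r.Prime → ¬ (r : ℤ) ∣ e → ∀ k : ℕ, (r : ℤ) ^ k ∣ b → (r : ℤ) ^ k ∣ 1 + y)
    (hfd : ∀ r : ℕ, r.Prime → (r : ℤ) ∣ A → (r : ℤ) ∣ c → ∀ k : ℕ, (r : ℤ) ^ k ∣ b →
      (r : ℤ) ^ (k + 1) ∣ 1 + y) :
    ∃ Q : ℤ, A * Q = (1 + y) * c ∧ (∀ r : ℕ, r.Prime → (r : ℤ) ∣ A → (r : ℤ) ∣ c → (r : ℤ) ∣ Q) := by
  have key : ∀ (r : ℕ) (m : ℕ), r.Prime → (r : ℤ) ^ m ∣ A →
      (r : ℤ) ^ m ∣ (1 + y) * c ∧ ((r : ℤ) ∣ A → (r : ℤ) ∣ c → (r : ℤ) ^ (m + 1) ∣ (1 + y) * c) := by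
    intro r m hr hm
    by_cases hre : (r : ℤ) ∣ e
    · by_cases hrA : (r : ℤ) ∣ A
      · have hrc : (r : ℤ) ∣ c := by rw [h.hc]; exact dvd_add hrA hre
        have hra := h.not_a hN hv hr hrA hrc
        obtain ⟨δ, e', he1, he2⟩ := exists_val hr h.e0
        obtain ⟨α, b', hb1, hb2⟩ := exists_val hr h.b0
        have h1 : (r : ℤ) ^ m ∣ e * b := by rw [← h.aA]; exact hm.mul_left _
        have h2 : m ≤ δ + α := by
          by_contra hlt
          have h3 : (r : ℤ) ^ (δ + α + 1) ∣ e * b := (pow_dvd_pow _ (by omega)).trans h1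
          refine not_pow_succ_dvd hr (κ := e * b) (m := e' * b') (j := δ + α) ?_ ?_ h3
          · rw [he1, hb1, pow_add]; ring
          · intro h4
            rcases pdvd_mul hr h4 with h5 | h5
            · exact he2 h5
            · exact hb2 h5
        have h3 : (r : ℤ) ^ δ ∣ A := by
          refine ppow_cancel hr hra (k := δ) ?_
          rw [h.aA, he1]
          exact (dvd_mul_right _ _).mul_right _
        have h4 : (r : ℤ) ^ δ ∣ c := by
          rw [h.hc]; exact dvd_add h3 (by rw [he1]; exact dvd_mul_right _ _)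
        have h5 : (r : ℤ) ^ (α + 1) ∣ 1 + y := hfd r hr hrA hrc α (by rw [hb1]; exact dvd_mul_right _ _)
        have h6 : (r : ℤ) ^ (δ + α + 1) ∣ (1 + y) * c := by
          have := mul_dvd_mul h5 h4
          rw [← pow_add] at this
          have e1 : α + 1 + δ = δ + α + 1 := by ring
          rwa [e1] at this
        exact ⟨(pow_dvd_pow _ (by omega)).trans h6, fun _ _ => (pow_dvd_pow _ (by omega)).trans h6⟩
      · have h1 : m = 0 := by
          by_contra h1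
          exact hrA ((dvd_pow_self _ h1).trans hm)
        subst h1
        exact ⟨by simp, fun h2 => absurd h2 hrA⟩
    · have h1 : (r : ℤ) ^ m ∣ e * b := by rw [← h.aA]; exact hm.mul_left _
      have h2 := ppow_cancel hr hre h1
      refine ⟨(hb r hr hre m h2).mul_right _, fun h3 h4 => ?_⟩
      exfalso
      apply hre
      have : e = c - A := by rw [h.hc]; ring
      rw [this]; exact dvd_sub h4 h3
  have hA0 := h.A0
  obtain ⟨Q, hQ⟩ : A ∣ (1 + y) * c := dvd_of_prime_pow fun r k hr hk => (key r k hr hk).1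
  refine ⟨Q, hQ.symm, fun r hr h1 h2 => ?_⟩
  obtain ⟨j, m, h3, h4⟩ := exists_val hr hA0
  have h5 := (key r j hr (by conv_rhs => rw [h3]
                             exact dvd_mul_right _ _)).2 h1 h2
  rw [hQ] at h5
  have h6 : A * Q = (r : ℤ) ^ j * (m * Q) := by rw [← mul_assoc, ← h3]
  rw [h6, pow_succ] at h5
  have h7 := (mul_dvd_mul_iff_left (pow_ne_zero j (by exact_mod_cast hr.ne_zero : (r : ℤ) ≠ 0))).1 h5
  exact (pdvd_mul hr h7).resolve_left h4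

/-- a prime of `a` and `1 + y` divides `Q` -/
theorem K1.Q_dvd (h : K1 S a' b c A a e f y φ l p) {N : ℕ} (hN : N.Prime)
    (hv : a + A + a' = N)
    (hb : ∀ r : ℕ, r.Prime → ¬ (r : ℤ) ∣ e → ∀ k : ℕ, (r : ℤ) ^ k ∣ b → (r : ℤ) ^ k ∣ 1 + y)
    {Q : ℤ} (hQ : A * Q = (1 + y) * c) {r : ℕ} (hr : r.Prime) (hra : (r : ℤ) ∣ a)
    (hy : (r : ℤ) ∣ 1 + y) : (r : ℤ) ∣ Q := by
  by_cases hrA : (r : ℤ) ∣ A
  · have hre : ¬ (r : ℤ) ∣ e := fun h1 =>
      h.not_a hN hv hr hrA (by rw [h.hc]; exact dvd_add hrA h1) hra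
    obtain ⟨j, m, h3, h4⟩ := exists_val hr h.A0
    have h5 : (r : ℤ) ^ (j + 1) ∣ b := by
      refine ppow_cancel hr hre ?_
      rw [← h.aA, pow_succ, mul_comm]
      refine mul_dvd_mul hra ?_
      conv_rhs => rw [h3]
      exact dvd_mul_right _ _
    have h6 : (r : ℤ) ^ (j + 1) ∣ A * Q := by rw [hQ]; exact (hb r hr hre _ h5).mul_right _
    have h7 : A * Q = (r : ℤ) ^ j * (m * Q) := by rw [← mul_assoc, ← h3]
    rw [h7, pow_succ] at h6
    have h8 := (mul_dvd_mul_iff_left (pow_ne_zero j (by exact_mod_cast hr.ne_zero : (r : ℤ) ≠ 0))).1 h6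
    exact (pdvd_mul hr h8).resolve_left h4
  · have h1 : (r : ℤ) ∣ A * Q := by rw [hQ]; exact hy.mul_right _
    exact (pdvd_mul hr h1).resolve_left hrA

/-! ## Classes -/

/-- a class of `ω₀ + g x` modulo `r` is a class of `x` if `r ∤ g` -/
theorem K1.lin_class {m g : ℤ} (hco : IsCoprime m g) (w ρ : ℤ) :
    ∃ s : ℤ, ∀ x : ℤ, m ∣ (w + g * x) - ρ → m ∣ x - s := by
  obtain ⟨α, β, hαβ⟩ := hco
  refine ⟨β * (ρ - w), fun x hx => ?_⟩
  obtain ⟨k, hk⟩ := hx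
  refine ⟨α * x + β * k, ?_⟩
  have e1 : g * x = ρ - w + m * k := by linear_combination hk
  linear_combination (-x) * hαβ + β * e1

/-- the class of `ω` which is bad at the prime `r` of `gcd (a, 1 + y)` -/
theorem K1.bad_class (h : K1 S a' b c A a e f y φ l p) {N : ℕ} (hN : N.Prime)
    (hv : a + A + a' = N)
    (hnf : ∀ r : ℕ, r.Prime → (r : ℤ) ∣ e → (r : ℤ) ∣ b → ¬ (r : ℤ) ∣ A → ¬ (r : ℤ) ∣ f)
    (hP : ¬ (2 : ℤ) ∣ A → (2 : ℤ) ∣ e → (2 : ℤ) ∣ y)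
    {o : ℤ} (ho : o = 1 ∨ o = -1) {r : ℕ} (hr : r.Prime) (hra : (r : ℤ) ∣ a)
    (hy : (r : ℤ) ∣ 1 + y) :
    ∃ ρ : ℤ, ∀ ω : ℤ, (r : ℤ) ∣ o * (1 + ω) * e → (r : ℤ) ∣ 2 * b + a - o * (1 + ω) * f →
      (r : ℤ) ∣ ω - ρ := by
  have ho2 : o * o = 1 := by rcases ho with rfl | rfl <;> norm_num
  by_cases hre : (r : ℤ) ∣ e
  · have hrA : ¬ (r : ℤ) ∣ A := fun h1 =>
      h.not_a hN hv hr h1 (by rw [h.hc]; exact dvd_add h1 hre) hra
    by_cases hrf : (r : ℤ) ∣ f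
    · have hrb : ¬ (r : ℤ) ∣ b := fun h1 => hnf r hr hre h1 hrA hrf
      have hr2 : r ≠ 2 := by
        rintro rfl
        have h1 := hP (by simpa using hrA) (by simpa using hre)
        have h2 : (2 : ℤ) ∣ 1 + y := by simpa using hy
        omega
      refine ⟨0, fun ω _ h2 => ?_⟩
      exfalso
      have h3 : (r : ℤ) ∣ 2 * b := by
        have : 2 * b = (2 * b + a - o * (1 + ω) * f) - a + o * (1 + ω) * f := by ring
        rw [this]
        exact dvd_add (dvd_sub h2 hra) (hrf.mul_left _)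
      rcases pdvd_mul hr h3 with h4 | h4
      · have h5 : r ∣ 2 := by exact_mod_cast h4
        exact hr2 ((Nat.prime_dvd_prime_iff_eq hr Nat.prime_two).1 h5)
      · exact hrb h4
    · obtain ⟨α, β, hαβ⟩ := ((Nat.prime_iff_prime_int.1 hr).coprime_iff_not_dvd).2 hrf
      refine ⟨o * β * (2 * b + a) - 1, fun ω _ h2 => ?_⟩
      obtain ⟨k, hk⟩ := h2
      refine ⟨α * (1 + ω) - o * β * k, ?_⟩
      linear_combination (-(1 + ω)) * hαβ - o * β * hk - β * (1 + ω) * f * ho2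
  · refine ⟨-1, fun ω h1 _ => ?_⟩
    have h2 := (pdvd_mul hr h1).resolve_right hre
    have h3 : (r : ℤ) ∣ o * (o * (1 + ω)) := h2.mul_left _
    have e1 : o * (o * (1 + ω)) = ω - -1 := by linear_combination (1 + ω) * ho2
    rwa [e1] at h3

end Pool.Agent.H4G
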