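import Pool.Agent.H4G.Arith.K1F

/-!
# LINE B, `K = 1`: V-rigidity of the gap, parity (rows V1 - V6 of helper9's page; typed by helper29)

`γ j = gcd (y, 1 + j φ)`.  For an odd prime power `q ^ k ∣ b` and every `j`: `q ^ k ∣ γ j + y`
(V1).  If `r ∣ y`, `¬ r ∣ φ` then `γ j = r` for some `j` (V2), hence `q ^ k ∣ r - 1`.
-/

set_option autoImplicit false

namespace Pool.Agent.H4G

variable {S : PSt} {a' b c A a e f y φ : ℤ} {l p : Z2}

/-- two linear forms, one of them with a unit coefficient modulo `q`, `q` odd -/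
theorem exists_three {q : ℕ} (hq : q.Prime) (hq2 : q ≠ 2) {φ f D e : ℤ}
    (hD : (q : ℤ) ∣ e → ¬ (q : ℤ) ∣ D) :
    ∃ j : ℤ, ¬ (q : ℤ) ∣ 1 + j * φ ∧ (¬ (q : ℤ) ∣ e ∨ ¬ (q : ℤ) ∣ f + j * D) := by
  have hpi := Nat.prime_iff_prime_int.1 hq
  have n1 : ¬ (q : ℤ) ∣ 1 := prime_not_dvd_one hq
  have n2 : ¬ (q : ℤ) ∣ 2 := by
    intro h2
    have h3 : q ∣ 2 := by exact_mod_cast h2
    exact hq2 ((Nat.prime_dvd_prime_iff_eq hq Nat.prime_two).1 h3)
  by_cases he : (q : ℤ) ∣ e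
  · have hD' := hD he
    by_cases h0 : (q : ℤ) ∣ f
    · -- `0` is bad for the second: `1` and `2` are good for it
      have h1 : ¬ (q : ℤ) ∣ f + 1 * D := by
        intro h2
        rw [one_mul] at h2
        exact hD' ((dvd_add_right h0).1 h2)
      have h2 : ¬ (q : ℤ) ∣ f + 2 * D := by
        intro h3
        rcases hpi.dvd_or_dvd ((dvd_add_right h0).1 h3) with h4 | h4
        · exact n2 h4
        · exact hD' h4
      by_cases h3 : (q : ℤ) ∣ 1 + 1 * φ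
      · refine ⟨2, fun h4 => n1 ?_, Or.inr h2⟩
        have : (1 : ℤ) = 2 * (1 + 1 * φ) - (1 + 2 * φ) := by ring
        rw [this]
        exact dvd_sub (h3.mul_left _) h4
      · exact ⟨1, h3, Or.inr h1⟩
    · exact ⟨0, by simpa using n1, Or.inr (by simpa using h0)⟩
  · exact ⟨0, by simpa using n1, Or.inl he⟩

theorem K1.D0 (h : K1 S a' b c A a e f y φ l p) {N : ℕ} (hN : N.Prime) (hv : a + A + a' = N)
    {q : ℕ} (hq : q.Prime) (hb : (q : ℤ) ∣ b) (he : (q : ℤ) ∣ e) : ¬ (q : ℤ) ∣ a + b - A := by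
  have hpi := Nat.prime_iff_prime_int.1 hq
  intro h1
  by_cases hA : (q : ℤ) ∣ A
  · have hc : (q : ℤ) ∣ c := by rw [h.hc]; exact dvd_add hA he
    apply h.not_a hN hv hq hA hc
    have : a = (a + b - A) - b + A := by ring
    rw [this]
    exact dvd_add (dvd_sub h1 hb) hA
  · have h2 : (q : ℤ) ∣ a * A := by rw [h.aA]; exact he.mul_right _
    have h3 : (q : ℤ) ∣ a := (hpi.dvd_or_dvd h2).resolve_right hA
    apply hA
    have : A = a + b - (a + b - A) := by ring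
    rw [this]
    exact dvd_sub (dvd_add h3 hb) h1

/-- `q ^ k ∣ x m`, `¬ q ∣ m` -/
theorem pow_dvd_left {q : ℕ} (hq : q.Prime) {k : ℕ} {x m : ℤ} (h : (q : ℤ) ^ k ∣ x * m)
    (hm : ¬ (q : ℤ) ∣ m) : (q : ℤ) ^ k ∣ x :=
  (IsCoprime.pow_left (isCoprime_of_not_dvd hq hm)).dvd_of_dvd_mul_right h

/-- **(V1)** -/
theorem K1.visA (h : K1 S a' b c A a e f y φ l p) {N : ℕ} (hN : N.Prime) (hv : a + A + a' = N)
    {q : ℕ} (hq : q.Prime) (hq2 : q ≠ 2) {k : ℕ} (hk : (q : ℤ) ^ k ∣ b) (j : ℤ) :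
    (q : ℤ) ^ k ∣ (Int.gcd y (1 + j * φ) : ℤ) + y := by
  rcases Nat.eq_zero_or_pos k with hk0 | hk0
  · rw [hk0, pow_zero]; exact one_dvd _
  have hpi := Nat.prime_iff_prime_int.1 hq
  have hqb : (q : ℤ) ∣ b := (dvd_pow_self _ hk0.ne').trans hk
  have key : ∀ j : ℤ, (¬ (q : ℤ) ∣ e ∨ ¬ (q : ℤ) ∣ f + j * (a + b - A)) →
      (q : ℤ) ^ k ∣ (Int.gcd y (1 + j * φ) : ℤ) + y := by
    intro j hj
    obtain ⟨h1, h2⟩ := h.hrigV (j := j) rfl hq (Or.inl hq2) hk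
    rcases hj with hj | hj
    · exact pow_dvd_left hq ((dvd_mul_right _ _).trans h1) hj
    · exact pow_dvd_left hq ((dvd_mul_right _ _).trans h2) hj
  have hD := fun he => h.D0 hN hv hq hqb he
  have hy : ¬ (q : ℤ) ∣ y := by
    intro hy
    obtain ⟨j', h1, h2⟩ := exists_three (φ := φ) (f := f) hq hq2 hD
    have h3 := (dvd_pow_self (q : ℤ) hk0.ne').trans (key j' h2)
    have h4 : (q : ℤ) ∣ (Int.gcd y (1 + j' * φ) : ℤ) := (dvd_add_left hy).1 h3
    exact h1 (h4.trans (Int.gcd_dvd_right ..))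
  -- shift `j` by `y`
  have hg : ∀ t : ℤ, (Int.gcd y (1 + (j + y * t) * φ) : ℤ) = Int.gcd y (1 + j * φ) := by
    intro t
    have : 1 + (j + y * t) * φ = 1 + j * φ + y * (t * φ) := by ring
    rw [this, Int.gcd_add_mul_left_right]
  by_cases he : (q : ℤ) ∣ e
  · by_cases h0 : (q : ℤ) ∣ f + j * (a + b - A)
    · have h1 := key (j + y * 1) (Or.inr fun h2 => by
        have h3 : (q : ℤ) ∣ y * (a + b - A) := by
          have : y * (a + b - A) = (f + (j + y * 1) * (a + b - A)) - (f + j * (a + b - A)) := by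
            ring
          rw [this]
          exact dvd_sub h2 h0
        rcases hpi.dvd_or_dvd h3 with h4 | h4
        · exact hy h4
        · exact hD he h4)
      rwa [hg] at h1
    · exact key j (Or.inr h0)
  · exact key j (Or.inl he)

/-- (V1) for `j = 0` -/
theorem K1.visA0 (h : K1 S a' b c A a e f y φ l p) {N : ℕ} (hN : N.Prime) (hv : a + A + a' = N)
    {q : ℕ} (hq : q.Prime) (hq2 : q ≠ 2) {k : ℕ} (hk : (q : ℤ) ^ k ∣ b) :
    (q : ℤ) ^ k ∣ 1 + y := by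
  have h1 := h.visA hN hv hq hq2 hk 0
  have h2 : (Int.gcd y (1 + 0 * φ) : ℤ) = 1 := by
    rw [zero_mul, add_zero]; simp
  rwa [h2] at h1

/-- **(V2)**, the choice of `j` -/
theorem exists_gam {y φ : ℤ} (hy : y ≠ 0) {r : ℕ} (hr : r.Prime) (h1 : (r : ℤ) ∣ y)
    (h2 : ¬ (r : ℤ) ∣ φ) : ∃ j : ℤ, (Int.gcd y (1 + j * φ) : ℤ) = r := by
  classical
  have hcop : IsCoprime ((r : ℤ) ^ 2) φ := IsCoprime.pow_left (isCoprime_of_not_dvd hr h2)
  obtain ⟨s, t, hst⟩ := hcop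
  -- `t φ = 1 mod r ^ 2`
  obtain ⟨j, hj⟩ := crt_primes (insert r y.natAbs.primeFactors) (fun l hl => by
      rcases Finset.mem_insert.1 hl with h | h
      · rw [h]; exact hr
      · exact Nat.prime_of_mem_primeFactors h) (fun _ => 2)
    (fun l => if l = r then t * (r - 1) else 0)
  have e1 : (r : ℤ) ^ 2 ∣ 1 + j * φ - r := by
    have h3 := hj r (Finset.mem_insert_self _ _)
    simp only [if_true] at h3
    obtain ⟨m, hm⟩ := h3
    refine ⟨m * φ - s * (r - 1), ?_⟩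
    have : j = (r : ℤ) ^ 2 * m + t * (r - 1) := by linarith
    rw [this]
    linear_combination ((r : ℤ) - 1) * hst
  refine ⟨j, ?_⟩
  have hr0 : (r : ℤ) ≠ 0 := by exact_mod_cast hr.pos.ne'
  have d1 : (r : ℤ) ∣ 1 + j * φ := by
    have : 1 + j * φ = (1 + j * φ - r) + r := by ring
    rw [this]
    exact dvd_add ((dvd_pow_self _ two_ne_zero).trans e1) (dvd_refl _)
  have d2 : (r : ℤ) ∣ (Int.gcd y (1 + j * φ) : ℤ) := Int.dvd_coe_gcd h1 d1
  obtain ⟨g1, hg1⟩ := d2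
  have hgpos : 0 < (Int.gcd y (1 + j * φ) : ℤ) := by
    have : 0 < Int.gcd y (1 + j * φ) := Int.gcd_pos_of_ne_zero_left _ hy
    exact_mod_cast this
  have hu : g1.natAbs = 1 := by
    by_contra hne
    obtain ⟨q, hq, hd⟩ := Nat.exists_prime_and_dvd hne
    have hqc : (q : ℤ) ∣ g1 := Int.natCast_dvd.2 hd
    have hqg : (q : ℤ) ∣ (Int.gcd y (1 + j * φ) : ℤ) := by rw [hg1]; exact hqc.mul_left _
    have hqy : (q : ℤ) ∣ y := hqg.trans (Int.gcd_dvd_left ..)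
    have hqf : (q : ℤ) ∣ 1 + j * φ := hqg.trans (Int.gcd_dvd_right ..)
    by_cases hqr : q = r
    · -- `r ^ 2 ∣ 1 + j φ`
      rw [hqr] at hqc
      have h3 : (r : ℤ) * r ∣ 1 + j * φ := by
        refine (mul_dvd_mul_left (r : ℤ) hqc).trans ?_
        rw [← hg1]; exact Int.gcd_dvd_right ..
      rw [pow_two] at e1
      have h4 : (r : ℤ) * r ∣ r * 1 := by
        have : (r : ℤ) * 1 = (1 + j * φ) - (1 + j * φ - r) := by ring
        rw [this]
        exact dvd_sub h3 e1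
      exact prime_not_dvd_one hr ((mul_dvd_mul_iff_left hr0).1 h4)
    · have h3 := hj q (Finset.mem_insert_of_mem (by
        rw [Nat.mem_primeFactors]
        exact ⟨hq, Int.natCast_dvd.1 hqy, by simpa using hy⟩))
      simp only [if_neg hqr, sub_zero] at h3
      have h4 : (q : ℤ) ∣ j := (dvd_pow_self _ two_ne_zero).trans h3
      exact prime_not_dvd_one hq ((dvd_add_left (h4.mul_right φ)).1 hqf)
  have hg0 : 0 < g1 := by
    rw [hg1] at hgpos
    exact (mul_pos_iff_of_pos_left (by exact_mod_cast hr.pos)).1 hgpos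
  have : g1 = 1 := by omega
  rw [hg1, this, mul_one]

/-- **(V2)** -/
theorem K1.vmob (h : K1 S a' b c A a e f y φ l p) {N : ℕ} (hN : N.Prime) (hv : a + A + a' = N)
    {r : ℕ} (hr : r.Prime) (h1 : (r : ℤ) ∣ y) (h2 : ¬ (r : ℤ) ∣ φ) {q : ℕ} (hq : q.Prime)
    (hq2 : q ≠ 2) {k : ℕ} (hk : (q : ℤ) ^ k ∣ b) : (q : ℤ) ^ k ∣ r - 1 := by
  obtain ⟨j, hj⟩ := exists_gam h.y0.ne' hr h1 h2
  have h3 := h.visA hN hv hq hq2 hk j
  rw [hj] at h3
  have h4 := h.visA0 hN hv hq hq2 hk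
  have : (r : ℤ) - 1 = (r + y) - (1 + y) := by ring
  rw [this]
  exact dvd_sub h3 h4

/-! ## (V3) parity -/

/-- `N` is odd -/
theorem K1.N_odd (h : K1 S a' b c A a e f y φ l p) {N : ℕ} (hN : N.Prime) (hv : a + A + a' = N) :
    ¬ (2 : ℤ) ∣ a + A + a' := by
  have h1 := h.a0
  have h2 := h.A0
  have h3 := h.ext.ha'.1
  rw [hv]
  intro h4
  have h5 : 2 ∣ N := by exact_mod_cast h4
  have h6 := (Nat.prime_dvd_prime_iff_eq Nat.prime_two hN).1 h5
  rw [← h6] at hv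
  push_cast at hv
  omega

theorem pow_dvd_odd {k : ℕ} {x m : ℤ} (h : (2 : ℤ) ^ k ∣ x * m) (hm : ¬ (2 : ℤ) ∣ m) :
    (2 : ℤ) ^ k ∣ x := by
  have := pow_dvd_left (q := 2) (k := k) (x := x) (m := m) Nat.prime_two (by exact_mod_cast h)
    (by exact_mod_cast hm)
  exact_mod_cast this

/-- `b` is a power of two as soon as `γ = 2` occurs -/
theorem K1.b_two (h : K1 S a' b c A a e f y φ l p) {N : ℕ} (hN : N.Prime) (hv : a + A + a' = N)
    (h1 : (2 : ℤ) ∣ y) (h2 : ¬ (2 : ℤ) ∣ φ) {q : ℕ} (hq : q.Prime)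
    (hq2 : q ≠ 2) {k : ℕ} (hk : (q : ℤ) ^ k ∣ b) : (q : ℤ) ^ k ∣ 1 := by
  have := h.vmob hN hv (r := 2) Nat.prime_two (by exact_mod_cast h1) (by exact_mod_cast h2) hq hq2
    hk
  norm_num at this
  exact this

/-- if the odd prime powers in `b` are `1` then `b ∣ x` can be seen at the prime two -/
theorem dvd_of_two {b x : ℤ} (h : ∀ (q k : ℕ), q.Prime → q ≠ 2 → (q : ℤ) ^ k ∣ b → (q : ℤ) ^ k ∣ 1)
    (h2 : ∀ k : ℕ, (2 : ℤ) ^ k ∣ b → (2 : ℤ) ^ k ∣ x) : b ∣ x := by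
  refine dvd_of_prime_pow fun q k hq hk => ?_
  by_cases hq2 : q = 2
  · rw [hq2] at hk ⊢
    exact_mod_cast h2 k (by exact_mod_cast hk)
  · exact (h q k hq hq2 hk).trans (one_dvd _)

theorem K1.hrig2 (h : K1 S a' b c A a e f y φ l p) (hc : ¬ (2 : ℤ) ∣ c) {k : ℕ}
    (hk : (2 : ℤ) ^ k ∣ b) : (2 : ℤ) ^ k ∣ (1 + y) * e ∧ (2 : ℤ) ^ k ∣ (1 + y) * f := by
  have := h.hrig (q := 2) Nat.prime_two
    (h.alw_odd Nat.prime_two (Or.inr (by exact_mod_cast hc))) (k := k) (by exact_mod_cast hk)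
  exact_mod_cast this

/-- **(V3), P0** -/
theorem K1.P0 (h : K1 S a' b c A a e f y φ l p) {N : ℕ} (hN : N.Prime) (hv : a + A + a' = N)
    (hb3 : 3 ≤ b) (he3 : e < 3 * A) (hA : ¬ (2 : ℤ) ∣ A) (he : (2 : ℤ) ∣ e) :
    ¬ (2 : ℤ) ∣ b ∧ (2 : ℤ) ∣ y ∧ (2 : ℤ) ∣ φ ∧ (2 : ℤ) ∣ a ∧ ¬ (2 : ℤ) ∣ c := by
  have p2 := Int.prime_two
  have hNo := h.N_odd hN hv
  have ha : (2 : ℤ) ∣ a := by
    have h1 : (2 : ℤ) ∣ a * A := by rw [h.aA]; exact he.mul_right _
    exact (p2.dvd_or_dvd h1).resolve_right hA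
  have hc : ¬ (2 : ℤ) ∣ c := by rw [h.hc]; omega
  have hy : (2 : ℤ) ∣ y := by
    have h1 : (2 : ℤ) ∣ c * y := by rw [← h.hy]; omega
    exact (p2.dvd_or_dvd h1).resolve_left hc
  have hφ : (2 : ℤ) ∣ φ := by
    by_contra hφ
    have hodd := fun (q k : ℕ) (hq : q.Prime) (hq2 : q ≠ 2) (hk : (q : ℤ) ^ k ∣ b) =>
      h.b_two hN hv hy hφ hq hq2 hk
    have hbe : b ∣ e := by
      refine dvd_of_two hodd fun k hk => ?_
      have h1 := (h.hrig2 hc hk).1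
      rw [mul_comm] at h1
      exact pow_dvd_odd h1 (by omega)
    have hcop : IsCoprime A b := by
      refine isCoprime_of_prime fun q hq hqb hqA => ?_
      by_cases hq2 : q = 2
      · rw [hq2] at hqA; exact hA (by exact_mod_cast hqA)
      · exact prime_not_dvd_one hq (by simpa using hodd q 1 hq hq2 (by simpa using hqb))
    have hAe : A ∣ e := by
      have h1 : A ∣ e * b := by rw [← h.aA]; exact Dvd.intro_left _ rfl
      exact hcop.dvd_of_dvd_mul_right h1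
    obtain ⟨m, hm⟩ := hAe
    have h2 : b ∣ m := by
      rw [hm] at hbe
      exact hcop.symm.dvd_of_dvd_mul_left hbe
    have hA0 := h.A0
    have he0 := h.e0
    have hm0 : 0 < m := by
      rw [hm] at he0
      exact (mul_pos_iff_of_pos_left hA0).1 he0
    have h3 := Int.le_of_dvd hm0 h2
    have h4 : A * 3 ≤ A * m := mul_le_mul_of_nonneg_left (by omega) hA0.le
    omega
  refine ⟨fun hb => ?_, hy, hφ, ha, hc⟩
  -- `b` even: all `γ` are odd
  have key : ∀ j : ℤ, (2 : ℤ) ∣ f + j * (a + b - A) := by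
    intro j
    by_contra hj
    have hg : ¬ (2 : ℤ) ∣ (Int.gcd y (1 + j * φ) : ℤ) := by
      intro hg
      have h1 := hg.trans (Int.gcd_dvd_right (a := y) (b := 1 + j * φ))
      have h2 : (2 : ℤ) ∣ 1 := (dvd_add_left (hφ.mul_left j)).1 h1
      omega
    have h1 := h.hrigV (j := j) rfl (q := 2) Nat.prime_two (Or.inr (by
      intro h2
      rcases p2.dvd_or_dvd (by exact_mod_cast h2) with h3 | h3
      · exact hc h3
      · exact hg h3)) (k := 1) (by simpa using hb)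
    have h2 := (Dvd.intro _ rfl).trans h1.2
    rw [pow_one] at h2
    push_cast at h2
    rcases p2.dvd_or_dvd h2 with h3 | h3
    · exact hg ((dvd_add_left hy).1 h3)
    · exact hj h3
  have k0 := key 0
  have k1 := key 1
  omega

theorem K1.dz_w (h : K1 S a' b c A a e f y φ l p) {q : ℕ} (hq : q.Prime) (hA : ¬ (q : ℤ) ∣ A)
    (hc : (q : ℤ) ∣ c) : Dz q (S.v + l) := by
  have h1 : Dz q (A • (S.v + l)) := by rw [h.Aw]; exact Dz.of_dvd hc _
  exact (h1.mul_prime hq).resolve_left hA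

/-- **(V3), P1** -/
theorem K1.P1 (h : K1 S a' b c A a e f y φ l p) {N : ℕ} (hN : N.Prime) (hv : a + A + a' = N)
    (hb3 : 3 ≤ b) (hA : ¬ (2 : ℤ) ∣ A) (he : ¬ (2 : ℤ) ∣ e) :
    (2 : ℤ) ∣ c ∧ ¬ (2 : ℤ) ∣ y ∧ (2 : ℤ) ∣ a ∧ (2 : ℤ) ∣ b := by
  have p2 := Int.prime_two
  have hNo := h.N_odd hN hv
  have hc : (2 : ℤ) ∣ c := by rw [h.hc]; omega
  have ha' : (2 : ℤ) ∣ a' := by rw [h.hy]; exact hc.mul_right _
  have ha : (2 : ℤ) ∣ a := by omega
  have hb : (2 : ℤ) ∣ b := by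
    have h1 : (2 : ℤ) ∣ e * b := by rw [← h.aA]; exact ha.mul_right _
    exact (p2.dvd_or_dvd h1).resolve_left he
  refine ⟨hc, fun hy => ?_, ha, hb⟩
  have hw : Dz (2 : ℕ) (S.v + l) := h.dz_w Nat.prime_two (by exact_mod_cast hA)
    (by exact_mod_cast hc)
  have hφ : ¬ (2 : ℤ) ∣ φ := by
    intro hφ
    have hcon := h.ext.con
    rw [h.L'_eq, con1_lat] at hcon
    exact hcon 2 Nat.prime_two ⟨Dz.of_dvd (by exact_mod_cast hy) _,
      (Dz.of_dvd (by exact_mod_cast hφ) _).add hw⟩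
  have hodd := fun (q k : ℕ) (hq : q.Prime) (hq2 : q ≠ 2) (hk : (q : ℤ) ^ k ∣ b) =>
    h.b_two hN hv hy hφ hq hq2 hk
  have h1 := (h.ext.hrig_two h.ext.ok.seq h.ext.ha' h.ext.con h.ext.hb h.ad).1
  have e1 : 2 * cr (S.u + y • S.u) l = 2 * ((1 + y) * e) := by
    rw [cr_add_left, cr_smul_left, h.he]; ring
  rw [e1] at h1
  have h2 : b ∣ 2 := by
    refine dvd_of_two hodd fun k hk => ?_
    refine pow_dvd_odd (hk.trans h1) fun h3 => ?_
    rcases p2.dvd_or_dvd h3 with h4 | h4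
    · omega
    · exact he h4
  have := Int.le_of_dvd (by norm_num) h2
  omega

/-- **(V3), P2** -/
theorem K1.P2 (h : K1 S a' b c A a e f y φ l p) {N : ℕ} (hN : N.Prime) (hv : a + A + a' = N)
    (hA : (2 : ℤ) ∣ A) (he : ¬ (2 : ℤ) ∣ e) :
    ¬ (2 : ℤ) ∣ c ∧ ¬ (2 : ℤ) ∣ y ∧ (2 : ℤ) ∣ b ∧ (2 : ℤ) ∣ a := by
  have p2 := Int.prime_two
  have hNo := h.N_odd hN hv
  have hc : ¬ (2 : ℤ) ∣ c := by rw [h.hc]; omega
  have hb : (2 : ℤ) ∣ b := by
    have h1 : (2 : ℤ) ∣ e * b := by rw [← h.aA]; exact hA.mul_left _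
    exact (p2.dvd_or_dvd h1).resolve_left he
  have hy : ¬ (2 : ℤ) ∣ y := by
    have h1 := (h.hrig2 hc (k := 1) (by simpa using hb)).1
    rw [pow_one] at h1
    have h2 := (p2.dvd_or_dvd h1).resolve_right he
    omega
  have ha' : ¬ (2 : ℤ) ∣ a' := by
    rw [h.hy]
    intro h3
    rcases p2.dvd_or_dvd h3 with h4 | h4
    · exact hc h4
    · exact hy h4
  exact ⟨hc, hy, hb, by omega⟩

/-! ## (V4) visibility at the prime two -/

/-- H-rigidity in a V-twisted state with respect to `l`, with an allowed class given -/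
theorem K1.hrigV2 (h : K1 S a' b c A a e f y φ l p) {j : ℤ} {k : ℕ} (hk : (2 : ℤ) ^ k ∣ b)
    (hA : ¬ (2 : ℤ) ∣ A) (hy : ¬ (2 : ℤ) ∣ y) (he : ¬ (2 : ℤ) ∣ e) :
    (2 : ℤ) ^ k ∣ (Int.gcd y (1 + j * φ) : ℤ) + y := by
  have hc0 := h.c0
  have h3 := h.vst_c j
  obtain ⟨g, hg⟩ : ∃ g : ℤ, g = (Int.gcd y (1 + j * φ) : ℤ) := ⟨_, rfl⟩
  rw [← hg] at h3 ⊢
  have hseq := h.vseq j
  have haT : IsArea (vst S l p j).L' a' := h.ext.ha'
  have hcT : Con1 (vst S l p j).L' := h.ext.con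
  obtain ⟨l2, p2, l2', p2', ad⟩ := exists_Ad hseq.ok'
  have e1 : cr (vst S l p j).u p2' = c * g := ad.isC'.unique h3
  have e2 : cr l2' p2' = a' := ad.isArea'.unique haT
  -- `γ l' = y u`
  have e3 : (c * g) • l2' = (c * y) • (vst S l p j).u := by
    have k1 := cr_dep (vst S l p j).u l2' p2'
    rw [e2, ad.h4, cr_swap p2' (vst S l p j).u, e1, h.hy] at k1
    have : (c * g) • l2' = (c * y) • (vst S l p j).u -
        ((c * y) • (vst S l p j).u + (-(c * g)) • l2' + (0 : ℤ) • p2') := by module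
    rw [this, k1]; module
  have hal : Alw l2' p2' (vst S l p j).u 2 1 := by
    rintro ⟨h4, -⟩
    have h5 : Dz (2 : ℕ) (c • (y • (vst S l p j).u)) := by
      have : c • (y • (vst S l p j).u) = (c * g) • l2' := by rw [e3, mul_smul]
      rw [this]
      exact h4.smul _
    have h6 : g • l2' = y • (vst S l p j).u := by
      refine smul_inj hc0.ne' ?_
      rw [← mul_smul, ← mul_smul, e3]
    have h7 : Dz (2 : ℕ) (y • (vst S l p j).u) := by rw [← h6]; exact h4.smul _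
    have h8 := (h7.mul_prime Nat.prime_two).resolve_left (by exact_mod_cast hy)
    have h9 := h8.cr_left (vst S l p j).v
    rw [h.vst_A] at h9
    exact hA (by exact_mod_cast h9)
  obtain ⟨h4, h5⟩ := h.ext.hrigAt hseq haT hcT (h.vst_b j) ad (q := 2) Nat.prime_two
    ⟨1, by norm_num, hal⟩ (k := k) (by exact_mod_cast hk)
  have hl : l ∈ (vst S l p j).L := mem_lat.2 ⟨1, 0, by module⟩
  have h6 : ((2 : ℕ) : ℤ) ^ k ∣ cr ((vst S l p j).u + l2') l := by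
    rw [ad.hL] at hl
    obtain ⟨m, n, hmn⟩ := mem_lat.1 hl
    have : ∀ x : Z2, cr x l = m * cr x l2 + n * cr x p2 := by
      intro x
      rw [← hmn, cr_add_right, cr_smul_right, cr_smul_right]
    rw [this]
    exact dvd_add (h4.mul_left _) (h5.mul_left _)
  have f0 : cr (vst S l p j).u l = e := by
    show cr (S.u - j • (S.v + l)) l = e
    rw [cr_sub_left, cr_smul_left, cr_add_left, cr_self, cr_swap S.v l, h.lv, h.he]; ring
  have h7 := ad.cr_W l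
  rw [e1, e2, f0, h.hy] at h7
  have h8 : cr ((vst S l p j).u + l2') l * g = (g + y) * e := by
    refine mul_left_cancel₀ hc0.ne' ?_
    linear_combination h7
  refine pow_dvd_odd (m := e) ?_ he
  rw [← h8]
  exact (by exact_mod_cast h6 : (2 : ℤ) ^ k ∣ cr ((vst S l p j).u + l2') l).mul_right _

/-- **(V4)** -/
theorem K1.vis2 (h : K1 S a' b c A a e f y φ l p) {N : ℕ} (hN : N.Prime) (hv : a + A + a' = N)
    (hb3 : 3 ≤ b) (he3 : e < 3 * A) (h2 : ¬ ((2 : ℤ) ∣ A ∧ (2 : ℤ) ∣ e)) {k : ℕ}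
    (hk : (2 : ℤ) ^ k ∣ b) (j : ℤ) : (2 : ℤ) ^ k ∣ (Int.gcd y (1 + j * φ) : ℤ) + y := by
  have p2 := Int.prime_two
  by_cases hA : (2 : ℤ) ∣ A
  · have he : ¬ (2 : ℤ) ∣ e := fun he => h2 ⟨hA, he⟩
    obtain ⟨hc, hy, -, -⟩ := h.P2 hN hv hA he
    have hg : ¬ (2 : ℤ) ∣ (Int.gcd y (1 + j * φ) : ℤ) := fun hg =>
      hy (hg.trans (Int.gcd_dvd_left ..))
    have h1 := h.hrigV (j := j) rfl (q := 2) Nat.prime_two (Or.inr (by
      intro h2
      rcases p2.dvd_or_dvd (by exact_mod_cast h2) with h3 | h3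
      · exact hc h3
      · exact hg h3)) (k := k) (by exact_mod_cast hk)
    have h3 := (Dvd.intro _ rfl).trans h1.1
    exact pow_dvd_odd (by exact_mod_cast h3) he
  · by_cases he : (2 : ℤ) ∣ e
    · obtain ⟨hb, -⟩ := h.P0 hN hv hb3 he3 hA he
      rcases Nat.eq_zero_or_pos k with hk0 | hk0
      · rw [hk0, pow_zero]; exact one_dvd _
      · exact absurd ((dvd_pow_self _ hk0.ne').trans hk) hb
    · obtain ⟨-, hy, -, -⟩ := h.P1 hN hv hb3 hA he
      exact h.hrigV2 hk hA hy he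

/-- (V1) and (V4) together -/
theorem K1.vis (h : K1 S a' b c A a e f y φ l p) {N : ℕ} (hN : N.Prime) (hv : a + A + a' = N)
    (hb3 : 3 ≤ b) (he3 : e < 3 * A) {q : ℕ} (hq : q.Prime)
    (hq2 : ¬ (q = 2 ∧ (2 : ℤ) ∣ A ∧ (2 : ℤ) ∣ e)) {k : ℕ} (hk : (q : ℤ) ^ k ∣ b) (j : ℤ) :
    (q : ℤ) ^ k ∣ (Int.gcd y (1 + j * φ) : ℤ) + y := by
  by_cases h2 : q = 2
  · subst h2
    have := h.vis2 hN hv hb3 he3 (fun h3 => hq2 ⟨rfl, h3⟩) (k := k) (by exact_mod_cast hk) j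
    exact_mod_cast this
  · exact h.visA hN hv hq h2 hk j

/-- **(V6)** -/
theorem K1.b_dvd (h : K1 S a' b c A a e f y φ l p) {N : ℕ} (hN : N.Prime) (hv : a + A + a' = N)
    (hb3 : 3 ≤ b) (he3 : e < 3 * A) {q : ℕ} (hq : q.Prime)
    (hq2 : ¬ (q = 2 ∧ (2 : ℤ) ∣ A ∧ (2 : ℤ) ∣ e)) {k : ℕ} (hk : (q : ℤ) ^ k ∣ b) :
    (q : ℤ) ^ k ∣ 1 + y := by
  have h1 := h.vis hN hv hb3 he3 hq hq2 hk 0
  have h2 : (Int.gcd y (1 + 0 * φ) : ℤ) = 1 := by
    rw [zero_mul, add_zero]; simp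
  rwa [h2] at h1

/-- (V2) with the prime two -/
theorem K1.vmob2 (h : K1 S a' b c A a e f y φ l p) {N : ℕ} (hN : N.Prime) (hv : a + A + a' = N)
    (hb3 : 3 ≤ b) (he3 : e < 3 * A)
    {r : ℕ} (hr : r.Prime) (h1 : (r : ℤ) ∣ y) (h2 : ¬ (r : ℤ) ∣ φ) {q : ℕ} (hq : q.Prime)
    (hq2 : ¬ (q = 2 ∧ (2 : ℤ) ∣ A ∧ (2 : ℤ) ∣ e)) {k : ℕ} (hk : (q : ℤ) ^ k ∣ b) :
    (q : ℤ) ^ k ∣ r - 1 := by
  obtain ⟨j, hj⟩ := exists_gam h.y0.ne' hr h1 h2
  have h3 := h.vis hN hv hb3 he3 hq hq2 hk j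
  rw [hj] at h3
  have h4 := h.b_dvd hN hv hb3 he3 hq hq2 hk
  have : (r : ℤ) - 1 = (r + y) - (1 + y) := by ring
  rw [this]
  exact dvd_sub h3 h4

/-! ## (V5) -/

/-- **(V5), C3** -/
theorem K1.C3 (h : K1 S a' b c A a e f y φ l p) {N : ℕ} (hN : N.Prime) (hv : a + A + a' = N)
    (hb3 : 3 ≤ b) (he3 : e < 3 * A) (h2 : ¬ ((2 : ℤ) ∣ A ∧ (2 : ℤ) ∣ e))
    {r : ℕ} (hr : r.Prime) (h1 : (r : ℤ) ∣ y) (hφ : ¬ (r : ℤ) ∣ φ) : b ∣ r - 1 :=
  dvd_of_prime_pow fun _ _ hq hk =>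
    h.vmob2 hN hv hb3 he3 hr h1 hφ hq (fun h3 => h2 h3.2) hk

/-- **(V5), C1** -/
theorem K1.C1 (h : K1 S a' b c A a e f y φ l p) {N : ℕ} (hN : N.Prime) (hv : a + A + a' = N)
    (hb3 : 3 ≤ b) (he3 : e < 3 * A) (hy : (2 : ℤ) ∣ y) : (2 : ℤ) ∣ φ := by
  have p2 := Int.prime_two
  by_cases hA : (2 : ℤ) ∣ A
  · by_cases he : (2 : ℤ) ∣ e
    · by_contra hφ
      have hodd := fun (q k : ℕ) (hq : q.Prime) (hq2 : q ≠ 2) (hk : (q : ℤ) ^ k ∣ b) =>
        h.b_two hN hv hy hφ hq hq2 hk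
      have hc : (2 : ℤ) ∣ c := by rw [h.hc]; exact dvd_add hA he
      have ha : ¬ (2 : ℤ) ∣ a := by
        have := h.not_a hN hv Nat.prime_two (by exact_mod_cast hA) (by exact_mod_cast hc)
        exact_mod_cast this
      have h1 : 2 * b ∣ A := by
        have h2 : 2 * b ∣ A * a := by
          rw [mul_comm A a, h.aA]
          exact mul_dvd_mul_right he b
        have hcop : IsCoprime (2 * b) a := by
          refine isCoprime_of_prime fun q hq hqa hq2b => ?_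
          by_cases hq2 : q = 2
          · rw [hq2] at hqa; exact ha (by exact_mod_cast hqa)
          · rcases (Nat.prime_iff_prime_int.1 hq).dvd_or_dvd hq2b with h3 | h3
            · have h4 : q ∣ 2 := by exact_mod_cast h3
              exact hq2 ((Nat.prime_dvd_prime_iff_eq hq Nat.prime_two).1 h4)
            · exact prime_not_dvd_one hq (by simpa using hodd q 1 hq hq2 (by simpa using h3))
        exact hcop.dvd_of_dvd_mul_right h2
      have h3 := Int.le_of_dvd h.A0 h1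
      have h4 := h.Ab
      omega
    · exact absurd hy (h.P2 hN hv hA he).2.1
  · by_cases he : (2 : ℤ) ∣ e
    · exact (h.P0 hN hv hb3 he3 hA he).2.2.1
    · exact absurd hy (h.P1 hN hv hb3 hA he).2.1

/-- **(V5), C2** -/
theorem K1.C2 (h : K1 S a' b c A a e f y φ l p) {N : ℕ} (hN : N.Prime) (hv : a + A + a' = N)
    (hb3 : 3 ≤ b) (he3 : e < 3 * A) (hAb : A < b) {r : ℕ} (hr : r.Prime) (hy : (r : ℤ) ∣ y)
    (hA : (r : ℤ) ∣ A) (he : (r : ℤ) ∣ e) : (r : ℤ) ∣ φ := by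
  by_cases hr2 : r = 2
  · subst hr2
    have := h.C1 hN hv hb3 he3 (by exact_mod_cast hy)
    exact_mod_cast this
  by_contra hφ
  have hA0 := h.A0
  have hb0 := h.b0
  -- `A = d A₁`, `e = d e₁`
  obtain ⟨d, A1, e1, hd0, hcop, hA1, he1⟩ : ∃ d A1 e1 : ℤ, 0 < d ∧ IsCoprime A1 e1 ∧
      A = d * A1 ∧ e = d * e1 := by
    have hg : 0 < Int.gcd A e := Int.gcd_pos_of_ne_zero_left _ hA0.ne'
    obtain ⟨m, n, h1, h2, h3⟩ := Int.exists_gcd_one hg
    exact ⟨Int.gcd A e, m, n, by exact_mod_cast hg, Int.isCoprime_iff_gcd_eq_one.2 h1,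
      by rw [mul_comm]; exact h2, by rw [mul_comm]; exact h3⟩
  have hA10 : 0 < A1 := by
    rw [hA1] at hA0
    exact (mul_pos_iff_of_pos_left hd0).1 hA0
  have k1 : a * A1 = e1 * b := by
    refine mul_left_cancel₀ hd0.ne' ?_
    have := h.aA
    rw [hA1, he1] at this
    linear_combination this
  obtain ⟨B1, hB1⟩ : A1 ∣ b := hcop.dvd_of_dvd_mul_left (by rw [← k1]; exact Dvd.intro_left _ rfl)
  have hB10 : 0 < B1 := by
    rw [hB1] at hb0
    exact (mul_pos_iff_of_pos_left hA10).1 hb0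
  have k2 : a = e1 * B1 := by
    refine mul_right_cancel₀ hA10.ne' ?_
    rw [k1, hB1]; ring
  have k3 : d < B1 := by
    have : A1 * d < A1 * B1 := by rw [← hB1, mul_comm, ← hA1]; exact hAb
    exact lt_of_mul_lt_mul_left this hA10.le
  have hrd : (r : ℤ) ∣ d := by
    obtain ⟨s, t, hst⟩ := hcop
    have : d = s * A + t * e := by rw [hA1, he1]; linear_combination (-d) * hst
    rw [this]
    exact dvd_add (hA.mul_left _) (he.mul_left _)
  have k4 := Int.le_of_dvd hd0 hrd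
  have k5 : B1 ∣ (r : ℤ) - 1 := by
    refine dvd_of_prime_pow fun q k hq hk => ?_
    have hkb : (q : ℤ) ^ k ∣ b := by rw [hB1]; exact hk.mul_left _
    by_cases hq2 : q = 2
    · rcases Nat.eq_zero_or_pos k with hk0 | hk0
      · rw [hk0, pow_zero]; exact one_dvd _
      refine h.vmob2 hN hv hb3 he3 hr hy hφ hq ?_ hkb
      rintro ⟨-, h3, h4⟩
      have h5 : (q : ℤ) ∣ B1 := (dvd_pow_self _ hk0.ne').trans hk
      rw [hq2] at h5
      have hc : ((2 : ℕ) : ℤ) ∣ c := by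
        rw [h.hc]
        have : (2 : ℤ) ∣ A + e := dvd_add h3 h4
        exact_mod_cast this
      refine h.not_a hN hv Nat.prime_two (by exact_mod_cast h3) hc ?_
      rw [k2]; exact h5.mul_left _
    · exact h.vmob hN hv hr hy hφ hq hq2 hkb
  have hr1 : (1 : ℤ) < r := by exact_mod_cast hr.one_lt
  have k6 := Int.le_of_dvd (by omega) k5
  omega

end Pool.Agent.H4G
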