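import Pool.Agent.H4G.Arith.K1L1a
import Pool.Agent.H4G.Arith.K1Vis
import Pool.Agent.H4G.Arith.K1FD

/-!
# Level one exits for `K = 1`: number data, norming, selection of the exit (helper9)
-/

set_option autoImplicit false

namespace Pool.Agent.H4G

variable {S : PSt} {a' b c A a e f y φ : ℤ} {l p : Z2}

/-- the number data of a frame `K1` -/
structure KD (A b c a e y : ℤ) (d A1 B k g e2 Y : ℕ) : Prop where
  d0 : 0 < d
  A0 : 0 < A1
  B0 : 0 < B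
  k0 : 0 < k
  g0 : 0 < g
  e0 : 0 < e2
  Y0 : 0 < Y
  hA : A = d * A1
  he : e = d * (g * e2)
  hc : c = d * (A1 + g * e2)
  hb : b = A1 * B
  ha : a = g * e2 * B
  hy : y = g * Y
  hM : A1 * (B * k) = 1 + g * Y
  hB : d < B
  h3 : g * e2 < 3 * A1
  co1 : Nat.Coprime A1 (g * e2)
  co2 : Nat.Coprime d B
  co3 : Nat.Coprime d (g * e2)
  co4 : Nat.Coprime Y e2
  rad : ∀ r : ℕ, r.Prime → r ∣ d → r ∣ k

theorem K1.data (h : K1 S a' b c A a e f y φ l p) (hF : S.Full) {N : ℕ} (hN : N.Prime)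
    (hv : a + A + a' = N) (hb3 : 3 ≤ b) (he3 : e < 3 * A) (hAb : A < b) :
    ∃ d A1 B k g e2 Y : ℕ, KD A b c a e y d A1 B k g e2 Y := by
  have hA0 := h.A0
  have he0 := h.e0
  have hb0 := h.b0
  have hy0 := h.y0
  have ha0 := h.a0
  have hcop : ∀ r : ℕ, r.Prime → (r : ℤ) ∣ A → (r : ℤ) ∣ e → ¬ (r : ℤ) ∣ a := fun r hr h1 h2 =>
    h.not_a hN hv hr h1 (by rw [h.hc]; exact dvd_add h1 h2)
  have hfd : ∀ r : ℕ, r.Prime → (r : ℤ) ∣ A → (r : ℤ) ∣ e → ∀ k : ℕ, (r : ℤ) ^ k ∣ b →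
      (r : ℤ) ^ (k + 1) ∣ 1 + y := fun r hr h1 h2 k hk =>
    h.fd hF hN hv hr h1 (by rw [h.hc]; exact dvd_add h1 h2)
      (fun h3 => h.C2 hN hv hb3 he3 hAb hr h3 h1 h2) hk
  have hbd : ∀ r : ℕ, r.Prime → ∀ k : ℕ, (r : ℤ) ^ k ∣ b → (r : ℤ) ^ k ∣ 1 + y := by
    intro r hr k hk
    by_cases h1 : r = 2 ∧ (2 : ℤ) ∣ A ∧ (2 : ℤ) ∣ e
    · obtain ⟨rfl, h2, h3⟩ := h1
      exact (pow_dvd_pow _ (by omega)).trans (hfd 2 hr (by exact_mod_cast h2)
        (by exact_mod_cast h3) k hk)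
    · exact h.b_dvd hN hv hb3 he3 hr h1 hk
  obtain ⟨A, rfl⟩ := Int.eq_ofNat_of_zero_le hA0.le
  obtain ⟨e, rfl⟩ := Int.eq_ofNat_of_zero_le he0.le
  obtain ⟨b, rfl⟩ := Int.eq_ofNat_of_zero_le hb0.le
  obtain ⟨y, rfl⟩ := Int.eq_ofNat_of_zero_le hy0.le
  obtain ⟨a, rfl⟩ := Int.eq_ofNat_of_zero_le ha0.le
  have haA : a * A = e * b := by have := h.aA; exact_mod_cast this
  have hc := h.hc
  have hA0' : 0 < A := by exact_mod_cast hA0
  have he0' : 0 < e := by exact_mod_cast he0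
  have hb0' : 0 < b := by exact_mod_cast hb0
  have hy0' : 0 < y := by exact_mod_cast hy0
  have ha0' : 0 < a := by exact_mod_cast ha0
  -- `A = d A₁`, `e = d e₁`
  obtain ⟨d, A1, e1, hd0, hco, hA1, he1⟩ : ∃ d A1 e1 : ℕ, 0 < d ∧ Nat.Coprime A1 e1 ∧
      A = d * A1 ∧ e = d * e1 := by
    obtain ⟨m, n, h1, h2, h3⟩ := Nat.exists_coprime A e
    exact ⟨Nat.gcd A e, m, n, Nat.gcd_pos_of_pos_left _ hA0', h1, by rw [mul_comm]; exact h2,
      by rw [mul_comm]; exact h3⟩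
  have hA10 : 0 < A1 := Nat.pos_of_ne_zero (by rintro rfl; omega)
  have he10 : 0 < e1 := Nat.pos_of_ne_zero (by rintro rfl; omega)
  have k1 : a * A1 = e1 * b := by
    refine Nat.eq_of_mul_eq_mul_left hd0 ?_
    rw [hA1, he1] at haA
    linarith
  obtain ⟨B, hB⟩ : A1 ∣ b := hco.dvd_of_dvd_mul_left (Dvd.intro_left _ k1)
  have hB0 : 0 < B := Nat.pos_of_ne_zero (by rintro rfl; omega)
  have ha1 : a = e1 * B := by
    refine Nat.eq_of_mul_eq_mul_right hA10 ?_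
    rw [k1, hB]; ring
  -- `b ∣ 1 + y`
  obtain ⟨k, hk⟩ : b ∣ 1 + y := by
    have : (b : ℤ) ∣ 1 + (y : ℤ) := dvd_of_prime_pow fun r k hr hk => hbd r hr k hk
    exact_mod_cast this
  have hk0 : 0 < k := Nat.pos_of_ne_zero (by rintro rfl; omega)
  -- `e₁ = g e₂`, `y = g Y`
  obtain ⟨g, Y, e2, hg0, hco2, hY, he2⟩ : ∃ g Y e2 : ℕ, 0 < g ∧ Nat.Coprime Y e2 ∧
      y = g * Y ∧ e1 = g * e2 := by
    obtain ⟨m, n, h1, h2, h3⟩ := Nat.exists_coprime y e1
    exact ⟨Nat.gcd y e1, m, n, Nat.gcd_pos_of_pos_left _ hy0', h1, by rw [mul_comm]; exact h2,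
      by rw [mul_comm]; exact h3⟩
  have hY0 : 0 < Y := Nat.pos_of_ne_zero (by rintro rfl; omega)
  have he20 : 0 < e2 := Nat.pos_of_ne_zero (by rintro rfl; omega)
  have hnot : ∀ r : ℕ, r.Prime → r ∣ d → ¬ r ∣ e1 * B := by
    intro r hr hrd h1
    have h2 := hcop r hr (by rw [hA1]; push_cast; exact_mod_cast (hrd.mul_right _))
      (by rw [he1]; push_cast; exact_mod_cast (hrd.mul_right _))
    rw [ha1] at h2
    exact h2 (by exact_mod_cast h1)
  refine ⟨d, A1, B, k, g, e2, Y, hd0, hA10, hB0, hk0, hg0, he20, hY0, by rw [hA1]; push_cast; rfl,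
    by rw [he1, he2]; push_cast; rfl, ?_, by rw [hB]; push_cast; rfl,
    by rw [ha1, he2]; push_cast; rfl, by rw [hY]; push_cast; rfl, ?_, ?_, ?_, ?_, ?_, ?_, hco2, ?_⟩
  · rw [hc, hA1, he1, he2]; push_cast; ring
  · rw [← hY, hk, hB]; ring
  · have h1 : d * A1 < A1 * B := by rw [← hA1, ← hB]; exact_mod_cast hAb
    rw [mul_comm A1 B] at h1
    exact Nat.lt_of_mul_lt_mul_right h1
  · rw [← he2]
    have h1 : d * e1 < d * (3 * A1) := by
      have : e < 3 * A := by exact_mod_cast he3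
      rw [hA1, he1] at this
      linarith
    exact Nat.lt_of_mul_lt_mul_left h1
  · rw [← he2]; exact hco
  · refine Nat.Coprime.symm (Nat.coprime_of_dvd fun r hr h1 h2 => ?_)
    exact hnot r hr h2 (h1.mul_left _)
  · rw [← he2]
    refine Nat.Coprime.symm (Nat.coprime_of_dvd fun r hr h1 h2 => ?_)
    exact hnot r hr h2 (h1.mul_right _)
  · intro r hr hrd
    obtain ⟨j, m, h3, h4⟩ := exists_val hr (by exact_mod_cast hb0' : (0 : ℤ) < (b : ℤ))
    have h5 := hfd r hr (by rw [hA1]; push_cast; exact_mod_cast (hrd.mul_right _))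
      (by rw [he1]; push_cast; exact_mod_cast (hrd.mul_right _)) j
      (by conv_rhs => rw [h3]
          exact dvd_mul_right _ _)
    have h6 : (1 : ℤ) + y = (r : ℤ) ^ j * (m * k) := by
      have : (1 : ℤ) + y = b * k := by exact_mod_cast hk
      rw [this, ← mul_assoc, ← h3]
    rw [h6, pow_succ] at h5
    have h7 := (mul_dvd_mul_iff_left (pow_ne_zero j (by exact_mod_cast hr.ne_zero : (r : ℤ) ≠ 0))).1 h5
    exact_mod_cast (pdvd_mul hr h7).resolve_left h4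

end Pool.Agent.H4G
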