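import Pool.Agent.H4G.Arith.K1L1b

/-!
# Level one exits for `K = 1`: norming and selection of the exit (helper9)
-/

set_option autoImplicit false

namespace Pool.Agent.H4G

variable {S : PSt} {a' b c A a e f y φ : ℤ} {l p : Z2}

/-- a V-twist without the two local obstructions -/
theorem K1.norm (h : K1 S a' b c A a e f y φ l p) {N : ℕ} (hN : N.Prime)
    (hv : a + A + a' = N) (hb3 : 3 ≤ b) (he3 : e < 3 * A)
    (hI0 : ¬ (2 : ℤ) ∣ A → (4 : ℤ) ∣ e → (2 : ℤ) ∣ f → ¬ (4 : ℤ) ∣ f → ¬ (4 : ℤ) ∣ b - A) :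
    ∃ (S1 : PSt) (f1 φ1 : ℤ) (p1 : Z2), SEq S S1 ∧ K1 S1 a' b c A a e f1 y φ1 l p1 ∧
      (∀ r : ℕ, r.Prime → (r : ℤ) ∣ e → (r : ℤ) ∣ b → ¬ (r : ℤ) ∣ A → ¬ (r : ℤ) ∣ f1) ∧
      (¬ (2 : ℤ) ∣ A → (4 : ℤ) ∣ e → (2 : ℤ) ∣ f1 → (4 : ℤ) ∣ f1) := by
  have p2 := Int.prime_two
  have hy0 := h.y0
  have he0 := h.e0
  -- the parity of `j`
  obtain ⟨j2, hj2⟩ : ∃ j2 : ℤ, ∀ j : ℤ, (2 : ℤ) ∣ j - j2 → ¬ (2 : ℤ) ∣ A → (4 : ℤ) ∣ e →
      (2 : ℤ) ∣ f + j * (a + b - A) → (4 : ℤ) ∣ f + j * (a + b - A) := by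
    by_cases hc : ¬ (2 : ℤ) ∣ A ∧ (4 : ℤ) ∣ e
    · obtain ⟨hA, he⟩ := hc
      obtain ⟨hb, -, -, ha, -⟩ := h.P0 hN hv hb3 he3 hA ((by norm_num : (2 : ℤ) ∣ 4).trans he)
      have ha4 : (4 : ℤ) ∣ a := by
        have : ((2 : ℕ) : ℤ) ^ 2 ∣ A * a := by
          have e3 : A * a = e * b := by rw [mul_comm, h.aA]
          rw [e3]; exact Dvd.dvd.mul_right (by simpa using he) _
        simpa using ppow_cancel Nat.prime_two (by simpa using hA) this
      by_cases hf : (2 : ℤ) ∣ f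
      · by_cases hf4 : (4 : ℤ) ∣ f
        · refine ⟨0, fun j hj _ _ _ => ?_⟩
          have h1 : (2 : ℤ) ∣ j := by simpa using hj
          have h2 : (2 : ℤ) ∣ a + b - A := by omega
          have := mul_dvd_mul h1 h2
          exact dvd_add hf4 (by simpa using this)
        · have h4 := hI0 hA he hf hf4
          refine ⟨1, fun j hj _ _ _ => ?_⟩
          obtain ⟨j', rfl⟩ : ∃ j', j = 2 * j' + 1 := by
            obtain ⟨j', hj'⟩ := hj
            exact ⟨j', by linarith⟩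
          obtain ⟨D, hD⟩ : ∃ D, a + b - A = 2 * D := by
            obtain ⟨D, hD⟩ : (2 : ℤ) ∣ a + b - A := by omega
            exact ⟨D, hD⟩
          obtain ⟨a4, ha4⟩ := ha4
          obtain ⟨f2, hf2⟩ := hf
          have h5 : f + (2 * j' + 1) * (a + b - A) = 2 * (f2 + D) + 4 * (j' * D) := by
            rw [hD, hf2]; ring
          rw [h5]
          refine dvd_add ?_ (dvd_mul_right _ _)
          omega
      · refine ⟨0, fun j _ _ _ h1 => ?_⟩
        exfalso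
        apply hf
        have h2 : (2 : ℤ) ∣ a + b - A := by omega
        have : f = (f + j * (a + b - A)) - j * (a + b - A) := by ring
        rw [this]
        exact dvd_sub h1 (h2.mul_left _)
    · exact ⟨0, fun j _ h1 h2 => absurd ⟨h1, h2⟩ hc⟩
  obtain ⟨j, hj⟩ := crt_exists (2 * (e * y)) (by positivity)
    (fun r j => ((r : ℤ) ∣ y → r ≠ 2 → (r : ℤ) ∣ j) ∧
      ((r : ℤ) ∣ e → (r : ℤ) ∣ b → ¬ (r : ℤ) ∣ A → ¬ (r : ℤ) ∣ f + j * (a + b - A)) ∧
      (r = 2 → (2 : ℤ) ∣ j - j2))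
    (by
      intro r hr _
      by_cases hr2 : r = 2
      · subst hr2
        refine ⟨j2, fun _ h1 => absurd rfl h1, fun h1 h2 h3 => ?_, fun _ => by simp⟩
        exact absurd (by exact_mod_cast h2) (h.P0 hN hv hb3 he3 (by exact_mod_cast h3)
          (by exact_mod_cast h1)).1
      · by_cases hrb : (r : ℤ) ∣ b ∧ (r : ℤ) ∣ e ∧ ¬ (r : ℤ) ∣ A
        · obtain ⟨hrb, hre, hrA⟩ := hrb
          have h1 : (r : ℤ) ∣ 1 + y := by
            have := h.b_dvd hN hv hb3 he3 hr (k := 1) (fun h3 => hr2 h3.1) (by simpa using hrb)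
            simpa using this
          have h2 : ¬ (r : ℤ) ∣ y := fun h2 => prime_not_dvd_one hr (by
            have := dvd_sub h1 h2
            simpa using this)
          have h3 : (r : ℤ) ∣ a := by
            have : (r : ℤ) ∣ a * A := by rw [h.aA]; exact hre.mul_right _
            exact (pdvd_mul hr this).resolve_right hrA
          have h4 : ¬ (r : ℤ) ∣ a + b - A := fun h4 => hrA (by
            have : A = (a + b) - (a + b - A) := by ring
            rw [this]; exact dvd_sub (dvd_add h3 hrb) h4)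
          by_cases h5 : (r : ℤ) ∣ f
          · refine ⟨1, fun h6 => absurd h6 h2, fun _ _ _ h7 => h4 ?_, fun h6 => absurd h6 hr2⟩
            have := dvd_sub h7 h5
            simpa using this
          · exact ⟨0, fun h6 => absurd h6 h2, fun _ _ _ h7 => h5 (by simpa using h7),
              fun h6 => absurd h6 hr2⟩
        · exact ⟨0, fun _ _ => by simp, fun h1 h2 h3 => absurd ⟨h2, h1, h3⟩ hrb,
            fun h6 => absurd h6 hr2⟩)
    (by
      intro r hr _ j j' h1 h2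
      refine ⟨fun h3 h4 => ?_, fun h3 h4 h5 h6 => h2.2.1 h3 h4 h5 ?_, fun h3 => ?_⟩
      · have := dvd_add h1 (h2.1 h3 h4)
        simpa using this
      · have : f + j * (a + b - A) = (f + j' * (a + b - A)) - (j' - j) * (a + b - A) := by ring
        rw [this]
        exact dvd_sub h6 (h1.mul_right _)
      · have h4 := h2.2.2 h3
        have h5 : (2 : ℤ) ∣ j' - j := by rw [h3] at h1; exact_mod_cast h1
        have : j' - j2 = (j' - j) + (j - j2) := by ring
        rw [this]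
        exact dvd_add h5 h4)
  have hjy : IsCoprime y (1 + j * φ) := by
    refine isCoprime_of_prime fun r hr h1 h2 => ?_
    by_cases hr2 : r = 2
    · subst hr2
      have h3 := h.C1 hN hv hb3 he3 (by exact_mod_cast h2)
      have h4 : (2 : ℤ) ∣ 1 + j * φ := by exact_mod_cast h1
      have h5 : (2 : ℤ) ∣ j * φ := h3.mul_left _
      omega
    · have h3 := (hj r hr ((h2.mul_left _).mul_left _)).1 h2 hr2
      refine prime_not_dvd_one hr ?_
      have : (1 : ℤ) = (1 + j * φ) - j * φ := by ring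
      rw [this]
      exact dvd_sub h1 (h3.mul_right _)
  obtain ⟨φ2, h2⟩ := h.vtw hjy
  refine ⟨_, _, φ2, _, h.vseq j, h2, fun r hr h3 => ?_, hj2 j ?_⟩
  · exact (hj r hr ((h3.mul_right _).mul_left _)).2.1 h3
  · exact (hj 2 Nat.prime_two (by exact_mod_cast dvd_mul_right _ _)).2.2 rfl

/-- the normed frame with its number data -/
structure K1N (S : PSt) (a' b c A a e f y φ : ℤ) (l p : Z2) (N : ℕ) (d A1 B k g e2 Y : ℕ) :
    Prop where
  h : K1 S a' b c A a e f y φ l p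
  hN : N.Prime
  hv : a + A + a' = N
  hb3 : 3 ≤ b
  he3 : e < 3 * A
  hAb : A < b
  D : KD A b c a e y d A1 B k g e2 Y
  hnf : ∀ r : ℕ, r.Prime → (r : ℤ) ∣ e → (r : ℤ) ∣ b → ¬ (r : ℤ) ∣ A → ¬ (r : ℤ) ∣ f
  hI : ¬ (2 : ℤ) ∣ A → (4 : ℤ) ∣ e → (2 : ℤ) ∣ f → (4 : ℤ) ∣ f

/-- the number `Q` -/
def kQ (A1 B k g e2 : ℕ) : ℤ := B * k * (A1 + g * e2)

theorem KD.hQ {d A1 B k g e2 Y : ℕ} (D : KD A b c a e y d A1 B k g e2 Y) :
    A * kQ A1 B k g e2 = (1 + y) * c := by
  have h1 : (A1 : ℤ) * (B * k) = 1 + g * Y := by exact_mod_cast D.hM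
  rw [kQ, D.hA, D.hy, D.hc]
  linear_combination (d * (A1 + g * e2) : ℤ) * h1

theorem KD.oneQ {d A1 B k g e2 Y : ℕ} (D : KD A b c a e y d A1 B k g e2 Y) :
    1 - kQ A1 B k g e2 = -(g * (Y + B * k * e2)) := by
  have h1 : (A1 : ℤ) * (B * k) = 1 + g * Y := by exact_mod_cast D.hM
  rw [kQ]
  linear_combination -h1

/-- `b ∣ 1 + y` -/
theorem KD.b_dvd {d A1 B k g e2 Y : ℕ} (D : KD A b c a e y d A1 B k g e2 Y) : b ∣ 1 + y := by
  have h1 : (A1 : ℤ) * (B * k) = 1 + g * Y := by exact_mod_cast D.hM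
  rw [D.hb, D.hy]
  exact ⟨k, by linear_combination -h1⟩

variable {N d A1 B k g e2 Y : ℕ}

/-- a prime of `e` which does not divide `A`: `Q = 1 + y` modulo this prime -/
theorem KD.Q_mod (D : KD A b c a e y d A1 B k g e2 Y) {r : ℕ} (hr : r.Prime)
    (he : (r : ℤ) ∣ e) (hA : ¬ (r : ℤ) ∣ A) : (r : ℤ) ∣ kQ A1 B k g e2 - (1 + y) := by
  have h1 : (A1 : ℤ) * (B * k) = 1 + g * Y := by exact_mod_cast D.hM
  rw [D.he] at he
  have h2 : (r : ℤ) ∣ g * e2 := (pdvd_mul hr he).resolve_left fun h2 => hA (by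
    rw [D.hA]; exact h2.mul_right _)
  have h3 : kQ A1 B k g e2 - (1 + y) = (g * e2) * (B * k) := by
    rw [kQ, D.hy]
    linear_combination h1
  rw [h3]
  exact h2.mul_right _

theorem K1N.hb (H : K1N S a' b c A a e f y φ l p N d A1 B k g e2 Y) :
    ∀ r : ℕ, r.Prime → (r : ℤ) ∣ a → (r : ℤ) ∣ b → (r : ℤ) ∣ 1 + y :=
  fun _ _ _ h2 => h2.trans H.D.b_dvd

/-- the exit for an admissible `ω` -/
theorem K1N.sel (H : K1N S a' b c A a e f y φ l p N d A1 B k g e2 Y)
    {o ω m : ℤ} (ho : o = 1 ∨ o = -1) (hω : ω = o * (φ + g * m)) (h1 : c < A * ω)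
    (h2 : A * ω ≤ c * y)
    (hP : ∀ r : ℕ, r.Prime → (r : ℤ) ∣ a → (r : ℤ) ∣ 1 + y →
      ¬ ((r : ℤ) ∣ o * (1 + ω) * e ∧ (r : ℤ) ∣ 2 * b + a - o * (1 + ω) * f)) :
    ∃ t i κ W : ℤ, ω = o * (t * y + φ + i * (1 - kQ A1 B k g e2)) ∧
      W = o * (1 + ω) + i * (1 + y + kQ A1 B k g e2) ∧
      SEq S ⟨S.L, S.u, xv S l 1 W, xL S l y 1 (φ + t + i)⟩ ∧
      IsC (xL S l y 1 (φ + t + i)) S.u c ∧ IsC S.L (xv S l 1 W) κ ∧ κ ∣ A + 1 * c ∧
      (∀ r : ℕ, r.Prime → (r : ℤ) ∣ κ → (r : ℤ) ∣ a → ∀ D : Z2,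
        κ • D = (a + (A + 1 * c)) • xv S l 1 W → ¬ Dz r D) := by
  obtain ⟨h, hN, hv, hb3, he3, hAb, D, hnf, hI⟩ := H
  have H : K1N S a' b c A a e f y φ l p N d A1 B k g e2 Y :=
    ⟨h, hN, hv, hb3, he3, hAb, D, hnf, hI⟩
  have p2 := Int.prime_two
  have he0 := h.e0
  have ho2 : o * o = 1 := by rcases ho with rfl | rfl <;> norm_num
  have hM : (A1 : ℤ) * (B * k) = 1 + g * Y := by exact_mod_cast D.hM
  set Q := kQ A1 B k g e2 with hQdef
  have hQ := D.hQ
  rw [← hQdef] at hQ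
  have hQ1 := D.oneQ
  rw [← hQdef] at hQ1
  set N0 : ℤ := Y + B * k * e2 with hN0
  have hco : IsCoprime (Y : ℤ) N0 := by
    have g1 : IsCoprime (Y : ℤ) (B * k) := ⟨-g, A1, by linear_combination hM⟩
    have g2 : IsCoprime (Y : ℤ) (e2 : ℤ) := Nat.isCoprime_iff_coprime.2 D.co4
    have g3 := (g1.mul_right g2).add_mul_left_right 1
    have e1 : (B : ℤ) * k * e2 + Y * 1 = N0 := by rw [hN0]; ring
    rwa [e1] at g3
  obtain ⟨α, β, hαβ⟩ := hco
  -- the selection of `x`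
  obtain ⟨x, hx⟩ := crt_exists e he0.ne'
    (fun r x => r ≠ 2 → ¬ (r : ℤ) ∣ A → ¬ (r : ℤ) ∣ 1 + y →
      ¬ (r : ℤ) ∣ 2 * b + a - (o * (1 + ω) + (-(m * β) + Y * x) * (1 + y + Q)) * f)
    (by
      intro r hr hre
      by_cases hc : r ≠ 2 ∧ ¬ (r : ℤ) ∣ A ∧ ¬ (r : ℤ) ∣ 1 + y
      · obtain ⟨hr2, hrA, hry⟩ := hc
        have hra : (r : ℤ) ∣ a := by
          have : (r : ℤ) ∣ a * A := by rw [h.aA]; exact hre.mul_right _
          exact (pdvd_mul hr this).resolve_right hrA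
        by_cases hrf : (r : ℤ) ∣ f
        · refine ⟨0, fun _ _ _ h3 => ?_⟩
          have h4 : (r : ℤ) ∣ 2 * b := by
            have : 2 * b = (2 * b + a - (o * (1 + ω) + (-(m * β) + Y * 0) * (1 + y + Q)) * f) - a +
              (o * (1 + ω) + (-(m * β) + Y * 0) * (1 + y + Q)) * f := by ring
            rw [this]
            exact dvd_add (dvd_sub h3 hra) (hrf.mul_left _)
          rcases pdvd_mul hr h4 with h5 | h5
          · have h5 : r ∣ 2 := by exact_mod_cast h5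
            exact hr2 ((Nat.prime_dvd_prime_iff_eq hr Nat.prime_two).1 h5)
          · exact hry (h5.trans D.b_dvd)
        · have hyr : ¬ (r : ℤ) ∣ y := fun h3 => hrf (h.ft hr hre hrA h3)
          have hYr : ¬ (r : ℤ) ∣ Y := fun h3 => hyr (by rw [D.hy]; exact h3.mul_left _)
          have hQr : ¬ (r : ℤ) ∣ 1 + y + Q := by
            intro h3
            have h4 := D.Q_mod hr hre hrA
            rw [← hQdef] at h4
            have h5 : (r : ℤ) ∣ 2 * (1 + y) := by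
              have : 2 * (1 + y) = (1 + y + Q) - (Q - (1 + y)) := by ring
              rw [this]; exact dvd_sub h3 h4
            rcases pdvd_mul hr h5 with h5 | h5
            · have h5 : r ∣ 2 := by exact_mod_cast h5
              exact hr2 ((Nat.prime_dvd_prime_iff_eq hr Nat.prime_two).1 h5)
            · exact hry h5
          have hco : ¬ (r : ℤ) ∣ Y * (1 + y + Q) * f := by
            intro h3
            rcases pdvd_mul hr h3 with h3 | h3
            · rcases pdvd_mul hr h3 with h3 | h3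
              · exact hYr h3
              · exact hQr h3
            · exact hrf h3
          by_cases h4 : (r : ℤ) ∣ 2 * b + a - (o * (1 + ω) + (-(m * β) + Y * 0) * (1 + y + Q)) * f
          · refine ⟨1, fun _ _ _ h5 => hco ?_⟩
            have := dvd_sub h4 h5
            ring_nf at this ⊢
            exact this
          · exact ⟨0, fun _ _ _ => h4⟩
      · exact ⟨0, fun h3 h4 h5 => absurd ⟨h3, h4, h5⟩ hc⟩)
    (by
      intro r hr _ x x' h3 h4 h5 h6 h7 h8
      refine h4 h5 h6 h7 ?_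
      have : 2 * b + a - (o * (1 + ω) + (-(m * β) + Y * x) * (1 + y + Q)) * f =
        (2 * b + a - (o * (1 + ω) + (-(m * β) + Y * x') * (1 + y + Q)) * f) +
        (x' - x) * (Y * (1 + y + Q) * f) := by ring
      rw [this]
      exact dvd_add h8 (h3.mul_right _))
  have hω2 : ω = o * ((m * α + N0 * x) * y + φ + (-(m * β) + Y * x) * (1 - Q)) := by
    rw [hω, D.hy, hQ1]
    linear_combination (-(o * m * g)) * hαβ
  obtain ⟨k1, k2⟩ := h.exit (n := 1) (o := o) (t := m * α + N0 * x) (i := -(m * β) + Y * x)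
    (ω := ω) (Q := Q) (W := o * (1 + ω) + (-(m * β) + Y * x) * (1 + y + Q)) one_pos ho
    isCoprime_one_right hQ (by rw [hω2]; ring) (by linarith) h2
    (by linear_combination o * hω2 + ((m * α + N0 * x) * y + φ + (-(m * β) + Y * x) * (1 - Q)) * ho2)
  obtain ⟨κ, hκ⟩ := K1.exists_kap k1
  obtain ⟨k3, k4⟩ := h.good1 hN hv H.hb hκ
    (by
      intro hA he
      obtain ⟨hb, hy, hφ, ha, hc⟩ := h.P0 hN hv hb3 he3 hA he
      have hA' : ¬ ((2 : ℕ) : ℤ) ∣ A := by exact_mod_cast hA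
      have h3 := D.Q_mod Nat.prime_two (by exact_mod_cast he) hA'
      rw [← hQdef] at h3
      have h4 : (2 : ℤ) ∣ Q - (1 + y) := by exact_mod_cast h3
      obtain ⟨q, hq⟩ : (2 : ℤ) ∣ 1 + y + Q := by
        have : 1 + y + Q = 2 * (1 + y) + (Q - (1 + y)) := by ring
        rw [this]; exact dvd_add (dvd_mul_right _ _) h4
      have h5 : (2 : ℤ) ∣ ω := by
        rw [hω2]
        refine Dvd.dvd.mul_left (dvd_add (dvd_add (hy.mul_left _) hφ) ?_) _
        have : (2 : ℤ) ∣ 1 - Q := by omega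
        exact this.mul_left _
      rw [hq]
      intro h6
      have h7 : (2 : ℤ) ∣ o * (1 + ω) := by
        have := dvd_sub h6 ((dvd_mul_right (2 : ℤ) q).mul_left (-(m * β) + Y * x))
        simpa using this
      rcases ho with rfl | rfl
      · rw [one_mul] at h7; omega
      · rw [neg_one_mul] at h7; omega) hI
    (by
      intro r hr hra hry h3
      refine hP r hr hra hry ?_
      have hrQ : (r : ℤ) ∣ Q := h.Q_dvd hN hv (fun r _ _ k hk => hk.trans D.b_dvd) hQ hr hra hry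
      have h4 : (r : ℤ) ∣ (-(m * β) + Y * x) * (1 + y + Q) := (dvd_add hry hrQ).mul_left _
      constructor
      · have : o * (1 + ω) * e = (o * (1 + ω) + (-(m * β) + Y * x) * (1 + y + Q)) * e -
          ((-(m * β) + Y * x) * (1 + y + Q)) * e := by ring
        rw [this]
        exact dvd_sub h3.1 (h4.mul_right _)
      · have : 2 * b + a - o * (1 + ω) * f =
          (2 * b + a - (o * (1 + ω) + (-(m * β) + Y * x) * (1 + y + Q)) * f) +
          ((-(m * β) + Y * x) * (1 + y + Q)) * f := by ring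
        rw [this]
        exact dvd_add h3.2 (h4.mul_right _))
    (fun r hr hr2 hre hrA hry => hx r hr hre hr2 hrA hry)
  refine ⟨m * α + N0 * x, -(m * β) + Y * x, κ, _, hω2, rfl, ?_, ?_, hκ, k3, k4⟩
  · simpa using k1
  · simpa using k2

/-- the class of `x` which is bad at the prime `r` of `gcd (a, 1 + y)` -/
theorem K1N.pclass (H : K1N S a' b c A a e f y φ l p N d A1 B k g e2 Y)
    {o : ℤ} (ho : o = 1 ∨ o = -1) {r : ℕ} (hr : r.Prime) (hra : (r : ℤ) ∣ a)
    (hy : (r : ℤ) ∣ 1 + y) (w : ℤ) :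
    ∃ s : ℤ, ∀ x : ℤ, (r : ℤ) ∣ o * (1 + (w + g * x)) * e →
      (r : ℤ) ∣ 2 * b + a - o * (1 + (w + g * x)) * f → (r : ℤ) ∣ x - s := by
  obtain ⟨ρ, hρ⟩ := H.h.bad_class H.hN H.hv H.hnf
    (fun h1 h2 => (H.h.P0 H.hN H.hv H.hb3 H.he3 h1 h2).2.1) ho hr hra hy
  have hco : IsCoprime (r : ℤ) (g : ℤ) := by
    refine isCoprime_of_prime fun q hq h1 h2 => ?_
    have h3 : q ∣ r := by exact_mod_cast h2
    have h4 := (Nat.prime_dvd_prime_iff_eq hq hr).1 h3
    subst h4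
    have h5 : (q : ℤ) ∣ y := by rw [H.D.hy]; exact h1.mul_right _
    exact prime_not_dvd_one hq (by
      have := dvd_sub hy h5
      simpa using this)
  obtain ⟨s, hs⟩ := K1.lin_class hco w ρ
  exact ⟨s, fun x h1 h2 => hs x (hρ _ h1 h2)⟩

end Pool.Agent.H4G
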