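import Pool.Agent.H4G.Arith.K1NumO
set_option autoImplicit false

/-!
# Line B, K = 1: count T1 (level 1, d = 1) (helper24, statement of helper9 with one more exception)
-/

namespace Pool.Agent.H4G

open Finset

/-- the exceptions of T1 -/
def K1.exc1 (A B k g e Y : ℕ) : Prop :=
  (k = 1 ∧ e = 1 ∧ Y = 1 ∧ (B = 2 ∨ B = 3)) ∨ (A = 1 ∧ B = 2 ∧ k = 1 ∧ g = 1 ∧ e = 2) ∨
    (A = 1 ∧ B = 3 ∧ k = 1 ∧ g = 1 ∧ e = 1) ∨ (A = 2 ∧ B = 2 ∧ k = 1 ∧ g = 1 ∧ e = 1) ∨
    (A = 1 ∧ B = 3 ∧ k = 1 ∧ g = 1 ∧ e = 2)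

instance (A B k g e Y : ℕ) : Decidable (K1.exc1 A B k g e Y) := by
  unfold K1.exc1; infer_instance

theorem K1.chk1a : ((List.range 12).all fun B => (List.range 12).all fun k => (List.range 12).all fun e =>
    !(decide (2 ≤ B) && decide (0 < k) && decide (0 < e) && decide (B * k * e ≤ 11)) ||
      (List.range 15).all fun Y =>
        !(decide (0 < Y) && decide (B * k * e ≤ 3 * Y) && Nat.gcd Y (B * k) == 1) ||
          decide (2 * 2 ^ K1.om (B * Nat.gcd e k) < Y + B * k * e) ||
          (k == 1 && e == 1 && Y == 1 && (B == 2 || B == 3))) = true := by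
  decide +kernel

theorem K1.chk1b : ((List.range 12).all fun B => (List.range 12).all fun k => (List.range 12).all fun e =>
    !(decide (2 ≤ B) && decide (0 < k) && decide (0 < e) && decide (B * k * e ≤ 11)) ||
      (List.range 15).all fun Y => !(decide (0 < Y)) || (List.range 7).all fun g =>
        !(decide (0 < g) && ((1 + g * Y) % (B * k) == 0) &&
            decide (g * e < 3 * ((1 + g * Y) / (B * k))) &&
            Nat.gcd ((1 + g * Y) / (B * k)) (g * e) == 1) ||
          decide (2 * 2 ^ K1.om (B * Nat.gcd e k) * ((1 + g * Y) / (B * k) * g) ≤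
            ((1 + g * Y) / (B * k) + g * e) * (g * Y - 1)) ||
          decide (K1.exc1 ((1 + g * Y) / (B * k)) B k g e Y)) = true := by
  decide +kernel

/-- T1: level 1, d = 1 (P and one more class) -/
theorem K1.t1 {A B k g e Y : ℕ} (hA : 0 < A) (hg : 0 < g) (he : 0 < e) (hY : 0 < Y) (hk : 0 < k) (hB : 2 ≤ B)
    (hM : A * (B * k) = 1 + g * Y) (h3 : g * e < 3 * A) (hco : Nat.Coprime A (g * e)) :
    2 ^ ((Nat.gcd (g * e * B) (1 + g * Y)).primeFactors.card + 1) * (A * g) ≤ (A + g * e) * (g * Y - 1) ∨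
    (k = 1 ∧ e = 1 ∧ Y = 1 ∧ (B = 2 ∨ B = 3)) ∨ (A = 1 ∧ B = 2 ∧ k = 1 ∧ g = 1 ∧ e = 2) ∨
    (A = 1 ∧ B = 3 ∧ k = 1 ∧ g = 1 ∧ e = 1) ∨ (A = 2 ∧ B = 2 ∧ k = 1 ∧ g = 1 ∧ e = 1) ∨
    (A = 1 ∧ B = 3 ∧ k = 1 ∧ g = 1 ∧ e = 2) := by
  classical
  set P := (Nat.gcd (g * e * B) (1 + g * Y)).primeFactors with hP
  have hPp : ∀ r ∈ P, r.Prime := fun r hr => (K1.mem_P hM hco hr).1
  have hBk : 0 < B * k := Nat.mul_pos (by omega) hk
  have hq : ∀ r ∈ P, r ∣ B * Nat.gcd e k := by
    intro r hr
    obtain ⟨_, _, _, h | ⟨_, h1, h2⟩⟩ := K1.mem_P hM hco hr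
    · exact h.mul_right _
    · exact (Nat.dvd_gcd h1 h2).mul_left _
  have hh0 : 0 < Nat.gcd e k := Nat.gcd_pos_of_pos_left _ he
  have hq0 : 0 < B * Nat.gcd e k := Nat.mul_pos (by omega) hh0
  have hqm : B * Nat.gcd e k ≤ B * k * e := by
    have h1 : Nat.gcd e k ≤ e := Nat.le_of_dvd he (Nat.gcd_dvd_left _ _)
    calc B * Nat.gcd e k ≤ B * e := Nat.mul_le_mul_left _ h1
      _ ≤ B * e * k := Nat.le_mul_of_pos_right _ hk
      _ = B * k * e := by ring
  have h4 := K1.four_all P hPp
  have h5 : ∏ r ∈ P, r ≤ B * Nat.gcd e k := Nat.le_of_dvd hq0 (K1.prod_dvd hPp hq)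
  have hth := K1.third (e := e) hk (by omega) hM h3
  set m := B * k * e with hm
  set X := 2 ^ (P.card + 1) with hX
  have hX2 : X * X = 4 * 4 ^ P.card := by
    rw [hX, ← pow_add, show P.card + 1 + (P.card + 1) = 2 * (P.card + 1) by ring, pow_mul]
    norm_num [pow_succ]; ring
  by_cases hbig : g * X + 7 ≤ g * (Y + m)
  · exact Or.inl (K1.red1 hA hg hY hM h3 hbig)
  push Not at hbig
  -- `4 m <= 3 X + 20`
  have h6 : 4 * m ≤ 3 * X + 20 := by
    by_contra hc
    push Not at hc
    have h7 : g * (3 * X + 21) ≤ g * (4 * m) := Nat.mul_le_mul_left _ hc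
    nlinarith
  have h7 : 3 * (X * X) ≤ 32 * m := by
    rw [hX2]; omega
  have hX12 : X ≤ 12 := by
    by_contra hc
    push Not at hc
    nlinarith
  have hPc : P.card ≤ 2 := by
    by_contra hc
    push Not at hc
    have : 2 ^ 4 ≤ X := by
      rw [hX]; exact Nat.pow_le_pow_right (by norm_num) (by omega)
    omega
  have hX8 : X ≤ 8 := by
    rw [hX]
    calc 2 ^ (P.card + 1) ≤ 2 ^ 3 := Nat.pow_le_pow_right (by norm_num) (by omega)
      _ = 8 := by norm_num
  have hm11 : m ≤ 11 := by omega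
  have hN14 : Y + m ≤ 14 := by
    by_contra hc
    push Not at hc
    have h8 : g * (X + 7) ≤ g * (Y + m) := Nat.mul_le_mul_left _ (by omega)
    have h9 : 7 ≤ g * 7 := Nat.le_mul_of_pos_left _ hg
    have h10 : g * (X + 7) = g * X + g * 7 := by ring
    omega
  have hBm : B ≤ m := by
    rw [hm, mul_assoc]; exact Nat.le_mul_of_pos_right _ (Nat.mul_pos hk he)
  have hkm : k ≤ m := by
    rw [hm, show B * k * e = k * (B * e) by ring]
    exact Nat.le_mul_of_pos_right _ (Nat.mul_pos (by omega) he)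
  have hem : e ≤ m := by
    rw [hm]; exact Nat.le_mul_of_pos_left _ hBk
  have hom : P.card ≤ K1.om (B * Nat.gcd e k) :=
    K1.card_le_om (by omega) hq0 P fun r hr => ⟨hPp r hr, hq r hr⟩
  have hXom : X ≤ 2 * 2 ^ K1.om (B * Nat.gcd e k) := by
    rw [hX, pow_succ, mul_comm]
    exact Nat.mul_le_mul_left _ (Nat.pow_le_pow_right (by norm_num) hom)
  have hcond : (decide (2 ≤ B) && decide (0 < k) && decide (0 < e) && decide (B * k * e ≤ 11)) = true := by
    simp only [Bool.and_eq_true, decide_eq_true_eq]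
    exact ⟨⟨⟨hB, hk⟩, he⟩, hm11⟩
  rcases Nat.lt_or_ge g 7 with hg7 | hg7
  · -- small `g`
    have hA' : (1 + g * Y) / (B * k) = A := by
      rw [← hM]; exact Nat.mul_div_cancel _ hBk
    have hmod : (1 + g * Y) % (B * k) = 0 := by rw [← hM]; exact Nat.mul_mod_left _ _
    have c := K1.chk1b
    rw [List.all_eq_true] at c
    have c := c B (List.mem_range.2 (by omega))
    rw [List.all_eq_true] at c
    have c := c k (List.mem_range.2 (by omega))
    rw [List.all_eq_true] at c
    have c := c e (List.mem_range.2 (by omega))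
    rw [hcond] at c
    simp only [Bool.not_true, Bool.false_or] at c
    rw [List.all_eq_true] at c
    have c := c Y (List.mem_range.2 (by omega))
    have hY' : decide (0 < Y) = true := by simpa using hY
    rw [hY'] at c
    simp only [Bool.not_true, Bool.false_or] at c
    rw [List.all_eq_true] at c
    have c := c g (List.mem_range.2 (by omega))
    rw [hA'] at c
    have hcond2 : (decide (0 < g) && ((1 + g * Y) % (B * k) == 0) && decide (g * e < 3 * A) &&
        Nat.gcd A (g * e) == 1) = true := by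
      simp only [Bool.and_eq_true, decide_eq_true_eq, beq_iff_eq]
      exact ⟨⟨⟨hg, hmod⟩, h3⟩, hco⟩
    rw [hcond2] at c
    simp only [Bool.not_true, Bool.false_or, Bool.or_eq_true, decide_eq_true_eq] at c
    rcases c with c | c
    · left
      exact le_trans (Nat.mul_le_mul_right _ hXom) c
    · right
      exact c
  · have hN : Y + m ≤ X := by
      by_contra hc
      push Not at hc
      have h8 : g * (X + 1) ≤ g * (Y + m) := Nat.mul_le_mul_left _ hc
      have h10 : g * (X + 1) = g * X + g := by ring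
      omega
    have hm3 : m ≤ 3 * Y := by
      by_contra hc
      push Not at hc
      have h8 : g * (3 * Y + 1) ≤ g * m := Nat.mul_le_mul_left _ hc
      have h10 : g * (3 * Y + 1) = 3 * (g * Y) + g := by ring
      omega
    have hgcd : Nat.gcd Y (B * k) = 1 := by
      have h8 : Nat.gcd Y (B * k) ∣ 1 + g * Y := by
        rw [← hM]; exact (Nat.gcd_dvd_right _ _).mul_left _
      have h9 : Nat.gcd Y (B * k) ∣ g * Y := (Nat.gcd_dvd_left _ _).mul_left _
      exact Nat.dvd_one.1 ((Nat.dvd_add_left h9).1 h8)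
    have c := K1.chk1a
    rw [List.all_eq_true] at c
    have c := c B (List.mem_range.2 (by omega))
    rw [List.all_eq_true] at c
    have c := c k (List.mem_range.2 (by omega))
    rw [List.all_eq_true] at c
    have c := c e (List.mem_range.2 (by omega))
    rw [hcond] at c
    simp only [Bool.not_true, Bool.false_or] at c
    rw [List.all_eq_true] at c
    have c := c Y (List.mem_range.2 (by omega))
    have hcond2 : (decide (0 < Y) && decide (B * k * e ≤ 3 * Y) && Nat.gcd Y (B * k) == 1) = true := by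
      simp only [Bool.and_eq_true, decide_eq_true_eq, beq_iff_eq]
      exact ⟨⟨hY, hm3⟩, hgcd⟩
    rw [hcond2] at c
    simp only [Bool.not_true, Bool.false_or, Bool.or_eq_true, Bool.and_eq_true, decide_eq_true_eq,
      beq_iff_eq] at c
    rcases c with c | ⟨⟨⟨c1, c2⟩, c3⟩, c4⟩
    · exfalso
      rw [← hm] at c
      omega
    · right; left
      exact ⟨c1, c2, c3, c4⟩

end Pool.Agent.H4G
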