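import Pool.Agent.H4G.Arith.K1NumK
set_option autoImplicit false

/-!
# Line B, K = 1: count T4 (level 2, d = 1) (helper24, statement of helper9)
-/

namespace Pool.Agent.H4G

open Finset

theorem K1.chk4a : ((List.range 21).all fun B => (List.range 21).all fun k => (List.range 21).all fun e =>
    !(decide (5 ≤ B) && (B % 4 == 1) && (k % 2 == 1) && decide (0 < e) && decide (B * k * e ≤ 20)) ||
      (List.range 27).all fun Y =>
        !(decide (0 < Y) && decide (Y + B * k * e ≤ 26) && decide (B * k * e ≤ 3 * Y) &&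
            Nat.gcd Y (B * k) == 1) ||
          decide (4 * 2 ^ K1.om (B * Nat.gcd e k) < Y + B * k * e) ||
          (B == 5 && k == 1 && decide (K1.om (B * Nat.gcd e k) ≤ 1) && decide (7 ≤ Y + B * k * e))) = true := by
  decide +kernel

theorem K1.chk4b : ((List.range 21).all fun B => (List.range 21).all fun k => (List.range 21).all fun e =>
    !(decide (5 ≤ B) && (B % 4 == 1) && (k % 2 == 1) && decide (0 < e) && decide (B * k * e ≤ 20)) ||
      (List.range 27).all fun Y =>
        !(decide (0 < Y) && decide (Y + B * k * e ≤ 26)) || (List.range 11).all fun g =>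
        !(decide (0 < g) && ((g * e) % 4 == 0) && ((1 + g * Y) % (B * k) == 0) &&
            decide (g * e < 3 * ((1 + g * Y) / (B * k))) &&
            ((1 + g * Y) / (B * k) % 2 == 1) &&
            Nat.gcd ((1 + g * Y) / (B * k)) (g * e) == 1) ||
          decide (4 * 2 ^ K1.om (B * Nat.gcd e k) * ((1 + g * Y) / (B * k) * g) ≤
            ((1 + g * Y) / (B * k) + g * e) * (g * Y - 2)) ||
          (B == 5 && k == 1 && decide (K1.om (B * Nat.gcd e k) ≤ 1) &&
            decide (3 * (2 * ((1 + g * Y) / (B * k) * g)) ≤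
              ((1 + g * Y) / (B * k) + g * e) * (g * Y - 2)))) = true := by
  decide +kernel

/-- T4: level 2, d = 1 -/
theorem K1.t4 {A B k g e Y : ℕ} (hA : A % 2 = 1) (hg : 0 < g) (he : 0 < e) (hY : 0 < Y) (hk : k % 2 = 1)
    (hB : 5 ≤ B) (hB4 : B % 4 = 1) (h4 : 4 ∣ g * e)
    (hM : A * (B * k) = 1 + g * Y) (h3 : g * e < 3 * A) (hco : Nat.Coprime A (g * e)) :
    2 ^ (k2 A B k g e Y + 1) * (2 * (A * g)) ≤ (A + g * e) * (g * Y - 2) ∨
    (k2 A B k g e Y ≤ 1 ∧ B = 5 ∧ k = 1 ∧ 3 * (2 * (A * g)) ≤ (A + g * e) * (g * Y - 2)) := by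
  classical
  have hA0 : 0 < A := by omega
  have hk0 : 0 < k := by omega
  have hB0 : 0 < B := by omega
  have hBk : 0 < B * k := Nat.mul_pos hB0 hk0
  have hAM5 : 5 ≤ A * (B * k) := by
    calc 5 ≤ B * k := le_trans hB (Nat.le_mul_of_pos_right _ hk0)
      _ ≤ A * (B * k) := Nat.le_mul_of_pos_left _ hA0
  have hgY2 : 2 ≤ g * Y := by omega
  have hodd : ¬ 2 ∣ 1 + g * Y := by
    rw [← hM]
    intro h
    rcases (Nat.prime_two.dvd_mul).1 h with h | h
    · omega
    · rcases (Nat.prime_two.dvd_mul).1 h with h | h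
      · omega
      · omega
  have hth := K1.third (e := e) hk0 hB0 hM h3
  set m := B * k * e with hm
  unfold k2
  set P := (Nat.gcd (g * e * B) (1 + g * Y)).primeFactors with hP
  have hPp : ∀ r ∈ P, r.Prime := fun r hr => (K1.mem_P hM hco hr).1
  have h2P : 2 ∉ P := fun h => hodd (K1.mem_P hM hco h).2.1
  obtain ⟨h, hh0, hhe, hhk, hQd, hhQ⟩ := K1.split hM hco (P.erase 3) (Finset.erase_subset _ _)
  have h3h : ¬ 3 ∣ h := fun h1 => (Finset.notMem_erase 3 P) (hhQ 3 Nat.prime_three h1)
  have h5j : 5 ^ (P.erase 3).card ≤ ∏ r ∈ P.erase 3, r :=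
    K1.five_five _ (fun r hr => hPp r (Finset.mem_of_mem_erase hr))
      (fun h1 => h2P (Finset.mem_of_mem_erase h1)) (Finset.notMem_erase 3 P)
  have hQle : ∏ r ∈ P.erase 3, r ≤ B * h := Nat.le_of_dvd (Nat.mul_pos hB0 hh0) hQd
  have hBh : 5 ≤ B * h := le_trans hB (Nat.le_mul_of_pos_right _ hh0)
  have hmc : ∀ c : ℕ, c * h ∣ e → c * (B * h) ≤ m := by
    intro c hc
    calc c * (B * h) = B * 1 * (c * h) := by ring
      _ ≤ B * k * e := Nat.mul_le_mul (Nat.mul_le_mul_left _ hk0) (Nat.le_of_dvd he hc)
  by_cases c1 : 3 ∣ g * e ∧ ¬ 3 ∣ g * Y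
  · rw [if_pos c1]
    left
    by_cases c2 : 9 ∣ g * e
    · rw [if_pos c2]
      have h9 := hmc 9 (K1.mul_dvd3 (n := 2) c1.2 c2 hhe h3h)
      set j := (P.erase 3).card with hj
      have e1 : 2 ^ (j + 2 + 1) * (2 * (A * g)) = (16 * 2 ^ j) * (A * g) := by
        rw [pow_add, pow_add]; ring
      rw [e1]
      refine K1.red2 hA0 hgY2 hM h3 (K1.room2 hg hth ?_)
      rcases Nat.eq_zero_or_pos j with h0 | h0
      · rw [h0]; omega
      · have := K1.pow52 h0
        have h6 : 2 ≤ 2 ^ j := by
          calc 2 = 2 ^ 1 := by norm_num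
            _ ≤ 2 ^ j := Nat.pow_le_pow_right (by norm_num) h0
        omega
    · rw [if_neg c2]
      have h9 := hmc 3 (by simpa using K1.mul_dvd3 (n := 1) c1.2 (by simpa using c1.1) hhe h3h)
      set j := (P.erase 3).card with hj
      have e1 : 2 ^ (j + 1 + 1) * (2 * (A * g)) = (8 * 2 ^ j) * (A * g) := by
        rw [pow_add, pow_add]; ring
      rw [e1]
      have h15 : 15 ≤ m := by omega
      by_cases hm15 : m = 15 ∧ j = 1
      · obtain ⟨hm15, hj1⟩ := hm15
        rw [hj1]
        have he3 : e ∣ 15 := by rw [← hm15, hm]; exact Dvd.intro_left _ rfl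
        have heo : ¬ 2 ∣ e := by
          intro h1
          have := h1.trans he3
          omega
        have h4g : 4 ∣ g := by
          have h7 : Nat.Coprime (2 ^ 2) e := Nat.Coprime.pow_left 2 ((Nat.prime_two.coprime_iff_not_dvd).2 heo)
          exact Nat.Coprime.dvd_of_dvd_mul_right h7 h4
        have hg4 : 4 ≤ g := Nat.le_of_dvd hg h4g
        refine K1.red2 hA0 hgY2 hM h3 ?_
        rw [← hm, hm15]
        rw [hm15] at hth
        have e2 : g * (Y + 15) = g * Y + g * 15 := by ring
        rw [e2]
        omega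
      · refine K1.red2 hA0 hgY2 hM h3 (K1.room2 hg hth ?_)
        rcases Nat.lt_or_ge j 1 with h0 | h0
        · have h0 : j = 0 := by omega
          rw [h0]; omega
        · rcases Nat.lt_or_ge j 2 with h1 | h1
          · have h0 : j = 1 := by omega
            rw [h0]
            have hm16 : m ≠ 15 := fun h => hm15 ⟨h, h0⟩
            -- `B h = 5` gives `15 | m`
            rcases Nat.lt_or_ge (B * h) 7 with h7 | h7
            · have hB5 : B = 5 := by
                have : B ≤ B * h := Nat.le_mul_of_pos_right _ hh0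
                omega
              have h15m : 15 ∣ m := by
                have h3e : 3 ∣ e := by
                  have := K1.mul_dvd3 (n := 1) c1.2 (by simpa using c1.1) hhe h3h
                  exact (dvd_mul_right 3 h).trans (by simpa using this)
                rw [hm, hB5, show 5 * k * e = (5 * e) * k by ring]
                exact (Nat.mul_dvd_mul_left 5 h3e).mul_right k
              omega
            · omega
          · have := K1.pow52' h1
            have h6 : 4 ≤ 2 ^ j := by
              calc 4 = 2 ^ 2 := by norm_num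
                _ ≤ 2 ^ j := Nat.pow_le_pow_right (by norm_num) h1
            omega
  · rw [if_neg c1]
    have hPc : (P.erase 3).card + (if 3 ∣ Nat.gcd (g * e * B) (1 + g * Y) then 1 else 0) = P.card := by
      split_ifs with c3
      · have h3P : 3 ∈ P := by
          rw [hP, Nat.mem_primeFactors]
          refine ⟨Nat.prime_three, c3, ?_⟩
          exact (Nat.gcd_pos_of_pos_right _ (by omega)).ne'
        exact Finset.card_erase_add_one h3P
      · have h3P : 3 ∉ P := by
          intro h1
          exact c3 (Nat.dvd_of_mem_primeFactors h1)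
        rw [Finset.erase_eq_of_notMem h3P, add_zero]
    rw [hPc]
    set j := P.card with hj
    have e1 : 2 ^ (j + 1) * (2 * (A * g)) = (4 * 2 ^ j) * (A * g) := by
      rw [pow_add]; ring
    rw [e1]
    set X := 4 * 2 ^ j with hX
    have h4P := K1.four_odd P hPp h2P
    rw [← hj] at h4P
    have hq : ∀ r ∈ P, r ∣ B * Nat.gcd e k := by
      intro r hr
      obtain ⟨_, _, _, h | ⟨_, h1, h2⟩⟩ := K1.mem_P hM hco hr
      · exact h.mul_right _
      · exact (Nat.dvd_gcd h1 h2).mul_left _
    have hgk0 : 0 < Nat.gcd e k := Nat.gcd_pos_of_pos_left _ he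
    have hq0 : 0 < B * Nat.gcd e k := Nat.mul_pos hB0 hgk0
    have hqm : B * Nat.gcd e k ≤ m := by
      have h1 : Nat.gcd e k ≤ e := Nat.le_of_dvd he (Nat.gcd_dvd_left _ _)
      calc B * Nat.gcd e k ≤ B * e := Nat.mul_le_mul_left _ h1
        _ ≤ B * e * k := Nat.le_mul_of_pos_right _ hk0
        _ = m := by rw [hm]; ring
    have h5 : ∏ r ∈ P, r ≤ B * Nat.gcd e k := Nat.le_of_dvd hq0 (K1.prod_dvd hPp hq)
    have hX2 : X * X = 16 * 4 ^ j := by
      rw [hX, show (4 : ℕ) ^ j = 2 ^ j * 2 ^ j by rw [← mul_pow]; norm_num]; ring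
    have h6 : 3 * (X * X) ≤ 64 * m := by rw [hX2]; omega
    by_cases hbig : g * X + 11 ≤ g * (Y + m)
    · left
      exact K1.red2 hA0 hgY2 hM h3 hbig
    have hsm : 4 * m ≤ 3 * X + 34 := by
      by_contra hc
      exact hbig (K1.room2 hg hth (by omega))
    have hX23 : X ≤ 23 := by
      by_contra hc
      push Not at hc
      obtain ⟨z, hz⟩ : ∃ z, X = 24 + z := ⟨X - 24, by omega⟩
      have h1 : 3 * (X * X) = 1728 + 144 * z + 3 * (z * z) := by rw [hz]; ring
      omega
    have hj2 : j ≤ 2 := by
      by_contra hc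
      push Not at hc
      have : 2 ^ 3 ≤ 2 ^ j := Nat.pow_le_pow_right (by norm_num) (by omega)
      omega
    have hX16 : X ≤ 16 := by
      have : 2 ^ j ≤ 2 ^ 2 := Nat.pow_le_pow_right (by norm_num) hj2
      omega
    have hm20 : m ≤ 20 := by omega
    have hNX : Y + m ≤ X + 10 := by
      by_contra hc
      exact hbig (K1.room hg (by omega))
    have hBm : B ≤ m := by
      rw [hm, mul_assoc]; exact Nat.le_mul_of_pos_right _ (Nat.mul_pos hk0 he)
    have hkm : k ≤ m := by
      rw [hm, show B * k * e = k * (B * e) by ring]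
      exact Nat.le_mul_of_pos_right _ (Nat.mul_pos (by omega) he)
    have hem : e ≤ m := by
      rw [hm]; exact Nat.le_mul_of_pos_left _ hBk
    have hom : j ≤ K1.om (B * Nat.gcd e k) :=
      K1.card_le_om (by omega) hq0 P fun r hr => ⟨hPp r hr, hq r hr⟩
    have hXom : X ≤ 4 * 2 ^ K1.om (B * Nat.gcd e k) := by
      rw [hX]
      exact Nat.mul_le_mul_left _ (Nat.pow_le_pow_right (by norm_num) hom)
    have hcond : (decide (5 ≤ B) && (B % 4 == 1) && (k % 2 == 1) && decide (0 < e) &&
        decide (B * k * e ≤ 20)) = true := by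
      simp only [Bool.and_eq_true, decide_eq_true_eq, beq_iff_eq]
      exact ⟨⟨⟨⟨hB, hB4⟩, hk⟩, he⟩, hm20⟩
    rcases Nat.lt_or_ge g 11 with hg11 | hg11
    · have hA' : (1 + g * Y) / (B * k) = A := by
        rw [← hM]; exact Nat.mul_div_cancel _ hBk
      have hmod : (1 + g * Y) % (B * k) = 0 := by rw [← hM]; exact Nat.mul_mod_left _ _
      have c := K1.chk4b
      rw [List.all_eq_true] at c
      have c := c B (List.mem_range.2 (by omega))
      rw [List.all_eq_true] at c
      have c := c k (List.mem_range.2 (by omega))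
      rw [List.all_eq_true] at c
      have c := c e (List.mem_range.2 (by omega))
      rw [hcond] at c
      simp only [Bool.not_true, Bool.false_or] at c
      rw [List.all_eq_true] at c
      have c := c Y (List.mem_range.2 (by omega))
      have hY' : (decide (0 < Y) && decide (Y + B * k * e ≤ 26)) = true := by
        simp only [Bool.and_eq_true, decide_eq_true_eq]
        exact ⟨hY, by omega⟩
      rw [hY'] at c
      simp only [Bool.not_true, Bool.false_or] at c
      rw [List.all_eq_true] at c
      have c := c g (List.mem_range.2 (by omega))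
      rw [hA'] at c
      have hcond2 : (decide (0 < g) && ((g * e) % 4 == 0) && ((1 + g * Y) % (B * k) == 0) &&
          decide (g * e < 3 * A) && (A % 2 == 1) && Nat.gcd A (g * e) == 1) = true := by
        simp only [Bool.and_eq_true, decide_eq_true_eq, beq_iff_eq]
        exact ⟨⟨⟨⟨⟨hg, Nat.mod_eq_zero_of_dvd h4⟩, hmod⟩, h3⟩, hA⟩, hco⟩
      rw [hcond2] at c
      simp only [Bool.not_true, Bool.false_or, Bool.or_eq_true, Bool.and_eq_true, decide_eq_true_eq,
        beq_iff_eq] at c
      rcases c with c | ⟨⟨⟨c2, c3⟩, c4⟩, c5⟩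
      · left
        exact le_trans (Nat.mul_le_mul_right _ hXom) c
      · right
        exact ⟨by omega, c2, c3, c5⟩
    · have hN : Y + m ≤ X := by
        by_contra hc
        push Not at hc
        apply hbig
        have h8 : g * (X + 1) ≤ g * (Y + m) := Nat.mul_le_mul_left _ hc
        have h10 : g * (X + 1) = g * X + g := by ring
        omega
      have hm3 : m ≤ 3 * Y := by
        by_contra hc
        push Not at hc
        have h8 : g * (3 * Y + 1) ≤ g * m := Nat.mul_le_mul_left _ hc
        have h10 : g * (3 * Y + 1) = 3 * (g * Y) + g := by ring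
        omega
      have hgcd : Nat.gcd Y (B * k) = 1 := by
        have h8 : Nat.gcd Y (B * k) ∣ 1 + g * Y := by
          rw [← hM]; exact (Nat.gcd_dvd_right _ _).mul_left _
        have h9 : Nat.gcd Y (B * k) ∣ g * Y := (Nat.gcd_dvd_left _ _).mul_left _
        exact Nat.dvd_one.1 ((Nat.dvd_add_left h9).1 h8)
      have c := K1.chk4a
      rw [List.all_eq_true] at c
      have c := c B (List.mem_range.2 (by omega))
      rw [List.all_eq_true] at c
      have c := c k (List.mem_range.2 (by omega))
      rw [List.all_eq_true] at c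
      have c := c e (List.mem_range.2 (by omega))
      rw [hcond] at c
      simp only [Bool.not_true, Bool.false_or] at c
      rw [List.all_eq_true] at c
      have c := c Y (List.mem_range.2 (by omega))
      have hcond2 : (decide (0 < Y) && decide (Y + B * k * e ≤ 26) && decide (B * k * e ≤ 3 * Y) &&
          Nat.gcd Y (B * k) == 1) = true := by
        simp only [Bool.and_eq_true, decide_eq_true_eq, beq_iff_eq]
        exact ⟨⟨⟨hY, by omega⟩, hm3⟩, hgcd⟩
      rw [hcond2] at c
      simp only [Bool.not_true, Bool.false_or, Bool.or_eq_true, Bool.and_eq_true, decide_eq_true_eq,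
        beq_iff_eq] at c
      rcases c with c | ⟨⟨⟨c1, c2⟩, c3⟩, c4⟩
      · exfalso
        rw [← hm] at c
        omega
      · right
        refine ⟨by omega, c1, c2, ?_⟩
        have e3 : 3 * (2 * (A * g)) = 6 * (A * g) := by ring
        rw [e3]
        refine K1.red2 hA0 hgY2 hM h3 ?_
        have h8 : g * 7 ≤ g * (Y + B * k * e) := Nat.mul_le_mul_left _ c4
        omega

end Pool.Agent.H4G
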