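import Pool.Agent.H4G.Arith.K1NumO
set_option autoImplicit false

/-!
# Line B, K = 1: count T5 (level 1, d > 1) (helper24, statement of helper9)
-/

namespace Pool.Agent.H4G

open Finset

theorem K1.chk5 : ((List.range 23).all fun B => (List.range 23).all fun k => (List.range 23).all fun e =>
    !(decide (3 ≤ B) && decide (2 ≤ k) && decide (0 < e) && decide (B * k * e ≤ 22)) ||
      (List.range 23).all fun Y => !(decide (0 < Y) && decide (Y + B * k * e ≤ 22)) ||
        (List.range 7).all fun g =>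
        !(decide (0 < g) && ((1 + g * Y) % (B * k) == 0) &&
            decide (g * e < 3 * ((1 + g * Y) / (B * k))) &&
            Nat.gcd ((1 + g * Y) / (B * k)) (g * e) == 1) ||
        ([2, 3, 5, 7, 11, 13, 17, 19, 23, 29, 31, 37, 41, 43, 47, 53, 59].all fun p =>
          !(k % p == 0 && B % p != 0 && (g * e) % p != 0) ||
          decide (2 ^ (K1.om (B * Nat.gcd e k) +
              K1.omo (Nat.gcd ((1 + g * Y) / (B * k) + g * e) (g * Y - 1)) +
              (if 2 ∣ (1 + g * Y) / (B * k) + g * e ∧ 4 ∣ g * Y - 1 then 1 else 0)) *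
                ((1 + g * Y) / (B * k) * g) ≤
            ((1 + g * Y) / (B * k) + g * e) * (g * Y - 1)))) = true := by
  decide +kernel

/-- T5: level 1, d > 1 (P, the odd primes of gcd(c1, y-1), and possibly one class modulo 2 or 4) -/
theorem K1.t5 {d A B k g e Y : ℕ} (hd : 2 ≤ d) (hA : 0 < A) (hg : 0 < g) (he : 0 < e) (hY : 0 < Y) (hk : 0 < k)
    (hB : d < B) (hM : A * (B * k) = 1 + g * Y) (h3 : g * e < 3 * A) (hco : Nat.Coprime A (g * e))
    (hco1 : Nat.Coprime d B) (hco2 : Nat.Coprime d (g * e)) (hrad : ∀ r : ℕ, r.Prime → r ∣ d → r ∣ k) :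
    2 ^ ((Nat.gcd (g * e * B) (1 + g * Y)).primeFactors.card +
      ((Nat.gcd (A + g * e) (g * Y - 1)).primeFactors.erase 2).card +
      (if 2 ∣ A + g * e ∧ 4 ∣ g * Y - 1 then 1 else 0)) * (A * g) ≤ (A + g * e) * (g * Y - 1) := by
  classical
  set P := (Nat.gcd (g * e * B) (1 + g * Y)).primeFactors with hP
  set Q := (Nat.gcd (A + g * e) (g * Y - 1)).primeFactors.erase 2 with hQ
  set ε := (if 2 ∣ A + g * e ∧ 4 ∣ g * Y - 1 then 1 else 0) with hε
  have hgY : 1 ≤ g * Y := Nat.mul_pos hg hY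
  have hBk : 0 < B * k := Nat.mul_pos (by omega) hk
  have hB0 : 0 < B := by omega
  -- facts about `P` and `Q`
  have hPp : ∀ r ∈ P, r.Prime := fun r hr => (K1.mem_P hM hco hr).1
  have hQm : ∀ r ∈ Q, r.Prime ∧ r ≠ 2 ∧ r ∣ A + g * e ∧ r ∣ g * Y - 1 := by
    intro r hr
    rw [hQ, Finset.mem_erase] at hr
    have h1 := Nat.prime_of_mem_primeFactors hr.2
    have h2 := Nat.dvd_of_mem_primeFactors hr.2
    exact ⟨h1, hr.1, h2.trans (Nat.gcd_dvd_left _ _), h2.trans (Nat.gcd_dvd_right _ _)⟩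
  have hQg : ∀ r ∈ Q, ¬ r ∣ g := by
    intro r hr h
    obtain ⟨h1, h2, h4, h5⟩ := hQm r hr
    have h6 : r ∣ g * Y := h.mul_right _
    have h7 : r ∣ g * Y - (g * Y - 1) := Nat.dvd_sub h6 h5
    rw [show g * Y - (g * Y - 1) = 1 by omega] at h7
    exact h1.one_lt.ne' (Nat.dvd_one.1 h7)
  have hQ2 : ∀ r ∈ Q, ¬ r ∣ 1 + g * Y := by
    intro r hr h
    obtain ⟨h1, h2, h4, h5⟩ := hQm r hr
    have h7 : r ∣ 1 + g * Y - (g * Y - 1) := Nat.dvd_sub h h5
    rw [show 1 + g * Y - (g * Y - 1) = 2 by omega] at h7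
    exact h2 ((Nat.prime_dvd_prime_iff_eq h1 Nat.prime_two).1 h7)
  -- the number `s`
  have hs0 : g * (2 * Y + B * k * e) = B * k * (A + g * e) + (g * Y - 1) := by
    obtain ⟨z, hz⟩ : ∃ z, g * Y = z + 1 := ⟨g * Y - 1, by omega⟩
    have h1 : g * (2 * Y + B * k * e) = 2 * (g * Y) + B * k * (g * e) := by ring
    have h2 : B * k * (A + g * e) = A * (B * k) + B * k * (g * e) := by ring
    rw [h1, h2, hM, hz, Nat.add_sub_cancel]
    ring
  have hQs : ∀ r ∈ Q, r ∣ 2 * Y + B * k * e := by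
    intro r hr
    obtain ⟨h1, h2, h4, h5⟩ := hQm r hr
    have h6 : r ∣ g * (2 * Y + B * k * e) := by
      rw [hs0]; exact dvd_add (h4.mul_left _) h5
    exact ((h1.dvd_mul).1 h6).resolve_left (hQg r hr)
  set s := 2 * Y + B * k * e with hs
  have hspos : 0 < s := by omega
  have hxs0 : ∏ r ∈ Q, r ∣ s := K1.prod_dvd (fun r hr => (hQm r hr).1) hQs
  set x := ∏ r ∈ Q, r with hx
  have hxs : 4 ^ ε * x ∣ s := by
    rw [hε]
    split_ifs with h
    · obtain ⟨h1, h2⟩ := h
      have hgodd : ¬ 2 ∣ g := by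
        intro h4
        have h5 : 2 ∣ g * Y := h4.mul_right _
        have h6 : 2 ∣ g * Y - 1 := (by norm_num : (2 : ℕ) ∣ 4).trans h2
        omega
      have hAodd : ¬ 2 ∣ A := by
        intro h4
        have h5 : 2 ∣ g * e := (Nat.dvd_add_right h4).1 h1
        have h6 : 2 ∣ Nat.gcd A (g * e) := Nat.dvd_gcd h4 h5
        rw [hco] at h6
        omega
      have hMe : 2 ∣ B * k := by
        have h4 : 2 ∣ A * (B * k) := by rw [hM]; omega
        exact ((Nat.prime_two.dvd_mul).1 h4).resolve_left hAodd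
      have h4 : 4 ∣ g * s := by
        rw [hs0]
        refine dvd_add ?_ h2
        exact Nat.mul_dvd_mul hMe h1
      have h5 : 4 ∣ s := by
        refine Nat.Coprime.dvd_of_dvd_mul_left ?_ h4
        have : Nat.Coprime (2 ^ 2) g := Nat.Coprime.pow_left 2 ((Nat.prime_two.coprime_iff_not_dvd).2 hgodd)
        simpa using this
      have h6 : Nat.Coprime 4 x := by
        have : Nat.Coprime (2 ^ 2) x := by
          refine Nat.Coprime.pow_left 2 ((Nat.prime_two.coprime_iff_not_dvd).2 ?_)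
          intro h7
          rw [hx, Nat.prime_two.prime.dvd_finsetProd_iff] at h7
          obtain ⟨r, hr, h8⟩ := h7
          exact (hQm r hr).2.1 ((Nat.prime_dvd_prime_iff_eq Nat.prime_two (hQm r hr).1).1 h8).symm
        simpa using this
      rw [pow_one]
      exact Nat.Coprime.mul_dvd_of_dvd_of_dvd h6 h5 hxs0
    · simpa using hxs0
  have hxle : 4 ^ ε * x ≤ s := Nat.le_of_dvd hspos hxs
  -- splitting of `P`
  set PB := P.filter (fun r => r ∣ B) with hPB
  set Ph := P.filter (fun r => ¬ r ∣ B) with hPh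
  have hcardP : P.card = PB.card + Ph.card := (Finset.card_filter_add_card_filter_not _).symm
  have hPhm : ∀ r ∈ Ph, r.Prime ∧ r ∣ e ∧ r ∣ k := by
    intro r hr
    rw [hPh, Finset.mem_filter] at hr
    obtain ⟨h1, _, _, h | ⟨_, h2, h4⟩⟩ := K1.mem_P hM hco hr.1
    · exact absurd h hr.2
    · exact ⟨h1, h2, h4⟩
  set h := ∏ r ∈ Ph, r with hh
  have hhe : h ∣ e := K1.prod_dvd (fun r hr => (hPhm r hr).1) fun r hr => (hPhm r hr).2.1
  have hhk : h ∣ k := K1.prod_dvd (fun r hr => (hPhm r hr).1) fun r hr => (hPhm r hr).2.2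
  have hh2 : 2 ^ Ph.card ≤ h := K1.two_all Ph fun r hr => (hPhm r hr).1
  have hh0 : 0 < h := lt_of_lt_of_le (by positivity) hh2
  -- a prime of `d`
  obtain ⟨p, hp, hpd⟩ := Nat.exists_prime_and_dvd (show d ≠ 1 by omega)
  have hpk := hrad p hp hpd
  have hpB : ¬ p ∣ B := by
    intro h1
    have h2 : p ∣ Nat.gcd d B := Nat.dvd_gcd hpd h1
    rw [hco1] at h2
    exact hp.one_lt.ne' (Nat.dvd_one.1 h2)
  have hpge : ¬ p ∣ g * e := by
    intro h1
    have h2 : p ∣ Nat.gcd d (g * e) := Nat.dvd_gcd hpd h1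
    rw [hco2] at h2
    exact hp.one_lt.ne' (Nat.dvd_one.1 h2)
  have hph : p * h ∣ k := by
    refine Nat.Coprime.mul_dvd_of_dvd_of_dvd ?_ hpk hhk
    rw [hp.coprime_iff_not_dvd]
    intro h1
    exact hpge ((h1.trans hhe).mul_left _)
  have hm1 : B * (p * h) * h ≤ B * k * e :=
    Nat.mul_le_mul (Nat.mul_le_mul_left _ (Nat.le_of_dvd hk hph)) (Nat.le_of_dvd he hhe)
  -- the union of `PB` and `Q`
  have hdisj : Disjoint PB Q := by
    rw [Finset.disjoint_left]
    intro r hr1 hr2
    rw [hPB, Finset.mem_filter] at hr1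
    exact hQ2 r hr2 (K1.mem_P hM hco hr1.1).2.1
  set U := PB ∪ Q with hU
  have hUc : U.card = PB.card + Q.card := Finset.card_union_of_disjoint hdisj
  have hUp : ∏ r ∈ U, r = (∏ r ∈ PB, r) * x := Finset.prod_union hdisj
  have hPBB : ∏ r ∈ PB, r ≤ B := by
    refine Nat.le_of_dvd hB0 (K1.prod_dvd ?_ ?_)
    · intro r hr
      exact hPp r (Finset.mem_filter.1 hr).1
    · intro r hr
      exact (Finset.mem_filter.1 hr).2
  have hUprime : ∀ r ∈ U, r.Prime := by
    intro r hr
    rcases Finset.mem_union.1 hr with h1 | h1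
    · exact hPp r (Finset.mem_filter.1 h1).1
    · exact (hQm r h1).1
  have hUB : ∏ r ∈ U, r ≤ B * x := by
    rw [hUp]; exact Nat.mul_le_mul_right _ hPBB
  set m := B * k * e with hm
  set N := Y + m with hN
  set t := P.card + Q.card + ε with ht
  have h4t : 4 ^ t = 4 ^ ε * 4 ^ U.card * 4 ^ Ph.card := by
    rw [ht, hcardP, hUc, ← pow_add, ← pow_add]
    refine congrArg (fun z => 4 ^ z) ?_
    ring
  have hPh4 : 4 ^ Ph.card ≤ h * h := by
    calc 4 ^ Ph.card = 2 ^ Ph.card * 2 ^ Ph.card := by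
          rw [← mul_pow]; norm_num
      _ ≤ h * h := Nat.mul_le_mul hh2 hh2
  have hNs : s * m ≤ N * N := by
    have h1 : N * N = s * m + Y * Y := by rw [hs, hN]; ring
    omega
  have hlow : 4 ^ ε * x * (B * (p * h) * h) ≤ N * N :=
    le_trans (Nat.mul_le_mul hxle hm1) hNs
  -- the main inequality
  have hmain : 3 * 4 ^ t ≤ 2 * (N * N) := by
    have key : ∀ a b c : ℕ, a * 4 ^ U.card ≤ b * (B * x) → c * b ≤ 2 * p * a → 
        c * (a * 4 ^ t) ≤ a * (2 * (N * N)) := by
      intro a b c h1 h2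
      calc c * (a * 4 ^ t) = c * ((a * 4 ^ U.card) * (4 ^ ε * 4 ^ Ph.card)) := by rw [h4t]; ring
        _ ≤ c * ((b * (B * x)) * (4 ^ ε * (h * h))) :=
          Nat.mul_le_mul_left _ (Nat.mul_le_mul h1 (Nat.mul_le_mul_left _ hPh4))
        _ = (c * b) * (4 ^ ε * x * (B * (h * h))) := by ring
        _ ≤ (2 * p * a) * (4 ^ ε * x * (B * (h * h))) := Nat.mul_le_mul_right _ h2
        _ = a * (2 * (4 ^ ε * x * (B * (p * h) * h))) := by ring
        _ ≤ a * (2 * (N * N)) := Nat.mul_le_mul_left _ (Nat.mul_le_mul_left _ hlow)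
    have hp2 := hp.two_le
    by_cases hp2' : p = 2
    · have h2U : 2 ∉ U := by
        intro h1
        rcases Finset.mem_union.1 h1 with h2 | h2
        · rw [hp2'] at hpB
          exact hpB (Finset.mem_filter.1 h2).2
        · exact (hQm 2 h2).2.1 rfl
      have h1 := K1.four_odd U hUprime h2U
      have h2 := key 3 4 3 (h1.trans (Nat.mul_le_mul_left _ hUB)) (by omega)
      omega
    by_cases hp3' : p = 3
    · have h2U : 3 ∉ U := by
        intro h1
        rcases Finset.mem_union.1 h1 with h2 | h2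
        · rw [hp3'] at hpB
          exact hpB (Finset.mem_filter.1 h2).2
        · rw [hp3'] at hpk
          refine hQ2 3 h2 ?_
          rw [← hM]
          exact (hpk.mul_left _).mul_left _
      have h1 := K1.four_no3 U hUprime h2U
      have h2 := key 1 2 3 (by rw [one_mul]; exact h1.trans (Nat.mul_le_mul_left _ hUB)) (by omega)
      omega
    · have hp4 : p ≠ 4 := by rintro rfl; exact absurd hp (by norm_num)
      have h1 := K1.four_all U hUprime
      have h2 := key 3 8 3 (h1.trans (Nat.mul_le_mul_left _ hUB)) (by omega)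
      omega
  set X := 2 ^ t with hX
  have hX2 : X * X = 4 ^ t := by rw [hX, ← mul_pow]; norm_num
  have hX0 : 0 < X := by positivity
  rw [← hX2] at hmain
  by_cases hbig : g * X + 7 ≤ g * (Y + m)
  · exact K1.red1 hA hg hY hM h3 hbig
  push Not at hbig
  rw [← hN] at hbig
  have hXN : X < N := by
    by_contra hc
    push Not at hc
    have h1 : N * N ≤ X * X := Nat.mul_le_mul hc hc
    have h2 : 0 < X * X := Nat.mul_pos hX0 hX0
    omega
  have hg6 : g < 7 := by
    have h1 : g * (X + 1) ≤ g * N := Nat.mul_le_mul_left _ hXN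
    have h2 : g * (X + 1) = g * X + g := by ring
    omega
  have hNX : N ≤ X + 6 := by
    by_contra hc
    push Not at hc
    have h1 : g * (X + 7) ≤ g * N := Nat.mul_le_mul_left _ hc
    have h2 : g * (X + 7) = g * X + g * 7 := by ring
    omega
  have hX26 : X ≤ 26 := by
    by_contra hc
    push Not at hc
    obtain ⟨z, hz⟩ : ∃ z, X = 27 + z := ⟨X - 27, by omega⟩
    have h1 : N * N ≤ (X + 6) * (X + 6) := Nat.mul_le_mul hNX hNX
    have h2 : 3 * (X * X) = 2187 + 162 * z + 3 * (z * z) := by rw [hz]; ring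
    have h3 : (X + 6) * (X + 6) = 1089 + 66 * z + z * z := by rw [hz]; ring
    omega
  have ht4 : t ≤ 4 := by
    by_contra hc
    push Not at hc
    have : 2 ^ 5 ≤ X := by
      rw [hX]; exact Nat.pow_le_pow_right (by norm_num) (by omega)
    omega
  have hX16 : X ≤ 16 := by
    rw [hX]
    calc 2 ^ t ≤ 2 ^ 4 := Nat.pow_le_pow_right (by norm_num) ht4
      _ = 16 := by norm_num
  have hN22 : N ≤ 22 := by omega
  have hBm : B ≤ m := by
    rw [hm, mul_assoc]; exact Nat.le_mul_of_pos_right _ (Nat.mul_pos hk he)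
  have hkm : k ≤ m := by
    rw [hm, show B * k * e = k * (B * e) by ring]
    exact Nat.le_mul_of_pos_right _ (Nat.mul_pos (by omega) he)
  have hem : e ≤ m := by
    rw [hm]; exact Nat.le_mul_of_pos_left _ hBk
  have hq : ∀ r ∈ P, r ∣ B * Nat.gcd e k := by
    intro r hr
    obtain ⟨_, _, _, h | ⟨_, h1, h2⟩⟩ := K1.mem_P hM hco hr
    · exact h.mul_right _
    · exact (Nat.dvd_gcd h1 h2).mul_left _
  have hgk0 : 0 < Nat.gcd e k := Nat.gcd_pos_of_pos_left _ he
  have hq0 : 0 < B * Nat.gcd e k := Nat.mul_pos (by omega) hgk0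
  have hqm : B * Nat.gcd e k ≤ m := by
    have h1 : Nat.gcd e k ≤ e := Nat.le_of_dvd he (Nat.gcd_dvd_left _ _)
    calc B * Nat.gcd e k ≤ B * e := Nat.mul_le_mul_left _ h1
      _ ≤ B * e * k := Nat.le_mul_of_pos_right _ hk
      _ = m := by rw [hm]; ring
  have hom : P.card ≤ K1.om (B * Nat.gcd e k) :=
    K1.card_le_om (by omega) hq0 P fun r hr => ⟨hPp r hr, hq r hr⟩
  have homo : Q.card ≤ K1.omo (Nat.gcd (A + g * e) (g * Y - 1)) := by
    refine K1.card_le_omo Q fun r hr => ?_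
    obtain ⟨h1, h2, h4, h5⟩ := hQm r hr
    refine ⟨h1, h2, ?_, Nat.dvd_gcd h4 h5⟩
    have := Nat.le_of_dvd hspos (hQs r hr)
    omega
  have hXom : X ≤ 2 ^ (K1.om (B * Nat.gcd e k) + K1.omo (Nat.gcd (A + g * e) (g * Y - 1)) + ε) := by
    rw [hX]
    exact Nat.pow_le_pow_right (by norm_num) (by omega)
  have hA' : (1 + g * Y) / (B * k) = A := by
    rw [← hM]; exact Nat.mul_div_cancel _ hBk
  have hmod : (1 + g * Y) % (B * k) = 0 := by rw [← hM]; exact Nat.mul_mod_left _ _
  have hk2 : 2 ≤ k := le_trans hp.two_le (Nat.le_of_dvd hk hpk)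
  have hcond : (decide (3 ≤ B) && decide (2 ≤ k) && decide (0 < e) && decide (B * k * e ≤ 22)) = true := by
    simp only [Bool.and_eq_true, decide_eq_true_eq]
    exact ⟨⟨⟨by omega, hk2⟩, he⟩, by omega⟩
  have c := K1.chk5
  rw [List.all_eq_true] at c
  have c := c B (List.mem_range.2 (by omega))
  rw [List.all_eq_true] at c
  have c := c k (List.mem_range.2 (by omega))
  rw [List.all_eq_true] at c
  have c := c e (List.mem_range.2 (by omega))
  rw [hcond] at c
  simp only [Bool.not_true, Bool.false_or] at c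
  rw [List.all_eq_true] at c
  have c := c Y (List.mem_range.2 (by omega))
  have hY' : (decide (0 < Y) && decide (Y + B * k * e ≤ 22)) = true := by
    simp only [Bool.and_eq_true, decide_eq_true_eq]
    exact ⟨hY, by omega⟩
  rw [hY'] at c
  simp only [Bool.not_true, Bool.false_or] at c
  rw [List.all_eq_true] at c
  have c := c g (List.mem_range.2 (by omega))
  rw [hA'] at c
  have hcond2 : (decide (0 < g) && ((1 + g * Y) % (B * k) == 0) && decide (g * e < 3 * A) &&
      Nat.gcd A (g * e) == 1) = true := by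
    simp only [Bool.and_eq_true, decide_eq_true_eq, beq_iff_eq]
    exact ⟨⟨⟨hg, hmod⟩, h3⟩, hco⟩
  rw [hcond2] at c
  simp only [Bool.not_true, Bool.false_or] at c
  rw [List.all_eq_true] at c
  have hpm : p < 61 := by
    have := Nat.le_of_dvd hk hpk
    omega
  have c := c p (K1.mem_list p hpm hp)
  have hcond3 : (k % p == 0 && B % p != 0 && (g * e) % p != 0) = true := by
    simp only [Bool.and_eq_true, beq_iff_eq, bne_iff_ne]
    refine ⟨⟨Nat.mod_eq_zero_of_dvd hpk, fun h1 => hpB (Nat.dvd_of_mod_eq_zero h1)⟩,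
      fun h1 => hpge (Nat.dvd_of_mod_eq_zero h1)⟩
  rw [hcond3] at c
  simp only [Bool.not_true, Bool.false_or, decide_eq_true_eq] at c
  exact le_trans (Nat.mul_le_mul_right _ hXom) c

end Pool.Agent.H4G
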