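import Pool.Agent.H4G.Arith.K1NumK2

/-!
# Line B, `K = 1`: T6, level two, `d > 1` (statement: helper9; Lean: helper64)
-/

set_option autoImplicit false

namespace Pool.Agent.H4G

namespace K2W

/-- the last step: `2205 * 4 ^ K ≤ 448 n ^ 2` -/
theorem fin6 {A g e Y n K z M : ℕ} (_hA : 0 < A) (_hg : 0 < g) (hn : n = Y + z)
    (hz : g * z = g * e * M) (hM : A * M = 1 + g * Y) (hY2 : 2 ≤ g * Y) (h3 : g * e < 3 * A)
    (hgn : 146 ≤ g * n) (hK : 2205 * 4 ^ K ≤ 448 * n ^ 2) :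
    2 ^ K * (2 * (A * g)) ≤ (A + g * e) * (g * Y - 2) := by
  obtain ⟨p, hp⟩ : ∃ p : ℕ, p = 2 ^ K := ⟨_, rfl⟩
  have h4 : 4 ^ K = p ^ 2 := by
    rw [hp, ← pow_mul, mul_comm K 2, pow_mul]; norm_num
  rw [h4] at hK
  rw [← hp]
  have key : g * (2 * p) + 11 ≤ g * n := by
    by_contra hcon
    push Not at hcon
    have h5 : g * n ≤ 2 * (g * p) + 10 := by
      have e1 : g * (2 * p) = 2 * (g * p) := by ring
      omega
    obtain ⟨b, hb⟩ : ∃ b : ℕ, b = g * n := ⟨_, rfl⟩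
    obtain ⟨a, ha⟩ : ∃ a : ℕ, a = g * p := ⟨_, rfl⟩
    rw [← hb, ← ha] at h5
    rw [← hb] at hgn
    have h6 : 2205 * a ^ 2 ≤ 448 * b ^ 2 := by
      rw [ha, hb]
      have := Nat.mul_le_mul_left (g ^ 2) hK
      calc 2205 * (g * p) ^ 2 = g ^ 2 * (2205 * p ^ 2) := by ring
        _ ≤ g ^ 2 * (448 * n ^ 2) := this
        _ = 448 * (g * n) ^ 2 := by ring
    zify at h5 h6 hgn
    have h7 : ((b : ℤ) - 10) ^ 2 ≤ (2 * a) ^ 2 := by
      have h8 : (0 : ℤ) ≤ (b : ℤ) - 10 := by linarith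
      have h9 : (b : ℤ) - 10 ≤ 2 * a := by linarith
      exact pow_le_pow_left₀ h8 h9 2
    nlinarith
  obtain ⟨w, hw⟩ : ∃ w : ℕ, g * Y = w + 2 := ⟨g * Y - 2, by omega⟩
  rw [hw, Nat.add_sub_cancel]
  have e1 : (A + g * e) * w + 2 * A + 3 * (g * e) = A * (g * n) := by
    rw [hn, mul_add g, hz, hw]
    rw [hw] at hM
    nlinarith
  have h5 : A * (g * (2 * p) + 11) ≤ A * (g * n) := Nat.mul_le_mul_left _ key
  nlinarith

theorem sz_le {Y z : ℕ} (hz : z ≤ 3 * Y + 2) (hY : 3 ≤ Y) :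
    4 * ((3 * Y + 2 * z) * z) ≤ 7 * (Y + z) ^ 2 := by
  zify at hz hY ⊢
  have hz0 : (0 : ℤ) ≤ z := by positivity
  nlinarith [mul_nonneg hz0 (sub_nonneg.2 hz), mul_nonneg (sub_nonneg.2 hY) (sub_nonneg.2 hY),
    mul_nonneg (sub_nonneg.2 hY) (sub_nonneg.2 hz)]

end K2W

open K2W in
/-- T6: level 2, d > 1 -/
theorem K1.t6 {d A B k g e Y : ℕ} (hd : 2 ≤ d) (hd2 : d % 2 = 1) (hA : A % 2 = 1) (hg : 0 < g)
    (he : 0 < e) (hY : 0 < Y) (hk : k % 2 = 1) (hB : d < B) (hB4 : B % 4 = d % 4)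
    (h4 : 4 ∣ g * e) (hM : A * (B * k) = 1 + g * Y) (h3 : g * e < 3 * A)
    (hco : Nat.Coprime A (g * e)) (hco1 : Nat.Coprime d B) (hco2 : Nat.Coprime d (g * e))
    (hrad : ∀ r : ℕ, r.Prime → r ∣ d → r ∣ k) :
    2 ^ (k2 A B k g e Y + (Nat.gcd (d * (A + g * e)) (g * Y - 2)).primeFactors.card) *
      (2 * (A * g)) ≤ (A + g * e) * (g * Y - 2) := by
  classical
  have hge : 0 < g * e := Nat.mul_pos hg he
  have hge4 : 4 ≤ g * e := Nat.le_of_dvd hge h4
  have hA3 : 3 ≤ A := by omega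
  have hd3 : 3 ≤ d := by omega
  have hB7 : d + 4 ≤ B := by omega
  have hBodd : B % 2 = 1 := by omega
  obtain ⟨r0, hr0, hr0d⟩ := Nat.exists_prime_and_dvd (show d ≠ 1 by omega)
  have hr0k := hrad r0 hr0 hr0d
  have hr0le := Nat.le_of_dvd (by omega) hr0d
  have hr03 : 3 ≤ r0 := by
    have h1 := hr0.two_le
    have h2 : r0 ≠ 2 := by rintro rfl; omega
    omega
  have hr0B : ¬ r0 ∣ B := fun h1 => by
    have h2 := Nat.dvd_gcd hr0d h1
    rw [hco1] at h2
    exact hr0.one_lt.ne' (Nat.dvd_one.1 h2)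
  have hr0e : ¬ r0 ∣ e := fun h1 => by
    have h2 := Nat.dvd_gcd hr0d (h1.mul_left g)
    rw [hco2] at h2
    exact hr0.one_lt.ne' (Nat.dvd_one.1 h2)
  have hk0 : 0 < k := by omega
  have hk3 : 3 ≤ k := hr03.trans (Nat.le_of_dvd hk0 hr0k)
  have hM21 : 21 ≤ B * k := by
    calc 21 = 7 * 3 := by norm_num
      _ ≤ B * k := Nat.mul_le_mul (by omega) hk3
  -- sizes
  obtain ⟨z, hz⟩ : ∃ z : ℕ, z = e * (B * k) := ⟨_, rfl⟩
  obtain ⟨s, hs⟩ : ∃ s : ℕ, s = 3 * Y + 2 * z := ⟨_, rfl⟩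
  obtain ⟨n, hn⟩ : ∃ n : ℕ, n = Y + z := ⟨_, rfl⟩
  have hgz : g * z = g * e * (B * k) := by rw [hz]; ring
  have hgn1 : g * n + 1 = (A + g * e) * (B * k) := by
    rw [hn, mul_add, hgz, add_mul, hM]; ring
  have hgn : 146 ≤ g * n := by
    have h1 : 7 * 21 ≤ (A + g * e) * (B * k) := Nat.mul_le_mul (by omega) hM21
    omega
  have hz21 : 21 ≤ z := by
    rw [hz]
    calc 21 ≤ B * k := hM21
      _ ≤ e * (B * k) := Nat.le_mul_of_pos_left _ he
  have hgzle : g * z ≤ 3 * (g * Y) + 2 := by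
    have h1 : g * e * (B * k) + (B * k) ≤ 3 * A * (B * k) := by
      have := Nat.mul_le_mul_right (B * k) (show g * e + 1 ≤ 3 * A by omega)
      linarith
    have h2 : 3 * A * (B * k) = 3 * (1 + g * Y) := by rw [mul_assoc, hM]
    rw [hgz]
    omega
  have hzle : z ≤ 3 * Y + 2 := by
    by_contra hcon
    push Not at hcon
    have h1 : g * (3 * Y + 3) ≤ g * z := Nat.mul_le_mul_left _ (by omega)
    have h2 : g * (3 * Y + 3) = 3 * (g * Y) + 3 * g := by ring
    omega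
  have hY7 : 7 ≤ Y := by omega
  have hgY2 : 2 ≤ g * Y := by
    have : 1 * 7 ≤ g * Y := Nat.mul_le_mul hg hY7
    omega
  have hsz : 4 * (s * z) ≤ 7 * n ^ 2 := by
    rw [hs, hn]; exact sz_le hzle (by omega)
  have hs63 : 63 ≤ s := by omega
  -- the primes `X`
  obtain ⟨X, hX⟩ : ∃ X : Finset ℕ, X = (Nat.gcd (d * (A + g * e)) (g * Y - 2)).primeFactors :=
    ⟨_, rfl⟩
  rw [← hX]
  have hXp : ∀ r ∈ X, (r.Prime ∧ 3 ≤ r) ∧ r ∣ s := by
    intro r hr
    rw [hX] at hr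
    have h1 := Nat.prime_of_mem_primeFactors hr
    have h2 := Nat.dvd_of_mem_primeFactors hr
    have h5 := h2.trans (Nat.gcd_dvd_left _ _)
    have h6 := h2.trans (Nat.gcd_dvd_right _ _)
    have hr2 : r ≠ 2 := by
      rintro rfl
      rcases h1.dvd_mul.1 h5 with h7 | h7
      · omega
      · omega
    have hrg : ¬ r ∣ g := by
      intro h7
      have h8 : r ∣ 2 := by
        have h9 : r ∣ g * Y - 2 + 2 := by
          rw [Nat.sub_add_cancel hgY2]; exact h7.mul_right _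
        exact (Nat.dvd_add_right h6).1 h9
      exact hr2 ((Nat.prime_dvd_prime_iff_eq h1 Nat.prime_two).1 h8)
    have hrM : r ∣ (A + g * e) * (B * k) := by
      rcases h1.dvd_mul.1 h5 with h7 | h7
      · exact ((hrad r h1 h7).mul_left _).mul_left _
      · exact h7.mul_right _
    have h7 : r ∣ g * s := by
      have e1 : g * s = (g * Y - 2) + 2 * ((A + g * e) * (B * k)) := by
        rw [← hgn1, hs, hn, mul_add g (3 * Y), mul_add g Y]
        have e2 : g * (3 * Y) = 3 * (g * Y) := by ring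
        have e3 : g * (2 * z) = 2 * (g * z) := by ring
        rw [e2, e3]
        omega
      rw [e1]
      exact Nat.dvd_add h6 (hrM.mul_left _)
    have h8 := h1.two_le
    exact ⟨⟨h1, by omega⟩, (h1.dvd_mul.1 h7).resolve_left hrg⟩
  have hXs : ∏ p ∈ X, p ≤ s :=
    Nat.le_of_dvd (by omega) (prod_dvd fun p hp => ⟨(hXp p hp).1.1, (hXp p hp).2⟩)
  -- the primes of `e` and `k`
  obtain ⟨H, hH⟩ : ∃ H : Finset ℕ, H = (Nat.gcd e k).primeFactors := ⟨_, rfl⟩
  have hHp : ∀ p ∈ H, p.Prime ∧ p ∣ e ∧ p ∣ k := by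
    intro p hp
    rw [hH] at hp
    have h1 := Nat.dvd_of_mem_primeFactors hp
    exact ⟨Nat.prime_of_mem_primeFactors hp, h1.trans (Nat.gcd_dvd_left _ _),
      h1.trans (Nat.gcd_dvd_right _ _)⟩
  have hkH : ∀ Q : Finset ℕ, Q ⊆ H → (∏ p ∈ Q, p) * r0 ≤ k := by
    intro Q hQ
    have h1 : r0 ∉ Q := fun h2 => hr0e (hHp r0 (hQ h2)).2.1
    have h2 : ∏ p ∈ insert r0 Q, p ∣ k := by
      refine prod_dvd fun p hp => ?_
      rcases Finset.mem_insert.1 hp with h5 | h5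
      · rw [h5]; exact ⟨hr0, hr0k⟩
      · exact ⟨(hHp p (hQ h5)).1, (hHp p (hQ h5)).2.2⟩
    rw [Finset.prod_insert h1, mul_comm] at h2
    exact Nat.le_of_dvd hk0 h2
  have hP := P_sub (by omega : 0 < B) he hM hco
  rw [← hH] at hP
  obtain ⟨P, hPd⟩ : ∃ P : Finset ℕ, P = (Nat.gcd (g * e * B) (1 + g * Y)).primeFactors :=
    ⟨_, rfl⟩
  rw [← hPd] at hP
  have hk2 : k2 A B k g e Y = (P.erase 3).card +
    (if 3 ∣ g * e ∧ ¬ 3 ∣ g * Y then (if 9 ∣ g * e then 2 else 1)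
     else if 3 ∣ Nat.gcd (g * e * B) (1 + g * Y) then 1 else 0) := by rw [hPd]; rfl
  refine fin6 (n := n) (z := z) (M := B * k) (by omega) hg hn hgz hM hgY2 h3 hgn ?_
  rw [pow_add]
  by_cases hc : 3 ∣ g * e ∧ ¬ 3 ∣ g * Y
  · -- `3 ∣ e`
    obtain ⟨hc1, hc2⟩ := hc
    have p3 := Nat.prime_three
    have h3g : ¬ 3 ∣ g := fun h1 => hc2 (h1.mul_right _)
    have h3e : 3 ∣ e := (p3.dvd_mul.1 hc1).resolve_left h3g
    have h3A : ¬ 3 ∣ A := fun h1 => by
      have h2 := Nat.dvd_gcd h1 hc1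
      rw [hco] at h2
      omega
    have h3d : ¬ 3 ∣ d := fun h1 => by
      have h2 := Nat.dvd_gcd h1 hc1
      rw [hco2] at h2
      omega
    have hr05 : 5 ≤ r0 := ge5 hr0 hr03 (fun h1 => h3d (h1 ▸ hr0d))
    have hB9 : 9 ≤ B := by omega
    have h3X : 3 ∉ X := by
      intro h1
      rw [hX] at h1
      have h2 := (Nat.dvd_of_mem_primeFactors h1).trans (Nat.gcd_dvd_left _ _)
      rcases p3.dvd_mul.1 h2 with h5 | h5
      · exact h3d h5
      · exact h3A ((Nat.dvd_add_left hc1).1 h5)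
    have hX4 : 35 * 4 ^ X.card ≤ 16 * s := by
      by_cases h2 : 2 ≤ X.card
      · have h1 := w5 (Q := X) (fun p hp => ⟨(hXp p hp).1.1,
          ge5 (hXp p hp).1.1 (hXp p hp).1.2 (fun h6 => h3X (h6 ▸ hp))⟩) h2
        linarith
      · have h1 : 4 ^ X.card ≤ 4 ^ 1 := Nat.pow_le_pow_right (by norm_num) (by omega)
        omega
    -- the sets without three
    obtain ⟨PB, hPB⟩ : ∃ PB : Finset ℕ, PB = B.primeFactors.erase 3 := ⟨_, rfl⟩
    obtain ⟨PH, hPH⟩ : ∃ PH : Finset ℕ, PH = H.erase 3 := ⟨_, rfl⟩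
    have hPBp : ∀ p ∈ PB, p.Prime ∧ 5 ≤ p := by
      intro p hp
      rw [hPB] at hp
      obtain ⟨h1, h2⟩ := Finset.mem_erase.1 hp
      have h5 := Nat.prime_of_mem_primeFactors h2
      refine ⟨h5, ge5 h5 ?_ h1⟩
      have h6 := h5.two_le
      have h7 : p ≠ 2 := by
        rintro rfl
        have := Nat.dvd_of_mem_primeFactors h2
        omega
      omega
    have hB4' : 35 * 4 ^ PB.card ≤ 16 * B := by
      by_cases h2 : 2 ≤ PB.card
      · have h1 := w5 hPBp h2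
        have h5 : ∏ p ∈ PB, p ≤ B := prod_le (by omega) (by rw [hPB]; exact Finset.erase_subset _ _)
        linarith
      · have h1 : 4 ^ PB.card ≤ 4 ^ 1 := Nat.pow_le_pow_right (by norm_num) (by omega)
        omega
    obtain ⟨q, hq⟩ : ∃ q : ℕ, q = ∏ p ∈ PH, p := ⟨_, rfl⟩
    have hPHs : PH ⊆ H := by rw [hPH]; exact Finset.erase_subset _ _
    have hH4 : 4 ^ PH.card ≤ q ^ 2 := by
      rw [hq]; exact sq4 fun p hp => (hHp p (hPHs hp)).1.two_le
    have hkq : q * r0 ≤ k := by rw [hq]; exact hkH PH hPHs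
    have hqe : q ∣ e := by
      rw [hq]; exact prod_dvd fun p hp => ⟨(hHp p (hPHs hp)).1, (hHp p (hPHs hp)).2.1⟩
    have hq3 : Nat.Coprime 3 q := by
      rw [hq]
      refine Nat.Coprime.prod_right fun p hp => ?_
      rw [hPH] at hp
      have h1 := Finset.mem_erase.1 hp
      exact (Nat.coprime_primes p3 (hHp p h1.2).1).2 (fun h5 => h1.1 h5.symm)
    have hcard : (P.erase 3).card ≤ PB.card + PH.card := by
      refine le_trans (Finset.card_le_card ?_) (Finset.card_union_le _ _)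
      intro r hr
      obtain ⟨h1, h2⟩ := Finset.mem_erase.1 hr
      rcases Finset.mem_union.1 (hP h2) with h5 | h5
      · exact Finset.mem_union_left _ (by rw [hPB]; exact Finset.mem_erase.2 ⟨h1, h5⟩)
      · exact Finset.mem_union_right _ (by rw [hPH]; exact Finset.mem_erase.2 ⟨h1, h5⟩)
    have hP4 : 35 * 4 ^ (P.erase 3).card ≤ 16 * (B * q ^ 2) := by
      have h1 : 4 ^ (P.erase 3).card ≤ 4 ^ PB.card * 4 ^ PH.card := by
        rw [← pow_add]; exact Nat.pow_le_pow_right (by norm_num) hcard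
      have h2 := Nat.mul_le_mul hB4' hH4
      calc 35 * 4 ^ (P.erase 3).card ≤ 35 * (4 ^ PB.card * 4 ^ PH.card) := by
            exact Nat.mul_le_mul_left _ h1
        _ = 35 * 4 ^ PB.card * 4 ^ PH.card := by ring
        _ ≤ 16 * B * q ^ 2 := h2
        _ = 16 * (B * q ^ 2) := by ring
    -- `z`
    have hz2 : ∀ m : ℕ, m * q ≤ e → m * (5 * (B * q ^ 2)) ≤ z := by
      intro m hm
      rw [hz]
      have h1 : q * 5 ≤ k := (Nat.mul_le_mul_left q hr05).trans hkq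
      calc m * (5 * (B * q ^ 2)) = (m * q) * (B * (q * 5)) := by ring
        _ ≤ e * (B * k) := Nat.mul_le_mul hm (Nat.mul_le_mul_left _ h1)
    rw [hk2, if_pos ⟨hc1, hc2⟩]
    by_cases h9 : 9 ∣ g * e
    · rw [if_pos h9]
      have h9e : 9 ∣ e := by
        have h1 : Nat.Coprime (3 ^ 2) g := Nat.Coprime.pow_left 2
          ((Nat.Prime.coprime_iff_not_dvd p3).2 h3g)
        norm_num at h1
        exact h1.dvd_of_dvd_mul_left h9
      have h9q : 9 * q ≤ e := by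
        refine Nat.le_of_dvd he (Nat.Coprime.mul_dvd_of_dvd_of_dvd ?_ h9e hqe)
        have := Nat.Coprime.pow_left 2 hq3
        norm_num at this
        exact this
      have h1 := hz2 9 h9q
      rw [pow_add]
      have h2 : 35 * 45 * 4 ^ (P.erase 3).card ≤ 16 * z := by linarith
      have h5 := Nat.mul_le_mul h2 hX4
      have e1 : 2205 * (4 ^ (P.erase 3).card * 4 ^ 2 * 4 ^ X.card) * 25 =
          16 * (35 * 45 * 4 ^ (P.erase 3).card * (35 * 4 ^ X.card)) := by ring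
      have e2 : 16 * z * (16 * s) = 256 * (s * z) := by ring
      rw [e2] at h5
      have h6 : 2205 * (4 ^ (P.erase 3).card * 4 ^ 2 * 4 ^ X.card) * 25 ≤ 448 * n ^ 2 * 25 := by
        rw [e1]
        have := Nat.zero_le (n ^ 2)
        linarith
      linarith
    · rw [if_neg h9]
      have h9q : 3 * q ≤ e :=
        Nat.le_of_dvd he (Nat.Coprime.mul_dvd_of_dvd_of_dvd hq3 h3e hqe)
      have h1 := hz2 3 h9q
      rw [pow_add]
      have h2 : 35 * 15 * 4 ^ (P.erase 3).card ≤ 16 * z := by linarith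
      have h5 := Nat.mul_le_mul h2 hX4
      have e1 : 2205 * (4 ^ (P.erase 3).card * 4 ^ 1 * 4 ^ X.card) * 25 =
          12 * (35 * 15 * 4 ^ (P.erase 3).card * (35 * 4 ^ X.card)) := by ring
      have e2 : 16 * z * (16 * s) = 256 * (s * z) := by ring
      rw [e2] at h5
      have h6 : 2205 * (4 ^ (P.erase 3).card * 4 ^ 1 * 4 ^ X.card) * 25 ≤ 448 * n ^ 2 * 25 := by
        rw [e1]
        have := Nat.zero_le (n ^ 2)
        linarith
      linarith
  · -- the general case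
    have hk2' : k2 A B k g e Y ≤ B.primeFactors.card + H.card := by
      refine le_trans ?_ ((Finset.card_le_card hP).trans (Finset.card_union_le _ _))
      rw [hk2, if_neg hc]
      by_cases h5 : 3 ∣ Nat.gcd (g * e * B) (1 + g * Y)
      · rw [if_pos h5]
        have h6 : 3 ∈ P := by
          rw [hPd, Nat.mem_primeFactors]
          have := Nat.gcd_pos_of_pos_right (g * e * B) (show 0 < 1 + g * Y by omega)
          exact ⟨Nat.prime_three, h5, by omega⟩
        rw [Finset.card_erase_add_one h6]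
      · rw [if_neg h5]
        exact Finset.card_erase_le
    obtain ⟨q, hq⟩ : ∃ q : ℕ, q = ∏ p ∈ H, p := ⟨_, rfl⟩
    have hH4 : 4 ^ H.card ≤ q ^ 2 := by
      rw [hq]; exact sq4 fun p hp => (hHp p hp).1.two_le
    have hkq : q * r0 ≤ k := by rw [hq]; exact hkH H (Finset.Subset.refl _)
    have hqe : q ≤ e := by
      rw [hq]
      exact Nat.le_of_dvd he (prod_dvd fun p hp => ⟨(hHp p hp).1, (hHp p hp).2.1⟩)
    have hB4' := wB hBodd hr0 hr03 hr0B (by omega)
    have hz2 : B * r0 * q ^ 2 ≤ z := by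
      rw [hz]
      calc B * r0 * q ^ 2 = q * (B * (q * r0)) := by ring
        _ ≤ e * (B * k) := Nat.mul_le_mul hqe (Nat.mul_le_mul_left _ hkq)
    have hP4 : 21 * 4 ^ k2 A B k g e Y ≤ 4 * z := by
      have h1 : 4 ^ k2 A B k g e Y ≤ 4 ^ B.primeFactors.card * 4 ^ H.card := by
        rw [← pow_add]; exact Nat.pow_le_pow_right (by norm_num) hk2'
      have h2 := Nat.mul_le_mul hB4' hH4
      calc 21 * 4 ^ k2 A B k g e Y ≤ 21 * (4 ^ B.primeFactors.card * 4 ^ H.card) :=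
            Nat.mul_le_mul_left _ h1
        _ = 21 * 4 ^ B.primeFactors.card * 4 ^ H.card := by ring
        _ ≤ 4 * (B * r0) * q ^ 2 := h2
        _ = 4 * (B * r0 * q ^ 2) := by ring
        _ ≤ 4 * z := Nat.mul_le_mul_left _ hz2
    have hX4 : 105 * 4 ^ X.card ≤ 64 * s := by
      by_cases h2 : 3 ≤ X.card
      · have h1 := w3 (Q := X) (fun p hp => (hXp p hp).1) h2
        linarith
      · have h1 : 4 ^ X.card ≤ 4 ^ 2 := Nat.pow_le_pow_right (by norm_num) (by omega)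
        omega
    have h5 := Nat.mul_le_mul hP4 hX4
    have e1 : 21 * 4 ^ k2 A B k g e Y * (105 * 4 ^ X.card) =
        2205 * (4 ^ k2 A B k g e Y * 4 ^ X.card) := by ring
    have e2 : 4 * z * (64 * s) = 64 * (4 * (s * z)) := by ring
    rw [e1, e2] at h5
    linarith

end Pool.Agent.H4G
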