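import Pool.Agent.H4G.Arith.K1NumW
import Pool.Agent.H4G.Arith.K1NumT1
import Pool.Agent.H4G.Arith.K1NumT5
import Pool.Agent.H4G.Arith.K1NumT4
import Pool.Agent.H4G.Arith.K1NumT6
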