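import Pool.Agent.H4G.Arith.K1L1c
import Pool.Agent.H4G.Arith.K1Num

/-!
# Level one exits for `K = 1`: the case `gcd (A, e) = 1` (helper9)
-/

set_option autoImplicit false

namespace Pool.Agent.H4G

variable {S : PSt} {a' b c A a e f y φ : ℤ} {l p : Z2} {N A1 B k g e2 Y : ℕ}

/-- `gcd (A, c) = 1` -/
theorem KD.coA (D : KD A b c a e y 1 A1 B k g e2 Y) : IsCoprime A c ∧ IsCoprime A e := by
  have h1 : IsCoprime (A1 : ℤ) ((g * e2 : ℕ) : ℤ) := Nat.isCoprime_iff_coprime.2 D.co1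
  have h2 : A = A1 := by rw [D.hA]; push_cast; ring
  have h3 : e = ((g * e2 : ℕ) : ℤ) := by rw [D.he]; push_cast; ring
  have h4 : c = ((g * e2 : ℕ) : ℤ) + A1 * 1 := by rw [D.hc]; push_cast; ring
  rw [h2, h3, h4]
  exact ⟨h1.add_mul_left_right 1, h1⟩

theorem KD.y2 {d : ℕ} (D : KD A b c a e y d A1 B k g e2 Y) (hb3 : 3 ≤ b) : 2 ≤ y := by
  have h1 : (A1 : ℤ) * (B * k) = 1 + g * Y := by exact_mod_cast D.hM
  have h2 : b * k = 1 + y := by rw [D.hb, D.hy]; linear_combination h1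
  have h3 : (1 : ℤ) ≤ k := by exact_mod_cast D.k0
  nlinarith

/-- the parity of `ω` -/
theorem K1N.par (H : K1N S a' b c A a e f y φ l p N 1 A1 B k g e2 Y) (he : (2 : ℤ) ∣ e) :
    (2 : ℤ) ∣ (g : ℤ) ∧ (2 : ℤ) ∣ φ := by
  have p2 := Int.prime_two
  have hA : ¬ (2 : ℤ) ∣ A := by
    intro h1
    have h2 := H.D.coA.2.isUnit_of_dvd' h1 he
    rw [Int.isUnit_iff] at h2
    omega
  obtain ⟨hb, hy, hφ, ha, hc⟩ := H.h.P0 H.hN H.hv H.hb3 H.he3 hA he
  refine ⟨?_, hφ⟩
  by_contra hg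
  rw [H.D.hy] at hy
  have hY := (p2.dvd_or_dvd hy).resolve_left hg
  rw [H.D.he] at he
  have he1 : (2 : ℤ) ∣ g * e2 := by simpa using he
  have he2 := (p2.dvd_or_dvd he1).resolve_left hg
  have h1 : IsCoprime (Y : ℤ) (e2 : ℤ) := Nat.isCoprime_iff_coprime.2 H.D.co4
  have h2 := h1.isUnit_of_dvd' hY he2
  rw [Int.isUnit_iff] at h2
  omega

/-- the modulus of the `κ`-class -/
theorem K1N.exists_m0 (H : K1N S a' b c A a e f y φ l p N 1 A1 B k g e2 Y) :
    ∃ m0 : ℤ, 3 ≤ m0 ∧ ¬ (2 : ℤ) ∣ m0 ∧ IsCoprime m0 g ∧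
      ∀ ω : ℤ, ((2 : ℤ) ∣ e → (2 : ℤ) ∣ ω) → (A + c) ∣ (1 + ω) * e → m0 ∣ 1 + ω := by
  have hA0 := H.h.A0
  have he0 := H.h.e0
  have hc := H.h.hc
  have hAe := H.D.coA.2
  have hge : (g : ℤ) ∣ e := by rw [H.D.he]; exact ⟨e2, by push_cast; ring⟩
  by_cases he : (2 : ℤ) ∣ e
  · obtain ⟨e', he'⟩ := he
    have hA2 : ¬ (2 : ℤ) ∣ A := by
      intro h1
      have h2 := hAe.isUnit_of_dvd' h1 ⟨e', he'⟩
      rw [Int.isUnit_iff] at h2
      omega
    have hco : IsCoprime (A + e') e' := by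
      have h1 : IsCoprime A e' := by rw [he'] at hAe; exact hAe.of_mul_right_right
      have := h1.add_mul_left_left 1
      simpa using this
    have key : ∀ ω : ℤ, (A + c) ∣ (1 + ω) * e → (A + e') ∣ 1 + ω := by
      intro ω h1
      have h2 : A + c = 2 * (A + e') := by rw [hc, he']; ring
      have h3 : (1 + ω) * e = 2 * ((1 + ω) * e') := by rw [he']; ring
      rw [h2, h3] at h1
      exact hco.dvd_of_dvd_mul_right ((mul_dvd_mul_iff_left two_ne_zero).1 h1)
    by_cases h2 : (2 : ℤ) ∣ A + e'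
    · refine ⟨2 * g + 1, ?_, by omega, ⟨1, -2, by ring⟩, fun ω h3 h4 => ?_⟩
      · have := H.D.g0; omega
      · exfalso
        have h5 := h2.trans (key ω h4)
        have h6 := h3 ⟨e', he'⟩
        omega
    · refine ⟨A + e', by omega, h2, ?_, fun ω _ h4 => key ω h4⟩
      refine isCoprime_of_prime fun r hr h3 h4 => ?_
      have h5 : (r : ℤ) ∣ 2 * e' := by rw [← he']; exact h3.trans hge
      rcases pdvd_mul hr h5 with h6 | h6
      · have h6 : r ∣ 2 := by exact_mod_cast h6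
        have := (Nat.prime_dvd_prime_iff_eq hr Nat.prime_two).1 h6
        subst this
        exact h2 (by exact_mod_cast h4)
      · exact not_dvd_of_isCoprime hco hr h6 h4
  · have hco : IsCoprime (A + c) e := by
      refine isCoprime_of_prime fun r hr h3 h4 => ?_
      have h5 : (r : ℤ) ∣ 2 * A := by
        have : 2 * A = (A + c) - e := by rw [hc]; ring
        rw [this]; exact dvd_sub h4 h3
      rcases pdvd_mul hr h5 with h6 | h6
      · have h6 : r ∣ 2 := by exact_mod_cast h6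
        have := (Nat.prime_dvd_prime_iff_eq hr Nat.prime_two).1 h6
        subst this
        exact he (by exact_mod_cast h3)
      · exact not_dvd_of_isCoprime hAe hr h3 h6
    refine ⟨A + c, by omega, by omega, ?_, fun ω _ h4 => hco.dvd_of_dvd_mul_right h4⟩
    exact hco.of_isCoprime_of_dvd_right hge

/-- the end for an admissible `ω` outside the `κ`-class -/
theorem K1N.fin_w (H : K1N S a' b c A a e f y φ l p N 1 A1 B k g e2 Y)
    {ω m : ℤ} (hω : ω = φ + g * m) (h1 : c < A * ω) (h2 : A * ω ≤ c * y)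
    (hP : ∀ r : ℕ, r.Prime → (r : ℤ) ∣ a → (r : ℤ) ∣ 1 + y →
      ¬ ((r : ℤ) ∣ 1 * (1 + ω) * e ∧ (r : ℤ) ∣ 2 * b + a - 1 * (1 + ω) * f))
    (hk : ¬ (A + c) ∣ (1 + ω) * e) :
    ∃ (T : PSt) (δ : ℤ), SEq S T ∧ IsC T.L T.v δ ∧ δ ≤ 2 := by
  have hA0 := H.h.A0
  have he0 := H.h.e0
  have hc := H.h.hc
  obtain ⟨t, i, κ, W, k1, k2, k3, k4, k5, k6, k7⟩ := H.sel (o := 1) (Or.inl rfl)
    (by rw [one_mul]; exact hω) h1 h2 hP
  have hne : κ ≠ A + c := by
    intro hκ
    have h3 := ((H.h.xgap k5).1 (dvd_refl κ)).1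
    rw [hκ] at h3
    have h4 : (A + c) ∣ 1 + y + kQ A1 B k g e2 := by
      have h5 : (A + c) ∣ A * (1 + y + kQ A1 B k g e2) := by
        have : A * (1 + y + kQ A1 B k g e2) = (A + c) * (1 + y) := by
          linear_combination H.D.hQ
        rw [this]; exact dvd_mul_right _ _
      have h6 : IsCoprime (A + c) A := by
        have := H.D.coA.1.symm.add_mul_left_left 1
        rwa [mul_one, add_comm] at this
      exact h6.dvd_of_dvd_mul_left h5
    refine hk ?_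
    have : (1 + ω) * e = W * e - i * (1 + y + kQ A1 B k g e2) * e := by rw [k2]; ring
    rw [this]
    exact dvd_sub h3 ((h4.mul_left _).mul_right _)
  have hle : κ ≤ c := by
    obtain ⟨q, hq⟩ := k6
    have hκ0 := k5.1
    have hq2 : 2 ≤ q := by
      by_contra hlt
      have hq1 : q ≤ 1 := by omega
      rcases lt_or_ge q 1 with h5 | h5
      · nlinarith
      · have : q = 1 := le_antisymm hq1 h5
        rw [this] at hq
        exact hne (by linarith)
    nlinarith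
  exact H.h.fin1 H.hN H.hv one_pos (by have := H.D.y2 H.hb3; linarith) k3 k4 k5 k6 k7
    H.D.coA.1 hle

end Pool.Agent.H4G
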