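import Pool.Agent.H4G.Arith.K1L1e

/-!
# Level one exits for `K = 1`: the case `gcd (A, e) = 1`, the count and the exceptions (helper9)
-/

set_option autoImplicit false

namespace Pool.Agent.H4G

variable {S : PSt} {a' b c A a e f y φ : ℤ} {l p : Z2} {N A1 B k g e2 Y : ℕ}

/-- the content of the new right lattice at a prime which does not divide `A` -/
theorem K1.content (h : K1 S a' b c A a e f y φ l p) {r : ℕ} (hr : r.Prime)
    (hrA : ¬ (r : ℤ) ∣ A) {s : ℕ} (hs : s ≠ 0) {τ : ℤ} (h1 : Dz ((r : ℤ) ^ s) ((y - 1) • S.u))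
    (h2 : Dz ((r : ℤ) ^ s) (τ • S.u + (S.v + l))) :
    (r : ℤ) ^ s ∣ c ∧ (r : ℤ) ^ s ∣ y - 1 ∧ (r : ℤ) ^ s ∣ τ := by
  have hc : (r : ℤ) ^ s ∣ c := by
    have := h2.cr_right S.u
    rwa [cr_add_right, cr_smul_right, cr_self, h.uw, mul_zero, zero_add] at this
  have hw : Dz ((r : ℤ) ^ s) (S.v + l) := by
    refine Dz.of_coprime (isCoprime_pow_prime hr hrA s) ?_
    rw [h.Aw]; exact Dz.of_dvd hc _
  have hrs : (r : ℤ) ∣ (r : ℤ) ^ s := dvd_pow_self _ hs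
  have hu : ¬ Dz r S.u := by
    intro h3
    have hcon := h.ext.con
    rw [h.L'_eq, con1_lat] at hcon
    exact hcon r hr ⟨h3.smul _, (h3.smul _).add (hw.trans' hrs)⟩
  obtain ⟨z, hz⟩ : ∃ z, ¬ (r : ℤ) ∣ cr S.u z := by
    by_contra hno
    push Not at hno
    exact hu (Dz.iff.2 hno)
  refine ⟨hc, ?_, ?_⟩
  · have := h1.cr_left z
    rw [cr_smul_left, mul_comm] at this
    exact ppow_cancel hr hz this
  · have h3 : Dz ((r : ℤ) ^ s) (τ • S.u) := by
      have := h2.sub hw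
      rwa [add_sub_cancel_right] at this
    have := h3.cr_left z
    rw [cr_smul_left, mul_comm] at this
    exact ppow_cancel hr hz this

theorem exists_two_classes {r : ℕ} (hr : r.Prime) (hr2 : r ≠ 2) (s1 s2 : ℤ) :
    ∃ x : ℤ, ¬ (r : ℤ) ∣ x - s1 ∧ ¬ (r : ℤ) ∣ x - s2 := by
  have h1 := prime_not_dvd_one hr
  by_cases h2 : (r : ℤ) ∣ s1 + 1 - s2
  · refine ⟨s1 + 2, fun h3 => ?_, fun h3 => h1 ?_⟩
    · have h4 : (r : ℤ) ∣ 2 := by simpa using h3
      have h5 : r ∣ 2 := by exact_mod_cast h4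
      exact hr2 ((Nat.prime_dvd_prime_iff_eq hr Nat.prime_two).1 h5)
    · have := dvd_sub h3 h2
      ring_nf at this
      exact this
  · refine ⟨s1 + 1, fun h3 => h1 ?_, h2⟩
    simpa using h3

/-- the main case -/
theorem K1N.fin_main (H : K1N S a' b c A a e f y φ l p N 1 A1 B k g e2 Y)
    (hcnt : 2 ^ ((Nat.gcd (g * e2 * B) (1 + g * Y)).primeFactors.card + 1) * (A1 * g) ≤
      (A1 + g * e2) * (g * Y - 1)) :
    ∃ (T : PSt) (δ : ℤ), SEq S T ∧ IsC T.L T.v δ ∧ δ ≤ 2 := by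
  classical
  have hA0 := H.h.A0
  have hy0 := H.h.y0
  have hc := H.h.hc
  have hy2 := H.D.y2 H.hb3
  have hya : (1 + y) ≠ 0 := by linarith
  have hgZ : (0 : ℤ) < g := by exact_mod_cast H.D.g0
  obtain ⟨m0, hm3, hm2, hmg, hm⟩ := H.exists_m0
  obtain ⟨s0, hs0⟩ := K1.lin_class hmg φ (-1)
  obtain ⟨s, hs⟩ : ∃ s : ℕ → ℤ, ∀ r : ℕ, r.Prime → (r : ℤ) ∣ a → (r : ℤ) ∣ 1 + y → ∀ x : ℤ,
      (r : ℤ) ∣ 1 * (1 + (φ + g * x)) * e → (r : ℤ) ∣ 2 * b + a - 1 * (1 + (φ + g * x)) * f →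
      (r : ℤ) ∣ x - s r := by
    have key : ∀ r : ℕ, ∃ s : ℤ, r.Prime → (r : ℤ) ∣ a → (r : ℤ) ∣ 1 + y → ∀ x : ℤ,
        (r : ℤ) ∣ 1 * (1 + (φ + g * x)) * e → (r : ℤ) ∣ 2 * b + a - 1 * (1 + (φ + g * x)) * f →
        (r : ℤ) ∣ x - s := by
      intro r
      by_cases hr : r.Prime ∧ (r : ℤ) ∣ a ∧ (r : ℤ) ∣ 1 + y
      · obtain ⟨s, hs⟩ := H.pclass (Or.inl rfl) hr.1 hr.2.1 hr.2.2 φ
        exact ⟨s, fun _ _ _ x h1 h2 => hs x h1 h2⟩
      · exact ⟨0, fun h1 h2 h3 => absurd ⟨h1, h2, h3⟩ hr⟩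
    choose s hs using key
    exact ⟨s, hs⟩
  obtain ⟨q0, hq0, hq0m⟩ : ∃ q : ℕ, q.Prime ∧ (q : ℤ) ∣ m0 := by
    obtain ⟨q, hq, hqm⟩ := Nat.exists_prime_and_dvd (show m0.natAbs ≠ 1 by omega)
    exact ⟨q, hq, Int.natCast_dvd.2 hqm⟩
  have hq2 : q0 ≠ 2 := by
    rintro rfl
    exact hm2 (by exact_mod_cast hq0m)
  obtain ⟨x0, hx0⟩ := crt_exists (q0 * (1 + y)) (mul_ne_zero (by exact_mod_cast hq0.ne_zero) hya)
    (fun r x => ¬ (r : ℤ) ∣ x - s r ∧ (r = q0 → ¬ (r : ℤ) ∣ x - s0))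
    (by
      intro r hr _
      by_cases hrq : r = q0
      · obtain ⟨x, h1, h2⟩ := exists_two_classes hr (by rw [hrq]; exact hq2) (s r) s0
        exact ⟨x, h1, fun _ => h2⟩
      · exact ⟨s r + 1, fun h1 => prime_not_dvd_one hr (by simpa using h1),
          fun h1 => absurd h1 hrq⟩)
    (by
      intro r hr _ x x' h1 h2
      refine ⟨fun h3 => h2.1 ?_, fun h3 h4 => h2.2 h3 ?_⟩
      · have : x - s r = (x' - s r) - (x' - x) := by ring
        rw [this]; exact dvd_sub h3 h1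
      · have : x - s0 = (x' - s0) - (x' - x) := by ring
        rw [this]; exact dvd_sub h4 h1)
  set P := (Nat.gcd (g * e2 * B) (1 + g * Y)).primeFactors with hPdef
  have hPmem : ∀ r : ℕ, r ∈ P ↔ r.Prime ∧ (r : ℤ) ∣ a ∧ (r : ℤ) ∣ 1 + y := by
    intro r
    rw [hPdef, Nat.mem_primeFactors]
    constructor
    · rintro ⟨h1, h2, -⟩
      rw [Nat.dvd_gcd_iff] at h2
      refine ⟨h1, ?_, ?_⟩
      · rw [H.D.ha]; exact_mod_cast h2.1
      · rw [H.D.hy]; exact_mod_cast h2.2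
    · rintro ⟨h1, h2, h3⟩
      rw [H.D.ha] at h2
      rw [H.D.hy] at h3
      refine ⟨h1, Nat.dvd_gcd (by exact_mod_cast h2) (by exact_mod_cast h3), ?_⟩
      exact (Nat.gcd_pos_of_pos_right _ (by omega)).ne'
  have hcZ : (2 : ℤ) ^ (Finset.insertNone P).card * (A * g) ≤ c * y - c := by
    rw [Finset.card_insertNone]
    have h1 : ((2 ^ (P.card + 1) * (A1 * g) : ℕ) : ℤ) ≤ (((A1 + g * e2) * (g * Y - 1) : ℕ) : ℤ) := by
      exact_mod_cast hcnt
    have h2 : ((g * Y - 1 : ℕ) : ℤ) = y - 1 := by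
      have h3 : 1 ≤ g * Y := Nat.mul_pos H.D.g0 H.D.Y0
      rw [H.D.hy]
      push_cast [Nat.cast_sub h3]
      ring
    have h3 : A = A1 := by rw [H.D.hA]; push_cast; ring
    have h4 : c = A1 + g * e2 := by rw [H.D.hc]; push_cast; ring
    push_cast at h1
    rw [h2] at h1
    rw [h3, h4]
    linarith
  obtain ⟨x, ⟨hx1, hx2⟩, hx3⟩ := window_avoid (Finset.insertNone P)
    (fun i => Option.elim i m0 (fun r => (r : ℤ))) (fun i => Option.elim i s0 s)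
    (by
      intro i hi
      cases i with
      | none => show 0 < m0; omega
      | some r =>
        have hr := (hPmem r).1 (Finset.some_mem_insertNone.1 hi)
        show (0 : ℤ) < r
        exact_mod_cast hr.1.pos)
    (x₀ := x0)
    (by
      intro i hi
      cases i with
      | none =>
        show ¬ m0 ∣ x0 - s0
        intro h1
        exact (hx0 q0 hq0 (dvd_mul_right _ _)).2 rfl (hq0m.trans h1)
      | some r =>
        have hr := (hPmem r).1 (Finset.some_mem_insertNone.1 hi)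
        show ¬ (r : ℤ) ∣ x0 - s r
        exact (hx0 r hr.1 (hr.2.2.mul_left _)).1)
    (w := φ) (lo := c) (hi := c * y) hA0 hgZ hcZ
  refine H.fin_w (ω := φ + g * x) (m := x) rfl hx1 hx2 ?_ ?_
  · intro r hr hra hry h3
    have h4 := hx3 (some r) (Finset.some_mem_insertNone.2 ((hPmem r).2 ⟨hr, hra, hry⟩))
    exact h4 (hs r hr hra hry x h3.1 h3.2)
  · intro h3
    have h4 := hm (φ + g * x) (fun h5 => by
      obtain ⟨h6, h7⟩ := H.par h5
      exact dvd_add h7 (h6.mul_right _)) h3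
    have h5 := hx3 none (by simp)
    refine h5 (hs0 x ?_)
    have : φ + g * x - -1 = 1 + (φ + g * x) := by ring
    rw [this]; exact h4

end Pool.Agent.H4G
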