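import Pool.Agent.H4G.Arith.K1L1f

/-!
# Level one exits for `K = 1`: the case `gcd (A, e) = 1`, all exceptions (helper9)
-/

set_option autoImplicit false

namespace Pool.Agent.H4G

variable {S : PSt} {a' b c A a e f y φ : ℤ} {l p : Z2} {N A1 B k g e2 Y : ℕ}

/-- the end with a content condition -/
theorem K1N.fin_c (H : K1N S a' b c A a e f y φ l p N 1 A1 B k g e2 Y)
    {ω m : ℤ} (hω : ω = φ + g * m) (h1 : c < A * ω) (h2 : A * ω ≤ c * y)
    (hP : ∀ r : ℕ, r.Prime → (r : ℤ) ∣ a → (r : ℤ) ∣ 1 + y →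
      ¬ ((r : ℤ) ∣ 1 * (1 + ω) * e ∧ (r : ℤ) ∣ 2 * b + a - 1 * (1 + ω) * f))
    (hodd : ∀ r : ℕ, r.Prime → r ≠ 2 → (r : ℤ) ∣ c → (r : ℤ) ∣ y - 1 → ¬ (r : ℤ) ∣ ω)
    (h4 : (4 : ℤ) ∣ c → (4 : ℤ) ∣ y - 1 → ¬ (4 : ℤ) ∣ ω) :
    ∃ (T : PSt) (δ : ℤ), SEq S T ∧ IsC T.L T.v δ ∧ δ ≤ 2 := by
  obtain ⟨t, i, κ, W, k1, k2, k3, k4, k5, k6, k7⟩ := H.sel (o := 1) (Or.inl rfl)
    (by rw [one_mul]; exact hω) h1 h2 hP
  have hcoA := H.D.coA.1
  have key : ∀ (r s : ℕ), r.Prime → s ≠ 0 → Dz ((r : ℤ) ^ s) ((y - 1) • S.u) →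
      Dz ((r : ℤ) ^ s) ((φ + t + i) • S.u + (S.v + l)) →
      (r : ℤ) ^ s ∣ c ∧ (r : ℤ) ^ s ∣ y - 1 ∧ (r : ℤ) ^ s ∣ ω := by
    intro r s hr hs g1 g2
    have hrc : (r : ℤ) ^ s ∣ c := by
      have := g2.cr_right S.u
      rwa [cr_add_right, cr_smul_right, cr_self, H.h.uw, mul_zero, zero_add] at this
    have hrA : ¬ (r : ℤ) ∣ A := fun h3 =>
      not_dvd_of_isCoprime hcoA hr ((dvd_pow_self _ hs).trans hrc) h3
    obtain ⟨g3, g4, g5⟩ := H.h.content hr hrA hs g1 g2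
    refine ⟨g3, g4, ?_⟩
    have hQ : (r : ℤ) ^ s ∣ kQ A1 B k g e2 := by
      rw [kQ]
      have : c = A1 + g * e2 := by rw [H.D.hc]; push_cast; ring
      rw [← this]
      exact g3.mul_left _
    have e1 : ω = t * (y - 1) + (φ + t + i) - i * kQ A1 B k g e2 := by
      rw [k1]; ring
    rw [e1]
    exact dvd_sub (dvd_add (g4.mul_left _) g5) (hQ.mul_left _)
  refine H.h.fin2 H.hN H.hv (by have := H.D.y2 H.hb3; linarith) k3 k5 k6 k7 ?_ ?_
  · intro r hr hr2 ⟨g1, g2⟩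
    obtain ⟨g3, g4, g5⟩ := key r 1 hr one_ne_zero (by simpa using g1) (by simpa using g2)
    exact hodd r hr hr2 (by simpa using g3) (by simpa using g4) (by simpa using g5)
  · intro ⟨g1, g2⟩
    have e4 : (4 : ℤ) = ((2 : ℕ) : ℤ) ^ 2 := by norm_num
    rw [e4] at g1 g2
    obtain ⟨g3, g4, g5⟩ := key 2 2 Nat.prime_two two_ne_zero g1 g2
    rw [← e4] at g3 g4 g5
    exact h4 g3 g4 g5

/-- exception `B = 2` -/
theorem K1N.fin_B2 (H : K1N S a' b c A a e f y φ l p N 1 A1 2 1 g 1 1) :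
    ∃ (T : PSt) (δ : ℤ), SEq S T ∧ IsC T.L T.v δ ∧ δ ≤ 2 := by
  have hA := H.D.hA
  have he := H.D.he
  have hc := H.D.hc
  have hb := H.D.hb
  have ha := H.D.ha
  have hy := H.D.hy
  have hM : (A1 : ℤ) * (2 * 1) = 1 + g * 1 := by exact_mod_cast H.D.hM
  have hb3 := H.hb3
  push_cast at hA he hc hb ha hy
  have hg : (g : ℤ) = 2 * A - 1 := by linarith
  have hA2 : 2 ≤ A := by linarith
  have he1 : e = 2 * A - 1 := by linarith
  have hc1 : c = 3 * A - 1 := by linarith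
  have hb1 : b = 2 * A := by linarith
  have ha1 : a = 2 * (2 * A - 1) := by linarith
  have hy1 : y = 2 * A - 1 := by linarith
  -- the P-conditions hold for even `ω`
  have hP : ∀ ω : ℤ, (2 : ℤ) ∣ ω → ∀ r : ℕ, r.Prime → (r : ℤ) ∣ a → (r : ℤ) ∣ 1 + y →
      ¬ ((r : ℤ) ∣ 1 * (1 + ω) * e ∧ (r : ℤ) ∣ 2 * b + a - 1 * (1 + ω) * f) := by
    intro ω hω r hr hra hry h3
    rw [ha1] at hra
    rw [hy1] at hry
    have h4 : r = 2 := by
      rcases pdvd_mul hr hra with h5 | h5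
      · have h5 : r ∣ 2 := by exact_mod_cast h5
        exact (Nat.prime_dvd_prime_iff_eq hr Nat.prime_two).1 h5
      · exfalso
        apply prime_not_dvd_one hr
        have := dvd_sub hry h5
        ring_nf at this
        exact this
    subst h4
    have h5 := h3.1
    rw [one_mul] at h5
    rcases pdvd_mul Nat.prime_two h5 with h6 | h6
    · have : (2 : ℤ) ∣ 1 + ω := by exact_mod_cast h6
      omega
    · have : (2 : ℤ) ∣ e := by exact_mod_cast h6
      omega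
  by_cases hφ : (g : ℤ) ∣ φ
  · obtain ⟨m', hm'⟩ := hφ
    have hodd : ∀ r : ℕ, r.Prime → r ≠ 2 → (r : ℤ) ∣ c → (r : ℤ) ∣ y - 1 → False := by
      intro r hr hr2 h3 h4
      rw [hc1] at h3
      rw [hy1] at h4
      have h5 : (r : ℤ) ∣ 2 * (A - 1) := by
        have : 2 * (A - 1) = 2 * A - 1 - 1 := by ring
        rw [this]; exact h4
      rcases pdvd_mul hr h5 with h6 | h6
      · have h6 : r ∣ 2 := by exact_mod_cast h6
        exact hr2 ((Nat.prime_dvd_prime_iff_eq hr Nat.prime_two).1 h6)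
      · have h7 : (r : ℤ) ∣ 2 := by
          have : (2 : ℤ) = (3 * A - 1) - 3 * (A - 1) := by ring
          rw [this]; exact dvd_sub h3 (h6.mul_left _)
        have h7 : r ∣ 2 := by exact_mod_cast h7
        exact hr2 ((Nat.prime_dvd_prime_iff_eq hr Nat.prime_two).1 h7)
    refine H.fin_c (ω := 2 * (2 * A - 1)) (m := 2 - m') ?_ ?_ ?_ (hP _ (dvd_mul_right _ _)) ?_ ?_
    · rw [hm', hg]; ring
    · rw [hc1]; nlinarith
    · rw [hc1, hy1]; nlinarith
    · intro r hr hr2 h3 h4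
      exact absurd (hodd r hr hr2 h3 h4) id
    · intro _ _
      omega
  · -- all primes of `g` divide `φ`
    have hrφ : ∀ r : ℕ, r.Prime → (r : ℤ) ∣ y → (r : ℤ) ∣ φ := by
      intro r hr hry
      by_contra hno
      have h3 := H.h.C3 H.hN H.hv H.hb3 H.he3 (fun h4 => by omega) hr hry hno
      have h4 := hr.two_le
      have h5 := Int.le_of_dvd (by omega) h3
      have h6 := Int.le_of_dvd (by omega) hry
      omega
    have hg0 : (0 : ℤ) < g := by linarith
    set φ0 := φ % g with hφ0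
    have h5 := Int.emod_nonneg φ hg0.ne'
    have h6 := Int.emod_lt_of_pos φ hg0
    have h7 : φ = g * (φ / g) + φ0 := (Int.mul_ediv_add_emod φ g).symm
    have h8 : φ0 ≠ 0 := fun h8 => hφ (Int.dvd_of_emod_eq_zero h8)
    have h9 : 3 ≤ φ0 := by
      obtain ⟨r, hr, hrg⟩ := Nat.exists_prime_and_dvd (show g ≠ 1 by
        intro h9
        rw [h9] at hg
        push_cast at hg
        omega)
      have hrg' : (r : ℤ) ∣ (g : ℤ) := by exact_mod_cast hrg
      have h10 : (r : ℤ) ∣ φ0 := by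
        have : φ0 = φ - g * (φ / g) := by linarith
        rw [this]
        exact dvd_sub (hrφ r hr (by rw [hy1, ← hg]; exact hrg')) (hrg'.mul_right _)
      have h11 := Int.le_of_dvd (by omega) h10
      have h12 : r ≠ 2 := by
        rintro rfl
        have : (2 : ℤ) ∣ (g : ℤ) := by exact_mod_cast hrg'
        omega
      have := hr.two_le
      omega
    -- the two candidates
    have main : ∀ ω m : ℤ, ω = φ + g * m → (2 : ℤ) ∣ ω → 3 ≤ ω → ω ≤ 2 * g - 1 →
        ∃ (T : PSt) (δ : ℤ), SEq S T ∧ IsC T.L T.v δ ∧ δ ≤ 2 := by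
      intro ω m h10 h11 h12 h13
      refine H.fin_w h10 ?_ ?_ (hP ω h11) ?_
      · rw [hc1]; nlinarith
      · rw [hc1, hy1]; nlinarith
      · intro h14
        have h15 : IsCoprime (A + c) e := by
          rw [hc1, he1]
          exact ⟨1, -2, by ring⟩
        have h16 := Int.le_of_dvd (by omega) (h15.dvd_of_dvd_mul_right h14)
        omega
    by_cases h10 : (2 : ℤ) ∣ φ0
    · exact main φ0 (-(φ / g)) (by linarith) h10 h9 (by omega)
    · exact main (φ0 + g) (1 - φ / g) (by linarith) (by omega) (by omega) (by omega)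

/-- exception `B = 3` -/
theorem K1N.fin_B3 (H : K1N S a' b c A a e f y φ l p N 1 A1 3 1 g 1 1) :
    ∃ (T : PSt) (δ : ℤ), SEq S T ∧ IsC T.L T.v δ ∧ δ ≤ 2 := by
  have hA := H.D.hA
  have he := H.D.he
  have hc := H.D.hc
  have hb := H.D.hb
  have ha := H.D.ha
  have hy := H.D.hy
  have hM : (A1 : ℤ) * (3 * 1) = 1 + g * 1 := by exact_mod_cast H.D.hM
  have hb3 := H.hb3
  have hA0 := H.h.A0
  push_cast at hA he hc hb ha hy
  have hg : (g : ℤ) = 3 * A - 1 := by linarith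
  have he1 : e = 3 * A - 1 := by linarith
  have hc1 : c = 4 * A - 1 := by linarith
  have hb1 : b = 3 * A := by linarith
  have ha1 : a = 3 * (3 * A - 1) := by linarith
  have hy1 : y = 3 * A - 1 := by linarith
  have hAodd : ¬ (2 : ℤ) ∣ A := by
    rintro ⟨A', hA'⟩
    refine H.h.N_odd H.hN H.hv ⟨24 * A' ^ 2 + 3 * A' - 1, ?_⟩
    rw [H.h.hy, hc1, ha1, hy1, hA']
    ring
  have hr3 : ∀ r : ℕ, r.Prime → (r : ℤ) ∣ a → (r : ℤ) ∣ 1 + y → r = 3 := by
    intro r hr hra hry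
    rw [ha1] at hra
    rw [hy1] at hry
    rcases pdvd_mul hr hra with h5 | h5
    · have h5 : r ∣ 3 := by exact_mod_cast h5
      exact (Nat.prime_dvd_prime_iff_eq hr Nat.prime_three).1 h5
    · exfalso
      apply prime_not_dvd_one hr
      have := dvd_sub hry h5
      ring_nf at this
      exact this
  by_cases hA3 : 3 ≤ A
  · obtain ⟨m0, hm3, hm2, hmg, hm⟩ := H.exists_m0
    obtain ⟨s0, hs0⟩ := K1.lin_class hmg φ (-1)
    obtain ⟨s, hs⟩ := H.pclass (o := 1) (Or.inl rfl) Nat.prime_three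
      (by rw [ha1]; exact_mod_cast dvd_mul_right _ _)
      (by rw [hy1]; exact ⟨A, by push_cast; ring⟩) φ
    obtain ⟨x, ⟨hx1, hx2⟩, hx3, hx4⟩ := window_three (m1 := 3) (m2 := m0) (r1 := s) (r2 := s0)
      (A := A) (g := g) (w := φ) (lo := c) (hi := c * y) (by norm_num) hm3 hA0
      (by linarith) (by rw [hg, hc1, hy1]; nlinarith)
    refine H.fin_w (ω := φ + g * x) (m := x) rfl hx1 hx2 ?_ ?_
    · intro r hr hra hry h3
      have h4 := hr3 r hr hra hry
      subst h4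
      exact hx3 (by exact_mod_cast hs x h3.1 h3.2)
    · intro h3
      have h4 := hm (φ + g * x) (fun h5 => by
        obtain ⟨h6, h7⟩ := H.par h5
        exact dvd_add h7 (h6.mul_right _)) h3
      refine hx4 (hs0 x ?_)
      have : φ + g * x - -1 = 1 + (φ + g * x) := by ring
      rw [this]; exact h4
  · have hA1 : A = 1 := by omega
    obtain ⟨g2, f2⟩ := H.par (by rw [he1, hA1]; norm_num)
    have hg2 : (g : ℤ) = 2 := by rw [hg, hA1]; norm_num
    obtain ⟨φ', hφ'⟩ := f2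
    refine H.fin_w (ω := 4) (m := 2 - φ') (by rw [hφ', hg2]; ring) (by rw [hc1, hA1]; norm_num)
      (by rw [hc1, hy1, hA1]; norm_num) ?_ (by rw [hc1, he1, hA1]; norm_num)
    intro r hr hra hry h3
    have h4 := hr3 r hr hra hry
    subst h4
    have h5 := h3.1
    rw [he1, hA1] at h5
    norm_num at h5

/-- exception `A = B = 2` -/
theorem K1N.fin_A2 (H : K1N S a' b c A a e f y φ l p N 1 2 2 1 1 1 Y) :
    ∃ (T : PSt) (δ : ℤ), SEq S T ∧ IsC T.L T.v δ ∧ δ ≤ 2 := by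
  have hA := H.D.hA
  have he := H.D.he
  have hc := H.D.hc
  have hb := H.D.hb
  have ha := H.D.ha
  have hy := H.D.hy
  have hM := H.D.hM
  have hY : Y = 3 := by omega
  subst hY
  push_cast at hA he hc hb ha hy
  norm_num at hA he hc hb ha hy
  refine H.fin_w (ω := 2) (m := 2 - φ) (by push_cast; ring) (by rw [hc, hA]; norm_num)
    (by rw [hc, hy, hA]; norm_num) ?_ (by rw [hc, he, hA]; norm_num)
  intro r hr hra hry h3
  rw [ha] at hra
  have h4 : r ∣ 2 := by exact_mod_cast hra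
  have h5 := (Nat.prime_dvd_prime_iff_eq hr Nat.prime_two).1 h4
  subst h5
  have h6 := h3.1
  rw [he] at h6
  norm_num at h6

/-- **the case `gcd (A, e) = 1`** -/
theorem K1N.fin_one (H : K1N S a' b c A a e f y φ l p N 1 A1 B k g e2 Y) :
    ∃ (T : PSt) (δ : ℤ), SEq S T ∧ IsC T.L T.v δ ∧ δ ≤ 2 := by
  have hb3 := H.hb3
  have hb := H.D.hb
  rcases K1.t1 H.D.A0 H.D.g0 H.D.e0 H.D.Y0 H.D.k0 H.D.hB H.D.hM H.D.h3 H.D.co1 with
    h1 | ⟨rfl, rfl, rfl, rfl | rfl⟩ | ⟨rfl, rfl, rfl, rfl, rfl⟩ | ⟨rfl, rfl, rfl, rfl, rfl⟩ |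
    ⟨rfl, rfl, rfl, rfl, rfl⟩ | ⟨rfl, rfl, rfl, rfl, rfl⟩
  · exact H.fin_main h1
  · exact H.fin_B2
  · exact H.fin_B3
  · exfalso
    rw [hb] at hb3
    norm_num at hb3
  · exfalso
    have hM := H.D.hM
    have hY : Y = 2 := by omega
    subst hY
    have hA := H.D.hA
    have hc := H.D.hc
    have ha := H.D.ha
    have hy := H.D.hy
    norm_num at hA hc ha hy
    have hv := H.hv
    rw [H.h.hy, ha, hA, hc, hy] at hv
    have hN8 : N = 8 := by omega
    have := H.hN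
    rw [hN8] at this
    revert this
    norm_num
  · exact H.fin_A2
  · exfalso
    have hM := H.D.hM
    have hY : Y = 2 := by omega
    subst hY
    have := H.D.co4
    norm_num at this

end Pool.Agent.H4G
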