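import Pool.Agent.H4G.Arith.K1E
import Pool.Agent.H4G.Arith.K1FD
import Pool.Agent.H4G.Arith.K1Vis

/-!
# LINE B, `K = 1`: the exits of level two, local part (helper9; Lean: helper64)

`v₁ = v + 2 w + W u`, `W = o (1 + 2 ω) + i (1 + y + 2 Q)`, `o ω = t (y / 2) + φ + i (1 - Q)`.
-/

set_option autoImplicit false

namespace Pool.Agent.H4G

variable {S : PSt} {a' b c A a e f y φ : ℤ} {l p : Z2}

theorem prime_ge_five {r : ℕ} (hr : r.Prime) (h2 : r ≠ 2) (h3 : r ≠ 3) : 5 ≤ r := by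
  by_contra h
  have h1 := hr.two_le
  have h4 : r = 4 := by omega
  subst h4
  revert hr
  decide

/-- `b ∣ 1 + y` -/
theorem K1.b_dvd1 (h : K1 S a' b c A a e f y φ l p) {N : ℕ} (hN : N.Prime) (hv : a + A + a' = N)
    (hb3 : 3 ≤ b) (he3 : e < 3 * A) (hA2 : ¬ (2 : ℤ) ∣ A) : b ∣ 1 + y :=
  dvd_of_prime_pow fun _ _ hq hk => h.b_dvd hN hv hb3 he3 hq (fun h3 => hA2 h3.2.1) hk

/-- the exit of level two is good: `κ ∣ A + 2 c`, and the vector `D` -/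
theorem K1.good2 (h : K1 S a' b c A a e f y φ l p) {N : ℕ} (hN : N.Prime) (hv : a + A + a' = N)
    (hb2 : ¬ (2 : ℤ) ∣ b) (hf2 : (2 : ℤ) ∣ f) (hby : b ∣ 1 + y) {W κ : ℤ}
    (hκ : IsC S.L (xv S l 2 W) κ)
    (g1 : ∀ r : ℕ, r.Prime → (r : ℤ) ∣ a → (r : ℤ) ∣ 1 + y → (r ≠ 3 ∨ ¬ (3 : ℤ) ∣ e) →
      ¬ ((r : ℤ) ∣ W * e ∧ (r : ℤ) ∣ 3 * b + 2 * a - W * f))
    (g2 : ∀ r : ℕ, r.Prime → 5 ≤ r → (r : ℤ) ∣ e → ¬ (r : ℤ) ∣ A → ¬ (r : ℤ) ∣ 1 + y →
      ¬ (r : ℤ) ∣ 3 * b + 2 * a - W * f)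
    (g3 : (3 : ℤ) ∣ e → ¬ (3 : ℤ) ∣ A → ¬ (3 : ℤ) ∣ W ∧ ((3 : ℤ) ∣ f →
      ¬ (3 : ℤ) ∣ b ∧ (3 : ℤ) ∣ b - A ∧
        ((9 : ℤ) ∣ e → ¬ (9 : ℤ) ∣ f → ¬ (9 : ℤ) ∣ 3 * b + 2 * a - W * f))) :
    κ ∣ A + 2 * c ∧ ∀ r : ℕ, r.Prime → (r : ℤ) ∣ κ → (r : ℤ) ∣ a → ∀ D : Z2,
      κ • D = (a + (A + 2 * c)) • xv S l 2 W → ¬ Dz r D := by
  have p3 : Prime (3 : ℤ) := Int.prime_three
  have p2 : Prime (2 : ℤ) := Int.prime_two
  have hc := h.hc
  have haA := h.aA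
  -- the prime three
  have sp : (3 : ℤ) ∣ e → (3 : ℤ) ∣ a → (3 : ℤ) ∣ κ → ¬ (9 : ℤ) ∣ κ ∧ (3 : ℤ) ∣ A + 2 * c ∧
      ¬ (3 : ℤ) ∣ W ∧ ¬ (3 : ℤ) ∣ A ∧ (9 : ℤ) ∣ a + 2 * e := by
    intro h3e h3a h3κ
    have h3A : ¬ (3 : ℤ) ∣ A := by
      intro h3A
      have h9 := h.not_a hN hv Nat.prime_three (by exact_mod_cast h3A)
        (by rw [hc]; exact_mod_cast dvd_add h3A h3e)
      exact h9 (by exact_mod_cast h3a)
    obtain ⟨h3W, g3'⟩ := g3 h3e h3A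
    obtain ⟨k1, k2⟩ := (h.xgap hκ).1 h3κ
    have k2' : (3 : ℤ) ∣ 3 * b + 2 * a - W * f := by
      have e1 : 3 * b + 2 * a - W * f = (2 + 1) * b + 2 * a - W * f := by ring
      rw [e1]; exact k2
    have h3f : (3 : ℤ) ∣ f := by
      have e1 : W * f = 3 * b + 2 * a - (3 * b + 2 * a - W * f) := by ring
      have h9 : (3 : ℤ) ∣ W * f := by
        rw [e1]
        exact dvd_sub (dvd_add (dvd_mul_right _ _) (h3a.mul_left _)) k2'
      exact (p3.dvd_or_dvd h9).resolve_left h3W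
    obtain ⟨h3b, h3bA, g9⟩ := g3' h3f
    have h9a : (9 : ℤ) ∣ a + 2 * e := by
      have h1 : (3 : ℤ) ∣ b + 2 * A := by
        have e1 : b + 2 * A = (b - A) + 3 * A := by ring
        rw [e1]; exact dvd_add h3bA (dvd_mul_right _ _)
      have h2 : (9 : ℤ) ∣ e * (b + 2 * A) := by
        have e1 : (9 : ℤ) = 3 * 3 := by norm_num
        rw [e1]; exact mul_dvd_mul h3e h1
      have e2 : e * (b + 2 * A) = (a + 2 * e) * A := by linear_combination -haA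
      rw [e2] at h2
      have hco : IsCoprime (9 : ℤ) A := by
        have h4 : IsCoprime (((3 : ℕ) : ℤ) ^ 2) A :=
          (isCoprime_of_not_dvd Nat.prime_three (by exact_mod_cast h3A)).pow_left
        norm_num at h4
        exact h4
      exact hco.dvd_of_dvd_mul_right h2
    refine ⟨fun h9κ => ?_, ?_, h3W, h3A, h9a⟩
    · obtain ⟨m1, m2⟩ := (h.xgap hκ).1 h9κ
      have m2' : (9 : ℤ) ∣ 3 * b + 2 * a - W * f := by
        have e1 : 3 * b + 2 * a - W * f = (2 + 1) * b + 2 * a - W * f := by ring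
        rw [e1]; exact m2
      have h9e : (9 : ℤ) ∣ e := by
        have hco : IsCoprime (9 : ℤ) W := by
          have h4 : IsCoprime (((3 : ℕ) : ℤ) ^ 2) W :=
            (isCoprime_of_not_dvd Nat.prime_three (by exact_mod_cast h3W)).pow_left
          norm_num at h4
          exact h4
        exact hco.dvd_of_dvd_mul_left m1
      have h9a' : (9 : ℤ) ∣ a := (dvd_add_left (h9e.mul_left 2)).1 h9a
      by_cases h9f : (9 : ℤ) ∣ f
      · have h5 : (9 : ℤ) ∣ 3 * b := by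
          have e1 : 3 * b = (3 * b + 2 * a - W * f) - 2 * a + W * f := by ring
          rw [e1]
          exact dvd_add (dvd_sub m2' (h9a'.mul_left _)) (h9f.mul_left _)
        apply h3b
        have e1 : (9 : ℤ) = 3 * 3 := by norm_num
        rw [e1] at h5
        exact (mul_dvd_mul_iff_left (by norm_num)).1 h5
      · exact g9 h9e h9f m2'
    · have e1 : A + 2 * c = 3 * A + 2 * e := by rw [hc]; ring
      rw [e1]
      exact dvd_add (dvd_mul_right _ _) (h3e.mul_left _)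
  have key : ∀ r : ℕ, r.Prime → (r : ℤ) ∣ a → (r : ℤ) ∣ κ →
      r = 3 ∧ ¬ (9 : ℤ) ∣ κ ∧ (3 : ℤ) ∣ A + 2 * c ∧
      ¬ (3 : ℤ) ∣ W ∧ ¬ (3 : ℤ) ∣ A ∧ (9 : ℤ) ∣ a + 2 * e := by
    intro r hr hra hrκ
    have hri := Nat.prime_iff_prime_int.1 hr
    obtain ⟨k1, k2⟩ := (h.xgap hκ).1 hrκ
    have k2' : (r : ℤ) ∣ 3 * b + 2 * a - W * f := by
      have e1 : 3 * b + 2 * a - W * f = (2 + 1) * b + 2 * a - W * f := by ring
      rw [e1]; exact k2
    have hr2 : r ≠ 2 := by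
      rintro rfl
      have k3 : (2 : ℤ) ∣ 3 * b + 2 * a - W * f := by exact_mod_cast k2'
      have k4 : (2 : ℤ) ∣ W * f := hf2.mul_left _
      omega
    by_cases h3 : r = 3 ∧ (3 : ℤ) ∣ e
    · obtain ⟨rfl, h3e⟩ := h3
      exact ⟨rfl, sp h3e (by exact_mod_cast hra) (by exact_mod_cast hrκ)⟩
    exfalso
    by_cases hy : (r : ℤ) ∣ 1 + y
    · refine g1 r hr hra hy ?_ ⟨k1, k2'⟩
      by_cases h4 : r = 3
      · exact Or.inr fun h5 => h3 ⟨h4, h5⟩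
      · exact Or.inl h4
    · have hrb : ¬ (r : ℤ) ∣ b := fun h9 => hy (h9.trans hby)
      have hre : (r : ℤ) ∣ e := by
        have h9 : (r : ℤ) ∣ e * b := by rw [← haA]; exact hra.mul_right _
        exact (hri.dvd_or_dvd h9).resolve_right hrb
      have hrA : ¬ (r : ℤ) ∣ A := fun h9 =>
        h.not_a hN hv hr h9 (by rw [hc]; exact dvd_add h9 hre) hra
      have hr3 : r ≠ 3 := by
        rintro rfl
        exact h3 ⟨rfl, by exact_mod_cast hre⟩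
      exact g2 r hr (prime_ge_five hr hr2 hr3) hre hrA hy k2'
  constructor
  · refine h.kap_dvd hκ fun r hr hra k hk => ?_
    rcases Nat.eq_zero_or_pos k with hk0 | hk0
    · rw [hk0, pow_zero]; exact one_dvd _
    obtain ⟨rfl, m1, m2, -⟩ := key r hr hra ((dvd_pow_self _ hk0.ne').trans hk)
    have hk1 : k = 1 := by
      by_contra h9
      apply m1
      have h10 : ((3 : ℕ) : ℤ) ^ 2 ∣ κ := (pow_dvd_pow _ (by omega)).trans hk
      norm_num at h10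
      exact h10
    rw [hk1, pow_one]
    exact_mod_cast m2
  · intro r hr hrκ hra D hD hrD
    obtain ⟨rfl, m1, m2, m3, m4, m5⟩ := key r hr hra hrκ
    have hv1 : ¬ Dz 3 (xv S l 2 W) := by
      intro h9
      have h10 := h9.cr_right S.v
      rw [h.xvv] at h10
      rcases p3.dvd_or_dvd ((dvd_neg).1 h10) with h11 | h11
      · exact m3 h11
      · exact m4 h11
    obtain ⟨κ', hκ'⟩ : (3 : ℤ) ∣ κ := by exact_mod_cast hrκ
    obtain ⟨D', hD'⟩ : Dz 3 D := by exact_mod_cast hrD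
    obtain ⟨m, hm⟩ : (3 : ℤ) ∣ a + (A + 2 * c) := dvd_add (by exact_mod_cast hra) m2
    have h3m : ¬ (3 : ℤ) ∣ m := by
      intro h9
      have h10 : (9 : ℤ) ∣ a + (A + 2 * c) := by
        rw [hm]
        have e1 : (9 : ℤ) = 3 * 3 := by norm_num
        rw [e1]; exact mul_dvd_mul_left _ h9
      have e1 : a + (A + 2 * c) = (a + 2 * e) + 3 * A := by rw [hc]; ring
      rw [e1] at h10
      have h11 := (dvd_add_right m5).1 h10
      have e2 : (9 : ℤ) = 3 * 3 := by norm_num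
      rw [e2] at h11
      exact m4 ((mul_dvd_mul_iff_left (by norm_num)).1 h11)
    have h5 : (3 : ℤ) • (m • xv S l 2 W) = (3 : ℤ) • ((3 * κ') • D') := by
      rw [hm, hκ', hD'] at hD
      rw [← mul_smul, ← hD, ← mul_smul, ← mul_smul]
      congr 1; ring
    have h6 := smul_inj (by norm_num) h5
    have h7 : Dz ((3 : ℕ) : ℤ) (m • xv S l 2 W) := by
      rw [h6]
      exact Dz.of_dvd (by push_cast; exact dvd_mul_right _ _) _
    rcases h7.mul_prime Nat.prime_three with h8 | h8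
    · exact h3m (by exact_mod_cast h8)
    · exact hv1 (by exact_mod_cast h8)

/-- normalisation by a V-twist -/
theorem K1.normj (h : K1 S a' b c A a e f y φ l p) :
    ∃ j φ2 : ℤ, K1 (vst S l p j) a' b c A a e (f + j * (a + b - A)) y φ2 l (p - j • S.v) ∧
      ∀ r : ℕ, r.Prime → (r : ℤ) ∣ e → ¬ (r : ℤ) ∣ y → ¬ (r : ℤ) ∣ a + b - A →
        ¬ (r : ℤ) ∣ f + j * (a + b - A) := by
  classical
  have he0 := h.e0
  obtain ⟨s, hs⟩ := crt_primes e.natAbs.primeFactors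
    (fun r hr => Nat.prime_of_mem_primeFactors hr) (fun _ => 1)
    (fun r => if (r : ℤ) ∣ f then 1 else 0)
  obtain ⟨φ2, h2⟩ := h.vtw (j := y * s) ⟨-(s * φ), 1, by ring⟩
  refine ⟨y * s, φ2, h2, fun r hr hre hry hrD hrf => ?_⟩
  have hri := Nat.prime_iff_prime_int.1 hr
  have h3 := hs r (by
    rw [Nat.mem_primeFactors]
    exact ⟨hr, Int.natCast_dvd.1 hre, by omega⟩)
  rw [pow_one] at h3
  by_cases h4 : (r : ℤ) ∣ f
  · rw [if_pos h4] at h3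
    have e1 : y * (a + b - A) = (f + y * s * (a + b - A)) - f - (s - 1) * (y * (a + b - A)) := by
      ring
    have h5 : (r : ℤ) ∣ y * (a + b - A) := by
      rw [e1]
      exact dvd_sub (dvd_sub hrf h4) (h3.mul_right _)
    exact (hri.dvd_or_dvd h5).elim hry hrD
  · rw [if_neg h4, sub_zero] at h3
    exact h4 ((dvd_add_left ((h3.mul_left y).mul_right _)).1 hrf)

/-- the prime three in `y` and `e` -/
theorem K1.three_y (h : K1 S a' b c A a e f y φ l p) {N : ℕ} (hN : N.Prime)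
    (hv : a + A + a' = N) (hb3 : 3 ≤ b) (he3 : e < 3 * A) (hA2 : ¬ (2 : ℤ) ∣ A)
    (h3e : (3 : ℤ) ∣ e) (h3A : ¬ (3 : ℤ) ∣ A) (h3y : (3 : ℤ) ∣ y) :
    (3 : ℤ) ∣ φ ∧ (3 : ℤ) ∣ f ∧ ¬ (3 : ℤ) ∣ b ∧ (3 : ℤ) ∣ b - A := by
  have p3 : Prime (3 : ℤ) := Int.prime_three
  have hφ : (3 : ℤ) ∣ φ := by
    by_contra hφ
    have h1 := h.C3 hN hv hb3 he3 (fun h2 => hA2 h2.1) (r := 3) Nat.prime_three
      (by exact_mod_cast h3y) (by exact_mod_cast hφ)
    norm_num at h1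
    have h2 := Int.le_of_dvd (by norm_num) h1
    omega
  have hf : (3 : ℤ) ∣ f := by
    have := h.ft Nat.prime_three (by exact_mod_cast h3e) (by exact_mod_cast h3A)
      (by exact_mod_cast h3y)
    exact_mod_cast this
  have hb : ¬ (3 : ℤ) ∣ b := by
    intro h1
    have h2 := h1.trans (h.b_dvd1 hN hv hb3 he3 hA2)
    have h3 : (3 : ℤ) ∣ 1 := (dvd_add_left h3y).1 h2
    omega
  have h3a : (3 : ℤ) ∣ a := by
    have h1 : (3 : ℤ) ∣ a * A := by rw [h.aA]; exact h3e.mul_right _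
    exact (p3.dvd_or_dvd h1).resolve_right h3A
  obtain ⟨j, φ2, h1, h2⟩ := h.vframe Nat.prime_three 1 (fun _ h9 => by
    rw [one_mul] at h9
    have h10 : ((3 : ℕ) : ℤ) ∣ 1 := (dvd_add_left (by exact_mod_cast hφ)).1 h9
    exact prime_not_dvd_one Nat.prime_three h10)
  have h3 := h2.ft Nat.prime_three (by exact_mod_cast h3e) (by exact_mod_cast h3A)
    (by exact_mod_cast h3y)
  have h4 : (3 : ℤ) ∣ f + j * (a + b - A) := by exact_mod_cast h3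
  have h5 : (3 : ℤ) ∣ j - 1 := by exact_mod_cast h1
  refine ⟨hφ, hf, hb, ?_⟩
  have e1 : b - A = (f + j * (a + b - A)) - f - (j - 1) * (a + b - A) - a := by ring
  rw [e1]
  exact dvd_sub (dvd_sub (dvd_sub h4 hf) (h5.mul_right _)) h3a

/-- choice of `i`: a linear form is zero at many primes -/
theorem exists_zero_class {e : ℤ} (he : e ≠ 0) {G W0 : ℤ} :
    ∃ z : ℤ, ∀ r : ℕ, r.Prime → (r : ℤ) ∣ e → ¬ (r : ℤ) ∣ G → (r : ℤ) ∣ W0 + z * G := by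
  classical
  have h0 : ∀ r : ℕ, ∃ z : ℤ, r.Prime → ¬ (r : ℤ) ∣ G → (r : ℤ) ∣ G * z - -W0 := by
    intro r
    by_cases h : r.Prime ∧ ¬ (r : ℤ) ∣ G
    · obtain ⟨z, hz⟩ := exists_classP h.1 h.2 (-W0) 1
      rw [pow_one] at hz
      exact ⟨z, fun _ _ => hz⟩
    · exact ⟨0, fun h1 h2 => absurd ⟨h1, h2⟩ h⟩
  choose f hf using h0
  obtain ⟨z, hz⟩ := crt_primes e.natAbs.primeFactors
    (fun r hr => Nat.prime_of_mem_primeFactors hr) (fun _ => 1) f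
  refine ⟨z, fun r hr hre hrG => ?_⟩
  have h3 := hz r (by
    rw [Nat.mem_primeFactors]
    exact ⟨hr, Int.natCast_dvd.1 hre, by omega⟩)
  rw [pow_one] at h3
  have e1 : W0 + z * G = (G * f r - -W0) + (z - f r) * G := by ring
  rw [e1]
  exact dvd_add (hf r hr hrG) (h3.mul_right _)

/-- **the exit of level two**, all local conditions given as conditions on `ω` -/
theorem K1.exit2 (h : K1 S a' b c A a e f y φ l p) {N : ℕ} (hN : N.Prime) (hv : a + A + a' = N)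
    (hb3 : 3 ≤ b) (he3 : e < 3 * A) (hA2 : ¬ (2 : ℤ) ∣ A) (hb2 : ¬ (2 : ℤ) ∣ b)
    (hf2 : (2 : ℤ) ∣ f)
    (hnf : ∀ r : ℕ, r.Prime → (r : ℤ) ∣ e → ¬ (r : ℤ) ∣ y → ¬ (r : ℤ) ∣ a + b - A →
      ¬ (r : ℤ) ∣ f)
    {o Q y2 ω : ℤ} (ho : o = 1 ∨ o = -1)
    (hs : ¬ (9 : ℤ) ∣ f → ¬ (9 : ℤ) ∣ 3 * b + 2 * a - o * f)
    (hQ : A * Q = (1 + y) * c) (hy2 : y = 2 * y2)
    (hg : (Int.gcd y (1 - Q) : ℤ) ∣ o * ω - (y2 + φ))
    (hw1 : c < A * ω) (hw2 : A * ω ≤ c * y2)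
    (hG1 : ∀ r : ℕ, r.Prime → (r : ℤ) ∣ a → (r : ℤ) ∣ 1 + y → (r ≠ 3 ∨ ¬ (3 : ℤ) ∣ e) →
      ∀ i : ℤ, ¬ ((r : ℤ) ∣ (o * (1 + 2 * ω) + i * (1 + y + 2 * Q)) * e ∧
        (r : ℤ) ∣ 3 * b + 2 * a - (o * (1 + 2 * ω) + i * (1 + y + 2 * Q)) * f))
    (hG3 : (3 : ℤ) ∣ e → ¬ (3 : ℤ) ∣ A → ¬ (3 : ℤ) ∣ y → ¬ (3 : ℤ) ∣ 1 + 2 * ω ∧
      ((3 : ℤ) ∣ f → (9 : ℤ) ∣ e → ¬ (9 : ℤ) ∣ f → ∀ i : ℤ, ¬ (9 : ℤ) ∣ 3 * b + 2 * a -
        (o * (1 + 2 * ω) + i * (1 + y + 2 * Q)) * f)) :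
    ∃ t i W κ : ℤ, W = o * (1 + 2 * ω) + i * (1 + y + 2 * Q) ∧
      o * ω = t * y2 + φ + i * (1 - Q) ∧
      SEq S ⟨S.L, S.u, xv S l 2 W, xL S l y 2 (φ + t + i)⟩ ∧
      IsC (xL S l y 2 (φ + t + i)) S.u c ∧ IsC S.L (xv S l 2 W) κ ∧
      κ ∣ A + 2 * c ∧ ∀ r : ℕ, r.Prime → (r : ℤ) ∣ κ → (r : ℤ) ∣ a → ∀ D : Z2,
        κ • D = (a + (A + 2 * c)) • xv S l 2 W → ¬ Dz r D := by
  have p3 : Prime (3 : ℤ) := Int.prime_three
  have hc := h.hc
  have haA := h.aA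
  have hy0 := h.y0
  have hby := h.b_dvd1 hN hv hb3 he3 hA2
  have ho2 : o * o = 1 := by rcases ho with rfl | rfl <;> norm_num
  -- the coefficient of `i`
  have hco : A * (1 + y + 2 * Q) = (1 + y) * (3 * A + 2 * e) := by
    rw [hc] at hQ; linear_combination 2 * hQ
  obtain ⟨g, hgd⟩ : ∃ g : ℤ, g = (Int.gcd y (1 - Q) : ℤ) := ⟨_, rfl⟩
  have hgy : g ∣ y := by rw [hgd]; exact Int.gcd_dvd_left ..
  have hgQ : g ∣ 1 - Q := by rw [hgd]; exact Int.gcd_dvd_right ..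
  have hbez := Int.gcd_eq_gcd_ab y (1 - Q)
  rw [← hgd] at hbez hg
  obtain ⟨α, hα⟩ : ∃ α : ℤ, α = Int.gcdA y (1 - Q) := ⟨_, rfl⟩
  obtain ⟨β, hβ⟩ : ∃ β : ℤ, β = Int.gcdB y (1 - Q) := ⟨_, rfl⟩
  rw [← hα, ← hβ] at hbez
  obtain ⟨G1, hG1e⟩ := hgy
  obtain ⟨G2, hG2e⟩ := hgQ
  obtain ⟨x, hx⟩ := hg
  obtain ⟨z, hz⟩ := exists_zero_class (e := e) h.e0.ne' (G := G1 * (1 + y + 2 * Q))
    (W0 := o * (1 + 2 * ω) + β * x * (1 + y + 2 * Q))
  obtain ⟨i, hi⟩ : ∃ i : ℤ, i = β * x + z * G1 := ⟨_, rfl⟩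
  obtain ⟨t, ht⟩ : ∃ t : ℤ, t = 1 + 2 * (α * x - z * G2) := ⟨_, rfl⟩
  have hoω : o * ω = t * y2 + φ + i * (1 - Q) := by
    have e1 : t * y2 = y2 + (α * x - z * G2) * y := by rw [ht, hy2]; ring
    rw [e1, hi]
    have e2 : o * ω = y2 + φ + g * x := by linarith
    rw [e2]
    linear_combination x * hbez + z * G2 * hG1e - z * G1 * hG2e
  obtain ⟨W, hW⟩ : ∃ W : ℤ, W = o * (1 + 2 * ω) + i * (1 + y + 2 * Q) := ⟨_, rfl⟩
  have hW' : W = o + i * (1 + 2) + (t + i) * y + 2 * φ := by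
    rw [hW]
    have e1 : o * (1 + 2 * ω) = o + 2 * (o * ω) := by ring
    rw [e1, hoω, hy2]; ring
  obtain ⟨k1, k2⟩ := h.exit (n := 2) (o := o) (t := t) (i := i) (ω := 2 * ω) (Q := Q) (W := W)
    (by norm_num) ho ⟨1, -(α * x - z * G2), by rw [ht]; ring⟩ hQ (by
      have e1 : 2 * ω = o * (2 * (o * ω)) := by linear_combination (-2 * ω) * ho2
      rw [e1, hoω, hy2]; ring)
    (by linarith) (by rw [hy2]; linarith) hW'
  obtain ⟨κ, hκ⟩ := K1.exists_kap k1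
  -- primes `≥ 5` in `e`
  have hg2 : ∀ r : ℕ, r.Prime → 5 ≤ r → (r : ℤ) ∣ e → ¬ (r : ℤ) ∣ A → ¬ (r : ℤ) ∣ 1 + y →
      ¬ (r : ℤ) ∣ 3 * b + 2 * a - W * f := by
    intro r hr hr5 hre hrA hry h9
    have hri := Nat.prime_iff_prime_int.1 hr
    have hra : (r : ℤ) ∣ a := by
      have h1 : (r : ℤ) ∣ a * A := by rw [haA]; exact hre.mul_right _
      exact (hri.dvd_or_dvd h1).resolve_right hrA
    have n3 : ¬ (r : ℤ) ∣ 3 := by
      intro h1
      have h2 : r ∣ 3 := by exact_mod_cast h1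
      have := Nat.le_of_dvd (by norm_num) h2
      omega
    have hWf : (r : ℤ) ∣ W * f := by
      by_cases hry' : (r : ℤ) ∣ y
      · exact (h.ft hr hre hrA hry').mul_left _
      · refine Dvd.dvd.mul_right ?_ _
        have hGc : ¬ (r : ℤ) ∣ G1 * (1 + y + 2 * Q) := by
          intro h1
          rcases hri.dvd_or_dvd h1 with h2 | h2
          · exact hry' (by rw [hG1e]; exact h2.mul_left _)
          · have h3 : (r : ℤ) ∣ (1 + y) * (3 * A + 2 * e) := by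
              rw [← hco]; exact h2.mul_left _
            have h4 := (hri.dvd_or_dvd h3).resolve_left hry
            have h5 := (dvd_add_left (hre.mul_left 2)).1 h4
            rcases hri.dvd_or_dvd h5 with h6 | h6
            · exact n3 h6
            · exact hrA h6
        have h1 := hz r hr hre hGc
        have e1 : W = o * (1 + 2 * ω) + β * x * (1 + y + 2 * Q) + z * (G1 * (1 + y + 2 * Q)) := by
          rw [hW, hi]; ring
        rw [e1]; exact h1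
    have h1 : (r : ℤ) ∣ 3 * b := by
      have e1 : 3 * b = (3 * b + 2 * a - W * f) - 2 * a + W * f := by ring
      rw [e1]
      exact dvd_add (dvd_sub h9 (hra.mul_left _)) hWf
    rcases hri.dvd_or_dvd h1 with h2 | h2
    · exact n3 h2
    · exact hry (h2.trans hby)
  -- the prime three
  have hg3 : (3 : ℤ) ∣ e → ¬ (3 : ℤ) ∣ A → ¬ (3 : ℤ) ∣ W ∧ ((3 : ℤ) ∣ f →
      ¬ (3 : ℤ) ∣ b ∧ (3 : ℤ) ∣ b - A ∧
        ((9 : ℤ) ∣ e → ¬ (9 : ℤ) ∣ f → ¬ (9 : ℤ) ∣ 3 * b + 2 * a - W * f)) := by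
    intro h3e h3A
    have h3a : (3 : ℤ) ∣ a := by
      have h1 : (3 : ℤ) ∣ a * A := by rw [haA]; exact h3e.mul_right _
      exact (p3.dvd_or_dvd h1).resolve_right h3A
    by_cases h3y : (3 : ℤ) ∣ y
    · obtain ⟨m1, m2, m3, m4⟩ := h.three_y hN hv hb3 he3 hA2 h3e h3A h3y
      have hWo : (3 : ℤ) ∣ W - o := by
        have e1 : W - o = 3 * i + (t + i) * y + 2 * φ := by rw [hW']; ring
        rw [e1]
        exact dvd_add (dvd_add (dvd_mul_right _ _) (h3y.mul_left _)) (m1.mul_left _)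
      refine ⟨fun h9 => ?_, fun _ => ⟨m3, m4, fun _ h9f h9 => hs h9f ?_⟩⟩
      · have h10 := dvd_sub h9 hWo
        rcases ho with rfl | rfl <;> omega
      · have e1 : 3 * b + 2 * a - o * f = (3 * b + 2 * a - W * f) + (W - o) * f := by ring
        rw [e1]
        refine dvd_add h9 ?_
        have e2 : (9 : ℤ) = 3 * 3 := by norm_num
        rw [e2]; exact mul_dvd_mul hWo m2
    · obtain ⟨m1, m2⟩ := hG3 h3e h3A h3y
      have h3co : (3 : ℤ) ∣ 1 + y + 2 * Q := by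
        have h1 : (3 : ℤ) ∣ A * (1 + y + 2 * Q) := by
          rw [hco]
          exact Dvd.dvd.mul_left (dvd_add (dvd_mul_right _ _) (h3e.mul_left _)) _
        exact (p3.dvd_or_dvd h1).resolve_left h3A
      refine ⟨fun h9 => ?_, fun h3f => ?_⟩
      · rw [hW] at h9
        have h10 := (dvd_add_left (h3co.mul_left i)).1 h9
        apply m1
        have e1 : 1 + 2 * ω = o * (o * (1 + 2 * ω)) := by linear_combination (-(1 + 2 * ω)) * ho2
        rw [e1]; exact h10.mul_left _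
      · have h3D : (3 : ℤ) ∣ a + b - A := by
          by_contra h9
          exact hnf 3 Nat.prime_three (by exact_mod_cast h3e) (by exact_mod_cast h3y)
            (by exact_mod_cast h9) (by exact_mod_cast h3f)
        refine ⟨fun h9 => ?_, ?_, fun h9e h9f => ?_⟩
        · have := h.D0 hN hv Nat.prime_three (by exact_mod_cast h9) (by exact_mod_cast h3e)
          exact this (by exact_mod_cast h3D)
        · have e1 : b - A = (a + b - A) - a := by ring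
          rw [e1]; exact dvd_sub h3D h3a
        · rw [hW]; exact m2 h3f h9e h9f i
  obtain ⟨j1, j2⟩ := h.good2 hN hv hb2 hf2 hby hκ
    (fun r hr hra hry hr3 => by rw [hW]; exact hG1 r hr hra hry hr3 i) hg2 hg3
  exact ⟨t, i, W, κ, hW, hoω, k1, k2, hκ, j1, j2⟩

end Pool.Agent.H4G
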