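import Pool.Agent.H4G.Arith.K1L2
import Pool.Agent.H4G.Arith.K1L1b
import Pool.Agent.H4G.Arith.K1NumW
import Pool.Agent.H4G.Arith.K1NumT4
import Pool.Agent.H4G.Arith.K1NumT6

/-!
# LINE B, `K = 1`: the exits of level two, classes and windows (helper9; Lean: helper64)
-/

set_option autoImplicit false

namespace Pool.Agent.H4G

/-! ## Classes -/

/-- a set of integers whose differences are divisible by `m` is in one class -/
theorem class_of_diff {P : ℤ → Prop} {m : ℤ} (hP : ∀ x x', P x → P x' → m ∣ x - x') :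
    ∃ ρ : ℤ, ∀ x, P x → m ∣ x - ρ := by
  by_cases h : ∃ x', P x'
  · obtain ⟨x', hx'⟩ := h
    exact ⟨x', fun x hx => hP x x' hx hx'⟩
  · exact ⟨0, fun x hx => absurd ⟨x, hx⟩ h⟩

theorem exists_two_class {r : ℕ} (hr : 3 ≤ r) (α β : ℤ) :
    ∃ x : ℤ, ¬ (r : ℤ) ∣ x - α ∧ ¬ (r : ℤ) ∣ x - β := by
  have n1 : ¬ (r : ℤ) ∣ 1 := by
    intro h
    have := Int.le_of_dvd (by norm_num) h
    omega
  have n2 : ¬ (r : ℤ) ∣ 2 := by
    intro h
    have := Int.le_of_dvd (by norm_num) h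
    omega
  have d : ∀ γ x y : ℤ, (r : ℤ) ∣ x - γ → (r : ℤ) ∣ y - γ → (r : ℤ) ∣ y - x := by
    intro γ x y h1 h2
    have e1 : y - x = (y - γ) - (x - γ) := by ring
    rw [e1]; exact dvd_sub h2 h1
  by_contra hcon
  push Not at hcon
  have h0 := hcon 0
  have h1 := hcon 1
  have h2 := hcon 2
  by_cases c0 : (r : ℤ) ∣ 0 - α
  · by_cases c1 : (r : ℤ) ∣ 1 - α
    · exact n1 (by simpa using d α 0 1 c0 c1)
    · by_cases c2 : (r : ℤ) ∣ 2 - α
      · exact n2 (by simpa using d α 0 2 c0 c2)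
      · exact n1 (by simpa using d β 1 2 (h1 c1) (h2 c2))
  · by_cases c1 : (r : ℤ) ∣ 1 - α
    · by_cases c2 : (r : ℤ) ∣ 2 - α
      · exact n1 (by simpa using d α 1 2 c1 c2)
      · exact n2 (by simpa using d β 0 2 (h0 c0) (h2 c2))
    · exact n1 (by simpa using d β 0 1 (h0 c0) (h1 c1))

/-- an integer which avoids at most two classes at each prime -/
theorem avoid0 (P1 P2 : Finset ℕ) (h1 : ∀ r ∈ P1, r.Prime ∧ 3 ≤ r)
    (h2 : ∀ r ∈ P2, r.Prime ∧ 3 ≤ r) (ρ1 ρ2 : ℕ → ℤ) :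
    ∃ x₀ : ℤ, (∀ r ∈ P1, ¬ (r : ℤ) ∣ x₀ - ρ1 r) ∧ (∀ r ∈ P2, ¬ (r : ℤ) ∣ x₀ - ρ2 r) := by
  classical
  have h0 : ∀ r : ℕ, ∃ x : ℤ, 3 ≤ r → ¬ (r : ℤ) ∣ x - ρ1 r ∧ ¬ (r : ℤ) ∣ x - ρ2 r := by
    intro r
    by_cases hr : 3 ≤ r
    · obtain ⟨x, hx⟩ := exists_two_class hr (ρ1 r) (ρ2 r)
      exact ⟨x, fun _ => hx⟩
    · exact ⟨0, fun h => absurd h hr⟩
  choose F hF using h0
  obtain ⟨x, hx⟩ := crt_primes (P1 ∪ P2) (fun r hr => by
    rcases Finset.mem_union.1 hr with h | h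
    · exact (h1 r h).1
    · exact (h2 r h).1) (fun _ => 1) F
  refine ⟨x, fun r hr h9 => ?_, fun r hr h9 => ?_⟩
  · have h3 := hx r (Finset.mem_union_left _ hr)
    rw [pow_one] at h3
    apply (hF r (h1 r hr).2).1
    have e1 : F r - ρ1 r = (x - ρ1 r) - (x - F r) := by ring
    rw [e1]; exact dvd_sub h9 h3
  · have h3 := hx r (Finset.mem_union_right _ hr)
    rw [pow_one] at h3
    apply (hF r (h2 r hr).2).2
    have e1 : F r - ρ2 r = (x - ρ2 r) - (x - F r) := by ring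
    rw [e1]; exact dvd_sub h9 h3

/-- the primes of `gcd (a, 1 + y)` -/
def PA (B g e2 Y : ℕ) : Finset ℕ := (Nat.gcd (g * e2 * B) (1 + g * Y)).primeFactors

/-- the primes with a first class -/
def PB (B g e2 Y : ℕ) : Finset ℕ :=
  if 3 ∣ g * e2 ∧ ¬ 3 ∣ g * Y then insert 3 ((PA B g e2 Y).erase 3) else PA B g e2 Y

/-- the prime three with a second class -/
def PC (g e2 Y : ℕ) : Finset ℕ :=
  if (3 ∣ g * e2 ∧ ¬ 3 ∣ g * Y) ∧ 9 ∣ g * e2 then {3} else ∅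

theorem card_k2 (A B k g e2 Y : ℕ) :
    (PB B g e2 Y).card + (PC g e2 Y).card ≤ k2 A B k g e2 Y := by
  classical
  unfold k2 PB PC
  by_cases h : 3 ∣ g * e2 ∧ ¬ 3 ∣ g * Y
  · rw [if_pos h, if_pos h]
    have h1 : (insert 3 ((PA B g e2 Y).erase 3)).card ≤ ((PA B g e2 Y).erase 3).card + 1 :=
      Finset.card_insert_le _ _
    by_cases h9 : 9 ∣ g * e2
    · rw [if_pos ⟨h, h9⟩, if_pos h9, Finset.card_singleton]
      show _ ≤ ((PA B g e2 Y).erase 3).card + 2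
      omega
    · rw [if_neg (fun h' => h9 h'.2), if_neg h9, Finset.card_empty]
      show _ ≤ ((PA B g e2 Y).erase 3).card + 1
      omega
  · rw [if_neg h, if_neg h, if_neg (fun h' => h h'.1), Finset.card_empty]
    show (PA B g e2 Y).card + 0 ≤ ((PA B g e2 Y).erase 3).card + _
    by_cases h3 : 3 ∣ Nat.gcd (g * e2 * B) (1 + g * Y)
    · rw [if_pos h3]
      have := Finset.pred_card_le_card_erase (s := PA B g e2 Y) (a := 3)
      omega
    · rw [if_neg h3]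
      have h4 : 3 ∉ PA B g e2 Y := fun h5 => h3 (Nat.dvd_of_mem_primeFactors h5)
      rw [Finset.erase_eq_of_notMem h4]

/-! ## The normed frame of level two -/

variable {S : PSt} {a' b c A a e f y φ : ℤ} {l p : Z2}

/-- the normed frame with its number data -/
structure K2N (S : PSt) (a' b c A a e f y φ : ℤ) (l p : Z2) (N : ℕ) (d A1 B k g e2 Y : ℕ) :
    Prop where
  h : K1 S a' b c A a e f y φ l p
  hN : N.Prime
  hv : a + A + a' = N
  hb3 : 3 ≤ b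
  he3 : e < 3 * A
  hAb : A < b
  D : KD A b c a e y d A1 B k g e2 Y
  hA2 : ¬ (2 : ℤ) ∣ A
  he4 : (4 : ℤ) ∣ e
  hf2 : (2 : ℤ) ∣ f
  hbA : (4 : ℤ) ∣ b - A
  hnf : ∀ r : ℕ, r.Prime → (r : ℤ) ∣ e → ¬ (r : ℤ) ∣ y → ¬ (r : ℤ) ∣ a + b - A → ¬ (r : ℤ) ∣ f

variable {N d A1 B k g e2 Y : ℕ}

theorem K2N.par (H : K2N S a' b c A a e f y φ l p N d A1 B k g e2 Y) :
    ¬ (2 : ℤ) ∣ b ∧ (2 : ℤ) ∣ y ∧ (2 : ℤ) ∣ φ ∧ (2 : ℤ) ∣ a ∧ ¬ (2 : ℤ) ∣ c :=
  H.h.P0 H.hN H.hv H.hb3 H.he3 H.hA2 ((by norm_num : (2 : ℤ) ∣ 4).trans H.he4)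

theorem K2N.by1 (H : K2N S a' b c A a e f y φ l p N d A1 B k g e2 Y) : b ∣ 1 + y :=
  H.h.b_dvd1 H.hN H.hv H.hb3 H.he3 H.hA2

theorem K2N.M (H : K2N S a' b c A a e f y φ l p N d A1 B k g e2 Y) :
    (1 : ℤ) + y = A1 * (B * k) := by
  rw [H.D.hy]
  exact_mod_cast H.D.hM.symm

theorem K2N.Qeq (H : K2N S a' b c A a e f y φ l p N d A1 B k g e2 Y) {Q : ℤ}
    (hQ : Q = B * k * (A1 + g * e2)) : A * Q = (1 + y) * c := by
  rw [hQ, H.M, H.D.hA, H.D.hc]; ring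

/-- the coefficient of `i` -/
theorem K2N.co (H : K2N S a' b c A a e f y φ l p N d A1 B k g e2 Y) {Q : ℤ}
    (hQ : Q = B * k * (A1 + g * e2)) : A * (1 + y + 2 * Q) = (1 + y) * (3 * A + 2 * e) := by
  have h1 := H.Qeq hQ
  rw [H.h.hc] at h1
  linear_combination 2 * h1

theorem K2N.gQ (H : K2N S a' b c A a e f y φ l p N d A1 B k g e2 Y) {Q : ℤ}
    (hQ : Q = B * k * (A1 + g * e2)) : (Int.gcd y (1 - Q) : ℤ) ∣ g := by
  have h1 : (Int.gcd y (1 - Q) : ℤ) ∣ y := Int.gcd_dvd_left ..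
  have h2 : (Int.gcd y (1 - Q) : ℤ) ∣ 1 - Q := Int.gcd_dvd_right ..
  have h3 : (A1 : ℤ) * (1 - Q) + y * (A1 + g * e2) = -(g * e2) := by
    have h4 := H.M
    rw [hQ]
    linear_combination (-((A1 : ℤ) + g * e2)) * h4.symm
  have h5 : (Int.gcd y (1 - Q) : ℤ) ∣ g * e2 := by
    rw [← dvd_neg, ← h3]
    exact dvd_add (h2.mul_left _) (h1.mul_right _)
  rw [H.D.hy] at h1
  have h6 : IsCoprime (Y : ℤ) (e2 : ℤ) := Nat.isCoprime_iff_coprime.2 H.D.co4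
  obtain ⟨α, β, hαβ⟩ := h6
  have e1 : (g : ℤ) = α * (g * Y) + β * (g * e2) := by linear_combination (-(g : ℤ)) * hαβ
  rw [e1]
  exact dvd_add (by rw [← H.D.hy]; exact (Int.gcd_dvd_left ..).mul_left _) (h5.mul_left _)

/-- a prime of `c` divides `Q` -/
theorem K2N.Q_c (H : K2N S a' b c A a e f y φ l p N d A1 B k g e2 Y) {Q : ℤ}
    (hQ : Q = B * k * (A1 + g * e2)) {r : ℕ} (hr : r.Prime) (hrc : (r : ℤ) ∣ c) : (r : ℤ) ∣ Q := by
  rw [H.D.hc] at hrc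
  rw [hQ]
  rcases pdvd_mul hr hrc with h1 | h1
  · have h2 := H.D.rad r hr (by exact_mod_cast h1)
    exact ((Int.natCast_dvd_natCast.2 h2).mul_left _).mul_right _
  · exact h1.mul_left _

/-- a prime of `a` and `1 + y` divides `Q` -/
theorem K2N.Q_a (H : K2N S a' b c A a e f y φ l p N d A1 B k g e2 Y) {Q : ℤ}
    (hQ : Q = B * k * (A1 + g * e2)) {r : ℕ} (hr : r.Prime) (hra : (r : ℤ) ∣ a)
    (hry : (r : ℤ) ∣ 1 + y) : (r : ℤ) ∣ Q := by
  rw [H.D.ha] at hra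
  rw [H.M] at hry
  rw [hQ]
  rcases pdvd_mul hr hra with h1 | h1
  · rcases pdvd_mul hr hry with h2 | h2
    · exfalso
      have h3 : r ∣ Nat.gcd A1 (g * e2) := Nat.dvd_gcd (by exact_mod_cast h2) (by exact_mod_cast h1)
      rw [H.D.co1] at h3
      exact hr.one_lt.ne' (Nat.dvd_one.1 h3)
    · exact h2.mul_right _
  · exact (h1.mul_right _).mul_right _

theorem K2N.three (H : K2N S a' b c A a e f y φ l p N d A1 B k g e2 Y) :
    ((3 : ℤ) ∣ e ∧ ¬ (3 : ℤ) ∣ A) ↔ 3 ∣ g * e2 := by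
  have h3 := Nat.prime_three
  constructor
  · rintro ⟨h1, h2⟩
    rw [H.D.he] at h1
    have h1' : 3 ∣ d * (g * e2) := by exact_mod_cast h1
    rcases (Nat.Prime.dvd_mul h3).1 h1' with h4 | h4
    · exfalso
      apply h2
      rw [H.D.hA]
      exact Dvd.dvd.mul_right (by exact_mod_cast h4) _
    · exact h4
  · intro h1
    constructor
    · rw [H.D.he]
      exact Dvd.dvd.mul_left (by exact_mod_cast h1) _
    · intro h2
      rw [H.D.hA] at h2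
      have h2' : 3 ∣ d * A1 := by exact_mod_cast h2
      rcases (Nat.Prime.dvd_mul h3).1 h2' with h4 | h4
      · have h5 : 3 ∣ Nat.gcd d (g * e2) := Nat.dvd_gcd h4 h1
        rw [H.D.co3] at h5
        omega
      · have h5 : 3 ∣ Nat.gcd A1 (g * e2) := Nat.dvd_gcd h4 h1
        rw [H.D.co1] at h5
        omega

theorem K2N.g_y (H : K2N S a' b c A a e f y φ l p N d A1 B k g e2 Y) : (g : ℤ) ∣ y := by
  rw [H.D.hy]; exact dvd_mul_right _ _

theorem K2N.g_e (H : K2N S a' b c A a e f y φ l p N d A1 B k g e2 Y) : (g : ℤ) ∣ e := by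
  rw [H.D.he]; exact (dvd_mul_right _ _).mul_left _

theorem unit_o {o : ℤ} (ho : o = 1 ∨ o = -1) {m x : ℤ} (h : m ∣ o * x) : m ∣ x := by
  rcases ho with rfl | rfl
  · simpa using h
  · simpa using h

theorem not_dvd_two {r : ℕ} (hr : r.Prime) (h2 : r ≠ 2) : ¬ (r : ℤ) ∣ 2 := by
  intro h
  have h3 : r ∣ 2 := by exact_mod_cast h
  exact h2 ((Nat.prime_dvd_prime_iff_eq hr Nat.prime_two).1 h3)

/-- `W ≡ W'` gives `x ≡ x'` -/
theorem x_of_W {o : ℤ} (ho : o = 1 ∨ o = -1) {r : ℕ} (hr : r.Prime) (hr2 : r ≠ 2) {g : ℤ}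
    (hg : ¬ (r : ℤ) ∣ g) {x x' i i' w C : ℤ} (hC : (r : ℤ) ∣ C)
    (h : (r : ℤ) ∣ (o * (1 + 2 * (w + g * x)) + i * C) - (o * (1 + 2 * (w + g * x')) + i' * C)) :
    (r : ℤ) ∣ x - x' := by
  have h1 : (r : ℤ) ∣ o * (2 * (g * (x - x'))) := by
    have e1 : o * (2 * (g * (x - x'))) =
        ((o * (1 + 2 * (w + g * x)) + i * C) - (o * (1 + 2 * (w + g * x')) + i' * C)) -
          (i - i') * C := by ring
    rw [e1]
    exact dvd_sub h (hC.mul_left _)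
  have h2 := unit_o ho h1
  rcases pdvd_mul hr h2 with h3 | h3
  · exact absurd h3 (not_dvd_two hr hr2)
  · exact (pdvd_mul hr h3).resolve_left hg

/-- the class at a prime of `gcd (a, 1 + y)` -/
theorem K2N.pcls (H : K2N S a' b c A a e f y φ l p N d A1 B k g e2 Y) {o Q : ℤ}
    (ho : o = 1 ∨ o = -1) (hQ : Q = B * k * (A1 + g * e2)) (w : ℤ) {r : ℕ} (hr : r.Prime)
    (hra : (r : ℤ) ∣ a) (hry : (r : ℤ) ∣ 1 + y) (h3 : r ≠ 3 ∨ ¬ (3 : ℤ) ∣ e) {x x' i i' : ℤ}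
    (h1 : (r : ℤ) ∣ (o * (1 + 2 * (w + g * x)) + i * (1 + y + 2 * Q)) * e ∧
      (r : ℤ) ∣ 3 * b + 2 * a - (o * (1 + 2 * (w + g * x)) + i * (1 + y + 2 * Q)) * f)
    (h2 : (r : ℤ) ∣ (o * (1 + 2 * (w + g * x')) + i' * (1 + y + 2 * Q)) * e ∧
      (r : ℤ) ∣ 3 * b + 2 * a - (o * (1 + 2 * (w + g * x')) + i' * (1 + y + 2 * Q)) * f) :
    (r : ℤ) ∣ x - x' := by
  obtain ⟨k1, k2, k3, k4, k5⟩ := H.par
  have hr2 : r ≠ 2 := by
    rintro rfl
    have : (2 : ℤ) ∣ 1 + y := by exact_mod_cast hry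
    omega
  have hy : ¬ (r : ℤ) ∣ y := fun h9 => prime_not_dvd_one hr ((dvd_add_left h9).1 hry)
  have hg : ¬ (r : ℤ) ∣ (g : ℤ) := fun h9 => hy (h9.trans H.g_y)
  have hC : (r : ℤ) ∣ 1 + y + 2 * Q := dvd_add hry ((H.Q_a hQ hr hra hry).mul_left _)
  refine x_of_W ho hr hr2 hg (i := i) (i' := i') (w := w) hC ?_
  by_cases hre : (r : ℤ) ∣ e
  · have hrA : ¬ (r : ℤ) ∣ A := fun h9 =>
      H.h.not_a H.hN H.hv hr h9 (by rw [H.h.hc]; exact dvd_add h9 hre) hra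
    have hrf : ¬ (r : ℤ) ∣ f := by
      intro hrf
      have h9 : (r : ℤ) ∣ 3 * b := by
        have e1 : 3 * b = (3 * b + 2 * a - (o * (1 + 2 * (w + g * x)) + i * (1 + y + 2 * Q)) * f)
            - 2 * a + (o * (1 + 2 * (w + g * x)) + i * (1 + y + 2 * Q)) * f := by ring
        rw [e1]
        exact dvd_add (dvd_sub h1.2 (hra.mul_left _)) (hrf.mul_left _)
      rcases pdvd_mul hr h9 with h10 | h10
      · have h11 : r ∣ 3 := by exact_mod_cast h10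
        have h12 := (Nat.prime_dvd_prime_iff_eq hr Nat.prime_three).1 h11
        rcases h3 with h3 | h3
        · exact h3 h12
        · apply h3
          rw [h12] at hre
          exact_mod_cast hre
      · exact H.hnf r hr hre hy (H.h.D0 H.hN H.hv hr h10 hre) hrf
    have h9 : (r : ℤ) ∣ ((o * (1 + 2 * (w + g * x)) + i * (1 + y + 2 * Q)) -
        (o * (1 + 2 * (w + g * x')) + i' * (1 + y + 2 * Q))) * f := by
      have e1 : ((o * (1 + 2 * (w + g * x)) + i * (1 + y + 2 * Q)) -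
          (o * (1 + 2 * (w + g * x')) + i' * (1 + y + 2 * Q))) * f =
          (3 * b + 2 * a - (o * (1 + 2 * (w + g * x')) + i' * (1 + y + 2 * Q)) * f) -
          (3 * b + 2 * a - (o * (1 + 2 * (w + g * x)) + i * (1 + y + 2 * Q)) * f) := by ring
      rw [e1]
      exact dvd_sub h2.2 h1.2
    exact (pdvd_mul hr h9).resolve_right hrf
  · exact dvd_sub ((pdvd_mul hr h1.1).resolve_right hre) ((pdvd_mul hr h2.1).resolve_right hre)

/-- the first class at three -/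
theorem K2N.tcls1 (H : K2N S a' b c A a e f y φ l p N d A1 B k g e2 Y)
    (h3y : ¬ (3 : ℤ) ∣ y) {w x x' : ℤ} (h1 : (3 : ℤ) ∣ 1 + 2 * (w + g * x))
    (h2 : (3 : ℤ) ∣ 1 + 2 * (w + g * x')) : (3 : ℤ) ∣ x - x' := by
  have h3 := Nat.prime_three
  have hg : ¬ ((3 : ℕ) : ℤ) ∣ (g : ℤ) := fun h9 => h3y (by exact_mod_cast h9.trans H.g_y)
  have := x_of_W (o := 1) (Or.inl rfl) h3 (by norm_num) hg (x := x) (x' := x') (i := 0) (i' := 0)
    (w := w) (C := 0) (dvd_zero _) (by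
      rw [one_mul, one_mul, mul_zero, add_zero, add_zero]
      exact_mod_cast dvd_sub h1 h2)
  exact_mod_cast this

/-- the second class at three -/
theorem K2N.tcls2 (H : K2N S a' b c A a e f y φ l p N d A1 B k g e2 Y) {o Q : ℤ}
    (ho : o = 1 ∨ o = -1) (hQ : Q = B * k * (A1 + g * e2)) (h3e : (3 : ℤ) ∣ e)
    (h3A : ¬ (3 : ℤ) ∣ A) (h3y : ¬ (3 : ℤ) ∣ y) (h3f : (3 : ℤ) ∣ f) (h9f : ¬ (9 : ℤ) ∣ f)
    {w x x' i i' : ℤ}
    (h1 : (9 : ℤ) ∣ 3 * b + 2 * a - (o * (1 + 2 * (w + g * x)) + i * (1 + y + 2 * Q)) * f)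
    (h2 : (9 : ℤ) ∣ 3 * b + 2 * a - (o * (1 + 2 * (w + g * x')) + i' * (1 + y + 2 * Q)) * f) :
    (3 : ℤ) ∣ x - x' := by
  have h3 := Nat.prime_three
  have p3 : Prime (3 : ℤ) := Int.prime_three
  have hg : ¬ ((3 : ℕ) : ℤ) ∣ (g : ℤ) := fun h9 => h3y (by exact_mod_cast h9.trans H.g_y)
  have hC : (3 : ℤ) ∣ 1 + y + 2 * Q := by
    have h4 : (3 : ℤ) ∣ A * (1 + y + 2 * Q) := by
      rw [H.co hQ]
      exact Dvd.dvd.mul_left (dvd_add (dvd_mul_right _ _) (h3e.mul_left _)) _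
    exact (p3.dvd_or_dvd h4).resolve_left h3A
  obtain ⟨f1, hf1⟩ := h3f
  have h3f1 : ¬ (3 : ℤ) ∣ f1 := by
    intro h9
    apply h9f
    rw [hf1]
    have e1 : (9 : ℤ) = 3 * 3 := by norm_num
    rw [e1]; exact mul_dvd_mul_left _ h9
  have h4 : (3 : ℤ) ∣ (o * (1 + 2 * (w + g * x)) + i * (1 + y + 2 * Q)) -
      (o * (1 + 2 * (w + g * x')) + i' * (1 + y + 2 * Q)) := by
    have h9 : (3 : ℤ) * 3 ∣ 3 * (((o * (1 + 2 * (w + g * x)) + i * (1 + y + 2 * Q)) -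
        (o * (1 + 2 * (w + g * x')) + i' * (1 + y + 2 * Q))) * f1) := by
      have e1 : 3 * (((o * (1 + 2 * (w + g * x)) + i * (1 + y + 2 * Q)) -
          (o * (1 + 2 * (w + g * x')) + i' * (1 + y + 2 * Q))) * f1) =
          (3 * b + 2 * a - (o * (1 + 2 * (w + g * x')) + i' * (1 + y + 2 * Q)) * f) -
          (3 * b + 2 * a - (o * (1 + 2 * (w + g * x)) + i * (1 + y + 2 * Q)) * f) := by
        rw [hf1]; ring
      have e2 : (3 : ℤ) * 3 = 9 := by norm_num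
      rw [e1, e2]
      exact dvd_sub h2 h1
    have h10 := (mul_dvd_mul_iff_left (by norm_num : (3 : ℤ) ≠ 0)).1 h9
    exact (p3.dvd_or_dvd h10).resolve_right h3f1
  have := x_of_W ho h3 (by norm_num) hg (x := x) (x' := x') (i := i) (i' := i')
    (w := w) (C := 1 + y + 2 * Q) (by exact_mod_cast hC) (by exact_mod_cast h4)
  exact_mod_cast this

/-- the content condition of the right lattice at `r` -/
theorem K2N.cfact (H : K2N S a' b c A a e f y φ l p N d A1 B k g e2 Y) {r : ℕ} (hr : r.Prime)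
    {τ : ℤ} (h1 : Dz r ((y - 2) • S.u)) (h2 : Dz r (τ • S.u + (S.v + l))) :
    (r : ℤ) ∣ c ∧ ¬ Dz r S.u ∧ (r : ℤ) ∣ y - 2 ∧ r ≠ 2 ∧ ¬ (r : ℤ) ∣ y := by
  obtain ⟨k1, k2, k3, k4, k5⟩ := H.par
  have hc : (r : ℤ) ∣ c := by
    have h3 := h2.cr_right S.u
    rwa [cr_add_right, cr_smul_right, cr_self, H.h.uw, mul_zero, zero_add] at h3
  have hu : ¬ Dz r S.u := by
    intro hu
    have hw : Dz r (S.v + l) := by
      have e1 : S.v + l = (τ • S.u + (S.v + l)) - τ • S.u := by module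
      rw [e1]; exact h2.sub (hu.smul _)
    have hcon := con1_iff.1 H.h.ext.con r hr
    apply hcon
    rw [H.h.L'_eq, dz_lat]
    exact ⟨hu.smul y, (hu.smul φ).add hw⟩
  have hr2 : r ≠ 2 := by
    rintro rfl
    exact k5 (by exact_mod_cast hc)
  have hy := (h1.mul_prime hr).resolve_right hu
  refine ⟨hc, hu, hy, hr2, fun h9 => not_dvd_two hr hr2 ?_⟩
  have e1 : (2 : ℤ) = y - (y - 2) := by ring
  rw [e1]; exact dvd_sub h9 hy

/-- the class at a prime of `gcd (c, y - 2)` -/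
theorem K2N.ccls (H : K2N S a' b c A a e f y φ l p N d A1 B k g e2 Y) {o Q y2 : ℤ}
    (ho : o = 1 ∨ o = -1) (hQ : Q = B * k * (A1 + g * e2)) (hy2 : y = 2 * y2) {r : ℕ}
    (hr : r.Prime) {w x x' t t' i i' : ℤ}
    (h1 : o * (w + g * x) = t * y2 + φ + i * (1 - Q))
    (h2 : Dz r ((y - 2) • S.u)) (h3 : Dz r ((φ + t + i) • S.u + (S.v + l)))
    (h4 : o * (w + g * x') = t' * y2 + φ + i' * (1 - Q))
    (h5 : Dz r ((φ + t' + i') • S.u + (S.v + l))) : (r : ℤ) ∣ x - x' := by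
  obtain ⟨m1, m2, m3, m4, m5⟩ := H.cfact hr h2 h3
  have hg : ¬ (r : ℤ) ∣ (g : ℤ) := fun h9 => m5 (h9.trans H.g_y)
  have h6 : Dz r (((t + i) - (t' + i')) • S.u) := by
    have e1 : ((t + i) - (t' + i')) • S.u = ((φ + t + i) • S.u + (S.v + l)) -
        ((φ + t' + i') • S.u + (S.v + l)) := by module
    rw [e1]; exact h3.sub h5
  have h7 := (h6.mul_prime hr).resolve_right m2
  have hrQ := H.Q_c hQ hr m1
  have h8 : (r : ℤ) ∣ o * (2 * (g * (x - x'))) := by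
    have e1 : o * (2 * (g * (x - x'))) = (t - t') * (y - 2) + 2 * ((t + i) - (t' + i')) -
        2 * (i - i') * Q := by
      linear_combination 2 * h1 - 2 * h4 - (t - t') * hy2
    rw [e1]
    exact dvd_sub (dvd_add (m3.mul_left _) (h7.mul_left _)) (hrQ.mul_left _)
  have h9 := unit_o ho h8
  rcases pdvd_mul hr h9 with h10 | h10
  · exact absurd h10 (not_dvd_two hr m4)
  · exact (pdvd_mul hr h10).resolve_left hg

end Pool.Agent.H4G
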