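import Pool.Agent.H4G.Asy.CVE

/-!
# Line B, `K = 1`: the number of classes at level two, bounds for powers of four
(statements: helper9; Lean: helper64)
-/

set_option autoImplicit false

namespace Pool.Agent.H4G

/-- number of classes at level 2 without the last ones: one class at each prime of P except 3; at 3: nothing if
`3 | y`, one or two classes if `3 | e1`, one class if `3 | P` -/
def k2 (_A B _k g e Y : ℕ) : ℕ :=
  ((Nat.gcd (g * e * B) (1 + g * Y)).primeFactors.erase 3).card +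
    (if 3 ∣ g * e ∧ ¬ 3 ∣ g * Y then (if 9 ∣ g * e then 2 else 1)
     else if 3 ∣ Nat.gcd (g * e * B) (1 + g * Y) then 1 else 0)

namespace K2W

theorem pow4 {Q : Finset ℕ} (h : ∀ p ∈ Q, 4 ≤ p) : 4 ^ Q.card ≤ ∏ p ∈ Q, p := by
  rw [← Finset.prod_const]
  exact Finset.prod_le_prod' h

theorem pow4' {Q : Finset ℕ} {c : ℕ} (hc : 4 ≤ c) (h : ∀ p ∈ Q, c ≤ p) (hne : Q.Nonempty) :
    c * 4 ^ Q.card ≤ 4 * ∏ p ∈ Q, p := by
  classical
  obtain ⟨q, hq⟩ := hne
  rw [← Finset.mul_prod_erase Q (fun p => p) hq, ← Finset.card_erase_add_one hq, pow_succ]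
  have h1 : 4 ^ (Q.erase q).card ≤ ∏ p ∈ Q.erase q, p :=
    pow4 fun p hp => hc.trans (h p (Finset.mem_of_mem_erase hp))
  have h2 := Nat.mul_le_mul (h q hq) h1
  nlinarith

theorem sq4 {Q : Finset ℕ} (h : ∀ p ∈ Q, 2 ≤ p) : 4 ^ Q.card ≤ (∏ p ∈ Q, p) ^ 2 := by
  have h1 : 2 ^ Q.card ≤ ∏ p ∈ Q, p := by
    rw [← Finset.prod_const]
    exact Finset.prod_le_prod' h
  have h2 : 4 ^ Q.card = (2 ^ Q.card) ^ 2 := by
    rw [← pow_mul, mul_comm, pow_mul]; norm_num
  rw [h2]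
  exact Nat.pow_le_pow_left h1 2

theorem ge5 {r : ℕ} (hr : r.Prime) (h3 : 3 ≤ r) (h : r ≠ 3) : 5 ≤ r := by
  by_contra h5
  have h4 : r = 4 := by omega
  subst h4
  revert hr
  decide

theorem ge7 {r : ℕ} (hr : r.Prime) (h5 : 5 ≤ r) (h : r ≠ 5) : 7 ≤ r := by
  by_contra h7
  have h4 : r = 6 := by omega
  subst h4
  revert hr
  decide

theorem w5 {Q : Finset ℕ} (h : ∀ p ∈ Q, p.Prime ∧ 5 ≤ p) (h2 : 2 ≤ Q.card) :
    35 * 4 ^ Q.card ≤ 16 * ∏ p ∈ Q, p := by
  classical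
  by_cases h5 : 5 ∈ Q
  · rw [← Finset.mul_prod_erase Q (fun p => p) h5]
    have hc := Finset.card_erase_add_one h5
    rw [← hc, pow_succ]
    have h1 : 7 * 4 ^ (Q.erase 5).card ≤ 4 * ∏ p ∈ Q.erase 5, p := by
      refine pow4' (by norm_num) (fun p hp => ?_) (Finset.card_pos.1 (by omega))
      have h3 := Finset.mem_erase.1 hp
      exact ge7 (h p h3.2).1 (h p h3.2).2 h3.1
    linarith
  · have h7 : ∀ p ∈ Q, 7 ≤ p := fun p hp => ge7 (h p hp).1 (h p hp).2 (fun h6 => h5 (h6 ▸ hp))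
    obtain ⟨q, hq⟩ : Q.Nonempty := Finset.card_pos.1 (by omega)
    rw [← Finset.mul_prod_erase Q (fun p => p) hq]
    have hc := Finset.card_erase_add_one hq
    rw [← hc, pow_succ]
    have h1 : 7 * 4 ^ (Q.erase q).card ≤ 4 * ∏ p ∈ Q.erase q, p :=
      pow4' (by norm_num) (fun p hp => h7 p (Finset.mem_of_mem_erase hp))
        (Finset.card_pos.1 (by omega))
    have h3 := h7 q hq
    have h4 : 7 * ∏ p ∈ Q.erase q, p ≤ q * ∏ p ∈ Q.erase q, p := Nat.mul_le_mul_right _ h3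
    have h5 := Nat.zero_le (∏ p ∈ Q.erase q, p)
    linarith

theorem w3 {Q : Finset ℕ} (h : ∀ p ∈ Q, p.Prime ∧ 3 ≤ p) (h2 : 3 ≤ Q.card) :
    105 * 4 ^ Q.card ≤ 64 * ∏ p ∈ Q, p := by
  classical
  by_cases h3 : 3 ∈ Q
  · rw [← Finset.mul_prod_erase Q (fun p => p) h3]
    have hc := Finset.card_erase_add_one h3
    rw [← hc, pow_succ]
    have h1 : 35 * 4 ^ (Q.erase 3).card ≤ 16 * ∏ p ∈ Q.erase 3, p := by
      refine w5 (fun p hp => ?_) (by omega)
      have h4 := Finset.mem_erase.1 hp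
      exact ⟨(h p h4.2).1, ge5 (h p h4.2).1 (h p h4.2).2 h4.1⟩
    linarith
  · have h1 : 35 * 4 ^ Q.card ≤ 16 * ∏ p ∈ Q, p :=
      w5 (fun p hp => ⟨(h p hp).1, ge5 (h p hp).1 (h p hp).2 (fun h6 => h3 (h6 ▸ hp))⟩) (by omega)
    have h5 := Nat.zero_le (∏ p ∈ Q, p)
    linarith

theorem w1 {Q : Finset ℕ} (h : ∀ p ∈ Q, p.Prime ∧ 3 ≤ p) : 3 * 4 ^ Q.card ≤ 4 * ∏ p ∈ Q, p := by
  classical
  by_cases h3 : 3 ∈ Q
  · rw [← Finset.mul_prod_erase Q (fun p => p) h3]
    have hc := Finset.card_erase_add_one h3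
    rw [← hc, pow_succ]
    have h1 : 4 ^ (Q.erase 3).card ≤ ∏ p ∈ Q.erase 3, p := by
      refine pow4 (fun p hp => ?_)
      have h4 := Finset.mem_erase.1 hp
      have := ge5 (h p h4.2).1 (h p h4.2).2 h4.1
      omega
    linarith
  · have h1 : 4 ^ Q.card ≤ ∏ p ∈ Q, p := by
      refine pow4 (fun p hp => ?_)
      have := ge5 (h p hp).1 (h p hp).2 (fun h6 => h3 (h6 ▸ hp))
      omega
    have h5 := Nat.zero_le (∏ p ∈ Q, p)
    linarith

theorem prod_le {n : ℕ} (hn : 0 < n) {Q : Finset ℕ} (h : Q ⊆ n.primeFactors) :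
    ∏ p ∈ Q, p ≤ n :=
  Nat.le_of_dvd hn ((Finset.prod_dvd_prod_of_subset _ _ _ h).trans (Nat.prod_primeFactors_dvd n))

theorem prod_dvd {n : ℕ} {Q : Finset ℕ} (h : ∀ p ∈ Q, p.Prime ∧ p ∣ n) : ∏ p ∈ Q, p ∣ n :=
  Finset.prod_primes_dvd n (fun p hp => (h p hp).1.prime) (fun p hp => (h p hp).2)

/-- the bound for `B` -/
theorem wB {B r : ℕ} (hB : B % 2 = 1) (hr : r.Prime) (hr3 : 3 ≤ r) (hrB : ¬ r ∣ B)
    (h : r + 4 ≤ B) : 21 * 4 ^ B.primeFactors.card ≤ 4 * (B * r) := by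
  classical
  have hodd : ∀ p ∈ B.primeFactors, p.Prime ∧ 3 ≤ p := by
    intro p hp
    have h1 := Nat.prime_of_mem_primeFactors hp
    refine ⟨h1, ?_⟩
    have h2 := h1.two_le
    have h3 : p ≠ 2 := by
      rintro rfl
      have := Nat.dvd_of_mem_primeFactors hp
      omega
    omega
  have hle : ∏ p ∈ B.primeFactors, p ≤ B := prod_le (by omega) (Finset.Subset.refl _)
  by_cases h7 : 7 ≤ r
  · have h1 := w1 hodd
    have h2 : 7 * B ≤ B * r := by rw [mul_comm]; exact Nat.mul_le_mul_left _ h7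
    linarith
  have hcase : r = 3 ∨ r = 5 := by
    have h4 : r ≠ 4 := by rintro rfl; revert hr; decide
    have h6 : r ≠ 6 := by rintro rfl; revert hr; decide
    omega
  by_cases hc : B.primeFactors.card ≤ 1
  · have h1 : 4 ^ B.primeFactors.card ≤ 4 ^ 1 := Nat.pow_le_pow_right (by norm_num) hc
    rcases hcase with rfl | rfl
    · omega
    · omega
  · rcases hcase with rfl | rfl
    · have h1 : 35 * 4 ^ B.primeFactors.card ≤ 16 * ∏ p ∈ B.primeFactors, p := by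
        refine w5 (fun p hp => ⟨(hodd p hp).1, ge5 (hodd p hp).1 (hodd p hp).2 ?_⟩) (by omega)
        rintro rfl
        exact hrB (Nat.dvd_of_mem_primeFactors hp)
      linarith
    · by_cases h3 : 3 ∈ B.primeFactors
      · rw [← Finset.mul_prod_erase B.primeFactors (fun p => p) h3] at hle
        have hcc := Finset.card_erase_add_one h3
        rw [← hcc, pow_succ]
        have h1 : 7 * 4 ^ (B.primeFactors.erase 3).card ≤ 4 * ∏ p ∈ B.primeFactors.erase 3, p := by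
          refine pow4' (by norm_num) (fun p hp => ?_) (Finset.card_pos.1 (by omega))
          have h4 := Finset.mem_erase.1 hp
          refine ge7 (hodd p h4.2).1 (ge5 (hodd p h4.2).1 (hodd p h4.2).2 h4.1) ?_
          rintro rfl
          exact hrB (Nat.dvd_of_mem_primeFactors h4.2)
        linarith
      · have h1 : 7 * 4 ^ B.primeFactors.card ≤ 4 * ∏ p ∈ B.primeFactors, p := by
          refine pow4' (by norm_num) (fun p hp => ?_) (Finset.card_pos.1 (by omega))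
          refine ge7 (hodd p hp).1 (ge5 (hodd p hp).1 (hodd p hp).2 (fun h6 => h3 (h6 ▸ hp))) ?_
          rintro rfl
          exact hrB (Nat.dvd_of_mem_primeFactors hp)
        linarith

/-- the primes of `gcd (g e B, 1 + g Y)` -/
theorem P_sub {A B k g e Y : ℕ} (hB : 0 < B) (he : 0 < e) (hM : A * (B * k) = 1 + g * Y)
    (hco : Nat.Coprime A (g * e)) :
    (Nat.gcd (g * e * B) (1 + g * Y)).primeFactors ⊆
      B.primeFactors ∪ (Nat.gcd e k).primeFactors := by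
  intro r hr
  have h1 := Nat.prime_of_mem_primeFactors hr
  have h2 := Nat.dvd_of_mem_primeFactors hr
  have h3 := h2.trans (Nat.gcd_dvd_left _ _)
  have h4 := h2.trans (Nat.gcd_dvd_right _ _)
  rw [Finset.mem_union, Nat.mem_primeFactors, Nat.mem_primeFactors]
  by_cases hrB : r ∣ B
  · exact Or.inl ⟨h1, hrB, hB.ne'⟩
  · right
    have h5 := (h1.dvd_mul.1 h3).resolve_right hrB
    have h6 : ¬ r ∣ g := by
      intro h7
      have h8 : r ∣ 1 := (Nat.dvd_add_left (h7.mul_right Y)).1 h4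
      exact h1.one_lt.ne' (Nat.dvd_one.1 h8)
    have h7 := (h1.dvd_mul.1 h5).resolve_left h6
    have h8 : r ∣ k := by
      rw [← hM] at h4
      rcases h1.dvd_mul.1 h4 with h9 | h9
      · exfalso
        have h10 := Nat.dvd_gcd h9 h5
        rw [hco] at h10
        exact h1.one_lt.ne' (Nat.dvd_one.1 h10)
      · exact (h1.dvd_mul.1 h9).resolve_left hrB
    refine ⟨h1, Nat.dvd_gcd h7 h8, ?_⟩
    have := Nat.gcd_pos_of_pos_left k he
    omega

end K2W

end Pool.Agent.H4G
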