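import Pool.Agent.H4G.Arith.K1NumO
import Pool.Agent.H4G.Arith.K1NumK2
set_option autoImplicit false

/-!
# Line B, K = 1: common facts for T4 (helper24)
-/

namespace Pool.Agent.H4G

open Finset

/-- splitting of a set of primes of `gcd (g e B) (1 + g Y)` -/
theorem K1.split {A B k g e Y : ℕ} (hM : A * (B * k) = 1 + g * Y) (hco : Nat.Coprime A (g * e))
    (Q : Finset ℕ) (hQ : Q ⊆ (Nat.gcd (g * e * B) (1 + g * Y)).primeFactors) :
    ∃ h : ℕ, 0 < h ∧ h ∣ e ∧ h ∣ k ∧ ∏ r ∈ Q, r ∣ B * h ∧ ∀ r : ℕ, r.Prime → r ∣ h → r ∈ Q := by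
  classical
  set Qh := Q.filter (fun r => ¬ r ∣ B) with hQh
  set QB := Q.filter (fun r => r ∣ B) with hQB
  have hm : ∀ r ∈ Qh, r.Prime ∧ r ∣ e ∧ r ∣ k := by
    intro r hr
    rw [hQh, Finset.mem_filter] at hr
    obtain ⟨h1, _, _, h | ⟨_, h2, h4⟩⟩ := K1.mem_P hM hco (hQ hr.1)
    · exact absurd h hr.2
    · exact ⟨h1, h2, h4⟩
  refine ⟨∏ r ∈ Qh, r, Finset.prod_pos fun r hr => (hm r hr).1.pos,
    K1.prod_dvd (fun r hr => (hm r hr).1) fun r hr => (hm r hr).2.1,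
    K1.prod_dvd (fun r hr => (hm r hr).1) fun r hr => (hm r hr).2.2, ?_, ?_⟩
  · rw [← Finset.prod_filter_mul_prod_filter_not Q (fun r => r ∣ B) (fun r => r)]
    refine Nat.mul_dvd_mul (K1.prod_dvd ?_ ?_) dvd_rfl
    · intro r hr
      exact (K1.mem_P hM hco (hQ (Finset.mem_filter.1 hr).1)).1
    · intro r hr
      exact (Finset.mem_filter.1 hr).2
  · intro r hr h1
    rw [hr.prime.dvd_finsetProd_iff] at h1
    obtain ⟨q, hq, h2⟩ := h1
    rw [(Nat.prime_dvd_prime_iff_eq hr (hm q hq).1).1 h2]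
    exact (Finset.mem_filter.1 hq).1

/-- `N0` and `m` -/
theorem K1.third' {g m Y : ℕ} (hg : 0 < g) (h : g * m ≤ 3 * (g * Y) + 2) : m ≤ 3 * Y + 2 := by
  by_contra hc
  push Not at hc
  have h1 : g * (3 * Y + 3) ≤ g * m := Nat.mul_le_mul_left _ hc
  have h2 : g * (3 * Y + 3) = 3 * (g * Y) + 3 * g := by ring
  omega

/-- a window that is long enough, by the difference `N - X` -/
theorem K1.room {g N X c : ℕ} (hg : 0 < g) (h : X + c ≤ N) : g * X + c ≤ g * N := by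
  have h1 : g * (X + c) ≤ g * N := Nat.mul_le_mul_left _ h
  have h2 : g * (X + c) = g * X + g * c := by ring
  have h3 : c ≤ g * c := Nat.le_mul_of_pos_left _ hg
  omega

theorem K1.room2 {g m X Y : ℕ} (hg : 0 < g) (hth : g * m ≤ 3 * (g * Y) + 2) (h : 3 * X + 35 ≤ 4 * m) :
    g * X + 11 ≤ g * (Y + m) := by
  have h1 : g * (3 * X + 35) ≤ g * (4 * m) := Nat.mul_le_mul_left _ h
  have h2 : g * (3 * X + 35) = 3 * (g * X) + g * 35 := by ring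
  have h3 : g * (4 * m) = 4 * (g * m) := by ring
  have h4 : g * (Y + m) = g * Y + g * m := by ring
  have h5 : 35 ≤ g * 35 := Nat.le_mul_of_pos_left _ hg
  omega

theorem K1.pow52 {j : ℕ} (hj : 1 ≤ j) : 5 * 2 ^ j ≤ 2 * 5 ^ j := by
  obtain ⟨i, rfl⟩ : ∃ i, j = i + 1 := ⟨j - 1, by omega⟩
  have := Nat.pow_le_pow_left (show 2 ≤ 5 by norm_num) i
  rw [pow_succ, pow_succ]
  omega

theorem K1.pow52' {j : ℕ} (hj : 2 ≤ j) : 25 * 2 ^ j ≤ 4 * 5 ^ j := by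
  obtain ⟨i, rfl⟩ : ∃ i, j = i + 2 := ⟨j - 2, by omega⟩
  have := Nat.pow_le_pow_left (show 2 ≤ 5 by norm_num) i
  rw [pow_add, pow_add]
  omega

/-- `c h | e` for the 3-part `c` -/
theorem K1.mul_dvd3 {g e Y n : ℕ} (hY3 : ¬ 3 ∣ g * Y) (hge : 3 ^ n ∣ g * e) {h : ℕ} (hhe : h ∣ e)
    (hh : ¬ 3 ∣ h) : 3 ^ n * h ∣ e := by
  have h3g : ¬ 3 ∣ g := fun h1 => hY3 (h1.mul_right _)
  have h1 : Nat.Coprime (3 ^ n) g := Nat.Coprime.pow_left n ((Nat.prime_three.coprime_iff_not_dvd).2 h3g)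
  have h2 : Nat.Coprime (3 ^ n) h := Nat.Coprime.pow_left n ((Nat.prime_three.coprime_iff_not_dvd).2 hh)
  exact Nat.Coprime.mul_dvd_of_dvd_of_dvd h2 (h1.dvd_of_dvd_mul_left hge) hhe

end Pool.Agent.H4G
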