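import Pool.Agent.H4G.Arith.K1NumW
set_option autoImplicit false

/-!
# Line B, K = 1: products of primes and the primes of `gcd (g e B) (1 + g Y)` (helper24)
-/

namespace Pool.Agent.H4G

open Finset

theorem K1.pow_card {K a b : ℕ} (S0 Q : Finset ℕ) (h : ∀ r ∈ Q, r < K → r ∈ S0)
    (hS : ∀ U ∈ S0.powerset, a * K ^ U.card ≤ b * ∏ r ∈ U, r) :
    a * K ^ Q.card ≤ b * ∏ r ∈ Q, r := by
  classical
  have h1 := Finset.prod_filter_mul_prod_filter_not Q (fun r => r < K) (fun r => r)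
  have h2 := Finset.card_filter_add_card_filter_not (s := Q) (fun r => r < K)
  have h3 : K ^ (Q.filter (fun r => ¬ r < K)).card ≤ ∏ r ∈ Q.filter (fun r => ¬ r < K), r := by
    rw [← Finset.prod_const]
    refine Finset.prod_le_prod' fun r hr => ?_
    simp only [Finset.mem_filter] at hr
    omega
  have h4 : Q.filter (fun r => r < K) ⊆ S0 := by
    intro r hr
    simp only [Finset.mem_filter] at hr
    exact h r hr.1 hr.2
  have h6 := hS _ (Finset.mem_powerset.2 h4)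
  rw [← h1, ← h2, pow_add]
  calc a * (K ^ (Q.filter (fun r => r < K)).card * K ^ (Q.filter (fun r => ¬ r < K)).card)
      = (a * K ^ (Q.filter (fun r => r < K)).card) * K ^ (Q.filter (fun r => ¬ r < K)).card := by
        ring
    _ ≤ (b * ∏ r ∈ Q.filter (fun r => r < K), r) * ∏ r ∈ Q.filter (fun r => ¬ r < K), r :=
        Nat.mul_le_mul h6 h3
    _ = _ := by ring

theorem K1.four_all (Q : Finset ℕ) (hQ : ∀ r ∈ Q, r.Prime) : 3 * 4 ^ Q.card ≤ 8 * ∏ r ∈ Q, r := by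
  refine K1.pow_card {2, 3} Q (fun r hr h4 => ?_) (by decide)
  have hp := hQ r hr
  interval_cases r <;> first | (exfalso; revert hp; norm_num; done) | (simp; done)

theorem K1.four_odd (Q : Finset ℕ) (hQ : ∀ r ∈ Q, r.Prime) (h2 : 2 ∉ Q) :
    3 * 4 ^ Q.card ≤ 4 * ∏ r ∈ Q, r := by
  refine K1.pow_card {3} Q (fun r hr h4 => ?_) (by decide)
  have hp := hQ r hr
  interval_cases r <;> first | (exfalso; revert hp; norm_num; done) | (exfalso; exact h2 hr) | (simp; done)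

theorem K1.four_no3 (Q : Finset ℕ) (hQ : ∀ r ∈ Q, r.Prime) (h3 : 3 ∉ Q) :
    4 ^ Q.card ≤ 2 * ∏ r ∈ Q, r := by
  have := K1.pow_card (K := 4) (a := 1) (b := 2) {2} Q (fun r hr h4 => ?_) (by decide)
  · linarith
  have hp := hQ r hr
  interval_cases r <;> first | (exfalso; revert hp; norm_num; done) | (exfalso; exact h3 hr) | (simp; done)

theorem K1.sixteen_five (Q : Finset ℕ) (hQ : ∀ r ∈ Q, r.Prime) (h2 : 2 ∉ Q) (h3 : 3 ∉ Q) :
    5005 * 16 ^ Q.card ≤ 65536 * ∏ r ∈ Q, r := by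
  refine K1.pow_card {5, 7, 11, 13} Q (fun r hr h4 => ?_) (by decide)
  have hp := hQ r hr
  interval_cases r <;> first
    | (exfalso; revert hp; norm_num; done)
    | (exfalso; exact h2 hr)
    | (exfalso; exact h3 hr)
    | (simp; done)

theorem K1.five_five (Q : Finset ℕ) (hQ : ∀ r ∈ Q, r.Prime) (h2 : 2 ∉ Q) (h3 : 3 ∉ Q) :
    5 ^ Q.card ≤ ∏ r ∈ Q, r := by
  have := K1.pow_card (K := 5) (a := 1) (b := 1) ∅ Q (fun r hr h4 => ?_) (by decide)
  · linarith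
  have hp := hQ r hr
  interval_cases r <;> first
    | (exfalso; revert hp; norm_num; done)
    | (exfalso; exact h2 hr)
    | (exfalso; exact h3 hr)

theorem K1.two_all (Q : Finset ℕ) (hQ : ∀ r ∈ Q, r.Prime) : 2 ^ Q.card ≤ ∏ r ∈ Q, r := by
  have := K1.pow_card (K := 2) (a := 1) (b := 1) ∅ Q (fun r hr h4 => ?_) (by decide)
  · linarith
  have := (hQ r hr).two_le
  omega

/-- the primes of `gcd (g e B) (1 + g Y)` -/
theorem K1.mem_P {A B k g e Y r : ℕ} (hM : A * (B * k) = 1 + g * Y) (hco : Nat.Coprime A (g * e))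
    (hr : r ∈ (Nat.gcd (g * e * B) (1 + g * Y)).primeFactors) :
    r.Prime ∧ r ∣ 1 + g * Y ∧ ¬ r ∣ g ∧ (r ∣ B ∨ (¬ r ∣ B ∧ r ∣ e ∧ r ∣ k)) := by
  have hp := Nat.prime_of_mem_primeFactors hr
  have hd := Nat.dvd_of_mem_primeFactors hr
  have h1 : r ∣ g * e * B := hd.trans (Nat.gcd_dvd_left _ _)
  have h2 : r ∣ 1 + g * Y := hd.trans (Nat.gcd_dvd_right _ _)
  have h3 : ¬ r ∣ g := by
    intro h
    have h4 : r ∣ g * Y := h.mul_right _
    have h5 : r ∣ 1 := (Nat.dvd_add_left h4).1 h2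
    exact hp.one_lt.ne' (Nat.dvd_one.1 h5)
  refine ⟨hp, h2, h3, ?_⟩
  by_cases hB : r ∣ B
  · exact Or.inl hB
  · right
    have h4 : r ∣ e := by
      rcases (hp.dvd_mul).1 h1 with h | h
      · rcases (hp.dvd_mul).1 h with h | h
        · exact absurd h h3
        · exact h
      · exact absurd h hB
    have h5 : ¬ r ∣ A := by
      intro h
      have h6 : r ∣ Nat.gcd A (g * e) := Nat.dvd_gcd h (h4.mul_left g)
      rw [hco] at h6
      exact hp.one_lt.ne' (Nat.dvd_one.1 h6)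
    rw [← hM] at h2
    rcases (hp.dvd_mul).1 h2 with h | h
    · exact absurd h h5
    · rcases (hp.dvd_mul).1 h with h | h
      · exact absurd h hB
      · exact ⟨hB, h4, h⟩

theorem K1.prod_dvd {Q : Finset ℕ} (hQ : ∀ r ∈ Q, r.Prime) {n : ℕ} (h : ∀ r ∈ Q, r ∣ n) :
    ∏ r ∈ Q, r ∣ n :=
  Finset.prod_primes_dvd _ (fun r hr => (hQ r hr).prime) h

/-- number of primes below 60 which divide `n` -/
def K1.om (n : ℕ) : ℕ :=
  ([2, 3, 5, 7, 11, 13, 17, 19, 23, 29, 31, 37, 41, 43, 47, 53, 59].filter fun p => n % p == 0).length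

theorem K1.mem_list : ∀ r < 61, r.Prime →
    r ∈ [2, 3, 5, 7, 11, 13, 17, 19, 23, 29, 31, 37, 41, 43, 47, 53, 59] := by
  decide +kernel

theorem K1.card_le_om {n : ℕ} (hn : n < 61) (hn0 : 0 < n) (Q : Finset ℕ)
    (hQ : ∀ r ∈ Q, r.Prime ∧ r ∣ n) : Q.card ≤ K1.om n := by
  unfold K1.om
  refine le_trans (card_le_card ?_) (List.toFinset_card_le _)
  intro r hr
  obtain ⟨h1, h2⟩ := hQ r hr
  rw [List.mem_toFinset, List.mem_filter]
  refine ⟨K1.mem_list r (by have := Nat.le_of_dvd hn0 h2; omega) h1, ?_⟩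
  simpa using Nat.mod_eq_zero_of_dvd h2

/-- number of odd primes below 60 which divide `n` -/
def K1.omo (n : ℕ) : ℕ :=
  ([3, 5, 7, 11, 13, 17, 19, 23, 29, 31, 37, 41, 43, 47, 53, 59].filter fun p => n % p == 0).length

theorem K1.mem_list' : ∀ r < 61, r.Prime → r ≠ 2 →
    r ∈ [3, 5, 7, 11, 13, 17, 19, 23, 29, 31, 37, 41, 43, 47, 53, 59] := by
  decide +kernel

theorem K1.card_le_omo {n : ℕ} (Q : Finset ℕ)
    (hQ : ∀ r ∈ Q, r.Prime ∧ r ≠ 2 ∧ r < 61 ∧ r ∣ n) : Q.card ≤ K1.omo n := by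
  unfold K1.omo
  refine le_trans (card_le_card ?_) (List.toFinset_card_le _)
  intro r hr
  obtain ⟨h1, h2, h3, h4⟩ := hQ r hr
  rw [List.mem_toFinset, List.mem_filter]
  refine ⟨K1.mem_list' r h3 h1 h2, ?_⟩
  simpa using Nat.mod_eq_zero_of_dvd h4

/-- `g (N0 - X) >= 7` is enough -/
theorem K1.red1 {A B k g e Y X : ℕ} (hA : 0 < A) (hg : 0 < g) (hY : 0 < Y)
    (hM : A * (B * k) = 1 + g * Y) (h3 : g * e < 3 * A)
    (h : g * X + 7 ≤ g * (Y + B * k * e)) : X * (A * g) ≤ (A + g * e) * (g * Y - 1) := by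
  have h1 : 1 ≤ g * Y := Nat.mul_pos hg hY
  obtain ⟨z, hz⟩ : ∃ z, g * Y = z + 1 := ⟨g * Y - 1, by omega⟩
  rw [hz, Nat.add_sub_cancel]
  zify at *
  have h5 : (A : ℤ) * (g * X + 7) ≤ A * (g * (Y + B * k * e)) := mul_le_mul_of_nonneg_left h hA.le
  have h6 : (A : ℤ) * (g * (Y + B * k * e)) = A * (g * Y) + g * e * (A * (B * k)) := by ring
  rw [h6, hM, hz] at h5
  have h7 : ((A : ℤ) + g * e) * z = A * (z + 1) + g * e * (1 + (z + 1)) - A - 2 * (g * e) := by ring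
  rw [h7]
  nlinarith

/-- `g (N0 - X) >= 11` is enough -/
theorem K1.red2 {A B k g e Y X : ℕ} (hA : 0 < A) (hY : 2 ≤ g * Y)
    (hM : A * (B * k) = 1 + g * Y) (h3 : g * e < 3 * A)
    (h : g * X + 11 ≤ g * (Y + B * k * e)) : X * (A * g) ≤ (A + g * e) * (g * Y - 2) := by
  obtain ⟨z, hz⟩ : ∃ z, g * Y = z + 2 := ⟨g * Y - 2, by omega⟩
  rw [hz, Nat.add_sub_cancel]
  zify at *
  have h5 : (A : ℤ) * (g * X + 11) ≤ A * (g * (Y + B * k * e)) := mul_le_mul_of_nonneg_left h hA.le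
  have h6 : (A : ℤ) * (g * (Y + B * k * e)) = A * (g * Y) + g * e * (A * (B * k)) := by ring
  rw [h6, hM, hz] at h5
  have h7 : ((A : ℤ) + g * e) * z = A * (z + 2) + g * e * (1 + (z + 2)) - 2 * A - 3 * (g * e) := by ring
  rw [h7]
  nlinarith

/-- `Y` is at least a third of `M e` -/
theorem K1.third {A B k g e Y : ℕ} (hk : 0 < k) (hB : 0 < B)
    (hM : A * (B * k) = 1 + g * Y) (h3 : g * e < 3 * A) : g * (B * k * e) ≤ 3 * (g * Y) + 2 := by
  have h1 : 0 < B * k := Nat.mul_pos hB hk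
  have h2 : g * e * (B * k) < 3 * A * (B * k) := Nat.mul_lt_mul_of_pos_right h3 h1
  have h4 : 3 * A * (B * k) = 3 * (1 + g * Y) := by rw [← hM]; ring
  have h5 : g * e * (B * k) = g * (B * k * e) := by ring
  omega

end Pool.Agent.H4G
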