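import Pool.Agent.H4G.Arith.LMove

/-!
# The K-level for `N` prime, type `(2, 311)`, descent to `a = 3` (row R8; helper5)

The Z-state `Z(a, z; a', x)` is `KC a z (-1) a' 1 (-x)`: left lattice `{Y = z X mod a}`, right
lattice `{X = x Y mod a'}`. Main result `K2.to_three`: for `N = a + 1 + a'` prime, every Z-state
with `n0 = 2` is equivalent to a Z-state with `a = 3`.
-/

set_option autoImplicit false

open scoped MatrixGroups

namespace Pool.Agent.H4G.K2

/-! ## Coprimality from `N` prime, free shears -/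

theorem cop_of_prime {N : ℕ} (hN : N.Prime) {a a' : ℤ} (ha : 0 < a) (ha' : 0 < a')
    (h : a + 1 + a' = N) : IsCoprime (a + 1) a' := by
  refine isCoprime_of_prime fun l hl h1 h2 => ?_
  have h3 : (l : ℤ) ∣ N := by rw [← h]; exact dvd_add h2 h1
  have h4 : l ∣ N := by exact_mod_cast h3
  have h5 := (Nat.prime_dvd_prime_iff_eq hl hN).1 h4
  have h6 := Int.le_of_dvd ha' h1
  rw [h5] at h6
  linarith

/-- if `q` is a unit modulo `a` (`d = 1`) the right lattice is free under all `V^m` -/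
theorem vfree {a p q a' p' q' : ℤ} (ha : 0 < a) (h1 : IsCoprime q a) (hco : IsCoprime (a + 1) a')
    (m : ℤ) (hok : (KC a p q a' p' q').Ok) :
    SEq (KC a p q a' p' q') (KC a p q a' (p' - m * q') q') := by
  obtain ⟨x, y, hxy⟩ := hco
  have h := KC.V1 ha h1 (m * x) hok
  have e : KC a p q a' (p' - m * x * (a + 1) * q') q' = KC a p q a' (p' - m * q') q' := by
    apply KC.congr (by simp) (by simp) _ (by simp)
    exact ⟨-(m * y * q'), by linear_combination (m * q') * hxy⟩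
  rw [e] at h
  exact h

/-- if `p'` is a unit modulo `a'` (`c = 1`) the left lattice is free under all `H^m` -/
theorem hfree {a p q a' p' q' : ℤ} (ha' : 0 < a') (h1 : IsCoprime p' a')
    (hco : IsCoprime (a' + 1) a) (m : ℤ) (hok : (KC a p q a' p' q').Ok) :
    SEq (KC a p q a' p' q') (KC a p (q - m * p) a' p' q') := by
  obtain ⟨x, y, hxy⟩ := hco
  have h := KC.H1 ha' h1 (m * x) hok
  have e : KC a p (q - m * x * (a' + 1) * p) a' p' q' = KC a p (q - m * p) a' p' q' := by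
    apply KC.congr (by simp) _ (by simp) (by simp)
    exact ⟨-(m * y * p), by linear_combination (m * p) * hxy⟩
  rw [e] at h
  exact h

/-- `H`-freedom for `{Y = z X}` -/
theorem hfreeZ {a z z' t m a' p' q' : ℤ} (ha' : 0 < a') (h1 : IsCoprime p' a')
    (hco : IsCoprime (a' + 1) a) (ht : a ∣ t * (1 + m * z) - 1) (hz : a ∣ t * z - z')
    (hok : (KC a z (-1) a' p' q').Ok) :
    SEq (KC a z (-1) a' p' q') (KC a z' (-1) a' p' q') := by
  have h := hfree ha' h1 hco m hok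
  have hta : IsCoprime a t := by
    obtain ⟨k, hk⟩ := ht
    exact ⟨-k, 1 + m * z, by linear_combination hk⟩
  have e : KC a z (-1 - m * z) a' p' q' = KC a z' (-1) a' p' q' := by
    rw [← KC.unit hta]
    apply KC.congr
    · exact (dvd_sub_comm).1 hz
    · have : (-1 : ℤ) - t * (-1 - m * z) = t * (1 + m * z) - 1 := by ring
      rw [this]; exact ht
    · simp
    · simp
  rw [e] at h
  exact h

/-- `c = 1` and content `1`: a Z-state -/
theorem znorm {a p q a' x : ℤ} (ha : 0 < a) (ha' : 0 < a') (hP : Prm a p q)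
    (hco : IsCoprime (a' + 1) a) (hok : (KC a p q a' 1 (-x)).Ok) :
    ∃ z, SEq (KC a p q a' 1 (-x)) (KC a z (-1) a' 1 (-x)) ∧ (Even a → (Even z ↔ Even p)) := by
  obtain ⟨m, hm⟩ := crt_exists a ha.ne' (fun r m => ¬ (r : ℤ) ∣ q - m * p)
    (fun r hr h1 => by
      by_cases h2 : (r : ℤ) ∣ p
      · exact ⟨0, fun h3 => hP r hr h1 h2 (by simpa using h3)⟩
      · by_cases h3 : (r : ℤ) ∣ q
        · refine ⟨1, fun h4 => h2 ?_⟩
          have := dvd_sub h3 h4
          simpa using this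
        · exact ⟨0, by simpa using h3⟩)
    (fun r hr h1 k k' h2 h3 h4 => h3 (by
      have e : q - k * p = (q - k' * p) + (k' - k) * p := by ring
      rw [e]
      exact dvd_add h4 (h2.mul_right _)))
  have hcop : IsCoprime (q - m * p) a := isCoprime_of_prime hm
  obtain ⟨α, β, hαβ⟩ := hcop
  have hta : IsCoprime a (-α) := ⟨β, -(q - m * p), by linear_combination hαβ⟩
  have h := hfree ha' isCoprime_one_left hco m hok
  have e : KC a p (q - m * p) a' 1 (-x) = KC a (-α * p) (-1) a' 1 (-x) := by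
    rw [← KC.unit hta]
    apply KC.congr
    · simp
    · exact ⟨-β, by linear_combination hαβ⟩
    · simp
    · simp
  rw [e] at h
  refine ⟨-α * p, h, fun hae => ?_⟩
  have hαo : ¬ Even α := by
    intro h1
    have h2 : Even (1 : ℤ) := by
      rw [← hαβ]
      exact (h1.mul_right _).add (hae.mul_left _)
    exact absurd h2 (by decide)
  rw [Int.even_mul, even_neg]
  exact ⟨fun h => h.resolve_left hαo, Or.inr⟩

/-- the mirror of a Z-state -/
theorem mirrorZ {a z a' x : ℤ} (hok : (KC a z (-1) a' 1 (-x)).Ok) :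
    SEq (KC a z (-1) a' 1 (-x)) (KC a' (-x) (-1) a 1 (-(-z))) := by
  have h := KC.mirror hok
  have e : KC a' (-x) (-1) a (-1) (-z) = KC a' (-x) (-1) a 1 (-(-z)) := by
    have hu : IsCoprime a (-1) := (isCoprime_one_right).neg_right
    have h2 := KC.unit' (a := a') (p := -x) (q := -1) (p' := 1) (q' := -(-z)) hu
    rw [← h2]
    have e1 : (-1 : ℤ) * 1 = -1 := by norm_num
    have e2 : (-1 : ℤ) * -(-z) = -z := by ring
    rw [e1, e2]
  rw [e] at h
  exact h

/-- replace `z` by its residue in `(0, a)` -/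
theorem zrep {a z a' p' q' : ℤ} (ha : 0 < a) (hok : (KC a z (-1) a' p' q').Ok) :
    ∃ z0, 0 < z0 ∧ z0 < a ∧ KC a z (-1) a' p' q' = KC a z0 (-1) a' p' q' ∧ a ∣ z - z0 := by
  have h1 : a ∣ z - z % a := Int.dvd_self_sub_emod
  have h2 := Int.emod_nonneg z ha.ne'
  have h3 := Int.emod_lt_of_pos z ha
  refine ⟨z % a, ?_, h3, ?_, h1⟩
  · rcases h2.lt_or_eq with h4 | h4
    · exact h4
    · exfalso
      apply (KC.ok_iff hok).1
      rw [← h4, sub_zero] at h1
      exact h1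
  · exact KC.congr ((dvd_sub_comm).1 h1) (by simp) (by simp) (by simp)

/-! ## The left step -/

/-- LEFT STEP: `Z(a, z; L')` with `L'` of content `1` goes to a Z-state with areas
`(a - e; a' + e)` -/
theorem lstep {N : ℕ} (hN : N.Prime) {a z a' p' q' s e h j : ℤ} (hs : s = 1 ∨ s = -1)
    (he : 0 < e) (heh : e < h) (hha : h ≤ a) (hh : h = s * e * z + j * a) (hej : IsCoprime e j)
    (ha' : 0 < a') (hsum : a + 1 + a' = N) (hP : Prm a' p' q') (hXY : IsCoprime (1 + e) (1 + h))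
    (hr : ∀ r : ℕ, r.Prime → (r : ℤ) ∣ a' → (r : ℤ) ∣ q' → ¬ (r : ℤ) ∣ 1 + e)
    (hok : (KC a z (-1) a' p' q').Ok) :
    ∃ z1 x1, SEq (KC a z (-1) a' p' q') (KC (a - e) z1 (-1) (a' + e) 1 (-x1)) ∧
      (Even (a - e) → (Even z1 ↔ Even ((z + j * s) * (1 + e) - s * (1 + h)))) := by
  have ha : 0 < a := by linarith
  have hXY' : IsCoprime (1 + e) (s * (1 + h)) := by
    rcases hs with rfl | rfl
    · rw [one_mul]; exact hXY
    · rw [neg_one_mul]; exact hXY.neg_right
  obtain ⟨m, hm⟩ := exists_Vm ha'.ne' hXY' hP hr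
  have h1 := vfree ha (isCoprime_one_left.neg_left) (cop_of_prime hN ha ha' hsum) m hok
  obtain ⟨p, q, x, k1, k2, k3⟩ := leftMoveK hs he heh hha hh hej h1.ok'
    (isArea_Lc ha' (hP.shV m)) hm
  obtain ⟨z1, k4, k5⟩ := znorm (by linarith : 0 < a - e) (by linarith : 0 < a' + e) k1
    (cop_of_prime hN (by linarith) (by linarith) (by linarith)) k2.ok'
  refine ⟨z1, x, h1.trans (k2.trans k4), fun hev => ?_⟩
  rw [k5 hev]
  have hno : ¬ Odd (a - e) := Int.not_odd_iff_even.2 hev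
  constructor
  · intro h5
    exact (k3.1 (Or.inr h5)).resolve_left hno
  · intro h5
    exact (k3.2 (Or.inr h5)).resolve_left hno

theorem prime_dvd_two {r : ℕ} (hr : r.Prime) (h : (r : ℤ) ∣ 2) : r = 2 :=
  (Nat.prime_dvd_prime_iff_eq hr Nat.prime_two).1 (by exact_mod_cast h)

theorem prime_dvd_four {r : ℕ} (hr : r.Prime) (h : (r : ℤ) ∣ 4) : r = 2 := by
  have h1 : (r : ℤ) ∣ 2 := by
    have h2 : (r : ℤ) ∣ 2 * 2 := by norm_num; exact h
    rcases (Nat.prime_iff_prime_int.1 hr).dvd_or_dvd h2 with h3 | h3 <;> exact h3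
  exact prime_dvd_two hr h1

theorem cop_two {k : ℤ} (h : Odd k) : IsCoprime (2 : ℤ) k := by
  obtain ⟨m, hm⟩ := h
  exact ⟨-m, 1, by linarith⟩

theorem cop_four {k : ℤ} (h : Odd k) : IsCoprime (4 : ℤ) k := by
  have := (cop_two h).pow_left (m := 2)
  norm_num at this
  exact this

/-- (8a): `a` even, `z` even, `x` odd: to `a - 1` -/
theorem step_a {N : ℕ} (hN : N.Prime) {a z a' x : ℤ} (ha : 0 < a) (ha' : 0 < a')
    (hsum : a + 1 + a' = N) (hae : Even a) (hz : Even z) (hx : Odd x)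
    (hok : (KC a z (-1) a' 1 (-x)).Ok) :
    ∃ z1 x1, SEq (KC a z (-1) a' 1 (-x)) (KC (a - 1) z1 (-1) (a' + 1) 1 (-x1)) := by
  obtain ⟨z0, h1, h2, h3, h4⟩ := zrep ha hok
  rw [h3] at hok ⊢
  have hz0 : Even z0 := by
    have h5 : Even (z - z0) := (even_iff_two_dvd).2 ((even_iff_two_dvd.1 hae).trans h4)
    have : z0 = z - (z - z0) := by ring
    rw [this]; exact hz.sub h5
  have h6 : Even (a - z0) := hae.sub hz0
  obtain ⟨k, hk⟩ := h6
  obtain ⟨z1, x1, k1, -⟩ := lstep hN (s := -1) (e := 1) (h := a - z0) (j := 1) (Or.inr rfl)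
    one_pos (by omega) (by omega) (by ring) isCoprime_one_left ha' hsum (prm_x a' x)
    (by rw [one_add_one_eq_two]; exact cop_two (k := 1 + (a - z0)) ⟨k, by omega⟩)
    (by
      intro r hr k1 k2 k3
      norm_num at k3
      have := prime_dvd_two hr k3
      subst this
      have : (2 : ℤ) ∣ x := by exact_mod_cast (dvd_neg).1 k2
      exact (Int.not_even_iff_odd.2 hx) (even_iff_two_dvd.2 this)) hok
  exact ⟨z1, x1, k1⟩

/-- (8b), first half: `a`, `a'` odd, `a' ≥ 3`: to `a + 1`, with `x₁` odd and `z₁` even -/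
theorem step_b1 {N : ℕ} (hN : N.Prime) {a z a' x : ℤ} (ha : 0 < a) (ha' : 0 < a')
    (hsum : a + 1 + a' = N) (hao : Odd a) (hao' : Odd a')
    (hok : (KC a z (-1) a' 1 (-x)).Ok) :
    ∃ z1 x1, SEq (KC a z (-1) a' 1 (-x)) (KC (a + 1) z1 (-1) (a' - 1) 1 (-x1)) ∧ Even z1 ∧
      Odd x1 := by
  have h0 := mirrorZ hok
  obtain ⟨y, h1, h2, h3, h4⟩ := zrep ha' h0.ok'
  rw [h3] at h0
  have hsum' : a' + 1 + a = N := by rw [← hsum]; ring
  have hr : ∀ r : ℕ, r.Prime → (r : ℤ) ∣ a → (r : ℤ) ∣ -(-z) → ¬ (r : ℤ) ∣ 1 + 1 := by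
    intro r hr k1 k2 k3
    norm_num at k3
    have := prime_dvd_two hr k3
    subst this
    exact (Int.not_even_iff_odd.2 hao) (even_iff_two_dvd.2 (by exact_mod_cast k1))
  have hex : ∃ z1 x1, SEq (KC a' y (-1) a 1 (-(-z))) (KC (a' - 1) z1 (-1) (a + 1) 1 (-x1)) ∧
      Odd z1 := by
    have hE : Even (a' - 1) := by
      obtain ⟨k, hk⟩ := hao'
      exact ⟨k, by omega⟩
    rcases Int.even_or_odd y with hy | hy
    · obtain ⟨k, hk⟩ := hy
      obtain ⟨z1, x1, k1, k2⟩ := lstep hN (s := 1) (e := 1) (h := y) (j := 0) (Or.inl rfl)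
        one_pos (by omega) (by omega) (by ring) isCoprime_one_left ha hsum' (prm_x a (-z))
        (by rw [one_add_one_eq_two]; exact cop_two (k := 1 + y) ⟨k, by omega⟩) hr h0.ok'
      refine ⟨z1, x1, k1, ?_⟩
      rw [← Int.not_even_iff_odd, k2 hE, Int.not_even_iff_odd]
      exact ⟨y - k - 1, by rw [hk]; ring⟩
    · obtain ⟨k, hk⟩ := hy
      obtain ⟨l, hl⟩ := hao'
      obtain ⟨z1, x1, k1, k2⟩ := lstep hN (s := -1) (e := 1) (h := a' - y) (j := 1) (Or.inr rfl)
        one_pos (by omega) (by omega) (by ring) isCoprime_one_left ha hsum' (prm_x a (-z))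
        (by rw [one_add_one_eq_two]; exact cop_two (k := 1 + (a' - y)) ⟨l - k, by omega⟩) hr h0.ok'
      refine ⟨z1, x1, k1, ?_⟩
      rw [← Int.not_even_iff_odd, k2 hE, Int.not_even_iff_odd]
      exact ⟨y - 1 + l - k, by rw [hk, hl]; ring⟩
  obtain ⟨z1, x1, k1, k2⟩ := hex
  have k3 := mirrorZ k1.ok'
  have k4 := h0.trans (k1.trans k3)
  have hno : Odd (-z1) := k2.neg
  refine ⟨-x1, -z1, k4, ?_, hno⟩
  have ha1 : 0 < a' - 1 := by
    rcases lt_trichotomy (a' - 1) 0 with h | h | h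
    · omega
    · exfalso
      have := (KC.ok_iff hok).2
      have e : a' = 1 := by omega
      rw [e] at this
      exact this (one_dvd _)
    · exact h
  have hn := SEq.n0_KC ha ha' (prm_z a z) (prm_x a' x) (by omega : 0 < a + 1) ha1
    (prm_z (a + 1) (-x1)) (prm_x (a' - 1) (-z1)) k4
  rw [nL_odd hao, nL_odd hao'] at hn
  have hE : Even (a' - 1) := by
    obtain ⟨k, hk⟩ := hao'
    exact ⟨k, by omega⟩
  have hE' : Even (a + 1) := hao.add_one
  rw [nL_even_odd hE hno.neg] at hn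
  by_contra hcon
  rw [nL_even_odd hE' (Int.not_even_iff_odd.1 hcon)] at hn
  omega

/-- (8b), second half, direct moves: `b` even, `z` even, `x` odd -/
theorem step_b2 {N : ℕ} (hN : N.Prime) {b z b' x s h j : ℤ} (hs : s = 1 ∨ s = -1)
    (hh : h = s * 3 * z + j * b) (hj : IsCoprime 3 j) (h4 : 3 < h) (hb : h ≤ b) (hb' : 0 < b')
    (hsum : b + 1 + b' = N) (hx : Odd x) (hhe : Even h)
    (hok : (KC b z (-1) b' 1 (-x)).Ok) :
    ∃ z1 x1, SEq (KC b z (-1) b' 1 (-x)) (KC (b - 3) z1 (-1) (b' + 3) 1 (-x1)) := by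
  obtain ⟨z1, x1, k1, -⟩ := lstep hN (e := 3) hs (by norm_num) h4 hb hh hj hb' hsum
    (prm_x b' x) (by norm_num; exact cop_four (by
      rw [add_comm]; exact hhe.add_one))
    (by
      intro r hr k1 k2 k3
      norm_num at k3
      have := prime_dvd_four hr k3
      subst this
      have : (2 : ℤ) ∣ x := by exact_mod_cast (dvd_neg).1 k2
      exact (Int.not_even_iff_odd.2 hx) (even_iff_two_dvd.2 this)) hok
  exact ⟨z1, x1, k1⟩

theorem cop31 : IsCoprime (3 : ℤ) 1 := isCoprime_one_right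

theorem cop32 : IsCoprime (3 : ℤ) 2 := ⟨1, -1, by norm_num⟩

/-- `b = 8`, `z = 2` -/
theorem step8 {N : ℕ} (hN : N.Prime) {b' x : ℤ} (hb' : 0 < b') (hsum : 8 + 1 + b' = N)
    (hx : Odd x) (hok : (KC 8 2 (-1) b' 1 (-x)).Ok) :
    ∃ z1 x1, SEq (KC 8 2 (-1) b' 1 (-x)) (KC (8 - 3) z1 (-1) (b' + 3) 1 (-x1)) := by
  have hXY : IsCoprime (4 : ℤ) (-11) := (cop_four (by decide : Odd (11 : ℤ))).neg_right
  obtain ⟨m, hm⟩ := exists_Vm hb'.ne' hXY (prm_x b' x) (by
      intro r hr k1 k2 k3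
      have := prime_dvd_four hr k3
      subst this
      have : (2 : ℤ) ∣ x := by exact_mod_cast (dvd_neg).1 k2
      exact (Int.not_even_iff_odd.2 hx) (even_iff_two_dvd.2 this))
  have h1 := vfree (by norm_num : (0 : ℤ) < 8) (isCoprime_one_left.neg_left)
    (cop_of_prime hN (by norm_num) hb' hsum) m hok
  have hA := isArea_Lc hb' ((prm_x b' x).shV m)
  have h2 := leftMove (a := 8) (z := 2) (s := -1) (e := 1) (h := 6) (j := 1) (Or.inr rfl)
    one_pos (by norm_num) (by norm_num) (by norm_num) isCoprime_one_left h1.ok'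
  have e0 : Lc (8 - 1) (2 + 1 * -1) (-1) = lat ((2, -5) : Z2) (-1, -1) := by
    rw [show (8 : ℤ) - 1 = 7 by norm_num, show (2 : ℤ) + 1 * -1 = 1 by norm_num,
      Lcz_eq_lat (by norm_num : (0 : ℤ) < 7)]
    refine (closure_pair_eq (α := -1) (β := 2) (γ := 0) (δ := -1) ?_ ?_ (Or.inl ?_)).symm
    · ext <;> simp
    · ext <;> simp
    · norm_num
  rw [e0] at h2
  have h3 := SEq.mPlus h2.ok' (by simp [cr]) (by simp [cr]) (by simp [cr]) (by simp [cr])
  have e1 : lat ((2, -5) : Z2) ((-1, -1) + (0, 1)) = Lc 5 0 (-1) := by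
    rw [Lcz_eq_lat (by norm_num : (0 : ℤ) < 5)]
    refine closure_pair_eq (α := -1) (β := 2) (γ := 0) (δ := -1) ?_ ?_ (Or.inl ?_)
    · ext <;> simp
    · ext <;> simp
    · norm_num
  have e2 : ((1 + 1, -1 * (1 + 6)) + (0, 1) + (2, -5) : Z2) = (4, -11) := by
    ext <;> simp
  rw [e1, e2] at h3
  have hP := prm_z 5 0
  obtain ⟨g, M1, k1, k2, k3, k4, k5⟩ := toKS h3.ok' (isArea_Lc (by norm_num) hP) hA hm
  obtain ⟨p, q, k6, k7⟩ := k3.exists_Lc (hP.cont1.act g)
  have e3 : b' + (cr ((4, -11) : Z2) (0, 1) - 1) = b' + 3 := by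
    simp [cr]
  rw [e3] at k4
  obtain ⟨x1, k8⟩ := k5.exists_x k4
  rw [k7, k8] at k2
  obtain ⟨z1, k9, -⟩ := znorm (by norm_num : (0 : ℤ) < 5) (by linarith : 0 < b' + 3) k6
    (cop_of_prime hN (by linarith) (by norm_num) (by linarith)) k2.ok'
  refine ⟨z1, x1, ?_⟩
  rw [show (8 : ℤ) - 3 = 5 by norm_num]
  exact h1.trans (h2.trans (h3.trans (k2.trans k9)))

/-- (8b), second half: `b ≥ 6` even, `z` even, `x` odd: to `b - 3` -/
theorem step_b3 {N : ℕ} (hN : N.Prime) {b z b' x : ℤ} (hb : 6 ≤ b) (hb' : 0 < b')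
    (hsum : b + 1 + b' = N) (hbe : Even b) (hz : Even z) (hx : Odd x)
    (hok : (KC b z (-1) b' 1 (-x)).Ok) :
    ∃ z1 x1, SEq (KC b z (-1) b' 1 (-x)) (KC (b - 3) z1 (-1) (b' + 3) 1 (-x1)) := by
  obtain ⟨z0, h1, h2, h3, h4⟩ := zrep (by linarith) hok
  rw [h3] at hok ⊢
  have hz0 : Even z0 := by
    have h5 : Even (z - z0) := (even_iff_two_dvd).2 ((even_iff_two_dvd.1 hbe).trans h4)
    have : z0 = z - (z - z0) := by ring
    rw [this]; exact hz.sub h5
  clear h3 h4
  have hcc : IsCoprime (b' + 1) b := cop_of_prime hN hb' (by linarith) (by rw [← hsum]; ring)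
  -- the state with `z = 2`
  have key2 : ∀ (hok2 : (KC b 2 (-1) b' 1 (-x)).Ok), (b = 8 ∨ 10 ≤ b) →
      ∃ z1 x1, SEq (KC b 2 (-1) b' 1 (-x)) (KC (b - 3) z1 (-1) (b' + 3) 1 (-x1)) := by
    intro hok2 hb8
    rcases hb8 with rfl | hb10
    · exact step8 hN hb' hsum hx hok2
    · exact step_b2 hN (s := -1) (h := b - 6) (j := 1) (Or.inr rfl) (by ring) cop31 (by omega)
        (by omega) hb' hsum hx (hbe.sub (by decide)) hok2
  obtain ⟨c, hc⟩ := hbe
  obtain ⟨y, hy⟩ := hz0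
  by_cases hA : 3 * z0 + 2 = b
  · -- `z0 = (b - 2) / 3`
    have k1 := hfreeZ (z' := 2) (t := -3) (m := 2) hb' isCoprime_one_left hcc
      ⟨-2, by rw [← hA]; ring⟩ ⟨-1, by rw [← hA]; ring⟩ hok
    obtain ⟨z1, x1, k2⟩ := key2 k1.ok' (by omega)
    exact ⟨z1, x1, k1.trans k2⟩
  by_cases hB : 3 * (b - z0) + 2 = b
  · have k1 := hfreeZ (z' := 2) (t := 3) (m := -1) hb' isCoprime_one_left hcc
      ⟨-2, by linear_combination hB⟩ ⟨2, by linear_combination -hB⟩ hok
    obtain ⟨z1, x1, k2⟩ := key2 k1.ok' (by omega)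
    exact ⟨z1, x1, k1.trans k2⟩
  by_cases h5 : 3 * z0 < b
  · exact step_b2 hN (s := -1) (h := b - 3 * z0) (j := 1) (Or.inr rfl) (by ring) cop31 (by omega)
      (by omega) hb' hsum hx ⟨c - 3 * y, by omega⟩ hok
  by_cases h6 : 2 * z0 ≤ b
  · exact step_b2 hN (s := -1) (h := 2 * b - 3 * z0) (j := 2) (Or.inr rfl) (by ring) cop32
      (by omega) (by omega) hb' hsum hx ⟨2 * c - 3 * y, by omega⟩ hok
  by_cases h7 : 3 * z0 ≤ 2 * b
  · exact step_b2 hN (s := 1) (h := 3 * z0 - b) (j := -1) (Or.inl rfl) (by ring)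
      cop31.neg_right (by omega) (by omega) hb' hsum hx ⟨3 * y - c, by omega⟩ hok
  · exact step_b2 hN (s := 1) (h := 3 * z0 - 2 * b) (j := -2) (Or.inl rfl) (by ring)
      cop32.neg_right (by omega) (by omega) hb' hsum hx ⟨3 * y - 2 * c, by omega⟩ hok

/-- (8b): `a ≥ 5` odd: to `a - 2` -/
theorem step_b {N : ℕ} (hN : N.Prime) {a z a' x : ℤ} (ha : 5 ≤ a) (ha' : 0 < a')
    (hsum : a + 1 + a' = N) (hao : Odd a) (hao' : Odd a')
    (hok : (KC a z (-1) a' 1 (-x)).Ok) :
    ∃ z1 x1, SEq (KC a z (-1) a' 1 (-x)) (KC (a - 2) z1 (-1) (a' + 2) 1 (-x1)) := by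
  obtain ⟨z1, x1, k1, k2, k3⟩ := step_b1 hN (by linarith) ha' hsum hao hao' hok
  have ha1 : 0 < a' - 1 := by
    rcases lt_trichotomy (a' - 1) 0 with h | h | h
    · omega
    · exfalso
      have := (KC.ok_iff hok).2
      have e : a' = 1 := by omega
      rw [e] at this
      exact this (one_dvd _)
    · exact h
  obtain ⟨z2, x2, k4⟩ := step_b3 hN (by linarith) ha1 (by linarith) hao.add_one k2 k3 k1.ok'
  refine ⟨z2, x2, ?_⟩
  have := k1.trans k4
  rwa [show a + 1 - 3 = a - 2 by ring, show a' - 1 + 3 = a' + 2 by ring] at this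

/-- descent for odd `a` -/
theorem odd_to_three {N : ℕ} (hN : N.Prime) (hodd : Odd N) (n : ℕ) : ∀ {a z a' x : ℤ},
    a = 2 * n + 3 → 0 < a' → a + 1 + a' = N → (KC a z (-1) a' 1 (-x)).Ok →
    ∃ z1 x1, SEq (KC a z (-1) a' 1 (-x)) (KC 3 z1 (-1) ((N : ℤ) - 4) 1 (-x1)) := by
  induction n with
  | zero =>
    intro a z a' x h1 h2 h3 hok
    have e1 : a = 3 := by simpa using h1
    have e2 : a' = (N : ℤ) - 4 := by linarith
    subst e1 e2
    exact ⟨z, x, hok.seq⟩
  | succ n ih =>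
    intro a z a' x h1 h2 h3 hok
    push_cast at h1
    have hao : Odd a := ⟨n + 2, by rw [h1]; ring⟩
    have hao' : Odd a' := by
      obtain ⟨k, hk⟩ := hodd
      exact ⟨k - n - 3, by rw [hk] at h3; push_cast at h3; linarith⟩
    obtain ⟨z1, x1, k1⟩ := step_b hN (by linarith) h2 h3 hao hao' hok
    obtain ⟨z2, x2, k2⟩ := ih (by linarith) (by linarith) (by linarith) k1.ok'
    exact ⟨z2, x2, k1.trans k2⟩

/-- (8a)+(8b), the whole descent: for `N = a + 1 + a'` an odd prime every Z-state with `n0 = 2` is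
equivalent to a Z-state with `a = 3` -/
theorem to_three {N : ℕ} (hN : N.Prime) (h11 : 11 ≤ N) {a z a' x : ℤ} (ha : 0 < a) (ha' : 0 < a')
    (hsum : a + 1 + a' = N) (hn : nL a z + nL a' (-x) = 2) (hok : (KC a z (-1) a' 1 (-x)).Ok) :
    ∃ z1 x1, SEq (KC a z (-1) a' 1 (-x)) (KC 3 z1 (-1) ((N : ℤ) - 4) 1 (-x1)) := by
  have hodd : Odd N := hN.odd_of_ne_two (by omega)
  have hone := KC.ok_iff hok
  have ha2 : a ≠ 1 := by rintro rfl; exact hone.1 (one_dvd _)
  have ha2' : a' ≠ 1 := by rintro rfl; exact hone.2 (one_dvd _)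
  obtain ⟨k, hk⟩ := hodd
  have hkz : (N : ℤ) = 2 * k + 1 := by exact_mod_cast hk
  rcases Int.even_or_odd a with hae | hao
  · have hae' : Even a' := by
      obtain ⟨c, hc⟩ := hae
      exact ⟨k - c, by omega⟩
    rcases Int.even_or_odd z with hz | hz
    · -- `z` even, `x` odd
      have hx : Odd x := by
        by_contra hcon
        rw [nL_even_even hae hz, nL_even_even hae' (Int.not_odd_iff_even.1 hcon).neg] at hn
        omega
      by_cases h4 : 4 ≤ a
      · obtain ⟨z1, x1, k1⟩ := step_a hN ha ha' hsum hae hz hx hok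
        obtain ⟨c, hc⟩ := hae
        obtain ⟨z2, x2, k2⟩ := odd_to_three hN ⟨k, hk⟩ (c - 2).toNat (a := a - 1) (by omega)
          (by linarith) (by linarith) k1.ok'
        exact ⟨z2, x2, k1.trans k2⟩
      · -- `a = 2`: then `2 ∣ z`
        exfalso
        obtain ⟨c, hc⟩ := hae
        have e : a = 2 := by omega
        apply hone.1
        rw [e]
        exact even_iff_two_dvd.1 hz
    · -- `z` odd, `x` even
      have hx : Even x := by
        by_contra hcon
        rw [nL_even_odd hae hz, nL_even_odd hae' (Int.not_even_iff_odd.1 hcon).neg] at hn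
        omega
      have h0 := mirrorZ hok
      obtain ⟨z1, x1, k1⟩ := step_a hN ha' ha (by rw [← hsum]; ring) hae' hx.neg hz.neg h0.ok'
      have k2 := mirrorZ k1.ok'
      have k3 := h0.trans (k1.trans k2)
      obtain ⟨c, hc⟩ := hae
      obtain ⟨c', hc'⟩ := hae'
      obtain ⟨z2, x2, k4⟩ := odd_to_three hN ⟨k, hk⟩ (c - 1).toNat (a := a + 1) (a' := a' - 1)
        (by omega) (by omega) (by linarith) k3.ok'
      exact ⟨z2, x2, k3.trans k4⟩
  · obtain ⟨c, hc⟩ := hao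
    exact odd_to_three hN ⟨k, hk⟩ (c - 1).toNat (by omega) ha' hsum hok

end Pool.Agent.H4G.K2
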