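import Pool.Agent.H4G.Arith.KFr
import Pool.Agent.H4G.Arith.HMob

/-!
# H-mobility for the frame with general `K` (helper23, helper40; Lean: helper64)

The gap of an allowed H-twist, F-T and F-D for `K = 2`, `K = 3`, `e < 3 A`.
-/

set_option autoImplicit false

namespace Pool.Agent.H4G

variable {K : ℤ} {S : PSt} {a' b c A a e f Y φ : ℤ} {l p l' p' : Z2}

theorem KF.hX (h : KF K S a' b c A a e f Y φ l p l' p') (z : Z2) :
    K * cr (S.u + l') z = (K + Y) * cr S.u z := by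
  have h5 := congrArg (fun x => cr x z) h.hl'
  simp only [cr_smul_left] at h5
  rw [cr_add_left, mul_add, h5]; ring

theorem KF.hXl (h : KF K S a' b c A a e f Y φ l p l' p') :
    K * cr (S.u + l') l = (K + Y) * e := by rw [h.hX, h.he]

theorem KF.hZp (h : KF K S a' b c A a e f Y φ l p l' p') :
    K * cr (S.u + l') p = (K + Y) * f := by rw [h.hX, h.hf]

theorem KF.Cl (h : KF K S a' b c A a e f Y φ l p l' p') : Con1 (lat l' p') := by
  rw [← h.L'_eq]; exact h.ext.con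

/-- the content of an H-twisted lattice: only the prime `r` has to be checked -/
theorem KF.con_of (h : KF K S a' b c A a e f Y φ l p l' p') {r : ℕ} {i : ℤ}
    (h1 : ∀ q : ℕ, q.Prime → q ≠ r → (q : ℤ) ∣ a' → (q : ℤ) ∣ i)
    (h2 : Alw l' p' S.u r i) : Con1 (lat l' (p' + i • S.u)) := by
  refine con1_of_alw h.ad.h4 h.lp' fun q hq hqa => ?_
  by_cases hqr : q = r
  · rw [hqr]; exact h2
  · refine Alw.per (k := 0) ?_ (Alw.zero h.Cl hq)
    rw [sub_zero]; exact h1 q hq hqr hqa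

/-- an H-twist with a prescribed `r`-part of the gap -/
theorem KF.up (h : KF K S a' b c A a e f Y φ l p l' p') {r : ℕ} (hr : r.Prime) {α : ℕ} {b2 : ℤ}
    (hb : b = (r : ℤ) ^ α * b2) (hb2 : ¬ (r : ℤ) ∣ b2) {i0 : ℤ} {n : ℕ}
    (h1 : (r : ℤ) ^ n ∣ i0 * cr (S.u + l') l) (h2 : (r : ℤ) ^ n ∣ b - i0 * cr (S.u + l') p)
    (h3 : ¬ ((r : ℤ) ^ (n + 1) ∣ i0 * cr (S.u + l') l ∧
      (r : ℤ) ^ (n + 1) ∣ b - i0 * cr (S.u + l') p)) :
    ∃ i : ℤ, (r : ℤ) ^ (n + 1) ∣ i - i0 ∧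
      (∀ q : ℕ, q.Prime → q ≠ r → (q : ℤ) ∣ a' → (q : ℤ) ∣ i) ∧
      IsC S.L (S.v + i • (S.u + l')) ((r : ℤ) ^ n * b2) := by
  have hri := Nat.prime_iff_prime_int.1 hr
  have hb0 := h.b0
  have hK0 := h.K0
  have hX0 : cr (S.u + l') l ≠ 0 := by
    intro h0
    have h9 := h.hXl
    rw [h0, mul_zero] at h9
    have h10 : 0 < (K + Y) * e := mul_pos (by have := h.Y0; linarith) h.e0
    linarith
  have hr0 : (r : ℤ) ≠ 0 := by exact_mod_cast hr.ne_zero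
  obtain ⟨i, n1, n2, k', n3⟩ := crt_twist (B1 := cr (S.u + l') l) (B2 := cr (S.u + l') p) hb0
    hX0 (h.a'0.ne') hr i0 (n + 1) hb hb2
  refine ⟨i, n1, n2, ?_⟩
  have h4 := h.ad.gapH h.hb i
  rw [n3] at h4
  have n1' : (r : ℤ) ^ n ∣ i - i0 := (pow_dvd_pow _ (by omega)).trans n1
  have e1 : i * cr (S.u + l') l = i0 * cr (S.u + l') l + (i - i0) * cr (S.u + l') l := by ring
  have e2 : b - i * cr (S.u + l') p =
      (b - i0 * cr (S.u + l') p) - (i - i0) * cr (S.u + l') p := by ring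
  have hk : k' = n := by
    apply le_antisymm
    · by_contra h9
      push Not at h9
      have h10 : (r : ℤ) ^ (n + 1) ∣
          (Int.gcd (i * cr (S.u + l') l) (b - i * cr (S.u + l') p) : ℤ) := by
        rw [n3]; exact (pow_dvd_pow _ h9).mul_right _
      apply h3
      constructor
      · have h11 := h10.trans (Int.gcd_dvd_left _ _)
        rw [e1] at h11
        exact (dvd_add_left (n1.mul_right _)).1 h11
      · have h11 := h10.trans (Int.gcd_dvd_right _ _)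
        rw [e2] at h11
        exact (dvd_sub_left (n1.mul_right _)).1 h11
    · by_contra h9
      push Not at h9
      have h10 : (r : ℤ) ^ n ∣
          (Int.gcd (i * cr (S.u + l') l) (b - i * cr (S.u + l') p) : ℤ) := by
        refine Int.dvd_coe_gcd ?_ ?_
        · rw [e1]; exact dvd_add h1 (n1'.mul_right _)
        · rw [e2]; exact dvd_sub h2 (n1'.mul_right _)
      rw [n3] at h10
      have h11 : (r : ℤ) ^ n ∣ (r : ℤ) ^ k' :=
        (((isCoprime_of_not_dvd hr hb2).pow_left).dvd_of_dvd_mul_right h10)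
      rw [pow_dvd_pow_iff hr0 hri.not_isUnit] at h11
      omega
  rw [hk] at h4
  exact h4

/-- **HM**: the gap of an allowed H-twist -/
theorem KF.hm (h : KF K S a' b c A a e f Y φ l p l' p') (he3 : e < 3 * A) {i g : ℤ} (hg : 2 ≤ g)
    (hcon : Con1 (lat l' (p' + i • S.u))) (hgap : IsC S.L (S.v + i • (S.u + l')) (b * g)) :
    ∃ e2 cs M m : ℤ, e = g * e2 ∧ 0 < e2 ∧ 0 < cs ∧ A ≤ cs ∧ cs ∣ c ∧ A + e = M * cs ∧
      A + e2 = m * cs ∧ 1 ≤ m ∧ m < M ∧ M ≤ 3 ∧ K ∣ M := by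
  obtain ⟨cs, e2, k1, k2, k3, k4, k5, k6⟩ := h.ext.hmob h.ad (by linarith) hcon hgap
  rw [h.he] at k1
  rw [h.hA] at k4 k6
  obtain ⟨M, m, m1, m2, m3, m4, m5, m6⟩ := hm_num h.A0 k2 k1 hg h.hc k3 k4 k5 k6 he3
  exact ⟨e2, cs, M, m, k1, k2, k3, k4, k5, m1, m2, m3, m4, m5, m6⟩

/-- HM for `K = 2` -/
theorem KF.hm2 (h : KF 2 S a' b c A a e f Y φ l p l' p') (he3 : e < 3 * A) {i g : ℤ}
    (hg : 2 ≤ g) (hcon : Con1 (lat l' (p' + i • S.u)))
    (hgap : IsC S.L (S.v + i • (S.u + l')) (b * g)) : e * (g - 2) = g * A := by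
  obtain ⟨e2, cs, M, m, k1, k2, k3, k4, k5, k6, k7, k8, k9, k10, k11⟩ := h.hm he3 hg hcon hgap
  rcases hm_cases k1 k6 k7 k8 k9 k10 with ⟨-, h1⟩ | ⟨h1, -⟩ | ⟨h1, -⟩
  · exact h1
  · rw [h1] at k11; norm_num at k11
  · rw [h1] at k11; norm_num at k11

/-- HM for `K = 3` -/
theorem KF.hm3 (h : KF 3 S a' b c A a e f Y φ l p l' p') (he3 : e < 3 * A) (hAc : A < c) {i g : ℤ}
    (hg : 2 ≤ g) (hcon : Con1 (lat l' (p' + i • S.u)))
    (hgap : IsC S.L (S.v + i • (S.u + l')) (b * g)) : e * (g - 3) = 2 * (g * A) := by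
  obtain ⟨e2, cs, M, m, k1, k2, k3, k4, k5, k6, k7, k8, k9, k10, k11⟩ := h.hm he3 hg hcon hgap
  rcases hm_cases k1 k6 k7 k8 k9 k10 with ⟨h1, -⟩ | ⟨-, -, h1⟩ | ⟨-, -, h1⟩
  · rw [h1] at k11; norm_num at k11
  · exact h1
  · exfalso
    have h2 := h.hc
    have hA0 := h.A0
    have h3 : 2 * A < e := by linarith
    have h4 : 2 * A * (2 * g - 3) < e * (2 * g - 3) :=
      mul_lt_mul_of_pos_right h3 (by linarith)
    nlinarith

/-- F-T, the twists: if `r ∤ f` then the gaps `b r` (or `b r`, `b r ^ 2` if `r ^ 2 ∣ e`) occur -/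
theorem KF.ft_tw (h : KF K S a' b c A a e f Y φ l p l' p') {r : ℕ} (hr : r.Prime)
    (he : (r : ℤ) ∣ e) (hA : ¬ (r : ℤ) ∣ A) (hY : (r : ℤ) ∣ Y) (hf : ¬ (r : ℤ) ∣ f) {n : ℕ}
    (hn : 0 < n) (hne : (r : ℤ) ^ n ∣ e) :
    ∃ i : ℤ, Con1 (lat l' (p' + i • S.u)) ∧
      IsC S.L (S.v + i • (S.u + l')) (b * (r : ℤ) ^ n) := by
  have hri := Nat.prime_iff_prime_int.1 hr
  have hr0 : (r : ℤ) ≠ 0 := by exact_mod_cast hr.ne_zero
  have hKc : ¬ (r : ℤ) ∣ K * c := by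
    rw [h.hc]
    intro h9
    exact hA ((dvd_add_left he).1 h9)
  have hK : ¬ (r : ℤ) ∣ K := fun h9 => hKc (h9.mul_right _)
  have hrc : ¬ (r : ℤ) ∣ c := fun h9 => hKc (h9.mul_left _)
  have hKY : ¬ (r : ℤ) ∣ K + Y := fun h9 => hK ((dvd_add_left hY).1 h9)
  have hZ : ¬ (r : ℤ) ∣ cr (S.u + l') p := by
    intro h9
    have h10 : (r : ℤ) ∣ (K + Y) * f := by rw [← h.hZp]; exact h9.mul_left _
    exact (hri.dvd_or_dvd h10).elim hKY hf
  have hX : ∀ k : ℕ, (r : ℤ) ^ k ∣ cr (S.u + l') l ↔ (r : ℤ) ^ k ∣ e := by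
    intro k
    constructor
    · intro h9
      have h10 : (r : ℤ) ^ k ∣ (K + Y) * e := by rw [← h.hXl]; exact h9.mul_left _
      exact ((isCoprime_of_not_dvd hr hKY).pow_left).dvd_of_dvd_mul_left h10
    · intro h9
      have h10 : (r : ℤ) ^ k ∣ K * cr (S.u + l') l := by rw [h.hXl]; exact h9.mul_left _
      exact ((isCoprime_of_not_dvd hr hK).pow_left).dvd_of_dvd_mul_left h10
  have hb : ¬ (r : ℤ) ∣ b := by
    intro h9
    have h10 := (h.hrig hr (h.alw_odd hr (Or.inr hrc)) (k := 1) (by rw [pow_one]; exact h9)).2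
    rw [pow_one] at h10
    exact (hri.dvd_or_dvd ((dvd_mul_left _ _).trans h10)).elim hKY hf
  -- the class
  obtain ⟨i0, hi1, hi2, hi3⟩ : ∃ i0 : ℤ, (r : ℤ) ^ n ∣ i0 * cr (S.u + l') l ∧
      (r : ℤ) ^ n ∣ b - i0 * cr (S.u + l') p ∧
      ¬ ((r : ℤ) ^ (n + 1) ∣ i0 * cr (S.u + l') l ∧
        (r : ℤ) ^ (n + 1) ∣ b - i0 * cr (S.u + l') p) := by
    by_cases h9 : (r : ℤ) ^ (n + 1) ∣ e
    · obtain ⟨i0, hi0⟩ := exists_classP hr hZ (b - (r : ℤ) ^ n) (n + 1)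
      refine ⟨i0, ((hX n).2 hne).mul_left _, ?_, fun h10 => ?_⟩
      · have h11 := (pow_dvd_pow (r : ℤ) (by omega : n ≤ n + 1)).trans hi0
        have e1 : b - i0 * cr (S.u + l') p =
            (r : ℤ) ^ n - (cr (S.u + l') p * i0 - (b - (r : ℤ) ^ n)) := by ring
        rw [e1]; exact dvd_sub (dvd_refl _) h11
      · have h11 := dvd_add h10.2 hi0
        have e1 : b - i0 * cr (S.u + l') p + (cr (S.u + l') p * i0 - (b - (r : ℤ) ^ n)) =
            (r : ℤ) ^ n := by ring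
        rw [e1, pow_dvd_pow_iff hr0 hri.not_isUnit] at h11
        omega
    · obtain ⟨i0, hi0⟩ := exists_classP hr hZ b (n + 1)
      refine ⟨i0, ((hX n).2 hne).mul_left _, ?_, fun h10 => ?_⟩
      · have h11 := (pow_dvd_pow (r : ℤ) (by omega : n ≤ n + 1)).trans hi0
        have e1 : b - i0 * cr (S.u + l') p = -(cr (S.u + l') p * i0 - b) := by ring
        rw [e1]; exact (dvd_neg).2 h11
      · have h11 : ¬ (r : ℤ) ∣ i0 := by
          intro h12
          apply hb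
          have h13 := (dvd_pow_self (r : ℤ) (by omega : n + 1 ≠ 0)).trans hi0
          have e1 : b = cr (S.u + l') p * i0 - (cr (S.u + l') p * i0 - b) := by ring
          rw [e1]; exact dvd_sub (h12.mul_left _) h13
        have h12 := ((isCoprime_of_not_dvd hr h11).pow_left (m := n + 1)).dvd_of_dvd_mul_left h10.1
        exact h9 ((hX _).1 h12)
  obtain ⟨i, y1, y2, y3⟩ := h.up hr (α := 0) (b2 := b) (by simp) hb hi1 hi2 hi3
  refine ⟨i, h.con_of y2 (Alw.of_not_dvd (by rw [h.up']; exact hrc) i), ?_⟩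
  rw [mul_comm]; exact y3

/-- **F-T**, `K = 2` -/
theorem KF.ft2 (h : KF 2 S a' b c A a e f Y φ l p l' p') (he3 : e < 3 * A) {r : ℕ}
    (hr : r.Prime) (he : (r : ℤ) ∣ e) (hA : ¬ (r : ℤ) ∣ A) (hY : (r : ℤ) ∣ Y) :
    (r : ℤ) ∣ f ∨ (¬ (r : ℤ) ^ 2 ∣ e ∧ e * (r - 2) = r * A) := by
  by_cases hf : (r : ℤ) ∣ f
  · exact Or.inl hf
  right
  have hr2 : (2 : ℤ) ≤ r := by exact_mod_cast hr.two_le
  obtain ⟨i, k1, k2⟩ := h.ft_tw hr he hA hY hf (n := 1) one_pos (by rw [pow_one]; exact he)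
  rw [pow_one] at k2
  have h1 := h.hm2 he3 hr2 k1 k2
  refine ⟨fun h9 => ?_, h1⟩
  obtain ⟨i', k3, k4⟩ := h.ft_tw hr he hA hY hf (n := 2) two_pos h9
  have h2 := h.hm2 he3 (g := (r : ℤ) ^ 2) (by nlinarith) k3 k4
  have he0 := h.e0
  have h3 : e * (2 * r - 2) = 0 := by linear_combination h2 - r * h1
  have h4 : 0 < e * (2 * r - 2) := mul_pos he0 (by linarith)
  linarith

/-- **F-T**, `K = 3` -/
theorem KF.ft3 (h : KF 3 S a' b c A a e f Y φ l p l' p') (he3 : e < 3 * A) (hAc : A < c) {r : ℕ}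
    (hr : r.Prime) (he : (r : ℤ) ∣ e) (hA : ¬ (r : ℤ) ∣ A) (hY : (r : ℤ) ∣ Y) :
    (r : ℤ) ∣ f ∨ (¬ (r : ℤ) ^ 2 ∣ e ∧ e * (r - 3) = 2 * (r * A)) := by
  by_cases hf : (r : ℤ) ∣ f
  · exact Or.inl hf
  right
  have hr2 : (2 : ℤ) ≤ r := by exact_mod_cast hr.two_le
  obtain ⟨i, k1, k2⟩ := h.ft_tw hr he hA hY hf (n := 1) one_pos (by rw [pow_one]; exact he)
  rw [pow_one] at k2
  have h1 := h.hm3 he3 hAc hr2 k1 k2
  refine ⟨fun h9 => ?_, h1⟩
  obtain ⟨i', k3, k4⟩ := h.ft_tw hr he hA hY hf (n := 2) two_pos h9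
  have h2 := h.hm3 he3 hAc (g := (r : ℤ) ^ 2) (by nlinarith) k3 k4
  have he0 := h.e0
  have h3 : e * (3 * r - 3) = 0 := by linear_combination h2 - r * h1
  have h4 : 0 < e * (3 * r - 3) := mul_pos he0 (by linarith)
  linarith

/-! ## F-D -/

/-- the gap `b r ^ δ` with the full power of `r` in `e` is impossible if `r ∣ A` -/
theorem KF.no_full (h : KF K S a' b c A a e f Y φ l p l' p') (hK : K = 2 ∨ K = 3)
    (he3 : e < 3 * A) {r : ℕ} (hr : r.Prime) (hrK : ¬ (r : ℤ) ∣ K) (hA : (r : ℤ) ∣ A) {δ : ℕ}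
    (hδ : 0 < δ) {e2 : ℤ} (he : e = (r : ℤ) ^ δ * e2) (he2 : ¬ (r : ℤ) ∣ e2) {i : ℤ}
    (hcon : Con1 (lat l' (p' + i • S.u)))
    (hgap : IsC S.L (S.v + i • (S.u + l')) (b * (r : ℤ) ^ δ)) : False := by
  have hri := Nat.prime_iff_prime_int.1 hr
  have hr0 : (r : ℤ) ≠ 0 := by exact_mod_cast hr.ne_zero
  have hr2 : (2 : ℤ) ≤ r := by exact_mod_cast hr.two_le
  have hg : (2 : ℤ) ≤ (r : ℤ) ^ δ := by
    calc (2 : ℤ) ≤ (r : ℤ) ^ 1 := by rw [pow_one]; exact hr2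
      _ ≤ (r : ℤ) ^ δ := pow_le_pow_right₀ (by linarith) hδ
  obtain ⟨e2', cs, M, m, k1, k2, k3, k4, k5, k6, k7, k8, k9, k10, k11⟩ := h.hm he3 hg hcon hgap
  have h1 : e2' = e2 := by
    rw [he] at k1
    exact (mul_left_cancel₀ (pow_ne_zero _ hr0) k1).symm
  subst h1
  have hrcs : ¬ (r : ℤ) ∣ cs := by
    intro h9
    apply he2
    have h10 : (r : ℤ) ∣ A + e2' := by rw [k7]; exact h9.mul_left _
    exact (dvd_add_right hA).1 h10
  have hrM : (r : ℤ) ∣ M := by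
    have h9 : (r : ℤ) ∣ M * cs := by
      rw [← k6]
      refine dvd_add hA ?_
      rw [he]
      exact (dvd_pow_self _ hδ.ne').mul_right _
    exact (hri.dvd_or_dvd h9).resolve_right hrcs
  rcases hK with rfl | rfl
  · have : M = 2 := by omega
    rw [this] at hrM
    exact hrK hrM
  · have : M = 3 := by omega
    rw [this] at hrM
    exact hrK hrM

/-- F-D when the class `K b / f` is allowed -/
theorem KF.fd_core (h : KF K S a' b c A a e f Y φ l p l' p') (hK : K = 2 ∨ K = 3)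
    (he3 : e < 3 * A) {r : ℕ} (hr : r.Prime) (hrK : ¬ (r : ℤ) ∣ K) (hA : (r : ℤ) ∣ A)
    (hc : (r : ℤ) ∣ c) (hf : ¬ (r : ℤ) ∣ f)
    (hu : ∃ i : ℤ, ¬ (r : ℤ) ∣ i ∧ Alw l' p' S.u r i)
    (hal : ∀ (i z2 b2 : ℤ) (α : ℕ), K + Y = (r : ℤ) ^ α * z2 → b = (r : ℤ) ^ α * b2 →
      ¬ (r : ℤ) ∣ z2 → ¬ (r : ℤ) ∣ b2 → (r : ℤ) ∣ z2 * f * i - K * b2 → Alw l' p' S.u r i)
    {k : ℕ} (hk : (r : ℤ) ^ k ∣ b) : (r : ℤ) ^ (k + 1) ∣ K + Y := by
  have hri := Nat.prime_iff_prime_int.1 hr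
  have hr0 : (r : ℤ) ≠ 0 := by exact_mod_cast hr.ne_zero
  have he : (r : ℤ) ∣ e := by
    have h1 : (r : ℤ) ∣ A + e := by rw [← h.hc]; exact hc.mul_left _
    exact (dvd_add_right hA).1 h1
  obtain ⟨α, b2, x1, x2⟩ := exists_pow_mul hr h.b0.ne'
  have hkα : k ≤ α := by
    have h1 : (r : ℤ) ^ k ∣ (r : ℤ) ^ α := by
      rw [x1] at hk
      exact ((isCoprime_of_not_dvd hr x2).pow_left).dvd_of_dvd_mul_right hk
    rwa [pow_dvd_pow_iff hr0 hri.not_isUnit] at h1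
  refine (pow_dvd_pow _ (by omega)).trans (?_ : (r : ℤ) ^ (α + 1) ∣ K + Y)
  have h1 := (h.hrig hr hu (k := α) (by rw [x1]; exact dvd_mul_right _ _)).2
  have h2 : (r : ℤ) ^ α ∣ K + Y :=
    ((isCoprime_of_not_dvd hr hf).pow_left).dvd_of_dvd_mul_right ((dvd_mul_left _ _).trans h1)
  obtain ⟨z2, hz2⟩ := h2
  by_contra hn
  have hz2' : ¬ (r : ℤ) ∣ z2 := by
    intro h9
    apply hn
    rw [hz2, pow_succ]
    exact mul_dvd_mul_left _ h9
  obtain ⟨δ, e2, w1, w2⟩ := exists_pow_mul hr h.e0.ne'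
  have hδ : 0 < δ := by
    rcases Nat.eq_zero_or_pos δ with h9 | h9
    · exfalso
      rw [h9, pow_zero, one_mul] at w1
      exact w2 (by rw [← w1]; exact he)
    · exact h9
  obtain ⟨X2, hX2⟩ : (r : ℤ) ^ (α + δ) ∣ cr (S.u + l') l := by
    have h9 : (r : ℤ) ^ (α + δ) ∣ K * cr (S.u + l') l := by
      rw [h.hXl, hz2, w1, pow_add]
      exact ⟨z2 * e2, by ring⟩
    exact ((isCoprime_of_not_dvd hr hrK).pow_left).dvd_of_dvd_mul_left h9
  have hKX2 : K * X2 = z2 * e2 := by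
    refine mul_left_cancel₀ (pow_ne_zero (α + δ) hr0) ?_
    have h9 := h.hXl
    rw [hX2, hz2, w1] at h9
    rw [pow_add] at h9 ⊢
    linear_combination h9
  have hrX2 : ¬ (r : ℤ) ∣ X2 := by
    intro h9
    have h10 : (r : ℤ) ∣ z2 * e2 := by rw [← hKX2]; exact h9.mul_left _
    exact (hri.dvd_or_dvd h10).elim hz2' w2
  obtain ⟨Z2, hZ2⟩ : (r : ℤ) ^ α ∣ cr (S.u + l') p := by
    have h9 : (r : ℤ) ^ α ∣ K * cr (S.u + l') p := by
      rw [h.hZp, hz2]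
      exact ⟨z2 * f, by ring⟩
    exact ((isCoprime_of_not_dvd hr hrK).pow_left).dvd_of_dvd_mul_left h9
  have hKZ2 : K * Z2 = z2 * f := by
    refine mul_left_cancel₀ (pow_ne_zero α hr0) ?_
    have h9 := h.hZp
    rw [hZ2, hz2] at h9
    linear_combination h9
  have hrZ2 : ¬ (r : ℤ) ∣ Z2 := by
    intro h9
    have h10 : (r : ℤ) ∣ z2 * f := by rw [← hKZ2]; exact h9.mul_left _
    exact (hri.dvd_or_dvd h10).elim hz2' hf
  obtain ⟨i0, hi0⟩ := exists_classP hr hrZ2 b2 (δ + 1)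
  have hri0 : ¬ (r : ℤ) ∣ i0 := by
    intro h9
    apply x2
    have h10 := (dvd_pow_self (r : ℤ) (by omega : δ + 1 ≠ 0)).trans hi0
    have e1 : b2 = Z2 * i0 - (Z2 * i0 - b2) := by ring
    rw [e1]; exact dvd_sub (h9.mul_left _) h10
  have hbZ : (r : ℤ) ^ (α + δ + 1) ∣ b - i0 * cr (S.u + l') p := by
    have e1 : b - i0 * cr (S.u + l') p = (r : ℤ) ^ α * -(Z2 * i0 - b2) := by
      rw [hZ2, x1]; ring
    rw [e1, add_assoc, pow_add]
    exact mul_dvd_mul_left _ ((dvd_neg).2 hi0)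
  obtain ⟨i, y1, y2, y3⟩ := h.up hr x1 x2 (i0 := i0) (n := α + δ)
    (by rw [hX2]; exact (dvd_mul_right _ _).mul_left _)
    ((pow_dvd_pow _ (by omega)).trans hbZ) (fun h9 => by
      have h10 := h9.1
      rw [hX2] at h10
      have e1 : i0 * ((r : ℤ) ^ (α + δ) * X2) = (r : ℤ) ^ (α + δ) * (i0 * X2) := by ring
      rw [e1, pow_succ] at h10
      have h11 := (mul_dvd_mul_iff_left (pow_ne_zero _ hr0)).1 h10
      exact (hri.dvd_or_dvd h11).elim hri0 hrX2)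
  have hcls : (r : ℤ) ∣ z2 * f * i - K * b2 := by
    have h9 : (r : ℤ) ∣ i - i0 := (dvd_pow_self _ (by omega)).trans y1
    have h10 := (dvd_pow_self (r : ℤ) (by omega : δ + 1 ≠ 0)).trans hi0
    have e1 : z2 * f * i - K * b2 = K * (Z2 * i0 - b2) + K * Z2 * (i - i0) := by
      rw [← hKZ2]; ring
    rw [e1]
    exact dvd_add (h10.mul_left _) (h9.mul_left _)
  refine h.no_full hK he3 hr hrK hA hδ w1 w2 (h.con_of y2 (hal i z2 b2 α hz2 x1 hz2' x2 hcls)) ?_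
  have e1 : b * (r : ℤ) ^ δ = (r : ℤ) ^ (α + δ) * b2 := by rw [x1, pow_add]; ring
  rw [e1]; exact y3

/-- all classes are allowed at `r` if `r ∤ Y`, `r ∤ f` -/
theorem KF.alw_all (h : KF K S a' b c A a e f Y φ l p l' p') {r : ℕ} (hr : r.Prime)
    (hf : ¬ (r : ℤ) ∣ f) (hY : ¬ (r : ℤ) ∣ Y) (i : ℤ) : Alw l' p' S.u r i := by
  rintro ⟨h1, -⟩
  have h2 : Dz r (Y • S.u) := by rw [← h.hl']; exact h1.smul K
  rcases h2.mul_prime hr with h3 | h3
  · exact hY h3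
  · apply hf
    rw [← h.hf]
    exact h3.cr_left p

/-- F-D, `r ∤ Y`, `r ∤ f` -/
theorem KF.fd1 (h : KF K S a' b c A a e f Y φ l p l' p') (hK : K = 2 ∨ K = 3)
    (he3 : e < 3 * A) {r : ℕ} (hr : r.Prime) (hrK : ¬ (r : ℤ) ∣ K) (hA : (r : ℤ) ∣ A)
    (hc : (r : ℤ) ∣ c) (hf : ¬ (r : ℤ) ∣ f) (hY : ¬ (r : ℤ) ∣ Y) {k : ℕ}
    (hk : (r : ℤ) ^ k ∣ b) : (r : ℤ) ^ (k + 1) ∣ K + Y :=
  h.fd_core hK he3 hr hrK hA hc hf ⟨1, prime_not_dvd_one hr, h.alw_all hr hf hY 1⟩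
    (fun i _ _ _ _ _ _ _ _ => h.alw_all hr hf hY i) hk

/-- F-D, `r ∣ Y`, `r ∤ f`, `r` odd: the class must be forbidden -/
theorem KF.fdy (h : KF K S a' b c A a e f Y φ l p l' p') (hK : K = 2 ∨ K = 3)
    (he3 : e < 3 * A) {r : ℕ} (hr : r.Prime) (hr2 : r ≠ 2) (hrK : ¬ (r : ℤ) ∣ K)
    (hA : (r : ℤ) ∣ A) (hc : (r : ℤ) ∣ c) (hf : ¬ (r : ℤ) ∣ f) (hY : (r : ℤ) ∣ Y) :
    (r : ℤ) ∣ a + b - φ * f - K * b := by
  have hri := Nat.prime_iff_prime_int.1 hr
  have hKY : ¬ (r : ℤ) ∣ K + Y := fun h9 => hrK ((dvd_add_left hY).1 h9)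
  by_contra hn
  have h1 := h.fd_core hK he3 hr hrK hA hc hf (h.alw_odd hr (Or.inl hr2)) (k := 0)
    (fun i z2 b2 α w1 w2 w3 w4 w5 => by
      have hα : α = 0 := by
        by_contra h9
        exact hKY (by rw [w1]; exact (dvd_pow_self _ h9).mul_right _)
      rw [hα, pow_zero, one_mul] at w1 w2
      rintro ⟨-, h2⟩
      apply hn
      have h3 : Dz r ((φ + K * i) • S.u + (S.v + l)) := by
        have e1 : (φ + K * i) • S.u + (S.v + l) = K • (p' + i • S.u) := by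
          have := h.hp'
          rw [smul_add, this]; module
        rw [e1]; exact h2.smul K
      have h4 := h3.cr_right p
      have e1 : cr p ((φ + K * i) • S.u + (S.v + l)) = a + b - φ * f - K * (f * i) := by
        rw [cr_add_right, cr_smul_right, h.pw, cr_swap p S.u, h.hf]; ring
      rw [e1] at h4
      have h5 : (r : ℤ) ∣ f * i - b := by
        have h6 : (r : ℤ) ∣ K * (f * i - b) := by
          have e2 : K * (f * i - b) = (z2 * f * i - K * b2) - Y * (f * i) := by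
            rw [← w1, ← w2]; ring
          rw [e2]; exact dvd_sub w5 (hY.mul_right _)
        exact (hri.dvd_or_dvd h6).resolve_left hrK
      have e3 : a + b - φ * f - K * b = (a + b - φ * f - K * (f * i)) + K * (f * i - b) := by ring
      rw [e3]; exact dvd_add h4 (h5.mul_left _)) (by rw [pow_zero]; exact one_dvd _)
  rw [zero_add, pow_one] at h1
  exact hKY h1

/-- the products with all vectors, from the products with the generators -/
theorem KF.dz_of (h : KF K S a' b c A a e f Y φ l p l' p') (hF : S.Full) {r : ℕ} {x : Z2}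
    (h1 : (r : ℤ) ∣ cr x l) (h2 : (r : ℤ) ∣ cr x p) (h3 : (r : ℤ) ∣ cr x S.u)
    (h4 : (r : ℤ) ∣ cr x S.v) (h5 : (r : ℤ) ∣ cr x l') (h6 : (r : ℤ) ∣ cr x p') : Dz r x := by
  refine Dz.iff.2 fun z => ?_
  have hz : z ∈ S.L ⊔ S.L' ⊔ lat S.u S.v := by
    rw [show S.L ⊔ S.L' ⊔ lat S.u S.v = ⊤ from hF]; trivial
  obtain ⟨x1, hx1, y1, hy1, rfl⟩ := AddSubgroup.mem_sup.1 hz
  obtain ⟨x2, hx2, x3, hx3, rfl⟩ := AddSubgroup.mem_sup.1 hx1
  rw [h.L_eq] at hx2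
  rw [h.L'_eq] at hx3
  obtain ⟨m, n, rfl⟩ := mem_lat.1 hx2
  obtain ⟨m', n', rfl⟩ := mem_lat.1 hx3
  obtain ⟨m2, n2, rfl⟩ := mem_lat.1 hy1
  simp only [cr_add_right, cr_smul_right]
  exact dvd_add (dvd_add (dvd_add (h1.mul_left _) (h2.mul_left _))
    (dvd_add (h5.mul_left _) (h6.mul_left _))) (dvd_add (h3.mul_left _) (h4.mul_left _))

/-- `r ∣ A, e, f, c` implies `r ∣ u` -/
theorem KF.dz_u (h : KF K S a' b c A a e f Y φ l p l' p') (hF : S.Full) {r : ℕ}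
    (hA : (r : ℤ) ∣ A) (he : (r : ℤ) ∣ e) (hf : (r : ℤ) ∣ f) (hc : (r : ℤ) ∣ c) : Dz r S.u := by
  refine h.dz_of hF ?_ ?_ ?_ ?_ ?_ ?_
  · rw [h.he]; exact he
  · rw [h.hf]; exact hf
  · rw [cr_self]; exact dvd_zero _
  · rw [h.hA]; exact hA
  · rw [h.ad.h4]; exact dvd_zero _
  · rw [h.up']; exact hc

/-- `r ∣ u` implies `r ∤ a + b` -/
theorem KF.not_ab (h : KF K S a' b c A a e f Y φ l p l' p') (hF : S.Full) {r : ℕ} (hr : r.Prime)
    (hrK : ¬ (r : ℤ) ∣ K) (hu : Dz r S.u) : ¬ (r : ℤ) ∣ a + b := by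
  have hri := Nat.prime_iff_prime_int.1 hr
  intro hab
  have huw : (r : ℤ) ∣ cr (S.v + l) S.u := hu.cr_right _
  have key : ∀ z : Z2, (r : ℤ) ∣ cr (S.v + l) (K • z) → (r : ℤ) ∣ cr (S.v + l) z := by
    intro z hz
    rw [cr_smul_right] at hz
    exact (hri.dvd_or_dvd hz).resolve_left hrK
  have h1 : Dz r (S.v + l) := by
    refine h.dz_of hF ?_ ?_ huw ?_ ?_ ?_
    · rw [cr_add_left, cr_self, cr_swap S.v l, h.lv]; simp
    · rw [cr_swap _ p, h.pw]; exact (dvd_neg).2 hab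
    · rw [cr_add_left, cr_self, h.lv]; simp
    · refine key _ ?_
      rw [h.hl', cr_smul_right]; exact huw.mul_left _
    · refine key _ ?_
      rw [h.hp', cr_add_right, cr_smul_right, cr_self, add_zero]
      exact huw.mul_left _
  have h2 := con1_lat.1 h.Cl r hr
  apply h2
  constructor
  · have h3 : Dz r (K • l') := by rw [h.hl']; exact hu.smul Y
    exact (h3.mul_prime hr).resolve_left hrK
  · have h3 : Dz r (K • p') := by rw [h.hp']; exact (hu.smul φ).add h1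
    exact (h3.mul_prime hr).resolve_left hrK

/-- a V-frame with a given class `j` at the prime `r` -/
theorem KF.vframe (h : KF K S a' b c A a e f Y φ l p l' p') {r : ℕ} (hr : r.Prime) (j0 : ℤ)
    (hj0 : (r : ℤ) ∣ Y → ¬ (r : ℤ) ∣ 1 + j0 * φ) :
    ∃ (j φ2 : ℤ) (l2' p2' : Z2), (r : ℤ) ∣ j - j0 ∧
      KF K (vst S l p j) a' b c A a e (f + j * (a + b - A)) Y φ2 l (p - j • S.v) l2' p2' := by
  have hY0 := h.Y0
  obtain ⟨j, hj⟩ := crt_exists (Y * r) (mul_ne_zero hY0.ne' (by exact_mod_cast hr.ne_zero))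
    (fun q j => (q = r → (r : ℤ) ∣ j - j0) ∧ (q ≠ r → (q : ℤ) ∣ j))
    (fun q hq _ => by
      by_cases hqr : q = r
      · exact ⟨j0, fun _ => by simp, fun h => absurd hqr h⟩
      · exact ⟨0, fun h => absurd h hqr, fun _ => dvd_zero _⟩)
    (fun q hq _ k k' h1 h2 => by
      refine ⟨fun h3 => ?_, fun h3 => ?_⟩
      · have e1 : k' - j0 = (k' - k) + (k - j0) := by ring
        rw [e1]
        exact dvd_add (by rw [← h3]; exact h1) (h2.1 h3)
      · have := dvd_add h1 (h2.2 h3)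
        simpa using this)
  have hrj : (r : ℤ) ∣ j - j0 := (hj r hr (dvd_mul_left _ _)).1 rfl
  have hco : IsCoprime Y (1 + j * φ) := by
    refine isCoprime_of_prime fun q hq h1 h2 => ?_
    by_cases hqr : q = r
    · subst hqr
      apply hj0 h2
      have e1 : 1 + j0 * φ = (1 + j * φ) - (j - j0) * φ := by ring
      rw [e1]
      exact dvd_sub h1 (hrj.mul_right φ)
    · have h3 := (hj q hq (h2.mul_right _)).2 hqr
      exact prime_not_dvd_one hq ((dvd_add_left (h3.mul_right φ)).1 h1)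
  obtain ⟨φ2, l2', p2', h3⟩ := h.vtw hco
  exact ⟨j, φ2, l2', p2', hrj, h3⟩

/-- the relation between `φ` and the `φ` of a V-frame -/
theorem KF.phi_rel (h : KF K S a' b c A a e f Y φ l p l' p') {j φ2 f2 : ℤ} {l2' p2' : Z2}
    (h2 : KF K (vst S l p j) a' b c A a e f2 Y φ2 l (p - j • S.v) l2' p2') :
    Y ∣ φ2 * (1 + j * φ) - φ := by
  have hKc : (0 : ℤ) < K * c := mul_pos h.K0 h.c0
  have h1 : S.L' = lat l2' p2' := h2.L'_eq
  have h3 : p2' ∈ S.L' := by rw [h1]; exact mem_lat.2 ⟨0, 1, by module⟩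
  rw [h.L'_eq] at h3
  obtain ⟨m, n, hmn⟩ := mem_lat.1 h3
  have h4 : K • p2' = φ2 • (S.u - j • (S.v + l)) + (S.v + l) := h2.hp'
  have h5 : φ2 • (S.u - j • (S.v + l)) + (S.v + l) =
      (m * Y) • S.u + n • (φ • S.u + (S.v + l)) := by
    rw [← h4, ← hmn, ← h.hp']
    have e1 : (m * Y) • S.u = m • (K • l') := by rw [h.hl', mul_smul]
    rw [e1]; module
  have e0 : cr (S.v + l) S.u = -(K * c) := by rw [cr_swap, h.uw]
  have x1 := congrArg (fun z => cr z (S.v + l)) h5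
  have x2 := congrArg (fun z => cr S.u z) h5
  have huw := h.uw
  generalize S.v + l = w at x1 x2 e0 huw
  generalize S.u = u at x1 x2 e0 huw
  simp only [cr_add_left, cr_add_right, cr_smul_left, cr_smul_right, cr_sub_left, cr_sub_right,
    cr_self, huw] at x1 x2
  have y1 : m * Y + n * φ = φ2 := by
    have : K * c * (m * Y + n * φ - φ2) = 0 := by linear_combination -x1
    rcases mul_eq_zero.1 this with h9 | h9
    · exact absurd h9 hKc.ne'
    · linarith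
  have y2 : n = 1 - j * φ2 := by
    have : K * c * (n - (1 - j * φ2)) = 0 := by linear_combination -x2
    rcases mul_eq_zero.1 this with h9 | h9
    · exact absurd h9 hKc.ne'
    · linarith
  refine ⟨m, ?_⟩
  rw [y2] at y1
  linear_combination -y1

/-- **F-D**, `r ∤ Y` -/
theorem KF.fd (h : KF K S a' b c A a e f Y φ l p l' p') (hF : S.Full) (hK : K = 2 ∨ K = 3)
    (he3 : e < 3 * A) {r : ℕ} (hr : r.Prime) (hrK : ¬ (r : ℤ) ∣ K) (hA : (r : ℤ) ∣ A)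
    (hc : (r : ℤ) ∣ c) (hY : ¬ (r : ℤ) ∣ Y) {k : ℕ}
    (hk : (r : ℤ) ^ k ∣ b) : (r : ℤ) ^ (k + 1) ∣ K + Y := by
  by_cases hf : (r : ℤ) ∣ f
  · have he : (r : ℤ) ∣ e := by
      have h1 : (r : ℤ) ∣ A + e := by rw [← h.hc]; exact hc.mul_left _
      exact (dvd_add_right hA).1 h1
    have hab := h.not_ab hF hr hrK (h.dz_u hF hA he hf hc)
    obtain ⟨j, φ2, l2', p2', h1, h2⟩ := h.vframe hr 1 (fun h9 => absurd h9 hY)
    refine h2.fd1 hK he3 hr hrK hA hc ?_ hY hk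
    intro h9
    apply hab
    have e1 : a + b = (f + j * (a + b - A)) - f - (j - 1) * (a + b - A) + A := by ring
    rw [e1]
    exact dvd_add (dvd_sub (dvd_sub h9 hf) (h1.mul_right _)) hA
  · exact h.fd1 hK he3 hr hrK hA hc hf hY hk

/-- a V-frame with `r ∤ f` and `r ∣ φ` -/
theorem KF.vframe_f (h : KF K S a' b c A a e f Y φ l p l' p') (hF : S.Full) {r : ℕ}
    (hr : r.Prime) (hrK : ¬ (r : ℤ) ∣ K) (hA : (r : ℤ) ∣ A) (hc : (r : ℤ) ∣ c)
    (hY : (r : ℤ) ∣ Y) (hφ : (r : ℤ) ∣ φ) :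
    ∃ (S1 : PSt) (f1 φ1 : ℤ) (p1 l1' p1' : Z2), KF K S1 a' b c A a e f1 Y φ1 l p1 l1' p1' ∧
      ¬ (r : ℤ) ∣ f1 ∧ (r : ℤ) ∣ φ1 := by
  have hri := Nat.prime_iff_prime_int.1 hr
  by_cases hf : (r : ℤ) ∣ f
  · have he : (r : ℤ) ∣ e := by
      have h1 : (r : ℤ) ∣ A + e := by rw [← h.hc]; exact hc.mul_left _
      exact (dvd_add_right hA).1 h1
    have hab := h.not_ab hF hr hrK (h.dz_u hF hA he hf hc)
    obtain ⟨j, φ2, l2', p2', h1, h2⟩ := h.vframe hr 1 (fun _ h9 => by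
      rw [one_mul] at h9
      exact prime_not_dvd_one hr ((dvd_add_left hφ).1 h9))
    refine ⟨_, _, φ2, _, l2', p2', h2, ?_, ?_⟩
    · intro h9
      apply hab
      have e1 : a + b = (f + j * (a + b - A)) - f - (j - 1) * (a + b - A) + A := by ring
      rw [e1]
      exact dvd_add (dvd_sub (dvd_sub h9 hf) (h1.mul_right _)) hA
    · have h3 := hY.trans (h.phi_rel h2)
      have h4 : (r : ℤ) ∣ φ2 * (1 + j * φ) := by
        have := dvd_add h3 hφ
        simpa using this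
      rcases hri.dvd_or_dvd h4 with h5 | h5
      · exact h5
      · exact absurd ((dvd_add_left (hφ.mul_left j)).1 h5) (prime_not_dvd_one hr)
  · exact ⟨S, f, φ, p, l', p', h, hf, hφ⟩

/-- **F-D**, `r ∣ Y`, `r ∣ φ`, `r` odd: `a ≡ (K - 1) b` -/
theorem KF.fdY (h : KF K S a' b c A a e f Y φ l p l' p') (hF : S.Full) (hK : K = 2 ∨ K = 3)
    (he3 : e < 3 * A) {r : ℕ} (hr : r.Prime) (hr2 : r ≠ 2) (hrK : ¬ (r : ℤ) ∣ K)
    (hA : (r : ℤ) ∣ A) (hc : (r : ℤ) ∣ c) (hY : (r : ℤ) ∣ Y) (hφ : (r : ℤ) ∣ φ) :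
    (r : ℤ) ∣ a - (K - 1) * b := by
  obtain ⟨S1, f1, φ1, p1, l1', p1', h1, h2, h3⟩ := h.vframe_f hF hr hrK hA hc hY hφ
  have h4 := h1.fdy hK he3 hr hr2 hrK hA hc h2 hY
  have e1 : a - (K - 1) * b = (a + b - φ1 * f1 - K * b) + φ1 * f1 := by ring
  rw [e1]
  exact dvd_add h4 (h3.mul_right _)

/-- **F-D** at `2`, `K = 3`, `Y` and `φ` even: impossible -/
theorem KF.fd4 (h : KF 3 S a' b c A a e f Y φ l p l' p') (hF : S.Full) (he3 : e < 3 * A)
    (hA : (2 : ℤ) ∣ A) (hc : (2 : ℤ) ∣ c) (ha : ¬ (2 : ℤ) ∣ a) (hY : (2 : ℤ) ∣ Y)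
    (hφ : (2 : ℤ) ∣ φ) : False := by
  have hp2 := Nat.prime_two
  have h2i := Int.prime_two
  obtain ⟨S1, f1, φ1, p1, l1', p1', h, hf, hφ⟩ := h.vframe_f hF hp2 (by norm_num)
    (by exact_mod_cast hA) (by exact_mod_cast hc) (by exact_mod_cast hY) (by exact_mod_cast hφ)
  push_cast at hf hφ
  have he : (2 : ℤ) ∣ e := by
    have h1 := h.hc
    omega
  obtain ⟨δ, e2, x1, x2⟩ := exists_pow_mul hp2 h.e0.ne'
  obtain ⟨α, b2, x3, x4⟩ := exists_pow_mul hp2 h.b0.ne'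
  push_cast at x1 x2 x3 x4
  have hY3 : ¬ (2 : ℤ) ∣ 3 + Y := by omega
  have hδ : 0 < δ := by
    rcases Nat.eq_zero_or_pos δ with h9 | h9
    · exfalso
      rw [h9, pow_zero, one_mul] at x1
      exact x2 (by rw [← x1]; exact he)
    · exact h9
  rcases Nat.eq_zero_or_pos α with hα | hα
  · -- `b` odd
    rw [hα, pow_zero, one_mul] at x3
    have hb : ¬ (2 : ℤ) ∣ b := by rw [x3]; exact x4
    -- `A = 2 ^ δ A1`, `A1` odd
    have hA0 := h.A0
    have haA := h.aA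
    obtain ⟨s, A1, z1, z2⟩ := exists_pow_mul hp2 hA0.ne'
    push_cast at z1 z2
    have haA1 : ¬ (2 : ℤ) ∣ a * A1 := fun h9 => (h2i.dvd_or_dvd h9).elim ha z2
    have he2b : ¬ (2 : ℤ) ∣ e2 * b := fun h9 => (h2i.dvd_or_dvd h9).elim x2 hb
    have key : (2 : ℤ) ^ s * (a * A1) = 2 ^ δ * (e2 * b) := by
      have : a * A = e * b := haA
      rw [z1, x1] at this
      linarith
    have hsδ : s = δ := by
      apply le_antisymm
      · have h1 : (2 : ℤ) ^ s ∣ 2 ^ δ * (e2 * b) := by rw [← key]; exact dvd_mul_right _ _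
        have hcop : IsCoprime ((2 : ℤ) ^ s) (e2 * b) :=
          (isCoprime_of_not_dvd (p := 2) hp2 (by exact_mod_cast he2b)).pow_left
        exact (pow_dvd_pow_iff (by norm_num) h2i.not_isUnit).1 (hcop.dvd_of_dvd_mul_right h1)
      · have h1 : (2 : ℤ) ^ δ ∣ 2 ^ s * (a * A1) := by rw [key]; exact dvd_mul_right _ _
        have hcop : IsCoprime ((2 : ℤ) ^ δ) (a * A1) :=
          (isCoprime_of_not_dvd (p := 2) hp2 (by exact_mod_cast haA1)).pow_left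
        exact (pow_dvd_pow_iff (by norm_num) h2i.not_isUnit).1 (hcop.dvd_of_dvd_mul_right h1)
    obtain ⟨t, ht⟩ : ∃ t, A1 + e2 = 2 * t := ⟨(A1 + e2) / 2, by omega⟩
    have hAw := h.Aw
    have h1 : (2 : ℤ) ^ δ • (A1 • (S1.v + l)) = (2 : ℤ) ^ δ • ((2 * t) • S1.v) := by
      rw [← mul_smul, ← mul_smul]
      have e1 : (2 : ℤ) ^ δ * A1 = A := by rw [z1, hsδ]
      have e3 : (2 : ℤ) ^ δ * (2 * t) = 3 * c := by rw [← ht, h.hc, z1, x1, hsδ]; ring
      rw [e1, e3]; exact hAw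
    have h3 := smul_inj (by positivity) h1
    have h4 : Dz 2 (A1 • (S1.v + l)) := ⟨t • S1.v, by rw [h3, mul_smul]⟩
    have h5 : Dz ((2 : ℕ) : ℤ) (S1.v + l) := by
      have h4' : Dz ((2 : ℕ) : ℤ) (A1 • (S1.v + l)) := by exact_mod_cast h4
      rcases h4'.mul_prime hp2 with h6 | h6
      · exact absurd (by exact_mod_cast h6) z2
      · exact h6
    have hY' : Dz ((2 : ℕ) : ℤ) ((3 : ℤ) • l1') := by
      rw [h.hl']; exact Dz.of_dvd (by exact_mod_cast hY) _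
    have hφ' : Dz ((2 : ℕ) : ℤ) ((3 : ℤ) • p1') := by
      rw [h.hp']; exact (Dz.of_dvd (by exact_mod_cast hφ) _).add h5
    refine con1_lat.1 h.Cl 2 hp2 ⟨?_, ?_⟩
    · exact (hY'.mul_prime hp2).resolve_left (by norm_num)
    · exact (hφ'.mul_prime hp2).resolve_left (by norm_num)
  · -- `b` even
    have h1 := (h.ext.hrig_two h.ext.ok.seq h.ext.ha' h.ext.con h.ext.hb h.ad).2
    have hZo : ¬ (2 : ℤ) ∣ cr (S1.u + l1') p1 := by
      intro h9
      have h10 : (2 : ℤ) ∣ (3 + Y) * f1 := by rw [← h.hZp]; exact h9.mul_left _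
      exact (h2i.dvd_or_dvd h10).elim hY3 hf
    have hα1 : α = 1 := by
      by_contra h9
      have h10 : (2 : ℤ) ^ 2 ∣ 2 * cr (S1.u + l1') p1 := by
        refine Dvd.dvd.trans ?_ h1
        rw [x3]
        exact (pow_dvd_pow _ (by omega)).mul_right _
      have h11 : (2 : ℤ) * 2 ∣ 2 * cr (S1.u + l1') p1 := by
        have : (2 : ℤ) ^ 2 = 2 * 2 := by norm_num
        rwa [this] at h10
      exact hZo ((mul_dvd_mul_iff_left (by norm_num)).1 h11)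
    obtain ⟨X2, hX2⟩ : (2 : ℤ) ^ δ ∣ cr (S1.u + l1') l := by
      have h9 : (2 : ℤ) ^ δ ∣ 3 * cr (S1.u + l1') l := by
        rw [h.hXl, x1]
        exact ⟨(3 + Y) * e2, by ring⟩
      exact ((isCoprime_of_not_dvd (p := 2) hp2 (x := 3) (by norm_num)).pow_left).dvd_of_dvd_mul_left
        (by exact_mod_cast h9)
    have hKX2 : 3 * X2 = (3 + Y) * e2 := by
      refine mul_left_cancel₀ (pow_ne_zero δ (by norm_num : (2 : ℤ) ≠ 0)) ?_
      have h9 := h.hXl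
      rw [hX2, x1] at h9
      linear_combination h9
    have hX2o : ¬ (2 : ℤ) ∣ X2 := by
      intro h9
      have h10 : (2 : ℤ) ∣ (3 + Y) * e2 := by rw [← hKX2]; exact h9.mul_left _
      exact (h2i.dvd_or_dvd h10).elim hY3 x2
    obtain ⟨i0, hi0⟩ := exists_classP hp2 (x := cr (S1.u + l1') p1) (by exact_mod_cast hZo) b2
      (δ + 1)
    push_cast at hi0
    have hi0o : ¬ (2 : ℤ) ∣ i0 := by
      intro h9
      apply x4
      have h10 := dvd_sub (h9.mul_left (cr (S1.u + l1') p1))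
        ((dvd_pow_self 2 (by omega : δ + 1 ≠ 0)).trans hi0)
      simpa using h10
    have hbZ : (2 : ℤ) ^ (1 + δ + 1) ∣ b - 2 * i0 * cr (S1.u + l1') p1 := by
      have e1 : b - 2 * i0 * cr (S1.u + l1') p1 = 2 * -(cr (S1.u + l1') p1 * i0 - b2) := by
        rw [x3, hα1, pow_one]; ring
      rw [e1, add_assoc, pow_add, pow_one]
      exact mul_dvd_mul_left _ ((dvd_neg).2 hi0)
    obtain ⟨i, y1, y2, y3⟩ := h.up hp2 (α := α) (b2 := b2) (by exact_mod_cast x3)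
      (by exact_mod_cast x4) (i0 := 2 * i0) (n := 1 + δ)
      (by
        push_cast
        rw [hX2, pow_add, pow_one]
        exact ⟨i0 * X2, by ring⟩)
      (by push_cast; exact (pow_dvd_pow _ (by omega)).trans hbZ)
      (fun h9 => by
        have h10 := h9.1
        push_cast at h10
        rw [hX2] at h10
        have e1 : 2 * i0 * ((2 : ℤ) ^ δ * X2) = 2 ^ (1 + δ) * (i0 * X2) := by
          rw [pow_add, pow_one]; ring
        rw [e1, pow_succ] at h10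
        have h11 := (mul_dvd_mul_iff_left (pow_ne_zero _ (by norm_num))).1 h10
        exact (h2i.dvd_or_dvd h11).elim hi0o hX2o)
    have hie : (2 : ℤ) ∣ i := by
      have h10 : (2 : ℤ) ∣ i - 2 * i0 := by
        refine Dvd.dvd.trans ?_ y1
        push_cast
        exact dvd_pow_self _ (by omega)
      omega
    refine h.no_full (Or.inr rfl) he3 hp2 (by norm_num) (by exact_mod_cast hA) hδ
      (by exact_mod_cast x1) (by exact_mod_cast x2) (h.con_of y2 ?_) ?_ (i := i)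
    · refine Alw.per (k := 0) ?_ (Alw.zero h.Cl hp2)
      rw [sub_zero]; exact_mod_cast hie
    · have e1 : b * ((2 : ℕ) : ℤ) ^ δ = ((2 : ℕ) : ℤ) ^ (1 + δ) * b2 := by
        rw [x3, hα1, pow_add]; push_cast; ring
      rw [e1]; exact y3

end Pool.Agent.H4G
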