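import Pool.Agent.H4G.Arith.RCrit
import Pool.Agent.H4G.Arith.F2

/-!
# (R'') for the right exits of level `n` (helper23, helper40, helper5)
-/

set_option autoImplicit false

namespace Pool.Agent.H4G

/-- a proper divisor of `c` is at most `c / 2` -/
theorem no_div_of_lt {A c : ℤ} (hc0 : 0 < c) (hc : c < 2 * A) :
    ∀ d : ℤ, 0 < d → d ∣ c → A ≤ d → d = c := by
  intro d hd0 hd hA
  obtain ⟨k, hk⟩ := hd
  have hk0 : 0 < k := by
    by_contra hn
    push Not at hn
    have := mul_nonpos_of_nonneg_of_nonpos hd0.le hn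
    linarith
  rcases (show k = 1 ∨ 2 ≤ k by omega) with h1 | h1
  · rw [hk, h1, mul_one]
  · exfalso
    have := mul_le_mul_of_nonneg_left h1 hd0.le
    linarith

/-- a prime divisor of `c` not dividing `A` does not divide `a + A` -/
theorem Ad.not_dvd_add {T : PSt} {l p l' p' : Z2} (ad : Ad T l p l' p') {N : ℕ} (hN : N.Prime)
    (hv : cr p l + cr T.u T.v + cr l' p' = N) {s : ℕ} (hs : s.Prime)
    (hsc : (s : ℤ) ∣ cr T.u p') (hsA : ¬ (s : ℤ) ∣ cr T.u T.v) :
    ¬ (s : ℤ) ∣ cr p l + cr T.u T.v := by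
  intro hbad
  have e1 : cr l' T.v * cr T.u p' = cr l' p' * cr T.u T.v := by
    have := plucker l' T.v T.u p'
    rw [cr_swap l' T.u, ad.h4] at this
    rw [cr_swap T.v T.u] at this
    linarith
  have h1 : (s : ℤ) ∣ cr l' p' * cr T.u T.v := by
    rw [← e1]; exact Dvd.dvd.mul_left hsc _
  have h2 : (s : ℤ) ∣ cr l' p' :=
    ((Nat.prime_iff_prime_int.1 hs).dvd_or_dvd h1).resolve_right hsA
  have h3 : (s : ℤ) ∣ (N : ℤ) := by
    rw [← hv]; exact dvd_add hbad h2
  have h4 : s = N := (Nat.prime_dvd_prime_iff_eq hs hN).1 (by exact_mod_cast h3)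
  have h5 : 0 < cr l' p' := ad.isArea'.1
  have h6 := Int.le_of_dvd h5 h2
  have h7 : 0 < cr p l := ad.isArea.1
  have h8 := ad.hA
  rw [h4] at h6
  linarith

/-- (R'') for the right exits of level `n` in the frame ExtB: if the left gap `κ` of the exit
divides `A + n c`, then every power `s ^ m | c` of a prime `s`, `s` prime to `A`, divides the
right torus of the exit -/
theorem ExtB.rexit_content {S : PSt} {a' b c : ℤ} {N : ℕ} (hN : N.Prime) (h : ExtB S a' b c)
    {l p l' p' : Z2} (ad : Ad S l p l' p') (hv : cr p l + cr S.u S.v + cr l' p' = N)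
    (hno : ∀ d : ℤ, 0 < d → d ∣ c → cr S.u S.v ≤ d → d = c)
    {n i o t : ℤ} (hn : 0 ≤ n) (ho : o = 1 ∨ o = -1) (hco : IsCoprime t n)
    (h1 : n * cr S.u p' < o * (t * cr l' S.v + n * (cr p' S.v -
      i * (cr l' p' + cr S.u p' - cr S.u S.v))))
    (h2 : o * (t * cr l' S.v + n * (cr p' S.v -
      i * (cr l' p' + cr S.u p' - cr S.u S.v))) ≤ cr l' p') {κ : ℤ}
    (hκ : IsC S.L (S.v + (o + i * (1 + n)) • S.u + (t + i) • l' + n • p') κ)
    (hd : κ ∣ cr S.u S.v + n * c) {s m : ℕ} (hs : s.Prime) (hm0 : 0 < m)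
    (hm : (s : ℤ) ^ m ∣ c) (hsA : ¬ (s : ℤ) ∣ cr S.u S.v) :
    Dz ((s : ℤ) ^ m) (l' - n • S.u) ∧ Dz ((s : ℤ) ^ m) (p' + (t + i) • S.u) := by
  have e2 : cr S.u p' = c := ad.isC'.unique h.hc
  have hA : cr S.u S.v ≤ cr S.u p' := h.leA h.ok.seq h.ha' h.con ad.isC'
  obtain ⟨T', k1, k2, k3, k4, k5, k6⟩ := ad.rexitSt h.ok hA hn ho hco h1 h2
  have hsc : (s : ℤ) ∣ c := (dvd_pow_self _ hm0.ne').trans hm
  have hA' : cr T'.u T'.v = cr S.u S.v + n * c := by
    rw [k3, k4]
    simp only [cr_add_right, cr_smul_right]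
    rw [cr_self, ad.h4, e2]; ring
  have ha : IsArea T'.L (cr p l) := by rw [k2]; exact ad.isArea
  have hb : IsArea T'.L' (cr l' p' - n * c) := by
    refine ⟨?_, p' + (t + i) • S.u, l' - n • S.u, ?_, ?_⟩
    · rw [← e2]; linarith
    · rw [cr_sub_left, cr_add_right, cr_add_right, cr_smul_right, cr_smul_left, cr_smul_left,
        cr_smul_right, cr_self, cr_swap l' S.u, ad.h4, e2]
      ring
    · rw [k5]; exact lat_comm _ _
  have e3 : cr l' p' = a' := ad.isArea'.unique h.ha'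
  have key := h.mx.content_dvd k1 (A := cr S.u S.v) ha hb (by rw [hA', e3]; ring)
    (κ := κ) (by rw [k2, k4]; exact hκ) (by rw [hA']; exact hd) (c := c)
    (by rw [e2] at k6; exact k6) (by
      intro q hq hw hu
      rw [k3] at hu
      rw [k5] at hw
      have hw1 := hw (l' - n • S.u) (mem_lat.2 ⟨1, 0, by module⟩)
      have hw2 := hw (p' + (t + i) • S.u) (mem_lat.2 ⟨0, 1, by module⟩)
      have f1 := hw1.add (hu.smul n)
      have f2 := hw2.sub (hu.smul (t + i))
      rw [sub_add_cancel] at f1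
      rw [add_sub_cancel_right] at f2
      have hcon := h.con
      rw [ad.hL'] at hcon
      exact con1_lat.1 hcon q hq ⟨f1, f2⟩) hno (s := s) (m := m) hs hm (by
      rw [hA']
      intro hbad
      apply hsA
      have := dvd_sub hbad (Dvd.dvd.mul_left hsc n)
      rwa [add_sub_cancel_right] at this) (by
      rw [hA', ← add_assoc]
      intro hbad
      have := dvd_sub hbad (Dvd.dvd.mul_left hsc n)
      rw [add_sub_cancel_right] at this
      exact ad.not_dvd_add hN hv hs (by rw [e2]; exact hsc) hsA this)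
  rw [k5] at key
  exact ⟨key _ (mem_lat.2 ⟨1, 0, by module⟩), key _ (mem_lat.2 ⟨0, 1, by module⟩)⟩

/-- the content condition is one class of `τ` modulo `s ^ m` -/
theorem tau_class {u l' p' : Z2} (hcon : Con1 (lat l' p')) {s m : ℕ} (hs : s.Prime)
    (hm0 : 0 < m) {n τ τ' : ℤ} (h1 : Dz ((s : ℤ) ^ m) (l' - n • u))
    (h2 : Dz ((s : ℤ) ^ m) (p' + τ • u)) (h3 : Dz ((s : ℤ) ^ m) (p' + τ' • u)) :
    (s : ℤ) ^ m ∣ τ - τ' := by
  have h4 := h2.sub h3
  have e : p' + τ • u - (p' + τ' • u) = (τ - τ') • u := by module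
  rw [e] at h4
  by_contra hne
  have hsm : (s : ℤ) ∣ (s : ℤ) ^ m := dvd_pow_self _ hm0.ne'
  have dz_of : ∀ {w : Z2}, Dz ((s : ℤ) ^ m) w → Dz s w := by
    intro w hw
    rw [Dz.iff] at hw ⊢
    exact fun z => hsm.trans (hw z)
  have hu : Dz s u := by
    rw [Dz.iff]
    intro z
    by_contra hnz
    apply hne
    have hcop : IsCoprime ((s : ℤ) ^ m) (cr u z) :=
      ((Nat.prime_iff_prime_int.1 hs).coprime_iff_not_dvd.2 hnz).pow_left
    rw [Dz.iff] at h4
    have := h4 z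
    rw [cr_smul_left] at this
    exact hcop.dvd_of_dvd_mul_right this
  have f1 := (dz_of h1).add (hu.smul n)
  have f2 := (dz_of h2).sub (hu.smul τ)
  rw [sub_add_cancel] at f1
  rw [add_sub_cancel_right] at f2
  exact con1_lat.1 hcon s hs ⟨f1, f2⟩

end Pool.Agent.H4G
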