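import Pool.Agent.H4G.Arith.K1E
import Pool.Agent.H4G.Arith.RCrit2

/-!
# The frame ExtB with general `K` (helper40's page K2, section 0; typed by helper5)

`K c = A + e`, `K l' = Y u`, `K p' = φ u + (v + l)`, `K a' = Y c`.
-/

set_option autoImplicit false

namespace Pool.Agent.H4G

/-- the frame ExtB with the integers `K, Y, φ` -/
structure KF (K : ℤ) (S : PSt) (a' b c A a e f Y φ : ℤ) (l p l' p' : Z2) : Prop where
  ext : ExtB S a' b c
  ad : Ad S l p l' p'
  hA : cr S.u S.v = A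
  he : cr S.u l = e
  hf : cr S.u p = f
  ha : cr p l = a
  hb : cr p S.v = b
  hc : K * c = A + e
  hl' : K • l' = Y • S.u
  hp' : K • p' = φ • S.u + (S.v + l)
  hy : K * a' = Y * c

theorem ExtB.KF {S : PSt} {a' b c : ℤ} (h : ExtB S a' b c) {l p l' p' : Z2}
    (ad : Ad S l p l' p') :
    ∃ K Y φ : ℤ, KF K S a' b c (cr S.u S.v) (cr p l) (cr S.u l) (cr S.u p) Y φ l p l' p' := by
  obtain ⟨h1, h2⟩ := h.vrig ad
  have hc0 := h.hc.1
  have e1 : cr p S.v = b := ad.isC.unique h.hb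
  have e2 : cr S.u p' = c := ad.isC'.unique h.hc
  have e3 : cr l' p' = a' := ad.isArea'.unique h.ha'
  obtain ⟨K, hK⟩ := h.K_int ad
  have hw : cr S.u (S.v + l) = K * c := by rw [cr_add_right, hK]; ring
  obtain ⟨m, hm⟩ := h1
  obtain ⟨n, hn⟩ := h2
  have key : ∀ x : Z2, (K * c) • x = cr x (S.v + l) • S.u + cr S.u x • (S.v + l) := by
    intro x
    have := cr_expand S.u (S.v + l) x
    rw [hw] at this
    rw [this, cr_swap x S.u]; module
  have f1 : K • l' = (-m) • S.u := by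
    refine smul_inj hc0.ne' ?_
    have h3 := key l'
    rw [ad.h4, cr_swap l' (S.v + l), hm] at h3
    have e : c • K • l' = (K * c) • l' := by module
    rw [e, h3]; module
  have f2 : K • p' = (-n) • S.u + (S.v + l) := by
    refine smul_inj hc0.ne' ?_
    have h3 := key p'
    rw [e2, cr_swap p' (S.v + l), hn] at h3
    have e : c • K • p' = (K * c) • p' := by module
    rw [e, h3]; module
  refine ⟨K, -m, -n, ⟨h, ad, rfl, rfl, rfl, rfl, e1, by rw [hK]; ring, f1, f2, ?_⟩⟩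
  have h4 := congrArg (fun z => cr z p') f1
  simp only [cr_smul_left] at h4
  rw [e3, e2] at h4
  exact h4

variable {K : ℤ} {S : PSt} {a' b c A a e f Y φ : ℤ} {l p l' p' : Z2}

theorem KF.lv (h : KF K S a' b c A a e f Y φ l p l' p') : cr l S.v = 0 := h.ad.h1

theorem KF.A0 (h : KF K S a' b c A a e f Y φ l p l' p') : 0 < A := by rw [← h.hA]; exact h.ad.hA

theorem KF.e0 (h : KF K S a' b c A a e f Y φ l p l' p') : 0 < e := by rw [← h.he]; exact h.ad.h2

theorem KF.b0 (h : KF K S a' b c A a e f Y φ l p l' p') : 0 < b := h.ext.bpos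

theorem KF.c0 (h : KF K S a' b c A a e f Y φ l p l' p') : 0 < c := h.ext.hc.1

theorem KF.K0 (h : KF K S a' b c A a e f Y φ l p l' p') : 0 < K := by
  have h1 : 0 < K * c := by
    rw [h.hc]
    have := h.A0; have := h.e0; linarith
  exact (mul_pos_iff_of_pos_right h.c0).1 h1

theorem KF.a'0 (h : KF K S a' b c A a e f Y φ l p l' p') : 0 < a' := h.ext.ha'.1

theorem KF.Y0 (h : KF K S a' b c A a e f Y φ l p l' p') : 0 < Y := by
  have h1 : 0 < Y * c := by
    rw [← h.hy]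
    exact mul_pos h.K0 h.a'0
  exact (mul_pos_iff_of_pos_right h.c0).1 h1

theorem KF.Ab (h : KF K S a' b c A a e f Y φ l p l' p') : A ≤ b := by rw [← h.hA]; exact h.ext.hA

theorem KF.up' (h : KF K S a' b c A a e f Y φ l p l' p') : cr S.u p' = c :=
  h.ad.isC'.unique h.ext.hc

theorem KF.lp' (h : KF K S a' b c A a e f Y φ l p l' p') : cr l' p' = a' :=
  h.ad.isArea'.unique h.ext.ha'

theorem KF.Ac (h : KF K S a' b c A a e f Y φ l p l' p') : A ≤ c := by
  rw [← h.hA]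
  exact h.ext.leA h.ext.ok.seq h.ext.ha' h.ext.con h.ext.hc

theorem KF.aA (h : KF K S a' b c A a e f Y φ l p l' p') : a * A = e * b := by
  have := h.ad.area
  rw [h.ha, h.hA, h.he, h.hb] at this
  exact this

theorem KF.a0 (h : KF K S a' b c A a e f Y φ l p l' p') : 0 < a := by
  have h1 : 0 < a * A := by rw [h.aA]; exact mul_pos h.e0 h.b0
  exact (mul_pos_iff_of_pos_right h.A0).1 h1

theorem KF.area (h : KF K S a' b c A a e f Y φ l p l' p') : IsArea S.L a := by
  have := h.ad.isArea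
  rwa [h.ha] at this

/-- `K (l' × v) = Y A` -/
theorem KF.l'v (h : KF K S a' b c A a e f Y φ l p l' p') : K * cr l' S.v = Y * A := by
  have h1 := congrArg (fun z => cr z S.v) h.hl'
  simp only [cr_smul_left] at h1
  rw [h.hA] at h1
  exact h1

/-- `K (p' × v) = φ A` -/
theorem KF.p'v (h : KF K S a' b c A a e f Y φ l p l' p') : K * cr p' S.v = φ * A := by
  have h1 := congrArg (fun z => cr z S.v) h.hp'
  simp only [cr_smul_left, cr_add_left] at h1
  rw [h.hA, h.lv, cr_self] at h1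
  linarith

theorem KF.uw (h : KF K S a' b c A a e f Y φ l p l' p') : cr S.u (S.v + l) = K * c := by
  rw [cr_add_right, h.hA, h.he, h.hc]

theorem KF.pw (h : KF K S a' b c A a e f Y φ l p l' p') : cr p (S.v + l) = a + b := by
  rw [cr_add_right, h.hb, h.ha]; ring

theorem KF.vw (h : KF K S a' b c A a e f Y φ l p l' p') : cr S.v (S.v + l) = 0 := by
  rw [cr_add_right, cr_self, cr_swap S.v l, h.lv]; ring

/-- `A (v + l) = K c v` -/
theorem KF.Aw (h : KF K S a' b c A a e f Y φ l p l' p') : A • (S.v + l) = (K * c) • S.v := by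
  have e1 := cr_expand S.u S.v (S.v + l)
  rw [h.hA, cr_add_left, cr_self, h.lv, cr_swap (S.v + l) S.u, h.uw] at e1
  rw [e1]; module

/-- `A l = e v` -/
theorem KF.Al (h : KF K S a' b c A a e f Y φ l p l' p') : A • l = e • S.v := by
  have e1 := h.Aw
  rw [h.hc] at e1
  have : A • l = A • (S.v + l) - A • S.v := by module
  rw [this, e1]; module

theorem KF.L_eq (h : KF K S a' b c A a e f Y φ l p l' p') : S.L = lat l p := h.ad.hL

theorem KF.L'_eq (h : KF K S a' b c A a e f Y φ l p l' p') : S.L' = lat l' p' := h.ad.hL'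

/-- the volume -/
theorem KF.lt_N (h : KF K S a' b c A a e f Y φ l p l' p') {N : ℕ} (hv : a + A + a' = N) :
    a < N ∧ A < N ∧ a' < N := by
  have h1 := h.a0
  have h2 := h.A0
  have h3 := h.a'0
  refine ⟨by linarith, by linarith, by linarith⟩

/-- a prime which divides `A` and `c` and not `K` does not divide `a` -/
theorem KF.not_a (h : KF K S a' b c A a e f Y φ l p l' p') {N : ℕ} (hN : N.Prime)
    (hv : a + A + a' = N) {r : ℕ} (hr : r.Prime) (hK : ¬ (r : ℤ) ∣ K) (h1 : (r : ℤ) ∣ A)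
    (h2 : (r : ℤ) ∣ c) : ¬ (r : ℤ) ∣ a := by
  intro h3
  have h4 : (r : ℤ) ∣ a' := by
    have h5 : (r : ℤ) ∣ K * a' := by rw [h.hy]; exact h2.mul_left _
    exact ((Nat.prime_iff_prime_int.1 hr).dvd_or_dvd h5).resolve_left hK
  have h5 : (r : ℤ) ∣ (N : ℤ) := by rw [← hv]; exact dvd_add (dvd_add h3 h1) h4
  have h6 : r ∣ N := by exact_mod_cast h5
  have h7 := (Nat.prime_dvd_prime_iff_eq hr hN).1 h6
  have h8 := Int.le_of_dvd h.a0 h3
  have h9 := (h.lt_N hv).1
  rw [h7] at h8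
  omega

/-- a prime which divides `c` and not `A` divides `a'` and not `a + A` -/
theorem KF.not_aA (h : KF K S a' b c A a e f Y φ l p l' p') {N : ℕ} (hN : N.Prime)
    (hv : a + A + a' = N) {r : ℕ} (hr : r.Prime) (h1 : (r : ℤ) ∣ c) (h2 : ¬ (r : ℤ) ∣ A) :
    ¬ (r : ℤ) ∣ a + A := by
  have := h.ad.not_dvd_add hN (by rw [h.ha, h.hA, h.lp']; exact hv) hr
    (by rw [h.up']; exact h1) (by rw [h.hA]; exact h2)
  rwa [h.ha, h.hA] at this

/-! ## V-twists -/

theorem KF.vseq (h : KF K S a' b c A a e f Y φ l p l' p') (j : ℤ) : SEq S (vst S l p j) :=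
  h.ad.twV h.ext.ok (by rw [h.hA, h.hb]; exact h.Ab) j

theorem KF.vst_A (h : KF K S a' b c A a e f Y φ l p l' p') (j : ℤ) :
    cr (vst S l p j).u (vst S l p j).v = A := by
  show cr (S.u - j • (S.v + l)) S.v = A
  rw [cr_sub_left, cr_smul_left, cr_add_left, cr_self, h.lv, h.hA]; ring

theorem KF.vst_e (h : KF K S a' b c A a e f Y φ l p l' p') (j : ℤ) :
    cr (vst S l p j).u l = e := by
  show cr (S.u - j • (S.v + l)) l = e
  rw [cr_sub_left, cr_smul_left, cr_add_left, cr_self, cr_swap S.v l, h.lv, h.he]; ring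

theorem KF.vst_f (h : KF K S a' b c A a e f Y φ l p l' p') (j : ℤ) :
    cr (vst S l p j).u (p - j • S.v) = f + j * (a + b - A) := by
  show cr (S.u - j • (S.v + l)) (p - j • S.v) = _
  simp only [cr_sub_left, cr_sub_right, cr_smul_left, cr_smul_right, cr_add_left, cr_self]
  rw [h.lv, h.hf, h.hA, cr_swap S.v p, cr_swap l p, h.hb, h.ha]; ring

theorem KF.vst_b (h : KF K S a' b c A a e f Y φ l p l' p') (j : ℤ) :
    IsC (vst S l p j).L (vst S l p j).v b := by
  show IsC (lat l (p - j • S.v)) S.v b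
  have : cr (p - j • S.v) S.v = b := by rw [cr_sub_left, cr_smul_left, cr_self, h.hb]; ring
  rw [← this]
  exact isC_of_par h.lv (by rw [this]; exact h.b0)

/-- the gcd of the V-twisted state on the right -/
theorem KF.vst_c (h : KF K S a' b c A a e f Y φ l p l' p') (j : ℤ) :
    IsC (vst S l p j).L' (vst S l p j).u (c * (Int.gcd Y (1 + j * φ) : ℤ)) := by
  have hc0 := h.c0
  have hK0 := h.K0
  have e0 : cr (S.v + l) S.u = -(K * c) := by rw [cr_swap, h.uw]
  have e4 : cr (S.u - j • (S.v + l)) l' = c * (j * Y) := by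
    have h1 := congrArg (fun z => cr (S.u - j • (S.v + l)) z) h.hl'
    simp only [cr_smul_right] at h1
    have h2 : cr (S.u - j • (S.v + l)) S.u = j * (K * c) := by
      rw [cr_sub_left, cr_smul_left, cr_self, e0]; ring
    rw [h2] at h1
    have h3 : K * cr (S.u - j • (S.v + l)) l' = K * (c * (j * Y)) := by rw [h1]; ring
    exact mul_left_cancel₀ hK0.ne' h3
  have e5 : cr (S.u - j • (S.v + l)) p' = c * (1 + j * φ) := by
    have h1 := congrArg (fun z => cr (S.u - j • (S.v + l)) z) h.hp'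
    simp only [cr_smul_right] at h1
    have h2 : cr (S.u - j • (S.v + l)) (φ • S.u + (S.v + l)) = K * c * (1 + j * φ) := by
      rw [cr_sub_left, cr_smul_left, cr_add_right, cr_smul_right, cr_self, h.uw, cr_add_right,
        cr_smul_right, cr_self, e0]; ring
    rw [h2] at h1
    have h3 : K * cr (S.u - j • (S.v + l)) p' = K * (c * (1 + j * φ)) := by rw [h1]; ring
    exact mul_left_cancel₀ hK0.ne' h3
  have hne : j * Y ≠ 0 ∨ 1 + j * φ ≠ 0 := by
    rcases eq_or_ne j 0 with hj | hj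
    · right; rw [hj]; simp
    · left; exact mul_ne_zero hj h.Y0.ne'
  have h1 : IsC (lat l' p') (S.u - j • (S.v + l))
      (Int.gcd (cr (S.u - j • (S.v + l)) l') (cr (S.u - j • (S.v + l)) p') : ℕ) := by
    refine isC_lat ?_
    rw [e4, e5]
    rcases hne with h1 | h1
    · exact Or.inl (mul_ne_zero hc0.ne' h1)
    · exact Or.inr (mul_ne_zero hc0.ne' h1)
  have h2 : (Int.gcd (j * Y) (1 + j * φ) : ℤ) = Int.gcd Y (1 + j * φ) := by
    have h3 : IsCoprime j (1 + j * φ) := ⟨-φ, 1, by ring⟩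
    rw [Int.isCoprime_iff_gcd_eq_one] at h3
    have : Int.gcd (j * Y) (1 + j * φ) = Int.gcd Y (1 + j * φ) := by
      rw [mul_comm]
      exact Int.gcd_mul_left_left_of_gcd_eq_one h3
    rw [this]
  show IsC S.L' (S.u - j • (S.v + l)) _
  rw [h.L'_eq]
  rw [e4, e5, Int.gcd_mul_left] at h1
  push_cast at h1
  rw [abs_of_pos hc0, h2] at h1
  exact h1

/-- the V-twisted state is again a frame if `Y` is prime to `1 + j φ` -/
theorem KF.vtw (h : KF K S a' b c A a e f Y φ l p l' p') {j : ℤ} (hj : IsCoprime Y (1 + j * φ)) :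
    ∃ (φ2 : ℤ) (l2' p2' : Z2),
      KF K (vst S l p j) a' b c A a e (f + j * (a + b - A)) Y φ2 l (p - j • S.v) l2' p2' := by
  have h1 := h.vseq j
  have hc : IsC (vst S l p j).L' (vst S l p j).u c := by
    have := h.vst_c j
    rw [Int.isCoprime_iff_gcd_eq_one] at hj
    rw [hj] at this
    simpa using this
  have h2 : ExtB (vst S l p j) a' b c := h.ext.of_eq h1 h.ext.ha' h.ext.con (h.vst_b j)
    (by rw [h.vst_A]; exact h.Ab) hc
  obtain ⟨l2, p2, l2', p2', ad2⟩ := exists_Ad h1.ok'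
  have ad3 : Ad (vst S l p j) l (p - j • S.v) l2' p2' := by
    refine ⟨rfl, ad2.hL', h.lv, ?_, ?_, ad2.h4, ad2.h5, ad2.h6, ad2.hA⟩
    · rw [h.vst_e]; exact h.e0
    · show 0 < cr (p - j • S.v) S.v
      rw [cr_sub_left, cr_smul_left, cr_self, h.hb]
      have := h.b0; linarith
  obtain ⟨K2, Y2, φ2, h3⟩ := h2.KF ad3
  have g1 : cr (p - j • S.v) l = a := by
    rw [cr_sub_left, cr_smul_left, h.ha, cr_swap S.v l, h.lv]; ring
  rw [h.vst_A, h.vst_e, g1, h.vst_f] at h3
  have hK2 : K2 = K := by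
    have k1 := h3.hc
    rw [← h.hc] at k1
    exact mul_right_cancel₀ h.c0.ne' k1
  subst hK2
  have hY2 : Y2 = Y := by
    have k1 := h3.hy
    rw [h.hy] at k1
    exact (mul_right_cancel₀ h.c0.ne' k1).symm
  subst hY2
  exact ⟨φ2, l2', p2', h3⟩

/-! ## H-twists -/

theorem KF.alw_odd (h : KF K S a' b c A a e f Y φ l p l' p') {q : ℕ} (hq : q.Prime)
    (h2 : q ≠ 2 ∨ ¬ (q : ℤ) ∣ c) : ∃ i : ℤ, ¬ (q : ℤ) ∣ i ∧ Alw l' p' S.u q i := by
  have hcl : Con1 (lat l' p') := by rw [← h.L'_eq]; exact h.ext.con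
  rcases h2 with h2 | h2
  · exact Alw.exists_odd hcl hq h2
  · exact ⟨1, prime_not_dvd_one hq, Alw.of_not_dvd (by rw [h.up']; exact h2) 1⟩

/-- H-rigidity at the prime `q` -/
theorem KF.hrig (h : KF K S a' b c A a e f Y φ l p l' p') {q : ℕ} (hq : q.Prime)
    (h2 : ∃ i : ℤ, ¬ (q : ℤ) ∣ i ∧ Alw l' p' S.u q i) {k : ℕ}
    (hk : (q : ℤ) ^ k ∣ b) :
    K * (q : ℤ) ^ k ∣ (K + Y) * e ∧ K * (q : ℤ) ^ k ∣ (K + Y) * f := by
  obtain ⟨h3, h4⟩ := h.ext.hrigAt h.ext.ok.seq h.ext.ha' h.ext.con h.ext.hb h.ad hq h2 hk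
  have key : ∀ z : Z2, K * cr (S.u + l') z = (K + Y) * cr S.u z := by
    intro z
    have h5 := congrArg (fun x => cr x z) h.hl'
    simp only [cr_smul_left] at h5
    rw [cr_add_left, mul_add, h5]; ring
  constructor
  · rw [← h.he, ← key]; exact mul_dvd_mul_left K h3
  · rw [← h.hf, ← key]; exact mul_dvd_mul_left K h4

/-- H-rigidity in the V-twisted states, for all classes `j` -/
theorem KF.hrigV (h : KF K S a' b c A a e f Y φ l p l' p') {j g : ℤ}
    (hg : g = Int.gcd Y (1 + j * φ)) {q : ℕ} (hq : q.Prime) (h2 : q ≠ 2 ∨ ¬ (q : ℤ) ∣ c * g)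
    {k : ℕ} (hk : (q : ℤ) ^ k ∣ b) :
    K * ((q : ℤ) ^ k * g) ∣ (K * g + Y) * e ∧
      K * ((q : ℤ) ^ k * g) ∣ (K * g + Y) * (f + j * (a + b - A)) := by
  have hc0 := h.c0
  have h3 := h.vst_c j
  rw [← hg] at h3
  have key : ∀ w ∈ (vst S l p j).L,
      K * ((q : ℤ) ^ k * g) ∣ (K * g + Y) * cr (vst S l p j).u w := by
    intro w hw
    have h4 := h.ext.hrigAt_mul (h.vseq j) h.ext.ha' h.ext.con (h.vst_b j) h3 hq h2 hk hw
    have h5 := mul_dvd_mul_left K h4
    have e1 : K * ((q : ℤ) ^ k * (c * g)) = c * (K * ((q : ℤ) ^ k * g)) := by ring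
    have e2 : K * ((c * g + a') * cr (vst S l p j).u w) =
        c * ((K * g + Y) * cr (vst S l p j).u w) := by
      linear_combination (cr (vst S l p j).u w) * h.hy
    rw [e1, e2] at h5
    exact (mul_dvd_mul_iff_left hc0.ne').1 h5
  constructor
  · have := key l (mem_lat.2 ⟨1, 0, by module⟩)
    rwa [h.vst_e] at this
  · have := key (p - j • S.v) (mem_lat.2 ⟨0, 1, by module⟩)
    rwa [h.vst_f] at this

/-! ## Right exits of level `n` -/

/-- the vector after the exit -/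
def xvK (S : PSt) (l' p' : Z2) (n q τ : ℤ) : Z2 := S.v + q • S.u + τ • l' + n • p'

/-- the right lattice after the exit -/
def xLK (S : PSt) (l' p' : Z2) (n τ : ℤ) : AddSubgroup Z2 := lat (l' - n • S.u) (p' + τ • S.u)

/-- `K v^ = K v + n (v + l) + W u`, `W = K q + τ Y + n φ` -/
theorem KF.xvK_smul (h : KF K S a' b c A a e f Y φ l p l' p') (n q τ : ℤ) :
    K • xvK S l' p' n q τ = K • S.v + n • (S.v + l) + (K * q + τ * Y + n * φ) • S.u := by
  have e1 : K • xvK S l' p' n q τ = K • S.v + (K * q) • S.u + τ • (K • l') + n • (K • p') := by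
    unfold xvK; module
  rw [e1, h.hl', h.hp']; module

/-- EXIT of level `n` -/
theorem KF.exit (h : KF K S a' b c A a e f Y φ l p l' p') {n o t i : ℤ} (hn : 0 ≤ n)
    (ho : o = 1 ∨ o = -1) (hco : IsCoprime t n)
    (h1 : K * n * c < o * (t * Y * A + n * (φ * A - i * (Y * c + K * c - K * A))))
    (h2 : o * (t * Y * A + n * (φ * A - i * (Y * c + K * c - K * A))) ≤ Y * c) :
    SEq S ⟨S.L, S.u, xvK S l' p' n (o + i * (1 + n)) (t + i), xLK S l' p' n (t + i)⟩ ∧
      IsC (xLK S l' p' n (t + i)) S.u c := by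
  have hK0 := h.K0
  have e1 := h.up'
  have e2 := h.l'v
  have e3 := h.p'v
  have e4 := h.lp'
  have key : K * (o * (t * cr l' S.v + n * (cr p' S.v -
      i * (cr l' p' + cr S.u p' - cr S.u S.v)))) =
      o * (t * Y * A + n * (φ * A - i * (Y * c + K * c - K * A))) := by
    rw [e4, e1, h.hA]
    linear_combination (o * t) * e2 + (o * n) * e3 - (o * n * i) * h.hy
  obtain ⟨T', k1, k2, k3, k4, k5, k6⟩ := h.ad.rexitSt h.ext.ok (by
      rw [e1, h.hA]; exact h.Ac) (n := n) (i := i) (o := o) (t := t) hn ho hco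
    (by
      have h3 : K * (n * cr S.u p') < K * (o * (t * cr l' S.v + n * (cr p' S.v -
          i * (cr l' p' + cr S.u p' - cr S.u S.v)))) := by
        rw [key, e1]
        linarith
      exact lt_of_mul_lt_mul_left h3 hK0.le)
    (by
      have h3 : K * (o * (t * cr l' S.v + n * (cr p' S.v -
          i * (cr l' p' + cr S.u p' - cr S.u S.v)))) ≤ K * cr l' p' := by
        rw [key, e4, h.hy]
        exact h2
      exact le_of_mul_le_mul_left h3 hK0)
  obtain ⟨L2, u2, v2, L2'⟩ := T'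
  dsimp only at k2 k3 k4 k5 k6
  subst k2 k3
  have f1 : v2 = xvK S l' p' n (o + i * (1 + n)) (t + i) := k4
  have f2 : L2' = xLK S l' p' n (t + i) := k5
  rw [e1] at k6
  subst f1 f2
  exact ⟨k1, k6⟩

/-- the same with `Q`, `A Q = (Y + K) c`, and `ω = t Y + n φ + i n (K - Q)`:
the window is `K n c < o A ω ≤ Y c` -/
theorem KF.exitQ (h : KF K S a' b c A a e f Y φ l p l' p') {n o t i ω Q : ℤ} (hn : 0 ≤ n)
    (ho : o = 1 ∨ o = -1) (hco : IsCoprime t n) (hQ : A * Q = (Y + K) * c)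
    (hω : ω = t * Y + n * φ + i * n * (K - Q)) (h1 : K * n * c < o * A * ω)
    (h2 : o * A * ω ≤ Y * c) :
    SEq S ⟨S.L, S.u, xvK S l' p' n (o + i * (1 + n)) (t + i), xLK S l' p' n (t + i)⟩ ∧
      IsC (xLK S l' p' n (t + i)) S.u c := by
  have e : o * (t * Y * A + n * (φ * A - i * (Y * c + K * c - K * A))) = o * A * ω := by
    rw [hω]
    linear_combination (o * n * i) * hQ
  exact h.exit hn ho hco (by rw [e]; exact h1) (by rw [e]; exact h2)

/-- `W = ω + K o + i (Y + K + n Q)` -/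
theorem KF.W_eq {n o t i ω Q : ℤ} (hω : ω = t * Y + n * φ + i * n * (K - Q)) :
    K * (o + i * (1 + n)) + (t + i) * Y + n * φ = ω + K * o + i * (Y + K + n * Q) := by
  rw [hω]; ring

theorem KF.xA (h : KF K S a' b c A a e f Y φ l p l' p') (n q τ : ℤ) :
    cr S.u (xvK S l' p' n q τ) = A + n * c := by
  rw [xvK, cr_add_right, cr_add_right, cr_add_right, cr_smul_right, cr_smul_right, cr_smul_right,
    cr_self, h.ad.h4, h.up', h.hA]; ring

theorem KF.xl (h : KF K S a' b c A a e f Y φ l p l' p') {n q τ W : ℤ}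
    (hW : W = K * q + τ * Y + n * φ) : K * cr (xvK S l' p' n q τ) l = W * e := by
  have h1 := congrArg (fun z => cr z l) (h.xvK_smul n q τ)
  simp only [cr_smul_left, cr_add_left] at h1
  rw [h1, cr_self, cr_swap S.v l, h.lv, h.he, hW]; ring

theorem KF.xp (h : KF K S a' b c A a e f Y φ l p l' p') {n q τ W : ℤ}
    (hW : W = K * q + τ * Y + n * φ) :
    K * cr (xvK S l' p' n q τ) p = -((n + K) * b + n * a - W * f) := by
  have h1 := congrArg (fun z => cr z p) (h.xvK_smul n q τ)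
  simp only [cr_smul_left, cr_add_left] at h1
  rw [h1, cr_swap S.v p, h.hb, cr_swap l p, h.ha, h.hf, hW]; ring

/-- the gap after the exit -/
theorem KF.xgap (h : KF K S a' b c A a e f Y φ l p l' p') {n q τ W κ : ℤ}
    (hW : W = K * q + τ * Y + n * φ) (hκ : IsC S.L (xvK S l' p' n q τ) κ) {d : ℤ} :
    d ∣ κ ↔ K * d ∣ W * e ∧ K * d ∣ (n + K) * b + n * a - W * f := by
  have hK0 := h.K0
  rw [← h.xl hW, ← dvd_neg (b := (n + K) * b + n * a - W * f), ← h.xp hW,
    mul_dvd_mul_iff_left hK0.ne', mul_dvd_mul_iff_left hK0.ne']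
  constructor
  · intro hd
    exact ⟨hd.trans (hκ.2.1 l (by rw [h.L_eq]; exact mem_lat.2 ⟨1, 0, by module⟩)),
      hd.trans (hκ.2.1 p (by rw [h.L_eq]; exact mem_lat.2 ⟨0, 1, by module⟩))⟩
  · rintro ⟨h1, h2⟩
    obtain ⟨w, hw, hw2⟩ := hκ.2.2
    rw [← hw2]
    rw [h.L_eq] at hw
    obtain ⟨m, k, rfl⟩ := mem_lat.1 hw
    rw [cr_add_right, cr_smul_right, cr_smul_right]
    exact dvd_add (h1.mul_left _) (h2.mul_left _)

theorem KF.exists_kap {n q τ : ℤ} {L2 : AddSubgroup Z2}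
    (hS : SEq S ⟨S.L, S.u, xvK S l' p' n q τ, L2⟩) : ∃ κ, IsC S.L (xvK S l' p' n q τ) κ := by
  obtain ⟨l2, p2, l2', p2', ad2⟩ := exists_Ad hS.ok'
  exact ⟨_, ad2.isC⟩

theorem KF.xarea (h : KF K S a' b c A a e f Y φ l p l' p') {n τ : ℤ} (hny : n * c < a') :
    IsArea (xLK S l' p' n τ) (a' - n * c) := by
  refine ⟨by linarith, p' + τ • S.u, l' - n • S.u, ?_, ?_⟩
  · rw [cr_sub_left, cr_add_right, cr_add_right, cr_smul_right, cr_smul_left, cr_smul_left,
      cr_smul_right, cr_self, cr_swap l' S.u, h.ad.h4, h.up', h.lp']; ring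
  · rw [xLK, lat_comm]

/-- `κ` divides `A + n c` if this holds at the primes of `a` -/
theorem KF.kap_dvd (h : KF K S a' b c A a e f Y φ l p l' p') {n q τ κ : ℤ}
    (hκ : IsC S.L (xvK S l' p' n q τ) κ)
    (hloc : ∀ r : ℕ, r.Prime → (r : ℤ) ∣ a → ∀ k : ℕ, (r : ℤ) ^ k ∣ κ → (r : ℤ) ^ k ∣ A + n * c) :
    κ ∣ A + n * c := by
  refine dvd_of_prime_pow fun r k hr hk => ?_
  by_cases hra : (r : ℤ) ∣ a
  · exact hloc r hr hra k hk
  · rw [← h.xA n q τ]
    exact (Dz.of_isC h.area hκ hr hra hk).cr_right S.u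

/-- the vector `D` -/
theorem KF.exists_D (h : KF K S a' b c A a e f Y φ l p l' p') {n q τ κ : ℤ}
    (hκ : IsC S.L (xvK S l' p' n q τ) κ) (hd : κ ∣ A + n * c) :
    ∃ D : Z2, κ • D = (a + (A + n * c)) • xvK S l' p' n q τ := by
  have hDz : Dz κ ((a + (A + n * c)) • xvK S l' p' n q τ) := by
    rw [Dz.iff]
    intro z
    rw [cr_smul_left, add_mul]
    refine dvd_add ?_ (hd.mul_right _)
    have h3 := hκ.2.1 _ (h.area.smul_mem z)
    rwa [cr_smul_right] at h3
  obtain ⟨D, hD⟩ := hDz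
  exact ⟨D, hD.symm⟩

/-- END 1, the criterion (R''): the powers `s ^ m | c`, `s` not dividing `A`, divide the content of
the right lattice after the exit -/
theorem KF.rcont {N : ℕ} (hN : N.Prime) (h : KF K S a' b c A a e f Y φ l p l' p')
    (hv : a + A + a' = N) (hno : ∀ d : ℤ, 0 < d → d ∣ c → A ≤ d → d = c) {n o t i : ℤ}
    (hn : 0 ≤ n) (ho : o = 1 ∨ o = -1) (hco : IsCoprime t n)
    (h1 : K * n * c < o * (t * Y * A + n * (φ * A - i * (Y * c + K * c - K * A))))
    (h2 : o * (t * Y * A + n * (φ * A - i * (Y * c + K * c - K * A))) ≤ Y * c) {κ : ℤ}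
    (hκ : IsC S.L (xvK S l' p' n (o + i * (1 + n)) (t + i)) κ) (hd : κ ∣ A + n * c)
    {s m : ℕ} (hs : s.Prime) (hm0 : 0 < m) (hm : (s : ℤ) ^ m ∣ c) (hsA : ¬ (s : ℤ) ∣ A) :
    Dz ((s : ℤ) ^ m) (l' - n • S.u) ∧ Dz ((s : ℤ) ^ m) (p' + (t + i) • S.u) := by
  have hK0 := h.K0
  have e1 := h.up'
  have e2 := h.l'v
  have e3 := h.p'v
  have e4 := h.lp'
  have key : K * (o * (t * cr l' S.v + n * (cr p' S.v -
      i * (cr l' p' + cr S.u p' - cr S.u S.v)))) =
      o * (t * Y * A + n * (φ * A - i * (Y * c + K * c - K * A))) := by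
    rw [e4, e1, h.hA]
    linear_combination (o * t) * e2 + (o * n) * e3 - (o * n * i) * h.hy
  refine h.ext.rexit_content hN h.ad (by rw [h.ha, h.hA, e4]; exact hv) (by rw [h.hA]; exact hno)
    hn ho hco ?_ ?_ hκ (by rw [h.hA]; exact hd) hs hm0 hm (by rw [h.hA]; exact hsA)
  · have h3 : K * (n * cr S.u p') < K * (o * (t * cr l' S.v + n * (cr p' S.v -
          i * (cr l' p' + cr S.u p' - cr S.u S.v)))) := by
      rw [key, e1]
      linarith
    exact lt_of_mul_lt_mul_left h3 hK0.le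
  · have h3 : K * (o * (t * cr l' S.v + n * (cr p' S.v -
          i * (cr l' p' + cr S.u p' - cr S.u S.v)))) ≤ K * cr l' p' := by
      rw [key, e4, h.hy]
      exact h2
    exact le_of_mul_le_mul_left h3 hK0

/-- END 2: content at most two -/
theorem KF.fin2 {N : ℕ} (hN : N.Prime) (h : KF K S a' b c A a e f Y φ l p l' p')
    (hv : a + A + a' = N) {n q τ κ : ℤ} (hny : n * c < a')
    (hS : SEq S ⟨S.L, S.u, xvK S l' p' n q τ, xLK S l' p' n τ⟩)
    (hκ : IsC S.L (xvK S l' p' n q τ) κ) (hd : κ ∣ A + n * c)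
    (hD : ∀ r : ℕ, r.Prime → (r : ℤ) ∣ κ → (r : ℤ) ∣ a → ∀ D : Z2,
      κ • D = (a + (A + n * c)) • xvK S l' p' n q τ → ¬ Dz r D)
    (hodd : ∀ r : ℕ, r.Prime → r ≠ 2 → ¬ (Dz r (l' - n • S.u) ∧ Dz r (p' + τ • S.u)))
    (h4 : ¬ (Dz 4 (l' - n • S.u) ∧ Dz 4 (p' + τ • S.u))) :
    ∃ (T : PSt) (d : ℤ), SEq S T ∧ IsC T.L T.v d ∧ d ≤ 2 := by
  obtain ⟨D, hDD⟩ := h.exists_D hκ hd
  have hA1 := h.xA n q τ
  have hvol : a + cr S.u (xvK S l' p' n q τ) + (a' - n * c) = N := by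
    rw [hA1, ← hv]; ring
  refine SEq.wc_end2 hN hS h.area (h.xarea hny) hvol hκ (by rw [hA1]; exact hd)
    (by rw [hA1]; exact hDD) (fun r hr h1 h2 => hD r hr h1 h2 D hDD) (P := fun d => d ≤ 2)
    (fun d hd0 hdz => ?_)
  obtain ⟨m, rfl⟩ := Int.eq_ofNat_of_zero_le hd0.le
  by_contra hgt
  have h5 : ∀ r : ℕ, r.Prime → r ∣ m → r = 2 := by
    intro r hr hrm
    by_contra h2
    refine hodd r hr h2 (dz_lat.1 fun w hw => ?_)
    exact (hdz w hw).trans' (by exact_mod_cast hrm)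
  have h6 : ¬ 4 ∣ m := fun h7 => h4 (dz_lat.1 fun w hw => (hdz w hw).trans' (by exact_mod_cast h7))
  have hm3 : 3 ≤ m := by omega
  obtain ⟨q, hq, hqm⟩ := Nat.exists_prime_and_dvd (show m ≠ 1 by omega)
  have := h5 q hq hqm
  subst this
  obtain ⟨k, rfl⟩ := hqm
  have hk1 : k ≠ 1 := by rintro rfl; omega
  obtain ⟨q, hq, hqk⟩ := Nat.exists_prime_and_dvd hk1
  have := h5 q hq (hqk.mul_left _)
  subst this
  exact h6 (by obtain ⟨j, rfl⟩ := hqk; exact ⟨j, by ring⟩)

/-- the content after the exit: a power of a prime `r` not dividing `K` divides the right lattice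
only if it divides `Y - n K` (unless `r | u`) and `φ + K τ` modulo `v + l` -/
theorem KF.content (h : KF K S a' b c A a e f Y φ l p l' p') {d n τ : ℤ} (hd : IsCoprime d K) :
    (Dz d (l' - n • S.u) ∧ Dz d (p' + τ • S.u)) ↔
      (Dz d ((Y - n * K) • S.u) ∧ Dz d ((φ + K * τ) • S.u + (S.v + l))) := by
  have e1 : K • (l' - n • S.u) = (Y - n * K) • S.u := by
    have : K • (l' - n • S.u) = K • l' - (n * K) • S.u := by module
    rw [this, h.hl']; module
  have e2 : K • (p' + τ • S.u) = (φ + K * τ) • S.u + (S.v + l) := by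
    have : K • (p' + τ • S.u) = K • p' + (K * τ) • S.u := by module
    rw [this, h.hp']; module
  have key : ∀ z : Z2, Dz d (K • z) ↔ Dz d z := by
    intro z
    constructor
    · intro h1
      rw [Dz.iff] at h1 ⊢
      intro w
      have h2 := h1 w
      rw [cr_smul_left] at h2
      exact hd.dvd_of_dvd_mul_left h2
    · exact fun h1 => h1.smul K
  rw [← e1, ← e2, key, key]

end Pool.Agent.H4G
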