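import Pool.Agent.H4G.Arith.KVisCore
import Pool.Agent.H4G.Arith.KFr

/-!
# LINE B, general `K`: V-rigidity of the gap (helper29)
-/

set_option autoImplicit false

namespace Pool.Agent.H4G

variable {K : ℤ} {S : PSt} {a' b c A a e f Y φ : ℤ} {l p l' p' : Z2}

theorem KF.D0 (h : KF K S a' b c A a e f Y φ l p l' p') {N : ℕ} (hN : N.Prime)
    (hv : a + A + a' = N) {q : ℕ} (hq : q.Prime) (hK : ¬ (q : ℤ) ∣ K) (hb : (q : ℤ) ∣ b)
    (he : (q : ℤ) ∣ e) : ¬ (q : ℤ) ∣ a + b - A := by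
  have hpi := Nat.prime_iff_prime_int.1 hq
  intro h1
  by_cases hA : (q : ℤ) ∣ A
  · have hc : (q : ℤ) ∣ c := by
      have h2 : (q : ℤ) ∣ K * c := by rw [h.hc]; exact dvd_add hA he
      exact (hpi.dvd_or_dvd h2).resolve_left hK
    apply h.not_a hN hv hq hK hA hc
    have : a = (a + b - A) - b + A := by ring
    rw [this]
    exact dvd_add (dvd_sub h1 hb) hA
  · have h2 : (q : ℤ) ∣ a * A := by rw [h.aA]; exact he.mul_right _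
    have h3 : (q : ℤ) ∣ a := (hpi.dvd_or_dvd h2).resolve_right hA
    apply hA
    have : A = a + b - (a + b - A) := by ring
    rw [this]
    exact dvd_sub (dvd_add h3 hb) h1

/-- **(V1)** -/
theorem KF.visA (h : KF K S a' b c A a e f Y φ l p l' p') {N : ℕ} (hN : N.Prime)
    (hv : a + A + a' = N) {q : ℕ} (hq : q.Prime) (hq2 : q ≠ 2) (hK : ¬ (q : ℤ) ∣ K) {k : ℕ}
    (hk : (q : ℤ) ^ k ∣ b) (j : ℤ) : (q : ℤ) ^ k ∣ K * (Int.gcd Y (1 + j * φ) : ℤ) + Y := by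
  rcases Nat.eq_zero_or_pos k with hk0 | hk0
  · rw [hk0, pow_zero]; exact one_dvd _
  have hqb : (q : ℤ) ∣ b := (dvd_pow_self _ hk0.ne').trans hk
  refine KVis.core (f := f) hq hq2 hK (fun he => h.D0 hN hv hq hK hqb he) (fun j => ?_) j
  obtain ⟨h1, h2⟩ := h.hrigV (j := j) rfl hq (Or.inl hq2) hk
  exact ⟨((dvd_mul_right _ _).trans (dvd_mul_left _ K)).trans h1,
    ((dvd_mul_right _ _).trans (dvd_mul_left _ K)).trans h2⟩

/-- (V1) for `j = 0` -/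
theorem KF.visA0 (h : KF K S a' b c A a e f Y φ l p l' p') {N : ℕ} (hN : N.Prime)
    (hv : a + A + a' = N) {q : ℕ} (hq : q.Prime) (hq2 : q ≠ 2) (hK : ¬ (q : ℤ) ∣ K) {k : ℕ}
    (hk : (q : ℤ) ^ k ∣ b) : (q : ℤ) ^ k ∣ K + Y :=
  KVis.core0 fun j => h.visA hN hv hq hq2 hK hk j

/-- **(V2)** -/
theorem KF.vmob (h : KF K S a' b c A a e f Y φ l p l' p') {N : ℕ} (hN : N.Prime)
    (hv : a + A + a' = N) {r : ℕ} (hr : r.Prime) (h1 : (r : ℤ) ∣ Y) (h2 : ¬ (r : ℤ) ∣ φ)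
    {q : ℕ} (hq : q.Prime) (hq2 : q ≠ 2) (hK : ¬ (q : ℤ) ∣ K) {k : ℕ} (hk : (q : ℤ) ^ k ∣ b) :
    (q : ℤ) ^ k ∣ K * (r - 1) ∧ (q : ℤ) ^ k ∣ r - 1 :=
  KVis.mob hq hr h.Y0.ne' hK (fun j => h.visA hN hv hq hq2 hK hk j) h1 h2

end Pool.Agent.H4G
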