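import Pool.Agent.H4G.Arith.K2Two
import Pool.Agent.H4G.Arith.KVis
import Pool.Agent.H4G.Arith.KM

/-!
# LINE B, `K = 2`: rigidity of `b` at the prime two (page K2L1 of helper40, section A; helper5)
-/

set_option autoImplicit false

namespace Pool.Agent.H4G

variable {S : PSt} {a' b c A a e f Y φ : ℤ} {l p l' p' : Z2}

theorem odd_cancel' {x y : ℤ} {k : ℕ} (hx : ¬ (2 : ℤ) ∣ x) (h : (2 : ℤ) ^ k ∣ y * x) :
    (2 : ℤ) ^ k ∣ y := odd_cancel hx (by rwa [mul_comm] at h)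

/-- type I: `a` odd implies `b` odd -/
theorem KF.typeI_b (h : KF 2 S a' b c A a e f Y φ l p l' p') {N : ℕ} (hN : N.Prime)
    (hv : a + A + a' = N) (hAb : A < b) (ha2 : ¬ (2 : ℤ) ∣ a) : ¬ (2 : ℤ) ∣ b := by
  intro hb2
  have hc := h.hc
  -- `A` and `e` are even
  have hA2 : (2 : ℤ) ∣ A := by
    have h1 : (2 : ℤ) ∣ a * A := by rw [h.aA]; exact hb2.mul_left _
    exact (two_mul_of h1).resolve_left ha2
  have he2 : (2 : ℤ) ∣ e := by omega
  -- `l ≠ 0`, `v = 0` modulo 2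
  have hl : ¬ Dz 2 l := by
    intro h1
    apply ha2
    rw [← h.ha]
    exact h1.cr_right p
  have hp : ¬ Dz 2 p := by
    intro h1
    apply ha2
    rw [← h.ha]
    exact h1.cr_left l
  have hv0 : Dz 2 S.v := by
    by_contra h1
    have h2 : Dz 2 (l - S.v) := two_par (by rw [h.lv]; exact dvd_zero _) hl h1
    have h3 : Dz 2 (p - S.v) := two_par (by rw [h.hb]; exact hb2) hp h1
    apply ha2
    have h4 : Dz 2 (p - l) := by
      have e1 : p - l = (p - S.v) - (l - S.v) := by module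
      rw [e1]; exact h3.sub h2
    have h5 := h4.cr_left l
    rw [cr_sub_left, cr_self, h.ha, sub_zero] at h5
    exact h5
  -- `φ u + l = 0` modulo 2
  have h1 : Dz 2 (φ • S.u + l) := by
    have e1 : φ • S.u + l = (2 : ℤ) • p' - S.v := by rw [h.hp']; module
    rw [e1]
    exact (Dz.of_dvd (dvd_refl 2) p').sub hv0
  have hφ : ¬ (2 : ℤ) ∣ φ := by
    intro h2
    apply hl
    have e1 : l = (φ • S.u + l) - φ • S.u := by module
    rw [e1]
    exact h1.sub (Dz.of_dvd h2 _)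
  have hu : ¬ Dz 2 S.u := by
    intro h2
    apply hl
    have e1 : l = (φ • S.u + l) - φ • S.u := by module
    rw [e1]
    exact h1.sub (h2.smul φ)
  have hY : (2 : ℤ) ∣ Y := by
    have h2 : Dz 2 (Y • S.u) := by
      rw [← h.hl']; exact Dz.of_dvd (dvd_refl 2) _
    have h3 : Dz ((2 : ℕ) : ℤ) (Y • S.u) := by exact_mod_cast h2
    rcases h3.mul_prime Nat.prime_two with h4 | h4
    · exact_mod_cast h4
    · exact absurd (by exact_mod_cast h4) hu
  -- `b` is a power of two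
  have key : ∀ q : ℕ, q.Prime → q ≠ 2 → ¬ (q : ℤ) ∣ b := by
    intro q hq hq2 hqb
    have hq2' : ¬ (q : ℤ) ∣ 2 := by
      intro h3
      have h4 : q ∣ 2 := by exact_mod_cast h3
      exact hq2 ((Nat.prime_dvd_prime_iff_eq hq Nat.prime_two).1 h4)
    have h3 := (h.vmob hN hv Nat.prime_two (by exact_mod_cast hY) (by exact_mod_cast hφ) hq hq2
      hq2' (k := 1) (by simpa using hqb)).2
    rw [pow_one] at h3
    have h4 : ((2 : ℕ) : ℤ) - 1 = 1 := by norm_num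
    rw [h4] at h3
    exact prime_not_dvd_one hq h3
  have hbA : b ∣ A := by
    refine dvd_of_prime_pow fun q k hq hk => ?_
    by_cases hk0 : k = 0
    · rw [hk0, pow_zero]; exact one_dvd _
    by_cases hq2 : q = 2
    · subst hq2
      have h3 : (2 : ℤ) ^ k ∣ a * A := by
        rw [h.aA]
        push_cast at hk
        exact hk.mul_left _
      push_cast
      exact odd_cancel ha2 h3
    · exact absurd ((dvd_pow_self _ hk0).trans hk) (key q hq hq2)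
  have := Int.le_of_dvd h.A0 hbA
  omega

/-- type P, `4 ∤ Y` -/
theorem KF.rigP (h : KF 2 S a' b c A a e f Y φ l p l' p') {N : ℕ} (hN : N.Prime)
    (hv : a + A + a' = N) (hA2 : ¬ (2 : ℤ) ∣ A) (ha2 : (2 : ℤ) ∣ a) (hY4 : ¬ (4 : ℤ) ∣ Y) {k : ℕ}
    (hk : (2 : ℤ) ^ k ∣ b) : (2 : ℤ) ^ (k + 1) ∣ Y + 2 := by
  obtain ⟨he, -, -, -, hY, hφ⟩ := h.typeP hN hv hA2 ha2
  -- `l' = (Y / 2) u` is not zero modulo 2
  have hal : ∃ i : ℤ, ¬ ((2 : ℕ) : ℤ) ∣ i ∧ Alw l' p' S.u 2 i := by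
    refine ⟨1, by norm_num, ?_⟩
    rintro ⟨h1, -⟩
    have h1 : Dz 2 l' := by exact_mod_cast h1
    obtain ⟨Y1, hY1⟩ := hY
    have h2 : l' = Y1 • S.u := by
      refine smul_inj (show (2 : ℤ) ≠ 0 by norm_num) ?_
      rw [h.hl', hY1]; module
    have h3 : Dz ((2 : ℕ) : ℤ) (Y1 • S.u) := by rw [← h2]; exact_mod_cast h1
    rcases h3.mul_prime Nat.prime_two with h4 | h4
    · apply hY4
      obtain ⟨y, hy⟩ := h4
      push_cast at hy
      exact ⟨y, by rw [hY1, hy]; ring⟩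
    · apply hA2
      have h4 : Dz 2 S.u := by exact_mod_cast h4
      rw [← h.hA]
      exact h4.cr_left _
  obtain ⟨h1, -⟩ := h.hrig Nat.prime_two hal (k := k) (by exact_mod_cast hk)
  push_cast at h1
  have h2 : (2 : ℤ) ^ (k + 1) ∣ (2 + Y) * e := by rw [pow_succ, mul_comm]; exact h1
  have h3 := odd_cancel' he h2
  rwa [add_comm 2 Y] at h3

/-- type P, `4 ∣ Y` -/
theorem KF.rigP4 (h : KF 2 S a' b c A a e f Y φ l p l' p') {N : ℕ} (hN : N.Prime)
    (hv : a + A + a' = N) (hA2 : ¬ (2 : ℤ) ∣ A) (ha2 : (2 : ℤ) ∣ a) (hY4 : (4 : ℤ) ∣ Y) :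
    ¬ (4 : ℤ) ∣ b := by
  obtain ⟨he, -, -, -, -, -⟩ := h.typeP hN hv hA2 ha2
  intro hb4
  obtain ⟨h1, -⟩ := h.ext.hrig_two h.ext.ok.seq h.ext.ha' h.ext.con h.ext.hb h.ad
  have h2 : (4 : ℤ) ∣ (2 + Y) * e := by
    rw [← h.hXl]
    exact hb4.trans h1
  have h3 : (2 : ℤ) ^ 2 ∣ (2 + Y) * e := by norm_num; exact h2
  have h4 := odd_cancel' he h3
  norm_num at h4
  omega

/-- type Q: `2 ^ k ∣ b` implies `2 ^ k ∣ Y + 2` -/
theorem KF.rigQ (h : KF 2 S a' b c A a e f Y φ l p l' p') {N : ℕ} (hN : N.Prime)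
    (hv : a + A + a' = N) (hA2 : (2 : ℤ) ∣ A) (ha2 : (2 : ℤ) ∣ a) (hc2 : ¬ (2 : ℤ) ∣ c) {k : ℕ}
    (hk : (2 : ℤ) ^ k ∣ b) : (2 : ℤ) ^ k ∣ Y + 2 := by
  obtain ⟨he2, ha', hcY⟩ := h.typeQ0 hN hv hA2 ha2
  obtain ⟨-, hY2, hY4⟩ : ¬ (2 : ℤ) ∣ c ∧ (2 : ℤ) ∣ Y ∧ ¬ (4 : ℤ) ∣ Y := by
    rcases hcY with h1 | h1
    · exact h1
    · exact absurd h1.1 hc2
  have hY24 : (4 : ℤ) ∣ Y + 2 := by omega
  -- rigidity at `j`, with `γ = 1`
  have hr0 : ∀ {S : PSt} {f φ : ℤ} {l p l' p' : Z2}, KF 2 S a' b c A a e f Y φ l p l' p' →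
      (2 : ℤ) ^ (k + 1) ∣ (Y + 2) * e ∧ (2 : ℤ) ^ (k + 1) ∣ (Y + 2) * f := by
    intro S f φ l p l' p' h
    obtain ⟨h1, h2⟩ := h.hrigV' (j := 0) (g := 1) (by simp) Nat.prime_two (by exact_mod_cast ha')
      (k := k) (by exact_mod_cast hk)
    have e1 : (2 : ℤ) * (((2 : ℕ) : ℤ) ^ k * 1) = 2 ^ (k + 1) := by push_cast; ring
    have e2 : ((2 : ℤ) * 1 + Y) * e = (Y + 2) * e := by ring
    have e3 : ((2 : ℤ) * 1 + Y) * (f + 0 * (a + b - A)) = (Y + 2) * f := by ring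
    rw [e1, e2] at h1
    rw [e1, e3] at h2
    exact ⟨h1, h2⟩
  -- a value which is `2` modulo `4`
  have hfin : ∀ {x : ℤ}, (2 : ℤ) ^ (k + 1) ∣ (Y + 2) * x → (2 : ℤ) ∣ x → ¬ (4 : ℤ) ∣ x →
      (2 : ℤ) ^ k ∣ Y + 2 := by
    intro x h1 h2 h3
    obtain ⟨x1, rfl⟩ := h2
    have hx1 : ¬ (2 : ℤ) ∣ x1 := by omega
    have h4 : (2 : ℤ) ^ k * 2 ∣ ((Y + 2) * x1) * 2 := by
      rw [← pow_succ]
      have e1 : (Y + 2) * x1 * 2 = (Y + 2) * (2 * x1) := by ring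
      rw [e1]; exact h1
    have h5 := (mul_dvd_mul_iff_right (show (2 : ℤ) ≠ 0 by norm_num)).1 h4
    exact odd_cancel' hx1 h5
  obtain ⟨h1, h2⟩ := hr0 h
  by_cases he4 : (4 : ℤ) ∣ e
  · rcases Nat.lt_or_ge k 2 with hk2 | hk2
    · have : (2 : ℤ) ^ k ∣ (2 : ℤ) ^ 2 := pow_dvd_pow _ (by omega)
      exact this.trans (by norm_num; exact hY24)
    by_cases hf2 : (2 : ℤ) ∣ f
    · by_cases hf4 : (4 : ℤ) ∣ f
      · -- `D0 = 2` modulo 4
        have hc := h.hc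
        have hA4 : ¬ (4 : ℤ) ∣ A := by omega
        have hb4 : (4 : ℤ) ∣ b := by
          have : (2 : ℤ) ^ 2 ∣ (2 : ℤ) ^ k := pow_dvd_pow _ hk2
          norm_num at this
          exact this.trans hk
        have ha4 : (4 : ℤ) ∣ a := by
          obtain ⟨A1, hA1⟩ := hA2
          obtain ⟨e1, he1⟩ := he4
          obtain ⟨b1, hb1⟩ := hb4
          have hA1o : ¬ (2 : ℤ) ∣ A1 := by omega
          have h3 : A1 * a = 4 * (2 * (e1 * b1)) := by
            have := h.aA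
            rw [hA1, he1, hb1] at this
            linarith
          have h4 : (2 : ℤ) ^ 2 ∣ A1 * a := by rw [h3]; norm_num
          have h5 := odd_cancel hA1o h4
          norm_num at h5
          exact h5
        have hD : (2 : ℤ) ∣ a + b - A ∧ ¬ (4 : ℤ) ∣ a + b - A := by omega
        by_cases hφ : (2 : ℤ) ∣ φ
        · obtain ⟨j, φ2, l2', p2', hj, h3⟩ := h.vframe Nat.prime_two 1 (fun _ h3 => by
            push_cast at h3
            omega)
          push_cast at hj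
          obtain ⟨-, h4⟩ := hr0 h3
          obtain ⟨D1, hD1⟩ := hD.1
          have hD1o : ¬ (2 : ℤ) ∣ D1 := by omega
          obtain ⟨j1, hj1⟩ : ∃ j1, j = 2 * j1 + 1 := ⟨(j - 1) / 2, by omega⟩
          have e1 : f + j * (a + b - A) = f + 4 * (j1 * D1) + 2 * D1 := by rw [hD1, hj1]; ring
          refine hfin h4 ?_ ?_
          · rw [e1]; omega
          · rw [e1]; omega
        · exfalso
          have hodd : ∀ j : ℤ, (2 : ℤ) ∣ 1 + j * φ → (2 : ℤ) ^ (k + 1) ∣ f + j * (a + b - A) := by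
            intro j hj
            set g : ℤ := (Int.gcd Y (1 + j * φ) : ℤ) with hg
            have hg2 : (2 : ℤ) ∣ g := Int.dvd_coe_gcd hY2 hj
            have hgY : g ∣ Y := Int.gcd_dvd_left ..
            have hg4 : ¬ (4 : ℤ) ∣ g := fun h3 => hY4 (h3.trans hgY)
            obtain ⟨-, h3⟩ := h.hrigV' (j := j) hg Nat.prime_two (by exact_mod_cast ha')
              (k := k) (by exact_mod_cast hk)
            push_cast at h3
            obtain ⟨g1, hg1⟩ := hg2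
            obtain ⟨Y1, hY1⟩ := hY2
            have hY1o : ¬ (2 : ℤ) ∣ Y1 := by omega
            have e1 : (2 : ℤ) * (2 ^ k * g) = 2 * (2 ^ (k + 1) * g1) := by rw [hg1]; ring
            have e2 : (2 * g + Y) * (f + j * (a + b - A)) =
                2 * ((2 * g1 + Y1) * (f + j * (a + b - A))) := by rw [hg1, hY1]; ring
            rw [e1, e2] at h3
            have h4 := (mul_dvd_mul_iff_left (show (2 : ℤ) ≠ 0 by norm_num)).1 h3
            exact odd_cancel (by omega) ((dvd_mul_right _ _).trans h4)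
          obtain ⟨φ1, hφ1⟩ : ∃ φ1, φ = 2 * φ1 + 1 := ⟨φ / 2, by omega⟩
          have h3 := hodd 1 ⟨φ1 + 1, by rw [hφ1]; ring⟩
          have h4 := hodd 3 ⟨3 * φ1 + 2, by rw [hφ1]; ring⟩
          have h5 : (2 : ℤ) ^ (k + 1) ∣ 2 * (a + b - A) := by
            have e1 : 2 * (a + b - A) = (f + 3 * (a + b - A)) - (f + 1 * (a + b - A)) := by ring
            rw [e1]; exact dvd_sub h4 h3
          have h6 : (2 : ℤ) ^ 3 ∣ 2 * (a + b - A) := (pow_dvd_pow _ (by omega)).trans h5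
          norm_num at h6
          omega
      · exact hfin h2 hf2 hf4
    · exact (pow_dvd_pow _ (Nat.le_succ k)).trans (odd_cancel' hf2 h2)
  · exact hfin h1 he2 he4

/-- type Q, `4 ∣ A`: `2 ^ k ∣ A` implies `2 ^ k ∣ b` -/
theorem KF.rigQA (h : KF 2 S a' b c A a e f Y φ l p l' p') (hA4 : (4 : ℤ) ∣ A)
    (ha2 : (2 : ℤ) ∣ a) (hc2 : ¬ (2 : ℤ) ∣ c) {k : ℕ} (hk : (2 : ℤ) ^ k ∣ A) :
    (2 : ℤ) ^ k ∣ b := by
  have hc := h.hc
  obtain ⟨a1, rfl⟩ := ha2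
  obtain ⟨e1, he1⟩ : (2 : ℤ) ∣ e := by omega
  have he1o : ¬ (2 : ℤ) ∣ e1 := by omega
  have h1 : a1 * A = e1 * b := by
    have := h.aA
    rw [he1] at this
    linarith
  have h2 : (2 : ℤ) ^ k ∣ e1 * b := by rw [← h1]; exact hk.mul_left _
  exact odd_cancel he1o h2

/-- type I: `A` and `e` have the same power of two -/
theorem KF.typeI_val (h : KF 2 S a' b c A a e f Y φ l p l' p') (ha2 : ¬ (2 : ℤ) ∣ a)
    (hb2 : ¬ (2 : ℤ) ∣ b) (k : ℕ) : (2 : ℤ) ^ k ∣ A ↔ (2 : ℤ) ^ k ∣ e := by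
  constructor
  · intro h1
    have h2 : (2 : ℤ) ^ k ∣ e * b := by rw [← h.aA]; exact h1.mul_left _
    exact odd_cancel' hb2 h2
  · intro h1
    have h2 : (2 : ℤ) ^ k ∣ a * A := by rw [h.aA]; exact h1.mul_right _
    exact odd_cancel ha2 h2

end Pool.Agent.H4G
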