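import Pool.Agent.H4G.Arith.K2Data
import Pool.Agent.H4G.Arith.K2Rig

/-!
# `K = 2`: the number data and the types (helper40's page K2L1, section B; Lean: helper64)
-/

set_option autoImplicit false

namespace Pool.Agent.H4G

variable {S : PSt} {a' b c A a e f Y φ : ℤ} {l p l' p' : Z2}

/-- the number data and the type of a frame with `K = 2` -/
theorem KF.data2 (h : KF 2 S a' b c A a e f Y φ l p l' p') {N : ℕ} (hN : N.Prime)
    (hv : a + A + a' = N) (he3 : e < 3 * A) (hAc : A < c) (hAb : A < b) :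
    ∃ g1 m1 n0 A0 b0 hh : ℕ, K2D A b c a e Y g1 m1 n0 A0 b0 hh ∧
      K2Type A c a e Y g1 m1 n0 A0 b0 hh :=
  h.data2_core hN hv he3 hAc hAb (fun h1 => h.typeI_b hN hv hAb h1)
    (fun h1 h2 h3 _ hk => h.rigP hN hv h1 h2 h3 hk) (fun h1 h2 h3 => h.rigP4 hN hv h1 h2 h3)
    (fun h1 h2 h3 _ hk => h.rigQ hN hv h1 h2 h3 hk)

end Pool.Agent.H4G
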