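import Pool.Agent.H4G.Arith.K2N1aT
set_option autoImplicit false

/-!
# Line B, K = 2, level one: the number lemma (N1a) (types with `a` odd) (helper73; statement: helper40)
-/

namespace Pool.Agent.H4G

open Finset

/-- `n0` is larger than `2 ^ (k + e3) + 1` as soon as it is at least `7` -/
theorem K2.w_two {n0 e3 : ℕ} (hn : 7 ≤ n0) (hk : 1 ≤ K2.k n0) (h3 : e3 ≤ 1)
    (hf : e3 = 1 → ¬ 3 ∣ n0) : 2 ^ (K2.k n0 + e3) + 2 ≤ n0 := by
  have hP := K2.c_prod (n0 := n0) (c := 1) (by omega) (by omega) (one_dvd _)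
  rw [one_mul] at hP
  rcases eq_or_lt_of_le hk with h1 | h1
  · rw [← h1]
    interval_cases e3
    · norm_num; omega
    · norm_num; omega
  · have h2 := K2.w_prod2 h1 h3 hf
    have h4 : 2 ≤ 2 ^ (K2.k n0 + e3) := by
      calc 2 = 2 ^ 1 := by norm_num
        _ ≤ _ := Nat.pow_le_pow_right (by norm_num) (by omega)
    rw [pow_succ] at h2
    omega

/-- `e9 = 0`, `es = 0` -/
theorem K2.n1a_zero {g1 m1 n0 A0 b0 e3 c : ℕ} (H : K2.Num g1 m1 n0 A0 b0) (hm : ¬ 2 ∣ m1)
    (hk : 1 ≤ K2.k n0) (h3 : e3 ≤ 1) (hf : e3 = 1 → ¬ 3 ∣ n0)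
    (hc : c = 1 ∨ c = 2 ∨ c = 4) (hcn : c ∣ n0)
    (hg : K2.gam g1 m1 n0 ≤ c * (m1 - g1)) (hc1 : c = 1 → ¬ 2 ∣ n0) :
    (2 * 2 ^ (K2.k n0 + e3)) * (g1 * K2.gam g1 m1 n0) ≤ (g1 * n0 - 4) * (g1 + m1) := by
  have hgm := H.gm
  have hm3 := H.m3
  have hY5 := H.Y5
  have hg0 := H.g0
  have hn0 : 0 < n0 := by
    rcases Nat.eq_zero_or_pos n0 with h | h
    · rw [h] at hY5; omega
    · exact h
  have hP := K2.c_prod hn0 hc hcn
  have hw := K2.w_prod hk h3 hf
  set W := 2 ^ (K2.k n0 + e3) with hW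
  have hcW : c * (W + 1) ≤ n0 := le_trans (Nat.mul_le_mul_left c hw) hP
  have hg2 : 2 ≤ g1 := by omega
  by_cases h4 : 4 ≤ c * g1
  · refine K2.core H hg ?_
    have h5 : g1 * (c * (W + 1)) ≤ g1 * n0 := Nat.mul_le_mul_left g1 hcW
    have h6 : g1 * (c * (W + 1)) = W * (c * g1) + c * g1 := by ring
    omega
  · have hc11 : c = 1 := by
      rcases hc with h | h | h
      · exact h
      · subst h; omega
      · subst h; omega
    subst hc11
    have hg3 : g1 = 2 ∨ g1 = 3 := by omega
    rw [one_mul] at hcW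
    by_cases h7 : 7 ≤ n0
    · refine K2.core H hg ?_
      have h8 := K2.w_two h7 hk h3 hf
      rw [← hW] at h8
      have h5 : g1 * (W + 2) ≤ g1 * n0 := Nat.mul_le_mul_left g1 h8
      have h6 : g1 * (W + 2) = W * (1 * g1) + 2 * g1 := by ring
      omega
    · have hodd := hc1 rfl
      have hn3 : n0 = 3 ∨ n0 = 5 := by
        have h8 : 2 ≤ W := by
          rw [hW]
          calc 2 = 2 ^ 1 := by norm_num
            _ ≤ _ := Nat.pow_le_pow_right (by norm_num) (by omega)
        omega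
      have hW4 : W ≤ n0 - 1 := by omega
      have hco := H.co
      refine le_trans (Nat.mul_le_mul_right _ (Nat.mul_le_mul_left 2 hW4)) ?_
      clear_value W
      rcases hg3 with rfl | rfl <;> rcases hn3 with rfl | rfl
      · have : m1 = 3 ∨ m1 = 5 := by omega
        rcases this with rfl | rfl <;> decide +kernel
      · have : m1 = 3 ∨ m1 = 5 := by omega
        rcases this with rfl | rfl <;> decide +kernel
      · have : m1 = 5 ∨ m1 = 7 := by omega
        rcases this with rfl | rfl <;> decide +kernel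
      · have : m1 = 5 ∨ m1 = 7 := by omega
        rcases this with rfl | rfl <;> decide +kernel

/-- **(N1a)** the number lemma of level one for the types with `a` odd -/
theorem K2.n1a {g1 m1 n0 A0 b0 e3 es e9 ez e4 e8 : ℕ} (H : K2.Num g1 m1 n0 A0 b0)
    (F : K2.Fl g1 m1 n0 A0 b0 e3 es e9 ez e4 e8) (hm : ¬ 2 ∣ m1) (hb : ¬ 2 ∣ b0) :
    2 ^ (K2.k n0 + e3 + es + e9 + 1) * (g1 * K2.gam g1 m1 n0) ≤ (g1 * n0 - 4) * (g1 + m1) ∨
      (n0 = 10 ∧ b0 = 5 ∧ A0 = 2 ∧ e9 = 1 ∧ 11 * (m1 - g1) + 2 = 5 * (g1 + m1) ∧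
        ∃ j, g1 + m1 = 2 ^ j) := by
  have hgm := H.gm
  have hm3 := H.m3
  have hY5 := H.Y5
  have hg0 := H.g0
  have hA0 := H.pA
  have hAb := H.Ab
  have hbn := H.bn
  have hn0 : 0 < n0 := by
    rcases Nat.eq_zero_or_pos n0 with h | h
    · rw [h] at hY5; omega
    · exact h
  have hk := K2.k_pos hn0 hb (by omega) hbn
  obtain ⟨c, hc, hcn, hg, hc4, hc1⟩ := K2.exists_c H hm
  have h3 := F.h3
  have hf : e3 = 1 → ¬ 3 ∣ n0 := fun h => (F.f3 h).2
  have hs := F.hs
  have h9 := F.h9
  interval_cases es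
  · interval_cases e9
    · left
      have h := K2.n1a_zero H hm hk h3 hf hc hcn hg hc1
      have h2 : 2 ^ (K2.k n0 + e3 + 0 + 0 + 1) = 2 * 2 ^ (K2.k n0 + e3) := by
        rw [add_zero, add_zero, pow_succ]; ring
      rw [h2]
      exact h
    · obtain ⟨hm9, hb3, hbA, hz⟩ := F.f9 rfl
      have hm99 : 9 ≤ m1 := Nat.le_of_dvd (by omega) hm9
      have hg4 : 4 ≤ g1 := by omega
      have h2 : 2 ^ (K2.k n0 + e3 + 0 + 1 + 1) = 2 * 2 ^ (K2.k n0 + e3 + 1) := by
        rw [add_zero, pow_succ]; ring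
      rw [h2]
      have hP := K2.c_prod hn0 hc hcn
      by_cases hcw : c * 2 ^ (K2.k n0 + e3 + 1) + 1 ≤ n0
      · left
        refine K2.core H hg ?_
        have h5 : g1 * (c * 2 ^ (K2.k n0 + e3 + 1) + 1) ≤ g1 * n0 := Nat.mul_le_mul_left g1 hcw
        have h6 : g1 * (c * 2 ^ (K2.k n0 + e3 + 1) + 1) = 2 ^ (K2.k n0 + e3 + 1) * (c * g1) + g1 := by
          ring
        omega
      · have hk1 : K2.k n0 = 1 := by
          by_contra hne
          apply hcw
          have h7 := K2.w_prod2 (by omega) h3 hf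
          have h8 := le_trans (Nat.mul_le_mul_left c h7) hP
          have hcpos : 0 < c := by omega
          rw [mul_add, mul_one] at h8
          omega
        have h3n : ¬ 3 ∣ n0 := by
          intro h
          have := K2.two_mem hn0 hb (by omega) hbn hb3 h
          omega
        have hW8 : 2 ^ (K2.k n0 + e3 + 1) ≤ 8 := by
          rw [hk1]
          calc 2 ^ (1 + e3 + 1) ≤ 2 ^ 3 := Nat.pow_le_pow_right (by norm_num) (by omega)
            _ = 8 := by norm_num
        have hn8 : n0 ≤ c * 8 := by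
          have : c * 2 ^ (K2.k n0 + e3 + 1) ≤ c * 8 := Nat.mul_le_mul_left c hW8
          omega
        obtain ⟨x, hx⟩ := hcn
        have hx8 : x ≤ 8 := by
          have hcpos : 0 < c := by omega
          rw [hx] at hn8
          exact Nat.le_of_mul_le_mul_left hn8 hcpos
        have hbx : b0 ∣ x := by
          have h7 : Nat.Coprime b0 c := by
            have h8 : Nat.Coprime b0 2 :=
              ((Nat.Prime.coprime_iff_not_dvd Nat.prime_two).2 hb).symm
            rcases hc with rfl | rfl | rfl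
            · exact Nat.coprime_one_right _
            · exact h8
            · exact Nat.Coprime.pow_right 2 h8
          rw [hx] at hbn
          exact h7.dvd_of_dvd_mul_left hbn
        have hx0 : 0 < x := by
          rcases Nat.eq_zero_or_pos x with h | h
          · rw [h, mul_zero] at hx; omega
          · exact h
        have hbx2 := Nat.le_of_dvd hx0 hbx
        have hb57 : (b0 = 5 ∨ b0 = 7) ∧ x = b0 := by
          have h7 : b0 = 5 ∨ b0 = 7 := by omega
          refine ⟨h7, ?_⟩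
          obtain ⟨y, hy⟩ := hbx
          rcases h7 with rfl | rfl <;> omega
        obtain ⟨hb5, hxb⟩ := hb57
        rw [hxb] at hx
        have h := K2.n1a_small H hm hm9 hbA hz hb5 hc hx hc4
        rcases h with h | ⟨e1, e2, e4', e5, e6⟩
        · left
          refine le_trans (Nat.mul_le_mul_right _ ?_) h
          omega
        · right
          exact ⟨e1, e2, e4', rfl, e5, e6⟩
  · obtain ⟨hp, hm1, hY⟩ := F.fs rfl
    have hg3 : 3 ≤ g1 := by omega
    have he9 : e9 = 0 := by
      rcases Nat.eq_zero_or_pos e9 with h | h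
      · exact h
      · exfalso
        have h1 := (F.f9 (by omega)).1
        have h2 : 3 ∣ m1 := Dvd.dvd.trans (by norm_num) h1
        have h4 := (Nat.prime_dvd_prime_iff_eq Nat.prime_three hp).1 h2
        omega
    have he3 : e3 = 0 := by
      rcases Nat.eq_zero_or_pos e3 with h | h
      · exact h
      · exfalso
        have h2 := (F.f3 (by omega)).1
        have h4 := (Nat.prime_dvd_prime_iff_eq Nat.prime_three hp).1 h2
        omega
    subst he9 he3
    left
    have hP := K2.c_prod hn0 hc hcn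
    have hw := K2.w_prod (e3 := 0) hk (by norm_num) (by norm_num)
    rw [add_zero] at hw
    have hcW : c * (2 ^ K2.k n0 + 1) ≤ n0 := le_trans (Nat.mul_le_mul_left c hw) hP
    have h2 : 2 ^ (K2.k n0 + 0 + 1 + 0 + 1) = 4 * 2 ^ K2.k n0 := by
      rw [add_zero, add_zero, pow_succ, pow_succ]; ring
    rw [h2]
    have hd : m1 - g1 = 2 := by omega
    rw [hd] at hg
    have hcpos : 0 < c := by omega
    -- `g1 c w + 4 <= g1 n0`
    have hkey : 2 ^ K2.k n0 * (c * g1) + 4 ≤ g1 * n0 := by
      by_cases h4 : 4 ≤ c * g1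
      · have h5 : g1 * (c * (2 ^ K2.k n0 + 1)) ≤ g1 * n0 := Nat.mul_le_mul_left g1 hcW
        have h6 : g1 * (c * (2 ^ K2.k n0 + 1)) = 2 ^ K2.k n0 * (c * g1) + c * g1 := by ring
        omega
      · have hc11 : c = 1 := by
          rcases hc with h | h | h
          · exact h
          · subst h; omega
          · subst h; omega
        subst hc11
        have hg33 : g1 = 3 := by omega
        subst hg33
        subst hm1
        have hodd := hc1 rfl
        rw [one_mul] at hcW
        have h8 : 2 ≤ 2 ^ K2.k n0 := by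
          calc 2 = 2 ^ 1 := by norm_num
            _ ≤ _ := Nat.pow_le_pow_right (by norm_num) hk
        by_cases h7 : 7 ≤ n0
        · have h9 := K2.w_two (e3 := 0) h7 hk (by norm_num) (by norm_num)
          rw [add_zero] at h9
          omega
        · omega
    calc 4 * 2 ^ K2.k n0 * (g1 * K2.gam g1 m1 n0) ≤ 4 * 2 ^ K2.k n0 * (g1 * (c * 2)) := by gcongr
      _ = (2 ^ K2.k n0 * (c * g1)) * 8 := by ring
      _ ≤ (g1 * n0 - 4) * (g1 + m1) := Nat.mul_le_mul (by omega) (by omega)

end Pool.Agent.H4G
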