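import Pool.Agent.H4G.Arith.K2Glue6
import Pool.Agent.H4G.Arith.K2N1a
import Pool.Agent.H4G.Arith.Full

/-!
# LINE B, `K = 2`: the good types (helper5)
-/

set_option autoImplicit false

namespace Pool.Agent.H4G

/-- the count of type I (helper73) -/
def K2.N1a : Prop := ∀ g1 m1 n0 A0 b0 : ℕ, K2.Num g1 m1 n0 A0 b0 → ¬ 2 ∣ m1 → ¬ 2 ∣ b0 →
  ∀ e3 es e9 ez e4 e8 : ℕ, K2.Fl g1 m1 n0 A0 b0 e3 es e9 ez e4 e8 →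
      2 ^ (K2.k n0 + e3 + es + e9 + 1) * (g1 * K2.gam g1 m1 n0) ≤ (g1 * n0 - 4) * (g1 + m1) ∨
      (n0 = 10 ∧ b0 = 5 ∧ A0 = 2 ∧ e9 = 1 ∧ 11 * (m1 - g1) + 2 = 5 * (g1 + m1) ∧
        ∃ j : ℕ, g1 + m1 = 2 ^ j)

variable {S : PSt} {a' b c A a e f Y φ : ℤ} {l p l' p' : Z2}

/-- `K = 2`, all types except P2, Q4L, S2 -/
theorem KF.good2_of (hn : K2.N1a) (h : KF 2 S a' b c A a e f Y φ l p l' p') (hF : S.Full)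
    {N : ℕ} (hN : N.Prime) (hv : a + A + a' = N) (hb3 : 3 ≤ b) (hAc : A < c) (hAb : A < b)
    (he3 : e < 3 * A) (hP2 : ¬ (¬ (2 : ℤ) ∣ A ∧ (2 : ℤ) ∣ a ∧ (4 : ℤ) ∣ Y))
    (hL : (2 : ℤ) ∣ A → (2 : ℤ) ∣ a → ¬ (2 : ℤ) ∣ c → ¬ ∀ w ∈ S.L, Dz 2 w) :
    ∃ (T : PSt) (d : ℤ), SEq S T ∧ IsC T.L T.v d ∧ d ≤ 2 := by
  obtain ⟨g1, m1, n0, A0, b0, hh, D, hT⟩ := h.data2 hN hv he3 hAc hAb
  rcases le_or_gt Y 2 with hY | hY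
  · exact absurd (h.small2 hF hN hv hAc D hT hY) not_false
  have hY3 : 3 ≤ Y := by omega
  obtain ⟨j, φ1, l1', p1', hj, -, h1, N1, N3⟩ := h.norm2 hN hv he3
  have hs := h.vseq j
  have hF1 := hs.full.1 hF
  suffices H : ∃ (T : PSt) (d : ℤ), SEq (vst S l p j) T ∧ IsC T.L T.v d ∧ d ≤ 2 by
    obtain ⟨T, d, k1, k2, k3⟩ := H
    exact ⟨T, d, hs.trans k1, k2, k3⟩
  rcases hT with t | t | t | t | t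
  · obtain ⟨t1, t2, t3, t4, t5⟩ := t
    exact h1.goodI hF1 hN hv hb3 hAc hAb he3 N1 N3 D hY3 t1 t3 t5
      (fun e3 es e9 ez e4 e8 F => hn g1 m1 n0 A0 b0 (D.num hY3) t3 t4 e3 es e9 ez e4 e8 F)
  · obtain ⟨t1, t2, t3, t4, t5, t6, t7, t8, t9, t10⟩ := t
    exact h1.goodP1 hF1 hN hv he3 N1 N3 D hY3 t1 t2 t3 t4 t5 t6 t7 t8 t9 t10
  · exact absurd ⟨t.1, t.2.1, t.2.2.1⟩ hP2
  · obtain ⟨t1, t2, t3, t4⟩ := t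
    refine h1.goodQ hF1 hN hv he3 N1 N3 D hY3 t1 t2 t3 (fun g1 => hL t1 t2 t3 ?_) ?_
    · have k1 : ∀ w ∈ lat l (p - j • S.v), Dz 2 w := g1
      obtain ⟨k2, k3⟩ := dz_lat.1 k1
      rw [h.L_eq]
      refine dz_lat.2 ⟨k2, ?_⟩
      have e1 : p = (p - j • S.v) + j • S.v := by module
      rw [e1]
      exact k3.add (Dz.of_dvd hj _)
    · rcases t4 with t4 | t4
      · exact Or.inl ⟨t4.1, t4.2.1, t4.2.2.1, t4.2.2.2.1⟩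
      · exact Or.inr ⟨t4.1, t4.2.1, t4.2.2.1, t4.2.2.2.2.1⟩
  · obtain ⟨t1, t2, t3, t4, t5, t6, t7, -, -⟩ := t
    exact h1.goodQ6 hF1 hN hv he3 N1 N3 D hY3 t1 t2 t3 t4 t5 t6 t7

/-- `K = 2`, the good types -/
theorem KF.good2 (h : KF 2 S a' b c A a e f Y φ l p l' p') (hF : S.Full)
    {N : ℕ} (hN : N.Prime) (hv : a + A + a' = N) (hb3 : 3 ≤ b) (hAc : A < c) (hAb : A < b)
    (he3 : e < 3 * A) (hP2 : ¬ (¬ (2 : ℤ) ∣ A ∧ (2 : ℤ) ∣ a ∧ (4 : ℤ) ∣ Y))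
    (hL : (2 : ℤ) ∣ A → (2 : ℤ) ∣ a → ¬ (2 : ℤ) ∣ c → ¬ ∀ w ∈ S.L, Dz 2 w) :
    ∃ (T : PSt) (d : ℤ), SEq S T ∧ IsC T.L T.v d ∧ d ≤ 2 :=
  h.good2_of (fun _ _ _ _ _ H hm hb _ _ _ _ _ _ F => K2.n1a H F hm hb) hF hN hv hb3 hAc hAb he3
    hP2 hL

end Pool.Agent.H4G
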