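import Pool.Agent.H4G.Arith.K2NumC
set_option autoImplicit false

/-!
# Line B, K = 2: the bad primes of LEFT in reduced numbers (statements: helper40; file: helper68)
-/

namespace Pool.Agent.H4G

open Finset

/-- `T` is a set of bad primes of LEFT; `z = g1 + m1`, `G1 = gcd (z, A0)`, `G2 = gcd (b0 - A0, m1)` -/
def K2.TB (g1 m1 n0 A0 b0 : ℕ) (T : Finset ℕ) : Prop :=
  ∀ r ∈ T, r.Prime ∧
    ((r ∣ A0 * (g1 + m1) ∧
        r ∣ (g1 + m1) / Nat.gcd (g1 + m1) A0 * ((b0 - A0) / Nat.gcd (b0 - A0) m1)) ∨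
      (r ∣ m1 ∧ ¬ r ∣ g1 * A0 ∧
        r ∣ A0 / Nat.gcd (g1 + m1) A0 * (m1 / Nat.gcd (b0 - A0) m1) ∧ r ∣ g1 * n0 - 2))

/-- LEFT applies -/
def K2.LT (g1 m1 A0 b0 : ℕ) (T : Finset ℕ) : Prop :=
  2 ^ T.card * (Nat.gcd (g1 + m1) A0 * Nat.gcd (b0 - A0) m1) < (m1 - g1) * (A0 + b0)

/-- a bad prime divides `z`, or it divides `m1` and `Y` -/
theorem K2.TB.split {g1 m1 n0 A0 b0 : ℕ} {T : Finset ℕ} (hT : K2.TB g1 m1 n0 A0 b0 T)
    (hAb : A0 < b0) (hc : Nat.Coprime A0 b0) {r : ℕ} (hr : r ∈ T) :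
    r ∣ g1 + m1 ∨ (r ∣ m1 ∧ ¬ r ∣ g1 * A0 ∧ r ∣ g1 * n0 - 2) := by
  obtain ⟨hp, ⟨h1, h2⟩ | ⟨h1, h2, _, h4⟩⟩ := hT r hr
  · left
    rcases (hp.dvd_mul).1 h1 with h3 | h3
    · rcases (hp.dvd_mul).1 h2 with h4 | h4
      · exact h4.trans (Nat.div_dvd_of_dvd (Nat.gcd_dvd_left _ _))
      · exfalso
        have h5 : r ∣ b0 - A0 := h4.trans (Nat.div_dvd_of_dvd (Nat.gcd_dvd_left _ _))
        have h6 : r ∣ b0 := by
          have := dvd_add h5 h3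
          rwa [show b0 - A0 + A0 = b0 by omega] at this
        have h7 : r ∣ Nat.gcd A0 b0 := Nat.dvd_gcd h3 h6
        rw [hc] at h7
        exact hp.one_lt.ne' (Nat.dvd_one.1 h7)
    · exact h3
  · exact Or.inr ⟨h1, h2, h4⟩

/-- `29 A0 (b0 - A0) <= 5 b0 (A0 + b0)` -/
theorem K2.quad {A0 b0 : ℕ} (hAb : A0 ≤ b0) : 29 * (A0 * (b0 - A0)) ≤ 5 * (b0 * (A0 + b0)) := by
  obtain ⟨c, rfl⟩ := Nat.exists_eq_add_of_le hAb
  rw [Nat.add_sub_cancel_left]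
  have h : (0 : ℤ) ≤ (17 * (A0 : ℤ) - 12 * c) ^ 2 := sq_nonneg _
  have h2 : (0 : ℤ) ≤ (A0 : ℤ) ^ 2 := sq_nonneg _
  have h3 : (0 : ℤ) ≤ (c : ℤ) ^ 2 := sq_nonneg _
  zify
  nlinarith

/-- LEFT applies if `5 b0 2 ^ |T| < 29 (m1 - g1)` -/
theorem K2.LT_of {g1 m1 A0 b0 : ℕ} {T : Finset ℕ} (hA : 0 < A0) (hAb : A0 < b0)
    (h : 5 * b0 * 2 ^ T.card < 29 * (m1 - g1)) : K2.LT g1 m1 A0 b0 T := by
  unfold K2.LT
  have h1 : Nat.gcd (g1 + m1) A0 ≤ A0 := Nat.gcd_le_right _ hA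
  have h2 : Nat.gcd (b0 - A0) m1 ≤ b0 - A0 := Nat.gcd_le_left _ (by omega)
  have h3 : Nat.gcd (g1 + m1) A0 * Nat.gcd (b0 - A0) m1 ≤ A0 * (b0 - A0) := Nat.mul_le_mul h1 h2
  have h4 := K2.quad hAb.le
  set G := Nat.gcd (g1 + m1) A0 * Nat.gcd (b0 - A0) m1 with hG
  set P := 2 ^ T.card with hP
  have h5 : 29 * (P * G) ≤ (5 * b0 * P) * (A0 + b0) := by
    calc 29 * (P * G) ≤ 29 * (P * (A0 * (b0 - A0))) := by gcongr
      _ = P * (29 * (A0 * (b0 - A0))) := by ring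
      _ ≤ P * (5 * (b0 * (A0 + b0))) := by gcongr
      _ = (5 * b0 * P) * (A0 + b0) := by ring
  have h6 : (5 * b0 * P) * (A0 + b0) < (29 * (m1 - g1)) * (A0 + b0) :=
    Nat.mul_lt_mul_of_pos_right h (by omega)
  have h7 : (29 * (m1 - g1)) * (A0 + b0) = 29 * ((m1 - g1) * (A0 + b0)) := by ring
  omega

/-- powers of two up to the number of odd primes of `z < 735` -/
def K2.W (z : ℕ) : ℕ := if z < 15 then 2 else if z < 105 then 4 else 8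

theorem K2.seven_odd (Q : Finset ℕ) (hQ : ∀ r ∈ Q, r.Prime) (h2 : 2 ∉ Q) :
    15 * 7 ^ Q.card ≤ 49 * ∏ r ∈ Q, r := by
  refine K1.pow_card {3, 5} Q (fun r hr h4 => ?_) (by decide)
  have hp := hQ r hr
  interval_cases r <;> first | (exfalso; revert hp; norm_num; done) | (exfalso; exact h2 hr) | (simp; done)

theorem K2.W_spec {Q : Finset ℕ} {z : ℕ} (hz : 0 < z) (hz2 : z < 735) (hQ : ∀ r ∈ Q, r.Prime)
    (h2 : 2 ∉ Q) (hd : ∀ r ∈ Q, r ∣ z) : 2 ^ Q.card ≤ K2.W z := by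
  have h1 := K2.seven_odd Q hQ h2
  have h3 : ∏ r ∈ Q, r ≤ z := Nat.le_of_dvd hz (K1.prod_dvd hQ hd)
  have h4 : 15 * 7 ^ Q.card ≤ 49 * z := by omega
  have h5 : Q.card ≤ 3 := by
    by_contra hc
    have h6 := Nat.pow_le_pow_right (show 0 < 7 by norm_num) (show 4 ≤ Q.card by omega)
    omega
  unfold K2.W
  generalize hc : Q.card = n at *
  interval_cases n
  · split_ifs <;> norm_num
  · split_ifs <;> norm_num
  · rw [if_neg (by omega)]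
    split_ifs <;> norm_num
  · rw [if_neg (by omega), if_neg (by omega)]
    norm_num

/-- the set `T` is split into primes of `z` and at most one more prime -/
theorem K2.TB.card {g1 m1 n0 A0 b0 : ℕ} {T : Finset ℕ} (hT : K2.TB g1 m1 n0 A0 b0 T)
    (hAb : A0 < b0) (hc : Nat.Coprime A0 b0) (t : ℕ)
    (h2 : ∀ Q : Finset ℕ, (∀ r ∈ Q, r.Prime ∧ r ∈ T ∧ r ∣ m1 ∧ r ∣ g1 * n0 - 2 ∧ ¬ r ∣ g1 + m1) →
      Q.card ≤ t) :
    ∃ Q : Finset ℕ, Q ⊆ T ∧ (∀ r ∈ Q, r.Prime) ∧ (∀ r ∈ Q, r ∣ g1 + m1) ∧ T.card ≤ Q.card + t := by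
  classical
  refine ⟨T.filter (· ∣ g1 + m1), Finset.filter_subset _ _, ?_, ?_, ?_⟩
  · intro r hr
    exact (hT r (Finset.mem_filter.1 hr).1).1
  · intro r hr
    exact (Finset.mem_filter.1 hr).2
  · have h3 := Finset.card_filter_add_card_filter_not (s := T) (fun r => r ∣ g1 + m1)
    have h4 := h2 (T.filter fun r => ¬ r ∣ g1 + m1) (by
      intro r hr
      rw [Finset.mem_filter] at hr
      rcases hT.split hAb hc hr.1 with h | ⟨h5, _, h6⟩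
      · exact absurd h hr.2
      · exact ⟨(hT r hr.1).1, hr.1, h5, h6, hr.2⟩)
    omega

end Pool.Agent.H4G
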