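import Pool.Agent.H4G.Arith.KVis
import Pool.Agent.H4G.Arith.K1L1a

/-!
# LINE B, general `K`: odd primes (page K2_h40, section 1) (helper29)

`κ = gcd (e W, (n + K) b + n a - W f) / K`, `W = ω + K o + i (Y + K + n Q)`, `A Q = (Y + K) c`.
-/

set_option autoImplicit false

namespace Pool.Agent.H4G

variable {K : ℤ} {S : PSt} {a' b c A a e f Y φ : ℤ} {l p l' p' : Z2}

theorem KF.e_not (h : KF K S a' b c A a e f Y φ l p l' p') {N : ℕ} (hN : N.Prime)
    (hv : a + A + a' = N) {r : ℕ} (hr : r.Prime) (hK : ¬ (r : ℤ) ∣ K) (ha : (r : ℤ) ∣ a)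
    (he : (r : ℤ) ∣ e) : ¬ (r : ℤ) ∣ A := by
  intro hA
  refine h.not_a hN hv hr hK hA ?_ ha
  have h1 : (r : ℤ) ∣ K * c := by rw [h.hc]; exact dvd_add hA he
  exact (pdvd_mul hr h1).resolve_left hK

/-- a prime of `a` which does not divide `K + Y` -/
theorem KF.of_a (h : KF K S a' b c A a e f Y φ l p l' p') {N : ℕ} (hN : N.Prime)
    (hv : a + A + a' = N) {r : ℕ} (hr : r.Prime) (hr2 : r ≠ 2) (hK : ¬ (r : ℤ) ∣ K)
    (h1 : (r : ℤ) ∣ a) (h2 : ¬ (r : ℤ) ∣ K + Y) :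
    ¬ (r : ℤ) ∣ b ∧ (r : ℤ) ∣ e ∧ ¬ (r : ℤ) ∣ A := by
  have h3 : ¬ (r : ℤ) ∣ b := fun h3 => h2 (by
    have := h.visA0 hN hv hr hr2 hK (k := 1) (by simpa using h3)
    simpa using this)
  have h4 : (r : ℤ) ∣ e * b := by rw [← h.aA]; exact h1.mul_right _
  have h5 : (r : ℤ) ∣ e := (pdvd_mul hr h4).resolve_right h3
  exact ⟨h3, h5, h.e_not hN hv hr hK h1 h5⟩

/-- the odd part of `A`, prime to `K`, divides `(Y + K) c` -/
theorem KF.A_dvd (h : KF K S a' b c A a e f Y φ l p l' p') {N : ℕ} (hN : N.Prime)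
    (hv : a + A + a' = N) {r : ℕ} (hr : r.Prime) (hr2 : r ≠ 2) (hK : ¬ (r : ℤ) ∣ K) {m : ℕ}
    (hm : (r : ℤ) ^ m ∣ A) : (r : ℤ) ^ m ∣ (Y + K) * c := by
  have hb : ∀ k : ℕ, (r : ℤ) ^ k ∣ b → (r : ℤ) ^ k ∣ Y + K := fun k hk => by
    rw [add_comm]; exact h.visA0 hN hv hr hr2 hK hk
  by_cases hrA : (r : ℤ) ∣ A
  · by_cases hre : (r : ℤ) ∣ e
    · have hrc : (r : ℤ) ∣ c := by
        have h1 : (r : ℤ) ∣ K * c := by rw [h.hc]; exact dvd_add hrA hre
        exact (pdvd_mul hr h1).resolve_left hK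
      have hra := h.not_a hN hv hr hK hrA hrc
      obtain ⟨δ, e', he1, he2⟩ := exists_val hr h.e0
      obtain ⟨α, b', hb1, hb2⟩ := exists_val hr h.b0
      have h1 : (r : ℤ) ^ m ∣ e * b := by rw [← h.aA]; exact hm.mul_left _
      have h2 : m ≤ δ + α := by
        by_contra hlt
        have h3 : (r : ℤ) ^ (δ + α + 1) ∣ e * b := (pow_dvd_pow _ (by omega)).trans h1
        refine not_pow_succ_dvd hr (κ := e * b) (m := e' * b') (j := δ + α) ?_ ?_ h3
        · rw [he1, hb1, pow_add]; ring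
        · intro h4
          rcases pdvd_mul hr h4 with h5 | h5
          · exact he2 h5
          · exact hb2 h5
      have h3 : (r : ℤ) ^ δ ∣ A := by
        refine ppow_cancel hr hra (k := δ) ?_
        rw [h.aA, he1]
        exact (dvd_mul_right _ _).mul_right _
      have h4 : (r : ℤ) ^ δ ∣ c := by
        refine ppow_cancel hr hK (k := δ) ?_
        rw [h.hc]
        exact dvd_add h3 (by rw [he1]; exact dvd_mul_right _ _)
      have h5 : (r : ℤ) ^ α ∣ Y + K := hb α (by rw [hb1]; exact dvd_mul_right _ _)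
      have h6 : (r : ℤ) ^ (δ + α) ∣ (Y + K) * c := by
        have := mul_dvd_mul h5 h4
        rw [← pow_add] at this
        rwa [add_comm α δ] at this
      exact (pow_dvd_pow _ h2).trans h6
    · have h1 : (r : ℤ) ^ m ∣ e * b := by rw [← h.aA]; exact hm.mul_left _
      exact (hb m (ppow_cancel hr hre h1)).mul_right _
  · have h1 : m = 0 := by
      by_contra h1
      exact hrA ((dvd_pow_self _ h1).trans hm)
    subst h1
    simp

/-- an odd prime of `a` and `K + Y` divides `Q` -/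
theorem KF.Q_dvd (h : KF K S a' b c A a e f Y φ l p l' p') {N : ℕ} (hN : N.Prime)
    (hv : a + A + a' = N) {Q : ℤ} (hQ : A * Q = (Y + K) * c) {r : ℕ} (hr : r.Prime)
    (hr2 : r ≠ 2) (hK : ¬ (r : ℤ) ∣ K) (hra : (r : ℤ) ∣ a) (hy : (r : ℤ) ∣ K + Y) :
    (r : ℤ) ∣ Q := by
  by_cases hrA : (r : ℤ) ∣ A
  · have hre : ¬ (r : ℤ) ∣ e := fun h1 => h.e_not hN hv hr hK hra h1 hrA
    obtain ⟨j, m, h3, h4⟩ := exists_val hr h.A0
    have h5 : (r : ℤ) ^ (j + 1) ∣ b := by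
      refine ppow_cancel hr hre ?_
      rw [← h.aA, pow_succ, mul_comm]
      refine mul_dvd_mul hra ?_
      conv_rhs => rw [h3]
      exact dvd_mul_right _ _
    have h6 : (r : ℤ) ^ (j + 1) ∣ A * Q := by
      rw [hQ, add_comm Y K]
      exact (h.visA0 hN hv hr hr2 hK h5).mul_right _
    have h7 : A * Q = (r : ℤ) ^ j * (m * Q) := by rw [← mul_assoc, ← h3]
    rw [h7, pow_succ] at h6
    have h8 := (mul_dvd_mul_iff_left (pow_ne_zero j (by exact_mod_cast hr.ne_zero : (r : ℤ) ≠ 0))).1 h6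
    exact (pdvd_mul hr h8).resolve_left h4
  · have h1 : (r : ℤ) ∣ A * Q := by rw [hQ, add_comm Y K]; exact hy.mul_right _
    exact (pdvd_mul hr h1).resolve_left hrA

/-- a prime of `e` which does not divide `A`: `K Q = K + Y` modulo this prime -/
theorem KF.Q_mod (h : KF K S a' b c A a e f Y φ l p l' p') {Q : ℤ} (hQ : A * Q = (Y + K) * c)
    {r : ℕ} (hr : r.Prime) (he : (r : ℤ) ∣ e) (hA : ¬ (r : ℤ) ∣ A) :
    (r : ℤ) ∣ K * Q - (K + Y) := by
  have h1 : A * (K * Q - (K + Y)) = (Y + K) * e := by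
    linear_combination K * hQ + (Y + K) * h.hc
  have h2 : (r : ℤ) ∣ A * (K * Q - (K + Y)) := by rw [h1]; exact he.mul_left _
  exact (pdvd_mul hr h2).resolve_left hA

/-- the coefficient of `i` in `W` modulo a prime of `e` -/
theorem KF.W_coef (h : KF K S a' b c A a e f Y φ l p l' p') {Q n : ℤ}
    (hQ : A * Q = (Y + K) * c) {r : ℕ} (hr : r.Prime) (hK : ¬ (r : ℤ) ∣ K)
    (he : (r : ℤ) ∣ e) (hA : ¬ (r : ℤ) ∣ A) (hy : ¬ (r : ℤ) ∣ K + Y) :
    (r : ℤ) ∣ Y + K + n * Q ↔ (r : ℤ) ∣ n + K := by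
  have h1 := h.Q_mod hQ hr he hA
  have e1 : K * (Y + K + n * Q) = (n + K) * (K + Y) + n * (K * Q - (K + Y)) := by ring
  constructor
  · intro h2
    have h3 : (r : ℤ) ∣ (n + K) * (K + Y) := by
      have e2 : (n + K) * (K + Y) = K * (Y + K + n * Q) - n * (K * Q - (K + Y)) := by ring
      rw [e2]; exact dvd_sub (h2.mul_left _) (h1.mul_left _)
    exact (pdvd_mul hr h3).resolve_right hy
  · intro h2
    have h3 : (r : ℤ) ∣ K * (Y + K + n * Q) := by
      rw [e1]; exact dvd_add (h2.mul_right _) (h1.mul_left _)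
    exact (pdvd_mul hr h3).resolve_left hK

/-- **(S)**: an odd prime of `gcd (a, K + Y)` has at most one bad class of `ω`; `h3` excludes the
case `r ∣ n + K, e, f`, `r ∤ b` -/
theorem KF.bad_S (h : KF K S a' b c A a e f Y φ l p l' p') {N : ℕ} (hN : N.Prime)
    (hv : a + A + a' = N) {Q : ℤ} (hQ : A * Q = (Y + K) * c) {n o : ℤ} {r : ℕ} (hr : r.Prime)
    (hr2 : r ≠ 2) (hK : ¬ (r : ℤ) ∣ K) (hra : (r : ℤ) ∣ a) (hy : (r : ℤ) ∣ K + Y)
    (hnf : (r : ℤ) ∣ e → (r : ℤ) ∣ b → ¬ (r : ℤ) ∣ f)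
    (h3 : (r : ℤ) ∣ e → (r : ℤ) ∣ f → ¬ (r : ℤ) ∣ n + K) :
    ∃ ρ : ℤ, ∀ ω i : ℤ, (r : ℤ) ∣ (ω + K * o + i * (Y + K + n * Q)) * e →
      (r : ℤ) ∣ (n + K) * b + n * a - (ω + K * o + i * (Y + K + n * Q)) * f →
      (r : ℤ) ∣ ω - ρ := by
  have hrQ := h.Q_dvd hN hv hQ hr hr2 hK hra hy
  have hz : ∀ i : ℤ, (r : ℤ) ∣ i * (Y + K + n * Q) := fun i =>
    (dvd_add (by rw [add_comm]; exact hy) (hrQ.mul_left n)).mul_left i
  by_cases hre : (r : ℤ) ∣ e
  · have hrA := h.e_not hN hv hr hK hra hre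
    by_cases hrf : (r : ℤ) ∣ f
    · have hrb : ¬ (r : ℤ) ∣ b := fun h1 => hnf hre h1 hrf
      refine ⟨0, fun ω i _ h2 => ?_⟩
      exfalso
      have h4 : (r : ℤ) ∣ (n + K) * b := by
        have e1 : (n + K) * b = ((n + K) * b + n * a - (ω + K * o + i * (Y + K + n * Q)) * f) -
          n * a + (ω + K * o + i * (Y + K + n * Q)) * f := by ring
        rw [e1]
        exact dvd_add (dvd_sub h2 (hra.mul_left _)) (hrf.mul_left _)
      rcases pdvd_mul hr h4 with h5 | h5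
      · exact h3 hre hrf h5
      · exact hrb h5
    · obtain ⟨α, β, hαβ⟩ := ((Nat.prime_iff_prime_int.1 hr).coprime_iff_not_dvd).2 hrf
      refine ⟨β * ((n + K) * b + n * a) - K * o, fun ω i _ h2 => ?_⟩
      have h4 : (r : ℤ) ∣ (ω + K * o) * f - ((n + K) * b + n * a) := by
        have e1 : (ω + K * o) * f - ((n + K) * b + n * a) =
          -((n + K) * b + n * a - (ω + K * o + i * (Y + K + n * Q)) * f) -
          i * (Y + K + n * Q) * f := by ring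
        rw [e1]
        exact dvd_sub ((dvd_neg).2 h2) ((hz i).mul_right _)
      obtain ⟨k, hk⟩ := h4
      refine ⟨α * (ω + K * o) + β * k, ?_⟩
      linear_combination (-(ω + K * o)) * hαβ + β * hk
  · refine ⟨-(K * o), fun ω i h1 _ => ?_⟩
    have h2 := (pdvd_mul hr h1).resolve_right hre
    have e1 : ω - -(K * o) = (ω + K * o + i * (Y + K + n * Q)) - i * (Y + K + n * Q) := by ring
    rw [e1]
    exact dvd_sub h2 (hz i)

/-- **(M)**: the selection of `i` at fixed `ω` for the odd primes of `e` which do not divide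
`A (K + Y) (n + K)`, with `r ∤ Y` or `r ∣ f`; the class modulo `2 ^ m` is prescribed -/
theorem KF.sel_M (h : KF K S a' b c A a e f Y φ l p l' p') {N : ℕ} (hN : N.Prime)
    (hv : a + A + a' = N) {Q : ℤ} (hQ : A * Q = (Y + K) * c) {n W0 s : ℤ} (hs : s ∣ Y)
    (m : ℕ) (x2 : ℤ) :
    ∃ x : ℤ, (2 : ℤ) ^ m ∣ x - x2 ∧ ∀ r : ℕ, r.Prime → r ≠ 2 → ¬ (r : ℤ) ∣ K → (r : ℤ) ∣ a →
      ¬ (r : ℤ) ∣ K + Y → ¬ (r : ℤ) ∣ n + K → ((r : ℤ) ∣ Y → (r : ℤ) ∣ f) →
      ¬ (r : ℤ) ∣ (n + K) * b + n * a - (W0 + x * (s * (Y + K + n * Q))) * f := by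
  classical
  have he0 := h.e0
  -- the bad class at each prime
  have hcl : ∀ r : ℕ, ∃ x : ℤ, (r.Prime → r ≠ 2 → ¬ (r : ℤ) ∣ K → (r : ℤ) ∣ a →
      ¬ (r : ℤ) ∣ K + Y → ¬ (r : ℤ) ∣ n + K → ((r : ℤ) ∣ Y → (r : ℤ) ∣ f) →
      ¬ (r : ℤ) ∣ (n + K) * b + n * a - (W0 + x * (s * (Y + K + n * Q))) * f) := by
    intro r
    by_cases hc : r.Prime ∧ r ≠ 2 ∧ ¬ (r : ℤ) ∣ K ∧ (r : ℤ) ∣ a ∧ ¬ (r : ℤ) ∣ K + Y ∧
        ¬ (r : ℤ) ∣ n + K ∧ ((r : ℤ) ∣ Y → (r : ℤ) ∣ f)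
    · obtain ⟨hr, hr2, hK, hra, hy, hn, hYf⟩ := hc
      obtain ⟨hb, he, hA⟩ := h.of_a hN hv hr hr2 hK hra hy
      by_cases hrf : (r : ℤ) ∣ f
      · refine ⟨0, fun _ _ _ _ _ _ _ h2 => ?_⟩
        have h4 : (r : ℤ) ∣ (n + K) * b := by
          have e1 : (n + K) * b =
            ((n + K) * b + n * a - (W0 + 0 * (s * (Y + K + n * Q))) * f) -
            n * a + (W0 + 0 * (s * (Y + K + n * Q))) * f := by ring
          rw [e1]
          exact dvd_add (dvd_sub h2 (hra.mul_left _)) (hrf.mul_left _)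
        rcases pdvd_mul hr h4 with h5 | h5
        · exact hn h5
        · exact hb h5
      · have hYr : ¬ (r : ℤ) ∣ Y := fun h1 => hrf (hYf h1)
        have hsr : ¬ (r : ℤ) ∣ s := fun h1 => hYr (h1.trans hs)
        have hco : ¬ (r : ℤ) ∣ s * (Y + K + n * Q) * f := by
          intro h3
          rcases pdvd_mul hr h3 with h3 | h3
          · rcases pdvd_mul hr h3 with h3 | h3
            · exact hsr h3
            · exact hn ((h.W_coef hQ hr hK he hA hy).1 h3)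
          · exact hrf h3
        by_cases h0 : (r : ℤ) ∣ (n + K) * b + n * a - (W0 + 0 * (s * (Y + K + n * Q))) * f
        · refine ⟨1, fun _ _ _ _ _ _ _ h5 => hco ?_⟩
          have h6 := dvd_sub h0 h5
          have e1 : s * (Y + K + n * Q) * f =
            ((n + K) * b + n * a - (W0 + 0 * (s * (Y + K + n * Q))) * f) -
            ((n + K) * b + n * a - (W0 + 1 * (s * (Y + K + n * Q))) * f) := by ring
          rw [e1]; exact h6
        · exact ⟨0, fun _ _ _ _ _ _ _ => h0⟩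
    · exact ⟨0, fun h1 h2 h3 h4 h5 h6 h7 => absurd ⟨h1, h2, h3, h4, h5, h6, h7⟩ hc⟩
  choose F hF using hcl
  obtain ⟨x, hx⟩ := crt_primes (insert 2 e.natAbs.primeFactors) (fun r hr => by
      rcases Finset.mem_insert.1 hr with h1 | h1
      · rw [h1]; exact Nat.prime_two
      · exact Nat.prime_of_mem_primeFactors h1) (fun r => if r = 2 then m else 1)
    (fun r => if r = 2 then x2 else F r)
  refine ⟨x, ?_, fun r hr hr2 hK hra hy hn hYf h1 => ?_⟩
  · have := hx 2 (Finset.mem_insert_self _ _)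
    simpa using this
  · obtain ⟨hb, he, hA⟩ := h.of_a hN hv hr hr2 hK hra hy
    have h2 := hx r (Finset.mem_insert_of_mem (by
      rw [Nat.mem_primeFactors]
      exact ⟨hr, Int.natCast_dvd.1 he, by simpa using he0.ne'⟩))
    simp only [if_neg hr2, pow_one] at h2
    refine hF r hr hr2 hK hra hy hn hYf ?_
    have e1 : (n + K) * b + n * a - (W0 + F r * (s * (Y + K + n * Q))) * f =
      ((n + K) * b + n * a - (W0 + x * (s * (Y + K + n * Q))) * f) +
      (x - F r) * (s * (Y + K + n * Q) * f) := by ring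
    rw [e1]
    exact dvd_add h1 (h2.mul_right _)

/-- **(3)**: `r ∣ n + K` odd, `r ∣ a`, `r ∤ b`, `r ∤ f`: one class of `ω` -/
theorem KF.bad_3 (h : KF K S a' b c A a e f Y φ l p l' p') {N : ℕ} (hN : N.Prime)
    (hv : a + A + a' = N) {Q : ℤ} (hQ : A * Q = (Y + K) * c) {n o ω i : ℤ} {r : ℕ} (hr : r.Prime)
    (hr2 : r ≠ 2) (hK : ¬ (r : ℤ) ∣ K) (hra : (r : ℤ) ∣ a) (hn : (r : ℤ) ∣ n + K)
    (he : (r : ℤ) ∣ e) (hf : ¬ (r : ℤ) ∣ f)
    (hbad : (r : ℤ) ∣ (n + K) * b + n * a - (ω + K * o + i * (Y + K + n * Q)) * f) :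
    (r : ℤ) ∣ ω + K * o := by
  have hA := h.e_not hN hv hr hK hra he
  have h1 : (r : ℤ) ∣ (ω + K * o + i * (Y + K + n * Q)) * f := by
    have e1 : (ω + K * o + i * (Y + K + n * Q)) * f = ((n + K) * b + n * a) -
      ((n + K) * b + n * a - (ω + K * o + i * (Y + K + n * Q)) * f) := by ring
    rw [e1]
    exact dvd_sub (dvd_add (hn.mul_right _) (hra.mul_left _)) hbad
  have h2 := (pdvd_mul hr h1).resolve_right hf
  have h3 : (r : ℤ) ∣ Y + K + n * Q := by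
    by_cases hy : (r : ℤ) ∣ K + Y
    · have h4 : (r : ℤ) ∣ Q := h.Q_dvd hN hv hQ hr hr2 hK hra hy
      exact dvd_add (by rw [add_comm]; exact hy) (h4.mul_left n)
    · exact (h.W_coef hQ hr hK he hA hy).2 hn
  have e1 : ω + K * o = (ω + K * o + i * (Y + K + n * Q)) - i * (Y + K + n * Q) := by ring
  rw [e1]
  exact dvd_sub h2 (h3.mul_left i)

end Pool.Agent.H4G
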