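import Pool.Agent.H4G.Arith.LFin
import Pool.Agent.H4G.Arith.KM

/-!
# The left criterion for the thin case (helper23)

One good left exit of level one is impossible if `e < 4 A`.
-/

set_option autoImplicit false

namespace Pool.Agent.H4G

/-- the bad classes of an ExtB state, prime by prime -/
theorem ExtB.exists_kappaL {S : PSt} {a' b c : ℤ} (h : ExtB S a' b c) {l p l' p' : Z2}
    (ad : Ad S l p l' p') (hfull : S.Full) : ∃ κ : ℕ → ℤ, ∀ ρ t B : ℤ,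
      IsC S.L' (S.u + (1 + 2 * t) • S.v + (ρ + (1 + 2 * t)) • l + p) B →
      (∀ r : ℕ, r.Prime → (r : ℤ) ∣ c → (r : ℤ) ∣ a' → (r : ℤ) ∣ B → (r : ℤ) ∣ ρ - κ r) ∧
      (∀ r : ℕ, r.Prime → ¬ (r : ℤ) ∣ c → (r : ℤ) ∣ a' →
        (∃ m : ℕ, (r : ℤ) ^ m ∣ cr p l + b ∧ ¬ (r : ℤ) ^ m ∣ b) → ∀ k : ℕ, (r : ℤ) ^ k ∣ B →
        ¬ (r : ℤ) ^ k ∣ cr S.u S.v + b → (r : ℤ) ∣ cr S.u S.v + cr S.u l ∧ (r : ℤ) ∣ ρ - κ r) ∧
      (∀ r : ℕ, r.Prime → r ≠ 2 → (r : ℤ) ∣ cr S.u l → ¬ (r : ℤ) ∣ cr S.u S.v →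
        ¬ (r : ℤ) ∣ c → (r : ℤ) ∣ a' → ∀ k : ℕ, (r : ℤ) ^ k ∣ B →
        ¬ (r : ℤ) ^ k ∣ cr S.u S.v + b → (r : ℤ) ∣ t - κ r) ∧
      ((4 : ℤ) ∣ cr S.u l → ¬ (2 : ℤ) ∣ cr S.u S.v → ¬ (2 : ℤ) ∣ c → (2 : ℤ) ∣ a' →
        ∀ k : ℕ, (2 : ℤ) ^ (k + 2) ∣ B → ¬ (2 : ℤ) ^ (k + 1) ∣ cr S.u S.v + b →
        (2 : ℤ) ∣ t - κ 2) := by
  have E1 : cr p S.v = b := ad.isC.unique h.hb
  have E2 : cr S.u p' = c := ad.isC'.unique h.hc
  have hA0 : 0 < cr S.u S.v := ad.hA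
  have he0 : 0 < cr S.u l := ad.h2
  have hb0 : 0 < b := h.bpos
  have area := ad.area
  rw [E1] at area
  have hKint := h.K_int ad
  -- the product with `v`
  have hw : ∀ x : ℤ × ℤ, cr (S.u + (1 + 2 * x.2) • S.v + (x.1 + (1 + 2 * x.2)) • l + p) S.v =
      cr S.u S.v + b := by
    intro x
    simp only [cr_add_left, cr_smul_left, cr_self]
    rw [ad.h1, E1]; ring
  set w : ℤ × ℤ → Z2 := fun x => S.u + (1 + 2 * x.2) • S.v + (x.1 + (1 + 2 * x.2)) • l + p with hwdef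
  have hodd : ∀ t : ℤ, ¬ (2 : ℤ) ∣ 1 + 2 * t := fun t => by omega
  -- the classes
  have cW : ∀ r : ℕ, r.Prime → (r : ℤ) ∣ c → (r : ℤ) ∣ a' → ∃ κ : ℤ, ∀ x : ℤ × ℤ,
      (∀ z ∈ S.L', (r : ℤ) ∣ cr (w x) z) → (r : ℤ) ∣ x.1 - κ := by
    intro r hr h1 h2
    refine exists_class _ (fun x : ℤ × ℤ => x.1) _ fun x y hx hy => ?_
    have := h.clsW ad hfull hr h1 h2 hx hy
    have e1 : x.1 + (1 + 2 * x.2) - (1 + 2 * x.2) - (y.1 + (1 + 2 * y.2) - (1 + 2 * y.2)) =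
        x.1 - y.1 := by ring
    rwa [e1] at this
  have cR : ∀ r : ℕ, r.Prime → ¬ (r : ℤ) ∣ c → (r : ℤ) ∣ a' →
      (∃ m : ℕ, (r : ℤ) ^ m ∣ cr p l + b ∧ ¬ (r : ℤ) ^ m ∣ b) →
      (r : ℤ) ∣ cr S.u S.v + cr S.u l ∧ ∃ κ : ℤ, ∀ x : ℤ × ℤ,
      (∃ k : ℕ, (∀ z ∈ S.L', (r : ℤ) ^ k ∣ cr (w x) z) ∧ ¬ (r : ℤ) ^ k ∣ cr S.u S.v + b) →
        (r : ℤ) ∣ x.1 - κ := by
    intro r hr hrc _ hm
    obtain ⟨m, hm1, hm2⟩ := hm
    obtain ⟨s, A0, hs, hA0'⟩ := exists_pow_mul hr hA0.ne'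
    obtain ⟨t, b0, ht, hb0'⟩ := exists_pow_mul hr hb0.ne'
    have hri := Nat.prime_iff_prime_int.1 hr
    have htm : t < m := by
      by_contra hn
      push Not at hn
      exact hm2 (by rw [ht]; exact (pow_dvd_pow _ hn).mul_right _)
    have hAe : (r : ℤ) ^ (s + 1) ∣ cr S.u S.v + cr S.u l := by
      have h1 : (r : ℤ) ^ (t + 1) * (r : ℤ) ^ s ∣ b * (cr S.u S.v + cr S.u l) := by
        have e1 : b * (cr S.u S.v + cr S.u l) = (cr p l + b) * cr S.u S.v := by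
          linear_combination -area
        rw [e1]
        refine mul_dvd_mul ((pow_dvd_pow _ (by omega)).trans hm1) ?_
        rw [hs]; exact dvd_mul_right _ _
      have h2 : (r : ℤ) ^ t * (r : ℤ) ^ (s + 1) ∣
          (r : ℤ) ^ t * (b0 * (cr S.u S.v + cr S.u l)) := by
        have e1 : (r : ℤ) ^ t * (r : ℤ) ^ (s + 1) = (r : ℤ) ^ (t + 1) * (r : ℤ) ^ s := by ring
        have e2 : (r : ℤ) ^ t * (b0 * (cr S.u S.v + cr S.u l)) =
            b * (cr S.u S.v + cr S.u l) := by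
          conv_rhs => rw [ht]
          ring
        rw [e1, e2]; exact h1
      have h3 := (mul_dvd_mul_iff_left (pow_ne_zero _ hri.ne_zero)).1 h2
      exact pow_dvd_of_mul hr h3 hb0'
    refine ⟨(dvd_pow_self _ (by omega)).trans hAe, ?_⟩
    refine exists_class _ (fun x : ℤ × ℤ => x.1) _ fun x y hx hy => ?_
    obtain ⟨k, hk1, hk2⟩ := hx
    obtain ⟨k', hk1', hk2'⟩ := hy
    obtain ⟨n, hn1, hn2, hn3⟩ : ∃ n : ℕ, n ≤ k ∧ n ≤ k' ∧ ¬ (r : ℤ) ^ n ∣ cr S.u S.v + b := by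
      rcases le_total k k' with h9 | h9
      · exact ⟨k, le_rfl, h9, hk2⟩
      · exact ⟨k', h9, le_rfl, hk2'⟩
    have := clsR ad hr hs hA0' hAe (by rw [E2]; exact hrc) (m := n)
      (q := 1 + 2 * x.2) (τ := x.1 + (1 + 2 * x.2)) (q1 := 1 + 2 * y.2)
      (τ1 := y.1 + (1 + 2 * y.2)) (by rw [hw x]; exact hn3)
      (fun z hz => (pow_dvd_pow _ hn1).trans (hk1 z hz))
      (fun z hz => (pow_dvd_pow _ hn2).trans (hk1' z hz))
    have e1 : x.1 + (1 + 2 * x.2) - (1 + 2 * x.2) - (y.1 + (1 + 2 * y.2) - (1 + 2 * y.2)) =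
        x.1 - y.1 := by ring
    rwa [e1] at this
  have cT : ∀ r : ℕ, r.Prime → r ≠ 2 → (r : ℤ) ∣ cr S.u l → ¬ (r : ℤ) ∣ cr S.u S.v →
      ¬ (r : ℤ) ∣ c → ∃ κ : ℤ, ∀ x : ℤ × ℤ,
      (∃ k : ℕ, (∀ z ∈ S.L', (r : ℤ) ^ k ∣ cr (w x) z) ∧ ¬ (r : ℤ) ^ k ∣ cr S.u S.v + b) →
        (r : ℤ) ∣ x.2 - κ := by
    intro r hr hr2 hre hrA hrc
    refine exists_class _ (fun x : ℤ × ℤ => x.2) _ fun x y hx hy => ?_
    obtain ⟨k, hk1, hk2⟩ := hx
    obtain ⟨k', hk1', hk2'⟩ := hy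
    obtain ⟨n, hn1, hn2, hn3⟩ : ∃ n : ℕ, n ≤ k ∧ n ≤ k' ∧ ¬ (r : ℤ) ^ n ∣ cr S.u S.v + b := by
      rcases le_total k k' with h9 | h9
      · exact ⟨k, le_rfl, h9, hk2⟩
      · exact ⟨k', h9, le_rfl, hk2'⟩
    have := clsT ad hr hre hrA (by rw [E2]; exact hrc) (m := n)
      (q := 1 + 2 * x.2) (τ := x.1 + (1 + 2 * x.2)) (q1 := 1 + 2 * y.2)
      (τ1 := y.1 + (1 + 2 * y.2)) (by rw [hw x]; exact hn3)
      (fun z hz => (pow_dvd_pow _ hn1).trans (hk1 z hz))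
      (fun z hz => (pow_dvd_pow _ hn2).trans (hk1' z hz))
    have e1 : 1 + 2 * x.2 - (1 + 2 * y.2) = 2 * (x.2 - y.2) := by ring
    rw [e1] at this
    refine p_dvd_mul hr this fun h9 => hr2 ?_
    have h10 : r ∣ 2 := by exact_mod_cast h9
    exact (Nat.prime_dvd_prime_iff_eq hr Nat.prime_two).1 h10
  have cT2 : (4 : ℤ) ∣ cr S.u l → ¬ (2 : ℤ) ∣ cr S.u S.v → ¬ (2 : ℤ) ∣ c → ∃ κ : ℤ,
      ∀ x : ℤ × ℤ, (∃ k : ℕ, (∀ z ∈ S.L', (2 : ℤ) ^ (k + 2) ∣ cr (w x) z) ∧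
        ¬ (2 : ℤ) ^ (k + 1) ∣ cr S.u S.v + b) → (2 : ℤ) ∣ x.2 - κ := by
    intro hre hrA hrc
    refine exists_class _ (fun x : ℤ × ℤ => x.2) _ fun x y hx hy => ?_
    obtain ⟨k, hk1, hk2⟩ := hx
    obtain ⟨k', hk1', hk2'⟩ := hy
    obtain ⟨n, hn1, hn2, hn3⟩ : ∃ n : ℕ, n ≤ k + 1 ∧ n ≤ k' + 1 ∧
        ¬ (2 : ℤ) ^ n ∣ cr S.u S.v + b := by
      rcases le_total k k' with h9 | h9
      · exact ⟨k + 1, le_rfl, by omega, hk2⟩
      · exact ⟨k' + 1, by omega, le_rfl, hk2'⟩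
    have := clsT2 ad hre hrA (by rw [E2]; exact hrc) (m := n)
      (q := 1 + 2 * x.2) (τ := x.1 + (1 + 2 * x.2)) (q1 := 1 + 2 * y.2)
      (τ1 := y.1 + (1 + 2 * y.2)) (hodd _) (hodd _) (by rw [hw x]; exact hn3)
      (fun z hz => (pow_dvd_pow _ (by omega)).trans (hk1 z hz))
      (fun z hz => (pow_dvd_pow _ (by omega)).trans (hk1' z hz))
    have e1 : 1 + 2 * x.2 - (1 + 2 * y.2) = 2 * (x.2 - y.2) := by ring
    rw [e1] at this
    omega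
  -- one function
  have cls : ∀ r : ℕ, ∃ κ : ℤ, r.Prime → (r : ℤ) ∣ a' →
      ((r : ℤ) ∣ c → ∀ x : ℤ × ℤ, (∀ z ∈ S.L', (r : ℤ) ∣ cr (w x) z) → (r : ℤ) ∣ x.1 - κ) ∧
      (¬ (r : ℤ) ∣ c → (∃ m : ℕ, (r : ℤ) ^ m ∣ cr p l + b ∧ ¬ (r : ℤ) ^ m ∣ b) →
        ∀ x : ℤ × ℤ, (∃ k : ℕ, (∀ z ∈ S.L', (r : ℤ) ^ k ∣ cr (w x) z) ∧
          ¬ (r : ℤ) ^ k ∣ cr S.u S.v + b) → (r : ℤ) ∣ x.1 - κ) ∧
      (r ≠ 2 → (r : ℤ) ∣ cr S.u l → ¬ (r : ℤ) ∣ cr S.u S.v → ¬ (r : ℤ) ∣ c →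
        ∀ x : ℤ × ℤ, (∃ k : ℕ, (∀ z ∈ S.L', (r : ℤ) ^ k ∣ cr (w x) z) ∧
          ¬ (r : ℤ) ^ k ∣ cr S.u S.v + b) → (r : ℤ) ∣ x.2 - κ) ∧
      (r = 2 → (4 : ℤ) ∣ cr S.u l → ¬ (2 : ℤ) ∣ cr S.u S.v → ¬ (2 : ℤ) ∣ c →
        ∀ x : ℤ × ℤ, (∃ k : ℕ, (∀ z ∈ S.L', (2 : ℤ) ^ (k + 2) ∣ cr (w x) z) ∧
          ¬ (2 : ℤ) ^ (k + 1) ∣ cr S.u S.v + b) → (2 : ℤ) ∣ x.2 - κ) := by
    intro r
    by_cases hr : r.Prime
    swap
    · exact ⟨0, fun h9 => absurd h9 hr⟩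
    by_cases hra : (r : ℤ) ∣ a'
    swap
    · exact ⟨0, fun _ h9 => absurd h9 hra⟩
    by_cases hrc : (r : ℤ) ∣ c
    · obtain ⟨κ, hκ⟩ := cW r hr hrc hra
      refine ⟨κ, fun _ _ => ⟨fun _ => hκ, fun h9 => absurd hrc h9, fun _ _ _ h9 => absurd hrc h9,
        fun h8 _ _ h9 => ?_⟩⟩
      subst h8
      exact absurd (by exact_mod_cast hrc) h9
    by_cases hm : ∃ m : ℕ, (r : ℤ) ^ m ∣ cr p l + b ∧ ¬ (r : ℤ) ^ m ∣ b
    · obtain ⟨h10, κ, hκ⟩ := cR r hr hrc hra hm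
      refine ⟨κ, fun _ _ => ⟨fun h9 => absurd h9 hrc, fun _ _ => hκ, fun _ h9 h8 _ => ?_,
        fun h7 h9 h8 _ => ?_⟩⟩
      · exact absurd (by have := dvd_sub h10 h9; rwa [add_sub_cancel_right] at this) h8
      · exfalso
        subst h7
        apply h8
        have h11 : (2 : ℤ) ∣ cr S.u l := (by norm_num : (2 : ℤ) ∣ 4).trans h9
        have h12 : (2 : ℤ) ∣ cr S.u S.v + cr S.u l := by exact_mod_cast h10
        have := dvd_sub h12 h11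
        rwa [add_sub_cancel_right] at this
    by_cases hr2 : r = 2
    · by_cases h3 : (4 : ℤ) ∣ cr S.u l ∧ ¬ (2 : ℤ) ∣ cr S.u S.v ∧ ¬ (2 : ℤ) ∣ c
      · obtain ⟨κ, hκ⟩ := cT2 h3.1 h3.2.1 h3.2.2
        exact ⟨κ, fun _ _ => ⟨fun h9 => absurd h9 hrc, fun _ h9 => absurd h9 hm,
          fun h9 => absurd hr2 h9, fun _ _ _ _ => hκ⟩⟩
      · exact ⟨0, fun _ _ => ⟨fun h9 => absurd h9 hrc, fun _ h9 => absurd h9 hm,
          fun h9 => absurd hr2 h9, fun _ h7 h8 h9 => absurd ⟨h7, h8, h9⟩ h3⟩⟩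
    · by_cases h3 : (r : ℤ) ∣ cr S.u l ∧ ¬ (r : ℤ) ∣ cr S.u S.v
      · obtain ⟨κ, hκ⟩ := cT r hr hr2 h3.1 h3.2 hrc
        exact ⟨κ, fun _ _ => ⟨fun h9 => absurd h9 hrc, fun _ h9 => absurd h9 hm,
          fun _ _ _ _ => hκ, fun h9 => absurd h9 hr2⟩⟩
      · exact ⟨0, fun _ _ => ⟨fun h9 => absurd h9 hrc, fun _ h9 => absurd h9 hm,
          fun _ h7 h8 _ => absurd ⟨h7, h8⟩ h3, fun h9 => absurd h9 hr2⟩⟩
  choose κ hκ using cls
  refine ⟨κ, fun ρ t B hB => ?_⟩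
  have hBz : ∀ (r k : ℕ), (r : ℤ) ^ k ∣ B → ∀ z ∈ S.L', (r : ℤ) ^ k ∣ cr (w (ρ, t)) z :=
    fun r k hk z hz => hk.trans (hB.2.1 z hz)
  refine ⟨fun r hr hrc hra hrB => ?_, fun r hr hrc hra hm k hk hn => ?_,
    fun r hr hr2 hre hrA hrc hra k hk hn => ?_, fun hre hrA hrc hra k hk hn => ?_⟩
  · exact (hκ r hr hra).1 hrc (ρ, t) (fun z hz => by
      have := hBz r 1 (by simpa using hrB) z hz
      simpa using this)
  · exact ⟨(cR r hr hrc hra hm).1, (hκ r hr hra).2.1 hrc hm (ρ, t) ⟨k, hBz r k hk, hn⟩⟩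
  · exact (hκ r hr hra).2.2.1 hr2 hre hrA hrc (ρ, t) ⟨k, hBz r k hk, hn⟩
  · have := (hκ 2 Nat.prime_two (by exact_mod_cast hra)).2.2.2 rfl hre hrA hrc (ρ, t)
      ⟨k, fun z hz => by
        have := hBz 2 (k + 2) (by exact_mod_cast hk) z hz
        exact_mod_cast this, hn⟩
    exact_mod_cast this

theorem exists_window' {Φ0 G M0 : ℤ} (hG : 0 < G) (T : Finset ℕ) (hT : ∀ r ∈ T, r.Prime)
    (a : ℕ → ℤ)
    (hM : G * 2 ^ T.card < M0 ∨ (G * 2 ^ T.card = M0 ∧ ¬ 2 * G ∣ Φ0 + M0)) :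
    ∃ n : ℤ, |Φ0 + 2 * G * n| < M0 ∧ ∀ r ∈ T, ¬ (r : ℤ) ∣ n - a r := by
  rcases hM with hM | ⟨hM, hnd⟩
  · exact exists_window hG T hT a hM
  obtain ⟨x0, hx0⟩ := crt_finset T hT (fun r => a r + 1)
  have h0 : ∀ r ∈ T, ¬ (r : ℤ) ∣ x0 - a r := by
    intro r hr h1
    have h2 := dvd_sub h1 (hx0 r hr)
    have e1 : x0 - a r - (x0 - (a r + 1)) = 1 := by ring
    rw [e1] at h2
    exact (Nat.prime_iff_prime_int.1 (hT r hr)).not_isUnit (isUnit_of_dvd_one h2)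
  set s : ℤ := (-M0 - Φ0) / (2 * G) + 1 with hs
  have h1 : 2 * G * (s - 1) < -M0 - Φ0 := by
    have h1 : 2 * G * (s - 1) ≤ -M0 - Φ0 := by
      rw [hs, add_sub_cancel_right]
      exact Int.mul_ediv_self_le (by linarith)
    refine lt_of_le_of_ne h1 fun h2 => hnd ⟨-(s - 1), ?_⟩
    linear_combination h2
  have h2 : -M0 - Φ0 < 2 * G * s := by
    rw [hs]
    have := Int.lt_mul_ediv_self_add (x := -M0 - Φ0) (k := 2 * G) (by linarith)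
    linarith
  obtain ⟨x, hx1, hx2, hx3⟩ := Asy.exists_avoid T (fun r => (r : ℤ)) a
    (fun r hr => by exact_mod_cast (hT r hr).pos) h0 s
  refine ⟨x, ?_, hx3⟩
  rw [abs_lt]
  constructor
  · have : 2 * G * s ≤ 2 * G * x := mul_le_mul_of_nonneg_left hx1 (by linarith)
    linarith
  · have h3 : x ≤ s + 2 ^ T.card - 1 := by linarith
    have h4 : 2 * G * x ≤ 2 * G * (s + 2 ^ T.card - 1) :=
      mul_le_mul_of_nonneg_left h3 (by linarith)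
    have e1 : 2 * G * (s + 2 ^ T.card - 1) = 2 * G * (s - 1) + 2 * (G * 2 ^ T.card) := by ring
    linarith

variable {K : ℤ} {S : PSt} {a' b c A a e f Y φ : ℤ} {l p l' p' : Z2}

/-- a prime of `A` and `c`, not of `K`, is never bad for a left exit -/
theorem KF.dropA (h : KF K S a' b c A a e f Y φ l p l' p') {N : ℕ} (hN : N.Prime)
    (hv : a + A + a' = N) {r : ℕ} (hr : r.Prime) (hrK : ¬ (r : ℤ) ∣ K) (hA : (r : ℤ) ∣ A)
    (hc : (r : ℤ) ∣ c) (q τ : ℤ) :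
    ¬ ∀ z ∈ S.L', (r : ℤ) ∣ cr (S.u + q • S.v + τ • l + p) z := by
  intro hz
  have hri := Nat.prime_iff_prime_int.1 hr
  have hna := h.not_a hN hv hr hrK hA hc
  have hp' : p' ∈ S.L' := by rw [h.L'_eq]; exact mem_lat.2 ⟨0, 1, by module⟩
  have hl' : l' ∈ S.L' := by rw [h.L'_eq]; exact mem_lat.2 ⟨1, 0, by module⟩
  have hl : l ∈ S.L := by rw [h.L_eq]; exact mem_lat.2 ⟨1, 0, by module⟩
  have hp : p ∈ S.L := by rw [h.L_eq]; exact mem_lat.2 ⟨0, 1, by module⟩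
  have key : ∀ x ∈ S.L', (r : ℤ) ∣ cr S.u x → (r : ℤ) ∣ cr S.v x → (r : ℤ) ∣ cr (S.v + l) x →
      Dz r x := by
    intro x hx h1 h2 h3
    have h4 : (r : ℤ) ∣ cr l x := by
      have := dvd_sub h3 h2
      rwa [cr_add_left, add_sub_cancel_left] at this
    have h5 : (r : ℤ) ∣ cr p x := by
      have h6 := hz x hx
      simp only [cr_add_left, cr_smul_left] at h6
      have h7 := dvd_sub (dvd_sub (dvd_sub h6 h1) (h2.mul_left q)) (h4.mul_left τ)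
      have e1 : cr S.u x + q * cr S.v x + τ * cr l x + cr p x - cr S.u x - q * cr S.v x -
          τ * cr l x = cr p x := by ring
      rwa [e1] at h7
    rw [Dz.iff]
    intro z
    have h6 : (r : ℤ) ∣ cr x (a • z) := by
      have h7 := h.area.smul_mem z
      rw [h.L_eq] at h7
      obtain ⟨m, n, hmn⟩ := mem_lat.1 h7
      rw [← hmn, cr_add_right, cr_smul_right, cr_smul_right]
      refine dvd_add (Dvd.dvd.mul_left ?_ _) (Dvd.dvd.mul_left ?_ _)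
      · rw [cr_swap x l, dvd_neg]; exact h4
      · rw [cr_swap x p, dvd_neg]; exact h5
    rw [cr_smul_right] at h6
    exact (hri.dvd_or_dvd h6).resolve_left hna
  have hK : ∀ x : ℤ, (r : ℤ) ∣ K * x → (r : ℤ) ∣ x := fun x hx =>
    (hri.dvd_or_dvd hx).resolve_left hrK
  have huw : cr (S.v + l) S.u = -(K * c) := by rw [cr_swap, h.uw]
  refine con1_lat.1 h.Cl r hr ⟨key l' hl' ?_ ?_ ?_, key p' hp' ?_ ?_ ?_⟩
  · rw [h.ad.h4]; exact dvd_zero _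
  · rw [cr_swap S.v l', dvd_neg]
    refine hK _ ?_
    rw [h.l'v]; exact hA.mul_left _
  · refine hK _ ?_
    rw [← cr_smul_right, h.hl', cr_smul_right, huw]
    exact ((dvd_neg).2 (hc.mul_left _)).mul_left _
  · rw [h.up']; exact hc
  · rw [cr_swap S.v p', dvd_neg]
    refine hK _ ?_
    rw [h.p'v]; exact hA.mul_left _
  · refine hK _ ?_
    rw [← cr_smul_right, h.hp', cr_add_right, cr_smul_right, huw, cr_self, add_zero]
    exact ((dvd_neg).2 (hc.mul_left _)).mul_left _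

/-- a prime of `e`, not of `A`, which divides `φ` and not `A + b`, is never bad -/
theorem KF.dropT (h : KF K S a' b c A a e f Y φ l p l' p') {r : ℕ} (hr : r.Prime)
    (he : (r : ℤ) ∣ e) (hA : ¬ (r : ℤ) ∣ A) (hφ : (r : ℤ) ∣ φ) (hAb : ¬ (r : ℤ) ∣ A + b)
    (q τ : ℤ) : ¬ ∀ z ∈ S.L', (r : ℤ) ∣ cr (S.u + q • S.v + τ • l + p) z := by
  intro hz
  have hri := Nat.prime_iff_prime_int.1 hr
  have hp' : p' ∈ S.L' := by rw [h.L'_eq]; exact mem_lat.2 ⟨0, 1, by module⟩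
  have ha : (r : ℤ) ∣ a := by
    have h1 : (r : ℤ) ∣ a * A := by rw [h.aA]; exact he.mul_right _
    exact (hri.dvd_or_dvd h1).resolve_right hA
  apply hAb
  have h1 : (r : ℤ) ∣ cr (S.u + q • S.v + τ • l + p) (K • p') := by
    rw [cr_smul_right]; exact (hz p' hp').mul_left _
  rw [h.hp', cr_add_right, cr_smul_right] at h1
  have h2 : cr (S.u + q • S.v + τ • l + p) (S.v + l) = A + e + (a + b) := by
    simp only [cr_add_left, cr_smul_left]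
    rw [h.uw, h.pw, h.vw, ← h.hc]
    have : cr l (S.v + l) = 0 := by rw [cr_add_right, cr_self, h.lv]; ring
    rw [this]; ring
  rw [h2] at h1
  have h3 := dvd_sub h1 (hφ.mul_right (cr (S.u + q • S.v + τ • l + p) S.u))
  have e1 : φ * cr (S.u + q • S.v + τ • l + p) S.u + (A + e + (a + b)) -
      φ * cr (S.u + q • S.v + τ • l + p) S.u = (A + b) + (e + a) := by ring
  rw [e1] at h3
  exact (dvd_add_left (dvd_add he ha)).1 h3

/-- **the left criterion** -/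
theorem KF.left_le (h : KF K S a' b c A a e f Y φ l p l' p') (hF : S.Full) {N : ℕ}
    (hN : N.Prime) (hv : a + A + a' = N) (hb3 : 3 ≤ b) (hAc : A < c) (hAb : A < b)
    (he4 : e < 4 * A) {g D1 e1 : ℤ} (hg : 0 < g) (hco : IsCoprime D1 e1)
    (hD : a + b - A - e = g * D1) (he1 : e = g * e1) (T : Finset ℕ) (hTp : ∀ r ∈ T, r.Prime)
    (hW : ∀ r : ℕ, r.Prime → (r : ℤ) ∣ a' → (r : ℤ) ∣ A + e → (¬ (r : ℤ) ∣ A ∨ (r : ℤ) ∣ K) →
      ((r : ℤ) ∣ c ∨ ∃ m : ℕ, (r : ℤ) ^ m ∣ a + b ∧ ¬ (r : ℤ) ^ m ∣ b) → (r : ℤ) ∣ D1 → r ∈ T)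
    (hT : ∀ r : ℕ, r.Prime → (r : ℤ) ∣ a' → (r : ℤ) ∣ e → ¬ (r : ℤ) ∣ A →
      (r = 2 → (4 : ℤ) ∣ e) → (r ≠ 2 → ¬ (r : ℤ) ∣ φ ∨ (r : ℤ) ∣ A + b) → (r : ℤ) ∣ e1 → r ∈ T)
    (hM : g * 2 ^ T.card < e - A + a - b ∨ (g * 2 ^ T.card = e - A + a - b ∧
      ¬ 2 * g ∣ 2 * f - (a + b - A - e) + (e - A + a - b))) : False := by
  classical
  obtain ⟨κ, hκ⟩ := h.ext.exists_kappaL h.ad hF
  rw [h.hA, h.he, h.ha] at hκ
  have hA0 := h.A0
  have he0 := h.e0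
  have hb0 := h.b0
  have ha0 := h.a0
  have hAe0 : A < e := by
    have h1 : 0 < e - A + a - b := by
      have h2 : 0 < g * 2 ^ T.card := by positivity
      rcases hM with h3 | h3
      · linarith
      · linarith [h3.1]
    have h2 : A * (e - A + a - b) = (b + A) * (e - A) := by linear_combination h.aA
    have h3 : 0 < (b + A) * (e - A) := by rw [← h2]; exact mul_pos hA0 h1
    have h4 := (mul_pos_iff_of_pos_left (by linarith : 0 < b + A)).1 h3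
    linarith
  have har : A * a = b * e := by linear_combination h.aA
  -- the sets of primes
  set P1 : ℕ → Prop := fun r => r.Prime ∧ (r : ℤ) ∣ A + e ∧ (r : ℤ) ∣ a' ∧
    (¬ (r : ℤ) ∣ A ∨ (r : ℤ) ∣ K) ∧
    ((r : ℤ) ∣ c ∨ ∃ m : ℕ, (r : ℤ) ^ m ∣ a + b ∧ ¬ (r : ℤ) ^ m ∣ b) with hP1
  set P2 : ℕ → Prop := fun r => r.Prime ∧ (r : ℤ) ∣ e ∧ ¬ (r : ℤ) ∣ A ∧ (r : ℤ) ∣ a' ∧
    (r = 2 → (4 : ℤ) ∣ e) ∧ (r ≠ 2 → ¬ (r : ℤ) ∣ φ ∨ (r : ℤ) ∣ A + b) with hP2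
  set Pr : Finset ℕ := (A + e).natAbs.primeFactors.filter P1 with hPr
  set Pl : Finset ℕ := e.natAbs.primeFactors.filter P2 with hPl
  have mPr : ∀ r : ℕ, r ∈ Pr ↔ P1 r := by
    intro r
    rw [hPr, Finset.mem_filter, Nat.mem_primeFactors, ← Int.natCast_dvd]
    constructor
    · exact fun h9 => h9.2
    · intro h9
      refine ⟨⟨h9.1, h9.2.1, ?_⟩, h9⟩
      have : 0 < A + e := by linarith
      omega
  have mPl : ∀ r : ℕ, r ∈ Pl ↔ P2 r := by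
    intro r
    rw [hPl, Finset.mem_filter, Nat.mem_primeFactors, ← Int.natCast_dvd]
    constructor
    · exact fun h9 => h9.2
    · intro h9
      refine ⟨⟨h9.1, h9.2.1, ?_⟩, h9⟩
      omega
  have hprr : ∀ r ∈ Pr, r.Prime := fun r hr => ((mPr r).1 hr).1
  have hprl : ∀ r ∈ Pl, r.Prime := fun r hr => ((mPl r).1 hr).1
  have hdis : Disjoint Pr Pl := by
    rw [Finset.disjoint_left]
    intro r h1 h2
    have h3 := ((mPr r).1 h1).2.1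
    obtain ⟨_, h4, h5, _⟩ := (mPl r).1 h2
    apply h5
    have := dvd_sub h3 h4
    rwa [add_sub_cancel_right] at this
  -- the window
  set κT : ℕ → ℤ := fun r => if r ∈ Pr then κ r * e1 else -(κ r * D1) with hκT
  have eκ1 : ∀ r ∈ Pr, κT r = κ r * e1 := fun r hr => if_pos hr
  have eκ2 : ∀ r ∈ Pl, κT r = -(κ r * D1) := fun r hr =>
    if_neg (fun h9 => (Finset.disjoint_left.1 hdis) h9 hr)
  have D1pos : 0 < D1 := by
    have h1 : A * (a + b - A - e) = (b - A) * (A + e) := by linear_combination har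
    have h2 : 0 < a + b - A - e := by
      have h3 : 0 < A * (a + b - A - e) := by rw [h1]; exact mul_pos (by linarith) (by linarith)
      exact (mul_pos_iff_of_pos_left hA0).1 h3
    rw [hD] at h2
    exact (mul_pos_iff_of_pos_left hg).1 h2
  have e1pos : 0 < e1 := by rw [he1] at he0; exact (mul_pos_iff_of_pos_left hg).1 he0
  obtain ⟨n, hn1, hn2⟩ := exists_window' (Φ0 := 2 * f - (a + b - A - e)) hg T hTp κT hM
  obtain ⟨ρ, t, m1, m2, m3, m4⟩ := crt_pair (n := n) hco Pr Pl hprr hprl hdis κ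
    (fun r hr hrd => by
      obtain ⟨k1, k2, k3, k4, k5⟩ := (mPr r).1 hr
      have := hn2 r (hW r k1 k3 k2 k4 k5 hrd)
      rwa [eκ1 r hr] at this)
    (fun r hr hrd => by
      obtain ⟨k1, k2, k3, k4, k5, k6⟩ := (mPl r).1 hr
      have := hn2 r (hT r k1 k4 k2 k3 k5 k6 hrd)
      rwa [eκ2 r hr, sub_neg_eq_add] at this)
    (X := e) (Y := 2 * (A + e)) (Z := A + e + f) (by
      have : 0 < e * D1 + (2 * (A + e)) * e1 := by
        have := mul_pos he0 D1pos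
        have := mul_pos (by linarith : 0 < 2 * (A + e)) e1pos
        linarith
      exact this.ne')
  have hΦ : 2 * f + 2 * ρ * e - (1 + 2 * t) * (a + b - A - e) =
      2 * f - (a + b - A - e) + 2 * g * n := by
    rw [← m1]
    linear_combination (2 * ρ) * he1 - (2 * t) * hD
  have E1 : cr p S.v = b := h.hb
  have hx : LEx (cr S.u S.v) (cr p S.v) (cr S.u l) (cr S.u p) (cr p l) (1 + 2 * t)
      (ρ + (1 + 2 * t)) := by
    rw [E1, h.hA, h.he, h.hf, h.ha]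
    exact lex_of_abs hA0 hAb.le hAe0.le har (by rw [hΦ]; exact hn1)
  obtain ⟨T1, k1, k2, k3, k4, k5, k6⟩ := h.ext.exitT h.ad hx
  obtain ⟨l2, p2, l2', p2', ad2⟩ := exists_Ad k1.ok'
  have hC := ad2.isC'
  rw [k2] at hC
  rw [k5] at hC
  obtain ⟨B, hC⟩ : ∃ B : ℤ,
      IsC S.L' (S.u + (1 + 2 * t) • S.v + (ρ + (1 + 2 * t)) • l + p) B := ⟨_, hC⟩
  obtain ⟨c1, c2, c3, c4⟩ := hκ ρ t _ hC
  have hdz : ∀ (r : ℕ) (k : ℕ), 0 < k → (r : ℤ) ^ k ∣ B →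
      ∀ z ∈ S.L', (r : ℤ) ∣ cr (S.u + (1 + 2 * t) • S.v + (ρ + (1 + 2 * t)) • l + p) z :=
    fun r k hk0 hk z hz => ((dvd_pow_self _ hk0.ne').trans hk).trans (hC.2.1 z hz)
  have hAe : ∀ r : ℕ, (r : ℤ) ∣ c → (r : ℤ) ∣ A + e := fun r h9 => by
    rw [← h.hc]; exact h9.mul_left _
  -- a prime of `Pr` or never bad
  have badW : ∀ r : ℕ, r.Prime → (r : ℤ) ∣ c → (r : ℤ) ∣ a' → ¬ (r : ℤ) ∣ B := by
    intro r hr hrc hra hrB
    by_cases h9 : ¬ (r : ℤ) ∣ A ∨ (r : ℤ) ∣ K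
    · exact m2 r ((mPr r).2 ⟨hr, hAe r hrc, hra, h9, Or.inl hrc⟩) (c1 r hr hrc hra hrB)
    · push Not at h9
      exact h.dropA hN hv hr h9.2 h9.1 hrc _ _ (hdz r 1 one_pos (by simpa using hrB))
  have hgd : GoodB (cr S.u S.v) b c (cr S.u l) (cr p l) a' B := by
    rw [h.hA, h.he, h.ha]
    refine ⟨badW, fun r hr hr2 hre hrA hrc hra k hk => ?_, fun hre hrA hrc hra k hk => ?_,
      fun r hr hra hm k hk => ?_⟩
    · by_contra hn
      have hk0 : 0 < k := by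
        rcases Nat.eq_zero_or_pos k with h9 | h9
        · exfalso; apply hn; rw [h9, pow_zero]; exact one_dvd _
        · exact h9
      by_cases h9 : ¬ (r : ℤ) ∣ φ ∨ (r : ℤ) ∣ A + b
      · exact m3 r ((mPl r).2 ⟨hr, hre, hrA, hra, fun h8 => absurd h8 hr2, fun _ => h9⟩)
          (c3 r hr hr2 hre hrA hrc hra k hk hn)
      · push Not at h9
        exact h.dropT hr hre hrA h9.1 h9.2 _ _ (hdz r k hk0 hk)
    · by_contra hn
      have h8 := c4 hre hrA hrc hra k hk hn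
      refine m3 2 ((mPl 2).2 ⟨Nat.prime_two, ?_, by exact_mod_cast hrA, by exact_mod_cast hra,
        fun _ => hre, fun h9 => absurd rfl h9⟩) (by exact_mod_cast h8)
      have : (2 : ℤ) ∣ e := (by norm_num : (2 : ℤ) ∣ 4).trans hre
      exact_mod_cast this
    · by_cases hrc : (r : ℤ) ∣ c
      · rcases Nat.eq_zero_or_pos k with hk0 | hk0
        · rw [hk0, pow_zero]; exact one_dvd _
        · exact absurd ((dvd_pow_self _ hk0.ne').trans hk) (badW r hr hrc hra)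
      · by_contra hn
        have hk0 : 0 < k := by
          rcases Nat.eq_zero_or_pos k with h9 | h9
          · exfalso; apply hn; rw [h9, pow_zero]; exact one_dvd _
          · exact h9
        obtain ⟨h8, h7⟩ := c2 r hr hrc hra hm k hk hn
        have h6 : (r : ℤ) ∣ K := by
          rw [← h.hc] at h8
          exact ((Nat.prime_iff_prime_int.1 hr).dvd_or_dvd h8).resolve_right hrc
        exact m2 r ((mPr r).2 ⟨hr, h8, hra, Or.inr h6, Or.inr hm⟩) h7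
  obtain ⟨-, m, hm, hem⟩ := h.ext.good_num hN h.ad (by rw [h.ha, h.hA, h.lp']; exact hv) hb3
    (by rw [h.hA]; exact hAc) hx (by
      rw [h.hA, h.he, h.hf]
      intro h9
      apply m4
      linear_combination h9) hC hgd
  rw [h.hA, h.he] at hem
  have h9 : 3 ≤ b * m := by
    have := mul_le_mul hb3 (show (1 : ℤ) ≤ m by omega) (by norm_num) hb0.le
    linarith
  have h8 := mul_le_mul_of_nonneg_left h9 hA0.le
  rw [hem] at he4
  linarith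

/-- the case `N = 13` -/
theorem KF.left13 (h : KF K S a' b c A a e f Y φ l p l' p') (hF : S.Full) {N : ℕ}
    (hN : N.Prime) (hv : a + A + a' = N) (hAc : A < c) (hA : A = 2) (hb : b = 4) (he : e = 4)
    (ha : a = 8) (ha' : a' = 3) : False := by
  have h3 : ∀ r : ℕ, r.Prime → (r : ℤ) ∣ a' → r ∈ ({3} : Finset ℕ) := by
    intro r hr h1
    rw [ha'] at h1
    have h2 : r ∣ 3 := by exact_mod_cast h1
    rw [Finset.mem_singleton]
    exact (Nat.prime_dvd_prime_iff_eq hr Nat.prime_three).1 h2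
  refine h.left_le hF hN hv (by omega) hAc (by omega) (by omega) (g := 2) (D1 := 3) (e1 := 2)
    (by norm_num) ⟨1, -1, by norm_num⟩ (by omega) (by omega) {3}
    (fun r hr => by rw [Finset.mem_singleton] at hr; rw [hr]; exact Nat.prime_three)
    (fun r hr h1 _ _ _ _ => h3 r hr h1) (fun r hr h1 _ _ _ _ _ => h3 r hr h1) (Or.inl ?_)
  rw [Finset.card_singleton, hA, hb, he, ha]; norm_num

/-- the case `N = 31` -/
theorem KF.left31 (h : KF K S a' b c A a e f Y φ l p l' p') (hF : S.Full) {N : ℕ}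
    (hN : N.Prime) (hv : a + A + a' = N) (hAc : A < c) (hA : A = 4) (hb : b = 12) (he : e = 8)
    (ha : a = 24) (ha' : a' = 3) (hf : (8 : ℤ) ∣ f) : False := by
  have h3 : ∀ r : ℕ, r.Prime → (r : ℤ) ∣ a' → r ∈ ({3} : Finset ℕ) := by
    intro r hr h1
    rw [ha'] at h1
    have h2 : r ∣ 3 := by exact_mod_cast h1
    rw [Finset.mem_singleton]
    exact (Nat.prime_dvd_prime_iff_eq hr Nat.prime_three).1 h2
  refine h.left_le hF hN hv (by omega) hAc (by omega) (by omega) (g := 8) (D1 := 3) (e1 := 1)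
    (by norm_num) isCoprime_one_right (by omega) (by omega) {3}
    (fun r hr => by rw [Finset.mem_singleton] at hr; rw [hr]; exact Nat.prime_three)
    (fun r hr h1 _ _ _ _ => h3 r hr h1) (fun r hr h1 _ _ _ _ _ => h3 r hr h1) (Or.inr ⟨?_, ?_⟩)
  · rw [Finset.card_singleton, hA, hb, he, ha]; norm_num
  · rw [hA, hb, he, ha]; omega

end Pool.Agent.H4G
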