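import Pool.Agent.H4G.Arith.K2DataDef
import Pool.Agent.H4G.Arith.K2NumT
import Pool.Agent.H4G.Arith.LThin23
import Pool.Agent.H4G.Arith.KOdd

/-!
# LINE B, `K = 2`: the left criterion in reduced numbers (helper40)
-/

set_option autoImplicit false

namespace Pool.Agent.H4G

variable {S : PSt} {a' b c A a e f Y φ : ℤ} {l p l' p' : Z2} {g1 m1 n0 A0 b0 hh : ℕ}

theorem KF.left40 (h : KF 2 S a' b c A a e f Y φ l p l' p') (hF : S.Full) {N : ℕ}
    (hN : N.Prime) (hv : a + A + a' = N) (hb3 : 3 ≤ b) (hAc : A < c) (hAb : A < b)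
    (he3 : e < 3 * A) (D : K2D A b c a e Y g1 m1 n0 A0 b0 hh)
    (h2 : (2 : ℤ) ∣ a' → hh = 1 ∧ ¬ 2 ∣ m1) :
    ∃ T : Finset ℕ, K2.TB g1 m1 n0 A0 b0 T ∧ (2 ∈ T → (2 : ℤ) ∣ a') ∧
      ¬ K2.LT g1 m1 A0 b0 T := by
  classical
  have hg0 := D.g0
  have hgm := D.gm
  have hA00 := D.A00
  have hAb0 := D.Ab0
  have hh0 := D.h0
  set z : ℕ := g1 + m1 with hz
  set G1 : ℕ := Nat.gcd z A0 with hG1
  set G2 : ℕ := Nat.gcd (b0 - A0) m1 with hG2
  have hG10 : 0 < G1 := Nat.gcd_pos_of_pos_right _ hA00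
  have hG20 : 0 < G2 := Nat.gcd_pos_of_pos_right _ (by omega)
  have ez : G1 * (z / G1) = z := Nat.mul_div_cancel' (Nat.gcd_dvd_left _ _)
  have eA : G1 * (A0 / G1) = A0 := Nat.mul_div_cancel' (Nat.gcd_dvd_right _ _)
  have eb : G2 * ((b0 - A0) / G2) = b0 - A0 := Nat.mul_div_cancel' (Nat.gcd_dvd_left _ _)
  have em : G2 * (m1 / G2) = m1 := Nat.mul_div_cancel' (Nat.gcd_dvd_right _ _)
  set D1 : ℕ := z / G1 * ((b0 - A0) / G2) with hD1
  set E1 : ℕ := A0 / G1 * (m1 / G2) with hE1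
  have hzm : Nat.Coprime z m1 := by
    rw [hz]
    exact (Nat.coprime_add_self_left).2 D.co
  have hbA : Nat.Coprime (b0 - A0) A0 := by
    have h1 : Nat.Coprime b0 A0 := D.cAb.symm
    exact (Nat.coprime_sub_self_left hAb0.le).2 h1
  have hco : Nat.Coprime D1 E1 := by
    refine Nat.Coprime.mul_left (Nat.Coprime.mul_right ?_ ?_) (Nat.Coprime.mul_right ?_ ?_)
    · exact Nat.coprime_div_gcd_div_gcd hG10
    · exact (hzm.coprime_dvd_left (Nat.div_dvd_of_dvd (Nat.gcd_dvd_left _ _))).coprime_dvd_right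
        (Nat.div_dvd_of_dvd (Nat.gcd_dvd_right _ _))
    · exact (hbA.coprime_dvd_left (Nat.div_dvd_of_dvd (Nat.gcd_dvd_left _ _))).coprime_dvd_right
        (Nat.div_dvd_of_dvd (Nat.gcd_dvd_right _ _))
    · exact Nat.coprime_div_gcd_div_gcd hG20
  have hD10 : D1 ≠ 0 := by
    intro h0
    rcases Nat.mul_eq_zero.1 h0 with h1 | h1
    · rw [h1, mul_zero] at ez; omega
    · rw [h1, mul_zero] at eb; omega
  have hE10 : E1 ≠ 0 := by
    intro h0
    rcases Nat.mul_eq_zero.1 h0 with h1 | h1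
    · rw [h1, mul_zero] at eA; omega
    · rw [h1, mul_zero] at em; omega
  set T : Finset ℕ := (D1 * E1).primeFactors.filter (fun r => (r : ℤ) ∣ a' ∧
    ((r ∣ A0 * z ∧ r ∣ D1) ∨ (r ∣ m1 ∧ ¬ r ∣ g1 * A0 ∧ r ∣ E1 ∧ r ∣ g1 * n0 - 2))) with hT
  have hmem : ∀ r : ℕ, r.Prime → (r : ℤ) ∣ a' →
      ((r ∣ A0 * z ∧ r ∣ D1) ∨ (r ∣ m1 ∧ ¬ r ∣ g1 * A0 ∧ r ∣ E1 ∧ r ∣ g1 * n0 - 2)) →
      r ∈ T := by
    intro r hr hra h3
    rw [hT, Finset.mem_filter]
    refine ⟨Nat.mem_primeFactors.2 ⟨hr, ?_, Nat.mul_ne_zero hD10 hE10⟩, hra, h3⟩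
    rcases h3 with h4 | h4
    · exact h4.2.mul_right _
    · exact h4.2.2.1.mul_left _
  refine ⟨T, fun r hr => ?_, fun h3 => ?_, fun hLT => ?_⟩
  · rw [hT, Finset.mem_filter] at hr
    refine ⟨Nat.prime_of_mem_primeFactors hr.1, ?_⟩
    rcases hr.2.2 with h3 | h3
    · exact Or.inl h3
    · exact Or.inr h3
  · rw [hT, Finset.mem_filter] at h3
    exact_mod_cast h3.2.1
  · -- LEFT
    have hzc : ((g1 : ℤ) + m1) = (G1 : ℤ) * ((z / G1 : ℕ) : ℤ) := by
      have : ((z : ℕ) : ℤ) = (g1 : ℤ) + m1 := by rw [hz]; push_cast; ring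
      rw [← this]; exact_mod_cast ez.symm
    have hAc' : (A0 : ℤ) = (G1 : ℤ) * ((A0 / G1 : ℕ) : ℤ) := by exact_mod_cast eA.symm
    have hbc : (b0 : ℤ) - A0 = (G2 : ℤ) * (((b0 - A0) / G2 : ℕ) : ℤ) := by
      rw [← Nat.cast_sub hAb0.le]; exact_mod_cast eb.symm
    have hmc : (m1 : ℤ) = (G2 : ℤ) * ((m1 / G2 : ℕ) : ℤ) := by exact_mod_cast em.symm
    have hg : (0 : ℤ) < ((hh * G1 * G2 : ℕ) : ℤ) := by
      have : 0 < hh * G1 * G2 := Nat.mul_pos (Nat.mul_pos hh0 hG10) hG20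
      exact_mod_cast this
    have e1 : a + b - A - e = ((hh * G1 * G2 : ℕ) : ℤ) * (D1 : ℤ) := by
      have e2 : a + b - A - e = (hh : ℤ) * (g1 + m1) * (b0 - A0) := by
        rw [D.ha, D.hb, D.hA, D.he]; ring
      rw [e2, hzc, hbc, hD1]; push_cast; ring
    have e3 : e = ((hh * G1 * G2 : ℕ) : ℤ) * (E1 : ℤ) := by
      have e2 : e = (hh : ℤ) * A0 * m1 := by rw [D.he]; ring
      rw [e2, hE1, hAc', hmc]; push_cast; ring
    refine h.left_le hF hN hv hb3 hAc hAb (by have := h.A0; linarith) hg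
      (Nat.isCoprime_iff_coprime.2 hco) e1 e3 T ?_ ?_ ?_ (Or.inl ?_)
    · intro r hr
      rw [hT, Finset.mem_filter] at hr
      exact Nat.prime_of_mem_primeFactors hr.1
    · intro r hr hra' hrAe _ _ hrD
      refine hmem r hr hra' (Or.inl ⟨?_, by exact_mod_cast hrD⟩)
      have h3 : (r : ℤ) ∣ ((hh * (A0 * z) : ℕ) : ℤ) := by
        have h4 : A + e = ((hh * (A0 * z) : ℕ) : ℤ) := by
          rw [D.hA, D.he, hz]; push_cast; ring
        rw [← h4]; exact hrAe
      have h5 : r ∣ hh * (A0 * z) := by exact_mod_cast h3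
      rcases (Nat.Prime.dvd_mul hr).1 h5 with h6 | h6
      · exfalso
        by_cases hr2 : r = 2
        · subst hr2
          have h7 := (h2 (by exact_mod_cast hra')).1
          rw [h7] at h6
          exact absurd h6 (by norm_num)
        · have h7 : r ∣ 2 ^ 2 := h6.trans (by simpa using D.h4)
          exact hr2 ((Nat.prime_dvd_prime_iff_eq hr Nat.prime_two).1 (hr.dvd_of_dvd_pow h7))
      · exact h6
    · intro r hr hra' hre hrA _ _ hrE
      have h3 : ¬ r ∣ g1 * (hh * A0) := by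
        intro h4
        apply hrA
        rw [D.hA]; exact_mod_cast h4
      have h4 : r ∣ m1 := by
        rw [D.he] at hre
        have h5 : r ∣ m1 * (hh * A0) := by exact_mod_cast hre
        rcases (Nat.Prime.dvd_mul hr).1 h5 with h6 | h6
        · exact h6
        · exact absurd (h6.mul_left g1) h3
      refine hmem r hr hra' (Or.inr ⟨h4, fun h5 => h3 ?_, by exact_mod_cast hrE, ?_⟩)
      · have : g1 * (hh * A0) = hh * (g1 * A0) := by ring
        rw [this]; exact h5.mul_left hh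
      · have hr2 : r ≠ 2 := by
          intro h5
          subst h5
          exact (h2 (by exact_mod_cast hra')).2 h4
        have hrc : ¬ (r : ℤ) ∣ c := by
          intro h5
          apply hrA
          have e5 : A = 2 * c - e := by linear_combination -h.hc
          rw [e5]; exact dvd_sub (h5.mul_left 2) hre
        have h6 : (r : ℤ) ∣ Y * c := by rw [← h.hy]; exact hra'.mul_left 2
        have h7 := (pdvd_mul hr h6).resolve_right hrc
        have hY := D.hY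
        have hY0 := h.Y0
        have h8 : ((g1 * n0 - 2 : ℕ) : ℤ) = Y := by
          have h9 : (2 : ℤ) ≤ ((g1 * n0 : ℕ) : ℤ) := by push_cast; linarith
          rw [Nat.cast_sub (by exact_mod_cast h9)]
          push_cast
          linarith
        rw [← h8] at h7
        exact_mod_cast h7
    · have h3 : ((2 ^ T.card * (G1 * G2) : ℕ) : ℤ) < (((m1 - g1) * (A0 + b0) : ℕ) : ℤ) := by
        exact_mod_cast hLT
      push_cast [Nat.cast_sub hgm.le] at h3
      have h4 : (0 : ℤ) < hh := by exact_mod_cast hh0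
      have h5 := mul_lt_mul_of_pos_left h3 h4
      have e5 : e - A + a - b = (hh : ℤ) * (((m1 : ℤ) - g1) * (A0 + b0)) := by
        rw [D.ha, D.hb, D.hA, D.he]; ring
      have e6 : ((hh * G1 * G2 : ℕ) : ℤ) * 2 ^ T.card = (hh : ℤ) * (2 ^ T.card * (G1 * G2)) := by
        push_cast; ring
      rw [e5, e6]
      exact h5

end Pool.Agent.H4G
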