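import Pool.Agent.H4G.Arith.K2NumT
set_option autoImplicit false

/-!
# Line B, K = 2: the number lemma N2P (type P2, level two; statement: helper40; proof: helper64)
-/

namespace Pool.Agent.H4G

open Finset

theorem K2.three_five (Q : Finset ℕ) (hQ : ∀ r ∈ Q, r.Prime) (h2 : 2 ∉ Q) :
    3 * 5 ^ Q.card ≤ 5 * ∏ r ∈ Q, r := by
  refine K1.pow_card {3} Q (fun r hr h4 => ?_) (by decide)
  have hp := hQ r hr
  interval_cases r <;> first
    | (exfalso; revert hp; norm_num; done)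
    | (exfalso; exact h2 hr)
    | simp

theorem K2.k35 {ν : ℕ} (hν : 0 < ν) : 3 * 5 ^ K2.k (2 * ν) ≤ 5 * ν := by
  have h1 := K2.three_five ((2 * ν).primeFactors.erase 2)
    (fun r hr => (K2.odd_prod (2 * ν) r hr).1) (Finset.notMem_erase _ _)
  have h2 := K2.two_mul_prod (n0 := 2 * ν) (j := 1) (by omega) (by norm_num)
  unfold K2.k
  rw [pow_one] at h2
  omega

theorem K2.two_le_five (j : ℕ) : 2 ^ j ≤ 5 ^ j := Nat.pow_le_pow_left (by norm_num) j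

theorem K2.nu_cases {ν : ℕ} (hν : 0 < ν) (ho : ¬ 2 ∣ ν)
    (h : ¬ 2 ^ (K2.k (2 * ν) + 2) + 1 ≤ ν) :
    (ν = 1 ∧ K2.k (2 * ν) = 0) ∨ ((ν = 3 ∨ ν = 5 ∨ ν = 7) ∧ K2.k (2 * ν) ≤ 1) ∨
      (ν = 15 ∧ K2.k (2 * ν) ≤ 2) := by
  have h3 := K2.k35 hν
  generalize K2.k (2 * ν) = k at *
  rcases k with _ | _ | _ | j
  · norm_num at h h3
    have : ν = 1 ∨ ν = 3 := by omega
    rcases this with rfl | rfl
    · left; exact ⟨rfl, rfl⟩
    · right; left; exact ⟨by omega, by omega⟩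
  · norm_num at h h3
    right; left; exact ⟨by omega, by omega⟩
  · norm_num at h h3
    right; right; exact ⟨by omega, by omega⟩
  · exfalso
    have h4 := K2.two_le_five j
    have e1 : 5 ^ (j + 3) = 125 * 5 ^ j := by ring
    have e2 : 2 ^ (j + 3 + 2) = 32 * 2 ^ j := by ring
    rw [e1] at h3
    rw [e2] at h
    have h5 : 1 ≤ 2 ^ j := Nat.one_le_two_pow
    omega

/-- number of primes of `z1`, `4 ∣ z1` -/
theorem K2.om_z {z1 : ℕ} (h0 : 0 < z1) (h4 : 4 ∣ z1) :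
    ∃ w, z1.primeFactors.card = w + 1 ∧ 12 * 5 ^ w ≤ 5 * z1 := by
  have h2 : 2 ∈ z1.primeFactors :=
    Nat.mem_primeFactors.2 ⟨Nat.prime_two, (by norm_num : 2 ∣ 4).trans h4, h0.ne'⟩
  refine ⟨(z1.primeFactors.erase 2).card, ?_, ?_⟩
  · rw [Finset.card_erase_add_one h2]
  · have h1 := K2.three_five (z1.primeFactors.erase 2)
      (fun r hr => (K2.odd_prod z1 r hr).1) (Finset.notMem_erase _ _)
    have h3 := K2.two_mul_prod (n0 := z1) (j := 2) h0 (by norm_num; exact h4)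
    norm_num at h3
    omega

theorem K2.c2 {z w : ℕ} (h0 : 0 < z) (h4 : 4 ∣ z) (h : 12 * 5 ^ w ≤ 5 * z) :
    2 * 2 ^ (w + 1) ≤ z := by
  rcases w with _ | j
  · norm_num at h ⊢
    omega
  · have h4 := K2.two_le_five j
    have e1 : 5 ^ (j + 1) = 5 * 5 ^ j := by ring
    have e2 : 2 ^ (j + 1 + 1) = 4 * 2 ^ j := by ring
    rw [e1] at h
    rw [e2]
    omega

theorem K2.c3 {z w : ℕ} (h8 : 8 ≤ z) (h : 12 * 5 ^ w ≤ 5 * z) : 3 * 2 ^ (w + 1) ≤ z := by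
  rcases w with _ | j
  · norm_num at h ⊢
    omega
  · have h4 := K2.two_le_five j
    have e1 : 5 ^ (j + 1) = 5 * 5 ^ j := by ring
    have e2 : 2 ^ (j + 1 + 1) = 4 * 2 ^ j := by ring
    rw [e1] at h
    rw [e2]
    omega

theorem K2.c6 {z w : ℕ} (h8 : 24 ≤ z) (h : 12 * 5 ^ w ≤ 5 * z) : 6 * 2 ^ (w + 1) ≤ z := by
  rcases w with _ | _ | j
  · norm_num at h ⊢
    omega
  · norm_num at h ⊢
    omega
  · have h4 := K2.two_le_five j
    have e1 : 5 ^ (j + 2) = 25 * 5 ^ j := by ring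
    have e2 : 2 ^ (j + 2 + 1) = 8 * 2 ^ j := by ring
    rw [e1] at h
    rw [e2]
    omega

theorem K2.c8 {z w : ℕ} (h8 : 64 ≤ z) (h : 12 * 5 ^ w ≤ 5 * z) : 8 * 2 ^ (w + 1) ≤ z := by
  rcases w with _ | _ | _ | j
  · norm_num at h ⊢
    omega
  · norm_num at h ⊢
    omega
  · norm_num at h ⊢
    omega
  · have h4 := K2.two_le_five j
    have e1 : 5 ^ (j + 3) = 125 * 5 ^ j := by ring
    have e2 : 2 ^ (j + 3 + 1) = 16 * 2 ^ j := by ring
    rw [e1] at h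
    rw [e2]
    omega

/-! ## the finite check -/

def K2.plP : List ℕ := [2, 3, 5, 7, 11, 13, 17, 19, 23, 29, 31, 37, 41, 43, 47, 53, 59, 61, 67, 71,
  73, 79, 83, 89, 97, 101, 103, 107, 109, 113]

theorem K2.mem_plP : ∀ r < 116, r.Prime → r ∈ K2.plP := by decide +kernel

/-- the condition on the bad primes -/
def K2.condP (g d ν A0 r : ℕ) : Bool :=
  (2 * (g + d)) / Nat.gcd (2 * (g + d)) A0 % r == 0 ||
    ((g + 2 * d) % r == 0 && (g * (2 * ν) - 2) % r == 0 && !((g * A0) % r == 0))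

def K2.chkP (g d : ℕ) (x : ℕ × ℕ × ℕ × ℕ) : Bool :=
  !(g % 2 == 1) || !(d % 2 == 1) || !(Nat.gcd g d == 1) || Nat.ble g 2 ||
  (g == 5 && d == 1 && x.1 == 3 && x.2.2.1 == 2) ||
  Nat.ble (2 ^ (x.2.1 + (if d == 1 && (g * (2 * x.1) - 2) % (g + 2) == 0 then 2 else 1)) *
    (g * (4 * Nat.gcd (g * (2 * x.1) - 2) (2 * x.1 * (2 * (g + d)) - 4))))
      ((g * (2 * x.1) - 6) * (2 * (g + d))) ||
  Nat.blt (2 ^ (K2.plP.filter (K2.condP g d x.1 x.2.2.2)).length *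
    (Nat.gcd (2 * (g + d)) x.2.2.2 * Nat.gcd (x.2.2.1 - x.2.2.2) (g + 2 * d)))
      (2 * d * (x.2.2.2 + x.2.2.1))

/-- the quadruples `ν, k, b0, A0` -/
def K2.lstP : List (ℕ × ℕ × ℕ × ℕ) :=
  [(1, 0, 2, 1), (3, 1, 2, 1), (3, 1, 6, 1), (3, 1, 6, 5),
   (5, 1, 2, 1), (5, 1, 10, 1), (5, 1, 10, 3), (5, 1, 10, 7), (5, 1, 10, 9),
   (7, 1, 2, 1), (7, 1, 14, 1), (7, 1, 14, 3), (7, 1, 14, 5), (7, 1, 14, 9), (7, 1, 14, 11),
   (7, 1, 14, 13),
   (15, 2, 2, 1), (15, 2, 6, 1), (15, 2, 6, 5), (15, 2, 10, 1), (15, 2, 10, 3), (15, 2, 10, 7),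
   (15, 2, 10, 9), (15, 2, 30, 1), (15, 2, 30, 7), (15, 2, 30, 11), (15, 2, 30, 13),
   (15, 2, 30, 17), (15, 2, 30, 19), (15, 2, 30, 23), (15, 2, 30, 29)]

theorem K2.chkP_all : ∀ g < 30, ∀ d < g, ∀ x ∈ K2.lstP, K2.chkP g d x = true := by
  decide +kernel

theorem K2.lst_mem : ∀ b0 < 31, ∀ A0 < b0,
    ∀ x ∈ ([(1, 0), (3, 1), (5, 1), (7, 1), (15, 2)] : List (ℕ × ℕ)),
    (b0 ∣ 2 * x.1 ∧ 2 ∣ b0 ∧ ¬ 2 ∣ A0 ∧ Nat.gcd A0 b0 = 1) →
    K2.lstP.elem ((x.1, x.2, b0, A0) : ℕ × ℕ × ℕ × ℕ) = true := by decide +kernel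

def K2.c0P (A0 : ℕ) : ℕ := if A0 = 1 then 8 else if A0 = 3 then 6 else if A0 ≤ 7 then 3 else 2

theorem K2.lst_big : ∀ x ∈ K2.lstP, 31 * (2 ^ (x.2.1 + 4) * (x.2.2.1 - x.2.2.2)) ≤
    (31 * x.1 - 3) * (K2.c0P x.2.2.2 * (x.2.2.2 + x.2.2.1)) := by decide +kernel

/-- a bad prime of the first kind divides `z / gcd z A0` -/
theorem K2.bad1 {z A0 b0 m r : ℕ} (hr : r.Prime) (hc : Nat.Coprime A0 b0) (hAb : A0 < b0)
    (h1 : r ∣ A0 * z) (h2 : r ∣ (z / Nat.gcd z A0) * ((b0 - A0) / Nat.gcd (b0 - A0) m)) :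
    r ∣ z / Nat.gcd z A0 := by
  rcases hr.dvd_mul.1 h2 with h3 | h3
  · exact h3
  · have h4 : r ∣ b0 - A0 := h3.trans (Nat.div_dvd_of_dvd (Nat.gcd_dvd_left _ _))
    have h5 : ¬ r ∣ A0 := by
      intro h6
      have h7 : r ∣ b0 := by
        have h8 := dvd_add h4 h6
        rwa [Nat.sub_add_cancel hAb.le] at h8
      have h8 := Nat.dvd_gcd h6 h7
      rw [hc] at h8
      exact hr.one_lt.ne' (Nat.dvd_one.1 h8)
    have h6 : r ∣ z := (hr.dvd_mul.1 h1).resolve_left h5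
    have h7 : ¬ r ∣ Nat.gcd z A0 := fun h8 => h5 (h8.trans (Nat.gcd_dvd_right _ _))
    have h8 := Nat.gcd_dvd_left z A0
    generalize Nat.gcd z A0 = G at *
    obtain ⟨x, hx⟩ := h8
    rcases Nat.eq_zero_or_pos G with h8 | h8
    · rw [h8]; simp
    · rw [hx, Nat.mul_div_cancel_left _ h8]
      rw [hx] at h6
      exact (hr.dvd_mul.1 h6).resolve_left h7

theorem K2.big_calc {g γ d k ν u z1 G1 G2 A0 b0 w t : ℕ} (hg : 31 ≤ g) (hu : g * ν = 2 * u + 1)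
    (hγd : γ ≤ d) (hz : 2 * (g + d) = G1 * z1) (hG2 : G2 ≤ b0 - A0)
    (h1 : (g * ν - 3) * (g + d) < 2 ^ (k + 3) * (g * γ))
    (h2 : 2 * d * (A0 + b0) ≤ 2 ^ t * (G1 * G2)) (ht : t ≤ w + 1)
    (hc : K2.c0P A0 * 2 ^ w ≤ z1) (hb : 0 < b0)
    (hbig : 31 * (2 ^ (k + 4) * (b0 - A0)) ≤ (31 * ν - 3) * (K2.c0P A0 * (A0 + b0))) : False := by
  have hν : 0 < ν := by
    rcases Nat.eq_zero_or_pos ν with h9 | h9
    · rw [h9] at hu; omega
    · exact h9
  have hgν : g ≤ g * ν := Nat.le_mul_of_pos_right _ hν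
  obtain ⟨V, hV⟩ : ∃ V, g * ν = V + 3 := ⟨g * ν - 3, by omega⟩
  obtain ⟨X, hX⟩ : ∃ X, 31 * ν = X + 3 := ⟨31 * ν - 3, by omega⟩
  rw [hV, Nat.add_sub_cancel] at h1
  rw [hX, Nat.add_sub_cancel] at hbig
  -- `2 d (A0 + b0) ≤ 2 ^ (w + 1) G1 (b0 - A0)`
  have h3 : 2 * d * (A0 + b0) ≤ 2 ^ (w + 1) * (G1 * (b0 - A0)) :=
    h2.trans (Nat.mul_le_mul (Nat.pow_le_pow_right (by norm_num) ht) (Nat.mul_le_mul_left _ hG2))
  have h4 : V * (g + d) * (A0 + b0) < 2 ^ (k + 3) * (g * d) * (A0 + b0) := by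
    refine Nat.mul_lt_mul_of_pos_right (lt_of_lt_of_le h1 ?_) (by omega)
    exact Nat.mul_le_mul_left _ (Nat.mul_le_mul_left _ hγd)
  have h5 : V * (G1 * z1) * (A0 + b0) < 2 ^ (k + 3) * g * (2 ^ (w + 1) * (G1 * (b0 - A0))) := by
    calc V * (G1 * z1) * (A0 + b0) = 2 * (V * (g + d) * (A0 + b0)) := by rw [← hz]; ring
      _ < 2 * (2 ^ (k + 3) * (g * d) * (A0 + b0)) := by omega
      _ = 2 ^ (k + 3) * g * (2 * d * (A0 + b0)) := by ring
      _ ≤ _ := Nat.mul_le_mul_left _ h3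
  have h6 : V * z1 * (A0 + b0) < 2 ^ (k + 4) * g * (2 ^ w * (b0 - A0)) := by
    have h7 : G1 * (V * z1 * (A0 + b0)) < G1 * (2 ^ (k + 4) * g * (2 ^ w * (b0 - A0))) := by
      calc G1 * (V * z1 * (A0 + b0)) = V * (G1 * z1) * (A0 + b0) := by ring
        _ < _ := h5
        _ = _ := by rw [pow_succ 2 (k + 3), pow_succ 2 w]; ring
    exact Nat.lt_of_mul_lt_mul_left h7
  have h8 : V * (K2.c0P A0 * 2 ^ w) * (A0 + b0) < 2 ^ (k + 4) * g * (2 ^ w * (b0 - A0)) :=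
    lt_of_le_of_lt (Nat.mul_le_mul_right _ (Nat.mul_le_mul_left _ hc)) h6
  have h9 : V * (K2.c0P A0 * (A0 + b0)) < g * (2 ^ (k + 4) * (b0 - A0)) := by
    have h10 : 2 ^ w * (V * (K2.c0P A0 * (A0 + b0))) <
        2 ^ w * (g * (2 ^ (k + 4) * (b0 - A0))) := by
      calc 2 ^ w * (V * (K2.c0P A0 * (A0 + b0))) = V * (K2.c0P A0 * 2 ^ w) * (A0 + b0) := by ring
        _ < _ := h8
        _ = _ := by ring
    exact Nat.lt_of_mul_lt_mul_left h10
  -- monotone in `g`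
  have h10 : g * X ≤ 31 * V := by
    have e1 : g * (31 * ν) = 31 * (g * ν) := by ring
    rw [hX, hV] at e1
    have e2 : g * (X + 3) = g * X + 3 * g := by ring
    omega
  have h11 : 31 * (g * (2 ^ (k + 4) * (b0 - A0))) ≤ 31 * (V * (K2.c0P A0 * (A0 + b0))) := by
    calc 31 * (g * (2 ^ (k + 4) * (b0 - A0))) = g * (31 * (2 ^ (k + 4) * (b0 - A0))) := by ring
      _ ≤ g * (X * (K2.c0P A0 * (A0 + b0))) := Nat.mul_le_mul_left _ hbig
      _ = g * X * (K2.c0P A0 * (A0 + b0)) := by ring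
      _ ≤ 31 * V * (K2.c0P A0 * (A0 + b0)) := Nat.mul_le_mul_right _ h10
      _ = _ := by ring
  omega

/-- at most one bad prime of the second kind -/
theorem K2.card_T2 {g d ν u γ k : ℕ} (hg : 31 ≤ g) (hu : g * ν = 2 * u + 1)
    (hγu : γ ∣ u) (hγd : γ ∣ d) (hd0 : 0 < d) (hgo : ¬ 2 ∣ g)
    (hk : k ≤ 1 ∨ (k ≤ 2 ∧ ν = 15))
    (h1 : (g * ν - 3) * (g + d) < 2 ^ (k + 3) * (g * γ)) (T2 : Finset ℕ)
    (hT : ∀ r ∈ T2, r.Prime ∧ r ∣ g + 2 * d ∧ ¬ r ∣ g ∧ r ∣ 4 * u) : T2.card ≤ 1 := by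
  refine Finset.card_le_one.2 fun r hr s hs => ?_
  by_contra hrs
  obtain ⟨r1, r2, r3, r4⟩ := hT r hr
  obtain ⟨s1, s2, s3, s4⟩ := hT s hs
  have key : ∀ x : ℕ, x.Prime → x ∣ g + 2 * d → ¬ x ∣ g → x ∣ 4 * u →
      x ≠ 2 ∧ ¬ x ∣ γ ∧ x ∣ u := by
    intro x hx k1 k2 k3
    have hx2 : x ≠ 2 := by
      rintro rfl
      exact hgo (by omega)
    refine ⟨hx2, fun h9 => ?_, ?_⟩
    · apply k2
      have h10 : x ∣ 2 * d := (h9.trans hγd).mul_left _
      exact (Nat.dvd_add_left h10).1 k1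
    · have h10 : ¬ x ∣ 4 := by
        intro h11
        have h12 : x ∣ 2 ^ 2 := by norm_num; exact h11
        exact hx2 ((Nat.prime_dvd_prime_iff_eq hx Nat.prime_two).1 (hx.dvd_of_dvd_pow h12))
      exact (hx.dvd_mul.1 k3).resolve_left h10
  obtain ⟨r5, r6, r7⟩ := key r r1 r2 r3 r4
  obtain ⟨s5, s6, s7⟩ := key s s1 s2 s3 s4
  have c1 : Nat.Coprime r s := (Nat.coprime_primes r1 s1).2 hrs
  have c2 : r * s ∣ u := Nat.Coprime.mul_dvd_of_dvd_of_dvd c1 r7 s7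
  have c3 : Nat.Coprime γ (r * s) := by
    refine Nat.Coprime.mul_right ?_ ?_
    · exact ((Nat.Prime.coprime_iff_not_dvd r1).2 r6).symm
    · exact ((Nat.Prime.coprime_iff_not_dvd s1).2 s6).symm
  have c4 : γ * (r * s) ∣ u := Nat.Coprime.mul_dvd_of_dvd_of_dvd c3 hγu c2
  have hν : 0 < ν := by
    rcases Nat.eq_zero_or_pos ν with h9 | h9
    · rw [h9] at hu; omega
    · exact h9
  have hgν : g ≤ g * ν := Nat.le_mul_of_pos_right _ hν
  have c5 := Nat.le_of_dvd (by omega) c4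
  have c6 : 15 ≤ r * s := by
    have h3 := r1.two_le
    have h4 := s1.two_le
    have r8 : r ≠ 4 := by rintro rfl; revert r1; norm_num
    have s8 : s ≠ 4 := by rintro rfl; revert s1; norm_num
    rcases lt_or_gt_of_ne hrs with h9 | h9
    · calc 15 = 3 * 5 := by norm_num
        _ ≤ r * s := Nat.mul_le_mul (by omega) (by omega)
    · calc 15 = 5 * 3 := by norm_num
        _ ≤ r * s := Nat.mul_le_mul (by omega) (by omega)
  have c7 : γ * 15 ≤ u := le_trans (Nat.mul_le_mul_left _ c6) c5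
  have hγd' := Nat.le_of_dvd hd0 hγd
  obtain ⟨V, hV⟩ : ∃ V, g * ν = V + 3 := ⟨g * ν - 3, by omega⟩
  rw [hV, Nat.add_sub_cancel] at h1
  rcases hk with hk | ⟨hk, rfl⟩
  · have h2 : 2 ^ (k + 3) ≤ 2 ^ 4 := Nat.pow_le_pow_right (by norm_num) (by omega)
    have h3 : 28 * γ ≤ V := by omega
    have h4 : V * (g + d) < 16 * (g * γ) := by
      refine lt_of_lt_of_le h1 ?_
      exact Nat.mul_le_mul_right _ (by norm_num at h2; exact h2)
    have h5 : 28 * γ * (g + d) ≤ V * (g + d) := Nat.mul_le_mul_right _ h3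
    have h6 : 28 * γ * (g + d) = 28 * (g * γ) + 28 * (γ * d) := by ring
    omega
  · have h2 : 2 ^ (k + 3) ≤ 2 ^ 5 := Nat.pow_le_pow_right (by norm_num) (by omega)
    have h4 : V * (g + d) < 32 * (g * γ) := by
      refine lt_of_lt_of_le h1 ?_
      exact Nat.mul_le_mul_right _ (by norm_num at h2; exact h2)
    have h5 : V * (g + γ) ≤ V * (g + d) := Nat.mul_le_mul_left _ (by omega)
    obtain ⟨s', hs'⟩ : ∃ s', g = 2 * γ + 1 + s' := ⟨g - 2 * γ - 1, by omega⟩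
    have h6 : V = 30 * γ + 12 + 15 * s' := by omega
    rw [h6] at h5 h4
    have h7 : (30 * γ + 12 + 15 * s') * (g + γ) < 32 * (g * γ) := lt_of_le_of_lt h5 h4
    rw [hs'] at h7
    have e1 : (30 * γ + 12 + 15 * s') * (2 * γ + 1 + s' + γ) =
        90 * (γ * γ) + 66 * γ + 75 * (γ * s') + 12 + 27 * s' + 15 * (s' * s') := by ring
    have e2 : 32 * ((2 * γ + 1 + s') * γ) = 64 * (γ * γ) + 32 * γ + 32 * (γ * s') := by ring
    omega

/-- **N2P** -/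
theorem K2.n2p {g1 m1 n0 A0 b0 es ez e4 : ℕ} (H : K2.Num g1 m1 n0 A0 b0) (hg : ¬ 2 ∣ g1)
    (hm : ¬ 2 ∣ m1) (hz : 4 ∣ g1 + m1) (hA : ¬ 2 ∣ A0) (hb : 2 ∣ b0) (hn : 2 ∣ n0)
    (hn4 : ¬ 4 ∣ n0) (hex : ¬ (g1 = 5 ∧ m1 = 7 ∧ n0 = 6 ∧ b0 = 2)) {T : Finset ℕ}
    (hT : K2.TB g1 m1 n0 A0 b0 T) (hes : es ≤ 1) (hez : ez ≤ 1) (he4 : e4 ≤ 1)
    (fs : es = 1 → m1.Prime ∧ m1 = g1 + 2 ∧ m1 ∣ g1 * n0 - 2) (fx : ez = 0 ∨ e4 = 0) :
    K2.LT g1 m1 A0 b0 T ∨
      2 ^ (K2.k n0 + es + ez + e4) * (g1 * (4 * Nat.gcd (g1 * n0 - 2) (n0 * (g1 + m1) - 4))) ≤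
        (g1 * n0 - 6) * (g1 + m1) := by
  unfold K2.TB at hT
  unfold K2.LT
  classical
  have hgm := H.gm
  have hm3 := H.m3
  have hAb := H.Ab
  have hA0 := H.pA
  have hco := H.co
  have hcA := H.cAb
  have hbn := H.bn
  obtain ⟨d, rfl⟩ : ∃ d, m1 = g1 + 2 * d := ⟨(m1 - g1) / 2, by omega⟩
  obtain ⟨ν, rfl⟩ : ∃ ν, n0 = 2 * ν := hn
  have hdo : ¬ 2 ∣ d := by omega
  have hνo : ¬ 2 ∣ ν := by omega
  have hdg : d < g1 := by omega
  have hg3 : 3 ≤ g1 := by omega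
  have hν0 : 0 < ν := by omega
  have hd0 : 0 < d := by omega
  obtain ⟨u, hu⟩ : ∃ u, g1 * ν = 2 * u + 1 := by
    have h1 : ¬ 2 ∣ g1 * ν := fun h9 => (Nat.prime_two.dvd_mul.1 h9).elim hg hνo
    exact ⟨g1 * ν / 2, by omega⟩
  have hu0 : 0 < u := by
    have : 3 * 1 ≤ g1 * ν := Nat.mul_le_mul hg3 hν0
    omega
  have ez1 : g1 + (g1 + 2 * d) = 2 * (g1 + d) := by ring
  have en : g1 * (2 * ν) = 4 * u + 2 := by
    have : g1 * (2 * ν) = 2 * (g1 * ν) := by ring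
    omega
  have enz : 2 * ν * (2 * (g1 + d)) - 4 = 4 * (2 * u + ν * d) := by
    have : 2 * ν * (2 * (g1 + d)) = 4 * (g1 * ν) + 4 * (ν * d) := by ring
    omega
  have en2 : g1 * (2 * ν) - 2 = 4 * u := by omega
  obtain ⟨γ, hγ⟩ : ∃ γ, γ = Nat.gcd u (2 * u + ν * d) := ⟨_, rfl⟩
  have hγu : γ ∣ u := by rw [hγ]; exact Nat.gcd_dvd_left _ _
  have hγ0 : 0 < γ := by rw [hγ]; exact Nat.gcd_pos_of_pos_left _ hu0
  have hγd : γ ∣ d := by
    have h1 : γ ∣ 2 * u + ν * d := by rw [hγ]; exact Nat.gcd_dvd_right _ _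
    have h2 : γ ∣ ν * d := (Nat.dvd_add_right (hγu.mul_left 2)).1 h1
    refine Nat.Coprime.dvd_of_dvd_mul_left ?_ h2
    rw [Nat.coprime_iff_gcd_eq_one]
    have h3 : Nat.gcd γ ν ∣ g1 * ν := (Nat.gcd_dvd_right γ ν).mul_left g1
    have h4 : Nat.gcd γ ν ∣ 2 * u := ((Nat.gcd_dvd_left γ ν).trans hγu).mul_left 2
    rw [hu] at h3
    exact Nat.dvd_one.1 ((Nat.dvd_add_right h4).1 h3)
  have hγle := Nat.le_of_dvd hd0 hγd
  have egam : Nat.gcd (g1 * (2 * ν) - 2) (2 * ν * (2 * (g1 + d)) - 4) = 4 * γ := by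
    rw [en2, enz, Nat.gcd_mul_left, ← hγ]
  rw [ez1] at hT ⊢
  -- the flags
  have hF : (es = 0 ∧ es + ez + e4 ≤ 1) ∨
      (d = 1 ∧ es + ez + e4 ≤ 2 ∧ g1 + 2 ∣ g1 * (2 * ν) - 2) := by
    rcases Nat.eq_zero_or_pos es with h9 | h9
    · left; omega
    · right
      obtain ⟨-, h10, h11⟩ := fs (by omega)
      refine ⟨by omega, by omega, ?_⟩
      rw [← h10]; exact h11
  by_cases hν' : 2 ^ (K2.k (2 * ν) + 2) + 1 ≤ ν
  · -- right
    right
    rw [egam]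
    obtain ⟨x, hx⟩ : ∃ x, 2 ^ K2.k (2 * ν) = x := ⟨_, rfl⟩
    have hx4 : 4 * x + 1 ≤ ν := by
      rw [← hx]
      have : 2 ^ (K2.k (2 * ν) + 2) = 4 * 2 ^ K2.k (2 * ν) := by ring
      omega
    obtain ⟨y, hy⟩ : ∃ y, ν = 4 * x + 1 + y := ⟨ν - (4 * x + 1), by omega⟩
    obtain ⟨V, hV⟩ : ∃ V, g1 * ν = V + 3 := ⟨g1 * ν - 3, by
      have : 3 * 1 ≤ g1 * ν := Nat.mul_le_mul hg3 hν0
      omega⟩
    have hVx : 4 * (x * g1) ≤ V := by
      have : g1 * ν = 4 * (x * g1) + g1 + g1 * y := by rw [hy]; ring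
      omega
    have e6 : g1 * (2 * ν) - 6 = 2 * V := by
      have : g1 * (2 * ν) = 2 * (g1 * ν) := by ring
      omega
    rw [e6]
    have hp : K2.k (2 * ν) + es + ez + e4 = K2.k (2 * ν) + (es + ez + e4) := by ring
    rw [hp, pow_add, hx]
    rcases hF with ⟨-, h1⟩ | ⟨h0, h1, -⟩
    · have h2 : 2 ^ (es + ez + e4) ≤ 2 ^ 1 := Nat.pow_le_pow_right (by norm_num) h1
      calc x * 2 ^ (es + ez + e4) * (g1 * (4 * (4 * γ))) ≤ x * 2 ^ 1 * (g1 * (4 * (4 * d))) := by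
            gcongr
        _ = 8 * d * (4 * (x * g1)) := by ring
        _ ≤ 8 * d * V := Nat.mul_le_mul_left _ hVx
        _ ≤ 2 * V * (2 * (g1 + d)) := by
            have h5 := Nat.mul_le_mul_left V hdg.le
            have e7 : 2 * V * (2 * (g1 + d)) = 4 * (V * g1) + 4 * (V * d) := by ring
            have e8 : 8 * d * V = 8 * (V * d) := by ring
            omega
    · have h2 : 2 ^ (es + ez + e4) ≤ 2 ^ 2 := Nat.pow_le_pow_right (by norm_num) h1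
      have h3 : γ ≤ 1 := by omega
      calc x * 2 ^ (es + ez + e4) * (g1 * (4 * (4 * γ))) ≤ x * 2 ^ 2 * (g1 * (4 * (4 * 1))) := by
            gcongr
        _ = 16 * (4 * (x * g1)) := by ring
        _ ≤ 16 * V := Nat.mul_le_mul_left _ hVx
        _ ≤ 2 * V * (2 * (g1 + d)) := by
            have h4 : 4 ≤ g1 + d := by omega
            have h5 := Nat.mul_le_mul_left V h4
            have e7 : 2 * V * (2 * (g1 + d)) = 4 * (V * (g1 + d)) := by ring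
            omega
  · -- the finitely many `ν`
    have hcase := K2.nu_cases hν0 hνo hν'
    obtain ⟨k, hk, hkk, hmem⟩ : ∃ k, K2.k (2 * ν) ≤ k ∧ (k ≤ 1 ∨ (k ≤ 2 ∧ ν = 15)) ∧
        ((ν, k) : ℕ × ℕ) ∈ ([(1, 0), (3, 1), (5, 1), (7, 1), (15, 2)] : List (ℕ × ℕ)) := by
      rcases hcase with ⟨rfl, h1⟩ | ⟨h1, h2⟩ | ⟨rfl, h1⟩
      · exact ⟨0, by omega, by omega, by decide⟩
      · refine ⟨1, h2, by omega, ?_⟩
        rcases h1 with rfl | rfl | rfl <;> decide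
      · exact ⟨2, h1, by omega, by decide⟩
    have hν15 : ν ≤ 15 := by
      rcases hcase with ⟨rfl, h1⟩ | ⟨h1, h2⟩ | ⟨rfl, h1⟩ <;> omega
    have hb30 : b0 ≤ 2 * ν := Nat.le_of_dvd (by omega) hbn
    have hlst := List.elem_iff.1 (K2.lst_mem b0 (by omega) A0 hAb (ν, k) hmem ⟨hbn, hb, hA, hcA⟩)
    dsimp only at hlst
    -- it is enough to treat `R` with `k`
    have hRmono : ∀ E : ℕ, es + ez + e4 ≤ E →
        2 ^ (k + E) * (g1 * (4 * Nat.gcd (g1 * (2 * ν) - 2) (2 * ν * (2 * (g1 + d)) - 4))) ≤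
          (g1 * (2 * ν) - 6) * (2 * (g1 + d)) →
        2 ^ (K2.k (2 * ν) + es + ez + e4) *
          (g1 * (4 * Nat.gcd (g1 * (2 * ν) - 2) (2 * ν * (2 * (g1 + d)) - 4))) ≤
          (g1 * (2 * ν) - 6) * (2 * (g1 + d)) := by
      intro E hE h1
      refine le_trans (Nat.mul_le_mul_right _ (Nat.pow_le_pow_right (by norm_num) ?_)) h1
      omega
    have e2d : g1 + 2 * d - g1 = 2 * d := by omega
    rw [e2d]
    -- the two kinds of bad primes
    have hTk : ∀ r ∈ T, r.Prime ∧ (r ∣ 2 * (g1 + d) / Nat.gcd (2 * (g1 + d)) A0 ∨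
        (r ∣ g1 + 2 * d ∧ ¬ r ∣ g1 * A0 ∧ r ∣ 4 * u)) := by
      intro r hr
      obtain ⟨h1, h2 | h2⟩ := hT r hr
      · exact ⟨h1, Or.inl (K2.bad1 h1 hcA hAb h2.1 h2.2)⟩
      · refine ⟨h1, Or.inr ⟨h2.1, h2.2.1, ?_⟩⟩
        rw [← en2]; exact h2.2.2.2
    by_cases hbigg : g1 < 30
    · -- finite check
      have hchk := K2.chkP_all g1 hbigg d hdg _ hlst
      unfold K2.chkP at hchk
      simp only [Bool.or_eq_true, Bool.not_eq_true', beq_eq_false_iff_ne, Bool.and_eq_true,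
        beq_iff_eq, Nat.ble_eq, Nat.blt_eq] at hchk
      have hgd : Nat.gcd g1 d = 1 := by
        have h1 : Nat.gcd g1 d ∣ Nat.gcd g1 (g1 + 2 * d) := Nat.dvd_gcd (Nat.gcd_dvd_left _ _)
          (dvd_add (Nat.gcd_dvd_left _ _) ((Nat.gcd_dvd_right g1 d).mul_left 2))
        rw [hco] at h1
        exact Nat.dvd_one.1 h1
      rcases hchk with (((((h1 | h1) | h1) | h1) | h1) | h1) | h1
      · exact absurd (by omega) h1
      · exact absurd (by omega) h1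
      · exact absurd hgd h1
      · omega
      · exact absurd ⟨h1.1.1.1, by omega, by omega, h1.2⟩ hex
      · right
        rcases hF with ⟨-, h2⟩ | ⟨h0, h2, h3⟩
        · refine hRmono _ ?_ h1
          split_ifs <;> omega
        · refine hRmono _ ?_ h1
          rw [if_pos ⟨h0, Nat.mod_eq_zero_of_dvd h3⟩]
          exact h2
      · left
        refine lt_of_le_of_lt (Nat.mul_le_mul_right _ (Nat.pow_le_pow_right (by norm_num) ?_)) h1
        refine le_trans (card_le_card ?_) (List.toFinset_card_le _)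
        intro r hr
        obtain ⟨r1, r2⟩ := hTk r hr
        rw [List.mem_toFinset, List.mem_filter]
        refine ⟨K2.mem_plP r ?_ r1, ?_⟩
        · rcases r2 with r2 | ⟨r2, -, -⟩
          · have h2 := r2.trans (Nat.div_dvd_of_dvd (Nat.gcd_dvd_left _ _))
            have h3 := Nat.le_of_dvd (by omega) h2
            omega
          · have h3 := Nat.le_of_dvd (by omega) r2
            omega
        · unfold K2.condP
          rw [en2]
          simp only [Bool.or_eq_true, Bool.not_eq_true', beq_eq_false_iff_ne, Bool.and_eq_true,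
            beq_iff_eq]
          rcases r2 with r2 | ⟨r2, r3, r4⟩
          · exact Or.inl (Nat.mod_eq_zero_of_dvd r2)
          · refine Or.inr ⟨⟨Nat.mod_eq_zero_of_dvd r2, Nat.mod_eq_zero_of_dvd r4⟩, ?_⟩
            exact fun h9 => r3 (Nat.dvd_of_mod_eq_zero h9)
    · -- `31 ≤ g1`
      have hg31 : 31 ≤ g1 := by omega
      by_contra hcon
      push Not at hcon
      obtain ⟨hnL, hnR⟩ := hcon
      -- `es = 0`
      have hF1 : es + ez + e4 ≤ 1 := by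
        rcases hF with ⟨-, h1⟩ | ⟨h0, -, h2⟩
        · exact h1
        · exfalso
          -- `g1 + 2 ∣ 2 ν + 1`
          have h3 : g1 + 2 ∣ 2 * (2 * ν + 1) := by
            have h4 : g1 + 2 ∣ 2 * ν * (g1 + 2) := dvd_mul_left _ _
            have h5 := Nat.dvd_sub h4 h2
            have h6 : 2 * ν * (g1 + 2) - (g1 * (2 * ν) - 2) = 2 * (2 * ν + 1) := by
              have : 2 * ν * (g1 + 2) = g1 * (2 * ν) + 4 * ν := by ring
              omega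
            rwa [h6] at h5
          have h4 : Nat.Coprime (g1 + 2) 2 := by
            rw [Nat.coprime_comm]
            exact (Nat.prime_two.coprime_iff_not_dvd).2 (by omega)
          have h5 := h4.dvd_of_dvd_mul_left h3
          have := Nat.le_of_dvd (by omega) h5
          omega
      have hR1 : ¬ (2 ^ (k + 1) *
          (g1 * (4 * Nat.gcd (g1 * (2 * ν) - 2) (2 * ν * (2 * (g1 + d)) - 4))) ≤
          (g1 * (2 * ν) - 6) * (2 * (g1 + d))) := fun h9 => by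
        have := hRmono 1 hF1 h9
        omega
      rw [egam] at hR1
      push Not at hR1
      have h1 : (g1 * ν - 3) * (g1 + d) < 2 ^ (k + 3) * (g1 * γ) := by
        have e6 : g1 * (2 * ν) - 6 = 2 * (g1 * ν - 3) := by
          have : g1 * (2 * ν) = 2 * (g1 * ν) := by ring
          omega
        rw [e6] at hR1
        have e7 : 2 * (g1 * ν - 3) * (2 * (g1 + d)) = 4 * ((g1 * ν - 3) * (g1 + d)) := by ring
        have e8 : 2 ^ (k + 1) * (g1 * (4 * (4 * γ))) = 4 * (2 ^ (k + 3) * (g1 * γ)) := by ring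
        rw [e7, e8] at hR1
        omega
      -- the quantities
      obtain ⟨G1, hG1⟩ : ∃ G1, G1 = Nat.gcd (2 * (g1 + d)) A0 := ⟨_, rfl⟩
      rw [← hG1] at hnL hTk
      have hG1A : G1 ∣ A0 := by rw [hG1]; exact Nat.gcd_dvd_right _ _
      have hG1z : G1 ∣ 2 * (g1 + d) := by rw [hG1]; exact Nat.gcd_dvd_left _ _
      have hG10 : 0 < G1 := Nat.pos_of_dvd_of_pos hG1A hA0
      have hG1le := Nat.le_of_dvd hA0 hG1A
      obtain ⟨z1, hz1⟩ := hG1z
      have ediv : 2 * (g1 + d) / G1 = z1 := by rw [hz1, Nat.mul_div_cancel_left _ hG10]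
      rw [ediv] at hTk
      have hz10 : 0 < z1 := by
        rcases Nat.eq_zero_or_pos z1 with h9 | h9
        · rw [h9, mul_zero] at hz1; omega
        · exact h9
      have hz14 : 4 ∣ z1 := by
        have h2 : 4 ∣ G1 * z1 := by rw [← hz1, ← ez1]; exact hz
        have h3 : Nat.Coprime (2 ^ 2) G1 := Nat.Coprime.pow_left 2
          ((Nat.prime_two.coprime_iff_not_dvd).2 fun h9 => hA (h9.trans hG1A))
        exact h3.dvd_of_dvd_mul_left h2
      obtain ⟨w, hw1, hw2⟩ := K2.om_z hz10 hz14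
      -- the number of bad primes
      have hTc : T.card ≤ (w + 1) + 1 := by
        have h2 := Finset.card_filter_add_card_filter_not (s := T) (fun r => r ∣ z1)
        have h3 : (T.filter (fun r => r ∣ z1)).card ≤ w + 1 := by
          rw [← hw1]
          refine card_le_card fun r hr => ?_
          rw [mem_filter] at hr
          exact Nat.mem_primeFactors.2 ⟨(hTk r hr.1).1, hr.2, hz10.ne'⟩
        have h4 : (T.filter (fun r => ¬ r ∣ z1)).card ≤ 1 := by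
          refine K2.card_T2 (u := u) hg31 hu hγu hγd hd0 hg hkk h1 _ fun r hr => ?_
          rw [mem_filter] at hr
          obtain ⟨r1, r2⟩ := hTk r hr.1
          obtain ⟨r3, r4, r5⟩ := r2.resolve_left hr.2
          exact ⟨r1, r3, fun h9 => r4 (h9.mul_right _), r5⟩
        omega
      have hz64 : 64 ≤ G1 * z1 := by rw [← hz1]; omega
      have hz64' : 64 ≤ A0 * z1 := hz64.trans (Nat.mul_le_mul_right _ hG1le)
      have hc0 : K2.c0P A0 * 2 ^ (w + 1) ≤ z1 := by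
        unfold K2.c0P
        split_ifs with c1 c2 c3
        · exact K2.c8 (by rw [c1, one_mul] at hz64'; exact hz64') hw2
        · refine K2.c6 ?_ hw2
          rw [c2] at hz64'
          omega
        · refine K2.c3 ?_ hw2
          have : A0 * z1 ≤ 7 * z1 := Nat.mul_le_mul_right _ c3
          omega
        · exact K2.c2 hz10 hz14 hw2
      have hG2 : Nat.gcd (b0 - A0) (g1 + 2 * d) ≤ b0 - A0 :=
        Nat.le_of_dvd (by omega) (Nat.gcd_dvd_left (b0 - A0) (g1 + 2 * d))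
      have hbig := K2.lst_big (ν, k, b0, A0) hlst
      dsimp only at hbig
      have hb0 : 0 < b0 := by omega
      exact K2.big_calc hg31 hu hγle hz1 hG2 h1 hnL hTc hc0 hb0 hbig

end Pool.Agent.H4G
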