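import Pool.Agent.H4G.Arith.K2NumC
set_option autoImplicit false

/-!
# Line B, K = 2, level one: number lemma (N1b), type Q6 (statement: helper40; proof: helper68)
-/

namespace Pool.Agent.H4G

open Finset

/-- `gam` for `n0`, `z` odd: it divides `delta` -/
theorem K2.gam1 {g1 δ n0 : ℕ} (hn : ¬ 2 ∣ n0) (hz : ¬ 2 ∣ g1 + (g1 + δ)) (h5 : 5 ≤ g1 * n0) :
    K2.gam g1 (g1 + δ) n0 ∣ δ ∧ K2.gam g1 (g1 + δ) n0 ∣ g1 * n0 - 2 ∧
      0 < K2.gam g1 (g1 + δ) n0 := by
  have hodd : ¬ 2 ∣ K2.gam g1 (g1 + δ) n0 := by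
    intro h
    have h1 : 2 ∣ n0 * (g1 + (g1 + δ)) - 4 := h.trans (Nat.gcd_dvd_right _ _)
    have h2 : g1 * n0 ≤ n0 * (g1 + (g1 + δ)) := by nlinarith
    have h3 : 2 ∣ n0 * (g1 + (g1 + δ)) := by omega
    rcases (Nat.prime_two.dvd_mul).1 h3 with h4 | h4
    · exact hn h4
    · exact hz h4
  have hY : K2.gam g1 (g1 + δ) n0 ∣ g1 * n0 - 2 := by
    have h1 : K2.gam g1 (g1 + δ) n0 ∣ 2 * (g1 * n0 - 2) := Nat.gcd_dvd_left _ _
    exact Nat.Coprime.dvd_of_dvd_mul_left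
      ((Nat.prime_two.coprime_iff_not_dvd).2 hodd).symm h1
  refine ⟨?_, hY, Nat.gcd_pos_of_pos_left _ (by omega)⟩
  have h2 : K2.gam g1 (g1 + δ) n0 ∣ n0 * (g1 + (g1 + δ)) - 4 := Nat.gcd_dvd_right _ _
  have h3 : K2.gam g1 (g1 + δ) n0 ∣ n0 * δ := by
    have h4 := Nat.dvd_sub h2 (hY.mul_left 2)
    have h5' : n0 * (g1 + (g1 + δ)) = 2 * (g1 * n0) + n0 * δ := by ring
    rwa [show n0 * (g1 + (g1 + δ)) - 4 - 2 * (g1 * n0 - 2) = n0 * δ by omega] at h4
  refine Nat.Coprime.dvd_of_dvd_mul_left ?_ h3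
  rw [Nat.coprime_iff_gcd_eq_one]
  set d := Nat.gcd (K2.gam g1 (g1 + δ) n0) n0 with hd
  have h6 : d ∣ g1 * n0 - 2 := (Nat.gcd_dvd_left _ _).trans hY
  have h7 : d ∣ g1 * n0 := (Nat.gcd_dvd_right _ _).mul_left g1
  have h8 := Nat.dvd_sub h7 h6
  rw [show g1 * n0 - (g1 * n0 - 2) = 2 by omega] at h8
  rcases (Nat.dvd_prime Nat.prime_two).1 h8 with h9 | h9
  · exact h9
  · exfalso
    apply hn
    rw [← h9]; exact Nat.gcd_dvd_right _ _

/-- the arithmetic of one case: `n0` odd -/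
theorem K2.fin1 {g1 δ n0 γ X : ℕ} (hδ : δ ≤ 2 * g1) (hγ : γ ≤ δ) (h : X * g1 + 8 ≤ 2 * (g1 * n0)) :
    X * (g1 * γ) ≤ (g1 * n0 - 4) * (g1 + (g1 + δ)) := by
  have h1 : X * g1 ≤ 2 * (g1 * n0 - 4) := by omega
  calc X * (g1 * γ) = (X * g1) * γ := by ring
    _ ≤ (2 * (g1 * n0 - 4)) * γ := Nat.mul_le_mul_right _ h1
    _ = (g1 * n0 - 4) * (2 * γ) := by ring
    _ ≤ (g1 * n0 - 4) * (g1 + (g1 + δ)) := Nat.mul_le_mul_left _ (by omega)

theorem K2.pow5b {k : ℕ} (hk : 2 ≤ k) : 2 ^ (k + 1) + 4 ≤ 5 ^ k := by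
  obtain ⟨i, rfl⟩ : ∃ i, k = i + 2 := ⟨k - 2, by omega⟩
  have h1 := Nat.pow_le_pow_left (show 2 ≤ 5 by norm_num) i
  have h2 : 1 ≤ 2 ^ i := Nat.one_le_two_pow
  simp only [pow_succ]
  omega

theorem K2.pow3b {k : ℕ} (hk : 2 ≤ k) : 2 ^ k + 4 ≤ 3 ^ k := by
  obtain ⟨i, rfl⟩ : ∃ i, k = i + 2 := ⟨k - 2, by omega⟩
  have h1 := Nat.pow_le_pow_left (show 2 ≤ 3 by norm_num) i
  have h2 : 1 ≤ 2 ^ i := Nat.one_le_two_pow
  simp only [pow_succ]
  omega

/-- (N1b), type Q6 -/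
theorem K2.n1b {g1 m1 n0 A0 b0 e3 es e9 ez e4 e8 : ℕ} (H : K2.Num g1 m1 n0 A0 b0)
    (F : K2.Fl g1 m1 n0 A0 b0 e3 es e9 ez e4 e8)
    (hg1 : ¬ 2 ∣ g1) (hm1 : 2 ∣ m1) (hn2 : ¬ 2 ∣ n0) (hA2 : ¬ 2 ∣ A0) :
    2 ^ (K2.k n0 + e3 + e9 + ez) * (g1 * K2.gam g1 m1 n0) ≤ (g1 * n0 - 4) * (g1 + m1) := by
  have hpar : ¬ 2 ∣ g1 + m1 := by omega
  have hn0 : 0 < n0 := by omega
  have hb2 : ¬ 2 ∣ b0 := fun h => hn2 (h.trans H.bn)
  have hb3 : 3 ≤ b0 := by have := H.pA; have := H.Ab; omega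
  have hn3 : 3 ≤ n0 := hb3.trans (Nat.le_of_dvd hn0 H.bn)
  obtain ⟨δ, hδ⟩ : ∃ δ, m1 = g1 + δ := ⟨m1 - g1, by have := H.gm; omega⟩
  have hg0 := H.g0
  have hδ1 : 0 < δ := by have := H.gm; omega
  have hδ2 : δ < 2 * g1 := by have := H.m3; omega
  have hpar' := hpar
  rw [hδ] at hpar'
  obtain ⟨hγ1, hγ2, hγ0⟩ := K2.gam1 hn2 hpar' H.Y5
  rw [← hδ] at hγ1 hγ2 hγ0
  have hγle : K2.gam g1 m1 n0 ≤ δ := Nat.le_of_dvd hδ1 hγ1
  have he3 := F.h3
  have he9 := F.h9
  have hez := F.hz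
  have hx : e9 + ez ≤ 1 := by
    rcases F.ex with h | ⟨h, _⟩ <;> omega
  have hk : 1 ≤ K2.k n0 := by
    obtain ⟨r, hr, hrb⟩ := Nat.exists_prime_and_dvd (show b0 ≠ 1 by omega)
    have hr2 : r ≠ 2 := by rintro rfl; exact hb2 hrb
    unfold K2.k
    apply Finset.card_pos.2
    refine ⟨r, ?_⟩
    rw [Finset.mem_erase, Nat.mem_primeFactors]
    exact ⟨hr2, hr, hrb.trans H.bn, by omega⟩
  -- the general estimate
  have main : ∀ E, K2.k n0 + e3 + e9 + ez ≤ E → 2 ^ E * g1 + 8 ≤ 2 * (g1 * n0) →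
      2 ^ (K2.k n0 + e3 + e9 + ez) * (g1 * K2.gam g1 m1 n0) ≤ (g1 * n0 - 4) * (g1 + m1) := by
    intro E h1 h2
    refine le_trans (Nat.mul_le_mul_right _ (Nat.pow_le_pow_right (by norm_num) h1)) ?_
    rw [hδ] at hγle ⊢
    exact K2.fin1 (by omega) hγle h2
  by_cases h3 : 3 ∣ n0
  · have h30 : e3 = 0 := by
      by_contra hc
      exact (F.f3 (by omega)).2 h3
    by_cases hk2 : 2 ≤ K2.k n0
    · refine main (K2.k n0 + 1) (by omega) ?_
      have h1 := K2.k3 (j := 0) hn0 (by simp)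
      have h2 := K2.pow3b hk2
      have h4 : 2 ^ K2.k n0 + 4 ≤ n0 := by omega
      have h5 : g1 * (2 ^ K2.k n0 + 4) ≤ g1 * n0 := Nat.mul_le_mul_left _ h4
      rw [pow_succ]
      nlinarith
    · have hk1 : K2.k n0 = 1 := by omega
      by_cases hn6 : 6 ≤ n0
      · refine main 2 (by omega) ?_
        nlinarith
      · have hn : n0 = 3 := by omega
        by_cases hg4 : 4 ≤ g1
        · refine main 2 (by omega) ?_
          rw [hn]; omega
        · have hg3 : g1 = 3 := by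
            have h5 := H.Y5
            rw [hn] at h5
            omega
          have hγ : K2.gam g1 m1 n0 = 1 := by
            have h1 : K2.gam g1 m1 n0 ∣ 7 := by
              have h2 := hγ2
              rw [show g1 * n0 - 2 = 7 by rw [hg3, hn]] at h2
              exact h2
            rcases (Nat.dvd_prime (by norm_num : Nat.Prime 7)).1 h1 with h2 | h2
            · exact h2
            · omega
          rw [hγ]
          have h1 : 2 ^ (K2.k n0 + e3 + e9 + ez) ≤ 2 ^ 2 := Nat.pow_le_pow_right (by norm_num) (by omega)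
          have h2 := H.gm
          refine le_trans (Nat.mul_le_mul_right _ h1) ?_
          rw [hg3, hn]
          omega
  · by_cases hk2 : 2 ≤ K2.k n0
    · refine main (K2.k n0 + 2) (by omega) ?_
      have h1 := K2.k5 (j := 0) hn0 (by simp) h3
      have h2 := K2.pow5b hk2
      have h4 : 2 ^ (K2.k n0 + 1) + 4 ≤ n0 := by omega
      have h5 : g1 * (2 ^ (K2.k n0 + 1) + 4) ≤ g1 * n0 := Nat.mul_le_mul_left _ h4
      rw [show K2.k n0 + 2 = (K2.k n0 + 1) + 1 by ring, pow_succ]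
      nlinarith
    · have hk1 : K2.k n0 = 1 := by omega
      by_cases hn8 : 8 ≤ n0
      · refine main 3 (by omega) ?_
        nlinarith
      · have hg4 : g1 = 1 ∨ g1 = 3 ∨ 4 ≤ g1 := by omega
        rcases hg4 with hg | hg | hg4
        · -- `g1 = 1`
          have hm : m1 = 2 := by omega
          have h30 : e3 = 0 := by
            by_contra hc
            have := (F.f3 (by omega)).1
            omega
          have h90 : e9 = 0 := by
            by_contra hc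
            have := (F.f9 (by omega)).1
            omega
          have hγ : K2.gam g1 m1 n0 = 1 := by omega
          rw [hγ]
          have hn : n0 = 5 ∨ n0 = 7 := by omega
          rcases hn with hn | hn
          · have hz0 : ez = 0 := by
              by_contra hc
              obtain ⟨zp, h1, _, _, h4, _⟩ := F.fz (by omega)
              rw [hg, hn] at h4
              norm_num at h4
              omega
            rw [hk1, h30, h90, hz0, hg, hm, hn]
            norm_num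
          · have h1 : 2 ^ (K2.k n0 + e3 + e9 + ez) ≤ 2 ^ 2 := Nat.pow_le_pow_right (by norm_num) (by omega)
            refine le_trans (Nat.mul_le_mul_right _ h1) ?_
            rw [hg, hm, hn]
            norm_num
        · -- `g1 = 3`
          have hm : ¬ 3 ∣ m1 := by
            intro h
            have h1 : 3 ∣ Nat.gcd g1 m1 := Nat.dvd_gcd (by rw [hg]) h
            rw [H.co] at h1
            omega
          have h30 : e3 = 0 := by
            by_contra hc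
            exact hm (F.f3 (by omega)).1
          have h90 : e9 = 0 := by
            by_contra hc
            exact hm ((by norm_num : 3 ∣ 9).trans (F.f9 (by omega)).1)
          refine main 2 (by omega) ?_
          rw [hg]; omega
        · refine main 3 (by omega) ?_
          have h5 : 5 ≤ n0 := by omega
          nlinarith

end Pool.Agent.H4G
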