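import Pool.Agent.H4G.Arith.K2NumT
import Pool.Agent.H4G.Arith.K2N1b
set_option autoImplicit false

/-!
# Line B, K = 2, level two: number lemma (N2Q), type Q4L (statement: helper40; proof: helper68)
-/

namespace Pool.Agent.H4G

open Finset

/-- the finite check for one `nu` -/
def K2.chkQ (ν X Γ K1 K : ℕ) : Bool :=
  (List.range Γ).all fun γ => (List.range K1).all fun k1 =>
    !((γ * k1 + 1) % (2 * ν) == 0) || ((γ * k1 + 1) / (2 * ν)) % 2 == 0 ||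
      (List.range K).all fun κ =>
        ((κ * γ) % 2 == 0) || !(decide (κ * γ < 2 * ((γ * k1 + 1) / (2 * ν)))) ||
        decide (4 * X * ((γ * k1 + 1) / (2 * ν)) * γ + 3 * (2 * ((γ * k1 + 1) / (2 * ν)) + κ * γ) ≤
          2 * ((γ * k1 + 1) / (2 * ν)) * ν * (2 * ((γ * k1 + 1) / (2 * ν)) + κ * γ)) ||
        decide (K2.W (2 * ((γ * k1 + 1) / (2 * ν)) + κ * γ) *
          (bif Nat.gcd ((γ * k1 + 1) / (2 * ν) + κ * γ) k1 == 1 then 1 else 2) * (10 * ν) <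
            29 * (κ * γ)) ||
        ((γ * k1 + 1) / (2 * ν) == 1) ||
        (ν == 1 && (γ * k1 + 1) / (2 * ν) == 5 && κ * γ == 1)

theorem K2.chkQ1 : K2.chkQ 1 4 7 13 7 = true := by decide +kernel
theorem K2.chkQ2 : K2.chkQ 2 4 12 12 4 = true := by decide +kernel
theorem K2.chkQ3 : K2.chkQ 3 8 33 19 4 = true := by decide +kernel
theorem K2.chkQ4 : K2.chkQ 4 4 23 10 2 = true := by decide +kernel
theorem K2.chkQ5 : K2.chkQ 5 8 54 17 3 = true := by decide +kernel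
theorem K2.chkQ6 : K2.chkQ 6 8 65 16 2 = true := by decide +kernel
theorem K2.chkQ7 : K2.chkQ 7 8 76 15 2 = true := by decide +kernel
theorem K2.chkQ15 : K2.chkQ 15 16 314 23 2 = true := by decide +kernel

/-- what the check says -/
theorem K2.chkQ_spec {ν X Γ K1 K : ℕ} (h : K2.chkQ ν X Γ K1 K = true) {γ k1 κ g1 : ℕ}
    (hν : 0 < ν) (h1 : γ * k1 + 1 = 2 * ν * g1) (hγ : γ < Γ) (hk : k1 < K1) (hκ : κ < K)
    (hg : ¬ 2 ∣ g1) (ho : ¬ 2 ∣ κ * γ) (hlt : κ * γ < 2 * g1) (hg1 : g1 ≠ 1)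
    (hex : ¬ (ν = 1 ∧ g1 = 5 ∧ κ * γ = 1)) :
    4 * X * g1 * γ + 3 * (2 * g1 + κ * γ) ≤ 2 * g1 * ν * (2 * g1 + κ * γ) ∨
      K2.W (2 * g1 + κ * γ) * (if Nat.gcd (g1 + κ * γ) k1 = 1 then 1 else 2) * (10 * ν) <
        29 * (κ * γ) := by
  have e1 : (γ * k1 + 1) / (2 * ν) = g1 := by
    rw [h1]; exact Nat.mul_div_cancel_left _ (by omega)
  have e2 : (γ * k1 + 1) % (2 * ν) = 0 := by rw [h1]; exact Nat.mul_mod_right _ _
  have h2 := (List.all_eq_true.1 h) γ (List.mem_range.2 hγ)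
  have h3 := (List.all_eq_true.1 h2) k1 (List.mem_range.2 hk)
  rw [e1, e2] at h3
  rw [Bool.or_eq_true, Bool.or_eq_true] at h3
  rcases h3 with (h3 | h3) | h3
  · exact absurd h3 (by decide)
  · exfalso
    have := beq_iff_eq.1 h3
    omega
  have h4 := (List.all_eq_true.1 h3) κ (List.mem_range.2 hκ)
  simp only [Bool.or_eq_true, Bool.and_eq_true, beq_iff_eq, Bool.not_eq_true', decide_eq_false_iff_not,
    decide_eq_true_eq, cond_eq_ite, beq_iff_eq] at h4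
  rcases h4 with ((((h4 | h4) | h4) | h4) | h4) | h4
  · exfalso; omega
  · exact absurd hlt h4
  · exact Or.inl h4
  · exact Or.inr h4
  · exact absurd h4 hg1
  · exact absurd ⟨h4.1.1, h4.1.2, h4.2⟩ hex

/-- a set of odd primes dividing a small `k1` -/
theorem K2.small_k1 {k1 : ℕ} (hk : k1 < 15 ∨ k1 = 17 ∨ k1 = 19) (h0 : 0 < k1) {Q : Finset ℕ}
    (hQ : ∀ r ∈ Q, r.Prime) (h2 : 2 ∉ Q) (hd : ∀ r ∈ Q, r ∣ k1) : Q.card ≤ 1 := by
  rcases hk with hk | hk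
  · by_contra hc
    have h1 := K2.seven_odd Q hQ h2
    have h3 : ∏ r ∈ Q, r ≤ k1 := Nat.le_of_dvd h0 (K1.prod_dvd hQ hd)
    have h4 := Nat.pow_le_pow_right (show 0 < 7 by norm_num) (show 2 ≤ Q.card by omega)
    omega
  · have hp : k1.Prime := by rcases hk with rfl | rfl <;> norm_num
    refine Finset.card_le_one.2 fun a ha b hb => ?_
    rw [(Nat.prime_dvd_prime_iff_eq (hQ a ha) hp).1 (hd a ha),
      (Nat.prime_dvd_prime_iff_eq (hQ b hb) hp).1 (hd b hb)]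

/-- the core of (N2Q) for one `nu` -/
theorem K2.coreQ {ν X Γ L1 K : ℕ} (hν : 0 < ν) (hchk : K2.chkQ ν X Γ L1 K = true) (hΓ6 : 6 ≤ Γ)
    (hΓ : 3200 * ν * X + 1600 * ν < 2523 * Γ) (hzb : 2 * X * Γ + 6 ≤ 735 * ν)
    (hK1 : 2 * X + 5 < L1 + ν) (hK : 2 * X + 5 < 2 * ν * K)
    (h15 : ∀ γ k1 g1 : ℕ, γ * k1 + 1 = 2 * ν * g1 → k1 + ν ≤ 2 * X + 5 → k1 < 15 ∨ k1 = 17 ∨ k1 = 19)
    {g1 δ n0 γ A0 b0 : ℕ} (hn : n0 = 4 * ν) (hg0 : 0 < g1) (hg : ¬ 2 ∣ g1) (hδ : ¬ 2 ∣ δ) (hlt : δ < 2 * g1)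
    (hco : Nat.Coprime g1 (g1 + δ)) (hg1 : g1 ≠ 1) (hex : ¬ (ν = 1 ∧ g1 = 5 ∧ δ = 1))
    (hγδ : γ ∣ δ) (hγY : γ ∣ 2 * (g1 * ν) - 1) {T : Finset ℕ}
    (hT : K2.TB g1 (g1 + δ) n0 A0 b0 T) (h2T : 2 ∉ T) (hA : 0 < A0) (hAb : A0 < b0)
    (hc : Nat.Coprime A0 b0) (hb : b0 ≤ 2 * ν) :
    4 * X * g1 * γ + 3 * (2 * g1 + δ) ≤ 2 * g1 * ν * (2 * g1 + δ) ∨
      K2.LT g1 (g1 + δ) A0 b0 T := by
  rcases Nat.lt_or_ge (2 * g1 * ν * (2 * g1 + δ)) (4 * X * g1 * γ + 3 * (2 * g1 + δ)) with hR | hR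
  swap
  · exact Or.inl hR
  have hδ0 : 0 < δ := by omega
  obtain ⟨κ, hκ⟩ := hγδ
  obtain ⟨k1, hk1⟩ := hγY
  have hgν : 0 < g1 * ν := Nat.mul_pos hg0 hν
  have hγ0 : 0 < γ := by
    rcases Nat.eq_zero_or_pos γ with h | h
    · rw [h, zero_mul] at hκ; omega
    · exact h
  have hκ0 : 0 < κ := by
    rcases Nat.eq_zero_or_pos κ with h | h
    · rw [h, mul_zero] at hκ; omega
    · exact h
  have e1 : γ * k1 + 1 = 2 * ν * g1 := by
    have : 2 * (g1 * ν) = 2 * ν * g1 := by ring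
    omega
  have hk10 : 0 < k1 := by
    rcases Nat.eq_zero_or_pos k1 with h | h
    · rw [h, mul_zero] at e1
      have : 2 * ν * g1 = 2 * (g1 * ν) := by ring
      omega
    · exact h
  -- `nu kappa <= k1`
  have hνκ : ν * κ ≤ k1 := by
    have h1 : ν * δ < ν * (2 * g1) := Nat.mul_lt_mul_of_pos_left hlt hν
    have h2 : ν * δ = γ * (ν * κ) := by rw [hκ]; ring
    have h3 : ν * (2 * g1) = γ * k1 + 1 := by rw [e1]; ring
    have h4 : γ * (ν * κ) ≤ γ * k1 := by omega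
    exact Nat.le_of_mul_le_mul_left h4 hγ0
  set s := k1 + ν * κ with hs
  have e2 : ν * (2 * g1 + δ) = γ * s + 1 := by
    rw [hκ, hs]
    have : ν * (2 * g1 + γ * κ) = 2 * ν * g1 + γ * (ν * κ) := by ring
    rw [this, ← e1]; ring
  -- the bound of `gamma s`
  have hC : γ * s ≤ 2 * X * γ + 5 := by
    by_contra hcon
    push Not at hcon
    have h1 : ν * (2 * g1 * ν * (2 * g1 + δ)) < ν * (4 * X * g1 * γ + 3 * (2 * g1 + δ)) :=
      Nat.mul_lt_mul_of_pos_left hR hν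
    have h2 : ν * (2 * g1 * ν * (2 * g1 + δ)) = (γ * k1 + 1) * (γ * s + 1) := by
      rw [← e2, e1]; ring
    have h3 : ν * (4 * X * g1 * γ + 3 * (2 * g1 + δ)) = 2 * X * γ * (γ * k1 + 1) + 3 * (γ * s + 1) := by
      rw [← e2, e1]; ring
    rw [h2, h3] at h1
    have h4 : (γ * k1 + 1) * (2 * X * γ + 7) ≤ (γ * k1 + 1) * (γ * s + 1) :=
      Nat.mul_le_mul_left _ (by omega)
    have h5 : (γ * k1 + 1) * (2 * X * γ + 7) = 2 * X * γ * (γ * k1 + 1) + 7 * (γ * k1 + 1) := by ring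
    have h6 : γ * s ≤ γ * (2 * k1) := Nat.mul_le_mul_left _ (by omega)
    have h7 : γ * (2 * k1) = 2 * (γ * k1) := by ring
    omega
  have hs5 : s ≤ 2 * X + 5 := by
    have h1 : γ * s ≤ γ * (2 * X + 5) := by
      have : γ * (2 * X + 5) = 2 * X * γ + 5 * γ := by ring
      omega
    exact Nat.le_of_mul_le_mul_left h1 hγ0
  have hνκ1 : ν ≤ ν * κ := Nat.le_mul_of_pos_right _ hκ0
  have hk15 := h15 γ k1 g1 e1 (by omega)
  -- the second kind of bad primes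
  have hsec : ∀ Q : Finset ℕ, (∀ r ∈ Q, r.Prime ∧ r ∈ T ∧ r ∣ g1 + δ ∧ r ∣ g1 * n0 - 2 ∧
      ¬ r ∣ g1 + (g1 + δ)) → Q.card ≤ (if Nat.gcd (g1 + δ) k1 = 1 then 0 else 1) := by
    intro Q hQ
    have hQk : ∀ r ∈ Q, r ∣ k1 := by
      intro r hr
      obtain ⟨h1, h2, h3, h4, h5⟩ := hQ r hr
      have h6 : g1 * n0 - 2 = 2 * (γ * k1) := by
        rw [hn]
        have : g1 * (4 * ν) = 2 * (2 * ν * g1) := by ring
        rw [this, ← e1]; omega
      rw [h6] at h4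
      rcases (h1.dvd_mul).1 h4 with h7 | h7
      · exfalso
        have := (Nat.prime_dvd_prime_iff_eq h1 Nat.prime_two).1 h7
        exact h2T (this ▸ h2)
      · rcases (h1.dvd_mul).1 h7 with h8 | h8
        · exfalso
          have h9 : r ∣ δ := by rw [hκ]; exact h8.mul_right _
          have h10 : r ∣ g1 := (Nat.dvd_add_left h9).1 h3
          have h11 : r ∣ Nat.gcd g1 (g1 + δ) := Nat.dvd_gcd h10 h3
          rw [hco] at h11
          exact h1.one_lt.ne' (Nat.dvd_one.1 h11)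
        · exact h8
    split_ifs with hgc
    · rw [Nat.le_zero, Finset.card_eq_zero]
      refine Finset.eq_empty_iff_forall_notMem.2 fun r hr => ?_
      have h1 : r ∣ Nat.gcd (g1 + δ) k1 := Nat.dvd_gcd (hQ r hr).2.2.1 (hQk r hr)
      rw [hgc] at h1
      exact (hQ r hr).1.one_lt.ne' (Nat.dvd_one.1 h1)
    · exact K2.small_k1 hk15 hk10 (fun r hr => (hQ r hr).1) (fun h => h2T (hQ 2 h).2.1) hQk
  obtain ⟨Q, hQT, hQp, hQz, hQc⟩ := hT.card hAb hc _ hsec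
  have h2Q : 2 ∉ Q := fun h => h2T (hQT h)
  have ez : g1 + (g1 + δ) = 2 * g1 + δ := by ring
  rw [ez] at hQz
  right
  apply K2.LT_of hA hAb
  rw [Nat.add_sub_cancel_left]
  rcases Nat.lt_or_ge γ Γ with hΓγ | hΓγ
  · -- small `gamma`
    have hκK : κ < K := by
      by_contra hcon
      push Not at hcon
      have h1 : 2 * ν * K ≤ 2 * ν * κ := Nat.mul_le_mul_left _ hcon
      have h2 : 2 * ν * κ = 2 * (ν * κ) := by ring
      omega
    have h1 := K2.chkQ_spec hchk hν e1 hΓγ (by omega) hκK hg (by rw [mul_comm, ← hκ]; exact hδ)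
      (by rw [mul_comm, ← hκ]; exact hlt) hg1 (by rw [mul_comm κ, ← hκ]; exact hex)
    rw [mul_comm κ, ← hκ] at h1
    rcases h1 with h1 | h1
    · exfalso
      omega
    · have hz735 : 2 * g1 + δ < 735 := by
        by_contra hcon
        push Not at hcon
        have h2 : ν * 735 ≤ ν * (2 * g1 + δ) := Nat.mul_le_mul_left _ hcon
        have h3 : 2 * X * γ ≤ 2 * X * (Γ - 1) := Nat.mul_le_mul_left _ (by omega)
        rcases Nat.eq_zero_or_pos X with hX | hX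
        · subst hX
          omega
        · have h4 : 2 * X * (Γ - 1) + 2 * X = 2 * X * Γ := by
            obtain ⟨G, rfl⟩ : ∃ G, Γ = G + 1 := ⟨Γ - 1, by omega⟩
            rw [Nat.add_sub_cancel]; ring
          omega
      have h2 := K2.W_spec (by omega) hz735 hQp h2Q hQz
      have h3 : 2 ^ T.card ≤ 2 ^ Q.card * 2 ^ (if Nat.gcd (g1 + δ) k1 = 1 then 0 else 1) := by
        rw [← pow_add]
        exact Nat.pow_le_pow_right (by norm_num) hQc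
      have h4 : 2 ^ (if Nat.gcd (g1 + δ) k1 = 1 then 0 else 1) =
          (if Nat.gcd (g1 + δ) k1 = 1 then 1 else 2) := by
        split_ifs <;> rfl
      rw [h4] at h3
      have h5 : 2 ^ T.card ≤ K2.W (2 * g1 + δ) * (if Nat.gcd (g1 + δ) k1 = 1 then 1 else 2) :=
        h3.trans (Nat.mul_le_mul_right _ h2)
      calc 5 * b0 * 2 ^ T.card ≤ 5 * (2 * ν) * (K2.W (2 * g1 + δ) *
            (if Nat.gcd (g1 + δ) k1 = 1 then 1 else 2)) := by gcongr
        _ = K2.W (2 * g1 + δ) * (if Nat.gcd (g1 + δ) k1 = 1 then 1 else 2) * (10 * ν) := by ring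
        _ < _ := h1
  · -- large `gamma`
    have hs2 : s ≤ 2 * X := by
      by_contra hcon
      push Not at hcon
      have h1 : γ * (2 * X + 1) ≤ γ * s := Nat.mul_le_mul_left _ hcon
      have h2 : γ * (2 * X + 1) = 2 * X * γ + γ := by ring
      omega
    have h4 := K1.four_odd Q hQp h2Q
    have h5 : ∏ r ∈ Q, r ≤ 2 * g1 + δ := Nat.le_of_dvd (by omega) (K1.prod_dvd hQp hQz)
    have h6 : 3 * 4 ^ Q.card ≤ 4 * (2 * g1 + δ) := by omega
    by_contra hcon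
    push Not at hcon
    have h7 : 2 ^ T.card ≤ 2 * 2 ^ Q.card := by
      have : 2 ^ T.card ≤ 2 ^ (Q.card + 1) := Nat.pow_le_pow_right (by norm_num) (by
        refine hQc.trans ?_
        split_ifs <;> omega)
      rw [pow_succ] at this
      omega
    have h8 : γ ≤ δ := by rw [hκ]; exact Nat.le_mul_of_pos_right _ hκ0
    have h9 : 29 * γ ≤ 20 * ν * 2 ^ Q.card := by
      calc 29 * γ ≤ 29 * δ := by omega
        _ ≤ 5 * b0 * 2 ^ T.card := hcon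
        _ ≤ 5 * (2 * ν) * (2 * 2 ^ Q.card) := by gcongr
        _ = _ := by ring
    have h10 : (29 * γ) * (29 * γ) ≤ (20 * ν * 2 ^ Q.card) * (20 * ν * 2 ^ Q.card) :=
      Nat.mul_le_mul h9 h9
    have h11 : (20 * ν * 2 ^ Q.card) * (20 * ν * 2 ^ Q.card) = 400 * ν * (ν * 4 ^ Q.card) := by
      rw [show (4 : ℕ) = 2 * 2 by norm_num, mul_pow]; ring
    have h12 : 3 * (ν * 4 ^ Q.card) ≤ 4 * (2 * X * γ + 1) := by
      calc 3 * (ν * 4 ^ Q.card) = ν * (3 * 4 ^ Q.card) := by ring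
        _ ≤ ν * (4 * (2 * g1 + δ)) := Nat.mul_le_mul_left _ h6
        _ = 4 * (γ * s + 1) := by rw [← e2]; ring
        _ ≤ 4 * (2 * X * γ + 1) := by
            have : γ * s ≤ γ * (2 * X) := Nat.mul_le_mul_left _ hs2
            have h13 : γ * (2 * X) = 2 * X * γ := by ring
            omega
    have h13 : 3 * (400 * ν * (ν * 4 ^ Q.card)) ≤ 1600 * ν * (2 * X * γ + 1) := by
      calc 3 * (400 * ν * (ν * 4 ^ Q.card)) = 400 * ν * (3 * (ν * 4 ^ Q.card)) := by ring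
        _ ≤ 400 * ν * (4 * (2 * X * γ + 1)) := Nat.mul_le_mul_left _ h12
        _ = _ := by ring
    have h14 : 2523 * Γ * γ ≤ 2523 * (γ * γ) := by
      calc 2523 * Γ * γ = 2523 * (Γ * γ) := by ring
        _ ≤ _ := Nat.mul_le_mul_left _ (Nat.mul_le_mul_right _ hΓγ)
    have h15' : (3200 * ν * X + 1600 * ν) * γ < 2523 * Γ * γ := Nat.mul_lt_mul_of_pos_right hΓ hγ0
    have h16 : 1600 * ν * (2 * X * γ + 1) ≤ (3200 * ν * X + 1600 * ν) * γ := by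
      have h17 : 1600 * ν * 1 ≤ 1600 * ν * γ := Nat.mul_le_mul_left _ hγ0
      calc 1600 * ν * (2 * X * γ + 1) = 3200 * ν * X * γ + 1600 * ν * 1 := by ring
        _ ≤ 3200 * ν * X * γ + 1600 * ν * γ := by omega
        _ = _ := by ring
    have h18 : (29 * γ) * (29 * γ) * 3 = 2523 * (γ * γ) := by ring
    omega

theorem K2.nu33 : ∀ ν < 33, 0 < ν → ν ∈ [1, 2, 3, 4, 5, 6, 7, 15] ∨
    2 ^ (K2.k (4 * ν) + 2) + 1 ≤ ν := by
  decide +kernel

theorem K2.nu_big {ν : ℕ} (h0 : 0 < ν) (h1 : ν ≠ 1) (h2 : ν ≠ 2) (h3 : ν ≠ 3) (h4 : ν ≠ 4) (h5 : ν ≠ 5)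
    (h6 : ν ≠ 6) (h7 : ν ≠ 7) (h15 : ν ≠ 15) : 2 ^ (K2.k (4 * ν) + 2) + 1 ≤ ν := by
  rcases Nat.lt_or_ge ν 33 with h | h
  · rcases K2.nu33 ν h h0 with h8 | h8
    · simp only [List.mem_cons, List.not_mem_nil, or_false] at h8
      omega
    · exact h8
  · rcases Nat.lt_or_ge (K2.k (4 * ν)) 4 with hk | hk
    · have := Nat.pow_le_pow_right (show 0 < 2 by norm_num) (show K2.k (4 * ν) + 2 ≤ 5 by omega)
      omega
    · have h8 := K2.k3 (n0 := 4 * ν) (j := 2) (by omega) (by simp)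
      obtain ⟨i, hi⟩ : ∃ i, K2.k (4 * ν) = i + 4 := ⟨K2.k (4 * ν) - 4, by omega⟩
      rw [hi] at h8 ⊢
      have h9 := Nat.pow_le_pow_left (show 2 ≤ 3 by norm_num) i
      have h10 : 1 ≤ 2 ^ i := Nat.one_le_two_pow
      simp only [pow_succ] at h8 ⊢
      omega

/-- `g1 = 1`, `m1 = 2` : LEFT -/
theorem K2.LT_12 {n0 A0 b0 : ℕ} {T : Finset ℕ} (hT : K2.TB 1 2 n0 A0 b0 T) (h2T : 2 ∉ T) (hA : 0 < A0)
    (hAb : A0 < b0) (hc : Nat.Coprime A0 b0) (hA2 : ¬ 2 ∣ A0) (hb2 : 2 ∣ b0) : K2.LT 1 2 A0 b0 T := by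
  have hsub : T ⊆ {3} := by
    intro r hr
    have hp := (hT r hr).1
    have h2 : r ≠ 2 := by rintro rfl; exact h2T hr
    rw [Finset.mem_singleton]
    rcases hT.split hAb hc hr with h | ⟨h, _⟩
    · exact (Nat.prime_dvd_prime_iff_eq hp Nat.prime_three).1 h
    · exact absurd ((Nat.prime_dvd_prime_iff_eq hp Nat.prime_two).1 h) h2
  have hcard : T.card ≤ 1 := by simpa using Finset.card_le_card hsub
  have hpow : 2 ^ T.card ≤ 2 ^ 1 := Nat.pow_le_pow_right (by norm_num) hcard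
  have hG2 : Nat.gcd (b0 - A0) 2 = 1 := by
    rw [← Nat.coprime_iff_gcd_eq_one]
    exact ((Nat.prime_two.coprime_iff_not_dvd).2 (by omega)).symm
  unfold K2.LT
  rw [hG2, mul_one]
  rcases (Nat.dvd_prime Nat.prime_three).1 (show Nat.gcd (1 + 2) A0 ∣ 3 from Nat.gcd_dvd_left _ _) with h | h
  · rw [h]
    omega
  · have h3 : 3 ∣ A0 := by
      have := Nat.gcd_dvd_right (1 + 2) A0
      rwa [h] at this
    have h4 := Nat.le_of_dvd hA h3
    rw [h]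
    omega

/-- (N2Q), type Q4L, level two -/
theorem K2.n2q {g1 m1 n0 A0 b0 ez : ℕ} (hg0 : 0 < g1) (hgm : g1 < m1) (hm3 : m1 < 3 * g1)
    (hco : Nat.Coprime g1 m1) (hA : 0 < A0) (hAb : A0 < b0) (hc : Nat.Coprime A0 b0) (hn0 : 0 < n0)
    (hg : ¬ 2 ∣ g1) (hm : 2 ∣ m1) (hA2 : ¬ 2 ∣ A0) (hb2 : 2 ∣ b0) (hbn : 2 * b0 ∣ n0) {T : Finset ℕ}
    (hT : K2.TB g1 m1 n0 A0 b0 T) (h2T : 2 ∉ T) (hez : ez ≤ 1)
    (hfz : ez = 1 → ∃ zp : ℕ, 1 < zp ∧ ¬ 2 ∣ zp ∧ zp ∣ g1 + m1 ∧ zp ∣ g1 * n0 - 6 ∧ Nat.Coprime zp A0) :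
    K2.LT g1 m1 A0 b0 T ∨
      (6 < g1 * n0 ∧
        2 ^ (K2.k n0 + ez + 1) * (g1 * (2 * K2.gam g1 m1 n0)) ≤ (g1 * n0 - 6) * (g1 + m1)) := by
  by_cases hg1 : g1 = 1
  · subst hg1
    have hm2 : m1 = 2 := by omega
    subst hm2
    exact Or.inl (K2.LT_12 hT h2T hA hAb hc hA2 hb2)
  have hg3 : 3 ≤ g1 := by omega
  obtain ⟨ν, hν⟩ : 4 ∣ n0 := by
    obtain ⟨β, rfl⟩ := hb2
    refine Dvd.dvd.trans ?_ hbn
    exact ⟨β, by ring⟩
  have hν0 : 0 < ν := by omega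
  have hbν : b0 ≤ 2 * ν := by
    have h1 := Nat.le_of_dvd hn0 hbn
    omega
  have h6 : 6 < g1 * n0 := by
    have : 3 * 4 ≤ g1 * n0 := Nat.mul_le_mul hg3 (by omega)
    omega
  obtain ⟨δ, hδ⟩ : ∃ δ, m1 = g1 + δ := ⟨m1 - g1, by omega⟩
  have hδ0 : 0 < δ := by omega
  have hδo : ¬ 2 ∣ δ := by omega
  have hlt : δ < 2 * g1 := by omega
  obtain ⟨γ, hγ1, hγδ, hγY, hγ0⟩ := K2.gam4 (δ := δ) hg0 hν0
  have hγY' : γ ∣ 2 * (g1 * ν) - 1 := hγY
  by_cases hex : ν = 1 ∧ g1 = 5 ∧ δ = 1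
  · -- `(5, 6, 4)`
    obtain ⟨rfl, rfl, rfl⟩ := hex
    right
    refine ⟨h6, ?_⟩
    have hz0 : ez = 0 := by
      by_contra hcon
      obtain ⟨zp, h1, _, h3, h4, _⟩ := hfz (by omega)
      rw [hν] at h4
      rw [hδ] at h3
      norm_num at h3 h4
      have h5 : zp ∣ Nat.gcd 11 14 := Nat.dvd_gcd h3 h4
      norm_num at h5
      omega
    rw [hz0, hν, hδ]
    decide +kernel
  rw [hδ] at hT hco ⊢
  have hX : 2 ^ (K2.k n0 + ez + 1) ≤ 2 ^ (K2.k n0 + 2) := Nat.pow_le_pow_right (by norm_num) (by omega)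
  -- from the reduced inequality
  have fin : 4 * 2 ^ (K2.k n0 + 2) * g1 * γ + 3 * (2 * g1 + δ) ≤ 2 * g1 * ν * (2 * g1 + δ) →
      (6 < g1 * n0 ∧ 2 ^ (K2.k n0 + ez + 1) * (g1 * (2 * K2.gam g1 (g1 + δ) n0)) ≤
        (g1 * n0 - 6) * (g1 + (g1 + δ))) := by
    intro h
    refine ⟨h6, ?_⟩
    rw [hν] at hX h ⊢
    rw [hγ1]
    refine le_trans (Nat.mul_le_mul_right _ hX) ?_
    set X := 2 ^ (K2.k (4 * ν) + 2)
    have h1 : (g1 * (4 * ν) - 6) * (g1 + (g1 + δ)) = g1 * (4 * ν) * (2 * g1 + δ) - 6 * (2 * g1 + δ) := by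
      rw [show g1 + (g1 + δ) = 2 * g1 + δ by ring, Nat.sub_mul]
    rw [h1]
    have h2 : X * (g1 * (2 * (4 * γ))) = 2 * (4 * X * g1 * γ) := by ring
    have h3 : g1 * (4 * ν) * (2 * g1 + δ) = 2 * (2 * g1 * ν * (2 * g1 + δ)) := by ring
    omega
  have core : ∀ {X Γ L1 K : ℕ}, 2 ^ (K2.k n0 + 2) = X → K2.chkQ ν X Γ L1 K = true → 6 ≤ Γ →
      3200 * ν * X + 1600 * ν < 2523 * Γ → 2 * X * Γ + 6 ≤ 735 * ν →
      2 * X + 5 < L1 + ν → 2 * X + 5 < 2 * ν * K →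
      (∀ γ k1 g1 : ℕ, γ * k1 + 1 = 2 * ν * g1 → k1 + ν ≤ 2 * X + 5 → k1 < 15 ∨ k1 = 17 ∨ k1 = 19) →
      K2.LT g1 (g1 + δ) A0 b0 T ∨
      (6 < g1 * n0 ∧ 2 ^ (K2.k n0 + ez + 1) * (g1 * (2 * K2.gam g1 (g1 + δ) n0)) ≤
        (g1 * n0 - 6) * (g1 + (g1 + δ))) := by
    intro X Γ L1 K hXX a1 a2 a3 a4 a5 a6 a7
    rcases K2.coreQ hν0 a1 a2 a3 a4 a5 a6 a7 hν hg0 hg hδo hlt hco hg1 hex hγδ hγY' hT h2T hA hAb hc hbν
      with h | h
    · rw [← hXX] at h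
      exact Or.inr (fin h)
    · exact Or.inl h
  by_cases hb : ν = 1 ∨ ν = 2 ∨ ν = 3 ∨ ν = 4 ∨ ν = 5 ∨ ν = 6 ∨ ν = 7 ∨ ν = 15
  · rcases hb with h | h | h | h | h | h | h | h
    · subst h
      exact core (by rw [hν]; decide +kernel) K2.chkQ1 (by norm_num) (by norm_num) (by norm_num)
        (by norm_num) (by norm_num) (by intro γ k1 g1 h1 h2; omega)
    · subst h
      exact core (by rw [hν]; decide +kernel) K2.chkQ2 (by norm_num) (by norm_num) (by norm_num)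
        (by norm_num) (by norm_num) (by intro γ k1 g1 h1 h2; omega)
    · subst h
      refine core (by rw [hν]; decide +kernel) K2.chkQ3 (by norm_num) (by norm_num) (by norm_num)
        (by norm_num) (by norm_num) ?_
      intro γ k1 g1 h1 h2
      have h3 : k1 ≤ 18 := by omega
      interval_cases k1 <;> omega
    · subst h
      exact core (by rw [hν]; decide +kernel) K2.chkQ4 (by norm_num) (by norm_num) (by norm_num)
        (by norm_num) (by norm_num) (by intro γ k1 g1 h1 h2; omega)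
    · subst h
      refine core (by rw [hν]; decide +kernel) K2.chkQ5 (by norm_num) (by norm_num) (by norm_num)
        (by norm_num) (by norm_num) ?_
      intro γ k1 g1 h1 h2
      have h3 : k1 ≤ 16 := by omega
      interval_cases k1 <;> omega
    · subst h
      refine core (by rw [hν]; decide +kernel) K2.chkQ6 (by norm_num) (by norm_num) (by norm_num)
        (by norm_num) (by norm_num) ?_
      intro γ k1 g1 h1 h2
      have h3 : k1 ≤ 15 := by omega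
      interval_cases k1 <;> omega
    · subst h
      refine core (by rw [hν]; decide +kernel) K2.chkQ7 (by norm_num) (by norm_num) (by norm_num)
        (by norm_num) (by norm_num) ?_
      intro γ k1 g1 h1 h2
      omega
    · subst h
      refine core (by rw [hν]; decide +kernel) K2.chkQ15 (by norm_num) (by norm_num) (by norm_num)
        (by norm_num) (by norm_num) ?_
      intro γ k1 g1 h1 h2
      have h3 : k1 ≤ 22 := by omega
      interval_cases k1 <;> omega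
  · right
    apply fin
    have h1 : 2 ^ (K2.k (4 * ν) + 2) + 1 ≤ ν := by
      apply K2.nu_big hν0 <;> omega
    rw [← hν] at h1
    set X := 2 ^ (K2.k n0 + 2)
    have hγle : γ ≤ δ := Nat.le_of_dvd hδ0 hγδ
    have h2 : 2 * γ ≤ 2 * g1 + δ := by omega
    have h3 : 2 * g1 * (X + 1) ≤ 2 * g1 * ν := Nat.mul_le_mul_left _ h1
    calc 4 * X * g1 * γ + 3 * (2 * g1 + δ) = (2 * g1 * X) * (2 * γ) + 3 * (2 * g1 + δ) := by ring
      _ ≤ (2 * g1 * X) * (2 * g1 + δ) + 3 * (2 * g1 + δ) := by gcongr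
      _ = (2 * g1 * X + 3) * (2 * g1 + δ) := by ring
      _ ≤ (2 * g1 * ν) * (2 * g1 + δ) := by
          apply Nat.mul_le_mul_right
          have : 2 * g1 * (X + 1) = 2 * g1 * X + 2 * g1 := by ring
          omega

end Pool.Agent.H4G
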