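import Pool.Agent.H4G.Arith.K2N2Q
set_option autoImplicit false

/-!
# Line B, K = 2, level four: number lemma (N2S), type S2 (statement: helper40; proof: helper68)
-/

namespace Pool.Agent.H4G

open Finset

/-- powers of two up to the number of odd primes of `z < 5145` -/
def K2.V (z : ℕ) : ℕ := if z < 15 then 2 else if z < 105 then 4 else if z < 735 then 8 else 16

theorem K2.V_spec {Q : Finset ℕ} {z : ℕ} (hz : 0 < z) (hz2 : z < 5145) (hQ : ∀ r ∈ Q, r.Prime)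
    (h2 : 2 ∉ Q) (hd : ∀ r ∈ Q, r ∣ z) : 2 ^ Q.card ≤ K2.V z := by
  have h1 := K2.seven_odd Q hQ h2
  have h3 : ∏ r ∈ Q, r ≤ z := Nat.le_of_dvd hz (K1.prod_dvd hQ hd)
  have h4 : 15 * 7 ^ Q.card ≤ 49 * z := by omega
  have h5 : Q.card ≤ 4 := by
    by_contra hc
    have h6 := Nat.pow_le_pow_right (show 0 < 7 by norm_num) (show 5 ≤ Q.card by omega)
    omega
  unfold K2.V
  generalize hc : Q.card = n at *
  interval_cases n
  · split_ifs <;> norm_num
  · split_ifs <;> norm_num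
  · rw [if_neg (by omega)]
    split_ifs <;> norm_num
  · rw [if_neg (by omega), if_neg (by omega)]
    split_ifs <;> norm_num
  · rw [if_neg (by omega), if_neg (by omega), if_neg (by omega)]
    norm_num

/-- `2 ^` (number of odd primes of `n < 105`) -/
def K2.U (n : ℕ) : ℕ := if n = 1 then 1 else if n < 15 then 2 else 4

theorem K2.U_spec {Q : Finset ℕ} {z : ℕ} (hz : 0 < z) (hz2 : z < 105) (hQ : ∀ r ∈ Q, r.Prime)
    (h2 : 2 ∉ Q) (hd : ∀ r ∈ Q, r ∣ z) : 2 ^ Q.card ≤ K2.U z := by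
  have h1 := K2.seven_odd Q hQ h2
  have h3 : ∏ r ∈ Q, r ≤ z := Nat.le_of_dvd hz (K1.prod_dvd hQ hd)
  have h4 : 15 * 7 ^ Q.card ≤ 49 * z := by omega
  have h5 : Q.card ≤ 2 := by
    by_contra hc
    have h6 := Nat.pow_le_pow_right (show 0 < 7 by norm_num) (show 3 ≤ Q.card by omega)
    omega
  unfold K2.U
  by_cases h1' : z = 1
  · have h6 : Q = ∅ := by
      refine Finset.eq_empty_iff_forall_notMem.2 fun r hr => ?_
      have := hd r hr
      rw [h1'] at this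
      exact (hQ r hr).one_lt.ne' (Nat.dvd_one.1 this)
    rw [h6, if_pos h1']
    simp
  rw [if_neg h1']
  generalize hc : Q.card = n at *
  interval_cases n
  · split_ifs <;> norm_num
  · split_ifs <;> norm_num
  · rw [if_neg (by omega)]
    norm_num

/-- tuples `(nu, g1, delta)` where the crude form is not enough -/
def K2.excS : List (ℕ × ℕ × ℕ) :=
  [(1, 2, 1), (1, 8, 1), (1, 10, 1), (2, 2, 1), (2, 4, 1), (2, 10, 3), (3, 2, 1), (4, 2, 1),
   (4, 2, 3), (4, 8, 7), (5, 2, 1), (5, 2, 3), (5, 4, 3), (5, 10, 11), (5, 46, 17), (7, 2, 1),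
   (7, 2, 3), (7, 14, 13), (7, 28, 23), (8, 4, 7), (10, 2, 3), (10, 6, 7), (10, 20, 19),
   (11, 22, 23), (13, 2, 3), (15, 4, 7)]

/-- the finite check for one `nu` -/
def K2.chkS (ν X Γ L1 K : ℕ) : Bool :=
  (List.range Γ).all fun γ => (List.range L1).all fun k1 =>
    !((γ * k1 + 1) % (2 * ν) == 0) || ((γ * k1 + 1) / (2 * ν)) % 2 == 1 ||
      (List.range K).all fun κ =>
        ((κ * γ) % 2 == 0) || !(decide (κ * γ < 2 * ((γ * k1 + 1) / (2 * ν)))) ||
        !(Nat.gcd ((γ * k1 + 1) / (2 * ν)) ((γ * k1 + 1) / (2 * ν) + κ * γ) == 1) ||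
        decide (4 * X * ((γ * k1 + 1) / (2 * ν)) * γ + 5 * (2 * ((γ * k1 + 1) / (2 * ν)) + κ * γ) ≤
          2 * ((γ * k1 + 1) / (2 * ν)) * ν * (2 * ((γ * k1 + 1) / (2 * ν)) + κ * γ)) ||
        decide (K2.V (2 * ((γ * k1 + 1) / (2 * ν)) + κ * γ) *
          K2.U (Nat.gcd ((γ * k1 + 1) / (2 * ν) + κ * γ) k1) * (10 * ν) < 29 * (κ * γ)) ||
        K2.excS.contains (ν, (γ * k1 + 1) / (2 * ν), κ * γ)

theorem K2.chkS1 : K2.chkS 1 8 44 25 13 = true := by decide +kernel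
theorem K2.chkS2 : K2.chkS 2 8 87 24 7 = true := by decide +kernel
theorem K2.chkS3 : K2.chkS 3 8 130 23 5 = true := by decide +kernel
theorem K2.chkS4 : K2.chkS 4 8 173 22 4 = true := by decide +kernel
theorem K2.chkS5 : K2.chkS 5 16 419 37 5 = true := by decide +kernel
theorem K2.chkS6 : K2.chkS 6 8 260 20 3 = true := by decide +kernel
theorem K2.chkS7 : K2.chkS 7 16 587 35 3 = true := by decide +kernel
theorem K2.chkS8 : K2.chkS 8 8 346 18 2 = true := by decide +kernel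
theorem K2.chkS10 : K2.chkS 10 16 838 32 3 = true := by decide +kernel
theorem K2.chkS11 : K2.chkS 11 16 922 31 2 = true := by decide +kernel
theorem K2.chkS13 : K2.chkS 13 16 1089 29 2 = true := by decide +kernel
theorem K2.chkS14 : K2.chkS 14 16 1173 28 2 = true := by decide +kernel
theorem K2.chkS15 : K2.chkS 15 16 1257 27 2 = true := by decide +kernel

/-- what the check says -/
theorem K2.chkS_spec {ν X Γ L1 K : ℕ} (h : K2.chkS ν X Γ L1 K = true) {γ k1 κ g1 : ℕ}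
    (hν : 0 < ν) (h1 : γ * k1 + 1 = 2 * ν * g1) (hγ : γ < Γ) (hk : k1 < L1) (hκ : κ < K)
    (hg : 2 ∣ g1) (ho : ¬ 2 ∣ κ * γ) (hlt : κ * γ < 2 * g1)
    (hco : Nat.Coprime g1 (g1 + κ * γ)) :
    4 * X * g1 * γ + 5 * (2 * g1 + κ * γ) ≤ 2 * g1 * ν * (2 * g1 + κ * γ) ∨
      K2.V (2 * g1 + κ * γ) * K2.U (Nat.gcd (g1 + κ * γ) k1) * (10 * ν) < 29 * (κ * γ) ∨
      (ν, g1, κ * γ) ∈ K2.excS := by
  have e1 : (γ * k1 + 1) / (2 * ν) = g1 := by
    rw [h1]; exact Nat.mul_div_cancel_left _ (by omega)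
  have e2 : (γ * k1 + 1) % (2 * ν) = 0 := by rw [h1]; exact Nat.mul_mod_right _ _
  have h2 := (List.all_eq_true.1 h) γ (List.mem_range.2 hγ)
  have h3 := (List.all_eq_true.1 h2) k1 (List.mem_range.2 hk)
  rw [e1, e2] at h3
  rw [Bool.or_eq_true, Bool.or_eq_true] at h3
  rcases h3 with (h3 | h3) | h3
  · exact absurd h3 (by decide)
  · exfalso
    have := beq_iff_eq.1 h3
    omega
  have h4 := (List.all_eq_true.1 h3) κ (List.mem_range.2 hκ)
  simp only [Bool.or_eq_true, beq_iff_eq, Bool.not_eq_true', decide_eq_false_iff_not,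
    decide_eq_true_eq, beq_eq_false_iff_ne, ne_eq, List.contains_iff_mem] at h4
  rcases h4 with ((((h4 | h4) | h4) | h4) | h4) | h4
  · exfalso; omega
  · exact absurd hlt h4
  · exact absurd hco h4
  · exact Or.inl h4
  · exact Or.inr (Or.inl h4)
  · exact Or.inr (Or.inr h4)

/-- the core of (N2S) for one `nu` -/
theorem K2.coreS {ν X Γ L1 K : ℕ} (hν : 0 < ν) (hchk : K2.chkS ν X Γ L1 K = true) (hΓ10 : 10 ≤ Γ)
    (hΓ : 12800 * ν * X + 6400 * ν < 2523 * Γ) (hzb : 2 * X * Γ + 10 ≤ 5145 * ν)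
    (hX : X ≤ 16) (hK1 : 2 * X + 9 < L1 + ν) (hK : 2 * X + 9 < 2 * ν * K)
    {g1 δ n0 γ A0 b0 : ℕ} (hn : n0 = 4 * ν) (hg0 : 0 < g1) (hg : 2 ∣ g1) (hδ : ¬ 2 ∣ δ) (hlt : δ < 2 * g1)
    (hco : Nat.Coprime g1 (g1 + δ))
    (hγδ : γ ∣ δ) (hγY : γ ∣ 2 * (g1 * ν) - 1) {T : Finset ℕ}
    (hT : K2.TB g1 (g1 + δ) n0 A0 b0 T) (h2T : 2 ∉ T) (hA : 0 < A0) (hAb : A0 < b0)
    (hc : Nat.Coprime A0 b0) (hb : b0 ≤ 2 * ν) :
    4 * X * g1 * γ + 5 * (2 * g1 + δ) ≤ 2 * g1 * ν * (2 * g1 + δ) ∨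
      K2.LT g1 (g1 + δ) A0 b0 T ∨ (ν, g1, δ) ∈ K2.excS := by
  rcases Nat.lt_or_ge (2 * g1 * ν * (2 * g1 + δ)) (4 * X * g1 * γ + 5 * (2 * g1 + δ)) with hR | hR
  swap
  · exact Or.inl hR
  have hδ0 : 0 < δ := by omega
  obtain ⟨κ, hκ⟩ := hγδ
  obtain ⟨k1, hk1⟩ := hγY
  have hgν : 0 < g1 * ν := Nat.mul_pos hg0 hν
  have hγ0 : 0 < γ := by
    rcases Nat.eq_zero_or_pos γ with h | h
    · rw [h, zero_mul] at hκ; omega
    · exact h
  have hκ0 : 0 < κ := by
    rcases Nat.eq_zero_or_pos κ with h | h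
    · rw [h, mul_zero] at hκ; omega
    · exact h
  have e1 : γ * k1 + 1 = 2 * ν * g1 := by
    have : 2 * (g1 * ν) = 2 * ν * g1 := by ring
    omega
  have hk10 : 0 < k1 := by
    rcases Nat.eq_zero_or_pos k1 with h | h
    · rw [h, mul_zero] at e1
      have : 2 * ν * g1 = 2 * (g1 * ν) := by ring
      omega
    · exact h
  -- `nu kappa <= k1`
  have hνκ : ν * κ ≤ k1 := by
    have h1 : ν * δ < ν * (2 * g1) := Nat.mul_lt_mul_of_pos_left hlt hν
    have h2 : ν * δ = γ * (ν * κ) := by rw [hκ]; ring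
    have h3 : ν * (2 * g1) = γ * k1 + 1 := by rw [e1]; ring
    have h4 : γ * (ν * κ) ≤ γ * k1 := by omega
    exact Nat.le_of_mul_le_mul_left h4 hγ0
  set s := k1 + ν * κ with hs
  have e2 : ν * (2 * g1 + δ) = γ * s + 1 := by
    rw [hκ, hs]
    have : ν * (2 * g1 + γ * κ) = 2 * ν * g1 + γ * (ν * κ) := by ring
    rw [this, ← e1]; ring
  -- the bound of `gamma s`
  have hC : γ * s ≤ 2 * X * γ + 9 := by
    by_contra hcon
    push Not at hcon
    have h1 : ν * (2 * g1 * ν * (2 * g1 + δ)) < ν * (4 * X * g1 * γ + 5 * (2 * g1 + δ)) :=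
      Nat.mul_lt_mul_of_pos_left hR hν
    have h2 : ν * (2 * g1 * ν * (2 * g1 + δ)) = (γ * k1 + 1) * (γ * s + 1) := by
      rw [← e2, e1]; ring
    have h3 : ν * (4 * X * g1 * γ + 5 * (2 * g1 + δ)) = 2 * X * γ * (γ * k1 + 1) + 5 * (γ * s + 1) := by
      rw [← e2, e1]; ring
    rw [h2, h3] at h1
    have h4 : (γ * k1 + 1) * (2 * X * γ + 11) ≤ (γ * k1 + 1) * (γ * s + 1) :=
      Nat.mul_le_mul_left _ (by omega)
    have h5 : (γ * k1 + 1) * (2 * X * γ + 11) = 2 * X * γ * (γ * k1 + 1) + 11 * (γ * k1 + 1) := by ring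
    have h6 : γ * s ≤ γ * (2 * k1) := Nat.mul_le_mul_left _ (by omega)
    have h7 : γ * (2 * k1) = 2 * (γ * k1) := by ring
    omega
  have hs5 : s ≤ 2 * X + 9 := by
    have h1 : γ * s ≤ γ * (2 * X + 9) := by
      have : γ * (2 * X + 9) = 2 * X * γ + 9 * γ := by ring
      omega
    exact Nat.le_of_mul_le_mul_left h1 hγ0
  have hνκ1 : ν ≤ ν * κ := Nat.le_mul_of_pos_right _ hκ0
  -- the two kinds of bad primes
  classical
  set Q := T.filter (· ∣ g1 + (g1 + δ)) with hQdef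
  set Q2 := T.filter (fun r => ¬ r ∣ g1 + (g1 + δ)) with hQ2def
  have hcard : Q.card + Q2.card = T.card := Finset.card_filter_add_card_filter_not _
  have hQp : ∀ r ∈ Q, r.Prime := fun r hr => (hT r (Finset.mem_filter.1 hr).1).1
  have hQ2p : ∀ r ∈ Q2, r.Prime := fun r hr => (hT r (Finset.mem_filter.1 hr).1).1
  have h2Q : 2 ∉ Q := fun h => h2T (Finset.mem_filter.1 h).1
  have h2Q2 : 2 ∉ Q2 := fun h => h2T (Finset.mem_filter.1 h).1
  have ez : g1 + (g1 + δ) = 2 * g1 + δ := by ring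
  have hQz : ∀ r ∈ Q, r ∣ 2 * g1 + δ := by
    intro r hr
    rw [← ez]
    exact (Finset.mem_filter.1 hr).2
  have hQ2k : ∀ r ∈ Q2, r ∣ Nat.gcd (g1 + δ) k1 := by
    intro r hr
    rw [hQ2def, Finset.mem_filter] at hr
    have h1 := (hT r hr.1).1
    rcases hT.split hAb hc hr.1 with h | ⟨h3, _, h4⟩
    · exact absurd h hr.2
    refine Nat.dvd_gcd h3 ?_
    have h6 : g1 * n0 - 2 = 2 * (γ * k1) := by
      rw [hn]
      have : g1 * (4 * ν) = 2 * (2 * ν * g1) := by ring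
      rw [this, ← e1]; omega
    rw [h6] at h4
    rcases (h1.dvd_mul).1 h4 with h7 | h7
    · exfalso
      have := (Nat.prime_dvd_prime_iff_eq h1 Nat.prime_two).1 h7
      exact h2T (this ▸ hr.1)
    · rcases (h1.dvd_mul).1 h7 with h8 | h8
      · exfalso
        have h9 : r ∣ δ := by rw [hκ]; exact h8.mul_right _
        have h10 : r ∣ g1 := (Nat.dvd_add_left h9).1 h3
        have h11 : r ∣ Nat.gcd g1 (g1 + δ) := Nat.dvd_gcd h10 h3
        rw [hco] at h11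
        exact h1.one_lt.ne' (Nat.dvd_one.1 h11)
      · exact h8
  have hgk0 : 0 < Nat.gcd (g1 + δ) k1 := Nat.gcd_pos_of_pos_right _ hk10
  have hgk1 : Nat.gcd (g1 + δ) k1 < 105 := by
    have := Nat.gcd_le_right (n := k1) (g1 + δ) hk10
    omega
  have hQ2U := K2.U_spec hgk0 hgk1 hQ2p h2Q2 hQ2k
  rcases Nat.lt_or_ge γ Γ with hΓγ | hΓγ
  · -- small `gamma`
    have hκK : κ < K := by
      by_contra hcon
      push Not at hcon
      have h1 : 2 * ν * K ≤ 2 * ν * κ := Nat.mul_le_mul_left _ hcon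
      have h2 : 2 * ν * κ = 2 * (ν * κ) := by ring
      omega
    have h1 := K2.chkS_spec hchk hν e1 hΓγ (by omega) hκK hg (by rw [mul_comm, ← hκ]; exact hδ)
      (by rw [mul_comm, ← hκ]; exact hlt) (by rw [mul_comm κ, ← hκ]; exact hco)
    rw [mul_comm κ, ← hκ] at h1
    rcases h1 with h1 | h1 | h1
    · exfalso
      omega
    · right; left
      apply K2.LT_of hA hAb
      rw [Nat.add_sub_cancel_left]
      have hz735 : 2 * g1 + δ < 5145 := by
        by_contra hcon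
        push Not at hcon
        have h2 : ν * 5145 ≤ ν * (2 * g1 + δ) := Nat.mul_le_mul_left _ hcon
        have h3 : 2 * X * γ ≤ 2 * X * (Γ - 1) := Nat.mul_le_mul_left _ (by omega)
        rcases Nat.eq_zero_or_pos X with hX | hX
        · subst hX
          omega
        · have h4 : 2 * X * (Γ - 1) + 2 * X = 2 * X * Γ := by
            obtain ⟨G, rfl⟩ : ∃ G, Γ = G + 1 := ⟨Γ - 1, by omega⟩
            rw [Nat.add_sub_cancel]; ring
          omega
      have h2 := K2.V_spec (by omega) hz735 hQp h2Q hQz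
      calc 5 * b0 * 2 ^ T.card ≤ 5 * (2 * ν) * (2 ^ Q.card * 2 ^ Q2.card) := by
            rw [← hcard, pow_add]; gcongr
        _ ≤ 5 * (2 * ν) * (K2.V (2 * g1 + δ) * K2.U (Nat.gcd (g1 + δ) k1)) := by gcongr
        _ = K2.V (2 * g1 + δ) * K2.U (Nat.gcd (g1 + δ) k1) * (10 * ν) := by ring
        _ < _ := h1
    · exact Or.inr (Or.inr h1)
  · -- large `gamma`
    right; left
    apply K2.LT_of hA hAb
    rw [Nat.add_sub_cancel_left]
    have hs2 : s ≤ 2 * X := by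
      by_contra hcon
      push Not at hcon
      have h1 : γ * (2 * X + 1) ≤ γ * s := Nat.mul_le_mul_left _ hcon
      have h2 : γ * (2 * X + 1) = 2 * X * γ + γ := by ring
      omega
    have h4 := K1.four_odd Q hQp h2Q
    have h5 : ∏ r ∈ Q, r ≤ 2 * g1 + δ := Nat.le_of_dvd (by omega) (K1.prod_dvd hQp hQz)
    have h6 : 3 * 4 ^ Q.card ≤ 4 * (2 * g1 + δ) := by omega
    by_contra hcon
    push Not at hcon
    have hU4 : K2.U (Nat.gcd (g1 + δ) k1) ≤ 4 := by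
      unfold K2.U; split_ifs <;> norm_num
    have h7 : 2 ^ T.card ≤ 4 * 2 ^ Q.card := by
      calc 2 ^ T.card = 2 ^ Q.card * 2 ^ Q2.card := by rw [← hcard, pow_add]
        _ ≤ 2 ^ Q.card * 4 := Nat.mul_le_mul_left _ (hQ2U.trans hU4)
        _ = _ := by ring
    have h8 : γ ≤ δ := by rw [hκ]; exact Nat.le_mul_of_pos_right _ hκ0
    have h9 : 29 * γ ≤ 40 * ν * 2 ^ Q.card := by
      calc 29 * γ ≤ 29 * δ := by omega
        _ ≤ 5 * b0 * 2 ^ T.card := hcon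
        _ ≤ 5 * (2 * ν) * (4 * 2 ^ Q.card) := by gcongr
        _ = _ := by ring
    have h10 : (29 * γ) * (29 * γ) ≤ (40 * ν * 2 ^ Q.card) * (40 * ν * 2 ^ Q.card) :=
      Nat.mul_le_mul h9 h9
    have h11 : (40 * ν * 2 ^ Q.card) * (40 * ν * 2 ^ Q.card) = 1600 * ν * (ν * 4 ^ Q.card) := by
      rw [show (4 : ℕ) = 2 * 2 by norm_num, mul_pow]; ring
    have h12 : 3 * (ν * 4 ^ Q.card) ≤ 4 * (2 * X * γ + 1) := by
      calc 3 * (ν * 4 ^ Q.card) = ν * (3 * 4 ^ Q.card) := by ring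
        _ ≤ ν * (4 * (2 * g1 + δ)) := Nat.mul_le_mul_left _ h6
        _ = 4 * (γ * s + 1) := by rw [← e2]; ring
        _ ≤ 4 * (2 * X * γ + 1) := by
            have : γ * s ≤ γ * (2 * X) := Nat.mul_le_mul_left _ hs2
            have h13 : γ * (2 * X) = 2 * X * γ := by ring
            omega
    have h13 : 3 * (1600 * ν * (ν * 4 ^ Q.card)) ≤ 6400 * ν * (2 * X * γ + 1) := by
      calc 3 * (1600 * ν * (ν * 4 ^ Q.card)) = 1600 * ν * (3 * (ν * 4 ^ Q.card)) := by ring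
        _ ≤ 1600 * ν * (4 * (2 * X * γ + 1)) := Nat.mul_le_mul_left _ h12
        _ = _ := by ring
    have h14 : 2523 * Γ * γ ≤ 2523 * (γ * γ) := by
      calc 2523 * Γ * γ = 2523 * (Γ * γ) := by ring
        _ ≤ _ := Nat.mul_le_mul_left _ (Nat.mul_le_mul_right _ hΓγ)
    have h15' : (12800 * ν * X + 6400 * ν) * γ < 2523 * Γ * γ := Nat.mul_lt_mul_of_pos_right hΓ hγ0
    have h16 : 6400 * ν * (2 * X * γ + 1) ≤ (12800 * ν * X + 6400 * ν) * γ := by
      have h17 : 6400 * ν * 1 ≤ 6400 * ν * γ := Nat.mul_le_mul_left _ hγ0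
      calc 6400 * ν * (2 * X * γ + 1) = 12800 * ν * X * γ + 6400 * ν * 1 := by ring
        _ ≤ 12800 * ν * X * γ + 6400 * ν * γ := by omega
        _ = _ := by ring
    have h18 : (29 * γ) * (29 * γ) * 3 = 2523 * (γ * γ) := by ring
    omega

/-- the odd primes below 110 -/
def K2.opr : List ℕ := [3, 5, 7, 11, 13, 17, 19, 23, 29, 31, 37, 41, 43, 47, 53, 59, 61, 67, 71, 73, 79,
  83, 89, 97, 101, 103, 107, 109]

theorem K2.mem_opr : ∀ r < 110, r.Prime → r ≠ 2 → r ∈ K2.opr := by decide +kernel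

/-- bound of `|T|` for `z < 110` -/
def K2.cT (g1 m1 n0 A0 b0 : ℕ) : ℕ :=
  (K2.opr.filter fun r =>
    ((A0 * (g1 + m1)) % r == 0 &&
      ((g1 + m1) / Nat.gcd (g1 + m1) A0 * ((b0 - A0) / Nat.gcd (b0 - A0) m1)) % r == 0) ||
    (m1 % r == 0 && !((g1 * A0) % r == 0) &&
      (A0 / Nat.gcd (g1 + m1) A0 * (m1 / Nat.gcd (b0 - A0) m1)) % r == 0 &&
        (g1 * n0 - 2) % r == 0)).length

theorem K2.card_le_cT {g1 m1 n0 A0 b0 : ℕ} {T : Finset ℕ} (hT : K2.TB g1 m1 n0 A0 b0 T) (h2T : 2 ∉ T)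
    (hz : g1 + m1 < 110) (hm : 0 < m1) (hAb : A0 < b0) (hc : Nat.Coprime A0 b0) :
    T.card ≤ K2.cT g1 m1 n0 A0 b0 := by
  unfold K2.cT
  refine le_trans (card_le_card ?_) (List.toFinset_card_le _)
  intro r hr
  have hp := (hT r hr).1
  have h2 : r ≠ 2 := by rintro rfl; exact h2T hr
  have hlt : r < 110 := by
    rcases hT.split hAb hc hr with h | ⟨h, _⟩
    · have := Nat.le_of_dvd (by omega) h
      omega
    · have := Nat.le_of_dvd hm h
      omega
  rw [List.mem_toFinset, List.mem_filter]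
  refine ⟨K2.mem_opr r hlt hp h2, ?_⟩
  simp only [Bool.or_eq_true, Bool.and_eq_true, beq_iff_eq, Bool.not_eq_true', beq_eq_false_iff_ne,
    ne_eq, ← Nat.dvd_iff_mod_eq_zero]
  rcases (hT r hr).2 with ⟨h3, h4⟩ | ⟨h3, h4, h5, h6⟩
  · exact Or.inl ⟨h3, h4⟩
  · exact Or.inr ⟨⟨⟨h3, h4⟩, h5⟩, h6⟩

/-- bound of the flags -/
def K2.cE (g1 m1 n0 A0 b0 : ℕ) : ℕ :=
  (bif m1 % 3 == 0 && !(n0 % 3 == 0) then 1 else 0) +
    (bif (m1 % 9 == 0 && (b0 - A0) % 3 == 0) || !(Nat.gcd (g1 + m1) (g1 * n0 - 10) == 1) then 1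
      else 0)

theorem K2.le_cE {g1 m1 n0 A0 b0 e3 e9 ez : ℕ} (h3 : e3 ≤ 1) (h9 : e9 ≤ 1) (hz : ez ≤ 1)
    (f3 : e3 = 1 → 3 ∣ m1 ∧ ¬ 3 ∣ n0) (f9 : e9 = 1 → 9 ∣ m1 ∧ 3 ∣ b0 - A0)
    (fz : ez = 1 → ∃ zp : ℕ, 1 < zp ∧ ¬ 2 ∣ zp ∧ zp ∣ g1 + m1 ∧ zp ∣ g1 * n0 - 10 ∧ Nat.Coprime zp A0)
    (hex : ez = 0 ∨ e9 = 0) : e3 + e9 + ez ≤ K2.cE g1 m1 n0 A0 b0 := by
  unfold K2.cE
  have h1 : e3 ≤ (bif m1 % 3 == 0 && !(n0 % 3 == 0) then 1 else 0) := by
    rcases Nat.eq_zero_or_pos e3 with h | h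
    · rw [h]; exact Nat.zero_le _
    · obtain ⟨h4, h5⟩ := f3 (by omega)
      have h6 : (m1 % 3 == 0 && !(n0 % 3 == 0)) = true := by
        simp only [Bool.and_eq_true, beq_iff_eq, Bool.not_eq_true', beq_eq_false_iff_ne, ne_eq,
          ← Nat.dvd_iff_mod_eq_zero]
        exact ⟨h4, h5⟩
      rw [h6]
      exact h3
  have h2 : e9 + ez ≤ (bif (m1 % 9 == 0 && (b0 - A0) % 3 == 0) ||
      !(Nat.gcd (g1 + m1) (g1 * n0 - 10) == 1) then 1 else 0) := by
    rcases Nat.eq_zero_or_pos (e9 + ez) with h | h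
    · rw [h]; exact Nat.zero_le _
    · have h6 : ((m1 % 9 == 0 && (b0 - A0) % 3 == 0) ||
          !(Nat.gcd (g1 + m1) (g1 * n0 - 10) == 1)) = true := by
        simp only [Bool.or_eq_true, Bool.and_eq_true, beq_iff_eq, Bool.not_eq_true',
          beq_eq_false_iff_ne, ne_eq, ← Nat.dvd_iff_mod_eq_zero]
        rcases (show e9 = 1 ∨ ez = 1 by omega) with h7 | h7
        · exact Or.inl (f9 h7)
        · right
          intro h8
          obtain ⟨zp, h9, _, h10, h11, _⟩ := fz h7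
          have := Nat.dvd_gcd h10 h11
          rw [h8] at this
          have := Nat.dvd_one.1 this
          omega
      rw [h6]
      show e9 + ez ≤ 1
      omega
  omega

/-- the exact check of the exceptional tuples -/
def K2.chkE (t : ℕ × ℕ × ℕ) : Bool :=
  (List.range (2 * t.1 + 1)).all fun b0 => (List.range b0).all fun A0 =>
    !(b0 % 2 == 0) || !(A0 % 2 == 1) || !((4 * t.1) % (2 * b0) == 0) || !(Nat.gcd A0 b0 == 1) ||
    decide (2 ^ (K2.cT t.2.1 (t.2.1 + t.2.2) (4 * t.1) A0 b0) *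
      (Nat.gcd (t.2.1 + (t.2.1 + t.2.2)) A0 * Nat.gcd (b0 - A0) (t.2.1 + t.2.2)) <
        t.2.2 * (A0 + b0)) ||
    (decide (10 < t.2.1 * (4 * t.1)) &&
      decide (2 ^ (K2.k (4 * t.1) + K2.cE t.2.1 (t.2.1 + t.2.2) (4 * t.1) A0 b0) *
        (t.2.1 * (4 * K2.gam t.2.1 (t.2.1 + t.2.2) (4 * t.1))) ≤
          (t.2.1 * (4 * t.1) - 10) * (t.2.1 + (t.2.1 + t.2.2)))) ||
    (t.2.1 == 2 && t.2.2 == 1 && A0 == 1 && ((t.1 == 1 && b0 == 2) || (t.1 == 2 && b0 == 4)))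

theorem K2.chkE_all : (K2.excS.all fun t => K2.chkE t && decide (0 < t.2.1) &&
    decide (t.2.1 + (t.2.1 + t.2.2) < 110)) = true := by
  decide +kernel

theorem K2.nuS33 : ∀ ν < 33, 0 < ν → ν ∈ [1, 2, 3, 4, 5, 6, 7, 8, 10, 11, 13, 14, 15] ∨
    2 ^ (K2.k (4 * ν) + (if 3 ∣ ν then 2 else 3)) + 1 ≤ ν := by
  decide +kernel

theorem K2.nuS_big {ν : ℕ} (h0 : 0 < ν) (h : ν ∉ [1, 2, 3, 4, 5, 6, 7, 8, 10, 11, 13, 14, 15]) :
    2 ^ (K2.k (4 * ν) + (if 3 ∣ ν then 2 else 3)) + 1 ≤ ν := by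
  rcases Nat.lt_or_ge ν 33 with h1 | h1
  · exact (K2.nuS33 ν h1 h0).resolve_left h
  · rcases Nat.lt_or_ge (K2.k (4 * ν)) 3 with hk | hk
    · have := Nat.pow_le_pow_right (show 0 < 2 by norm_num)
        (show K2.k (4 * ν) + (if 3 ∣ ν then 2 else 3) ≤ 5 by split_ifs <;> omega)
      omega
    · by_cases h3 : 3 ∣ ν
      · rw [if_pos h3]
        have h8 := K2.k3 (n0 := 4 * ν) (j := 2) (by omega) (by simp)
        rcases Nat.lt_or_ge (K2.k (4 * ν)) 4 with hk' | hk'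
        · have := Nat.pow_le_pow_right (show 0 < 2 by norm_num) (show K2.k (4 * ν) + 2 ≤ 5 by omega)
          omega
        · obtain ⟨i, hi⟩ : ∃ i, K2.k (4 * ν) = i + 4 := ⟨K2.k (4 * ν) - 4, by omega⟩
          rw [hi] at h8 ⊢
          have h9 := Nat.pow_le_pow_left (show 2 ≤ 3 by norm_num) i
          have h10 : 1 ≤ 2 ^ i := Nat.one_le_two_pow
          simp only [pow_succ] at h8 ⊢
          omega
      · rw [if_neg h3]
        have h8 := K2.k5 (n0 := 4 * ν) (j := 2) (by omega) (by simp) (by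
          intro h4
          rcases (Nat.prime_three.dvd_mul).1 h4 with h5 | h5
          · omega
          · exact h3 h5)
        obtain ⟨i, hi⟩ : ∃ i, K2.k (4 * ν) = i + 3 := ⟨K2.k (4 * ν) - 3, by omega⟩
        rw [hi] at h8 ⊢
        have h9 := Nat.pow_le_pow_left (show 2 ≤ 5 by norm_num) i
        have h10 : 1 ≤ 2 ^ i := Nat.one_le_two_pow
        simp only [pow_succ] at h8 ⊢
        omega

/-- (N2S), type S2, level four -/
theorem K2.n2s {g1 m1 n0 A0 b0 e3 e9 ez : ℕ} (hg0 : 0 < g1) (hgm : g1 < m1) (hm3 : m1 < 3 * g1)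
    (hco : Nat.Coprime g1 m1) (hA : 0 < A0) (hAb : A0 < b0) (hc : Nat.Coprime A0 b0) (hn0 : 0 < n0)
    (hg : 2 ∣ g1) (hm : ¬ 2 ∣ m1) (hA2 : ¬ 2 ∣ A0) (hb2 : 2 ∣ b0) (hbn : 2 * b0 ∣ n0) {T : Finset ℕ}
    (hT : K2.TB g1 m1 n0 A0 b0 T) (h2T : 2 ∉ T)
    (hnot : ¬ (g1 = 2 ∧ m1 = 3 ∧ A0 = 1 ∧ ((n0 = 4 ∧ b0 = 2) ∨ (n0 = 8 ∧ b0 = 4))))
    (he3 : e3 ≤ 1) (he9 : e9 ≤ 1) (hez : ez ≤ 1)
    (f3 : e3 = 1 → 3 ∣ m1 ∧ ¬ 3 ∣ n0)
    (f9 : e9 = 1 → 9 ∣ m1 ∧ ¬ 3 ∣ b0 ∧ 3 ∣ b0 - A0 ∧ ∀ r : ℕ, r.Prime → r ≠ 2 → r ∣ g1 + m1 → r ∣ A0)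
    (fz : ez = 1 → ∃ zp : ℕ, 1 < zp ∧ ¬ 2 ∣ zp ∧ zp ∣ g1 + m1 ∧ zp ∣ g1 * n0 - 10 ∧ Nat.Coprime zp A0)
    (hex : ez = 0 ∨ e9 = 0) :
    K2.LT g1 m1 A0 b0 T ∨
      (10 < g1 * n0 ∧
        2 ^ (K2.k n0 + e3 + e9 + ez) * (g1 * (4 * K2.gam g1 m1 n0)) ≤ (g1 * n0 - 10) * (g1 + m1)) := by
  obtain ⟨ν, hν⟩ : 4 ∣ n0 := by
    obtain ⟨β, rfl⟩ := hb2
    refine Dvd.dvd.trans ?_ hbn
    exact ⟨β, by ring⟩
  have hν0 : 0 < ν := by omega
  have hbν : b0 ≤ 2 * ν := by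
    have h1 := Nat.le_of_dvd hn0 hbn
    omega
  obtain ⟨δ, hδ⟩ : ∃ δ, m1 = g1 + δ := ⟨m1 - g1, by omega⟩
  have hδ0 : 0 < δ := by omega
  have hδo : ¬ 2 ∣ δ := by omega
  have hlt : δ < 2 * g1 := by omega
  obtain ⟨γ, hγ1, hγδ, hγY, hγ0⟩ := K2.gam4 (δ := δ) hg0 hν0
  have h3n : 3 ∣ n0 ↔ 3 ∣ ν := by
    rw [hν]
    constructor
    · intro h
      rcases (Nat.prime_three.dvd_mul).1 h with h5 | h5
      · omega
      · exact h5
    · exact fun h => h.mul_left 4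
  have hE : 2 ^ (K2.k n0 + e3 + e9 + ez + 1) ≤ 2 ^ (K2.k n0 + (if 3 ∣ ν then 2 else 3)) := by
    apply Nat.pow_le_pow_right (by norm_num)
    split_ifs with h
    · have : e3 = 0 := by
        by_contra hcon
        exact (f3 (by omega)).2 (h3n.2 h)
      omega
    · omega
  -- from the reduced inequality
  have fin : ∀ X, 2 ^ (K2.k n0 + (if 3 ∣ ν then 2 else 3)) = X →
      4 * X * g1 * γ + 5 * (2 * g1 + δ) ≤ 2 * g1 * ν * (2 * g1 + δ) →
      (10 < g1 * n0 ∧ 2 ^ (K2.k n0 + e3 + e9 + ez) * (g1 * (4 * K2.gam g1 m1 n0)) ≤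
        (g1 * n0 - 10) * (g1 + m1)) := by
    intro X hX h
    rw [hX] at hE
    have h0 : 5 * (2 * g1 + δ) < 2 * g1 * ν * (2 * g1 + δ) := by
      have : 0 < 4 * X * g1 * γ := by
        have : 0 < X := by rw [← hX]; positivity
        positivity
      omega
    have h1 : 5 < 2 * g1 * ν := Nat.lt_of_mul_lt_mul_right h0
    have h2 : g1 * n0 = 2 * (2 * g1 * ν) := by rw [hν]; ring
    refine ⟨by omega, ?_⟩
    rw [h2, hδ, hν, hγ1]
    rw [hν] at hE
    rw [pow_succ] at hE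
    set P := 2 ^ (K2.k (4 * ν) + e3 + e9 + ez) with hP
    have h3 : (2 * (2 * g1 * ν) - 10) * (g1 + (g1 + δ)) =
        2 * (2 * g1 * ν * (2 * g1 + δ)) - 10 * (2 * g1 + δ) := by
      rw [show g1 + (g1 + δ) = 2 * g1 + δ by ring, Nat.sub_mul]
      congr 1
      ring
    rw [h3]
    have h4 : P * (g1 * (4 * (4 * γ))) = (P * 2) * (8 * g1 * γ) := by ring
    have h5 : (P * 2) * (8 * g1 * γ) ≤ X * (8 * g1 * γ) := Nat.mul_le_mul_right _ hE
    have h6 : X * (8 * g1 * γ) = 2 * (4 * X * g1 * γ) := by ring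
    omega
  have hT' := hT
  have hco' := hco
  rw [hδ] at hT' hco'
  have core : ∀ {X Γ L1 K : ℕ}, 2 ^ (K2.k n0 + (if 3 ∣ ν then 2 else 3)) = X →
      K2.chkS ν X Γ L1 K = true → 10 ≤ Γ →
      12800 * ν * X + 6400 * ν < 2523 * Γ → 2 * X * Γ + 10 ≤ 5145 * ν → X ≤ 16 →
      2 * X + 9 < L1 + ν → 2 * X + 9 < 2 * ν * K →
      K2.LT g1 m1 A0 b0 T ∨
      (10 < g1 * n0 ∧ 2 ^ (K2.k n0 + e3 + e9 + ez) * (g1 * (4 * K2.gam g1 m1 n0)) ≤
        (g1 * n0 - 10) * (g1 + m1)) := by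
    intro X Γ L1 K hXX a1 a2 a3 a4 a5 a6 a7
    rcases K2.coreS hν0 a1 a2 a3 a4 a5 a6 a7 hν hg0 hg hδo hlt hco' hγδ hγY hT' h2T hA hAb hc hbν
      with h | h | h
    · exact Or.inr (fin X hXX h)
    · rw [← hδ] at h
      exact Or.inl h
    · -- an exceptional tuple
      have h1 := (List.all_eq_true.1 K2.chkE_all) _ h
      simp only [Bool.and_eq_true, decide_eq_true_eq] at h1
      obtain ⟨⟨h2, h3⟩, h4⟩ := h1
      unfold K2.chkE at h2
      have h5 := (List.all_eq_true.1 h2) b0 (List.mem_range.2 (by simp only []; omega))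
      have h6 := (List.all_eq_true.1 h5) A0 (List.mem_range.2 hAb)
      simp only [Bool.or_eq_true, Bool.and_eq_true, beq_iff_eq, Bool.not_eq_true', decide_eq_true_eq,
        beq_eq_false_iff_ne, ne_eq] at h6
      rw [← hδ, ← hν] at h6
      rcases h6 with (((((h6 | h6) | h6) | h6) | h6) | h6) | h6
      · omega
      · omega
      · exact absurd (Nat.mod_eq_zero_of_dvd hbn) h6
      · exact absurd hc h6
      · left
        unfold K2.LT
        have h7 := K2.card_le_cT hT h2T (by omega) (by omega) hAb hc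
        have h8 : m1 - g1 = δ := by omega
        rw [h8]
        exact lt_of_le_of_lt (Nat.mul_le_mul_right _ (Nat.pow_le_pow_right (by norm_num) h7)) h6
      · right
        refine ⟨h6.1, le_trans (Nat.mul_le_mul_right _ (Nat.pow_le_pow_right (by norm_num) ?_)) h6.2⟩
        have := K2.le_cE (g1 := g1) (A0 := A0) (b0 := b0) (n0 := n0) (m1 := m1) he3 he9 hez f3
          (fun h => ⟨(f9 h).1, (f9 h).2.2.1⟩) fz hex
        omega
      · exfalso
        apply hnot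
        obtain ⟨⟨⟨h7, h8⟩, h9⟩, h10⟩ := h6
        refine ⟨h7, by omega, h9, ?_⟩
        rcases h10 with ⟨h10, h11⟩ | ⟨h10, h11⟩
        · left; omega
        · right; omega
  by_cases hb : ν ∈ [1, 2, 3, 4, 5, 6, 7, 8, 10, 11, 13, 14, 15]
  · simp only [List.mem_cons, List.not_mem_nil, or_false] at hb
    rcases hb with h | h | h | h | h | h | h | h | h | h | h | h | h
    · subst h
      exact core (by rw [hν]; decide +kernel) K2.chkS1 (by norm_num) (by norm_num) (by norm_num)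
        (by norm_num) (by norm_num) (by norm_num)
    · subst h
      exact core (by rw [hν]; decide +kernel) K2.chkS2 (by norm_num) (by norm_num) (by norm_num)
        (by norm_num) (by norm_num) (by norm_num)
    · subst h
      exact core (by rw [hν]; decide +kernel) K2.chkS3 (by norm_num) (by norm_num) (by norm_num)
        (by norm_num) (by norm_num) (by norm_num)
    · subst h
      exact core (by rw [hν]; decide +kernel) K2.chkS4 (by norm_num) (by norm_num) (by norm_num)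
        (by norm_num) (by norm_num) (by norm_num)
    · subst h
      exact core (by rw [hν]; decide +kernel) K2.chkS5 (by norm_num) (by norm_num) (by norm_num)
        (by norm_num) (by norm_num) (by norm_num)
    · subst h
      exact core (by rw [hν]; decide +kernel) K2.chkS6 (by norm_num) (by norm_num) (by norm_num)
        (by norm_num) (by norm_num) (by norm_num)
    · subst h
      exact core (by rw [hν]; decide +kernel) K2.chkS7 (by norm_num) (by norm_num) (by norm_num)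
        (by norm_num) (by norm_num) (by norm_num)
    · subst h
      exact core (by rw [hν]; decide +kernel) K2.chkS8 (by norm_num) (by norm_num) (by norm_num)
        (by norm_num) (by norm_num) (by norm_num)
    · subst h
      exact core (by rw [hν]; decide +kernel) K2.chkS10 (by norm_num) (by norm_num) (by norm_num)
        (by norm_num) (by norm_num) (by norm_num)
    · subst h
      exact core (by rw [hν]; decide +kernel) K2.chkS11 (by norm_num) (by norm_num) (by norm_num)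
        (by norm_num) (by norm_num) (by norm_num)
    · subst h
      exact core (by rw [hν]; decide +kernel) K2.chkS13 (by norm_num) (by norm_num) (by norm_num)
        (by norm_num) (by norm_num) (by norm_num)
    · subst h
      exact core (by rw [hν]; decide +kernel) K2.chkS14 (by norm_num) (by norm_num) (by norm_num)
        (by norm_num) (by norm_num) (by norm_num)
    · subst h
      exact core (by rw [hν]; decide +kernel) K2.chkS15 (by norm_num) (by norm_num) (by norm_num)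
        (by norm_num) (by norm_num) (by norm_num)
  · right
    have h1 : 2 ^ (K2.k (4 * ν) + (if 3 ∣ ν then 2 else 3)) + 1 ≤ ν := K2.nuS_big hν0 hb
    rw [← hν] at h1
    refine fin _ rfl ?_
    have hX8 : 4 ≤ 2 ^ (K2.k n0 + (if 3 ∣ ν then 2 else 3)) := by
      have : 2 ^ 2 ≤ 2 ^ (K2.k n0 + (if 3 ∣ ν then 2 else 3)) :=
        Nat.pow_le_pow_right (by norm_num) (by split_ifs <;> omega)
      exact this
    generalize 2 ^ (K2.k n0 + (if 3 ∣ ν then 2 else 3)) = X at h1 hX8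
    have hγle : γ ≤ δ := Nat.le_of_dvd hδ0 hγδ
    have h2 : 2 * γ + 1 ≤ 2 * g1 + δ := by omega
    have h3 : 2 * g1 * (X + 1) ≤ 2 * g1 * ν := Nat.mul_le_mul_left _ h1
    have h4 : (2 * g1 * X) * (2 * γ + 1) ≤ (2 * g1 * X) * (2 * g1 + δ) := Nat.mul_le_mul_left _ h2
    have h5 : 5 * (2 * g1 + δ) ≤ 2 * g1 * (2 * g1 + δ) + 2 * g1 * X := by
      rcases Nat.lt_or_ge g1 3 with h6 | h6
      · have h7 : g1 = 2 := by omega
        subst h7
        omega
      · have : 6 * (2 * g1 + δ) ≤ 2 * g1 * (2 * g1 + δ) := Nat.mul_le_mul_right _ (by omega)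
        omega
    have h6 : 2 * g1 * (X + 1) * (2 * g1 + δ) ≤ 2 * g1 * ν * (2 * g1 + δ) := Nat.mul_le_mul_right _ h3
    have h7 : 2 * g1 * (X + 1) * (2 * g1 + δ) = (2 * g1 * X) * (2 * g1 + δ) + 2 * g1 * (2 * g1 + δ) := by
      ring
    have h8 : (2 * g1 * X) * (2 * γ + 1) = 4 * X * g1 * γ + 2 * g1 * X := by ring
    omega

end Pool.Agent.H4G
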