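import Pool.Agent.H4G.Arith.LConcl
import Pool.Agent.H4G.Arith.F3count

/-!
# The left half of line B: `A < c`, `e ≥ 3 A` is impossible (helper23)
-/

set_option autoImplicit false

namespace Pool.Agent.H4G

/-- `b = A` forces `c ∣ A` -/
theorem ExtB.c_dvd_of_eq {N : ℕ} (hN : N.Prime) {S : PSt} {a' b c : ℤ} (h : ExtB S a' b c)
    {l p l' p' : Z2} (ad : Ad S l p l' p') (hv : cr p l + cr S.u S.v + cr l' p' = N)
    (hbA : b = cr S.u S.v) : c ∣ cr S.u S.v := by
  have E1 : cr p S.v = b := ad.isC.unique h.hb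
  have E2 : cr S.u p' = c := ad.isC'.unique h.hc
  have E3 : cr l' p' = a' := ad.isArea'.unique h.ha'
  have hA0 := ad.hA
  have hea : cr S.u l = cr p l := by
    have area := ad.area
    rw [E1, hbA] at area
    have : cr S.u S.v * (cr S.u l - cr p l) = 0 := by linear_combination -area
    rcases mul_eq_zero.1 this with h9 | h9
    · exact absurd h9 hA0.ne'
    · linarith
  refine dvd_of_primes fun r hr k hk => ?_
  have hcz : ∀ z ∈ S.L', (r : ℤ) ^ k ∣ cr S.u z := fun z hz => hk.trans (h.hc.2.1 z hz)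
  by_cases hra : (r : ℤ) ∣ a'
  · have hna : ¬ (r : ℤ) ∣ cr S.u S.v + cr S.u l := by
      rw [hea]
      exact not_dvd_of_prime hN h.ha'.1 (by linarith [ad.pos]) (by rw [← E3]; linarith) hr hra
    refine h.con.dvd (pow_ne_zero _ (by exact_mod_cast hr.ne_zero)) fun z hz => ?_
    have h1 : (r : ℤ) ^ k ∣ cr (S.v + l) z := by
      obtain ⟨v1, v2⟩ := h.vrig ad
      have hz' := hz
      rw [ad.hL'] at hz'
      obtain ⟨m, n, rfl⟩ := mem_lat.1 hz'
      rw [cr_add_right, cr_smul_right, cr_smul_right]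
      exact hk.trans (dvd_add (v1.mul_left _) (v2.mul_left _))
    have h2 : (r : ℤ) ^ k ∣ cr S.v z := by
      have h3 : (cr S.u S.v + cr S.u l) * cr S.v z = cr S.u S.v * cr (S.v + l) z := by
        have k := plk S.u S.v z l
        rw [cr_swap S.v l, ad.h1, cr_swap z l, cr_swap z S.v] at k
        rw [cr_add_left]
        linear_combination k
      have h4 : (r : ℤ) ^ k ∣ (cr S.u S.v + cr S.u l) * cr S.v z := by
        rw [h3]; exact h1.mul_left _
      exact pow_dvd_of_mul hr h4 hna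
    have e1 := cr_dep S.u S.v z
    have e2 : cr S.u S.v • z = -(cr S.v z • S.u + cr z S.u • S.v) :=
      eq_neg_of_add_eq_zero_right e1
    rw [e2]
    refine (Dz.add (Dz.of_dvd h2 _) (Dz.of_dvd ?_ _)).neg
    rw [cr_swap z S.u]; exact (dvd_neg).2 (hcz z hz)
  · exact h.ha'.dvd_all hr hra hcz S.v

/-- Chinese remainders for conditions -/
theorem crt_cond (P : Finset ℕ) (hP : ∀ r ∈ P, r.Prime) (C : ℕ → ℤ → Prop)
    (hC : ∀ r ∈ P, ∃ t : ℤ, ∀ t' : ℤ, (r : ℤ) ∣ t' - t → C r t') {α β : ℤ} (hα : α ≠ 0) :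
    ∃ x : ℤ, (∀ r ∈ P, C r x) ∧ α * x + β ≠ 0 := by
  classical
  choose! t ht using hC
  obtain ⟨x, hx⟩ := crt_finset P hP t
  set M : ℤ := ∏ r ∈ P, (r : ℤ) with hM
  have hM0 : M ≠ 0 := by
    rw [hM, Finset.prod_ne_zero_iff]
    intro r hr
    exact_mod_cast (hP r hr).ne_zero
  by_cases hz : α * x + β = 0
  · refine ⟨x + M, fun r hr => ht r hr _ ?_, fun h3 => ?_⟩
    · have h1 : (r : ℤ) ∣ M := Finset.dvd_prod_of_mem (fun s : ℕ => (s : ℤ)) hr
      have e1 : x + M - t r = (x - t r) + M := by ring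
      rw [e1]; exact dvd_add (hx r hr) h1
    · have h4 : α * M = 0 := by linear_combination h3 - hz
      rcases mul_eq_zero.1 h4 with h | h
      · exact hα h
      · exact hM0 h
  · exact ⟨x, fun r hr => ht r hr _ (hx r hr), hz⟩

/-- as `crt_pair`, with `l` in a given class modulo a further prime -/
theorem crt_pair' {D1 e1 n : ℤ} (hco : IsCoprime D1 e1) (Pr Pl : Finset ℕ)
    (hPr : ∀ r ∈ Pr, r.Prime) (hPl : ∀ r ∈ Pl, r.Prime) (hdis : Disjoint Pr Pl) (κ : ℕ → ℤ)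
    (h1 : ∀ r ∈ Pr, (r : ℤ) ∣ D1 → ¬ (r : ℤ) ∣ n - κ r * e1)
    (h2 : ∀ r ∈ Pl, (r : ℤ) ∣ e1 → ¬ (r : ℤ) ∣ n + κ r * D1)
    {X Y Z : ℤ} (hXY : X * D1 + Y * e1 ≠ 0) {s : ℕ} (hs : s.Prime) (hs1 : s ∉ Pr) (hs2 : s ∉ Pl)
    (hse : ¬ (s : ℤ) ∣ e1) (lam : ℤ) :
    ∃ ρ l : ℤ, ρ * e1 - l * D1 = n ∧ (∀ r ∈ Pr, ¬ (r : ℤ) ∣ ρ - κ r) ∧
      (∀ r ∈ Pl, ¬ (r : ℤ) ∣ l - κ r) ∧ (s : ℤ) ∣ l - lam ∧ X * ρ + Y * l + Z ≠ 0 := by
  classical
  obtain ⟨α, β, hab⟩ := hco
  obtain ⟨x, hx, hx2⟩ := crt_cond (insert s (Pr ∪ Pl)) (fun r hr => by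
      rcases Finset.mem_insert.1 hr with rfl | h
      · exact hs
      rcases Finset.mem_union.1 h with h | h
      · exact hPr r h
      · exact hPl r h)
    (fun r t => (r ∈ Pr → ¬ (r : ℤ) ∣ β * n + D1 * t - κ r) ∧
      (r ∈ Pl → ¬ (r : ℤ) ∣ -(α * n) + e1 * t - κ r) ∧
      (r = s → (r : ℤ) ∣ -(α * n) + e1 * t - lam)) (fun r hr => by
      rcases Finset.mem_insert.1 hr with rfl | h
      · obtain ⟨t, ht⟩ := exists_mul_class hs hse (lam + α * n)
        refine ⟨t, fun t' ht' => ⟨fun h9 => absurd h9 hs1, fun h9 => absurd h9 hs2, fun _ => ?_⟩⟩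
        have e1' : -(α * n) + e1 * t' - lam = (e1 * t - (lam + α * n)) + e1 * (t' - t) := by
          ring
        rw [e1']
        exact dvd_add ht (ht'.mul_left _)
      · by_cases hr1 : r ∈ Pr
        · obtain ⟨t, ht⟩ := shift_avoid r (x := β * n) (d := D1) (k := κ r) (fun hd h3 => by
            refine h1 r hr1 hd ?_
            have e1' : n - κ r * e1 = (β * n - κ r) * e1 + n * α * D1 := by
              linear_combination -n * hab
            rw [e1']
            exact dvd_add (h3.mul_right _) (hd.mul_left _))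
          refine ⟨t, fun t' ht' => ⟨fun _ => ht t' ht', fun h9 => ?_, fun h9 => ?_⟩⟩
          · exact absurd h9 (fun h8 => (Finset.disjoint_left.1 hdis) hr1 h8)
          · exact absurd (h9 ▸ hr1) hs1
        · have hr2 : r ∈ Pl := (Finset.mem_union.1 h).resolve_left hr1
          obtain ⟨t, ht⟩ := shift_avoid r (x := -(α * n)) (d := e1) (k := κ r) (fun hd h3 => by
            refine h2 r hr2 hd ?_
            have e1' : n + κ r * D1 = -(-(α * n) - κ r) * D1 + n * β * e1 := by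
              linear_combination -n * hab
            rw [e1']
            exact dvd_add ((dvd_neg.2 h3).mul_right _) (hd.mul_left _))
          refine ⟨t, fun t' ht' => ⟨fun h9 => absurd h9 hr1, fun _ => ht t' ht', fun h9 => ?_⟩⟩
          exact absurd (h9 ▸ hr2) hs2)
    (α := X * D1 + Y * e1) (β := X * (β * n) + Y * (-(α * n)) + Z) hXY
  refine ⟨β * n + D1 * x, -(α * n) + e1 * x, by linear_combination n * hab, fun r hr => ?_,
    fun r hr => ?_, ?_, ?_⟩
  · exact (hx r (Finset.mem_insert_of_mem (Finset.mem_union_left _ hr))).1 hr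
  · exact (hx r (Finset.mem_insert_of_mem (Finset.mem_union_right _ hr))).2.1 hr
  · exact (hx s (Finset.mem_insert_self _ _)).2.2 rfl
  · intro h
    apply hx2
    linear_combination h

/-- in the case `B = A₁`: primes of `b` and `A₁` divide `u₁` -/
theorem ExtB.u1_dz {S : PSt} {a' b c : ℤ} (h : ExtB S a' b c)
    {l p l' p' : Z2} (ad : Ad S l p l' p') {q τ : ℤ}
    (hx : LEx (cr S.u S.v) (cr p S.v) (cr S.u l) (cr S.u p) (cr p l) q τ)
    (hB : IsC S.L' (S.u + q • S.v + τ • l + p) (cr (S.u + q • S.v + τ • l + p) S.v))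
    (hd : ∀ w ∈ lat (l - S.v) (p + τ • S.v), Dz b w)
    {r : ℕ} (hr : r.Prime)
    (hrA1 : (r : ℤ) ∣ cr (S.u + q • S.v + τ • l + p) S.v) (hra : ¬ (r : ℤ) ∣ a') :
    Dz r (S.u + q • S.v + τ • l + p) := by
  obtain ⟨T, k1, k2, k3, k4, k5, k6⟩ := h.exitT ad hx
  have E1 : cr p S.v = b := ad.isC.unique h.hb
  have hb0 := h.bpos
  have hri := Nat.prime_iff_prime_int.1 hr
  set w1 := S.u + q • S.v + τ • l + p with hw1
  have hA10 : 0 < cr w1 S.v := hB.1
  obtain ⟨k, b0, hk, hb0'⟩ := exists_pow_mul hr hb0.ne'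
  obtain ⟨s, R, hs, hR⟩ := exists_pow_mul hr hA10.ne'
  have hs1 : s ≠ 0 := by
    rintro rfl
    rw [pow_zero, one_mul] at hs
    exact hR (by rw [← hs]; exact hrA1)
  have hmem : p + τ • S.v ∈ lat (l - S.v) (p + τ • S.v) := mem_lat.2 ⟨0, 1, by module⟩
  obtain ⟨y0, hy0⟩ := hd _ hmem
  have e1 : cr y0 S.v = 1 := by
    have : cr (p + τ • S.v) S.v = b := by
      rw [cr_add_left, cr_smul_left, cr_self, E1]; ring
    rw [hy0, cr_smul_left] at this
    have h2 : b * (cr y0 S.v - 1) = 0 := by linear_combination this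
    rcases mul_eq_zero.1 h2 with h9 | h9
    · exact absurd h9 hb0.ne'
    · linarith
  have rig := h.hrigAt_mulF k1 (by rw [k2]; exact h.ha') (by rw [k2]; exact h.con) k6
    (g := cr w1 S.v) (by rw [k2, k5]; exact hB) hr (Or.inr (Or.inr hra)) (k := k)
    (by rw [hk]; exact dvd_mul_right _ _) (w := p + τ • S.v) (by rw [k4]; exact hmem)
  rw [k5, hy0, cr_smul_right] at rig
  have hna : ¬ (r : ℤ) ∣ cr w1 S.v + a' := by
    intro h3
    apply hra
    have := dvd_sub h3 hrA1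
    simpa using this
  have h2 : (r : ℤ) ^ k * (r : ℤ) ^ s ∣ (r : ℤ) ^ k * ((cr w1 S.v + a') * (b0 * cr w1 y0)) := by
    have e2 : (r : ℤ) ^ k * ((cr w1 S.v + a') * (b0 * cr w1 y0)) =
        (cr w1 S.v + a') * (b * cr w1 y0) := by
      conv_rhs => rw [hk]
      ring
    rw [e2]
    refine Dvd.dvd.trans ?_ rig
    exact mul_dvd_mul_left _ (Dvd.intro _ hs.symm)
  have h3 := (mul_dvd_mul_iff_left (pow_ne_zero _ hri.ne_zero)).1 h2
  have h4 := pow_dvd_of_mul hr (pow_dvd_of_mul hr h3 hna) hb0'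
  have h5 : (r : ℤ) ∣ cr w1 y0 := (dvd_pow_self _ hs1).trans h4
  rw [Dz.iff]
  intro z
  have e3 : cr w1 z = cr z S.v * cr w1 y0 + cr y0 z * cr w1 S.v := by
    have := plk w1 z y0 S.v
    rw [e1, cr_swap y0 w1] at this
    linear_combination this
  rw [e3]
  exact dvd_add (h5.mul_left _) (hrA1.mul_left _)

/-- THE LEFT HALF of line B: in the frame ExtB, `A < c` and `e ≥ 3 A` are impossible -/
theorem ExtB.left_false {N : ℕ} (hN : N.Prime) {S : PSt} {a' b c : ℤ} (h : ExtB S a' b c)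
    {l p l' p' : Z2} (ad : Ad S l p l' p') (hfull : S.Full)
    (hv : cr p l + cr S.u S.v + cr l' p' = N) (hb3 : 3 ≤ b) (hAc : cr S.u S.v < c)
    (he : 3 * cr S.u S.v ≤ cr S.u l) : False := by
  classical
  have E1 : cr p S.v = b := ad.isC.unique h.hb
  have E2 : cr S.u p' = c := ad.isC'.unique h.hc
  have E3 : cr l' p' = a' := ad.isArea'.unique h.ha'
  have hA0 := ad.hA
  have hb0 := h.bpos
  have ha0 := ad.pos
  have ha0' := h.ha'.1
  have area := ad.area
  rw [E1] at area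
  have hAb : cr S.u S.v < b := by
    rcases lt_or_eq_of_le h.hA with h9 | h9
    · exact h9
    · exfalso
      have h8 := h.c_dvd_of_eq hN ad hv h9.symm
      have := Int.le_of_dvd hA0 h8
      linarith
  obtain ⟨A, hA⟩ : ∃ A, A = cr S.u S.v := ⟨_, rfl⟩
  obtain ⟨e, hee⟩ : ∃ e, e = cr S.u l := ⟨_, rfl⟩
  obtain ⟨f, hf⟩ : ∃ f, f = cr S.u p := ⟨_, rfl⟩
  obtain ⟨a, ha⟩ : ∃ a, a = cr p l := ⟨_, rfl⟩
  have he0 : 0 < e := by rw [hee]; exact ad.h2
  rw [← hA, ← hee, ← ha] at area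
  rw [← hA] at hA0 hAb
  rw [← hA, ← hee] at he
  have har : A * a = b * e := by linear_combination area
  have hvN : a + A + a' = N := by rw [ha, hA, ← E3]; exact hv
  -- no prime divides `a`, `A`, `a'`
  have np : ∀ r : ℕ, r.Prime → (r : ℤ) ∣ a → (r : ℤ) ∣ A → ¬ (r : ℤ) ∣ a' := by
    intro r hr h1 h2
    exact not_dvd_of_prime hN (by rw [ha]; linarith : (0 : ℤ) < a + A) ha0' hvN hr
      (dvd_add h1 h2)
  obtain ⟨κ, hκ⟩ := h.exists_kappa ad hfull
  rw [← hA, ← hee, ← ha] at hκ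
  -- the sets of primes
  set Pr : Finset ℕ := (A + e).natAbs.primeFactors.filter (fun r : ℕ => (r : ℤ) ∣ a') with hPr
  set Pl : Finset ℕ := e.natAbs.primeFactors.filter
    (fun r : ℕ => ¬ (r : ℤ) ∣ A ∧ (r : ℤ) ∣ a') with hPl
  have hAe0 : (A + e).natAbs ≠ 0 := by
    have : 0 < A + e := by linarith
    omega
  have he0' : e.natAbs ≠ 0 := by omega
  have mPr : ∀ r : ℕ, r ∈ Pr ↔ r.Prime ∧ (r : ℤ) ∣ A + e ∧ (r : ℤ) ∣ a' := by
    intro r
    rw [hPr, Finset.mem_filter, Nat.mem_primeFactors, ← Int.natCast_dvd]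
    tauto
  have mPl : ∀ r : ℕ, r ∈ Pl ↔ r.Prime ∧ (r : ℤ) ∣ e ∧ ¬ (r : ℤ) ∣ A ∧ (r : ℤ) ∣ a' := by
    intro r
    rw [hPl, Finset.mem_filter, Nat.mem_primeFactors, ← Int.natCast_dvd]
    tauto
  have hprr : ∀ r ∈ Pr, r.Prime := fun r hr => ((mPr r).1 hr).1
  have hprl : ∀ r ∈ Pl, r.Prime := fun r hr => ((mPl r).1 hr).1
  have hdis : Disjoint Pr Pl := by
    rw [Finset.disjoint_left]
    intro r h1 h2
    have h3 := ((mPr r).1 h1).2.1
    obtain ⟨_, h4, h5, _⟩ := (mPl r).1 h2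
    apply h5
    have := dvd_sub h3 h4
    rwa [add_sub_cancel_right] at this
  -- good exits
  have good : ∀ ρ t : ℤ, |2 * f + 2 * ρ * e - (1 + 2 * t) * (a + b - A - e)| < e - A + a - b →
      (∀ r ∈ Pr, ¬ (r : ℤ) ∣ ρ - κ r) → (∀ r ∈ Pl, ¬ (r : ℤ) ∣ t - κ r) →
      LEx (cr S.u S.v) (cr p S.v) (cr S.u l) (cr S.u p) (cr p l) (1 + 2 * t)
        (ρ + (1 + 2 * t)) ∧ ∃ B0 : ℤ,
        IsC S.L' (S.u + (1 + 2 * t) • S.v + (ρ + (1 + 2 * t)) • l + p) B0 ∧
        GoodB (cr S.u S.v) b c (cr S.u l) (cr p l) a' B0 := by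
    intro ρ t h1 h2 h3
    have hx : LEx (cr S.u S.v) (cr p S.v) (cr S.u l) (cr S.u p) (cr p l) (1 + 2 * t)
        (ρ + (1 + 2 * t)) := by
      rw [E1, ← hA, ← hee, ← hf, ← ha]
      exact lex_of_abs hA0 hAb.le (by linarith) har h1
    obtain ⟨T, k1, k2, k3, k4, k5, k6⟩ := h.exitT ad hx
    obtain ⟨l2, p2, l2', p2', ad2⟩ := exists_Ad k1.ok'
    have hC := ad2.isC'
    rw [k2] at hC
    rw [k5] at hC
    refine ⟨hx, _, hC, ?_⟩
    rw [← hA, ← hee, ← ha]
    refine hκ ρ t (fun r hr h4 h5 => h2 r ((mPr r).2 ⟨hr, h4, h5⟩))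
      (fun r hr h4 h5 h6 => h3 r ((mPl r).2 ⟨hr, h4, h5, h6⟩)) _ hC
  have num : ∀ ρ t : ℤ, |2 * f + 2 * ρ * e - (1 + 2 * t) * (a + b - A - e)| < e - A + a - b →
      (∀ r ∈ Pr, ¬ (r : ℤ) ∣ ρ - κ r) → (∀ r ∈ Pl, ¬ (r : ℤ) ∣ t - κ r) →
      (1 + 2 * t) * A + (ρ + (1 + 2 * t)) * e + f ≠ 0 →
      b ∣ f + (ρ + (1 + 2 * t)) * A ∧ ∃ m : ℤ, 0 < m ∧ e = A * (1 + b * m) := by
    intro ρ t h1 h2 h3 h4
    obtain ⟨hx, B0, hB0, hg⟩ := good ρ t h1 h2 h3
    have := h.good_num hN ad hv hb3 hAc hx (by rw [← hA, ← hee, ← hf]; exact h4) hB0 hg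
    rwa [← hA, ← hee, ← hf] at this
  -- the first exit
  obtain ⟨ρ0, t0, g1, g2, g3, g4⟩ := exists_rl (f := f) hA0 hAb he har Pr Pl hprr hprl hdis κ
  obtain ⟨-, m, hm, hem⟩ := num ρ0 t0 g1 g2 g3 g4
  have ham : a = b * (1 + b * m) := by
    have : A * (a - b * (1 + b * m)) = 0 := by linear_combination har + b * hem
    rcases mul_eq_zero.1 this with h9 | h9
    · exact absurd h9 hA0.ne'
    · linarith
  have hbm : 0 < b * m := mul_pos hb0 hm
  -- gcd
  have Dpos : 0 < (b - A) * (2 + b * m) := mul_pos (by linarith) (by linarith)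
  obtain ⟨g, D1, e1, hg, hco, hD1, he1⟩ := Int.exists_gcd_one' (m := (b - A) * (2 + b * m))
    (n := e) (Int.gcd_pos_of_ne_zero_left _ Dpos.ne')
  have hg' : (0 : ℤ) < g := by exact_mod_cast hg
  have hco' := (Int.isCoprime_iff_gcd_eq_one (m := D1) (n := e1)).2 hco
  have D1pos : 0 < D1 := by rw [hD1] at Dpos; exact (mul_pos_iff_of_pos_right hg').1 Dpos
  have e1pos : 0 < e1 := by rw [he1] at he0; exact (mul_pos_iff_of_pos_right hg').1 he0
  have hDD : a + b - A - e = (b - A) * (2 + b * m) := by rw [ham, hem]; ring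
  have hMM : e - A + a - b = (b + A) * (b * m) := by rw [ham, hem]; ring
  set T : Finset ℕ := Pr.filter (fun r : ℕ => (r : ℤ) ∣ D1) ∪ Pl.filter (fun r : ℕ => (r : ℤ) ∣ e1)
    with hT
  have hTp : ∀ r ∈ T, r.Prime := by
    intro r hr
    rcases Finset.mem_union.1 hr with h9 | h9
    · exact hprr r (Finset.mem_filter.1 h9).1
    · exact hprl r (Finset.mem_filter.1 h9).1
  have hTa : ∀ r ∈ T, (r : ℤ) ∣ a' := by
    intro r hr
    rcases Finset.mem_union.1 hr with h9 | h9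
    · exact ((mPr r).1 (Finset.mem_filter.1 h9).1).2.2
    · exact ((mPl r).1 (Finset.mem_filter.1 h9).1).2.2.2
  have hslope : e * D1 + (2 * (A + e)) * e1 ≠ 0 := by
    have : 0 < e * D1 + (2 * (A + e)) * e1 := by
      have := mul_pos he0 D1pos
      have := mul_pos (by linarith : 0 < 2 * (A + e)) e1pos
      linarith
    exact this.ne'
  have hΦ : ∀ ρ t n : ℤ, ρ * e1 - t * D1 = n →
      2 * f + 2 * ρ * e - (1 + 2 * t) * (a + b - A - e) =
        2 * f - (b - A) * (2 + b * m) + 2 * g * n := by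
    intro ρ t n hn
    rw [hDD, ← hn]
    linear_combination (2 * ρ) * he1 - (2 * t) * hD1
  set κT : ℕ → ℤ := fun r => if r ∈ Pr then κ r * e1 else -(κ r * D1) with hκT
  have eκ1 : ∀ r ∈ Pr, κT r = κ r * e1 := fun r hr => if_pos hr
  have eκ2 : ∀ r ∈ Pl, κT r = -(κ r * D1) := fun r hr =>
    if_neg (fun h9 => (Finset.disjoint_left.1 hdis) h9 hr)
  have cl1 : ∀ n : ℤ, (∀ r ∈ T, ¬ (r : ℤ) ∣ n - κT r) →
      (∀ r ∈ Pr, (r : ℤ) ∣ D1 → ¬ (r : ℤ) ∣ n - κ r * e1) := by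
    intro n hn r hr hrd
    have := hn r (Finset.mem_union_left _ (Finset.mem_filter.2 ⟨hr, hrd⟩))
    rwa [eκ1 r hr] at this
  have cl2 : ∀ n : ℤ, (∀ r ∈ T, ¬ (r : ℤ) ∣ n - κT r) →
      (∀ r ∈ Pl, (r : ℤ) ∣ e1 → ¬ (r : ℤ) ∣ n + κ r * D1) := by
    intro n hn r hr hrd
    have := hn r (Finset.mem_union_right _ (Finset.mem_filter.2 ⟨hr, hrd⟩))
    rwa [eκ2 r hr, sub_neg_eq_add] at this
  by_cases hcase : b = 2 * A ∧ ¬ (2 : ℤ) ∣ A
  · -- `b = 2 A`, `A` odd
    obtain ⟨hb2, hAodd⟩ := hcase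
    have hA1 : A.natAbs ≠ 1 := by omega
    obtain ⟨r, hr, hrA⟩ := Nat.exists_prime_and_dvd hA1
    have hrA : (r : ℤ) ∣ A := Int.natCast_dvd.2 hrA
    have hr2 : r ≠ 2 := by
      rintro rfl
      exact hAodd (by exact_mod_cast hrA)
    have hrb : (r : ℤ) ∣ b := by rw [hb2]; exact hrA.mul_left _
    have hra : (r : ℤ) ∣ a := by rw [ham]; exact hrb.mul_right _
    have hra' : ¬ (r : ℤ) ∣ a' := np r hr hra hrA
    have hri := Nat.prime_iff_prime_int.1 hr
    have hrm : ¬ (r : ℤ) ∣ 1 + b * m := by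
      intro h9
      have := dvd_sub h9 (hrb.mul_right m)
      rw [add_sub_cancel_right] at this
      exact hri.not_isUnit (isUnit_of_dvd_one this)
    have hre1 : ¬ (r : ℤ) ∣ e1 := by
      intro h9
      have hAg : A ∣ g := by
        have h1 : A ∣ e1 * g := by rw [← he1, hem]; exact dvd_mul_right _ _
        have h2 : A ∣ D1 * g := by
          rw [← hD1, hb2]
          exact (Dvd.intro _ (by ring : A * (2 + 2 * A * m) = (2 * A - A) * (2 + 2 * A * m)))
        obtain ⟨α, β, hab⟩ := hco'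
        have : (g : ℤ) = α * (D1 * g) + β * (e1 * g) := by linear_combination (-(g : ℤ)) * hab
        rw [this]
        exact dvd_add (h2.mul_left _) (h1.mul_left _)
      obtain ⟨g', hg''⟩ := hAg
      apply hrm
      have h3 : A * (1 + b * m) = A * (e1 * g') := by
        rw [← hem, he1, hg'']; ring
      have h4 := mul_left_cancel₀ hA0.ne' h3
      rw [h4]; exact h9.mul_right _
    have hTd : ∀ r ∈ T, (r : ℤ) ∣ D1 * e1 := by
      intro r hr
      rcases Finset.mem_union.1 hr with h9 | h9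
      · exact (Finset.mem_filter.1 h9).2.mul_right _
      · exact (Finset.mem_filter.1 h9).2.mul_left _
    have hM := main_ineq hA0 hAb he har hg' (D1 := D1) (e1 := e1)
      (by rw [hDD, hD1]; ring) (by rw [he1]; ring) T hTp hTd
    obtain ⟨n, hn1, hn2⟩ := exists_window (Φ0 := 2 * f - (b - A) * (2 + b * m)) hg' T hTp κT hM
    obtain ⟨ρ, t, m1, m2, m3, m4, m5⟩ := crt_pair' (n := n) hco' Pr Pl hprr hprl hdis κ
      (cl1 n hn2) (cl2 n hn2) (X := e) (Y := 2 * (A + e)) (Z := A + e + f) hslope hr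
      (fun h9 => hra' ((mPr r).1 h9).2.2) (fun h9 => hra' ((mPl r).1 h9).2.2.2) hre1
      (((r : ℤ) - 1) / 2)
    obtain ⟨hx, B0, hB0, hgB⟩ := good ρ t (by rw [hΦ ρ t n m1]; exact hn1) m2 m3
    obtain ⟨T1, l₁, p₁, l₁', p₁', k1, hT1, adT, kU, kL, n1, n2, n3, n4, hBC, hWT, hd⟩ :=
      h.good_concl hN ad hv hb3 hAc hx (by
        rw [← hA, ← hee, ← hf]
        intro h9
        apply m5
        linear_combination h9) hB0 hgB
    have F1 : cr p₁ T1.v = b := adT.isC.unique hT1.hb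
    have hxT : LEx (cr T1.u T1.v) (cr p₁ T1.v) (cr T1.u l₁) (cr T1.u p₁) (cr p₁ l₁) (1 + 2 * t)
        (ρ + (1 + 2 * t)) := by
      rw [n1, n2, n3, n4, F1, ← E1]; exact hx
    set w1 := T1.u + (1 + 2 * t) • T1.v + (ρ + (1 + 2 * t)) • l₁ + p₁ with hw1
    have hA1' : cr w1 T1.v = A + b := by
      rw [hw1]
      simp only [cr_add_left, cr_smul_left, cr_self]
      rw [adT.h1, n1, F1, ← hA]; ring
    have hdz := hT1.u1_dz adT hxT hBC hd hr (by rw [hA1']; exact dvd_add hrA hrb) hra'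
    -- `r ∣ 1 + 2 t`
    have hrt : (r : ℤ) ∣ 1 + 2 * t := by
      have h9 : (r : ℤ) % 2 = 1 := by
        rcases hr.eq_two_or_odd with h8 | h8
        · exact absurd h8 hr2
        · omega
      obtain ⟨x, hx9⟩ := m4
      refine ⟨2 * x + 1, ?_⟩
      have : 2 * (((r : ℤ) - 1) / 2) = (r : ℤ) - 1 := by omega
      linear_combination 2 * hx9 + this
    -- `r` divides `u`
    have hdu : Dz r T1.u := by
      have q1 := hd _ (mem_lat.2 ⟨1, 0, by module⟩ : l₁ - T1.v ∈ _)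
      have q2 := hd _ (mem_lat.2 ⟨0, 1, by module⟩ :
        p₁ + (ρ + (1 + 2 * t)) • T1.v ∈ _)
      have q3 : T1.u = w1 - (ρ + (1 + 2 * t)) • (l₁ - T1.v) -
          (p₁ + (ρ + (1 + 2 * t)) • T1.v) - (1 + 2 * t) • T1.v := by
        rw [hw1]; module
      rw [q3]
      exact (((hdz.sub ((Dz.trans hrb q1).smul _))).sub (Dz.trans hrb q2)).sub
        (Dz.of_dvd hrt _)
    have F2 : cr T1.u p₁' = c := adT.isC'.unique hT1.hc
    have hrc : (r : ℤ) ∣ c := by rw [← F2]; exact hdu.cr_left _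
    -- rigidity
    obtain ⟨k, b0, hk, hb0'⟩ := exists_pow_mul hr hb0.ne'
    have rig := hT1.hrigAt_mulF hT1.ok.seq hT1.ha' hT1.con hT1.hb hT1.hc hr (Or.inl hr2) (k := k)
      (by rw [hk]; exact dvd_mul_right _ _) (w := l₁) (by
        rw [adT.hL]; exact mem_lat.2 ⟨1, 0, by module⟩)
    have hca : ¬ (r : ℤ) ∣ c + a' := by
      intro h9
      apply hra'
      have := dvd_sub h9 hrc
      simpa using this
    have h10 : (r : ℤ) ^ (k + 1) ∣ (c + a') * cr T1.u l₁ := by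
      refine Dvd.dvd.trans ?_ rig
      rw [pow_succ]; exact mul_dvd_mul_left _ hrc
    have h11 := pow_dvd_of_mul hr h10 hca
    rw [n2, ← hee, hem, mul_comm A] at h11
    have h12 := pow_dvd_of_mul hr h11 hrm
    have h13 : (r : ℤ) ^ k * r ∣ (r : ℤ) ^ k * b0 := by
      rw [← hk, hb2, ← pow_succ]; exact h12.mul_left _
    exact hb0' ((mul_dvd_mul_iff_left (pow_ne_zero _ hri.ne_zero)).1 h13)
  · -- the second exit
    obtain ⟨n, hn1, hn2, hn3⟩ := F3c.f3count (f := f) hA0 hAb hb3 hm hcase hg' (D1 := D1)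
      (e1 := e1) (by rw [← hem, he1]; ring) (by rw [hD1]; ring) hco' T κT (fun r hr => by
        refine ⟨hTp r hr, ?_⟩
        rcases Finset.mem_union.1 hr with h9 | h9
        · left
          obtain ⟨h7, h8⟩ := Finset.mem_filter.1 h9
          refine ⟨h8, ?_⟩
          obtain ⟨hrp, h6, h5⟩ := (mPr r).1 h7
          have hri := Nat.prime_iff_prime_int.1 hrp
          have e2 : A + e = A * (2 + b * m) := by rw [hem]; ring
          rw [e2] at h6
          rcases hri.dvd_or_dvd h6 with h4 | h4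
          swap
          · exact h4
          by_contra hn
          have h3 : (r : ℤ) ∣ (b - A) * (2 + b * m) := by rw [hD1]; exact h8.mul_right _
          rcases hri.dvd_or_dvd h3 with h2 | h2
          · have hrb : (r : ℤ) ∣ b := by
              have := dvd_add h2 h4
              rwa [sub_add_cancel] at this
            exact np r hrp (by rw [ham]; exact hrb.mul_right _) h4 h5
          · exact hn h2
        · right
          obtain ⟨h7, h8⟩ := Finset.mem_filter.1 h9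
          obtain ⟨hrp, h6, h5, h4⟩ := (mPl r).1 h7
          have hri := Nat.prime_iff_prime_int.1 hrp
          refine ⟨h8, ?_, h5⟩
          rw [hem] at h6
          exact (hri.dvd_or_dvd h6).resolve_left h5)
      (fun h2 h9 => by
        have h8 := hTa 2 h2
        exact np 2 Nat.prime_two (by
          rw [ham]
          exact (by exact_mod_cast h9.2 : ((2 : ℕ) : ℤ) ∣ b).mul_right _)
          (by exact_mod_cast h9.1) h8)
    obtain ⟨ρ, t, m1, m2, m3, m4⟩ := crt_pair (n := n) hco' Pr Pl hprr hprl hdis κ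
      (cl1 n hn2) (cl2 n hn2) (X := e) (Y := 2 * (A + e)) (Z := A + e + f) hslope
    obtain ⟨h9, -⟩ := num ρ t (by rw [hΦ ρ t n m1, hMM]; exact hn1) m2 m3 (by
      intro h9
      apply m4
      linear_combination h9)
    apply hn3
    obtain ⟨x, hx9⟩ := h9
    have e2 := hΦ ρ t n m1
    rw [← e2, hDD, hem]
    refine ⟨x + ρ * A * m - (1 + 2 * t) - (1 + t) * m * (b - A), ?_⟩
    linear_combination 2 * hx9

end Pool.Agent.H4G
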