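import Pool.Agent.H4G.Arith.StepC2

/-!
# Step C, the states with `A = 2`, gap `2`; conclusion: a gap `≤ 2` implies a gap `1` (helper81)
-/

set_option autoImplicit false

namespace Pool.Agent.H4G

/-- `N` prime: no class of least gap `2` has an extremal state with `A = 2` -/
theorem Ext.not_two {S : PSt} {c : ℤ} (h : Ext S 2 c) (hA : cr S.u S.v = 2) {N : ℕ}
    (hN : N.Prime) (hN2 : 5 < N) {c0 : C6} (hc0 : IsRep S c0) (hvol : vol c0 = N) : False := by
  have hok := h.ok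
  obtain ⟨l, p, l', p', ad⟩ := exists_Ad h.ok
  have hv := ad.vol hc0
  rw [hvol, hA] at hv
  obtain ⟨E1, E2, -, hle, r1, r2, r3, r4⟩ := h.rig ad
  have hn := ad.nums
  rw [hA, E1, E2] at hn
  have n1 := hn.ra
  have n2 := hn.ra'
  have n3 := hn.r1
  have n4 := hn.r2
  have n5 := hn.r3
  have p1 := hn.e0
  have p2 := hn.e0'
  have p3 := hn.a0
  have p4 := hn.a0'
  have hc0' := hn.b0'
  obtain ⟨t, ht⟩ := hN.odd_of_ne_two (by omega)
  have htz : (N : ℤ) = 2 * t + 1 := by exact_mod_cast ht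
  have ha : cr p l = cr S.u l := by linarith
  -- `c` is odd
  have hcodd : ¬ (2 : ℤ) ∣ c := by
    rintro ⟨d, hd⟩
    have s1 : (2 : ℤ) ∣ cr l' S.v + cr l' l := (Dvd.intro d hd.symm).trans r1
    have s3 : cr l' p' = cr l' S.v * d := by
      rw [hd] at n2; linarith
    rcases Int.even_or_odd (cr S.u l) with h0 | h0
    · have s2 : (2 : ℤ) ∣ cr l' S.v := by
        have := h0.two_dvd
        omega
      have s4 : (2 : ℤ) ∣ cr l' p' := by rw [s3]; exact s2.mul_right _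
      have := h0.two_dvd
      omega
    · have s2 : Odd (cr l' S.v) := by
        obtain ⟨m, hm⟩ := h0
        rw [← Int.not_even_iff_odd]
        intro h5
        have := h5.two_dvd
        omega
      have s4 := h0.mul s2
      rw [← n3, ← Int.not_even_iff_odd] at s4
      exact s4 (even_two.mul_left _)
  obtain ⟨q, hq, hqc⟩ := Int.exists_prime_and_dvd (n := c) (by
    intro h0
    have h1 := hle
    have : c = 1 := by
      have h2 := Int.natAbs_of_nonneg hc0'.le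
      omega
    omega)
  obtain ⟨q', hq'⟩ : ∃ q' : ℕ, q'.Prime ∧ (q' : ℤ) ∣ c :=
    ⟨q.natAbs, Int.prime_iff_natAbs_prime.1 hq, Int.natAbs_dvd.2 hqc⟩
  obtain ⟨hq1, hqc⟩ := hq'
  have hqi := Nat.prime_iff_prime_int.1 hq1
  have hq2 : ¬ (q' : ℤ) ∣ 2 := by
    intro h4
    have h5 : q' ∣ 2 := by exact_mod_cast h4
    have h6 := (Nat.prime_dvd_prime_iff_eq hq1 Nat.prime_two).1 h5
    subst h6
    exact hcodd (by exact_mod_cast hqc)
  have hqa' : (q' : ℤ) ∣ cr l' p' := by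
    have h4 : (q' : ℤ) ∣ cr l' p' * 2 := by rw [n2]; exact hqc.mul_left _
    exact (hqi.dvd_or_dvd h4).resolve_right hq2
  have hqa : ¬ (q' : ℤ) ∣ 2 + cr p l := by
    intro h4
    have h5 : (q' : ℤ) ∣ (N : ℤ) := by
      rw [hv]
      have : cr p l + 2 + cr l' p' = 2 + cr p l + cr l' p' := by ring
      rw [this]; exact dvd_add h4 hqa'
    have h6 : q' ∣ N := by exact_mod_cast h5
    have h7 := (Nat.prime_dvd_prime_iff_eq hq1 hN).1 h6
    have h8 := Int.le_of_dvd p4 hqa'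
    omega
  -- the H-move
  obtain ⟨βl, hβl⟩ := r3
  obtain ⟨βp, hβp⟩ := r4
  have hk1 : 0 < cr l' l := by
    by_contra hcon
    push Not at hcon
    have : 0 < cr S.u l * cr l' S.v := mul_pos p1 p2
    omega
  have hβ0 : βl ≠ 0 := by omega
  obtain ⟨r, y, hy, hqy⟩ := exists_pow_mul hq1 hβ0
  obtain ⟨σ, hσ, hσ2⟩ : ∃ σ : ℤ, (σ = 1 ∨ σ = -1) ∧ ¬ (q' : ℤ) ∣ 1 - σ * y * βp := by
    by_contra hcon
    push Not at hcon
    have h4 := hcon 1 (Or.inl rfl)
    have h5 := hcon (-1) (Or.inr rfl)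
    have h6 := dvd_add h4 h5
    have e1 : 1 - 1 * y * βp + (1 - -1 * y * βp) = 2 := by ring
    rw [e1] at h6
    exact hq2 h6
  have hσq : ¬ (q' : ℤ) ∣ σ := by
    intro h4
    apply prime_not_dvd_one hq1
    rcases hσ with h5 | h5
    · rwa [h5] at h4
    · rw [h5] at h4; exact (dvd_neg).1 h4
  obtain ⟨i, hi⟩ : ∃ i : ℤ, i = σ * y := ⟨_, rfl⟩
  have hqi2 : ¬ (q' : ℤ) ∣ i := by
    intro h4
    rw [hi] at h4
    rcases hqi.dvd_or_dvd h4 with h5 | h5
    · exact hσq h5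
    · exact hqy h5
  have hone : Int.gcd (i * βl) (1 - i * βp) = 1 := by
    by_contra hne
    obtain ⟨s, hs, hsd⟩ := Nat.exists_prime_and_dvd hne
    have hsi := Nat.prime_iff_prime_int.1 hs
    have hd : (s : ℤ) ∣ (Int.gcd (i * βl) (1 - i * βp) : ℤ) := by exact_mod_cast hsd
    have hd1 := hd.trans (Int.gcd_dvd_left _ _)
    have hd2 := hd.trans (Int.gcd_dvd_right _ _)
    have hs1 : ¬ (s : ℤ) ∣ i := by
      intro h4
      have := dvd_add hd2 (h4.mul_right βp)
      rw [sub_add_cancel] at this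
      exact prime_not_dvd_one hs this
    have hs2 := (hsi.dvd_or_dvd hd1).resolve_left hs1
    have hs4 : ¬ (s : ℤ) ∣ y := fun h4 => hs1 (by rw [hi]; exact h4.mul_left _)
    rw [hy] at hs2
    have hs5 : (s : ℤ) ∣ (q' : ℤ) := hsi.dvd_of_dvd_pow ((hsi.dvd_or_dvd hs2).resolve_right hs4)
    have hs6 : s ∣ q' := by exact_mod_cast hs5
    have hs7 := (Nat.prime_dvd_prime_iff_eq hs hq1).1 hs6
    subst hs7
    rw [hi] at hd2
    exact hσ2 hd2
  have k1 := ad.twH hok (by rw [hA, E2]; exact hle) i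
  have e4 : cr (S.v + i • (S.u + l')) l = 2 * (i * βl) := by
    rw [cr_add_left, cr_smul_left, cr_swap S.v l, ad.h1, cr_add_left, hβl]; ring
  have e5 : cr (S.v + i • (S.u + l')) p = -(2 * (1 - i * βp)) := by
    rw [cr_add_left, cr_smul_left, cr_swap S.v p, E1, cr_add_left, hβp]; ring
  have k2 : IsC S.L (S.v + i • (S.u + l')) 2 := by
    have h6 := isC_lat (x := l) (y := p) (u := S.v + i • (S.u + l')) (by
      rw [e4, e5]
      rcases eq_or_ne i 0 with hj | hj
      · right; rw [hj]; norm_num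
      · left
        exact mul_ne_zero two_ne_zero (mul_ne_zero hj hβ0))
    rw [e4, e5, Int.gcd_neg, Int.gcd_mul_left, hone, ← ad.hL] at h6
    exact h6
  obtain ⟨w, hw⟩ : ∃ w : Z2, w = S.v + i • (S.u + l') := ⟨_, rfl⟩
  rw [← hw] at k1 k2 e4 e5
  have huw : cr S.u w = 2 := by
    rw [hw]; simp only [cr_add_right, cr_smul_right, cr_self]; rw [ad.h4, hA]; ring
  have hl'w : cr l' w = cr l' S.v := by
    rw [hw]; simp only [cr_add_right, cr_smul_right, cr_self]
    rw [cr_swap l' S.u, ad.h4]; ring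
  have hup : cr S.u (p' + i • S.u) = c := by
    rw [cr_add_right, cr_smul_right, cr_self, E2]; ring
  have hpw : cr (p' + i • S.u) w = cr p' S.v + i * (2 - c - cr l' p') := by
    rw [hw]
    simp only [cr_add_left, cr_add_right, cr_smul_left, cr_smul_right, cr_self]
    rw [cr_swap p' S.u, E2, cr_swap p' l', ad.h4, hA]; ring
  have k3 : IsC (lat l' (p' + i • S.u)) S.u c := by
    rw [← hup]
    exact isC_adapted ad.h4 (by rw [hup]; exact hc0')
  have h' : Ext ⟨S.L, S.u, w, lat l' (p' + i • S.u)⟩ 2 c := by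
    refine h.of_eq k1 k2 ?_ k3
    dsimp only
    rw [huw]
  obtain ⟨l1, p1, l2', p2', ad1⟩ := exists_Ad h'.ok
  have ad2 : Ad ⟨S.L, S.u, w, lat l' (p' + i • S.u)⟩ l1 p1 l' (p' + i • S.u) := by
    refine ⟨ad1.hL, rfl, ad1.h1, ad1.h2, ad1.h3, ad.h4, ?_, ?_, ad1.hA⟩
    · dsimp only; rw [hl'w]; exact ad.h5
    · dsimp only; rw [hup]; exact hc0'
  obtain ⟨F1, F2, -, -, s1, s2, s3, s4⟩ := h'.rig ad2
  dsimp only at F1 F2 s1 s2 s3 s4
  have hm := ad2.nums
  dsimp only at hm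
  rw [huw, F1] at hm
  have m1 := hm.ra
  have m4 := hm.r2
  have ha1 : cr p1 l1 = cr p l := by
    have := ad2.isArea.unique ad.isArea
    exact this
  have key1 : c ∣ (2 + cr p l) * cr p' S.v := by
    have : (2 + cr p l) * cr p' S.v = 2 * (cr p' S.v + cr p' l) := by
      rw [ha]; linear_combination -n4
    rw [this]; exact r2.mul_left _
  have key2 : c ∣ (2 + cr p l) * cr (p' + i • S.u) w := by
    have : (2 + cr p l) * cr (p' + i • S.u) w =
        2 * (cr (p' + i • S.u) w + cr (p' + i • S.u) l1) := by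
      have e9 : cr S.u l1 = cr p l := by linarith
      rw [e9] at m4
      linear_combination -m4
    rw [this]; exact s2.mul_left _
  rw [hpw] at key2
  have key3 : (q' : ℤ) ∣ (2 + cr p l) * (i * (2 - c - cr l' p')) := by
    have := hqc.trans (dvd_sub key2 key1)
    have e9 : (2 + cr p l) * (cr p' S.v + i * (2 - c - cr l' p')) - (2 + cr p l) * cr p' S.v =
        (2 + cr p l) * (i * (2 - c - cr l' p')) := by ring
    rwa [e9] at this
  have key4 := (hqi.dvd_or_dvd ((hqi.dvd_or_dvd key3).resolve_left hqa)).resolve_left hqi2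
  apply hq2
  have := dvd_add (dvd_add key4 hqc) hqa'
  have e9 : 2 - c - cr l' p' + c + cr l' p' = 2 := by ring
  rwa [e9] at this

/-- `N` prime, `N > 5`: a class with a gap `≤ 2` has a gap `1` -/
theorem gap_one_of_two {S T : PSt} {N : ℕ} (hN : N.Prime) (hN5 : 5 < N) {c0 : C6}
    (hc0 : IsRep S c0) (hvol : vol c0 = N) (hST : SEq S T) {β : ℤ} (hβ : β ≤ 2)
    (hT : IsC T.L T.v β) : ∃ T', SEq S T' ∧ IsC T'.L T'.v 1 := by
  by_contra hcon
  push Not at hcon
  obtain ⟨S', b, b0, k1, hE⟩ := exists_ext (show S.Ok from ⟨c0, hc0⟩)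
  have hb1 := hE.min T β (k1.symm.trans hST) hT
  have hb2 := hE.bpos
  have hb3 : b = 2 := by
    rcases (show b = 1 ∨ b = 2 by omega) with rfl | h
    · exact absurd hE.hb (hcon S' k1)
    · exact h
  subst hb3
  have hA := hE.hA
  have hA0 := hE.ok.pos
  rcases (show cr S'.u S'.v = 1 ∨ cr S'.u S'.v = 2 by omega) with h1 | h1
  · obtain ⟨T', h2, h3⟩ := stepC hc0 (by rw [hvol]; exact_mod_cast hN5) k1 h1 hE.hb
    exact hcon T' h2 h3
  · obtain ⟨c1, c2, m1, m2, m3⟩ := k1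
    have h15 : vol c2 = N := by rw [m3.vol_eq, (hc0.ceq m1).vol_eq, hvol]
    exact hE.not_two h1 hN hN5 m2 h15

/-- the same for a gap on the right -/
theorem gap_one_of_two' {S T : PSt} {N : ℕ} (hN : N.Prime) (hN5 : 5 < N) {c0 : C6}
    (hc0 : IsRep S c0) (hvol : vol c0 = N) (hST : SEq S T) {β : ℤ} (hβ : β ≤ 2)
    (hT : IsC T.L' T.u β) : ∃ T', SEq S T' ∧ IsC T'.L T'.v 1 := by
  have m1 : SEq S ⟨T.L', T.v, -T.u, T.L⟩ :=
    hST.trans (SEq.mirror (L := T.L) (L' := T.L') (u := T.u) (v := T.v) hST.ok')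
  exact gap_one_of_two hN hN5 hc0 hvol m1 hβ hT.neg

end Pool.Agent.H4G
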