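import Pool.Agent.H4G.Arith.AsmP
import Pool.Agent.H4G.Arith.StepC3
import Pool.Agent.H4G.Arith.ExFrame
import Pool.Agent.H4G.Arith.LFin
import Pool.Agent.H4G.Arith.K1Fin
import Pool.Agent.H4G.Arith.K1L2c
import Pool.Agent.H4G.Arith.KFr

/-!
# LINE B: all primes `N > 8`, assembly (helper5)

The frame ExtB (helper19, helper40), `c = A` (helper9), `e ≥ 3 A` (helper23), `K = 1` (helper9,
helper64, helper24, helper29); the rows `K = 2` and `K = 3` are hypotheses here.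
-/

set_option autoImplicit false

namespace Pool.Agent.H4G

/-- the row of `K` -/
def KStmt (K : ℤ) : Prop := ∀ (S : PSt) (a' b c A a e f Y φ : ℤ) (l p l' p' : Z2) (N : ℕ),
  KF K S a' b c A a e f Y φ l p l' p' → S.Full → N.Prime → a + A + a' = N → 3 ≤ b → A < c →
  A < b → e < 3 * A → ∃ (T : PSt) (δ : ℤ), SEq S T ∧ IsC T.L T.v δ ∧ δ ≤ 2

/-- if `b = A` then `c ∣ K` -/
theorem KF.dvd_K {K : ℤ} {S : PSt} {a' b c A a e f Y φ : ℤ} {l p l' p' : Z2}
    (h : KF K S a' b c A a e f Y φ l p l' p') {N : ℕ} (hN : N.Prime) (hv : a + A + a' = N)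
    (hb : b = A) : c ∣ K := by
  have hA0 := h.A0
  have hae : a = e := by
    have h1 := h.aA
    rw [hb] at h1
    exact mul_right_cancel₀ hA0.ne' h1
  have hco : IsCoprime c a' := by
    refine isCoprime_of_prime fun r hr h1 h2 => ?_
    have h3 : (r : ℤ) ∣ A + a := by
      rw [hae, ← h.hc]; exact h2.mul_left _
    have h4 : (r : ℤ) ∣ (N : ℤ) := by
      rw [← hv, add_comm a A]; exact dvd_add h3 h1
    have h5 : r ∣ N := by exact_mod_cast h4
    have h6 := (Nat.prime_dvd_prime_iff_eq hr hN).1 h5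
    have h7 := Int.le_of_dvd h.a'0 h1
    have h8 := (h.lt_N hv).2.2
    rw [h6] at h7
    omega
  have h1 : c ∣ K * a' := by rw [h.hy]; exact dvd_mul_left _ _
  exact hco.dvd_of_dvd_mul_right h1

/-- a gap at most two in every class -/
theorem lineB_gap (h2 : KStmt 2) (h3 : KStmt 3) {S : PSt} (hS : S.Ok) (hF : S.Full)
    {l p l' p' : Z2} (ad : Ad S l p l' p') {N : ℕ} (hN : N.Prime)
    (hv : cr p l + cr S.u S.v + cr l' p' = N) :
    ∃ (T : PSt) (δ : ℤ), SEq S T ∧ IsC T.L T.v δ ∧ δ ≤ 2 := by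
  obtain ⟨S1, a', b, c, l1, p1, l1', p1', k1, hE, ad1, hF1, hv1⟩ := exists_frame hS hF ad hN hv
  suffices H : ∃ (T : PSt) (δ : ℤ), SEq S1 T ∧ IsC T.L T.v δ ∧ δ ≤ 2 by
    obtain ⟨T, δ, m1, m2, m3⟩ := H
    exact ⟨T, δ, k1.trans m1, m2, m3⟩
  have hA' : cr l1' p1' = a' := ad1.isArea'.unique hE.ha'
  rcases le_or_gt b 2 with hb2 | hb2
  · exact ⟨S1, b, hE.ok.seq, hE.hb, hb2⟩
  have hleA := hE.leA hE.ok.seq hE.ha' hE.con hE.hc
  rcases hleA.eq_or_lt with hcA | hcA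
  · exact hE.cA hN ad1.isArea (by rw [← hA']; exact hv1) hcA.symm
  rcases le_or_gt (3 * cr S1.u S1.v) (cr S1.u l1) with he | he
  · exact absurd (hE.left_false hN ad1 hF1 hv1 (by omega) hcA he) not_false
  obtain ⟨K, Y, φ, hK⟩ := hE.KF ad1
  have hvv : cr p1 l1 + cr S1.u S1.v + a' = N := by rw [← hA']; exact hv1
  have hK0 := hK.K0
  have hc0 := hK.c0
  have hK4 : K < 4 := by
    by_contra hge
    push Not at hge
    have h5 := mul_le_mul_of_nonneg_right hge hc0.le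
    rw [hK.hc] at h5
    linarith
  rcases hK.Ab.eq_or_lt with hb | hb
  · exfalso
    have h5 := Int.le_of_dvd hK0 (hK.dvd_K hN hvv hb.symm)
    omega
  rcases (show K = 1 ∨ K = 2 ∨ K = 3 by omega) with rfl | rfl | rfl
  · obtain ⟨y, φ1, h⟩ := hE.K1 ad1 (by have := hK.hc; linarith)
    by_cases hI : ¬ (2 : ℤ) ∣ cr S1.u S1.v ∧ (4 : ℤ) ∣ cr S1.u l1 ∧ (2 : ℤ) ∣ cr S1.u p1 ∧
        (4 : ℤ) ∣ b - cr S1.u S1.v
    · exact h.level2 hF1 hN hvv (by omega) hb he hI.1 hI.2.1 hI.2.2.1 hI.2.2.2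
    · refine h.fin_level1 hF1 hN hvv (by omega) he hb fun i1 i2 i3 i4 i5 => hI ⟨i1, i2, i3, i5⟩
  · exact h2 S1 _ _ _ _ _ _ _ _ _ _ _ _ _ N hK hF1 hN hvv (by omega) hcA hb he
  · exact h3 S1 _ _ _ _ _ _ _ _ _ _ _ _ _ N hK hF1 hN hvv (by omega) hcA hb he

/-- the reduction (R) for all primes -/
theorem redP_of_rows (h2 : KStmt 2) (h3 : KStmt 3) {N : ℕ} (hN : N.Prime) (h5 : 5 < N) :
    RedP N := by
  intro S a a' b b' hF ha hv hE
  left
  obtain ⟨l, p, l', p', ad⟩ := exists_Ad hE.ok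
  have e1 : cr p l = a := ad.isArea.unique ha
  have e2 : cr l' p' = a' := ad.isArea'.unique hE.ha'
  obtain ⟨T, δ, k1, k2, k3⟩ := lineB_gap h2 h3 hE.ok hF ad hN (by rw [e1, e2]; exact hv)
  obtain ⟨c0, hc0⟩ := hE.ok
  refine gap_one_of_two hN h5 hc0 ?_ k1 k3 k2
  rw [ad.vol hc0, e1, e2, hv]

/-- Q1 (ii) for all primes `N > 8`, from the rows `K = 2` and `K = 3` -/
theorem orbits_prime_of_rows (h2 : KStmt 2) (h3 : KStmt 3) :
    ∀ N : ℕ, N.Prime → 8 < N →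
      ∃ o : Fin 4 → Ori N, (∀ k, (o k).PH ∧ ∀ v, (o k).HLK v ↔ v = valO k) ∧
        ∀ p : Ori N, p.PH → ∃! k, p.SameOrbit (o k) := by
  intro N hN h8
  exact orbits_prime_of hN h8 (redP_of_rows h2 h3 hN (by omega))

end Pool.Agent.H4G
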