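import Pool.Agent.H4G.Arith.K2S40
import Pool.Agent.H4G.Arith.K2Left40
import Pool.Agent.H4G.Arith.K2Data2
import Pool.Agent.H4G.Arith.K2N2P
import Pool.Agent.H4G.Arith.K2N2Q
import Pool.Agent.H4G.Arith.K2N2S
import Pool.Agent.H4G.Arith.K2Good5
import Pool.Agent.H4G.Arith.LineB

/-!
# LINE B, `K = 2`: all types (helper40)
-/

set_option autoImplicit false

namespace Pool.Agent.H4G

variable {S : PSt} {a' b c A a e f Y φ : ℤ} {l p l' p' : Z2} {g1 m1 n0 A0 b0 hh : ℕ}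

/-- P2 -/
theorem KF.p2_all (h : KF 2 S a' b c A a e f Y φ l p l' p') (hF : S.Full) {N : ℕ}
    (hN : N.Prime) (hv : a + A + a' = N) (hb3 : 3 ≤ b) (hAc : A < c) (hAb : A < b)
    (he3 : e < 3 * A) (hA2 : ¬ (2 : ℤ) ∣ A) (ha2 : (2 : ℤ) ∣ a) (hY4 : (4 : ℤ) ∣ Y) :
    ∃ (T : PSt) (d : ℤ), SEq S T ∧ IsC T.L T.v d ∧ d ≤ 2 := by
  obtain ⟨g1, m1, n0, A0, b0, hh, D, hT⟩ := h.data2 hN hv he3 hAc hAb
  rcases hT with hT | hT | hT | hT | hT
  · exact absurd ha2 hT.1
  · exact absurd hY4 hT.2.2.1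
  · obtain ⟨-, -, -, hg2, hm2, hz4, hA02, hh1, hb2, -, hn2, hn4⟩ := hT
    by_cases hex : g1 = 5 ∧ m1 = 7 ∧ n0 = 6 ∧ b0 = 2
    · exfalso
      obtain ⟨rfl, rfl, rfl, rfl⟩ := hex
      have h1 : A0 = 1 := by
        have := D.Ab0
        have := D.A00
        omega
      subst h1
      subst hh1
      exact h.p2_exc hF hN hv D
    · have hY5 : 5 ≤ g1 * n0 := by
        have h1 := D.hY
        have h2 := h.Y0
        have h3 : (5 : ℤ) ≤ ((g1 * n0 : ℕ) : ℤ) := by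
          push_cast
          omega
        exact_mod_cast h3
      have H : K2.Num g1 m1 n0 A0 b0 :=
        ⟨D.g0, D.gm, D.m3, D.co, D.A00, D.Ab0, D.cAb, D.bn, hY5, D.cAm⟩
      obtain ⟨T, hTB, -, hLT⟩ := h.left40 hF hN hv hb3 hAc hAb he3 D (fun _ => ⟨hh1, hm2⟩)
      exact h.p2_right hF hN hv he3 D hA2 ha2 hY4 hz4 hn2
        (fun es ez e4 hes hez he4 fs _ _ fx =>
          (K2.n2p H hg2 hm2 hz4 hA02 hb2 hn2 hn4 hex hTB hes hez he4 fs fx).resolve_left hLT)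
  · exact absurd hT.1 hA2
  · exact absurd hT.1 hA2

/-- Q4L and S2 -/
theorem KF.ql_all (h : KF 2 S a' b c A a e f Y φ l p l' p') (hF : S.Full) {N : ℕ}
    (hN : N.Prime) (hv : a + A + a' = N) (hb3 : 3 ≤ b) (hAc : A < c) (hAb : A < b)
    (he3 : e < 3 * A) (hA2 : (2 : ℤ) ∣ A) (ha2 : (2 : ℤ) ∣ a) (hc2 : ¬ (2 : ℤ) ∣ c)
    (hL : ∀ w ∈ S.L, Dz 2 w) :
    ∃ (T : PSt) (d : ℤ), SEq S T ∧ IsC T.L T.v d ∧ d ≤ 2 := by
  obtain ⟨g1, m1, n0, A0, b0, hh, D, hT⟩ := h.data2 hN hv he3 hAc hAb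
  obtain ⟨-, ha', -⟩ := h.typeQ0 hN hv hA2 ha2
  obtain ⟨-, -, -, hb4, -, -⟩ := h.typeL hN hv hA2 ha2 hc2 hL
  have hn0 : 0 < n0 := by
    rcases Nat.eq_zero_or_pos n0 with h0 | h0
    · exfalso
      have h1 := D.hY
      have h2 := h.Y0
      rw [h0] at h1
      push_cast at h1
      omega
    · exact h0
  obtain ⟨T, hTB, hT2, hLT⟩ := h.left40 hF hN hv hb3 hAc hAb he3 D (fun h1 => absurd h1 ha')
  have hT2' : 2 ∉ T := fun h1 => ha' (hT2 h1)
  rcases hT with hT | hT | hT | hT | hT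
  · exact absurd ha2 hT.1
  · exact absurd hA2 hT.1
  · exact absurd hA2 hT.1
  · obtain ⟨-, -, -, hT⟩ := hT
    rcases hT with ⟨hg2, hm2, hn4, hbn, hA4, -⟩ | ⟨hg2, hm2, hA02, hh2, hbn, hA4, -⟩
    · -- Q4L
      have hg2' : Nat.Coprime 4 g1 := by
        have h1 : Nat.Coprime 2 g1 := (Nat.Prime.coprime_iff_not_dvd Nat.prime_two).2 hg2
        have := Nat.Coprime.pow_left 2 h1
        norm_num at this
        exact this
      have h4b : 4 ∣ hh * b0 := by
        have h1 : 4 ∣ g1 * (hh * b0) := by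
          have h2 := D.hb
          rw [h2] at hb4
          exact_mod_cast hb4
        exact hg2'.dvd_of_dvd_mul_left h1
      have h4A : ¬ 4 ∣ hh * A0 := by
        intro h1
        apply hA4
        rw [D.hA]
        exact_mod_cast h1.mul_left g1
      have hb02 : 2 ∣ b0 := by
        by_contra h1
        have h2 : Nat.Coprime 4 b0 := by
          have h3 : Nat.Coprime 2 b0 := (Nat.Prime.coprime_iff_not_dvd Nat.prime_two).2 h1
          have := Nat.Coprime.pow_left 2 h3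
          norm_num at this
          exact this
        exact h4A ((h2.dvd_of_dvd_mul_right h4b).mul_right _)
      have hA02 : ¬ 2 ∣ A0 := by
        intro h1
        have h2 := Nat.dvd_gcd h1 hb02
        rw [D.cAb] at h2
        exact absurd h2 (by norm_num)
      exact h.q4_right hF hN hv he3 D hA2 ha2 hc2 hL hA4 hg2 hm2 hn4
        (fun ez hez hfz => ((K2.n2q D.g0 D.gm D.m3 D.co D.A00 D.Ab0 D.cAb hn0 hg2 hm2 hA02 hb02
          (hbn hb02) hTB hT2' hez hfz).resolve_left hLT).2)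
    · -- S2
      have hb02 := h.b0_even D hL hm2 hh2
      have hn2 : 2 ∣ n0 := (dvd_mul_right 2 b0).trans hbn
      by_cases hnot : g1 = 2 ∧ m1 = 3 ∧ A0 = 1 ∧ ((n0 = 4 ∧ b0 = 2) ∨ (n0 = 8 ∧ b0 = 4))
      · exfalso
        obtain ⟨rfl, rfl, rfl, ⟨rfl, rfl⟩ | ⟨rfl, rfl⟩⟩ := hnot
        · subst hh2
          have hA := D.hA
          have he := D.he
          have ha := D.ha
          have hb := D.hb
          have hY := D.hY
          norm_num at hA he ha hb hY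
          have := h.three_D40 he3 (by rw [he]; norm_num) (by rw [hA]; norm_num)
            (by have : Y = 6 := by omega
                rw [this]; norm_num)
          rw [ha, hb, hA] at this
          norm_num at this
        · subst hh2
          have hA := D.hA
          have ha := D.ha
          have hc := D.hc
          have hY := D.hY
          norm_num at hA ha hc hY
          have hc' : c = 5 := by omega
          have hY' : Y = 14 := by omega
          have ha'' : 2 * a' = 14 * 5 := by rw [← hY', ← hc']; exact h.hy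
          have hN63 : (N : ℤ) = 63 := by rw [← hv, ha, hA]; omega
          have h63 : N = 63 := by exact_mod_cast hN63
          rw [h63] at hN
          norm_num at hN
      · exact h.s2_right hF hN hv he3 D hA4 ha2 hc2 hL hg2 hn2
          (fun e3 e9 ez he3' he9 hez f3 f9 fz hex => ((K2.n2s D.g0 D.gm D.m3 D.co D.A00 D.Ab0
            D.cAb hn0 hg2 hm2 hA02 hb02 hbn hTB hT2' hnot he3' he9 hez f3 f9 fz
            hex).resolve_left hLT).2)
  · exact absurd hT.2.2.1 hc2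

/-- **KStmt 2** -/
theorem kStmt_two : KStmt 2 := by
  intro S a' b c A a e f Y φ l p l' p' N h hF hN hv hb3 hAc hAb he3
  by_cases hP2 : ¬ (2 : ℤ) ∣ A ∧ (2 : ℤ) ∣ a ∧ (4 : ℤ) ∣ Y
  · exact h.p2_all hF hN hv hb3 hAc hAb he3 hP2.1 hP2.2.1 hP2.2.2
  · by_cases hQ : (2 : ℤ) ∣ A ∧ (2 : ℤ) ∣ a ∧ ¬ (2 : ℤ) ∣ c ∧ ∀ w ∈ S.L, Dz 2 w
    · exact h.ql_all hF hN hv hb3 hAc hAb he3 hQ.1 hQ.2.1 hQ.2.2.1 hQ.2.2.2
    · exact h.good2 hF hN hv hb3 hAc hAb he3 hP2 (fun h1 h2 h3 h4 => hQ ⟨h1, h2, h3, h4⟩)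

end Pool.Agent.H4G
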