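import Pool.Agent.H4G.Arith.K2Two

/-!
# `K = 2`: the types P2, Q4L, S2 at the prime 2 (helper40's page K2, section 2; typed by helper5)
-/

set_option autoImplicit false

namespace Pool.Agent.H4G

variable {S : PSt} {a' b c A a e f Y φ : ℤ} {l p l' p' : Z2}

/-! ## P2 : `A` odd, `a` even, `4 ∣ Y`: level two -/

theorem KF.typeP2 (h : KF 2 S a' b c A a e f Y φ l p l' p') {N : ℕ} (hN : N.Prime)
    (hv : a + A + a' = N) (hA2 : ¬ (2 : ℤ) ∣ A) (ha2 : (2 : ℤ) ∣ a) (hY4 : (4 : ℤ) ∣ Y) :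
    ∀ q τ κ : ℤ, ¬ (2 : ℤ) ∣ q → IsC S.L (xvK S l' p' 2 q τ) κ → ¬ (2 : ℤ) ∣ κ := by
  obtain ⟨he, -, -, -, -, hφ⟩ := h.typeP hN hv hA2 ha2
  intro q τ κ hq hκ
  refine h.kap_odd_of_e he (W := 2 * q + τ * Y + 2 * φ) rfl hκ ?_
  obtain ⟨Y1, hY1⟩ := hY4
  obtain ⟨x, hx⟩ := hφ
  have e1 : 2 * q + τ * Y + 2 * φ = 2 * q + 4 * (τ * Y1 + x) := by rw [hY1, hx]; ring
  rw [e1]
  omega

/-! ## `c` odd, `L = 0` modulo 2 -/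

/-- the common facts: `16 ∣ 2 a` resp. `8 ∣ b` -/
theorem KF.typeL_a (h : KF 2 S a' b c A a e f Y φ l p l' p') {N : ℕ} (hN : N.Prime)
    (hv : a + A + a' = N) (hA2 : (2 : ℤ) ∣ A) (ha2 : (2 : ℤ) ∣ a) (hc2 : ¬ (2 : ℤ) ∣ c)
    (hL : ∀ w ∈ S.L, Dz 2 w) (hA4 : ¬ (4 : ℤ) ∣ A) : (8 : ℤ) ∣ a := by
  obtain ⟨-, -, ha4, hb4, -, hAe⟩ := h.typeL hN hv hA2 ha2 hc2 hL
  have he4 : (4 : ℤ) ∣ e := by
    rcases hAe with k | k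
    · exact k.2
    · exact absurd k.1 hA4
  obtain ⟨A1, hA1⟩ := hA2
  have hA1o : ¬ (2 : ℤ) ∣ A1 := by omega
  obtain ⟨b1, hb1⟩ := hb4
  obtain ⟨e1, he1⟩ := he4
  have h1 : A1 * a = 8 * (e1 * b1) := by
    have := h.aA
    rw [hA1, hb1, he1] at this
    linarith
  have h2 : (2 : ℤ) ^ 3 ∣ A1 * a := ⟨e1 * b1, by rw [h1]; norm_num⟩
  have := odd_cancel hA1o h2
  norm_num at this
  exact this

/-- Q4L: `4` does not divide `A`, `f = 2 mod 4`, level two: `W = 4 mod 8` gives `κ = 4 mod 8` -/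
theorem KF.typeQ4L (h : KF 2 S a' b c A a e f Y φ l p l' p') {N : ℕ} (hN : N.Prime)
    (hv : a + A + a' = N) (hA2 : (2 : ℤ) ∣ A) (ha2 : (2 : ℤ) ∣ a) (hc2 : ¬ (2 : ℤ) ∣ c)
    (hL : ∀ w ∈ S.L, Dz 2 w) (hA4 : ¬ (4 : ℤ) ∣ A) (hf4 : ¬ (4 : ℤ) ∣ f) {q τ W κ : ℤ}
    (hW : W = 2 * q + τ * Y + 2 * φ) (hκ : IsC S.L (xvK S l' p' 2 q τ) κ) (hW4 : (4 : ℤ) ∣ W)
    (hW8 : ¬ (8 : ℤ) ∣ W) : (4 : ℤ) ∣ κ ∧ ¬ (8 : ℤ) ∣ κ ∧ (4 : ℤ) ∣ A + 2 * c := by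
  have ha8 := h.typeL_a hN hv hA2 ha2 hc2 hL hA4
  obtain ⟨-, -, -, hb4, hf2, hAe⟩ := h.typeL hN hv hA2 ha2 hc2 hL
  have he4 : (4 : ℤ) ∣ e := by
    rcases hAe with k | k
    · exact k.2
    · exact absurd k.1 hA4
  have hc := h.hc
  obtain ⟨a1, ha1⟩ := ha8
  obtain ⟨b1, hb1⟩ := hb4
  obtain ⟨e1, he1⟩ := he4
  obtain ⟨f1, hf1⟩ := hf2
  obtain ⟨W1, hW1⟩ := hW4
  have hf1o : ¬ (2 : ℤ) ∣ f1 := by omega
  have hW1o : ¬ (2 : ℤ) ∣ W1 := by omega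
  refine ⟨?_, ?_, by omega⟩
  · rw [h.xgap hW hκ]
    refine ⟨⟨2 * (W1 * e1), by rw [hW1, he1]; ring⟩, ⟨2 * b1 + 2 * a1 - W1 * f1, ?_⟩⟩
    rw [hb1, ha1, hW1, hf1]; ring
  · intro k1
    obtain ⟨-, k2⟩ := (h.xgap hW hκ).1 k1
    have e2 : (2 + 2) * b + 2 * a - W * f = 8 * (2 * b1 + 2 * a1 - W1 * f1) := by
      rw [hb1, ha1, hW1, hf1]; ring
    rw [e2] at k2
    have k3 : (2 : ℤ) ∣ 2 * b1 + 2 * a1 - W1 * f1 := by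
      have e3 : (2 : ℤ) * 8 = 8 * 2 := by norm_num
      rw [e3] at k2
      exact (mul_dvd_mul_iff_left (show (8 : ℤ) ≠ 0 by norm_num)).1 k2
    have k4 : ¬ (2 : ℤ) ∣ W1 * f1 := fun k => (two_mul_of k).elim hW1o hf1o
    omega

/-- Q4L: a V-frame with `f = 2 mod 4` -/
theorem KF.exists_f (h : KF 2 S a' b c A a e f Y φ l p l' p') {N : ℕ} (hN : N.Prime)
    (hv : a + A + a' = N) (hA2 : (2 : ℤ) ∣ A) (ha2 : (2 : ℤ) ∣ a) (hc2 : ¬ (2 : ℤ) ∣ c)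
    (hL : ∀ w ∈ S.L, Dz 2 w) (hA4 : ¬ (4 : ℤ) ∣ A) :
    ∃ (j φ2 : ℤ) (l2' p2' : Z2),
      KF 2 (vst S l p j) a' b c A a e (f + j * (a + b - A)) Y φ2 l (p - j • S.v) l2' p2' ∧
      ¬ (4 : ℤ) ∣ f + j * (a + b - A) ∧ ∀ w ∈ (vst S l p j).L, Dz 2 w := by
  have ha8 := h.typeL_a hN hv hA2 ha2 hc2 hL hA4
  obtain ⟨hvz, hφ, -, hb4, hf2, -⟩ := h.typeL hN hv hA2 ha2 hc2 hL
  have hl : Dz 2 l := hL l (by rw [h.L_eq]; exact mem_lat.2 ⟨1, 0, by module⟩)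
  have hp : Dz 2 p := hL p (by rw [h.L_eq]; exact mem_lat.2 ⟨0, 1, by module⟩)
  have hLj : ∀ j : ℤ, ∀ w ∈ (vst S l p j).L, Dz 2 w := by
    intro j w hw
    exact dz_lat.2 ⟨hl, hp.sub (hvz.smul j)⟩ w hw
  by_cases hf4 : (4 : ℤ) ∣ f
  · -- `j` odd, divisible by the odd primes of `Y`
    obtain ⟨r, R, hR, hR2⟩ := exists_pow_mul Nat.prime_two h.Y0.ne'
    have hR2' : ¬ (2 : ℤ) ∣ R := by exact_mod_cast hR2
    have hco : IsCoprime Y (1 + R * φ) := by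
      refine isCoprime_of_prime fun x hx h2 h1 => ?_
      by_cases hx2 : x = 2
      · subst hx2
        obtain ⟨z, hz⟩ := hφ
        rw [hz] at h2
        push_cast at h2
        have e1 : 1 + R * (2 * z) = 1 + 2 * (R * z) := by ring
        rw [e1] at h2
        omega
      · have h3 : (x : ℤ) ∣ R := by
          rw [hR] at h1
          rcases (Nat.prime_iff_prime_int.1 hx).dvd_or_dvd h1 with h4 | h4
          · exfalso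
            have h5 := (Nat.prime_iff_prime_int.1 hx).dvd_of_dvd_pow h4
            have h6 : x ∣ 2 := by exact_mod_cast h5
            exact hx2 ((Nat.prime_dvd_prime_iff_eq hx Nat.prime_two).1 h6)
          · exact h4
        have h4 := dvd_sub h2 (h3.mul_right φ)
        rw [add_sub_cancel_right] at h4
        exact prime_not_dvd_one hx h4
    obtain ⟨φ2, l2', p2', h1⟩ := h.vtw hco
    refine ⟨R, φ2, l2', p2', h1, ?_, hLj R⟩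
    intro k1
    have k2 := dvd_sub k1 hf4
    rw [add_sub_cancel_left] at k2
    have k3 : (2 : ℤ) ^ 2 ∣ R * (a + b - A) := by norm_num; exact k2
    have k4 := odd_cancel hR2' k3
    norm_num at k4
    omega
  · have hco : IsCoprime Y (1 + 0 * φ) := by
      rw [zero_mul, add_zero]; exact isCoprime_one_right
    obtain ⟨φ2, l2', p2', h1⟩ := h.vtw hco
    refine ⟨0, φ2, l2', p2', h1, ?_, hLj 0⟩
    rw [zero_mul, add_zero]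
    exact hf4

/-- S2: `4 ∣ A`: then `8 ∣ b`, `Y = 6 mod 8` -/
theorem KF.typeS2_Y (h : KF 2 S a' b c A a e f Y φ l p l' p') {N : ℕ} (hN : N.Prime)
    (hv : a + A + a' = N) (hA4 : (4 : ℤ) ∣ A) (ha2 : (2 : ℤ) ∣ a) (hc2 : ¬ (2 : ℤ) ∣ c)
    (hL : ∀ w ∈ S.L, Dz 2 w) : (8 : ℤ) ∣ b ∧ (8 : ℤ) ∣ Y + 2 ∧ ¬ (4 : ℤ) ∣ e := by
  have hA2 : (2 : ℤ) ∣ A := by omega
  obtain ⟨hvz, hφ, ha4, hb4, hf2, hAe⟩ := h.typeL hN hv hA2 ha2 hc2 hL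
  obtain ⟨he2, ha', hcY⟩ := h.typeQ0 hN hv hA2 ha2
  have he4 : ¬ (4 : ℤ) ∣ e := by
    rcases hAe with k | k
    · exact absurd hA4 k.1
    · exact k.2
  obtain ⟨e1, he1⟩ := he2
  have he1o : ¬ (2 : ℤ) ∣ e1 := by omega
  have hb8 : (8 : ℤ) ∣ b := by
    obtain ⟨A1, hA1⟩ := hA4
    obtain ⟨a1, ha1⟩ := ha4
    have h1 : e1 * b = 8 * (a1 * A1) := by
      have := h.aA
      rw [hA1, ha1, he1] at this
      linarith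
    have h2 : (2 : ℤ) ^ 3 ∣ e1 * b := ⟨a1 * A1, by rw [h1]; norm_num⟩
    have := odd_cancel he1o h2
    norm_num at this
    exact this
  refine ⟨hb8, ?_, he4⟩
  obtain ⟨h1, -⟩ := h.hrigV' (j := 0) rfl Nat.prime_two (by exact_mod_cast ha')
    (k := 3) (by push_cast; norm_num; exact hb8)
  have e2 : ((Int.gcd Y (1 + 0 * φ) : ℕ) : ℤ) = 1 := by simp
  rw [e2] at h1
  have h2 : (2 : ℤ) ^ 3 ∣ e1 * (Y + 2) := by
    have h3 : (2 : ℤ) * (2 : ℤ) ^ 3 ∣ 2 * (e1 * (Y + 2)) := by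
      have e3 : (2 * 1 + Y) * e = 2 * (e1 * (Y + 2)) := by rw [he1]; ring
      rw [e3] at h1
      push_cast at h1
      simpa using h1
    exact (mul_dvd_mul_iff_left (show (2 : ℤ) ≠ 0 by norm_num)).1 h3
  have := odd_cancel he1o h2
  norm_num at this
  exact this

/-- S2: level four, `t = - o mod 4` gives `W = 4 mod 8` -/
theorem KF.typeS2_W {o t i Y φ : ℤ} (ho : o = 1 ∨ o = -1) (ht : (4 : ℤ) ∣ t + o)
    (hY : (8 : ℤ) ∣ Y + 2) (hφ : (2 : ℤ) ∣ φ) :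
    (4 : ℤ) ∣ 2 * (o + i * (1 + 4)) + (t + i) * Y + 4 * φ ∧
      ¬ (8 : ℤ) ∣ 2 * (o + i * (1 + 4)) + (t + i) * Y + 4 * φ := by
  obtain ⟨x, hx⟩ := ht
  obtain ⟨y, hy⟩ := hY
  obtain ⟨z, hz⟩ := hφ
  have e1 : 2 * (o + i * (1 + 4)) + (t + i) * Y + 4 * φ =
      4 * o + 8 * ((t + i) * y + i - x + z) := by
    have : Y = 8 * y - 2 := by linarith
    have ht' : t = 4 * x - o := by linarith
    rw [this, hz, ht']; ring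
  rw [e1]
  rcases ho with rfl | rfl <;> omega

/-- S2: level four, `W = 4 mod 8` gives `κ = 4 mod 8` -/
theorem KF.typeS2 (h : KF 2 S a' b c A a e f Y φ l p l' p') {N : ℕ} (hN : N.Prime)
    (hv : a + A + a' = N) (hA4 : (4 : ℤ) ∣ A) (ha2 : (2 : ℤ) ∣ a) (hc2 : ¬ (2 : ℤ) ∣ c)
    (hL : ∀ w ∈ S.L, Dz 2 w) {q τ W κ : ℤ} (hW : W = 2 * q + τ * Y + 4 * φ)
    (hκ : IsC S.L (xvK S l' p' 4 q τ) κ) (hW4 : (4 : ℤ) ∣ W) (hW8 : ¬ (8 : ℤ) ∣ W) :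
    (4 : ℤ) ∣ κ ∧ ¬ (8 : ℤ) ∣ κ ∧ (4 : ℤ) ∣ A + 4 * c := by
  have hA2 : (2 : ℤ) ∣ A := by omega
  obtain ⟨-, -, ha4, -, hf2, -⟩ := h.typeL hN hv hA2 ha2 hc2 hL
  obtain ⟨he2, -, -⟩ := h.typeQ0 hN hv hA2 ha2
  obtain ⟨hb8, -, he4⟩ := h.typeS2_Y hN hv hA4 ha2 hc2 hL
  obtain ⟨a1, ha1⟩ := ha4
  obtain ⟨b1, hb1⟩ := hb8
  obtain ⟨e1, he1⟩ := he2
  obtain ⟨f1, hf1⟩ := hf2
  obtain ⟨W1, hW1⟩ := hW4
  have he1o : ¬ (2 : ℤ) ∣ e1 := by omega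
  have hW1o : ¬ (2 : ℤ) ∣ W1 := by omega
  refine ⟨?_, ?_, by omega⟩
  · rw [h.xgap hW hκ]
    refine ⟨⟨W1 * e1, by rw [hW1, he1]; ring⟩, ⟨6 * b1 + 2 * a1 - W1 * f1, ?_⟩⟩
    rw [hb1, ha1, hW1, hf1]; ring
  · intro k1
    obtain ⟨k2, -⟩ := (h.xgap hW hκ).1 k1
    have e2 : W * e = 8 * (W1 * e1) := by rw [hW1, he1]; ring
    rw [e2] at k2
    have k3 : (2 : ℤ) ∣ W1 * e1 := by
      have e3 : (2 : ℤ) * 8 = 8 * 2 := by norm_num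
      rw [e3] at k2
      exact (mul_dvd_mul_iff_left (show (8 : ℤ) ≠ 0 by norm_num)).1 k2
    exact (two_mul_of k3).elim hW1o he1o

end Pool.Agent.H4G
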