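import Pool.Agent.H4G.Arith.K1NumO
set_option autoImplicit false

/-!
# Line B, K = 2: data of the number lemmas of level one (statements: helper40; file: helper24)
-/

namespace Pool.Agent.H4G

/-- the numbers of a frame with `K = 2`: `y = m1 / g1`, `b / A = b0 / A0`, `Y + 2 = g1 n0` -/
structure K2.Num (g1 m1 n0 A0 b0 : ℕ) : Prop where
  g0 : 0 < g1
  gm : g1 < m1
  m3 : m1 < 3 * g1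
  co : Nat.Coprime g1 m1
  pA : 0 < A0
  Ab : A0 < b0
  cAb : Nat.Coprime A0 b0
  bn : b0 ∣ n0
  Y5 : 5 ≤ g1 * n0
  cAm : ∀ r : ℕ, r.Prime → r ≠ 2 → r ∣ A0 → ¬ r ∣ m1

/-- `gcd (2 Y) (n0 z - 4)` with `Y = g1 n0 - 2`, `z = g1 + m1` -/
def K2.gam (g1 m1 n0 : ℕ) : ℕ := Nat.gcd (2 * (g1 * n0 - 2)) (n0 * (g1 + m1) - 4)

/-- number of odd primes of `n0` -/
def K2.k (n0 : ℕ) : ℕ := (n0.primeFactors.erase 2).card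

/-- the flags: natural numbers `<= 1`, zero unless the stated condition holds -/
structure K2.Fl (g1 m1 n0 A0 b0 e3 es e9 ez e4 e8 : ℕ) : Prop where
  h3 : e3 ≤ 1
  hs : es ≤ 1
  h9 : e9 ≤ 1
  hz : ez ≤ 1
  h4 : e4 ≤ 1
  h8 : e8 ≤ 1
  f3 : e3 = 1 → 3 ∣ m1 ∧ ¬ 3 ∣ n0
  fs : es = 1 → m1.Prime ∧ m1 = g1 + 2 ∧ m1 ∣ g1 * n0 - 2
  f9 : e9 = 1 → 9 ∣ m1 ∧ ¬ 3 ∣ b0 ∧ 3 ∣ b0 - A0 ∧ ∀ r : ℕ, r.Prime → r ≠ 2 → r ∣ g1 + m1 → r ∣ A0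
  fz : ez = 1 → ∃ zp : ℕ, 1 < zp ∧ ¬ 2 ∣ zp ∧ zp ∣ g1 + m1 ∧ zp ∣ g1 * n0 - 4 ∧ Nat.Coprime zp A0 ∧
    ∀ r : ℕ, r.Prime → r ≠ 2 → ¬ r ∣ A0 → ¬ r ∣ (g1 + m1) / zp
  f4 : e4 = 1 → 8 ∣ g1 * n0 - 4 ∧ ∀ r : ℕ, r.Prime → r ≠ 2 → r ∣ g1 + m1 → r ∣ A0
  f8 : e8 = 1 → 8 ∣ n0
  ex : ez = 0 ∨ (e9 = 0 ∧ e4 = 0)

end Pool.Agent.H4G
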