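import Pool.Agent.H4G.Arith.K2Fin40
import Pool.Agent.H4G.Arith.K2NumD

/-!
# LINE B, `K = 2`: the types P2, Q4L, S2 (helper40)
-/

set_option autoImplicit false

namespace Pool.Agent.H4G

variable {S : PSt} {a' b c A a e f Y φ : ℤ} {l p l' p' : Z2} {g1 m1 n0 A0 b0 hh : ℕ}

/-- the window inequality from the number inequality -/
theorem K2D.win40 (D : K2D A b c a e Y g1 m1 n0 A0 b0 hh) {n G : ℕ} (hn : 0 < n) (hG : 0 < G)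
    {C C' : ℕ} (hC : C' ≤ C)
    (hR : 2 ^ C * (g1 * (2 * n * G)) ≤ (g1 * n0 - (2 + 2 * n)) * (g1 + m1)) :
    (2 : ℤ) ^ C' * (A * ((n : ℤ) * G)) ≤ Y * c - 2 * n * c ∧ 2 + 2 * n < g1 * n0 := by
  have hg := D.g0
  have hlt : 2 + 2 * n < g1 * n0 := by
    by_contra h1
    have h2 : g1 * n0 - (2 + 2 * n) = 0 := by omega
    rw [h2, zero_mul] at hR
    have h3 : 0 < 2 ^ C * (g1 * (2 * n * G)) := by positivity
    omega
  refine ⟨?_, hlt⟩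
  have h1 : ((2 ^ C' * (g1 * (2 * n * G)) : ℕ) : ℤ) ≤
      ((g1 * n0 - (2 + 2 * n)) * (g1 + m1) : ℕ) := by
    have : 2 ^ C' * (g1 * (2 * n * G)) ≤ 2 ^ C * (g1 * (2 * n * G)) :=
      Nat.mul_le_mul_right _ (Nat.pow_le_pow_right (by norm_num) hC)
    exact_mod_cast this.trans hR
  push_cast [Nat.cast_sub hlt.le] at h1
  have h2 : (0 : ℤ) ≤ (hh : ℤ) * A0 := by positivity
  have h3 := mul_le_mul_of_nonneg_left h1 h2
  have hY := D.hY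
  have e1 : (2 : ℤ) * ((2 : ℤ) ^ C' * (A * ((n : ℤ) * G))) =
      (hh : ℤ) * A0 * (2 ^ C' * (g1 * (2 * n * G))) := by
    rw [D.hA]; ring
  have e2 : 2 * (Y * c - 2 * n * c) =
      (hh : ℤ) * A0 * ((g1 * n0 - (2 + 2 * n)) * (g1 + m1)) := by
    have hc := D.hc
    have e3 : 2 * (Y * c - 2 * n * c) = (Y - 2 * n) * (2 * c) := by ring
    rw [e3, hc]
    have e4 : Y = g1 * n0 - 2 := by linarith
    rw [e4]; ring
  linarith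

/-- `Q` -/
theorem K2D.Q_eq (D : K2D A b c a e Y g1 m1 n0 A0 b0 hh) {n2 : ℕ} (hn : n0 = 2 * n2) :
    A * ((n2 : ℤ) * (g1 + m1)) = (Y + 2) * c ∧ 2 * ((n2 : ℤ) * (g1 + m1)) = n0 * (g1 + m1) := by
  have h1 : (n0 : ℤ) = 2 * n2 := by rw [hn]; push_cast; ring
  refine ⟨?_, by rw [h1]; ring⟩
  have h2 : (2 : ℤ) * (A * ((n2 : ℤ) * (g1 + m1))) = 2 * ((Y + 2) * c) := by
    have e1 : 2 * ((Y + 2) * c) = (Y + 2) * (2 * c) := by ring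
    rw [e1, D.hc, D.hY, D.hA, h1]; ring
  exact mul_left_cancel₀ (by norm_num) h2

/-- an odd prime of `z` which does not divide `A0`: it divides `c` and not `A` -/
theorem K2D.s_of (D : K2D A b c a e Y g1 m1 n0 A0 b0 hh) {s : ℕ} (hs : s.Prime) (hs2 : s ≠ 2)
    (hsz : s ∣ g1 + m1) (hsA : ¬ s ∣ A0) : (s : ℤ) ∣ c ∧ ¬ (s : ℤ) ∣ A := by
  constructor
  · have h1 : (s : ℤ) ∣ 2 * c := by
      rw [D.hc]; exact_mod_cast hsz.mul_left (hh * A0)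
    exact (pdvd_mul hs h1).resolve_left (odd_not_two hs hs2)
  · intro h1
    rw [D.hA] at h1
    have h2 : s ∣ g1 * (hh * A0) := by exact_mod_cast h1
    rcases (Nat.Prime.dvd_mul hs).1 h2 with h5 | h5
    · exact D.not_g1 hs ((Nat.dvd_add_right h5).1 hsz) h5
    rcases (Nat.Prime.dvd_mul hs).1 h5 with h6 | h6
    · exact D.not_hh hs hs2 h6
    · exact hsA h6

/-- END 2: the odd primes of `c` divide `A` -/
theorem K2D.cA_of (D : K2D A b c a e Y g1 m1 n0 A0 b0 hh)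
    (hz : ∀ r : ℕ, r.Prime → r ≠ 2 → r ∣ g1 + m1 → r ∣ A0) :
    ∀ r : ℕ, r.Prime → r ≠ 2 → (r : ℤ) ∣ c → (r : ℤ) ∣ A := by
  intro r hr hr2 hrc
  have h1 : (r : ℤ) ∣ (hh : ℤ) * A0 * (g1 + m1) := by rw [← D.hc]; exact hrc.mul_left 2
  have h2 : r ∣ hh * A0 * (g1 + m1) := by exact_mod_cast h1
  have h3 : r ∣ A0 := by
    rcases (Nat.Prime.dvd_mul hr).1 h2 with h5 | h5
    · rcases (Nat.Prime.dvd_mul hr).1 h5 with h6 | h6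
      · exact absurd h6 (D.not_hh hr hr2)
      · exact h6
    · exact hz r hr hr2 h5
  rw [D.hA]
  exact_mod_cast (h3.mul_left hh).mul_left g1

/-- the class of END 1 -/
theorem K2D.cls_s {g α Y n ω0 : ℤ} (hα : n * Y = g * α) {s : ℕ} (hs : s.Prime) (hs2 : s ≠ 2)
    (hn : ¬ (s : ℤ) ∣ n) (hy : (s : ℤ) ∣ Y - 2 * n) :
    ∃ σ : ℤ, ∀ x : ℤ, (s : ℤ) ∣ ω0 + g * x → (s : ℤ) ∣ x - σ := by
  have h1 : ¬ (s : ℤ) ∣ g := by
    intro h2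
    have h3 : (s : ℤ) ∣ n * Y := by rw [hα]; exact h2.mul_right _
    have h4 := (pdvd_mul hs h3).resolve_left hn
    have h5 : (s : ℤ) ∣ 2 * n := by
      have e1 : 2 * n = Y - (Y - 2 * n) := by ring
      rw [e1]; exact dvd_sub h4 hy
    rcases pdvd_mul hs h5 with h6 | h6
    · exact odd_not_two hs hs2 h6
    · exact hn h6
  obtain ⟨σ, hσ⟩ := class_x (((Nat.prime_iff_prime_int.1 hs).coprime_iff_not_dvd).2 h1) ω0 0
  exact ⟨σ, fun x hx => hσ x (by rwa [sub_zero])⟩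

theorem K2.P2_card {g1 m1 n0 es : ℕ}
    (hes : (m1.Prime ∧ m1 ≠ 2 ∧ m1 = g1 + 2 ∧ m1 ∣ g1 * n0 - 2) → es = 1) :
    (K2.P2 g1 m1 n0).card ≤ K2.k n0 + es := by
  unfold K2.P2 K2.k
  refine (Finset.card_union_le _ _).trans (Nat.add_le_add_left ?_ _)
  split_ifs with h1
  · rw [hes h1]; simp
  · simp

theorem K2.P4_card {m1 n0 e3 : ℕ} (he3 : (3 ∣ m1 ∧ ¬ 3 ∣ n0) → e3 = 1) (hn0 : n0 ≠ 0) :
    (K2.P4 m1 n0).card ≤ K2.k n0 + e3 := by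
  unfold K2.P4 K2.k
  by_cases h3 : 3 ∣ n0
  · have h4 : (n0.primeFactors.erase 2) ∪ (if 3 ∣ m1 then {3} else ∅) =
        n0.primeFactors.erase 2 := by
      refine Finset.union_eq_left.2 fun r hr => ?_
      split_ifs at hr with h5
      · rw [Finset.mem_singleton.1 hr]
        exact Finset.mem_erase.2 ⟨by norm_num, Nat.mem_primeFactors.2 ⟨Nat.prime_three, h3, hn0⟩⟩
      · exact absurd hr (Finset.notMem_empty _)
    rw [h4]; omega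
  · refine (Finset.card_union_le _ _).trans (Nat.add_le_add_left ?_ _)
    split_ifs with h1
    · rw [he3 ⟨h1, h3⟩]; simp
    · simp

/-- `2 u + τ l'` is divisible by two -/
theorem KF.dz_xv (h : KF 2 S a' b c A a e f Y φ l p l' p') {n q τ : ℤ} (hn : (2 : ℤ) ∣ n)
    (hv2 : Dz 2 S.v) (hq : (4 : ℤ) ∣ 2 * q + τ * Y) : Dz 2 (xvK S l' p' n q τ) := by
  have h1 : Dz 2 (q • S.u + τ • l') := by
    obtain ⟨m, hm⟩ := hq
    have h2 : (2 : ℤ) • (q • S.u + τ • l') = (2 : ℤ) • ((2 * m) • S.u) := by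
      have e1 : (2 : ℤ) • (q • S.u + τ • l') = (2 * q) • S.u + τ • ((2 : ℤ) • l') := by module
      rw [e1, h.hl']
      have e2 : (2 * q) • S.u + τ • Y • S.u = (2 * q + τ * Y) • S.u := by module
      rw [e2, hm]; module
    have h3 : q • S.u + τ • l' = (2 * m) • S.u := smul_inj (by norm_num) h2
    rw [h3]
    exact Dz.of_dvd (dvd_mul_right _ _) _
  have e1 : xvK S l' p' n q τ = S.v + (q • S.u + τ • l') + n • p' := by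
    unfold xvK; module
  rw [e1]
  exact (hv2.add h1).add (Dz.of_dvd hn _)

/-- `c` odd: no content four -/
theorem KF.no_four (h : KF 2 S a' b c A a e f Y φ l p l' p') (hc2 : ¬ (2 : ℤ) ∣ c) {n τ : ℤ} :
    ¬ (Dz 4 (l' - n • S.u) ∧ Dz 4 (p' + τ • S.u)) := by
  rintro ⟨-, h2⟩
  have g3 := h2.cr_right S.u
  rw [cr_add_right, cr_smul_right, cr_self, h.up'] at g3
  exact hc2 ((by norm_num : (2 : ℤ) ∣ 4).trans (by simpa using g3))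

theorem pow_of_not {r κ X : ℤ} (h : ¬ r ∣ κ) {k : ℕ} (hk : r ^ k ∣ κ) : r ^ k ∣ X := by
  rcases Nat.eq_zero_or_pos k with h0 | h0
  · rw [h0, pow_zero]; exact one_dvd _
  · exact absurd ((dvd_pow_self _ h0.ne').trans hk) h

theorem c_lt (h : KF 2 S a' b c A a e f Y φ l p l' p') (he3 : e < 3 * A) : c < 2 * A := by
  have := h.hc
  linarith

/-- P2: the classes -/
theorem KF.p2_cls (h : KF 2 S a' b c A a e f Y φ l p l' p') (hF : S.Full) {N : ℕ}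
    (hN : N.Prime) (hv : a + A + a' = N) (he3 : e < 3 * A)
    (D : K2D A b c a e Y g1 m1 n0 A0 b0 hh) (hnrm : KNrm a b A e f)
    (hA2 : ¬ (2 : ℤ) ∣ A) (ha2 : (2 : ℤ) ∣ a) (hY4 : (4 : ℤ) ∣ Y) (hz4 : 4 ∣ g1 + m1)
    (hn2 : 2 ∣ n0) :
    0 < Nat.gcd (g1 * n0 - 2) (n0 * (g1 + m1) - 4) ∧
    ∃ (ω0 : ℤ) (ρ : ℕ → ℤ) (ρ2 : ℤ), ∀ x : ℤ,
      2 * 2 * c < A * (ω0 + (2 * (Nat.gcd (g1 * n0 - 2) (n0 * (g1 + m1) - 4) : ℕ) : ℤ) * x) →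
      A * (ω0 + (2 * (Nat.gcd (g1 * n0 - 2) (n0 * (g1 + m1) - 4) : ℕ) : ℤ) * x) ≤ Y * c →
      ((∀ r ∈ K2.P2 g1 m1 n0, (r : ℤ) ∣ a → ¬ (r : ℤ) ∣ x - ρ r) →
        ∀ s : ℕ, s.Prime → s ≠ 2 → s ∣ g1 + m1 → ¬ s ∣ A0 → (s : ℤ) ∣ Y - 2 * 2 ∧
        (s : ℤ) ∣ ω0 + (2 * (Nat.gcd (g1 * n0 - 2) (n0 * (g1 + m1) - 4) : ℕ) : ℤ) * x) ∧
      ((∀ r ∈ K2.P2 g1 m1 n0, ¬ (r : ℤ) ∣ x - ρ r) →
        (∀ r : ℕ, r.Prime → r ≠ 2 → r ∣ g1 + m1 → r ∣ A0) →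
        (8 ∣ g1 * n0 - 6 → 8 ∣ g1 + m1 → ¬ (2 : ℤ) ∣ x - ρ2) →
        ∃ (T : PSt) (d : ℤ), SEq S T ∧ IsC T.L T.v d ∧ d ≤ 2) := by
  obtain ⟨n2, hn2'⟩ := hn2
  obtain ⟨hQ, hQ2⟩ := D.Q_eq hn2'
  obtain ⟨hYn, h3Y⟩ := D.Yn h.Y0
  have hz0 : 4 ≤ g1 + m1 := Nat.le_of_dvd (by have := D.g0; omega) hz4
  have hn0 : n0 ≠ 0 := D.n0pos h.Y0
  have hnz : 4 ≤ n0 * (g1 + m1) := by nlinarith [Nat.pos_of_ne_zero hn0]
  set Q : ℤ := (n2 : ℤ) * (g1 + m1) with hQdef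
  set G : ℕ := Nat.gcd (g1 * n0 - 2) (n0 * (g1 + m1) - 4) with hG
  have hG0 : 0 < G := Nat.gcd_pos_of_pos_left _ (by omega)
  refine ⟨hG0, ?_⟩
  have hα : Y = (G : ℤ) * (((g1 * n0 - 2) / G : ℕ) : ℤ) := by
    rw [← hYn]
    exact_mod_cast (Nat.mul_div_cancel' (Nat.gcd_dvd_left (g1 * n0 - 2) _)).symm
  have hβ : 2 * (Q - 2) = (G : ℤ) * (((n0 * (g1 + m1) - 4) / G : ℕ) : ℤ) := by
    have h1 : 2 * (Q - 2) = ((n0 * (g1 + m1) - 4 : ℕ) : ℤ) := by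
      rw [Nat.cast_sub hnz]
      push_cast
      linarith
    rw [h1]
    exact_mod_cast (Nat.mul_div_cancel' (Nat.gcd_dvd_right (g1 * n0 - 2) _)).symm
  set α : ℤ := (((g1 * n0 - 2) / G : ℕ) : ℤ) with hαdef
  set β : ℤ := (((n0 * (g1 + m1) - 4) / G : ℕ) : ℤ) with hβdef
  have hco : IsCoprime α β := by
    rw [hαdef, hβdef]
    exact Nat.isCoprime_iff_coprime.2 (Nat.coprime_div_gcd_div_gcd hG0)
  have h2G : 2 ∣ G := by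
    refine Nat.dvd_gcd ?_ ?_
    · rw [hn2']
      exact Nat.dvd_sub ((dvd_mul_right 2 n2).mul_left g1) dvd_rfl
    · rw [hn2']
      exact Nat.dvd_sub ((dvd_mul_right 2 n2).mul_right _) (by norm_num)
  have hs : 2 * α ∣ Y := by
    rw [hα]
    exact mul_dvd_mul_right (by exact_mod_cast h2G) α
  obtain ⟨ρ, hρ⟩ := h.sel2 hF hN hv he3 D hQ hQ2 hnrm (t0 := 1) (Or.inr rfl) hα hβ hco hs
  -- the parity class
  obtain ⟨ρ2, hρ2⟩ : ∃ ρ2 : ℤ, ∀ x : ℤ, (8 : ℤ) ∣ φ + 2 + 4 * x → (2 : ℤ) ∣ x - ρ2 := by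
    by_cases h1 : (4 : ℤ) ∣ φ + 2
    · obtain ⟨q, hq⟩ := h1
      exact ⟨-q, fun x hx => by omega⟩
    · exact ⟨0, fun x hx => by omega⟩
  refine ⟨1 * Y + 2 * φ, ρ, ρ2, fun x hw1 hw2 => ?_⟩
  obtain ⟨t', i', k1, k2, k3, k4⟩ := hρ x
  have hcop : IsCoprime (1 + 2 * t') 2 := ⟨1, -t', by ring⟩
  have hodd : ∀ κ : ℤ, IsC S.L (xvK S l' p' 2 (1 + (2 * i') * (1 + 2)) ((1 + 2 * t') + 2 * i')) κ →
      ¬ (2 : ℤ) ∣ κ := fun κ hκ =>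
    h.typeP2 hN hv hA2 ha2 hY4 _ _ κ (by omega) hκ
  have hgood : (∀ r ∈ K2.P2 g1 m1 n0, (r : ℤ) ∣ a → ¬ (r : ℤ) ∣ x - ρ r) →
      ∀ κ : ℤ, IsC S.L (xvK S l' p' 2 (1 + (2 * i') * (1 + 2)) ((1 + 2 * t') + 2 * i')) κ →
      ∀ r : ℕ, r.Prime → (r : ℤ) ∣ a → ¬ (r : ℤ) ∣ κ := by
    intro hx κ hκ r hr hra
    by_cases hr2 : r = 2
    · subst hr2
      exact_mod_cast hodd κ hκ
    · exact k3 hx κ hκ r hr hr2 hra
  refine ⟨fun hx s hs1 hs2 hsz hsA => ?_, fun hx hz hpar => ?_⟩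
  · obtain ⟨j1, j2⟩ := D.s_of hs1 hs2 hsz hsA
    exact h.end_one hN hv (c_lt h he3) hQ (by norm_num) hcop k2 hw1 hw2
      (fun κ hκ r hr hra k hk => pow_of_not (hgood hx κ hκ r hr hra) hk) hs1 j1 j2
  · have hgood' := hgood (fun r hr _ => hx r hr)
    refine h.end_two hN hv hQ (by norm_num) hcop k2 hw1 hw2
      (fun κ hκ r hr hra k hk => pow_of_not (hgood' κ hκ r hr hra) hk)
      (fun κ hκ r hr hk hra => absurd hk (hgood' κ hκ r hr hra))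
      (k4 hx (D.cA_of hz)) (fun hcon => ?_)
    obtain ⟨j1, j2, j3⟩ := h.cont_four hA2 hcon.1 hcon.2
    have h8 : 8 ∣ g1 * n0 - 6 := by
      have hY6 : (Y : ℤ) - 4 = ((g1 * n0 : ℕ) : ℤ) - 6 := by
        have := D.hY
        push_cast
        linarith
      have h6 : (8 : ℤ) ∣ ((g1 * n0 : ℕ) : ℤ) - 6 := by
        rw [← hY6]
        have e1 : Y - 4 = Y - 2 * 2 := by ring
        rw [e1]; exact j1
      by_cases h7 : 6 ≤ g1 * n0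
      · have : ((g1 * n0 - 6 : ℕ) : ℤ) = ((g1 * n0 : ℕ) : ℤ) - 6 := by
          rw [Nat.cast_sub h7]; norm_num
        rw [← this] at h6
        exact_mod_cast h6
      · have h8 : g1 * n0 - 6 = 0 := by omega
        rw [h8]; exact dvd_zero _
    have h8z : 8 ∣ g1 + m1 := by
      have hA0 : ¬ 2 ∣ hh * A0 := by
        intro h9
        apply hA2
        rw [D.hA]
        exact_mod_cast h9.mul_left g1
      have h9 : (8 : ℤ) ∣ ((hh * A0 : ℕ) : ℤ) * ((g1 + m1 : ℕ) : ℤ) := by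
        have := D.hc
        push_cast
        rw [← this]
        obtain ⟨q, hq⟩ := j3
        exact ⟨q, by rw [hq]; ring⟩
      have h10 : 8 ∣ hh * A0 * (g1 + m1) := by exact_mod_cast h9
      have h11 : Nat.Coprime 8 (hh * A0) := by
        have h12 : Nat.Coprime 2 (hh * A0) := (Nat.Prime.coprime_iff_not_dvd Nat.prime_two).2 hA0
        have := Nat.Coprime.pow_left 3 h12
        norm_num at this
        exact this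
      exact h11.dvd_of_dvd_mul_left h10
    refine hpar h8 h8z (hρ2 x ?_)
    -- `x = t' + i'` modulo two
    have hα2 : ¬ (2 : ℤ) ∣ α := by
      intro h9
      have h10 : (4 : ℤ) ∣ (G : ℤ) := by
        have h11 : 4 ∣ G := by
          refine Nat.dvd_gcd ?_ ?_
          · have : (4 : ℤ) ∣ ((g1 * n0 - 2 : ℕ) : ℤ) := by rw [hYn]; exact hY4
            exact_mod_cast this
          · exact Nat.dvd_sub (hz4.mul_left n0) dvd_rfl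
        exact_mod_cast h11
      obtain ⟨u, hu⟩ := h9
      obtain ⟨v, hv'⟩ := h10
      have h12 : Y = 8 * (u * v) := by rw [hα, hu, hv']; ring
      omega
    have hβ2 : ¬ (2 : ℤ) ∣ β := by
      intro h9
      have h10 : 4 ∣ G := by
        refine Nat.dvd_gcd ?_ ?_
        · have : (4 : ℤ) ∣ ((g1 * n0 - 2 : ℕ) : ℤ) := by rw [hYn]; exact hY4
          exact_mod_cast this
        · exact Nat.dvd_sub (hz4.mul_left n0) dvd_rfl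
      obtain ⟨u, hu⟩ := h9
      obtain ⟨v, hv'⟩ := h10
      obtain ⟨w, hw⟩ := h8z
      have h12 : 2 * (Q - 2) = 8 * (u * v) := by rw [hβ, hu, hv']; push_cast; ring
      have h13 : Q = 8 * ((n2 : ℤ) * w) := by
        rw [hQdef]
        have : ((g1 + m1 : ℕ) : ℤ) = ((8 * w : ℕ) : ℤ) := by rw [hw]
        push_cast at this
        rw [this]; ring
      omega
    have h9 : (8 : ℤ) ∣ φ + 2 * ((1 + 2 * t') + 2 * i') := j2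
    have h10 : (2 : ℤ) ∣ x - (t' + i') := by
      obtain ⟨u, hu⟩ : ∃ u, α = 2 * u + 1 := ⟨α / 2, by omega⟩
      obtain ⟨v, hv'⟩ : ∃ v, β = 2 * v + 1 := ⟨β / 2, by omega⟩
      refine ⟨u * t' - v * i' - i', ?_⟩
      rw [← k1, hu, hv']; ring
    obtain ⟨w, hw⟩ := h10
    have e1 : φ + 2 + 4 * x = (φ + 2 * ((1 + 2 * t') + 2 * i')) + 8 * w := by
      have : x = t' + i' + 2 * w := by linarith
      rw [this]; ring
    rw [e1]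
    exact dvd_add h9 (dvd_mul_right _ _)

/-- `s ∣ Y - 2 n` in natural numbers -/
theorem K2D.dvd_nat (D : K2D A b c a e Y g1 m1 n0 A0 b0 hh) {n s : ℕ}
    (hs : (s : ℤ) ∣ Y - 2 * n) : s ∣ g1 * n0 - (2 + 2 * n) := by
  by_cases h7 : 2 + 2 * n ≤ g1 * n0
  · have h1 : ((g1 * n0 - (2 + 2 * n) : ℕ) : ℤ) = Y - 2 * n := by
      rw [Nat.cast_sub h7]
      have := D.hY
      push_cast
      linarith
    rw [← h1] at hs
    exact_mod_cast hs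
  · have h8 : g1 * n0 - (2 + 2 * n) = 0 := by omega
    rw [h8]; exact dvd_zero _

/-- P2: the right side -/
theorem KF.p2_right (h : KF 2 S a' b c A a e f Y φ l p l' p') (hF : S.Full) {N : ℕ}
    (hN : N.Prime) (hv : a + A + a' = N) (he3 : e < 3 * A)
    (D : K2D A b c a e Y g1 m1 n0 A0 b0 hh)
    (hA2 : ¬ (2 : ℤ) ∣ A) (ha2 : (2 : ℤ) ∣ a) (hY4 : (4 : ℤ) ∣ Y) (hz4 : 4 ∣ g1 + m1)
    (hn2 : 2 ∣ n0)
    (hnum : ∀ es ez e4 : ℕ, es ≤ 1 → ez ≤ 1 → e4 ≤ 1 →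
      (es = 1 → m1.Prime ∧ m1 = g1 + 2 ∧ m1 ∣ g1 * n0 - 2) →
      (ez = 1 → ∃ zp : ℕ, 1 < zp ∧ ¬ 2 ∣ zp ∧ zp ∣ g1 + m1 ∧ zp ∣ g1 * n0 - 6 ∧
        Nat.Coprime zp A0) →
      (e4 = 1 → 8 ∣ g1 * n0 - 6 ∧ 8 ∣ g1 + m1 ∧
        ∀ r : ℕ, r.Prime → r ≠ 2 → r ∣ g1 + m1 → r ∣ A0) → (ez = 0 ∨ e4 = 0) →
      2 ^ (K2.k n0 + es + ez + e4) *
        (g1 * (4 * Nat.gcd (g1 * n0 - 2) (n0 * (g1 + m1) - 4))) ≤ (g1 * n0 - 6) * (g1 + m1)) :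
    ∃ (T : PSt) (d : ℤ), SEq S T ∧ IsC T.L T.v d ∧ d ≤ 2 := by
  obtain ⟨j, φ1, l1', p1', -, h1, hnrm⟩ := h.norm40 hN hv he3 D 0 0 (fun _ => by norm_num)
  have hSS := h.vseq j
  have hF1 := hSS.full.1 hF
  obtain ⟨hG0, ω0, ρ, ρ2, hcls⟩ := h1.p2_cls hF1 hN hv he3 D hnrm hA2 ha2 hY4 hz4 hn2
  set G : ℕ := Nat.gcd (g1 * n0 - 2) (n0 * (g1 + m1) - 4) with hG
  have hA0 := h.A0
  have hg0 : (0 : ℤ) < 2 * (G : ℤ) := by
    have : (0 : ℤ) < G := by exact_mod_cast hG0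
    linarith
  set es : ℕ := if m1.Prime ∧ m1 ≠ 2 ∧ m1 = g1 + 2 ∧ m1 ∣ g1 * n0 - 2 then 1 else 0 with hes
  have hes1 : es ≤ 1 := by rw [hes]; split_ifs <;> omega
  have hesf : es = 1 → m1.Prime ∧ m1 = g1 + 2 ∧ m1 ∣ g1 * n0 - 2 := by
    intro h2
    rw [hes] at h2
    split_ifs at h2 with h3
    · exact ⟨h3.1, h3.2.2.1, h3.2.2.2⟩
  have hcard : (K2.P2 g1 m1 n0).card ≤ K2.k n0 + es :=
    K2.P2_card fun h2 => by rw [hes, if_pos h2]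
  have hfin : ∀ {u v : ℕ}, 2 ^ (K2.k n0 + es + u + v) * (g1 * (4 * G)) ≤
      (g1 * n0 - 6) * (g1 + m1) →
      (2 : ℤ) ^ ((K2.P2 g1 m1 n0).card + u + v) * (A * (2 * (G : ℤ))) ≤ Y * c - 2 * 2 * c := by
    intro u v h2
    have h3 := (D.win40 (n := 2) (G := G) (by norm_num) hG0
      (C' := (K2.P2 g1 m1 n0).card + u + v) (by omega) h2).1
    exact_mod_cast h3
  by_cases hz : ∀ r : ℕ, r.Prime → r ≠ 2 → r ∣ g1 + m1 → r ∣ A0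
  · -- END 2
    set e4 : ℕ := if 8 ∣ g1 * n0 - 6 ∧ 8 ∣ g1 + m1 then 1 else 0 with he4
    have he41 : e4 ≤ 1 := by rw [he4]; split_ifs <;> omega
    have he4f : e4 = 1 → 8 ∣ g1 * n0 - 6 ∧ 8 ∣ g1 + m1 ∧
        ∀ r : ℕ, r.Prime → r ≠ 2 → r ∣ g1 + m1 → r ∣ A0 := by
      intro h2
      rw [he4] at h2
      split_ifs at h2 with h3
      exact ⟨h3.1, h3.2, hz⟩
    have hR := hnum es 0 e4 hes1 (by norm_num) he41 hesf (by norm_num) he4f (Or.inl rfl)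
    obtain ⟨x, ⟨hx1, hx2⟩, hxP, -, hx4⟩ := window_cls (K2.P2 g1 m1 n0) (fun r hr => K2.P2_odd hr)
      ρ Nat.prime_three (by norm_num) 0 ρ2 (u := 0) (v := e4) (w := ω0) hA0 hg0 (hfin hR)
    obtain ⟨T, d, hT1, hT2, hT3⟩ := (hcls x hx1 hx2).2 hxP hz (fun h2 h3 =>
      hx4 (by rw [he4, if_pos ⟨h2, h3⟩]))
    exact ⟨T, d, hSS.trans hT1, hT2, hT3⟩
  · -- END 1
    exfalso
    push Not at hz
    obtain ⟨s, hs1, hs2, hsz, hsA⟩ := hz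
    set ez : ℕ := if (s : ℤ) ∣ Y - 2 * 2 then 1 else 0 with hez
    have hez1 : ez ≤ 1 := by rw [hez]; split_ifs <;> omega
    have hezf : ez = 1 → ∃ zp : ℕ, 1 < zp ∧ ¬ 2 ∣ zp ∧ zp ∣ g1 + m1 ∧ zp ∣ g1 * n0 - 6 ∧
        Nat.Coprime zp A0 := by
      intro h2
      rw [hez] at h2
      split_ifs at h2 with h3
      refine ⟨s, hs1.one_lt, fun h4 => ?_, hsz, ?_, ?_⟩
      · exact hs2 ((Nat.prime_dvd_prime_iff_eq Nat.prime_two hs1).1 h4).symm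
      · exact D.dvd_nat (n := 2) (by exact_mod_cast h3)
      · exact (Nat.Prime.coprime_iff_not_dvd hs1).2 hsA
    have hR := hnum es ez 0 hes1 hez1 (by norm_num) hesf hezf (by norm_num) (Or.inr rfl)
    obtain ⟨σ, hσ⟩ : ∃ σ : ℤ, (s : ℤ) ∣ Y - 2 * 2 → ∀ x : ℤ,
        (s : ℤ) ∣ ω0 + (2 * (G : ℤ)) * x → (s : ℤ) ∣ x - σ := by
      by_cases h2 : (s : ℤ) ∣ Y - 2 * 2
      · obtain ⟨q, hq⟩ : (G : ℤ) ∣ Y := by
          rw [← (D.Yn h.Y0).1]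
          exact_mod_cast Nat.gcd_dvd_left _ _
        obtain ⟨σ, hσ⟩ := K2D.cls_s (n := 2) (Y := Y) (g := 2 * (G : ℤ)) (α := q) (ω0 := ω0)
          (by rw [hq]; ring) hs1 hs2 (odd_not_two hs1 hs2) h2
        exact ⟨σ, fun _ => hσ⟩
      · exact ⟨0, fun h3 => absurd h3 h2⟩
    obtain ⟨x, ⟨hx1, hx2⟩, hxP, hxs, -⟩ := window_cls (K2.P2 g1 m1 n0) (fun r hr => K2.P2_odd hr)
      ρ hs1 hs2 σ 0 (u := ez) (v := 0) (w := ω0) hA0 hg0 (hfin hR)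
    obtain ⟨k1, k2⟩ := (hcls x hx1 hx2).1 (fun r hr _ => hxP r hr) s hs1 hs2 hsz hsA
    exact hxs (by rw [hez, if_pos k1]) (hσ k1 x k2)

/-- P2: the exceptional frame (`N = 103`) -/
theorem KF.p2_exc (h : KF 2 S a' b c A a e f Y φ l p l' p') (hF : S.Full) {N : ℕ}
    (hN : N.Prime) (hv : a + A + a' = N) (D : K2D A b c a e Y 5 7 6 1 2 1) : False := by
  have hA := D.hA
  have he := D.he
  have ha := D.ha
  have hc := D.hc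
  have hY := D.hY
  norm_num at hA he ha hc hY
  have hc' : c = 6 := by omega
  have hY' : Y = 28 := by omega
  have he3 : e < 3 * A := by rw [he, hA]; norm_num
  obtain ⟨j, φ1, l1', p1', -, h1, hnrm⟩ := h.norm40 hN hv he3 D 0 0 (fun _ => by norm_num)
  have hSS := h.vseq j
  have hF1 := hSS.full.1 hF
  obtain ⟨-, ω0, ρ, ρ2, hcls⟩ := h1.p2_cls hF1 hN hv he3 D hnrm (by rw [hA]; norm_num)
    (by rw [ha]; norm_num) (by rw [hY']; norm_num) (by norm_num) (by norm_num)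
  have hG : Nat.gcd (5 * 6 - 2) (6 * (5 + 7) - 4) = 4 := by decide
  rw [hG] at hcls
  push_cast at hcls
  obtain ⟨σ, hσ⟩ := K2D.cls_s (n := 2) (Y := 28) (g := 2 * 4) (α := 7) (ω0 := ω0) (s := 3)
    (by norm_num) Nat.prime_three (by norm_num) (by norm_num) (by norm_num)
  obtain ⟨x, ⟨hx1, hx2⟩, hx7, hx3⟩ := window_three (m1 := 7) (m2 := 3) (r1 := ρ 7) (r2 := σ)
    (A := A) (g := 2 * 4) (w := ω0) (lo := 2 * 2 * c) (hi := Y * c) (by norm_num) (by norm_num)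
    h.A0 (by norm_num) (by rw [hA, hc', hY']; norm_num)
  obtain ⟨k1, k2⟩ := (hcls x hx1 hx2).1 (fun r hr hra => by
    obtain ⟨hrp, hr2⟩ := K2.P2_odd hr
    rw [ha] at hra
    have h3 : r ∣ 2 * 7 := by exact_mod_cast hra
    rcases (Nat.Prime.dvd_mul hrp).1 h3 with h4 | h4
    · exact absurd ((Nat.prime_dvd_prime_iff_eq hrp Nat.prime_two).1 h4) hr2
    · have h5 := (Nat.prime_dvd_prime_iff_eq hrp (by norm_num : Nat.Prime 7)).1 h4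
      rw [h5]
      exact_mod_cast hx7) 3 Nat.prime_three (by norm_num) (by norm_num) (by norm_num)
  exact hx3 (by have := hσ x (by exact_mod_cast k2); exact_mod_cast this)

/-- the prime two when `4 ∣ κ`, `8 ∤ κ` -/
theorem pow_two_of {κ X : ℤ} (h8 : ¬ (8 : ℤ) ∣ κ) (hX : (4 : ℤ) ∣ X) {k : ℕ}
    (hk : (2 : ℤ) ^ k ∣ κ) : (2 : ℤ) ^ k ∣ X := by
  by_cases h3 : 3 ≤ k
  · exfalso
    apply h8
    have h1 := (pow_dvd_pow (2 : ℤ) h3).trans hk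
    norm_num at h1
    exact h1
  · have h1 : (2 : ℤ) ^ k ∣ 2 ^ 2 := pow_dvd_pow _ (by omega)
    norm_num at h1
    exact h1.trans hX

/-- `gam` is twice the gcd of `Y` and `Q - 2` -/
theorem K2.gam_two {g1 m1 n0 n2 : ℕ} (hn : n0 = 2 * n2) :
    K2.gam g1 m1 n0 = 2 * Nat.gcd (g1 * n0 - 2) (n2 * (g1 + m1) - 2) := by
  unfold K2.gam
  rw [← Nat.gcd_mul_left]
  congr 1
  rw [hn, Nat.mul_sub]
  congr 1
  ring

/-- Q4L: the classes -/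
theorem KF.q4_cls (h : KF 2 S a' b c A a e f Y φ l p l' p') (hF : S.Full) {N : ℕ}
    (hN : N.Prime) (hv : a + A + a' = N) (he3 : e < 3 * A)
    (D : K2D A b c a e Y g1 m1 n0 A0 b0 hh) (hnrm : KNrm a b A e f)
    (hA2 : (2 : ℤ) ∣ A) (ha2 : (2 : ℤ) ∣ a) (hc2 : ¬ (2 : ℤ) ∣ c) (hL : ∀ w ∈ S.L, Dz 2 w)
    (hA4 : ¬ (4 : ℤ) ∣ A) (hf4 : ¬ (4 : ℤ) ∣ f) (hg2 : ¬ 2 ∣ g1) (hm2 : 2 ∣ m1) (hn4 : 4 ∣ n0) :
    ∃ G : ℕ, 0 < G ∧ K2.gam g1 m1 n0 = 2 * G ∧ (G : ℤ) ∣ Y ∧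
    ∃ (ω0 : ℤ) (ρ : ℕ → ℤ) (ρ2 : ℤ), ∀ x : ℤ,
      2 * 2 * c < A * (ω0 + (2 * (G : ℤ)) * x) → A * (ω0 + (2 * (G : ℤ)) * x) ≤ Y * c →
      ¬ (2 : ℤ) ∣ x - ρ2 →
      ((∀ r ∈ K2.P2 g1 m1 n0, (r : ℤ) ∣ a → ¬ (r : ℤ) ∣ x - ρ r) →
        ∀ s : ℕ, s.Prime → s ≠ 2 → s ∣ g1 + m1 → ¬ s ∣ A0 → (s : ℤ) ∣ Y - 2 * 2 ∧
        (s : ℤ) ∣ ω0 + (2 * (G : ℤ)) * x) ∧
      ((∀ r ∈ K2.P2 g1 m1 n0, ¬ (r : ℤ) ∣ x - ρ r) →
        (∀ r : ℕ, r.Prime → r ≠ 2 → r ∣ g1 + m1 → r ∣ A0) →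
        ∃ (T : PSt) (d : ℤ), SEq S T ∧ IsC T.L T.v d ∧ d ≤ 2) := by
  obtain ⟨ν, hν⟩ := hn4
  have hn2' : n0 = 2 * (2 * ν) := by omega
  obtain ⟨hQ, hQ2⟩ := D.Q_eq hn2'
  obtain ⟨hYn, h3Y⟩ := D.Yn h.Y0
  have hn0 : n0 ≠ 0 := D.n0pos h.Y0
  have hν0 : 0 < ν := by omega
  have hz2 : 3 ≤ g1 + m1 := by have := D.g0; have := D.gm; omega
  have hnz : 2 ≤ (2 * ν) * (g1 + m1) := by nlinarith
  set Q : ℤ := ((2 * ν : ℕ) : ℤ) * (g1 + m1) with hQdef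
  set G : ℕ := Nat.gcd (g1 * n0 - 2) ((2 * ν) * (g1 + m1) - 2) with hG
  have hG0 : 0 < G := Nat.gcd_pos_of_pos_left _ (by omega)
  have hα : Y = (G : ℤ) * (((g1 * n0 - 2) / G : ℕ) : ℤ) := by
    rw [← hYn]
    exact_mod_cast (Nat.mul_div_cancel' (Nat.gcd_dvd_left (g1 * n0 - 2) _)).symm
  have hβ : 1 * (Q - 2) = (G : ℤ) * ((((2 * ν) * (g1 + m1) - 2) / G : ℕ) : ℤ) := by
    have h1 : 1 * (Q - 2) = (((2 * ν) * (g1 + m1) - 2 : ℕ) : ℤ) := by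
      rw [Nat.cast_sub hnz, hQdef]
      push_cast
      ring
    rw [h1]
    exact_mod_cast (Nat.mul_div_cancel' (Nat.gcd_dvd_right (g1 * n0 - 2) _)).symm
  refine ⟨G, hG0, K2.gam_two hn2', ⟨_, hα⟩, ?_⟩
  set α : ℤ := (((g1 * n0 - 2) / G : ℕ) : ℤ) with hαdef
  set β : ℤ := ((((2 * ν) * (g1 + m1) - 2) / G : ℕ) : ℤ) with hβdef
  have hco : IsCoprime α β := by
    rw [hαdef, hβdef]
    exact Nat.isCoprime_iff_coprime.2 (Nat.coprime_div_gcd_div_gcd hG0)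
  have hs : 1 * α ∣ Y := by
    rw [one_mul, hα]
    exact dvd_mul_left _ _
  obtain ⟨ρ, hρ⟩ := h.sel2 hF hN hv he3 D hQ hQ2 hnrm (t0 := 1) (Or.inl rfl) hα hβ hco hs
  obtain ⟨hvz, hφ, -, hb4, -, -⟩ := h.typeL hN hv hA2 ha2 hc2 hL
  obtain ⟨φ', hφ'⟩ := hφ
  have hu2 : ¬ Dz 2 S.u := by
    intro h1
    apply hc2
    have := h1.cr_left p'
    rwa [h.up'] at this
  -- parities
  have h2G : 2 ∣ G := by
    refine Nat.dvd_gcd ?_ ?_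
    · rw [hn2']
      exact Nat.dvd_sub ((dvd_mul_right 2 _).mul_left g1) dvd_rfl
    · rw [mul_assoc]
      exact Nat.dvd_sub (dvd_mul_right 2 _) dvd_rfl
  obtain ⟨G', hG'⟩ := h2G
  have hGc : (G : ℤ) = 2 * (G' : ℤ) := by rw [hG']; push_cast; ring
  obtain ⟨γ, hγ⟩ : ∃ γ : ℤ, (g1 : ℤ) = 2 * γ + 1 := ⟨(g1 : ℤ) / 2, by omega⟩
  obtain ⟨μ, hμ⟩ : ∃ μ : ℤ, (m1 : ℤ) = 2 * μ := by
    obtain ⟨μ, hμ⟩ := hm2
    exact ⟨μ, by rw [hμ]; push_cast; ring⟩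
  have hYν : Y = 4 * ((g1 : ℤ) * ν) - 2 := by
    have := D.hY
    rw [hν] at this
    push_cast at this
    linarith
  have hGα : (G' : ℤ) * α = 2 * ((g1 : ℤ) * ν) - 1 := by
    have h1 : 2 * ((G' : ℤ) * α) = 2 * (2 * ((g1 : ℤ) * ν) - 1) := by
      rw [hGc] at hα
      linarith
    linarith
  have hGβ : (G' : ℤ) * β = (ν : ℤ) * (g1 + m1) - 1 := by
    have h1 : 2 * ((G' : ℤ) * β) = 2 * ((ν : ℤ) * (g1 + m1) - 1) := by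
      rw [hGc, hQdef] at hβ
      push_cast at hβ
      linarith
    linarith
  have hG'o : ¬ (2 : ℤ) ∣ (G' : ℤ) := by
    rintro ⟨u, hu⟩
    rw [hu] at hGα
    have h1 : 2 * (u * α) = 2 * ((g1 : ℤ) * ν) - 1 := by linarith
    omega
  have hαo : ¬ (2 : ℤ) ∣ α := by
    rintro ⟨u, hu⟩
    rw [hu] at hGα
    have h1 : 2 * ((G' : ℤ) * u) = 2 * ((g1 : ℤ) * ν) - 1 := by linarith
    omega
  obtain ⟨G2, hG2⟩ : ∃ u : ℤ, (G' : ℤ) = 2 * u + 1 := ⟨(G' : ℤ) / 2, by omega⟩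
  obtain ⟨α', hα'⟩ : ∃ u : ℤ, α = 2 * u + 1 := ⟨α / 2, by omega⟩
  have hβ' : β = ν - 1 + 2 * ((ν : ℤ) * (γ + μ) - G2 * β) := by
    have h1 := hGβ
    rw [hG2] at h1
    have h2 : (g1 : ℤ) + m1 = 2 * (γ + μ) + 1 := by rw [hγ, hμ]; ring
    rw [h2] at h1
    linear_combination h1
  refine ⟨1 * Y + 2 * φ, ρ, ν + φ', fun x hw1 hw2 hx2 => ?_⟩
  obtain ⟨t', i', k1, k2, k3, k4⟩ := hρ x
  have hcop : IsCoprime (1 + 2 * t') 2 := ⟨1, -t', by ring⟩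
  -- `W`
  set w : ℤ := (g1 : ℤ) * ν + i' * (1 + g1 * ν) + t' * (2 * (g1 * ν) - 1) + φ' with hw
  have hW : 4 * w = 2 * (1 + (1 * i') * (1 + 2)) + ((1 + 2 * t') + 1 * i') * Y + 2 * φ := by
    rw [hw, hYν, hφ']; ring
  have hWx : (x - (ν + φ')) + w = 2 * (α' * t' + i' - ((ν : ℤ) * (γ + μ) - G2 * β) * i' +
      γ * ν + γ * ν * i' + g1 * ν * t') := by
    rw [← k1, hw]
    linear_combination t' * hα' - i' * hβ' + (ν + ν * i') * hγ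
  have hw2o : ¬ (2 : ℤ) ∣ w := fun h1 => hx2 (by omega)
  have hW4 : (4 : ℤ) ∣ 4 * w := dvd_mul_right _ _
  have hW8 : ¬ (8 : ℤ) ∣ 4 * w := by omega
  have htwo : ∀ κ : ℤ, IsC S.L (xvK S l' p' 2 (1 + (1 * i') * (1 + 2)) ((1 + 2 * t') + 1 * i')) κ →
      (4 : ℤ) ∣ κ ∧ ¬ (8 : ℤ) ∣ κ ∧ (4 : ℤ) ∣ A + 2 * c := fun κ hκ =>
    h.typeQ4L hN hv hA2 ha2 hc2 hL hA4 hf4 hW hκ hW4 hW8
  have hgood : (∀ r ∈ K2.P2 g1 m1 n0, (r : ℤ) ∣ a → ¬ (r : ℤ) ∣ x - ρ r) →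
      ∀ κ : ℤ, IsC S.L (xvK S l' p' 2 (1 + (1 * i') * (1 + 2)) ((1 + 2 * t') + 1 * i')) κ →
      ∀ r : ℕ, r.Prime → (r : ℤ) ∣ a → ∀ k : ℕ, (r : ℤ) ^ k ∣ κ → (r : ℤ) ^ k ∣ A + 2 * c := by
    intro hx κ hκ r hr hra k hk
    by_cases hr2 : r = 2
    · subst hr2
      obtain ⟨-, j2, j3⟩ := htwo κ hκ
      exact_mod_cast pow_two_of j2 j3 (by exact_mod_cast hk)
    · exact pow_of_not (k3 hx κ hκ r hr hr2 hra) hk
  refine ⟨fun hx s hs1 hs2 hsz hsA => ?_, fun hx hz => ?_⟩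
  · obtain ⟨j1, j2⟩ := D.s_of hs1 hs2 hsz hsA
    exact h.end_one hN hv (c_lt h he3) hQ (by norm_num) hcop k2 hw1 hw2 (hgood hx) hs1 j1 j2
  · refine h.end_two hN hv hQ (by norm_num) hcop k2 hw1 hw2 (hgood (fun r hr _ => hx r hr))
      (fun κ hκ r hr hk hra D' hD' => ?_) (k4 hx (D.cA_of hz)) (h.no_four hc2)
    by_cases hr2 : r = 2
    · subst hr2
      right
      have h4 : (4 : ℤ) ∣ 2 * (1 + (1 * i') * (1 + 2)) + ((1 + 2 * t') + 1 * i') * Y := by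
        have e1 : 2 * (1 + (1 * i') * (1 + 2)) + ((1 + 2 * t') + 1 * i') * Y =
            4 * w - 4 * φ' := by rw [hW, hφ']; ring
        rw [e1]; exact dvd_sub hW4 (dvd_mul_right _ _)
      refine ⟨by exact_mod_cast hu2, ?_, by exact_mod_cast hL⟩
      have := h.dz_xv (n := 2) (by norm_num) hvz h4
      exact_mod_cast this
    · exact absurd hk (k3 (fun r hr _ => hx r hr) κ hκ r hr hr2 hra)

/-- a V-frame of a state with `L` even has `L` even -/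
theorem KF.vst_L (h : KF 2 S a' b c A a e f Y φ l p l' p') (hL : ∀ w ∈ S.L, Dz 2 w)
    (hvz : Dz 2 S.v) (j : ℤ) : ∀ w ∈ (vst S l p j).L, Dz 2 w := by
  have hl : Dz 2 l := hL l (by rw [h.L_eq]; exact mem_lat.2 ⟨1, 0, by module⟩)
  have hp : Dz 2 p := hL p (by rw [h.L_eq]; exact mem_lat.2 ⟨0, 1, by module⟩)
  intro w hw
  exact dz_lat.2 ⟨hl, hp.sub (hvz.smul j)⟩ w hw

/-- Q4L: the right side -/
theorem KF.q4_right (h : KF 2 S a' b c A a e f Y φ l p l' p') (hF : S.Full) {N : ℕ}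
    (hN : N.Prime) (hv : a + A + a' = N) (he3 : e < 3 * A)
    (D : K2D A b c a e Y g1 m1 n0 A0 b0 hh)
    (hA2 : (2 : ℤ) ∣ A) (ha2 : (2 : ℤ) ∣ a) (hc2 : ¬ (2 : ℤ) ∣ c) (hL : ∀ w ∈ S.L, Dz 2 w)
    (hA4 : ¬ (4 : ℤ) ∣ A) (hg2 : ¬ 2 ∣ g1) (hm2 : 2 ∣ m1) (hn4 : 4 ∣ n0)
    (hnum : ∀ ez : ℕ, ez ≤ 1 →
      (ez = 1 → ∃ zp : ℕ, 1 < zp ∧ ¬ 2 ∣ zp ∧ zp ∣ g1 + m1 ∧ zp ∣ g1 * n0 - 6 ∧
        Nat.Coprime zp A0) →
      2 ^ (K2.k n0 + ez + 1) * (g1 * (2 * K2.gam g1 m1 n0)) ≤ (g1 * n0 - 6) * (g1 + m1)) :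
    ∃ (T : PSt) (d : ℤ), SEq S T ∧ IsC T.L T.v d ∧ d ≤ 2 := by
  obtain ⟨j0, φ0, l0', p0', h0, hf0, hL0⟩ := h.exists_f hN hv hA2 ha2 hc2 hL hA4
  have hS0 := h.vseq j0
  have hF0 := hS0.full.1 hF
  obtain ⟨hvz, -, ha4, hb4, -, -⟩ := h0.typeL hN hv hA2 ha2 hc2 hL0
  obtain ⟨j, φ1, l1', p1', hj, h1, hnrm⟩ := h0.norm40 hN hv he3 D 1 0 (fun _ => by norm_num)
  have hSS := hS0.trans (h0.vseq j)
  have hF1 := (h0.vseq j).full.1 hF0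
  have hL1 := h0.vst_L hL0 hvz j
  have hf1 : ¬ (4 : ℤ) ∣ f + j0 * (a + b - A) + j * (a + b - A) := by
    intro h2
    apply hf0
    have h3 : (4 : ℤ) ∣ j * (a + b - A) := by
      have h4 : (2 : ℤ) ∣ j := by simpa using hj
      have h5 : (2 : ℤ) ∣ a + b - A := by omega
      have := mul_dvd_mul h4 h5
      norm_num at this
      exact this
    exact (dvd_add_left h3).1 h2
  obtain ⟨G, hG0, hGg, hGY, ω0, ρ, ρ2, hcls⟩ := h1.q4_cls hF1 hN hv he3 D hnrm hA2 ha2 hc2 hL1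
    hA4 hf1 hg2 hm2 hn4
  have hA0 := h.A0
  have hg0 : (0 : ℤ) < 2 * (G : ℤ) := by
    have : (0 : ℤ) < G := by exact_mod_cast hG0
    linarith
  have hcard : (K2.P2 g1 m1 n0).card ≤ K2.k n0 + 0 :=
    K2.P2_card fun h2 => by
      exfalso
      exact h2.2.1 ((Nat.prime_dvd_prime_iff_eq Nat.prime_two h2.1).1 hm2).symm
  have hfin : ∀ {u : ℕ}, 2 ^ (K2.k n0 + u + 1) * (g1 * (2 * K2.gam g1 m1 n0)) ≤
      (g1 * n0 - 6) * (g1 + m1) →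
      (2 : ℤ) ^ ((K2.P2 g1 m1 n0).card + u + 1) * (A * (2 * (G : ℤ))) ≤ Y * c - 2 * 2 * c := by
    intro u h2
    have h3 := (D.win40 (n := 2) (G := G) (by norm_num) hG0
      (C' := (K2.P2 g1 m1 n0).card + u + 1) (by omega) (C := K2.k n0 + u + 1) (by
        rw [hGg] at h2
        refine le_trans (le_of_eq ?_) h2
        ring)).1
    exact_mod_cast h3
  by_cases hz : ∀ r : ℕ, r.Prime → r ≠ 2 → r ∣ g1 + m1 → r ∣ A0
  · -- END 2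
    have hR := hnum 0 (by norm_num) (by norm_num)
    obtain ⟨x, ⟨hx1, hx2⟩, hxP, -, hx4⟩ := window_cls (K2.P2 g1 m1 n0) (fun r hr => K2.P2_odd hr)
      ρ Nat.prime_three (by norm_num) 0 ρ2 (u := 0) (v := 1) (w := ω0) (lo := 2 * 2 * c)
      (hi := Y * c) hA0 hg0 (hfin (u := 0) hR)
    obtain ⟨T, d, hT1, hT2, hT3⟩ := (hcls x hx1 hx2 (hx4 rfl)).2 hxP hz
    exact ⟨T, d, hSS.trans hT1, hT2, hT3⟩
  · -- END 1
    exfalso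
    push Not at hz
    obtain ⟨s, hs1, hs2, hsz, hsA⟩ := hz
    set ez : ℕ := if (s : ℤ) ∣ Y - 2 * 2 then 1 else 0 with hez
    have hez1 : ez ≤ 1 := by rw [hez]; split_ifs <;> omega
    have hezf : ez = 1 → ∃ zp : ℕ, 1 < zp ∧ ¬ 2 ∣ zp ∧ zp ∣ g1 + m1 ∧ zp ∣ g1 * n0 - 6 ∧
        Nat.Coprime zp A0 := by
      intro h2
      rw [hez] at h2
      split_ifs at h2 with h3
      refine ⟨s, hs1.one_lt, fun h4 => ?_, hsz, ?_, ?_⟩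
      · exact hs2 ((Nat.prime_dvd_prime_iff_eq Nat.prime_two hs1).1 h4).symm
      · exact D.dvd_nat (n := 2) (by exact_mod_cast h3)
      · exact (Nat.Prime.coprime_iff_not_dvd hs1).2 hsA
    have hR := hnum ez hez1 hezf
    obtain ⟨σ, hσ⟩ : ∃ σ : ℤ, (s : ℤ) ∣ Y - 2 * 2 → ∀ x : ℤ,
        (s : ℤ) ∣ ω0 + (2 * (G : ℤ)) * x → (s : ℤ) ∣ x - σ := by
      by_cases h2 : (s : ℤ) ∣ Y - 2 * 2
      · obtain ⟨q, hq⟩ := hGY
        obtain ⟨σ, hσ⟩ := K2D.cls_s (n := 2) (Y := Y) (g := 2 * (G : ℤ)) (α := q) (ω0 := ω0)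
          (by rw [hq]; ring) hs1 hs2 (odd_not_two hs1 hs2) h2
        exact ⟨σ, fun _ => hσ⟩
      · exact ⟨0, fun h3 => absurd h3 h2⟩
    obtain ⟨x, ⟨hx1, hx2⟩, hxP, hxs, hx4⟩ := window_cls (K2.P2 g1 m1 n0)
      (fun r hr => K2.P2_odd hr) ρ hs1 hs2 σ ρ2 (u := ez) (v := 1) (w := ω0) (lo := 2 * 2 * c)
      (hi := Y * c) hA0 hg0 (hfin (u := ez) hR)
    obtain ⟨k1, k2⟩ := (hcls x hx1 hx2 (hx4 rfl)).1 (fun r hr _ => hxP r hr) s hs1 hs2 hsz hsA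
    exact hxs (by rw [hez, if_pos k1]) (hσ k1 x k2)

end Pool.Agent.H4G
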