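import Pool.Agent.H4G.Arith.KFr
import Pool.Agent.H4G.Arith.ECont
import Pool.Agent.H4G.Arith.EExist

/-!
# `K = 2`: the prime 2 (helper40's page K2, section 2; typed by helper5)
-/

set_option autoImplicit false

namespace Pool.Agent.H4G

/-! ## Vectors modulo 2 -/

theorem two_par_aux : ∀ a b c d : ZMod 2, a * d - b * c = 0 → ¬ (a = 0 ∧ b = 0) →
    ¬ (c = 0 ∧ d = 0) → a - c = 0 ∧ b - d = 0 := by decide

theorem dz_two_iff {x : Z2} : Dz 2 x ↔ ((x.1 : ℤ) : ZMod 2) = 0 ∧ ((x.2 : ℤ) : ZMod 2) = 0 := by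
  rw [dz_coord]
  have h1 : ∀ z : ℤ, (2 : ℤ) ∣ z ↔ ((z : ℤ) : ZMod 2) = 0 := fun z => by
    have := ZMod.intCast_zmod_eq_zero_iff_dvd z 2
    push_cast at this
    exact this.symm
  rw [h1, h1]

/-- two nonzero vectors modulo 2 with even product agree modulo 2 -/
theorem two_par {x y : Z2} (h : (2 : ℤ) ∣ cr x y) (hx : ¬ Dz 2 x) (hy : ¬ Dz 2 y) :
    Dz 2 (x - y) := by
  rw [dz_two_iff] at hx hy ⊢
  have h1 : ((cr x y : ℤ) : ZMod 2) = 0 := by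
    have := (ZMod.intCast_zmod_eq_zero_iff_dvd (cr x y) 2)
    push_cast at this
    exact this.2 h
  have h2 := two_par_aux (x.1 : ZMod 2) (x.2 : ZMod 2) (y.1 : ZMod 2) (y.2 : ZMod 2) (by
    unfold cr at h1
    push_cast at h1
    linear_combination h1) hx hy
  simpa using h2

/-- congruent vectors have congruent products -/
theorem Dz.cr_sub {d : ℤ} {x y : Z2} (h : Dz d (x - y)) (z : Z2) : d ∣ cr x z - cr y z := by
  rw [← cr_sub_left]; exact h.cr_left z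

theorem two_mul_of {x y : ℤ} (h : (2 : ℤ) ∣ x * y) : (2 : ℤ) ∣ x ∨ (2 : ℤ) ∣ y :=
  Int.prime_two.dvd_or_dvd h

theorem odd_cancel {x y : ℤ} {k : ℕ} (hx : ¬ (2 : ℤ) ∣ x) (h : (2 : ℤ) ^ k ∣ x * y) :
    (2 : ℤ) ^ k ∣ y := by
  have hc : IsCoprime ((2 : ℤ) ^ k) x := by
    have h2 : IsCoprime (2 : ℤ) x := (Int.prime_two.coprime_iff_not_dvd).2 hx
    exact h2.pow_left
  exact hc.dvd_of_dvd_mul_left h

/-! ## H-rigidity when all classes are allowed -/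

/-- H-rigidity at a prime which does not divide `a'` -/
theorem ExtB.hrigAt_mulo {S T : PSt} {a' b c : ℤ} (h : ExtB S a' b c) (hST : SEq S T)
    (haT : IsArea T.L' a') (hcT : Con1 T.L') (hT : IsC T.L T.v b) {g : ℤ}
    (hg : IsC T.L' T.u g) {q : ℕ} (hq : q.Prime) (hq2 : ¬ (q : ℤ) ∣ a') {k : ℕ}
    (hk : (q : ℤ) ^ k ∣ b) {w : Z2} (hw : w ∈ T.L) :
    (q : ℤ) ^ k * g ∣ (g + a') * cr T.u w := by
  obtain ⟨l, p, l', p', ad⟩ := exists_Ad hST.ok'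
  have e1 : cr T.u p' = g := ad.isC'.unique hg
  have e2 : cr l' p' = a' := ad.isArea'.unique haT
  obtain ⟨h1, h2⟩ := h.hrigAt hST haT hcT hT ad hq (by
    refine ⟨1, prime_not_dvd_one hq, ?_⟩
    rintro ⟨g1, _⟩
    apply hq2
    rw [← e2]
    exact g1.cr_left p') hk
  have e4 : (q : ℤ) ^ k ∣ cr (T.u + l') w := by
    rw [ad.hL] at hw
    obtain ⟨m, n, e⟩ := mem_lat.1 hw
    rw [← e, cr_add_right, cr_smul_right, cr_smul_right]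
    exact dvd_add (h1.mul_left _) (h2.mul_left _)
  have e6 := ad.cr_W w
  rw [e1, e2] at e6
  rw [← e6]
  exact mul_dvd_mul_right e4 g

variable {K : ℤ} {S : PSt} {a' b c A a e f Y φ : ℤ} {l p l' p' : Z2}

/-- H-rigidity in the V-twisted states at a prime which does not divide `a'` -/
theorem KF.hrigV' (h : KF K S a' b c A a e f Y φ l p l' p') {j g : ℤ}
    (hg : g = Int.gcd Y (1 + j * φ)) {q : ℕ} (hq : q.Prime) (h2 : ¬ (q : ℤ) ∣ a')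
    {k : ℕ} (hk : (q : ℤ) ^ k ∣ b) :
    K * ((q : ℤ) ^ k * g) ∣ (K * g + Y) * e ∧
      K * ((q : ℤ) ^ k * g) ∣ (K * g + Y) * (f + j * (a + b - A)) := by
  have hc0 := h.c0
  have h3 := h.vst_c j
  rw [← hg] at h3
  have key : ∀ w ∈ (vst S l p j).L,
      K * ((q : ℤ) ^ k * g) ∣ (K * g + Y) * cr (vst S l p j).u w := by
    intro w hw
    have h4 := h.ext.hrigAt_mulo (h.vseq j) h.ext.ha' h.ext.con (h.vst_b j) h3 hq h2 hk hw
    have h5 := mul_dvd_mul_left K h4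
    have e1 : K * ((q : ℤ) ^ k * (c * g)) = c * (K * ((q : ℤ) ^ k * g)) := by ring
    have e2 : K * ((c * g + a') * cr (vst S l p j).u w) =
        c * ((K * g + Y) * cr (vst S l p j).u w) := by
      linear_combination (cr (vst S l p j).u w) * h.hy
    rw [e1, e2] at h5
    exact (mul_dvd_mul_iff_left hc0.ne').1 h5
  constructor
  · have := key l (mem_lat.2 ⟨1, 0, by module⟩)
    rwa [h.vst_e] at this
  · have := key (p - j • S.v) (mem_lat.2 ⟨0, 1, by module⟩)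
    rwa [h.vst_f] at this

/-- the volume is odd -/
theorem KF.odd_N (h : KF K S a' b c A a e f Y φ l p l' p') {N : ℕ} (hN : N.Prime)
    (hv : a + A + a' = N) : ¬ (2 : ℤ) ∣ a + A + a' := by
  intro h1
  rw [hv] at h1
  have h2 : 2 ∣ N := by exact_mod_cast h1
  have h3 := (Nat.prime_dvd_prime_iff_eq Nat.prime_two hN).1 h2
  have h4 := h.a0
  have h5 := h.A0
  have h6 := h.a'0
  have h7 : ((2 : ℕ) : ℤ) = (N : ℤ) := by rw [h3]
  push_cast at h7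
  omega

/-! ## Type P: `A` odd, `a` even -/

/-- the parities of type P -/
theorem KF.typeP (h : KF 2 S a' b c A a e f Y φ l p l' p') {N : ℕ} (hN : N.Prime)
    (hv : a + A + a' = N) (hA2 : ¬ (2 : ℤ) ∣ A) (ha2 : (2 : ℤ) ∣ a) :
    ¬ (2 : ℤ) ∣ e ∧ (2 : ℤ) ∣ b ∧ (2 : ℤ) ∣ c ∧ (2 : ℤ) ∣ a' ∧ (2 : ℤ) ∣ Y ∧ (2 : ℤ) ∣ φ := by
  have hodd := h.odd_N hN hv
  have hc := h.hc
  have he : ¬ (2 : ℤ) ∣ e := by omega
  have hb : (2 : ℤ) ∣ b := by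
    have h1 : (2 : ℤ) ∣ e * b := by rw [← h.aA]; exact ha2.mul_right _
    exact (two_mul_of h1).resolve_left he
  have hY : (2 : ℤ) ∣ Y := by
    have h1 : (2 : ℤ) ∣ Y * A := ⟨_, h.l'v.symm⟩
    exact (two_mul_of h1).resolve_right hA2
  have hφ : (2 : ℤ) ∣ φ := by
    have h1 : (2 : ℤ) ∣ φ * A := ⟨_, h.p'v.symm⟩
    exact (two_mul_of h1).resolve_right hA2
  have ha' : (2 : ℤ) ∣ a' := by omega
  refine ⟨he, hb, ?_, ha', hY, hφ⟩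
  by_contra hc2
  obtain ⟨h1, -⟩ := h.hrig Nat.prime_two (h.alw_odd Nat.prime_two (Or.inr hc2)) (k := 1)
    (by simpa using hb)
  have h2 : (2 : ℤ) ^ 2 ∣ e * (2 + Y) := by
    have e1 : (2 : ℤ) * ((2 : ℕ) : ℤ) ^ 1 = 2 ^ 2 := by norm_num
    rw [e1] at h1
    rwa [mul_comm]
  have h3 := odd_cancel he h2
  obtain ⟨x, hx⟩ := ha'
  have h4 : (2 : ℤ) ^ 2 ∣ c * Y := ⟨x, by have := h.hy; rw [hx] at this; linarith⟩
  have h5 := odd_cancel hc2 h4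
  obtain ⟨y, hy⟩ := h3
  obtain ⟨z, hz⟩ := h5
  omega

/-- type P: the left gap after an exit is odd if `4` does not divide `W` -/
theorem KF.kap_odd_of_e (h : KF 2 S a' b c A a e f Y φ l p l' p') (he : ¬ (2 : ℤ) ∣ e)
    {n q τ W κ : ℤ} (hW : W = 2 * q + τ * Y + n * φ) (hκ : IsC S.L (xvK S l' p' n q τ) κ)
    (h4 : ¬ (4 : ℤ) ∣ W) : ¬ (2 : ℤ) ∣ κ := by
  intro h2
  obtain ⟨h3, -⟩ := (h.xgap hW hκ).1 h2
  apply h4
  have h5 : (2 : ℤ) ^ 2 ∣ e * W := by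
    have e1 : (2 : ℤ) * 2 = 2 ^ 2 := by norm_num
    rw [e1] at h3
    rwa [mul_comm]
  have := odd_cancel he h5
  norm_num at this
  exact this

/-- P1: `Y = 2 mod 4`, odd level: one class of `τ` modulo 2 gives an odd left gap -/
theorem KF.typeP1 (h : KF 2 S a' b c A a e f Y φ l p l' p') {N : ℕ} (hN : N.Prime)
    (hv : a + A + a' = N) (hA2 : ¬ (2 : ℤ) ∣ A) (ha2 : (2 : ℤ) ∣ a) (hY4 : ¬ (4 : ℤ) ∣ Y) :
    ∀ n q τ κ : ℤ, ¬ (2 : ℤ) ∣ n → ¬ (2 : ℤ) ∣ q → (4 : ℤ) ∣ 2 * τ + φ →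
      IsC S.L (xvK S l' p' n q τ) κ → ¬ (2 : ℤ) ∣ κ := by
  obtain ⟨he, -, -, -, hY, hφ⟩ := h.typeP hN hv hA2 ha2
  intro n q τ κ hn hq hτ hκ
  refine h.kap_odd_of_e he (W := 2 * q + τ * Y + n * φ) rfl hκ ?_
  obtain ⟨φ1, hφ1⟩ := hφ
  obtain ⟨n1, hn1⟩ : ∃ n1, n = 2 * n1 + 1 := ⟨n / 2, by omega⟩
  have e0 : n * φ = φ + 4 * (n1 * φ1) := by rw [hn1, hφ1]; ring
  obtain ⟨Y1, hY1⟩ := hY
  have hY1o : ¬ (2 : ℤ) ∣ Y1 := by omega
  obtain ⟨x, hx⟩ := hτ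
  intro h4
  obtain ⟨y, hy⟩ := h4
  have e1 : τ * Y = 2 * (τ * Y1) := by rw [hY1]; ring
  rw [e1, e0] at hy
  -- `q + τ (Y1 - 1)` even
  have h5 : (2 : ℤ) ∣ Y1 - 1 := by omega
  obtain ⟨z, hz⟩ := h5
  have e2 : τ * Y1 = τ + 2 * (τ * z) := by
    have : Y1 = 1 + 2 * z := by omega
    rw [this]; ring
  rw [e2] at hy
  omega

/-! ## `A` and `a` even -/

theorem KF.typeQ0 (h : KF 2 S a' b c A a e f Y φ l p l' p') {N : ℕ} (hN : N.Prime)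
    (hv : a + A + a' = N) (hA2 : (2 : ℤ) ∣ A) (ha2 : (2 : ℤ) ∣ a) :
    (2 : ℤ) ∣ e ∧ ¬ (2 : ℤ) ∣ a' ∧
      ((¬ (2 : ℤ) ∣ c ∧ (2 : ℤ) ∣ Y ∧ ¬ (4 : ℤ) ∣ Y) ∨
        ((2 : ℤ) ∣ c ∧ ¬ (4 : ℤ) ∣ c ∧ ¬ (2 : ℤ) ∣ Y)) := by
  have hodd := h.odd_N hN hv
  have hc := h.hc
  have hy := h.hy
  have ha' : ¬ (2 : ℤ) ∣ a' := by omega
  refine ⟨by omega, ha', ?_⟩
  by_cases hc2 : (2 : ℤ) ∣ c
  · right
    obtain ⟨c1, hc1⟩ := hc2
    have e1 : a' = Y * c1 := by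
      rw [hc1] at hy
      linarith
    have h1 : ¬ (2 : ℤ) ∣ c1 := fun h2 => ha' (by rw [e1]; exact h2.mul_left _)
    have h2 : ¬ (2 : ℤ) ∣ Y := fun h2 => ha' (by rw [e1]; exact h2.mul_right _)
    exact ⟨⟨c1, hc1⟩, by omega, h2⟩
  · left
    have h1 : (2 : ℤ) ∣ Y := by
      have h2 : (2 : ℤ) ∣ Y * c := ⟨a', hy.symm⟩
      exact (two_mul_of h2).resolve_right hc2
    obtain ⟨Y1, hY1⟩ := h1
    have e1 : a' = Y1 * c := by
      rw [hY1] at hy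
      linarith
    have h2 : ¬ (2 : ℤ) ∣ Y1 := fun h2 => ha' (by rw [e1]; exact h2.mul_right _)
    exact ⟨hc2, ⟨Y1, hY1⟩, by omega⟩

/-- Q6: `c` even -/
theorem KF.typeQ6 (h : KF 2 S a' b c A a e f Y φ l p l' p') {N : ℕ} (hN : N.Prime)
    (hv : a + A + a' = N) (hA2 : (2 : ℤ) ∣ A) (ha2 : (2 : ℤ) ∣ a) (hc2 : (2 : ℤ) ∣ c) :
    (4 : ℤ) ∣ A ∧ ¬ (8 : ℤ) ∣ A ∧ (4 : ℤ) ∣ b ∧ ¬ (8 : ℤ) ∣ b ∧ (8 : ℤ) ∣ a ∧ (8 : ℤ) ∣ e ∧
      (8 : ℤ) ∣ f ∧ Dz 2 S.u ∧ Dz 2 S.v := by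
  obtain ⟨he2, ha', hcY⟩ := h.typeQ0 hN hv hA2 ha2
  obtain ⟨-, hc4, hY⟩ : (2 : ℤ) ∣ c ∧ ¬ (4 : ℤ) ∣ c ∧ ¬ (2 : ℤ) ∣ Y := by
    rcases hcY with h1 | h1
    · exact absurd hc2 h1.1
    · exact h1
  -- H-rigidity at 2 in all V-frames
  have hr : ∀ k : ℕ, (2 : ℤ) ^ k ∣ b → ∀ j : ℤ, (2 : ℤ) ^ (k + 1) ∣ e ∧
      (2 : ℤ) ^ (k + 1) ∣ f + j * (a + b - A) := by
    intro k hk j
    obtain ⟨h1, h2⟩ := h.hrigV' (j := j) rfl Nat.prime_two (by exact_mod_cast ha')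
      (k := k) (by exact_mod_cast hk)
    set g : ℤ := (Int.gcd Y (1 + j * φ) : ℤ) with hg
    have hgo : ¬ (2 : ℤ) ∣ 2 * g + Y := by omega
    have e1 : (2 : ℤ) ^ (k + 1) ∣ 2 * (((2 : ℕ) : ℤ) ^ k * g) := ⟨g, by push_cast; ring⟩
    exact ⟨odd_cancel hgo (e1.trans h1), odd_cancel hgo (e1.trans h2)⟩
  have hD : ∀ k : ℕ, (2 : ℤ) ^ k ∣ b → (2 : ℤ) ^ (k + 1) ∣ f ∧ (2 : ℤ) ^ (k + 1) ∣ a + b - A := by
    intro k hk
    have h1 := (hr k hk 0).2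
    have h2 := (hr k hk 1).2
    rw [zero_mul, add_zero] at h1
    refine ⟨h1, ?_⟩
    have := dvd_sub h2 h1
    rwa [one_mul, add_sub_cancel_left] at this
  have hc := h.hc
  have haA := h.aA
  obtain ⟨c1, hc1⟩ := hc2
  have hc1o : ¬ (2 : ℤ) ∣ c1 := by omega
  have s0 := (hD 0 (by simp)).2
  norm_num at s0
  have hb2 : (2 : ℤ) ∣ b := by omega
  have s1 := hD 1 (by simpa using hb2)
  have s1e := (hr 1 (by simpa using hb2) 0).1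
  norm_num at s1 s1e
  have hA4 : (4 : ℤ) ∣ A := by omega
  have hb4 : (4 : ℤ) ∣ b := by
    by_contra hb4
    obtain ⟨b1, hb1⟩ := hb2
    have hb1o : ¬ (2 : ℤ) ∣ b1 := by omega
    obtain ⟨A1, hA1⟩ := hA4
    obtain ⟨e1, he1⟩ := s1e
    have ha4 : ¬ (4 : ℤ) ∣ a := by omega
    obtain ⟨a1, ha1⟩ := ha2
    have ha1o : ¬ (2 : ℤ) ∣ a1 := by omega
    have h1 : a1 * A1 = e1 * b1 := by
      rw [ha1, hA1, he1, hb1] at haA
      linarith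
    have h2 : A1 + e1 = c1 := by
      rw [hA1, he1, hc1] at hc
      linarith
    apply hc1o
    rw [← h2]
    by_cases h3 : (2 : ℤ) ∣ A1
    · have h4 : (2 : ℤ) ∣ e1 * b1 := by rw [← h1]; exact h3.mul_left _
      exact dvd_add h3 ((two_mul_of h4).resolve_right hb1o)
    · have h4 : ¬ (2 : ℤ) ∣ e1 := by
        intro h5
        have h6 : (2 : ℤ) ∣ a1 * A1 := by rw [h1]; exact h5.mul_right _
        rcases two_mul_of h6 with h7 | h7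
        · exact ha1o h7
        · exact h3 h7
      omega
  have s2 := hD 2 (by norm_num; exact hb4)
  have s2e := (hr 2 (by norm_num; exact hb4) 0).1
  norm_num at s2 s2e
  have hA8 : ¬ (8 : ℤ) ∣ A := by omega
  obtain ⟨A1, hA1⟩ := hA4
  have hA1o : ¬ (2 : ℤ) ∣ A1 := by omega
  obtain ⟨b1, hb1⟩ := hb4
  obtain ⟨e1, he1⟩ := s2e
  have ha8 : (8 : ℤ) ∣ a := by
    have h1 : A1 * a = 8 * (e1 * b1) := by
      rw [hA1, he1, hb1] at haA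
      linarith
    have h2 : (2 : ℤ) ^ 3 ∣ A1 * a := ⟨e1 * b1, by rw [h1]; norm_num⟩
    have := odd_cancel hA1o h2
    norm_num at this
    exact this
  have hb8 : ¬ (8 : ℤ) ∣ b := by omega
  have hu : Dz 2 S.u := by
    have h1 : Dz ((2 : ℕ) : ℤ) (Y • S.u) := by
      rw [← h.hl']; exact ⟨l', by push_cast; rfl⟩
    exact (h1.mul_prime Nat.prime_two).resolve_left (by exact_mod_cast hY)
  have hV : Dz 2 (S.v + l) := by
    have h1 : Dz 2 ((2 : ℤ) • p') := ⟨p', rfl⟩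
    rw [h.hp'] at h1
    have := h1.sub (hu.smul φ)
    rwa [add_sub_cancel_left] at this
  have hvv : Dz 2 S.v := by
    have h1 := h.Aw
    rw [hA1, hc1] at h1
    have h2 : A1 • (S.v + l) = c1 • S.v := by
      refine smul_inj (show (4 : ℤ) ≠ 0 by norm_num) ?_
      have e2 : (4 : ℤ) • A1 • (S.v + l) = (4 * A1) • (S.v + l) := by module
      rw [e2, h1]; module
    have h3 : Dz ((2 : ℕ) : ℤ) (c1 • S.v) := by
      rw [← h2]; exact hV.smul A1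
    exact (h3.mul_prime Nat.prime_two).resolve_left (by exact_mod_cast hc1o)
  exact ⟨⟨A1, hA1⟩, hA8, ⟨b1, hb1⟩, hb8, ha8, ⟨e1, he1⟩, s2.1, hu, hvv⟩

/-- Q6: at exits of odd level the powers of 2 in the left gap divide `A + n c` -/
theorem KF.typeQ6_kap (h : KF 2 S a' b c A a e f Y φ l p l' p') {N : ℕ} (hN : N.Prime)
    (hv : a + A + a' = N) (hA2 : (2 : ℤ) ∣ A) (ha2 : (2 : ℤ) ∣ a) (hc2 : (2 : ℤ) ∣ c)
    {n q τ κ : ℤ} (hn : ¬ (2 : ℤ) ∣ n) (hκ : IsC S.L (xvK S l' p' n q τ) κ) :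
    (2 : ℤ) ∣ κ ∧ ¬ (4 : ℤ) ∣ κ ∧ (2 : ℤ) ∣ A + n * c ∧ ¬ (4 : ℤ) ∣ A + n * c := by
  obtain ⟨h1, h2, h3, h4, h5, h6, h7, h8, h9⟩ := h.typeQ6 hN hv hA2 ha2 hc2
  obtain ⟨-, -, hcY⟩ := h.typeQ0 hN hv hA2 ha2
  have hc4 : ¬ (4 : ℤ) ∣ c := by
    rcases hcY with k1 | k1
    · exact absurd hc2 k1.1
    · exact k1.2.1
  obtain ⟨b1, hb1⟩ := h3
  obtain ⟨a1, ha1⟩ := h5
  obtain ⟨e1, he1⟩ := h6
  obtain ⟨f1, hf1⟩ := h7
  obtain ⟨c1, hc1⟩ := hc2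
  obtain ⟨n1, hn1⟩ : ∃ n1, n = 2 * n1 + 1 := ⟨n / 2, by omega⟩
  have hb1o : ¬ (2 : ℤ) ∣ b1 := by omega
  refine ⟨?_, ?_, ?_, ?_⟩
  · rw [h.xgap (W := 2 * q + τ * Y + n * φ) rfl hκ]
    refine ⟨⟨(2 * q + τ * Y + n * φ) * (2 * e1), by rw [he1]; ring⟩,
      ⟨(n + 2) * b1 + n * (2 * a1) - (2 * q + τ * Y + n * φ) * (2 * f1), by
        rw [hb1, ha1, hf1]; ring⟩⟩
  · intro k1
    obtain ⟨-, k2⟩ := (h.xgap (W := 2 * q + τ * Y + n * φ) rfl hκ).1 k1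
    have k3 : (8 : ℤ) ∣ (n + 2) * b := by
      have e2 : (n + 2) * b + n * a - (2 * q + τ * Y + n * φ) * f = (n + 2) * b +
        8 * (n * a1 - (2 * q + τ * Y + n * φ) * f1) := by rw [ha1, hf1]; ring
      rw [e2] at k2
      have k4 : (8 : ℤ) ∣ 8 * (n * a1 - (2 * q + τ * Y + n * φ) * f1) := dvd_mul_right _ _
      have k5 : (8 : ℤ) ∣ 2 * 4 := by norm_num
      have k6 : (2 : ℤ) * 4 = 8 := by norm_num
      rw [k6] at k2
      exact (dvd_add_left k4).1 k2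
    have k4 : (2 : ℤ) ^ 3 ∣ (n + 2) * b := by norm_num; exact k3
    have := odd_cancel (by omega) k4
    norm_num at this
    exact h4 this
  · rw [hc1]; exact dvd_add hA2 ⟨n * c1, by ring⟩
  · intro k1
    have k2 := dvd_sub k1 h1
    rw [add_sub_cancel_left] at k2
    have k3 : (2 : ℤ) ^ 2 ∣ n * c := by norm_num; exact k2
    have := odd_cancel hn k3
    norm_num at this
    exact hc4 this

/-- Q6: the condition on `D` -/
theorem KF.typeQ6_D (h : KF 2 S a' b c A a e f Y φ l p l' p') {N : ℕ} (hN : N.Prime)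
    (hv : a + A + a' = N) (hA2 : (2 : ℤ) ∣ A) (ha2 : (2 : ℤ) ∣ a) (hc2 : (2 : ℤ) ∣ c)
    {n q τ κ : ℤ} (hn : ¬ (2 : ℤ) ∣ n) (hκ : IsC S.L (xvK S l' p' n q τ) κ) {D : Z2}
    (hD : κ • D = (a + (A + n * c)) • xvK S l' p' n q τ) : ¬ Dz 2 D := by
  obtain ⟨h1, h2, h3, h4⟩ := h.typeQ6_kap hN hv hA2 ha2 hc2 hn hκ
  obtain ⟨-, -, -, -, h5, -, -, hu, hvv⟩ := h.typeQ6 hN hv hA2 ha2 hc2
  obtain ⟨-, ha', -⟩ := h.typeQ0 hN hv hA2 ha2
  intro hDD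
  obtain ⟨κ1, hκ1⟩ := h1
  obtain ⟨m1, hm1⟩ : (2 : ℤ) ∣ a + (A + n * c) := dvd_add ha2 h3
  have hm1o : ¬ (2 : ℤ) ∣ m1 := by omega
  have e1 : κ1 • D = m1 • xvK S l' p' n q τ := by
    refine smul_inj (show (2 : ℤ) ≠ 0 by norm_num) ?_
    have e2 : (2 : ℤ) • κ1 • D = (2 * κ1) • D := by module
    rw [e2, ← hκ1, hD, hm1]; module
  have e3 : Dz ((2 : ℕ) : ℤ) (m1 • xvK S l' p' n q τ) := by
    rw [← e1]; exact hDD.smul κ1
  have e4 : Dz 2 (xvK S l' p' n q τ) :=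
    (e3.mul_prime Nat.prime_two).resolve_left (by exact_mod_cast hm1o)
  have e5 : Dz 2 (τ • l' + n • p') := by
    have := (e4.sub hvv).sub (hu.smul q)
    have e6 : xvK S l' p' n q τ - S.v - q • S.u = τ • l' + n • p' := by unfold xvK; module
    rwa [e6] at this
  have e7 := e5.cr_right l'
  rw [cr_add_right, cr_smul_right, cr_smul_right, cr_self, h.lp', mul_zero, zero_add] at e7
  rcases two_mul_of e7 with e8 | e8
  · exact hn e8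
  · exact ha' e8

/-- Q: `c` odd, `L` nonzero modulo 2, odd level: one class of `τ` modulo 2 gives an odd gap -/
theorem KF.typeQ (h : KF 2 S a' b c A a e f Y φ l p l' p') (hF : S.Full) {N : ℕ} (hN : N.Prime)
    (hv : a + A + a' = N) (hA2 : (2 : ℤ) ∣ A) (ha2 : (2 : ℤ) ∣ a) (hc2 : ¬ (2 : ℤ) ∣ c)
    (hL : ¬ ∀ w ∈ S.L, Dz 2 w) :
    ∃ τ0 : ℤ, ∀ n q τ κ : ℤ, ¬ (2 : ℤ) ∣ n → ¬ (2 : ℤ) ∣ q → (2 : ℤ) ∣ τ - τ0 →
      IsC S.L (xvK S l' p' n q τ) κ → ¬ (2 : ℤ) ∣ κ := by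
  obtain ⟨he2, ha', hcY⟩ := h.typeQ0 hN hv hA2 ha2
  obtain ⟨-, hY2, hY4⟩ : ¬ (2 : ℤ) ∣ c ∧ (2 : ℤ) ∣ Y ∧ ¬ (4 : ℤ) ∣ Y := by
    rcases hcY with h1 | h1
    · exact h1
    · exact absurd h1.1 hc2
  have haL : ∀ w0 ∈ S.L, ∀ w ∈ S.L, (2 : ℤ) ∣ cr w0 w := by
    intro w0 hw0 w hw
    rw [h.L_eq] at hw0 hw
    obtain ⟨x, y, rfl⟩ := mem_lat.1 hw0
    obtain ⟨z, t, rfl⟩ := mem_lat.1 hw
    have e1 : cr (x • l + y • p) (z • l + t • p) = (y * z - x * t) * cr p l := by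
      simp only [cr_add_left, cr_add_right, cr_smul_left, cr_smul_right, cr_self]
      rw [cr_swap l p]; ring
    rw [e1, h.ha]
    exact ha2.mul_left _
  have hxv : ∀ (n q τ : ℤ) (w0 : Z2), ¬ (2 : ℤ) ∣ n → (2 : ℤ) ∣ cr (xvK S l' p' n q τ) w0 →
      (2 : ℤ) ∣ cr S.v w0 + q * cr S.u w0 + τ * cr l' w0 + cr p' w0 := by
    intro n q τ w0 hn hd
    rw [xvK, cr_add_left, cr_add_left, cr_add_left, cr_smul_left, cr_smul_left,
      cr_smul_left] at hd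
    obtain ⟨n1, hn1⟩ : ∃ n1, n = 2 * n1 + 1 := ⟨n / 2, by omega⟩
    have e1 : cr S.v w0 + q * cr S.u w0 + τ * cr l' w0 + n * cr p' w0 =
      cr S.v w0 + q * cr S.u w0 + τ * cr l' w0 + cr p' w0 + 2 * (n1 * cr p' w0) := by
      rw [hn1]; ring
    rw [e1] at hd
    exact (dvd_add_left (dvd_mul_right _ _)).1 hd
  by_cases hb2 : (2 : ℤ) ∣ b
  · -- `b` even
    push Not at hL
    obtain ⟨w0, hw0, hw0n⟩ := hL
    have g1 : (2 : ℤ) ∣ cr S.v w0 := hb2.trans (h.ext.hb.2.1 w0 hw0)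
    have g2 : (2 : ℤ) ∣ cr (S.u + l') w0 := by
      obtain ⟨k1, k2⟩ := h.ext.hrigAt h.ext.ok.seq h.ext.ha' h.ext.con h.ext.hb h.ad
        Nat.prime_two (h.alw_odd Nat.prime_two (Or.inr hc2)) (k := 1) (by simpa using hb2)
      rw [h.L_eq] at hw0
      obtain ⟨x, y, rfl⟩ := mem_lat.1 hw0
      rw [cr_add_right, cr_smul_right, cr_smul_right]
      norm_num at k1 k2
      exact dvd_add (k1.mul_left _) (k2.mul_left _)
    rw [cr_add_left] at g2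
    by_cases g3 : (2 : ℤ) ∣ cr S.u w0
    · have g4 : ¬ (2 : ℤ) ∣ cr p' w0 := by
        intro g4
        apply hw0n
        rw [Dz.iff]
        intro z
        obtain ⟨x, hx, y, hy, m, n, rfl⟩ := hF.exists_sum z
        rw [h.L'_eq] at hy
        obtain ⟨s, t, rfl⟩ := mem_lat.1 hy
        have g5 : (2 : ℤ) ∣ cr l' w0 := by omega
        rw [cr_add_right, cr_add_right, cr_add_right, cr_add_right, cr_smul_right, cr_smul_right,
          cr_smul_right, cr_smul_right, cr_swap w0 l', cr_swap w0 p', cr_swap w0 S.u,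
          cr_swap w0 S.v]
        refine dvd_add (dvd_add (haL w0 hw0 x hx) (dvd_add (((dvd_neg).2 g5).mul_left _)
          (((dvd_neg).2 g4).mul_left _))) (dvd_add (((dvd_neg).2 g3).mul_left _)
          (((dvd_neg).2 g1).mul_left _))
      refine ⟨0, fun n q τ κ hn _ _ hκ h2 => g4 ?_⟩
      have k1 := hxv _ _ _ _ hn (h2.trans (hκ.2.1 w0 hw0))
      have g5 : (2 : ℤ) ∣ cr l' w0 := by omega
      have k2 : (2 : ℤ) ∣ cr S.v w0 + q * cr S.u w0 + τ * cr l' w0 :=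
        dvd_add (dvd_add g1 (g3.mul_left _)) (g5.mul_left _)
      exact (dvd_add_right k2).1 k1
    · refine ⟨cr p' w0, fun n q τ κ hn hq hτ hκ h2 => ?_⟩
      have k1 := hxv _ _ _ _ hn (h2.trans (hκ.2.1 w0 hw0))
      have g5 : ¬ (2 : ℤ) ∣ cr l' w0 := by omega
      obtain ⟨x, hx⟩ : ∃ x, cr l' w0 = 2 * x + 1 := ⟨cr l' w0 / 2, by omega⟩
      obtain ⟨y, hy⟩ : ∃ y, cr S.u w0 = 2 * y + 1 := ⟨cr S.u w0 / 2, by omega⟩
      rw [hx, hy] at k1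
      have e1 : cr S.v w0 + q * (2 * y + 1) + τ * (2 * x + 1) + cr p' w0 =
        cr S.v w0 + q + τ + cr p' w0 + 2 * (q * y + τ * x) := by ring
      rw [e1] at k1
      omega
  · -- `b` odd
    have hp : cr p S.v = b := h.hb
    have hup : (2 : ℤ) ∣ cr (S.u - S.v) p := by
      have k1 : ¬ Dz 2 S.u := by
        intro k2
        apply hc2
        rw [← h.up']
        exact k2.cr_left _
      have k2 : ¬ Dz 2 S.v := by
        intro k3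
        apply hb2
        rw [← hp]
        exact k3.cr_right _
      exact (two_par (by rw [h.hA]; exact hA2) k1 k2).cr_left p
    have hl'u : (2 : ℤ) ∣ cr (l' - S.u) p := by
      obtain ⟨Y1, hY1⟩ := hY2
      have hY1o : ¬ (2 : ℤ) ∣ Y1 := by omega
      have e1 : l' = Y1 • S.u := by
        refine smul_inj (show (2 : ℤ) ≠ 0 by norm_num) ?_
        rw [h.hl', hY1]; module
      obtain ⟨z, hz⟩ : ∃ z, Y1 = 2 * z + 1 := ⟨Y1 / 2, by omega⟩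
      have e2 : l' - S.u = (2 * z) • S.u := by rw [e1, hz]; module
      rw [e2, cr_smul_left]
      exact ⟨z * cr S.u p, by ring⟩
    rw [cr_sub_left] at hup hl'u
    have hvp : cr S.v p = -b := by rw [cr_swap, hp]
    refine ⟨cr p' p + 1, fun n q τ κ hn hq hτ hκ h2 => ?_⟩
    have k1 := hxv _ _ _ _ hn
      (h2.trans (hκ.2.1 p (by rw [h.L_eq]; exact mem_lat.2 ⟨0, 1, by module⟩)))
    rw [hvp] at k1 hup
    obtain ⟨x, hx⟩ : ∃ x, cr l' p = 2 * x + 1 := ⟨cr l' p / 2, by omega⟩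
    obtain ⟨y, hy⟩ : ∃ y, cr S.u p = 2 * y + 1 := ⟨cr S.u p / 2, by omega⟩
    rw [hx, hy] at k1
    have e1 : -b + q * (2 * y + 1) + τ * (2 * x + 1) + cr p' p =
      -b + q + τ + cr p' p + 2 * (q * y + τ * x) := by ring
    rw [e1] at k1
    omega

/-- `c` odd, `L = 0` modulo 2: then `v = 0` modulo 2 -/
theorem KF.typeL (h : KF 2 S a' b c A a e f Y φ l p l' p') {N : ℕ} (hN : N.Prime)
    (hv : a + A + a' = N) (hA2 : (2 : ℤ) ∣ A) (ha2 : (2 : ℤ) ∣ a) (hc2 : ¬ (2 : ℤ) ∣ c)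
    (hL : ∀ w ∈ S.L, Dz 2 w) :
    Dz 2 S.v ∧ (2 : ℤ) ∣ φ ∧ (4 : ℤ) ∣ a ∧ (4 : ℤ) ∣ b ∧ (2 : ℤ) ∣ f ∧
      ((¬ (4 : ℤ) ∣ A ∧ (4 : ℤ) ∣ e) ∨ ((4 : ℤ) ∣ A ∧ ¬ (4 : ℤ) ∣ e)) := by
  obtain ⟨he2, ha', hcY⟩ := h.typeQ0 hN hv hA2 ha2
  obtain ⟨-, hY2, hY4⟩ : ¬ (2 : ℤ) ∣ c ∧ (2 : ℤ) ∣ Y ∧ ¬ (4 : ℤ) ∣ Y := by
    rcases hcY with h1 | h1
    · exact h1
    · exact absurd h1.1 hc2
  have hl : Dz 2 l := hL l (by rw [h.L_eq]; exact mem_lat.2 ⟨1, 0, by module⟩)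
  have hp : Dz 2 p := hL p (by rw [h.L_eq]; exact mem_lat.2 ⟨0, 1, by module⟩)
  have hu : ¬ Dz 2 S.u := by
    intro k2
    apply hc2
    rw [← h.up']
    exact k2.cr_left _
  have ha4 : (4 : ℤ) ∣ a := by
    obtain ⟨l0, hl0⟩ := hl
    obtain ⟨p0, hp0⟩ := hp
    rw [← h.ha, hl0, hp0, cr_smul_left, cr_smul_right]
    exact ⟨cr p0 l0, by ring⟩
  have hb2 : (2 : ℤ) ∣ b := by rw [← h.hb]; exact hp.cr_left _
  have hf2 : (2 : ℤ) ∣ f := by rw [← h.hf]; exact hp.cr_right _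
  have hc := h.hc
  have hAe : (¬ (4 : ℤ) ∣ A ∧ (4 : ℤ) ∣ e) ∨ ((4 : ℤ) ∣ A ∧ ¬ (4 : ℤ) ∣ e) := by omega
  -- `φ u = v` modulo 2
  have hφ : Dz 2 (φ • S.u + S.v) := by
    have h1 : Dz 2 ((2 : ℤ) • p') := ⟨p', rfl⟩
    rw [h.hp'] at h1
    have := h1.sub hl
    have e1 : φ • S.u + (S.v + l) - l = φ • S.u + S.v := by module
    rwa [e1] at this
  have hvz : Dz 2 S.v := by
    by_contra hvn
    have hφo : ¬ (2 : ℤ) ∣ φ := by
      intro k1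
      have := hφ.sub (Dz.of_dvd k1 S.u)
      rw [add_sub_cancel_left] at this
      exact hvn this
    have huv : Dz 2 (S.u - S.v) := two_par (by rw [h.hA]; exact hA2) hu hvn
    obtain ⟨Y1, hY1⟩ := hY2
    have hY1o : ¬ (2 : ℤ) ∣ Y1 := by omega
    -- rigidity at `V_1`, `V_{-1}`
    have hr : ∀ k : ℕ, (2 : ℤ) ^ k ∣ b → ∀ j : ℤ, ¬ (2 : ℤ) ∣ j → (2 : ℤ) ^ (k + 1) ∣ e ∧
        (2 : ℤ) ^ (k + 1) ∣ f + j * (a + b - A) := by
      intro k hk j hj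
      obtain ⟨h1, h2⟩ := h.hrigV' (j := j) rfl Nat.prime_two (by exact_mod_cast ha')
        (k := k) (by exact_mod_cast hk)
      set g : ℤ := (Int.gcd Y (1 + j * φ) : ℤ) with hg
      have hg2 : (2 : ℤ) ∣ g := by
        rw [hg]
        refine Int.dvd_coe_gcd ⟨Y1, hY1⟩ ?_
        have : ¬ (2 : ℤ) ∣ j * φ := fun k1 => (two_mul_of k1).elim hj hφo
        omega
      obtain ⟨g1, hg1⟩ := hg2
      have e1 : 2 * g + Y = 2 * (2 * g1 + Y1) := by rw [hg1, hY1]; ring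
      have hgo : ¬ (2 : ℤ) ∣ 2 * g1 + Y1 := by omega
      have gen : ∀ x : ℤ, 2 * (((2 : ℕ) : ℤ) ^ k * g) ∣ (2 * g + Y) * x →
          (2 : ℤ) ^ (k + 1) ∣ x := by
        intro x hx
        have e2 : 2 * (((2 : ℕ) : ℤ) ^ k * g) = 2 * ((2 : ℤ) ^ (k + 1) * g1) := by
          rw [hg1]; push_cast; ring
        have e3 : (2 * g + Y) * x = 2 * ((2 * g1 + Y1) * x) := by rw [e1]; ring
        rw [e2, e3] at hx
        have h5 := (mul_dvd_mul_iff_left (show (2 : ℤ) ≠ 0 by norm_num)).1 hx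
        exact odd_cancel hgo ((dvd_mul_right _ _).trans h5)
      exact ⟨gen _ h1, gen _ h2⟩
    have r1 := hr 1 (by simpa using hb2) 1 (by norm_num)
    norm_num at r1
    have hb4 : ¬ (4 : ℤ) ∣ b := by
      intro hb4
      have r2 := hr 2 (by norm_num; exact hb4) 1 (by norm_num)
      have r3 := hr 2 (by norm_num; exact hb4) (-1) (by norm_num)
      norm_num at r2 r3
      omega
    -- `f` is `2` modulo 4
    have hf4 : ¬ (4 : ℤ) ∣ f := by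
      intro k1
      obtain ⟨p0, hp0⟩ := hp
      have e1 : f = 2 * cr S.u p0 := by rw [← h.hf, hp0, cr_smul_right]
      have e2 : b = 2 * cr p0 S.v := by rw [← h.hb, hp0, cr_smul_left]
      have e3 := huv.cr_left p0
      rw [cr_sub_left, cr_swap S.v p0] at e3
      omega
    omega
  have hφ2 : (2 : ℤ) ∣ φ := by
    have h1 := hφ.sub hvz
    rw [add_sub_cancel_right] at h1
    have h2 : Dz ((2 : ℕ) : ℤ) (φ • S.u) := h1
    rcases h2.mul_prime Nat.prime_two with h3 | h3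
    · exact_mod_cast h3
    · exact absurd h3 hu
  have hb4 : (4 : ℤ) ∣ b := by
    obtain ⟨v0, hv0⟩ := hvz
    obtain ⟨p0, hp0⟩ := hp
    rw [← h.hb, hv0, hp0, cr_smul_left, cr_smul_right]
    exact ⟨cr p0 v0, by ring⟩
  exact ⟨hvz, hφ2, ha4, hb4, hf2, hAe⟩

end Pool.Agent.H4G
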