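import Pool.Agent.H4G.Arith.K2DataDef
import Pool.Agent.H4G.Arith.K2Two
import Pool.Agent.H4G.Arith.KVis

/-!
# `K = 2`: extraction of the number data (helper40's page K2L1, section B; Lean: helper64)
-/

set_option autoImplicit false

namespace Pool.Agent.H4G

/-- the base data, general `K` -/
structure KD0 (K A b c a e : ℤ) (g1 m1 A0 b0 hh : ℕ) : Prop where
  g0 : 0 < g1
  m0 : 0 < m1
  co : Nat.Coprime g1 m1
  A00 : 0 < A0
  b00 : 0 < b0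
  cAb : Nat.Coprime A0 b0
  h0 : 0 < hh
  hA : A = g1 * (hh * A0)
  he : e = m1 * (hh * A0)
  hb : b = g1 * (hh * b0)
  ha : a = m1 * (hh * b0)
  hc : K * c = hh * A0 * (g1 + m1)

variable {K : ℤ} {S : PSt} {a' b c A a e f Y φ : ℤ} {l p l' p' : Z2}

theorem KF.data0 (h : KF K S a' b c A a e f Y φ l p l' p') :
    ∃ g1 m1 A0 b0 hh : ℕ, KD0 K A b c a e g1 m1 A0 b0 hh := by
  have hA0 := h.A0
  have he0 := h.e0
  have hb0 := h.b0
  have ha0 := h.a0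
  have haA := h.aA
  obtain ⟨An, hAn⟩ := Int.eq_ofNat_of_zero_le hA0.le
  obtain ⟨en, hen⟩ := Int.eq_ofNat_of_zero_le he0.le
  obtain ⟨bn, hbn⟩ := Int.eq_ofNat_of_zero_le hb0.le
  obtain ⟨an, han⟩ := Int.eq_ofNat_of_zero_le ha0.le
  have hAn0 : 0 < An := by rw [hAn] at hA0; exact_mod_cast hA0
  have hen0 : 0 < en := by rw [hen] at he0; exact_mod_cast he0
  have hbn0 : 0 < bn := by rw [hbn] at hb0; exact_mod_cast hb0
  have haAn : an * An = en * bn := by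
    rw [han, hAn, hen, hbn] at haA
    exact_mod_cast haA
  obtain ⟨g1, m1, hco, hg, hm⟩ := Nat.exists_coprime An en
  have hd0 : 0 < Nat.gcd An en := Nat.gcd_pos_of_pos_left _ hAn0
  obtain ⟨d, hd⟩ : ∃ d, d = Nat.gcd An en := ⟨_, rfl⟩
  rw [← hd] at hg hm hd0
  have hg0 : 0 < g1 := by
    rcases Nat.eq_zero_or_pos g1 with h9 | h9
    · rw [hg, h9, zero_mul] at hAn0; exact absurd hAn0 (lt_irrefl _)
    · exact h9
  have hm0 : 0 < m1 := by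
    rcases Nat.eq_zero_or_pos m1 with h9 | h9
    · rw [hm, h9, zero_mul] at hen0; exact absurd hen0 (lt_irrefl _)
    · exact h9
  have h1 : an * g1 = m1 * bn := by
    have h2 : d * (an * g1) = d * (m1 * bn) := by
      calc d * (an * g1) = an * (g1 * d) := by ring
        _ = en * bn := by rw [← hg]; exact haAn
        _ = d * (m1 * bn) := by rw [hm]; ring
    exact Nat.eq_of_mul_eq_mul_left hd0 h2
  obtain ⟨B, hB⟩ : g1 ∣ bn := by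
    have h2 : g1 ∣ m1 * bn := ⟨an, by rw [← h1]; ring⟩
    exact (Nat.Coprime.dvd_mul_left hco).1 h2
  have hB0 : 0 < B := by
    rcases Nat.eq_zero_or_pos B with h9 | h9
    · rw [hB, h9, mul_zero] at hbn0; exact absurd hbn0 (lt_irrefl _)
    · exact h9
  have hanB : an = m1 * B := by
    have h2 : g1 * an = g1 * (m1 * B) := by
      calc g1 * an = an * g1 := by ring
        _ = m1 * bn := h1
        _ = g1 * (m1 * B) := by rw [hB]; ring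
    exact Nat.eq_of_mul_eq_mul_left hg0 h2
  obtain ⟨A0, b0, hco2, hA2, hb2⟩ := Nat.exists_coprime d B
  have hh0 : 0 < Nat.gcd d B := Nat.gcd_pos_of_pos_left _ hd0
  obtain ⟨hh, hhh⟩ : ∃ hh, hh = Nat.gcd d B := ⟨_, rfl⟩
  rw [← hhh] at hA2 hb2 hh0
  have hA00 : 0 < A0 := by
    rcases Nat.eq_zero_or_pos A0 with h9 | h9
    · rw [hA2, h9, zero_mul] at hd0; exact absurd hd0 (lt_irrefl _)
    · exact h9
  have hb00 : 0 < b0 := by
    rcases Nat.eq_zero_or_pos b0 with h9 | h9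
    · rw [hb2, h9, zero_mul] at hB0; exact absurd hB0 (lt_irrefl _)
    · exact h9
  have kA : A = g1 * (hh * A0) := by
    rw [hAn, hg, hA2]; push_cast; ring
  have ke : e = m1 * (hh * A0) := by
    rw [hen, hm, hA2]; push_cast; ring
  refine ⟨g1, m1, A0, b0, hh, hg0, hm0, hco, hA00, hb00, hco2, hh0, kA, ke, ?_, ?_, ?_⟩
  · rw [hbn, hB, hb2]; push_cast; ring
  · rw [han, hanB, hb2]; push_cast; ring
  · rw [h.hc, kA, ke]; ring

theorem KF.hh_sq (h : KF K S a' b c A a e f Y φ l p l' p') {N : ℕ} (hN : N.Prime)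
    (hv : a + A + a' = N) {g1 m1 A0 b0 hh : ℕ} (D : KD0 K A b c a e g1 m1 A0 b0 hh) :
    (hh : ℤ) ∣ K ^ 2 := by
  have h1 : (hh : ℤ) ∣ a := by rw [D.ha]; exact ⟨m1 * b0, by ring⟩
  have h2 : (hh : ℤ) ∣ A := by rw [D.hA]; exact ⟨g1 * A0, by ring⟩
  have h3 : (hh : ℤ) ∣ K ^ 2 * a' := by
    have e1 : K ^ 2 * a' = Y * (K * c) := by
      have := h.hy
      linear_combination K * this
    rw [e1, D.hc]; exact ⟨Y * (A0 * (g1 + m1)), by ring⟩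
  have h4 : (hh : ℤ) ∣ K ^ 2 * N := by
    have e1 : K ^ 2 * (N : ℤ) = K ^ 2 * a + K ^ 2 * A + K ^ 2 * a' := by rw [← hv]; ring
    rw [e1]
    exact dvd_add (dvd_add (h1.mul_left _) (h2.mul_left _)) h3
  have h5 : ¬ N ∣ hh := by
    intro h9
    have h10 : (hh : ℤ) ≤ A := Int.le_of_dvd h.A0 h2
    have h11 := (h.lt_N hv).2.1
    have h12 := Nat.le_of_dvd D.h0 h9
    have h13 : ((N : ℕ) : ℤ) ≤ hh := by exact_mod_cast h12
    linarith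
  have h6 : IsCoprime (hh : ℤ) (N : ℤ) :=
    Nat.isCoprime_iff_coprime.2 ((Nat.Prime.coprime_iff_not_dvd hN).2 h5).symm
  exact h6.dvd_of_dvd_mul_right h4

theorem KF.cAm (h : KF K S a' b c A a e f Y φ l p l' p') {N : ℕ} (hN : N.Prime)
    (hv : a + A + a' = N) {g1 m1 A0 b0 hh : ℕ} (D : KD0 K A b c a e g1 m1 A0 b0 hh)
    {r : ℕ} (hr : r.Prime) (hrK : ¬ (r : ℤ) ∣ K) (h1 : r ∣ A0) : ¬ r ∣ m1 := by
  intro h2
  have h1' : (r : ℤ) ∣ A0 := by exact_mod_cast h1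
  have h2' : (r : ℤ) ∣ m1 := by exact_mod_cast h2
  have k1 : (r : ℤ) ∣ A := by rw [D.hA]; exact (h1'.mul_left _).mul_left _
  have k2 : (r : ℤ) ∣ K * c := by rw [D.hc]; exact (h1'.mul_left _).mul_right _
  have k3 : (r : ℤ) ∣ c :=
    ((Nat.prime_iff_prime_int.1 hr).dvd_or_dvd k2).resolve_left hrK
  exact h.not_a hN hv hr hrK k1 k3 (by rw [D.ha]; exact h2'.mul_right _)

/-- the divisor `n0` -/
theorem KF.exists_n0 (h : KF 2 S a' b c A a e f Y φ l p l' p') {N : ℕ} (hN : N.Prime)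
    (hv : a + A + a' = N) {g1 m1 A0 b0 hh : ℕ} (D : KD0 2 A b c a e g1 m1 A0 b0 hh) (σ : ℕ)
    (h2 : ∀ k : ℕ, (2 : ℤ) ^ k ∣ 2 ^ σ * (g1 * b0) → (2 : ℤ) ^ k ∣ Y + 2) :
    ∃ n0 : ℕ, 2 ^ σ * b0 ∣ n0 ∧ Y + 2 = g1 * n0 := by
  have h1 : ((2 : ℤ) ^ σ * (g1 * b0)) ∣ Y + 2 := by
    refine dvd_of_prime_pow fun q k hq hk => ?_
    by_cases hq2 : q = 2
    · subst hq2
      exact_mod_cast h2 k (by exact_mod_cast hk)
    · have hq2' : ¬ (q : ℤ) ∣ 2 := fun h9 =>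
        hq2 ((Nat.prime_dvd_prime_iff_eq hq Nat.prime_two).1 (by exact_mod_cast h9))
      have h3 : IsCoprime ((q : ℤ) ^ k) ((2 : ℤ) ^ σ) :=
        (isCoprime_of_not_dvd hq hq2').pow
      rw [add_comm]
      refine h.visA0 hN hv hq hq2 hq2' ((h3.dvd_of_dvd_mul_left hk).trans ?_)
      rw [D.hb]; exact ⟨hh, by ring⟩
  obtain ⟨t, ht⟩ := h1
  have ht0 : 0 < t := by
    have h3 : 0 < ((2 : ℤ) ^ σ * (g1 * b0)) * t := by rw [← ht]; linarith [h.Y0]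
    exact (mul_pos_iff_of_pos_left (by
      have := D.g0; have := D.b00; positivity)).1 h3
  obtain ⟨s, hs⟩ := Int.eq_ofNat_of_zero_le ht0.le
  refine ⟨2 ^ σ * b0 * s, dvd_mul_right _ _, ?_⟩
  rw [ht, hs]; push_cast; ring

theorem KD0.k2d {g1 m1 A0 b0 hh n0 : ℕ} (D : KD0 2 A b c a e g1 m1 A0 b0 hh)
    (h : KF 2 S a' b c A a e f Y φ l p l' p') {N : ℕ} (hN : N.Prime)
    (hv : a + A + a' = N) (he3 : e < 3 * A) (hAc : A < c) (hAb : A < b)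
    (h1 : b0 ∣ n0) (h2 : Y + 2 = g1 * n0) : K2D A b c a e Y g1 m1 n0 A0 b0 hh := by
  have hg0 := D.g0
  have hA0 := D.A00
  have hh0 := D.h0
  have hc := h.hc
  have hp : (0 : ℤ) < hh * A0 := by positivity
  refine ⟨D.g0, ?_, ?_, D.co, D.A00, ?_, D.cAb, h1, D.h0, ?_, D.hA, D.he, D.hb, D.ha, D.hc, h2,
    fun r hr hr2 h3 => ?_⟩
  · have h3 : A < e := by linarith
    rw [D.hA, D.he] at h3
    exact_mod_cast lt_of_mul_lt_mul_right h3 hp.le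
  · have h3 : (m1 : ℤ) * (hh * A0) < (3 * g1) * (hh * A0) := by
      have := he3
      rw [D.hA, D.he] at this
      linarith
    exact_mod_cast lt_of_mul_lt_mul_right h3 hp.le
  · have h3 := hAb
    rw [D.hA, D.hb] at h3
    have h4 := lt_of_mul_lt_mul_left h3 (by positivity : (0 : ℤ) ≤ g1)
    exact_mod_cast lt_of_mul_lt_mul_left h4 (by positivity : (0 : ℤ) ≤ hh)
  · have h3 := h.hh_sq hN hv D
    norm_num at h3
    exact_mod_cast h3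
  · exact h.cAm hN hv D hr (fun h9 => hr2 ((Nat.prime_dvd_prime_iff_eq hr Nat.prime_two).1
      (by exact_mod_cast h9))) h3

/-- the types for `K = 2` -/
def K2Type (A c a e Y : ℤ) (g1 m1 n0 A0 b0 hh : ℕ) : Prop :=
  (¬ (2 : ℤ) ∣ a ∧ ¬ 2 ∣ g1 ∧ ¬ 2 ∣ m1 ∧ ¬ 2 ∣ b0 ∧ ¬ 2 ∣ hh) ∨
  (¬ (2 : ℤ) ∣ A ∧ (2 : ℤ) ∣ a ∧ ¬ (4 : ℤ) ∣ Y ∧ ¬ 2 ∣ g1 ∧ ¬ 2 ∣ m1 ∧ 4 ∣ g1 + m1 ∧ ¬ 2 ∣ A0 ∧
    hh = 1 ∧ 2 ∣ b0 ∧ 2 * b0 ∣ n0) ∨
  (¬ (2 : ℤ) ∣ A ∧ (2 : ℤ) ∣ a ∧ (4 : ℤ) ∣ Y ∧ ¬ 2 ∣ g1 ∧ ¬ 2 ∣ m1 ∧ 4 ∣ g1 + m1 ∧ ¬ 2 ∣ A0 ∧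
    hh = 1 ∧ 2 ∣ b0 ∧ ¬ 4 ∣ b0 ∧ 2 ∣ n0 ∧ ¬ 4 ∣ n0) ∨
  ((2 : ℤ) ∣ A ∧ (2 : ℤ) ∣ a ∧ ¬ (2 : ℤ) ∣ c ∧
    ((¬ 2 ∣ g1 ∧ 2 ∣ m1 ∧ 4 ∣ n0 ∧ (2 ∣ b0 → 2 * b0 ∣ n0) ∧ ¬ (4 : ℤ) ∣ A ∧ (4 : ℤ) ∣ e) ∨
    (2 ∣ g1 ∧ ¬ 2 ∣ m1 ∧ ¬ 2 ∣ A0 ∧ hh = 2 ∧ 2 * b0 ∣ n0 ∧ (4 : ℤ) ∣ A ∧ ¬ (4 : ℤ) ∣ e))) ∨
  ((2 : ℤ) ∣ A ∧ (2 : ℤ) ∣ a ∧ (2 : ℤ) ∣ c ∧ ¬ 2 ∣ g1 ∧ 2 ∣ m1 ∧ ¬ 2 ∣ n0 ∧ ¬ 2 ∣ A0 ∧ ¬ 2 ∣ b0 ∧
    hh = 4)

theorem two_nmul {x y : ℕ} (h : ¬ 2 ∣ x * y) : ¬ 2 ∣ x ∧ ¬ 2 ∣ y :=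
  ⟨fun h1 => h (h1.mul_right _), fun h1 => h (h1.mul_left _)⟩

theorem not_four_of_two {x y : ℕ} (h : ¬ 4 ∣ x * y) (hx : 2 ∣ x) : ¬ 2 ∣ y := fun hy =>
  h (by have := mul_dvd_mul hx hy; norm_num at this; exact this)

/-- the number data and the type, from the rigidity at `2` -/
theorem KF.data2_core (h : KF 2 S a' b c A a e f Y φ l p l' p') {N : ℕ} (hN : N.Prime)
    (hv : a + A + a' = N) (he3 : e < 3 * A) (hAc : A < c) (hAb : A < b)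
    (rI : ¬ (2 : ℤ) ∣ a → ¬ (2 : ℤ) ∣ b)
    (rP : ¬ (2 : ℤ) ∣ A → (2 : ℤ) ∣ a → ¬ (4 : ℤ) ∣ Y → ∀ k : ℕ, (2 : ℤ) ^ k ∣ b →
      (2 : ℤ) ^ (k + 1) ∣ Y + 2)
    (rP4 : ¬ (2 : ℤ) ∣ A → (2 : ℤ) ∣ a → (4 : ℤ) ∣ Y → ¬ (4 : ℤ) ∣ b)
    (rQ : (2 : ℤ) ∣ A → (2 : ℤ) ∣ a → ¬ (2 : ℤ) ∣ c → ∀ k : ℕ, (2 : ℤ) ^ k ∣ b →
      (2 : ℤ) ^ k ∣ Y + 2) :
    ∃ g1 m1 n0 A0 b0 hh : ℕ, K2D A b c a e Y g1 m1 n0 A0 b0 hh ∧
      K2Type A c a e Y g1 m1 n0 A0 b0 hh := by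
  obtain ⟨g1, m1, A0, b0, hh, D⟩ := h.data0
  have hh4 : hh ∣ 4 := by
    have h3 := h.hh_sq hN hv D
    norm_num at h3
    exact_mod_cast h3
  have cA : ∀ x : ℕ, ((x : ℕ) : ℤ) ∣ A ↔ x ∣ g1 * (hh * A0) := by
    intro x; rw [D.hA]; exact_mod_cast Iff.rfl
  have ce : ∀ x : ℕ, ((x : ℕ) : ℤ) ∣ e ↔ x ∣ m1 * (hh * A0) := by
    intro x; rw [D.he]; exact_mod_cast Iff.rfl
  have cb : ∀ x : ℕ, ((x : ℕ) : ℤ) ∣ b ↔ x ∣ g1 * (hh * b0) := by
    intro x; rw [D.hb]; exact_mod_cast Iff.rfl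
  have ca : ∀ x : ℕ, ((x : ℕ) : ℤ) ∣ a ↔ x ∣ m1 * (hh * b0) := by
    intro x; rw [D.ha]; exact_mod_cast Iff.rfl
  have hnco : ¬ (2 ∣ g1 ∧ 2 ∣ m1) := fun h9 => by
    have := Nat.dvd_gcd h9.1 h9.2
    rw [D.co] at this
    omega
  have hnAb : ¬ (2 ∣ A0 ∧ 2 ∣ b0) := fun h9 => by
    have := Nat.dvd_gcd h9.1 h9.2
    rw [D.cAb] at this
    omega
  have hp2 := Nat.prime_two
  by_cases ha2 : (2 : ℤ) ∣ a
  swap
  · -- type I
    have hb2 := rI ha2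
    have h1 := two_nmul (fun h9 => ha2 (by exact_mod_cast (ca 2).2 h9))
    have h2 := two_nmul h1.2
    have h3 := two_nmul (fun h9 => hb2 (by exact_mod_cast (cb 2).2 h9))
    obtain ⟨n0, n1, n2⟩ := h.exists_n0 hN hv D 0 (fun k hk => by
      rcases Nat.eq_zero_or_pos k with h9 | h9
      · rw [h9, pow_zero]; exact one_dvd _
      · exfalso
        have h10 := (dvd_pow_self (2 : ℤ) h9.ne').trans hk
        rw [pow_zero, one_mul] at h10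
        have h11 : 2 ∣ g1 * b0 := by exact_mod_cast h10
        exact (hp2.dvd_mul.1 h11).elim h3.1 h2.2)
    rw [pow_zero, one_mul] at n1
    exact ⟨g1, m1, n0, A0, b0, hh, D.k2d h hN hv he3 hAc hAb n1 n2,
      Or.inl ⟨ha2, h3.1, h1.1, h2.2, h2.1⟩⟩
  by_cases hA2 : (2 : ℤ) ∣ A
  swap
  · -- type P
    obtain ⟨e2, b2, c2, -, Y2, -⟩ := h.typeP hN hv hA2 ha2
    have h1 := two_nmul (fun h9 => hA2 (by exact_mod_cast (cA 2).2 h9))
    have h2 := two_nmul h1.2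
    have h3 := two_nmul (fun h9 => e2 (by exact_mod_cast (ce 2).2 h9))
    have hh1 : hh = 1 := by
      have h4 : hh ≤ 4 := Nat.le_of_dvd (by norm_num) hh4
      have h5 := h2.1
      have h6 := D.h0
      interval_cases hh <;> omega
    have hb0 : 2 ∣ b0 := by
      have h4 : 2 ∣ g1 * (hh * b0) := (cb 2).1 (by exact_mod_cast b2)
      rw [hh1, one_mul] at h4
      exact (hp2.dvd_mul.1 h4).resolve_left h1.1
    have hz : 4 ∣ g1 + m1 := by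
      obtain ⟨c1, hc1⟩ := c2
      have h4 := D.hc
      rw [hh1, hc1] at h4
      have h5 : (4 : ℤ) ∣ A0 * ((g1 + m1 : ℕ) : ℤ) := ⟨c1, by push_cast at h4 ⊢; linarith⟩
      have h6 : 4 ∣ A0 * (g1 + m1) := by exact_mod_cast h5
      have h7 : Nat.Coprime 4 A0 := by
        have h8 : Nat.Coprime (2 ^ 2) A0 :=
          Nat.Coprime.pow_left 2 ((Nat.Prime.coprime_iff_not_dvd hp2).2 h2.2)
        exact h8
      exact h7.dvd_of_dvd_mul_left h6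
    have hbeq : (g1 : ℤ) * b0 = b := by rw [D.hb, hh1]; push_cast; ring
    by_cases hY4 : (4 : ℤ) ∣ Y
    · have hb4 := rP4 hA2 ha2 hY4
      obtain ⟨n0, n1, n2⟩ := h.exists_n0 hN hv D 0 (fun k hk => by
        rw [pow_zero, one_mul, hbeq] at hk
        have hk1 : k ≤ 1 := by
          by_contra h9
          push Not at h9
          exact hb4 ((by norm_num : (4 : ℤ) = 2 ^ 2) ▸ (pow_dvd_pow (2 : ℤ) h9).trans hk)
        refine (pow_dvd_pow (2 : ℤ) hk1).trans ?_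
        rw [pow_one]; omega)
      rw [pow_zero, one_mul] at n1
      refine ⟨g1, m1, n0, A0, b0, hh, D.k2d h hN hv he3 hAc hAb n1 n2,
        Or.inr (Or.inr (Or.inl ⟨hA2, ha2, hY4, h1.1, h3.1, hz, h2.2, hh1, hb0, ?_,
          hb0.trans n1, ?_⟩))⟩
      · intro h9
        apply hb4
        rw [← hbeq]
        exact Dvd.dvd.mul_left (by exact_mod_cast h9) _
      · intro h9
        have h10 : (4 : ℤ) ∣ Y + 2 := by
          rw [n2]; exact Dvd.dvd.mul_left (by exact_mod_cast h9) _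
        omega
    · obtain ⟨n0, n1, n2⟩ := h.exists_n0 hN hv D 1 (fun k hk => by
        rw [pow_one, hbeq] at hk
        rcases k with _ | k
        · rw [pow_zero]; exact one_dvd _
        · rw [pow_succ'] at hk
          exact rP hA2 ha2 hY4 k ((mul_dvd_mul_iff_left (by norm_num)).1 hk))
      rw [pow_one] at n1
      exact ⟨g1, m1, n0, A0, b0, hh,
        D.k2d h hN hv he3 hAc hAb ((dvd_mul_left _ _).trans n1) n2,
        Or.inr (Or.inl ⟨hA2, ha2, hY4, h1.1, h3.1, hz, h2.2, hh1, hb0, n1⟩)⟩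
  · -- type Q
    obtain ⟨e2, -, hcY⟩ := h.typeQ0 hN hv hA2 ha2
    have eA : 2 ∣ g1 * (hh * A0) := (cA 2).1 (by exact_mod_cast hA2)
    have ee : 2 ∣ m1 * (hh * A0) := (ce 2).1 (by exact_mod_cast e2)
    have ea : 2 ∣ m1 * (hh * b0) := (ca 2).1 (by exact_mod_cast ha2)
    have hP : 2 ∣ hh * A0 := by
      by_contra h9
      exact hnco ⟨(hp2.dvd_mul.1 eA).resolve_right h9, (hp2.dvd_mul.1 ee).resolve_right h9⟩
    by_cases hc2 : (2 : ℤ) ∣ c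
    · -- Q6
      obtain ⟨k1, k2, k3, k4, k5, k6, -, -, -⟩ := h.typeQ6 hN hv hA2 ha2 hc2
      have hY : ¬ (2 : ℤ) ∣ Y := by
        rcases hcY with h9 | h9
        · exact absurd hc2 h9.1
        · exact h9.2.2
      have x1 : 4 ∣ g1 * (hh * A0) := (cA 4).1 (by exact_mod_cast k1)
      have x2 : ¬ 8 ∣ g1 * (hh * A0) := fun h9 => k2 (by exact_mod_cast (cA 8).2 h9)
      have x3 : 4 ∣ g1 * (hh * b0) := (cb 4).1 (by exact_mod_cast k3)
      have x4 : ¬ 8 ∣ g1 * (hh * b0) := fun h9 => k4 (by exact_mod_cast (cb 8).2 h9)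
      have x6 : 8 ∣ m1 * (hh * A0) := (ce 8).1 (by exact_mod_cast k6)
      have hg : ¬ 2 ∣ g1 := by
        intro h9
        have h10 : ¬ 2 ∣ m1 := fun h11 => hnco ⟨h9, h11⟩
        apply x2
        have h12 : Nat.Coprime (2 ^ 3) m1 :=
          Nat.Coprime.pow_left 3 ((Nat.Prime.coprime_iff_not_dvd hp2).2 h10)
        exact (h12.dvd_of_dvd_mul_left x6).mul_left _
      have hg4 : Nat.Coprime (2 ^ 2) g1 :=
        Nat.Coprime.pow_left 2 ((Nat.Prime.coprime_iff_not_dvd hp2).2 hg)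
      have y1 : 4 ∣ hh * A0 := hg4.dvd_of_dvd_mul_left x1
      have y2 : ¬ 8 ∣ hh * A0 := fun h9 => x2 (h9.mul_left _)
      have y3 : 4 ∣ hh * b0 := hg4.dvd_of_dvd_mul_left x3
      have y4 : ¬ 8 ∣ hh * b0 := fun h9 => x4 (h9.mul_left _)
      have hm : 2 ∣ m1 := by
        by_contra h9
        have h12 : Nat.Coprime (2 ^ 3) m1 :=
          Nat.Coprime.pow_left 3 ((Nat.Prime.coprime_iff_not_dvd hp2).2 h9)
        exact y2 (h12.dvd_of_dvd_mul_left x6)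
      have hh4' : hh = 4 := by
        have h4 : hh ≤ 4 := Nat.le_of_dvd (by norm_num) hh4
        have h6 := D.h0
        interval_cases hh
        · exact absurd ⟨by omega, by omega⟩ hnAb
        · exact absurd ⟨by omega, by omega⟩ hnAb
        · omega
        · rfl
      rw [hh4'] at y2 y4
      have hA0 : ¬ 2 ∣ A0 := by omega
      have hb0 : ¬ 2 ∣ b0 := by omega
      obtain ⟨n0, n1, n2⟩ := h.exists_n0 hN hv D 0 (fun k hk => by
        rcases Nat.eq_zero_or_pos k with h9 | h9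
        · rw [h9, pow_zero]; exact one_dvd _
        · exfalso
          have h10 := (dvd_pow_self (2 : ℤ) h9.ne').trans hk
          rw [pow_zero, one_mul] at h10
          have h11 : 2 ∣ g1 * b0 := by exact_mod_cast h10
          exact (hp2.dvd_mul.1 h11).elim hg hb0)
      rw [pow_zero, one_mul] at n1
      refine ⟨g1, m1, n0, A0, b0, hh, D.k2d h hN hv he3 hAc hAb n1 n2,
        Or.inr (Or.inr (Or.inr (Or.inr ⟨hA2, ha2, hc2, hg, hm, ?_, hA0, hb0, hh4'⟩)))⟩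
      intro h9
      have h10 : (2 : ℤ) ∣ Y + 2 := by
        rw [n2]; exact Dvd.dvd.mul_left (by exact_mod_cast h9) _
      omega
    · -- `c` odd
      obtain ⟨-, Y2, Y4⟩ : ¬ (2 : ℤ) ∣ c ∧ (2 : ℤ) ∣ Y ∧ ¬ (4 : ℤ) ∣ Y := by
        rcases hcY with h9 | h9
        · exact h9
        · exact absurd h9.1 hc2
      have hQ := rQ hA2 ha2 hc2
      have hPz : ¬ 4 ∣ hh * A0 * (g1 + m1) := by
        intro h9
        apply hc2
        have h10 : (4 : ℤ) ∣ 2 * c := by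
          rw [D.hc]; exact_mod_cast h9
        omega
      have hz := not_four_of_two hPz hP
      have hP4 : ¬ 4 ∣ hh * A0 := fun h9 => hPz (h9.mul_right _)
      have hbdvd : ((g1 : ℤ) * b0) ∣ b := by rw [D.hb]; exact ⟨hh, by ring⟩
      -- the divisor in the case `hh` even
      have hev : 2 ∣ hh → ∀ k : ℕ, (2 : ℤ) ^ k ∣ 2 ^ 1 * (g1 * b0) → (2 : ℤ) ^ k ∣ Y + 2 := by
        intro h9 k hk
        refine hQ k (hk.trans ?_)
        obtain ⟨h8, hh8⟩ := h9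
        rw [D.hb, hh8]
        exact ⟨h8, by push_cast; ring⟩
      have hod : ∀ k : ℕ, (2 : ℤ) ^ k ∣ 2 ^ 0 * (g1 * b0) → (2 : ℤ) ^ k ∣ Y + 2 := by
        intro k hk
        rw [pow_zero, one_mul] at hk
        exact hQ k (hk.trans hbdvd)
      by_cases hg : 2 ∣ g1
      · have hm : ¬ 2 ∣ m1 := fun h9 => hnco ⟨hg, h9⟩
        have hhb : 2 ∣ hh * b0 := (hp2.dvd_mul.1 ea).resolve_left hm
        have hh2 : 2 ∣ hh := by
          by_contra h9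
          exact hnAb ⟨(hp2.dvd_mul.1 hP).resolve_left h9, (hp2.dvd_mul.1 hhb).resolve_left h9⟩
        have hA0 := not_four_of_two hP4 hh2
        have hhe : hh = 2 := by
          have h4 : hh ≤ 4 := Nat.le_of_dvd (by norm_num) hh4
          have h6 := D.h0
          have h7 : ¬ 4 ∣ hh := fun h9 => hP4 (h9.mul_right _)
          interval_cases hh <;> omega
        obtain ⟨n0, n1, n2⟩ := h.exists_n0 hN hv D 1 (hev hh2)
        rw [pow_one] at n1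
        refine ⟨g1, m1, n0, A0, b0, hh,
          D.k2d h hN hv he3 hAc hAb ((dvd_mul_left _ _).trans n1) n2,
          Or.inr (Or.inr (Or.inr (Or.inl ⟨hA2, ha2, hc2, Or.inr ⟨hg, hm, hA0, hhe, n1, ?_, ?_⟩⟩)))⟩
        · have := mul_dvd_mul hg hP
          norm_num at this
          exact_mod_cast (cA 4).2 this
        · intro h9
          have h10 : 4 ∣ m1 * (hh * A0) := (ce 4).1 (by exact_mod_cast h9)
          have h12 : Nat.Coprime (2 ^ 2) m1 :=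
            Nat.Coprime.pow_left 2 ((Nat.Prime.coprime_iff_not_dvd hp2).2 hm)
          exact hP4 (h12.dvd_of_dvd_mul_left h10)
      · have hm : 2 ∣ m1 := by omega
        have key : ∃ n0 : ℕ, b0 ∣ n0 ∧ (2 ∣ b0 → 2 * b0 ∣ n0) ∧ Y + 2 = g1 * n0 := by
          by_cases hh2 : 2 ∣ hh
          · obtain ⟨n0, n1, n2⟩ := h.exists_n0 hN hv D 1 (hev hh2)
            rw [pow_one] at n1
            exact ⟨n0, (dvd_mul_left _ _).trans n1, fun _ => n1, n2⟩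
          · obtain ⟨n0, n1, n2⟩ := h.exists_n0 hN hv D 0 hod
            rw [pow_zero, one_mul] at n1
            refine ⟨n0, n1, fun h9 => ?_, n2⟩
            exact absurd ⟨(hp2.dvd_mul.1 hP).resolve_left hh2, h9⟩ hnAb
        obtain ⟨n0, n1, n3, n2⟩ := key
        refine ⟨g1, m1, n0, A0, b0, hh, D.k2d h hN hv he3 hAc hAb n1 n2,
          Or.inr (Or.inr (Or.inr (Or.inl ⟨hA2, ha2, hc2, Or.inl ⟨hg, hm, ?_, n3, ?_, ?_⟩⟩)))⟩
        · have h10 : (4 : ℤ) ∣ g1 * n0 := by rw [← n2]; omega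
          have h11 : 4 ∣ g1 * n0 := by exact_mod_cast h10
          have h12 : Nat.Coprime (2 ^ 2) g1 :=
            Nat.Coprime.pow_left 2 ((Nat.Prime.coprime_iff_not_dvd hp2).2 hg)
          exact h12.dvd_of_dvd_mul_left h11
        · intro h9
          have h10 : 4 ∣ g1 * (hh * A0) := (cA 4).1 (by exact_mod_cast h9)
          have h12 : Nat.Coprime (2 ^ 2) g1 :=
            Nat.Coprime.pow_left 2 ((Nat.Prime.coprime_iff_not_dvd hp2).2 hg)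
          exact hP4 (h12.dvd_of_dvd_mul_left h10)
        · have := mul_dvd_mul hm hP
          norm_num at this
          exact_mod_cast (ce 4).2 this

end Pool.Agent.H4G
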