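import Pool.Agent.H4G.Arith.KFr

/-!
# `K = 2`: the number data (helper40's page K2L1, section B; Lean: helper64)
-/

set_option autoImplicit false

namespace Pool.Agent.H4G

/-- the number data of a frame with `K = 2` -/
structure K2D (A b c a e Y : ℤ) (g1 m1 n0 A0 b0 hh : ℕ) : Prop where
  g0 : 0 < g1
  gm : g1 < m1
  m3 : m1 < 3 * g1
  co : Nat.Coprime g1 m1
  A00 : 0 < A0
  Ab0 : A0 < b0
  cAb : Nat.Coprime A0 b0
  bn : b0 ∣ n0
  h0 : 0 < hh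
  h4 : hh ∣ 4
  hA : A = g1 * (hh * A0)
  he : e = m1 * (hh * A0)
  hb : b = g1 * (hh * b0)
  ha : a = m1 * (hh * b0)
  hc : 2 * c = hh * A0 * (g1 + m1)
  hY : Y + 2 = g1 * n0
  cAm : ∀ r : ℕ, r.Prime → r ≠ 2 → r ∣ A0 → ¬ r ∣ m1

end Pool.Agent.H4G
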