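import Pool.Agent.H4G.Arith.KFr

/-!
# The end of the proof with a weaker condition on `D` (helper40's page K2; typed by helper5)

At a prime `r` with `L = 0`, `v = 0` and `u ≠ 0` modulo `r` the node does not change `u` modulo
`r`, so that the condition on `D` is not needed.
-/

set_option autoImplicit false

namespace Pool.Agent.H4G

/-- (B4), one step, with the new `v` -/
theorem SEq.nodeStepV {L L' : AddSubgroup Z2} {u v : Z2} {a c : ℤ}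
    (hok : PSt.Ok ⟨L, u, v, L'⟩) (ha : IsArea L' a) (hc : IsC L' u c) (hlt : c < cr u v) :
    ∃ (v1 : Z2) (L1 : AddSubgroup Z2) (θ : ℤ), SEq ⟨L, u, v, L'⟩ ⟨L, u, v1, L1⟩ ∧ 0 < θ ∧
      c ∣ θ ∧ cr u v1 = cr u v - θ ∧ IsArea L1 (a + θ) ∧ IsC L1 u c ∧
      (∀ w ∈ L1, ∃ w1 ∈ L', ∃ k : ℤ, w = w1 + k • u) ∧ ∃ w1 ∈ L', ∃ k : ℤ, v1 = v + w1 + k • u := by
  have hok' := hok
  obtain ⟨⟨a0, a1, a2, a3, a4, a5⟩, hl, e2, e3, hA, hr⟩ := hok'
  dsimp only at hl e2 e3 hA hr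
  subst e2 e3
  obtain ⟨l, p, h1, h2, h3, h4, h5, h6⟩ := exists_node_vec hr hA ha hc hlt
  have hd : c ∣ cr a2 l := hc.2.1 l (by rw [← h1]; exact mem_lat.2 ⟨1, 0, by module⟩)
  subst h1
  rw [abs_lt] at h5
  rcases lt_or_gt_of_ne h6 with h | h
  · have := SEq.mPlus' hok h3 (by rw [h2]; exact h4) h5.1 (by linarith)
    refine ⟨_, _, -cr a2 l, this, by linarith, (dvd_neg).2 hd, ?_, ?_, ?_, ?_, ?_⟩
    · rw [cr_add_right, cr_sub_right, cr_self]; ring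
    · refine ⟨by linarith [ha.1], l, p - a2, ?_, rfl⟩
      rw [cr_sub_left, h2]; ring
    · have := hc.congr (k := -1)
      have e : p + (-1 : ℤ) • a2 = p - a2 := by module
      rwa [e] at this
    · intro w hw
      obtain ⟨m, n, e⟩ := mem_lat.1 hw
      exact ⟨m • l + n • p, mem_lat.2 ⟨m, n, rfl⟩, -n, by rw [← e]; module⟩
    · exact ⟨l, mem_lat.2 ⟨1, 0, by module⟩, -1, by module⟩
  · have := SEq.mMinus' hok h3 (by rw [h2]; exact h4) (by linarith) h5.2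
    refine ⟨_, _, cr a2 l, this, h, hd, ?_, ?_, ?_, ?_, ?_⟩
    · rw [cr_sub_right, cr_add_right, cr_self]; ring
    · refine ⟨by linarith [ha.1], l, p + a2, ?_, rfl⟩
      rw [cr_add_left, h2]
    · have := hc.congr (k := 1)
      rwa [one_smul] at this
    · intro w hw
      obtain ⟨m, n, e⟩ := mem_lat.1 hw
      exact ⟨m • l + n • p, mem_lat.2 ⟨m, n, rfl⟩, n, by rw [← e]; module⟩
    · exact ⟨-l, mem_lat.2 ⟨-1, 0, by module⟩, 1, by module⟩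

/-- (B4) NODE LEMMA on the right, with the new `v` -/
theorem SEq.nodeV (n : ℕ) : ∀ {L L' : AddSubgroup Z2} {u v : Z2} {a c : ℤ},
    (cr u v).toNat = n → PSt.Ok ⟨L, u, v, L'⟩ → IsArea L' a → IsC L' u c →
    ∃ (v1 : Z2) (L1 : AddSubgroup Z2) (θ : ℤ), SEq ⟨L, u, v, L'⟩ ⟨L, u, v1, L1⟩ ∧ 0 ≤ θ ∧
      c ∣ θ ∧ cr u v1 = cr u v - θ ∧ 0 < cr u v1 ∧ cr u v1 ≤ c ∧ IsArea L1 (a + θ) ∧
      IsC L1 u c ∧ (∀ w ∈ L1, ∃ w1 ∈ L', ∃ k : ℤ, w = w1 + k • u) ∧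
      ∃ w1 ∈ L', ∃ k : ℤ, v1 = v + w1 + k • u := by
  induction n using Nat.strong_induction_on with
  | _ n ih =>
  intro L L' u v a c hn hok ha hc
  have hA : 0 < cr u v := hok.pos
  by_cases hlt : c < cr u v
  · obtain ⟨v1, L1, θ, h1, h2, h3, h4, h5, h6, h7, w1, g1, k1, g2⟩ :=
      SEq.nodeStepV hok ha hc hlt
    have hok1 := h1.ok'
    have hA1 : 0 < cr u v1 := hok1.pos
    obtain ⟨v2, L2, θ', m1, m2, m3, m4, m5, m6, m7, m8, m9, w2, g3, k2, g4⟩ :=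
      ih (cr u v1).toNat (by omega) rfl hok1 h5 h6
    refine ⟨v2, L2, θ + θ', h1.trans m1, by linarith, dvd_add h3 m3, by rw [m4, h4]; ring, m5, m6,
      ?_, m8, ?_, ?_⟩
    · rw [← add_assoc]; exact m7
    · intro w hw
      obtain ⟨w3, g5, k3, g6⟩ := m9 w hw
      obtain ⟨w4, g7, k4, g8⟩ := h7 w3 g5
      exact ⟨w4, g7, k4 + k3, by rw [g6, g8]; module⟩
    · obtain ⟨w4, g7, k4, g8⟩ := h7 w2 g3
      exact ⟨w1 + w4, L'.add_mem g1 g7, k1 + k4 + k2, by rw [g4, g2, g8]; module⟩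
  · exact ⟨v, L', 0, hok.seq, le_rfl, dvd_zero c, by ring, hA, by linarith, by
      rw [add_zero]; exact ha, hc, fun w hw => ⟨w, hw, 0, by module⟩,
      0, L'.zero_mem, 0, by module⟩

/-- NODE LEMMA on the left, with the new `u` -/
theorem SEq.nodeU {L L' : AddSubgroup Z2} {u v : Z2} {a b : ℤ} (hok : PSt.Ok ⟨L, u, v, L'⟩)
    (ha : IsArea L a) (hb : IsC L v b) :
    ∃ (u1 : Z2) (L1 : AddSubgroup Z2) (θ : ℤ), SEq ⟨L, u, v, L'⟩ ⟨L1, u1, v, L'⟩ ∧ 0 ≤ θ ∧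
      b ∣ θ ∧ cr u1 v = cr u v - θ ∧ 0 < cr u1 v ∧ cr u1 v ≤ b ∧ IsArea L1 (a + θ) ∧
      IsC L1 v b ∧ ∃ w1 ∈ L, ∃ k : ℤ, u1 = u + w1 + k • v := by
  have m1 := SEq.mirror hok
  have e1 : cr v (-u) = cr u v := by rw [cr_neg_right, cr_swap v u, neg_neg]
  obtain ⟨v1, L1, θ, k1, k2, k3, k4, k5, k6, k7, k8, -, w1, g1, k, g2⟩ :=
    SEq.nodeV _ rfl m1.ok' ha hb
  have m2 := SEq.mirror k1.ok'
  have m3 := SEq.neg m2.ok'
  -- `(L1, v1, -v, L')` and its negative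
  have e2 : cr (-v1) v = cr v v1 := by rw [cr_neg_left, cr_swap v1 v, neg_neg]
  rw [neg_neg] at m3
  refine ⟨-v1, L1, θ, (m1.trans k1).trans (m2.trans m3), k2, k3, ?_, ?_, ?_, k7, k8, -w1,
    L.neg_mem g1, -k, ?_⟩
  · rw [e2, k4, e1]
  · rw [e2]; exact k5
  · rw [e2]; exact k6
  · rw [g2]; module

/-- WC2 with the weaker condition -/
theorem SEq.wc2u {N : ℕ} (hN : N.Prime) {L L' : AddSubgroup Z2} {u v D : Z2} {a a' b : ℤ}
    (hok : PSt.Ok ⟨L, u, v, L'⟩) (ha : IsArea L a) (ha' : IsArea L' a')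
    (hv : a + cr u v + a' = N) (hb : IsC L v b) (hbA : b ∣ cr u v)
    (hD : b • D = (a + cr u v) • v)
    (h2 : ∀ r : ℕ, r.Prime → (r : ℤ) ∣ b → (r : ℤ) ∣ a → ¬ (r : ℤ) ∣ a' →
      ¬ Dz r D ∨ (¬ Dz r u ∧ Dz r v ∧ ∀ w ∈ L, Dz r w)) :
    ∃ (L1 : AddSubgroup Z2) (u1 : Z2) (c : ℤ), SEq ⟨L, u, v, L'⟩ ⟨L1, u1, v, L'⟩ ∧
      IsArea L1 (a + cr u v - b) ∧ cr u1 v = b ∧ IsC L1 v b ∧
      IsC L' u1 c ∧ ∀ w ∈ L', Dz c w := by
  have hA0 : 0 < cr u v := hok.pos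
  obtain ⟨u1, L1, θ, k1, k2, k3, k4, k5, k6, k7, k8, w1, g1, k, g2⟩ := SEq.nodeU hok ha hb
  have h3 : cr u1 v = b := by
    have h3 : b ∣ cr u1 v := by rw [k4]; exact dvd_sub hbA k3
    exact le_antisymm k6 (Int.le_of_dvd k5 h3)
  have h4 : θ = cr u v - b := by linarith
  rw [h4] at k7 k3
  have h5 : a + (cr u v - b) = a + cr u v - b := by ring
  rw [h5] at k7
  obtain ⟨L2, u2, c, m1, m2, m3, m4, m5, m6⟩ := SEq.xone2 hN k1.ok' k7 ha'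
    (by rw [h3]; linarith) (by rw [h3]; exact k8) (D := D)
    (by rw [h3, hD]; congr 1; ring) (fun r hr h6 h7 h8 => by
      rw [h3] at h6
      by_cases hra : (r : ℤ) ∣ a
      · rcases h2 r hr h6 hra h7 with h9 | ⟨h9, h10, h11⟩
        · exact h9 h8.2
        · apply h9
          have h12 := (h8.1.sub (h11 w1 g1)).sub (h10.smul k)
          have e : u1 - w1 - k • v = u := by rw [g2]; module
          rwa [e] at h12
      · -- `u1 × D = a + A`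
        have h9 : cr u1 D = a + cr u v := by
          have h10 : b * cr u1 D = b * (a + cr u v) := by
            rw [← cr_smul_right, hD, cr_smul_right, h3]; ring
          exact mul_left_cancel₀ hb.1.ne' h10
        have h10 : (r : ℤ) ∣ a + cr u v := by rw [← h9]; exact h8.1.cr_left D
        apply hra
        have := dvd_sub h10 (h6.trans hbA)
        rwa [add_sub_cancel_right] at this)
  rw [h3] at m3 m4
  exact ⟨L2, u2, c, k1.trans m1, m2, m3, m4, m5, m6⟩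

/-- the end of the proof with the weaker condition -/
theorem SEq.wc_end2u {N : ℕ} (hN : N.Prime) {S : PSt} {L L' : AddSubgroup Z2} {u v D : Z2}
    {a a' b : ℤ} (hS : SEq S ⟨L, u, v, L'⟩) (ha : IsArea L a) (ha' : IsArea L' a')
    (hv : a + cr u v + a' = N) (hb : IsC L v b) (hbA : b ∣ cr u v)
    (hD : b • D = (a + cr u v) • v)
    (h2 : ∀ r : ℕ, r.Prime → (r : ℤ) ∣ b → (r : ℤ) ∣ a → ¬ (r : ℤ) ∣ a' →
      ¬ Dz r D ∨ (¬ Dz r u ∧ Dz r v ∧ ∀ w ∈ L, Dz r w))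
    {P : ℤ → Prop} (hP : ∀ c : ℤ, 0 < c → (∀ w ∈ L', Dz c w) → P c) :
    ∃ (T : PSt) (d : ℤ), SEq S T ∧ IsC T.L T.v d ∧ P d := by
  obtain ⟨L1, u1, c, m1, m2, m3, m4, m6, m7⟩ := SEq.wc2u hN hS.ok' ha ha' hv hb hbA hD h2
  have m8 := SEq.mirror (L := L1) (L' := L') (u := u1) (v := v) m1.ok'
  exact ⟨_, c, hS.trans (m1.trans m8), m6.neg, hP c m6.1 m7⟩

/-- a number with no odd prime factor and not divisible by four is at most two -/
theorem le_two_of {d : ℤ} (hd0 : 0 < d) (h5 : ∀ r : ℕ, r.Prime → (r : ℤ) ∣ d → r = 2)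
    (h6 : ¬ (4 : ℤ) ∣ d) : d ≤ 2 := by
  obtain ⟨m, rfl⟩ := Int.eq_ofNat_of_zero_le hd0.le
  by_contra hgt
  have hm3 : 3 ≤ m := by omega
  obtain ⟨q, hq, hqm⟩ := Nat.exists_prime_and_dvd (show m ≠ 1 by omega)
  have := h5 q hq (by exact_mod_cast hqm)
  subst this
  obtain ⟨k, rfl⟩ := hqm
  have hk1 : k ≠ 1 := by rintro rfl; omega
  obtain ⟨q, hq, hqk⟩ := Nat.exists_prime_and_dvd hk1
  have := h5 q hq (by exact_mod_cast hqk.mul_left _)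
  subst this
  exact h6 (by obtain ⟨j, rfl⟩ := hqk; exact ⟨j, by push_cast; ring⟩)

variable {K : ℤ} {S : PSt} {a' b c A a e f Y φ : ℤ} {l p l' p' : Z2}

/-- END 2 with the weaker condition: content at most two -/
theorem KF.fin2u {N : ℕ} (hN : N.Prime) (h : KF K S a' b c A a e f Y φ l p l' p')
    (hv : a + A + a' = N) {n q τ κ : ℤ} (hny : n * c < a')
    (hS : SEq S ⟨S.L, S.u, xvK S l' p' n q τ, xLK S l' p' n τ⟩)
    (hκ : IsC S.L (xvK S l' p' n q τ) κ) (hd : κ ∣ A + n * c)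
    (hD : ∀ r : ℕ, r.Prime → (r : ℤ) ∣ κ → (r : ℤ) ∣ a → ¬ (r : ℤ) ∣ a' - n * c → ∀ D : Z2,
      κ • D = (a + (A + n * c)) • xvK S l' p' n q τ →
      ¬ Dz r D ∨ (¬ Dz r S.u ∧ Dz r (xvK S l' p' n q τ) ∧ ∀ w ∈ S.L, Dz r w))
    (hodd : ∀ r : ℕ, r.Prime → r ≠ 2 → ¬ (Dz r (l' - n • S.u) ∧ Dz r (p' + τ • S.u)))
    (h4 : ¬ (Dz 4 (l' - n • S.u) ∧ Dz 4 (p' + τ • S.u))) :
    ∃ (T : PSt) (d : ℤ), SEq S T ∧ IsC T.L T.v d ∧ d ≤ 2 := by
  obtain ⟨D, hDD⟩ := h.exists_D hκ hd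
  have hA1 := h.xA n q τ
  have hvol : a + cr S.u (xvK S l' p' n q τ) + (a' - n * c) = N := by
    rw [hA1, ← hv]; ring
  refine SEq.wc_end2u hN hS h.area (h.xarea hny) hvol hκ (by rw [hA1]; exact hd)
    (by rw [hA1]; exact hDD) (fun r hr h1 h2 h3 => hD r hr h1 h2 h3 D hDD) (P := fun d => d ≤ 2)
    (fun d hd0 hdz => ?_)
  refine le_two_of hd0 (fun r hr hrd => ?_) (fun h7 => h4 (dz_lat.1 fun w hw =>
    (hdz w hw).trans' h7))
  by_contra h2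
  exact hodd r hr h2 (dz_lat.1 fun w hw => (hdz w hw).trans' hrd)

end Pool.Agent.H4G
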