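import Pool.Agent.H4G.Arith.K2Two
import Pool.Agent.H4G.Arith.KM
import Pool.Agent.H4G.Arith.KEnd

/-!
# LINE B, `K = 2`: the ends (page K2L1 of helper40, section D; helper5)

`R = 2 (Y + 2) c / A`, `ϖ = 2 t Y + 2 n φ - i n (R - 4)`, window `4 n c < o A ϖ ≤ 2 Y c`.
-/

set_option autoImplicit false

namespace Pool.Agent.H4G

variable {S : PSt} {a' b c A a e f Y φ : ℤ} {l p l' p' : Z2}

theorem odd_coprime_two {r : ℕ} (hr : r.Prime) (hr2 : r ≠ 2) : ¬ (r : ℤ) ∣ 2 := by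
  intro h3
  have h4 : r ∣ 2 := by exact_mod_cast h3
  exact hr2 ((Nat.prime_dvd_prime_iff_eq hr Nat.prime_two).1 h4)

/-- the number of `KF.exit` -/
theorem KF.exitNum {R n t i ϖ : ℤ} (hR : A * R = 2 * ((Y + 2) * c))
    (hx : ϖ = 2 * t * Y + 2 * n * φ - i * n * (R - 4)) :
    2 * (t * Y * A + n * (φ * A - i * (Y * c + 2 * c - 2 * A))) = A * ϖ := by
  rw [hx]; linear_combination (i * n) * hR

/-- EXIT of level `n` with the integer `R` -/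
theorem KF.exitR (h : KF 2 S a' b c A a e f Y φ l p l' p') {R n o t i ϖ q τ : ℤ} (hn : 0 ≤ n)
    (ho : o = 1 ∨ o = -1) (hco : IsCoprime t n) (hR : A * R = 2 * ((Y + 2) * c))
    (hx : ϖ = 2 * t * Y + 2 * n * φ - i * n * (R - 4)) (hq : q = o + i * (1 + n))
    (hτ : τ = t + i) (h1 : 4 * n * c < o * (A * ϖ)) (h2 : o * (A * ϖ) ≤ 2 * (Y * c)) :
    SEq S ⟨S.L, S.u, xvK S l' p' n q τ, xLK S l' p' n τ⟩ ∧ IsC (xLK S l' p' n τ) S.u c := by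
  have e := KF.exitNum (φ := φ) hR hx
  subst hq hτ
  refine h.exit hn ho hco ?_ ?_
  · rw [← e] at h1
    rcases ho with rfl | rfl <;> linarith
  · rw [← e] at h2
    rcases ho with rfl | rfl <;> linarith

/-- END 1 -/
theorem KF.end1R {N : ℕ} (hN : N.Prime) (h : KF 2 S a' b c A a e f Y φ l p l' p')
    (hv : a + A + a' = N) (he3 : e < 3 * A) {R n o t i ϖ q τ : ℤ} (hn : 0 ≤ n)
    (ho : o = 1 ∨ o = -1) (hco : IsCoprime t n) (hR : A * R = 2 * ((Y + 2) * c))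
    (hx : ϖ = 2 * t * Y + 2 * n * φ - i * n * (R - 4)) (hq : q = o + i * (1 + n))
    (hτ : τ = t + i) (h1 : 4 * n * c < o * (A * ϖ)) (h2 : o * (A * ϖ) ≤ 2 * (Y * c)) {κ : ℤ}
    (hκ : IsC S.L (xvK S l' p' n q τ) κ) (hd : κ ∣ A + n * c) {zp : ℤ} (hz : zp ∣ c)
    (hz2 : ¬ (2 : ℤ) ∣ zp) (hzA : IsCoprime zp A) : zp ∣ Y - 2 * n ∧ zp ∣ ϖ := by
  have e := KF.exitNum (φ := φ) hR hx
  have hc0 := h.c0
  have hA0 := h.A0
  have hno : ∀ d : ℤ, 0 < d → d ∣ c → A ≤ d → d = c := by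
    rintro d hd0 ⟨m, hm⟩ hAd
    have hc := h.hc
    have hm0 : 0 < m := by
      have : 0 < d * m := by rw [← hm]; exact hc0
      exact (mul_pos_iff_of_pos_left hd0).1 this
    rcases (show m = 1 ∨ 2 ≤ m by omega) with rfl | hm2
    · rw [hm, mul_one]
    · exfalso
      have : d * 2 ≤ d * m := mul_le_mul_of_nonneg_left hm2 hd0.le
      linarith
  have key : ∀ (s m : ℕ), s.Prime → (s : ℤ) ^ m ∣ zp → 0 < m →
      (s : ℤ) ^ m ∣ Y - 2 * n ∧ (s : ℤ) ^ m ∣ ϖ := by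
    intro s m hs hsm hm0
    have hs0 : (s : ℤ) ∣ zp := (dvd_pow_self _ hm0.ne').trans hsm
    have hs2 : s ≠ 2 := by
      rintro rfl
      exact hz2 (by exact_mod_cast hs0)
    have hsA : ¬ (s : ℤ) ∣ A := by
      intro h3
      obtain ⟨x, y, hxy⟩ := hzA
      exact prime_not_dvd_one hs (by rw [← hxy]; exact dvd_add (hs0.mul_left _) (h3.mul_left _))
    have hsc : (s : ℤ) ^ m ∣ c := hsm.trans hz
    have h3 : Dz ((s : ℤ) ^ m) (l' - n • S.u) ∧ Dz ((s : ℤ) ^ m) (p' + τ • S.u) := by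
      subst hq hτ
      refine KF.rcont hN h hv hno hn ho hco ?_ ?_ hκ hd hs hm0 hsc hsA
      · rw [← e] at h1
        rcases ho with rfl | rfl <;> linarith
      · rw [← e] at h2
        rcases ho with rfl | rfl <;> linarith
    have hcoA : IsCoprime ((s : ℤ) ^ m) A := isCoprime_pow_prime hs hsA m
    obtain ⟨h4, h5⟩ := (h.content (isCoprime_pow_prime hs (odd_coprime_two hs hs2) m)).1 h3
    have h6 : (s : ℤ) ^ m ∣ Y - 2 * n := by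
      have h7 := h4.cr_left S.v
      rw [cr_smul_left, h.hA] at h7
      have h8 := hcoA.dvd_of_dvd_mul_right h7
      have e1 : Y - 2 * n = Y - n * 2 := by ring
      rw [e1]; exact h8
    have h7 : (s : ℤ) ^ m ∣ φ + 2 * τ := by
      have h8 := h5.cr_left S.v
      rw [cr_add_left, cr_smul_left, cr_add_left, cr_self, h.lv, h.hA, add_zero, add_zero] at h8
      exact hcoA.dvd_of_dvd_mul_right h8
    refine ⟨h6, ?_⟩
    have h8 : (s : ℤ) ^ m ∣ A * ϖ := by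
      have e1 : A * ϖ = 2 * n * A * (φ + 2 * τ) + 2 * t * A * (Y - 2 * n) -
          2 * (i * n) * (Y + 2) * c := by
        rw [hx, hτ]; linear_combination (-(i * n)) * hR
      rw [e1]
      exact dvd_sub (dvd_add (h7.mul_left _) (h6.mul_left _)) (hsc.mul_left _)
    exact hcoA.dvd_of_dvd_mul_left h8
  constructor
  · refine dvd_of_prime_pow fun s m hs hsm => ?_
    rcases Nat.eq_zero_or_pos m with hm | hm
    · rw [hm, pow_zero]; exact one_dvd _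
    · exact (key s m hs hsm hm).1
  · refine dvd_of_prime_pow fun s m hs hsm => ?_
    rcases Nat.eq_zero_or_pos m with hm | hm
    · rw [hm, pow_zero]; exact one_dvd _
    · exact (key s m hs hsm hm).2

/-- no content at an odd prime which does not divide `n (n + 1)`, if all odd primes of `c`
divide `A` -/
theorem KF.no_content (h : KF 2 S a' b c A a e f Y φ l p l' p') (hF : S.Full)
    (he3 : e < 3 * A) {n τ : ℤ} {r : ℕ} (hr : r.Prime) (hr2 : r ≠ 2)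
    (hcA : (r : ℤ) ∣ c → (r : ℤ) ∣ A) (hn : ¬ (r : ℤ) ∣ n) (hn1 : ¬ (r : ℤ) ∣ n + 1) :
    ¬ (Dz r (l' - n • S.u) ∧ Dz r (p' + τ • S.u)) := by
  have hri := Nat.prime_iff_prime_int.1 hr
  have hr2' := odd_coprime_two hr hr2
  intro h1
  have h1' : Dz ((r : ℤ) ^ 1) (l' - n • S.u) ∧ Dz ((r : ℤ) ^ 1) (p' + τ • S.u) := by
    rw [pow_one]; exact h1
  obtain ⟨h4, h5⟩ := (h.content (isCoprime_pow_prime hr hr2' 1)).1 h1'
  rw [pow_one] at h4 h5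
  have hc : (r : ℤ) ∣ c := by
    have h8 := h5.cr_right S.u
    rw [cr_add_right, cr_smul_right, cr_self, h.uw, mul_zero, zero_add] at h8
    exact (hri.dvd_or_dvd h8).resolve_left hr2'
  have hA := hcA hc
  have hYn : ¬ (r : ℤ) ∣ Y - n * 2 := by
    intro h6
    by_cases hY : (r : ℤ) ∣ Y
    · have h7 : (r : ℤ) ∣ n * 2 := by
        have e1 : n * 2 = Y - (Y - n * 2) := by ring
        rw [e1]; exact dvd_sub hY h6
      rcases hri.dvd_or_dvd h7 with h8 | h8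
      · exact hn h8
      · exact hr2' h8
    · have h7 := h.fd hF (Or.inl rfl) he3 hr hr2' hA hc hY (k := 0) (by simp)
      rw [zero_add, pow_one] at h7
      have h8 : (r : ℤ) ∣ 2 * (n + 1) := by
        have e1 : 2 * (n + 1) = (2 + Y) - (Y - n * 2) := by ring
        rw [e1]; exact dvd_sub h7 h6
      rcases hri.dvd_or_dvd h8 with h9 | h9
      · exact hr2' h9
      · exact hn1 h9
  have hu : Dz r S.u := (h4.mul_prime hr).resolve_left hYn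
  have hw : Dz r (S.v + l) := by
    have e1 : S.v + l = ((φ + 2 * τ) • S.u + (S.v + l)) - (φ + 2 * τ) • S.u := by module
    rw [e1]; exact h5.sub (hu.smul _)
  have hl' : Dz r l' := by
    have e1 : l' = (l' - n • S.u) + n • S.u := by module
    rw [e1]; exact h1.1.add (hu.smul n)
  have hp' : Dz r p' := by
    have e1 : p' = (p' + τ • S.u) - τ • S.u := by module
    rw [e1]; exact h1.2.sub (hu.smul τ)
  exact con1_lat.1 h.Cl r hr ⟨hl', hp'⟩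

/-- END 2 -/
theorem KF.end2R {N : ℕ} (hN : N.Prime) (h : KF 2 S a' b c A a e f Y φ l p l' p')
    (hF : S.Full) (hv : a + A + a' = N) (he3 : e < 3 * A) {R n o t i ϖ q τ : ℤ} (hn : 0 ≤ n)
    (ho : o = 1 ∨ o = -1) (hco : IsCoprime t n) (hR : A * R = 2 * ((Y + 2) * c))
    (hx : ϖ = 2 * t * Y + 2 * n * φ - i * n * (R - 4)) (hq : q = o + i * (1 + n))
    (hτ : τ = t + i) (h1 : 4 * n * c < o * (A * ϖ)) (h2 : o * (A * ϖ) ≤ 2 * (Y * c))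
    (hcA : ∀ r : ℕ, r.Prime → r ≠ 2 → (r : ℤ) ∣ c →
      (r : ℤ) ∣ A ∧ ¬ (r : ℤ) ∣ n ∧ ¬ (r : ℤ) ∣ n + 1) {κ : ℤ}
    (hκ : IsC S.L (xvK S l' p' n q τ) κ) (hd : κ ∣ A + n * c)
    (hD : ∀ r : ℕ, r.Prime → (r : ℤ) ∣ κ → (r : ℤ) ∣ a → ∀ D : Z2,
      κ • D = (a + (A + n * c)) • xvK S l' p' n q τ →
      ¬ Dz r D ∨ (¬ Dz r S.u ∧ Dz r (xvK S l' p' n q τ) ∧ ∀ w ∈ S.L, Dz r w))
    (h4 : ¬ (Dz 4 (l' - n • S.u) ∧ Dz 4 (p' + τ • S.u))) :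
    ∃ (T : PSt) (d : ℤ), SEq S T ∧ IsC T.L T.v d ∧ d ≤ 2 := by
  obtain ⟨k1, k2⟩ := h.exitR hn ho hco hR hx hq hτ h1 h2
  have hny : n * c < a' := by
    have h3 := h.hy
    have h4 : 4 * n * c < 2 * (Y * c) := lt_of_lt_of_le h1 h2
    linarith
  refine KF.fin2u hN h hv hny k1 hκ hd (fun r hr g1 g2 _ D g3 => hD r hr g1 g2 D g3)
    (fun r hr hr2 g1 => ?_) h4
  by_cases hrc : (r : ℤ) ∣ c
  · obtain ⟨g2, g3, g4⟩ := hcA r hr hr2 hrc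
    exact h.no_content hF he3 hr hr2 (fun _ => g2) g3 g4 g1
  · apply hrc
    have h8 := g1.2.cr_right S.u
    rw [cr_add_right, cr_smul_right, cr_self, h.up', mul_zero, add_zero] at h8
    exact h8

/-- the content four: `4 ∣ c` -/
theorem KF.four_c (h : KF 2 S a' b c A a e f Y φ l p l' p') {n τ : ℤ} (hc : ¬ (4 : ℤ) ∣ c) :
    ¬ (Dz 4 (l' - n • S.u) ∧ Dz 4 (p' + τ • S.u)) := by
  rintro ⟨-, h1⟩
  apply hc
  have h8 := h1.cr_right S.u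
  rw [cr_add_right, cr_smul_right, cr_self, h.up', mul_zero, add_zero] at h8
  exact h8

/-- a class of `τ` modulo two with odd content -/
theorem KF.four_par (h : KF 2 S a' b c A a e f Y φ l p l' p') (n : ℤ) :
    ∃ π : ℤ, ∀ τ : ℤ, (2 : ℤ) ∣ τ - π → ¬ (Dz 4 (l' - n • S.u) ∧ Dz 4 (p' + τ • S.u)) := by
  have h24 : (2 : ℤ) ∣ 4 := ⟨2, by norm_num⟩
  by_cases hu : Dz 2 S.u
  · refine ⟨0, fun τ _ => ?_⟩
    rintro ⟨h1, h2⟩
    have hl' : Dz ((2 : ℕ) : ℤ) l' := by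
      have e1 : l' = (l' - n • S.u) + n • S.u := by module
      rw [e1]; exact_mod_cast (h1.trans' h24).add (hu.smul n)
    have hp' : Dz ((2 : ℕ) : ℤ) p' := by
      have e1 : p' = (p' + τ • S.u) - τ • S.u := by module
      rw [e1]; exact_mod_cast (h2.trans' h24).sub (hu.smul τ)
    exact con1_lat.1 h.Cl 2 Nat.prime_two ⟨hl', hp'⟩
  · by_cases hex : ∃ τ1 : ℤ, Dz 2 (p' + τ1 • S.u)
    · obtain ⟨τ1, h1⟩ := hex
      refine ⟨τ1 + 1, fun τ hτ => ?_⟩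
      rintro ⟨-, h2⟩
      have h3 : Dz ((2 : ℕ) : ℤ) ((τ - τ1) • S.u) := by
        have e1 : (τ - τ1) • S.u = (p' + τ • S.u) - (p' + τ1 • S.u) := by module
        rw [e1]; exact_mod_cast (h2.trans' h24).sub h1
      rcases h3.mul_prime Nat.prime_two with h4 | h4
      · push_cast at h4
        omega
      · exact hu (by exact_mod_cast h4)
    · push Not at hex
      refine ⟨0, fun τ _ => ?_⟩
      rintro ⟨-, h2⟩
      exact hex τ (h2.trans' h24)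

/-- type P1: `8 ∣ ϖ` gives the good class of `τ` -/
theorem KF.p1_tau (h : KF 2 S a' b c A a e f Y φ l p l' p') {N : ℕ} (hN : N.Prime)
    (hv : a + A + a' = N) (hA2 : ¬ (2 : ℤ) ∣ A) (ha2 : (2 : ℤ) ∣ a) (hY4 : ¬ (4 : ℤ) ∣ Y)
    {R t i ϖ τ : ℤ} (hR : A * R = 2 * ((Y + 2) * c)) (hx : ϖ = 2 * t * Y + 2 * φ - i * (R - 4))
    (hτ : τ = t + i) (h8 : (8 : ℤ) ∣ ϖ) : (4 : ℤ) ∣ 2 * τ + φ := by
  obtain ⟨he, -, hc, -, hY, hφ⟩ := h.typeP hN hv hA2 ha2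
  have hR16 : (16 : ℤ) ∣ R := by
    obtain ⟨c1, hc1⟩ := hc
    obtain ⟨y, hy⟩ : (4 : ℤ) ∣ Y + 2 := by omega
    have h1 : (2 : ℤ) ^ 4 ∣ A * R := by rw [hR, hc1, hy]; exact ⟨y * c1, by ring⟩
    have h2 := odd_cancel hA2 h1
    norm_num at h2
    exact h2
  obtain ⟨R1, hR1⟩ := hR16
  obtain ⟨y, hy⟩ : ∃ y, Y = 4 * y + 2 := ⟨Y / 4, by omega⟩
  obtain ⟨w, hw⟩ := h8
  obtain ⟨φ1, hφ1⟩ := hφ
  have e1 : 8 * w = 8 * (t * y - 2 * (i * R1)) + 4 * (t + i) + 4 * φ1 := by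
    rw [← hw, hx, hR1, hy, hφ1]; ring
  rw [hτ, hφ1]
  omega

/-- type P1: the content four -/
theorem KF.p1_four (h : KF 2 S a' b c A a e f Y φ l p l' p') {N : ℕ} (hN : N.Prime)
    (hv : a + A + a' = N) (hA2 : ¬ (2 : ℤ) ∣ A) (ha2 : (2 : ℤ) ∣ a)
    {R t i ϖ τ : ℤ} (hR : A * R = 2 * ((Y + 2) * c)) (hx : ϖ = 2 * t * Y + 2 * φ - i * (R - 4))
    (hτ : τ = t + i) (h16 : (8 : ℤ) ∣ Y - 2 → (4 : ℤ) ∣ c → ¬ (16 : ℤ) ∣ ϖ) :
    ¬ (Dz 4 (l' - (1 : ℤ) • S.u) ∧ Dz 4 (p' + τ • S.u)) := by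
  obtain ⟨he, -, hc, -, hY, hφ⟩ := h.typeP hN hv hA2 ha2
  rintro ⟨h1, h2⟩
  have hc4 : (4 : ℤ) ∣ c := by
    by_contra h3
    exact h.four_c h3 ⟨h1, h2⟩
  have hA4 : IsCoprime (8 : ℤ) A := by
    have : IsCoprime ((2 : ℤ) ^ 3) A := ((Int.prime_two.coprime_iff_not_dvd).2 hA2).pow_left
    norm_num at this
    exact this
  -- `8 ∣ Y - 2`
  have hY8 : (8 : ℤ) ∣ Y - 2 := by
    have h3 : Dz 8 ((Y - 2) • S.u) := by
      have e1 : (Y - 2) • S.u = (2 : ℤ) • (l' - (1 : ℤ) • S.u) := by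
        have : (2 : ℤ) • (l' - (1 : ℤ) • S.u) = (2 : ℤ) • l' - (2 : ℤ) • S.u := by module
        rw [this, h.hl']; module
      rw [e1]
      obtain ⟨z, hz⟩ := h1
      exact ⟨z, by rw [hz]; module⟩
    have h4 := h3.cr_left S.v
    rw [cr_smul_left, h.hA] at h4
    exact hA4.dvd_of_dvd_mul_right h4
  have hφτ : (8 : ℤ) ∣ φ + 2 * τ := by
    have h3 : Dz 8 ((φ + 2 * τ) • S.u + (S.v + l)) := by
      have e1 : (φ + 2 * τ) • S.u + (S.v + l) = (2 : ℤ) • (p' + τ • S.u) := by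
        have : (2 : ℤ) • (p' + τ • S.u) = (2 : ℤ) • p' + (2 * τ) • S.u := by module
        rw [this, h.hp']; module
      rw [e1]
      obtain ⟨z, hz⟩ := h2
      exact ⟨z, by rw [hz]; module⟩
    have h4 := h3.cr_left S.v
    rw [cr_add_left, cr_smul_left, cr_add_left, cr_self, h.lv, h.hA, add_zero, add_zero] at h4
    exact hA4.dvd_of_dvd_mul_right h4
  refine h16 hY8 hc4 ?_
  have hR32 : (16 : ℤ) ∣ R := by
    obtain ⟨c1, hc1⟩ := hc4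
    obtain ⟨y, hy⟩ : (4 : ℤ) ∣ Y + 2 := by omega
    have h1 : (2 : ℤ) ^ 4 ∣ A * R := by rw [hR, hc1, hy]; exact ⟨2 * (y * c1), by ring⟩
    have h2 := odd_cancel hA2 h1
    norm_num at h2
    exact h2
  obtain ⟨R1, hR1⟩ := hR32
  obtain ⟨y, hy⟩ := hY8
  obtain ⟨w, hw⟩ := hφτ
  have e1 : ϖ = 16 * (t * y + w - i * R1) := by
    have e2 : Y = 8 * y + 2 := by linarith
    have e3 : φ = 8 * w - 2 * (t + i) := by rw [← hτ]; linarith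
    rw [hx, hR1, e2, e3]; ring
  rw [e1]
  exact dvd_mul_right _ _

/-- the parity of `τ` at fixed `x` if `α + β` is even -/
theorem par_tau {α β t i x gam : ℤ} (hg : gam ≠ 0) (hαβ : IsCoprime α β) (h2 : (2 : ℤ) ∣ α + β)
    (hx : t * (gam * α) - i * (gam * β) = gam * x) : (2 : ℤ) ∣ t + i - x := by
  have h1 : t * α - i * β = x := by
    refine mul_left_cancel₀ hg ?_
    linear_combination hx
  have hα : ¬ (2 : ℤ) ∣ α := by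
    intro h3
    obtain ⟨m, n, hmn⟩ := hαβ
    have h4 : (2 : ℤ) ∣ β := by omega
    have : (2 : ℤ) ∣ 1 := by rw [← hmn]; exact dvd_add (h3.mul_left _) (h4.mul_left _)
    omega
  obtain ⟨α1, hα1⟩ : ∃ α1, α = 2 * α1 + 1 := ⟨α / 2, by omega⟩
  obtain ⟨β1, hβ1⟩ : ∃ β1, β = 2 * β1 + 1 := ⟨β / 2, by omega⟩
  refine ⟨i + i * β1 - t * α1, ?_⟩
  rw [← h1, hα1, hβ1]; ring

/-! ## level one, in the index `x`: `ϖ = 2 φ + gam x` -/

/-- the odd primes are good at `x`, for END 1 -/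
def KGood1 (S : PSt) (l' p' : Z2) (A c a Y φ R α β gam x : ℤ) : Prop :=
  ∀ π : ℤ, ∃ t i : ℤ, 2 * t * Y + 2 * φ - i * (R - 4) = 2 * φ + gam * x ∧
    ((2 : ℤ) ∣ α + β ∨ (2 : ℤ) ∣ t + i - π) ∧
    ∀ κ : ℤ, IsC S.L (xvK S l' p' 1 (1 + 2 * i) (t + i)) κ →
      ∀ r : ℕ, r.Prime → r ≠ 2 → (r : ℤ) ∣ a → ∀ k : ℕ, (r : ℤ) ^ k ∣ κ → (r : ℤ) ^ k ∣ A + 1 * c

/-- the odd primes are good at `x`, for END 2 -/
def KGood2 (S : PSt) (l' p' : Z2) (A c a Y φ R α β gam x : ℤ) : Prop :=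
  ∀ π : ℤ, ∃ t i : ℤ, 2 * t * Y + 2 * φ - i * (R - 4) = 2 * φ + gam * x ∧
    ((2 : ℤ) ∣ α + β ∨ (2 : ℤ) ∣ t + i - π) ∧
    ∀ κ : ℤ, IsC S.L (xvK S l' p' 1 (1 + 2 * i) (t + i)) κ →
      (∀ r : ℕ, r.Prime → r ≠ 2 → (r : ℤ) ∣ a → ∀ k : ℕ, (r : ℤ) ^ k ∣ κ →
        (r : ℤ) ^ k ∣ A + 1 * c) ∧
      ∀ D : Z2, κ • D = (a + (A + 1 * c)) • xvK S l' p' 1 (1 + 2 * i) (t + i) →
        ∀ r : ℕ, r.Prime → r ≠ 2 → (r : ℤ) ∣ κ → (r : ℤ) ∣ a → ¬ Dz r D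

/-- the prime two is good at the class `P` of `(τ, ϖ)` -/
theorem KF.dvd1 (h : KF 2 S a' b c A a e f Y φ l p l' p') {q τ κ : ℤ}
    (hκ : IsC S.L (xvK S l' p' 1 q τ) κ)
    (hodd : ∀ r : ℕ, r.Prime → r ≠ 2 → (r : ℤ) ∣ a → ∀ k : ℕ, (r : ℤ) ^ k ∣ κ →
      (r : ℤ) ^ k ∣ A + 1 * c)
    (htwo : (2 : ℤ) ∣ a → ∀ k : ℕ, (2 : ℤ) ^ k ∣ κ → (2 : ℤ) ^ k ∣ A + 1 * c) :
    κ ∣ A + 1 * c := by
  refine h.kap_dvd hκ fun r hr hra k hk => ?_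
  by_cases hr2 : r = 2
  · subst hr2
    push_cast at hra hk ⊢
    exact htwo hra k hk
  · exact hodd r hr hr2 hra k hk

/-- level one, END 1, general form -/
theorem KF.one1 {N : ℕ} (hN : N.Prime) (h : KF 2 S a' b c A a e f Y φ l p l' p')
    (hv : a + A + a' = N) (he3 : e < 3 * A) {R α β gam x : ℤ} (hR : A * R = 2 * ((Y + 2) * c))
    (h1 : 4 * c < A * (2 * φ + gam * x)) (h2 : A * (2 * φ + gam * x) ≤ 2 * (Y * c))
    (hG : KGood1 S l' p' A c a Y φ R α β gam x) (π : ℤ)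
    (htwo : ∀ t i : ℤ, 2 * t * Y + 2 * φ - i * (R - 4) = 2 * φ + gam * x →
      ((2 : ℤ) ∣ α + β ∨ (2 : ℤ) ∣ t + i - π) →
      ∀ κ : ℤ, IsC S.L (xvK S l' p' 1 (1 + 2 * i) (t + i)) κ →
        (2 : ℤ) ∣ a → ∀ k : ℕ, (2 : ℤ) ^ k ∣ κ → (2 : ℤ) ^ k ∣ A + 1 * c)
    {zp : ℤ} (hz : zp ∣ c) (hz2 : ¬ (2 : ℤ) ∣ zp) (hzA : IsCoprime zp A) :
    zp ∣ Y - 2 ∧ zp ∣ 2 * φ + gam * x := by
  obtain ⟨t, i, g1, g2, g3⟩ := hG π
  have hx : 2 * φ + gam * x = 2 * t * Y + 2 * 1 * φ - i * 1 * (R - 4) := by rw [← g1]; ring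
  have hq : (1 : ℤ) + 2 * i = 1 + i * (1 + 1) := by ring
  have hco : IsCoprime t 1 := isCoprime_one_right
  have w1 : 4 * 1 * c < 1 * (A * (2 * φ + gam * x)) := by linarith
  have w2 : 1 * (A * (2 * φ + gam * x)) ≤ 2 * (Y * c) := by linarith
  obtain ⟨k1, -⟩ := h.exitR zero_le_one (Or.inl rfl) hco hR hx hq rfl w1 w2
  obtain ⟨κ, hκ⟩ := KF.exists_kap k1
  have hd := h.dvd1 hκ (g3 κ hκ) (htwo t i g1 g2 κ hκ)
  obtain ⟨m1, m2⟩ := KF.end1R hN h hv he3 zero_le_one (Or.inl rfl) hco hR hx hq rfl w1 w2 hκ hd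
    hz hz2 hzA
  exact ⟨by simpa using m1, m2⟩

/-- level one, END 2, general form -/
theorem KF.one2 {N : ℕ} (hN : N.Prime) (h : KF 2 S a' b c A a e f Y φ l p l' p')
    (hF : S.Full) (hv : a + A + a' = N) (he3 : e < 3 * A) {R α β gam x : ℤ}
    (hR : A * R = 2 * ((Y + 2) * c))
    (h1 : 4 * c < A * (2 * φ + gam * x)) (h2 : A * (2 * φ + gam * x) ≤ 2 * (Y * c))
    (hcA : ∀ r : ℕ, r.Prime → r ≠ 2 → (r : ℤ) ∣ c → (r : ℤ) ∣ A)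
    (hG : KGood2 S l' p' A c a Y φ R α β gam x) (π : ℤ)
    (htwo : ∀ t i : ℤ, 2 * t * Y + 2 * φ - i * (R - 4) = 2 * φ + gam * x →
      ((2 : ℤ) ∣ α + β ∨ (2 : ℤ) ∣ t + i - π) →
      (∀ κ : ℤ, IsC S.L (xvK S l' p' 1 (1 + 2 * i) (t + i)) κ →
        (2 : ℤ) ∣ a → (∀ k : ℕ, (2 : ℤ) ^ k ∣ κ → (2 : ℤ) ^ k ∣ A + 1 * c) ∧
          ∀ D : Z2, κ • D = (a + (A + 1 * c)) • xvK S l' p' 1 (1 + 2 * i) (t + i) →
            (2 : ℤ) ∣ κ → ¬ Dz 2 D) ∧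
      ¬ (Dz 4 (l' - (1 : ℤ) • S.u) ∧ Dz 4 (p' + (t + i) • S.u))) :
    ∃ (T : PSt) (d : ℤ), SEq S T ∧ IsC T.L T.v d ∧ d ≤ 2 := by
  obtain ⟨t, i, g1, g2, g3⟩ := hG π
  have hx : 2 * φ + gam * x = 2 * t * Y + 2 * 1 * φ - i * 1 * (R - 4) := by rw [← g1]; ring
  have hq : (1 : ℤ) + 2 * i = 1 + i * (1 + 1) := by ring
  have hco : IsCoprime t 1 := isCoprime_one_right
  have w1 : 4 * 1 * c < 1 * (A * (2 * φ + gam * x)) := by linarith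
  have w2 : 1 * (A * (2 * φ + gam * x)) ≤ 2 * (Y * c) := by linarith
  obtain ⟨k1, -⟩ := h.exitR zero_le_one (Or.inl rfl) hco hR hx hq rfl w1 w2
  obtain ⟨κ, hκ⟩ := KF.exists_kap k1
  obtain ⟨m1, m2⟩ := htwo t i g1 g2
  obtain ⟨n1, n2⟩ := g3 κ hκ
  have hd := h.dvd1 hκ n1 (fun ha2 => (m1 κ hκ ha2).1)
  refine KF.end2R hN h hF hv he3 zero_le_one (Or.inl rfl) hco hR hx hq rfl w1 w2
    (fun r hr hr2 hrc => ⟨hcA r hr hr2 hrc, prime_not_dvd_one hr, by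
      have := odd_coprime_two hr hr2
      norm_num
      exact this⟩) hκ hd (fun r hr g4 g5 D g6 => ?_) m2
  left
  by_cases hr2 : r = 2
  · subst hr2
    push_cast at g4 g5 ⊢
    exact (m1 κ hκ g5).2 D g6 g4
  · exact n2 D g6 r hr hr2 g4 g5

/-! ## the four types -/

/-- type I, END 1 -/
theorem KF.endI1 {N : ℕ} (hN : N.Prime) (h : KF 2 S a' b c A a e f Y φ l p l' p')
    (hv : a + A + a' = N) (he3 : e < 3 * A) (ha2 : ¬ (2 : ℤ) ∣ a) {R α β gam x : ℤ}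
    (hR : A * R = 2 * ((Y + 2) * c))
    (h1 : 4 * c < A * (2 * φ + gam * x)) (h2 : A * (2 * φ + gam * x) ≤ 2 * (Y * c))
    (hG : KGood1 S l' p' A c a Y φ R α β gam x)
    {zp : ℤ} (hz : zp ∣ c) (hz2 : ¬ (2 : ℤ) ∣ zp) (hzA : IsCoprime zp A) :
    zp ∣ Y - 2 ∧ zp ∣ 2 * φ + gam * x :=
  KF.one1 hN h hv he3 hR h1 h2 hG 0 (fun _ _ _ _ _ _ h3 => absurd h3 ha2) hz hz2 hzA

/-- type I, END 2 -/
theorem KF.endI2 {N : ℕ} (hN : N.Prime) (h : KF 2 S a' b c A a e f Y φ l p l' p')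
    (hF : S.Full) (hv : a + A + a' = N) (he3 : e < 3 * A) (ha2 : ¬ (2 : ℤ) ∣ a)
    {R α β gam : ℤ} (hR : A * R = 2 * ((Y + 2) * c)) (hα : 2 * Y = gam * α)
    (hβ : R - 4 = gam * β) (hg : gam ≠ 0) (hαβ : IsCoprime α β)
    (hcA : ∀ r : ℕ, r.Prime → r ≠ 2 → (r : ℤ) ∣ c → (r : ℤ) ∣ A) :
    ∃ π : ℤ, ∀ x : ℤ, 4 * c < A * (2 * φ + gam * x) → A * (2 * φ + gam * x) ≤ 2 * (Y * c) →
      ((2 : ℤ) ∣ α + β → (2 : ℤ) ∣ x - π) → KGood2 S l' p' A c a Y φ R α β gam x →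
      ∃ (T : PSt) (d : ℤ), SEq S T ∧ IsC T.L T.v d ∧ d ≤ 2 := by
  obtain ⟨π, hπ⟩ := h.four_par 1
  refine ⟨π, fun x h1 h2 h3 hG => ?_⟩
  refine KF.one2 hN h hF hv he3 hR h1 h2 hcA hG π fun t i g1 g2 =>
    ⟨fun _ _ h3 => absurd h3 ha2, hπ _ ?_⟩
  rcases g2 with g2 | g2
  · have h4 := par_tau hg hαβ g2 (t := t) (i := i) (x := x) (by
      rw [← hα, ← hβ]; linarith)
    have h5 := h3 g2
    have e1 : t + i - π = (t + i - x) + (x - π) := by ring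
    rw [e1]; exact dvd_add h4 h5
  · exact g2

/-- type P1: `gam` is four times an odd number, the classes of `x` -/
theorem KF.p1_class (h : KF 2 S a' b c A a e f Y φ l p l' p') {N : ℕ} (hN : N.Prime)
    (hv : a + A + a' = N) (hA2 : ¬ (2 : ℤ) ∣ A) (ha2 : (2 : ℤ) ∣ a) (hY4 : ¬ (4 : ℤ) ∣ Y)
    {R α β gam : ℤ} (hR : A * R = 2 * ((Y + 2) * c)) (hα : 2 * Y = gam * α)
    (hβ : R - 4 = gam * β) (hαβ : IsCoprime α β) :
    ∃ π π4 : ℤ, ∀ x : ℤ, (2 : ℤ) ∣ x - π →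
      (8 : ℤ) ∣ 2 * φ + gam * x ∧ (¬ (4 : ℤ) ∣ x - π4 → ¬ (16 : ℤ) ∣ 2 * φ + gam * x) := by
  obtain ⟨he, -, hc, -, hY, hφ⟩ := h.typeP hN hv hA2 ha2
  have hR4 : (4 : ℤ) ∣ R := by
    obtain ⟨c1, hc1⟩ := hc
    have h1 : (2 : ℤ) ^ 2 ∣ A * R := by rw [hR, hc1]; exact ⟨(Y + 2) * c1, by ring⟩
    have h2 := odd_cancel hA2 h1
    norm_num at h2
    exact h2
  have hg2 : (2 : ℤ) ∣ gam := by
    by_contra h1
    have h2 : (2 : ℤ) ∣ gam * α := by rw [← hα]; exact dvd_mul_right _ _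
    have h3 : (2 : ℤ) ∣ gam * β := by rw [← hβ]; omega
    have h4 := (two_mul_of h2).resolve_left h1
    have h5 := (two_mul_of h3).resolve_left h1
    obtain ⟨m, n, hmn⟩ := hαβ
    have : (2 : ℤ) ∣ 1 := by rw [← hmn]; exact dvd_add (h4.mul_left _) (h5.mul_left _)
    omega
  obtain ⟨g1, hg1⟩ := hg2
  have hg22 : (2 : ℤ) ∣ g1 := by
    by_contra h1
    have h2 : (2 : ℤ) ∣ g1 * α := by
      have e1 : g1 * α = Y := by
        have : 2 * (g1 * α) = 2 * Y := by rw [hα, hg1]; ring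
        linarith
      rw [e1]; exact hY
    have h3 : (2 : ℤ) ∣ g1 * β := by
      obtain ⟨R1, hR1⟩ := hR4
      have e1 : g1 * β = 2 * (R1 - 1) := by
        have : 2 * (g1 * β) = 2 * (2 * (R1 - 1)) := by
          have h4 : gam * β = 4 * R1 - 4 := by rw [← hβ, hR1]
          rw [hg1] at h4
          linarith
        linarith
      rw [e1]; exact dvd_mul_right _ _
    have h4 := (two_mul_of h2).resolve_left h1
    have h5 := (two_mul_of h3).resolve_left h1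
    obtain ⟨m, n, hmn⟩ := hαβ
    have : (2 : ℤ) ∣ 1 := by rw [← hmn]; exact dvd_add (h4.mul_left _) (h5.mul_left _)
    omega
  obtain ⟨g2, hg2⟩ := hg22
  have hgo : ¬ (2 : ℤ) ∣ g2 := by
    rintro ⟨g3, hg3⟩
    apply hY4
    refine ⟨g3 * α, ?_⟩
    have : 2 * Y = 2 * (4 * (g3 * α)) := by rw [hα, hg1, hg2, hg3]; ring
    linarith
  obtain ⟨φ1, hφ1⟩ := hφ
  obtain ⟨g3, hg3⟩ : ∃ g3, g2 = 2 * g3 + 1 := ⟨g2 / 2, by omega⟩
  have hgam : gam = 4 * g2 := by rw [hg1, hg2]; ring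
  refine ⟨φ1, -φ1 * g2, fun x hx => ⟨?_, fun h4 h16 => h4 ?_⟩⟩
  · obtain ⟨y, hy⟩ := hx
    refine ⟨φ1 + y + g3 * x, ?_⟩
    have e1 : x = 2 * y + φ1 := by linarith
    rw [hφ1, hgam, hg3, e1]; ring
  · obtain ⟨w, hw⟩ := h16
    have e1 : g2 * x = 4 * w - φ1 := by
      have : 4 * (g2 * x) = 4 * (4 * w - φ1) := by
        rw [hφ1, hgam] at hw; linarith
      linarith
    -- `g2 * g2 = 1` modulo 8
    have e2 : g2 * g2 = 4 * (g3 * (g3 + 1)) + 1 := by rw [hg3]; ring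
    refine ⟨g2 * w - g3 * (g3 + 1) * x, ?_⟩
    linear_combination g2 * e1 - x * e2

/-- type P1, END 1 -/
theorem KF.endP1 {N : ℕ} (hN : N.Prime) (h : KF 2 S a' b c A a e f Y φ l p l' p')
    (hv : a + A + a' = N) (he3 : e < 3 * A) (hA2 : ¬ (2 : ℤ) ∣ A) (ha2 : (2 : ℤ) ∣ a)
    (hY4 : ¬ (4 : ℤ) ∣ Y) {R α β gam x : ℤ} (hR : A * R = 2 * ((Y + 2) * c))
    (h1 : 4 * c < A * (2 * φ + gam * x)) (h2 : A * (2 * φ + gam * x) ≤ 2 * (Y * c))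
    (h8 : (8 : ℤ) ∣ 2 * φ + gam * x) (hG : KGood1 S l' p' A c a Y φ R α β gam x)
    {zp : ℤ} (hz : zp ∣ c) (hz2 : ¬ (2 : ℤ) ∣ zp) (hzA : IsCoprime zp A) :
    zp ∣ Y - 2 ∧ zp ∣ 2 * φ + gam * x := by
  refine KF.one1 hN h hv he3 hR h1 h2 hG 0 (fun t i g1 _ κ hκ _ k hk => ?_) hz hz2 hzA
  have h3 := h.p1_tau hN hv hA2 ha2 hY4 hR g1.symm rfl h8
  have h4 := h.typeP1 hN hv hA2 ha2 hY4 1 (1 + 2 * i) (t + i) κ (by norm_num) (by omega) h3 hκ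
  rcases Nat.eq_zero_or_pos k with hk0 | hk0
  · rw [hk0, pow_zero]; exact one_dvd _
  · exact absurd ((dvd_pow_self _ hk0.ne').trans hk) h4

/-- type P1, END 2 -/
theorem KF.endP2 {N : ℕ} (hN : N.Prime) (h : KF 2 S a' b c A a e f Y φ l p l' p')
    (hF : S.Full) (hv : a + A + a' = N) (he3 : e < 3 * A) (hA2 : ¬ (2 : ℤ) ∣ A)
    (ha2 : (2 : ℤ) ∣ a) (hY4 : ¬ (4 : ℤ) ∣ Y) {R α β gam x : ℤ}
    (hR : A * R = 2 * ((Y + 2) * c))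
    (hcA : ∀ r : ℕ, r.Prime → r ≠ 2 → (r : ℤ) ∣ c → (r : ℤ) ∣ A)
    (h1 : 4 * c < A * (2 * φ + gam * x)) (h2 : A * (2 * φ + gam * x) ≤ 2 * (Y * c))
    (h8 : (8 : ℤ) ∣ 2 * φ + gam * x)
    (h16 : (8 : ℤ) ∣ Y - 2 → (4 : ℤ) ∣ c → ¬ (16 : ℤ) ∣ 2 * φ + gam * x)
    (hG : KGood2 S l' p' A c a Y φ R α β gam x) :
    ∃ (T : PSt) (d : ℤ), SEq S T ∧ IsC T.L T.v d ∧ d ≤ 2 := by
  refine KF.one2 hN h hF hv he3 hR h1 h2 hcA hG 0 fun t i g1 _ => ⟨fun κ hκ _ => ?_, ?_⟩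
  · have h3 := h.p1_tau hN hv hA2 ha2 hY4 hR g1.symm rfl h8
    have h4 := h.typeP1 hN hv hA2 ha2 hY4 1 (1 + 2 * i) (t + i) κ (by norm_num) (by omega) h3 hκ
    refine ⟨fun k hk => ?_, fun D _ h5 => absurd h5 h4⟩
    rcases Nat.eq_zero_or_pos k with hk0 | hk0
    · rw [hk0, pow_zero]; exact one_dvd _
    · exact absurd ((dvd_pow_self _ hk0.ne').trans hk) h4
  · exact h.p1_four hN hv hA2 ha2 hR g1.symm rfl h16

/-- type Q: the class of `x`, if `α + β` is even -/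
theorem KF.endQ {N : ℕ} (hN : N.Prime) (h : KF 2 S a' b c A a e f Y φ l p l' p')
    (hF : S.Full) (hv : a + A + a' = N) (he3 : e < 3 * A) (hA2 : (2 : ℤ) ∣ A)
    (ha2 : (2 : ℤ) ∣ a) (hc2 : ¬ (2 : ℤ) ∣ c) (hL : ¬ ∀ w ∈ S.L, Dz 2 w)
    {R α β gam : ℤ} (hR : A * R = 2 * ((Y + 2) * c)) (hα : 2 * Y = gam * α)
    (hβ : R - 4 = gam * β) (hg : gam ≠ 0) (hαβ : IsCoprime α β) :
    ∃ π : ℤ, ∀ x : ℤ, 4 * c < A * (2 * φ + gam * x) → A * (2 * φ + gam * x) ≤ 2 * (Y * c) →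
      ((2 : ℤ) ∣ α + β → (2 : ℤ) ∣ x - π) →
      (KGood1 S l' p' A c a Y φ R α β gam x → ∀ zp : ℤ, zp ∣ c → ¬ (2 : ℤ) ∣ zp →
        IsCoprime zp A → zp ∣ Y - 2 ∧ zp ∣ 2 * φ + gam * x) ∧
      (KGood2 S l' p' A c a Y φ R α β gam x →
        (∀ r : ℕ, r.Prime → r ≠ 2 → (r : ℤ) ∣ c → (r : ℤ) ∣ A) →
        ∃ (T : PSt) (d : ℤ), SEq S T ∧ IsC T.L T.v d ∧ d ≤ 2) := by
  obtain ⟨π, hπ⟩ := h.typeQ hF hN hv hA2 ha2 hc2 hL
  have key : ∀ x t i κ : ℤ, ((2 : ℤ) ∣ α + β → (2 : ℤ) ∣ x - π) →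
      2 * t * Y + 2 * φ - i * (R - 4) = 2 * φ + gam * x →
      ((2 : ℤ) ∣ α + β ∨ (2 : ℤ) ∣ t + i - π) →
      IsC S.L (xvK S l' p' 1 (1 + 2 * i) (t + i)) κ → ¬ (2 : ℤ) ∣ κ := by
    intro x t i κ h3 g1 g2 hκ
    refine hπ 1 (1 + 2 * i) (t + i) κ (by norm_num) (by omega) ?_ hκ
    rcases g2 with g2 | g2
    · have h4 := par_tau hg hαβ g2 (t := t) (i := i) (x := x) (by
        rw [← hα, ← hβ]; linarith)
      have h5 := h3 g2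
      have e1 : t + i - π = (t + i - x) + (x - π) := by ring
      rw [e1]; exact dvd_add h4 h5
    · exact g2
  refine ⟨π, fun x h1 h2 h3 => ⟨fun hG zp hz hz2 hzA => ?_, fun hG hcA => ?_⟩⟩
  · refine KF.one1 hN h hv he3 hR h1 h2 hG π (fun t i g1 g2 κ hκ _ k hk => ?_) hz hz2 hzA
    have h4 := key x t i κ h3 g1 g2 hκ
    rcases Nat.eq_zero_or_pos k with hk0 | hk0
    · rw [hk0, pow_zero]; exact one_dvd _
    · exact absurd ((dvd_pow_self _ hk0.ne').trans hk) h4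
  · refine KF.one2 hN h hF hv he3 hR h1 h2 hcA hG π fun t i g1 g2 => ⟨fun κ hκ _ => ?_, ?_⟩
    · have h4 := key x t i κ h3 g1 g2 hκ
      refine ⟨fun k hk => ?_, fun D _ h5 => absurd h5 h4⟩
      rcases Nat.eq_zero_or_pos k with hk0 | hk0
      · rw [hk0, pow_zero]; exact one_dvd _
      · exact absurd ((dvd_pow_self _ hk0.ne').trans hk) h4
    · exact h.four_c fun h5 => hc2 (Dvd.dvd.trans ⟨2, by norm_num⟩ h5)

/-- type Q6 -/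
theorem KF.endQ6 {N : ℕ} (hN : N.Prime) (h : KF 2 S a' b c A a e f Y φ l p l' p')
    (hF : S.Full) (hv : a + A + a' = N) (he3 : e < 3 * A) (hA2 : (2 : ℤ) ∣ A)
    (ha2 : (2 : ℤ) ∣ a) (hc2 : (2 : ℤ) ∣ c) {R α β gam x : ℤ}
    (hR : A * R = 2 * ((Y + 2) * c))
    (h1 : 4 * c < A * (2 * φ + gam * x)) (h2 : A * (2 * φ + gam * x) ≤ 2 * (Y * c)) :
    (KGood1 S l' p' A c a Y φ R α β gam x → ∀ zp : ℤ, zp ∣ c → ¬ (2 : ℤ) ∣ zp →
      IsCoprime zp A → zp ∣ Y - 2 ∧ zp ∣ 2 * φ + gam * x) ∧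
    (KGood2 S l' p' A c a Y φ R α β gam x →
      (∀ r : ℕ, r.Prime → r ≠ 2 → (r : ℤ) ∣ c → (r : ℤ) ∣ A) →
      ∃ (T : PSt) (d : ℤ), SEq S T ∧ IsC T.L T.v d ∧ d ≤ 2) := by
  have hc4 : ¬ (4 : ℤ) ∣ c := by
    rcases (h.typeQ0 hN hv hA2 ha2).2.2 with k1 | k1
    · exact absurd hc2 k1.1
    · exact k1.2.1
  have key : ∀ i τ κ : ℤ, IsC S.L (xvK S l' p' 1 (1 + 2 * i) τ) κ → ∀ k : ℕ,
      (2 : ℤ) ^ k ∣ κ → (2 : ℤ) ^ k ∣ A + 1 * c := by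
    intro i τ κ hκ k hk
    obtain ⟨g1, g2, g3, g4⟩ := h.typeQ6_kap hN hv hA2 ha2 hc2 (n := 1) (by norm_num) hκ
    rcases (show k = 0 ∨ k = 1 ∨ 2 ≤ k by omega) with rfl | rfl | hk2
    · rw [pow_zero]; exact one_dvd _
    · rw [pow_one]; exact g3
    · exfalso
      apply g2
      have h5 : (2 : ℤ) ^ 2 ∣ (2 : ℤ) ^ k := pow_dvd_pow _ hk2
      norm_num at h5
      exact h5.trans hk
  refine ⟨fun hG zp hz hz2 hzA => ?_, fun hG hcA => ?_⟩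
  · exact KF.one1 hN h hv he3 hR h1 h2 hG 0 (fun t i _ _ κ hκ _ k hk => key i _ κ hκ k hk)
      hz hz2 hzA
  · refine KF.one2 hN h hF hv he3 hR h1 h2 hcA hG 0 fun t i g1 g2 => ⟨fun κ hκ _ => ?_, ?_⟩
    · exact ⟨key i _ κ hκ, fun D hD _ => h.typeQ6_D hN hv hA2 ha2 hc2 (n := 1) (by norm_num) hκ hD⟩
    · exact h.four_c hc4

end Pool.Agent.H4G
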