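import Pool.Agent.H4G.Arith.K2Sel40
import Pool.Agent.H4G.Arith.K1NumW

/-!
# LINE B, `K = 2`: the exits of levels two and four, selection and ends (helper40)
-/

set_option autoImplicit false

namespace Pool.Agent.H4G

variable {S : PSt} {a' b c A a e f Y φ : ℤ} {l p l' p' : Z2} {g1 m1 n0 A0 b0 hh : ℕ}

/-- a class of `ω = ω0 + g x` is a class of `x` -/
theorem class_x {m g : ℤ} (hco : IsCoprime m g) (ω0 ρ : ℤ) :
    ∃ ρ' : ℤ, ∀ x : ℤ, m ∣ ω0 + g * x - ρ → m ∣ x - ρ' := by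
  obtain ⟨u, v, huv⟩ := hco
  refine ⟨v * (ρ - ω0), fun x hx => ?_⟩
  have e1 : x - v * (ρ - ω0) = m * (u * x) + v * (ω0 + g * x - ρ) := by
    linear_combination (-x) * huv
  rw [e1]
  exact dvd_add (dvd_mul_right _ _) (hx.mul_left v)

/-- two classes modulo an odd prime can be avoided -/
theorem avoid_two {r : ℕ} (hr : r.Prime) (hr2 : r ≠ 2) (ρ σ : ℤ) :
    ∃ x : ℤ, ¬ (r : ℤ) ∣ x - ρ ∧ ¬ (r : ℤ) ∣ x - σ := by
  have h1 : ¬ (r : ℤ) ∣ 1 := prime_not_dvd_one hr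
  have h2 : ¬ (r : ℤ) ∣ 2 := odd_not_two hr hr2
  by_cases h3 : (r : ℤ) ∣ ρ + 1 - σ
  · refine ⟨ρ + 2, by simpa using h2, fun h4 => h1 ?_⟩
    have e1 : (1 : ℤ) = (ρ + 2 - σ) - (ρ + 1 - σ) := by ring
    rw [e1]; exact dvd_sub h4 h3
  · exact ⟨ρ + 1, by simpa using h1, h3⟩

/-- a window with one class for each prime of `P`, one more class modulo an odd prime `s`
(if `u = 1`) and a parity (if `v = 1`) -/
theorem window_cls (P : Finset ℕ) (hP : ∀ r ∈ P, r.Prime ∧ r ≠ 2) (ρ : ℕ → ℤ) {s : ℕ}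
    (hs : s.Prime) (hs2 : s ≠ 2) (σ ρ2 : ℤ) {u v : ℕ}
    {A g w lo hi : ℤ} (hA : 0 < A) (hg : 0 < g)
    (hn : 2 ^ (P.card + u + v) * (A * g) ≤ hi - lo) :
    ∃ x : ℤ, (lo < A * (w + g * x) ∧ A * (w + g * x) ≤ hi) ∧
      (∀ r ∈ P, ¬ (r : ℤ) ∣ x - ρ r) ∧ (u = 1 → ¬ (s : ℤ) ∣ x - σ) ∧
      (v = 1 → ¬ (2 : ℤ) ∣ x - ρ2) := by
  classical
  -- a point outside all classes
  have hcl : ∀ r : ℕ, ∃ x : ℤ, r.Prime → r ≠ 2 → ¬ (r : ℤ) ∣ x - ρ r ∧ ¬ (r : ℤ) ∣ x - σ := by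
    intro r
    by_cases hr : r.Prime ∧ r ≠ 2
    · obtain ⟨x, h1, h2⟩ := avoid_two hr.1 hr.2 (ρ r) σ
      exact ⟨x, fun _ _ => ⟨h1, h2⟩⟩
    · exact ⟨0, fun h1 h2 => absurd ⟨h1, h2⟩ hr⟩
  choose F hF using hcl
  obtain ⟨x0, hx0⟩ := crt_primes (insert 2 (insert s P)) (fun r hr => by
      rcases Finset.mem_insert.1 hr with h1 | h1
      · rw [h1]; exact Nat.prime_two
      rcases Finset.mem_insert.1 h1 with h2 | h2
      · rw [h2]; exact hs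
      · exact (hP r h2).1) (fun _ => 1) (fun r => if r = 2 then ρ2 + 1 else F r)
  have k2 : ¬ (2 : ℤ) ∣ x0 - ρ2 := by
    have h1 := hx0 2 (Finset.mem_insert_self _ _)
    simp only [pow_one, if_true] at h1
    push_cast at h1
    omega
  have ks : ∀ r : ℕ, r ∈ insert s P → r.Prime → r ≠ 2 →
      ¬ (r : ℤ) ∣ x0 - ρ r ∧ ¬ (r : ℤ) ∣ x0 - σ := by
    intro r hr hrp hr2
    have h1 := hx0 r (Finset.mem_insert_of_mem hr)
    simp only [pow_one, if_neg hr2] at h1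
    obtain ⟨h2, h3⟩ := hF r hrp hr2
    refine ⟨fun h4 => h2 ?_, fun h4 => h3 ?_⟩
    · have e1 : F r - ρ r = (x0 - ρ r) - (x0 - F r) := by ring
      rw [e1]; exact dvd_sub h4 h1
    · have e1 : F r - σ = (x0 - σ) - (x0 - F r) := by ring
      rw [e1]; exact dvd_sub h4 h1
  -- the index set
  set U : Finset ℕ := if u = 1 then {0} else ∅ with hU
  set V : Finset ℕ := if v = 1 then {2} else ∅ with hV
  have cU : U.card ≤ u := by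
    rw [hU]; split_ifs with h1
    · rw [h1]; simp
    · simp
  have cV : V.card ≤ v := by
    rw [hV]; split_ifs with h1
    · rw [h1]; simp
    · simp
  have cT : (P ∪ U ∪ V).card ≤ P.card + u + v :=
    (Finset.card_union_le _ _).trans (add_le_add ((Finset.card_union_le _ _).trans
      (add_le_add le_rfl cU)) cV)
  have hne0 : ∀ r ∈ P, r ≠ 0 ∧ r ≠ 2 := fun r hr => ⟨(hP r hr).1.ne_zero, (hP r hr).2⟩
  set M : ℕ → ℤ := fun i => if i = 0 then (s : ℤ) else (i : ℤ) with hM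
  set R : ℕ → ℤ := fun i => if i = 0 then σ else if i = 2 then ρ2 else ρ i with hR
  have hmem : ∀ i ∈ P ∪ U ∪ V, (i ∈ P) ∨ (i = 0 ∧ u = 1) ∨ (i = 2 ∧ v = 1) := by
    intro i hi
    rcases Finset.mem_union.1 hi with h1 | h1
    · rcases Finset.mem_union.1 h1 with h2 | h2
      · exact Or.inl h2
      · right; left
        rw [hU] at h2
        split_ifs at h2 with h3
        · exact ⟨Finset.mem_singleton.1 h2, h3⟩
        · exact absurd h2 (Finset.notMem_empty _)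
    · right; right
      rw [hV] at h1
      split_ifs at h1 with h3
      · exact ⟨Finset.mem_singleton.1 h1, h3⟩
      · exact absurd h1 (Finset.notMem_empty _)
  obtain ⟨x, hx, hxT⟩ := window_avoid (P ∪ U ∪ V) M R (x₀ := x0) (w := w) (lo := lo) (hi := hi)
    (fun i hi => by
      rcases hmem i hi with h1 | ⟨h1, -⟩ | ⟨h1, -⟩
      · have h2 := (hP i h1).1.pos
        simp only [hM, if_neg (hne0 i h1).1]
        exact_mod_cast h2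
      · have h2 := hs.pos
        simp only [hM, if_pos h1]
        exact_mod_cast h2
      · rw [h1]; simp [hM])
    (fun i hi => by
      rcases hmem i hi with h1 | ⟨h1, -⟩ | ⟨h1, -⟩
      · simp only [hM, hR, if_neg (hne0 i h1).1, if_neg (hne0 i h1).2]
        exact (ks i (Finset.mem_insert_of_mem h1) (hP i h1).1 (hP i h1).2).1
      · simp only [hM, hR, if_pos h1]
        exact (ks s (Finset.mem_insert_self _ _) hs hs2).2
      · rw [h1]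
        simpa [hM, hR] using k2) hA hg
    ((mul_le_mul_of_nonneg_right (pow_le_pow_right₀ (by norm_num) cT)
      (mul_pos hA hg).le).trans hn)
  refine ⟨x, hx, fun r hr => ?_, fun h1 => ?_, fun h1 => ?_⟩
  · have h2 := hxT r (Finset.mem_union_left _ (Finset.mem_union_left _ hr))
    simpa only [hM, hR, if_neg (hne0 r hr).1, if_neg (hne0 r hr).2] using h2
  · have h2 := hxT 0 (Finset.mem_union_left _ (Finset.mem_union_right _ (by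
      rw [hU, if_pos h1]; exact Finset.mem_singleton_self _)))
    simpa [hM, hR] using h2
  · have h2 := hxT 2 (Finset.mem_union_right _ (by
      rw [hV, if_pos h1]; exact Finset.mem_singleton_self _))
    simpa [hM, hR] using h2

/-- END 1 -/
theorem KF.end_one (h : KF 2 S a' b c A a e f Y φ l p l' p') {N : ℕ} (hN : N.Prime)
    (hv : a + A + a' = N) (hc2 : c < 2 * A) {Q : ℤ} (hQ : A * Q = (Y + 2) * c)
    {n t i ω : ℤ} (hn : 0 ≤ n) (hco : IsCoprime t n)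
    (hω : ω = t * Y + n * φ + i * n * (2 - Q)) (h1 : 2 * n * c < A * ω)
    (h2 : A * ω ≤ Y * c)
    (hgood : ∀ κ : ℤ, IsC S.L (xvK S l' p' n (1 + i * (1 + n)) (t + i)) κ →
      ∀ r : ℕ, r.Prime → (r : ℤ) ∣ a → ∀ k : ℕ, (r : ℤ) ^ k ∣ κ → (r : ℤ) ^ k ∣ A + n * c)
    {s : ℕ} (hs : s.Prime) (hsc : (s : ℤ) ∣ c) (hsA : ¬ (s : ℤ) ∣ A) :
    (s : ℤ) ∣ Y - 2 * n ∧ (s : ℤ) ∣ ω := by
  have hex := h.exitQ (o := 1) hn (Or.inl rfl) hco hQ hω (by rw [one_mul]; exact h1)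
    (by rw [one_mul]; exact h2)
  obtain ⟨κ, hκ⟩ := KF.exists_kap hex.1
  have hd := h.kap_dvd hκ (hgood κ hκ)
  exact h.end1 hN hv hc2 hQ hn (Or.inl rfl) hco hω (by rw [one_mul]; exact h1)
    (by rw [one_mul]; exact h2) hκ hd hsc
    (((Nat.prime_iff_prime_int.1 hs).coprime_iff_not_dvd).2 hsA)

/-- END 2 -/
theorem KF.end_two (h : KF 2 S a' b c A a e f Y φ l p l' p') {N : ℕ} (hN : N.Prime)
    (hv : a + A + a' = N) {Q : ℤ} (hQ : A * Q = (Y + 2) * c)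
    {n t i ω : ℤ} (hn : 0 ≤ n) (hco : IsCoprime t n)
    (hω : ω = t * Y + n * φ + i * n * (2 - Q)) (h1 : 2 * n * c < A * ω)
    (h2 : A * ω ≤ Y * c)
    (hgood : ∀ κ : ℤ, IsC S.L (xvK S l' p' n (1 + i * (1 + n)) (t + i)) κ →
      ∀ r : ℕ, r.Prime → (r : ℤ) ∣ a → ∀ k : ℕ, (r : ℤ) ^ k ∣ κ → (r : ℤ) ^ k ∣ A + n * c)
    (hD : ∀ κ : ℤ, IsC S.L (xvK S l' p' n (1 + i * (1 + n)) (t + i)) κ →
      ∀ r : ℕ, r.Prime → (r : ℤ) ∣ κ → (r : ℤ) ∣ a → ∀ D : Z2,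
      κ • D = (a + (A + n * c)) • xvK S l' p' n (1 + i * (1 + n)) (t + i) →
      ¬ Dz r D ∨ (¬ Dz r S.u ∧ Dz r (xvK S l' p' n (1 + i * (1 + n)) (t + i)) ∧
        ∀ w ∈ S.L, Dz r w))
    (hodd : ∀ r : ℕ, r.Prime → r ≠ 2 → ¬ (Dz r (l' - n • S.u) ∧ Dz r (p' + (t + i) • S.u)))
    (h4 : ¬ (Dz 4 (l' - n • S.u) ∧ Dz 4 (p' + (t + i) • S.u))) :
    ∃ (T : PSt) (d : ℤ), SEq S T ∧ IsC T.L T.v d ∧ d ≤ 2 := by
  have hex := h.exitQ (o := 1) hn (Or.inl rfl) hco hQ hω (by rw [one_mul]; exact h1)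
    (by rw [one_mul]; exact h2)
  obtain ⟨κ, hκ⟩ := KF.exists_kap hex.1
  have hd := h.kap_dvd hκ (hgood κ hκ)
  have hny : n * c < a' := by
    have h3 := h.hy
    nlinarith
  exact h.fin2u hN hv hny hex.1 hκ hd (fun r hr hk hra _ D hDD => hD κ hκ r hr hk hra D hDD)
    hodd h4

/-- the primes of a level two exit -/
def K2.P2 (g1 m1 n0 : ℕ) : Finset ℕ :=
  (n0.primeFactors.erase 2) ∪
    (if m1.Prime ∧ m1 ≠ 2 ∧ m1 = g1 + 2 ∧ m1 ∣ g1 * n0 - 2 then {m1} else ∅)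

theorem K2.P2_odd {g1 m1 n0 r : ℕ} (hr : r ∈ K2.P2 g1 m1 n0) : r.Prime ∧ r ≠ 2 := by
  rcases Finset.mem_union.1 hr with h1 | h1
  · exact ⟨Nat.prime_of_mem_primeFactors (Finset.mem_of_mem_erase h1), Finset.ne_of_mem_erase h1⟩
  · split_ifs at h1 with h2
    · rw [Finset.mem_singleton.1 h1]; exact ⟨h2.1, h2.2.1⟩
    · exact absurd h1 (Finset.notMem_empty _)

/-- `Y` as a natural number -/
theorem K2D.Yn (D : K2D A b c a e Y g1 m1 n0 A0 b0 hh) (hY : 0 < Y) :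
    ((g1 * n0 - 2 : ℕ) : ℤ) = Y ∧ 3 ≤ g1 * n0 := by
  have h1 := D.hY
  have h2 : (2 : ℤ) < ((g1 * n0 : ℕ) : ℤ) := by push_cast; linarith
  have h3 : 2 < g1 * n0 := by exact_mod_cast h2
  refine ⟨?_, h3⟩
  rw [Nat.cast_sub (by omega)]
  push_cast
  linarith

/-- the class of `x` at a prime of `P2` -/
theorem KF.cls2 (h : KF 2 S a' b c A a e f Y φ l p l' p') {N : ℕ} (hN : N.Prime)
    (hv : a + A + a' = N) (D : K2D A b c a e Y g1 m1 n0 A0 b0 hh) {Q : ℤ}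
    (hQ : A * Q = (Y + 2) * c) (hQ2 : 2 * Q = n0 * (g1 + m1)) (hnrm : KNrm a b A e f)
    {t0 ι G α β : ℤ} (hι : ι = 1 ∨ ι = 2) (hα : Y = G * α) (hβ : ι * (Q - 2) = G * β) {r : ℕ}
    (hr : r ∈ K2.P2 g1 m1 n0) :
    ∃ ρ : ℤ, ∀ x t i : ℤ, t0 * Y + 2 * φ + 2 * G * x = t * Y + 2 * φ + i * 2 * (2 - Q) →
      ¬ (r : ℤ) ∣ x - ρ →
      (∀ κ : ℤ, IsC S.L (xvK S l' p' 2 (1 + i * (1 + 2)) (t + i)) κ → (r : ℤ) ∣ a →
        ¬ (r : ℤ) ∣ κ) ∧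
      (r ∣ n0 → ((r : ℤ) ∣ c → (r : ℤ) ∣ A) →
        ¬ (Dz r (l' - (2 : ℤ) • S.u) ∧ Dz r (p' + (t + i) • S.u))) := by
  obtain ⟨hrp, hr2⟩ := K2.P2_odd hr
  have hK : ¬ (r : ℤ) ∣ 2 := odd_not_two hrp hr2
  have hri := Nat.prime_iff_prime_int.1 hrp
  by_cases hrn : r ∣ n0
  · have h22 : ¬ (r : ℤ) ∣ 2 + 2 := by
      intro h1
      have h2 : (r : ℤ) ∣ 2 * 2 := by
        have e1 : (2 : ℤ) * 2 = 2 + 2 := by norm_num
        rw [e1]; exact h1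
      exact hK ((pdvd_mul hrp h2).resolve_left hK)
    obtain ⟨ρ, hρ⟩ := h.cls_n0 hN hv D hQ hQ2 (n := 2) hrp hr2 hrn
      (hnrm.nf r hrp hr2) (fun h1 _ => absurd h1 h22)
    have hG : ¬ (r : ℤ) ∣ 2 * G := by
      intro h1
      have h2 := (pdvd_mul hrp h1).resolve_left hK
      have h3 : (r : ℤ) ∣ Y := by rw [hα]; exact h2.mul_right _
      exact hK ((dvd_add_left h3).1 (D.y_of hrn))
    obtain ⟨ρ', hρ'⟩ := class_x ((hri.coprime_iff_not_dvd).2 hG) (t0 * Y + 2 * φ) ρ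
    refine ⟨ρ', fun x t i hω hx => ?_⟩
    obtain ⟨k1, k2⟩ := hρ t i _ hω (fun h1 => hx (hρ' x h1))
    exact ⟨k1, fun _ => k2⟩
  · have hlk : m1.Prime ∧ m1 ≠ 2 ∧ m1 = g1 + 2 ∧ m1 ∣ g1 * n0 - 2 ∧ r = m1 := by
      rcases Finset.mem_union.1 hr with h1 | h1
      · exact absurd (Nat.dvd_of_mem_primeFactors (Finset.mem_of_mem_erase h1)) hrn
      · split_ifs at h1 with h2
        · exact ⟨h2.1, h2.2.1, h2.2.2.1, h2.2.2.2, Finset.mem_singleton.1 h1⟩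
        · exact absurd h1 (Finset.notMem_empty _)
    obtain ⟨h1, h2, h3, h4, rfl⟩ := hlk
    obtain ⟨k1, k2, k3⟩ := D.of_m1 h1 h2 dvd_rfl
    have hY : ((r : ℕ) : ℤ) ∣ Y := by
      rw [← (D.Yn h.Y0).1]; exact_mod_cast h4
    have hr3 : r ≠ 3 := by
      intro h5
      have := D.m3
      omega
    obtain ⟨ρ, hρ⟩ := h.cls_lock hN hv hQ h1 h2 hr3 k1 k2 k3 hY
    have hQ1 := h.Q_mod hQ h1 k2 k3
    have hG : ¬ (r : ℤ) ∣ 2 * G := by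
      intro h5
      have h6 := (pdvd_mul h1 h5).resolve_left hK
      have h7 : (r : ℤ) ∣ ι * (Q - 2) := by rw [hβ]; exact h6.mul_right _
      have h8 : (r : ℤ) ∣ Q - 2 := by
        rcases hι with h9 | h9
        · rw [h9, one_mul] at h7; exact h7
        · rw [h9] at h7; exact (pdvd_mul h1 h7).resolve_left hK
      apply hK
      have e1 : (2 : ℤ) = (2 * Q - (2 + Y)) - 2 * (Q - 2) + Y := by ring
      rw [e1]
      exact dvd_add (dvd_sub hQ1 (h8.mul_left 2)) hY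
    obtain ⟨ρ', hρ'⟩ := class_x ((hri.coprime_iff_not_dvd).2 hG) (t0 * Y + 2 * φ) ρ
    refine ⟨ρ', fun x t i hω hx => ⟨fun κ hκ _ => ?_, fun h5 => absurd h5 hrn⟩⟩
    exact hρ t i _ hω (fun h1 => hx (hρ' x h1)) κ hκ

/-- the lock prime of `K = 2` -/
theorem K2D.lock (D : K2D A b c a e Y g1 m1 n0 A0 b0 hh) {r : ℕ} (hr : r.Prime) (hr2 : r ≠ 2)
    (h1 : e * (r - 2) = r * A) : r = m1 ∧ m1 = g1 + 2 := by
  have hg := D.g0
  have hgm := D.gm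
  have hpos : 0 < ((hh * A0 : ℕ) : ℤ) := by exact_mod_cast Nat.mul_pos D.h0 D.A00
  have hr3 : 3 ≤ r := by
    have := hr.two_le
    omega
  have h2 : (m1 : ℤ) * (r - 2) = r * g1 := by
    have h3 : ((hh * A0 : ℕ) : ℤ) * ((m1 : ℤ) * (r - 2)) = ((hh * A0 : ℕ) : ℤ) * (r * g1) := by
      rw [D.he, D.hA] at h1
      push_cast
      linear_combination h1
    exact mul_left_cancel₀ hpos.ne' h3
  have h4 : m1 * (r - 2) = r * g1 := by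
    have : ((m1 * (r - 2) : ℕ) : ℤ) = ((r * g1 : ℕ) : ℤ) := by
      push_cast [Nat.cast_sub (by omega : 2 ≤ r)]
      exact h2
    exact_mod_cast this
  have h5 : m1 ∣ r := (Nat.Coprime.dvd_of_dvd_mul_right D.co.symm (Dvd.intro _ h4))
  rcases (Nat.dvd_prime hr).1 h5 with h6 | h6
  · omega
  · refine ⟨h6.symm, ?_⟩
    rw [h6] at h4
    have h7 := Nat.eq_of_mul_eq_mul_left hr.pos h4
    omega

theorem K2D.n0pos (D : K2D A b c a e Y g1 m1 n0 A0 b0 hh) (hY : 0 < Y) : n0 ≠ 0 := by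
  rintro rfl
  have := D.hY
  simp at this
  omega

/-- SELECTION for the level two -/
theorem KF.sel2 (h : KF 2 S a' b c A a e f Y φ l p l' p') (hF : S.Full) {N : ℕ} (hN : N.Prime)
    (hv : a + A + a' = N) (he3 : e < 3 * A) (D : K2D A b c a e Y g1 m1 n0 A0 b0 hh) {Q : ℤ}
    (hQ : A * Q = (Y + 2) * c) (hQ2 : 2 * Q = n0 * (g1 + m1)) (hnrm : KNrm a b A e f)
    {t0 ι G α β : ℤ} (hι : ι = 1 ∨ ι = 2) (hα : Y = G * α) (hβ : ι * (Q - 2) = G * β)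
    (hco : IsCoprime α β) (hs : ι * α ∣ Y) :
    ∃ ρ : ℕ → ℤ, ∀ x : ℤ, ∃ t' i' : ℤ, α * t' - β * i' = x ∧
      t0 * Y + 2 * φ + 2 * G * x = (t0 + 2 * t') * Y + 2 * φ + (ι * i') * 2 * (2 - Q) ∧
      ((∀ r ∈ K2.P2 g1 m1 n0, (r : ℤ) ∣ a → ¬ (r : ℤ) ∣ x - ρ r) →
        ∀ κ : ℤ, IsC S.L (xvK S l' p' 2 (1 + (ι * i') * (1 + 2)) ((t0 + 2 * t') + ι * i')) κ →
        ∀ r : ℕ, r.Prime → r ≠ 2 → (r : ℤ) ∣ a → ¬ (r : ℤ) ∣ κ) ∧
      ((∀ r ∈ K2.P2 g1 m1 n0, ¬ (r : ℤ) ∣ x - ρ r) →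
        (∀ r : ℕ, r.Prime → r ≠ 2 → (r : ℤ) ∣ c → (r : ℤ) ∣ A) → ∀ r : ℕ, r.Prime → r ≠ 2 →
        ¬ (Dz r (l' - (2 : ℤ) • S.u) ∧ Dz r (p' + ((t0 + 2 * t') + ι * i') • S.u))) := by
  have hcl : ∀ r : ℕ, ∃ ρ : ℤ, r ∈ K2.P2 g1 m1 n0 → ∀ x t i : ℤ,
      t0 * Y + 2 * φ + 2 * G * x = t * Y + 2 * φ + i * 2 * (2 - Q) → ¬ (r : ℤ) ∣ x - ρ →
      (∀ κ : ℤ, IsC S.L (xvK S l' p' 2 (1 + i * (1 + 2)) (t + i)) κ → (r : ℤ) ∣ a →
        ¬ (r : ℤ) ∣ κ) ∧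
      (r ∣ n0 → ((r : ℤ) ∣ c → (r : ℤ) ∣ A) →
        ¬ (Dz r (l' - (2 : ℤ) • S.u) ∧ Dz r (p' + (t + i) • S.u))) := by
    intro r
    by_cases hr : r ∈ K2.P2 g1 m1 n0
    · obtain ⟨ρ, hρ⟩ := h.cls2 hN hv D hQ hQ2 hnrm (t0 := t0) hι hα hβ hr
      exact ⟨ρ, fun _ => hρ⟩
    · exact ⟨0, fun h1 => absurd h1 hr⟩
  choose ρ hρ using hcl
  refine ⟨ρ, fun x => ?_⟩
  obtain ⟨t', i', k1, k2, k3⟩ := h.sel_fib hN hv hQ (n := 2) (t0 := t0) hα hβ hco hs x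
  refine ⟨t', i', k1, k2, fun hx κ hκ r hr hr2 hra => ?_, fun hx hcA r hr hr2 => ?_⟩
  · by_cases hrP : r ∈ K2.P2 g1 m1 n0
    · exact (hρ r hrP x _ _ k2 (hx r hrP hra)).1 κ hκ hra
    · have hK : ¬ (r : ℤ) ∣ 2 := odd_not_two hr hr2
      have hn0 : ¬ r ∣ n0 := fun h1 => hrP (Finset.mem_union_left _ (Finset.mem_erase.2
        ⟨hr2, Nat.mem_primeFactors.2 ⟨hr, h1, D.n0pos h.Y0⟩⟩))
      have hy : ¬ (r : ℤ) ∣ 2 + Y := fun h1 => hn0 (D.n0_of hr hr2 hra h1)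
      obtain ⟨-, hre, hrA⟩ := h.of_a hN hv hr hr2 hK hra hy
      refine k3 r hr hr2 hra hy (fun h1 => ?_) (fun hY => ?_) κ hκ
      · have h2 : (r : ℤ) ∣ 2 * 2 := by
          have e1 : (2 : ℤ) * 2 = 2 + 2 := by norm_num
          rw [e1]; exact h1
        exact hK ((pdvd_mul hr h2).resolve_left hK)
      · rcases h.ft2 he3 hr hre hrA hY with h1 | ⟨-, h1⟩
        · exact h1
        · exfalso
          obtain ⟨h2, h3⟩ := D.lock hr hr2 h1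
          subst h2
          have h4 : r ∣ g1 * n0 - 2 := by
            rw [← (D.Yn h.Y0).1] at hY
            exact_mod_cast hY
          refine hrP (Finset.mem_union_right _ ?_)
          rw [if_pos ⟨hr, hr2, h3, h4⟩]
          exact Finset.mem_singleton_self _
  · by_cases hrP : r ∈ K2.P2 g1 m1 n0
    · by_cases hn0 : r ∣ n0
      · exact (hρ r hrP x _ _ k2 (hx r hrP)).2 hn0 (hcA r hr hr2)
      · exact h.no_cont hF he3 D (Or.inl rfl) hr hr2 hn0 (hcA r hr hr2)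
    · have hn0 : ¬ r ∣ n0 := fun h1 => hrP (Finset.mem_union_left _ (Finset.mem_erase.2
        ⟨hr2, Nat.mem_primeFactors.2 ⟨hr, h1, D.n0pos h.Y0⟩⟩))
      exact h.no_cont hF he3 D (Or.inl rfl) hr hr2 hn0 (hcA r hr hr2)

/-- the spacing is a unit at an odd prime of `n0` -/
theorem K2D.unit_n0 (D : K2D A b c a e Y g1 m1 n0 A0 b0 hh) {G α : ℤ} (hα : Y = G * α) {r : ℕ}
    (hr : r.Prime) (hr2 : r ≠ 2) (hrn : r ∣ n0) : ¬ (r : ℤ) ∣ G := by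
  intro h2
  have h3 : (r : ℤ) ∣ Y := by rw [hα]; exact h2.mul_right _
  exact odd_not_two hr hr2 ((dvd_add_left h3).1 (D.y_of hrn))

/-- the spacing is a unit at an odd prime of `m1` -/
theorem KF.unit_m1 (h : KF 2 S a' b c A a e f Y φ l p l' p')
    (D : K2D A b c a e Y g1 m1 n0 A0 b0 hh) {Q : ℤ} (hQ : A * Q = (Y + 2) * c)
    {ι G α β : ℤ} (hι : ι = 1 ∨ ι = 2) (hα : Y = G * α) (hβ : ι * (Q - 2) = G * β) {r : ℕ}
    (hr : r.Prime) (hr2 : r ≠ 2) (hrm : r ∣ m1) : ¬ (r : ℤ) ∣ G := by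
  intro h6
  have hK : ¬ (r : ℤ) ∣ 2 := odd_not_two hr hr2
  obtain ⟨-, k2, k3⟩ := D.of_m1 hr hr2 hrm
  have hQ1 := h.Q_mod hQ hr k2 k3
  have h7 : (r : ℤ) ∣ ι * (Q - 2) := by rw [hβ]; exact h6.mul_right _
  have h8 : (r : ℤ) ∣ Q - 2 := by
    rcases hι with h9 | h9
    · rw [h9, one_mul] at h7; exact h7
    · rw [h9] at h7; exact (pdvd_mul hr h7).resolve_left hK
  have hY : (r : ℤ) ∣ Y := by rw [hα]; exact h6.mul_right _
  apply hK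
  have e1 : (2 : ℤ) = (2 * Q - (2 + Y)) - 2 * (Q - 2) + Y := by ring
  rw [e1]
  exact dvd_add (dvd_sub hQ1 (h8.mul_left 2)) hY

/-- the primes of a level four exit -/
def K2.P4 (m1 n0 : ℕ) : Finset ℕ :=
  (n0.primeFactors.erase 2) ∪ (if 3 ∣ m1 then {3} else ∅)

theorem K2.P4_odd {m1 n0 r : ℕ} (hr : r ∈ K2.P4 m1 n0) : r.Prime ∧ r ≠ 2 := by
  rcases Finset.mem_union.1 hr with h1 | h1
  · exact ⟨Nat.prime_of_mem_primeFactors (Finset.mem_of_mem_erase h1), Finset.ne_of_mem_erase h1⟩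
  · split_ifs at h1 with h2
    · rw [Finset.mem_singleton.1 h1]; exact ⟨Nat.prime_three, by norm_num⟩
    · exact absurd h1 (Finset.notMem_empty _)

/-- the classes of `x` at a prime of `P4` -/
theorem KF.cls4 (h : KF 2 S a' b c A a e f Y φ l p l' p') {N : ℕ} (hN : N.Prime)
    (hv : a + A + a' = N) (D : K2D A b c a e Y g1 m1 n0 A0 b0 hh) {Q : ℤ}
    (hQ : A * Q = (Y + 2) * c) (hQ2 : 2 * Q = n0 * (g1 + m1)) (hnrm : KNrm a b A e f)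
    {t0 ι G α β : ℤ} (hι : ι = 1 ∨ ι = 2) (hα : Y = G * α) (hβ : ι * (Q - 2) = G * β) {r : ℕ}
    (hr : r ∈ K2.P4 m1 n0) :
    ∃ ρ1 ρ2 σ : ℤ, ∀ x t i : ℤ, t0 * Y + 4 * φ + 4 * G * x = t * Y + 4 * φ + i * 4 * (2 - Q) →
      (¬ (r : ℤ) ∣ x - ρ1 → ∀ κ : ℤ, IsC S.L (xvK S l' p' 4 (1 + i * (1 + 4)) (t + i)) κ →
        (r : ℤ) ∣ a → ∀ k : ℕ, (r : ℤ) ^ k ∣ κ → (r : ℤ) ^ k ∣ A + 4 * c) ∧
      (¬ (r : ℤ) ∣ x - ρ2 → (r = 3 → 9 ∣ m1 → ¬ 3 ∣ b0 → 3 ∣ b0 - A0 → ¬ (3 : ℤ) ∣ x - σ) →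
        (∀ κ : ℤ, IsC S.L (xvK S l' p' 4 (1 + i * (1 + 4)) (t + i)) κ → (r : ℤ) ∣ a →
          (∀ k : ℕ, (r : ℤ) ^ k ∣ κ → (r : ℤ) ^ k ∣ A + 4 * c) ∧
          ((r : ℤ) ∣ κ → ∀ D' : Z2, κ • D' = (a + (A + 4 * c)) •
            xvK S l' p' 4 (1 + i * (1 + 4)) (t + i) → ¬ Dz r D')) ∧
        (((r : ℤ) ∣ c → (r : ℤ) ∣ A) →
          ¬ (Dz r (l' - (4 : ℤ) • S.u) ∧ Dz r (p' + (t + i) • S.u)))) := by
  obtain ⟨hrp, hr2⟩ := K2.P4_odd hr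
  have hK : ¬ (r : ℤ) ∣ 2 := odd_not_two hrp hr2
  have hri := Nat.prime_iff_prime_int.1 hrp
  have h4G : ¬ (r : ℤ) ∣ G → IsCoprime (r : ℤ) (4 * G) := by
    intro h1
    refine (hri.coprime_iff_not_dvd).2 fun h2 => ?_
    rcases pdvd_mul hrp h2 with h3 | h3
    · have h4 : (r : ℤ) ∣ 2 * 2 := by norm_num; exact h3
      exact hK ((pdvd_mul hrp h4).resolve_left hK)
    · exact h1 h3
  by_cases h33 : r = 3 ∧ 3 ∣ m1 ∧ ¬ (3 : ℤ) ∣ b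
  · obtain ⟨rfl, h3m, h3b⟩ := h33
    have h3 := Nat.prime_three
    obtain ⟨k1, k2, k3⟩ := D.of_m1 h3 hr2 h3m
    have k1' : (3 : ℤ) ∣ a := by exact_mod_cast k1
    have k2' : (3 : ℤ) ∣ e := by exact_mod_cast k2
    have k3' : ¬ (3 : ℤ) ∣ A := by exact_mod_cast k3
    have hco := h4G (h.unit_m1 D hQ hι hα hβ h3 hr2 h3m)
    obtain ⟨ρ, hρ⟩ := h.cls_three1 hN hv hQ k1' k2' k3' h3b
    obtain ⟨σ, hσ⟩ := h.cls_three2 hN hv hQ k1' k2' k3' h3b (hnrm.n3 k2' k3')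
    obtain ⟨ρ1, hρ1⟩ := class_x hco (t0 * Y + 4 * φ) ρ
    obtain ⟨ρ2, hρ2⟩ := class_x hco (t0 * Y + 4 * φ) (-2)
    obtain ⟨ρ3, hρ3⟩ := class_x hco (t0 * Y + 4 * φ) σ
    have e3 : ((3 : ℕ) : ℤ) = 3 := by norm_num
    rw [e3] at hρ1 hρ2 hρ3 ⊢
    refine ⟨ρ1, ρ2, ρ3, fun x t i hω => ⟨fun hx κ hκ _ k hk => ?_, fun hx hx3 =>
      ⟨fun κ hκ _ => ?_, fun hcA hcon => ?_⟩⟩⟩
    · exact hρ t i _ hω (fun h1 => hx (hρ1 x h1)) κ hκ k hk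
    · refine hσ t i _ hω (fun h1 => hx (hρ2 x h1)) (fun h9 hD0 h1 => ?_) κ hκ
      have h9m : 9 ∣ m1 := by
        have h5 : (3 : ℤ) ^ 2 ∣ ((hh * A0 : ℕ) : ℤ) * m1 := by
          rw [D.he] at h9
          refine h9.trans (dvd_of_eq ?_)
          push_cast; ring
        have h6 : ¬ (3 : ℤ) ∣ ((hh * A0 : ℕ) : ℤ) := by
          intro h7
          apply k3'
          rw [D.hA]
          have h8 : (3 : ℤ) ∣ (g1 : ℤ) * ((hh * A0 : ℕ) : ℤ) := h7.mul_left _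
          push_cast at h8
          exact h8
        have h7 : (3 : ℤ) ^ 2 ∣ (m1 : ℤ) := by
          have h5' : ((3 : ℕ) : ℤ) ^ 2 ∣ ((hh * A0 : ℕ) : ℤ) * m1 := by
            rw [e3]; exact h5
          have h6' : ¬ ((3 : ℕ) : ℤ) ∣ ((hh * A0 : ℕ) : ℤ) := by
            rw [e3]; exact h6
          have := ppow_cancel h3 h6' h5'
          rwa [e3] at this
        have h8 : ((9 : ℕ) : ℤ) ∣ (m1 : ℤ) := by
          norm_num at h7 ⊢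
          exact h7
        exact_mod_cast h8
      have hb0 : ¬ 3 ∣ b0 := by
        intro h5
        apply h3b
        rw [D.hb]
        have h6 : 3 ∣ g1 * (hh * b0) := (h5.mul_left _).mul_left _
        exact_mod_cast h6
      have hbA : 3 ∣ b0 - A0 := by
        have h5 : (3 : ℤ) ∣ b - A := by
          have e1 : b - A = (a + b - A) - a := by ring
          rw [e1]; exact dvd_sub hD0 k1'
        have h6 : b - A = ((g1 * hh : ℕ) : ℤ) * ((b0 - A0 : ℕ) : ℤ) := by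
          rw [D.hb, D.hA, Nat.cast_sub D.Ab0.le]
          push_cast; ring
        rw [h6] at h5
        have h7 : 3 ∣ g1 * hh * (b0 - A0) := by exact_mod_cast h5
        rcases (Nat.Prime.dvd_mul h3).1 h7 with h8 | h8
        · exfalso
          rcases (Nat.Prime.dvd_mul h3).1 h8 with h9 | h9
          · exact D.not_g1 h3 h3m h9
          · exact D.not_hh h3 hr2 h9
        · exact h8
      exact hx3 rfl h9m hb0 hbA (hρ3 x h1)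
    · have h5 := (h.cont_odd h3 hcon.1 hcon.2).1
      exact k3 (hcA h5)
  · have hrn : r ∣ n0 := by
      rcases Finset.mem_union.1 hr with h1 | h1
      · exact Nat.dvd_of_mem_primeFactors (Finset.mem_of_mem_erase h1)
      · split_ifs at h1 with h2
        · have h3 := Finset.mem_singleton.1 h1
          subst h3
          by_contra h4
          refine h33 ⟨rfl, h2, fun h5 => h4 ?_⟩
          rw [D.hb] at h5
          have h6 : 3 ∣ g1 * (hh * b0) := by exact_mod_cast h5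
          rcases (Nat.Prime.dvd_mul hrp).1 h6 with h7 | h7
          · exact absurd h7 (D.not_g1 hrp h2)
          rcases (Nat.Prime.dvd_mul hrp).1 h7 with h8 | h8
          · exact absurd h8 (D.not_hh hrp hr2)
          · exact h8.trans D.bn
        · exact absurd h1 (Finset.notMem_empty _)
    have hco := h4G (D.unit_n0 hα hrp hr2 hrn)
    obtain ⟨ρ, hρ⟩ := h.cls_n0 hN hv D hQ hQ2 (n := 4) hrp hr2 hrn
      (hnrm.nf r hrp hr2) (fun h1 hra => by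
        have h2 : r = 3 := by
          have h3 : (r : ℤ) ∣ 2 * 3 := by
            have e1 : (2 : ℤ) * 3 = 4 + 2 := by norm_num
            rw [e1]; exact h1
          have h4 := (pdvd_mul hrp h3).resolve_left hK
          have h5 : r ∣ 3 := by exact_mod_cast h4
          exact (Nat.prime_dvd_prime_iff_eq hrp Nat.prime_three).1 h5
        subst h2
        by_contra h3
        by_cases h4 : 3 ∣ m1
        · exact h33 ⟨rfl, h4, by exact_mod_cast h3⟩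
        · rw [D.ha] at hra
          have h6 : 3 ∣ m1 * (hh * b0) := by exact_mod_cast hra
          rcases (Nat.Prime.dvd_mul hrp).1 h6 with h7 | h7
          · exact h4 h7
          · apply h3
            rw [D.hb]
            exact_mod_cast h7.mul_left g1)
    obtain ⟨ρ', hρ'⟩ := class_x hco (t0 * Y + 4 * φ) ρ
    have key : ∀ κ : ℤ, ¬ (r : ℤ) ∣ κ → ∀ k : ℕ, (r : ℤ) ^ k ∣ κ → (r : ℤ) ^ k ∣ A + 4 * c := by
      intro κ h1 k hk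
      rcases Nat.eq_zero_or_pos k with h0 | h0
      · rw [h0, pow_zero]; exact one_dvd _
      · exact absurd ((dvd_pow_self _ h0.ne').trans hk) h1
    refine ⟨ρ', ρ', 0, fun x t i hω => ⟨fun hx κ hκ hra => ?_, fun hx _ => ?_⟩⟩
    · exact key κ ((hρ t i _ hω (fun h1 => hx (hρ' x h1))).1 κ hκ hra)
    · obtain ⟨k1, k2⟩ := hρ t i _ hω (fun h1 => hx (hρ' x h1))
      exact ⟨fun κ hκ hra => ⟨key κ (k1 κ hκ hra), fun h1 => absurd h1 (k1 κ hκ hra)⟩, k2⟩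

/-- SELECTION for the level four (`g1` even) -/
theorem KF.sel4 (h : KF 2 S a' b c A a e f Y φ l p l' p') (hF : S.Full) {N : ℕ} (hN : N.Prime)
    (hv : a + A + a' = N) (he3 : e < 3 * A) (D : K2D A b c a e Y g1 m1 n0 A0 b0 hh) {Q : ℤ}
    (hQ : A * Q = (Y + 2) * c) (hQ2 : 2 * Q = n0 * (g1 + m1)) (hnrm : KNrm a b A e f)
    (hg2 : 2 ∣ g1)
    {t0 ι G α β : ℤ} (hι : ι = 1 ∨ ι = 2) (hα : Y = G * α) (hβ : ι * (Q - 2) = G * β)
    (hco : IsCoprime α β) (hs : ι * α ∣ Y) :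
    ∃ (ρ1 ρ2 : ℕ → ℤ) (σ : ℤ), ∀ x : ℤ,
      ((∀ r ∈ K2.P4 m1 n0, ¬ (r : ℤ) ∣ x - ρ1 r) → ∃ t' i' : ℤ, α * t' - β * i' = x ∧
        t0 * Y + 4 * φ + 4 * G * x = (t0 + 4 * t') * Y + 4 * φ + (ι * i') * 4 * (2 - Q) ∧
        (∀ κ : ℤ, IsC S.L (xvK S l' p' 4 (1 + (ι * i') * (1 + 4)) ((t0 + 4 * t') + ι * i')) κ →
          ∀ r : ℕ, r.Prime → r ≠ 2 → (r : ℤ) ∣ a → ∀ k : ℕ, (r : ℤ) ^ k ∣ κ →
            (r : ℤ) ^ k ∣ A + 4 * c)) ∧
      ((∀ r ∈ K2.P4 m1 n0, ¬ (r : ℤ) ∣ x - ρ2 r) →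
        (9 ∣ m1 → ¬ 3 ∣ b0 → 3 ∣ b0 - A0 → ¬ (3 : ℤ) ∣ x - σ) → ∃ t' i' : ℤ,
        α * t' - β * i' = x ∧
        t0 * Y + 4 * φ + 4 * G * x = (t0 + 4 * t') * Y + 4 * φ + (ι * i') * 4 * (2 - Q) ∧
        (∀ κ : ℤ, IsC S.L (xvK S l' p' 4 (1 + (ι * i') * (1 + 4)) ((t0 + 4 * t') + ι * i')) κ →
          ∀ r : ℕ, r.Prime → r ≠ 2 → (r : ℤ) ∣ a →
            (∀ k : ℕ, (r : ℤ) ^ k ∣ κ → (r : ℤ) ^ k ∣ A + 4 * c) ∧
            ((r : ℤ) ∣ κ → ∀ D' : Z2, κ • D' = (a + (A + 4 * c)) •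
              xvK S l' p' 4 (1 + (ι * i') * (1 + 4)) ((t0 + 4 * t') + ι * i') → ¬ Dz r D')) ∧
        ((∀ r : ℕ, r.Prime → r ≠ 2 → (r : ℤ) ∣ c → (r : ℤ) ∣ A) → ∀ r : ℕ, r.Prime → r ≠ 2 →
          ¬ (Dz r (l' - (4 : ℤ) • S.u) ∧ Dz r (p' + ((t0 + 4 * t') + ι * i') • S.u)))) := by
  have hcl : ∀ r : ℕ, ∃ ρ1 ρ2 σ : ℤ, r ∈ K2.P4 m1 n0 → ∀ x t i : ℤ,
      t0 * Y + 4 * φ + 4 * G * x = t * Y + 4 * φ + i * 4 * (2 - Q) →
      (¬ (r : ℤ) ∣ x - ρ1 → ∀ κ : ℤ, IsC S.L (xvK S l' p' 4 (1 + i * (1 + 4)) (t + i)) κ →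
        (r : ℤ) ∣ a → ∀ k : ℕ, (r : ℤ) ^ k ∣ κ → (r : ℤ) ^ k ∣ A + 4 * c) ∧
      (¬ (r : ℤ) ∣ x - ρ2 → (r = 3 → 9 ∣ m1 → ¬ 3 ∣ b0 → 3 ∣ b0 - A0 → ¬ (3 : ℤ) ∣ x - σ) →
        (∀ κ : ℤ, IsC S.L (xvK S l' p' 4 (1 + i * (1 + 4)) (t + i)) κ → (r : ℤ) ∣ a →
          (∀ k : ℕ, (r : ℤ) ^ k ∣ κ → (r : ℤ) ^ k ∣ A + 4 * c) ∧
          ((r : ℤ) ∣ κ → ∀ D' : Z2, κ • D' = (a + (A + 4 * c)) •
            xvK S l' p' 4 (1 + i * (1 + 4)) (t + i) → ¬ Dz r D')) ∧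
        (((r : ℤ) ∣ c → (r : ℤ) ∣ A) →
          ¬ (Dz r (l' - (4 : ℤ) • S.u) ∧ Dz r (p' + (t + i) • S.u)))) := by
    intro r
    by_cases hr : r ∈ K2.P4 m1 n0
    · obtain ⟨ρ1, ρ2, σ, hρ⟩ := h.cls4 hN hv D hQ hQ2 hnrm (t0 := t0) hι hα hβ hr
      exact ⟨ρ1, ρ2, σ, fun _ => hρ⟩
    · exact ⟨0, 0, 0, fun h1 => absurd h1 hr⟩
  choose ρ1 ρ2 σ hρ using hcl
  -- the primes outside `P4`
  have hout : ∀ x t' i' : ℤ, (∀ r : ℕ, r.Prime → r ≠ 2 → (r : ℤ) ∣ a → ¬ (r : ℤ) ∣ 2 + Y →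
      ¬ (r : ℤ) ∣ 4 + 2 → ((r : ℤ) ∣ Y → (r : ℤ) ∣ f) → ∀ κ : ℤ,
        IsC S.L (xvK S l' p' 4 (1 + (ι * i') * (1 + 4)) ((t0 + 4 * t') + ι * i')) κ →
        ¬ (r : ℤ) ∣ κ) → ∀ r : ℕ, r.Prime → r ≠ 2 → r ∉ K2.P4 m1 n0 → (r : ℤ) ∣ a →
      ∀ κ : ℤ, IsC S.L (xvK S l' p' 4 (1 + (ι * i') * (1 + 4)) ((t0 + 4 * t') + ι * i')) κ →
        ¬ (r : ℤ) ∣ κ := by
    intro x t' i' k3 r hr hr2 hrP hra κ hκ
    have hK : ¬ (r : ℤ) ∣ 2 := odd_not_two hr hr2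
    have hn0 : ¬ r ∣ n0 := fun h1 => hrP (Finset.mem_union_left _ (Finset.mem_erase.2
      ⟨hr2, Nat.mem_primeFactors.2 ⟨hr, h1, D.n0pos h.Y0⟩⟩))
    have hy : ¬ (r : ℤ) ∣ 2 + Y := fun h1 => hn0 (D.n0_of hr hr2 hra h1)
    obtain ⟨-, hre, hrA⟩ := h.of_a hN hv hr hr2 hK hra hy
    have hrm : r ∣ m1 := by
      rw [D.he] at hre
      have h1 : r ∣ m1 * (hh * A0) := by exact_mod_cast hre
      rcases (Nat.Prime.dvd_mul hr).1 h1 with h2 | h2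
      · exact h2
      · exfalso
        apply hrA
        rw [D.hA]
        exact_mod_cast h2.mul_left g1
    refine k3 r hr hr2 hra hy (fun h1 => ?_) (fun hY => ?_) κ hκ
    · have h3 : (r : ℤ) ∣ 2 * 3 := by
        have e1 : (2 : ℤ) * 3 = 4 + 2 := by norm_num
        rw [e1]; exact h1
      have h4 := (pdvd_mul hr h3).resolve_left hK
      have h5 : r ∣ 3 := by exact_mod_cast h4
      have h6 := (Nat.prime_dvd_prime_iff_eq hr Nat.prime_three).1 h5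
      subst h6
      refine hrP (Finset.mem_union_right _ ?_)
      rw [if_pos hrm]
      exact Finset.mem_singleton_self _
    · rcases h.ft2 he3 hr hre hrA hY with h1 | ⟨-, h1⟩
      · exact h1
      · exfalso
        obtain ⟨h2, h3⟩ := D.lock hr hr2 h1
        have h4 : 2 ∣ r := by rw [h2, h3]; exact dvd_add hg2 dvd_rfl
        exact hr2 ((Nat.prime_dvd_prime_iff_eq Nat.prime_two hr).1 h4).symm
  refine ⟨ρ1, ρ2, σ 3, fun x => ⟨fun hx => ?_, fun hx hx3 => ?_⟩⟩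
  · obtain ⟨t', i', k1, k2, k3⟩ := h.sel_fib hN hv hQ (n := 4) (t0 := t0) hα hβ hco hs x
    refine ⟨t', i', k1, k2, fun κ hκ r hr hr2 hra k hk => ?_⟩
    by_cases hrP : r ∈ K2.P4 m1 n0
    · exact (hρ r hrP x _ _ k2).1 (hx r hrP) κ hκ hra k hk
    · have h1 := hout x t' i' k3 r hr hr2 hrP hra κ hκ
      rcases Nat.eq_zero_or_pos k with h0 | h0
      · rw [h0, pow_zero]; exact one_dvd _
      · exact absurd ((dvd_pow_self _ h0.ne').trans hk) h1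
  · obtain ⟨t', i', k1, k2, k3⟩ := h.sel_fib hN hv hQ (n := 4) (t0 := t0) hα hβ hco hs x
    refine ⟨t', i', k1, k2, fun κ hκ r hr hr2 hra => ?_, fun hcA r hr hr2 => ?_⟩
    · by_cases hrP : r ∈ K2.P4 m1 n0
      · exact ((hρ r hrP x _ _ k2).2 (hx r hrP) (fun h1 => by subst h1; exact hx3)).1 κ hκ hra
      · have h1 := hout x t' i' k3 r hr hr2 hrP hra κ hκ
        refine ⟨fun k hk => ?_, fun h2 => absurd h2 h1⟩
        rcases Nat.eq_zero_or_pos k with h0 | h0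
        · rw [h0, pow_zero]; exact one_dvd _
        · exact absurd ((dvd_pow_self _ h0.ne').trans hk) h1
    · by_cases hrP : r ∈ K2.P4 m1 n0
      · exact ((hρ r hrP x _ _ k2).2 (hx r hrP) (fun h1 => by subst h1; exact hx3)).2
          (hcA r hr hr2)
      · have hn0 : ¬ r ∣ n0 := fun h1 => hrP (Finset.mem_union_left _ (Finset.mem_erase.2
          ⟨hr2, Nat.mem_primeFactors.2 ⟨hr, h1, D.n0pos h.Y0⟩⟩))
        exact h.no_cont hF he3 D (Or.inr rfl) hr hr2 hn0 (hcA r hr hr2)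

end Pool.Agent.H4G
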