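import Pool.Agent.H4G.Arith.K2N1d
set_option autoImplicit false

/-!
# Line B, K = 2, level one: number lemma (N1c), type P1, and the window of 24 terms
(statement: helper40; exceptional case and proof: helper24)
-/

namespace Pool.Agent.H4G

open Finset

/-- 24 consecutive terms: classes with moduli dividing 12 that leave some `x0`, and one more class -/
theorem window_24 {ι : Type*} (T : Finset ι) (m r : ι → ℤ) (hm : ∀ i ∈ T, m i ∣ 12) {x₀ : ℤ}
    (h₀ : ∀ i ∈ T, ¬ m i ∣ x₀ - r i) {p q A g w lo hi : ℤ} (hp : ¬ p ∣ 12) (hA : 0 < A) (hg : 0 < g)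
    (hn : 24 * (A * g) ≤ hi - lo) :
    ∃ x : ℤ, (lo < A * (w + g * x) ∧ A * (w + g * x) ≤ hi) ∧ (∀ i ∈ T, ¬ m i ∣ x - r i) ∧ ¬ p ∣ x - q := by
  obtain ⟨s, hs⟩ := window_terms (w := w) hA hg hn
  obtain ⟨t, t1, t2⟩ : ∃ t : ℤ, s ≤ x₀ + 12 * t ∧ x₀ + 12 * t < s + 12 :=
    ⟨(s - x₀ + 11) / 12, by omega, by omega⟩
  have key : ∀ x : ℤ, 12 ∣ x - x₀ → ∀ i ∈ T, ¬ m i ∣ x - r i := by
    intro x hx i hi h
    apply h₀ i hi
    have h2 := dvd_sub h ((hm i hi).trans hx)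
    rwa [show x - r i - (x - x₀) = x₀ - r i by ring] at h2
  have k1 : (12 : ℤ) ∣ x₀ + 12 * t - x₀ := ⟨t, by ring⟩
  have k2 : (12 : ℤ) ∣ x₀ + 12 * (t + 1) - x₀ := ⟨t + 1, by ring⟩
  by_cases h : p ∣ x₀ + 12 * t - q
  · refine ⟨x₀ + 12 * (t + 1), hs _ (by linarith) (by linarith), key _ k2, fun h2 => hp ?_⟩
    have h3 := dvd_sub h2 h
    rwa [show x₀ + 12 * (t + 1) - q - (x₀ + 12 * t - q) = 12 by ring] at h3
  · exact ⟨x₀ + 12 * t, hs _ (by linarith) (by linarith), key _ k1, h⟩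

/-- 24 consecutive terms: two classes mod 3, one mod 2, one mod 4, one mod `p`, `p` not a divisor of 12 -/
theorem window_24' {a b c d p q A g w lo hi : ℤ} (hp : ¬ p ∣ 12) (hA : 0 < A) (hg : 0 < g)
    (hn : 24 * (A * g) ≤ hi - lo) :
    ∃ x : ℤ, (lo < A * (w + g * x) ∧ A * (w + g * x) ≤ hi) ∧ ¬ 3 ∣ x - a ∧ ¬ 3 ∣ x - b ∧ ¬ 2 ∣ x - c ∧
      ¬ 4 ∣ x - d ∧ ¬ p ∣ x - q := by
  obtain ⟨u, hu1, hu2⟩ : ∃ u : ℤ, ¬ 3 ∣ u - a ∧ ¬ 3 ∣ u - b := by
    rcases (show (¬ (3 : ℤ) ∣ 0 - a ∧ ¬ (3 : ℤ) ∣ 0 - b) ∨ (¬ (3 : ℤ) ∣ 1 - a ∧ ¬ (3 : ℤ) ∣ 1 - b) ∨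
      (¬ (3 : ℤ) ∣ 2 - a ∧ ¬ (3 : ℤ) ∣ 2 - b) by omega) with h | h | h
    exacts [⟨_, h⟩, ⟨_, h⟩, ⟨_, h⟩]
  obtain ⟨v, hv1, hv2⟩ : ∃ v : ℤ, ¬ 2 ∣ v - c ∧ ¬ 4 ∣ v - d := by
    rcases (show (¬ (2 : ℤ) ∣ 0 - c ∧ ¬ (4 : ℤ) ∣ 0 - d) ∨ (¬ (2 : ℤ) ∣ 1 - c ∧ ¬ (4 : ℤ) ∣ 1 - d) ∨
      (¬ (2 : ℤ) ∣ 2 - c ∧ ¬ (4 : ℤ) ∣ 2 - d) ∨ (¬ (2 : ℤ) ∣ 3 - c ∧ ¬ (4 : ℤ) ∣ 3 - d) by omega) with h | h | h | h
    exacts [⟨_, h⟩, ⟨_, h⟩, ⟨_, h⟩, ⟨_, h⟩]
  have h₀ : ∀ i ∈ (Finset.univ : Finset (Fin 4)), ¬ (![3, 3, 2, 4] : Fin 4 → ℤ) i ∣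
      (4 * u - 3 * v) - (![a, b, c, d] : Fin 4 → ℤ) i := by
    intro i _
    fin_cases i
    · show ¬ (3 : ℤ) ∣ (4 * u - 3 * v) - a
      omega
    · show ¬ (3 : ℤ) ∣ (4 * u - 3 * v) - b
      omega
    · show ¬ (2 : ℤ) ∣ (4 * u - 3 * v) - c
      omega
    · show ¬ (4 : ℤ) ∣ (4 * u - 3 * v) - d
      omega
  have hm : ∀ i ∈ (Finset.univ : Finset (Fin 4)), (![3, 3, 2, 4] : Fin 4 → ℤ) i ∣ 12 := by
    intro i _
    fin_cases i
    · show (3 : ℤ) ∣ 12; norm_num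
    · show (3 : ℤ) ∣ 12; norm_num
    · show (2 : ℤ) ∣ 12; norm_num
    · show (4 : ℤ) ∣ 12; norm_num
  obtain ⟨x, h1, h2, h3⟩ := window_24 (w := w) Finset.univ _ _ hm h₀ (q := q) hp hA hg hn
  exact ⟨x, h1, h2 0 (Finset.mem_univ _), h2 1 (Finset.mem_univ _), h2 2 (Finset.mem_univ _),
    h2 3 (Finset.mem_univ _), h3⟩

theorem K2.pow3' {k : ℕ} (hk : 2 ≤ k) : 2 ^ (k + 1) + 1 ≤ 3 ^ k := by
  obtain ⟨i, rfl⟩ : ∃ i, k = i + 2 := ⟨k - 2, by omega⟩
  have h1 := Nat.pow_le_pow_left (show 2 ≤ 3 by norm_num) i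
  have h2 : 1 ≤ 2 ^ i := Nat.one_le_two_pow
  rw [show i + 2 + 1 = i + 3 by ring, pow_add, pow_add]
  omega

theorem K2.pow5' {k : ℕ} (hk : 2 ≤ k) : 2 ^ (k + 2) + 1 ≤ 5 ^ k := by
  obtain ⟨i, rfl⟩ : ∃ i, k = i + 2 := ⟨k - 2, by omega⟩
  have h1 := Nat.pow_le_pow_left (show 2 ≤ 5 by norm_num) i
  have h2 : 1 ≤ 2 ^ i := Nat.one_le_two_pow
  rw [show i + 2 + 2 = i + 4 by ring, pow_add, pow_add]
  omega

/-- the general bound -/
theorem K2.finc {g1 η ν γ X : ℕ} (hη : η + 2 ≤ g1) (hγ : γ ≤ η) (hν : 0 < ν) (h : X ≤ 2 * ν) :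
    X * (g1 * γ) ≤ (g1 * ν - 1) * (g1 + η) := by
  obtain ⟨t, rfl⟩ : ∃ t, g1 = η + 2 + t := ⟨g1 - (η + 2), by omega⟩
  obtain ⟨n, rfl⟩ : ∃ n, ν = n + 1 := ⟨ν - 1, by omega⟩
  obtain ⟨d, rfl⟩ : ∃ d, η = γ + d := ⟨η - γ, by omega⟩
  have e1 : (γ + d + 2 + t) * (n + 1) - 1 = (γ + d + 2 + t) * n + (γ + d + 1 + t) := by
    rw [mul_add, mul_one]; omega
  rw [e1]
  calc X * ((γ + d + 2 + t) * γ) ≤ 2 * (n + 1) * ((γ + d + 2 + t) * γ) := Nat.mul_le_mul_right _ h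
    _ ≤ _ := by nlinarith

theorem K2.redc {g1 η ν γ X Z : ℕ} (hZ : Z = 2 * X) (h : X * (g1 * γ) ≤ (g1 * ν - 1) * (g1 + η)) :
    Z * (g1 * (4 * γ)) ≤ (g1 * (4 * ν) - 4) * (g1 + (g1 + 2 * η)) := by
  have e1 : g1 * (4 * ν) - 4 = 4 * (g1 * ν - 1) := by
    have : g1 * (4 * ν) = 4 * (g1 * ν) := by ring
    rw [this]; omega
  rw [e1, hZ]
  calc 2 * X * (g1 * (4 * γ)) = 8 * (X * (g1 * γ)) := by ring
    _ ≤ 8 * ((g1 * ν - 1) * (g1 + η)) := Nat.mul_le_mul_left _ h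
    _ = 4 * (g1 * ν - 1) * (g1 + (g1 + 2 * η)) := by ring

/-- powers of two mod 15 -/
theorem K2.two_pow_mod15 : ∀ a : ℕ, 2 ^ a % 15 = 1 ∨ 2 ^ a % 15 = 2 ∨ 2 ^ a % 15 = 4 ∨ 2 ^ a % 15 = 8 := by
  intro a
  induction a with
  | zero => left; norm_num
  | succ n ih => rw [pow_succ]; omega

theorem K2.two_pow_mod7 : ∀ a : ℕ, 2 ^ a % 7 = 1 ∨ 2 ^ a % 7 = 2 ∨ 2 ^ a % 7 = 4 := by
  intro a
  induction a with
  | zero => left; norm_num
  | succ n ih => rw [pow_succ]; omega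

/-- a number without odd primes is a power of two -/
theorem K2.two_pow_of {z : ℕ} (hz : 0 < z) (h : ∀ r : ℕ, r.Prime → r ≠ 2 → ¬ r ∣ z) : ∃ a, z = 2 ^ a := by
  refine ⟨z.primeFactorsList.length, ?_⟩
  apply Nat.eq_prime_pow_of_unique_prime_dvd hz.ne'
  intro d hd hdz
  by_contra hc
  exact h d hd hc hdz

/-- the case `n0 = 4` of (N1c), `e3 = 1` -/
theorem K2.n1c_four {g1 η γ : ℕ} (hη : η + 2 ≤ g1) (hη2 : ¬ 2 ∣ η) (hγ : γ ∣ η) (hγ0 : 0 < γ)
    (hγ1 : γ ∣ 2 * g1 - 1) (hg : ¬ 2 ∣ g1) (h3 : 3 ∣ g1 + 2 * η)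
    (hz : (∀ r : ℕ, r.Prime → r ≠ 2 → ¬ r ∣ 2 * (g1 + η)) ∨
      ∃ zp : ℕ, 1 < zp ∧ ¬ 2 ∣ zp ∧ zp ∣ 2 * (g1 + η) ∧ zp ∣ 4 * g1 - 4) :
    4 * (g1 * γ) ≤ (g1 - 1) * (g1 + η) := by
  obtain ⟨t, rfl⟩ : ∃ t, g1 = η + 2 + t := ⟨g1 - (η + 2), by omega⟩
  obtain ⟨κ, hκ⟩ := hγ
  have hκ0 : κ ≠ 0 := by rintro rfl; omega
  have hκ2 : ¬ 2 ∣ κ := by
    intro h
    exact hη2 (by rw [hκ]; exact h.mul_left _)
  rw [show η + 2 + t - 1 = η + 1 + t by omega]
  rcases (show κ = 1 ∨ 3 ≤ κ by omega) with h1 | h1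
  · rw [h1, mul_one] at hκ
    rw [← hκ] at hγ1 ⊢
    obtain ⟨l, hl⟩ := hγ1
    have hl2 : ¬ 2 ∣ l := by
      intro h
      have : 2 ∣ η * l := h.mul_left _
      omega
    have hl1 : l ≠ 1 := by rintro rfl; omega
    have hl3 : l ≠ 3 := by
      rintro rfl
      rcases hz with hz | ⟨zp, z1, z2, z3, z4⟩
      · obtain ⟨a, ha⟩ := K2.two_pow_of (show 0 < 2 * (η + 2 + t + η) by omega) hz
        have := K2.two_pow_mod15 a
        rw [← ha] at this
        omega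
      · have h5 : zp ∣ 16 := by
          have h6 : zp ∣ 6 * (2 * (η + 2 + t + η)) := z3.mul_left _
          have h7 : zp ∣ 5 * (4 * (η + 2 + t) - 4) := z4.mul_left _
          have h8 := Nat.dvd_sub h6 h7
          rwa [show 6 * (2 * (η + 2 + t + η)) - 5 * (4 * (η + 2 + t) - 4) = 16 by omega] at h8
        have h6 : Nat.Coprime zp (2 ^ 4) := Nat.Coprime.pow_right 4 ((Nat.prime_two.coprime_iff_not_dvd).2 z2).symm
        have h7 := Nat.Coprime.eq_one_of_dvd h6 (by simpa using h5)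
        omega
    have hl5 : l ≠ 5 := by rintro rfl; omega
    have hl7 : 7 ≤ l := by omega
    have h7 : 7 * η ≤ 2 * (η + 2 + t) - 1 := by rw [hl]; nlinarith
    rcases (show η = 1 ∨ 3 ≤ η by omega) with rfl | h9
    · have : 2 ≤ t := by omega
      nlinarith
    · obtain ⟨s, rfl⟩ : ∃ s, η = s + 3 := ⟨η - 3, by omega⟩
      have h8 : 5 * (s + 3) ≤ 2 * t + 3 := by omega
      nlinarith
  · have h2 : 3 * γ ≤ η := by rw [hκ]; nlinarith
    obtain ⟨s, rfl⟩ : ∃ s, η = 3 * γ + s := ⟨η - 3 * γ, by omega⟩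
    obtain ⟨c, rfl⟩ : ∃ c, γ = c + 1 := ⟨γ - 1, by omega⟩
    nlinarith

/-- the case `n0 = 20` of (N1c), `e3 = e9 = e4 = 1` -/
theorem K2.n1c_twenty {g1 η γ : ℕ} (hη : η + 2 ≤ g1) (hη2 : ¬ 2 ∣ η) (hγ : γ ∣ η) (hγ0 : 0 < γ)
    (hγ1 : γ ∣ 2 * (g1 * 5) - 1) (hg : ¬ 2 ∣ g1) (h3 : 3 ∣ g1 + 2 * η)
    (hz : ∀ r : ℕ, r.Prime → r ≠ 2 → r ∣ 2 * (g1 + η) → r = 7) :
    12 * (g1 * γ) ≤ (g1 * 5 - 1) * (g1 + η) := by
  obtain ⟨t, rfl⟩ : ∃ t, g1 = η + 2 + t := ⟨g1 - (η + 2), by omega⟩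
  obtain ⟨κ, hκ⟩ := hγ
  have hκ0 : κ ≠ 0 := by rintro rfl; omega
  have hκ2 : ¬ 2 ∣ κ := by
    intro h
    exact hη2 (by rw [hκ]; exact h.mul_left _)
  rw [show (η + 2 + t) * 5 - 1 = 5 * η + 9 + 5 * t by omega]
  rcases (show κ = 1 ∨ 3 ≤ κ by omega) with h1 | h1
  · rw [h1, mul_one] at hκ
    rw [← hκ] at hγ1 ⊢
    obtain ⟨l, hl⟩ := hγ1
    have hl2 : ¬ 2 ∣ l := by
      intro h
      have : 2 ∣ η * l := h.mul_left _
      omega
    have hl10 : 11 ≤ l := by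
      by_contra hc
      have h4 : η * l ≤ η * 10 := Nat.mul_le_mul_left _ (by omega)
      omega
    have hl11 : l ≠ 11 := by
      rintro rfl
      have h6 : ∀ r : ℕ, r.Prime → r ≠ 2 → ¬ r ∣ 2 * (η + 2 + t + η) := by
        intro r hr hr2 hrz
        have h7 := hz r hr hr2 hrz
        rw [h7] at hrz
        omega
      obtain ⟨a, ha⟩ := K2.two_pow_of (show 0 < 2 * (η + 2 + t + η) by omega) h6
      have := K2.two_pow_mod7 a
      rw [← ha] at this
      omega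
    have hl13 : l ≠ 13 := by rintro rfl; omega
    have hl15 : l ≠ 15 := by rintro rfl; omega
    have hl17 : 17 ≤ l := by omega
    have h7 : 17 * η ≤ 2 * ((η + 2 + t) * 5) - 1 := by rw [hl]; nlinarith
    obtain ⟨s, rfl⟩ : ∃ s, η = s + 1 := ⟨η - 1, by omega⟩
    have h8 : 7 * (s + 1) ≤ 10 * t + 19 := by omega
    nlinarith
  · have h2 : 3 * γ ≤ η := by rw [hκ]; nlinarith
    obtain ⟨s, rfl⟩ : ∃ s, η = 3 * γ + s := ⟨η - 3 * γ, by omega⟩
    obtain ⟨c, rfl⟩ : ∃ c, γ = c + 1 := ⟨γ - 1, by omega⟩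
    nlinarith

theorem K2.n1c {g1 m1 n0 A0 b0 e3 es e9 ez e4 e8 : ℕ} (H : K2.Num g1 m1 n0 A0 b0)
    (F : K2.Fl g1 m1 n0 A0 b0 e3 es e9 ez e4 e8) (hg : ¬ 2 ∣ g1) (hm : ¬ 2 ∣ m1) (hz4 : 4 ∣ g1 + m1)
    (hA : ¬ 2 ∣ A0) (hb : 2 ∣ b0) (hbn : 2 * b0 ∣ n0) (hex : ¬ (g1 = 3 ∧ m1 = 5 ∧ n0 = 4)) :
    2 ^ (K2.k n0 + e3 + es + e9 + ez + e4 + 1) * (g1 * K2.gam g1 m1 n0) ≤ (g1 * n0 - 4) * (g1 + m1) ∨
    ((n0 = 20 ∨ n0 = 28) ∧ e3 = 1 ∧ es = 0 ∧ e9 = 1 ∧ ez = 0 ∧ e4 = 1 ∧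
      24 * (g1 * K2.gam g1 m1 n0) ≤ (g1 * n0 - 4) * (g1 + m1)) := by
  have hn0 : 0 < n0 := by
    rcases Nat.eq_zero_or_pos n0 with h | h
    · have := H.Y5; rw [h, mul_zero] at this; omega
    · exact h
  obtain ⟨η, hη⟩ : ∃ η, m1 = g1 + 2 * η := ⟨(m1 - g1) / 2, by have := H.gm; omega⟩
  have hg0 := H.g0
  have hη0 : 0 < η := by have := H.gm; omega
  have hη2 : ¬ 2 ∣ η := by omega
  have hηg : η + 2 ≤ g1 := by have := H.m3; omega
  have hb4 : 4 ∣ n0 := (show 4 ∣ 2 * b0 by omega).trans hbn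
  obtain ⟨ν, rfl⟩ := hb4
  have hν : 0 < ν := by omega
  obtain ⟨γ, hγ1, hγ2, hγ3, hγ0⟩ := K2.gam4 (δ := 2 * η) hg0 hν
  rw [← hη] at hγ1
  have hgν : 0 < g1 * ν := Nat.mul_pos hg0 hν
  have hγo : ¬ 2 ∣ γ := by
    intro h
    have := h.trans hγ3
    omega
  have hγη : γ ∣ η := by
    refine Nat.Coprime.dvd_of_dvd_mul_left ?_ hγ2
    exact ((Nat.prime_two.coprime_iff_not_dvd).2 hγo).symm
  have hγle : γ ≤ η := Nat.le_of_dvd hη0 hγη
  rw [hγ1]
  have he3 := F.h3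
  have he9 := F.h9
  have hes := F.hs
  have hez := F.hz
  have he4 := F.h4
  have hx : ez = 0 ∨ (e9 = 0 ∧ e4 = 0) := F.ex
  -- reduction
  have hred : ∀ X : ℕ, 2 ^ (K2.k (4 * ν) + e3 + es + e9 + ez + e4) ≤ X →
      X * (g1 * γ) ≤ (g1 * ν - 1) * (g1 + η) →
      2 ^ (K2.k (4 * ν) + e3 + es + e9 + ez + e4 + 1) * (g1 * (4 * γ)) ≤ (g1 * (4 * ν) - 4) * (g1 + m1) := by
    intro X h1 h2
    rw [hη]
    refine K2.redc (X := 2 ^ (K2.k (4 * ν) + e3 + es + e9 + ez + e4)) (by rw [pow_succ]; ring) ?_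
    exact le_trans (Nat.mul_le_mul_right _ h1) h2
  have h4 : (e4 = 1 → ¬ 2 ∣ ν) := by
    intro h1 h2
    have h3 := (F.f4 h1).1
    have h5 : g1 * (4 * ν) = 4 * (g1 * ν) := by ring
    rw [h5] at h3
    have h6 : 2 ∣ g1 * ν := h2.mul_left _
    omega
  have h33 : e3 = 1 → ¬ 3 ∣ 4 * ν := fun h => (F.f3 h).2
  -- `b0` for `n0 = 4`
  have hb1 : ν = 1 → b0 = 2 ∧ A0 = 1 := by
    rintro rfl
    have h2 : b0 ≤ 4 := Nat.le_of_dvd (by norm_num) H.bn
    have h3 : 2 * b0 ≤ 4 := Nat.le_of_dvd (by norm_num) hbn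
    have := H.pA
    have := H.Ab
    omega
  rcases (show es = 1 ∨ es = 0 by omega) with hes1 | hes0
  · -- `es = 1`
    left
    obtain ⟨hp, hm2, hmY⟩ := F.fs hes1
    have hη1 : η = 1 := by omega
    have hγ1' : γ = 1 := by omega
    have hne : ∀ r, r.Prime → r ∣ m1 → r = m1 := fun r hr h => (Nat.prime_dvd_prime_iff_eq hr hp).1 h
    have h30 : e3 = 0 := by
      by_contra hc
      have := hne 3 Nat.prime_three (F.f3 (by omega)).1
      omega
    have h90 : e9 = 0 := by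
      by_contra hc
      have h9 := (F.f9 (by omega)).1
      have := hne 3 Nat.prime_three ((show 3 ∣ 9 by norm_num).trans h9)
      omega
    have hν1 : ν ≠ 1 := by
      rintro rfl
      have h1 : m1 ∣ 10 := by
        have h2 : m1 ∣ 4 * m1 := dvd_mul_left _ _
        have h3 := Nat.dvd_sub h2 hmY
        rwa [show 4 * m1 - (g1 * (4 * 1) - 2) = 10 by omega] at h3
      have h2 : m1 ≤ 10 := Nat.le_of_dvd (by norm_num) h1
      apply hex
      have h3 : m1 = 5 := by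
        interval_cases m1
        all_goals first
          | rfl
          | (exfalso; revert h1; decide)
          | omega
      omega
    refine hred (2 ^ K2.k (4 * ν) * 4) ?_ ?_
    · have h1 := K2.pow_le (show K2.k (4 * ν) + e3 + es + e9 + ez + e4 ≤ K2.k (4 * ν) + 2 by omega)
      rwa [pow_add 2 (K2.k (4 * ν)) 2] at h1
    · have h1 : 2 ^ K2.k (4 * ν) + 1 ≤ ν := by
        rcases Nat.eq_zero_or_pos (K2.k (4 * ν)) with hk | hk
        · rw [hk]; norm_num; omega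
        · have h2 := K2.pow3 hk
          have h3 := K2.k3 (j := 2) hn0 (by simp)
          omega
      generalize 2 ^ K2.k (4 * ν) = P at h1 ⊢
      rw [hη1, hγ1']
      obtain ⟨n, rfl⟩ : ∃ n, ν = P + 1 + n := ⟨ν - (P + 1), by omega⟩
      obtain ⟨t, rfl⟩ : ∃ t, g1 = t + 3 := ⟨g1 - 3, by omega⟩
      have e1 : (t + 3) * (P + 1 + n) - 1 = (t + 3) * (P + n) + (t + 2) := by
        have : (t + 3) * (P + 1 + n) = (t + 3) * (P + n) + (t + 3) := by ring
        omega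
      rw [e1]
      nlinarith
  · by_cases hgen : 2 ^ (K2.k (4 * ν) + e3 + es + e9 + ez + e4) ≤ 2 * ν
    · left
      exact hred _ le_rfl (K2.finc hηg hγle hν hgen)
    have hb' : ∀ X : ℕ, K2.k (4 * ν) + e3 + es + e9 + ez + e4 ≤ X → 2 * ν < 2 ^ X := by
      intro X hX
      have := K2.pow_le hX
      omega
    rcases Nat.eq_zero_or_pos (K2.k (4 * ν)) with hk | hk
    · -- `k = 0`
      have h1 := hb' 3 (by omega)
      have hν3 : ν ≠ 3 := by
        rintro rfl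
        revert hk
        decide +kernel
      have hν2 : ν ≠ 2 := by
        rintro rfl
        have h5 := h4
        have := hb' 2 (by
          have : e4 ≠ 1 := fun h => h4 h (by norm_num)
          omega)
        omega
      have hν1 : ν = 1 := by omega
      subst hν1
      obtain ⟨hb2, hA1⟩ := hb1 rfl
      have h90 : e9 = 0 := by
        by_contra hc
        have := (F.f9 (by omega)).2.2.1
        rw [hb2, hA1] at this
        omega
      have h31 : e3 = 1 := by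
        by_contra hc
        have := hb' 1 (by omega)
        omega
      have hx1 : e4 = 1 ∨ ez = 1 := by
        by_contra hc
        have := hb' 1 (by omega)
        omega
      left
      refine hred (2 ^ 2) (K2.pow_le (by omega)) ?_
      have key := K2.n1c_four (g1 := g1) hηg hη2 hγη hγ0 (by simpa using hγ3) hg (by
        have := (F.f3 h31).1
        rwa [hη] at this) ?_
      · simpa using key
      · have ez' : g1 + m1 = 2 * (g1 + η) := by omega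
        rw [← ez']
        rcases hx1 with h | h
        · left
          intro r hr hr2 hrz
          have h5 := (F.f4 h).2 r hr hr2 hrz
          rw [hA1] at h5
          exact hr.one_lt.ne' (Nat.dvd_one.1 h5)
        · right
          obtain ⟨zp, z1, z2, z3, z4, _⟩ := F.fz h
          refine ⟨zp, z1, z2, z3, ?_⟩
          rwa [show g1 * (4 * 1) - 4 = 4 * g1 - 4 by omega] at z4
    · by_cases h3 : 3 ∣ 4 * ν
      · exfalso
        have h30 : e3 = 0 := by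
          by_contra hc
          exact h33 (by omega) h3
        have hk3 := K2.k3 (j := 2) hn0 (by simp)
        rcases (show K2.k (4 * ν) = 1 ∨ 2 ≤ K2.k (4 * ν) by omega) with hk1 | hk2
        · rw [hk1] at hk3
          have h5 := hb' 3 (by omega)
          have hν3 : ν = 3 := by omega
          subst hν3
          have h90 : e9 = 0 := by
            by_contra hc
            obtain ⟨_, h6, h7, _⟩ := F.f9 (by omega)
            have h8 : 2 * b0 ≤ 4 * 3 := Nat.le_of_dvd (by norm_num) hbn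
            have h9 := H.pA
            have h10 := H.Ab
            have h11 : b0 = 2 ∨ b0 = 4 := by omega
            rcases h11 with h | h
            · rw [h] at h7 h10; omega
            · rw [h] at hbn; revert hbn; decide
          have := hb' 2 (by omega)
          omega
        · have h5 := K2.pow3' hk2
          have h6 := K2.pow_add' (show K2.k (4 * ν) + e3 + es + e9 + ez + e4 ≤ K2.k (4 * ν) + 2 by omega)
          rw [pow_succ] at h5
          norm_num at h6 hk3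
          omega
      · have hk5 := K2.k5 (j := 2) hn0 (by simp) h3
        rcases (show K2.k (4 * ν) = 1 ∨ 2 ≤ K2.k (4 * ν) by omega) with hk1 | hk2
        · rw [hk1] at hk5
          have h5 := hb' 4 (by omega)
          have h57 : ν = 5 ∨ ν = 7 := by omega
          have hall : e3 = 1 ∧ e9 = 1 ∧ e4 = 1 ∧ ez = 0 := by
            by_contra hc
            have := hb' 3 (by omega)
            omega
          obtain ⟨a1, a2, a3, a4⟩ := hall
          right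
          have h24 : 12 * (g1 * γ) ≤ (g1 * ν - 1) * (g1 + η) := by
            rcases h57 with rfl | rfl
            · refine K2.n1c_twenty hηg hη2 hγη hγ0 hγ3 hg (by
                have := (F.f3 a1).1
                rwa [hη] at this) ?_
              intro r hr hr2 hrz
              obtain ⟨_, h6, h7, h8⟩ := F.f9 a2
              have h9 : r ∣ A0 := h8 r hr hr2 (by rwa [show g1 + m1 = 2 * (g1 + η) by omega])
              have h10 : 2 * b0 ≤ 4 * 5 := Nat.le_of_dvd (by norm_num) hbn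
              have h11 : b0 = 2 ∨ b0 = 10 := by
                have h12 : b0 ≤ 10 := by omega
                have h13 := H.Ab
                interval_cases b0
                all_goals first
                  | (left; rfl)
                  | (right; rfl)
                  | (exfalso; revert hbn; decide)
                  | omega
              have h12 := H.pA
              have h13 := H.Ab
              have h14 := H.cAb
              rcases h11 with h | h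
              · rw [h] at h7 h13
                omega
              · rw [h] at h7 h13 h14
                have h15 : A0 = 1 ∨ A0 = 7 := by
                  interval_cases A0
                  all_goals first
                    | (left; rfl)
                    | (right; rfl)
                    | (exfalso; omega)
                rcases h15 with h16 | h16
                · rw [h16] at h9
                  exact absurd (Nat.dvd_one.1 h9) hr.one_lt.ne'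
                · rw [h16] at h9
                  exact (Nat.prime_dvd_prime_iff_eq hr (by norm_num)).1 h9
            · obtain ⟨t, rfl⟩ : ∃ t, g1 = η + 2 + t := ⟨g1 - (η + 2), by omega⟩
              obtain ⟨d, rfl⟩ : ∃ d, η = γ + d := ⟨η - γ, by omega⟩
              rw [show (γ + d + 2 + t) * 7 - 1 = 7 * (γ + d + t) + 13 by omega]
              nlinarith
          refine ⟨by omega, a1, hes0, a2, a4, a3, ?_⟩
          rw [hη]
          exact K2.redc (X := 12) (by norm_num) h24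
        · exfalso
          have h5 := K2.pow5' hk2
          have h6 := K2.pow_add' (show K2.k (4 * ν) + e3 + es + e9 + ez + e4 ≤ K2.k (4 * ν) + 3 by omega)
          rw [pow_add] at h5
          norm_num at h6 hk5 h5
          omega

end Pool.Agent.H4G
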