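import Pool.Agent.H4G.Arith.K2NumC
set_option autoImplicit false

/-!
# Line B, K = 2, level one: number lemma (N1d), type Q (statement: helper40; proof: helper24)
-/

namespace Pool.Agent.H4G

open Finset

/-- `gam` for `n0 = 2 mod 4`, `z` odd -/
theorem K2.gam2 {g1 δ μ : ℕ} (hg : 0 < g1) (hμ : 0 < μ) (hμ2 : ¬ 2 ∣ μ) (_ : ¬ 2 ∣ g1 + (g1 + δ))
    (h5 : 5 ≤ g1 * (2 * μ)) :
    ∃ γ : ℕ, K2.gam g1 (g1 + δ) (2 * μ) = 2 * γ ∧ γ ∣ δ ∧ 0 < γ := by
  have h0 : 1 ≤ g1 * μ := Nat.mul_pos hg hμ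
  have e0 : g1 * (2 * μ) = 2 * (g1 * μ) := by ring
  rw [e0] at h5
  have h1 : 2 * (g1 * (2 * μ) - 2) = 2 * (2 * (g1 * μ - 1)) := by
    rw [e0]; omega
  have h2 : 2 * μ * (g1 + (g1 + δ)) - 4 = 2 * (μ * (2 * g1 + δ) - 2) := by
    have : 2 * μ * (g1 + (g1 + δ)) = 2 * (μ * (2 * g1 + δ)) := by ring
    rw [this]; omega
  have h3 : μ * (2 * g1 + δ) = 2 * (g1 * μ) + μ * δ := by ring
  have hgp : 0 < Nat.gcd (2 * (g1 * μ - 1)) (μ * (2 * g1 + δ) - 2) :=
    Nat.gcd_pos_of_pos_left _ (by omega)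
  refine ⟨Nat.gcd (2 * (g1 * μ - 1)) (μ * (2 * g1 + δ) - 2), ?_, ?_, hgp⟩
  · unfold K2.gam
    rw [h1, h2, Nat.gcd_mul_left]
  · set γ := Nat.gcd (2 * (g1 * μ - 1)) (μ * (2 * g1 + δ) - 2) with hγ
    have h4 : γ ∣ 2 * (g1 * μ - 1) := Nat.gcd_dvd_left _ _
    have h5' : γ ∣ μ * (2 * g1 + δ) - 2 := Nat.gcd_dvd_right _ _
    have h6 : γ ∣ μ * δ := by
      have h7 := Nat.dvd_sub h5' h4
      rw [h3] at h7
      rwa [show 2 * (g1 * μ) + μ * δ - 2 - 2 * (g1 * μ - 1) = μ * δ by omega] at h7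
    refine Nat.Coprime.dvd_of_dvd_mul_left ?_ h6
    rw [Nat.coprime_iff_gcd_eq_one]
    have h8 : Nat.gcd γ μ ∣ 2 * (g1 * μ - 1) := (Nat.gcd_dvd_left _ _).trans h4
    have h9 : Nat.gcd γ μ ∣ 2 * (g1 * μ) := ((Nat.gcd_dvd_right γ μ).mul_left g1).mul_left 2
    have h10 := Nat.dvd_sub h9 h8
    rw [show 2 * (g1 * μ) - 2 * (g1 * μ - 1) = 2 by omega] at h10
    rcases (Nat.dvd_prime Nat.prime_two).1 h10 with h11 | h11
    · exact h11
    · exfalso
      apply hμ2
      rw [← h11]; exact Nat.gcd_dvd_right _ _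

/-- the arithmetic of one case: `4 | n0`, `2 ^ E <= ...` -/
theorem K2.fin4 {g1 δ ν γ X : ℕ} (hδ : δ ≤ 2 * g1) (hγ : γ ≤ δ) (hg : 0 < g1) (h : 2 * X + 4 ≤ 4 * ν) :
    X * (g1 * (4 * γ)) ≤ (g1 * (4 * ν) - 4) * (g1 + (g1 + δ)) := by
  have h1 : 2 * X * g1 ≤ g1 * (4 * ν) - 4 := by
    have h2 : (2 * X + 4) * g1 ≤ 4 * ν * g1 := Nat.mul_le_mul_right _ h
    have h3 : (2 * X + 4) * g1 = 2 * X * g1 + 4 * g1 := by ring
    have h4 : 4 * ν * g1 = g1 * (4 * ν) := by ring
    omega
  calc X * (g1 * (4 * γ)) = (2 * X * g1) * (2 * γ) := by ring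
    _ ≤ (g1 * (4 * ν) - 4) * (g1 + (g1 + δ)) := Nat.mul_le_mul h1 (by omega)

theorem K2.fin2 {g1 δ μ γ X : ℕ} (hδ : δ ≤ 2 * g1) (hγ : γ ≤ δ) (hg : 2 ≤ g1) (h : X + 2 ≤ 2 * μ) :
    X * (g1 * (2 * γ)) ≤ (g1 * (2 * μ) - 4) * (g1 + (g1 + δ)) := by
  have h1 : X * g1 ≤ g1 * (2 * μ) - 4 := by
    have h2 : (X + 2) * g1 ≤ 2 * μ * g1 := Nat.mul_le_mul_right _ h
    have h3 : (X + 2) * g1 = X * g1 + 2 * g1 := by ring
    have h4 : 2 * μ * g1 = g1 * (2 * μ) := by ring
    omega
  calc X * (g1 * (2 * γ)) = (X * g1) * (2 * γ) := by ring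
    _ ≤ (g1 * (2 * μ) - 4) * (g1 + (g1 + δ)) := Nat.mul_le_mul h1 (by omega)

theorem K2.pow_le {E a : ℕ} (h : E ≤ a) : 2 ^ E ≤ 2 ^ a := Nat.pow_le_pow_right (by norm_num) h

theorem K2.pow_add' {E k a : ℕ} (h : E ≤ k + a) : 2 ^ E ≤ 2 ^ k * 2 ^ a := by
  rw [← pow_add]; exact K2.pow_le h

/-- (N1d), type Q -/
theorem K2.n1d {g1 m1 n0 A0 b0 e3 es e9 ez e4 e8 : ℕ} (H : K2.Num g1 m1 n0 A0 b0)
    (F : K2.Fl g1 m1 n0 A0 b0 e3 es e9 ez e4 e8)
    (ht : (¬ 2 ∣ g1 ∧ 2 ∣ m1 ∧ 4 ∣ n0 ∧ (2 ∣ b0 → 2 * b0 ∣ n0)) ∨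
      (2 ∣ g1 ∧ ¬ 2 ∣ m1 ∧ ¬ 2 ∣ A0 ∧ 2 * b0 ∣ n0)) :
    2 ^ (K2.k n0 + e3 + es + e9 + ez + e8) * (g1 * K2.gam g1 m1 n0) ≤ (g1 * n0 - 4) * (g1 + m1) := by
  have hpar : ¬ 2 ∣ g1 + m1 := by
    rcases ht with ⟨h1, h2, _⟩ | ⟨h1, h2, _⟩ <;> omega
  have hn0 : 0 < n0 := by
    rcases Nat.eq_zero_or_pos n0 with h | h
    · have := H.Y5; rw [h, mul_zero] at this; omega
    · exact h
  have hb2 : 2 ≤ b0 := by have := H.pA; have := H.Ab; omega
  have hes : es = 0 := by
    rcases Nat.eq_zero_or_pos es with h | h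
    · exact h
    · exfalso
      have h1 := F.hs
      have h2 := (F.fs (by omega)).2.1
      rw [h2] at hpar
      omega
  have h3z : e3 = 1 → ¬ 3 ∣ g1 + m1 := by
    intro h1 h2
    have h4 := (F.f3 h1).1
    have h5 : 3 ∣ g1 := (Nat.dvd_add_left h4).1 h2
    have h6 : 3 ∣ Nat.gcd g1 m1 := Nat.dvd_gcd h5 h4
    rw [H.co] at h6
    omega
  obtain ⟨δ, hδ⟩ : ∃ δ, m1 = g1 + δ := ⟨m1 - g1, by have := H.gm; omega⟩
  have hg0 := H.g0
  have hδ1 : 0 < δ := by have := H.gm; omega
  have hδ2 : δ < 2 * g1 := by have := H.m3; omega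
  have he3 := F.h3
  have he9 := F.h9
  have hez := F.hz
  have he8 := F.h8
  have hx : e9 + ez ≤ 1 := by
    rcases F.ex with h | ⟨h, _⟩ <;> omega
  have he33 : e3 = 1 → ¬ 3 ∣ n0 := fun h => (F.f3 h).2
  by_cases h4 : 4 ∣ n0
  · obtain ⟨ν, rfl⟩ := h4
    have hν : 0 < ν := by omega
    obtain ⟨γ, hγ1, hγ2, hγ3, hγ0⟩ := K2.gam4 (δ := δ) hg0 hν
    rw [hδ, hγ1]
    have hγle : γ ≤ δ := Nat.le_of_dvd hδ1 hγ2
    -- `b0` in small cases
    by_cases hbig : 2 * 2 ^ (K2.k (4 * ν) + e3 + es + e9 + ez + e8) + 4 ≤ 4 * ν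
    · exact K2.fin4 (by omega) hγle hg0 hbig
    push Not at hbig
    have hν4 : ν = 1 ∨ ν = 2 ∨ ν = 4 := by
      rcases Nat.eq_zero_or_pos (K2.k (4 * ν)) with hk | hk
      · rw [hk] at hbig
        have h1 := K2.pow_le (show 0 + e3 + es + e9 + ez + e8 ≤ 3 by omega)
        have h2 : ν ≤ 4 := by omega
        have h3 : ν ≠ 3 := by
          rintro rfl
          revert hk
          decide +kernel
        omega
      · exfalso
        by_cases h3 : 3 ∣ 4 * ν
        · have h30 : e3 = 0 := by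
            by_contra hc
            exact he33 (by omega) h3
          have hp := K2.pow3 hk
          by_cases h8 : 8 ∣ 4 * ν
          · have h1 := K2.k3 (j := 3) hn0 (by simpa using h8)
            have h2 := K2.pow_add' (show K2.k (4 * ν) + e3 + es + e9 + ez + e8 ≤ K2.k (4 * ν) + 2 by omega)
            norm_num at h2
            omega
          · have h80 : e8 = 0 := by
              by_contra hc
              exact h8 (F.f8 (by omega))
            have h1 := K2.k3 (j := 2) hn0 (by simpa using dvd_mul_right 4 ν)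
            have h2 := K2.pow_add' (show K2.k (4 * ν) + e3 + es + e9 + ez + e8 ≤ K2.k (4 * ν) + 1 by omega)
            norm_num at h2
            omega
        · have hp := K2.pow5 hk
          rw [pow_succ] at hp
          by_cases h8 : 8 ∣ 4 * ν
          · have h1 := K2.k5 (j := 3) hn0 (by simpa using h8) h3
            have h2 := K2.pow_add' (show K2.k (4 * ν) + e3 + es + e9 + ez + e8 ≤ K2.k (4 * ν) + 3 by omega)
            norm_num at h2
            omega
          · have h80 : e8 = 0 := by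
              by_contra hc
              exact h8 (F.f8 (by omega))
            have h1 := K2.k5 (j := 2) hn0 (by simpa using dvd_mul_right 4 ν) h3
            have h2 := K2.pow_add' (show K2.k (4 * ν) + e3 + es + e9 + ez + e8 ≤ K2.k (4 * ν) + 2 by omega)
            norm_num at h2
            omega
    have hδo : ¬ 2 ∣ δ := by
      intro h; apply hpar; rw [hδ]; omega
    -- an odd prime of `z`
    obtain ⟨s, hs, hsz⟩ := Nat.exists_prime_and_dvd (show g1 + m1 ≠ 1 by omega)
    have hs2 : s ≠ 2 := by rintro rfl; exact hpar hsz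
    -- `γ = δ` or `3 γ ≤ δ`
    have hκ : γ = δ ∨ 3 * γ ≤ δ := by
      obtain ⟨κ, hκ⟩ := hγ2
      have h1 : κ ≠ 0 := by rintro rfl; omega
      have h2 : κ ≠ 2 := by
        rintro rfl
        exact hδo ⟨γ, by rw [hκ]; ring⟩
      rcases (show κ = 1 ∨ 3 ≤ κ by omega) with h | h
      · left; rw [hκ, h, mul_one]
      · right
        calc 3 * γ ≤ κ * γ := Nat.mul_le_mul_right _ h
          _ = δ := by rw [hκ]; ring
    rcases hν4 with rfl | rfl | rfl
    · -- `n0 = 4`
      have hk : K2.k (4 * 1) = 0 := by decide +kernel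
      have hb : b0 = 2 := by
        have h1 := H.bn
        have h2 : b0 ≤ 4 := Nat.le_of_dvd (by norm_num) h1
        interval_cases b0
        · rfl
        · exfalso; revert h1; decide
        · exfalso
          rcases ht with ⟨_, _, _, h⟩ | ⟨_, _, _, h⟩
          · revert h; decide
          · revert h; decide
      have hA1 : A0 = 1 := by have := H.pA; have := H.Ab; omega
      have hg2 : 2 ≤ g1 := by have := H.Y5; omega
      have h90 : e9 = 0 := by
        by_contra hc
        have := (F.f9 (by omega)).2.2.2 s hs hs2 hsz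
        rw [hA1] at this
        exact hs.one_lt.ne' (Nat.dvd_one.1 this)
      have hz0 : ez = 0 := by
        by_contra hc
        have h1 := F.zfull hpar (by omega) (by
          intro r hr _ _ h2
          rw [hA1] at h2
          exact hr.one_lt.ne' (Nat.dvd_one.1 h2))
        rw [show g1 * (4 * 1) - 4 = 4 * (g1 - 1) by omega] at h1
        have h2 : Nat.Coprime (g1 + m1) 4 := by
          have : Nat.Coprime (g1 + m1) (2 ^ 2) :=
            Nat.Coprime.pow_right 2 ((Nat.prime_two.coprime_iff_not_dvd).2 hpar).symm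
          simpa using this
        have h3 := Nat.le_of_dvd (by omega) (h2.dvd_of_dvd_mul_left h1)
        omega
      have h80 : e8 = 0 := by
        by_contra hc
        have := F.f8 (by omega)
        revert this; decide
      rw [hk, hes, h90, hz0, h80]
      obtain ⟨t, rfl⟩ : ∃ t, g1 = t + 2 := ⟨g1 - 2, by omega⟩
      rcases (show e3 = 0 ∨ e3 = 1 by omega) with h30 | h31
      · rw [h30]
        rw [show (t + 2) * (4 * 1) - 4 = 4 * (t + 1) by omega]
        norm_num
        nlinarith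
      · rw [h31]
        rw [show (t + 2) * (4 * 1) - 4 = 4 * (t + 1) by omega]
        norm_num
        rcases hκ with h1 | h1
        · -- `δ | 2 g1 - 1`
          rw [h1] at hγ3 ⊢
          obtain ⟨κ, hκ⟩ := hγ3
          have e1 : 2 * ((t + 2) * 1) - 1 = 2 * t + 3 := by omega
          rw [e1] at hκ
          have h2 : κ ≠ 0 := by rintro rfl; omega
          have h3 : κ ≠ 2 := by rintro rfl; omega
          have h5 : κ ≠ 1 := by
            rintro rfl
            have := (F.f3 h31).1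
            omega
          have h6 : 3 * δ ≤ 2 * t + 3 := by
            rw [hκ]; nlinarith [show 3 ≤ κ by omega]
          nlinarith
        · nlinarith
    · -- `n0 = 8`
      have hk : K2.k (4 * 2) = 0 := by decide +kernel
      have hA3 : A0 ∣ 3 := by
        have h1 := H.bn
        have h2 : b0 ≤ 8 := Nat.le_of_dvd (by norm_num) h1
        have h3 : b0 = 2 ∨ b0 = 4 := by
          interval_cases b0
          · left; rfl
          · exfalso; revert h1; decide
          · right; rfl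
          · exfalso; revert h1; decide
          · exfalso; revert h1; decide
          · exfalso; revert h1; decide
          · exfalso
            rcases ht with ⟨_, _, _, h⟩ | ⟨_, _, _, h⟩
            · revert h; decide
            · revert h; decide
        have h4 := H.pA
        have h5 := H.Ab
        have h6 := H.cAb
        rcases h3 with rfl | rfl
        · interval_cases A0; norm_num
        · interval_cases A0
          · norm_num
          · exfalso; revert h6; decide
          · norm_num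
      have h90 : e9 = 0 := by
        by_contra hc
        obtain ⟨h1, _, _, h2⟩ := F.f9 (by omega)
        have h3 : s = 3 := by
          have := (h2 s hs hs2 hsz).trans hA3
          exact (Nat.prime_dvd_prime_iff_eq hs Nat.prime_three).1 this
        rw [h3] at hsz
        have h4 : 3 ∣ m1 := (by norm_num : 3 ∣ 9).trans h1
        have h5 : 3 ∣ g1 := (Nat.dvd_add_left h4).1 hsz
        have h6 : 3 ∣ Nat.gcd g1 m1 := Nat.dvd_gcd h5 h4
        rw [H.co] at h6
        omega
      have h1z : (e3 = 1 ∨ A0 = 1) → ez = 0 := by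
        intro h0
        by_contra hc
        have h1 := F.zfull hpar (by omega) (by
          intro r hr _ hrz h2
          rcases h0 with h0 | h0
          · have h3 : r = 3 := (Nat.prime_dvd_prime_iff_eq hr Nat.prime_three).1 (h2.trans hA3)
            rw [h3] at hrz
            exact h3z h0 hrz
          · rw [h0] at h2
            exact hr.one_lt.ne' (Nat.dvd_one.1 h2))
        rw [show g1 * (4 * 2) - 4 = 4 * (2 * g1 - 1) by omega] at h1
        have h2 : Nat.Coprime (g1 + m1) 4 := by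
          have : Nat.Coprime (g1 + m1) (2 ^ 2) :=
            Nat.Coprime.pow_right 2 ((Nat.prime_two.coprime_iff_not_dvd).2 hpar).symm
          simpa using this
        have h3 := Nat.le_of_dvd (by omega) (h2.dvd_of_dvd_mul_left h1)
        omega
      rw [hk, hes, h90]
      rcases Nat.lt_or_ge g1 2 with hg1 | hg2
      · have hg11 : g1 = 1 := by omega
        have hδ11 : δ = 1 := by omega
        have h30 : e3 = 0 := by
          by_contra hc
          have := (F.f3 (by omega)).1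
          omega
        have hz0 : ez = 0 := by
          rcases (Nat.dvd_prime Nat.prime_three).1 hA3 with h0 | h0
          · exact h1z (Or.inr h0)
          · by_contra hc
            obtain ⟨zp, h2, _, h4, _, h6, _⟩ := F.fz (by omega)
            have h7 : g1 + m1 = 3 := by omega
            rw [h7] at h4
            have h8 : zp = 3 := by
              rcases (Nat.dvd_prime Nat.prime_three).1 h4 with h | h <;> omega
            rw [h8, h0] at h6
            revert h6; decide
        have h1 := K2.pow_le (show 0 + e3 + 0 + 0 + ez + e8 ≤ 1 by omega)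
        have h2 : γ ≤ 1 := by omega
        subst hg11
        subst hδ11
        have h3 : γ = 1 := by omega
        rw [h3]
        have h5 : e3 + 0 + 0 + ez + e8 ≤ 1 := by omega
        have h6 := K2.pow_le h5
        norm_num at h6 ⊢
        omega
      · have h1 := K2.pow_le (show 0 + e3 + 0 + 0 + ez + e8 ≤ 2 by
          have := h1z
          omega)
        refine le_trans (Nat.mul_le_mul_right _ h1) ?_
        obtain ⟨t, rfl⟩ : ∃ t, g1 = t + 2 := ⟨g1 - 2, by omega⟩
        rw [show (t + 2) * (4 * 2) - 4 = 4 * (2 * t + 3) by omega]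
        norm_num
        rcases hκ with h1 | h1
        · rw [h1] at hγ3 ⊢
          obtain ⟨κ, hκ⟩ := hγ3
          have e1 : 2 * ((t + 2) * 2) - 1 = 4 * t + 7 := by omega
          rw [e1] at hκ
          have h2 : κ ≠ 0 := by rintro rfl; omega
          have h3 : κ ≠ 2 := by rintro rfl; omega
          have h5 : κ ≠ 1 := by rintro rfl; omega
          have h6 : 3 * δ ≤ 4 * t + 7 := by
            rw [hκ]; nlinarith [show 3 ≤ κ by omega]
          nlinarith
        · nlinarith
    · -- `n0 = 16`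
      have hk : K2.k (4 * 4) = 0 := by decide +kernel
      rw [hk, hes]
      have h1 := K2.pow_le (show 0 + e3 + 0 + e9 + ez + e8 ≤ 3 by omega)
      refine le_trans (Nat.mul_le_mul_right _ h1) ?_
      obtain ⟨t, rfl⟩ : ∃ t, g1 = t + 1 := ⟨g1 - 1, by omega⟩
      rw [show (t + 1) * (4 * 4) - 4 = 4 * (4 * t + 3) by omega]
      norm_num
      rcases hκ with h1 | h1
      · rw [h1] at hγ3 ⊢
        obtain ⟨κ, hκ⟩ := hγ3
        have e1 : 2 * ((t + 1) * 4) - 1 = 8 * t + 7 := by omega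
        rw [e1] at hκ
        have h2 : ¬ 2 ∣ κ := by
          intro h
          have : 2 ∣ δ * κ := h.mul_left _
          omega
        have h3 : κ ≠ 3 := by rintro rfl; omega
        have h5 : κ ≠ 1 := by rintro rfl; omega
        have h6 : 5 * δ ≤ 8 * t + 7 := by
          rw [hκ]; nlinarith [show 5 ≤ κ by omega]
        nlinarith
      · nlinarith
  · -- `n0 = 2 mod 4`
    obtain ⟨hg2', hm2, hA2, h2b⟩ : 2 ∣ g1 ∧ ¬ 2 ∣ m1 ∧ ¬ 2 ∣ A0 ∧ 2 * b0 ∣ n0 := by
      rcases ht with ⟨_, _, h, _⟩ | h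
      · exact absurd h h4
      · exact h
    have h2n : 2 ∣ n0 := (dvd_mul_right 2 b0).trans h2b
    obtain ⟨μ, rfl⟩ := h2n
    have hμ : 0 < μ := by omega
    have hμ2 : ¬ 2 ∣ μ := by
      rintro ⟨c, rfl⟩
      exact h4 ⟨c, by ring⟩
    have hbμ : b0 ∣ μ := (Nat.mul_dvd_mul_iff_left (by norm_num)).1 h2b
    rw [hδ] at hpar
    obtain ⟨γ, hγ1, hγ2, hγ0⟩ := K2.gam2 hg0 hμ hμ2 hpar H.Y5
    rw [hδ, hγ1]
    have hγle : γ ≤ δ := Nat.le_of_dvd hδ1 hγ2
    have h80 : e8 = 0 := by
      by_contra hc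
      have := F.f8 (by omega)
      omega
    refine K2.fin2 (by omega) hγle (by omega) ?_
    have hk : 1 ≤ K2.k (2 * μ) := by
      obtain ⟨r, hr, hrb⟩ := Nat.exists_prime_and_dvd (show b0 ≠ 1 by omega)
      have hr2 : r ≠ 2 := by rintro rfl; exact hμ2 (hrb.trans hbμ)
      unfold K2.k
      apply Finset.card_pos.2
      refine ⟨r, ?_⟩
      rw [Finset.mem_erase, Nat.mem_primeFactors]
      exact ⟨hr2, hr, (hrb.trans hbμ).mul_left _, by omega⟩
    by_cases h3 : 3 ∣ 2 * μ
    · have h30 : e3 = 0 := by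
        by_contra hc
        exact he33 (by omega) h3
      have hp := K2.pow3 hk
      have h1 := K2.k3 (j := 1) hn0 (by simp)
      have h2 := K2.pow_add' (show K2.k (2 * μ) + e3 + es + e9 + ez + e8 ≤ K2.k (2 * μ) + 1 by omega)
      norm_num at h2
      omega
    · have hp := K2.pow5 hk
      rw [pow_succ] at hp
      have h1 := K2.k5 (j := 1) hn0 (by simp) h3
      have h2 := K2.pow_add' (show K2.k (2 * μ) + e3 + es + e9 + ez + e8 ≤ K2.k (2 * μ) + 2 by omega)
      norm_num at h2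
      omega

end Pool.Agent.H4G
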