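import Pool.Agent.H4G.Arith.K2Pick5
import Pool.Agent.H4G.Arith.K2N1b
import Pool.Agent.H4G.Arith.K2N1c
import Pool.Agent.H4G.Arith.K2N1d
import Pool.Agent.H4G.Arith.LThin23

/-!
# LINE B, `K = 2`: the good types, level one (helper5)
-/

set_option autoImplicit false

namespace Pool.Agent.H4G

variable {S : PSt} {a' b c A a e f Y φ : ℤ} {l p l' p' : Z2} {g1 m1 n0 A0 b0 hh : ℕ}

/-! ## flags -/

def K2.f3 (m1 n0 : ℕ) : ℕ := if 3 ∣ m1 ∧ ¬ 3 ∣ n0 then 1 else 0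

def K2.fs (g1 m1 n0 : ℕ) : ℕ := if m1.Prime ∧ m1 = g1 + 2 ∧ m1 ∣ g1 * n0 - 2 then 1 else 0

def K2.f9 (m1 A0 b0 : ℕ) : ℕ := if 9 ∣ m1 ∧ ¬ 3 ∣ b0 ∧ 3 ∣ b0 - A0 then 1 else 0

theorem K2.f3_le : K2.f3 m1 n0 ≤ 1 := by unfold K2.f3; split_ifs <;> omega

theorem K2.fs_le : K2.fs g1 m1 n0 ≤ 1 := by unfold K2.fs; split_ifs <;> omega

theorem K2.f9_le : K2.f9 m1 A0 b0 ≤ 1 := by unfold K2.f9; split_ifs <;> omega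

theorem K2.f3_one (h : K2.f3 m1 n0 = 1) : 3 ∣ m1 ∧ ¬ 3 ∣ n0 := by
  unfold K2.f3 at h; split_ifs at h with h1
  · exact h1

theorem K2.fs_one (h : K2.fs g1 m1 n0 = 1) : m1.Prime ∧ m1 = g1 + 2 ∧ m1 ∣ g1 * n0 - 2 := by
  unfold K2.fs at h; split_ifs at h with h1
  · exact h1

theorem K2.f9_one (h : K2.f9 m1 A0 b0 = 1) : 9 ∣ m1 ∧ ¬ 3 ∣ b0 ∧ 3 ∣ b0 - A0 := by
  unfold K2.f9 at h; split_ifs at h with h1
  · exact h1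

theorem K2.f9_zero (h : K2.f9 m1 A0 b0 = 0) : ¬ (9 ∣ m1 ∧ ¬ 3 ∣ b0 ∧ 3 ∣ b0 - A0) := by
  unfold K2.f9 at h; split_ifs at h with h1
  · exact h1

theorem K2.oddP_card' (hn0 : 0 < n0) :
    (K2.oddP g1 m1 n0).card ≤ K2.k n0 + K2.f3 m1 n0 + K2.fs g1 m1 n0 := K2.oddP_card hn0

/-- the flags of END 1 -/
theorem K2.fl1 {ez e8 : ℕ} (hez : ez = 0 ∨ (ez = 1 ∧ ∃ zp : ℕ, 1 < zp ∧ ¬ 2 ∣ zp ∧
      zp ∣ g1 + m1 ∧ zp ∣ g1 * n0 - 4 ∧ Nat.Coprime zp A0 ∧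
      ∀ r : ℕ, r.Prime → r ≠ 2 → ¬ r ∣ A0 → ¬ r ∣ (g1 + m1) / zp))
    (he8 : e8 = 0 ∨ (e8 = 1 ∧ 8 ∣ n0)) :
    K2.Fl g1 m1 n0 A0 b0 (K2.f3 m1 n0) (K2.fs g1 m1 n0) 0 ez 0 e8 where
  h3 := K2.f3_le
  hs := K2.fs_le
  h9 := by omega
  hz := by rcases hez with h | h <;> omega
  h4 := by omega
  h8 := by rcases he8 with h | h <;> omega
  f3 := K2.f3_one
  fs := K2.fs_one
  f9 := fun h => by omega
  fz := fun h => by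
    rcases hez with h1 | h1
    · omega
    · exact h1.2
  f4 := fun h => by omega
  f8 := fun h => by
    rcases he8 with h1 | h1
    · omega
    · exact h1.2
  ex := Or.inr ⟨rfl, rfl⟩

/-- the flags of END 2 -/
theorem K2.fl2 {e4 e8 : ℕ} (hsm : ∀ r : ℕ, r.Prime → r ≠ 2 → r ∣ g1 + m1 → r ∣ A0)
    (he4 : e4 = 0 ∨ (e4 = 1 ∧ 8 ∣ g1 * n0 - 4)) (he8 : e8 = 0 ∨ (e8 = 1 ∧ 8 ∣ n0)) :
    K2.Fl g1 m1 n0 A0 b0 (K2.f3 m1 n0) (K2.fs g1 m1 n0) (K2.f9 m1 A0 b0) 0 e4 e8 where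
  h3 := K2.f3_le
  hs := K2.fs_le
  h9 := K2.f9_le
  hz := by omega
  h4 := by rcases he4 with h | h <;> omega
  h8 := by rcases he8 with h | h <;> omega
  f3 := K2.f3_one
  fs := K2.fs_one
  f9 := fun h => by
    obtain ⟨h1, h2, h3⟩ := K2.f9_one h
    exact ⟨h1, h2, h3, hsm⟩
  fz := fun h => by omega
  f4 := fun h => by
    rcases he4 with h1 | h1
    · omega
    · exact ⟨h1.2, hsm⟩
  f8 := fun h => by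
    rcases he8 with h1 | h1
    · omega
    · exact h1.2
  ex := Or.inl rfl

/-! ## the part of `z` prime to `2 A0` -/

theorem K2D.hh_odd (D : K2D A b c a e Y g1 m1 n0 A0 b0 hh) {r : ℕ} (hr : r.Prime) (hr2 : r ≠ 2) :
    ¬ r ∣ hh := by
  intro h
  have h4 : r ∣ 2 ^ 2 := h.trans D.h4
  exact hr2 ((Nat.prime_dvd_prime_iff_eq hr Nat.prime_two).1 (hr.dvd_of_dvd_pow h4))

theorem K2D.zp_c (D : K2D A b c a e Y g1 m1 n0 A0 b0 hh) {zp : ℕ} (hz2 : zp ∣ g1 + m1)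
    (hz3 : ¬ 2 ∣ zp) (hz4 : Nat.Coprime zp A0) :
    (zp : ℤ) ∣ c ∧ ¬ (2 : ℤ) ∣ zp ∧ IsCoprime (zp : ℤ) A := by
  have hz3' : ¬ (2 : ℤ) ∣ zp := fun h => hz3 (by exact_mod_cast h)
  have hco2 : IsCoprime (zp : ℤ) 2 := ((Int.prime_two.coprime_iff_not_dvd).2 hz3').symm
  refine ⟨?_, hz3', ?_⟩
  · have h1 : (zp : ℤ) ∣ 2 * c := by
      rw [D.hc]
      exact Dvd.dvd.mul_left (by exact_mod_cast hz2) _
    exact hco2.dvd_of_dvd_mul_left h1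
  · rw [D.hA]
    refine IsCoprime.mul_right ?_ (IsCoprime.mul_right ?_ (Nat.isCoprime_iff_coprime.2 hz4))
    · refine isCoprime_of_prime fun r hr h1 h2 => ?_
      have h1' : r ∣ g1 := by exact_mod_cast h1
      have h2' : r ∣ zp := by exact_mod_cast h2
      have h3 : r ∣ m1 := (Nat.dvd_add_right h1').1 (h2'.trans hz2)
      exact Nat.Prime.not_coprime_iff_dvd.2 ⟨r, hr, h1', h3⟩ D.co
    · refine isCoprime_of_prime fun r hr h1 h2 => ?_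
      have h1' : r ∣ hh := by exact_mod_cast h1
      have h2' : r ∣ zp := by exact_mod_cast h2
      have hr2 : r ≠ 2 := by rintro rfl; exact hz3 h2'
      exact D.hh_odd hr hr2 h1'

theorem K2D.cA_of_smooth (D : K2D A b c a e Y g1 m1 n0 A0 b0 hh)
    (hsm : ∀ r : ℕ, r.Prime → r ≠ 2 → r ∣ g1 + m1 → r ∣ A0) :
    ∀ r : ℕ, r.Prime → r ≠ 2 → (r : ℤ) ∣ c → (r : ℤ) ∣ A := by
  intro r hr hr2 hrc
  have hA0 : r ∣ A0 := by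
    have h1 : (r : ℤ) ∣ ((hh * A0 * (g1 + m1) : ℕ) : ℤ) := by
      push_cast; rw [← D.hc]; exact hrc.mul_left _
    have h2 : r ∣ hh * A0 * (g1 + m1) := by exact_mod_cast h1
    rcases (Nat.Prime.dvd_mul hr).1 h2 with h3 | h3
    · rcases (Nat.Prime.dvd_mul hr).1 h3 with h4 | h4
      · exact absurd h4 (D.hh_odd hr hr2)
      · exact h4
    · exact hsm r hr hr2 h3
  rw [D.hA]
  exact Dvd.dvd.mul_left (Dvd.dvd.mul_left (by exact_mod_cast hA0) _) _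

/-- `zp` or smooth -/
theorem K2D.zp_cases (D : K2D A b c a e Y g1 m1 n0 A0 b0 hh) :
    (∀ r : ℕ, r.Prime → r ≠ 2 → r ∣ g1 + m1 → r ∣ A0) ∨
    ∃ zp : ℕ, 1 < zp ∧ ¬ 2 ∣ zp ∧ zp ∣ g1 + m1 ∧ Nat.Coprime zp A0 ∧
      ∀ r : ℕ, r.Prime → r ≠ 2 → ¬ r ∣ A0 → ¬ r ∣ (g1 + m1) / zp := by
  obtain ⟨zp, k1, k2, k3, k4, k5⟩ := K2.exists_zp A0 (g1 + m1) (by have := D.g0; omega)
  rcases (show zp = 1 ∨ 1 < zp by omega) with h1 | h1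
  · left
    intro r hr hr2 hrz
    by_contra hA
    subst h1
    rw [Nat.div_one] at k5
    exact k5 r hr hr2 hA hrz
  · exact Or.inr ⟨zp, h1, k3, k2, k4, k5⟩

/-! ## END 1 and END 2 with the count -/

theorem K2D.glue1 (D : K2D A b c a e Y g1 m1 n0 A0 b0 hh) (hA0 : 0 < A) (hY : 3 ≤ Y)
    {R α β φ : ℤ} (ρ : ℕ → ℤ) (E2 : Finset (ℕ × ℤ)) (hE2 : ∀ i ∈ E2, 0 < i.1 ∧ i.1 ∣ 4) (x2 : ℤ)
    (hx2 : ∀ i ∈ E2, ¬ (i.1 : ℤ) ∣ x2 - i.2)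
    (hgood : ∀ x : ℤ, (∀ r ∈ K2.oddP g1 m1 n0, r ≠ 2 → ¬ (r : ℤ) ∣ x - ρ r) →
      KGood1 S l' p' A c a Y φ R α β (K2.gam g1 m1 n0) x)
    (H1 : ∀ x : ℤ, 4 * c < A * (2 * φ + (K2.gam g1 m1 n0 : ℤ) * x) →
      A * (2 * φ + (K2.gam g1 m1 n0 : ℤ) * x) ≤ 2 * (Y * c) →
      (∀ i ∈ E2, ¬ (i.1 : ℤ) ∣ x - i.2) → KGood1 S l' p' A c a Y φ R α β (K2.gam g1 m1 n0) x →
      ∀ zp : ℤ, zp ∣ c → ¬ (2 : ℤ) ∣ zp → IsCoprime zp A →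
        zp ∣ Y - 2 ∧ zp ∣ 2 * φ + (K2.gam g1 m1 n0 : ℤ) * x)
    {zp : ℕ} (hz1 : 1 < zp) (hz3 : ¬ 2 ∣ zp) (hz2 : zp ∣ g1 + m1) (hz4 : Nat.Coprime zp A0)
    (hz5 : ∀ r : ℕ, r.Prime → r ≠ 2 → ¬ r ∣ A0 → ¬ r ∣ (g1 + m1) / zp)
    (hnum : ∀ ez : ℕ, (ez = 0 ∨ (ez = 1 ∧ ∃ zp : ℕ, 1 < zp ∧ ¬ 2 ∣ zp ∧
      zp ∣ g1 + m1 ∧ zp ∣ g1 * n0 - 4 ∧ Nat.Coprime zp A0 ∧
      ∀ r : ℕ, r.Prime → r ≠ 2 → ¬ r ∣ A0 → ¬ r ∣ (g1 + m1) / zp)) →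
      2 ^ (K2.k n0 + K2.f3 m1 n0 + K2.fs g1 m1 n0 + ez + E2.card) * (g1 * K2.gam g1 m1 n0) ≤
        (g1 * n0 - 4) * (g1 + m1)) : False := by
  obtain ⟨q1, q2, q3⟩ := D.zp_c hz2 hz3 hz4
  have hP := K2.oddP_card' (g1 := g1) (m1 := m1) (D.n0pos5 hY)
  have h5 := D.Y5 hY
  by_cases hzY : (zp : ℤ) ∣ Y - 2
  · -- the class of `x` modulo `zp`
    have hcog : IsCoprime (zp : ℤ) (K2.gam g1 m1 n0 : ℤ) := by
      refine isCoprime_of_prime fun r hr g3 g4 => ?_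
      have hr2 : r ≠ 2 := by
        rintro rfl
        exact q2 (by exact_mod_cast g4)
      have h2r := odd_coprime_two hr hr2
      obtain ⟨-, α1, -, hα1, -, -⟩ := D.exists_ab hY
      have g5 : (r : ℤ) ∣ 2 * Y := by rw [hα1]; exact g3.mul_right _
      have g6 : (r : ℤ) ∣ Y := ((Nat.prime_iff_prime_int.1 hr).dvd_or_dvd g5).resolve_left h2r
      apply h2r
      have e1 : (2 : ℤ) = Y - (Y - 2) := by ring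
      rw [e1]; exact dvd_sub g6 (g4.trans hzY)
    obtain ⟨σ, hσ⟩ := K1.lin_class hcog (2 * φ) 0
    have hz6 : zp ∣ g1 * n0 - 4 := by
      have e1 : ((g1 * n0 - 4 : ℕ) : ℤ) = Y - 2 := by
        push_cast [Nat.cast_sub (show 4 ≤ g1 * n0 by omega)]
        linarith [D.hY]
      have : (zp : ℤ) ∣ ((g1 * n0 - 4 : ℕ) : ℤ) := by rw [e1]; exact hzY
      exact_mod_cast this
    have hn := hnum 1 (Or.inr ⟨rfl, zp, hz1, hz3, hz2, hz6, hz4, hz5⟩)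
    obtain ⟨x, w1, w2, w3, w4, w5⟩ := D.pick hA0 hY ρ φ E2 hE2 x2 hx2 {(zp, σ)}
      (Or.inr ⟨zp, σ, hz1, hz3, rfl⟩) ((Nat.mul_le_mul_right _ (Nat.pow_le_pow_right (by norm_num)
        (by rw [Finset.card_singleton]; omega))).trans hn)
    obtain ⟨-, k2⟩ := H1 x w1 w2 w5 (hgood x fun r hr _ => w3 r hr) zp q1 q2 q3
    refine w4 (zp, σ) (Finset.mem_singleton_self _) (hσ x ?_)
    rw [sub_zero]; exact k2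
  · have hn := hnum 0 (Or.inl rfl)
    obtain ⟨x, w1, w2, w3, w4, w5⟩ := D.pick hA0 hY ρ φ E2 hE2 x2 hx2 ∅
      (Or.inl rfl) ((Nat.mul_le_mul_right _ (Nat.pow_le_pow_right (by norm_num)
        (by rw [Finset.card_empty]; omega))).trans hn)
    exact hzY (H1 x w1 w2 w5 (hgood x fun r hr _ => w3 r hr) zp q1 q2 q3).1

theorem K2D.glue2 (D : K2D A b c a e Y g1 m1 n0 A0 b0 hh) (hA0 : 0 < A) (hY : 3 ≤ Y)
    {R α β φ : ℤ} (ρ : ℕ → ℤ) (ρ3 : ℤ) (E2 : Finset (ℕ × ℤ)) (hE2 : ∀ i ∈ E2, 0 < i.1 ∧ i.1 ∣ 4)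
    (x2 : ℤ) (hx2 : ∀ i ∈ E2, ¬ (i.1 : ℤ) ∣ x2 - i.2)
    (hgood : ∀ x : ℤ, (∀ r ∈ K2.oddP g1 m1 n0, r ≠ 2 → ¬ (r : ℤ) ∣ x - ρ r) →
      (9 ∣ m1 → ¬ 3 ∣ b0 → 3 ∣ b0 - A0 → ¬ (3 : ℤ) ∣ x - ρ3) →
      KGood2 S l' p' A c a Y φ R α β (K2.gam g1 m1 n0) x) {C : Prop}
    (H2 : ∀ x : ℤ, 4 * c < A * (2 * φ + (K2.gam g1 m1 n0 : ℤ) * x) →
      A * (2 * φ + (K2.gam g1 m1 n0 : ℤ) * x) ≤ 2 * (Y * c) →
      (∀ i ∈ E2, ¬ (i.1 : ℤ) ∣ x - i.2) → KGood2 S l' p' A c a Y φ R α β (K2.gam g1 m1 n0) x →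
      C)
    (hnum : 2 ^ (K2.k n0 + K2.f3 m1 n0 + K2.fs g1 m1 n0 + K2.f9 m1 A0 b0 + E2.card) *
      (g1 * K2.gam g1 m1 n0) ≤ (g1 * n0 - 4) * (g1 + m1)) : C := by
  have hP := K2.oddP_card' (g1 := g1) (m1 := m1) (D.n0pos5 hY)
  rcases (show K2.f9 m1 A0 b0 = 0 ∨ K2.f9 m1 A0 b0 = 1 by
    have := K2.f9_le (m1 := m1) (A0 := A0) (b0 := b0); omega) with h9 | h9
  · obtain ⟨x, w1, w2, w3, w4, w5⟩ := D.pick hA0 hY ρ φ E2 hE2 x2 hx2 ∅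
      (Or.inl rfl) ((Nat.mul_le_mul_right _ (Nat.pow_le_pow_right (by norm_num)
        (by rw [Finset.card_empty]; omega))).trans hnum)
    exact H2 x w1 w2 w5 (hgood x (fun r hr _ => w3 r hr) fun g1 g2 g3 =>
      absurd ⟨g1, g2, g3⟩ (K2.f9_zero h9))
  · obtain ⟨x, w1, w2, w3, w4, w5⟩ := D.pick hA0 hY ρ φ E2 hE2 x2 hx2 {(3, ρ3)}
      (Or.inr ⟨3, ρ3, by norm_num, by norm_num, rfl⟩)
      ((Nat.mul_le_mul_right _ (Nat.pow_le_pow_right (by norm_num)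
        (by rw [Finset.card_singleton]; omega))).trans hnum)
    refine H2 x w1 w2 w5 (hgood x (fun r hr _ => w3 r hr) fun _ _ _ => ?_)
    exact_mod_cast w4 (3, ρ3) (Finset.mem_singleton_self _)

/-! ## the types -/

/-- the class of parity -/
theorem K2.par_class {α β π : ℤ} : ∃ E2 : Finset (ℕ × ℤ), (∀ i ∈ E2, 0 < i.1 ∧ i.1 ∣ 4) ∧
    (∀ i ∈ E2, ¬ (i.1 : ℤ) ∣ π - i.2) ∧ E2.card ≤ 1 ∧ (¬ (2 : ℤ) ∣ α + β → E2.card = 0) ∧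
    ∀ x : ℤ, (∀ i ∈ E2, ¬ (i.1 : ℤ) ∣ x - i.2) → (2 : ℤ) ∣ α + β → (2 : ℤ) ∣ x - π := by
  by_cases h : (2 : ℤ) ∣ α + β
  · refine ⟨{(2, π + 1)}, ?_, ?_, by simp, fun h1 => absurd h h1, fun x hx _ => ?_⟩
    · intro i hi
      rw [Finset.mem_singleton] at hi
      subst hi
      exact ⟨by norm_num, by norm_num⟩
    · intro i hi
      rw [Finset.mem_singleton] at hi
      subst hi
      push_cast
      omega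
    · have := hx (2, π + 1) (Finset.mem_singleton_self _)
      push_cast at this
      omega
  · exact ⟨∅, by simp, by simp, by simp, fun _ => by simp, fun x _ h1 => absurd h1 h⟩

/-- type Q6 -/
theorem KF.goodQ6 (h : KF 2 S a' b c A a e f Y φ l p l' p') (hF : S.Full) {N : ℕ}
    (hN : N.Prime) (hv : a + A + a' = N) (he3 : e < 3 * A)
    (N1 : ∀ r : ℕ, r.Prime → r ≠ 2 → (r : ℤ) ∣ e → (r : ℤ) ∣ b → ¬ (r : ℤ) ∣ A → ¬ (r : ℤ) ∣ f)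
    (N3 : (3 : ℤ) ∣ e → ¬ (3 : ℤ) ∣ A → ¬ (3 : ℤ) ∣ b → ¬ (3 : ℤ) ∣ b - A → ¬ (3 : ℤ) ∣ f)
    (D : K2D A b c a e Y g1 m1 n0 A0 b0 hh) (hY : 3 ≤ Y) (hA2 : (2 : ℤ) ∣ A)
    (ha2 : (2 : ℤ) ∣ a) (hc2 : (2 : ℤ) ∣ c) (tg : ¬ 2 ∣ g1) (tm : 2 ∣ m1) (tn : ¬ 2 ∣ n0)
    (tA : ¬ 2 ∣ A0) : ∃ (T : PSt) (d : ℤ), SEq S T ∧ IsC T.L T.v d ∧ d ≤ 2 := by
  obtain ⟨hgpos, α, β, hα, hβ, hαβ⟩ := D.exists_ab hY
  have hR := D.A_R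
  obtain ⟨ρ, ρ3, hgood⟩ := h.k2good hN hv he3 N1 N3 D hR hα hβ hαβ
  have hfs : K2.fs g1 m1 n0 = 0 := by
    by_contra h1
    obtain ⟨k1, k2, -⟩ := K2.fs_one (g1 := g1) (m1 := m1) (n0 := n0) (by
      have := K2.fs_le (g1 := g1) (m1 := m1) (n0 := n0); omega)
    have := (Nat.prime_dvd_prime_iff_eq Nat.prime_two k1).1 tm
    have := D.g0
    omega
  rcases D.zp_cases with hsm | ⟨zp, hz1, hz3, hz2, hz4, hz5⟩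
  · have hcA := D.cA_of_smooth hsm
    refine D.glue2 h.A0 hY ρ ρ3 ∅ (by simp) 0 (by simp) (fun x k1 k2 => (hgood x k1).2 k2)
      (fun x w1 w2 _ hG => (h.endQ6 hN hF hv he3 hA2 ha2 hc2 hR w1 w2).2 hG hcA) ?_
    have k1 := K2.n1b (D.num hY) (K2.fl2 (n0 := n0) (b0 := b0) hsm (e4 := 0) (e8 := 0)
      (Or.inl rfl) (Or.inl rfl)) tg tm tn tA
    rw [hfs, Finset.card_empty]
    exact k1
  · exfalso
    refine D.glue1 h.A0 hY ρ ∅ (by simp) 0 (by simp) (fun x k1 => (hgood x k1).1)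
      (fun x w1 w2 _ hG zp q1 q2 q3 => (h.endQ6 hN hF hv he3 hA2 ha2 hc2 hR w1 w2).1 hG zp q1 q2 q3)
      hz1 hz3 hz2 hz4 hz5 (fun ez hez => ?_)
    have k1 := K2.n1b (D.num hY) (K2.fl1 (n0 := n0) (b0 := b0) (e8 := 0) hez (Or.inl rfl))
      tg tm tn tA
    rw [hfs, Finset.card_empty]
    exact k1

/-- type Q -/
theorem KF.goodQ (h : KF 2 S a' b c A a e f Y φ l p l' p') (hF : S.Full) {N : ℕ}
    (hN : N.Prime) (hv : a + A + a' = N) (he3 : e < 3 * A)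
    (N1 : ∀ r : ℕ, r.Prime → r ≠ 2 → (r : ℤ) ∣ e → (r : ℤ) ∣ b → ¬ (r : ℤ) ∣ A → ¬ (r : ℤ) ∣ f)
    (N3 : (3 : ℤ) ∣ e → ¬ (3 : ℤ) ∣ A → ¬ (3 : ℤ) ∣ b → ¬ (3 : ℤ) ∣ b - A → ¬ (3 : ℤ) ∣ f)
    (D : K2D A b c a e Y g1 m1 n0 A0 b0 hh) (hY : 3 ≤ Y) (hA2 : (2 : ℤ) ∣ A)
    (ha2 : (2 : ℤ) ∣ a) (hc2 : ¬ (2 : ℤ) ∣ c) (hL : ¬ ∀ w ∈ S.L, Dz 2 w)
    (tt : (¬ 2 ∣ g1 ∧ 2 ∣ m1 ∧ 4 ∣ n0 ∧ (2 ∣ b0 → 2 * b0 ∣ n0)) ∨
      (2 ∣ g1 ∧ ¬ 2 ∣ m1 ∧ ¬ 2 ∣ A0 ∧ 2 * b0 ∣ n0)) :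
    ∃ (T : PSt) (d : ℤ), SEq S T ∧ IsC T.L T.v d ∧ d ≤ 2 := by
  obtain ⟨hgpos, α, β, hα, hβ, hαβ⟩ := D.exists_ab hY
  have hR := D.A_R
  obtain ⟨ρ, ρ3, hgood⟩ := h.k2good hN hv he3 N1 N3 D hR hα hβ hαβ
  have hgne : (K2.gam g1 m1 n0 : ℤ) ≠ 0 := by exact_mod_cast hgpos.ne'
  obtain ⟨π, hπ⟩ := h.endQ hN hF hv he3 hA2 ha2 hc2 hL hR hα hβ hgne hαβ
  obtain ⟨E2, k1, k2, k3, k4, k5⟩ := K2.par_class (α := α) (β := β) (π := π)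
  -- the parity class is needed only if `8 ∣ n0`
  have h8 : ¬ 8 ∣ n0 → ¬ (2 : ℤ) ∣ α + β := by
    intro g8 g2
    obtain ⟨-, -, hcY⟩ := h.typeQ0 hN hv hA2 ha2
    obtain ⟨-, hY2, hY4⟩ : ¬ (2 : ℤ) ∣ c ∧ (2 : ℤ) ∣ Y ∧ ¬ (4 : ℤ) ∣ Y := by
      rcases hcY with h1 | h1
      · exact h1
      · exact absurd h1.1 hc2
    have hαo : ¬ (2 : ℤ) ∣ α := by
      intro h3
      obtain ⟨m, n, hmn⟩ := hαβ
      have h4 : (2 : ℤ) ∣ β := by omega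
      have : (2 : ℤ) ∣ 1 := by rw [← hmn]; exact dvd_add (h3.mul_left _) (h4.mul_left _)
      omega
    have hβo : ¬ (2 : ℤ) ∣ β := by omega
    have hgam4 : (2 : ℤ) ^ 2 ∣ (K2.gam g1 m1 n0 : ℤ) := by
      refine odd_cancel' hαo ?_
      rw [← hα]
      obtain ⟨y, hy⟩ := hY2
      exact ⟨y, by rw [hy]; ring⟩
    obtain ⟨γ, hγ⟩ := hgam4
    have hγo : ¬ (2 : ℤ) ∣ γ := by
      rintro ⟨w, hw⟩
      apply hY4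
      refine ⟨w * α, ?_⟩
      rw [hγ, hw] at hα
      linarith
    obtain ⟨w, hw⟩ : (2 : ℤ) ∣ γ * β + 1 := by
      have h1 : ¬ (2 : ℤ) ∣ γ * β := fun h2 => by
        rcases two_mul_of h2 with h3 | h3
        · exact hγo h3
        · exact hβo h3
      omega
    have hR8 : (2 : ℤ) ^ 3 ∣ (n0 : ℤ) * (g1 + m1) := by
      refine ⟨w, ?_⟩
      rw [hγ] at hβ
      linarith
    have hzo : ¬ (2 : ℤ) ∣ (g1 : ℤ) + m1 := by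
      intro h1
      have h2 : 2 ∣ g1 + m1 := by exact_mod_cast h1
      rcases tt with ⟨t1, t2, -⟩ | ⟨t1, t2, -⟩ <;> omega
    have := odd_cancel' hzo hR8
    apply g8
    norm_num at this
    exact_mod_cast this
  obtain ⟨e8, he8, he8c⟩ : ∃ e8 : ℕ, (e8 = 0 ∨ (e8 = 1 ∧ 8 ∣ n0)) ∧ E2.card ≤ e8 := by
    by_cases g8 : 8 ∣ n0
    · exact ⟨1, Or.inr ⟨rfl, g8⟩, k3⟩
    · exact ⟨0, Or.inl rfl, by rw [k4 (h8 g8)]⟩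
  rcases D.zp_cases with hsm | ⟨zp, hz1, hz3, hz2, hz4, hz5⟩
  · have hcA := D.cA_of_smooth hsm
    refine D.glue2 h.A0 hY ρ ρ3 E2 k1 π k2 (fun x k1 k2 => (hgood x k1).2 k2)
      (fun x w1 w2 w3 hG => (hπ x w1 w2 (k5 x w3)).2 hG hcA) ?_
    have q1 := K2.n1d (D.num hY) (K2.fl2 (n0 := n0) (b0 := b0) hsm (e4 := 0) (e8 := e8)
      (Or.inl rfl) he8) tt
    refine (Nat.mul_le_mul_right _ (Nat.pow_le_pow_right (by norm_num) ?_)).trans q1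
    omega
  · exfalso
    refine D.glue1 h.A0 hY ρ E2 k1 π k2 (fun x k1 => (hgood x k1).1)
      (fun x w1 w2 w3 hG zp q1 q2 q3 => (hπ x w1 w2 (k5 x w3)).1 hG zp q1 q2 q3)
      hz1 hz3 hz2 hz4 hz5 (fun ez hez => ?_)
    have q1 := K2.n1d (D.num hY) (K2.fl1 (n0 := n0) (b0 := b0) (e8 := e8) hez he8) tt
    refine (Nat.mul_le_mul_right _ (Nat.pow_le_pow_right (by norm_num) ?_)).trans q1
    omega

end Pool.Agent.H4G
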