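import Pool.Agent.H4G.Arith.K2Glue5

/-!
# LINE B, `K = 2`: the good types, second part (helper5)
-/

set_option autoImplicit false

namespace Pool.Agent.H4G

variable {S : PSt} {a' b c A a e f Y φ : ℤ} {l p l' p' : Z2} {g1 m1 n0 A0 b0 hh : ℕ}

/-- the exceptional family of the count in type I -/
theorem KF.left_exc (h : KF 2 S a' b c A a e f Y φ l p l' p') (hF : S.Full) {N : ℕ}
    (hN : N.Prime) (hv : a + A + a' = N) (hb3 : 3 ≤ b) (hAc : A < c) (hAb : A < b)
    (he3 : e < 3 * A) (D : K2D A b c a e Y g1 m1 n0 A0 b0 hh) (thh : ¬ 2 ∣ hh) (tm : ¬ 2 ∣ m1)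
    (hn0 : n0 = 10) (hb0 : b0 = 5) (hA0 : A0 = 2) (h9 : 9 ∣ m1)
    (hrel : 11 * (m1 - g1) + 2 = 5 * (g1 + m1)) (hj : ∃ j : ℕ, g1 + m1 = 2 ^ j) : False := by
  have hh1 : hh = 1 := by
    have h4 : hh ∣ 2 ^ 2 := D.h4
    obtain ⟨k, hk, hk2⟩ := (Nat.dvd_prime_pow Nat.prime_two).1 h4
    rcases Nat.eq_zero_or_pos k with h0 | h0
    · rw [hk2, h0, pow_zero]
    · exact absurd (by rw [hk2]; exact dvd_pow_self 2 h0.ne') thh
  subst hh1 hn0 hb0 hA0
  obtain ⟨j, hj⟩ := hj
  have hgm := D.gm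
  have hg0 := D.g0
  have hA := D.hA
  have he := D.he
  have hb := D.hb
  have ha := D.ha
  have hc := D.hc
  have hYY := D.hY
  have hy := h.hy
  push_cast at hA he hb ha hc hYY
  obtain ⟨m3, hm3⟩ : 3 ∣ m1 := Dvd.dvd.trans (by norm_num) h9
  have hrel' : 3 * m1 + 1 = 8 * g1 := by omega
  have hj0 : j ≠ 0 := by rintro rfl; rw [pow_zero] at hj; omega
  obtain ⟨j1, rfl⟩ : ∃ j1, j = j1 + 1 := ⟨j - 1, by omega⟩
  have hz : (g1 : ℤ) + m1 = 2 ^ (j1 + 1) := by exact_mod_cast hj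
  have hm3' : (m1 : ℤ) = 3 * m3 := by exact_mod_cast hm3
  have hm3o : ¬ (2 : ℤ) ∣ m3 := by
    intro h1
    have h2 : 2 ∣ m3 := by exact_mod_cast h1
    exact tm (by rw [hm3]; exact h2.mul_left 3)
  have hcz : c = 2 ^ (j1 + 1) := by rw [← hz]; linarith
  have ha' : a' = (5 * g1 - 1) * 2 ^ (j1 + 1) := by
    have hY2 : Y = 10 * g1 - 2 := by linarith
    rw [hY2, hcz] at hy
    linarith
  refine h.left_le hF hN hv hb3 hAc hAb (by linarith) (g := 6) (D1 := 2 ^ j1) (e1 := m3)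
    (by norm_num) ?_ ?_ ?_ {2, 3} ?_ ?_ ?_ (Or.inl ?_)
  · exact ((Int.prime_two.coprime_iff_not_dvd).2 hm3o).pow_left
  · rw [ha, hb, hA, he]
    have : (6 : ℤ) * 2 ^ j1 = 3 * 2 ^ (j1 + 1) := by ring
    rw [this, ← hz]; ring
  · rw [he, hm3']; ring
  · intro r hr
    rw [Finset.mem_insert, Finset.mem_singleton] at hr
    rcases hr with rfl | rfl
    · exact Nat.prime_two
    · exact Nat.prime_three
  · intro r hr _ h2 _ _ _
    have h3 : (r : ℤ) ∣ 2 ^ (j1 + 2) := by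
      have e1 : A + e = 2 ^ (j1 + 2) := by
        rw [hA, he]
        have : (2 : ℤ) ^ (j1 + 2) = 2 * 2 ^ (j1 + 1) := by ring
        rw [this, ← hz]; ring
      rw [← e1]; exact h2
    have h4 : r ∣ 2 ^ (j1 + 2) := by exact_mod_cast h3
    rw [(Nat.prime_dvd_prime_iff_eq hr Nat.prime_two).1 (hr.dvd_of_dvd_pow h4)]
    exact Finset.mem_insert_self _ _
  · intro r hr h1 _ _ _ _ h2
    rw [ha'] at h1
    rcases (Nat.prime_iff_prime_int.1 hr).dvd_or_dvd h1 with h3 | h3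
    · have h4 : (r : ℤ) ∣ 3 := by
        have e1 : (3 : ℤ) = 5 * (8 * g1 - 1) - 8 * (5 * g1 - 1) := by ring
        have e2 : (8 : ℤ) * g1 - 1 = 3 * (3 * m3) := by
          rw [← hm3']
          have : (3 : ℤ) * m1 + 1 = 8 * g1 := by exact_mod_cast hrel'
          linarith
        rw [e1, e2]
        exact dvd_sub (((h2.mul_left _).mul_left _).mul_left _) (h3.mul_left _)
      have h5 : r ∣ 3 := by exact_mod_cast h4
      rw [(Nat.prime_dvd_prime_iff_eq hr Nat.prime_three).1 h5]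
      simp
    · have h4 : r ∣ 2 ^ (j1 + 1) := by exact_mod_cast h3
      rw [(Nat.prime_dvd_prime_iff_eq hr Nat.prime_two).1 (hr.dvd_of_dvd_pow h4)]
      simp
  · have hcard : ({2, 3} : Finset ℕ).card = 2 := by decide
    rw [hcard, ha, hb, hA, he]
    have h1 : (3 : ℤ) * m1 + 1 = 8 * g1 := by exact_mod_cast hrel'
    have h2 : (9 : ℤ) ≤ m1 := by
      have : 9 ≤ m1 := Nat.le_of_dvd (by omega) h9
      exact_mod_cast this
    norm_num
    linarith

/-- type I -/
theorem KF.goodI (h : KF 2 S a' b c A a e f Y φ l p l' p') (hF : S.Full) {N : ℕ}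
    (hN : N.Prime) (hv : a + A + a' = N) (hb3 : 3 ≤ b) (hAc : A < c) (hAb : A < b)
    (he3 : e < 3 * A)
    (N1 : ∀ r : ℕ, r.Prime → r ≠ 2 → (r : ℤ) ∣ e → (r : ℤ) ∣ b → ¬ (r : ℤ) ∣ A → ¬ (r : ℤ) ∣ f)
    (N3 : (3 : ℤ) ∣ e → ¬ (3 : ℤ) ∣ A → ¬ (3 : ℤ) ∣ b → ¬ (3 : ℤ) ∣ b - A → ¬ (3 : ℤ) ∣ f)
    (D : K2D A b c a e Y g1 m1 n0 A0 b0 hh) (hY : 3 ≤ Y) (ha2 : ¬ (2 : ℤ) ∣ a)
    (tm : ¬ 2 ∣ m1) (thh : ¬ 2 ∣ hh)
    (hn1a : ∀ e3 es e9 ez e4 e8 : ℕ, K2.Fl g1 m1 n0 A0 b0 e3 es e9 ez e4 e8 →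
      2 ^ (K2.k n0 + e3 + es + e9 + 1) * (g1 * K2.gam g1 m1 n0) ≤ (g1 * n0 - 4) * (g1 + m1) ∨
      (n0 = 10 ∧ b0 = 5 ∧ A0 = 2 ∧ e9 = 1 ∧ 11 * (m1 - g1) + 2 = 5 * (g1 + m1) ∧
        ∃ j : ℕ, g1 + m1 = 2 ^ j)) :
    ∃ (T : PSt) (d : ℤ), SEq S T ∧ IsC T.L T.v d ∧ d ≤ 2 := by
  obtain ⟨hgpos, α, β, hα, hβ, hαβ⟩ := D.exists_ab hY
  have hR := D.A_R
  obtain ⟨ρ, ρ3, hgood⟩ := h.k2good hN hv he3 N1 N3 D hR hα hβ hαβ
  have hgne : (K2.gam g1 m1 n0 : ℤ) ≠ 0 := by exact_mod_cast hgpos.ne'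
  rcases D.zp_cases with hsm | ⟨zp, hz1, hz3, hz2, hz4, hz5⟩
  · have hcA := D.cA_of_smooth hsm
    obtain ⟨π, hπ⟩ := h.endI2 hN hF hv he3 ha2 hR hα hβ hgne hαβ hcA
    obtain ⟨E2, k1, k2, k3, -, k5⟩ := K2.par_class (α := α) (β := β) (π := π)
    rcases hn1a _ _ _ _ _ _ (K2.fl2 (n0 := n0) (b0 := b0) hsm (e4 := 0) (e8 := 0)
      (Or.inl rfl) (Or.inl rfl)) with q1 | ⟨q1, q2, q3, q4, q5, q6⟩
    · refine D.glue2 h.A0 hY ρ ρ3 E2 k1 π k2 (fun x k1 k2 => (hgood x k1).2 k2)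
        (fun x w1 w2 w3 hG => hπ x w1 w2 (k5 x w3) hG) ?_
      refine (Nat.mul_le_mul_right _ (Nat.pow_le_pow_right (by norm_num) ?_)).trans q1
      omega
    · exact absurd (h.left_exc hF hN hv hb3 hAc hAb he3 D thh tm q1 q2 q3
        (K2.f9_one q4).1 q5 q6) not_false
  · exfalso
    refine D.glue1 h.A0 hY ρ ∅ (by simp) 0 (by simp) (fun x k1 => (hgood x k1).1)
      (fun x w1 w2 _ hG zp q1 q2 q3 => h.endI1 hN hv he3 ha2 hR w1 w2 hG q1 q2 q3)
      hz1 hz3 hz2 hz4 hz5 (fun ez hez => ?_)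
    have F := K2.fl1 (n0 := n0) (b0 := b0) (e8 := 0) hez (Or.inl rfl)
    rcases hn1a _ _ _ _ _ _ F with q1 | ⟨q1, q2, q3, q4, q5, q6⟩
    · refine (Nat.mul_le_mul_right _ (Nat.pow_le_pow_right (by norm_num) ?_)).trans q1
      have := F.hz
      rw [Finset.card_empty]
      omega
    · omega

/-- type P1 -/
theorem KF.goodP1 (h : KF 2 S a' b c A a e f Y φ l p l' p') (hF : S.Full) {N : ℕ}
    (hN : N.Prime) (hv : a + A + a' = N) (he3 : e < 3 * A)
    (N1 : ∀ r : ℕ, r.Prime → r ≠ 2 → (r : ℤ) ∣ e → (r : ℤ) ∣ b → ¬ (r : ℤ) ∣ A → ¬ (r : ℤ) ∣ f)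
    (N3 : (3 : ℤ) ∣ e → ¬ (3 : ℤ) ∣ A → ¬ (3 : ℤ) ∣ b → ¬ (3 : ℤ) ∣ b - A → ¬ (3 : ℤ) ∣ f)
    (D : K2D A b c a e Y g1 m1 n0 A0 b0 hh) (hY : 3 ≤ Y) (hA2 : ¬ (2 : ℤ) ∣ A)
    (ha2 : (2 : ℤ) ∣ a) (hY4 : ¬ (4 : ℤ) ∣ Y) (tg : ¬ 2 ∣ g1) (tm : ¬ 2 ∣ m1)
    (tz : 4 ∣ g1 + m1) (tA : ¬ 2 ∣ A0) (thh : hh = 1) (tb : 2 ∣ b0) (tn : 2 * b0 ∣ n0) :
    ∃ (T : PSt) (d : ℤ), SEq S T ∧ IsC T.L T.v d ∧ d ≤ 2 := by
  obtain ⟨hgpos, α, β, hα, hβ, hαβ⟩ := D.exists_ab hY
  have hR := D.A_R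
  have h5 := D.Y5 hY
  obtain ⟨ρ, ρ3, hgood⟩ := h.k2good hN hv he3 N1 N3 D hR hα hβ hαβ
  obtain ⟨π, π4, hπ⟩ := h.p1_class hN hv hA2 ha2 hY4 hR hα hβ hαβ
  -- the exceptional tuple is `N = 33`
  by_cases hex : g1 = 3 ∧ m1 = 5 ∧ n0 = 4
  · exfalso
    obtain ⟨rfl, rfl, rfl⟩ := hex
    have hb0 : b0 = 2 := by
      have h1 : 2 * b0 ≤ 4 := Nat.le_of_dvd (by norm_num) tn
      have := D.Ab0
      omega
    have hA0 : A0 = 1 := by
      have := D.Ab0
      have := D.A00
      omega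
    subst hb0 hA0 thh
    have q1 := D.hA
    have q2 := D.ha
    have q3 := D.hc
    have q4 := D.hY
    have q5 := h.hy
    push_cast at q1 q2 q3 q4
    have q6 : Y = 10 := by linarith
    have q7 : c = 4 := by linarith
    rw [q6, q7] at q5
    have q8 : (N : ℤ) = 33 := by rw [← hv, q1, q2]; linarith
    have q9 : N = 33 := by exact_mod_cast q8
    rw [q9] at hN
    norm_num at hN
  -- `E2`
  have hpar : ∀ x : ℤ, ¬ ((2 : ℕ) : ℤ) ∣ x - (π + 1) → (2 : ℤ) ∣ x - π := by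
    intro x hx
    push_cast at hx
    omega
  have hY8 : (8 : ℤ) ∣ Y - 2 ↔ 8 ∣ g1 * n0 - 4 := by
    have e1 : ((g1 * n0 - 4 : ℕ) : ℤ) = Y - 2 := by
      push_cast [Nat.cast_sub (show 4 ≤ g1 * n0 by omega)]
      linarith [D.hY]
    rw [← e1]
    constructor
    · intro h1; exact_mod_cast h1
    · intro h1; exact_mod_cast h1
  rcases D.zp_cases with hsm | ⟨zp, hz1, hz3, hz2, hz4, hz5⟩
  · have hcA := D.cA_of_smooth hsm
    -- END 2 from the classes
    have fin : ∀ x : ℤ, 4 * c < A * (2 * φ + (K2.gam g1 m1 n0 : ℤ) * x) →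
        A * (2 * φ + (K2.gam g1 m1 n0 : ℤ) * x) ≤ 2 * (Y * c) → (2 : ℤ) ∣ x - π →
        ((8 : ℤ) ∣ Y - 2 → ¬ (4 : ℤ) ∣ x - π4) →
        KGood2 S l' p' A c a Y φ ((n0 : ℤ) * (g1 + m1)) α β (K2.gam g1 m1 n0) x →
        ∃ (T : PSt) (d : ℤ), SEq S T ∧ IsC T.L T.v d ∧ d ≤ 2 := by
      intro x w1 w2 w3 w4 hG
      obtain ⟨g8, g16⟩ := hπ x w3
      exact h.endP2 hN hF hv he3 hA2 ha2 hY4 hR hcA w1 w2 g8 (fun k1 _ => g16 (w4 k1)) hG
    by_cases h8 : (8 : ℤ) ∣ Y - 2
    · rcases K2.n1c (D.num hY) (K2.fl2 (n0 := n0) (b0 := b0) hsm (e4 := 1) (e8 := 0)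
        (Or.inr ⟨rfl, hY8.1 h8⟩) (Or.inl rfl)) tg tm tz tA tb tn hex with q1 | q1
      · have hne : ((2 : ℕ), π + 1) ≠ (4, π4) := by
          intro h1
          have := congrArg Prod.fst h1
          norm_num at this
        refine D.glue2 h.A0 hY ρ ρ3 {(2, π + 1), (4, π4)} ?_
          (if (4 : ℤ) ∣ π - π4 then π + 2 else π) ?_ (fun x k1 k2 => (hgood x k1).2 k2)
          (fun x w1 w2 w3 hG => fin x w1 w2
            (hpar x (w3 (2, π + 1) (Finset.mem_insert_self _ _)))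
            (fun _ => by
              have := w3 (4, π4) (Finset.mem_insert_of_mem (Finset.mem_singleton_self _))
              exact_mod_cast this) hG) ?_
        · intro i hi
          rw [Finset.mem_insert, Finset.mem_singleton] at hi
          rcases hi with rfl | rfl
          · exact ⟨by norm_num, by norm_num⟩
          · exact ⟨by norm_num, by norm_num⟩
        · intro i hi
          rw [Finset.mem_insert, Finset.mem_singleton] at hi
          rcases hi with rfl | rfl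
          · split_ifs <;> (push_cast; omega)
          · split_ifs with h4
            · push_cast; omega
            · push_cast; exact h4
        · rw [Finset.card_pair hne]
          refine (Nat.mul_le_mul_right _ (Nat.pow_le_pow_right (by norm_num) ?_)).trans q1
          omega
      · obtain ⟨t1, t2, t3, t4, -, -, t7⟩ := q1
        -- the prime 5 or 7
        obtain ⟨p5, hp5, hp12⟩ : ∃ p5 : ℕ, (∀ r ∈ n0.primeFactors.erase 2, r = p5) ∧
            ¬ ((p5 : ℕ) : ℤ) ∣ 12 := by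
          rcases t1 with t1 | t1
          · refine ⟨5, fun r hr => ?_, by norm_num⟩
            rw [t1, Finset.mem_erase, Nat.mem_primeFactors] at hr
            obtain ⟨h1, h2, h3, -⟩ := hr
            have h4 : r ∣ 2 ^ 2 * 5 := by norm_num; exact h3
            rcases (Nat.Prime.dvd_mul h2).1 h4 with h5 | h5
            · exact absurd ((Nat.prime_dvd_prime_iff_eq h2 Nat.prime_two).1
                (h2.dvd_of_dvd_pow h5)) h1
            · exact (Nat.prime_dvd_prime_iff_eq h2 (by norm_num)).1 h5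
          · refine ⟨7, fun r hr => ?_, by norm_num⟩
            rw [t1, Finset.mem_erase, Nat.mem_primeFactors] at hr
            obtain ⟨h1, h2, h3, -⟩ := hr
            have h4 : r ∣ 2 ^ 2 * 7 := by norm_num; exact h3
            rcases (Nat.Prime.dvd_mul h2).1 h4 with h5 | h5
            · exact absurd ((Nat.prime_dvd_prime_iff_eq h2 Nat.prime_two).1
                (h2.dvd_of_dvd_pow h5)) h1
            · exact (Nat.prime_dvd_prime_iff_eq h2 (by norm_num)).1 h5
        have hfs : ¬ (m1.Prime ∧ m1 = g1 + 2 ∧ m1 ∣ g1 * n0 - 2) := by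
          intro h1
          unfold K2.fs at t3
          rw [if_pos h1] at t3
          omega
        have hwin : (24 : ℤ) * (A * (K2.gam g1 m1 n0 : ℤ)) ≤ 2 * (Y * c) - 4 * c := by
          have := D.winY5 hY t7
          exact_mod_cast this
        obtain ⟨x, ⟨w1, w2⟩, w3, w4, w5, w6, w7⟩ := window_24' (a := ρ 3) (b := ρ3)
          (c := π + 1) (d := π4) (p := (p5 : ℤ)) (q := ρ p5) (w := 2 * φ) hp12 h.A0
          (by exact_mod_cast hgpos) hwin
        refine fin x w1 w2 (by omega) (fun _ => w6) ((hgood x fun r hr hr2 => ?_).2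
          fun _ _ _ => w4)
        unfold K2.oddP at hr
        rw [if_neg hfs, Finset.mem_union, Finset.mem_union] at hr
        rcases hr with hr | hr | hr
        · rw [hp5 r hr]; exact w7
        · split_ifs at hr with h3
          · rw [Finset.mem_singleton.1 hr]; exact_mod_cast w3
          · simp at hr
        · simp at hr
    · rcases K2.n1c (D.num hY) (K2.fl2 (n0 := n0) (b0 := b0) hsm (e4 := 0) (e8 := 0)
        (Or.inl rfl) (Or.inl rfl)) tg tm tz tA tb tn hex with q1 | q1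
      · refine D.glue2 h.A0 hY ρ ρ3 {(2, π + 1)} ?_ π ?_ (fun x k1 k2 => (hgood x k1).2 k2)
          (fun x w1 w2 w3 hG => fin x w1 w2 (hpar x (w3 (2, π + 1) (Finset.mem_singleton_self _)))
            (fun k1 => absurd k1 h8) hG) ?_
        · intro i hi
          rw [Finset.mem_singleton] at hi
          subst hi
          exact ⟨by norm_num, by norm_num⟩
        · intro i hi
          rw [Finset.mem_singleton] at hi
          subst hi
          push_cast
          omega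
        · rw [Finset.card_singleton]
          refine (Nat.mul_le_mul_right _ (Nat.pow_le_pow_right (by norm_num) ?_)).trans q1
          omega
      · omega
  · exfalso
    refine D.glue1 h.A0 hY ρ {(2, π + 1)} ?_ π ?_ (fun x k1 => (hgood x k1).1)
      (fun x w1 w2 w3 hG zp q1 q2 q3 => h.endP1 hN hv he3 hA2 ha2 hY4 hR w1 w2
        (hπ x (hpar x (w3 (2, π + 1) (Finset.mem_singleton_self _)))).1 hG q1 q2 q3)
      hz1 hz3 hz2 hz4 hz5 (fun ez hez => ?_)
    · intro i hi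
      rw [Finset.mem_singleton] at hi
      subst hi
      exact ⟨by norm_num, by norm_num⟩
    · intro i hi
      rw [Finset.mem_singleton] at hi
      subst hi
      push_cast
      omega
    · have F := K2.fl1 (n0 := n0) (b0 := b0) (e8 := 0) hez (Or.inl rfl)
      rcases K2.n1c (D.num hY) F tg tm tz tA tb tn hex with q1 | q1
      · rw [Finset.card_singleton]
        refine (Nat.mul_le_mul_right _ (Nat.pow_le_pow_right (by norm_num) ?_)).trans q1
        omega
      · omega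

/-- `Y ≤ 2` -/
theorem KF.small2 (h : KF 2 S a' b c A a e f Y φ l p l' p') (hF : S.Full) {N : ℕ}
    (hN : N.Prime) (hv : a + A + a' = N) (hAc : A < c)
    (D : K2D A b c a e Y g1 m1 n0 A0 b0 hh) (hT : K2Type A c a e Y g1 m1 n0 A0 b0 hh)
    (hY : Y ≤ 2) : False := by
  have hY0 := h.Y0
  have h1 : g1 * n0 = 3 ∨ g1 * n0 = 4 := by
    have h2 := D.hY
    rcases (show Y = 1 ∨ Y = 2 by omega) with h3 | h3
    · left
      have : ((g1 * n0 : ℕ) : ℤ) = 3 := by push_cast; rw [← h2, h3]; norm_num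
      exact_mod_cast this
    · right
      have : ((g1 * n0 : ℕ) : ℤ) = 4 := by push_cast; rw [← h2, h3]; norm_num
      exact_mod_cast this
  have hg0 := D.g0
  have hgm := D.gm
  have hm3 := D.m3
  have hA0 := D.A00
  have hAb := D.Ab0
  have hn0 : 0 < n0 := by
    rcases Nat.eq_zero_or_pos n0 with h2 | h2
    · rw [h2, mul_zero] at h1; omega
    · exact h2
  have hbn := Nat.le_of_dvd hn0 D.bn
  have hgle : g1 ≤ 4 := by
    have : g1 * 1 ≤ g1 * n0 := Nat.mul_le_mul_left _ hn0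
    omega
  have hnle : n0 ≤ 4 := by
    have : 1 * n0 ≤ g1 * n0 := Nat.mul_le_mul_right _ hg0
    omega
  have hh4 : hh ≤ 4 := Nat.le_of_dvd (by norm_num) D.h4
  have hh0 := D.h0
  obtain ⟨q1, q2, q3, q4, q5, q6⟩ : A = g1 * (hh * A0) ∧ e = m1 * (hh * A0) ∧
    b = g1 * (hh * b0) ∧ a = m1 * (hh * b0) ∧ 2 * c = hh * A0 * (g1 + m1) ∧ Y + 2 = g1 * n0 :=
    ⟨D.hA, D.he, D.hb, D.ha, D.hc, D.hY⟩
  have q7 := h.hy
  have hbnd := D.bn
  have hcase : (g1 = 1 ∧ n0 = 3 ∧ m1 = 2 ∧ b0 = 3) ∨ (g1 = 1 ∧ n0 = 4 ∧ m1 = 2) ∨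
      (g1 = 2 ∧ n0 = 2) := by
    rcases h1 with h1 | h1
    · interval_cases g1
      · left
        have : n0 = 3 := by omega
        subst this
        have : b0 ≤ 3 := hbn
        interval_cases b0
        · omega
        · omega
        · exact absurd hbnd (by norm_num)
        · exact ⟨rfl, rfl, by omega, rfl⟩
      · omega
      · have : n0 = 1 := by omega
        omega
      · omega
    · interval_cases g1
      · right; left
        exact ⟨rfl, by omega, by omega⟩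
      · right; right
        exact ⟨rfl, by omega⟩
      · omega
      · have : n0 = 1 := by omega
        omega
  rcases hcase with ⟨rfl, rfl, rfl, rfl⟩ | ⟨rfl, rfl, rfl⟩ | ⟨rfl, rfl⟩
  · rcases hT with t | t | t | t | t
    · exact t.2.2.1 (by norm_num)
    · exact t.2.2.2.2.1 (by norm_num)
    · exact t.2.2.2.2.1 (by norm_num)
    · rcases t.2.2.2 with t | t
      · exact absurd t.2.2.1 (by norm_num)
      · exact absurd t.1 (by norm_num)
    · obtain ⟨t1, t2, t3, -, -, -, t4, -, rfl⟩ := t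
      have hA1 : A0 = 1 := by omega
      subst hA1
      push_cast at q1 q2 q3 q4 q5 q6
      have hY1 : Y = 1 := by linarith
      have hc6 : c = 6 := by linarith
      rw [hY1, hc6] at q7
      exact h.left31 hF hN hv hAc (by linarith) (by linarith) (by linarith) (by linarith)
        (by linarith) (h.typeQ6 hN hv t1 t2 t3).2.2.2.2.2.2.1
  · rcases hT with t | t | t | t | t
    · exact t.2.2.1 (by norm_num)
    · exact t.2.2.2.2.1 (by norm_num)
    · exact t.2.2.2.2.1 (by norm_num)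
    · obtain ⟨t1, t2, t3, t4 | t4⟩ := t
      · obtain ⟨-, -, -, t5, t6, -⟩ := t4
        have hb0 : b0 = 2 := by
          have hb4 : b0 ≤ 4 := hbn
          interval_cases b0
          · omega
          · omega
          · rfl
          · exact absurd hbnd (by norm_num)
          · have := Nat.le_of_dvd (by norm_num) (t5 (by norm_num))
            omega
        subst hb0
        have hA1 : A0 = 1 := by omega
        subst hA1
        have hhc : hh = 2 := by
          push_cast at q1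
          interval_cases hh
          · rw [q1] at t1; exact absurd t1 (by norm_num)
          · rfl
          · have := D.h4; exact absurd this (by norm_num)
          · rw [q1] at t6; exact absurd (by norm_num) t6
        subst hhc
        push_cast at q1 q2 q3 q4 q5 q6
        have hY1 : Y = 2 := by linarith
        have hc6 : c = 3 := by linarith
        rw [hY1, hc6] at q7
        exact h.left13 hF hN hv hAc (by linarith) (by linarith) (by linarith) (by linarith)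
          (by linarith)
      · exact absurd t4.1 (by norm_num)
    · exact t.2.2.2.2.2.1 (by norm_num)
  · rcases hT with t | t | t | t | t
    · exact t.2.1 (by norm_num)
    · exact t.2.2.2.1 (by norm_num)
    · exact t.2.2.2.1 (by norm_num)
    · rcases t.2.2.2 with t | t
      · exact t.1 (by norm_num)
      · have := Nat.le_of_dvd (by norm_num) t.2.2.2.2.1
        omega
    · exact t.2.2.2.1 (by norm_num)

end Pool.Agent.H4G
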