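import Pool.Agent.H4G.Arith.LP23
import Pool.Agent.H4G.Arith.K2Data

/-!
# The left criterion in reduced numbers (helper23)
-/

set_option autoImplicit false

namespace Pool.Agent.H4G

/-- the reduced numbers of the left criterion -/
structure LNum (g m A0 b0 G1 G2 z1 d1 A1 m1 : ℕ) : Prop where
  hG1 : G1 = Nat.gcd A0 (g + m)
  hG2 : G2 = Nat.gcd m (b0 - A0)
  G10 : 0 < G1
  G20 : 0 < G2
  hA : A0 = A1 * G1
  hz : g + m = z1 * G1
  hm : m = m1 * G2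
  hd : b0 = A0 + d1 * G2
  co : Nat.Coprime (z1 * d1) (A1 * m1)

theorem exists_LNum {g m A0 b0 : ℕ} (hg : 0 < g) (hco : Nat.Coprime g m)
    (cAb : Nat.Coprime A0 b0) (hAb : A0 < b0) :
    ∃ G1 G2 z1 d1 A1 m1 : ℕ, LNum g m A0 b0 G1 G2 z1 d1 A1 m1 := by
  have hz0 : 0 < g + m := by omega
  have hd0 : 0 < b0 - A0 := by omega
  obtain ⟨A1, z1, k1, k2, k3⟩ := Nat.exists_coprime A0 (g + m)
  obtain ⟨m1, d1, k4, k5, k6⟩ := Nat.exists_coprime m (b0 - A0)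
  have cz : Nat.Coprime (g + m) m := by simpa using hco
  have cd : Nat.Coprime (b0 - A0) A0 := by
    have : Nat.Coprime b0 A0 := cAb.symm
    exact (Nat.coprime_sub_self_left hAb.le).2 this
  refine ⟨Nat.gcd A0 (g + m), Nat.gcd m (b0 - A0), z1, d1, A1, m1, rfl, rfl,
    Nat.gcd_pos_of_pos_right _ hz0, Nat.gcd_pos_of_pos_right _ hd0, k2, k3, k5, by omega, ?_⟩
  have h1 : Nat.Coprime z1 m1 := by
    refine Nat.Coprime.coprime_dvd_left ?_ (Nat.Coprime.coprime_dvd_right ?_ cz)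
    · exact ⟨_, k3⟩
    · exact ⟨_, k5⟩
  have h2 : Nat.Coprime d1 A1 := by
    refine Nat.Coprime.coprime_dvd_left ?_ (Nat.Coprime.coprime_dvd_right ?_ cd)
    · exact ⟨_, k6⟩
    · exact ⟨_, k2⟩
  exact Nat.Coprime.mul_left (Nat.Coprime.mul_right k1.symm h1)
    (Nat.Coprime.mul_right h2 k4.symm)

variable {K : ℤ} {S : PSt} {a' b c A a e f Y φ : ℤ} {l p l' p' : Z2}
  {g m A0 b0 hh G1 G2 z1 d1 A1 m1 : ℕ}

/-- **the left criterion in numbers** -/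
theorem KF.left_num (h : KF K S a' b c A a e f Y φ l p l' p') (hF : S.Full) {N : ℕ}
    (hN : N.Prime) (hv : a + A + a' = N) (hb3 : 3 ≤ b) (hAc : A < c) (hAb : A < b)
    (he4 : e < 4 * A) (hA : A = g * (hh * A0)) (he : e = m * (hh * A0))
    (hb : b = g * (hh * b0)) (ha : a = m * (hh * b0)) (hgm : g < m)
    (L : LNum g m A0 b0 G1 G2 z1 d1 A1 m1) (T : Finset ℕ) (hTp : ∀ r ∈ T, r.Prime)
    (hW : ∀ r : ℕ, r.Prime → (r : ℤ) ∣ a' → ¬ (r : ℤ) ∣ A → r ∣ g + m → r ∣ z1 → r ∈ T)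
    (hK : ∀ r : ℕ, r.Prime → (r : ℤ) ∣ a' → (r : ℤ) ∣ A + e → (r : ℤ) ∣ A → (r : ℤ) ∣ K →
      ((r : ℤ) ∣ c ∨ ∃ n : ℕ, (r : ℤ) ^ n ∣ a + b ∧ ¬ (r : ℤ) ^ n ∣ b) → r ∣ z1 * d1 → r ∈ T)
    (hT : ∀ r : ℕ, r.Prime → (r : ℤ) ∣ a' → ¬ (r : ℤ) ∣ A → r ∣ m1 → (r = 2 → (4 : ℤ) ∣ e) →
      (r ≠ 2 → ¬ (r : ℤ) ∣ φ ∨ (r : ℤ) ∣ A + b) → r ∈ T)
    (hM : G1 * G2 * 2 ^ T.card < (m - g) * (A0 + b0)) : False := by
  have hh0 : 0 < hh := by
    rcases Nat.eq_zero_or_pos hh with h9 | h9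
    · exfalso
      have h1 := h.A0
      rw [hA, h9] at h1
      simp at h1
    · exact h9
  have e1 : (A0 : ℤ) = A1 * G1 := by exact_mod_cast L.hA
  have e2 : (g : ℤ) + m = z1 * G1 := by exact_mod_cast L.hz
  have e3 : (m : ℤ) = m1 * G2 := by exact_mod_cast L.hm
  have e4 : (b0 : ℤ) = A0 + d1 * G2 := by exact_mod_cast L.hd
  have hG1 := L.G10
  have hG2 := L.G20
  have hAe : A + e = (hh * A0 : ℕ) * ((g + m : ℕ) : ℤ) := by rw [hA, he]; push_cast; ring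
  refine h.left_le hF hN hv hb3 hAc hAb he4 (g := hh * (G1 * G2)) (D1 := z1 * d1)
    (e1 := A1 * m1) (by positivity) (by exact_mod_cast Nat.isCoprime_iff_coprime.2 L.co) ?_ ?_
    T hTp (fun r hr h1 h2 h3 h4 h5 => ?_) (fun r hr h1 h2 h3 h4 h5 h6 => ?_) (Or.inl ?_)
  · rw [ha, hb, hA, he]
    linear_combination ((hh : ℤ) * (g + m)) * e4 + ((hh : ℤ) * (d1 * G2)) * e2
  · rw [he]
    linear_combination ((hh : ℤ) * A0) * e3 + ((hh : ℤ) * (m1 * G2)) * e1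
  · by_cases h6 : (r : ℤ) ∣ A
    · have h7 : (r : ℤ) ∣ K := by
        rcases h3 with h3 | h3
        · exact absurd h6 h3
        · exact h3
      exact hK r hr h1 h2 h6 h7 h4 (by exact_mod_cast h5)
    · have h7 : ¬ r ∣ hh * A0 := by
        intro h8
        apply h6
        rw [hA]
        have h9 : (r : ℤ) ∣ (hh : ℤ) * A0 := by exact_mod_cast h8
        exact h9.mul_left _
      have h8 : r ∣ g + m := by
        rw [hAe] at h2
        have h9 : r ∣ hh * A0 * (g + m) := by exact_mod_cast h2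
        exact (hr.dvd_mul.1 h9).resolve_left h7
      refine hW r hr h1 h6 h8 ?_
      have h9 : r ∣ z1 * G1 := by rw [← L.hz]; exact h8
      refine (hr.dvd_mul.1 h9).resolve_right fun h10 => h7 ?_
      rw [L.hA]
      exact (h10.mul_left _).mul_left _
  · refine hT r hr h1 h3 ?_ h4 h5
    have h7 : r ∣ A1 * m1 := by exact_mod_cast h6
    refine (hr.dvd_mul.1 h7).resolve_left fun h8 => h3 ?_
    rw [hA]
    have h9 : (r : ℤ) ∣ (A0 : ℤ) := by
      rw [e1]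
      have : (r : ℤ) ∣ (A1 : ℤ) := by exact_mod_cast h8
      exact this.mul_right _
    exact (h9.mul_left _).mul_left _
  · have h1 : ((G1 * G2 * 2 ^ T.card : ℕ) : ℤ) < (((m - g) * (A0 + b0) : ℕ) : ℤ) := by
      exact_mod_cast hM
    push_cast [Nat.cast_sub hgm.le] at h1
    have h2 : (0 : ℤ) < hh := by exact_mod_cast hh0
    have h3 := mul_lt_mul_of_pos_left h1 h2
    rw [ha, hb, hA, he]
    linarith

/-- **the left criterion in numbers**, `K = 3`, `A` odd, `e` even: only odd primes -/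
theorem KF.left_num0 (h : KF 3 S a' b c A a e f Y φ l p l' p') (hF : S.Full) {N : ℕ}
    (hN : N.Prime) (hv : a + A + a' = N) (hb3 : 3 ≤ b) (hAc : A < c) (hAb : A < b)
    (he3 : e < 3 * A) (hA2 : ¬ (2 : ℤ) ∣ A) (he2 : (2 : ℤ) ∣ e) (hA : A = g * (hh * A0))
    (he : e = m * (hh * A0)) (hb : b = g * (hh * b0)) (ha : a = m * (hh * b0)) (hgm : g < m)
    (L : LNum g m A0 b0 G1 G2 z1 d1 A1 m1) (T : Finset ℕ) (hTp : ∀ r ∈ T, r.Prime)
    (hW : ∀ r : ℕ, r.Prime → r ≠ 2 → (r : ℤ) ∣ a' → ¬ (r : ℤ) ∣ A → r ∣ g + m → r ∣ z1 → r ∈ T)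
    (hK : (3 : ℤ) ∣ a' → (3 : ℤ) ∣ A → (3 : ℤ) ∣ e →
      ((3 : ℤ) ∣ c ∨ ∃ n : ℕ, (3 : ℤ) ^ n ∣ a + b ∧ ¬ (3 : ℤ) ^ n ∣ b) → 3 ∣ z1 * d1 → 3 ∈ T)
    (hT : ∀ r : ℕ, r.Prime → r ≠ 2 → (r : ℤ) ∣ a' → ¬ (r : ℤ) ∣ A → r ∣ m1 → r ∈ T)
    (hM : G1 * G2 * 2 ^ T.card < (m - g) * (A0 + b0)) : False := by
  have hh0 : 0 < hh := by
    rcases Nat.eq_zero_or_pos hh with h9 | h9
    · exfalso
      have h1 := h.A0
      rw [hA, h9] at h1
      simp at h1
    · exact h9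
  have e1 : (A0 : ℤ) = A1 * G1 := by exact_mod_cast L.hA
  have e2 : (g : ℤ) + m = z1 * G1 := by exact_mod_cast L.hz
  have e3 : (m : ℤ) = m1 * G2 := by exact_mod_cast L.hm
  have e4 : (b0 : ℤ) = A0 + d1 * G2 := by exact_mod_cast L.hd
  have hG1 := L.G10
  have hG2 := L.G20
  have hAe : A + e = (hh * A0 : ℕ) * ((g + m : ℕ) : ℤ) := by rw [hA, he]; push_cast; ring
  refine h.p0r hF hN hv hb3 hAc hAb he3 hA2 he2 (g := hh * (G1 * G2)) (D1 := z1 * d1)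
    (e1 := A1 * m1) (by positivity) (by exact_mod_cast Nat.isCoprime_iff_coprime.2 L.co) ?_ ?_
    T hTp (fun r hr hr2 h1 h2 h3 h4 h5 => ?_) (fun r hr hr2 h1 h2 h3 h6 => ?_) ?_
  · rw [ha, hb, hA, he]
    linear_combination ((hh : ℤ) * (g + m)) * e4 + ((hh : ℤ) * (d1 * G2)) * e2
  · rw [he]
    linear_combination ((hh : ℤ) * A0) * e3 + ((hh : ℤ) * (m1 * G2)) * e1
  · by_cases h6 : (r : ℤ) ∣ A
    · have h7 : (r : ℤ) ∣ 3 := by
        rcases h3 with h3 | h3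
        · exact absurd h6 h3
        · exact h3
      have h8 : r = 3 := by
        have h9 : r ∣ 3 := by exact_mod_cast h7
        exact (Nat.prime_dvd_prime_iff_eq hr Nat.prime_three).1 h9
      subst h8
      refine hK (by exact_mod_cast h1) (by exact_mod_cast h6) ?_ (by exact_mod_cast h4)
        (by exact_mod_cast h5)
      exact_mod_cast (dvd_add_right h6).1 h2
    · have h7 : ¬ r ∣ hh * A0 := by
        intro h8
        apply h6
        rw [hA]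
        have h9 : (r : ℤ) ∣ (hh : ℤ) * A0 := by exact_mod_cast h8
        exact h9.mul_left _
      have h8 : r ∣ g + m := by
        rw [hAe] at h2
        have h9 : r ∣ hh * A0 * (g + m) := by exact_mod_cast h2
        exact (hr.dvd_mul.1 h9).resolve_left h7
      refine hW r hr hr2 h1 h6 h8 ?_
      have h9 : r ∣ z1 * G1 := by rw [← L.hz]; exact h8
      refine (hr.dvd_mul.1 h9).resolve_right fun h10 => h7 ?_
      rw [L.hA]
      exact (h10.mul_left _).mul_left _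
  · refine hT r hr hr2 h1 h3 ?_
    have h7 : r ∣ A1 * m1 := by exact_mod_cast h6
    refine (hr.dvd_mul.1 h7).resolve_left fun h8 => h3 ?_
    rw [hA]
    have h9 : (r : ℤ) ∣ (A0 : ℤ) := by
      rw [e1]
      have : (r : ℤ) ∣ (A1 : ℤ) := by exact_mod_cast h8
      exact this.mul_right _
    exact (h9.mul_left _).mul_left _
  · have h1 : ((G1 * G2 * 2 ^ T.card : ℕ) : ℤ) < (((m - g) * (A0 + b0) : ℕ) : ℤ) := by
      exact_mod_cast hM
    push_cast [Nat.cast_sub hgm.le] at h1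
    have h2 : (0 : ℤ) < hh := by exact_mod_cast hh0
    have h3 := mul_lt_mul_of_pos_left h1 h2
    rw [ha, hb, hA, he]
    linarith

end Pool.Agent.H4G
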