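import Pool.Agent.H4G.Arith.K2Fin40
import Pool.Agent.H4G.Arith.K2NumT
import Pool.Agent.H4G.Arith.LNum23

/-!
# LINE B, `K = 2`: LEFT in reduced numbers, the types P2, Q4L, S2 (helper5)
-/

set_option autoImplicit false

namespace Pool.Agent.H4G

variable {S : PSt} {a' b c A a e f Y φ : ℤ} {l p l' p' : Z2} {g1 m1 n0 A0 b0 hh : ℕ}

/-- LEFT does not apply: a set of bad primes -/
theorem KF.left_TB0 (h : KF 2 S a' b c A a e f Y φ l p l' p') (hF : S.Full) {N : ℕ}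
    (hN : N.Prime) (hv : a + A + a' = N) (hb3 : 3 ≤ b) (hAc : A < c) (hAb : A < b)
    (he3 : e < 3 * A) (D : K2D A b c a e Y g1 m1 n0 A0 b0 hh)
    (h2 : (2 : ℤ) ∣ a' → ¬ (2 : ℤ) ∣ A ∧ ¬ 2 ∣ m1) :
    ∃ T : Finset ℕ, K2.TB g1 m1 n0 A0 b0 T ∧ (¬ (2 : ℤ) ∣ a' → 2 ∉ T) ∧
      ¬ K2.LT g1 m1 A0 b0 T := by
  classical
  obtain ⟨G1, G2, z1, d1, A1, m2, L⟩ := exists_LNum D.g0 D.co D.cAb D.Ab0
  have hz0 : 0 < g1 + m1 := by have := D.g0; omega
  have hm0 : 0 < m1 := by have := D.gm; omega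
  have eG1 : Nat.gcd (g1 + m1) A0 = G1 := by rw [L.hG1, Nat.gcd_comm]
  have eG2 : Nat.gcd (b0 - A0) m1 = G2 := by rw [L.hG2, Nat.gcd_comm]
  have ez : (g1 + m1) / G1 = z1 := by rw [L.hz]; exact Nat.mul_div_cancel _ L.G10
  have ed : (b0 - A0) / G2 = d1 := by
    have e1 : b0 - A0 = d1 * G2 := by have := L.hd; omega
    rw [e1]; exact Nat.mul_div_cancel _ L.G20
  have eA : A0 / G1 = A1 := by rw [L.hA]; exact Nat.mul_div_cancel _ L.G10
  have em : m1 / G2 = m2 := by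
    have e1 : m1 = m2 * G2 := L.hm
    rw [e1]; exact Nat.mul_div_cancel _ L.G20
  set P : ℕ → Prop := fun r => (r : ℤ) ∣ a' ∧ ((r ∣ A0 * (g1 + m1) ∧ r ∣ z1 * d1) ∨
    (r ∣ m1 ∧ ¬ r ∣ g1 * A0 ∧ r ∣ A1 * m2 ∧ r ∣ g1 * n0 - 2)) with hP
  set T : Finset ℕ := ((A0 * (g1 + m1) * m1).primeFactors).filter P with hT
  have hmem : ∀ r : ℕ, r.Prime → P r → r ∈ T := by
    intro r hr h1
    refine Finset.mem_filter.2 ⟨Nat.mem_primeFactors.2 ⟨hr, ?_, ?_⟩, h1⟩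
    · rcases h1.2 with h2 | h2
      · exact h2.1.mul_right _
      · exact h2.1.mul_left _
    · exact (Nat.mul_pos (Nat.mul_pos D.A00 hz0) hm0).ne'
  have hTp : ∀ r ∈ T, r.Prime := fun r hr =>
    Nat.prime_of_mem_primeFactors (Finset.mem_filter.1 hr).1
  refine ⟨T, fun r hr => ⟨hTp r hr, ?_⟩, fun h3 h4 => h3 (Finset.mem_filter.1 h4).2.1,
    fun hLT => ?_⟩
  · rw [eG1, eG2, ez, ed, eA, em]
    exact (Finset.mem_filter.1 hr).2.2
  · refine h.left_num hF hN hv hb3 hAc hAb (by have := h.A0; linarith) D.hA D.he D.hb D.ha D.gm L T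
      hTp ?_ ?_ ?_ ?_
    · intro r hr h1 h3 h4 h5
      exact hmem r hr ⟨h1, Or.inl ⟨h4.mul_left _, h5.mul_right _⟩⟩
    · intro r hr h1 h3 h4 h5 h6 h7
      exfalso
      have h8 : r ∣ 2 := by exact_mod_cast h5
      have h9 := (Nat.prime_dvd_prime_iff_eq hr Nat.prime_two).1 h8
      subst h9
      exact (h2 (by exact_mod_cast h1)).1 (by exact_mod_cast h4)
    · intro r hr h1 h3 h4 h5 h6
      have hrm : r ∣ m1 := by rw [L.hm]; exact h4.mul_right _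
      have hr2 : r ≠ 2 := by
        rintro rfl
        exact (h2 (by exact_mod_cast h1)).2 hrm
      have hK : ¬ (r : ℤ) ∣ 2 := odd_not_two hr hr2
      have hgA : ¬ r ∣ g1 * A0 := by
        intro h6
        apply h3
        rw [D.hA]
        have h7 : r ∣ g1 * (hh * A0) := h6.trans ⟨hh, by ring⟩
        exact_mod_cast h7
      refine hmem r hr ⟨h1, Or.inr ⟨hrm, hgA, h4.mul_left _, ?_⟩⟩
      have h6 : (r : ℤ) ∣ Y * c := by rw [← h.hy]; exact h1.mul_left _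
      have h7 : ¬ (r : ℤ) ∣ c := by
        intro h8
        have h9 : (r : ℤ) ∣ ((hh * A0 * (g1 + m1) : ℕ) : ℤ) := by
          push_cast; rw [← D.hc]; exact h8.mul_left _
        have h10 : r ∣ hh * A0 * (g1 + m1) := by exact_mod_cast h9
        rcases (Nat.Prime.dvd_mul hr).1 h10 with h11 | h11
        · rcases (Nat.Prime.dvd_mul hr).1 h11 with h12 | h12
          · exact D.not_hh hr hr2 h12
          · exact hgA (h12.mul_left _)
        · exact D.not_g1 hr hrm ((Nat.dvd_add_left hrm).1 h11)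
      have h8 := (pdvd_mul hr h6).resolve_right h7
      rw [← (D.Yn h.Y0).1] at h8
      exact_mod_cast h8
    · have h1 : 2 ^ T.card * (Nat.gcd (g1 + m1) A0 * Nat.gcd (b0 - A0) m1) <
          (m1 - g1) * (A0 + b0) := hLT
      rw [eG1, eG2] at h1
      rw [mul_comm]; exact h1

/-- LEFT does not apply: a set of bad primes, `a'` odd (types Q4L, S2) -/
theorem KF.left_TB (h : KF 2 S a' b c A a e f Y φ l p l' p') (hF : S.Full) {N : ℕ}
    (hN : N.Prime) (hv : a + A + a' = N) (hb3 : 3 ≤ b) (hAc : A < c) (hAb : A < b)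
    (he3 : e < 3 * A) (D : K2D A b c a e Y g1 m1 n0 A0 b0 hh) (ha' : ¬ (2 : ℤ) ∣ a') :
    ∃ T : Finset ℕ, K2.TB g1 m1 n0 A0 b0 T ∧ 2 ∉ T ∧ ¬ K2.LT g1 m1 A0 b0 T := by
  obtain ⟨T, h1, h2, h3⟩ := h.left_TB0 hF hN hv hb3 hAc hAb he3 D (fun h9 => absurd h9 ha')
  exact ⟨T, h1, h2 ha', h3⟩

/-- LEFT does not apply: a set of bad primes, `A` and `m1` odd (type P2) -/
theorem KF.left_TBP (h : KF 2 S a' b c A a e f Y φ l p l' p') (hF : S.Full) {N : ℕ}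
    (hN : N.Prime) (hv : a + A + a' = N) (hb3 : 3 ≤ b) (hAc : A < c) (hAb : A < b)
    (he3 : e < 3 * A) (D : K2D A b c a e Y g1 m1 n0 A0 b0 hh) (hA2 : ¬ (2 : ℤ) ∣ A)
    (hm2 : ¬ 2 ∣ m1) :
    ∃ T : Finset ℕ, K2.TB g1 m1 n0 A0 b0 T ∧ ¬ K2.LT g1 m1 A0 b0 T := by
  obtain ⟨T, h1, -, h3⟩ := h.left_TB0 hF hN hv hb3 hAc hAb he3 D (fun _ => ⟨hA2, hm2⟩)
  exact ⟨T, h1, h3⟩

end Pool.Agent.H4G
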