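import Pool.Agent.H4G.Arith.LNum23
import Pool.Agent.H4G.Arith.K2NumT
import Pool.Agent.H4G.Arith.K2DataDef

/-!
# `K = 2`: LEFT with the set of bad primes of the number lemmas (helper64)
-/

set_option autoImplicit false

namespace Pool.Agent.H4G

variable {S : PSt} {a' b c A a e f Y φ : ℤ} {l p l' p' : Z2} {g1 m1 n0 A0 b0 hh : ℕ}

/-- `K = 2`, `4 ∤ hh`: the set of the bad primes of LEFT -/
theorem KF.left_k2 (h : KF 2 S a' b c A a e f Y φ l p l' p') (hF : S.Full) {N : ℕ}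
    (hN : N.Prime) (hv : a + A + a' = N) (hb3 : 3 ≤ b) (hAc : A < c) (hAb : A < b)
    (he3 : e < 3 * A) (D : K2D A b c a e Y g1 m1 n0 A0 b0 hh) (hh4 : ¬ 4 ∣ hh) :
    ∃ T : Finset ℕ, K2.TB g1 m1 n0 A0 b0 T ∧
      (∀ r ∈ T, r ∣ m1 → ¬ r ∣ g1 + m1 → ¬ (r : ℤ) ∣ φ ∨ (r : ℤ) ∣ A + b) ∧
      (K2.LT g1 m1 A0 b0 T → False) := by
  classical
  obtain ⟨G1, G2, z1, d1, A1, m1', L⟩ := exists_LNum D.g0 D.co D.cAb D.Ab0
  have hg0 := D.g0
  have hgm := D.gm
  have hA00 := D.A00
  have hAb0 := D.Ab0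
  have eG1 : Nat.gcd (g1 + m1) A0 = G1 := by rw [L.hG1, Nat.gcd_comm]
  have eG2 : Nat.gcd (b0 - A0) m1 = G2 := by rw [L.hG2, Nat.gcd_comm]
  have ez : (g1 + m1) / Nat.gcd (g1 + m1) A0 = z1 := by
    rw [eG1]; exact Nat.div_eq_of_eq_mul_left L.G10 L.hz
  have ed : (b0 - A0) / Nat.gcd (b0 - A0) m1 = d1 := by
    rw [eG2]; exact Nat.div_eq_of_eq_mul_left L.G20 (by have := L.hd; omega)
  have eA : A0 / Nat.gcd (g1 + m1) A0 = A1 := by
    rw [eG1]; exact Nat.div_eq_of_eq_mul_left L.G10 L.hA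
  have em : m1 / Nat.gcd (b0 - A0) m1 = m1' := by
    rw [eG2]; exact Nat.div_eq_of_eq_mul_left L.G20 L.hm
  have hY := h.Y0
  have hYn : ((g1 * n0 - 2 : ℕ) : ℤ) = Y := by
    have h1 := D.hY
    have h2 : (2 : ℤ) < ((g1 * n0 : ℕ) : ℤ) := by push_cast; linarith
    have h3 : 2 < g1 * n0 := by exact_mod_cast h2
    rw [Nat.cast_sub (by omega)]
    push_cast
    linarith
  set C : ℕ → Prop := fun r => ((r ∣ A0 * (g1 + m1) ∧
        r ∣ (g1 + m1) / Nat.gcd (g1 + m1) A0 * ((b0 - A0) / Nat.gcd (b0 - A0) m1)) ∨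
      (r ∣ m1 ∧ ¬ r ∣ g1 * A0 ∧
        r ∣ A0 / Nat.gcd (g1 + m1) A0 * (m1 / Nat.gcd (b0 - A0) m1) ∧ r ∣ g1 * n0 - 2 ∧
        (¬ (r : ℤ) ∣ φ ∨ (r : ℤ) ∣ A + b))) with hC
  set T : Finset ℕ := (A0 * (g1 + m1) * m1).primeFactors.filter C with hTd
  have hn0 : A0 * (g1 + m1) * m1 ≠ 0 := by
    have : 0 < A0 * (g1 + m1) * m1 := Nat.mul_pos (Nat.mul_pos hA00 (by omega)) (by omega)
    omega
  have hmem : ∀ r : ℕ, r.Prime → C r → r ∈ T := by
    intro r hr hc
    rw [hTd, Finset.mem_filter, Nat.mem_primeFactors]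
    refine ⟨⟨hr, ?_, hn0⟩, hc⟩
    rcases hc with hc | hc
    · exact hc.1.mul_right _
    · exact hc.1.mul_left _
  have hmem' : ∀ r ∈ T, r.Prime ∧ C r := by
    intro r hr
    rw [hTd, Finset.mem_filter] at hr
    exact ⟨Nat.prime_of_mem_primeFactors hr.1, hr.2⟩
  refine ⟨T, fun r hr => ?_, fun r hr h1 h2 => ?_, fun hLT => ?_⟩
  · obtain ⟨k1, k2⟩ := hmem' r hr
    refine ⟨k1, ?_⟩
    rcases k2 with k2 | ⟨k2, k3, k4, k5, -⟩
    · exact Or.inl k2
    · exact Or.inr ⟨k2, k3, k4, k5⟩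
  · obtain ⟨k1, k2⟩ := hmem' r hr
    rcases k2 with ⟨k2, k3⟩ | ⟨-, -, -, -, k4⟩
    · exfalso
      rw [ez, ed] at k3
      rcases k1.dvd_mul.1 k2 with k4 | k4
      · rcases k1.dvd_mul.1 k3 with k5 | k5
        · exact h2 (by rw [L.hz]; exact k5.mul_right _)
        · have k6 : r ∣ b0 := by
            rw [L.hd]
            exact dvd_add k4 (k5.mul_right _)
          have k7 := Nat.dvd_gcd k4 k6
          rw [D.cAb] at k7
          exact k1.one_lt.ne' (Nat.dvd_one.1 k7)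
      · exact h2 k4
    · exact k4
  · have hA := D.hA
    have he := D.he
    refine h.left_num hF hN hv hb3 hAc hAb (by have := h.A0; linarith) D.hA D.he D.hb D.ha
      D.gm L T (fun r hr => (hmem' r hr).1) (fun r hr h1 h2 h3 h4 => hmem r hr (Or.inl ?_))
      (fun r hr h1 h2 h3 h4 h5 h6 => hmem r hr (Or.inl ?_))
      (fun r hr h1 h2 h3 h4 h5 => hmem r hr (Or.inr ?_)) ?_
    · rw [ez, ed]
      exact ⟨h3.mul_left _, h4.mul_right _⟩
    · rw [ez, ed]
      refine ⟨?_, h6⟩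
      have hr2 : r = 2 := by
        have : r ∣ 2 := by exact_mod_cast h4
        exact (Nat.prime_dvd_prime_iff_eq hr Nat.prime_two).1 this
      subst hr2
      have k1 : 2 ∣ hh * A0 * (g1 + m1) := by
        have : ((2 : ℕ) : ℤ) ∣ ((hh * A0 * (g1 + m1) : ℕ) : ℤ) := by
          have e1 : ((hh * A0 * (g1 + m1) : ℕ) : ℤ) = A + e := by
            rw [hA, he]; push_cast; ring
          rw [e1]; exact h2
        exact_mod_cast this
      by_contra hcon
      have hAo : ¬ 2 ∣ A0 := fun h9 => hcon (h9.mul_right _)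
      have hzo : ¬ 2 ∣ g1 + m1 := fun h9 => hcon (h9.mul_left _)
      have hh2 : 2 ∣ hh := by
        rw [mul_assoc] at k1
        exact (Nat.prime_two.dvd_mul.1 k1).resolve_right hcon
      rcases h5 with h5 | ⟨n, h5, h7⟩
      · -- `c` is odd
        have k2 : ((4 : ℕ) : ℤ) ∣ ((hh * A0 * (g1 + m1) : ℕ) : ℤ) := by
          have e1 : ((hh * A0 * (g1 + m1) : ℕ) : ℤ) = 2 * c := by
            rw [D.hc]; push_cast; ring
          rw [e1]
          obtain ⟨w, hw⟩ := h5
          exact ⟨w, by rw [hw]; push_cast; ring⟩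
        have k3 : 4 ∣ hh * A0 * (g1 + m1) := by exact_mod_cast k2
        apply hh4
        rw [mul_assoc] at k3
        have k4 : Nat.Coprime 4 (A0 * (g1 + m1)) := by
          have : Nat.Coprime (2 ^ 2) (A0 * (g1 + m1)) :=
            Nat.Coprime.pow_left 2 ((Nat.prime_two.coprime_iff_not_dvd).2 hcon)
          simpa using this
        exact k4.dvd_of_dvd_mul_right k3
      · apply h7
        have e1 : a + b = ((hh * b0 * (g1 + m1) : ℕ) : ℤ) := by
          rw [D.ha, D.hb]; push_cast; ring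
        rw [e1] at h5
        have h8 : 2 ^ n ∣ hh * b0 * (g1 + m1) := by exact_mod_cast h5
        have k4 : Nat.Coprime (2 ^ n) (g1 + m1) :=
          Nat.Coprime.pow_left n ((Nat.prime_two.coprime_iff_not_dvd).2 hzo)
        have h9 := k4.dvd_of_dvd_mul_right h8
        rw [D.hb]
        have h10 : 2 ^ n ∣ g1 * (hh * b0) := h9.mul_left _
        exact_mod_cast h10
    · have hre : (r : ℤ) ∣ e := by
        rw [he]
        have : r ∣ m1 * (hh * A0) := by
          have h6 : r ∣ m1 := by rw [L.hm]; exact h3.mul_right _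
          exact h6.mul_right _
        exact_mod_cast this
      have hr2 : r ≠ 2 := by
        intro h6
        have h7 := h4 h6
        subst h6
        have h8 := h.hc
        have h9 : ((2 : ℕ) : ℤ) ∣ A := by
          push_cast
          omega
        exact h2 h9
      refine ⟨by rw [L.hm]; exact h3.mul_right _, fun h6 => h2 ?_, ?_, ?_, h5 hr2⟩
      · rw [hA]
        rcases hr.dvd_mul.1 h6 with h7 | h7
        · have : (r : ℤ) ∣ (g1 : ℤ) := by exact_mod_cast h7
          exact this.mul_right _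
        · have : (r : ℤ) ∣ (A0 : ℤ) := by exact_mod_cast h7
          exact (this.mul_left _).mul_left _
      · rw [eA, em]
        exact h3.mul_left _
      · have h6 : (r : ℤ) ∣ Y * c := by rw [← h.hy]; exact h1.mul_left _
        have hri := Nat.prime_iff_prime_int.1 hr
        have h7 : (r : ℤ) ∣ Y := by
          refine (hri.dvd_or_dvd h6).resolve_right fun h8 => h2 ?_
          have e1 : A = 2 * c - e := by linear_combination -h.hc
          rw [e1]; exact dvd_sub (h8.mul_left _) hre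
        rw [← hYn] at h7
        exact_mod_cast h7
    · unfold K2.LT at hLT
      rw [eG1, eG2] at hLT
      calc G1 * G2 * 2 ^ T.card = 2 ^ T.card * (G1 * G2) := by ring
        _ < _ := hLT

end Pool.Agent.H4G
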