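import Pool.Agent.H4G.Arith.KOdd

/-!
# LINE B, general `K`: the choice of the V-frame (helper29)
-/

set_option autoImplicit false

namespace Pool.Agent.H4G

variable {K : ℤ} {S : PSt} {a' b c A a e f Y φ : ℤ} {l p l' p' : Z2}

/-- NORM: a V-frame with `j = j2` modulo `2 ^ m` and `r ∤ f_j` for all odd primes `r ∣ e` with
`r ∤ a + b - A` (and `r ∤ Y` or `r ∣ φ`) -/
theorem KF.norm (h : KF K S a' b c A a e f Y φ l p l' p') (m : ℕ) (j2 : ℤ)
    (h2 : (2 : ℤ) ∣ Y → ¬ (2 : ℤ) ∣ 1 + j2 * φ) :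
    ∃ (j φ1 : ℤ) (l1' p1' : Z2), (2 : ℤ) ^ m ∣ j - j2 ∧
      KF K (vst S l p j) a' b c A a e (f + j * (a + b - A)) Y φ1 l (p - j • S.v) l1' p1' ∧
      IsCoprime Y (1 + j * φ) ∧
      ∀ r : ℕ, r.Prime → r ≠ 2 → (r : ℤ) ∣ e → ¬ (r : ℤ) ∣ a + b - A →
        ((r : ℤ) ∣ Y → (r : ℤ) ∣ φ) → ¬ (r : ℤ) ∣ f + j * (a + b - A) := by
  classical
  have he0 := h.e0
  have hY0 := h.Y0
  -- the class at each odd prime
  have hcl : ∀ r : ℕ, ∃ x : ℤ, (r.Prime → r ≠ 2 → (r : ℤ) ∣ Y → ¬ (r : ℤ) ∣ 1 + x * φ) ∧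
      (r.Prime → (r : ℤ) ∣ e → ¬ (r : ℤ) ∣ a + b - A → ((r : ℤ) ∣ Y → (r : ℤ) ∣ φ) →
        ¬ (r : ℤ) ∣ f + x * (a + b - A)) := by
    intro r
    by_cases hr : r.Prime
    · by_cases hc : (r : ℤ) ∣ e ∧ ¬ (r : ℤ) ∣ a + b - A ∧ ((r : ℤ) ∣ Y → (r : ℤ) ∣ φ)
      · obtain ⟨h3, h4, h5⟩ := hc
        have h6 : ∀ x : ℤ, (r : ℤ) ∣ Y → ¬ (r : ℤ) ∣ 1 + x * φ := fun x h7 h8 =>
          prime_not_dvd_one hr ((dvd_add_left ((h5 h7).mul_left x)).1 h8)
        by_cases hf : (r : ℤ) ∣ f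
        · refine ⟨1, fun _ _ h7 => h6 1 h7, fun _ _ _ _ h7 => h4 ?_⟩
          rw [one_mul] at h7
          exact (dvd_add_right hf).1 h7
        · exact ⟨0, fun _ _ h7 => h6 0 h7, fun _ _ _ _ => by simpa using hf⟩
      · refine ⟨0, fun _ _ _ => by simpa using prime_not_dvd_one hr, fun _ h3 h4 h5 => ?_⟩
        exact absurd ⟨h3, h4, h5⟩ hc
    · exact ⟨0, fun h1 => absurd h1 hr, fun h1 => absurd h1 hr⟩
  choose F hF1 hF2 using hcl
  obtain ⟨j, hj⟩ := crt_primes (insert 2 (e.natAbs.primeFactors ∪ Y.natAbs.primeFactors))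
    (fun r hr => by
      rcases Finset.mem_insert.1 hr with h1 | h1
      · rw [h1]; exact Nat.prime_two
      · rcases Finset.mem_union.1 h1 with h1 | h1
        · exact Nat.prime_of_mem_primeFactors h1
        · exact Nat.prime_of_mem_primeFactors h1) (fun r => if r = 2 then m + 1 else 1)
    (fun r => if r = 2 then j2 else F r)
  have hj2 : (2 : ℤ) ^ (m + 1) ∣ j - j2 := by
    have := hj 2 (Finset.mem_insert_self _ _)
    simpa using this
  have hje : ∀ r : ℕ, r.Prime → r ≠ 2 → (r : ℤ) ∣ e → (r : ℤ) ∣ j - F r := by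
    intro r hr hr2 he
    have h3 := hj r (Finset.mem_insert_of_mem (Finset.mem_union_left _ (by
      rw [Nat.mem_primeFactors]
      exact ⟨hr, Int.natCast_dvd.1 he, by simpa using he0.ne'⟩)))
    simpa only [if_neg hr2, pow_one] using h3
  have hjY : ∀ r : ℕ, r.Prime → r ≠ 2 → (r : ℤ) ∣ Y → (r : ℤ) ∣ j - F r := by
    intro r hr hr2 he
    have h3 := hj r (Finset.mem_insert_of_mem (Finset.mem_union_right _ (by
      rw [Nat.mem_primeFactors]
      exact ⟨hr, Int.natCast_dvd.1 he, by simpa using hY0.ne'⟩)))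
    simpa only [if_neg hr2, pow_one] using h3
  have hco : IsCoprime Y (1 + j * φ) := by
    refine isCoprime_of_prime fun r hr h3 h4 => ?_
    by_cases hr2 : r = 2
    · subst hr2
      have h4' : (2 : ℤ) ∣ Y := by exact_mod_cast h4
      have h3' : (2 : ℤ) ∣ 1 + j * φ := by exact_mod_cast h3
      refine h2 h4' ?_
      have h5 : (2 : ℤ) ∣ j - j2 := (dvd_pow_self _ (Nat.succ_ne_zero m)).trans hj2
      have e1 : 1 + j2 * φ = (1 + j * φ) - (j - j2) * φ := by ring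
      rw [e1]
      exact dvd_sub h3' (h5.mul_right _)
    · refine hF1 r hr hr2 h4 ?_
      have e1 : 1 + F r * φ = (1 + j * φ) - (j - F r) * φ := by ring
      rw [e1]
      exact dvd_sub h3 ((hjY r hr hr2 h4).mul_right _)
  obtain ⟨φ1, l1', p1', h3⟩ := h.vtw hco
  refine ⟨j, φ1, l1', p1', (pow_dvd_pow _ (Nat.le_succ m)).trans hj2, h3, hco, ?_⟩
  intro r hr hr2 he hD hYφ h4
  refine hF2 r hr he hD hYφ ?_
  have e1 : f + F r * (a + b - A) = (f + j * (a + b - A)) - (j - F r) * (a + b - A) := by ring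
  rw [e1]
  exact dvd_sub h4 ((hje r hr hr2 he).mul_right _)

end Pool.Agent.H4G
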