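import Pool.Agent.H4G.Arith.KThree
import Pool.Agent.H4G.Arith.KNorm
import Pool.Agent.H4G.Arith.KM
import Pool.Agent.H4G.Arith.KEnd
import Pool.Agent.H4G.Arith.K2Bad

/-!
# LINE B, `K = 2`: right exits of level `n`, tools for the levels two and four (helper40)
-/

set_option autoImplicit false

namespace Pool.Agent.H4G

variable {S : PSt} {a' b c A a e f Y φ : ℤ} {l p l' p' : Z2}

/-- an odd prime does not divide two -/
theorem odd_not_two {r : ℕ} (hr : r.Prime) (hr2 : r ≠ 2) : ¬ (r : ℤ) ∣ 2 := by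
  intro h
  have h1 : r ∣ 2 := by exact_mod_cast h
  exact hr2 ((Nat.prime_dvd_prime_iff_eq hr Nat.prime_two).1 h1)

/-- END 1 for `K = 2`: a divisor of `c` prime to `A` divides `Y - 2 n` and `ω` -/
theorem KF.end1 (h : KF 2 S a' b c A a e f Y φ l p l' p') {N : ℕ} (hN : N.Prime)
    (hv : a + A + a' = N) (hc2 : c < 2 * A) {Q : ℤ} (hQ : A * Q = (Y + 2) * c)
    {n o t i ω κ : ℤ} (hn : 0 ≤ n) (ho : o = 1 ∨ o = -1) (hco : IsCoprime t n)
    (hω : ω = t * Y + n * φ + i * n * (2 - Q)) (h1 : 2 * n * c < o * A * ω)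
    (h2 : o * A * ω ≤ Y * c)
    (hκ : IsC S.L (xvK S l' p' n (o + i * (1 + n)) (t + i)) κ) (hd : κ ∣ A + n * c)
    {z : ℤ} (hzc : z ∣ c) (hzA : IsCoprime z A) : z ∣ Y - 2 * n ∧ z ∣ ω := by
  have hA0 := h.A0
  have e : o * (t * Y * A + n * (φ * A - i * (Y * c + 2 * c - 2 * A))) = o * A * ω := by
    rw [hω]
    linear_combination (o * n * i) * hQ
  have key : ∀ (s : ℕ) (m : ℕ), s.Prime → (s : ℤ) ^ m ∣ z →
      (s : ℤ) ^ m ∣ Y - 2 * n ∧ (s : ℤ) ^ m ∣ φ + 2 * (t + i) := by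
    intro s m hs hm
    rcases Nat.eq_zero_or_pos m with h0 | h0
    · rw [h0, pow_zero]; exact ⟨one_dvd _, one_dvd _⟩
    have hsz : (s : ℤ) ∣ z := (dvd_pow_self _ h0.ne').trans hm
    have hsA : ¬ (s : ℤ) ∣ A := not_dvd_of_isCoprime hzA.symm hs hsz
    obtain ⟨k1, k2⟩ := h.rcont hN hv (no_div_of_lt h.c0 hc2) hn ho hco (by rw [e]; exact h1)
      (by rw [e]; exact h2) hκ hd hs h0 (hm.trans hzc) hsA
    have hcA : IsCoprime ((s : ℤ) ^ m) A := isCoprime_pow_prime hs hsA m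
    have g1 := k1.cr_left S.v
    have g2 := k2.cr_left S.v
    have f1 : 2 * cr (l' - n • S.u) S.v = (Y - 2 * n) * A := by
      rw [cr_sub_left, cr_smul_left, h.hA]
      linear_combination h.l'v
    have f2 : 2 * cr (p' + (t + i) • S.u) S.v = (φ + 2 * (t + i)) * A := by
      rw [cr_add_left, cr_smul_left, h.hA]
      linear_combination h.p'v
    constructor
    · refine hcA.dvd_of_dvd_mul_right ?_
      rw [← f1]; exact g1.mul_left 2
    · refine hcA.dvd_of_dvd_mul_right ?_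
      rw [← f2]; exact g2.mul_left 2
  have hzQ : z ∣ Q := by
    refine hzA.dvd_of_dvd_mul_left ?_
    rw [hQ]; exact hzc.mul_left _
  have k1 : z ∣ Y - 2 * n := dvd_of_prime_pow fun r k hr hk => (key r k hr hk).1
  have k2 : z ∣ φ + 2 * (t + i) := dvd_of_prime_pow fun r k hr hk => (key r k hr hk).2
  refine ⟨k1, ?_⟩
  have e2 : ω = t * (Y - 2 * n) + n * (φ + 2 * (t + i)) - Q * (i * n) := by rw [hω]; ring
  rw [e2]
  exact dvd_sub (dvd_add (k1.mul_left _) (k2.mul_left _)) (hzQ.mul_right _)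

/-- the content of the right lattice at an odd prime of `c` -/
theorem KF.cont_odd (h : KF 2 S a' b c A a e f Y φ l p l' p') {n τ : ℤ} {r : ℕ} (hr : r.Prime)
    (h1 : Dz r (l' - n • S.u)) (h2 : Dz r (p' + τ • S.u)) : (r : ℤ) ∣ c ∧ ¬ Dz r S.u := by
  have h3 := h2.cr_right S.u
  rw [cr_add_right, cr_smul_right, cr_self, h.up'] at h3
  refine ⟨by simpa using h3, fun hu => ?_⟩
  have f1 := h1.add (hu.smul n)
  have f2 := h2.sub (hu.smul τ)
  rw [sub_add_cancel] at f1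
  rw [add_sub_cancel_right] at f2
  have hcon := h.ext.con
  rw [h.L'_eq] at hcon
  exact con1_lat.1 hcon r hr ⟨f1, f2⟩

/-- the content at an odd prime `r`: `r ∣ Y - 2 n` -/
theorem KF.cont_Y (h : KF 2 S a' b c A a e f Y φ l p l' p') {n τ : ℤ} {r : ℕ} (hr : r.Prime)
    (hr2 : r ≠ 2) (h1 : Dz r (l' - n • S.u)) (h2 : Dz r (p' + τ • S.u)) :
    (r : ℤ) ∣ Y - 2 * n := by
  obtain ⟨-, hu⟩ := h.cont_odd hr h1 h2
  have hco : IsCoprime (r : ℤ) 2 :=
    ((Nat.prime_iff_prime_int.1 hr).coprime_iff_not_dvd).2 (odd_not_two hr hr2)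
  have h3 := ((h.content hco).1 ⟨h1, h2⟩).1
  rcases h3.mul_prime hr with h4 | h4
  · rwa [mul_comm 2 n]
  · exact absurd h4 hu

/-- the content at an odd prime of `A` and `c`: `r ∣ n + 1` or `r ∣ n` -/
theorem KF.cont_A (h : KF 2 S a' b c A a e f Y φ l p l' p') (hF : S.Full)
    (he3 : e < 3 * A) {n τ : ℤ} {r : ℕ} (hr : r.Prime)
    (hr2 : r ≠ 2) (hrA : (r : ℤ) ∣ A) (h1 : Dz r (l' - n • S.u)) (h2 : Dz r (p' + τ • S.u)) :
    (r : ℤ) ∣ n ∨ ((r : ℤ) ∣ n + 1 ∧ ¬ (r : ℤ) ∣ Y ∧ (r : ℤ) ∣ c) := by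
  have h3 := h.cont_Y hr hr2 h1 h2
  have hrc := (h.cont_odd hr h1 h2).1
  by_cases hrY : (r : ℤ) ∣ Y
  · left
    have h4 : (r : ℤ) ∣ 2 * n := by
      have : 2 * n = Y - (Y - 2 * n) := by ring
      rw [this]; exact dvd_sub hrY h3
    exact (pdvd_mul hr h4).resolve_left (odd_not_two hr hr2)
  · right
    refine ⟨?_, hrY, hrc⟩
    have h4 := h.fd hF (Or.inl rfl) he3 hr (odd_not_two hr hr2) hrA hrc hrY (k := 0)
      (by simp)
    have h5 : (r : ℤ) ∣ 2 + Y := by simpa using h4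
    have h6 : (r : ℤ) ∣ 2 * (n + 1) := by
      have : 2 * (n + 1) = (2 + Y) - (Y - 2 * n) := by ring
      rw [this]; exact dvd_sub h5 h3
    exact (pdvd_mul hr h6).resolve_left (odd_not_two hr hr2)

/-- the content at an odd prime of `Q`: one class of `ω` -/
theorem KF.cont_class (h : KF 2 S a' b c A a e f Y φ l p l' p') {Q n : ℤ} {r : ℕ}
    (hr : r.Prime) (hr2 : r ≠ 2) (hrQ : (r : ℤ) ∣ Q) :
    ∃ ρ : ℤ, ∀ t i ω : ℤ, ω = t * Y + n * φ + i * n * (2 - Q) →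
      Dz r (l' - n • S.u) → Dz r (p' + (t + i) • S.u) → (r : ℤ) ∣ ω - ρ := by
  by_cases hex : ∃ t1 i1 : ℤ, Dz r (l' - n • S.u) ∧ Dz r (p' + (t1 + i1) • S.u)
  · obtain ⟨t1, i1, k1, k2⟩ := hex
    refine ⟨t1 * Y + n * φ + i1 * n * (2 - Q), fun t i ω hω k3 k4 => ?_⟩
    have hY := h.cont_Y hr hr2 k1 k2
    obtain ⟨-, hu⟩ := h.cont_odd hr k1 k2
    have h5 : Dz r (((t + i) - (t1 + i1)) • S.u) := by
      have := k4.sub k2
      have e1 : p' + (t + i) • S.u - (p' + (t1 + i1) • S.u) = ((t + i) - (t1 + i1)) • S.u := by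
        module
      rwa [e1] at this
    have h6 : (r : ℤ) ∣ (t + i) - (t1 + i1) := (h5.mul_prime hr).resolve_right hu
    have e2 : ω - (t1 * Y + n * φ + i1 * n * (2 - Q)) =
        (t - t1) * (Y - 2 * n) + 2 * n * ((t + i) - (t1 + i1)) - Q * ((i - i1) * n) := by
      rw [hω]; ring
    rw [e2]
    exact dvd_sub (dvd_add (hY.mul_left _) (h6.mul_left _)) (hrQ.mul_right _)
  · refine ⟨0, fun t i ω _ k3 k4 => ?_⟩
    exact absurd ⟨t, i, k3, k4⟩ hex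

/-- content four, `A` odd -/
theorem KF.cont_four (h : KF 2 S a' b c A a e f Y φ l p l' p') (hA2 : ¬ (2 : ℤ) ∣ A) {n τ : ℤ}
    (h1 : Dz 4 (l' - n • S.u)) (h2 : Dz 4 (p' + τ • S.u)) :
    (8 : ℤ) ∣ Y - 2 * n ∧ (8 : ℤ) ∣ φ + 2 * τ ∧ (4 : ℤ) ∣ c := by
  have g1 := h1.cr_left S.v
  have g2 := h2.cr_left S.v
  have g3 := h2.cr_right S.u
  rw [cr_add_right, cr_smul_right, cr_self, h.up'] at g3
  have f1 : 2 * cr (l' - n • S.u) S.v = (Y - 2 * n) * A := by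
    rw [cr_sub_left, cr_smul_left, h.hA]
    linear_combination h.l'v
  have f2 : 2 * cr (p' + τ • S.u) S.v = (φ + 2 * τ) * A := by
    rw [cr_add_left, cr_smul_left, h.hA]
    linear_combination h.p'v
  have hcop : IsCoprime (8 : ℤ) A := by
    have : IsCoprime (((2 : ℕ) : ℤ) ^ 3) A := isCoprime_pow_prime Nat.prime_two (by exact_mod_cast hA2) 3
    norm_num at this
    exact this
  refine ⟨hcop.dvd_of_dvd_mul_right ?_, hcop.dvd_of_dvd_mul_right ?_, by simpa using g3⟩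
  · rw [← f1]
    obtain ⟨x, hx⟩ := g1
    exact ⟨x, by rw [hx]; ring⟩
  · rw [← f2]
    obtain ⟨x, hx⟩ := g2
    exact ⟨x, by rw [hx]; ring⟩

/-- the odd primes of `a` do not divide the gap -/
theorem KF.odd_kap (h : KF 2 S a' b c A a e f Y φ l p l' p') {n q τ W κ : ℤ}
    (hW : W = 2 * q + τ * Y + n * φ) (hκ : IsC S.L (xvK S l' p' n q τ) κ) {r : ℕ}
    (hbad : ¬ ((r : ℤ) ∣ W * e ∧ (r : ℤ) ∣ (n + 2) * b + n * a - W * f)) : ¬ (r : ℤ) ∣ κ := by
  intro hk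
  obtain ⟨h1, h2⟩ := (h.xgap hW hκ).1 hk
  exact hbad ⟨(dvd_mul_left _ _).trans h1, (dvd_mul_left _ _).trans h2⟩

/-- the fibre over `x` -/
theorem fibre {μ ν Y Q g α β : ℤ} (hα : μ * Y = g * α) (hβ : ν * (Q - 2) = g * β)
    (hco : IsCoprime α β) (x : ℤ) : ∃ t1 i1 : ℤ, ∀ k : ℤ,
      μ * Y * (t1 + β * k) - ν * (Q - 2) * (i1 + α * k) = g * x ∧
      α * (t1 + β * k) - β * (i1 + α * k) = x := by
  obtain ⟨u, v, huv⟩ := hco
  refine ⟨u * x, -(v * x), fun k => ⟨?_, ?_⟩⟩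
  · rw [hα, hβ]; linear_combination (g * x) * huv
  · linear_combination x * huv

end Pool.Agent.H4G
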