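import Pool.Agent.H4G.Arith.K2NumD
set_option autoImplicit false

/-!
# Line B, K = 2, level one: the number lemma (N1a) (types with `a` odd) (helper73; statement: helper40)
-/

namespace Pool.Agent.H4G

open Finset

/-- the core estimate: `gam` is at most `c` times `m1 - g1` -/
theorem K2.core {g1 m1 n0 A0 b0 c X : ℕ} (H : K2.Num g1 m1 n0 A0 b0)
    (hg : K2.gam g1 m1 n0 ≤ c * (m1 - g1)) (h : X * (c * g1) + 4 ≤ g1 * n0) :
    (2 * X) * (g1 * K2.gam g1 m1 n0) ≤ (g1 * n0 - 4) * (g1 + m1) := by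
  have h1 := H.gm
  have h2 := H.m3
  have h3 : X * (c * g1) ≤ g1 * n0 - 4 := by omega
  have h4 : 2 * (m1 - g1) ≤ g1 + m1 := by omega
  calc (2 * X) * (g1 * K2.gam g1 m1 n0) ≤ (2 * X) * (g1 * (c * (m1 - g1))) := by gcongr
    _ = (X * (c * g1)) * (2 * (m1 - g1)) := by ring
    _ ≤ (g1 * n0 - 4) * (g1 + m1) := Nat.mul_le_mul h3 h4

/-- `n0 z - 4 = 2 Y + n0 (m1 - g1)` -/
theorem K2.nz {g1 m1 n0 A0 b0 : ℕ} (H : K2.Num g1 m1 n0 A0 b0) :
    n0 * (g1 + m1) - 4 = 2 * (g1 * n0 - 2) + n0 * (m1 - g1) := by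
  have h1 := H.gm
  have h5 := H.Y5
  obtain ⟨d, rfl⟩ : ∃ d, m1 = g1 + d := ⟨m1 - g1, by omega⟩
  have h6 : g1 + d - g1 = d := by omega
  rw [h6]
  have h7 : n0 * (g1 + (g1 + d)) = 2 * (g1 * n0) + n0 * d := by ring
  rw [h7]
  omega

theorem K2.gam_dvd {g1 m1 n0 A0 b0 : ℕ} (H : K2.Num g1 m1 n0 A0 b0) :
    K2.gam g1 m1 n0 ∣ n0 * (m1 - g1) := by
  have h1 : K2.gam g1 m1 n0 ∣ 2 * (g1 * n0 - 2) := Nat.gcd_dvd_left _ _
  have h2 : K2.gam g1 m1 n0 ∣ n0 * (g1 + m1) - 4 := Nat.gcd_dvd_right _ _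
  rw [K2.nz H] at h2
  exact (Nat.dvd_add_right h1).1 h2

theorem K2.gam_n0 {g1 m1 n0 A0 b0 : ℕ} (H : K2.Num g1 m1 n0 A0 b0) :
    Nat.gcd (K2.gam g1 m1 n0) n0 ∣ 4 := by
  have h5 := H.Y5
  have h1 : Nat.gcd (K2.gam g1 m1 n0) n0 ∣ 2 * (g1 * n0 - 2) :=
    (Nat.gcd_dvd_left _ _).trans (Nat.gcd_dvd_left _ _)
  have h2 : Nat.gcd (K2.gam g1 m1 n0) n0 ∣ 2 * (g1 * n0) :=
    ((Nat.gcd_dvd_right _ _).mul_left _).mul_left _
  have h3 : 2 * (g1 * n0) = 2 * (g1 * n0 - 2) + 4 := by omega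
  rw [h3] at h2
  exact (Nat.dvd_add_right h1).1 h2

theorem K2.dvd_of_gcd {a b c d : ℕ} (h : a ∣ b * c) (hd : Nat.gcd a b ∣ d) : a ∣ d * c := by
  have h1 : a ∣ Nat.gcd a b * c := by
    have h2 : a ∣ Nat.gcd (a * c) (b * c) := Nat.dvd_gcd (Nat.dvd_mul_right a c) h
    rwa [Nat.gcd_mul_right] at h2
  exact h1.trans (Nat.mul_dvd_mul_right hd c)

/-- the constant `c` -/
theorem K2.exists_c {g1 m1 n0 A0 b0 : ℕ} (H : K2.Num g1 m1 n0 A0 b0) (hm : ¬ 2 ∣ m1) :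
    ∃ c, (c = 1 ∨ c = 2 ∨ c = 4) ∧ c ∣ n0 ∧ K2.gam g1 m1 n0 ≤ c * (m1 - g1) ∧
      (c = 4 → 2 ∣ g1) ∧ (c = 1 → ¬ 2 ∣ n0) := by
  have h1 := H.gm
  have h5 := H.Y5
  have hd : 0 < m1 - g1 := by omega
  have hn := K2.gam_n0 H
  have hg := K2.gam_dvd H
  by_cases h2 : 2 ∣ n0
  · by_cases h4 : 4 ∣ n0
    · by_cases hg1 : 2 ∣ g1
      · refine ⟨4, by omega, h4, ?_, fun _ => hg1, by omega⟩
        exact Nat.le_of_dvd (by positivity) (K2.dvd_of_gcd hg hn)
      · refine ⟨2, by omega, h2, ?_, by omega, by omega⟩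
        apply Nat.le_of_dvd (by positivity)
        obtain ⟨t, ht⟩ := K2.dvd_of_gcd hg hn
        obtain ⟨d, hdd⟩ : 2 ∣ m1 - g1 := by omega
        have h8 : ¬ 8 ∣ K2.gam g1 m1 n0 := by
          intro h
          have h6 : 8 ∣ 2 * (g1 * n0 - 2) := h.trans (Nat.gcd_dvd_left _ _)
          have h7 : 4 ∣ g1 * n0 := h4.mul_left _
          omega
        have ht2 : 2 ∣ t := by
          by_contra hodd
          apply h8
          have h9 : Nat.Coprime 8 t := by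
            have : Nat.Coprime 2 t := (Nat.Prime.coprime_iff_not_dvd Nat.prime_two).2 hodd
            exact Nat.Coprime.pow_left 3 this
          refine h9.dvd_of_dvd_mul_right ?_
          rw [← ht, hdd]
          exact ⟨d, by ring⟩
        obtain ⟨s, rfl⟩ := ht2
        refine ⟨s, ?_⟩
        have : 2 * (2 * (m1 - g1)) = 2 * (K2.gam g1 m1 n0 * s) := by
          calc 2 * (2 * (m1 - g1)) = 4 * (m1 - g1) := by ring
            _ = K2.gam g1 m1 n0 * (2 * s) := ht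
            _ = _ := by ring
        omega
    · refine ⟨2, by omega, h2, ?_, by omega, by omega⟩
      apply Nat.le_of_dvd (by positivity)
      refine K2.dvd_of_gcd hg ?_
      have h6 : Nat.gcd (K2.gam g1 m1 n0) n0 ∣ Nat.gcd 4 n0 := Nat.dvd_gcd hn (Nat.gcd_dvd_right _ _)
      have h7 : Nat.gcd 4 n0 ∣ 4 := Nat.gcd_dvd_left _ _
      have h8 : Nat.gcd 4 n0 ∣ n0 := Nat.gcd_dvd_right _ _
      have h9 : Nat.gcd 4 n0 ≤ 4 := Nat.le_of_dvd (by norm_num) h7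
      refine h6.trans ?_
      generalize Nat.gcd 4 n0 = x at h7 h8 h9
      interval_cases x
      · omega
      · norm_num
      · norm_num
      · omega
      · exact absurd h8 h4
  · refine ⟨1, by omega, one_dvd _, ?_, by omega, fun _ => h2⟩
    apply Nat.le_of_dvd (by positivity)
    refine K2.dvd_of_gcd hg ?_
    have h6 : Nat.Coprime 4 n0 := by
      have : Nat.Coprime 2 n0 := (Nat.Prime.coprime_iff_not_dvd Nat.prime_two).2 h2
      exact Nat.Coprime.pow_left 2 this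
    have h7 : Nat.gcd (K2.gam g1 m1 n0) n0 ∣ Nat.gcd 4 n0 := Nat.dvd_gcd hn (Nat.gcd_dvd_right _ _)
    rwa [h6] at h7

/-- the odd primes of `n0` -/
theorem K2.Q_prop {n0 : ℕ} : ∀ r ∈ n0.primeFactors.erase 2, r.Prime ∧ r ≠ 2 ∧ r ∣ n0 := by
  intro r hr
  rw [Finset.mem_erase] at hr
  exact ⟨Nat.prime_of_mem_primeFactors hr.2, hr.1, Nat.dvd_of_mem_primeFactors hr.2⟩

/-- `c` times the product of the odd primes of `n0` is at most `n0` -/
theorem K2.c_prod {n0 c : ℕ} (hn : 0 < n0) (hc : c = 1 ∨ c = 2 ∨ c = 4) (hcn : c ∣ n0) :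
    c * ∏ r ∈ n0.primeFactors.erase 2, r ≤ n0 := by
  apply Nat.le_of_dvd hn
  refine Nat.Coprime.mul_dvd_of_dvd_of_dvd ?_ hcn (K1.prod_dvd (fun r hr => (K2.Q_prop r hr).1)
    (fun r hr => (K2.Q_prop r hr).2.2))
  have h2 : Nat.Coprime 2 (∏ r ∈ n0.primeFactors.erase 2, r) := by
    refine Nat.Coprime.prod_right fun r hr => ?_
    obtain ⟨h1, h3, _⟩ := K2.Q_prop r hr
    exact (Nat.coprime_primes Nat.prime_two h1).2 (Ne.symm h3)
  rcases hc with rfl | rfl | rfl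
  · exact Nat.coprime_one_left _
  · exact h2
  · exact Nat.Coprime.pow_left 2 h2

theorem K2.k_pos {n0 b0 : ℕ} (hn : 0 < n0) (hb : ¬ 2 ∣ b0) (hb1 : 1 < b0) (hbn : b0 ∣ n0) :
    1 ≤ K2.k n0 := by
  obtain ⟨r, hr, hrb⟩ := Nat.exists_prime_and_dvd (by omega : b0 ≠ 1)
  unfold K2.k
  rw [Nat.one_le_iff_ne_zero]
  intro h0
  have : r ∈ n0.primeFactors.erase 2 := by
    rw [Finset.mem_erase, Nat.mem_primeFactors]
    refine ⟨?_, hr, hrb.trans hbn, by omega⟩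
    rintro rfl
    exact hb hrb
  rw [Finset.card_eq_zero] at h0
  rw [h0] at this
  simp at this

theorem K2.two_mem {n0 b0 : ℕ} (hn : 0 < n0) (hb : ¬ 2 ∣ b0) (hb1 : 1 < b0) (hbn : b0 ∣ n0)
    (h3 : ¬ 3 ∣ b0) (h3n : 3 ∣ n0) : 2 ≤ K2.k n0 := by
  obtain ⟨r, hr, hrb⟩ := Nat.exists_prime_and_dvd (by omega : b0 ≠ 1)
  have h : ({3, r} : Finset ℕ) ⊆ n0.primeFactors.erase 2 := by
    intro x hx
    rw [Finset.mem_insert, Finset.mem_singleton] at hx
    rw [Finset.mem_erase, Nat.mem_primeFactors]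
    rcases hx with rfl | rfl
    · exact ⟨by norm_num, Nat.prime_three, h3n, by omega⟩
    · refine ⟨?_, hr, hrb.trans hbn, by omega⟩
      rintro rfl
      exact hb hrb
  have h1 := Finset.card_le_card h
  rw [Finset.card_pair] at h1
  · exact h1
  · rintro rfl
    exact h3 hrb

theorem K2.p5a73 {k : ℕ} (hk : 1 ≤ k) : 2 * 2 ^ k + 1 ≤ 5 ^ k := by
  induction k, hk using Nat.le_induction with
  | base => norm_num
  | succ k _ ih => rw [pow_succ, pow_succ]; omega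

theorem K2.p5b73 {k : ℕ} (hk : 2 ≤ k) : 4 * 2 ^ k + 1 ≤ 5 ^ k := by
  induction k, hk using Nat.le_induction with
  | base => norm_num
  | succ k _ ih => rw [pow_succ, pow_succ]; omega

theorem K2.p4a73 {k P : ℕ} (hk : 1 ≤ k) (h : 3 * 4 ^ k ≤ 4 * P) : 2 ^ k + 1 ≤ P := by
  have h1 : 2 * 2 ^ k ≤ 4 ^ k := by
    induction k, hk using Nat.le_induction with
    | base => norm_num
    | succ k _ ih =>
      have := ih (by rw [pow_succ] at h; omega)
      rw [pow_succ, pow_succ]; omega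
  have h2 : 2 ≤ 2 ^ k := by
    calc 2 = 2 ^ 1 := by norm_num
      _ ≤ 2 ^ k := Nat.pow_le_pow_right (by norm_num) hk
  omega

theorem K2.p4b73 {k P : ℕ} (hk : 2 ≤ k) (h : 3 * 4 ^ k ≤ 4 * P) : 2 * 2 ^ k + 1 ≤ P := by
  have h1 : 4 * 2 ^ k ≤ 4 ^ k := by
    induction k, hk using Nat.le_induction with
    | base => norm_num
    | succ k _ ih =>
      have := ih (by rw [pow_succ] at h; omega)
      rw [pow_succ, pow_succ]; omega
  have h2 : 4 ≤ 2 ^ k := by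
    calc 4 = 2 ^ 2 := by norm_num
      _ ≤ 2 ^ k := Nat.pow_le_pow_right (by norm_num) hk
  omega

theorem K2.prod_four {n0 : ℕ} :
    3 * 4 ^ K2.k n0 ≤ 4 * ∏ r ∈ n0.primeFactors.erase 2, r :=
  K1.four_odd _ (fun r hr => (K2.Q_prop r hr).1) (Finset.notMem_erase 2 _)

theorem K2.prod_five {n0 : ℕ} (h3 : ¬ 3 ∣ n0) :
    5 ^ K2.k n0 ≤ ∏ r ∈ n0.primeFactors.erase 2, r :=
  K1.five_five _ (fun r hr => (K2.Q_prop r hr).1) (Finset.notMem_erase 2 _)
    (fun h => h3 (K2.Q_prop 3 h).2.2)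

/-- `2 ^ (k + e3) + 1` is at most the product of the odd primes of `n0` -/
theorem K2.w_prod {n0 e3 : ℕ} (hk : 1 ≤ K2.k n0) (h3 : e3 ≤ 1) (hf : e3 = 1 → ¬ 3 ∣ n0) :
    2 ^ (K2.k n0 + e3) + 1 ≤ ∏ r ∈ n0.primeFactors.erase 2, r := by
  have h4 := K2.prod_four (n0 := n0)
  interval_cases e3
  · exact K2.p4a73 hk h4
  · have h5 := K2.prod_five (hf rfl)
    have h6 := K2.p5a73 hk
    rw [pow_succ]
    omega

/-- the same with one more factor `2`, for at least two odd primes -/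
theorem K2.w_prod2 {n0 e3 : ℕ} (hk : 2 ≤ K2.k n0) (h3 : e3 ≤ 1) (hf : e3 = 1 → ¬ 3 ∣ n0) :
    2 ^ (K2.k n0 + e3 + 1) + 1 ≤ ∏ r ∈ n0.primeFactors.erase 2, r := by
  have h4 := K2.prod_four (n0 := n0)
  interval_cases e3
  · have := K2.p4b73 hk h4
    rw [add_zero, pow_succ]
    omega
  · have h5 := K2.prod_five (hf rfl)
    have h6 := K2.p5b73 hk
    have h7 : 2 ^ (K2.k n0 + 1 + 1) = 4 * 2 ^ K2.k n0 := by rw [pow_succ, pow_succ]; ring
    rw [h7]
    omega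

theorem K2.two_pow7 (j : ℕ) : 2 ^ j % 7 = 1 ∨ 2 ^ j % 7 = 2 ∨ 2 ^ j % 7 = 4 := by
  induction j with
  | zero => left; norm_num
  | succ j ih => rw [pow_succ]; omega

theorem K2.two_pow15 (j : ℕ) :
    2 ^ j % 15 = 1 ∨ 2 ^ j % 15 = 2 ∨ 2 ^ j % 15 = 4 ∨ 2 ^ j % 15 = 8 := by
  induction j with
  | zero => left; norm_num
  | succ j ih => rw [pow_succ]; omega

/-- a number without odd primes is a power of two -/
theorem K2.eq_two_pow {z : ℕ} (hz : z ≠ 0) (h : ∀ r : ℕ, r.Prime → r ≠ 2 → ¬ r ∣ z) :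
    ∃ j, z = 2 ^ j := by
  refine ⟨_, Nat.eq_prime_pow_of_unique_prime_dvd (p := 2) hz ?_⟩
  intro d hd hdz
  by_contra h2
  exact h d hd h2 hdz

/-- the end of the small cases -/
theorem K2.fin16 {g1 m1 n0 g v : ℕ} (hn : 0 < n0) (hgv : n0 * (g1 + m1) = g * v + 4)
    (h : (18 ≤ v ∧ 36 ≤ g1 * n0) ∨ (17 ≤ v ∧ 68 ≤ g1 * n0)) :
    16 * (g1 * g) ≤ (g1 * n0 - 4) * (g1 + m1) := by
  obtain ⟨t, ht⟩ : ∃ t, g1 * n0 = t + 4 := ⟨g1 * n0 - 4, by omega⟩
  have h1 : g1 * n0 - 4 = t := by omega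
  rw [h1]
  have h2 : n0 * (16 * (g1 * g)) ≤ n0 * (t * (g1 + m1)) := by
    have h3 : n0 * (16 * (g1 * g)) = 16 * (g * (t + 4)) := by rw [← ht]; ring
    have h4 : n0 * (t * (g1 + m1)) = t * (g * v + 4) := by rw [← hgv]; ring
    rw [h3, h4]
    rcases h with ⟨hv, h36⟩ | ⟨hv, h68⟩
    · have h5 : 32 ≤ t := by omega
      have h6 : t * (g * 18) ≤ t * (g * v) := by gcongr
      have h7 : 32 * g ≤ t * g := Nat.mul_le_mul_right g h5
      nlinarith
    · have h5 : 64 ≤ t := by omega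
      have h6 : t * (g * 17) ≤ t * (g * v) := by gcongr
      have h7 : 64 * g ≤ t * g := Nat.mul_le_mul_right g h5
      nlinarith
  exact Nat.le_of_mul_le_mul_left h2 hn

/-- the small values of `n0`, all odd primes of `z` divide `A0` -/
theorem K2.n1a_small {g1 m1 n0 A0 b0 c : ℕ} (H : K2.Num g1 m1 n0 A0 b0) (hm : ¬ 2 ∣ m1)
    (h9 : 9 ∣ m1) (h3 : 3 ∣ b0 - A0)
    (hz : ∀ r : ℕ, r.Prime → r ≠ 2 → r ∣ g1 + m1 → r ∣ A0) (hb : b0 = 5 ∨ b0 = 7)
    (hc : c = 1 ∨ c = 2 ∨ c = 4) (hn : n0 = c * b0) (hc4 : c = 4 → 2 ∣ g1) :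
    16 * (g1 * K2.gam g1 m1 n0) ≤ (g1 * n0 - 4) * (g1 + m1) ∨
      (n0 = 10 ∧ b0 = 5 ∧ A0 = 2 ∧ 11 * (m1 - g1) + 2 = 5 * (g1 + m1) ∧
        ∃ j, g1 + m1 = 2 ^ j) := by
  have hA : A0 ∣ 4 := by
    have h1 := H.pA
    have h2 := H.Ab
    rcases hb with rfl | rfl
    · have : A0 = 2 := by omega
      rw [this]; norm_num
    · have : A0 = 1 ∨ A0 = 4 := by omega
      rcases this with h | h
      · rw [h]; norm_num
      · rw [h]
  have hgm := H.gm
  have hm3 := H.m3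
  have hY5 := H.Y5
  have hg0 := H.g0
  obtain ⟨j, hj⟩ : ∃ j, g1 + m1 = 2 ^ j := by
    refine K2.eq_two_pow (by omega) fun r hr hr2 hrz => ?_
    have h1 : r ∣ 2 ^ 2 := (hz r hr hr2 hrz).trans hA
    exact hr2 ((Nat.prime_dvd_prime_iff_eq hr Nat.prime_two).1 (hr.dvd_of_dvd_pow h1))
  have hm9 : 9 ≤ m1 := Nat.le_of_dvd (by omega) h9
  have hj4 : 4 ≤ j := by
    by_contra hlt
    have h1 : 2 ^ j ≤ 2 ^ 3 := Nat.pow_le_pow_right (by norm_num) (by omega)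
    omega
  obtain ⟨w, hw⟩ : ∃ w, g1 + m1 = 16 * w := by
    refine ⟨2 ^ (j - 4), ?_⟩
    rw [hj, ← pow_mul_pow_sub 2 hj4]
    norm_num
  have hw0 : 0 < w := by omega
  have hg1 : ¬ 2 ∣ g1 := by omega
  have hc2 : c = 1 ∨ c = 2 := by
    rcases hc with h | h | h
    · exact Or.inl h
    · exact Or.inr h
    · exact absurd (hc4 h) hg1
  have hz7 := K2.two_pow7 j
  have hz15 := K2.two_pow15 j
  rw [← hj] at hz7 hz15
  have hg7 : 7 ≤ g1 := by
    by_contra hlt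
    have : m1 = 9 := by omega
    omega
  -- the quotients
  have hn0 : 0 < n0 := by rcases hb with rfl | rfl <;> rcases hc2 with rfl | rfl <;> omega
  set g := K2.gam g1 m1 n0 with hgdef
  have hd1 : g ∣ 2 * (g1 * n0 - 2) := Nat.gcd_dvd_left _ _
  have hd2 : g ∣ n0 * (g1 + m1) - 4 := Nat.gcd_dvd_right _ _
  have hgn := K2.gam_n0 H
  rw [← hgdef] at hgn
  obtain ⟨u, hu⟩ := hd1
  obtain ⟨v, hv⟩ := hd2
  have hnz := K2.nz H
  rw [hu, hv] at hnz
  have hn5 : 5 ≤ n0 := by rcases hb with rfl | rfl <;> rcases hc2 with rfl | rfl <;> omega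
  have hgv : n0 * (g1 + m1) = g * v + 4 := by
    have : 4 ≤ n0 * (g1 + m1) := by nlinarith
    omega
  have hguv : g * (v - u) = n0 * (m1 - g1) := by
    rw [Nat.mul_sub]
    omega
  have hgpos : 0 < g := Nat.gcd_pos_of_pos_left _ (by omega)
  have hdpos : 0 < n0 * (m1 - g1) := Nat.mul_pos hn0 (by omega)
  have hvu : u < v := by
    by_contra hle
    have : v - u = 0 := by omega
    rw [this, mul_zero] at hguv
    omega
  have hvu2 : v - u < u := by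
    have h1 : g * (v - u) < g * u := by
      rw [hguv, ← hu]
      obtain ⟨d, hd⟩ : ∃ d, m1 - g1 = d := ⟨_, rfl⟩
      have h2 : d + 1 ≤ 2 * g1 := by omega
      have h3 : n0 * (d + 1) ≤ n0 * (2 * g1) := Nat.mul_le_mul_left _ h2
      have h4 : n0 * (2 * g1) = 2 * (g1 * n0) := by ring
      rw [hd]
      rw [mul_add, mul_one] at h3
      omega
    exact lt_of_mul_lt_mul_left h1 (Nat.zero_le g)
  have hbq : b0 ∣ v - u := by
    have h1 : Nat.Coprime b0 g := by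
      have h2 : Nat.gcd b0 g ∣ 4 :=
        (Nat.dvd_gcd (Nat.gcd_dvd_right _ _) ((Nat.gcd_dvd_left _ _).trans (by
          rw [hn]; exact Nat.dvd_mul_left _ _))).trans hgn
      have h3 : Nat.gcd b0 g ∣ b0 := Nat.gcd_dvd_left _ _
      have h4 : Nat.gcd b0 g ∣ Nat.gcd 4 b0 := Nat.dvd_gcd h2 h3
      have h5 : Nat.gcd 4 b0 = 1 := by rcases hb with rfl | rfl <;> norm_num
      rw [h5] at h4
      exact Nat.dvd_one.1 h4
    refine h1.dvd_of_dvd_mul_left ?_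
    rw [hguv, hn]
    exact ⟨c * (m1 - g1), by ring⟩
  obtain ⟨q, hq⟩ := hbq
  have hq0 : 0 < q := by
    rcases Nat.eq_zero_or_pos q with h | h
    · rw [h, mul_zero] at hq; omega
    · exact h
  rcases hb with rfl | rfl <;> rcases hc2 with rfl | rfl
  · -- n0 = 5
    clear hz15 hnz
    left
    norm_num at hn
    subst hn
    have h2g : 2 ∣ g := Nat.dvd_gcd (Nat.dvd_mul_right _ _) (by omega)
    have h4g : ¬ 4 ∣ g := by
      intro h
      have : 4 ∣ 2 * (g1 * 5 - 2) := h.trans (Nat.gcd_dvd_left _ _)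
      omega
    obtain ⟨s, hs⟩ : ∃ s, g = 4 * s + 2 := ⟨g / 4, by omega⟩
    have hv11 : 11 ≤ v := by omega
    have hv18 : 18 ≤ v := by
      by_contra hlt
      interval_cases v <;> omega
    rcases eq_or_ne g1 7 with rfl | hne
    · have : m1 = 9 := by omega
      subst this
      have hg2 : g = 2 := by rw [hgdef]; decide +kernel
      rw [hg2]
      norm_num
    · exact K2.fin16 (by norm_num) hgv (Or.inl ⟨hv18, by omega⟩)
  · -- n0 = 10
    clear hz15 hz7 hnz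
    norm_num at hn
    subst hn
    have h4g : 4 ∣ g := by
      refine Nat.dvd_gcd ?_ ?_ <;> omega
    obtain ⟨s, hs⟩ := h4g
    have hv11 : 11 ≤ v := by omega
    rcases eq_or_ne v 11 with rfl | hne
    · right
      refine ⟨rfl, rfl, ?_, ?_, j, hj⟩
      · have h1 := H.pA
        have h2 := H.Ab
        omega
      · have hq1 : q = 1 := by omega
        rw [hq1] at hq
        rw [hq] at hguv
        omega
    · left
      have hv17 : 17 ≤ v := by
        by_contra hlt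
        have hq1 : q = 1 := by omega
        rw [hq1] at hq
        rw [hq] at hguv
        interval_cases v <;> omega
      exact K2.fin16 (by norm_num) hgv (Or.inr ⟨hv17, by omega⟩)
  · -- n0 = 7
    clear hz15 hz7 hnz
    left
    norm_num at hn
    subst hn
    have h2g : 2 ∣ g := Nat.dvd_gcd (Nat.dvd_mul_right _ _) (by omega)
    have h4g : ¬ 4 ∣ g := by
      intro h
      have : 4 ∣ 2 * (g1 * 7 - 2) := h.trans (Nat.gcd_dvd_left _ _)
      omega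
    obtain ⟨s, hs⟩ : ∃ s, g = 4 * s + 2 := ⟨g / 4, by omega⟩
    have hv15 : 15 ≤ v := by omega
    have hv18 : 18 ≤ v := by
      by_contra hlt
      interval_cases v <;> omega
    exact K2.fin16 (by norm_num) hgv (Or.inl ⟨hv18, by omega⟩)
  · -- n0 = 14
    clear hz7 hnz
    left
    norm_num at hn
    subst hn
    have h4g : 4 ∣ g := by
      refine Nat.dvd_gcd ?_ ?_ <;> omega
    obtain ⟨s, hs⟩ := h4g
    have hv15 : 15 ≤ v := by omega
    have hv17 : 17 ≤ v := by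
      by_contra hlt
      interval_cases v <;> omega
    exact K2.fin16 (by norm_num) hgv (Or.inr ⟨hv17, by omega⟩)

end Pool.Agent.H4G
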