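import Pool.Agent.H4G.Arith.K2NumD
set_option autoImplicit false

/-!
# Line B, K = 2: common facts for the number lemmas of level one (helper24)
-/

namespace Pool.Agent.H4G

open Finset

theorem K2.pow3 {k : ℕ} (hk : 1 ≤ k) : 2 ^ k + 1 ≤ 3 ^ k := by
  obtain ⟨i, rfl⟩ : ∃ i, k = i + 1 := ⟨k - 1, by omega⟩
  have h1 := Nat.pow_le_pow_left (show 2 ≤ 3 by norm_num) i
  have h2 : 1 ≤ 2 ^ i := Nat.one_le_two_pow
  rw [pow_succ, pow_succ]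
  omega

theorem K2.pow5 {k : ℕ} (hk : 1 ≤ k) : 2 ^ (k + 1) + 1 ≤ 5 ^ k := by
  obtain ⟨i, rfl⟩ : ∃ i, k = i + 1 := ⟨k - 1, by omega⟩
  have h1 := Nat.pow_le_pow_left (show 2 ≤ 5 by norm_num) i
  have h2 : 1 ≤ 2 ^ i := Nat.one_le_two_pow
  rw [pow_succ, pow_succ, pow_succ]
  omega

theorem K2.odd_prod (n0 : ℕ) : ∀ r ∈ n0.primeFactors.erase 2, r.Prime ∧ r ≠ 2 ∧ r ∣ n0 := by
  intro r hr
  rw [Finset.mem_erase] at hr
  exact ⟨Nat.prime_of_mem_primeFactors hr.2, hr.1, Nat.dvd_of_mem_primeFactors hr.2⟩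

theorem K2.two_mul_prod {n0 j : ℕ} (hn : 0 < n0) (hj : 2 ^ j ∣ n0) :
    2 ^ j * ∏ r ∈ n0.primeFactors.erase 2, r ≤ n0 := by
  refine Nat.le_of_dvd hn (Nat.Coprime.mul_dvd_of_dvd_of_dvd ?_ hj ?_)
  · refine Nat.Coprime.pow_left j ((Nat.prime_two.coprime_iff_not_dvd).2 ?_)
    intro h
    rw [Nat.prime_two.prime.dvd_finsetProd_iff] at h
    obtain ⟨r, hr, h2⟩ := h
    have h3 := K2.odd_prod n0 r hr
    exact h3.2.1 ((Nat.prime_dvd_prime_iff_eq Nat.prime_two h3.1).1 h2).symm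
  · exact K1.prod_dvd (fun r hr => (K2.odd_prod n0 r hr).1) fun r hr => (K2.odd_prod n0 r hr).2.2

theorem K2.k3 {n0 j : ℕ} (hn : 0 < n0) (hj : 2 ^ j ∣ n0) : 2 ^ j * 3 ^ K2.k n0 ≤ n0 := by
  refine le_trans (Nat.mul_le_mul_left _ ?_) (K2.two_mul_prod hn hj)
  have := K1.pow_card (K := 3) (a := 1) (b := 1) ∅ (n0.primeFactors.erase 2) (fun r hr h4 => ?_) (by decide)
  · unfold K2.k
    linarith
  have h1 := K2.odd_prod n0 r hr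
  have := h1.1.two_le
  omega

theorem K2.k5 {n0 j : ℕ} (hn : 0 < n0) (hj : 2 ^ j ∣ n0) (h3 : ¬ 3 ∣ n0) : 2 ^ j * 5 ^ K2.k n0 ≤ n0 := by
  refine le_trans (Nat.mul_le_mul_left _ ?_) (K2.two_mul_prod hn hj)
  unfold K2.k
  refine K1.five_five _ (fun r hr => (K2.odd_prod n0 r hr).1) (Finset.notMem_erase _ _) ?_
  intro h
  exact h3 (K2.odd_prod n0 3 h).2.2

/-- if no odd prime divides both `z` and `A0`, `z` odd, then `ez = 1` gives `z | Y - 2` -/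
theorem K2.Fl.zfull {g1 m1 n0 A0 b0 e3 es e9 ez e4 e8 : ℕ}
    (F : K2.Fl g1 m1 n0 A0 b0 e3 es e9 ez e4 e8) (hz : ¬ 2 ∣ g1 + m1) (h1 : ez = 1)
    (hA : ∀ r : ℕ, r.Prime → r ≠ 2 → r ∣ g1 + m1 → ¬ r ∣ A0) : g1 + m1 ∣ g1 * n0 - 4 := by
  obtain ⟨zp, h2, h3, ⟨w, hw⟩, h5, h6, h7⟩ := F.fz h1
  have h8 : (g1 + m1) / zp = w := by rw [hw]; exact Nat.mul_div_cancel_left _ (by omega)
  rw [h8] at h7
  have h9 : w = 1 := by
    by_contra hc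
    obtain ⟨r, hr, h10⟩ := Nat.exists_prime_and_dvd hc
    have h11 : r ∣ g1 + m1 := by rw [hw]; exact h10.mul_left _
    have h12 : r ≠ 2 := by rintro rfl; exact hz h11
    exact h7 r hr h12 (hA r hr h12 h11) h10
  rw [h9, mul_one] at hw
  rw [hw]; exact h5

/-- `gam` for `4 | n0` -/
theorem K2.gam4 {g1 δ ν : ℕ} (hg : 0 < g1) (hν : 0 < ν) :
    ∃ γ : ℕ, K2.gam g1 (g1 + δ) (4 * ν) = 4 * γ ∧ γ ∣ δ ∧ γ ∣ 2 * (g1 * ν) - 1 ∧ 0 < γ := by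
  have h0 : 1 ≤ g1 * ν := Nat.mul_pos hg hν
  have h1 : 2 * (g1 * (4 * ν) - 2) = 4 * (2 * (g1 * ν) - 1) := by
    have : g1 * (4 * ν) = 4 * (g1 * ν) := by ring
    rw [this]; omega
  have h2 : 4 * ν * (g1 + (g1 + δ)) - 4 = 4 * (ν * (2 * g1 + δ) - 1) := by
    have : 4 * ν * (g1 + (g1 + δ)) = 4 * (ν * (2 * g1 + δ)) := by ring
    rw [this]; omega
  have h3 : ν * (2 * g1 + δ) = 2 * (g1 * ν) + ν * δ := by ring
  refine ⟨Nat.gcd (2 * (g1 * ν) - 1) (ν * (2 * g1 + δ) - 1), ?_, ?_, Nat.gcd_dvd_left _ _, ?_⟩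
  · unfold K2.gam
    rw [h1, h2, Nat.gcd_mul_left]
  · set γ := Nat.gcd (2 * (g1 * ν) - 1) (ν * (2 * g1 + δ) - 1) with hγ
    have h4 : γ ∣ 2 * (g1 * ν) - 1 := Nat.gcd_dvd_left _ _
    have h5 : γ ∣ ν * (2 * g1 + δ) - 1 := Nat.gcd_dvd_right _ _
    have h6 : γ ∣ ν * δ := by
      have h7 := Nat.dvd_sub h5 h4
      rw [h3] at h7
      rwa [show 2 * (g1 * ν) + ν * δ - 1 - (2 * (g1 * ν) - 1) = ν * δ by omega] at h7
    refine Nat.Coprime.dvd_of_dvd_mul_left ?_ h6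
    rw [Nat.coprime_iff_gcd_eq_one]
    have h8 : Nat.gcd γ ν ∣ 2 * (g1 * ν) - 1 := (Nat.gcd_dvd_left _ _).trans h4
    have h9 : Nat.gcd γ ν ∣ 2 * (g1 * ν) := ((Nat.gcd_dvd_right γ ν).mul_left g1).mul_left 2
    have h10 := Nat.dvd_sub h9 h8
    rw [show 2 * (g1 * ν) - (2 * (g1 * ν) - 1) = 1 by omega] at h10
    exact Nat.dvd_one.1 h10
  · exact Nat.gcd_pos_of_pos_left _ (by omega)

end Pool.Agent.H4G
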