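import Pool.Agent.H4G.Arith.KOdd

/-!
# LINE B, general `K`: the prime three and the lock prime (helper29)
-/

set_option autoImplicit false

namespace Pool.Agent.H4G

variable {K : ℤ} {S : PSt} {a' b c A a e f Y φ : ℤ} {l p l' p' : Z2}

/-- the lock prime: `r ∣ Y`, `r ∤ f`, `r ∣ e`: one class of `ω` -/
theorem KF.bad_lock (h : KF K S a' b c A a e f Y φ l p l' p') {Q : ℤ}
    (hQ : A * Q = (Y + K) * c) {n o : ℤ} {r : ℕ} (hr : r.Prime) (hK : ¬ (r : ℤ) ∣ K)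
    (hre : (r : ℤ) ∣ e) (hrA : ¬ (r : ℤ) ∣ A) (hY : (r : ℤ) ∣ Y)
    (hf : ¬ (r : ℤ) ∣ f) (hn1 : ¬ (r : ℤ) ∣ n + 1) :
    ∃ ρ : ℤ, ∀ ω t i : ℤ, ω = t * Y + n * φ + i * n * (K - Q) →
      (r : ℤ) ∣ (n + K) * b + n * a - (ω + K * o + i * (Y + K + n * Q)) * f →
      (r : ℤ) ∣ ω - ρ := by
  have h1 := h.Q_mod hQ hr hre hrA
  have hQ1 : (r : ℤ) ∣ Q - 1 := by
    have h2 : (r : ℤ) ∣ K * (Q - 1) := by
      have e1 : K * (Q - 1) = (K * Q - (K + Y)) + Y := by ring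
      rw [e1]; exact dvd_add h1 hY
    exact (pdvd_mul hr h2).resolve_left hK
  have hc : ¬ (r : ℤ) ∣ K * (n + 1) * f := by
    intro h2
    rcases pdvd_mul hr h2 with h3 | h3
    · rcases pdvd_mul hr h3 with h4 | h4
      · exact hK h4
      · exact hn1 h4
    · exact hf h3
  obtain ⟨α, β, hαβ⟩ := ((Nat.prime_iff_prime_int.1 hr).coprime_iff_not_dvd).2 hc
  -- `n (K - 1) (b.. - W f)` is linear in `ω` with the coefficient `- K (n + 1) f`
  set C : ℤ := n * (K - 1) * ((n + K) * b + n * a) - n * (K - 1) * (K * o) * f +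
    (K + n) * n * φ * f with hC
  refine ⟨β * C, fun ω t i hω h2 => ?_⟩
  have h3 : (r : ℤ) ∣ C - K * (n + 1) * f * ω := by
    obtain ⟨q, hq⟩ := hQ1
    obtain ⟨y, hy⟩ := hY
    have e0 : Q = 1 + r * q := by linear_combination hq
    have e1 : C - K * (n + 1) * f * ω = n * (K - 1) *
        ((n + K) * b + n * a - (ω + K * o + i * (Y + K + n * Q)) * f) +
        (r : ℤ) * (f * (n * (K - 1) * i * (y + n * q) - (K + n) * (t * y - i * n * q))) := by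
      rw [hC, hω, hy, e0]; ring
    rw [e1]
    exact dvd_add (h2.mul_left _) (dvd_mul_right _ _)
  obtain ⟨k, hk⟩ := h3
  refine ⟨α * ω - β * k, ?_⟩
  linear_combination (-ω) * hαβ - β * hk

/-- at a prime `r ∣ n + K` with `r ∣ e`, `r ∣ f`: `r ∣ A + n c` -/
theorem KF.three_A (h : KF K S a' b c A a e f Y φ l p l' p') {n : ℤ} {r : ℕ} (hr : r.Prime)
    (hK : ¬ (r : ℤ) ∣ K) (hn : (r : ℤ) ∣ n + K) (hre : (r : ℤ) ∣ e) : (r : ℤ) ∣ A + n * c := by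
  have e1 : K * (A + n * c) = (n + K) * A + n * e := by linear_combination n * h.hc
  have h1 : (r : ℤ) ∣ K * (A + n * c) := by
    rw [e1]; exact dvd_add (hn.mul_right _) (hre.mul_left _)
  exact (pdvd_mul hr h1).resolve_left hK

/-- `9 ∤ κ` in the three cases -/
theorem KF.three_kap (h : KF K S a' b c A a e f Y φ l p l' p') {n q τ W κ : ℤ}
    (hW : W = K * q + τ * Y + n * φ) (hκ : IsC S.L (xvK S l' p' n q τ) κ) {r : ℕ} (hr : r.Prime)
    (hrb : ¬ (r : ℤ) ∣ b) (hrA : ¬ (r : ℤ) ∣ A) (hn2 : ¬ (r : ℤ) ^ 2 ∣ n + K)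
    (h3 : ((r : ℤ) ^ 2 ∣ e ∧ (r : ℤ) ^ 2 ∣ f) ∨ (¬ (r : ℤ) ^ 2 ∣ e ∧ ¬ (r : ℤ) ∣ W) ∨
      ((r : ℤ) ^ 2 ∣ e ∧ ¬ (r : ℤ) ^ 2 ∣ (n + K) * b - W * f)) : ¬ (r : ℤ) ^ 2 ∣ κ := by
  intro h4
  obtain ⟨h5, h6⟩ := (h.xgap hW hκ).1 h4
  have h5 : (r : ℤ) ^ 2 ∣ W * e := (dvd_mul_left _ K).trans h5
  have h6 : (r : ℤ) ^ 2 ∣ (n + K) * b + n * a - W * f := (dvd_mul_left _ K).trans h6
  have ha2 : (r : ℤ) ^ 2 ∣ e → (r : ℤ) ^ 2 ∣ a := fun h7 => by
    refine ppow_cancel hr hrA ?_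
    rw [mul_comm, h.aA]; exact h7.mul_right _
  rcases h3 with ⟨h7, h8⟩ | ⟨h7, h8⟩ | ⟨h7, h8⟩
  · have h9 : (r : ℤ) ^ 2 ∣ b * (n + K) := by
      have e1 : b * (n + K) = ((n + K) * b + n * a - W * f) - n * a + W * f := by ring
      rw [e1]
      exact dvd_add (dvd_sub h6 ((ha2 h7).mul_left _)) (h8.mul_left _)
    exact hn2 (ppow_cancel hr hrb h9)
  · exact h7 (ppow_cancel hr h8 h5)
  · apply h8
    have e1 : (n + K) * b - W * f = ((n + K) * b + n * a - W * f) - n * a := by ring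
    rw [e1]
    exact dvd_sub h6 ((ha2 h7).mul_left _)

/-- the second case of `9 ∣ e`, `3 ∥ f`: one class of `W` -/
theorem three_class {r : ℕ} (hr : r.Prime) {x f : ℤ} (hx : (r : ℤ) ∣ x) (hf : (r : ℤ) ∣ f)
    (hf2 : ¬ (r : ℤ) ^ 2 ∣ f) :
    ∃ ρ : ℤ, ∀ W : ℤ, (r : ℤ) ^ 2 ∣ x - W * f → (r : ℤ) ∣ W - ρ := by
  have hr0 : (r : ℤ) ≠ 0 := by exact_mod_cast hr.ne_zero
  obtain ⟨x1, rfl⟩ := hx
  obtain ⟨f1, rfl⟩ := hf
  have hf1 : ¬ (r : ℤ) ∣ f1 := fun h1 => hf2 (by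
    rw [pow_two]; exact mul_dvd_mul_left _ h1)
  obtain ⟨α, β, hαβ⟩ := ((Nat.prime_iff_prime_int.1 hr).coprime_iff_not_dvd).2 hf1
  refine ⟨β * x1, fun W hW => ?_⟩
  have h1 : (r : ℤ) ∣ x1 - W * f1 := by
    have e1 : (r : ℤ) * x1 - W * (r * f1) = r * (x1 - W * f1) := by ring
    rw [e1, pow_two] at hW
    exact (mul_dvd_mul_iff_left hr0).1 hW
  obtain ⟨k, hk⟩ := h1
  refine ⟨α * W - β * k, ?_⟩
  linear_combination (-W) * hαβ - β * hk

/-- the `D`-condition at a prime `r ∣ n + K`, `r ∣ e, f, a + b - A` (`r ∥ κ`, `r ∤ W`) -/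
theorem KF.three_D (h : KF K S a' b c A a e f Y φ l p l' p') {n q τ W κ : ℤ}
    (hW : W = K * q + τ * Y + n * φ) {r : ℕ} (hr : r.Prime) (hK : ¬ (r : ℤ) ∣ K)
    (hra : (r : ℤ) ∣ a) (hrA : ¬ (r : ℤ) ∣ A) (hre : (r : ℤ) ∣ e)
    (hD0 : (r : ℤ) ∣ a + b - A) (hn : (r : ℤ) ∣ n + K) (hn2 : ¬ (r : ℤ) ^ 2 ∣ n + K)
    (hu : ¬ Dz r S.u) (hrκ : (r : ℤ) ∣ κ) (hrW : ¬ (r : ℤ) ∣ W) {D : Z2}
    (hD : κ • D = (a + (A + n * c)) • xvK S l' p' n q τ) : ¬ Dz r D := by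
  have hr0 : (r : ℤ) ≠ 0 := by exact_mod_cast hr.ne_zero
  -- the coefficient is a unit times `r`
  have hco : ¬ (r : ℤ) ^ 2 ∣ a + (A + n * c) := by
    intro h1
    obtain ⟨a1, ha1⟩ := hra
    obtain ⟨e1, he1⟩ := hre
    obtain ⟨m, hm⟩ := hn
    obtain ⟨d, hd⟩ := hD0
    have h2 : K * (a + (A + n * c)) = K * a + (n + K) * A + n * e := by
      linear_combination n * h.hc
    -- `a1 = e1` modulo `r`
    have h3 : (r : ℤ) ∣ (a1 - e1) * A := by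
      have h4 : a1 * A = e1 * b := by
        have h5 := h.aA
        rw [ha1, he1] at h5
        refine mul_left_cancel₀ hr0 ?_
        linear_combination h5
      have h6 : (a1 - e1) * A = e1 * (b - A) := by linear_combination h4
      have h7 : (r : ℤ) ∣ b - A := by
        have e1 : b - A = (a + b - A) - a := by ring
        rw [e1]
        exact dvd_sub (by rw [hd]; exact dvd_mul_right _ _) (by rw [ha1]; exact dvd_mul_right _ _)
      rw [h6]; exact h7.mul_left _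
    have h3' : (r : ℤ) ∣ a1 - e1 := (pdvd_mul hr h3).resolve_right hrA
    have h4 : (r : ℤ) ^ 2 ∣ K * a + (n + K) * A + n * e := by
      rw [← h2]; exact h1.mul_left _
    have h5 : K * a + (n + K) * A + n * e = r * (m * A + ((a1 - e1) * K + (n + K) * e1)) := by
      rw [ha1, he1, hm]; linear_combination ((r : ℤ) * e1) * hm
    rw [h5, pow_two] at h4
    have h6 := (mul_dvd_mul_iff_left hr0).1 h4
    have h7 : (r : ℤ) ∣ m * A := by
      have e2 : m * A = (m * A + ((a1 - e1) * K + (n + K) * e1)) -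
        ((a1 - e1) * K + (n + K) * e1) := by ring
      rw [e2]
      exact dvd_sub h6 (dvd_add (h3'.mul_right _) ((by rw [hm]; exact dvd_mul_right _ _ :
        (r : ℤ) ∣ n + K).mul_right _))
    have h8 := (pdvd_mul hr h7).resolve_right hrA
    apply hn2
    rw [hm, pow_two]
    exact mul_dvd_mul_left _ h8
  intro hDz
  have hra' : (r : ℤ) ∣ A + n * c := h.three_A hr hK hn hre
  obtain ⟨κ1, hκ1⟩ := hrκ
  obtain ⟨x, hx⟩ : (r : ℤ) ∣ a + (A + n * c) := dvd_add hra hra'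
  have hx1 : ¬ (r : ℤ) ∣ x := fun h1 => hco (by
    rw [hx, pow_two]; exact mul_dvd_mul_left _ h1)
  have h1 : κ1 • D = x • xvK S l' p' n q τ := by
    refine smul_inj hr0 ?_
    have h2 : ((r : ℤ) * κ1) • D = ((r : ℤ) * x) • xvK S l' p' n q τ := by
      rw [← hκ1, ← hx]; exact hD
    have e1 : (r : ℤ) • κ1 • D = ((r : ℤ) * κ1) • D := by module
    have e2 : (r : ℤ) • x • xvK S l' p' n q τ = ((r : ℤ) * x) • xvK S l' p' n q τ := by module
    rw [e1, e2, h2]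
  have h2 : Dz r (xvK S l' p' n q τ) := by
    have h3 : Dz r (x • xvK S l' p' n q τ) := by rw [← h1]; exact hDz.smul κ1
    exact (h3.mul_prime hr).resolve_left hx1
  -- `K v^ = (n + K) v + n l + W u` and `r ∣ l`
  have hl : Dz r l := by
    have h3 : Dz r (A • l) := by rw [h.Al]; exact Dz.of_dvd hre _
    exact (h3.mul_prime hr).resolve_left hrA
  have h4 := h.xvK_smul n q τ
  rw [← hW] at h4
  have h5 : Dz r (W • S.u) := by
    have e1 : W • S.u = K • xvK S l' p' n q τ - (n + K) • S.v - n • l := by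
      rw [h4]; module
    rw [e1]
    exact ((h2.smul K).sub (Dz.of_dvd hn _)).sub (hl.smul n)
  rcases h5.mul_prime hr with h6 | h6
  · exact hrW h6
  · exact hu h6

end Pool.Agent.H4G
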