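import Pool.Agent.H4G.Arith.K2DataDef
import Pool.Agent.H4G.Arith.KNorm
import Pool.Agent.H4G.Arith.KThree
import Pool.Agent.H4G.Arith.KM

/-!
# LINE B, `K = 2`, level one: norm, odd primes, choice of `(t, i)` (page K2L1_h40, row C) (helper29)
-/

set_option autoImplicit false

namespace Pool.Agent.H4G

variable {S : PSt} {a' b c A a e f Y φ : ℤ} {l p l' p' : Z2} {g1 m1 n0 A0 b0 hh : ℕ}

theorem oddp_ndvd_two {r : ℕ} (hr : r.Prime) (hr2 : r ≠ 2) : ¬ (r : ℤ) ∣ 2 := fun h => by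
  have h1 : r ∣ 2 := by exact_mod_cast h
  exact hr2 ((Nat.prime_dvd_prime_iff_eq hr Nat.prime_two).1 h1)

/-- if `3 ∣ e, Y`, `3 ∤ A` then `3 ∣ a + b - A` (`ft2` in two V-frames) -/
theorem KF.three_D0 (h : KF 2 S a' b c A a e f Y φ l p l' p') (he3 : e < 3 * A)
    (he : (3 : ℤ) ∣ e) (hA : ¬ (3 : ℤ) ∣ A) (hY : (3 : ℤ) ∣ Y) : (3 : ℤ) ∣ a + b - A := by
  have hno : ∀ {S2 : PSt} {f2 φ2 : ℤ} {l2 p2 l2' p2' : Z2},
      KF 2 S2 a' b c A a e f2 Y φ2 l2 p2 l2' p2' → (3 : ℤ) ∣ f2 := by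
    intro S2 f2 φ2 l2 p2 l2' p2' h2
    rcases h2.ft2 he3 (r := 3) Nat.prime_three (by exact_mod_cast he) (by exact_mod_cast hA)
      (by exact_mod_cast hY) with h3 | ⟨-, h3⟩
    · exact_mod_cast h3
    · exfalso; push_cast at h3; linarith
  -- a class `j ≠ 0` modulo three which is allowed
  obtain ⟨x, hx0, hx1⟩ : ∃ x : ℤ, ¬ (3 : ℤ) ∣ x ∧ ¬ (3 : ℤ) ∣ 1 + x * φ := by
    by_cases h1 : (3 : ℤ) ∣ 1 + 1 * φ
    · exact ⟨2, by norm_num, by omega⟩
    · exact ⟨1, by norm_num, h1⟩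
  obtain ⟨j, hj⟩ := crt_primes (insert 3 Y.natAbs.primeFactors) (fun r hr => by
      rcases Finset.mem_insert.1 hr with h1 | h1
      · rw [h1]; exact Nat.prime_three
      · exact Nat.prime_of_mem_primeFactors h1) (fun _ => 1) (fun r => if r = 3 then x else 0)
  have hj3 : (3 : ℤ) ∣ j - x := by
    have := hj 3 (Finset.mem_insert_self _ _)
    simpa using this
  have hco : IsCoprime Y (1 + j * φ) := by
    refine isCoprime_of_prime fun r hr h3 h4 => ?_
    by_cases hr3 : r = 3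
    · subst hr3
      apply hx1
      have e1 : 1 + x * φ = (1 + j * φ) - (j - x) * φ := by ring
      rw [e1]
      exact dvd_sub (by exact_mod_cast h3) (hj3.mul_right _)
    · have h5 := hj r (Finset.mem_insert_of_mem (by
        rw [Nat.mem_primeFactors]
        exact ⟨hr, Int.natCast_dvd.1 h4, by simpa using h.Y0.ne'⟩))
      simp only [if_neg hr3, pow_one, sub_zero] at h5
      exact prime_not_dvd_one hr ((dvd_add_left (h5.mul_right φ)).1 h3)
  obtain ⟨φ2, l2', p2', h2⟩ := h.vtw hco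
  have h3 := hno h
  have h4 := hno h2
  have h5 : (3 : ℤ) ∣ j * (a + b - A) := by
    have := dvd_sub h4 h3
    rwa [add_sub_cancel_left] at this
  refine (Int.prime_three.dvd_or_dvd h5).resolve_left fun h6 => hx0 ?_
  have e1 : x = j - (j - x) := by ring
  rw [e1]; exact dvd_sub h6 hj3

/-- NORM for `K = 2` -/
theorem KF.norm2 (h : KF 2 S a' b c A a e f Y φ l p l' p') {N : ℕ} (hN : N.Prime)
    (hv : a + A + a' = N) (he3 : e < 3 * A) :
    ∃ (j φ1 : ℤ) (l1' p1' : Z2), (2 : ℤ) ∣ j ∧ IsCoprime Y (1 + j * φ) ∧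
      KF 2 (vst S l p j) a' b c A a e (f + j * (a + b - A)) Y φ1 l (p - j • S.v) l1' p1' ∧
      (∀ r : ℕ, r.Prime → r ≠ 2 → (r : ℤ) ∣ e → (r : ℤ) ∣ b → ¬ (r : ℤ) ∣ A →
        ¬ (r : ℤ) ∣ f + j * (a + b - A)) ∧
      ((3 : ℤ) ∣ e → ¬ (3 : ℤ) ∣ A → ¬ (3 : ℤ) ∣ b → ¬ (3 : ℤ) ∣ b - A →
        ¬ (3 : ℤ) ∣ f + j * (a + b - A)) := by
  obtain ⟨j, φ1, l1', p1', h1, h2, h3, h4⟩ := h.norm 1 0 (fun _ => by norm_num)
  refine ⟨j, φ1, l1', p1', by simpa using h1, h3, h2, fun r hr hr2 hre hrb hrA => ?_,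
    fun h5 h6 _ h8 => ?_⟩
  · have hK := oddp_ndvd_two hr hr2
    refine h4 r hr hr2 hre (h.D0 hN hv hr hK hrb hre) fun hY => ?_
    exfalso
    have h5 := h.visA0 hN hv hr hr2 hK (k := 1) (by simpa using hrb)
    rw [pow_one] at h5
    exact hK ((dvd_add_left hY).1 h5)
  · have ha : (3 : ℤ) ∣ a := by
      have h9 : (3 : ℤ) ∣ a * A := by rw [h.aA]; exact h5.mul_right _
      exact (Int.prime_three.dvd_or_dvd h9).resolve_right h6
    have hD : ¬ (3 : ℤ) ∣ a + b - A := fun h9 => h8 (by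
      have e1 : b - A = (a + b - A) - a := by ring
      rw [e1]; exact dvd_sub h9 ha)
    have := h4 3 Nat.prime_three (by norm_num) (by exact_mod_cast h5) (by exact_mod_cast hD)
      (fun hY => absurd (h.three_D0 he3 h5 h6 (by exact_mod_cast hY)) hD)
    exact_mod_cast this

/-! ## Classes of `W` and of `x` -/

theorem K2.cl_of {r : ℕ} {R gam o w0 : ℤ} (_hr : r.Prime) (_hr2 : r ≠ 2)
    (h1 : (r : ℤ) ∣ 2 * (Y + 2) + R) (hg : IsCoprime (r : ℤ) gam) :
    ∃ ρ : ℤ, ∀ x t i : ℤ, 2 * t * Y + 2 * φ - i * (R - 4) = 2 * φ + gam * x →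
      (r : ℤ) ∣ (2 * (o + 2 * i) + (t + i) * Y + 1 * φ) - w0 → (r : ℤ) ∣ x - ρ := by
  obtain ⟨ρ, hρ⟩ := K1.lin_class hg (2 * φ + 4 * o) (2 * w0)
  refine ⟨ρ, fun x t i hx h2 => hρ x ?_⟩
  have e1 : (2 * φ + 4 * o + gam * x) - 2 * w0 =
      2 * ((2 * (o + 2 * i) + (t + i) * Y + 1 * φ) - w0) - i * (2 * (Y + 2) + R) := by
    linear_combination -hx
  rw [e1]
  exact dvd_sub (h2.mul_left _) (h1.mul_left _)

theorem K2.cl_lock {r : ℕ} {R gam o w0 : ℤ} (hr : r.Prime) (hr2 : r ≠ 2)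
    (h1 : (r : ℤ) ∣ Y) (h2 : (r : ℤ) ∣ R - 2) (hg : IsCoprime (r : ℤ) gam) :
    ∃ ρ : ℤ, ∀ x t i : ℤ, 2 * t * Y + 2 * φ - i * (R - 4) = 2 * φ + gam * x →
      (r : ℤ) ∣ (2 * (o + 2 * i) + (t + i) * Y + 1 * φ) - w0 → (r : ℤ) ∣ x - ρ := by
  have h4 : IsCoprime (r : ℤ) (4 * gam) := by
    refine IsCoprime.mul_right ?_ hg
    have h5 : IsCoprime (r : ℤ) 2 :=
      ((Nat.prime_iff_prime_int.1 hr).coprime_iff_not_dvd).2 (oddp_ndvd_two hr hr2)
    have h6 := h5.mul_right h5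
    norm_num at h6
    exact h6
  obtain ⟨ρ, hρ⟩ := K1.lin_class h4 (2 * φ + 4 * o) (2 * w0)
  refine ⟨ρ, fun x t i hx h3 => hρ x ?_⟩
  have e1 : (2 * φ + 4 * o + 4 * gam * x) - 2 * w0 =
      2 * ((2 * (o + 2 * i) + (t + i) * Y + 1 * φ) - w0) - i * 4 * (R - 2) +
        (6 * t - 2 * i) * Y := by
    linear_combination (-4) * hx
  rw [e1]
  exact dvd_add (dvd_sub (h3.mul_left _) (h2.mul_left _)) (h1.mul_left _)

/-- the class of `W` at an odd prime `r ∣ a`; the second class (zero) is needed for the condition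
on `D` only if `r = 3`, `9 ∣ e`, `3 ∥ f` -/
theorem KF.w_class (h : KF 2 S a' b c A a e f Y φ l p l' p') {N : ℕ} (hN : N.Prime)
    (hv : a + A + a' = N) {r : ℕ} (hr : r.Prime) (hr2 : r ≠ 2) (hra : (r : ℤ) ∣ a)
    (hN1 : (r : ℤ) ∣ e → (r : ℤ) ∣ b → ¬ (r : ℤ) ∣ A → ¬ (r : ℤ) ∣ f)
    (hN3 : (3 : ℤ) ∣ e → ¬ (3 : ℤ) ∣ A → ¬ (3 : ℤ) ∣ b → ¬ (3 : ℤ) ∣ b - A → ¬ (3 : ℤ) ∣ f) :
    ∃ w0 : ℤ, ∀ q τ W κ : ℤ, W = 2 * q + τ * Y + 1 * φ →
      IsC S.L (xvK S l' p' 1 q τ) κ → ¬ (r : ℤ) ∣ W - w0 →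
      (∀ k : ℕ, (r : ℤ) ^ k ∣ κ → (r : ℤ) ^ k ∣ A + 1 * c) ∧
      (((r = 3 ∧ (9 : ℤ) ∣ e ∧ ¬ (3 : ℤ) ∣ A ∧ ¬ (3 : ℤ) ∣ b ∧ (3 : ℤ) ∣ b - A) →
        ¬ (r : ℤ) ∣ W) → (r : ℤ) ∣ κ → ∀ D : Z2,
        κ • D = (a + (A + 1 * c)) • xvK S l' p' 1 q τ → ¬ Dz r D) := by
  have hK : ¬ (r : ℤ) ∣ 2 := oddp_ndvd_two hr hr2
  have hdv : ∀ {q τ W κ : ℤ}, W = 2 * q + τ * Y + 1 * φ → IsC S.L (xvK S l' p' 1 q τ) κ →
      (r : ℤ) ∣ κ → (r : ℤ) ∣ W * e ∧ (r : ℤ) ∣ (1 + 2) * b + 1 * a - W * f := by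
    intro q τ W κ hW hκ hd
    obtain ⟨h1, h2⟩ := (h.xgap hW hκ).1 hd
    exact ⟨(dvd_mul_left _ _).trans h1, (dvd_mul_left _ _).trans h2⟩
  have hone : ∀ {κ : ℤ}, ¬ (r : ℤ) ∣ κ → ∀ k : ℕ, (r : ℤ) ^ k ∣ κ → (r : ℤ) ^ k ∣ A + 1 * c := by
    intro κ hκ k hk
    rcases Nat.eq_zero_or_pos k with h0 | h0
    · rw [h0, pow_zero]; exact one_dvd _
    · exact absurd ((dvd_pow_self _ h0.ne').trans hk) hκ
  by_cases hre : (r : ℤ) ∣ e
  · have hrA := h.e_not hN hv hr hK hra hre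
    by_cases hrf : (r : ℤ) ∣ f
    · have hrb : ¬ (r : ℤ) ∣ b := fun h1 => hN1 hre h1 hrA hrf
      by_cases hr3 : r = 3
      · subst hr3
        have e3 : ((3 : ℕ) : ℤ) = 3 := rfl
        rw [e3] at hre hrA hrf hrb hra hK
        have hD0 : (3 : ℤ) ∣ a + b - A := by
          have h1 : (3 : ℤ) ∣ b - A := by
            by_contra h1
            exact hN3 hre hrA hrb h1 hrf
          have e1 : a + b - A = a + (b - A) := by ring
          rw [e1]; exact dvd_add hra h1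
        have hbA : (3 : ℤ) ∣ b - A := by
          have e1 : b - A = (a + b - A) - a := by ring
          rw [e1]; exact dvd_sub hD0 hra
        have hu : ¬ Dz 3 S.u := fun h1 => hrA (by rw [← h.hA]; exact h1.cr_left _)
        have hA3 : (3 : ℤ) ∣ A + 1 * c := by
          have := h.three_A (n := 1) (r := 3) Nat.prime_three (by exact_mod_cast hK)
            (by norm_num) (by exact_mod_cast hre)
          exact_mod_cast this
        have hn9 : ¬ ((3 : ℕ) : ℤ) ^ 2 ∣ 1 + 2 := by norm_num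
        have fin : ∀ {q τ W κ : ℤ}, W = 2 * q + τ * Y + 1 * φ →
            IsC S.L (xvK S l' p' 1 q τ) κ → ¬ ((3 : ℕ) : ℤ) ^ 2 ∣ κ →
            (∀ k : ℕ, ((3 : ℕ) : ℤ) ^ k ∣ κ → ((3 : ℕ) : ℤ) ^ k ∣ A + 1 * c) ∧
            (¬ (3 : ℤ) ∣ W → ((3 : ℕ) : ℤ) ∣ κ → ∀ D : Z2,
              κ • D = (a + (A + 1 * c)) • xvK S l' p' 1 q τ → ¬ Dz (3 : ℕ) D) := by
          intro q τ W κ hW hκ h9
          constructor
          · intro k hk
            rcases Nat.lt_or_ge k 2 with h1 | h1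
            · interval_cases k
              · simp
              · simpa using hA3
            · exact absurd ((pow_dvd_pow _ h1).trans hk) h9
          · intro hW3 hκ3 D hD
            exact h.three_D (n := 1) hW (r := 3) Nat.prime_three (by exact_mod_cast hK)
              (by exact_mod_cast hra) (by exact_mod_cast hrA) (by exact_mod_cast hre)
              (by exact_mod_cast hD0) (by norm_num) hn9 (by exact_mod_cast hu) hκ3
              (by exact_mod_cast hW3) hD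
        by_cases he9 : (9 : ℤ) ∣ e
        · by_cases hf9 : (9 : ℤ) ∣ f
          · refine ⟨0, fun q τ W κ hW hκ hw => ?_⟩
            rw [sub_zero] at hw
            obtain ⟨h1, h2⟩ := fin hW hκ (h.three_kap hW hκ (r := 3) Nat.prime_three
              (by exact_mod_cast hrb) (by exact_mod_cast hrA) hn9
              (Or.inl ⟨by norm_num; exact he9, by norm_num; exact hf9⟩))
            exact ⟨h1, fun _ => h2 (by exact_mod_cast hw)⟩
          · obtain ⟨ρ, hρ⟩ := three_class (r := 3) Nat.prime_three (x := (1 + 2) * b) (f := f)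
              (by norm_num) (by exact_mod_cast hrf) (by norm_num; exact hf9)
            refine ⟨ρ, fun q τ W κ hW hκ hw => ?_⟩
            obtain ⟨h1, h2⟩ := fin hW hκ (h.three_kap hW hκ (r := 3) Nat.prime_three
              (by exact_mod_cast hrb) (by exact_mod_cast hrA) hn9
              (Or.inr (Or.inr ⟨by norm_num; exact he9, fun h3 => hw (hρ W h3)⟩)))
            refine ⟨h1, fun h3 => h2 ?_⟩
            exact_mod_cast h3 ⟨rfl, he9, hrA, hrb, hbA⟩
        · refine ⟨0, fun q τ W κ hW hκ hw => ?_⟩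
          rw [sub_zero] at hw
          obtain ⟨h1, h2⟩ := fin hW hκ (h.three_kap hW hκ (r := 3) Nat.prime_three
            (by exact_mod_cast hrb) (by exact_mod_cast hrA) hn9
            (Or.inr (Or.inl ⟨by norm_num; exact he9, hw⟩)))
          exact ⟨h1, fun _ => h2 (by exact_mod_cast hw)⟩
      · -- `r ≠ 3`: nothing
        refine ⟨0, fun q τ W κ hW hκ _ => ?_⟩
        have hκr : ¬ (r : ℤ) ∣ κ := by
          intro hd
          obtain ⟨-, h2⟩ := hdv hW hκ hd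
          have h3 : (r : ℤ) ∣ 3 * b := by
            have e1 : 3 * b = ((1 + 2) * b + 1 * a - W * f) - a + W * f := by ring
            rw [e1]; exact dvd_add (dvd_sub h2 hra) (hrf.mul_left _)
          rcases pdvd_mul hr h3 with h4 | h4
          · have h5 : r ∣ 3 := by exact_mod_cast h4
            exact hr3 ((Nat.prime_dvd_prime_iff_eq hr Nat.prime_three).1 h5)
          · exact hrb h4
        exact ⟨hone hκr, fun _ h1 => absurd h1 hκr⟩
    · obtain ⟨α, β, hαβ⟩ := ((Nat.prime_iff_prime_int.1 hr).coprime_iff_not_dvd).2 hrf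
      refine ⟨β * ((1 + 2) * b + 1 * a), fun q τ W κ hW hκ hw => ?_⟩
      have hκr : ¬ (r : ℤ) ∣ κ := by
        intro hd
        apply hw
        obtain ⟨-, k, hk⟩ := hdv hW hκ hd
        refine ⟨α * W - β * k, ?_⟩
        linear_combination (-W) * hαβ - β * hk
      exact ⟨hone hκr, fun _ h1 => absurd h1 hκr⟩
  · refine ⟨0, fun q τ W κ hW hκ hw => ?_⟩
    rw [sub_zero] at hw
    have hκr : ¬ (r : ℤ) ∣ κ := by
      intro hd
      obtain ⟨h1, -⟩ := hdv hW hκ hd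
      exact hw ((pdvd_mul hr h1).resolve_right hre)
    exact ⟨hone hκr, fun _ h1 => absurd h1 hκr⟩

/-! ## The choice of `(t, i)` at a given index `x` -/

/-- the odd primes which need a class of the index `x` -/
def K2.oddP (g1 m1 n0 : ℕ) : Finset ℕ :=
  (n0.primeFactors.erase 2) ∪ ((if 3 ∣ m1 then {3} else ∅) ∪
    (if m1.Prime ∧ m1 = g1 + 2 ∧ m1 ∣ g1 * n0 - 2 then {m1} else ∅))

theorem K2.oddP_prime {r : ℕ} (h : r ∈ K2.oddP g1 m1 n0) : r.Prime := by
  unfold K2.oddP at h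
  rw [Finset.mem_union, Finset.mem_union] at h
  rcases h with h | h | h
  · exact Nat.prime_of_mem_primeFactors (Finset.mem_of_mem_erase h)
  · split_ifs at h with h1
    · rw [Finset.mem_singleton.1 h]; exact Nat.prime_three
    · simp at h
  · split_ifs at h with h1
    · rw [Finset.mem_singleton.1 h]; exact h1.1
    · simp at h

/-- a prime of `a` outside `oddP` -/
theorem K2D.out (D : K2D A b c a e Y g1 m1 n0 A0 b0 hh) (hY0 : 0 < Y) {r : ℕ} (hr : r.Prime)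
    (hr2 : r ≠ 2) (hra : (r : ℤ) ∣ a) (hP : r ∉ K2.oddP g1 m1 n0) :
    ¬ (r : ℤ) ∣ n0 ∧ (r : ℤ) ∣ m1 ∧ ¬ (r : ℤ) ∣ g1 ∧ r ≠ 3 ∧ (r : ℤ) ∣ e ∧ ¬ (r : ℤ) ∣ b ∧
      ¬ (m1.Prime ∧ m1 = g1 + 2 ∧ m1 ∣ g1 * n0 - 2 ∧ r = m1) := by
  have hn0 : n0 ≠ 0 := by
    intro h0
    have h1 := D.hY
    rw [h0] at h1; push_cast at h1; linarith
  unfold K2.oddP at hP
  rw [Finset.mem_union, Finset.mem_union, not_or, not_or, Finset.mem_erase,
    Nat.mem_primeFactors] at hP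
  obtain ⟨h1, h2, h3⟩ := hP
  have hrn : ¬ r ∣ n0 := fun h => h1 ⟨hr2, hr, h, hn0⟩
  have hhh : ¬ r ∣ hh := by
    intro h
    have h4 : r ∣ 2 ^ 2 := h.trans D.h4
    exact hr2 ((Nat.prime_dvd_prime_iff_eq hr Nat.prime_two).1 (hr.dvd_of_dvd_pow h4))
  have hrb : ¬ r ∣ b0 := fun h => hrn (h.trans D.bn)
  have hm : r ∣ m1 := by
    have h4 : r ∣ m1 * (hh * b0) := by
      have h5 : (r : ℤ) ∣ ((m1 * (hh * b0) : ℕ) : ℤ) := by push_cast; rw [← D.ha]; exact hra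
      exact_mod_cast h5
    rcases (Nat.Prime.dvd_mul hr).1 h4 with h5 | h5
    · exact h5
    · rcases (Nat.Prime.dvd_mul hr).1 h5 with h6 | h6
      · exact absurd h6 hhh
      · exact absurd h6 hrb
  have hg : ¬ r ∣ g1 := fun h => Nat.Prime.one_lt hr |>.ne' (Nat.dvd_one.1 (by
    have h6 := Nat.dvd_gcd h hm
    rwa [D.co] at h6))
  refine ⟨by exact_mod_cast hrn, by exact_mod_cast hm, by exact_mod_cast hg, ?_, ?_, ?_, ?_⟩
  · intro h4
    subst h4
    apply h2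
    rw [if_pos hm]; exact Finset.mem_singleton_self 3
  · rw [D.he]; exact Dvd.dvd.mul_right (by exact_mod_cast hm) _
  · intro h4
    have h5 : r ∣ g1 * (hh * b0) := by
      have h6 : (r : ℤ) ∣ ((g1 * (hh * b0) : ℕ) : ℤ) := by push_cast; rw [← D.hb]; exact h4
      exact_mod_cast h6
    rcases (Nat.Prime.dvd_mul hr).1 h5 with h6 | h6
    · exact hg h6
    · rcases (Nat.Prime.dvd_mul hr).1 h6 with h7 | h7
      · exact hhh h7
      · exact hrb h7
  · rintro ⟨h4, h5, h6, h7⟩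
    apply h3
    rw [if_pos ⟨h4, h5, h6⟩, h7]; exact Finset.mem_singleton_self m1

theorem K2D.natY (D : K2D A b c a e Y g1 m1 n0 A0 b0 hh) (hY0 : 0 < Y) :
    ((g1 * n0 - 2 : ℕ) : ℤ) = Y := by
  have h1 := D.hY
  have h2 : 2 ≤ g1 * n0 := by
    have h3 : (2 : ℤ) ≤ ((g1 * n0 : ℕ) : ℤ) := by push_cast; rw [← h1]; linarith
    exact_mod_cast h3
  push_cast [Nat.cast_sub h2]
  linarith

/-- a class of `W` at a prime of `oddP` is a class of `x` -/
theorem K2D.cls (D : K2D A b c a e Y g1 m1 n0 A0 b0 hh) (hY0 : 0 < Y) {r : ℕ}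
    (hr2 : r ≠ 2) (hP : r ∈ K2.oddP g1 m1 n0) {gam α β : ℤ} (hα : 2 * Y = gam * α)
    (hβ : (n0 : ℤ) * (g1 + m1) - 4 = gam * β) (φ o w0 : ℤ) :
    ∃ ρ : ℤ, ∀ x t i : ℤ,
      2 * t * Y + 2 * φ - i * ((n0 : ℤ) * (g1 + m1) - 4) = 2 * φ + gam * x →
      (r : ℤ) ∣ (2 * (o + 2 * i) + (t + i) * Y + 1 * φ) - w0 → (r : ℤ) ∣ x - ρ := by
  have hr := K2.oddP_prime hP
  have h2r : ¬ (r : ℤ) ∣ 2 := oddp_ndvd_two hr hr2
  have h4r : ¬ (r : ℤ) ∣ 4 := fun h => by
    have e1 : (4 : ℤ) = 2 * 2 := by norm_num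
    rw [e1] at h
    rcases pdvd_mul hr h with h1 | h1 <;> exact h2r h1
  have co : ¬ (r : ℤ) ∣ gam → IsCoprime (r : ℤ) gam := fun h =>
    ((Nat.prime_iff_prime_int.1 hr).coprime_iff_not_dvd).2 h
  unfold K2.oddP at hP
  rw [Finset.mem_union, Finset.mem_union] at hP
  rcases hP with h | h | h
  · -- `r ∣ n0`
    have hrn : (r : ℤ) ∣ n0 := by
      exact_mod_cast Nat.dvd_of_mem_primeFactors (Finset.mem_of_mem_erase h)
    refine K2.cl_of hr hr2 ?_ (co fun h1 => h4r ?_)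
    · rw [D.hY]
      exact dvd_add ((hrn.mul_left _).mul_left _) (hrn.mul_right _)
    · have h3 : (r : ℤ) ∣ (n0 : ℤ) * (g1 + m1) - 4 := by rw [hβ]; exact h1.mul_right _
      have e1 : (4 : ℤ) = (n0 : ℤ) * (g1 + m1) - ((n0 : ℤ) * (g1 + m1) - 4) := by ring
      rw [e1]; exact dvd_sub (hrn.mul_right _) h3
  · split_ifs at h with h1
    · have hr3 : r = 3 := Finset.mem_singleton.1 h
      have hm : (r : ℤ) ∣ m1 := by rw [hr3]; exact_mod_cast h1
      have h3 : (r : ℤ) ∣ 3 := by rw [hr3]; exact dvd_refl _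
      refine K2.cl_of hr hr2 ?_ (co fun h1 => h4r ?_)
      · rw [D.hY]
        have e1 : 2 * ((g1 : ℤ) * n0) + n0 * (g1 + m1) = 3 * (g1 * n0) + m1 * n0 := by ring
        rw [e1]
        exact dvd_add (h3.mul_right _) (hm.mul_right _)
      · have h5 : (r : ℤ) ∣ (n0 : ℤ) * (g1 + m1) - 4 := by rw [hβ]; exact h1.mul_right _
        have h6 : (r : ℤ) ∣ 2 * Y := by rw [hα]; exact h1.mul_right _
        have h7 : (r : ℤ) ∣ Y := (pdvd_mul hr h6).resolve_left h2r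
        have e1 : (4 : ℤ) = 2 * (m1 * n0) - 2 * ((n0 : ℤ) * (g1 + m1) - 4) + 2 * Y := by
          have := D.hY
          linear_combination -2 * this
        rw [e1]
        exact dvd_add (dvd_sub ((hm.mul_right _).mul_left _) (h5.mul_left _)) (h7.mul_left _)
    · simp at h
  · split_ifs at h with h1
    · have hrm : r = m1 := Finset.mem_singleton.1 h
      obtain ⟨-, h4, h5⟩ := h1
      have h6 : (r : ℤ) ∣ Y := by
        rw [← D.natY hY0, hrm]; exact_mod_cast h5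
      have hm : (r : ℤ) ∣ m1 := by rw [hrm]
      have h7 : (r : ℤ) ∣ (n0 : ℤ) * (g1 + m1) - 2 := by
        have e1 : (n0 : ℤ) * (g1 + m1) - 2 = n0 * m1 + Y := by
          have h8 : (m1 : ℤ) = g1 + 2 := by rw [h4]; push_cast; ring
          have := D.hY
          rw [h8]
          linear_combination -this
        rw [e1]; exact dvd_add (hm.mul_left _) h6
      refine K2.cl_lock hr hr2 h6 h7 (co fun h1 => h2r ?_)
      have h8 : (r : ℤ) ∣ (n0 : ℤ) * (g1 + m1) - 4 := by rw [hβ]; exact h1.mul_right _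
      have e1 : (2 : ℤ) = ((n0 : ℤ) * (g1 + m1) - 2) - ((n0 : ℤ) * (g1 + m1) - 4) := by ring
      rw [e1]; exact dvd_sub h7 h8
    · simp at h

/-- **(C1), (C2)**: at an index `x` outside one class for each prime of `oddP` there are `t, i`,
with the parity of `t + i` prescribed if `α + β` is odd, such that the content of the vector of the
exit divides `A + c` at all odd primes of `a`; outside one more class mod `3` the vector `D` is
not divisible by any odd prime of `κ` and `a` -/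
theorem KF.k2odd (h : KF 2 S a' b c A a e f Y φ l p l' p') {N : ℕ} (hN : N.Prime)
    (hv : a + A + a' = N) (he3 : e < 3 * A)
    (N1 : ∀ r : ℕ, r.Prime → r ≠ 2 → (r : ℤ) ∣ e → (r : ℤ) ∣ b → ¬ (r : ℤ) ∣ A → ¬ (r : ℤ) ∣ f)
    (N3 : (3 : ℤ) ∣ e → ¬ (3 : ℤ) ∣ A → ¬ (3 : ℤ) ∣ b → ¬ (3 : ℤ) ∣ b - A → ¬ (3 : ℤ) ∣ f)
    (D : K2D A b c a e Y g1 m1 n0 A0 b0 hh) {gam α β : ℤ} (hα : 2 * Y = gam * α)
    (hβ : (n0 : ℤ) * (g1 + m1) - 4 = gam * β) (hco : IsCoprime α β) (o : ℤ) :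
    ∃ (ρ : ℕ → ℤ) (ρ3 : ℤ), ∀ x : ℤ, (∀ r ∈ K2.oddP g1 m1 n0, r ≠ 2 → ¬ (r : ℤ) ∣ x - ρ r) →
      ∀ π : ℤ, ∃ t i : ℤ,
        2 * t * Y + 2 * φ - i * ((n0 : ℤ) * (g1 + m1) - 4) = 2 * φ + gam * x ∧
        (2 ∣ α + β ∨ 2 ∣ t + i - π) ∧
        ∀ κ, IsC S.L (xvK S l' p' 1 (o + 2 * i) (t + i)) κ →
          (∀ r : ℕ, r.Prime → r ≠ 2 → (r : ℤ) ∣ a → ∀ k : ℕ, (r : ℤ) ^ k ∣ κ →
            (r : ℤ) ^ k ∣ A + 1 * c) ∧
          ((9 ∣ m1 → ¬ 3 ∣ b0 → 3 ∣ b0 - A0 → ¬ (3 : ℤ) ∣ x - ρ3) → ∀ D' : Z2,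
            κ • D' = (a + (A + 1 * c)) • xvK S l' p' 1 (o + 2 * i) (t + i) →
            ∀ r : ℕ, r.Prime → r ≠ 2 → (r : ℤ) ∣ κ → (r : ℤ) ∣ a → ¬ Dz r D') := by
  classical
  -- the classes of `W`
  have hw : ∀ r : ℕ, ∃ w0 : ℤ, r.Prime → r ≠ 2 → (r : ℤ) ∣ a → ∀ q τ W κ : ℤ,
      W = 2 * q + τ * Y + 1 * φ →
      IsC S.L (xvK S l' p' 1 q τ) κ → ¬ (r : ℤ) ∣ W - w0 →
      (∀ k : ℕ, (r : ℤ) ^ k ∣ κ → (r : ℤ) ^ k ∣ A + 1 * c) ∧
      (((r = 3 ∧ (9 : ℤ) ∣ e ∧ ¬ (3 : ℤ) ∣ A ∧ ¬ (3 : ℤ) ∣ b ∧ (3 : ℤ) ∣ b - A) →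
        ¬ (r : ℤ) ∣ W) → (r : ℤ) ∣ κ → ∀ D : Z2,
        κ • D = (a + (A + 1 * c)) • xvK S l' p' 1 q τ → ¬ Dz r D) := by
    intro r
    by_cases h1 : r.Prime ∧ r ≠ 2 ∧ (r : ℤ) ∣ a
    · obtain ⟨w0, hw⟩ := h.w_class hN hv h1.1 h1.2.1 h1.2.2 (N1 r h1.1 h1.2.1) N3
      exact ⟨w0, fun _ _ _ => hw⟩
    · exact ⟨0, fun h2 h3 h4 => absurd ⟨h2, h3, h4⟩ h1⟩
  choose w hw using hw
  have hρ : ∀ r : ℕ, ∃ ρ : ℤ, r ∈ K2.oddP g1 m1 n0 → r ≠ 2 → ∀ x t i : ℤ,
      2 * t * Y + 2 * φ - i * ((n0 : ℤ) * (g1 + m1) - 4) = 2 * φ + gam * x →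
      (r : ℤ) ∣ (2 * (o + 2 * i) + (t + i) * Y + 1 * φ) - w r → (r : ℤ) ∣ x - ρ := by
    intro r
    by_cases h1 : r ∈ K2.oddP g1 m1 n0 ∧ r ≠ 2
    · obtain ⟨ρ, hρ⟩ := D.cls h.Y0 h1.2 h1.1 hα hβ φ o (w r)
      exact ⟨ρ, fun _ _ => hρ⟩
    · exact ⟨0, fun h2 h3 => absurd ⟨h2, h3⟩ h1⟩
  choose ρ hρ using hρ
  have hρ3 : ∃ ρ3 : ℤ, 3 ∣ m1 → ∀ x t i : ℤ,
      2 * t * Y + 2 * φ - i * ((n0 : ℤ) * (g1 + m1) - 4) = 2 * φ + gam * x →
      (3 : ℤ) ∣ (2 * (o + 2 * i) + (t + i) * Y + 1 * φ) → (3 : ℤ) ∣ x - ρ3 := by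
    by_cases h1 : 3 ∣ m1
    · have hP : 3 ∈ K2.oddP g1 m1 n0 := by
        unfold K2.oddP
        rw [Finset.mem_union, Finset.mem_union, if_pos h1]
        exact Or.inr (Or.inl (Finset.mem_singleton_self 3))
      obtain ⟨ρ3, h3⟩ := D.cls h.Y0 (r := 3) (by norm_num) hP hα hβ φ o 0
      exact ⟨ρ3, fun _ x t i h4 h5 => by
        have := h3 x t i h4 (by rw [sub_zero]; exact_mod_cast h5)
        exact_mod_cast this⟩
    · exact ⟨0, fun h2 => absurd h2 h1⟩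
  obtain ⟨ρ3, hρ3⟩ := hρ3
  refine ⟨ρ, ρ3, fun x hx π => ?_⟩
  obtain ⟨u, v, huv⟩ := hco
  -- the choice of `k`
  have hk : ∀ r : ℕ, ∃ k : ℤ,
      (r = 2 → ¬ (2 : ℤ) ∣ α + β → (2 : ℤ) ∣ u * x - v * x + k * (α + β) - π) ∧
      (r.Prime → r ≠ 2 → r ≠ 3 → ¬ (r : ℤ) ∣ Y → ¬ (r : ℤ) ∣ n0 → (r : ℤ) ∣ m1 →
        ¬ (r : ℤ) ∣ g1 →
        (r : ℤ) ∣ (2 * φ + gam * x + 4 * o + (-v * x + k * α) * (n0 * (3 * g1 + m1))) -
          2 * (w r + 1)) := by
    intro r
    by_cases h2 : r = 2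
    · by_cases h3 : (2 : ℤ) ∣ α + β
      · exact ⟨0, fun _ h4 => absurd h3 h4, fun _ h4 => absurd h2 h4⟩
      · exact ⟨π - u * x + v * x, fun _ _ => by
          have h5 : (2 : ℤ) ∣ (α + β) - 1 := by omega
          have e1 : u * x - v * x + (π - u * x + v * x) * (α + β) - π =
              (π - u * x + v * x) * ((α + β) - 1) := by ring
          rw [e1]; exact h5.mul_left _, fun _ h4 => absurd h2 h4⟩
    · by_cases h3 : r.Prime ∧ r ≠ 3 ∧ ¬ (r : ℤ) ∣ Y ∧ ¬ (r : ℤ) ∣ n0 ∧ (r : ℤ) ∣ m1 ∧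
        ¬ (r : ℤ) ∣ g1
      · obtain ⟨hr, hr3, hrY, hrn, hrm, hrg⟩ := h3
        have hri := Nat.prime_iff_prime_int.1 hr
        have h2r : ¬ (r : ℤ) ∣ 2 := oddp_ndvd_two hr h2
        have hα' : IsCoprime (r : ℤ) α := (hri.coprime_iff_not_dvd).2 fun h5 => by
          have h6 : (r : ℤ) ∣ 2 * Y := by rw [hα]; exact h5.mul_left _
          exact hrY ((pdvd_mul hr h6).resolve_left h2r)
        have hn' : IsCoprime (r : ℤ) n0 := (hri.coprime_iff_not_dvd).2 hrn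
        have hg' : IsCoprime (r : ℤ) (3 * g1 + m1) := (hri.coprime_iff_not_dvd).2 fun h5 => by
          have h6 : (r : ℤ) ∣ 3 * g1 := (dvd_add_left hrm).1 h5
          rcases pdvd_mul hr h6 with h7 | h7
          · have h8 : r ∣ 3 := by exact_mod_cast h7
            exact hr3 ((Nat.prime_dvd_prime_iff_eq hr Nat.prime_three).1 h8)
          · exact hrg h7
        obtain ⟨s, s', hs⟩ := hα'.mul_right (hn'.mul_right hg')
        refine ⟨s' * (2 * (w r + 1) - (2 * φ + gam * x + 4 * o + (-v * x) *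
          (n0 * (3 * g1 + m1)))), fun h4 => absurd h4 h2, fun _ _ _ _ _ _ _ => ?_⟩
        refine ⟨-s * (2 * (w r + 1) - (2 * φ + gam * x + 4 * o + (-v * x) *
          (n0 * (3 * g1 + m1)))), ?_⟩
        linear_combination (2 * (w r + 1) - (2 * φ + gam * x + 4 * o + (-v * x) *
          (n0 * (3 * g1 + m1)))) * hs
      · exact ⟨0, fun h4 => absurd h4 h2, fun h4 _ h5 h6 h7 h8 h9 =>
          absurd ⟨h4, h5, h6, h7, h8, h9⟩ h3⟩
  choose kr hkr using hk
  obtain ⟨k, hk⟩ := crt_primes (insert 2 e.natAbs.primeFactors) (fun r hr => by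
      rcases Finset.mem_insert.1 hr with h1 | h1
      · rw [h1]; exact Nat.prime_two
      · exact Nat.prime_of_mem_primeFactors h1) (fun _ => 1) kr
  refine ⟨u * x + k * β, -v * x + k * α, ?_, ?_, fun κ hκ => ?_⟩
  · linear_combination (u * x + k * β) * hα - (-v * x + k * α) * hβ + gam * x * huv
  · by_cases h3 : (2 : ℤ) ∣ α + β
    · exact Or.inl h3
    · right
      have h4 := (hkr 2).1 rfl h3
      have h5 := hk 2 (Finset.mem_insert_self _ _)
      rw [pow_one] at h5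
      have e1 : u * x + k * β + (-v * x + k * α) - π =
          (u * x - v * x + kr 2 * (α + β) - π) + (k - kr 2) * (α + β) := by ring
      rw [e1]
      exact dvd_add h4 (Dvd.dvd.mul_right (by exact_mod_cast h5) _)
  · -- the odd primes
    set t := u * x + k * β with ht
    set i := -v * x + k * α with hi
    have hti : 2 * t * Y + 2 * φ - i * ((n0 : ℤ) * (g1 + m1) - 4) = 2 * φ + gam * x := by
      rw [ht, hi]
      linear_combination (u * x + k * β) * hα - (-v * x + k * α) * hβ + gam * x * huv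
    have hW : (2 * (o + 2 * i) + (t + i) * Y + 1 * φ) = 2 * (o + 2 * i) + (t + i) * Y + 1 * φ :=
      rfl
    have key : ∀ r : ℕ, r.Prime → r ≠ 2 → (r : ℤ) ∣ a →
        (¬ (r : ℤ) ∣ (2 * (o + 2 * i) + (t + i) * Y + 1 * φ) - w r) ∨
        (r ≠ 3 ∧ ¬ (r : ℤ) ∣ κ) := by
      intro r hr hr2 hra
      by_cases hP : r ∈ K2.oddP g1 m1 n0
      · exact Or.inl fun h5 => hx r hP hr2 (hρ r hP hr2 x t i hti h5)
      · obtain ⟨k1, k2, k3, k4, k5, k6, k7⟩ := D.out h.Y0 hr hr2 hra hP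
        by_cases hrY : (r : ℤ) ∣ Y
        · -- `r ∣ f`
          right
          refine ⟨k4, fun hd => ?_⟩
          have hrA := h.e_not hN hv hr (oddp_ndvd_two hr hr2) hra k5
          have hrf : (r : ℤ) ∣ f := by
            rcases h.ft2 he3 hr k5 hrA hrY with h5 | ⟨-, h5⟩
            · exact h5
            · exfalso
              have hA0 : (0 : ℤ) < A0 := by exact_mod_cast D.A00
              have hh0 : (0 : ℤ) < hh := by exact_mod_cast D.h0
              have h6 : (m1 : ℤ) * (r - 2) = r * g1 := by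
                have h7 : (hh : ℤ) * A0 * (m1 * (r - 2)) = hh * A0 * (r * g1) := by
                  have := D.he; have h8 := D.hA
                  rw [this, h8] at h5
                  linear_combination h5
                exact mul_left_cancel₀ (by positivity) h7
              have h7 : m1 ∣ r := by
                have h8 : (m1 : ℤ) ∣ ((r * g1 : ℕ) : ℤ) := by
                  push_cast; rw [← h6]; exact dvd_mul_right _ _
                have h9 : m1 ∣ r * g1 := by exact_mod_cast h8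
                exact (Nat.Coprime.dvd_of_dvd_mul_right D.co.symm h9)
              have h8 : r ∣ m1 := by exact_mod_cast k2
              have h9 : m1 = r := Nat.dvd_antisymm h7 h8
              have hr0 : (0 : ℤ) < r := by exact_mod_cast hr.pos
              have h10 : (r : ℤ) - 2 = g1 := by
                rw [h9] at h6
                exact mul_left_cancel₀ hr0.ne' h6
              refine k7 ⟨h9 ▸ hr, ?_, ?_, h9.symm⟩
              · have h11 : (m1 : ℤ) = g1 + 2 := by rw [h9]; linarith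
                exact_mod_cast h11
              · have h11 : (m1 : ℤ) ∣ ((g1 * n0 - 2 : ℕ) : ℤ) := by
                  rw [D.natY h.Y0, h9]; exact hrY
                exact_mod_cast h11
          have h6 : (r : ℤ) ∣ (1 + 2) * b + 1 * a -
              (2 * (o + 2 * i) + (t + i) * Y + 1 * φ) * f :=
            (dvd_mul_left _ _).trans ((h.xgap hW hκ).1 hd).2
          have h7 : (r : ℤ) ∣ 3 * b := by
            have e1 : 3 * b = ((1 + 2) * b + 1 * a -
              (2 * (o + 2 * i) + (t + i) * Y + 1 * φ) * f) - a +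
              (2 * (o + 2 * i) + (t + i) * Y + 1 * φ) * f := by ring
            rw [e1]; exact dvd_add (dvd_sub h6 hra) (hrf.mul_left _)
          rcases pdvd_mul hr h7 with h8 | h8
          · have h9 : r ∣ 3 := by exact_mod_cast h8
            exact k4 ((Nat.prime_dvd_prime_iff_eq hr Nat.prime_three).1 h9)
          · exact k6 h8
        · left
          intro h5
          have h6 := (hkr r).2 hr hr2 k4 hrY k1 k2 k3
          have h7 : (r : ℤ) ∣ k - kr r := by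
            have := hk r (Finset.mem_insert_of_mem (by
              rw [Nat.mem_primeFactors]
              exact ⟨hr, Int.natCast_dvd.1 k5, by simpa using h.e0.ne'⟩))
            rwa [pow_one] at this
          apply oddp_ndvd_two hr hr2
          have e1 : (2 : ℤ) = 2 * ((2 * (o + 2 * i) + (t + i) * Y + 1 * φ) - w r) -
              ((2 * φ + gam * x + 4 * o + (-v * x + kr r * α) * (n0 * (3 * g1 + m1))) -
                2 * (w r + 1)) - (k - kr r) * (α * (n0 * (3 * g1 + m1))) := by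
            have hY := D.hY
            rw [hi] at hti ⊢
            linear_combination (-1 : ℤ) * hti - 2 * (-v * x + k * α) * hY
          rw [e1]
          exact dvd_sub (dvd_sub (h5.mul_left _) h6) (h7.mul_right _)
    constructor
    · intro r hr hr2 hra
      rcases key r hr hr2 hra with h5 | ⟨-, h5⟩
      · exact (hw r hr hr2 hra _ _ _ κ hW hκ h5).1
      · intro j hj
        rcases Nat.eq_zero_or_pos j with h0 | h0
        · rw [h0, pow_zero]; exact one_dvd _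
        · exact absurd ((dvd_pow_self _ h0.ne').trans hj) h5
    · intro h3 D' hD' r hr hr2 hrκ hra
      rcases key r hr hr2 hra with h5 | ⟨-, h5⟩
      · refine (hw r hr hr2 hra _ _ _ κ hW hκ h5).2 ?_ hrκ D' hD'
        rintro ⟨e3, h9, hA3, hb3, hbA⟩
        rw [e3]
        intro h6
        have h6' : (3 : ℤ) ∣ (2 * (o + 2 * i) + (t + i) * Y + 1 * φ) := by exact_mod_cast h6
        have hu : IsCoprime (3 : ℤ) (hh * A0) := (Int.prime_three.coprime_iff_not_dvd).2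
          fun h7 => hA3 (by rw [D.hA]; exact h7.mul_left _)
        have hm9 : 9 ∣ m1 := by
          have h8 : IsCoprime (9 : ℤ) (hh * A0) := by
            have e9 : (9 : ℤ) = 3 ^ 2 := by norm_num
            rw [e9]; exact hu.pow_left
          rw [D.he] at h9
          have h10 := h8.dvd_of_dvd_mul_right h9
          exact_mod_cast h10
        refine h3 hm9 ?_ ?_ (hρ3 ((by norm_num : (3 : ℕ) ∣ 9).trans hm9) x t i hti h6')
        · intro h7
          apply hb3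
          rw [D.hb]
          exact Dvd.dvd.mul_left (Dvd.dvd.mul_left (by exact_mod_cast h7) _) _
        · have h7 : (3 : ℤ) ∣ (g1 * hh : ℤ) * (b0 - A0) := by
            have e1 : (g1 * hh : ℤ) * (b0 - A0) = b - A := by rw [D.hb, D.hA]; ring
            rw [e1]; exact hbA
          have h8 : (3 : ℤ) ∣ (b0 : ℤ) - A0 := by
            refine (Int.prime_three.dvd_or_dvd h7).resolve_left fun h8 => hA3 ?_
            rw [D.hA, ← mul_assoc]; exact h8.mul_right _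
          have h9 : ((b0 - A0 : ℕ) : ℤ) = (b0 : ℤ) - A0 := by
            rw [Nat.cast_sub D.Ab0.le]
          have h10 : (3 : ℤ) ∣ ((b0 - A0 : ℕ) : ℤ) := by rw [h9]; exact h8
          exact_mod_cast h10
      · exact absurd hrκ h5

end Pool.Agent.H4G
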