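import Pool.Agent.H4G.Arith.K2Odd
import Pool.Agent.H4G.Arith.K2End5

/-!
# LINE B, `K = 2`, level one: the odd primes in the form of `K2End5` (helper29)
-/

set_option autoImplicit false

namespace Pool.Agent.H4G

variable {S : PSt} {a' b c A a e f Y φ : ℤ} {l p l' p' : Z2} {g1 m1 n0 A0 b0 hh : ℕ}

theorem K2D.R_eq (D : K2D A b c a e Y g1 m1 n0 A0 b0 hh) {R : ℤ}
    (hR : A * R = 2 * ((Y + 2) * c)) : R = (n0 : ℤ) * (g1 + m1) := by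
  have h1 : (0 : ℤ) < g1 * (hh * A0) := by
    have := D.g0; have := D.h0; have := D.A00
    positivity
  refine mul_left_cancel₀ h1.ne' ?_
  have h2 := D.hA; have h3 := D.hc; have h4 := D.hY
  rw [← h2, hR, h4]
  linear_combination (g1 : ℤ) * n0 * h3 - (n0 : ℤ) * (g1 + m1) * h2

theorem K2D.A_R (D : K2D A b c a e Y g1 m1 n0 A0 b0 hh) :
    A * ((n0 : ℤ) * (g1 + m1)) = 2 * ((Y + 2) * c) := by
  have h2 := D.hA; have h3 := D.hc; have h4 := D.hY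
  rw [h4]
  linear_combination (n0 : ℤ) * (g1 + m1) * h2 - (g1 : ℤ) * n0 * h3

/-- **(C1), (C2)** in the form of `K2End5` -/
theorem KF.k2good (h : KF 2 S a' b c A a e f Y φ l p l' p') {N : ℕ} (hN : N.Prime)
    (hv : a + A + a' = N) (he3 : e < 3 * A)
    (N1 : ∀ r : ℕ, r.Prime → r ≠ 2 → (r : ℤ) ∣ e → (r : ℤ) ∣ b → ¬ (r : ℤ) ∣ A → ¬ (r : ℤ) ∣ f)
    (N3 : (3 : ℤ) ∣ e → ¬ (3 : ℤ) ∣ A → ¬ (3 : ℤ) ∣ b → ¬ (3 : ℤ) ∣ b - A → ¬ (3 : ℤ) ∣ f)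
    (D : K2D A b c a e Y g1 m1 n0 A0 b0 hh) {R gam α β : ℤ} (hR : A * R = 2 * ((Y + 2) * c))
    (hα : 2 * Y = gam * α) (hβ : R - 4 = gam * β) (hco : IsCoprime α β) :
    ∃ (ρ : ℕ → ℤ) (ρ3 : ℤ), ∀ x : ℤ, (∀ r ∈ K2.oddP g1 m1 n0, r ≠ 2 → ¬ (r : ℤ) ∣ x - ρ r) →
      KGood1 S l' p' A c a Y φ R α β gam x ∧
      ((9 ∣ m1 → ¬ 3 ∣ b0 → 3 ∣ b0 - A0 → ¬ (3 : ℤ) ∣ x - ρ3) →
        KGood2 S l' p' A c a Y φ R α β gam x) := by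
  obtain rfl := D.R_eq hR
  obtain ⟨ρ, ρ3, hρ⟩ := h.k2odd hN hv he3 N1 N3 D hα hβ hco 1
  refine ⟨ρ, ρ3, fun x hx => ⟨fun π => ?_, fun h3 π => ?_⟩⟩
  · obtain ⟨t, i, k1, k2, k3⟩ := hρ x hx π
    exact ⟨t, i, k1, k2, fun κ hκ => (k3 κ hκ).1⟩
  · obtain ⟨t, i, k1, k2, k3⟩ := hρ x hx π
    exact ⟨t, i, k1, k2, fun κ hκ => ⟨(k3 κ hκ).1, (k3 κ hκ).2 h3⟩⟩

end Pool.Agent.H4G
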