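import Pool.Agent.H4G.Arith.K2OddG
import Pool.Agent.H4G.Arith.K2Data2
import Pool.Agent.H4G.Arith.K2NumD
import Pool.Agent.H4G.Arith.K1NumW

/-!
# LINE B, `K = 2`: the choice of `x` (helper5)
-/

set_option autoImplicit false

namespace Pool.Agent.H4G

variable {S : PSt} {a' b c A a e f Y φ : ℤ} {l p l' p' : Z2} {g1 m1 n0 A0 b0 hh : ℕ}

/-- the part of `z` prime to `2 A0` -/
theorem K2.exists_zp (A0 : ℕ) (z : ℕ) : 0 < z → ∃ zp : ℕ, 0 < zp ∧ zp ∣ z ∧ ¬ 2 ∣ zp ∧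
    Nat.Coprime zp A0 ∧ ∀ r : ℕ, r.Prime → r ≠ 2 → ¬ r ∣ A0 → ¬ r ∣ z / zp := by
  induction z using Nat.strong_induction_on with
  | _ z ih =>
  intro hz
  by_cases hex : ∃ r : ℕ, r.Prime ∧ r ≠ 2 ∧ ¬ r ∣ A0 ∧ r ∣ z
  · obtain ⟨r, hr, hr2, hrA, z1, rfl⟩ := hex
    have hz1 : 0 < z1 := Nat.pos_of_ne_zero (by rintro rfl; simp at hz)
    have hlt : z1 < r * z1 := by
      have := hr.two_le
      nlinarith
    obtain ⟨zp, k1, k2, k3, k4, k5⟩ := ih z1 hlt hz1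
    refine ⟨r * zp, Nat.mul_pos hr.pos k1, mul_dvd_mul_left r k2, ?_, ?_, ?_⟩
    · intro h2
      rcases (Nat.Prime.dvd_mul Nat.prime_two).1 h2 with h3 | h3
      · exact hr2 ((Nat.prime_dvd_prime_iff_eq Nat.prime_two hr).1 h3).symm
      · exact k3 h3
    · exact Nat.Coprime.mul_left ((Nat.Prime.coprime_iff_not_dvd hr).2 hrA) k4
    · intro s hs hs2 hsA
      rw [Nat.mul_div_mul_left _ _ hr.pos]
      exact k5 s hs hs2 hsA
  · refine ⟨1, one_pos, one_dvd _, by norm_num, Nat.coprime_one_left _, fun r hr hr2 hrA h3 => ?_⟩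
    rw [Nat.div_one] at h3
    exact hex ⟨r, hr, hr2, hrA, h3⟩

/-- two classes modulo an odd prime can be avoided -/
theorem K2.two_classes {r : ℕ} (hr : r.Prime) (hr2 : r ≠ 2) (p q : ℤ) :
    ∃ y : ℤ, ¬ (r : ℤ) ∣ y - p ∧ ¬ (r : ℤ) ∣ y - q := by
  have h1 := prime_not_dvd_one hr
  have h2 := odd_coprime_two hr hr2
  by_cases h3 : (r : ℤ) ∣ (p + 1) - q
  · refine ⟨p + 2, ?_, ?_⟩
    · have e1 : p + 2 - p = 2 := by ring
      rw [e1]; exact h2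
    · intro h4
      apply h1
      have e1 : (1 : ℤ) = (p + 2 - q) - (p + 1 - q) := by ring
      rw [e1]; exact dvd_sub h4 h3
  · refine ⟨p + 1, ?_, h3⟩
    have e1 : p + 1 - p = 1 := by ring
    rw [e1]; exact h1

theorem K2.exists_x0 (P : Finset ℕ) (hP : ∀ r ∈ P, r.Prime ∧ r ≠ 2) (ρ σ : ℕ → ℤ) (x2 : ℤ) :
    ∃ x0 : ℤ, (4 : ℤ) ∣ x0 - x2 ∧ ∀ r ∈ P, ¬ (r : ℤ) ∣ x0 - ρ r ∧ ¬ (r : ℤ) ∣ x0 - σ r := by
  classical
  have hF : ∀ r : ℕ, ∃ y : ℤ, r.Prime → r ≠ 2 → ¬ (r : ℤ) ∣ y - ρ r ∧ ¬ (r : ℤ) ∣ y - σ r := by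
    intro r
    by_cases hr : r.Prime ∧ r ≠ 2
    · obtain ⟨y, hy⟩ := K2.two_classes hr.1 hr.2 (ρ r) (σ r)
      exact ⟨y, fun _ _ => hy⟩
    · exact ⟨0, fun h1 h2 => absurd ⟨h1, h2⟩ hr⟩
  choose F hF using hF
  obtain ⟨x0, hx0⟩ := crt_primes (insert 2 P) (fun r hr => by
      rcases Finset.mem_insert.1 hr with h1 | h1
      · rw [h1]; exact Nat.prime_two
      · exact (hP r h1).1) (fun r => if r = 2 then 2 else 1) (fun r => if r = 2 then x2 else F r)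
  refine ⟨x0, ?_, fun r hr => ?_⟩
  · have := hx0 2 (Finset.mem_insert_self _ _)
    simp only [if_true] at this
    norm_num at this
    exact this
  · obtain ⟨h1, h2⟩ := hP r hr
    have h3 := hx0 r (Finset.mem_insert_of_mem hr)
    simp only [if_neg h2, pow_one] at h3
    obtain ⟨h4, h5⟩ := hF r h1 h2
    constructor
    · intro h6
      apply h4
      have e1 : F r - ρ r = (x0 - ρ r) - (x0 - F r) := by ring
      rw [e1]; exact dvd_sub h6 h3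
    · intro h6
      apply h5
      have e1 : F r - σ r = (x0 - σ r) - (x0 - F r) := by ring
      rw [e1]; exact dvd_sub h6 h3

theorem K2.oddP_odd (hg : 0 < g1) {r : ℕ} (h : r ∈ K2.oddP g1 m1 n0) : r.Prime ∧ r ≠ 2 := by
  refine ⟨K2.oddP_prime h, ?_⟩
  unfold K2.oddP at h
  rw [Finset.mem_union, Finset.mem_union] at h
  rcases h with h | h | h
  · exact (Finset.mem_erase.1 h).1
  · split_ifs at h with h1
    · rw [Finset.mem_singleton.1 h]; norm_num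
    · simp at h
  · split_ifs at h with h1
    · rw [Finset.mem_singleton.1 h]; omega
    · simp at h

theorem K2.oddP_card (hn0 : 0 < n0) : (K2.oddP g1 m1 n0).card ≤ K2.k n0 +
    (if 3 ∣ m1 ∧ ¬ 3 ∣ n0 then 1 else 0) +
    (if m1.Prime ∧ m1 = g1 + 2 ∧ m1 ∣ g1 * n0 - 2 then 1 else 0) := by
  have hL : (if m1.Prime ∧ m1 = g1 + 2 ∧ m1 ∣ g1 * n0 - 2 then ({m1} : Finset ℕ) else ∅).card =
      (if m1.Prime ∧ m1 = g1 + 2 ∧ m1 ∣ g1 * n0 - 2 then 1 else 0) := by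
    split_ifs <;> simp
  unfold K2.oddP K2.k
  rw [← Finset.union_assoc, ← hL]
  refine (Finset.card_union_le _ _).trans (Nat.add_le_add_right ?_ _)
  by_cases h3 : 3 ∣ m1
  · by_cases h4 : 3 ∣ n0
    · have h5 : ({3} : Finset ℕ) ⊆ n0.primeFactors.erase 2 := by
        intro r hr
        rw [Finset.mem_singleton] at hr
        rw [hr, Finset.mem_erase, Nat.mem_primeFactors]
        exact ⟨by norm_num, Nat.prime_three, h4, hn0.ne'⟩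
      rw [if_pos h3, Finset.union_eq_left.2 h5]
      simp [h4]
    · rw [if_pos h3, if_pos ⟨h3, h4⟩]
      refine (Finset.card_union_le _ _).trans ?_
      simp
  · rw [if_neg h3]
    simp [h3]

theorem K2D.n0pos5 (D : K2D A b c a e Y g1 m1 n0 A0 b0 hh) (hY : 3 ≤ Y) : 0 < n0 := by
  refine Nat.pos_of_ne_zero fun h0 => ?_
  have h1 := D.hY
  rw [h0] at h1
  push_cast at h1
  linarith

theorem K2D.Y5 (D : K2D A b c a e Y g1 m1 n0 A0 b0 hh) (hY : 3 ≤ Y) : 5 ≤ g1 * n0 := by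
  have h1 : (5 : ℤ) ≤ ((g1 * n0 : ℕ) : ℤ) := by
    push_cast; rw [← D.hY]; linarith
  exact_mod_cast h1

theorem K2D.num (D : K2D A b c a e Y g1 m1 n0 A0 b0 hh) (hY : 3 ≤ Y) :
    K2.Num g1 m1 n0 A0 b0 :=
  ⟨D.g0, D.gm, D.m3, D.co, D.A00, D.Ab0, D.cAb, D.bn, D.Y5 hY, D.cAm⟩

theorem K2D.R4 (D : K2D A b c a e Y g1 m1 n0 A0 b0 hh) (hY : 3 ≤ Y) : 4 ≤ n0 * (g1 + m1) := by
  have h1 := D.Y5 hY
  have h2 : g1 * n0 ≤ n0 * (g1 + m1) := by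
    rw [mul_comm g1 n0]; exact Nat.mul_le_mul_left n0 (Nat.le_add_right _ _)
  omega

/-- the coprime numbers `α, β` -/
theorem K2D.exists_ab (D : K2D A b c a e Y g1 m1 n0 A0 b0 hh) (hY : 3 ≤ Y) :
    0 < K2.gam g1 m1 n0 ∧ ∃ α β : ℤ, 2 * Y = (K2.gam g1 m1 n0 : ℤ) * α ∧
      (n0 : ℤ) * (g1 + m1) - 4 = (K2.gam g1 m1 n0 : ℤ) * β ∧ IsCoprime α β := by
  have h5 := D.Y5 hY
  have h4 := D.R4 hY
  have hpos : 0 < K2.gam g1 m1 n0 := Nat.gcd_pos_of_pos_left _ (by omega)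
  obtain ⟨α, β, h1, h2, h3⟩ := Nat.exists_coprime (2 * (g1 * n0 - 2)) (n0 * (g1 + m1) - 4)
  refine ⟨hpos, α, β, ?_, ?_, Nat.isCoprime_iff_coprime.2 h1⟩
  · have e1 : ((2 * (g1 * n0 - 2) : ℕ) : ℤ) = 2 * Y := by
      push_cast [Nat.cast_sub (show 2 ≤ g1 * n0 by omega)]
      linarith [D.hY]
    have h2' : ((2 * (g1 * n0 - 2) : ℕ) : ℤ) = ((α * K2.gam g1 m1 n0 : ℕ) : ℤ) :=
      congrArg (Nat.cast : ℕ → ℤ) h2
    rw [← e1, h2']; push_cast; ring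
  · have e1 : ((n0 * (g1 + m1) - 4 : ℕ) : ℤ) = (n0 : ℤ) * (g1 + m1) - 4 := by
      push_cast [Nat.cast_sub h4]
      ring
    have h3' : ((n0 * (g1 + m1) - 4 : ℕ) : ℤ) = ((β * K2.gam g1 m1 n0 : ℕ) : ℤ) :=
      congrArg (Nat.cast : ℕ → ℤ) h3
    rw [← e1, h3']; push_cast; ring

/-- the window in terms of the numbers -/
theorem K2D.winY5 (D : K2D A b c a e Y g1 m1 n0 A0 b0 hh) (hY : 3 ≤ Y) {M G : ℕ}
    (h : M * (g1 * G) ≤ (g1 * n0 - 4) * (g1 + m1)) :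
    (M : ℤ) * (A * (G : ℤ)) ≤ 2 * (Y * c) - 4 * c := by
  have h5 := D.Y5 hY
  have h1 : ((M * (g1 * G) : ℕ) : ℤ) ≤ (((g1 * n0 - 4) * (g1 + m1) : ℕ) : ℤ) := by exact_mod_cast h
  have e1 : (((g1 * n0 - 4) * (g1 + m1) : ℕ) : ℤ) = (Y - 2) * (g1 + m1) := by
    push_cast [Nat.cast_sub (show 4 ≤ g1 * n0 by omega)]
    have := D.hY
    linear_combination (-(g1 : ℤ) - m1) * this
  rw [e1] at h1
  push_cast at h1
  have h2 := mul_le_mul_of_nonneg_left h1 (show (0 : ℤ) ≤ hh * A0 by positivity)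
  have e2 : (hh : ℤ) * A0 * (M * (g1 * G)) = M * (A * G) := by rw [D.hA]; ring
  have e3 : (hh : ℤ) * A0 * ((Y - 2) * (g1 + m1)) = 2 * (Y * c) - 4 * c := by
    linear_combination (-(Y - 2)) * D.hc
  rw [e2, e3] at h2
  exact h2

/-- the choice of `x` -/
theorem K2D.pick (D : K2D A b c a e Y g1 m1 n0 A0 b0 hh) (hA0 : 0 < A) (hY : 3 ≤ Y)
    (ρ : ℕ → ℤ) (φ : ℤ) (E2 : Finset (ℕ × ℤ)) (hE2 : ∀ i ∈ E2, 0 < i.1 ∧ i.1 ∣ 4) (x2 : ℤ)
    (hx2 : ∀ i ∈ E2, ¬ (i.1 : ℤ) ∣ x2 - i.2) (E1 : Finset (ℕ × ℤ))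
    (hE1 : E1 = ∅ ∨ ∃ (m : ℕ) (σ : ℤ), 1 < m ∧ ¬ 2 ∣ m ∧ E1 = {(m, σ)})
    (hnum : 2 ^ ((K2.oddP g1 m1 n0).card + E1.card + E2.card) * (g1 * K2.gam g1 m1 n0) ≤
      (g1 * n0 - 4) * (g1 + m1)) :
    ∃ x : ℤ, 4 * c < A * (2 * φ + (K2.gam g1 m1 n0 : ℤ) * x) ∧
      A * (2 * φ + (K2.gam g1 m1 n0 : ℤ) * x) ≤ 2 * (Y * c) ∧
      (∀ r ∈ K2.oddP g1 m1 n0, ¬ (r : ℤ) ∣ x - ρ r) ∧ (∀ i ∈ E1, ¬ (i.1 : ℤ) ∣ x - i.2) ∧
      ∀ i ∈ E2, ¬ (i.1 : ℤ) ∣ x - i.2 := by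
  classical
  have hgpos := (D.exists_ab hY).1
  -- a common good class
  obtain ⟨x0, h1, h2, h3⟩ : ∃ x0 : ℤ, (4 : ℤ) ∣ x0 - x2 ∧
      (∀ r ∈ K2.oddP g1 m1 n0, ¬ (r : ℤ) ∣ x0 - ρ r) ∧ ∀ i ∈ E1, ¬ (i.1 : ℤ) ∣ x0 - i.2 := by
    rcases hE1 with rfl | ⟨m, σ, hm1, hm2, rfl⟩
    · obtain ⟨x0, k1, k2⟩ := K2.exists_x0 (K2.oddP g1 m1 n0)
        (fun r hr => K2.oddP_odd D.g0 hr) ρ ρ x2
      exact ⟨x0, k1, fun r hr => (k2 r hr).1, by simp⟩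
    · obtain ⟨s, hs, hsm⟩ := Nat.exists_prime_and_dvd (show m ≠ 1 by omega)
      have hs2 : s ≠ 2 := by rintro rfl; exact hm2 hsm
      obtain ⟨x0, k1, k2⟩ := K2.exists_x0 (insert s (K2.oddP g1 m1 n0))
        (fun r hr => by
          rcases Finset.mem_insert.1 hr with h | h
          · rw [h]; exact ⟨hs, hs2⟩
          · exact K2.oddP_odd D.g0 h) ρ (fun _ => σ) x2
      refine ⟨x0, k1, fun r hr => (k2 r (Finset.mem_insert_of_mem hr)).1, fun i hi => ?_⟩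
      rw [Finset.mem_singleton] at hi
      subst hi
      intro h4
      refine (k2 s (Finset.mem_insert_self _ _)).2 (Dvd.dvd.trans ?_ h4)
      exact_mod_cast hsm
  set T : Finset (ℕ × ℤ) := (K2.oddP g1 m1 n0).image (fun r => (r, ρ r)) ∪ (E1 ∪ E2) with hT
  have hcard : T.card ≤ (K2.oddP g1 m1 n0).card + E1.card + E2.card := by
    have k1 := Finset.card_union_le ((K2.oddP g1 m1 n0).image (fun r => (r, ρ r))) (E1 ∪ E2)
    have k2 := Finset.card_union_le E1 E2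
    have k3 : ((K2.oddP g1 m1 n0).image (fun r => (r, ρ r))).card ≤ (K2.oddP g1 m1 n0).card :=
      Finset.card_image_le
    rw [hT]
    omega
  have hposT : ∀ i ∈ T, (0 : ℤ) < (i.1 : ℤ) := by
    intro i hi
    rw [hT, Finset.mem_union, Finset.mem_union] at hi
    rcases hi with hi | hi | hi
    · obtain ⟨r, hr, rfl⟩ := Finset.mem_image.1 hi
      exact_mod_cast (K2.oddP_prime hr).pos
    · rcases hE1 with rfl | ⟨m, σ, hm1, hm2, rfl⟩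
      · simp at hi
      · rw [Finset.mem_singleton] at hi
        subst hi
        exact_mod_cast (show 0 < m by omega)
    · exact_mod_cast (hE2 i hi).1
  have h0T : ∀ i ∈ T, ¬ (i.1 : ℤ) ∣ x0 - i.2 := by
    intro i hi
    rw [hT, Finset.mem_union, Finset.mem_union] at hi
    rcases hi with hi | hi | hi
    · obtain ⟨r, hr, rfl⟩ := Finset.mem_image.1 hi
      exact h2 r hr
    · exact h3 i hi
    · intro h4
      apply hx2 i hi
      have h5 : (i.1 : ℤ) ∣ x0 - x2 := by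
        have h6 : (i.1 : ℤ) ∣ 4 := by exact_mod_cast (hE2 i hi).2
        exact h6.trans h1
      have e1 : x2 - i.2 = (x0 - i.2) - (x0 - x2) := by ring
      rw [e1]; exact dvd_sub h4 h5
  have hn : (2 : ℤ) ^ T.card * (A * (K2.gam g1 m1 n0 : ℤ)) ≤ 2 * (Y * c) - 4 * c := by
    have k1 : 2 ^ T.card * (g1 * K2.gam g1 m1 n0) ≤ (g1 * n0 - 4) * (g1 + m1) :=
      (Nat.mul_le_mul_right _ (Nat.pow_le_pow_right (by norm_num) hcard)).trans hnum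
    have k2 := D.winY5 hY k1
    push_cast at k2
    exact k2
  obtain ⟨x, ⟨k1, k2⟩, k3⟩ := window_avoid T (fun i => (i.1 : ℤ)) (fun i => i.2) hposT h0T hA0
    (g := (K2.gam g1 m1 n0 : ℤ)) (by exact_mod_cast hgpos) (w := 2 * φ) hn
  refine ⟨x, k1, k2, fun r hr => ?_, fun i hi => ?_, fun i hi => ?_⟩
  · exact k3 (r, ρ r) (by
      rw [hT]; exact Finset.mem_union_left _ (Finset.mem_image.2 ⟨r, hr, rfl⟩))
  · exact k3 i (by rw [hT]; exact Finset.mem_union_right _ (Finset.mem_union_left _ hi))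
  · exact k3 i (by rw [hT]; exact Finset.mem_union_right _ (Finset.mem_union_right _ hi))

end Pool.Agent.H4G
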