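import Pool.Agent.H4G.Arith.K2Bad40

/-!
# LINE B, `K = 2`: the type S2 (helper40)
-/

set_option autoImplicit false

namespace Pool.Agent.H4G

variable {S : PSt} {a' b c A a e f Y φ : ℤ} {l p l' p' : Z2} {g1 m1 n0 A0 b0 hh : ℕ}

/-- S2: `b0` is even -/
theorem KF.b0_even (h : KF 2 S a' b c A a e f Y φ l p l' p')
    (D : K2D A b c a e Y g1 m1 n0 A0 b0 hh) (hL : ∀ w ∈ S.L, Dz 2 w)
    (hm2 : ¬ 2 ∣ m1) (hh2 : hh = 2) : 2 ∣ b0 := by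
  obtain ⟨l1, hl1⟩ := hL l (by rw [h.L_eq]; exact mem_lat.2 ⟨1, 0, by module⟩)
  obtain ⟨p1, hp1⟩ := hL p (by rw [h.L_eq]; exact mem_lat.2 ⟨0, 1, by module⟩)
  have hpos : ((hh * A0 : ℕ) : ℤ) ≠ 0 := by
    have : 0 < hh * A0 := Nat.mul_pos D.h0 D.A00
    exact_mod_cast this.ne'
  have h1 : (m1 : ℤ) • S.v = (g1 : ℤ) • l := by
    refine smul_inj hpos ?_
    have e1 : ((hh * A0 : ℕ) : ℤ) • (m1 : ℤ) • S.v = e • S.v := by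
      rw [D.he]; push_cast; module
    have e2 : ((hh * A0 : ℕ) : ℤ) • (g1 : ℤ) • l = A • l := by
      rw [D.hA]; push_cast; module
    rw [e1, e2, h.Al]
  have h2 : Dz (2 * (g1 : ℤ)) S.v := by
    rw [Dz.iff]
    intro z
    have h3 : 2 * (g1 : ℤ) ∣ (m1 : ℤ) * cr S.v z := by
      have e1 : (m1 : ℤ) * cr S.v z = cr ((m1 : ℤ) • S.v) z := by rw [cr_smul_left]
      rw [e1, h1, hl1, cr_smul_left, cr_smul_left]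
      exact ⟨cr l1 z, by ring⟩
    have hco : IsCoprime (2 * (g1 : ℤ)) (m1 : ℤ) := by
      have h4 : Nat.Coprime (2 * g1) m1 :=
        Nat.Coprime.mul_left ((Nat.Prime.coprime_iff_not_dvd Nat.prime_two).2 hm2) D.co
      have := Nat.isCoprime_iff_coprime.2 h4
      push_cast at this
      exact this
    exact hco.dvd_of_dvd_mul_left h3
  obtain ⟨v2, hv2⟩ := h2
  have h3 : b = 4 * (g1 : ℤ) * cr p1 v2 := by
    rw [← h.hb, hp1, hv2, cr_smul_left, cr_smul_right]; ring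
  have h4 := D.hb
  rw [hh2] at h4
  push_cast at h4
  have hg0 : (0 : ℤ) < g1 := by exact_mod_cast D.g0
  have h5 : (g1 : ℤ) * (2 * b0) = g1 * (4 * cr p1 v2) := by linarith
  have h6 := mul_left_cancel₀ hg0.ne' h5
  have h7 : (2 : ℤ) ∣ (b0 : ℤ) := ⟨cr p1 v2, by linarith⟩
  exact_mod_cast h7

/-- S2: the classes -/
theorem KF.s2_cls (h : KF 2 S a' b c A a e f Y φ l p l' p') (hF : S.Full) {N : ℕ}
    (hN : N.Prime) (hv : a + A + a' = N) (he3 : e < 3 * A)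
    (D : K2D A b c a e Y g1 m1 n0 A0 b0 hh) (hnrm : KNrm a b A e f)
    (hA4 : (4 : ℤ) ∣ A) (ha2 : (2 : ℤ) ∣ a) (hc2 : ¬ (2 : ℤ) ∣ c) (hL : ∀ w ∈ S.L, Dz 2 w)
    (hg2 : 2 ∣ g1) (hn2 : 2 ∣ n0) :
    ∃ G : ℕ, 0 < G ∧ K2.gam g1 m1 n0 = 2 * G ∧ (G : ℤ) ∣ Y ∧
    ∃ (ω0 : ℤ) (ρ1 ρ2 : ℕ → ℤ) (σ : ℤ), ∀ x : ℤ,
      2 * 4 * c < A * (ω0 + (4 * (G : ℤ)) * x) → A * (ω0 + (4 * (G : ℤ)) * x) ≤ Y * c →
      ((∀ r ∈ K2.P4 m1 n0, ¬ (r : ℤ) ∣ x - ρ1 r) →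
        ∀ s : ℕ, s.Prime → s ≠ 2 → s ∣ g1 + m1 → ¬ s ∣ A0 → (s : ℤ) ∣ Y - 2 * 4 ∧
        (s : ℤ) ∣ ω0 + (4 * (G : ℤ)) * x) ∧
      ((∀ r ∈ K2.P4 m1 n0, ¬ (r : ℤ) ∣ x - ρ2 r) →
        (9 ∣ m1 → ¬ 3 ∣ b0 → 3 ∣ b0 - A0 → ¬ (3 : ℤ) ∣ x - σ) →
        (∀ r : ℕ, r.Prime → r ≠ 2 → r ∣ g1 + m1 → r ∣ A0) →
        ∃ (T : PSt) (d : ℤ), SEq S T ∧ IsC T.L T.v d ∧ d ≤ 2) := by
  obtain ⟨n2, hn2'⟩ := hn2
  obtain ⟨hQ, hQ2⟩ := D.Q_eq hn2'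
  obtain ⟨hYn, h3Y⟩ := D.Yn h.Y0
  have hn0 : n0 ≠ 0 := D.n0pos h.Y0
  have hn20 : 0 < n2 := by omega
  have hz2 : 3 ≤ g1 + m1 := by have := D.g0; have := D.gm; omega
  have hnz : 2 ≤ n2 * (g1 + m1) := by nlinarith
  set Q : ℤ := (n2 : ℤ) * (g1 + m1) with hQdef
  set G : ℕ := Nat.gcd (g1 * n0 - 2) (n2 * (g1 + m1) - 2) with hG
  have hG0 : 0 < G := Nat.gcd_pos_of_pos_left _ (by omega)
  have hα : Y = (G : ℤ) * (((g1 * n0 - 2) / G : ℕ) : ℤ) := by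
    rw [← hYn]
    exact_mod_cast (Nat.mul_div_cancel' (Nat.gcd_dvd_left (g1 * n0 - 2) _)).symm
  have hβ : 1 * (Q - 2) = (G : ℤ) * (((n2 * (g1 + m1) - 2) / G : ℕ) : ℤ) := by
    have h1 : 1 * (Q - 2) = ((n2 * (g1 + m1) - 2 : ℕ) : ℤ) := by
      rw [Nat.cast_sub hnz, hQdef]
      push_cast
      ring
    rw [h1]
    exact_mod_cast (Nat.mul_div_cancel' (Nat.gcd_dvd_right (g1 * n0 - 2) _)).symm
  refine ⟨G, hG0, K2.gam_two hn2', ⟨_, hα⟩, ?_⟩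
  set α : ℤ := (((g1 * n0 - 2) / G : ℕ) : ℤ) with hαdef
  set β : ℤ := (((n2 * (g1 + m1) - 2) / G : ℕ) : ℤ) with hβdef
  have hco : IsCoprime α β := by
    rw [hαdef, hβdef]
    exact Nat.isCoprime_iff_coprime.2 (Nat.coprime_div_gcd_div_gcd hG0)
  have hs : 1 * α ∣ Y := by
    rw [one_mul, hα]
    exact dvd_mul_left _ _
  obtain ⟨ρ1, ρ2, σ, hρ⟩ := h.sel4 hF hN hv he3 D hQ hQ2 hnrm hg2 (t0 := -1) (Or.inl rfl) hα hβ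
    hco hs
  have hA2 : (2 : ℤ) ∣ A := (by norm_num : (2 : ℤ) ∣ 4).trans hA4
  obtain ⟨hvz, hφ, -, hb4, -, -⟩ := h.typeL hN hv hA2 ha2 hc2 hL
  obtain ⟨-, hY8, -⟩ := h.typeS2_Y hN hv hA4 ha2 hc2 hL
  have hu2 : ¬ Dz 2 S.u := by
    intro h1
    apply hc2
    have := h1.cr_left p'
    rwa [h.up'] at this
  -- the prime two
  have htwo : ∀ t' i' : ℤ, (4 : ℤ) ∣ 2 * (1 + (1 * i') * (1 + 4)) +
      ((-1 + 4 * t') + 1 * i') * Y + 4 * φ ∧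
      ∀ κ : ℤ, IsC S.L (xvK S l' p' 4 (1 + (1 * i') * (1 + 4)) ((-1 + 4 * t') + 1 * i')) κ →
      (4 : ℤ) ∣ κ ∧ ¬ (8 : ℤ) ∣ κ ∧ (4 : ℤ) ∣ A + 4 * c := by
    intro t' i'
    obtain ⟨j1, j2⟩ := KF.typeS2_W (o := 1) (t := -1 + 4 * t') (i := 1 * i') (Or.inl rfl)
      (by rw [show -1 + 4 * t' + 1 = 4 * t' by ring]; exact dvd_mul_right _ _) hY8 hφ
    exact ⟨j1, fun κ hκ => h.typeS2 hN hv hA4 ha2 hc2 hL rfl hκ j1 j2⟩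
  have hcop : ∀ t' : ℤ, IsCoprime (-1 + 4 * t') 4 := fun t' => ⟨-1, t', by ring⟩
  refine ⟨-1 * Y + 4 * φ, ρ1, ρ2, σ, fun x hw1 hw2 => ⟨fun hx s hs1 hs2 hsz hsA => ?_,
    fun hx hx3 hz => ?_⟩⟩
  · obtain ⟨t', i', k1, k2, k3⟩ := (hρ x).1 hx
    obtain ⟨j1, j2⟩ := D.s_of hs1 hs2 hsz hsA
    refine h.end_one hN hv (c_lt h he3) hQ (by norm_num) (hcop t') k2 hw1 hw2
      (fun κ hκ r hr hra k hk => ?_) hs1 j1 j2
    by_cases hr2 : r = 2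
    · subst hr2
      obtain ⟨-, m2, m3⟩ := (htwo t' i').2 κ hκ
      exact_mod_cast pow_two_of m2 m3 (by exact_mod_cast hk)
    · exact k3 κ hκ r hr hr2 hra k hk
  · obtain ⟨t', i', k1, k2, k3, k4⟩ := (hρ x).2 hx hx3
    refine h.end_two hN hv hQ (by norm_num) (hcop t') k2 hw1 hw2
      (fun κ hκ r hr hra k hk => ?_)
      (fun κ hκ r hr hk hra D' hD' => ?_) (k4 (D.cA_of hz)) (h.no_four hc2)
    · by_cases hr2 : r = 2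
      · subst hr2
        obtain ⟨-, m2, m3⟩ := (htwo t' i').2 κ hκ
        exact_mod_cast pow_two_of m2 m3 (by exact_mod_cast hk)
      · exact (k3 κ hκ r hr hr2 hra).1 k hk
    · by_cases hr2 : r = 2
      · subst hr2
        right
        have h4 : (4 : ℤ) ∣ 2 * (1 + (1 * i') * (1 + 4)) + ((-1 + 4 * t') + 1 * i') * Y := by
          have e1 : 2 * (1 + (1 * i') * (1 + 4)) + ((-1 + 4 * t') + 1 * i') * Y =
              (2 * (1 + (1 * i') * (1 + 4)) + ((-1 + 4 * t') + 1 * i') * Y + 4 * φ) - 4 * φ := by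
            ring
          rw [e1]; exact dvd_sub (htwo t' i').1 (dvd_mul_right _ _)
        refine ⟨by exact_mod_cast hu2, ?_, by exact_mod_cast hL⟩
        have := h.dz_xv (n := 4) (by norm_num) hvz h4
        exact_mod_cast this
      · left
        exact (k3 κ hκ r hr hr2 hra).2 hk D' hD'

/-- S2: the right side -/
theorem KF.s2_right (h : KF 2 S a' b c A a e f Y φ l p l' p') (hF : S.Full) {N : ℕ}
    (hN : N.Prime) (hv : a + A + a' = N) (he3 : e < 3 * A)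
    (D : K2D A b c a e Y g1 m1 n0 A0 b0 hh)
    (hA4 : (4 : ℤ) ∣ A) (ha2 : (2 : ℤ) ∣ a) (hc2 : ¬ (2 : ℤ) ∣ c) (hL : ∀ w ∈ S.L, Dz 2 w)
    (hg2 : 2 ∣ g1) (hn2 : 2 ∣ n0)
    (hnum : ∀ e3 e9 ez : ℕ, e3 ≤ 1 → e9 ≤ 1 → ez ≤ 1 → (e3 = 1 → 3 ∣ m1 ∧ ¬ 3 ∣ n0) →
      (e9 = 1 → 9 ∣ m1 ∧ ¬ 3 ∣ b0 ∧ 3 ∣ b0 - A0 ∧
        ∀ r : ℕ, r.Prime → r ≠ 2 → r ∣ g1 + m1 → r ∣ A0) →
      (ez = 1 → ∃ zp : ℕ, 1 < zp ∧ ¬ 2 ∣ zp ∧ zp ∣ g1 + m1 ∧ zp ∣ g1 * n0 - 10 ∧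
        Nat.Coprime zp A0) → (ez = 0 ∨ e9 = 0) →
      2 ^ (K2.k n0 + e3 + e9 + ez) * (g1 * (4 * K2.gam g1 m1 n0)) ≤
        (g1 * n0 - 10) * (g1 + m1)) :
    ∃ (T : PSt) (d : ℤ), SEq S T ∧ IsC T.L T.v d ∧ d ≤ 2 := by
  have hA2 : (2 : ℤ) ∣ A := (by norm_num : (2 : ℤ) ∣ 4).trans hA4
  obtain ⟨hvz, -, ha4, hb4, -, -⟩ := h.typeL hN hv hA2 ha2 hc2 hL
  obtain ⟨j, φ1, l1', p1', -, h1, hnrm⟩ := h.norm40 hN hv he3 D 0 0 (fun _ => by norm_num)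
  have hSS := h.vseq j
  have hF1 := hSS.full.1 hF
  have hL1 := h.vst_L hL hvz j
  obtain ⟨G, hG0, hGg, hGY, ω0, ρ1, ρ2, σ9, hcls⟩ := h1.s2_cls hF1 hN hv he3 D hnrm hA4 ha2 hc2
    hL1 hg2 hn2
  have hA0 := h.A0
  have hg0 : (0 : ℤ) < 4 * (G : ℤ) := by
    have : (0 : ℤ) < G := by exact_mod_cast hG0
    linarith
  set e3 : ℕ := if 3 ∣ m1 ∧ ¬ 3 ∣ n0 then 1 else 0 with he3'
  have he31 : e3 ≤ 1 := by rw [he3']; split_ifs <;> omega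
  have he3f : e3 = 1 → 3 ∣ m1 ∧ ¬ 3 ∣ n0 := by
    intro h2
    rw [he3'] at h2
    split_ifs at h2 with h3
    exact h3
  have hcard : (K2.P4 m1 n0).card ≤ K2.k n0 + e3 :=
    K2.P4_card (fun h2 => by rw [he3', if_pos h2]) (D.n0pos h.Y0)
  have hfin : ∀ {e u : ℕ}, 2 ^ (K2.k n0 + e3 + e + u) * (g1 * (4 * K2.gam g1 m1 n0)) ≤
      (g1 * n0 - 10) * (g1 + m1) →
      (2 : ℤ) ^ ((K2.P4 m1 n0).card + (e + u) + 0) * (A * (4 * (G : ℤ))) ≤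
        Y * c - 2 * 4 * c := by
    intro e u h2
    have h3 := (D.win40 (n := 4) (G := G) (by norm_num) hG0
      (C' := (K2.P4 m1 n0).card + (e + u) + 0) (C := K2.k n0 + e3 + e + u) (by omega) (by
        rw [hGg] at h2
        refine le_trans (le_of_eq ?_) h2
        ring)).1
    exact_mod_cast h3
  by_cases hz : ∀ r : ℕ, r.Prime → r ≠ 2 → r ∣ g1 + m1 → r ∣ A0
  · -- END 2
    set e9 : ℕ := if 9 ∣ m1 ∧ ¬ 3 ∣ b0 ∧ 3 ∣ b0 - A0 then 1 else 0 with he9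
    have he91 : e9 ≤ 1 := by rw [he9]; split_ifs <;> omega
    have he9f : e9 = 1 → 9 ∣ m1 ∧ ¬ 3 ∣ b0 ∧ 3 ∣ b0 - A0 ∧
        ∀ r : ℕ, r.Prime → r ≠ 2 → r ∣ g1 + m1 → r ∣ A0 := by
      intro h2
      rw [he9] at h2
      split_ifs at h2 with h3
      exact ⟨h3.1, h3.2.1, h3.2.2, hz⟩
    have hR := hnum e3 e9 0 he31 he91 (by norm_num) he3f he9f (by norm_num) (Or.inl rfl)
    have hR' := hfin (e := e9) (u := 0) hR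
    obtain ⟨x, ⟨hx1, hx2⟩, hxP, hx9, -⟩ := window_cls (K2.P4 m1 n0) (fun r hr => K2.P4_odd hr)
      ρ2 Nat.prime_three (by norm_num) σ9 0 (u := e9 + 0) (v := 0) (w := ω0) (lo := 2 * 4 * c)
      (hi := Y * c) hA0 hg0 hR'
    obtain ⟨T, d, hT1, hT2, hT3⟩ := (hcls x hx1 hx2).2 hxP (fun m1' m2 m3 => by
      have := hx9 (by rw [he9, if_pos ⟨m1', m2, m3⟩])
      exact_mod_cast this) hz
    exact ⟨T, d, hSS.trans hT1, hT2, hT3⟩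
  · -- END 1
    exfalso
    push Not at hz
    obtain ⟨s, hs1, hs2, hsz, hsA⟩ := hz
    set ez : ℕ := if (s : ℤ) ∣ Y - 2 * 4 then 1 else 0 with hez
    have hez1 : ez ≤ 1 := by rw [hez]; split_ifs <;> omega
    have hezf : ez = 1 → ∃ zp : ℕ, 1 < zp ∧ ¬ 2 ∣ zp ∧ zp ∣ g1 + m1 ∧ zp ∣ g1 * n0 - 10 ∧
        Nat.Coprime zp A0 := by
      intro h2
      rw [hez] at h2
      split_ifs at h2 with h3
      refine ⟨s, hs1.one_lt, fun h4 => ?_, hsz, ?_, ?_⟩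
      · exact hs2 ((Nat.prime_dvd_prime_iff_eq Nat.prime_two hs1).1 h4).symm
      · exact D.dvd_nat (n := 4) (by exact_mod_cast h3)
      · exact (Nat.Prime.coprime_iff_not_dvd hs1).2 hsA
    have hR := hnum e3 0 ez he31 (by norm_num) hez1 he3f (by norm_num) hezf (Or.inr rfl)
    have hR' := hfin (e := 0) (u := ez) hR
    obtain ⟨σ, hσ⟩ : ∃ σ : ℤ, (s : ℤ) ∣ Y - 2 * 4 → ∀ x : ℤ,
        (s : ℤ) ∣ ω0 + (4 * (G : ℤ)) * x → (s : ℤ) ∣ x - σ := by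
      by_cases h2 : (s : ℤ) ∣ Y - 2 * 4
      · obtain ⟨q, hq⟩ := hGY
        have h4 : ¬ (s : ℤ) ∣ 4 := by
          intro h5
          have h6 : (s : ℤ) ∣ 2 * 2 := by norm_num; exact h5
          exact odd_not_two hs1 hs2 ((pdvd_mul hs1 h6).resolve_left (odd_not_two hs1 hs2))
        obtain ⟨σ, hσ⟩ := K2D.cls_s (n := 4) (Y := Y) (g := 4 * (G : ℤ)) (α := q) (ω0 := ω0)
          (by rw [hq]; ring) hs1 hs2 h4 h2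
        exact ⟨σ, fun _ => hσ⟩
      · exact ⟨0, fun h3 => absurd h3 h2⟩
    obtain ⟨x, ⟨hx1, hx2⟩, hxP, hxs, -⟩ := window_cls (K2.P4 m1 n0)
      (fun r hr => K2.P4_odd hr) ρ1 hs1 hs2 σ 0 (u := 0 + ez) (v := 0) (w := ω0)
      (lo := 2 * 4 * c) (hi := Y * c) hA0 hg0 hR'
    obtain ⟨k1, k2⟩ := (hcls x hx1 hx2).1 hxP s hs1 hs2 hsz hsA
    exact hxs (by rw [hez, if_pos k1]) (hσ k1 x k2)

end Pool.Agent.H4G
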