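import Pool.Agent.H4G.Arith.K2Lev
import Pool.Agent.H4G.Arith.K2DataDef

/-!
# LINE B, `K = 2`: the odd primes for the exits of levels two and four (helper40)
-/

set_option autoImplicit false

namespace Pool.Agent.H4G

variable {S : PSt} {a' b c A a e f Y φ : ℤ} {l p l' p' : Z2} {g1 m1 n0 A0 b0 hh : ℕ}

theorem K2D.not_hh (D : K2D A b c a e Y g1 m1 n0 A0 b0 hh) {r : ℕ} (hr : r.Prime) (hr2 : r ≠ 2) :
    ¬ r ∣ hh := by
  intro h1
  have h2 : r ∣ 2 ^ 2 := h1.trans (by simpa using D.h4)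
  exact hr2 ((Nat.prime_dvd_prime_iff_eq hr Nat.prime_two).1 (hr.dvd_of_dvd_pow h2))

theorem K2D.not_g1 (D : K2D A b c a e Y g1 m1 n0 A0 b0 hh) {r : ℕ} (hr : r.Prime)
    (hm : r ∣ m1) : ¬ r ∣ g1 := fun h1 =>
  hr.one_lt.ne' (Nat.eq_one_of_dvd_coprimes D.co h1 hm)

/-- an odd prime of `a` and `Y + 2` divides `n0` -/
theorem K2D.n0_of (D : K2D A b c a e Y g1 m1 n0 A0 b0 hh) {r : ℕ} (hr : r.Prime) (hr2 : r ≠ 2)
    (ha : (r : ℤ) ∣ a) (hy : (r : ℤ) ∣ 2 + Y) : r ∣ n0 := by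
  have h1 : r ∣ g1 * n0 := by
    have : (r : ℤ) ∣ (g1 : ℤ) * n0 := by rw [← D.hY, add_comm]; exact hy
    exact_mod_cast this
  rcases (Nat.Prime.dvd_mul hr).1 h1 with h2 | h2
  · have h3 : ¬ r ∣ m1 := fun h4 => D.not_g1 hr h4 h2
    have h4 : r ∣ m1 * (hh * b0) := by
      have : (r : ℤ) ∣ (m1 : ℤ) * (hh * b0) := by rw [← D.ha]; exact ha
      exact_mod_cast this
    rcases (Nat.Prime.dvd_mul hr).1 h4 with h5 | h5
    · exact absurd h5 h3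
    rcases (Nat.Prime.dvd_mul hr).1 h5 with h6 | h6
    · exact absurd h6 (D.not_hh hr hr2)
    · exact h6.trans D.bn
  · exact h2

theorem K2D.y_of (D : K2D A b c a e Y g1 m1 n0 A0 b0 hh) {r : ℕ} (hn : r ∣ n0) :
    (r : ℤ) ∣ 2 + Y := by
  rw [add_comm, D.hY]
  exact_mod_cast hn.mul_left g1

/-- an odd prime of `m1` divides `a`, `e` and does not divide `A` -/
theorem K2D.of_m1 (D : K2D A b c a e Y g1 m1 n0 A0 b0 hh) {r : ℕ} (hr : r.Prime) (hr2 : r ≠ 2)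
    (hm : r ∣ m1) : (r : ℤ) ∣ a ∧ (r : ℤ) ∣ e ∧ ¬ (r : ℤ) ∣ A := by
  refine ⟨?_, ?_, fun h1 => ?_⟩
  · rw [D.ha]; exact_mod_cast hm.mul_right _
  · rw [D.he]; exact_mod_cast hm.mul_right _
  · have h2 : r ∣ g1 * (hh * A0) := by
      have : (r : ℤ) ∣ (g1 : ℤ) * (hh * A0) := by rw [← D.hA]; exact h1
      exact_mod_cast this
    rcases (Nat.Prime.dvd_mul hr).1 h2 with h5 | h5
    · exact D.not_g1 hr hm h5
    rcases (Nat.Prime.dvd_mul hr).1 h5 with h6 | h6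
    · exact D.not_hh hr hr2 h6
    · exact D.cAm r hr hr2 h6 hm

/-- LEMMA A: an odd prime of `n0` -/
theorem KF.cls_n0 (h : KF 2 S a' b c A a e f Y φ l p l' p') {N : ℕ} (hN : N.Prime)
    (hv : a + A + a' = N) (D : K2D A b c a e Y g1 m1 n0 A0 b0 hh) {Q : ℤ}
    (hQ : A * Q = (Y + 2) * c) (hQ2 : 2 * Q = n0 * (g1 + m1)) {n : ℤ} {r : ℕ} (hr : r.Prime)
    (hr2 : r ≠ 2) (hrn : r ∣ n0)
    (hnf : (r : ℤ) ∣ a → (r : ℤ) ∣ e → (r : ℤ) ∣ b → ¬ (r : ℤ) ∣ f)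
    (h3 : (r : ℤ) ∣ n + 2 → (r : ℤ) ∣ a → (r : ℤ) ∣ b) :
    ∃ ρ : ℤ, ∀ t i ω : ℤ, ω = t * Y + n * φ + i * n * (2 - Q) → ¬ (r : ℤ) ∣ ω - ρ →
      (∀ κ : ℤ, IsC S.L (xvK S l' p' n (1 + i * (1 + n)) (t + i)) κ → (r : ℤ) ∣ a →
        ¬ (r : ℤ) ∣ κ) ∧
      (((r : ℤ) ∣ c → (r : ℤ) ∣ A) → ¬ (Dz r (l' - n • S.u) ∧ Dz r (p' + (t + i) • S.u))) := by
  have hK : ¬ (r : ℤ) ∣ 2 := odd_not_two hr hr2
  have hy := D.y_of hrn
  by_cases hra : (r : ℤ) ∣ a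
  · obtain ⟨ρ, hρ⟩ := h.bad_S hN hv hQ (n := n) (o := 1) hr hr2 hK hra hy (hnf hra)
      (fun he hf hn2 => hnf hra he (h3 hn2 hra) hf)
    refine ⟨ρ, fun t i ω hω hnρ => ⟨fun κ hκ _ hk => ?_, fun hcA hcon => ?_⟩⟩
    · refine hnρ (hρ ω i ?_ ?_)
      · have h1 := (h.xgap (KF.W_eq hω).symm hκ).1 hk
        exact (dvd_mul_left _ _).trans h1.1
      · have h1 := (h.xgap (KF.W_eq hω).symm hκ).1 hk
        exact (dvd_mul_left _ _).trans h1.2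
    · have h1 := (h.cont_odd hr hcon.1 hcon.2).1
      have h2 := hcA h1
      have h4 : (r : ℤ) ∣ e := by
        have e1 : e = 2 * c - A := by linear_combination -h.hc
        rw [e1]; exact dvd_sub (h1.mul_left _) h2
      exact h.e_not hN hv hr hK hra h4 h2
  · have hrQ : (r : ℤ) ∣ Q := by
      have h1 : (r : ℤ) ∣ 2 * Q := by rw [hQ2]; exact_mod_cast hrn.mul_right _
      exact (pdvd_mul hr h1).resolve_left hK
    obtain ⟨ρ, hρ⟩ := h.cont_class (n := n) hr hr2 hrQ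
    refine ⟨ρ, fun t i ω hω hnρ => ⟨fun κ hκ h1 => absurd h1 hra, fun _ hcon => ?_⟩⟩
    exact hnρ (hρ t i ω hω hcon.1 hcon.2)

/-- the bad condition at a prime of the gap -/
theorem KF.bad_of (h : KF 2 S a' b c A a e f Y φ l p l' p') {n t i ω Q κ : ℤ}
    (hω : ω = t * Y + n * φ + i * n * (2 - Q))
    (hκ : IsC S.L (xvK S l' p' n (1 + i * (1 + n)) (t + i)) κ) {r : ℤ} (hk : r ∣ κ) :
    r ∣ (ω + 2 * 1 + i * (Y + 2 + n * Q)) * e ∧
      r ∣ (n + 2) * b + n * a - (ω + 2 * 1 + i * (Y + 2 + n * Q)) * f := by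
  have h1 := (h.xgap (KF.W_eq hω).symm hκ).1 hk
  exact ⟨(dvd_mul_left _ _).trans h1.1, (dvd_mul_left _ _).trans h1.2⟩

/-- LEMMA B: the lock prime -/
theorem KF.cls_lock (h : KF 2 S a' b c A a e f Y φ l p l' p') {N : ℕ} (hN : N.Prime)
    (hv : a + A + a' = N) {Q : ℤ} (hQ : A * Q = (Y + 2) * c) {r : ℕ} (hr : r.Prime)
    (hr2 : r ≠ 2) (hr3 : r ≠ 3) (hra : (r : ℤ) ∣ a) (hre : (r : ℤ) ∣ e) (hrA : ¬ (r : ℤ) ∣ A)
    (hrY : (r : ℤ) ∣ Y) :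
    ∃ ρ : ℤ, ∀ t i ω : ℤ, ω = t * Y + 2 * φ + i * 2 * (2 - Q) → ¬ (r : ℤ) ∣ ω - ρ →
      ∀ κ : ℤ, IsC S.L (xvK S l' p' 2 (1 + i * (1 + 2)) (t + i)) κ → ¬ (r : ℤ) ∣ κ := by
  have hK : ¬ (r : ℤ) ∣ 2 := odd_not_two hr hr2
  have hy : ¬ (r : ℤ) ∣ 2 + Y := fun h1 => hK ((dvd_add_left hrY).1 h1)
  by_cases hf : (r : ℤ) ∣ f
  · refine ⟨0, fun t i ω hω _ κ hκ hk => ?_⟩
    have h1 := (h.bad_of hω hκ hk).2
    have h2 : (r : ℤ) ∣ 2 * (2 * b) := by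
      have e1 : 2 * (2 * b) = ((2 + 2) * b + 2 * a -
        (ω + 2 * 1 + i * (Y + 2 + 2 * Q)) * f) - 2 * a +
        (ω + 2 * 1 + i * (Y + 2 + 2 * Q)) * f := by ring
      rw [e1]
      exact dvd_add (dvd_sub h1 (hra.mul_left _)) (hf.mul_left _)
    have h3 := (pdvd_mul hr ((pdvd_mul hr h2).resolve_left hK)).resolve_left hK
    exact (h.of_a hN hv hr hr2 hK hra hy).1 h3
  · have hn1 : ¬ (r : ℤ) ∣ 2 + 1 := by
      intro h1
      have h2 : r ∣ 3 := by exact_mod_cast h1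
      exact hr3 ((Nat.prime_dvd_prime_iff_eq hr Nat.prime_three).1 h2)
    obtain ⟨ρ, hρ⟩ := h.bad_lock hQ (n := 2) (o := 1) hr hK hre hrA hrY hf hn1
    exact ⟨ρ, fun t i ω hω hnρ κ hκ hk => hnρ (hρ ω t i hω (h.bad_of hω hκ hk).2)⟩

/-- the coefficient of `i` in `W` at three, level four -/
theorem KF.three_W (h : KF 2 S a' b c A a e f Y φ l p l' p') {N : ℕ} (hN : N.Prime)
    (hv : a + A + a' = N) {Q : ℤ} (hQ : A * Q = (Y + 2) * c) (ha : (3 : ℤ) ∣ a)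
    (he : (3 : ℤ) ∣ e) (hA : ¬ (3 : ℤ) ∣ A) (ω i : ℤ) :
    (3 : ℤ) ∣ (ω + 2 * 1 + i * (Y + 2 + 4 * Q)) - (ω + 2) := by
  have h3 := Nat.prime_three
  have h1 : (3 : ℤ) ∣ Y + 2 + 4 * Q := by
    by_cases hy : (3 : ℤ) ∣ 2 + Y
    · have h2 := h.Q_dvd hN hv hQ h3 (by norm_num) (by norm_num) (by exact_mod_cast ha)
        (by exact_mod_cast hy)
      have h4 : (3 : ℤ) ∣ Q := by exact_mod_cast h2
      exact dvd_add (by rw [add_comm]; exact hy) (h4.mul_left 4)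
    · have h2 := (h.W_coef hQ (n := 4) h3 (by norm_num) (by exact_mod_cast he)
        (by exact_mod_cast hA) (by exact_mod_cast hy)).2 (by norm_num)
      exact_mod_cast h2
  have e1 : (ω + 2 * 1 + i * (Y + 2 + 4 * Q)) - (ω + 2) = i * (Y + 2 + 4 * Q) := by ring
  rw [e1]; exact h1.mul_left i

/-- a power of `r` which divides `κ`, `r² ∤ κ`, divides every multiple of `r` -/
theorem pow_of_sq {r κ X : ℤ} (h2 : ¬ r ^ 2 ∣ κ) (hX : r ∣ X) {k : ℕ} (hk : r ^ k ∣ κ) :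
    r ^ k ∣ X := by
  rcases k with _ | _ | k
  · rw [pow_zero]; exact one_dvd _
  · rw [zero_add, pow_one]; exact hX
  · exact absurd ((pow_dvd_pow r (by omega : 2 ≤ k + 1 + 1)).trans hk) h2

/-- LEMMA C: the prime three, level four, END 1 -/
theorem KF.cls_three1 (h : KF 2 S a' b c A a e f Y φ l p l' p') {N : ℕ} (hN : N.Prime)
    (hv : a + A + a' = N) {Q : ℤ} (hQ : A * Q = (Y + 2) * c) (ha : (3 : ℤ) ∣ a)
    (he : (3 : ℤ) ∣ e) (hA : ¬ (3 : ℤ) ∣ A) (hb : ¬ (3 : ℤ) ∣ b) :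
    ∃ ρ : ℤ, ∀ t i ω : ℤ, ω = t * Y + 4 * φ + i * 4 * (2 - Q) → ¬ (3 : ℤ) ∣ ω - ρ →
      ∀ κ : ℤ, IsC S.L (xvK S l' p' 4 (1 + i * (1 + 4)) (t + i)) κ →
        ∀ k : ℕ, (3 : ℤ) ^ k ∣ κ → (3 : ℤ) ^ k ∣ A + 4 * c := by
  have h3 := Nat.prime_three
  have hW := h.three_W hN hv hQ ha he hA
  have hAc : (3 : ℤ) ∣ A + 4 * c := by
    have := h.three_A h3 (n := 4) (by norm_num) (by norm_num) (by exact_mod_cast he)
    exact_mod_cast this
  by_cases hf : (3 : ℤ) ∣ f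
  · by_cases he9 : (3 : ℤ) ^ 2 ∣ e
    · by_cases hf9 : (3 : ℤ) ^ 2 ∣ f
      · refine ⟨0, fun t i ω hω _ κ hκ k hk => pow_of_sq ?_ hAc hk⟩
        have := h.three_kap (KF.W_eq hω).symm hκ h3 (by exact_mod_cast hb) (by exact_mod_cast hA)
          (by norm_num) (Or.inl ⟨by exact_mod_cast he9, by exact_mod_cast hf9⟩)
        exact_mod_cast this
      · obtain ⟨ρ, hρ⟩ := three_class h3 (x := (4 + 2) * b) (f := f)
          (by exact_mod_cast Dvd.intro (2 * b) (by ring)) (by exact_mod_cast hf)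
          (by exact_mod_cast hf9)
        refine ⟨ρ - 2, fun t i ω hω hnρ κ hκ k hk => pow_of_sq ?_ hAc hk⟩
        have := h.three_kap (KF.W_eq hω).symm hκ h3 (by exact_mod_cast hb) (by exact_mod_cast hA)
          (by norm_num) (Or.inr (Or.inr ⟨by exact_mod_cast he9, fun h9 => hnρ ?_⟩))
        · exact_mod_cast this
        · have h4 := hρ _ h9
          have h5 := hW ω i
          have h6 := dvd_sub (by exact_mod_cast h4 :
            (3 : ℤ) ∣ (ω + 2 * 1 + i * (Y + 2 + 4 * Q)) - ρ) h5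
          have e1 : ω - (ρ - 2) = (ω + 2 * 1 + i * (Y + 2 + 4 * Q)) - ρ -
            ((ω + 2 * 1 + i * (Y + 2 + 4 * Q)) - (ω + 2)) := by ring
          rw [e1]; exact h6
    · refine ⟨-2, fun t i ω hω hnρ κ hκ k hk => pow_of_sq ?_ hAc hk⟩
      have := h.three_kap (KF.W_eq hω).symm hκ h3 (by exact_mod_cast hb) (by exact_mod_cast hA)
        (by norm_num) (Or.inr (Or.inl ⟨by exact_mod_cast he9, fun h9 => hnρ ?_⟩))
      · exact_mod_cast this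
      · have h6 := dvd_sub (by exact_mod_cast h9 :
          (3 : ℤ) ∣ (ω + 2 * 1 + i * (Y + 2 + 4 * Q))) (hW ω i)
        have e1 : ω - -2 = (ω + 2 * 1 + i * (Y + 2 + 4 * Q)) -
            ((ω + 2 * 1 + i * (Y + 2 + 4 * Q)) - (ω + 2)) := by ring
        rw [e1]; exact h6
  · refine ⟨-2, fun t i ω hω hnρ κ hκ k hk => ?_⟩
    rcases Nat.eq_zero_or_pos k with h0 | h0
    · rw [h0, pow_zero]; exact one_dvd _
    exfalso
    have h4 : (3 : ℤ) ∣ κ := (dvd_pow_self _ h0.ne').trans hk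
    have h5 := h.bad_3 hN hv hQ h3 (by norm_num) (by norm_num) (by exact_mod_cast ha)
      (n := 4) (o := 1) (by norm_num) (by exact_mod_cast he) (by exact_mod_cast hf)
      (by exact_mod_cast (h.bad_of hω hκ h4).2)
    apply hnρ
    have e1 : ω - -2 = ω + 2 * 1 := by ring
    rw [e1]; exact_mod_cast h5

/-- LEMMA C: the prime three, level four, END 2 -/
theorem KF.cls_three2 (h : KF 2 S a' b c A a e f Y φ l p l' p') {N : ℕ} (hN : N.Prime)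
    (hv : a + A + a' = N) {Q : ℤ} (hQ : A * Q = (Y + 2) * c) (ha : (3 : ℤ) ∣ a)
    (he : (3 : ℤ) ∣ e) (hA : ¬ (3 : ℤ) ∣ A) (hb : ¬ (3 : ℤ) ∣ b)
    (hD0 : (3 : ℤ) ∣ f → (3 : ℤ) ∣ a + b - A) :
    ∃ ρ : ℤ, ∀ t i ω : ℤ, ω = t * Y + 4 * φ + i * 4 * (2 - Q) → ¬ (3 : ℤ) ∣ ω - -2 →
      ((3 : ℤ) ^ 2 ∣ e → (3 : ℤ) ∣ a + b - A → ¬ (3 : ℤ) ∣ ω - ρ) →
      ∀ κ : ℤ, IsC S.L (xvK S l' p' 4 (1 + i * (1 + 4)) (t + i)) κ →
        (∀ k : ℕ, (3 : ℤ) ^ k ∣ κ → (3 : ℤ) ^ k ∣ A + 4 * c) ∧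
        ((3 : ℤ) ∣ κ → ∀ D : Z2, κ • D = (a + (A + 4 * c)) •
          xvK S l' p' 4 (1 + i * (1 + 4)) (t + i) → ¬ Dz 3 D) := by
  have h3 := Nat.prime_three
  have hW := h.three_W hN hv hQ ha he hA
  have hAc : (3 : ℤ) ∣ A + 4 * c := by
    have := h.three_A h3 (n := 4) (by norm_num) (by norm_num) (by exact_mod_cast he)
    exact_mod_cast this
  have hu : ¬ Dz 3 S.u := fun h1 => hA (by
    have := h1.cr_left S.v
    rwa [h.hA] at this)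
  have hW0 : ∀ ω i : ℤ, ¬ (3 : ℤ) ∣ ω - -2 → ¬ (3 : ℤ) ∣ (ω + 2 * 1 + i * (Y + 2 + 4 * Q)) := by
    intro ω i h1 h2
    apply h1
    have e1 : ω - -2 = (ω + 2 * 1 + i * (Y + 2 + 4 * Q)) -
            ((ω + 2 * 1 + i * (Y + 2 + 4 * Q)) - (ω + 2)) := by ring
    rw [e1]; exact dvd_sub h2 (hW ω i)
  by_cases hf : (3 : ℤ) ∣ f
  · have hD0 := hD0 hf
    have hDD : ∀ {t i ω : ℤ}, ω = t * Y + 4 * φ + i * 4 * (2 - Q) → ¬ (3 : ℤ) ∣ ω - -2 →
        ∀ κ : ℤ, (3 : ℤ) ∣ κ → ∀ D : Z2, κ • D = (a + (A + 4 * c)) •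
          xvK S l' p' 4 (1 + i * (1 + 4)) (t + i) → ¬ Dz 3 D := by
      intro t i ω hω hn κ hk D hD
      have := h.three_D (KF.W_eq hω).symm h3 (by norm_num) (by exact_mod_cast ha)
        (by exact_mod_cast hA) (by exact_mod_cast he) (by exact_mod_cast hD0) (by norm_num)
        (by norm_num) (by exact_mod_cast hu) (by exact_mod_cast hk)
        (by exact_mod_cast hW0 ω i hn) hD
      exact_mod_cast this
    by_cases he9 : (3 : ℤ) ^ 2 ∣ e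
    · by_cases hf9 : (3 : ℤ) ^ 2 ∣ f
      · refine ⟨0, fun t i ω hω hn0 _ κ hκ => ⟨fun k hk => pow_of_sq ?_ hAc hk,
          hDD hω hn0 κ⟩⟩
        have := h.three_kap (KF.W_eq hω).symm hκ h3 (by exact_mod_cast hb) (by exact_mod_cast hA)
          (by norm_num) (Or.inl ⟨by exact_mod_cast he9, by exact_mod_cast hf9⟩)
        exact_mod_cast this
      · obtain ⟨ρ, hρ⟩ := three_class h3 (x := (4 + 2) * b) (f := f)
          (by exact_mod_cast Dvd.intro (2 * b) (by ring)) (by exact_mod_cast hf)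
          (by exact_mod_cast hf9)
        refine ⟨ρ - 2, fun t i ω hω hn0 hnρ κ hκ => ⟨fun k hk => pow_of_sq ?_ hAc hk,
          hDD hω hn0 κ⟩⟩
        have := h.three_kap (KF.W_eq hω).symm hκ h3 (by exact_mod_cast hb) (by exact_mod_cast hA)
          (by norm_num) (Or.inr (Or.inr ⟨by exact_mod_cast he9, fun h9 => hnρ he9 hD0 ?_⟩))
        · exact_mod_cast this
        · have h4 := hρ _ h9
          have h5 := hW ω i
          have h6 := dvd_sub (by exact_mod_cast h4 :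
            (3 : ℤ) ∣ (ω + 2 * 1 + i * (Y + 2 + 4 * Q)) - ρ) h5
          have e1 : ω - (ρ - 2) = (ω + 2 * 1 + i * (Y + 2 + 4 * Q)) - ρ -
            ((ω + 2 * 1 + i * (Y + 2 + 4 * Q)) - (ω + 2)) := by ring
          rw [e1]; exact h6
    · refine ⟨0, fun t i ω hω hn0 _ κ hκ => ⟨fun k hk => pow_of_sq ?_ hAc hk, hDD hω hn0 κ⟩⟩
      have := h.three_kap (KF.W_eq hω).symm hκ h3 (by exact_mod_cast hb) (by exact_mod_cast hA)
        (by norm_num) (Or.inr (Or.inl ⟨by exact_mod_cast he9, by exact_mod_cast hW0 ω i hn0⟩))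
      exact_mod_cast this
  · refine ⟨0, fun t i ω hω hn0 _ κ hκ => ?_⟩
    have hnk : ¬ (3 : ℤ) ∣ κ := by
      intro h4
      have h5 := h.bad_3 hN hv hQ h3 (by norm_num) (by norm_num) (by exact_mod_cast ha)
        (n := 4) (o := 1) (by norm_num) (by exact_mod_cast he) (by exact_mod_cast hf)
        (by exact_mod_cast (h.bad_of hω hκ h4).2)
      apply hn0
      have e1 : ω - -2 = ω + 2 * 1 := by ring
      rw [e1]; exact_mod_cast h5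
    refine ⟨fun k hk => ?_, fun h4 => absurd h4 hnk⟩
    rcases Nat.eq_zero_or_pos k with h0 | h0
    · rw [h0, pow_zero]; exact one_dvd _
    · exact absurd ((dvd_pow_self _ h0.ne').trans hk) hnk

/-- `3 ∣ Y`, `3 ∣ e`, `3 ∤ A`: `3 ∣ a + b - A` -/
theorem KF.three_D40 (h : KF 2 S a' b c A a e f Y φ l p l' p') (he3 : e < 3 * A)
    (he : (3 : ℤ) ∣ e) (hA : ¬ (3 : ℤ) ∣ A) (hY : (3 : ℤ) ∣ Y) : (3 : ℤ) ∣ a + b - A := by
  have h3 := Nat.prime_three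
  have key : ∀ {S1 : PSt} {f1 φ1 : ℤ} {p1 l1' p1' : Z2},
      KF 2 S1 a' b c A a e f1 Y φ1 l p1 l1' p1' → (3 : ℤ) ∣ f1 := by
    intro S1 f1 φ1 p1 l1' p1' h1
    rcases h1.ft2 he3 h3 (by exact_mod_cast he) (by exact_mod_cast hA)
      (by exact_mod_cast hY) with h2 | ⟨-, h2⟩
    · exact_mod_cast h2
    · exfalso
      have h4 : e * ((3 : ℕ) - 2 : ℤ) = e := by norm_num
      rw [h4] at h2
      push_cast at h2
      omega
  have hf := key h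
  obtain ⟨j0, hj0, hj1⟩ : ∃ j0 : ℤ, ¬ (3 : ℤ) ∣ j0 ∧ ¬ (3 : ℤ) ∣ 1 + j0 * φ := by
    by_cases hφ : (3 : ℤ) ∣ 1 + φ
    · refine ⟨-1, by norm_num, fun h1 => ?_⟩
      omega
    · exact ⟨1, by norm_num, by rwa [one_mul]⟩
  obtain ⟨j, φ2, l2', p2', h1, h2⟩ := h.vframe h3 j0 (fun _ h9 => hj1 (by exact_mod_cast h9))
  have h4 := key h2
  have h5 : (3 : ℤ) ∣ j * (a + b - A) := (dvd_add_right hf).1 h4
  have h6 : (3 : ℤ) ∣ j - j0 := by exact_mod_cast h1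
  rcases Int.Prime.dvd_mul' h3 h5 with h7 | h7
  · exfalso
    have h8 : (3 : ℤ) ∣ j := by exact_mod_cast h7
    exact hj0 ((dvd_sub_right h8).1 h6)
  · exact_mod_cast h7

/-- the norm of a frame: `f` is a unit at the odd primes of `a, b, e`; the prime three -/
structure KNrm (a b A e f : ℤ) : Prop where
  nf : ∀ r : ℕ, r.Prime → r ≠ 2 → (r : ℤ) ∣ a → (r : ℤ) ∣ e → (r : ℤ) ∣ b → ¬ (r : ℤ) ∣ f
  n3 : (3 : ℤ) ∣ e → ¬ (3 : ℤ) ∣ A → (3 : ℤ) ∣ f → (3 : ℤ) ∣ a + b - A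

/-- NORM: a V-frame with the norm -/
theorem KF.norm40 (h : KF 2 S a' b c A a e f Y φ l p l' p') {N : ℕ} (hN : N.Prime)
    (hv : a + A + a' = N) (he3 : e < 3 * A) (D : K2D A b c a e Y g1 m1 n0 A0 b0 hh)
    (m : ℕ) (j2 : ℤ) (h2 : (2 : ℤ) ∣ Y → ¬ (2 : ℤ) ∣ 1 + j2 * φ) :
    ∃ (j φ1 : ℤ) (l1' p1' : Z2), (2 : ℤ) ^ m ∣ j - j2 ∧
      KF 2 (vst S l p j) a' b c A a e (f + j * (a + b - A)) Y φ1 l (p - j • S.v) l1' p1' ∧
      KNrm a b A e (f + j * (a + b - A)) := by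
  obtain ⟨j, φ1, l1', p1', k1, k2, -, k4⟩ := h.norm m j2 h2
  refine ⟨j, φ1, l1', p1', k1, k2, ⟨fun r hr hr2 hra hre hrb => ?_, fun he hA hf => ?_⟩⟩
  · have hK : ¬ (r : ℤ) ∣ 2 := odd_not_two hr hr2
    have hrA := h.e_not hN hv hr hK hra hre
    refine k4 r hr hr2 hre (fun h5 => hrA ?_) (fun h5 => ?_)
    · have e1 : A = a + b - (a + b - A) := by ring
      rw [e1]; exact dvd_sub (dvd_add hra hrb) h5
    · exfalso
      have h6 : r ∣ g1 * (hh * b0) := by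
        have : (r : ℤ) ∣ (g1 : ℤ) * (hh * b0) := by rw [← D.hb]; exact hrb
        exact_mod_cast this
      have h7 : ¬ r ∣ g1 := fun h8 => hrA (by rw [D.hA]; exact_mod_cast h8.mul_right _)
      have h8 : r ∣ b0 := by
        rcases (Nat.Prime.dvd_mul hr).1 h6 with h9 | h9
        · exact absurd h9 h7
        rcases (Nat.Prime.dvd_mul hr).1 h9 with h10 | h10
        · exact absurd h10 (D.not_hh hr hr2)
        · exact h10
      have h9 := D.y_of (h8.trans D.bn)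
      exact hK ((dvd_add_left h5).1 h9)
  · by_contra hcon
    have h3 := Nat.prime_three
    by_cases hY : (3 : ℤ) ∣ Y
    · exact hcon (h.three_D40 he3 he hA hY)
    · exact k4 3 h3 (by norm_num) (by exact_mod_cast he) (by exact_mod_cast hcon)
        (fun h5 => absurd (by exact_mod_cast h5) hY) (by exact_mod_cast hf)

/-- LEMMA D: the selection in the fibre over `x` -/
theorem KF.sel_fib (h : KF 2 S a' b c A a e f Y φ l p l' p') {N : ℕ} (hN : N.Prime)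
    (hv : a + A + a' = N) {Q : ℤ} (hQ : A * Q = (Y + 2) * c) {n t0 ι G α β : ℤ}
    (hα : Y = G * α) (hβ : ι * (Q - 2) = G * β) (hco : IsCoprime α β) (hs : ι * α ∣ Y) (x : ℤ) :
    ∃ t' i' : ℤ, α * t' - β * i' = x ∧
      t0 * Y + n * φ + n * G * x = (t0 + n * t') * Y + n * φ + (ι * i') * n * (2 - Q) ∧
      ∀ r : ℕ, r.Prime → r ≠ 2 → (r : ℤ) ∣ a → ¬ (r : ℤ) ∣ 2 + Y → ¬ (r : ℤ) ∣ n + 2 →
        ((r : ℤ) ∣ Y → (r : ℤ) ∣ f) → ∀ κ : ℤ,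
        IsC S.L (xvK S l' p' n (1 + (ι * i') * (1 + n)) ((t0 + n * t') + ι * i')) κ →
        ¬ (r : ℤ) ∣ κ := by
  obtain ⟨t1, i1, h1⟩ := fibre (μ := 1) (ν := ι) (Y := Y) (g := G) (by linarith) hβ hco x
  obtain ⟨k, -, hk⟩ := h.sel_M hN hv hQ (n := n)
    (W0 := t0 * Y + n * φ + n * G * x + 2 * 1 + (ι * i1) * (Y + 2 + n * Q)) hs 0 0
  obtain ⟨k1, k2⟩ := h1 k
  have hω : t0 * Y + n * φ + n * G * x = (t0 + n * (t1 + β * k)) * Y + n * φ +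
      (ι * (i1 + α * k)) * n * (2 - Q) := by
    linear_combination (-n) * k1
  refine ⟨t1 + β * k, i1 + α * k, k2, hω, ?_⟩
  intro r hr hr2 hra hy hn hYf κ hκ hrκ
  refine hk r hr hr2 (odd_not_two hr hr2) hra hy hn hYf ?_
  have h2 := (h.bad_of hω hκ hrκ).2
  have e1 : (n + 2) * b + n * a - (t0 * Y + n * φ + n * G * x + 2 * 1 +
      (ι * i1) * (Y + 2 + n * Q) + k * (ι * α * (Y + 2 + n * Q))) * f =
      (n + 2) * b + n * a - (t0 * Y + n * φ + n * G * x + 2 * 1 +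
      (ι * (i1 + α * k)) * (Y + 2 + n * Q)) * f := by ring
  rw [e1]; exact h2

/-- no content at an odd prime which does not divide `n0` -/
theorem KF.no_cont (h : KF 2 S a' b c A a e f Y φ l p l' p') (hF : S.Full) (he3 : e < 3 * A)
    (D : K2D A b c a e Y g1 m1 n0 A0 b0 hh) {n τ : ℤ} (hn : n = 2 ∨ n = 4) {r : ℕ}
    (hr : r.Prime) (hr2 : r ≠ 2) (hrn : ¬ r ∣ n0) (hcA : (r : ℤ) ∣ c → (r : ℤ) ∣ A) :
    ¬ (Dz r (l' - n • S.u) ∧ Dz r (p' + τ • S.u)) := by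
  rintro ⟨k1, k2⟩
  have hK : ¬ (r : ℤ) ∣ 2 := odd_not_two hr hr2
  have hrc := (h.cont_odd hr k1 k2).1
  have hrA := hcA hrc
  rcases h.cont_A hF he3 hr hr2 hrA k1 k2 with h1 | ⟨h1, h2, -⟩
  · rcases hn with h3 | h3
    · rw [h3] at h1; exact hK h1
    · rw [h3] at h1
      have h4 : (r : ℤ) ∣ 2 * 2 := by norm_num; exact h1
      exact hK ((pdvd_mul hr h4).resolve_left hK)
  · obtain ⟨k, m, h3, h4⟩ := exists_val hr (show (0 : ℤ) < g1 by exact_mod_cast D.g0)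
    have h5 : (r : ℤ) ^ k ∣ b := by rw [D.hb, h3]; exact ⟨m * (hh * b0), by ring⟩
    have h6 := h.fd hF (Or.inl rfl) he3 hr hK hrA hrc h2 h5
    rw [add_comm 2 Y, D.hY, h3, pow_succ, mul_assoc] at h6
    have h7 := (mul_dvd_mul_iff_left (pow_ne_zero k
      (by exact_mod_cast hr.ne_zero : (r : ℤ) ≠ 0))).1 h6
    have h8 := (pdvd_mul hr h7).resolve_left h4
    exact hrn (by exact_mod_cast h8)

end Pool.Agent.H4G
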