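import Pool.Agent.H4G.Arith.K1NumO

/-!
# `K = 3`: the left count (helper9)
-/

set_option autoImplicit false

namespace Pool.Agent.H4G

/-- the left count in reduced numbers -/
theorem K3.left_ineq {g m A0 G1 G2 A2 b2 z2 m2 k : ℕ} (hA : 0 < A0) (hg : 2 * g < m)
    (h1 : A0 = G1 * A2) (h2 : g + m = G1 * z2) (h3 : m = G2 * m2) (hb2 : 0 < b2)
    (hG2 : 0 < G2)
    (hbad : (m - g) * (2 * A0 + G2 * b2) ≤ 2 ^ k * (G1 * G2)) :
    3 * (A2 * m2) + z2 * b2 < 3 * 2 ^ k := by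
  have hG1 : 0 < G1 := Nat.pos_of_ne_zero (by rintro rfl; omega)
  obtain ⟨d, hd⟩ : ∃ d, m = g + d := ⟨m - g, by omega⟩
  have hd2 : m - g = d := by omega
  rw [hd2] at hbad
  have hGb : 0 < G2 * b2 := Nat.mul_pos hG2 hb2
  have e1 : A0 * m < 2 * (d * A0) := by
    have : m < 2 * d := by omega
    nlinarith
  have e2 : (g + m) * (G2 * b2) ≤ 3 * (d * (G2 * b2)) := by
    have : g + m ≤ 3 * d := by omega
    nlinarith
  have e3 : 3 * (A0 * m) + (g + m) * (G2 * b2) < 3 * (2 ^ k * (G1 * G2)) := by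
    have : d * (2 * A0 + G2 * b2) = 2 * (d * A0) + d * (G2 * b2) := by ring
    nlinarith
  have e4 : 3 * (A0 * m) + (g + m) * (G2 * b2) = (3 * (A2 * m2) + z2 * b2) * (G1 * G2) := by
    rw [h2]
    have : A0 * m = (A2 * m2) * (G1 * G2) := by
      calc A0 * m = (G1 * A2) * (G2 * m2) := by rw [← h1, ← h3]
        _ = _ := by ring
    rw [this]; ring
  rw [e4] at e3
  have e5 : 3 * (2 ^ k * (G1 * G2)) = (3 * 2 ^ k) * (G1 * G2) := by ring
  rw [e5] at e3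
  exact Nat.lt_of_mul_lt_mul_right e3

theorem K3.list_aux0 : ∀ e1 < 8, ∀ D1 < 24, ∀ k < 4,
    (!(decide (e1 * D1 < 48)) || !(Nat.gcd e1 D1 == 1) || !(decide (k ≤ K1.om (e1 * D1))) ||
      !(decide (3 * e1 + D1 < 3 * 2 ^ k)) || (e1 == 0) || (D1 == 0) ||
      ((k == K1.om (e1 * D1)) && ((e1 == 1 && D1 == 2) || (e1 == 1 && D1 == 6) ||
        (e1 == 5 && D1 == 6) || (e1 == 2 && D1 == 3) || (e1 == 2 && D1 == 5) ||
        (e1 == 2 && D1 == 15) || e1 % 3 == 0))) = true := by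
  decide +kernel

theorem K3.list_aux {e1 D1 k : ℕ} (h1 : e1 < 8) (h2 : D1 < 24) (h3 : e1 * D1 < 48)
    (h4 : Nat.Coprime e1 D1) (h5 : k < 4) (h6 : k ≤ K1.om (e1 * D1))
    (h7 : 3 * e1 + D1 < 3 * 2 ^ k) (h8 : 0 < e1) (h9 : 0 < D1) :
    k = K1.om (e1 * D1) ∧ ((e1 = 1 ∧ D1 = 2) ∨ (e1 = 1 ∧ D1 = 6) ∨ (e1 = 5 ∧ D1 = 6) ∨
      (e1 = 2 ∧ D1 = 3) ∨ (e1 = 2 ∧ D1 = 5) ∨ (e1 = 2 ∧ D1 = 15) ∨ 3 ∣ e1) := by
  have h := K3.list_aux0 e1 h1 D1 h2 k h5
  have h4' : Nat.gcd e1 D1 = 1 := h4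
  simp only [Bool.or_eq_true, Bool.not_eq_true', decide_eq_false_iff_not, Bool.and_eq_true,
    beq_iff_eq, beq_eq_false_iff_ne] at h
  rcases h with (((((h | h) | h) | h) | h) | h) | h
  · exact absurd h3 h
  · exact absurd h4' h
  · exact absurd h6 h
  · exact absurd h7 h
  · omega
  · omega
  · refine ⟨h.1, ?_⟩
    rcases h.2 with (((((h | h) | h) | h) | h) | h) | h
    · exact Or.inl h
    · exact Or.inr (Or.inl h)
    · exact Or.inr (Or.inr (Or.inl h))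
    · exact Or.inr (Or.inr (Or.inr (Or.inl h)))
    · exact Or.inr (Or.inr (Or.inr (Or.inr (Or.inl h))))
    · exact Or.inr (Or.inr (Or.inr (Or.inr (Or.inr (Or.inl h)))))
    · exact Or.inr (Or.inr (Or.inr (Or.inr (Or.inr (Or.inr (Nat.dvd_of_mod_eq_zero h))))))

/-- the list of the bad pairs -/
theorem K3.left_list {e1 D1 : ℕ} {T : Finset ℕ} (he : 0 < e1) (hD : 0 < D1)
    (hco : Nat.Coprime e1 D1) (hT : ∀ r ∈ T, r.Prime ∧ r ∣ e1 * D1)
    (h : 3 * e1 + D1 < 3 * 2 ^ T.card) :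
    (∀ r : ℕ, r.Prime → r ∣ e1 * D1 → r ∈ T) ∧ ((e1 = 1 ∧ D1 = 2) ∨ (e1 = 1 ∧ D1 = 6) ∨
      (e1 = 5 ∧ D1 = 6) ∨ (e1 = 2 ∧ D1 = 3) ∨ (e1 = 2 ∧ D1 = 5) ∨ (e1 = 2 ∧ D1 = 15) ∨
      3 ∣ e1) := by
  classical
  have hx0 : 0 < e1 * D1 := Nat.mul_pos he hD
  have hdvd : ∏ r ∈ T, r ∣ e1 * D1 :=
    K1.prod_dvd (fun r hr => (hT r hr).1) (fun r hr => (hT r hr).2)
  have hle := Nat.le_of_dvd hx0 hdvd
  have h8 : 105 * 8 ^ T.card ≤ 2048 * ∏ r ∈ T, r := by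
    refine K1.pow_card {2, 3, 5, 7} T (fun r hr h4 => ?_) (by decide)
    have hp := (hT r hr).1
    interval_cases r <;> first | (exfalso; revert hp; norm_num; done) | (simp; done)
  have hsq : 12 * (e1 * D1) < 9 * 4 ^ T.card := by
    have h1 : (3 * e1 + D1) * (3 * e1 + D1) < (3 * 2 ^ T.card) * (3 * 2 ^ T.card) :=
      Nat.mul_self_lt_mul_self h
    have h2 : (3 * 2 ^ T.card) * (3 * 2 ^ T.card) = 9 * 4 ^ T.card := by
      have : (4 : ℕ) ^ T.card = 2 ^ T.card * 2 ^ T.card := by rw [← mul_pow]; norm_num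
      rw [this]; ring
    have h3 : 12 * (e1 * D1) ≤ (3 * e1 + D1) * (3 * e1 + D1) := by
      have : (12 : ℤ) * (e1 * D1) ≤ (3 * e1 + D1) * (3 * e1 + D1) := by
        nlinarith [sq_nonneg ((3 : ℤ) * e1 - D1)]
      exact_mod_cast this
    omega
  have hk : T.card < 4 := by
    by_contra hk
    push Not at hk
    have e1' : (8 : ℕ) ^ T.card = 2 ^ T.card * 4 ^ T.card := by rw [← mul_pow]; norm_num
    have h16 : 16 ≤ 2 ^ T.card := by
      have := Nat.pow_le_pow_right (show 1 ≤ 2 by norm_num) hk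
      simpa using this
    have h4p : 0 < 4 ^ T.card := by positivity
    rw [e1'] at h8
    have h5 : 105 * (16 * 4 ^ T.card) ≤ 105 * (2 ^ T.card * 4 ^ T.card) :=
      Nat.mul_le_mul_left _ (Nat.mul_le_mul_right _ h16)
    omega
  have h64 : 4 ^ T.card ≤ 64 := by
    have := Nat.pow_le_pow_right (show 1 ≤ 4 by norm_num) (show T.card ≤ 3 by omega)
    simpa using this
  have h8' : 2 ^ T.card ≤ 8 := by
    have := Nat.pow_le_pow_right (show 1 ≤ 2 by norm_num) (show T.card ≤ 3 by omega)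
    simpa using this
  have hx : e1 * D1 < 48 := by omega
  have hom : T.card ≤ K1.om (e1 * D1) := K1.card_le_om (by omega) hx0 T hT
  obtain ⟨h1, h2⟩ := K3.list_aux (by omega) (by omega) hx hco hk hom h he hD
  refine ⟨fun r hr hrx => ?_, h2⟩
  by_contra hrT
  have h3 : (insert r T).card ≤ K1.om (e1 * D1) := by
    refine K1.card_le_om (by omega) hx0 (insert r T) fun q hq => ?_
    rcases Finset.mem_insert.1 hq with rfl | hq
    · exact ⟨hr, hrx⟩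
    · exact hT q hq
  rw [Finset.card_insert_of_notMem hrT] at h3
  omega

end Pool.Agent.H4G
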