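import Pool.Agent.H4G.Arith.KM
import Pool.Agent.H4G.Arith.KVis

/-!
# `K = 3`: local lemmas for the right exits (helper64)

Content of the right lattice after the exit, the prime two for the types Pr1 and Pr2, the prime
three if `3 ∤ A`, and `3 ∣ φ`.
-/

set_option autoImplicit false

namespace Pool.Agent.H4G

variable {K : ℤ} {S : PSt} {a' b c A a e f Y φ : ℤ} {l p l' p' : Z2}

/-! ## The content -/

/-- a number not dividing `c` does not divide the right lattice -/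
theorem KF.cont_c (h : KF K S a' b c A a e f Y φ l p l' p') {d n τ : ℤ} (hc : ¬ d ∣ c) :
    ¬ (Dz d (l' - n • S.u) ∧ Dz d (p' + τ • S.u)) := by
  rintro ⟨-, h2⟩
  apply hc
  have h3 := h2.cr_right S.u
  rwa [cr_add_right, cr_smul_right, cr_self, h.up', mul_zero, add_zero] at h3

/-- a prime dividing `u` does not divide the right lattice -/
theorem KF.cont_u (h : KF K S a' b c A a e f Y φ l p l' p') {r : ℕ} (hr : r.Prime) {n τ : ℤ}
    (hu : Dz r S.u) : ¬ (Dz r (l' - n • S.u) ∧ Dz r (p' + τ • S.u)) := by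
  rintro ⟨h1, h2⟩
  refine con1_lat.1 h.Cl r hr ⟨?_, ?_⟩
  · have := h1.add (hu.smul n)
    rwa [sub_add_cancel] at this
  · have := h2.sub (hu.smul τ)
    rwa [add_sub_cancel_right] at this

theorem KF.smul_cont (h : KF K S a' b c A a e f Y φ l p l' p') (n : ℤ) :
    K • (l' - n • S.u) = (Y - K * n) • S.u := by
  have : K • (l' - n • S.u) = K • l' - (K * n) • S.u := by module
  rw [this, h.hl']; module

/-- `K = 3`, levels 1 and 3: no content at the odd primes `r ≠ 3`, `r ∣ c → r ∣ A` -/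
theorem KF.cont_r (h : KF 3 S a' b c A a e f Y φ l p l' p') (hF : S.Full) (he3 : e < 3 * A)
    {r : ℕ} (hr : r.Prime) (hr2 : r ≠ 2) (hr3 : r ≠ 3) (hAc : (r : ℤ) ∣ c → (r : ℤ) ∣ A)
    {n τ : ℤ} (hn : n = 1 ∨ n = 3) : ¬ (Dz r (l' - n • S.u) ∧ Dz r (p' + τ • S.u)) := by
  have hri := Nat.prime_iff_prime_int.1 hr
  by_cases hc : (r : ℤ) ∣ c
  swap
  · exact h.cont_c hc
  by_cases hu : Dz r S.u
  · exact h.cont_u hr hu
  have hd2 : ¬ (r : ℤ) ∣ 2 := fun h9 => hr2 ((Nat.prime_dvd_prime_iff_eq hr Nat.prime_two).1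
    (by exact_mod_cast h9))
  have hd3 : ¬ (r : ℤ) ∣ 3 := fun h9 => hr3 ((Nat.prime_dvd_prime_iff_eq hr Nat.prime_three).1
    (by exact_mod_cast h9))
  rintro ⟨h1, -⟩
  have h2 := h1.smul 3
  rw [h.smul_cont] at h2
  have h3 : (r : ℤ) ∣ Y - 3 * n := (h2.mul_prime hr).resolve_right hu
  by_cases hY : (r : ℤ) ∣ Y
  · have h4 : (r : ℤ) ∣ 3 * n := by
      have e1 : 3 * n = Y - (Y - 3 * n) := by ring
      rw [e1]; exact dvd_sub hY h3
    have h5 := (hri.dvd_or_dvd h4).resolve_left hd3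
    rcases hn with rfl | rfl
    · exact prime_not_dvd_one hr h5
    · exact hd3 h5
  · have h4 := h.fd hF (Or.inr rfl) he3 hr hd3 (hAc hc) hc hY (k := 0)
      (by rw [pow_zero]; exact one_dvd _)
    rw [zero_add, pow_one] at h4
    have h5 : (r : ℤ) ∣ 3 * (1 + n) := by
      have e1 : 3 * (1 + n) = (3 + Y) - (Y - 3 * n) := by ring
      rw [e1]; exact dvd_sub h4 h3
    have h6 := (hri.dvd_or_dvd h5).resolve_left hd3
    rcases hn with rfl | rfl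
    · exact hd2 (by norm_num at h6; exact h6)
    · have h7 : (r : ℤ) ∣ 2 * 2 := by norm_num at h6 ⊢; exact h6
      exact (hri.dvd_or_dvd h7).elim hd2 hd2

/-- `K = 3`, level 1: no content at `3` if `3 ∣ A`, `3 ∤ b` -/
theorem KF.cont3 (h : KF 3 S a' b c A a e f Y φ l p l' p') (hF : S.Full) (he3 : e < 3 * A)
    (hAc : A < c) (hA : (3 : ℤ) ∣ A) (hb : ¬ (3 : ℤ) ∣ b) {τ : ℤ} :
    ¬ (Dz 3 (l' - (1 : ℤ) • S.u) ∧ Dz 3 (p' + τ • S.u)) := by
  have hp3 := Nat.prime_three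
  have h3i := Int.prime_three
  by_cases hc : (3 : ℤ) ∣ c
  swap
  · exact h.cont_c hc
  by_cases hu : Dz ((3 : ℕ) : ℤ) S.u
  · exact_mod_cast h.cont_u hp3 (n := 1) (τ := τ) hu
  rintro ⟨h1, -⟩
  have he : (3 : ℤ) ∣ e := by
    have := h.hc
    omega
  have hf : ¬ (3 : ℤ) ∣ f := by
    intro h9
    exact hu (h.dz_u hF (by exact_mod_cast hA) (by exact_mod_cast he) (by exact_mod_cast h9)
      (by exact_mod_cast hc))
  -- `9 ∣ Y - 3`
  have h2 := h.smul_cont 1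
  obtain ⟨x, hx⟩ := h1
  rw [hx] at h2
  have hY3 : (3 : ℤ) ∣ Y := by
    have h4 : Dz ((3 : ℕ) : ℤ) ((Y - 3 * 1) • S.u) := ⟨(3 : ℤ) • x, by rw [← h2]; push_cast; rfl⟩
    have h5 := (h4.mul_prime hp3).resolve_right hu
    push_cast at h5
    omega
  obtain ⟨y, hy⟩ := hY3
  have hy1 : (3 : ℤ) ∣ y - 1 := by
    have h4 : (3 : ℤ) • ((3 : ℤ) • x) = (3 : ℤ) • ((y - 1) • S.u) := by
      rw [h2, hy]; module
    have h5 := smul_inj (by norm_num) h4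
    have h6 : Dz ((3 : ℕ) : ℤ) ((y - 1) • S.u) := ⟨x, by rw [← h5]; push_cast; rfl⟩
    have h7 := (h6.mul_prime hp3).resolve_right hu
    exact_mod_cast h7
  have hXe : cr (S.u + l') l = (1 + y) * e := by
    have h4 := h.hXl
    rw [hy] at h4
    linarith
  have hZe : cr (S.u + l') p = (1 + y) * f := by
    have h4 := h.hZp
    rw [hy] at h4
    linarith
  have hZ : ¬ ((3 : ℕ) : ℤ) ∣ cr (S.u + l') p := by
    rw [hZe]
    push_cast
    intro h9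
    rcases h3i.dvd_or_dvd h9 with h10 | h10
    · omega
    · exact hf h10
  obtain ⟨i0, hi0⟩ := exists_classP hp3 hZ (b - 3) 2
  push_cast at hi0
  obtain ⟨i, y1, y2, y3⟩ := h.up hp3 (α := 0) (b2 := b) (by simp) (by exact_mod_cast hb)
    (i0 := i0) (n := 1)
    (by
      rw [pow_one, hXe]
      push_cast
      exact (he.mul_left _).mul_left _)
    (by
      push_cast
      have e1 : b - i0 * cr (S.u + l') p = 3 - (cr (S.u + l') p * i0 - (b - 3)) := by ring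
      have h12 : (3 : ℤ) ∣ b - i0 * cr (S.u + l') p := by
        rw [e1]; exact dvd_sub (dvd_refl _) ((by norm_num : (3 : ℤ) ∣ 9).trans hi0)
      simpa using h12)
    (fun h9 => by
      have h10 := h9.2
      push_cast at h10
      have h11 := dvd_add h10 hi0
      have e1 : (b - i0 * cr (S.u + l') p) + (cr (S.u + l') p * i0 - (b - 3)) = 3 := by ring
      rw [e1] at h11
      norm_num at h11)
  have hal : Alw l' p' S.u 3 i := by
    rintro ⟨h9, -⟩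
    apply hu
    have h10 : Dz ((3 : ℕ) : ℤ) ((3 : ℤ) • x) := Dz.of_dvd (by norm_num) x
    have h11 := h9.sub h10
    rw [← hx] at h11
    have e1 : l' - (l' - (1 : ℤ) • S.u) = S.u := by module
    rwa [e1] at h11
  have h9 := h.hm3 he3 hAc (g := 3) (by norm_num) (h.con_of y2 hal) (by
    rw [mul_comm]
    rw [pow_one] at y3
    exact_mod_cast y3)
  have := h.A0
  linarith

/-! ## The prime 2 -/

/-- `K = 3`, `e` odd: the gap after the exit is odd if `W` is odd -/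
theorem KF.k3_odd (h : KF 3 S a' b c A a e f Y φ l p l' p') (he : ¬ (2 : ℤ) ∣ e)
    {n q τ W κ : ℤ} (hW : W = 3 * q + τ * Y + n * φ) (hW2 : ¬ (2 : ℤ) ∣ W)
    (hκ : IsC S.L (xvK S l' p' n q τ) κ) : ¬ (2 : ℤ) ∣ κ := by
  intro h9
  have h1 := ((h.xgap hW hκ).1 h9).1
  exact (Int.prime_two.dvd_or_dvd ((dvd_mul_left _ _).trans h1)).elim hW2 he

/-- Pr1: the gap after the exit is odd if `ω` is even -/
theorem KF.pr1_kap (h : KF 3 S a' b c A a e f Y φ l p l' p') (hA : ¬ (2 : ℤ) ∣ A)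
    (he : ¬ (2 : ℤ) ∣ e) (hY : ¬ (2 : ℤ) ∣ Y) {Q : ℤ} (hQ : A * Q = (Y + 3) * c)
    {n o t i ω κ : ℤ} (hω : ω = t * Y + n * φ + i * n * (3 - Q)) (ho : o = 1 ∨ o = -1)
    (hω2 : (2 : ℤ) ∣ ω) (hκ : IsC S.L (xvK S l' p' n (o + i * (1 + n)) (t + i)) κ) :
    ¬ (2 : ℤ) ∣ κ := by
  refine h.k3_odd he rfl ?_ hκ
  rw [KF.W_eq hω]
  have h1 : (2 : ℤ) ∣ Q := by
    have h2 : (2 : ℤ) ∣ A * Q := by
      rw [hQ]; exact Dvd.dvd.mul_right (by omega) _
    exact (Int.prime_two.dvd_or_dvd h2).resolve_left hA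
  have h2 : (2 : ℤ) ∣ i * (Y + 3 + n * Q) := by
    refine Dvd.dvd.mul_left (dvd_add ?_ (h1.mul_left _)) _
    omega
  rcases ho with rfl | rfl <;> omega

/-- content four: not if `4 ∤ c` -/
theorem KF.cont4 (h : KF K S a' b c A a e f Y φ l p l' p') (hc : ¬ (4 : ℤ) ∣ c) {n τ : ℤ} :
    ¬ (Dz 4 (l' - n • S.u) ∧ Dz 4 (p' + τ • S.u)) := h.cont_c hc

/-- `v + l` is even if `c` is more even than `A` -/
theorem KF.vl_even (h : KF K S a' b c A a e f Y φ l p l' p')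
    (hAc : ∀ k : ℕ, (2 : ℤ) ^ k ∣ A → (2 : ℤ) ^ (k + 1) ∣ c) : Dz 2 (S.v + l) := by
  have hp2 := Nat.prime_two
  obtain ⟨s, A1, z1, z2⟩ := exists_pow_mul hp2 h.A0.ne'
  push_cast at z1 z2
  obtain ⟨c1, hc1⟩ := hAc s (by rw [z1]; exact dvd_mul_right _ _)
  have h1 : (2 : ℤ) ^ s • (A1 • (S.v + l)) = (2 : ℤ) ^ s • ((2 * (K * c1)) • S.v) := by
    rw [← mul_smul, ← mul_smul, ← z1, h.Aw, hc1]
    congr 1
    rw [pow_succ]; ring
  have h3 := smul_inj (by positivity) h1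
  have h4 : Dz ((2 : ℕ) : ℤ) (A1 • (S.v + l)) := ⟨(K * c1) • S.v, by
    rw [h3, mul_smul]; push_cast; rfl⟩
  exact_mod_cast (h4.mul_prime hp2).resolve_left (by exact_mod_cast z2)

/-- Pr2: no content two if `φ + τ` is odd -/
theorem KF.pr2_cont (h : KF 3 S a' b c A a e f Y φ l p l' p')
    (hAc : ∀ k : ℕ, (2 : ℤ) ^ k ∣ A → (2 : ℤ) ^ (k + 1) ∣ c) {n τ : ℤ}
    (hτ : ¬ (2 : ℤ) ∣ φ + τ) : ¬ (Dz 2 (l' - n • S.u) ∧ Dz 2 (p' + τ • S.u)) := by
  have hp2 := Nat.prime_two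
  have hvl := h.vl_even hAc
  by_cases hu : Dz ((2 : ℕ) : ℤ) S.u
  · exact_mod_cast h.cont_u hp2 (n := n) (τ := τ) hu
  rintro ⟨-, h2⟩
  have h3 := (h2.smul 3).sub hvl
  have e1 : (3 : ℤ) • (p' + τ • S.u) - (S.v + l) = (φ + 3 * τ) • S.u := by
    have : (3 : ℤ) • (p' + τ • S.u) = (3 : ℤ) • p' + (3 * τ) • S.u := by module
    rw [this, h.hp']; module
  rw [e1] at h3
  have h4 : Dz ((2 : ℕ) : ℤ) ((φ + 3 * τ) • S.u) := by exact_mod_cast h3
  have h5 := (h4.mul_prime hp2).resolve_right hu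
  push_cast at h5
  omega

/-- Pr2 and the content, in terms of `ω` -/
theorem KF.pr2_cont' (h : KF 3 S a' b c A a e f Y φ l p l' p')
    (hAc : ∀ k : ℕ, (2 : ℤ) ^ k ∣ A → (2 : ℤ) ^ (k + 1) ∣ c) (hY : ¬ (2 : ℤ) ∣ Y) {Q : ℤ}
    (hQ : A * Q = (Y + 3) * c) {n t i ω : ℤ} (hn : ¬ (2 : ℤ) ∣ n)
    (hω : ω = t * Y + n * φ + i * n * (3 - Q)) (hω2 : ¬ (2 : ℤ) ∣ ω) :
    ¬ (Dz 2 (l' - n • S.u) ∧ Dz 2 (p' + (t + i) • S.u)) ∧
      ¬ (Dz 4 (l' - n • S.u) ∧ Dz 4 (p' + (t + i) • S.u)) := by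
  have hp2 := Nat.prime_two
  have hQ2 : (2 : ℤ) ∣ Q := by
    obtain ⟨s, A1, z1, z2⟩ := exists_pow_mul hp2 h.A0.ne'
    push_cast at z1 z2
    obtain ⟨c1, hc1⟩ := hAc s (by rw [z1]; exact dvd_mul_right _ _)
    have h1 : A1 * Q = 2 * ((Y + 3) * c1) := by
      refine mul_left_cancel₀ (pow_ne_zero s (by norm_num : (2 : ℤ) ≠ 0)) ?_
      have h2 := hQ
      rw [z1, hc1, pow_succ] at h2
      linear_combination h2
    have h2 : (2 : ℤ) ∣ A1 * Q := ⟨_, h1⟩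
    exact (Int.prime_two.dvd_or_dvd h2).resolve_left z2
  have key : ¬ (2 : ℤ) ∣ φ + (t + i) := by
    intro h9
    apply hω2
    have e1 : ω = (φ + (t + i)) + (Y - 1) * t + (n - 1) * φ + (3 * n - 1) * i - i * n * Q := by
      rw [hω]; ring
    rw [e1]
    refine dvd_sub (dvd_add (dvd_add (dvd_add h9 ?_) ?_) ?_) (hQ2.mul_left _)
    · exact Dvd.dvd.mul_right (by omega) _
    · exact Dvd.dvd.mul_right (by omega) _
    · exact Dvd.dvd.mul_right (by omega) _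
  refine ⟨h.pr2_cont hAc key, fun h9 => h.pr2_cont (n := n) hAc key ⟨?_, ?_⟩⟩
  · exact Dz.trans (by norm_num) h9.1
  · exact Dz.trans (by norm_num) h9.2

/-! ## The prime 3 -/

/-- `3 ∣ φ` in the frames with `3 ∣ A`, `3 ∣ a`, `9 ∤ Y`, if `b` has a prime factor `≠ 2, 3` -/
theorem KF.k3_phi (h : KF 3 S a' b c A a e f Y φ l p l' p') {N : ℕ} (hN : N.Prime)
    (hv : a + A + a' = N) (hY : (3 : ℤ) ∣ Y) (hY9 : ¬ (9 : ℤ) ∣ Y) (hφ : ¬ (3 : ℤ) ∣ φ) :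
    (∀ q : ℕ, q.Prime → q ≠ 2 → q ≠ 3 → ¬ (q : ℤ) ∣ b) ∧
      ∀ k : ℕ, (3 : ℤ) ^ k ∣ b → (3 : ℤ) ^ (k + 1) ∣ e := by
  have hp3 := Nat.prime_three
  have h3i := Int.prime_three
  constructor
  · intro q hq h2 h3 hqb
    have hq3 : ¬ (q : ℤ) ∣ 3 := fun h9 => h3 ((Nat.prime_dvd_prime_iff_eq hq hp3).1
      (by exact_mod_cast h9))
    have h4 := (h.vmob hN hv hp3 (by exact_mod_cast hY) (by exact_mod_cast hφ) hq h2 hq3 (k := 1)
      (by rw [pow_one]; exact hqb)).2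
    rw [pow_one] at h4
    norm_num at h4
    exact h2 ((Nat.prime_dvd_prime_iff_eq hq Nat.prime_two).1 (by exact_mod_cast h4))
  · intro k hk
    obtain ⟨y, hy⟩ := hY
    have hy3 : ¬ (3 : ℤ) ∣ y := by
      rintro ⟨z, hz⟩
      exact hY9 ⟨z, by rw [hy, hz]; ring⟩
    -- `j` with `3 ∣ 1 + j φ`
    obtain ⟨j, hj⟩ : ∃ j : ℤ, (3 : ℤ) ∣ 1 + j * φ := by
      have : φ % 3 = 1 ∨ φ % 3 = 2 := by omega
      rcases this with h9 | h9
      · exact ⟨-1, by omega⟩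
      · exact ⟨1, by omega⟩
    obtain ⟨g, hg⟩ : ∃ g : ℤ, g = Int.gcd Y (1 + j * φ) := ⟨_, rfl⟩
    have hg3 : (3 : ℤ) ∣ g := by
      rw [hg]; exact Int.dvd_coe_gcd ⟨y, hy⟩ hj
    have hgY : g ∣ Y := by rw [hg]; exact Int.gcd_dvd_left _ _
    obtain ⟨g1, hg1⟩ := hg3
    have hg13 : ¬ (3 : ℤ) ∣ g1 := by
      rintro ⟨z, hz⟩
      apply hY9
      exact (Dvd.intro z (by rw [hg1, hz]; ring) : (9 : ℤ) ∣ g).trans hgY
    have h1 := (h.hrigV hg hp3 (Or.inl (by norm_num)) (k := k) (by exact_mod_cast hk)).1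
    push_cast at h1
    have h3 : (3 : ℤ) ^ (k + 1) ∣ (3 * g1 + y) * e := by
      obtain ⟨x, hx⟩ := h1
      refine ⟨g1 * x, ?_⟩
      rw [hg1, hy] at hx
      have : (3 : ℤ) * ((3 * g1 + y) * e) = 3 * (3 ^ (k + 1) * (g1 * x)) := by
        rw [pow_succ]
        linear_combination hx
      linarith
    have h4 : ¬ ((3 : ℕ) : ℤ) ∣ 3 * g1 + y := by push_cast; omega
    have h5 := (isCoprime_of_not_dvd hp3 h4).pow_left (m := k + 1)
    push_cast at h5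
    exact h5.dvd_of_dvd_mul_left h3

/-- `K = 3`, `3 ∤ A`, `3 ∣ b` (type T1) -/
theorem KF.t1_dat (h : KF 3 S a' b c A a e f Y φ l p l' p') (hA : ¬ (3 : ℤ) ∣ A) {k : ℕ}
    (hk : (3 : ℤ) ^ k ∣ b) : (3 : ℤ) ^ (k + 1) ∣ Y + 3 ∧ (3 : ℤ) ∣ φ := by
  have hp3 := Nat.prime_three
  have he : ¬ ((3 : ℕ) : ℤ) ∣ e := by
    push_cast
    have := h.hc
    omega
  have h1 := (h.hrig hp3 (h.alw_odd hp3 (Or.inl (by norm_num))) (k := k)
    (by exact_mod_cast hk)).1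
  have h2 := (isCoprime_of_not_dvd hp3 he).pow_left (m := k + 1)
  push_cast at h1 h2
  rw [← pow_succ'] at h1
  refine ⟨by rw [add_comm Y]; exact h2.dvd_of_dvd_mul_right h1, ?_⟩
  have hvl : Dz ((3 : ℕ) : ℤ) (A • (S.v + l)) := by
    rw [h.Aw]; exact Dz.of_dvd (by push_cast; exact dvd_mul_right _ _) _
  have hvl' := (hvl.mul_prime hp3).resolve_left (by exact_mod_cast hA)
  have h3 : Dz ((3 : ℕ) : ℤ) (φ • S.u) := by
    have h4 : Dz ((3 : ℕ) : ℤ) ((3 : ℤ) • p') := Dz.of_dvd (by norm_num) _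
    have h5 := h4.sub hvl'
    have e1 : (3 : ℤ) • p' - (S.v + l) = φ • S.u := by rw [h.hp']; module
    rwa [e1] at h5
  rcases h3.mul_prime hp3 with h4 | h4
  · exact_mod_cast h4
  · exfalso
    apply hA
    have := h4.cr_left S.v
    rw [h.hA] at this
    exact_mod_cast this

/-- `K = 3`, `3 ∤ A`, `3 ∣ b`: the gap after the exit is prime to `3` if `9 ∤ ω + 3 o` -/
theorem KF.t1_kap (h : KF 3 S a' b c A a e f Y φ l p l' p') (hA : ¬ (3 : ℤ) ∣ A)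
    (hb : (3 : ℤ) ∣ b) {Q : ℤ} (hQ : A * Q = (Y + 3) * c) {n o t i ω κ : ℤ}
    (hω : ω = t * Y + n * φ + i * n * (3 - Q)) (hω9 : ¬ (9 : ℤ) ∣ ω + 3 * o)
    (hκ : IsC S.L (xvK S l' p' n (o + i * (1 + n)) (t + i)) κ) :
    (3 : ℤ) ∣ ω ∧ (9 : ℤ) ∣ Q ∧ ¬ (3 : ℤ) ∣ κ := by
  have hp3 := Nat.prime_three
  obtain ⟨h1, h2⟩ := h.t1_dat hA (k := 1) (by rw [pow_one]; exact hb)
  norm_num at h1
  have he : ¬ ((3 : ℕ) : ℤ) ∣ e := by
    push_cast
    have := h.hc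
    omega
  have hQ9 : (9 : ℤ) ∣ Q := by
    have h3 := (isCoprime_of_not_dvd hp3 (by exact_mod_cast hA : ¬ ((3 : ℕ) : ℤ) ∣ A)).pow_left
      (m := 2)
    push_cast at h3
    refine h3.dvd_of_dvd_mul_left ?_
    rw [hQ]; exact h1.mul_right _
  refine ⟨?_, hQ9, fun h9 => ?_⟩
  · rw [hω]
    refine dvd_add (dvd_add (Dvd.dvd.mul_left (by omega) _) (h2.mul_left _))
      (Dvd.dvd.mul_left (by omega) _)
  · have h3 := ((h.xgap rfl hκ).1 h9).1
    norm_num at h3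
    rw [KF.W_eq hω] at h3
    have h4 := (isCoprime_of_not_dvd hp3 he).pow_left (m := 2)
    push_cast at h4
    have h5 := h4.dvd_of_dvd_mul_right h3
    apply hω9
    have e1 : ω + 3 * o = (ω + 3 * o + i * (Y + 3 + n * Q)) - i * (Y + 3 + n * Q) := by ring
    rw [e1]
    exact dvd_sub h5 ((dvd_add h1 (hQ9.mul_left _)).mul_left _)

end Pool.Agent.H4G
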