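import Pool.Agent.H4G.Arith.K3Three
import Pool.Agent.H4G.Arith.K3Loc64
import Pool.Agent.H4G.Arith.K2Data

/-!
# LINE B, `K = 3`: the prime three for the families of helper9 (helper29)
-/

set_option autoImplicit false

namespace Pool.Agent.H4G

variable {S : PSt} {a' b c A a e f Y φ : ℤ} {l p l' p' : Z2} {g m A0 b0 hh : ℕ}

theorem KD0.thr_co (D : KD0 3 A b c a e g m A0 b0 hh) : ¬ ((3 : ℤ) ∣ g ∧ (3 : ℤ) ∣ m) := by
  rintro ⟨h1, h2⟩
  have h3 : 3 ∣ g := by exact_mod_cast h1
  have h4 : 3 ∣ m := by exact_mod_cast h2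
  have h5 := Nat.dvd_gcd h3 h4
  rw [D.co] at h5
  norm_num at h5

theorem KD0.thr_co' (D : KD0 3 A b c a e g m A0 b0 hh) : ¬ ((3 : ℤ) ∣ A0 ∧ (3 : ℤ) ∣ b0) := by
  rintro ⟨h1, h2⟩
  have h3 : 3 ∣ A0 := by exact_mod_cast h1
  have h4 : 3 ∣ b0 := by exact_mod_cast h2
  have h5 := Nat.dvd_gcd h3 h4
  rw [D.cAb] at h5
  norm_num at h5

/-- the case not `3 ∣ u`, not `3 ∣ v, l`, `3 ∤ φ` is impossible -/
theorem KF.thr_b2 (h : KF 3 S a' b c A a e f Y φ l p l' p') {N : ℕ} (hN : N.Prime)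
    (hv : a + A + a' = N) (he3 : e < 3 * A) (hAc : A < c) (D : KD0 3 A b c a e g m A0 b0 hh)
    (hz : g + m = 2 * A0 ∨ g + m = 6 * A0) (hA2 : ¬ (2 : ℤ) ∣ A)
    (ha : (3 : ℤ) ∣ a) (hA : (3 : ℤ) ∣ A) (hu : ¬ Dz 3 S.u) (hφ : ¬ (3 : ℤ) ∣ φ) : False := by
  have hY3 : (3 : ℤ) ∣ Y := by
    have h3 : Dz 3 (Y • S.u) := by rw [← h.hl']; exact Dz.of_dvd (dvd_refl _) _
    exact h3.thr.resolve_right hu
  have ha' := h.thr_N hN hv ha hA
  have hy := h.hy
  have hYc : ¬ (9 : ℤ) ∣ Y * c := by rw [← hy]; omega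
  obtain ⟨h1, h2⟩ := h.k3_phi hN hv hY3 (fun h9 => hYc (h9.mul_right _)) hφ
  have hDA := D.hA
  have hDe := D.he
  have hDb := D.hb
  have hDc := D.hc
  have hc := h.hc
  have hB0 : (0 : ℤ) < hh * A0 := by
    have := D.h0; have := D.A00
    positivity
  have hzz : ∃ j : ℤ, (g : ℤ) + m = 2 * j * A0 := by
    rcases hz with h3 | h3
    · exact ⟨1, by rw [mul_one]; exact_mod_cast h3⟩
    · exact ⟨3, by norm_num; exact_mod_cast h3⟩
  obtain ⟨j, hj⟩ := hzz
  -- `3 ∤ g`
  have hg3 : ¬ (3 : ℤ) ∣ g := by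
    intro h3
    have hm3 : ¬ (3 : ℤ) ∣ m := fun h4 => D.thr_co ⟨h3, h4⟩
    obtain ⟨s, b1, z1, z2⟩ := exists_pow_mul Nat.prime_three
      (show (hh : ℤ) * b0 ≠ 0 by have := D.h0; have := D.b00; positivity)
    push_cast at z1 z2
    have h4 : (3 : ℤ) ^ (s + 1) ∣ b := by
      rw [hDb, z1, pow_succ, mul_comm ((3 : ℤ) ^ s) 3]
      exact mul_dvd_mul h3 (dvd_mul_right _ _)
    have h5 := h2 _ h4
    rw [hDe] at h5
    have h6 : (3 : ℤ) ^ (s + 1 + 1) ∣ hh * A0 := thr_cancel hm3 h5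
    -- `3 ∣ A0`
    have h7 : (3 : ℤ) ∣ A0 := by
      by_contra h8
      have h9 : (3 : ℤ) ^ (s + 1 + 1) ∣ hh := thr_cancel h8 (by rw [mul_comm]; exact h6)
      have h10 : (3 : ℤ) ^ (s + 1) ∣ 3 ^ s * b1 := by
        rw [← z1]
        exact ((pow_dvd_pow 3 (Nat.le_succ _)).trans h9).mul_right _
      rw [pow_succ] at h10
      exact z2 ((mul_dvd_mul_iff_left (by positivity)).1 h10)
    apply hm3
    have e1 : (m : ℤ) = 2 * j * A0 - g := by rw [← hj]; ring
    rw [e1]
    exact dvd_sub (h7.mul_left _) h3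
  -- `g = 1`
  have hg1 : g = 1 := by
    by_contra h3
    obtain ⟨q, hq, hqg⟩ := Nat.exists_prime_and_dvd h3
    have hqg' : (q : ℤ) ∣ g := by exact_mod_cast hqg
    refine h1 q hq ?_ ?_ (by rw [hDb]; exact hqg'.mul_right _)
    · rintro rfl
      apply hA2
      rw [hDA]
      exact Dvd.dvd.mul_right (by exact_mod_cast hqg') _
    · rintro rfl
      exact hg3 (by exact_mod_cast hqg')
  rw [hg1] at hDA hDc
  push_cast at hDA hDc
  have h3 : 2 * A < e := by linarith
  rw [hDA, hDe] at h3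
  rw [hDA, hDe] at he3
  have h4 : (2 : ℤ) < m := by
    have : 2 * (hh * A0 : ℤ) < m * (hh * A0) := by linarith
    exact lt_of_mul_lt_mul_right this hB0.le
  have h5 : (m : ℤ) < 3 := by
    have : (m : ℤ) * (hh * A0) < 3 * (hh * A0) := by linarith
    exact lt_of_mul_lt_mul_right this hB0.le
  omega

/-- `9 ∤ e`, BAD3: `3 ^ k ∣ b → 3 ^ k ∣ Y + 3` -/
theorem KF.thr_lev3r (h : KF 3 S a' b c A a e f Y φ l p l' p') (he : (3 : ℤ) ∣ e)
    (he9 : ¬ (9 : ℤ) ∣ e) {k : ℕ} (hk : (3 : ℤ) ^ k ∣ b) : (3 : ℤ) ^ k ∣ Y + 3 := by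
  obtain ⟨e1, he1⟩ := he
  have he1' : ¬ (3 : ℤ) ∣ e1 := by omega
  obtain ⟨h1, -⟩ := h.thr_rig hk
  have h2 : (3 : ℤ) * 3 ^ k ∣ 3 * (e1 * (Y + 3)) := by
    have e2 : (3 : ℤ) * (e1 * (Y + 3)) = (3 + Y) * e := by rw [he1]; ring
    rw [e2, ← pow_succ']; exact h1
  exact thr_cancel he1' ((mul_dvd_mul_iff_left (by norm_num : (3 : ℤ) ≠ 0)).1 h2)

/-- **the prime three in the families of helper9** -/
theorem KF.k3_three (h : KF 3 S a' b c A a e f Y φ l p l' p') {N : ℕ} (hN : N.Prime)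
    (hv : a + A + a' = N) (he3 : e < 3 * A) (hAc : A < c) (D : KD0 3 A b c a e g m A0 b0 hh)
    (hz : (g + m = 2 * A0 ∧ b0 = A0 + m) ∨ (hh = 1 ∧ (g + m = 2 * A0 ∨ g + m = 6 * A0)))
    (hA2 : ¬ (2 : ℤ) ∣ A) :
    ¬ (3 : ℤ) ∣ a ∨
    (∀ q τ κ : ℤ, IsC S.L (xvK S l' p' 1 q τ) κ →
      (∀ k : ℕ, (3 : ℤ) ^ k ∣ κ → (3 : ℤ) ^ k ∣ A + 1 * c) ∧
      ((3 : ℤ) ∣ κ → ∀ D' : Z2, κ • D' = (a + (A + 1 * c)) • xvK S l' p' 1 q τ → ¬ Dz 3 D')) ∨
    ((3 : ℤ) ∣ Y ∧ ¬ (9 : ℤ) ∣ Y ∧ (3 : ℤ) ∣ φ ∧ (9 : ℤ) ∣ Y + 3 ∧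
      (∀ R : ℤ, A * R = 3 * ((Y + 3) * c) → (9 : ℤ) ∣ R) ∧
      ∃ w0 : ℤ, ∀ q τ W0 κ : ℤ, 3 * W0 = 3 * q + τ * Y + 1 * φ →
        IsC S.L (xvK S l' p' 1 q τ) κ → ¬ (3 : ℤ) ∣ W0 - w0 → ¬ (3 : ℤ) ∣ κ) ∨
    ((3 : ℤ) ∣ g ∧ (∀ k : ℕ, (3 : ℤ) ^ k ∣ g → (3 : ℤ) ^ (k + 2) ∣ Y + 3) ∧ (27 : ℤ) ∣ Y + 3 ∧
      (3 : ℤ) ∣ φ ∧ ¬ (3 : ℤ) ∣ c ∧ (∀ R : ℤ, A * R = 3 * ((Y + 3) * c) → (9 : ℤ) ∣ R) ∧
      ∀ q τ W0 κ : ℤ, 3 * W0 = 3 * q + τ * Y + 3 * φ → IsC S.L (xvK S l' p' 3 q τ) κ →
        ¬ (3 : ℤ) ∣ W0 → (∀ k : ℕ, (3 : ℤ) ^ k ∣ κ → (3 : ℤ) ^ k ∣ A + 3 * c) ∧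
        ((3 : ℤ) ∣ κ → ∀ D' : Z2, κ • D' = (a + (A + 3 * c)) • xvK S l' p' 3 q τ →
          ¬ Dz 3 D')) := by
  by_cases ha : (3 : ℤ) ∣ a
  swap
  · exact Or.inl ha
  right
  have hn1 : ¬ (3 : ℤ) ∣ 1 := by norm_num
  have hone : ∀ {κ : ℤ}, ¬ (3 : ℤ) ∣ κ → ∀ k : ℕ, (3 : ℤ) ^ k ∣ κ → (3 : ℤ) ^ k ∣ A + 1 * c := by
    intro κ hκ k hk
    rcases Nat.eq_zero_or_pos k with h0 | h0
    · rw [h0, pow_zero]; exact one_dvd _
    · exact absurd ((dvd_pow_self _ h0.ne').trans hk) hκ
  by_cases hA : (3 : ℤ) ∣ A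
  · by_cases hu : Dz 3 S.u
    · by_cases hw : Dz 3 S.v ∧ Dz 3 l
      · left
        intro q τ κ hκ
        obtain ⟨-, -, h3, h4⟩ := h.three_B1x hN hv ha hu hw.1 hw.2 hn1 hκ
        exact ⟨h3, fun _ D hD => h4 D hD⟩
      · exact (h.three_B2 hN hv ha hu hw).elim
    · by_cases hw : Dz 3 S.v ∧ Dz 3 l
      · obtain ⟨k1, k2, k3, k4, k5, k6, k7, k8, -, -⟩ := h.three_B3 hN hv hu hw.1 hw.2
        by_cases hf : (3 : ℤ) ∣ f
        · by_cases hab : (9 : ℤ) ∣ a + b
          · -- BAD3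
            right; right
            have hp3 := h.three_bad hN hv hu hw.1 hw.2 hf hab
            have ha9 : (9 : ℤ) ∣ a := by
              obtain ⟨p0, hp0⟩ := hp3
              obtain ⟨l0, hl0⟩ := hw.2
              rw [← h.ha, hp0, hl0, cr_smul_left, cr_smul_right]
              exact ⟨cr p0 l0, by ring⟩
            have hb9 : (9 : ℤ) ∣ b := by
              obtain ⟨p0, hp0⟩ := hp3
              obtain ⟨v0, hv0⟩ := hw.1
              rw [← h.hb, hp0, hv0, cr_smul_left, cr_smul_right]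
              exact ⟨cr p0 v0, by ring⟩
            have hc3 := D.hc
            have hDA := D.hA
            have hDb := D.hb
            have hDa := D.ha
            have hDe := D.he
            -- `hh` is three times a unit, `A0` a unit
            have hfam : g + m = 2 * A0 ∧ b0 = A0 + m := by
              rcases hz with h1 | ⟨h1, h2⟩
              · exact h1
              · exfalso
                rw [h1] at hc3 hDA
                push_cast at hc3 hDA
                rcases h2 with h2 | h2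
                · have h3 : (g : ℤ) + m = 2 * A0 := by exact_mod_cast h2
                  rw [h3] at hc3
                  have h4 : (3 : ℤ) ∣ A0 := by
                    have h5 : (3 : ℤ) ∣ 2 * (A0 * A0) := ⟨c, by linarith⟩
                    rcases thr_mul h5 with h6 | h6
                    · norm_num at h6
                    · exact (thr_mul h6).elim id id
                  obtain ⟨x, hx⟩ := h4
                  apply k4
                  refine ⟨2 * x * x, ?_⟩
                  rw [hx] at hc3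
                  linarith
                · have h3 : (g : ℤ) + m = 6 * A0 := by exact_mod_cast h2
                  rw [h3] at hc3
                  have hA03 : ¬ (3 : ℤ) ∣ A0 := by
                    rintro ⟨x, hx⟩
                    apply k4
                    refine ⟨6 * x * x, ?_⟩
                    rw [hx] at hc3
                    linarith
                  have hg3 : (3 : ℤ) ∣ g := by
                    rw [hDA, one_mul] at hA
                    exact (thr_mul hA).resolve_right hA03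
                  refine D.thr_co ⟨hg3, ?_⟩
                  have e1 : (m : ℤ) = 3 * (2 * A0) - g := by linarith
                  rw [e1]
                  exact dvd_sub (dvd_mul_right _ _) hg3
            have hz1 : (g : ℤ) + m = 2 * A0 := by exact_mod_cast hfam.1
            have hz2 : (b0 : ℤ) = A0 + m := by exact_mod_cast hfam.2
            rw [hz1] at hc3
            have hA03 : ¬ (3 : ℤ) ∣ A0 := by
              rintro ⟨x, hx⟩
              apply k4
              refine ⟨2 * hh * x * (x : ℤ), ?_⟩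
              rw [hx] at hc3
              have e1 : (3 : ℤ) * c = 3 * (3 * (2 * hh * x * x)) := by rw [hc3]; ring
              linarith
            obtain ⟨h1, hh1⟩ : (3 : ℤ) ∣ hh := by
              have h5 : (3 : ℤ) ∣ hh * (2 * (A0 * A0)) := ⟨c, by linarith⟩
              rcases thr_mul h5 with h6 | h6
              · exact h6
              · exfalso
                rcases thr_mul h6 with h7 | h7
                · norm_num at h7
                · exact (thr_mul h7).elim hA03 hA03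
            have hc' : c = h1 * (2 * (A0 * A0)) := by
              have e1 : (3 : ℤ) * c = 3 * (h1 * (2 * (A0 * A0))) := by rw [hc3, hh1]; ring
              linarith
            have hh3 : ¬ (3 : ℤ) ∣ h1 := fun h2 => k4 (by rw [hc']; exact h2.mul_right _)
            have hb03 : (3 : ℤ) ∣ b0 := by
              by_contra h2
              have h3 : ∀ x : ℤ, (9 : ℤ) ∣ x * (hh * b0) → (3 : ℤ) ∣ x := by
                intro x hx
                have h4 : (3 : ℤ) * 3 ∣ 3 * (x * (h1 * b0)) := by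
                  have e1 : (3 : ℤ) * (x * (h1 * b0)) = x * (hh * b0) := by rw [hh1]; ring
                  rw [e1]; norm_num; exact hx
                have h5 := (mul_dvd_mul_iff_left (by norm_num : (3 : ℤ) ≠ 0)).1 h4
                rcases thr_mul h5 with h6 | h6
                · exact h6
                · exact ((thr_mul h6).elim hh3 h2).elim
              exact D.thr_co ⟨h3 g (by rw [← hDb]; exact hb9), h3 m (by rw [← hDa]; exact ha9)⟩
            have hg3 : (3 : ℤ) ∣ g := by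
              have e1 : (g : ℤ) = 2 * b0 - 3 * m := by rw [hz2]; linarith
              rw [e1]
              exact dvd_sub (hb03.mul_left _) (dvd_mul_right _ _)
            have hm3 : ¬ (3 : ℤ) ∣ m := fun h2 => D.thr_co ⟨hg3, h2⟩
            have he9 : ¬ (9 : ℤ) ∣ e := by
              intro h2
              have h4 : (3 : ℤ) * 3 ∣ 3 * (m * (h1 * A0)) := by
                have e1 : (3 : ℤ) * (m * (h1 * A0)) = e := by rw [hDe, hh1]; ring
                rw [e1]; norm_num; exact h2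
              have h5 := (mul_dvd_mul_iff_left (by norm_num : (3 : ℤ) ≠ 0)).1 h4
              rcases thr_mul h5 with h6 | h6
              · exact hm3 h6
              · exact (thr_mul h6).elim hh3 hA03
            have hA9 : ¬ (9 : ℤ) ∣ A + 3 * c := by
              intro h2
              have h4 : (3 : ℤ) * 3 ∣ 3 * (h1 * (A0 * (g + 2 * A0))) := by
                have e1 : (3 : ℤ) * (h1 * (A0 * (g + 2 * A0))) = A + 3 * c := by
                  rw [hDA, hh1, hc']; ring
                rw [e1]; norm_num; exact h2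
              have h5 := (mul_dvd_mul_iff_left (by norm_num : (3 : ℤ) ≠ 0)).1 h4
              rcases thr_mul h5 with h6 | h6
              · exact hh3 h6
              · rcases thr_mul h6 with h7 | h7
                · exact hA03 h7
                · have h8 : (3 : ℤ) ∣ 2 * A0 := (dvd_add_right hg3).1 h7
                  rcases thr_mul h8 with h9 | h9
                  · norm_num at h9
                  · exact hA03 h9
            obtain ⟨j1, j2, j3, j4, j5⟩ := h.three_lev3 hN hv hu hw.1 hw.2 hp3 he9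
            have hgY : ∀ k : ℕ, (3 : ℤ) ^ k ∣ g → (3 : ℤ) ^ (k + 2) ∣ Y + 3 := by
              intro k hk
              refine h.thr_lev3r k6 he9 ?_
              rw [hDb, hh1]
              obtain ⟨x, hx⟩ := hb03
              obtain ⟨y, hy⟩ := hk
              exact ⟨y * (h1 * x), by rw [hx, hy, pow_add]; ring⟩
            refine ⟨hg3, hgY, ?_, k3, k4, j5, fun q τ W0 κ hW hκ hW3 => ?_⟩
            · have := hgY 1 (by simpa using hg3)
              norm_num at this
              exact this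
            · obtain ⟨x1, x2⟩ := h.three_lev3x hN hv hu hw.1 hw.2 hp3 he9 hA9 (W := 3 * W0) hW hκ
                (by omega)
              exact ⟨x1, fun _ D hD => x2 D hD⟩
          · left
            intro q τ κ hκ
            have h3 := h.three_B3i hN hv hu hw.1 hw.2 hf hab hn1 hκ
            exact ⟨hone h3, fun h4 => absurd h4 h3⟩
        · right; left
          obtain ⟨h1, h2⟩ := h.three_B3Q hN hv hu hw.1 hw.2 hf
          obtain ⟨w0, ⟨w1, hw1⟩, h3⟩ := h.three_B3f hN hv hu hw.1 hw.2 hf 1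
          refine ⟨k1, k2, k3, h1, fun R hR => (h2 R hR).1, w1, fun q τ W0 κ hW hκ h9 => ?_⟩
          exact h3 q τ (3 * W0) κ hW hκ (by omega)
      · exfalso
        have hz' : g + m = 2 * A0 ∨ g + m = 6 * A0 := by
          rcases hz with h1 | h1
          · exact Or.inl h1.1
          · exact h1.2
        by_cases hφ : (3 : ℤ) ∣ φ
        · exact h.three_B3b hN hv hA hφ hu hw ha
        · exact h.thr_b2 hN hv he3 hAc D hz' hA2 ha hA hu hφ
  · right; left
    obtain ⟨he, -, hY, hφ3, hQ⟩ := h.three_T1 ha hA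
    refine ⟨by omega, by omega, hφ3, hY, fun R hR => ?_, 0, fun q τ W0 κ hW hκ h9 => ?_⟩
    · exact thr_cancel9 hA (by
        rw [hR]
        exact Dvd.dvd.mul_left (hY.mul_right _) _)
    · rw [sub_zero] at h9
      intro h5
      have h6 := h.three_T1_kap ha hA (W := 3 * W0) hW hκ h5
      omega

/-- no content at three at level one -/
theorem KF.k3_cont3 (h : KF 3 S a' b c A a e f Y φ l p l' p') (hF : S.Full) {N : ℕ}
    (hN : N.Prime) (hv : a + A + a' = N) (he3 : e < 3 * A) (hAc : A < c)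
    (D : KD0 3 A b c a e g m A0 b0 hh)
    (hz : (g + m = 2 * A0 ∧ b0 = A0 + m) ∨ (hh = 1 ∧ (g + m = 2 * A0 ∨ g + m = 6 * A0)))
    (τ : ℤ) : ¬ (Dz 3 (l' - (1 : ℤ) • S.u) ∧ Dz 3 (p' + τ • S.u)) := by
  by_cases hc : (3 : ℤ) ∣ c
  swap
  · exact h.cont_c hc
  by_cases hu : Dz 3 S.u
  · exact_mod_cast h.cont_u Nat.prime_three (n := 1) (τ := τ) (by exact_mod_cast hu)
  have hY3 : (3 : ℤ) ∣ Y := by
    have h3 : Dz 3 (Y • S.u) := by rw [← h.hl']; exact Dz.of_dvd (dvd_refl _) _
    exact h3.thr.resolve_right hu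
  have hDc := D.hc
  have hDA := D.hA
  have hDa := D.ha
  have hDb := D.hb
  have hDe := D.he
  -- `3 ∣ A`
  have hA : (3 : ℤ) ∣ A := by
    by_contra hA
    have hA03 : ¬ (3 : ℤ) ∣ A0 := fun h1 => hA (by rw [hDA]; exact (h1.mul_left _).mul_left _)
    have hh3 : ¬ (3 : ℤ) ∣ hh := fun h1 => hA (by rw [hDA]; exact (h1.mul_right _).mul_left _)
    have h9 : (9 : ℤ) ∣ 3 * c := by
      have := mul_dvd_mul_left (3 : ℤ) hc
      norm_num at this; exact this
    rw [hDc] at h9
    have h10 : (9 : ℤ) ∣ (g : ℤ) + m := by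
      refine thr_cancel9 (x := hh * A0) ?_ h9
      intro h11
      exact (thr_mul h11).elim hh3 hA03
    have hz' : g + m = 2 * A0 ∨ g + m = 6 * A0 := by
      rcases hz with h1 | h1
      · exact Or.inl h1.1
      · exact h1.2
    rcases hz' with h1 | h1
    · have h2 : (g : ℤ) + m = 2 * A0 := by exact_mod_cast h1
      rw [h2] at h10
      omega
    · have h2 : (g : ℤ) + m = 6 * A0 := by exact_mod_cast h1
      rw [h2] at h10
      omega
  have hy := h.hy
  have ha : ¬ (3 : ℤ) ∣ a := by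
    intro ha
    have ha' := h.thr_N hN hv ha hA
    have h1 : (9 : ℤ) ∣ Y * c := by
      have := mul_dvd_mul hY3 hc
      norm_num at this; exact this
    rw [← hy] at h1
    omega
  have hb : ¬ (3 : ℤ) ∣ b := by
    intro hb
    have hm3 : ¬ (3 : ℤ) ∣ m := fun h1 => ha (by rw [hDa]; exact h1.mul_right _)
    have hhb : ¬ (3 : ℤ) ∣ hh * b0 := fun h1 => ha (by rw [hDa]; exact h1.mul_left _)
    have hg3 : (3 : ℤ) ∣ g := by
      rw [hDb] at hb
      exact (thr_mul hb).resolve_right hhb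
    have he : (3 : ℤ) ∣ e := by
      have := h.hc
      omega
    have hhA : (3 : ℤ) ∣ A0 := by
      rw [hDe] at he
      have h1 := (thr_mul he).resolve_left hm3
      exact (thr_mul h1).resolve_left fun h2 => hhb (h2.mul_right _)
    apply hm3
    have hz' : g + m = 2 * A0 ∨ g + m = 6 * A0 := by
      rcases hz with h1 | h1
      · exact Or.inl h1.1
      · exact h1.2
    rcases hz' with h1 | h1
    · have h2 : (g : ℤ) + m = 2 * A0 := by exact_mod_cast h1
      have e1 : (m : ℤ) = 2 * A0 - g := by linarith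
      rw [e1]; exact dvd_sub (hhA.mul_left _) hg3
    · have h2 : (g : ℤ) + m = 6 * A0 := by exact_mod_cast h1
      have e1 : (m : ℤ) = 6 * A0 - g := by linarith
      rw [e1]; exact dvd_sub (hhA.mul_left _) hg3
  exact h.cont3 hF he3 hAc hA hb

/-- no content at three at level three if `3 ∤ c` -/
theorem KF.k3_cont3' (h : KF 3 S a' b c A a e f Y φ l p l' p') (hc : ¬ (3 : ℤ) ∣ c) (n τ : ℤ) :
    ¬ (Dz 3 (l' - n • S.u) ∧ Dz 3 (p' + τ • S.u)) := h.cont_c hc

end Pool.Agent.H4G
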