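import Pool.Agent.H4G.Arith.K3Data
import Pool.Agent.H4G.Arith.K3Thr9
import Pool.Agent.H4G.Arith.LNum23
import Pool.Agent.H4G.Arith.K3Fam

/-!
# LINE B, `K = 3`: the left criterion and the assembly (helper9)
-/

set_option autoImplicit false

namespace Pool.Agent.H4G

variable {S : PSt} {a' b c A a e f Y φ : ℤ} {l p l' p' : Z2} {g m A0 b0 hh : ℕ}

/-- the families left over by the left criterion -/
theorem KF.k3_left (h : KF 3 S a' b c A a e f Y φ l p l' p') (hF : S.Full) {N : ℕ}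
    (hN : N.Prime) (hv : a + A + a' = N) (hb3 : 3 ≤ b) (hAc : A < c) (hAb : A < b)
    (he3 : e < 3 * A) (D : KD0 3 A b c a e g m A0 b0 hh) :
    ∃ z1 d1 m1 G2 : ℕ, K3F g m A0 b0 hh z1 d1 m1 G2 := by
  classical
  have hX : (0 : ℤ) < hh * A0 := by
    have := D.h0; have := D.A00
    positivity
  have hA0 := h.A0
  have hc3 := h.hc
  have hm2 : 2 * g < m := by
    have h1 : (2 * g : ℤ) * (hh * A0) < m * (hh * A0) := by
      have h2 : 2 * A < e := by linarith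
      rw [D.hA, D.he] at h2
      linarith
    have h2 := lt_of_mul_lt_mul_right h1 hX.le
    exact_mod_cast h2
  have hm3 : m < 3 * g := by
    have h1 : (m : ℤ) * (hh * A0) < (3 * g) * (hh * A0) := by
      have h2 := he3
      rw [D.hA, D.he] at h2
      linarith
    have h2 := lt_of_mul_lt_mul_right h1 hX.le
    exact_mod_cast h2
  have hgm : g < m := by omega
  have hAb0 : A0 < b0 := by
    have h1 : ((g : ℤ) * hh) * A0 < ((g : ℤ) * hh) * b0 := by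
      have h2 := hAb
      rw [D.hA, D.hb] at h2
      linarith
    have h3 : (0 : ℤ) < g * hh := by
      have := D.h0; have := D.g0
      positivity
    have h2 := lt_of_mul_lt_mul_left h1 h3.le
    exact_mod_cast h2
  obtain ⟨G1, G2, z1, d1, A1, m1, L⟩ := exists_LNum D.g0 D.co D.cAb hAb0
  have hh9 : hh ∣ 9 := by
    have h1 := h.hh_sq hN hv D
    have h2 : (hh : ℤ) ∣ ((9 : ℕ) : ℤ) := by norm_num at h1 ⊢; exact h1
    exact_mod_cast h2
  have hz0 : 0 < z1 := Nat.pos_of_ne_zero fun h0 => by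
    have h1 := L.hz
    rw [h0, zero_mul] at h1; omega
  have hd0 : 0 < d1 := Nat.pos_of_ne_zero fun h0 => by
    have h1 := L.hd
    rw [h0, zero_mul] at h1; omega
  have hA10 : 0 < A1 := Nat.pos_of_ne_zero fun h0 => by
    have h1 := L.hA; have := D.A00
    rw [h0, zero_mul] at h1; omega
  have hm10 : 0 < m1 := Nat.pos_of_ne_zero fun h0 => by
    have h1 := L.hm
    rw [h0, zero_mul] at h1; omega
  -- `3` does not divide `A1 m1` through `T`
  have h3m : ¬ (3 : ℤ) ∣ A → ¬ 3 ∣ m1 := by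
    intro h1 h2
    apply h1
    have h3 : (3 : ℤ) ∣ e := by
      rw [D.he]
      refine Dvd.dvd.mul_right ?_ _
      have : 3 ∣ m := by rw [L.hm]; exact h2.mul_right _
      exact_mod_cast this
    have h4 : (3 : ℤ) ∣ A + e := by rw [← hc3]; exact dvd_mul_right _ _
    exact (dvd_add_left h3).1 h4
  have hco1 : ∀ r : ℕ, r.Prime → r ∣ z1 * d1 → ¬ r ∣ A1 * m1 := by
    intro r hr h1 h2
    have h3 := Nat.dvd_gcd h1 h2
    rw [L.co] at h3
    exact hr.one_lt.ne' (Nat.dvd_one.1 h3)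
  have ha'0 : a'.natAbs ≠ 0 := by
    have := h.a'0
    omega
  have hmem : ∀ r : ℕ, r.Prime → (r : ℤ) ∣ a' → r ∈ a'.natAbs.primeFactors := fun r hr h1 =>
    Nat.mem_primeFactors.2 ⟨hr, Int.natCast_dvd.1 h1, ha'0⟩
  have hlist : ∀ T : Finset ℕ, (∀ r ∈ T, r.Prime ∧ r ∣ A1 * m1 * (z1 * d1)) →
      ¬ G1 * G2 * 2 ^ T.card < (m - g) * (A0 + b0) →
      (∀ r : ℕ, r.Prime → r ∣ A1 * m1 * (z1 * d1) → r ∈ T) ∧
      ((A1 * m1 = 1 ∧ z1 * d1 = 2) ∨ (A1 * m1 = 1 ∧ z1 * d1 = 6) ∨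
      (A1 * m1 = 5 ∧ z1 * d1 = 6) ∨ (A1 * m1 = 2 ∧ z1 * d1 = 3) ∨
      (A1 * m1 = 2 ∧ z1 * d1 = 5) ∨ (A1 * m1 = 2 ∧ z1 * d1 = 15) ∨ 3 ∣ A1 * m1) := by
    intro T hT hM
    refine K3.left_list (Nat.mul_pos hA10 hm10) (Nat.mul_pos hz0 hd0) L.co.symm hT ?_
    refine K3.left_ineq (g := g) (m := m) (A0 := A0) (G1 := G1) (G2 := G2) D.A00 hm2
      (by rw [mul_comm]; exact L.hA) (by rw [mul_comm]; exact L.hz)
      (by rw [mul_comm]; exact L.hm) hd0 L.G20 ?_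
    push Not at hM
    have e1 : (m - g) * (2 * A0 + G2 * d1) = (m - g) * (A0 + b0) := by
      rw [L.hd]; ring
    rw [e1, mul_comm (2 ^ T.card)]
    exact hM
  by_cases hP0 : ¬ (2 : ℤ) ∣ A ∧ (2 : ℤ) ∣ e
  · exfalso
    set T := a'.natAbs.primeFactors.filter (fun r : ℕ => r ≠ 2 ∧ ((¬ (r : ℤ) ∣ A ∧ r ∣ z1) ∨
      (r = 3 ∧ 3 ∣ z1 * d1) ∨ (¬ (r : ℤ) ∣ A ∧ r ∣ m1))) with hT
    have hTm : ∀ r : ℕ, r ∈ T → r.Prime ∧ r ≠ 2 ∧ ((¬ (r : ℤ) ∣ A ∧ r ∣ z1) ∨
      (r = 3 ∧ 3 ∣ z1 * d1) ∨ (¬ (r : ℤ) ∣ A ∧ r ∣ m1)) := by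
      intro r hr
      rw [hT, Finset.mem_filter] at hr
      exact ⟨Nat.prime_of_mem_primeFactors hr.1, hr.2⟩
    obtain ⟨h1, h2⟩ := hlist T (fun r hr => by
        obtain ⟨g1, -, g3⟩ := hTm r hr
        refine ⟨g1, ?_⟩
        rcases g3 with ⟨-, g4⟩ | ⟨rfl, g4⟩ | ⟨-, g4⟩
        · exact (g4.mul_right d1).mul_left _
        · exact g4.mul_left _
        · exact (g4.mul_left A1).mul_right _)
      (fun hM => h.left_num0 hF hN hv hb3 hAc hAb he3 hP0.1 hP0.2 D.hA D.he D.hb D.ha hgm L T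
        (fun r hr => (hTm r hr).1)
        (fun r hr hr2 k1 k2 _ k4 => by
          rw [hT, Finset.mem_filter]
          exact ⟨hmem r hr k1, hr2, Or.inl ⟨k2, k4⟩⟩)
        (fun k1 _ _ _ k5 => by
          rw [hT, Finset.mem_filter]
          exact ⟨hmem 3 Nat.prime_three (by exact_mod_cast k1), by norm_num,
            Or.inr (Or.inl ⟨rfl, k5⟩)⟩)
        (fun r hr hr2 k1 k2 k3 => by
          rw [hT, Finset.mem_filter]
          exact ⟨hmem r hr k1, hr2, Or.inr (Or.inr ⟨k2, k3⟩)⟩) hM)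
    by_cases h22 : 2 ∣ A1 * m1 * (z1 * d1)
    · exact (hTm 2 (h1 2 Nat.prime_two h22)).2.1 rfl
    · have h33 : 3 ∣ A1 * m1 := by
        rcases h2 with ⟨k1, k2⟩ | ⟨k1, k2⟩ | ⟨k1, k2⟩ | ⟨k1, k2⟩ | ⟨k1, k2⟩ | ⟨k1, k2⟩ | k1
        · exfalso; apply h22; rw [k1, k2]; try norm_num
        · exfalso; apply h22; rw [k1, k2]; try norm_num
        · exfalso; apply h22; rw [k1, k2]; try norm_num
        · exfalso; apply h22; rw [k1, k2]; try norm_num
        · exfalso; apply h22; rw [k1, k2]; try norm_num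
        · exfalso; apply h22; rw [k1, k2]; try norm_num
        · exact k1
      obtain ⟨-, -, g3⟩ := hTm 3 (h1 3 Nat.prime_three (h33.mul_right _))
      rcases g3 with ⟨-, g4⟩ | ⟨-, g4⟩ | ⟨g4, g5⟩
      · exact hco1 3 Nat.prime_three (g4.mul_right d1) h33
      · exact hco1 3 Nat.prime_three g4 h33
      · exact h3m (by exact_mod_cast g4) g5
  · set T := a'.natAbs.primeFactors.filter (fun r : ℕ => (¬ (r : ℤ) ∣ A ∧ r ∣ z1) ∨
      (r = 3 ∧ 3 ∣ z1 * d1) ∨ (¬ (r : ℤ) ∣ A ∧ r ∣ m1)) with hT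
    have hTm : ∀ r : ℕ, r ∈ T → r.Prime ∧ (r : ℤ) ∣ a' ∧ ((¬ (r : ℤ) ∣ A ∧ r ∣ z1) ∨
      (r = 3 ∧ 3 ∣ z1 * d1) ∨ (¬ (r : ℤ) ∣ A ∧ r ∣ m1)) := by
      intro r hr
      rw [hT, Finset.mem_filter] at hr
      exact ⟨Nat.prime_of_mem_primeFactors hr.1,
        Int.natCast_dvd.2 (Nat.dvd_of_mem_primeFactors hr.1), hr.2⟩
    obtain ⟨h1, h2⟩ := hlist T (fun r hr => by
        obtain ⟨g1, -, g3⟩ := hTm r hr
        refine ⟨g1, ?_⟩
        rcases g3 with ⟨-, g4⟩ | ⟨rfl, g4⟩ | ⟨-, g4⟩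
        · exact (g4.mul_right d1).mul_left _
        · exact g4.mul_left _
        · exact (g4.mul_left A1).mul_right _)
      (fun hM => h.left_num hF hN hv hb3 hAc hAb (by linarith) D.hA D.he D.hb D.ha hgm L T
        (fun r hr => (hTm r hr).1)
        (fun r hr k1 k2 _ k4 => by
          rw [hT, Finset.mem_filter]
          exact ⟨hmem r hr k1, Or.inl ⟨k2, k4⟩⟩)
        (fun r hr k1 _ _ k4 _ k6 => by
          have hr3 : r = 3 := by
            have k7 : r ∣ 3 := by exact_mod_cast k4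
            exact (Nat.prime_dvd_prime_iff_eq hr Nat.prime_three).1 k7
          subst hr3
          rw [hT, Finset.mem_filter]
          exact ⟨hmem 3 hr k1, Or.inr (Or.inl ⟨rfl, k6⟩)⟩)
        (fun r hr k1 k2 k3 _ _ => by
          rw [hT, Finset.mem_filter]
          exact ⟨hmem r hr k1, Or.inr (Or.inr ⟨k2, k3⟩)⟩) hM)
    have h33 : ¬ 3 ∣ A1 * m1 := by
      intro h33
      obtain ⟨-, -, g3⟩ := hTm 3 (h1 3 Nat.prime_three (h33.mul_right _))
      rcases g3 with ⟨-, g4⟩ | ⟨-, g4⟩ | ⟨g4, g5⟩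
      · exact hco1 3 Nat.prime_three (g4.mul_right d1) h33
      · exact hco1 3 Nat.prime_three g4 h33
      · exact h3m (by exact_mod_cast g4) g5
    have h22 : 2 ∣ A1 * m1 * (z1 * d1) := by
      rcases h2 with ⟨k1, k2⟩ | ⟨k1, k2⟩ | ⟨k1, k2⟩ | ⟨k1, k2⟩ | ⟨k1, k2⟩ | ⟨k1, k2⟩ | k1
      · rw [k1, k2]; try norm_num
      · rw [k1, k2]; try norm_num
      · rw [k1, k2]; try norm_num
      · rw [k1, k2]; try norm_num
      · rw [k1, k2]; try norm_num
      · rw [k1, k2]; try norm_num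
      · exact absurd k1 h33
    obtain ⟨hAo, h2z⟩ : ¬ (2 : ℤ) ∣ A ∧ 2 ∣ z1 := by
      obtain ⟨-, -, g3⟩ := hTm 2 (h1 2 Nat.prime_two h22)
      rcases g3 with ⟨g4, g5⟩ | ⟨g4, -⟩ | ⟨g4, g5⟩
      · exact ⟨by exact_mod_cast g4, g5⟩
      · exact absurd g4 (by norm_num)
      · exfalso
        refine hP0 ⟨by exact_mod_cast g4, ?_⟩
        rw [D.he]
        refine Dvd.dvd.mul_right ?_ _
        have : 2 ∣ m := by rw [L.hm]; exact g5.mul_right _
        exact_mod_cast this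
    have heo : ¬ (2 : ℤ) ∣ e := fun h3 => hP0 ⟨hAo, h3⟩
    have h2e : ¬ 2 ∣ A1 * m1 := hco1 2 Nat.prime_two (h2z.mul_right d1)
    have hgo : ¬ 2 ∣ g := by
      intro h3
      apply hAo
      rw [D.hA]
      exact Dvd.dvd.mul_right (by exact_mod_cast h3) _
    have hmo : ¬ 2 ∣ m := by
      intro h3
      apply heo
      rw [D.he]
      exact Dvd.dvd.mul_right (by exact_mod_cast h3) _
    have hAoo : ¬ 2 ∣ A0 := by
      intro h3
      apply hAo
      rw [D.hA]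
      exact Dvd.dvd.mul_left (Dvd.dvd.mul_left (by exact_mod_cast h3) _) _
    have hm5 : A1 = 1 ∧ (m1 = 1 ∨ m1 = 5) ∧ (A1 * m1 = 1 → m1 = 1) := by
      rcases h2 with ⟨k1, k2⟩ | ⟨k1, k2⟩ | ⟨k1, k2⟩ | ⟨k1, k2⟩ | ⟨k1, k2⟩ | ⟨k1, k2⟩ | k1
      · obtain ⟨k3, k4⟩ := mul_eq_one.1 k1
        exact ⟨k3, Or.inl k4, fun _ => k4⟩
      · obtain ⟨k3, k4⟩ := mul_eq_one.1 k1
        exact ⟨k3, Or.inl k4, fun _ => k4⟩
      · have h5 : 5 ∣ A1 * m1 := by rw [k1]
        obtain ⟨-, -, g3⟩ := hTm 5 (h1 5 (by norm_num) (h5.mul_right _))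
        have h6 : 5 ∣ m1 := by
          rcases g3 with ⟨-, g4⟩ | ⟨g4, -⟩ | ⟨-, g4⟩
          · exact absurd h5 (hco1 5 (by norm_num) (g4.mul_right d1))
          · exact absurd g4 (by norm_num)
          · exact g4
        obtain ⟨w, hw⟩ := h6
        have h7 : A1 * w = 1 := by
          have h8 : 5 * (A1 * w) = 5 * 1 := by
            calc 5 * (A1 * w) = A1 * (5 * w) := by ring
              _ = A1 * m1 := by rw [hw]
              _ = 5 * 1 := by rw [k1]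
          exact Nat.eq_of_mul_eq_mul_left (by norm_num) h8
        obtain ⟨k3, k4⟩ := mul_eq_one.1 h7
        rw [k4] at hw
        exact ⟨k3, Or.inr hw, fun h9 => by rw [h9] at k1; omega⟩
      · exfalso; apply h2e; rw [k1]
      · exfalso; apply h2e; rw [k1]
      · exfalso; apply h2e; rw [k1]
      · exact absurd k1 h33
    obtain ⟨hA11, hm15, hm11⟩ := hm5
    have hG1 : G1 = A0 := by have := L.hA; rw [hA11, one_mul] at this; exact this.symm
    have h6c : z1 * d1 = 6 → hh = 1 ∧ ((z1 = 2 ∧ d1 = 3) ∨ (z1 = 6 ∧ d1 = 1)) := by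
      intro k2
      have h3d : 3 ∣ z1 * d1 := by rw [k2]; norm_num
      obtain ⟨-, g2, -⟩ := hTm 3 (h1 3 Nat.prime_three (h3d.mul_left _))
      have g2' : (3 : ℤ) ∣ a' := by exact_mod_cast g2
      have h3h : ¬ 3 ∣ hh := by
        intro k3
        have k3' : (3 : ℤ) ∣ hh := by exact_mod_cast k3
        have k4 : (3 : ℤ) ∣ A := by
          rw [D.hA]; exact (k3'.mul_right _).mul_left _
        have k5 : (3 : ℤ) ∣ a := by
          rw [D.ha]; exact (k3'.mul_right _).mul_left _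
        have k6 : (3 : ℤ) ∣ (N : ℤ) := by rw [← hv]; exact dvd_add (dvd_add k5 k4) g2'
        have k7 : 3 ∣ N := by exact_mod_cast k6
        have k8 := (Nat.prime_dvd_prime_iff_eq Nat.prime_three hN).1 k7
        have k9 := Int.le_of_dvd h.a0 k5
        have k10 := (h.lt_N hv).1
        rw [← k8] at k10
        push_cast at k10
        linarith
      constructor
      · obtain ⟨w, hw1, hw⟩ := (Nat.dvd_prime_pow Nat.prime_three).1
          (show hh ∣ 3 ^ 2 by simpa using hh9)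
        rcases Nat.eq_zero_or_pos w with hw0 | hw0
        · rw [hw, hw0, pow_zero]
        · exact absurd (by rw [hw]; exact dvd_pow_self _ hw0.ne') h3h
      · obtain ⟨w, hw⟩ := h2z
        have h7 : w * d1 = 3 := by
          have h8 : 2 * (w * d1) = 2 * 3 := by
            calc 2 * (w * d1) = 2 * w * d1 := by ring
              _ = 2 * 3 := by rw [← hw, k2]
          exact Nat.eq_of_mul_eq_mul_left (by norm_num) h8
        have h8 : w ∣ 3 := ⟨d1, h7.symm⟩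
        rcases (Nat.dvd_prime Nat.prime_three).1 h8 with h9 | h9
        · left; rw [h9] at h7 hw; omega
        · right; rw [h9] at h7 hw; omega
    refine ⟨z1, d1, m1, G2, ⟨hgo, hmo, hAoo, hh9, hm2, hm3, ?_, L.hm, L.hd, hm15, ?_⟩⟩
    · have := L.hz; rw [hG1] at this; exact this
    · rcases h2 with ⟨k1, k2⟩ | ⟨k1, k2⟩ | ⟨k1, k2⟩ | ⟨k1, k2⟩ | ⟨k1, k2⟩ | ⟨k1, k2⟩ | k1
      · left
        obtain ⟨w, hw⟩ := h2z
        have h7 : w * d1 = 1 := by
          have h8 : 2 * (w * d1) = 2 * 1 := by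
            calc 2 * (w * d1) = 2 * w * d1 := by ring
              _ = 2 * 1 := by rw [← hw, k2]
          exact Nat.eq_of_mul_eq_mul_left (by norm_num) h8
        obtain ⟨k3, k4⟩ := mul_eq_one.1 h7
        exact ⟨by rw [hw, k3, mul_one], k4, hm11 k1⟩
      · exact Or.inr (h6c k2)
      · exact Or.inr (h6c k2)
      · exfalso; apply h2e; rw [k1]
      · exfalso; apply h2e; rw [k1]
      · exfalso; apply h2e; rw [k1]
      · exact absurd k1 h33

/-- **the row `K = 3`** -/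
theorem KF.k3_end (h : KF 3 S a' b c A a e f Y φ l p l' p') (hF : S.Full) {N : ℕ}
    (hN : N.Prime) (hv : a + A + a' = N) (hb3 : 3 ≤ b) (hAc : A < c) (hAb : A < b)
    (he3 : e < 3 * A) : ∃ (T : PSt) (d : ℤ), SEq S T ∧ IsC T.L T.v d ∧ d ≤ 2 := by
  obtain ⟨g, m, A0, b0, hh, D⟩ := h.data0
  obtain ⟨z1, d1, m1, G2, F⟩ := h.k3_left hF hN hv hb3 hAc hAb he3 D
  obtain ⟨n0, H⟩ := h.k3_data hN hv D F
  obtain ⟨j, φ1, l1', p1', -, h2, -, hn⟩ := h.norm 1 0 (fun _ => by norm_num)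
  have hS := h.vseq j
  have hF1 : (vst S l p j).Full := hS.full.1 hF
  have N1 : ∀ r : ℕ, r.Prime → r ≠ 2 → r ≠ 3 → (r : ℤ) ∣ e → (r : ℤ) ∣ b → ¬ (r : ℤ) ∣ A →
      ¬ (r : ℤ) ∣ f + j * (a + b - A) := by
    intro r hr hr2 hr3 hre hrb _
    have hK := K3.not_three hr hr3
    refine hn r hr hr2 hre (h.D0 hN hv hr hK hrb hre) fun hY => ?_
    exfalso
    have h5 := h.visA0 hN hv hr hr2 hK (k := 1) (by simpa using hrb)
    rw [pow_one] at h5
    exact hK ((dvd_add_left hY).1 h5)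
  have hz : (g + m = 2 * A0 ∧ b0 = A0 + m) ∨ (hh = 1 ∧ (g + m = 2 * A0 ∨ g + m = 6 * A0)) := by
    have e1 := F.hz; have e2 := F.hm; have e3 := F.hb
    rcases F.hzd with ⟨k1, k2, k3⟩ | ⟨k0, ⟨k1, -⟩ | ⟨k1, -⟩⟩
    · left
      rw [k1] at e1; rw [k3, one_mul] at e2; rw [k2, one_mul] at e3
      exact ⟨e1, by rw [e3, ← e2]⟩
    · right; rw [k1] at e1; exact ⟨k0, Or.inl e1⟩
    · right; rw [k1] at e1; exact ⟨k0, Or.inr e1⟩
  -- `9 ∣ R` gives `9 ∣ n0` if `3 ∣ g`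
  have hR9 : (9 : ℤ) ∣ (n0 : ℤ) * (g + m) → 3 ∣ g → 9 ∣ n0 := by
    intro k1 k2
    have k3 : 9 ∣ n0 * (g + m) := by exact_mod_cast k1
    have k4 : ¬ 3 ∣ g + m := by
      intro k5
      have k6 := Nat.dvd_gcd k2 ((Nat.dvd_add_right k2).1 k5)
      rw [D.co] at k6
      norm_num at k6
    have k5 : Nat.Coprime 9 (g + m) := by
      have : Nat.Coprime (3 ^ 2) (g + m) :=
        ((Nat.prime_three.coprime_iff_not_dvd).2 k4).pow_left 2
      simpa using this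
    exact k5.dvd_of_dvd_mul_right k3
  suffices HH : ∃ (T : PSt) (d : ℤ), SEq (vst S l p j) T ∧ IsC T.L T.v d ∧ d ≤ 2 by
    obtain ⟨T, d, k1, k2, k3⟩ := HH
    exact ⟨T, d, hS.trans k1, k2, k3⟩
  have C3 := h2.k3_cont3 hF1 hN hv he3 hAc D hz
  rcases h2.k3_three hN hv he3 hAc D hz H.Aodd with h3 | h3 | ⟨g1, g2, g3, g4, g5, w0, g6⟩ |
    ⟨g1, -, -, g4, g5, g6, g7⟩
  · exact h2.k3_levOne hF1 hN hv he3 hAc N1 H (Or.inl fun k1 => absurd k1 h3) C3
  · exact h2.k3_levOne hF1 hN hv he3 hAc N1 H (Or.inl fun _ => h3) C3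
  · refine h2.k3_levOne hF1 hN hv he3 hAc N1 H (Or.inr ⟨?_, ?_⟩) C3
    · by_cases k1 : 3 ∣ g
      · exact Dvd.dvd.trans (by norm_num) (hR9 (g5 _ H.A_R) k1)
      · have k2 : 3 ∣ g * n0 := by
          have k3 : (3 : ℤ) ∣ ((g * n0 : ℕ) : ℤ) := by
            push_cast
            rw [← H.hY]
            exact Dvd.dvd.trans (by norm_num) g4
          exact_mod_cast k3
        exact ((Nat.Prime.dvd_mul Nat.prime_three).1 k2).resolve_left k1
    · obtain ⟨Y', hY'⟩ := g1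
      obtain ⟨φ', hφ'⟩ := g3
      refine ⟨Y', φ', w0, hY', fun k1 => g2 ?_, hφ', g6⟩
      obtain ⟨w, hw⟩ := k1
      exact ⟨w, by rw [hY', hw]; ring⟩
  · have k1 : 3 ∣ g := by exact_mod_cast g1
    exact h2.k3_levThree hF1 hN hv he3 hAc N1 H k1 (hR9 (g6 _ H.A_R) k1) g4 g5 g7

end Pool.Agent.H4G
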