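import Pool.Agent.H4G.Arith.K3End
import Pool.Agent.H4G.Arith.K2Data

/-!
# `K = 3`: the number data of the families left over by the left criterion (helper9)
-/

set_option autoImplicit false

namespace Pool.Agent.H4G

variable {S : PSt} {a' b c A a e f Y φ : ℤ} {l p l' p' : Z2}
  {g m A0 b0 hh z1 d1 m1 G2 : ℕ}

/-- the families -/
structure K3F (g m A0 b0 hh z1 d1 m1 G2 : ℕ) : Prop where
  go : ¬ 2 ∣ g
  mo : ¬ 2 ∣ m
  Ao : ¬ 2 ∣ A0
  h9 : hh ∣ 9
  m2 : 2 * g < m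
  m3 : m < 3 * g
  hz : g + m = z1 * A0
  hm : m = m1 * G2
  hb : b0 = A0 + d1 * G2
  hm1 : m1 = 1 ∨ m1 = 5
  hzd : (z1 = 2 ∧ d1 = 1 ∧ m1 = 1) ∨ (hh = 1 ∧ ((z1 = 2 ∧ d1 = 3) ∨ (z1 = 6 ∧ d1 = 1)))

theorem K3F.g3 (F : K3F g m A0 b0 hh z1 d1 m1 G2) : 3 ≤ g := by
  have h1 := F.m2; have h2 := F.m3; have h3 := F.go
  have : g ≠ 2 := by rintro rfl; exact h3 (dvd_refl _)
  omega

theorem K3F.hodd (F : K3F g m A0 b0 hh z1 d1 m1 G2) : ¬ 2 ∣ hh := fun h => by
  have := h.trans F.h9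
  omega

theorem K3F.b11 (F : K3F g m A0 b0 hh z1 d1 m1 G2) : 11 ≤ b0 := by
  have h1 := F.m2; have h2 := F.m3; have h3 := F.go; have h4 := F.mo
  have h5 := F.hz; have h6 := F.hm; have h7 := F.hb
  rcases F.hm1 with h8 | h8
  · subst h8
    rw [one_mul] at h6
    rcases F.hzd with ⟨h9, h10, -⟩ | ⟨-, ⟨h9, h10⟩ | ⟨h9, h10⟩⟩
    · subst h9 h10; omega
    · subst h9 h10; omega
    · subst h9 h10; omega
  · subst h8
    rcases F.hzd with ⟨-, -, h10⟩ | ⟨-, ⟨h9, h10⟩ | ⟨h9, h10⟩⟩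
    · omega
    · subst h9 h10
      rcases (show G2 = 0 ∨ G2 = 1 ∨ G2 = 2 ∨ G2 = 3 ∨ G2 = 4 ∨ G2 = 5 ∨ G2 = 6 ∨ 7 ≤ G2
        by omega) with h | h | h | h | h | h | h | h <;> omega
    · subst h9 h10
      rcases (show G2 = 0 ∨ G2 = 1 ∨ G2 = 2 ∨ G2 = 3 ∨ G2 = 4 ∨ G2 = 5 ∨ G2 = 6 ∨ 7 ≤ G2
        by omega) with h | h | h | h | h | h | h | h <;> omega

theorem KF.k3_Yodd (h : KF 3 S a' b c A a e f Y φ l p l' p') {N : ℕ} (hN : N.Prime)
    (hv : a + A + a' = N) (D : KD0 3 A b c a e g m A0 b0 hh)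
    (F : K3F g m A0 b0 hh z1 d1 m1 G2) : ¬ (2 : ℤ) ∣ Y := by
  intro hY
  have hAo : ¬ (2 : ℤ) ∣ A := by
    rw [D.hA]
    intro h1
    have h2 : 2 ∣ g * (hh * A0) := by exact_mod_cast h1
    rcases (Nat.Prime.dvd_mul Nat.prime_two).1 h2 with h3 | h3
    · exact F.go h3
    · rcases (Nat.Prime.dvd_mul Nat.prime_two).1 h3 with h4 | h4
      · exact F.hodd h4
      · exact F.Ao h4
  have hc2 : (2 : ℤ) ∣ c := by
    have h1 : 2 ∣ g + m := by have := F.go; have := F.mo; omega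
    have h2 : (2 : ℤ) ∣ 3 * c := by
      rw [D.hc]
      exact Dvd.dvd.mul_left (by exact_mod_cast h1) _
    omega
  by_cases hφ : (2 : ℤ) ∣ φ
  · have h1 : Dz 2 (S.v + l) := h.vl_even fun k hk => by
      rcases Nat.eq_zero_or_pos k with h0 | h0
      · rw [h0]; simpa using hc2
      · exact absurd ((dvd_pow_self _ h0.ne').trans hk) hAo
    have h3' : ¬ ((2 : ℕ) : ℤ) ∣ 3 := by norm_num
    have h2 : Dz ((2 : ℕ) : ℤ) l' := by
      have h3 : Dz ((2 : ℕ) : ℤ) ((3 : ℤ) • l') := by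
        rw [h.hl']; exact Dz.of_dvd (by exact_mod_cast hY) _
      exact (h3.mul_prime Nat.prime_two).resolve_left h3'
    have h4 : Dz ((2 : ℕ) : ℤ) p' := by
      have h3 : Dz ((2 : ℕ) : ℤ) ((3 : ℤ) • p') := by
        rw [h.hp']
        exact (Dz.of_dvd (by exact_mod_cast hφ) _).add (by exact_mod_cast h1)
      exact (h3.mul_prime Nat.prime_two).resolve_left h3'
    exact con1_lat.1 h.Cl 2 Nat.prime_two ⟨h2, h4⟩
  · have hY2 : ((2 : ℕ) : ℤ) ∣ Y := by exact_mod_cast hY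
    have hφ2 : ¬ ((2 : ℕ) : ℤ) ∣ φ := by exact_mod_cast hφ
    have hg1 : g ≠ 1 := by have := F.g3; omega
    obtain ⟨r, hr, hrg⟩ := Nat.exists_prime_and_dvd hg1
    have hr2 : r ≠ 2 := by rintro rfl; exact F.go hrg
    have hrb : (r : ℤ) ∣ b := by
      rw [D.hb]; exact Dvd.dvd.mul_right (by exact_mod_cast hrg) _
    have hr3 : r = 3 := by
      by_contra hr3
      have h1 := (h.vmob hN hv Nat.prime_two hY2 hφ2 hr hr2 (K3.not_three hr hr3) (k := 1)
        (by rw [pow_one]; exact hrb)).2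
      rw [pow_one] at h1
      norm_num at h1
      have h2 : IsUnit (r : ℤ) := by
        rw [Int.isUnit_iff]
        have h3 : (r : ℤ) ∣ 1 := by
          exact_mod_cast h1
        rcases Int.isUnit_iff.1 (isUnit_of_dvd_one h3) with h4 | h4
        · exact Or.inl h4
        · exact Or.inr h4
      exact (Nat.prime_iff_prime_int.1 hr).not_isUnit h2
    subst hr3
    obtain ⟨w, hw1, hw⟩ := (Nat.dvd_prime_pow Nat.prime_three).1 (show hh ∣ 3 ^ 2 by simpa using F.h9)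
    have hk : ((3 : ℕ) : ℤ) ^ (w + 1) ∣ b := by
      obtain ⟨g2, hg2⟩ := hrg
      rw [D.hb, hg2, hw]
      refine ⟨g2 * b0, ?_⟩
      push_cast
      ring
    obtain ⟨j, hj⟩ := exists_gam h.Y0.ne' Nat.prime_two hY2 hφ2
    have h5 := (h.hrigV (j := j) rfl Nat.prime_three (Or.inl (by norm_num)) hk).1
    have h6 := (h.hrigV (j := 0) rfl Nat.prime_three (Or.inl (by norm_num)) hk).1
    have h7 : (Int.gcd Y (1 + 0 * φ) : ℤ) = 1 := by
      rw [zero_mul, add_zero]; simp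
    rw [hj] at h5
    rw [h7] at h6
    have h8 : (3 : ℤ) * 3 ^ (w + 1) ∣ 3 * e := by
      have e1 : 3 * e = (3 * ((2 : ℕ) : ℤ) + Y) * e - (3 * 1 + Y) * e := by push_cast; ring
      rw [e1]
      refine dvd_sub (Dvd.dvd.trans ?_ h5) (Dvd.dvd.trans ?_ h6)
      · exact ⟨2, by push_cast; ring⟩
      · exact ⟨1, by push_cast; ring⟩
    have h9 : (3 : ℤ) ^ (w + 1) ∣ e := (mul_dvd_mul_iff_left (by norm_num : (3 : ℤ) ≠ 0)).1 h8
    rw [D.he, hw] at h9
    have h10 : (3 : ℤ) ^ w * 3 ∣ 3 ^ w * (m * A0) := by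
      rw [← pow_succ]
      have e1 : (3 : ℤ) ^ w * (m * A0) = m * (((3 ^ w : ℕ) : ℤ) * A0) := by push_cast; ring
      rw [e1]; exact h9
    have h11 : (3 : ℤ) ∣ m * A0 :=
      (mul_dvd_mul_iff_left (by positivity : (3 : ℤ) ^ w ≠ 0)).1 h10
    have h12 : 3 ∣ m * A0 := by exact_mod_cast h11
    have h13 : ¬ 3 ∣ m := fun h14 => by
      have h15 := Nat.dvd_gcd hrg h14
      rw [D.co] at h15
      norm_num at h15
    rcases (Nat.Prime.dvd_mul Nat.prime_three).1 h12 with h14 | h14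
    · exact h13 h14
    · apply h13
      have h15 : 3 ∣ g + m := by rw [F.hz]; exact h14.mul_left _
      exact (Nat.dvd_add_right hrg).1 h15

/-- the number data -/
theorem KF.k3_data (h : KF 3 S a' b c A a e f Y φ l p l' p') {N : ℕ} (hN : N.Prime)
    (hv : a + A + a' = N) (D : KD0 3 A b c a e g m A0 b0 hh)
    (F : K3F g m A0 b0 hh z1 d1 m1 G2) : ∃ n0 : ℕ, K3D A b c a e Y g m n0 A0 b0 hh := by
  have hYo := h.k3_Yodd hN hv D F
  have hY0 := h.Y0
  have hg3 := F.g3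
  have key : ((g : ℤ) * b0) ∣ Y + 3 := by
    refine dvd_of_prime_pow fun r k hr hk => ?_
    have hk' : (r : ℤ) ^ k ∣ b := by
      rw [D.hb]
      have e1 : (g : ℤ) * (hh * b0) = hh * (g * b0) := by ring
      rw [e1]; exact hk.mul_left _
    rcases Nat.eq_zero_or_pos k with hk0 | hk0
    · rw [hk0, pow_zero]; exact one_dvd _
    by_cases hr2 : r = 2
    · subst hr2
      have hal : Alw l' p' S.u 2 1 := by
        rintro ⟨k1, k2⟩
        have k3 : Dz ((2 : ℕ) : ℤ) (Y • S.u) := by rw [← h.hl']; exact k1.smul 3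
        have k4 : Dz ((2 : ℕ) : ℤ) S.u := (k3.mul_prime Nat.prime_two).resolve_left
          (by exact_mod_cast hYo)
        have k5 : Dz ((2 : ℕ) : ℤ) p' := by
          have e1 : p' = (p' + (1 : ℤ) • S.u) - (1 : ℤ) • S.u := by module
          rw [e1]; exact k2.sub (k4.smul 1)
        exact con1_lat.1 h.Cl 2 Nat.prime_two ⟨k1, k5⟩
      have h1 := (h.hrig Nat.prime_two ⟨1, by norm_num, hal⟩ hk').1
      have he : ¬ ((2 : ℕ) : ℤ) ∣ e := by
        rw [D.he]
        intro h1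
        have h2 : 2 ∣ m * (hh * A0) := by exact_mod_cast h1
        rcases (Nat.Prime.dvd_mul Nat.prime_two).1 h2 with h3 | h3
        · exact F.mo h3
        · rcases (Nat.Prime.dvd_mul Nat.prime_two).1 h3 with h4 | h4
          · exact F.hodd h4
          · exact F.Ao h4
      have h2 : ((2 : ℕ) : ℤ) ^ k ∣ (3 + Y) * e := (dvd_mul_left _ _).trans h1
      rw [add_comm]
      exact (isCoprime_pow_prime Nat.prime_two he k).dvd_of_dvd_mul_right h2
    · by_cases hr3 : r = 3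
      · subst hr3
        have h3gb : 3 ∣ g * b0 := by
          have : ((3 : ℕ) : ℤ) ∣ ((g * b0 : ℕ) : ℤ) := by
            push_cast; exact_mod_cast (dvd_pow_self _ hk0.ne').trans hk
          exact_mod_cast this
        have hgm : 3 ∣ g → ¬ 3 ∣ m := fun h1 h2 => by
          have h15 := Nat.dvd_gcd h1 h2
          rw [D.co] at h15
          norm_num at h15
        have hA3 : ¬ 3 ∣ A0 := by
          intro h1
          rcases (Nat.Prime.dvd_mul Nat.prime_three).1 h3gb with h2 | h2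
          · apply hgm h2
            have h15 : 3 ∣ g + m := by rw [F.hz]; exact h1.mul_left _
            exact (Nat.dvd_add_right h2).1 h15
          · have h15 := Nat.dvd_gcd h1 h2
            rw [D.cAb] at h15
            norm_num at h15
        have hm3 : ¬ 3 ∣ m := by
          intro h1
          have h2 : 3 ∣ b0 := ((Nat.Prime.dvd_mul Nat.prime_three).1 h3gb).resolve_left
            fun h2 => hgm h2 h1
          apply hA3
          have h3 : 3 ∣ G2 := by
            rw [F.hm] at h1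
            refine ((Nat.Prime.dvd_mul Nat.prime_three).1 h1).resolve_left fun h4 => ?_
            rcases F.hm1 with h5 | h5 <;> rw [h5] at h4 <;> revert h4 <;> decide
          have h4 : 3 ∣ A0 + d1 * G2 := by rw [← F.hb]; exact h2
          exact (Nat.dvd_add_left (h3.mul_left _)).1 h4
        obtain ⟨w, hw1, hw⟩ := (Nat.dvd_prime_pow Nat.prime_three).1
          (show hh ∣ 3 ^ 2 by simpa using F.h9)
        have hk2 : ((3 : ℕ) : ℤ) ^ (w + k) ∣ b := by
          rw [D.hb, hw]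
          have e1 : (g : ℤ) * (((3 ^ w : ℕ) : ℤ) * b0) = ((3 : ℕ) : ℤ) ^ w * (g * b0) := by
            push_cast; ring
          rw [e1, pow_add]
          exact mul_dvd_mul_left _ hk
        have h1 := (h.hrig Nat.prime_three (h.alw_odd Nat.prime_three (Or.inl (by norm_num)))
          hk2).1
        have h2 : ((3 : ℕ) : ℤ) ^ w * (((3 : ℕ) : ℤ) ^ k) ∣
            ((3 : ℕ) : ℤ) ^ w * ((3 + Y) * (m * A0)) := by
          rw [← pow_add]
          have e1 : ((3 : ℕ) : ℤ) ^ w * ((3 + Y) * (m * A0)) = (3 + Y) * e := by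
            rw [D.he, hw]; push_cast; ring
          rw [e1]
          exact (dvd_mul_left _ _).trans h1
        have h3 : ((3 : ℕ) : ℤ) ^ k ∣ (3 + Y) * (m * A0) :=
          (mul_dvd_mul_iff_left (by positivity : ((3 : ℕ) : ℤ) ^ w ≠ 0)).1 h2
        have h4 : ¬ ((3 : ℕ) : ℤ) ∣ m * A0 := by
          intro h5
          have h6 : 3 ∣ m * A0 := by exact_mod_cast h5
          rcases (Nat.Prime.dvd_mul Nat.prime_three).1 h6 with h7 | h7
          · exact hm3 h7
          · exact hA3 h7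
        rw [add_comm]
        exact (isCoprime_pow_prime Nat.prime_three h4 k).dvd_of_dvd_mul_right h3
      · rw [add_comm]
        exact h.visA0 hN hv hr hr2 (K3.not_three hr hr3) hk'
  obtain ⟨q, hq⟩ := key
  have hgb : (0 : ℤ) < g * b0 := by
    have := D.g0; have := D.b00
    positivity
  have hq0 : 0 < q := by
    have : 0 < (g : ℤ) * b0 * q := by rw [← hq]; linarith
    exact (mul_pos_iff_of_pos_left hgb).1 this
  obtain ⟨q1, rfl⟩ := Int.eq_ofNat_of_zero_le hq0.le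
  refine ⟨b0 * q1, ⟨D, F.m2, F.m3, ?_, dvd_mul_right _ _, ?_, F.b11, F.h9, ?_, ?_, F.go, F.mo,
    F.Ao⟩⟩
  · rw [hq]; push_cast; ring
  · have h1 : (2 : ℤ) ∣ ((g * (b0 * q1) : ℕ) : ℤ) := by
      have e1 : ((g * (b0 * q1) : ℕ) : ℤ) = Y + 3 := by rw [hq]; push_cast; ring
      rw [e1]; omega
    have h2 : 2 ∣ g * (b0 * q1) := by exact_mod_cast h1
    exact ((Nat.Prime.dvd_mul Nat.prime_two).1 h2).resolve_left F.go
  · rw [F.hz]; exact dvd_mul_left _ _
  · rw [F.hz]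
    refine mul_dvd_mul ?_ (dvd_refl _)
    rcases F.hzd with ⟨h9, -, -⟩ | ⟨-, ⟨h9, -⟩ | ⟨h9, -⟩⟩ <;> rw [h9] <;> norm_num

end Pool.Agent.H4G
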