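import Pool.Agent.H4G.Arith.K3Sel
import Pool.Agent.H4G.Arith.KEnd

/-!
# `K = 3`: the selection and the end, levels one and three (helper9)
-/

set_option autoImplicit false

namespace Pool.Agent.H4G

variable {S : PSt} {a' b c A a e f Y φ : ℤ} {l p l' p' : Z2} {g m n0 A0 b0 hh : ℕ}

theorem K3D.hodd (D : K3D A b c a e Y g m n0 A0 b0 hh) : ¬ 2 ∣ hh :=
  D.hh_not Nat.prime_two (by norm_num)

theorem K3D.Aodd (D : K3D A b c a e Y g m n0 A0 b0 hh) : ¬ (2 : ℤ) ∣ A := by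
  rw [D.D.hA]
  intro h
  have h1 : 2 ∣ g * (hh * A0) := by exact_mod_cast h
  rcases (Nat.Prime.dvd_mul Nat.prime_two).1 h1 with h2 | h2
  · exact D.go h2
  · rcases (Nat.Prime.dvd_mul Nat.prime_two).1 h2 with h3 | h3
    · exact D.hodd h3
    · exact D.Ao h3

theorem K3D.eodd (D : K3D A b c a e Y g m n0 A0 b0 hh) : ¬ (2 : ℤ) ∣ e := by
  rw [D.D.he]
  intro h
  have h1 : 2 ∣ m * (hh * A0) := by exact_mod_cast h
  rcases (Nat.Prime.dvd_mul Nat.prime_two).1 h1 with h2 | h2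
  · exact D.mo h2
  · rcases (Nat.Prime.dvd_mul Nat.prime_two).1 h2 with h3 | h3
    · exact D.hodd h3
    · exact D.Ao h3

theorem K3D.c4 (D : K3D A b c a e Y g m n0 A0 b0 hh) : ¬ (4 : ℤ) ∣ c := by
  intro h
  have h1 : (4 : ℤ) ∣ ((hh * A0 * (g + m) : ℕ) : ℤ) := by
    push_cast; rw [← D.D.hc]; exact h.mul_left _
  have h2 : 4 ∣ hh * A0 * (g + m) := by exact_mod_cast h1
  have h3 : Nat.Coprime 4 (hh * A0) := by
    have h4 : Nat.Coprime 2 (hh * A0) := (Nat.prime_two.coprime_iff_not_dvd).2 fun h5 => by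
      rcases (Nat.Prime.dvd_mul Nat.prime_two).1 h5 with h6 | h6
      · exact D.hodd h6
      · exact D.Ao h6
    have : Nat.Coprime (2 ^ 2) (hh * A0) := h4.pow_left 2
    simpa using this
  have h4 : 4 ∣ 6 * A0 := (h3.dvd_of_dvd_mul_left h2).trans D.z6
  have := D.Ao
  omega

theorem K3D.Yodd (D : K3D A b c a e Y g m n0 A0 b0 hh) : ¬ (2 : ℤ) ∣ Y := by
  intro h
  have h1 : (2 : ℤ) ∣ Y + 3 := by
    rw [D.hY]; exact Dvd.dvd.mul_left (by exact_mod_cast D.n2) _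
  omega

/-- the core of both levels -/
theorem KF.k3_core (h : KF 3 S a' b c A a e f Y φ l p l' p') (hF : S.Full) {N : ℕ}
    (hN : N.Prime) (hv : a + A + a' = N) (he3 : e < 3 * A) (hAc : A < c)
    (N1 : ∀ r : ℕ, r.Prime → r ≠ 2 → r ≠ 3 → (r : ℤ) ∣ e → (r : ℤ) ∣ b → ¬ (r : ℤ) ∣ A →
      ¬ (r : ℤ) ∣ f)
    (D : K3D A b c a e Y g m n0 A0 b0 hh) {γ α β : ℤ} (hγ : 0 < γ) (hα : 3 * Y = γ * α)
    (hβ : (n0 : ℤ) * (g + m) - 9 = γ * β) (hco : IsCoprime α β) {n ε t00 : ℤ}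
    (hε : 3 * t00 = n * ε) (hn : n = 1 ∨ n = 3) (hcot : ∀ t : ℤ, IsCoprime (t00 + n * t) n)
    (P : Finset ℕ) (hPp : ∀ r ∈ P, r.Prime) (h2P : 2 ∈ P) (hP : ∀ r ∈ K3.P g m n0, r ≠ 3 → r ∈ P)
    {hi : ℤ} (hhi : n * hi = 3 * (Y * c)) (hcnt : 2 ^ P.card * (A * γ) ≤ hi - 9 * c)
    (H3 : ∃ ρ3 : ℤ, ∀ s : ℤ, (3 ∈ P → ¬ (3 : ℤ) ∣ s - ρ3) → ∀ t0 i0 : ℤ,
      3 * t0 * Y - i0 * ((n0 : ℤ) * (g + m) - 9) = γ * s → ∃ k3 : ℤ, ∀ k : ℤ, (3 : ℤ) ∣ k - k3 →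
      (3 : ℤ) ∣ a → ∀ κ : ℤ, IsC S.L (xvK S l' p' n (1 + (i0 + k * α) * (1 + n))
          (t00 + n * (t0 + k * β) + (i0 + k * α))) κ →
        (∀ j : ℕ, (3 : ℤ) ^ j ∣ κ → (3 : ℤ) ^ j ∣ A + n * c) ∧ ((3 : ℤ) ∣ κ → ∀ D' : Z2,
          κ • D' = (a + (A + n * c)) • xvK S l' p' n (1 + (i0 + k * α) * (1 + n))
            (t00 + n * (t0 + k * β) + (i0 + k * α)) → ¬ Dz 3 D'))
    (C3 : ∀ τ : ℤ, ¬ (Dz 3 (l' - n • S.u) ∧ Dz 3 (p' + τ • S.u))) :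
    ∃ (T : PSt) (d : ℤ), SEq S T ∧ IsC T.L T.v d ∧ d ≤ 2 := by
  classical
  have hA0 := h.A0
  have hc0 := h.c0
  have hn0 : 0 < n := by rcases hn with rfl | rfl <;> norm_num
  have hn2 : ¬ (2 : ℤ) ∣ n := by rcases hn with rfl | rfl <;> norm_num
  obtain ⟨ρ, hρ⟩ := h.k3odd hN hv he3 hAc N1 D hα hβ hε hn 1
  obtain ⟨ρ3, h3⟩ := H3
  set ρ' : ℕ → ℤ := fun r => if r = 2 then ε * Y + 3 * φ + 1 else if r = 3 then ρ3 else ρ r
    with hρ'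
  obtain ⟨x0, hx0⟩ := crt_primes P hPp (fun _ => 1) (fun r => ρ' r + 1)
  obtain ⟨s, ⟨hs1, hs2⟩, hs3⟩ := window_avoid P (fun r => (r : ℤ)) ρ'
    (fun r hr => by exact_mod_cast (hPp r hr).pos) (x₀ := x0)
    (fun r hr h1 => by
      have h2 := hx0 r hr
      rw [pow_one] at h2
      have h4 : (r : ℤ) ∣ 1 := by
        have e1 : (1 : ℤ) = (x0 - ρ' r) - (x0 - (ρ' r + 1)) := by ring
        rw [e1]; exact dvd_sub h1 h2
      exact prime_not_dvd_one (hPp r hr) h4)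
    (w := ε * Y + 3 * φ) (lo := 9 * c) (hi := hi) hA0 hγ hcnt
  have hYo := D.Yodd
  have hγo : ¬ (2 : ℤ) ∣ γ := by
    intro h1
    have h2 : (2 : ℤ) ∣ 3 * Y := by rw [hα]; exact h1.mul_right _
    omega
  -- the parity
  have hx2 : (2 : ℤ) ∣ ε * Y + 3 * φ + γ * s := by
    have h1 := hs3 2 h2P
    simp only [hρ', if_pos] at h1
    obtain ⟨y1, hy1⟩ : ∃ y1, γ = 2 * y1 + 1 := ⟨γ / 2, by omega⟩
    rw [hy1]
    have e1 : ε * Y + 3 * φ + (2 * y1 + 1) * s = (ε * Y + 3 * φ + s) + 2 * (y1 * s) := by ring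
    rw [e1]
    push_cast at h1
    omega
  obtain ⟨x1, y1, hxy⟩ := hco
  have h0 : 3 * (s * x1) * Y - (-(s * y1)) * ((n0 : ℤ) * (g + m) - 9) = γ * s := by
    linear_combination (s * x1) * hα + (s * y1) * hβ + (γ * s) * hxy
  obtain ⟨k3, hk3⟩ := h3 s (fun h1 => by
    have h2 := hs3 3 h1
    simp only [hρ'] at h2
    norm_num at h2
    exact h2) _ _ h0
  obtain ⟨k, hkk, hk⟩ := hρ s (fun r hr hr2 hr3 => by
    have h2 := hs3 r (hP r hr hr3)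
    simp only [hρ', if_neg hr2, if_neg hr3] at h2
    exact h2) _ _ h0 k3
  have hk3' := hk3 k hkk
  set t0 := s * x1 with ht0
  set i0 := -(s * y1) with hi0
  set i := i0 + k * α with hi'
  set t := t00 + n * (t0 + k * β) with ht'
  have heq : 3 * (t0 + k * β) * Y - i * ((n0 : ℤ) * (g + m) - 9) = γ * s := by
    rw [← h0, hi']
    linear_combination (k * β) * hα - (k * α) * hβ
  have hx : n * (ε * Y + 3 * φ + γ * s) =
      3 * t * Y + 3 * n * φ + i * n * (9 - (n0 : ℤ) * (g + m)) := by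
    rw [← heq, ht']; linear_combination -Y * hε
  have w1 : 9 * n * c < 1 * (A * (n * (ε * Y + 3 * φ + γ * s))) := by
    have : n * (9 * c) < n * (A * (ε * Y + 3 * φ + γ * s)) := mul_lt_mul_of_pos_left hs1 hn0
    linarith
  have w2 : 1 * (A * (n * (ε * Y + 3 * φ + γ * s))) ≤ 3 * (Y * c) := by
    have : n * (A * (ε * Y + 3 * φ + γ * s)) ≤ n * hi := mul_le_mul_of_nonneg_left hs2 hn0.le
    linarith
  obtain ⟨k1, -⟩ := h.exit3 hn0.le (Or.inl rfl) (hcot _) D.A_R hx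
    (q := 1 + i * (1 + n)) (τ := t + i) rfl rfl w1 w2
  obtain ⟨κ, hκ⟩ := KF.exists_kap k1
  have hny : n * c < a' := by
    have h4 := h.hy
    have h5 : 9 * n * c < 3 * (Y * c) := lt_of_lt_of_le w1 w2
    linarith
  -- the prime two
  have hκ2 : ¬ (2 : ℤ) ∣ κ := by
    refine h.k3_odd D.eodd rfl ?_ hκ
    intro h1
    have h2 := K3.W3 (φ := φ) (o := 1) hε heq
    obtain ⟨n2, hn2'⟩ := D.n2
    obtain ⟨z, hz⟩ := hx2
    obtain ⟨w, hw⟩ := h1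
    rw [hz] at h2
    have h4 : 3 * (2 * w) = n * (2 * z) + 9 * 1 +
        i * (3 * (Y + 3) + n * ((n0 : ℤ) * (g + m))) := by
      rw [← h2, ← hw]
    obtain ⟨y2, hy2⟩ : ∃ y2, Y = 2 * y2 + 1 := ⟨Y / 2, by omega⟩
    rw [hn2', hy2] at h4
    push_cast at h4
    have e1 : (9 : ℤ) = 2 * (3 * w - n * z - i * (3 * (y2 + 2) + n * ((n2 : ℤ) * (g + m)))) := by
      linarith
    omega
  have hodd5 : ∀ r : ℕ, r.Prime → r ≠ 3 → (r : ℤ) ∣ a → ¬ (r : ℤ) ∣ κ := by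
    intro r hr hr3 hra
    by_cases hr2 : r = 2
    · subst hr2; exact_mod_cast hκ2
    · exact hk κ hκ r hr hr2 hr3 hra
  have hd : κ ∣ A + n * c := by
    refine h.kap_dvd hκ fun r hr hra j hj => ?_
    by_cases hr3 : r = 3
    · subst hr3
      have := (hk3' (by exact_mod_cast hra) κ hκ).1 j (by exact_mod_cast hj)
      exact_mod_cast this
    · rcases Nat.eq_zero_or_pos j with hj0 | hj0
      · rw [hj0, pow_zero]; exact one_dvd _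
      · exact absurd ((dvd_pow_self _ hj0.ne').trans hj) (hodd5 r hr hr3 hra)
  refine KF.fin2 hN h hv hny k1 hκ hd (fun r hr h1 h2 D' h4 => ?_) (fun r hr hr2 => ?_)
    (h.cont4 D.c4)
  · by_cases hr3 : r = 3
    · subst hr3
      have := (hk3' (by exact_mod_cast h2) κ hκ).2 (by exact_mod_cast h1) D' h4
      exact_mod_cast this
    · exact absurd h1 (hodd5 r hr hr3 h2)
  · by_cases hr3 : r = 3
    · subst hr3
      exact_mod_cast C3 (t + i)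
    · exact h.cont_r hF he3 hr hr2 hr3 (D.cA hr hr2 hr3) hn

theorem K3D.gamma (D : K3D A b c a e Y g m n0 A0 b0 hh) (hY0 : 0 < Y) :
    ∃ (γ : ℕ) (α β : ℤ), (0 : ℤ) < γ ∧ 3 * Y = γ * α ∧ (n0 : ℤ) * (g + m) - 9 = γ * β ∧
      IsCoprime α β ∧ γ ∣ 3 * (g * n0 - 3) ∧ γ ∣ n0 * (m - 2 * g) := by
  have h3Y : (0 : ℤ) < 3 * Y := by linarith
  have hpos : 0 < Int.gcd (3 * Y) ((n0 : ℤ) * (g + m) - 9) :=
    Int.gcd_pos_of_ne_zero_left _ h3Y.ne'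
  obtain ⟨α, β, h1, h2, h3⟩ := Int.exists_gcd_one hpos
  set γ := Int.gcd (3 * Y) ((n0 : ℤ) * (g + m) - 9) with hγ
  have hα : 3 * Y = (γ : ℤ) * α := by rw [mul_comm (γ : ℤ)]; exact h2
  have hβ : (n0 : ℤ) * (g + m) - 9 = (γ : ℤ) * β := by rw [mul_comm (γ : ℤ)]; exact h3
  have hd1 : (γ : ℤ) ∣ 3 * Y := ⟨α, hα⟩
  have hd2 : (γ : ℤ) ∣ (n0 : ℤ) * (g + m) - 9 := ⟨β, hβ⟩
  refine ⟨γ, α, β, by exact_mod_cast hpos, hα, hβ, Int.isCoprime_iff_gcd_eq_one.2 h1, ?_, ?_⟩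
  · have h4 : (γ : ℤ) ∣ ((3 * (g * n0 - 3) : ℕ) : ℤ) := by
      push_cast
      have h5 := D.natY hY0
      push_cast at h5
      rw [h5]; exact hd1
    exact_mod_cast h4
  · have h4 : (γ : ℤ) ∣ ((n0 * (m - 2 * g) : ℕ) : ℤ) := by
      have h5 : 2 * g ≤ m := D.m2.le
      push_cast [Nat.cast_sub h5]
      have h6 := dvd_sub hd2 hd1
      have e1 : (n0 : ℤ) * ((m : ℤ) - 2 * g) = (n0 : ℤ) * (g + m) - 9 - 3 * Y := by
        have := D.hY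
        linear_combination 3 * this
      rw [e1]; exact h6
    exact_mod_cast h4

/-- a linear form of `(t, i)` modulo three avoids a class, off one class of the index -/
theorem K3.form3 {Y' α β γ R C w : ℤ} (hγ : 0 < γ) (hco : IsCoprime α β) (hY' : ¬ (3 : ℤ) ∣ Y')
    (hα : 3 * (3 * Y') = γ * α) (hβ : R - 9 = γ * β) :
    ∃ ρ3 : ℤ, ∀ s : ℤ, ¬ (3 : ℤ) ∣ s - ρ3 → ∀ t0 i0 : ℤ,
      3 * t0 * (3 * Y') - i0 * (R - 9) = γ * s → ∃ k3 : ℤ, ∀ k : ℤ, (3 : ℤ) ∣ k - k3 →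
      ¬ (3 : ℤ) ∣ (C + (t0 + k * β) * Y' + (i0 + k * α) * (2 + Y')) - w := by
  have h3 := Int.prime_three
  by_cases hΔ : (3 : ℤ) ∣ β * Y' + α * (2 + Y')
  · -- `α` is a unit
    have hα3 : ¬ (3 : ℤ) ∣ α := by
      intro h1
      have h2 : (3 : ℤ) ∣ β * Y' := by
        have e1 : β * Y' = (β * Y' + α * (2 + Y')) - α * (2 + Y') := by ring
        rw [e1]; exact dvd_sub hΔ (h1.mul_right _)
      have h4 := (h3.dvd_or_dvd h2).resolve_right hY'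
      obtain ⟨x, y, hxy⟩ := hco
      have h5 : (3 : ℤ) ∣ 1 := by rw [← hxy]; exact dvd_add (h1.mul_left _) (h4.mul_left _)
      norm_num at h5
    obtain ⟨ρ3, hρ3⟩ := K1.lin_class (m := 3) (g := Y')
      ((h3.coprime_iff_not_dvd).2 hY') (α * (C - w)) 0
    refine ⟨ρ3, fun s hs t0 i0 h0 => ⟨0, fun k hk h1 => hs (hρ3 s ?_)⟩⟩
    rw [sub_zero] at hk ⊢
    have hs0 : t0 * α - i0 * β = s := by
      refine mul_left_cancel₀ hγ.ne' ?_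
      rw [← h0]
      linear_combination (-t0) * hα + i0 * hβ
    have e1 : α * (C - w) + Y' * s =
        α * ((C + (t0 + k * β) * Y' + (i0 + k * α) * (2 + Y')) - w) -
          (i0 + k * α) * (β * Y' + α * (2 + Y')) := by
      rw [← hs0]; ring
    rw [e1]
    exact dvd_sub (h1.mul_left _) (hΔ.mul_left _)
  · refine ⟨0, fun s _ t0 i0 h0 => ?_⟩
    by_cases h1 : (3 : ℤ) ∣ (C + t0 * Y' + i0 * (2 + Y')) - w
    · refine ⟨1, fun k hk h2 => hΔ ?_⟩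
      have e1 : β * Y' + α * (2 + Y') =
          ((C + (t0 + k * β) * Y' + (i0 + k * α) * (2 + Y')) - w) -
            ((C + t0 * Y' + i0 * (2 + Y')) - w) -
            (k - 1) * (β * Y' + α * (2 + Y')) := by ring
      rw [e1]
      exact dvd_sub (dvd_sub h2 h1) (hk.mul_right _)
    · refine ⟨0, fun k hk h2 => h1 ?_⟩
      rw [sub_zero] at hk
      have e1 : (C + t0 * Y' + i0 * (2 + Y')) - w =
          ((C + (t0 + k * β) * Y' + (i0 + k * α) * (2 + Y')) - w) -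
            k * (β * Y' + α * (2 + Y')) := by ring
      rw [e1]
      exact dvd_sub h2 (hk.mul_right _)

/-- LEVEL ONE -/
theorem KF.k3_levOne (h : KF 3 S a' b c A a e f Y φ l p l' p') (hF : S.Full) {N : ℕ}
    (hN : N.Prime) (hv : a + A + a' = N) (he3 : e < 3 * A) (hAc : A < c)
    (N1 : ∀ r : ℕ, r.Prime → r ≠ 2 → r ≠ 3 → (r : ℤ) ∣ e → (r : ℤ) ∣ b → ¬ (r : ℤ) ∣ A →
      ¬ (r : ℤ) ∣ f)
    (D : K3D A b c a e Y g m n0 A0 b0 hh)
    (H3 : ((3 : ℤ) ∣ a → ∀ q τ κ : ℤ, IsC S.L (xvK S l' p' 1 q τ) κ →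
        (∀ j : ℕ, (3 : ℤ) ^ j ∣ κ → (3 : ℤ) ^ j ∣ A + 1 * c) ∧ ((3 : ℤ) ∣ κ → ∀ D' : Z2,
          κ • D' = (a + (A + 1 * c)) • xvK S l' p' 1 q τ → ¬ Dz 3 D')) ∨
      (3 ∣ n0 ∧ ∃ Y' φ' w0 : ℤ, Y = 3 * Y' ∧ ¬ (3 : ℤ) ∣ Y' ∧ φ = 3 * φ' ∧
        ∀ q τ W0 κ : ℤ, 3 * W0 = 3 * q + τ * Y + 1 * φ → IsC S.L (xvK S l' p' 1 q τ) κ →
          ¬ (3 : ℤ) ∣ W0 - w0 → ¬ (3 : ℤ) ∣ κ))
    (C3 : ∀ τ : ℤ, ¬ (Dz 3 (l' - (1 : ℤ) • S.u) ∧ Dz 3 (p' + τ • S.u))) :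
    ∃ (T : PSt) (d : ℤ), SEq S T ∧ IsC T.L T.v d ∧ d ≤ 2 := by
  have hY0 := h.Y0
  have hn0 := D.n0pos hY0
  obtain ⟨γ, α, β, hγ, hα, hβ, hco, hγ1, hγ2⟩ := D.gamma hY0
  have hcnt := K3.num1 D.g3 D.m2 D.m3 (D.n11 hY0) hγ1 hγ2
  have hgn : 33 ≤ g * n0 := by
    have := D.g3; have := D.n11 hY0
    nlinarith
  refine KF.k3_core h hF hN hv he3 hAc N1 D hγ hα hβ hco (n := 1) (ε := 0) (t00 := 0)
    (by norm_num) (Or.inl rfl) (fun _ => isCoprime_one_right) (K3.P g m n0)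
    (fun r hr => K3.P_prime hr) ?_ (fun r hr _ => hr) (hi := 3 * (Y * c)) (by ring) ?_ ?_ C3
  · unfold K3.P
    exact Finset.mem_union_left _ (Nat.mem_primeFactors.2 ⟨Nat.prime_two, D.n2, hn0.ne'⟩)
  · have h1 : ((2 ^ (K3.P g m n0).card * (g * γ) : ℕ) : ℤ) ≤ (((g + m) * (g * n0 - 6) : ℕ) : ℤ) := by
      exact_mod_cast hcnt
    have h2 : ((g * n0 - 6 : ℕ) : ℤ) = Y - 3 := by
      have h3 : 6 ≤ g * n0 := by omega
      push_cast [Nat.cast_sub h3]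
      have := D.hY
      linarith
    push_cast at h1
    have h4 : (0 : ℤ) ≤ hh * A0 := by positivity
    have h5 := mul_le_mul_of_nonneg_left h1 h4
    have h6 : ((g * n0 - 6 : ℕ) : ℤ) = Y - 3 := h2
    rw [h6] at h5
    have e1 : (2 : ℤ) ^ (K3.P g m n0).card * (A * γ) =
        hh * A0 * (2 ^ (K3.P g m n0).card * (g * γ)) := by
      rw [D.D.hA]; ring
    have e2 : 3 * (Y * c) - 9 * c = hh * A0 * ((g + m) * (Y - 3)) := by
      have := D.D.hc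
      linear_combination (Y - 3) * this
    rw [e1, e2]
    exact h5
  · rcases H3 with H3 | ⟨h3n, Y', φ', w0, hY', hY3, hφ', H3⟩
    · refine ⟨0, fun s _ t0 i0 _ => ⟨0, fun k _ h3a κ hκ => ?_⟩⟩
      exact H3 h3a _ _ κ hκ
    · obtain ⟨ρ3, hρ3⟩ := K3.form3 (C := 1 + φ') (w := w0) hγ hco hY3
        (by rw [← hY']; exact hα) hβ
      refine ⟨ρ3, fun s hs t0 i0 h0 => ?_⟩
      have h3P : 3 ∈ K3.P g m n0 := by
        unfold K3.P
        exact Finset.mem_union_left _ (Nat.mem_primeFactors.2 ⟨Nat.prime_three, h3n, hn0.ne'⟩)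
      obtain ⟨k3, hk3⟩ := hρ3 s (hs h3P) t0 i0 (by rw [← hY']; exact h0)
      refine ⟨k3, fun k hk _ κ hκ => ?_⟩
      have h1 := hk3 k hk
      have h2 : ¬ (3 : ℤ) ∣ κ := by
        refine H3 _ _ ((1 + φ') + (t0 + k * β) * Y' + (i0 + k * α) * (2 + Y')) κ ?_ hκ h1
        rw [hY', hφ']; ring
      refine ⟨fun j hj => ?_, fun h4 => absurd h4 h2⟩
      rcases Nat.eq_zero_or_pos j with hj0 | hj0
      · rw [hj0, pow_zero]; exact one_dvd _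
      · exact absurd ((dvd_pow_self _ hj0.ne').trans hj) h2

/-- LEVEL THREE -/
theorem KF.k3_levThree (h : KF 3 S a' b c A a e f Y φ l p l' p') (hF : S.Full) {N : ℕ}
    (hN : N.Prime) (hv : a + A + a' = N) (he3 : e < 3 * A) (hAc : A < c)
    (N1 : ∀ r : ℕ, r.Prime → r ≠ 2 → r ≠ 3 → (r : ℤ) ∣ e → (r : ℤ) ∣ b → ¬ (r : ℤ) ∣ A →
      ¬ (r : ℤ) ∣ f)
    (D : K3D A b c a e Y g m n0 A0 b0 hh) (h3g : 3 ∣ g) (h9n : 9 ∣ n0) (hφ : (3 : ℤ) ∣ φ)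
    (hc3 : ¬ (3 : ℤ) ∣ c)
    (H : ∀ q τ W0 κ : ℤ, 3 * W0 = 3 * q + τ * Y + 3 * φ → IsC S.L (xvK S l' p' 3 q τ) κ →
      ¬ (3 : ℤ) ∣ W0 → (∀ j : ℕ, (3 : ℤ) ^ j ∣ κ → (3 : ℤ) ^ j ∣ A + 3 * c) ∧
        ((3 : ℤ) ∣ κ → ∀ D' : Z2, κ • D' = (a + (A + 3 * c)) • xvK S l' p' 3 q τ →
          ¬ Dz 3 D')) :
    ∃ (T : PSt) (d : ℤ), SEq S T ∧ IsC T.L T.v d ∧ d ≤ 2 := by
  have hY0 := h.Y0
  have hn0 := D.n0pos hY0
  obtain ⟨γ, α, β, hγ, hα, hβ, hco, hγ1, hγ2⟩ := D.gamma hY0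
  have h18 : 18 ∣ n0 := by
    have := D.n2
    omega
  have hcnt := K3.num3 D.g3 D.m2 D.m3 h18 hn0 hγ1 hγ2
  have h18' := Nat.le_of_dvd hn0 h18
  have hgn : 54 ≤ g * n0 := by
    have := D.g3
    nlinarith
  have hP : K3.P g m n0 = n0.primeFactors := by
    unfold K3.P
    rw [if_neg, Finset.union_empty]
    rintro ⟨h1, h2, -⟩
    have h3 : 3 ∣ m := by omega
    have h4 := (Nat.prime_dvd_prime_iff_eq Nat.prime_three h1).1 h3
    have := D.g3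
    omega
  refine KF.k3_core h hF hN hv he3 hAc N1 D hγ hα hβ hco (n := 3) (ε := -1) (t00 := -1)
    (by norm_num) (Or.inr rfl) (fun t => ⟨-1, t, by ring⟩) (n0.primeFactors.erase 3)
    (fun r hr => Nat.prime_of_mem_primeFactors (Finset.mem_of_mem_erase hr)) ?_
    (fun r hr h3 => Finset.mem_erase.2 ⟨h3, by rw [← hP]; exact hr⟩) (hi := Y * c) (by ring)
    ?_ ?_ (fun τ => h.cont_c hc3)
  · exact Finset.mem_erase.2 ⟨by norm_num, Nat.mem_primeFactors.2 ⟨Nat.prime_two, D.n2, hn0.ne'⟩⟩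
  · have h1 : ((2 ^ (n0.primeFactors.erase 3).card * (3 * (g * γ)) : ℕ) : ℤ) ≤
        (((g + m) * (g * n0 - 12) : ℕ) : ℤ) := by
      exact_mod_cast hcnt
    have h2 : ((g * n0 - 12 : ℕ) : ℤ) = Y - 9 := by
      have h3 : 12 ≤ g * n0 := by omega
      push_cast [Nat.cast_sub h3]
      have := D.hY
      linarith
    push_cast at h1
    have h4 : (0 : ℤ) ≤ hh * A0 := by positivity
    have h5 := mul_le_mul_of_nonneg_left h1 h4
    have h6 : ((g * n0 - 12 : ℕ) : ℤ) = Y - 9 := h2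
    rw [h6] at h5
    have e1 : 3 * ((2 : ℤ) ^ (n0.primeFactors.erase 3).card * (A * γ)) =
        hh * A0 * (2 ^ (n0.primeFactors.erase 3).card * (3 * (g * γ))) := by
      rw [D.D.hA]; ring
    have e2 : 3 * (Y * c - 9 * c) = hh * A0 * ((g + m) * (Y - 9)) := by
      have := D.D.hc
      linear_combination (Y - 9) * this
    linarith
  · refine ⟨0, fun s _ t0 i0 _ => ⟨0, fun k _ h3a κ hκ => ?_⟩⟩
    obtain ⟨g2, hg2⟩ := h3g
    obtain ⟨n2, hn2⟩ := h9n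
    obtain ⟨φ', hφ'⟩ := hφ
    have hY : Y = 3 * (9 * (g2 * n2) - 1) := by
      have := D.hY
      rw [hg2, hn2] at this
      push_cast at this
      linarith
    refine H _ _ (1 + (i0 + k * α) * (1 + 3) + (-1 + 3 * (t0 + k * β) + (i0 + k * α)) *
      (9 * (g2 * n2) - 1) + φ) κ ?_ hκ ?_
    · rw [hY]; ring
    · intro h1
      have h2 : (3 : ℤ) ∣ 2 := by
        have e1 : (2 : ℤ) = (1 + (i0 + k * α) * (1 + 3) +
            (-1 + 3 * (t0 + k * β) + (i0 + k * α)) * (9 * (g2 * n2) - 1) + φ) -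
            3 * ((i0 + k * α) + (3 * g2 * n2) * (-1 + 3 * (t0 + k * β) + (i0 + k * α)) -
              (t0 + k * β) + φ') := by
          rw [hφ']; ring
        rw [e1]; exact dvd_sub h1 (dvd_mul_right _ _)
      norm_num at h2

end Pool.Agent.H4G
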