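import Pool.Agent.H4G.Arith.K1NumO

/-!
# `K = 3`: the counts at the levels one and three (helper9)
-/

set_option autoImplicit false

namespace Pool.Agent.H4G

/-- the primes with a class of the index, level one -/
def K3.P (g m n0 : ℕ) : Finset ℕ :=
  n0.primeFactors ∪ (if m.Prime ∧ m = 2 * g + 3 ∧ m ∣ g * n0 - 3 then {m} else ∅)

theorem K3.P_prime {g m n0 r : ℕ} (h : r ∈ K3.P g m n0) : r.Prime := by
  unfold K3.P at h
  rw [Finset.mem_union] at h
  rcases h with h | h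
  · exact Nat.prime_of_mem_primeFactors h
  · split_ifs at h with h1
    · rw [Finset.mem_singleton.1 h]; exact h1.1
    · simp at h

/-- `6 * 5 ^ k ≤ 25 n0` -/
theorem K3.five {n0 : ℕ} (h0 : 0 < n0) : 6 * 5 ^ n0.primeFactors.card ≤ 25 * n0 := by
  have h1 : 6 * 5 ^ n0.primeFactors.card ≤ 25 * ∏ r ∈ n0.primeFactors, r := by
    refine K1.pow_card {2, 3} _ (fun r hr h4 => ?_) (by decide)
    have hp := Nat.prime_of_mem_primeFactors hr
    interval_cases r <;> first | (exfalso; revert hp; norm_num; done) | (simp; done)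
  have h2 := Nat.le_of_dvd h0 (Nat.prod_primeFactors_dvd n0)
  omega

theorem K3.pow_bound {n0 k : ℕ} (hn : 11 ≤ n0) (h : 6 * 5 ^ k ≤ 25 * n0) :
    9 * 2 ^ k + 8 ≤ 4 * n0 := by
  rcases Nat.lt_or_ge k 3 with hk | hk
  · have h1 : 2 ^ k ≤ 4 := by
      have := Nat.pow_le_pow_right (show 1 ≤ 2 by norm_num) (show k ≤ 2 by omega)
      simpa using this
    omega
  · obtain ⟨j, rfl⟩ := Nat.exists_eq_add_of_le hk
    have h1 : 2 ^ j ≤ 5 ^ j := Nat.pow_le_pow_left (by norm_num) j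
    have h2 : 1 ≤ 2 ^ j := Nat.one_le_two_pow
    rw [pow_add] at h ⊢
    norm_num at h ⊢
    omega

theorem K3.pow_bound3 {n0 k : ℕ} (hn : 18 ≤ n0) (h18 : 18 ∣ n0) (h : 6 * 5 ^ k ≤ 25 * n0) :
    27 * 2 ^ k + 32 ≤ 8 * n0 := by
  rcases Nat.lt_or_ge k 3 with hk | hk
  · have h1 : 2 ^ k ≤ 4 := by
      have := Nat.pow_le_pow_right (show 1 ≤ 2 by norm_num) (show k ≤ 2 by omega)
      simpa using this
    omega
  · obtain ⟨j, rfl⟩ := Nat.exists_eq_add_of_le hk
    have h1 : 2 ^ j ≤ 5 ^ j := Nat.pow_le_pow_left (by norm_num) j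
    have h2 : 1 ≤ 2 ^ j := Nat.one_le_two_pow
    rw [pow_add] at h ⊢
    norm_num at h ⊢
    rcases Nat.eq_or_lt_of_le h2 with h3 | h3
    · rw [← h3] at h1 ⊢
      omega
    · omega

theorem K3.gam9 {g δ n0 γ : ℕ} (h3 : 3 ≤ g * n0) (h1 : γ ∣ 3 * (g * n0 - 3)) (h2 : γ ∣ n0 * δ) :
    γ ∣ 9 * δ := by
  have h4 : γ ∣ 3 * g * (n0 * δ) := h2.mul_left _
  have h5 : γ ∣ δ * (3 * (g * n0 - 3)) := h1.mul_left _
  have h6 := Nat.dvd_sub h4 h5
  have h7 : 3 * g * (n0 * δ) - δ * (3 * (g * n0 - 3)) = 9 * δ := by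
    obtain ⟨y, hy⟩ : ∃ y, g * n0 = y + 3 := ⟨g * n0 - 3, by omega⟩
    rw [hy]
    have e1 : 3 * g * (n0 * δ) = 3 * δ * (y + 3) := by rw [← hy]; ring
    have e2 : δ * (3 * (y + 3 - 3)) = 3 * δ * y := by
      rw [show y + 3 - 3 = y by omega]; ring
    rw [e1, e2]
    have e3 : 3 * δ * (y + 3) = 3 * δ * y + 9 * δ := by ring
    omega
  rwa [h7] at h6

/-- the count at level one -/
theorem K3.num1 {g m n0 γ : ℕ} (hg : 3 ≤ g) (h1 : 2 * g < m) (hm3 : m < 3 * g) (hn : 11 ≤ n0)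
    (hγ1 : γ ∣ 3 * (g * n0 - 3)) (hγ2 : γ ∣ n0 * (m - 2 * g)) :
    2 ^ (K3.P g m n0).card * (g * γ) ≤ (g + m) * (g * n0 - 6) := by
  obtain ⟨δ, rfl⟩ : ∃ δ, m = 2 * g + δ := ⟨m - 2 * g, by omega⟩
  have hδ : 2 * g + δ - 2 * g = δ := by omega
  rw [hδ] at hγ2
  have hδ1 : 0 < δ := by omega
  have hδ2 : δ < g := by omega
  have hgn : 33 ≤ g * n0 := by nlinarith
  have h9 := Nat.le_of_dvd (by omega) (K3.gam9 (by omega) hγ1 hγ2)
  have hk := K3.pow_bound hn (K3.five (show 0 < n0 by omega))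
  set k := n0.primeFactors.card with hkdef
  obtain ⟨y, hy⟩ : ∃ y, g * n0 = y + 6 := ⟨g * n0 - 6, by omega⟩
  have hy2 : g * n0 - 6 = y := by omega
  rw [hy2]
  by_cases hlock : (2 * g + δ).Prime ∧ 2 * g + δ = 2 * g + 3 ∧ 2 * g + δ ∣ g * n0 - 3
  · have hδ3 : δ = 3 := by omega
    have hcard : (K3.P g (2 * g + δ) n0).card ≤ k + 1 := by
      unfold K3.P
      rw [if_pos hlock]
      exact (Finset.card_union_le _ _).trans (by simp [hkdef])
    have hγ9 : γ ≤ 9 := by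
      have h3 : γ ∣ g * (n0 * δ) := hγ2.mul_left _
      have h4 := Nat.dvd_sub h3 hγ1
      have h5 : g * (n0 * δ) - 3 * (g * n0 - 3) = 9 := by
        rw [hδ3]
        have : g * (n0 * 3) = 3 * (g * n0) := by ring
        rw [this]; omega
      rw [h5] at h4
      exact Nat.le_of_dvd (by norm_num) h4
    have hg5 : 4 ≤ g := by
      by_contra h
      have hg3 : g = 3 := by omega
      rw [hg3, hδ3] at hlock
      revert hlock
      norm_num
    have hp : 2 ^ (K3.P g (2 * g + δ) n0).card ≤ 2 * 2 ^ k := by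
      have := Nat.pow_le_pow_right (show 1 ≤ 2 by norm_num) hcard
      rw [pow_succ] at this
      linarith
    calc 2 ^ (K3.P g (2 * g + δ) n0).card * (g * γ) ≤ (2 * 2 ^ k) * (g * 9) :=
          Nat.mul_le_mul hp (Nat.mul_le_mul_left _ hγ9)
      _ = g * (2 * (9 * 2 ^ k)) := by ring
      _ ≤ g * (2 * (4 * n0 - 8)) := by
          refine Nat.mul_le_mul_left _ ?_
          omega
      _ ≤ 15 * y := by
          have e1 : g * (2 * (4 * n0 - 8)) + 16 * g = 8 * (g * n0) := by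
            obtain ⟨w, hw⟩ : ∃ w, 4 * n0 = w + 8 := ⟨4 * n0 - 8, by omega⟩
            rw [hw, show w + 8 - 8 = w by omega]
            have : 8 * (g * n0) = g * (2 * (4 * n0)) := by ring
            rw [this, hw]; ring
          nlinarith
      _ ≤ (g + (2 * g + δ)) * y := Nat.mul_le_mul_right _ (by omega)
  · have hcard : (K3.P g (2 * g + δ) n0).card = k := by
      unfold K3.P
      rw [if_neg hlock, Finset.union_empty]
    rw [hcard]
    calc 2 ^ k * (g * γ) ≤ 2 ^ k * (g * (9 * δ)) :=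
          Nat.mul_le_mul_left _ (Nat.mul_le_mul_left _ h9)
      _ = δ * (g * (9 * 2 ^ k)) := by ring
      _ ≤ δ * (g * (4 * n0 - 8)) := by
          refine Nat.mul_le_mul_left _ (Nat.mul_le_mul_left _ ?_)
          omega
      _ ≤ δ * (4 * y) := by
          refine Nat.mul_le_mul_left _ ?_
          have e1 : g * (4 * n0 - 8) + 8 * g = 4 * (g * n0) := by
            obtain ⟨w, hw⟩ : ∃ w, 4 * n0 = w + 8 := ⟨4 * n0 - 8, by omega⟩
            rw [hw, show w + 8 - 8 = w by omega]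
            have : 4 * (g * n0) = g * (4 * n0) := by ring
            rw [this, hw]; ring
          omega
      _ = (4 * δ) * y := by ring
      _ ≤ (g + (2 * g + δ)) * y := Nat.mul_le_mul_right _ (by omega)

/-- the count at level three -/
theorem K3.num3 {g m n0 γ : ℕ} (hg : 3 ≤ g) (h1 : 2 * g < m) (hm3 : m < 3 * g) (h18 : 18 ∣ n0)
    (hn0 : 0 < n0) (hγ1 : γ ∣ 3 * (g * n0 - 3)) (hγ2 : γ ∣ n0 * (m - 2 * g)) :
    2 ^ (n0.primeFactors.erase 3).card * (3 * (g * γ)) ≤ (g + m) * (g * n0 - 12) := by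
  obtain ⟨δ, rfl⟩ : ∃ δ, m = 2 * g + δ := ⟨m - 2 * g, by omega⟩
  have hδ : 2 * g + δ - 2 * g = δ := by omega
  rw [hδ] at hγ2
  have hδ1 : 0 < δ := by omega
  have hδ2 : δ < g := by omega
  have hn : 18 ≤ n0 := Nat.le_of_dvd hn0 h18
  have hgn : 54 ≤ g * n0 := by nlinarith
  have h9 := Nat.le_of_dvd (by omega) (K3.gam9 (by omega) hγ1 hγ2)
  have hk := K3.pow_bound3 hn h18 (K3.five hn0)
  have h3 : 3 ∈ n0.primeFactors :=
    Nat.mem_primeFactors.2 ⟨Nat.prime_three, (by norm_num : 3 ∣ 18).trans h18, hn0.ne'⟩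
  have hcard : (n0.primeFactors.erase 3).card + 1 = n0.primeFactors.card :=
    Finset.card_erase_add_one h3
  rw [← hcard, pow_succ] at hk
  set k := (n0.primeFactors.erase 3).card with hkdef
  obtain ⟨y, hy⟩ : ∃ y, g * n0 = y + 12 := ⟨g * n0 - 12, by omega⟩
  have hy2 : g * n0 - 12 = y := by omega
  rw [hy2]
  calc 2 ^ k * (3 * (g * γ)) ≤ 2 ^ k * (3 * (g * (9 * δ))) :=
        Nat.mul_le_mul_left _ (Nat.mul_le_mul_left _ (Nat.mul_le_mul_left _ h9))
    _ = δ * (g * (27 * 2 ^ k)) := by ring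
    _ ≤ δ * (g * (4 * n0 - 16)) := by
        refine Nat.mul_le_mul_left _ (Nat.mul_le_mul_left _ ?_)
        omega
    _ ≤ δ * (4 * y) := by
        refine Nat.mul_le_mul_left _ ?_
        have e1 : g * (4 * n0 - 16) + 16 * g = 4 * (g * n0) := by
          obtain ⟨w, hw⟩ : ∃ w, 4 * n0 = w + 16 := ⟨4 * n0 - 16, by omega⟩
          rw [hw, show w + 16 - 16 = w by omega]
          have : 4 * (g * n0) = g * (4 * n0) := by ring
          rw [this, hw]; ring
        omega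
    _ = (4 * δ) * y := by ring
    _ ≤ (g + (2 * g + δ)) * y := Nat.mul_le_mul_right _ (by omega)

end Pool.Agent.H4G
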