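import Pool.Agent.H4G.Arith.K3Num
import Pool.Agent.H4G.Arith.K2Data
import Pool.Agent.H4G.Arith.KNorm
import Pool.Agent.H4G.Arith.KThree
import Pool.Agent.H4G.Arith.KM
import Pool.Agent.H4G.Arith.K3Loc64

/-!
# `K = 3`, levels one and three: the exits and the primes `≥ 5` (helper9)

`A R = 3 (Y + 3) c`, `R = n0 (g + m)`; `3 t00 = n ε`, `t = t00 + n t'`,
`x' = ε Y + 3 φ + γ s`, `γ s = 3 t' Y - i (R - 9)`; `3 W = n x' + 9 o + i (3 (Y + 3) + n R)`.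
-/

set_option autoImplicit false

namespace Pool.Agent.H4G

variable {S : PSt} {a' b c A a e f Y φ : ℤ} {l p l' p' : Z2} {g m n0 A0 b0 hh : ℕ}

/-- the number data of `K = 3`, `A` and `e` odd, `c` even -/
structure K3D (A b c a e Y : ℤ) (g m n0 A0 b0 hh : ℕ) : Prop where
  D : KD0 3 A b c a e g m A0 b0 hh
  m2 : 2 * g < m
  m3 : m < 3 * g
  hY : Y + 3 = g * n0
  bn : b0 ∣ n0
  n2 : 2 ∣ n0
  b11 : 11 ≤ b0
  h9 : hh ∣ 9
  Az : A0 ∣ g + m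
  z6 : g + m ∣ 6 * A0
  go : ¬ 2 ∣ g
  mo : ¬ 2 ∣ m
  Ao : ¬ 2 ∣ A0

theorem K3D.n0pos (D : K3D A b c a e Y g m n0 A0 b0 hh) (hY : 0 < Y) : 0 < n0 := by
  rcases Nat.eq_zero_or_pos n0 with h | h
  · have := D.hY; rw [h] at this; push_cast at this; linarith
  · exact h

theorem K3D.n11 (D : K3D A b c a e Y g m n0 A0 b0 hh) (hY : 0 < Y) : 11 ≤ n0 :=
  D.b11.trans (Nat.le_of_dvd (D.n0pos hY) D.bn)

theorem K3D.g3 (D : K3D A b c a e Y g m n0 A0 b0 hh) : 3 ≤ g := by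
  have h1 := D.m2; have h2 := D.m3; have h3 := D.go
  have : g ≠ 2 := by rintro rfl; exact h3 (dvd_refl _)
  omega

theorem K3D.hh_not (D : K3D A b c a e Y g m n0 A0 b0 hh) {r : ℕ} (hr : r.Prime) (hr3 : r ≠ 3) :
    ¬ r ∣ hh := by
  intro h
  have h4 : r ∣ 3 ^ 2 := h.trans D.h9
  exact hr3 ((Nat.prime_dvd_prime_iff_eq hr Nat.prime_three).1 (hr.dvd_of_dvd_pow h4))

theorem K3D.A_R (D : K3D A b c a e Y g m n0 A0 b0 hh) :
    A * ((n0 : ℤ) * (g + m)) = 3 * ((Y + 3) * c) := by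
  have h2 := D.D.hA; have h3 := D.D.hc; have h4 := D.hY
  rw [h4]
  linear_combination (n0 : ℤ) * (g + m) * h2 - (g : ℤ) * n0 * h3

/-- the primes `≥ 5` of `c` divide `A` -/
theorem K3D.cA (D : K3D A b c a e Y g m n0 A0 b0 hh) {r : ℕ} (hr : r.Prime) (hr2 : r ≠ 2)
    (hr3 : r ≠ 3) (hc : (r : ℤ) ∣ c) : (r : ℤ) ∣ A := by
  have h1 : r ∣ hh * A0 * (g + m) := by
    have h2 : (r : ℤ) ∣ ((hh * A0 * (g + m) : ℕ) : ℤ) := by
      push_cast
      rw [← D.D.hc]; exact hc.mul_left _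
    exact_mod_cast h2
  have h2 : r ∣ A0 := by
    rcases (Nat.Prime.dvd_mul hr).1 h1 with h3 | h3
    · exact ((Nat.Prime.dvd_mul hr).1 h3).resolve_left (D.hh_not hr hr3)
    · rcases (Nat.Prime.dvd_mul hr).1 (h3.trans D.z6) with h4 | h4
      · exfalso
        have h5 : r ∣ 2 * 3 := h4
        rcases (Nat.Prime.dvd_mul hr).1 h5 with h6 | h6
        · exact hr2 ((Nat.prime_dvd_prime_iff_eq hr Nat.prime_two).1 h6)
        · exact hr3 ((Nat.prime_dvd_prime_iff_eq hr Nat.prime_three).1 h6)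
      · exact h4
  rw [D.D.hA]
  exact Dvd.dvd.mul_left (Dvd.dvd.mul_left (by exact_mod_cast h2) _) _

/-! ## The exits -/

theorem KF.exitNum3 {R n t i x : ℤ} (hR : A * R = 3 * ((Y + 3) * c))
    (hx : x = 3 * t * Y + 3 * n * φ + i * n * (9 - R)) :
    3 * (t * Y * A + n * (φ * A - i * (Y * c + 3 * c - 3 * A))) = A * x := by
  rw [hx]; linear_combination (i * n) * hR

/-- EXIT of level `n` with the integer `R` -/
theorem KF.exit3 (h : KF 3 S a' b c A a e f Y φ l p l' p') {R n o t i x q τ : ℤ} (hn : 0 ≤ n)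
    (ho : o = 1 ∨ o = -1) (hco : IsCoprime t n) (hR : A * R = 3 * ((Y + 3) * c))
    (hx : x = 3 * t * Y + 3 * n * φ + i * n * (9 - R)) (hq : q = o + i * (1 + n))
    (hτ : τ = t + i) (h1 : 9 * n * c < o * (A * x)) (h2 : o * (A * x) ≤ 3 * (Y * c)) :
    SEq S ⟨S.L, S.u, xvK S l' p' n q τ, xLK S l' p' n τ⟩ ∧ IsC (xLK S l' p' n τ) S.u c := by
  have e := KF.exitNum3 (φ := φ) hR hx
  subst hq hτ
  refine h.exit hn ho hco ?_ ?_
  · rw [← e] at h1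
    rcases ho with rfl | rfl <;> linarith
  · rw [← e] at h2
    rcases ho with rfl | rfl <;> linarith

/-! ## Classes of `W` -/

theorem K3.not_two {r : ℕ} (hr : r.Prime) (hr2 : r ≠ 2) : ¬ (r : ℤ) ∣ 2 := fun h => by
  have h1 : r ∣ 2 := by exact_mod_cast h
  exact hr2 ((Nat.prime_dvd_prime_iff_eq hr Nat.prime_two).1 h1)

theorem K3.not_three {r : ℕ} (hr : r.Prime) (hr3 : r ≠ 3) : ¬ (r : ℤ) ∣ 3 := fun h => by
  have h1 : r ∣ 3 := by exact_mod_cast h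
  exact hr3 ((Nat.prime_dvd_prime_iff_eq hr Nat.prime_three).1 h1)

/-- the class of `W` at a prime `r ≥ 5` of `a` -/
theorem KF.k3_class (h : KF 3 S a' b c A a e f Y φ l p l' p') {N : ℕ} (hN : N.Prime)
    (hv : a + A + a' = N) {r : ℕ} (hr : r.Prime) (hr3 : r ≠ 3) (hra : (r : ℤ) ∣ a)
    (hN1 : (r : ℤ) ∣ e → (r : ℤ) ∣ b → ¬ (r : ℤ) ∣ A → ¬ (r : ℤ) ∣ f) {n : ℤ}
    (hn : ¬ (r : ℤ) ∣ n + 3) :
    ∃ w0 : ℤ, ∀ q τ W κ : ℤ, W = 3 * q + τ * Y + n * φ →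
      IsC S.L (xvK S l' p' n q τ) κ → (((r : ℤ) ∣ e → ¬ (r : ℤ) ∣ f) → ¬ (r : ℤ) ∣ W - w0) →
      ¬ (r : ℤ) ∣ κ := by
  have hK : ¬ (r : ℤ) ∣ 3 := K3.not_three hr hr3
  have hdv : ∀ {q τ W κ : ℤ}, W = 3 * q + τ * Y + n * φ → IsC S.L (xvK S l' p' n q τ) κ →
      (r : ℤ) ∣ κ → (r : ℤ) ∣ W * e ∧ (r : ℤ) ∣ (n + 3) * b + n * a - W * f := by
    intro q τ W κ hW hκ hd
    obtain ⟨h1, h2⟩ := (h.xgap hW hκ).1 hd
    exact ⟨(dvd_mul_left _ _).trans h1, (dvd_mul_left _ _).trans h2⟩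
  by_cases hre : (r : ℤ) ∣ e
  · have hrA := h.e_not hN hv hr hK hra hre
    by_cases hrf : (r : ℤ) ∣ f
    · refine ⟨0, fun q τ W κ hW hκ _ hd => ?_⟩
      have hrb : ¬ (r : ℤ) ∣ b := fun h1 => hN1 hre h1 hrA hrf
      obtain ⟨-, h2⟩ := hdv hW hκ hd
      have h3 : (r : ℤ) ∣ (n + 3) * b := by
        have e1 : (n + 3) * b = ((n + 3) * b + n * a - W * f) - n * a + W * f := by ring
        rw [e1]; exact dvd_add (dvd_sub h2 (hra.mul_left _)) (hrf.mul_left _)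
      rcases pdvd_mul hr h3 with h4 | h4
      · exact hn h4
      · exact hrb h4
    · obtain ⟨α, β, hαβ⟩ := ((Nat.prime_iff_prime_int.1 hr).coprime_iff_not_dvd).2 hrf
      refine ⟨β * ((n + 3) * b + n * a), fun q τ W κ hW hκ hw hd => hw (fun _ => hrf) ?_⟩
      obtain ⟨-, k, hk⟩ := hdv hW hκ hd
      refine ⟨α * W - β * k, ?_⟩
      linear_combination (-W) * hαβ - β * hk
  · refine ⟨0, fun q τ W κ hW hκ hw hd => hw (fun h1 => absurd h1 hre) ?_⟩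
    obtain ⟨h1, -⟩ := hdv hW hκ hd
    rw [sub_zero]
    exact (pdvd_mul hr h1).resolve_right hre

/-- `3 W` -/
theorem K3.W3 {R n ε t00 o γ s t i : ℤ} (hε : 3 * t00 = n * ε)
    (hs : 3 * t * Y - i * (R - 9) = γ * s) :
    3 * (3 * (o + i * (1 + n)) + (t00 + n * t + i) * Y + n * φ) =
      n * (ε * Y + 3 * φ + γ * s) + 9 * o + i * (3 * (Y + 3) + n * R) := by
  rw [← hs]; linear_combination Y * hε

/-- classes of `W` as classes of the index, `r ∣ n0` -/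
theorem K3.cl_of {r : ℕ} {R γ n ε t00 o w0 : ℤ} (hε : 3 * t00 = n * ε)
    (h1 : (r : ℤ) ∣ 3 * (Y + 3) + n * R) (hg : IsCoprime (r : ℤ) (n * γ)) :
    ∃ ρ : ℤ, ∀ s t i : ℤ, 3 * t * Y - i * (R - 9) = γ * s →
      (r : ℤ) ∣ (3 * (o + i * (1 + n)) + (t00 + n * t + i) * Y + n * φ) - w0 →
      (r : ℤ) ∣ s - ρ := by
  obtain ⟨ρ, hρ⟩ := K1.lin_class hg (n * (ε * Y + 3 * φ) + 9 * o) (3 * w0)
  refine ⟨ρ, fun s t i hs h2 => hρ s ?_⟩
  have e1 : (n * (ε * Y + 3 * φ) + 9 * o + n * γ * s) - 3 * w0 =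
      3 * ((3 * (o + i * (1 + n)) + (t00 + n * t + i) * Y + n * φ) - w0) -
        i * (3 * (Y + 3) + n * R) := by
    have := K3.W3 (φ := φ) (o := o) hε hs
    linear_combination -this
  rw [e1]
  exact dvd_sub (h2.mul_left _) (h1.mul_left _)

/-- classes of `W` as classes of the index, the lock prime -/
theorem K3.cl_lock {r : ℕ} {R γ n ε t00 o w0 : ℤ} (hε : 3 * t00 = n * ε)
    (h1 : (r : ℤ) ∣ Y) (h2 : (r : ℤ) ∣ R - 3) (hg : IsCoprime (r : ℤ) (9 * (n + 1) * γ)) :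
    ∃ ρ : ℤ, ∀ s t i : ℤ, 3 * t * Y - i * (R - 9) = γ * s →
      (r : ℤ) ∣ (3 * (o + i * (1 + n)) + (t00 + n * t + i) * Y + n * φ) - w0 →
      (r : ℤ) ∣ s - ρ := by
  obtain ⟨ρ, hρ⟩ := K1.lin_class hg (6 * (n * (3 * φ) + 9 * o)) (18 * w0)
  refine ⟨ρ, fun s t i hs h3 => hρ s ?_⟩
  have e1 : (6 * (n * (3 * φ) + 9 * o) + 9 * (n + 1) * γ * s) - 18 * w0 =
      18 * ((3 * (o + i * (1 + n)) + (t00 + n * t + i) * Y + n * φ) - w0) -
        (6 * n * ε + 18 * i - 3 * t * (3 * n + 9)) * Y - (i * (9 * n + 9)) * (R - 3) := by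
    have h5 := K3.W3 (φ := φ) (o := o) hε hs
    linear_combination (-6) * h5 - (3 * n + 9) * hs
  rw [e1]
  exact dvd_sub (dvd_sub (h3.mul_left _) (h1.mul_left _)) (h2.mul_left _)

/-! ## The primes of `P` -/

theorem K3.prime_dvd_int {r : ℕ} (hr : r.Prime) {x : ℤ} (h : ¬ (r : ℤ) ∣ x) : IsCoprime (r : ℤ) x :=
  ((Nat.prime_iff_prime_int.1 hr).coprime_iff_not_dvd).2 h

theorem K3D.natY (D : K3D A b c a e Y g m n0 A0 b0 hh) (hY0 : 0 < Y) :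
    ((g * n0 - 3 : ℕ) : ℤ) = Y := by
  have h1 := D.hY
  have h2 : 3 ≤ g * n0 := by
    have h3 : (3 : ℤ) ≤ ((g * n0 : ℕ) : ℤ) := by push_cast; rw [← h1]; linarith
    exact_mod_cast h3
  push_cast [Nat.cast_sub h2]
  linarith

/-- a class of `W` at a prime `≥ 5` of `P` is a class of the index -/
theorem K3D.cls (D : K3D A b c a e Y g m n0 A0 b0 hh) (hY0 : 0 < Y) {r : ℕ}
    (hr2 : r ≠ 2) (hr3 : r ≠ 3) (hP : r ∈ K3.P g m n0) {γ α β : ℤ} (hα : 3 * Y = γ * α)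
    (hβ : (n0 : ℤ) * (g + m) - 9 = γ * β) {n ε t00 : ℤ} (hε : 3 * t00 = n * ε)
    (hn : ¬ (r : ℤ) ∣ n) (hn1 : ¬ (r : ℤ) ∣ n + 1) (φ o w0 : ℤ) :
    ∃ ρ : ℤ, ∀ s t i : ℤ, 3 * t * Y - i * ((n0 : ℤ) * (g + m) - 9) = γ * s →
      (r : ℤ) ∣ (3 * (o + i * (1 + n)) + (t00 + n * t + i) * Y + n * φ) - w0 →
      (r : ℤ) ∣ s - ρ := by
  have hr := K3.P_prime hP
  have h3r : ¬ (r : ℤ) ∣ 3 := K3.not_three hr hr3
  have h2r : ¬ (r : ℤ) ∣ 2 := K3.not_two hr hr2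
  have h9r : ¬ (r : ℤ) ∣ 9 := fun h => by
    have e1 : (9 : ℤ) = 3 * 3 := by norm_num
    rw [e1] at h
    rcases pdvd_mul hr h with h1 | h1 <;> exact h3r h1
  unfold K3.P at hP
  rw [Finset.mem_union] at hP
  rcases hP with h | h
  · -- `r ∣ n0`
    have hrn : (r : ℤ) ∣ n0 := by exact_mod_cast Nat.dvd_of_mem_primeFactors h
    refine K3.cl_of hε ?_ (K3.prime_dvd_int hr fun h1 => ?_)
    · rw [D.hY]
      exact dvd_add ((hrn.mul_left _).mul_left _) ((hrn.mul_right _).mul_left _)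
    · rcases pdvd_mul hr h1 with h2 | h2
      · exact hn h2
      · apply h9r
        have h3 : (r : ℤ) ∣ (n0 : ℤ) * (g + m) - 9 := by rw [hβ]; exact h2.mul_right _
        have e1 : (9 : ℤ) = (n0 : ℤ) * (g + m) - ((n0 : ℤ) * (g + m) - 9) := by ring
        rw [e1]; exact dvd_sub (hrn.mul_right _) h3
  · split_ifs at h with h1
    · have hrm : r = m := Finset.mem_singleton.1 h
      obtain ⟨-, h4, h5⟩ := h1
      have h6 : (r : ℤ) ∣ Y := by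
        rw [← D.natY hY0, hrm]; exact_mod_cast h5
      have hm : (r : ℤ) ∣ m := by rw [hrm]
      have h7 : (r : ℤ) ∣ (n0 : ℤ) * (g + m) - 3 := by
        have e1 : (n0 : ℤ) * (g + m) - 3 = n0 * m + Y := by
          have := D.hY
          linear_combination -this
        rw [e1]; exact dvd_add (hm.mul_left _) h6
      refine K3.cl_lock hε h6 h7 (K3.prime_dvd_int hr fun h1 => ?_)
      rcases pdvd_mul hr h1 with h8 | h8
      · rcases pdvd_mul hr h8 with h9 | h9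
        · exact h9r h9
        · exact hn1 h9
      · have h9 : (r : ℤ) ∣ (n0 : ℤ) * (g + m) - 9 := by rw [hβ]; exact h8.mul_right _
        have h10 : (r : ℤ) ∣ 2 * 3 := by
          have e1 : (2 * 3 : ℤ) = ((n0 : ℤ) * (g + m) - 3) - ((n0 : ℤ) * (g + m) - 9) := by ring
          rw [e1]; exact dvd_sub h7 h9
        rcases pdvd_mul hr h10 with h11 | h11
        · exact h2r h11
        · exact h3r h11
    · simp at h

/-- a prime `≥ 5` of `a` outside `P` -/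
theorem K3D.out (D : K3D A b c a e Y g m n0 A0 b0 hh) (hY0 : 0 < Y) {r : ℕ} (hr : r.Prime)
    (hr3 : r ≠ 3) (hra : (r : ℤ) ∣ a) (hP : r ∉ K3.P g m n0) :
    ¬ (r : ℤ) ∣ n0 ∧ (r : ℤ) ∣ m ∧ ¬ (r : ℤ) ∣ g ∧ (r : ℤ) ∣ e ∧
      ¬ (m.Prime ∧ m = 2 * g + 3 ∧ m ∣ g * n0 - 3 ∧ r = m) := by
  have hn0 := (D.n0pos hY0).ne'
  unfold K3.P at hP
  rw [Finset.mem_union, not_or, Nat.mem_primeFactors] at hP
  obtain ⟨h1, h3⟩ := hP
  have hrn : ¬ r ∣ n0 := fun h => h1 ⟨hr, h, hn0⟩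
  have hrh := D.hh_not hr hr3
  have hrb : ¬ r ∣ b0 := fun h => hrn (h.trans D.bn)
  have hm : r ∣ m := by
    have h4 : r ∣ m * (hh * b0) := by
      have h5 : (r : ℤ) ∣ ((m * (hh * b0) : ℕ) : ℤ) := by push_cast; rw [← D.D.ha]; exact hra
      exact_mod_cast h5
    rcases (Nat.Prime.dvd_mul hr).1 h4 with h5 | h5
    · exact h5
    · rcases (Nat.Prime.dvd_mul hr).1 h5 with h6 | h6
      · exact absurd h6 hrh
      · exact absurd h6 hrb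
  have hg : ¬ r ∣ g := fun h => Nat.Prime.one_lt hr |>.ne' (Nat.dvd_one.1 (by
    have h6 := Nat.dvd_gcd h hm
    rwa [D.D.co] at h6))
  refine ⟨by exact_mod_cast hrn, by exact_mod_cast hm, by exact_mod_cast hg, ?_, ?_⟩
  · rw [D.D.he]; exact Dvd.dvd.mul_right (by exact_mod_cast hm) _
  · rintro ⟨h4, h5, h6, h7⟩
    apply h3
    rw [if_pos ⟨h4, h5, h6⟩, h7]; exact Finset.mem_singleton_self m

/-- outside `P`, if `f` is not divisible by `r` then `Y` is not divisible by `r` -/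
theorem KF.k3_noY (h : KF 3 S a' b c A a e f Y φ l p l' p') (he3 : e < 3 * A) (hAc : A < c)
    {N : ℕ} (hN : N.Prime) (hv : a + A + a' = N)
    (D : K3D A b c a e Y g m n0 A0 b0 hh) {r : ℕ} (hr : r.Prime) (hr2 : r ≠ 2) (hr3 : r ≠ 3)
    (hra : (r : ℤ) ∣ a) (hP : r ∉ K3.P g m n0) (hf : ¬ (r : ℤ) ∣ f) : ¬ (r : ℤ) ∣ Y := by
  intro hY
  have hY0 := h.Y0
  obtain ⟨h1, h2, h3, h4, h5⟩ := D.out hY0 hr hr3 hra hP
  have hA := h.e_not hN hv hr (K3.not_three hr hr3) hra h4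
  rcases h.ft3 he3 hAc hr h4 hA hY with h6 | ⟨-, h6⟩
  · exact hf h6
  · apply h5
    have hhA : (0 : ℤ) < hh * A0 := by
      have := D.D.h0; have := D.D.A00
      positivity
    have h7 : (m : ℤ) * (r - 3) = 2 * (r * g) := by
      refine mul_left_cancel₀ hhA.ne' ?_
      rw [D.D.he, D.D.hA] at h6
      linear_combination h6
    have h8 : (m : ℤ) ∣ 2 * (r * g) := ⟨r - 3, h7.symm⟩
    have h9 : m ∣ 2 * (r * g) := by exact_mod_cast h8
    have h10 : Nat.Coprime m 2 :=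
      ((Nat.prime_two.coprime_iff_not_dvd).2 D.mo).symm
    have h11 : m ∣ r * g := h10.dvd_of_dvd_mul_left h9
    have h12 : m ∣ r := (Nat.Coprime.symm D.D.co).dvd_of_dvd_mul_right h11
    have hm1 : m ≠ 1 := by have := D.m2; have := D.g3; omega
    have h13 : m = r := (Nat.dvd_prime hr).1 h12 |>.resolve_left hm1
    subst h13
    have hm0 : (0 : ℤ) < m := by exact_mod_cast hr.pos
    have h14 : (m : ℤ) - 3 = 2 * g := by
      refine mul_left_cancel₀ hm0.ne' ?_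
      linear_combination h7
    refine ⟨hr, by omega, ?_, rfl⟩
    have h15 : (m : ℤ) ∣ ((g * n0 - 3 : ℕ) : ℤ) := by rw [D.natY hY0]; exact hY
    exact_mod_cast h15

/-- **the primes `≥ 5`**, levels one and three -/
theorem KF.k3odd (h : KF 3 S a' b c A a e f Y φ l p l' p') {N : ℕ} (hN : N.Prime)
    (hv : a + A + a' = N) (he3 : e < 3 * A) (hAc : A < c)
    (N1 : ∀ r : ℕ, r.Prime → r ≠ 2 → r ≠ 3 → (r : ℤ) ∣ e → (r : ℤ) ∣ b → ¬ (r : ℤ) ∣ A →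
      ¬ (r : ℤ) ∣ f)
    (D : K3D A b c a e Y g m n0 A0 b0 hh) {γ α β : ℤ} (hα : 3 * Y = γ * α)
    (hβ : (n0 : ℤ) * (g + m) - 9 = γ * β) {n ε t00 : ℤ} (hε : 3 * t00 = n * ε)
    (hn : n = 1 ∨ n = 3) (o : ℤ) :
    ∃ ρ : ℕ → ℤ, ∀ s : ℤ, (∀ r ∈ K3.P g m n0, r ≠ 2 → r ≠ 3 → ¬ (r : ℤ) ∣ s - ρ r) →
      ∀ t0 i0 : ℤ, 3 * t0 * Y - i0 * ((n0 : ℤ) * (g + m) - 9) = γ * s → ∀ k3 : ℤ,
      ∃ k : ℤ, (3 : ℤ) ∣ k - k3 ∧ ∀ κ : ℤ,
        IsC S.L (xvK S l' p' n (o + (i0 + k * α) * (1 + n))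
          (t00 + n * (t0 + k * β) + (i0 + k * α))) κ →
        ∀ r : ℕ, r.Prime → r ≠ 2 → r ≠ 3 → (r : ℤ) ∣ a → ¬ (r : ℤ) ∣ κ := by
  classical
  have hY0 := h.Y0
  have hnr : ∀ r : ℕ, r.Prime → r ≠ 2 → r ≠ 3 →
      ¬ (r : ℤ) ∣ n ∧ ¬ (r : ℤ) ∣ n + 1 ∧ ¬ (r : ℤ) ∣ n + 3 := by
    intro r hr hr2 hr3
    have h2 := K3.not_two hr hr2
    have h3 := K3.not_three hr hr3
    have h4 : ¬ (r : ℤ) ∣ 4 := fun h => by
      have e1 : (4 : ℤ) = 2 * 2 := by norm_num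
      rw [e1] at h
      rcases pdvd_mul hr h with h1 | h1 <;> exact h2 h1
    have h6 : ¬ (r : ℤ) ∣ 6 := fun h => by
      have e1 : (6 : ℤ) = 2 * 3 := by norm_num
      rw [e1] at h
      rcases pdvd_mul hr h with h1 | h1
      · exact h2 h1
      · exact h3 h1
    rcases hn with rfl | rfl
    · exact ⟨prime_not_dvd_one hr, by norm_num; exact h2, by norm_num; exact h4⟩
    · exact ⟨h3, by norm_num; exact h4, by norm_num; exact h6⟩
  -- the classes of `W`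
  have hw : ∀ r : ℕ, ∃ w0 : ℤ, r.Prime → r ≠ 2 → r ≠ 3 → (r : ℤ) ∣ a → ∀ q τ W κ : ℤ,
      W = 3 * q + τ * Y + n * φ → IsC S.L (xvK S l' p' n q τ) κ →
      (((r : ℤ) ∣ e → ¬ (r : ℤ) ∣ f) → ¬ (r : ℤ) ∣ W - w0) → ¬ (r : ℤ) ∣ κ := by
    intro r
    by_cases h1 : r.Prime ∧ r ≠ 2 ∧ r ≠ 3 ∧ (r : ℤ) ∣ a
    · obtain ⟨g1, g2, g3, g4⟩ := h1
      obtain ⟨w0, hw⟩ := h.k3_class hN hv g1 g3 g4 (N1 r g1 g2 g3) (hnr r g1 g2 g3).2.2
      exact ⟨w0, fun _ _ _ _ => hw⟩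
    · exact ⟨0, fun h2 h3 h4 h5 => absurd ⟨h2, h3, h4, h5⟩ h1⟩
  choose w hw using hw
  have hρ : ∀ r : ℕ, ∃ ρ : ℤ, r ∈ K3.P g m n0 → r ≠ 2 → r ≠ 3 → ∀ s t i : ℤ,
      3 * t * Y - i * ((n0 : ℤ) * (g + m) - 9) = γ * s →
      (r : ℤ) ∣ (3 * (o + i * (1 + n)) + (t00 + n * t + i) * Y + n * φ) - w r →
      (r : ℤ) ∣ s - ρ := by
    intro r
    by_cases h1 : r ∈ K3.P g m n0 ∧ r ≠ 2 ∧ r ≠ 3
    · obtain ⟨g1, g2, g3⟩ := h1
      obtain ⟨h2, h3, -⟩ := hnr r (K3.P_prime g1) g2 g3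
      obtain ⟨ρ, hρ⟩ := D.cls hY0 g2 g3 g1 hα hβ hε h2 h3 φ o (w r)
      exact ⟨ρ, fun _ _ _ => hρ⟩
    · exact ⟨0, fun h2 h3 h4 => absurd ⟨h2, h3, h4⟩ h1⟩
  choose ρ hρ using hρ
  refine ⟨ρ, fun s hs t0 i0 h0 k3 => ?_⟩
  -- the coefficient of the kernel
  set c0 : ℤ := 3 * (α * (1 + n)) + (n * β + α) * Y with hc0
  set W0 : ℤ := 3 * (o + i0 * (1 + n)) + (t00 + n * t0 + i0) * Y + n * φ with hW0
  have hc3 : 3 * c0 = α * (3 * (Y + 3) + n * ((n0 : ℤ) * (g + m))) := by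
    have e1 : 3 * (n * β * Y) = n * β * γ * α := by linear_combination (n * β) * hα
    rw [hc0]
    linear_combination e1 - (n * α) * hβ
  obtain ⟨k, hk⟩ := crt_primes (insert 3 m.primeFactors) (fun r hr => by
      rcases Finset.mem_insert.1 hr with h1 | h1
      · rw [h1]; exact Nat.prime_three
      · exact Nat.prime_of_mem_primeFactors h1) (fun _ => 1)
    (fun r => if r = 3 then k3 else if (r : ℤ) ∣ W0 - w r then 1 else 0)
  have hk3 : (3 : ℤ) ∣ k - k3 := by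
    have := hk 3 (Finset.mem_insert_self _ _)
    simpa using this
  refine ⟨k, hk3, fun κ hκ r hr hr2 hr3 hra => ?_⟩
  have heq : 3 * (t0 + k * β) * Y - (i0 + k * α) * ((n0 : ℤ) * (g + m) - 9) = γ * s := by
    rw [← h0]
    linear_combination (k * β) * hα - (k * α) * hβ
  refine hw r hr hr2 hr3 hra _ _ _ κ rfl hκ fun hef => ?_
  by_cases hP : r ∈ K3.P g m n0
  · intro h1
    exact hs r hP hr2 hr3 (hρ r hP hr2 hr3 s (t0 + k * β) (i0 + k * α) heq h1)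
  · obtain ⟨g1, g2, g3, g4, g5⟩ := D.out hY0 hr hr3 hra hP
    have hY := h.k3_noY he3 hAc hN hv D hr hr2 hr3 hra hP (hef g4)
    have hαr : ¬ (r : ℤ) ∣ α := by
      intro h1
      have h2 : (r : ℤ) ∣ 3 * Y := by rw [hα]; exact h1.mul_left _
      rcases pdvd_mul hr h2 with h3 | h3
      · exact K3.not_three hr hr3 h3
      · exact hY h3
    have hc0r : ¬ (r : ℤ) ∣ c0 := by
      intro h1
      have h2 : (r : ℤ) ∣ α * (3 * (Y + 3) + n * ((n0 : ℤ) * (g + m))) := by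
        rw [← hc3]; exact h1.mul_left _
      have h3 := (pdvd_mul hr h2).resolve_left hαr
      rw [D.hY] at h3
      have h4 : (r : ℤ) ∣ (n + 3) * ((g : ℤ) * n0) := by
        have e1 : (n + 3) * ((g : ℤ) * n0) =
            (3 * ((g : ℤ) * n0) + n * ((n0 : ℤ) * (g + m))) - n * n0 * m := by ring
        rw [e1]; exact dvd_sub h3 (g2.mul_left _)
      rcases pdvd_mul hr h4 with h5 | h5
      · exact (hnr r hr hr2 hr3).2.2 h5
      · rcases pdvd_mul hr h5 with h6 | h6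
        · exact g3 h6
        · exact g1 h6
    have hkr := hk r (Finset.mem_insert_of_mem (Nat.mem_primeFactors.2
      ⟨hr, by exact_mod_cast g2, by have := D.m2; omega⟩))
    simp only [if_neg hr3, pow_one] at hkr
    have e1 : (3 * (o + (i0 + k * α) * (1 + n)) +
        (t00 + n * (t0 + k * β) + (i0 + k * α)) * Y + n * φ) - w r = (W0 - w r) + k * c0 := by
      rw [hW0, hc0]; ring
    rw [e1]
    intro h1
    split_ifs at hkr with h2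
    · have h3 : (r : ℤ) ∣ k * c0 := (dvd_add_right h2).1 h1
      have h4 : (r : ℤ) ∣ c0 := by
        have e2 : c0 = k * c0 - (k - 1) * c0 := by ring
        rw [e2]; exact dvd_sub h3 (hkr.mul_right _)
      exact hc0r h4
    · apply h2
      rw [sub_zero] at hkr
      exact (dvd_add_left (hkr.mul_right c0)).1 h1

end Pool.Agent.H4G
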