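import Pool.Agent.H4G.Arith.LineB
import Pool.Agent.H4G.Arith.K3All

/-!
# LINE B: the row `K = 3` (helper9)
-/

set_option autoImplicit false

namespace Pool.Agent.H4G

theorem kStmt_three : KStmt 3 :=
  fun _ _ _ _ _ _ _ _ _ _ _ _ _ _ _ h hF hN hv hb3 hAc hAb he3 =>
    h.k3_end hF hN hv hb3 hAc hAb he3

end Pool.Agent.H4G
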