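import Pool.Agent.H4G.Arith.KOdd

/-!
# LINE B, `K = 3`: the prime three (table of helper64; typed by helper29)
-/

set_option autoImplicit false

namespace Pool.Agent.H4G

variable {S : PSt} {a' b c A a e f Y φ : ℤ} {l p l' p' : Z2}

/-! ## Tools -/

theorem thr_mul {x y : ℤ} (h : (3 : ℤ) ∣ x * y) : (3 : ℤ) ∣ x ∨ (3 : ℤ) ∣ y :=
  Int.prime_three.dvd_or_dvd h

theorem thr_cancel {x y : ℤ} {k : ℕ} (hx : ¬ (3 : ℤ) ∣ x) (h : (3 : ℤ) ^ k ∣ x * y) :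
    (3 : ℤ) ^ k ∣ y := by
  have hc : IsCoprime ((3 : ℤ) ^ k) x := by
    have h2 : IsCoprime (3 : ℤ) x := (Int.prime_three.coprime_iff_not_dvd).2 hx
    exact h2.pow_left
  exact hc.dvd_of_dvd_mul_left h

theorem thr_cancel9 {x y : ℤ} (hx : ¬ (3 : ℤ) ∣ x) (h : (9 : ℤ) ∣ x * y) : (9 : ℤ) ∣ y := by
  have := thr_cancel (k := 2) hx (by norm_num; exact h)
  norm_num at this
  exact this

theorem thr_cancel27 {x y : ℤ} (hx : ¬ (3 : ℤ) ∣ x) (h : (27 : ℤ) ∣ x * y) : (27 : ℤ) ∣ y := by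
  have := thr_cancel (k := 3) hx (by norm_num; exact h)
  norm_num at this
  exact this

theorem Dz.thr {k : ℤ} {x : Z2} (h : Dz 3 (k • x)) : (3 : ℤ) ∣ k ∨ Dz 3 x := by
  have := Dz.mul_prime (q := 3) Nat.prime_three (k := k) (x := x) (by exact_mod_cast h)
  exact_mod_cast this

theorem Dz.inj3 {d : ℤ} {x : Z2} (h : Dz (3 * d) ((3 : ℤ) • x)) : Dz d x := by
  rw [Dz.iff] at h ⊢
  intro z
  have h1 := h z
  rw [cr_smul_left] at h1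
  exact (mul_dvd_mul_iff_left (by norm_num : (3 : ℤ) ≠ 0)).1 h1

/-- `N` prime: three divides not all the areas -/
theorem KF.thr_N {K : ℤ} (h : KF K S a' b c A a e f Y φ l p l' p') {N : ℕ} (hN : N.Prime)
    (hv : a + A + a' = N) (h1 : (3 : ℤ) ∣ a) (h2 : (3 : ℤ) ∣ A) : ¬ (3 : ℤ) ∣ a' := by
  intro h3
  have h4 : (3 : ℤ) ∣ (N : ℤ) := by rw [← hv]; exact dvd_add (dvd_add h1 h2) h3
  have h5 : 3 ∣ N := by exact_mod_cast h4
  have h6 := (Nat.prime_dvd_prime_iff_eq Nat.prime_three hN).1 h5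
  have h7 := Int.le_of_dvd h.a0 h1
  have h8 := h.A0
  have h9 := h.a'0
  rw [← h6] at hv
  push_cast at hv
  omega

/-- `A (a + b) = K c b` -/
theorem KF.Aab {K : ℤ} (h : KF K S a' b c A a e f Y φ l p l' p') : A * (a + b) = K * c * b := by
  have h1 := h.aA
  have h2 := h.hc
  linear_combination h1 - b * h2

/-- the common vector -/
theorem KF.exists_w {K : ℤ} (h : KF K S a' b c A a e f Y φ l p l' p') :
    ∃ (w : Z2) (g m : ℤ), S.v = g • w ∧ l = m • w ∧ IsCoprime g m ∧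
      (∃ s t : ℤ, w = s • S.v + t • l) := by
  have hA0 := h.A0
  have hne : (Int.gcd A e : ℤ) ≠ 0 := by
    have : 0 < Int.gcd A e := Int.gcd_pos_of_ne_zero_left _ hA0.ne'
    exact_mod_cast this.ne'
  obtain ⟨g, hg⟩ := Int.gcd_dvd_left A e
  obtain ⟨m, hm⟩ := Int.gcd_dvd_right A e
  set d : ℤ := (Int.gcd A e : ℤ) with hd
  have hco : IsCoprime g m := by
    rw [Int.isCoprime_iff_gcd_eq_one]
    have h1 : Int.gcd A e = Int.gcd (d * g) (d * m) := by rw [← hg, ← hm]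
    rw [Int.gcd_mul_left] at h1
    have h2 : d.natAbs = Int.gcd A e := by rw [hd]; simp
    rw [h2] at h1
    have h3 : 0 < Int.gcd A e := Int.gcd_pos_of_ne_zero_left _ hA0.ne'
    have h4 : Int.gcd A e * 1 = Int.gcd A e * Int.gcd g m := by rw [mul_one]; exact h1
    exact (Nat.eq_of_mul_eq_mul_left h3 h4).symm
  have h1 : g • l = m • S.v := by
    refine smul_inj hne ?_
    have h2 := h.Al
    have e1 : d • g • l = A • l := by rw [hg]; module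
    have e2 : d • m • S.v = e • S.v := by
      conv_rhs => rw [hm]
      module
    rw [e1, e2, h2]
  obtain ⟨s, t, hst⟩ := hco
  refine ⟨s • S.v + t • l, g, m, ?_, ?_, ⟨s, t, hst⟩, s, t, rfl⟩
  · have e1 : g • (s • S.v + t • l) = (s * g) • S.v + t • (g • l) := by module
    rw [e1, h1]
    have e2 : (s * g) • S.v + t • m • S.v = (s * g + t * m) • S.v := by module
    rw [e2, hst, one_smul]
  · have e1 : m • (s • S.v + t • l) = s • (m • S.v) + (t * m) • l := by module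
    rw [e1, ← h1]
    have e2 : s • g • l + (t * m) • l = (s * g + t * m) • l := by module
    rw [e2, hst, one_smul]

/-- H-rigidity at three for `K = 3` -/
theorem KF.thr_rig (h : KF 3 S a' b c A a e f Y φ l p l' p') {k : ℕ} (hk : (3 : ℤ) ^ k ∣ b) :
    (3 : ℤ) ^ (k + 1) ∣ (3 + Y) * e ∧ (3 : ℤ) ^ (k + 1) ∣ (3 + Y) * f := by
  have h1 := h.hrig (q := 3) Nat.prime_three (h.alw_odd Nat.prime_three (Or.inl (by norm_num)))
    (k := k) (by exact_mod_cast hk)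
  have e1 : (3 : ℤ) ^ (k + 1) = 3 * ((3 : ℕ) : ℤ) ^ k := by push_cast; ring
  rw [e1]
  exact h1

/-- H-rigidity in all V-twisted states at three, `K = 3`, `3 ∤ Y` -/
theorem KF.thr_rigV (h : KF 3 S a' b c A a e f Y φ l p l' p') (hY : ¬ (3 : ℤ) ∣ Y) {k : ℕ}
    (hk : (3 : ℤ) ^ k ∣ b) (j : ℤ) :
    (3 : ℤ) ^ (k + 1) ∣ e ∧ (3 : ℤ) ^ (k + 1) ∣ f + j * (a + b - A) := by
  obtain ⟨h1, h2⟩ := h.hrigV (j := j) rfl Nat.prime_three (Or.inl (by norm_num))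
    (k := k) (by exact_mod_cast hk)
  set g : ℤ := (Int.gcd Y (1 + j * φ) : ℤ) with hg
  have e1 : 3 * (((3 : ℕ) : ℤ) ^ k * g) = (3 : ℤ) ^ (k + 1) * g := by push_cast; ring
  rw [e1] at h1 h2
  have hY3 : ¬ (3 : ℤ) ∣ 3 * g + Y := by omega
  exact ⟨thr_cancel hY3 ((dvd_mul_right _ _).trans h1),
    thr_cancel hY3 ((dvd_mul_right _ _).trans h2)⟩

/-! ## T1: `3 ∤ A` -/

theorem KF.three_T1 (h : KF 3 S a' b c A a e f Y φ l p l' p') (ha : (3 : ℤ) ∣ a)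
    (hA : ¬ (3 : ℤ) ∣ A) :
    ¬ (3 : ℤ) ∣ e ∧ (3 : ℤ) ∣ b ∧ (9 : ℤ) ∣ Y + 3 ∧ (3 : ℤ) ∣ φ ∧
      ∀ Q : ℤ, A * Q = (Y + 3) * c → (9 : ℤ) ∣ Q := by
  have hc := h.hc
  have he : ¬ (3 : ℤ) ∣ e := by omega
  have hb : (3 : ℤ) ∣ b := by
    have h1 : (3 : ℤ) ∣ e * b := by rw [← h.aA]; exact ha.mul_right _
    exact (thr_mul h1).resolve_left he
  have hY : (9 : ℤ) ∣ Y + 3 := by
    obtain ⟨h1, -⟩ := h.thr_rig (k := 1) (by simpa using hb)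
    norm_num at h1
    rw [add_comm]
    exact thr_cancel9 he (by rw [mul_comm]; exact h1)
  have hu : ¬ Dz 3 S.u := fun h1 => hA (by rw [← h.hA]; exact h1.cr_left _)
  have hw : Dz 3 (S.v + l) := by
    have h1 : Dz 3 (A • (S.v + l)) := by
      rw [h.Aw]; exact Dz.of_dvd (dvd_mul_right _ _) _
    exact h1.thr.resolve_left hA
  have hφ : (3 : ℤ) ∣ φ := by
    have h1 : Dz 3 (φ • S.u) := by
      have h2 : Dz 3 ((3 : ℤ) • p') := Dz.of_dvd (dvd_refl _) _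
      rw [h.hp'] at h2
      have := h2.sub hw
      rwa [add_sub_cancel_right] at this
    exact h1.thr.resolve_right hu
  refine ⟨he, hb, hY, hφ, fun Q hQ => ?_⟩
  exact thr_cancel9 hA (by rw [hQ]; exact hY.mul_right _)

theorem KF.three_T1_kap (h : KF 3 S a' b c A a e f Y φ l p l' p') (ha : (3 : ℤ) ∣ a)
    (hA : ¬ (3 : ℤ) ∣ A) {n q τ W κ : ℤ} (hW : W = 3 * q + τ * Y + n * φ)
    (hκ : IsC S.L (xvK S l' p' n q τ) κ) (h3 : (3 : ℤ) ∣ κ) : (9 : ℤ) ∣ W := by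
  obtain ⟨he, -⟩ := h.three_T1 ha hA
  obtain ⟨h1, -⟩ := (h.xgap hW hκ).1 h3
  norm_num at h1
  exact thr_cancel9 he (by rw [mul_comm]; exact h1)

theorem KF.three_T1_class (h : KF 3 S a' b c A a e f Y φ l p l' p') (ha : (3 : ℤ) ∣ a)
    (hA : ¬ (3 : ℤ) ∣ A) {Q n o t i ω : ℤ} (hQ : A * Q = (Y + 3) * c)
    (hω : ω = t * Y + n * φ + i * n * (3 - Q)) :
    (3 : ℤ) ∣ ω ∧ ((9 : ℤ) ∣ ω + 3 * o + i * (Y + 3 + n * Q) ↔ (9 : ℤ) ∣ ω + 3 * o) := by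
  obtain ⟨-, -, hY, hφ, hQ9⟩ := h.three_T1 ha hA
  have hQ' := hQ9 Q hQ
  have hz : (9 : ℤ) ∣ i * (Y + 3 + n * Q) := (dvd_add hY (hQ'.mul_left n)).mul_left i
  constructor
  · rw [hω]
    refine dvd_add (dvd_add (Dvd.dvd.mul_left (by omega) _) (hφ.mul_left n)) ?_
    exact Dvd.dvd.mul_left (by omega) _
  · exact ⟨fun h1 => (dvd_add_left hz).1 h1, fun h1 => dvd_add h1 hz⟩

/-! ## B2: `3 ∣ u`, not `3 ∣ v, l`: impossible -/

theorem KF.three_B2 (h : KF 3 S a' b c A a e f Y φ l p l' p') {N : ℕ} (hN : N.Prime)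
    (hv : a + A + a' = N) (ha : (3 : ℤ) ∣ a) (hu : Dz 3 S.u)
    (hw : ¬ (Dz 3 S.v ∧ Dz 3 l)) : False := by
  have hA : (3 : ℤ) ∣ A := by rw [← h.hA]; exact hu.cr_left _
  have he : (3 : ℤ) ∣ e := by rw [← h.he]; exact hu.cr_left _
  have ha' := h.thr_N hN hv ha hA
  have hvl : Dz 3 (S.v + l) := by
    have h2 : Dz 3 ((3 : ℤ) • p') := Dz.of_dvd (dvd_refl _) _
    rw [h.hp'] at h2
    have := h2.sub (hu.smul φ)
    rwa [add_sub_cancel_left] at this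
  have hv3 : ¬ Dz 3 S.v := fun h1 => hw ⟨h1, by
    have := hvl.sub h1
    rwa [add_sub_cancel_left] at this⟩
  have hl3 : ¬ Dz 3 l := fun h1 => hv3 (by
    have := hvl.sub h1
    rwa [add_sub_cancel_right] at this)
  -- `9 ∤ Y c`
  have hy := h.hy
  have hYc : ¬ (9 : ℤ) ∣ Y * c := by rw [← hy]; omega
  -- `3 ∣ c`
  obtain ⟨A1, hA1⟩ := hA
  obtain ⟨x, hx⟩ := hvl
  have e1 : (3 * A1) • x = c • S.v := by
    refine smul_inj (by norm_num : (3 : ℤ) ≠ 0) ?_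
    have h1 := h.Aw
    rw [hA1, hx] at h1
    have e2 : (3 : ℤ) • (3 * A1) • x = (3 * A1) • (3 : ℤ) • x := by module
    rw [e2, h1]; module
  have hc3 : (3 : ℤ) ∣ c := by
    have h1 : Dz 3 (c • S.v) := by rw [← e1]; exact Dz.of_dvd (dvd_mul_right _ _) _
    exact h1.thr.resolve_right hv3
  have hY3 : ¬ (3 : ℤ) ∣ Y := fun h1 => hYc (by
    have := mul_dvd_mul h1 hc3
    norm_num at this; exact this)
  -- `9 ∣ e` by rigidity
  have hb : (3 : ℤ) ∣ b := by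
    by_contra hb
    -- then `3 ∣ a A = e b`
    have h1 : (3 : ℤ) ^ 2 ∣ b * e := by
      rw [mul_comm, ← h.aA, hA1]
      have := mul_dvd_mul ha (dvd_mul_right (3 : ℤ) A1)
      rw [pow_two]; exact this
    have h2 := thr_cancel hb h1
    norm_num at h2
    -- `9 ∣ e` gives `9 ∣ A` and then `9 ∣ c`
    have h3 : Dz (3 * 3) ((3 : ℤ) • (A1 • l)) := by
      have e3 : (3 : ℤ) • (A1 • l) = e • S.v := by rw [← h.Al, hA1]; module
      rw [e3]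
      exact Dz.of_dvd (by norm_num; exact h2) _
    have h4 : (3 : ℤ) ∣ A1 := (h3.inj3).thr.resolve_right hl3
    obtain ⟨A2, hA2⟩ := h4
    have h5 : (9 : ℤ) ∣ c := by
      obtain ⟨c1, hc1⟩ := hc3
      have e4 : (3 * A2) • x = c1 • S.v := by
        refine smul_inj (by norm_num : (3 : ℤ) ≠ 0) ?_
        have e5 : (3 : ℤ) • (3 * A2) • x = (3 * A1) • x := by rw [hA2]; module
        rw [e5, e1, hc1]; module
      have h6 : Dz 3 (c1 • S.v) := by rw [← e4]; exact Dz.of_dvd (dvd_mul_right _ _) _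
      have h7 := h6.thr.resolve_right hv3
      omega
    exact hYc (h5.mul_left _)
  obtain ⟨h1, -⟩ := h.thr_rigV hY3 (k := 1) (by simpa using hb) 0
  norm_num at h1
  have h3 : Dz (3 * 3) ((3 : ℤ) • (A1 • l)) := by
    have e3 : (3 : ℤ) • (A1 • l) = e • S.v := by rw [← h.Al, hA1]; module
    rw [e3]
    exact Dz.of_dvd (by norm_num; exact h1) _
  have h4 : (3 : ℤ) ∣ A1 := (h3.inj3).thr.resolve_right hl3
  obtain ⟨A2, hA2⟩ := h4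
  have h5 : (9 : ℤ) ∣ c := by
    obtain ⟨c1, hc1⟩ := hc3
    have e4 : (3 * A2) • x = c1 • S.v := by
      refine smul_inj (by norm_num : (3 : ℤ) ≠ 0) ?_
      have e5 : (3 : ℤ) • (3 * A2) • x = (3 * A1) • x := by rw [hA2]; module
      rw [e5, e1, hc1]; module
    have h6 : Dz 3 (c1 • S.v) := by rw [← e4]; exact Dz.of_dvd (dvd_mul_right _ _) _
    have h7 := h6.thr.resolve_right hv3
    omega
  exact hYc (h5.mul_left _)

/-! ## B1: `3 ∣ u, v, l` -/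

theorem KF.three_B1 (h : KF 3 S a' b c A a e f Y φ l p l' p') {N : ℕ} (hN : N.Prime)
    (hv : a + A + a' = N) (ha : (3 : ℤ) ∣ a) (hu : Dz 3 S.u) (hv3 : Dz 3 S.v) (hl3 : Dz 3 l) :
    ¬ (3 : ℤ) ∣ Y ∧ (3 : ℤ) ∣ c ∧ ¬ (9 : ℤ) ∣ c ∧ (9 : ℤ) ∣ A ∧ ¬ (27 : ℤ) ∣ A ∧ (9 : ℤ) ∣ b ∧
      ¬ (27 : ℤ) ∣ b ∧ (27 : ℤ) ∣ e ∧ (27 : ℤ) ∣ f ∧ (27 : ℤ) ∣ a := by
  have hc := h.hc
  have hy := h.hy
  obtain ⟨u0, hu0⟩ := hu
  obtain ⟨v0, hv0⟩ := hv3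
  obtain ⟨l0, hl0⟩ := hl3
  have hA9 : (9 : ℤ) ∣ A := by
    rw [← h.hA, hu0, hv0, cr_smul_left, cr_smul_right]
    exact ⟨cr u0 v0, by ring⟩
  have he9 : (9 : ℤ) ∣ e := by
    rw [← h.he, hu0, hl0, cr_smul_left, cr_smul_right]
    exact ⟨cr u0 l0, by ring⟩
  have hb3 : (3 : ℤ) ∣ b := by
    rw [← h.hb, hv0, cr_smul_right]; exact dvd_mul_right _ _
  have ha' := h.thr_N hN hv ha (by omega)
  have hYc : ¬ (9 : ℤ) ∣ Y * c := by rw [← hy]; omega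
  have hc3 : (3 : ℤ) ∣ c := by omega
  have hY3 : ¬ (3 : ℤ) ∣ Y := fun h1 => hYc (by
    have := mul_dvd_mul h1 hc3
    norm_num at this; exact this)
  have hc9 : ¬ (9 : ℤ) ∣ c := fun h1 => hYc (h1.mul_left _)
  obtain ⟨c1, hc1⟩ := hc3
  have hc1' : ¬ (3 : ℤ) ∣ c1 := by omega
  have hkey := h.Aab
  -- `9 ∣ b`
  have hb9 : (9 : ℤ) ∣ b := by
    obtain ⟨-, h2⟩ := h.thr_rigV hY3 (k := 1) (by simpa using hb3) 1
    obtain ⟨-, h3⟩ := h.thr_rigV hY3 (k := 1) (by simpa using hb3) 0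
    norm_num at h2 h3
    have h4 : (9 : ℤ) ∣ a + b := by omega
    have h5 : (81 : ℤ) ∣ A * (a + b) := by
      have := mul_dvd_mul hA9 h4
      norm_num at this; exact this
    rw [hkey, hc1] at h5
    have h6 : (9 : ℤ) * 9 ∣ 9 * (c1 * b) := by
      have e1 : (9 : ℤ) * (c1 * b) = 3 * (3 * c1) * b := by ring
      rw [e1]; norm_num; exact h5
    have h7 := (mul_dvd_mul_iff_left (by norm_num : (9 : ℤ) ≠ 0)).1 h6
    exact thr_cancel9 hc1' h7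
  obtain ⟨he27, h2⟩ := h.thr_rigV hY3 (k := 2) (by norm_num; exact hb9) 1
  obtain ⟨-, h3⟩ := h.thr_rigV hY3 (k := 2) (by norm_num; exact hb9) 0
  norm_num at he27 h2 h3
  have hA27 : ¬ (27 : ℤ) ∣ A := by omega
  have hD27 : (27 : ℤ) ∣ a + b - A := by omega
  have hb27 : ¬ (27 : ℤ) ∣ b := by
    intro h5
    obtain ⟨-, h6⟩ := h.thr_rigV hY3 (k := 3) (by norm_num; exact h5) 1
    obtain ⟨-, h7⟩ := h.thr_rigV hY3 (k := 3) (by norm_num; exact h5) 0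
    norm_num at h6 h7
    -- `A (a + b) = 9 c1 b`, `v(A) = 2`
    obtain ⟨A1, hA1⟩ := hA9
    have hA1' : ¬ (3 : ℤ) ∣ A1 := by omega
    have h8 : A1 * (a + b) = c1 * b := by
      have e1 : (9 : ℤ) * (A1 * (a + b)) = 9 * (c1 * b) := by
        rw [hA1, hc1] at hkey
        linear_combination hkey
      exact mul_left_cancel₀ (by norm_num) e1
    have h9 : (27 : ℤ) ∣ a + b := thr_cancel27 hA1' (by rw [h8]; exact h5.mul_left _)
    omega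
  refine ⟨hY3, ⟨c1, hc1⟩, hc9, hA9, hA27, hb9, hb27, he27, h3, ?_⟩
  obtain ⟨A1, hA1⟩ := hA9
  obtain ⟨b1, hb1⟩ := hb9
  have hA1' : ¬ (3 : ℤ) ∣ A1 := by omega
  have h8 : A1 * a = e * b1 := by
    have e1 : (9 : ℤ) * (A1 * a) = 9 * (e * b1) := by
      have h9 := h.aA
      rw [hA1, hb1] at h9
      linear_combination h9
    exact mul_left_cancel₀ (by norm_num) e1
  exact thr_cancel27 hA1' (by rw [h8]; exact he27.mul_right _)

/-- the exit in case B1 -/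
theorem KF.three_B1x (h : KF 3 S a' b c A a e f Y φ l p l' p') {N : ℕ} (hN : N.Prime)
    (hv : a + A + a' = N) (ha : (3 : ℤ) ∣ a) (hu : Dz 3 S.u) (hv3 : Dz 3 S.v) (hl3 : Dz 3 l)
    {n q τ κ : ℤ} (hn : ¬ (3 : ℤ) ∣ n) (hκ : IsC S.L (xvK S l' p' n q τ) κ) :
    ¬ (9 : ℤ) ∣ κ ∧ (3 : ℤ) ∣ A + n * c ∧
      (∀ k : ℕ, (3 : ℤ) ^ k ∣ κ → (3 : ℤ) ^ k ∣ A + n * c) ∧
      ∀ D : Z2, κ • D = (a + (A + n * c)) • xvK S l' p' n q τ → ¬ Dz 3 D := by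
  obtain ⟨k1, k2, k3, k4, k5, k6, k7, k8, k9, k10⟩ := h.three_B1 hN hv ha hu hv3 hl3
  have h9 : ¬ (9 : ℤ) ∣ κ := by
    intro h1
    obtain ⟨-, h2⟩ := (h.xgap (n := n) (q := q) (τ := τ) rfl hκ).1 h1
    norm_num at h2
    have h3 : (27 : ℤ) ∣ (n + 3) * b := by
      have e1 : (n + 3) * b = ((n + 3) * b + n * a - (3 * q + τ * Y + n * φ) * f) - n * a +
        (3 * q + τ * Y + n * φ) * f := by ring
      rw [e1]
      exact dvd_add (dvd_sub h2 (k10.mul_left _)) (k9.mul_left _)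
    exact k7 (thr_cancel27 (by omega) h3)
  have hkap3 : (3 : ℤ) ∣ κ := by
    refine (h.xgap (n := n) (q := q) (τ := τ) rfl hκ).2 ⟨?_, ?_⟩
    · norm_num
      exact ((by norm_num : (9 : ℤ) ∣ 27).trans k8).mul_left _
    · norm_num
      refine dvd_sub (dvd_add (k6.mul_left _) ?_) ?_
      · exact ((by norm_num : (9 : ℤ) ∣ 27).trans k10).mul_left _
      · exact ((by norm_num : (9 : ℤ) ∣ 27).trans k9).mul_left _
  have hA3 : (3 : ℤ) ∣ A + n * c := dvd_add (by omega) (k2.mul_left _)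
  refine ⟨h9, hA3, fun k hk => ?_, fun D hD h1 => ?_⟩
  · rcases Nat.lt_or_ge k 2 with h1 | h1
    · interval_cases k
      · simp
      · simpa using hA3
    · exact absurd (by simpa using ((pow_dvd_pow (3 : ℤ) h1).trans hk)) h9
  · -- `κ = 3 κ1`, `a + A + n c = 3 s`, both prime to three
    obtain ⟨c1, hc1⟩ := k2
    have hc1' : ¬ (3 : ℤ) ∣ c1 := by omega
    obtain ⟨κ1, hκ1⟩ := hkap3
    obtain ⟨D1, hD1⟩ := h1
    obtain ⟨s, hs⟩ : (3 : ℤ) ∣ a + (A + n * c) := dvd_add (by omega) hA3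
    have hs' : ¬ (3 : ℤ) ∣ s := by
      intro h2
      obtain ⟨s1, hs1⟩ := h2
      have h3 : (9 : ℤ) ∣ n * c := by
        have e1 : n * c = (a + (A + n * c)) - a - A := by ring
        rw [e1, hs, hs1]
        refine dvd_sub (dvd_sub ⟨s1, by ring⟩ ?_) k4
        exact (by norm_num : (9 : ℤ) ∣ 27).trans k10
      exact k3 (thr_cancel9 hn h3)
    have h4 : s • xvK S l' p' n q τ = (3 * κ1) • D1 := by
      refine smul_inj (by norm_num : (3 : ℤ) ≠ 0) ?_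
      rw [hκ1, hs, hD1] at hD
      have e1 : (3 : ℤ) • s • xvK S l' p' n q τ = (3 * s) • xvK S l' p' n q τ := by module
      rw [e1, ← hD]; module
    have h5 : Dz 3 (xvK S l' p' n q τ) := by
      have h6 : Dz 3 (s • xvK S l' p' n q τ) := by
        rw [h4]; exact Dz.of_dvd (dvd_mul_right _ _) _
      exact h6.thr.resolve_left hs'
    -- `u × v^ = A + n c` would be divisible by nine
    obtain ⟨x, hx⟩ := h5
    obtain ⟨u0, hu0⟩ := hu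
    have h6 := h.xA n q τ
    rw [hx, hu0, cr_smul_left, cr_smul_right] at h6
    have h7 : (9 : ℤ) ∣ n * c := by
      have e1 : n * c = (A + n * c) - A := by ring
      rw [e1, ← h6]
      exact dvd_sub ⟨cr u0 x, by ring⟩ k4
    exact k3 (thr_cancel9 hn h7)

/-! ## B3: not `3 ∣ u`; `3 ∣ v, l` -/

theorem KF.three_B3 (h : KF 3 S a' b c A a e f Y φ l p l' p') {N : ℕ} (hN : N.Prime)
    (hv : a + A + a' = N) (hu : ¬ Dz 3 S.u) (hv3 : Dz 3 S.v) (hl3 : Dz 3 l) :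
    (3 : ℤ) ∣ Y ∧ ¬ (9 : ℤ) ∣ Y ∧ (3 : ℤ) ∣ φ ∧ ¬ (3 : ℤ) ∣ c ∧ (3 : ℤ) ∣ A ∧ (3 : ℤ) ∣ e ∧
      (3 : ℤ) ∣ b ∧ (3 : ℤ) ∣ a ∧ (∀ k : ℕ, (3 : ℤ) ^ k ∣ A → (3 : ℤ) ^ k ∣ b) ∧
      ((9 : ℤ) ∣ a + b → ∀ k : ℕ, (3 : ℤ) ^ k ∣ A → (3 : ℤ) ^ (k + 1) ∣ b) := by
  have hy := h.hy
  have hA3 : (3 : ℤ) ∣ A := by rw [← h.hA]; exact hv3.cr_right _
  have he3 : (3 : ℤ) ∣ e := by rw [← h.he]; exact hl3.cr_right _
  have hb3 : (3 : ℤ) ∣ b := by rw [← h.hb]; exact hv3.cr_right _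
  have ha3 : (3 : ℤ) ∣ a := by rw [← h.ha]; exact hl3.cr_right _
  have hY3 : (3 : ℤ) ∣ Y := by
    have h1 : Dz 3 (Y • S.u) := by rw [← h.hl']; exact Dz.of_dvd (dvd_refl _) _
    exact h1.thr.resolve_right hu
  have hφ3 : (3 : ℤ) ∣ φ := by
    have h1 : Dz 3 (φ • S.u) := by
      have h2 : Dz 3 ((3 : ℤ) • p') := Dz.of_dvd (dvd_refl _) _
      rw [h.hp'] at h2
      have := h2.sub (hv3.add hl3)
      rwa [add_sub_cancel_right] at this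
    exact h1.thr.resolve_right hu
  have ha' := h.thr_N hN hv ha3 hA3
  have hYc : ¬ (9 : ℤ) ∣ Y * c := by rw [← hy]; omega
  have hY9 : ¬ (9 : ℤ) ∣ Y := fun h1 => hYc (h1.mul_right _)
  have hc3 : ¬ (3 : ℤ) ∣ c := fun h1 => hYc (by
    have := mul_dvd_mul hY3 h1
    norm_num at this; exact this)
  have hkey := h.Aab
  have hab : (3 : ℤ) ∣ a + b := dvd_add ha3 hb3
  refine ⟨hY3, hY9, hφ3, hc3, hA3, he3, hb3, ha3, fun k hk => ?_, fun h9 k hk => ?_⟩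
  · have h1 : (3 : ℤ) * 3 ^ k ∣ 3 * (c * b) := by
      have e1 : (3 : ℤ) * (c * b) = A * (a + b) := by rw [hkey]; ring
      rw [e1, mul_comm (3 : ℤ)]
      exact mul_dvd_mul hk hab
    exact thr_cancel hc3 ((mul_dvd_mul_iff_left (by norm_num : (3 : ℤ) ≠ 0)).1 h1)
  · have h1 : (3 : ℤ) * 3 ^ (k + 1) ∣ 3 * (c * b) := by
      have e1 : (3 : ℤ) * (c * b) = A * (a + b) := by rw [hkey]; ring
      have e2 : (3 : ℤ) * 3 ^ (k + 1) = 3 ^ k * 9 := by rw [pow_succ]; ring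
      rw [e1, e2]
      exact mul_dvd_mul hk h9
    exact thr_cancel hc3 ((mul_dvd_mul_iff_left (by norm_num : (3 : ℤ) ≠ 0)).1 h1)

/-- the gap after the exit in case B3 -/
theorem KF.three_B3x (h : KF 3 S a' b c A a e f Y φ l p l' p') {N : ℕ} (hN : N.Prime)
    (hv : a + A + a' = N) (hu : ¬ Dz 3 S.u) (hv3 : Dz 3 S.v) (hl3 : Dz 3 l)
    {n q τ W κ : ℤ} (hW : W = 3 * q + τ * Y + n * φ) (hκ : IsC S.L (xvK S l' p' n q τ) κ) :
    (3 : ℤ) ∣ W ∧ (¬ (3 : ℤ) ∣ n → ¬ (3 : ℤ) ∣ A + n * c) ∧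
      ((3 : ℤ) ∣ κ ↔ (9 : ℤ) ∣ n * (a + b) - W * f) := by
  obtain ⟨k1, k2, k3, k4, k5, k6, k7, k8, -, -⟩ := h.three_B3 hN hv hu hv3 hl3
  have hW3 : (3 : ℤ) ∣ W := by
    rw [hW]
    exact dvd_add (dvd_add (dvd_mul_right _ _) (k1.mul_left _)) (k3.mul_left _)
  refine ⟨hW3, fun hn h1 => ?_, ?_⟩
  · have h2 : (3 : ℤ) ∣ n * c := (dvd_add_right k5).1 h1
    rcases thr_mul h2 with h3 | h3
    · exact hn h3
    · exact k4 h3
  · have h1 : (3 : ℤ) * 3 ∣ W * e := mul_dvd_mul hW3 k6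
    have h2 : (n + 3) * b + n * a - W * f = (n * (a + b) - W * f) + 3 * b := by ring
    have h3 : (9 : ℤ) ∣ 3 * b := by
      have := mul_dvd_mul_left (3 : ℤ) k7
      norm_num at this; exact this
    rw [h.xgap hW hκ]
    constructor
    · rintro ⟨-, h4⟩
      norm_num at h4
      rw [h2] at h4
      exact (dvd_add_left h3).1 h4
    · intro h4
      refine ⟨h1, ?_⟩
      norm_num
      rw [h2]
      exact dvd_add h4 h3

/-- B3, `3 ∣ f`, `9 ∤ a + b`: the gap is prime to three -/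
theorem KF.three_B3i (h : KF 3 S a' b c A a e f Y φ l p l' p') {N : ℕ} (hN : N.Prime)
    (hv : a + A + a' = N) (hu : ¬ Dz 3 S.u) (hv3 : Dz 3 S.v) (hl3 : Dz 3 l) (hf : (3 : ℤ) ∣ f)
    (hab : ¬ (9 : ℤ) ∣ a + b) {n q τ κ : ℤ} (hn : ¬ (3 : ℤ) ∣ n)
    (hκ : IsC S.L (xvK S l' p' n q τ) κ) : ¬ (3 : ℤ) ∣ κ := by
  obtain ⟨k1, -, k3⟩ := h.three_B3x hN hv hu hv3 hl3 rfl hκ
  rw [k3]
  intro h1
  have h2 : (9 : ℤ) ∣ (3 * q + τ * Y + n * φ) * f := by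
    have := mul_dvd_mul k1 hf
    norm_num at this; exact this
  exact hab (thr_cancel9 hn ((dvd_sub_left h2).1 h1))

/-- B3, `f` a unit: one class of `W` modulo nine -/
theorem KF.three_B3f (h : KF 3 S a' b c A a e f Y φ l p l' p') {N : ℕ} (hN : N.Prime)
    (hv : a + A + a' = N) (hu : ¬ Dz 3 S.u) (hv3 : Dz 3 S.v) (hl3 : Dz 3 l)
    (hf : ¬ (3 : ℤ) ∣ f) (n : ℤ) : ∃ w0 : ℤ, (3 : ℤ) ∣ w0 ∧ ∀ q τ W κ : ℤ,
      W = 3 * q + τ * Y + n * φ → IsC S.L (xvK S l' p' n q τ) κ → ¬ (9 : ℤ) ∣ W - w0 →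
      ¬ (3 : ℤ) ∣ κ := by
  have hco : IsCoprime (9 : ℤ) f := by
    have h1 : IsCoprime (3 : ℤ) f := (Int.prime_three.coprime_iff_not_dvd).2 hf
    have e9 : (9 : ℤ) = 3 ^ 2 := by norm_num
    rw [e9]; exact h1.pow_left
  obtain ⟨s, t, hst⟩ := hco
  obtain ⟨k1, k2, k3, k4, k5, k6, k7, k8, -, -⟩ := h.three_B3 hN hv hu hv3 hl3
  refine ⟨n * (a + b) * t, ?_, fun q τ W κ hW hκ h9 h3 => h9 ?_⟩
  · exact Dvd.dvd.mul_right (Dvd.dvd.mul_left (dvd_add k8 k7) _) _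
  · obtain ⟨-, -, k9⟩ := h.three_B3x hN hv hu hv3 hl3 hW hκ
    obtain ⟨x, hx⟩ := k9.1 h3
    refine ⟨s * W - t * x, ?_⟩
    linear_combination -W * hst - t * hx

/-- B3, `f` a unit: `9 ∣ Y + 3`, `9 ∣ R` and `27 ∣ R` if `9 ∣ a + b` -/
theorem KF.three_B3Q (h : KF 3 S a' b c A a e f Y φ l p l' p') {N : ℕ} (hN : N.Prime)
    (hv : a + A + a' = N) (hu : ¬ Dz 3 S.u) (hv3 : Dz 3 S.v) (hl3 : Dz 3 l)
    (hf : ¬ (3 : ℤ) ∣ f) : (9 : ℤ) ∣ Y + 3 ∧ ∀ R : ℤ, A * R = 3 * ((Y + 3) * c) →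
      (9 : ℤ) ∣ R ∧ ((9 : ℤ) ∣ a + b → (27 : ℤ) ∣ R) := by
  obtain ⟨k1, k2, k3, k4, k5, k6, k7, k8, k9, k10⟩ := h.three_B3 hN hv hu hv3 hl3
  have hr : ∀ k : ℕ, (3 : ℤ) ^ k ∣ b → (3 : ℤ) ^ (k + 1) ∣ Y + 3 := by
    intro k hk
    obtain ⟨-, h1⟩ := h.thr_rig hk
    rw [add_comm (3 : ℤ), mul_comm] at h1
    exact thr_cancel hf h1
  refine ⟨by simpa using hr 1 (by simpa using k7), fun R hR => ?_⟩
  obtain ⟨s, A1, z1, z2⟩ := exists_pow_mul Nat.prime_three h.A0.ne'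
  push_cast at z1 z2
  have hgo : ∀ j : ℕ, (3 : ℤ) ^ (s + j) ∣ Y + 3 → (3 : ℤ) ^ (j + 1) ∣ R := by
    intro j hj
    have h1 : (3 : ℤ) ^ s * 3 ^ (j + 1) ∣ 3 ^ s * (A1 * R) := by
      have e1 : (3 : ℤ) ^ s * 3 ^ (j + 1) = 3 * 3 ^ (s + j) := by
        rw [pow_add, pow_succ]; ring
      rw [e1, ← mul_assoc (3 ^ s) A1, ← z1, hR]; exact mul_dvd_mul_left 3 (hj.mul_right _)
    exact thr_cancel z2 ((mul_dvd_mul_iff_left (by positivity)).1 h1)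
  have hsA : (3 : ℤ) ^ s ∣ A := by rw [z1]; exact dvd_mul_right _ _
  refine ⟨by simpa using hgo 1 (hr s (k9 s hsA)), fun h9 => ?_⟩
  have := hgo 2 (hr (s + 1) (k10 h9 s hsA))
  norm_num at this
  exact this

/-- B3, `3 ∣ f` and `9 ∣ a + b`: then `3 ∣ p` -/
theorem KF.three_bad (h : KF 3 S a' b c A a e f Y φ l p l' p') {N : ℕ} (hN : N.Prime)
    (hv : a + A + a' = N) (hu : ¬ Dz 3 S.u) (hv3 : Dz 3 S.v) (hl3 : Dz 3 l)
    (hf : (3 : ℤ) ∣ f) (hab : (9 : ℤ) ∣ a + b) : Dz 3 p := by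
  obtain ⟨k1, k2, k3, k4, k5, k6, k7, k8, k9, k10⟩ := h.three_B3 hN hv hu hv3 hl3
  obtain ⟨w, hw⟩ := hv3.add hl3
  -- `c = u × p'`, `p' = (φ / 3) u + w`
  obtain ⟨φ1, hφ1⟩ := k3
  have h1 : p' = φ1 • S.u + w := by
    refine smul_inj (by norm_num : (3 : ℤ) ≠ 0) ?_
    rw [h.hp', hφ1, hw]; module
  have h2 : cr S.u w = c := by
    have h3 := h.up'
    rw [h1, cr_add_right, cr_smul_right, cr_self, mul_zero, zero_add] at h3
    exact h3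
  have h4 : (3 : ℤ) ∣ cr p w := by
    have h5 := h.pw
    rw [hw, cr_smul_right] at h5
    omega
  -- expand `c p`
  have h5 : c • p = cr p w • S.u + f • w := by
    have := cr_expand S.u w p
    rw [h2, cr_swap p S.u, h.hf] at this
    rw [this]; module
  have h6 : Dz 3 (c • p) := by
    rw [h5]
    exact (Dz.of_dvd h4 _).add (Dz.of_dvd hf _)
  exact h6.thr.resolve_left k4

/-! ## BAD3: not `3 ∣ u`; `3 ∣ v, l, p`; `9 ∤ e`: level three -/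

theorem KF.three_lev3 (h : KF 3 S a' b c A a e f Y φ l p l' p') {N : ℕ} (hN : N.Prime)
    (hv : a + A + a' = N) (hu : ¬ Dz 3 S.u) (hv3 : Dz 3 S.v) (hl3 : Dz 3 l) (hp3 : Dz 3 p)
    (he9 : ¬ (9 : ℤ) ∣ e) : (9 : ℤ) ∣ Y + 3 ∧ (3 : ℤ) ∣ f ∧ (9 : ℤ) ∣ a ∧ (9 : ℤ) ∣ b ∧
      ∀ R : ℤ, A * R = 3 * ((Y + 3) * c) → (9 : ℤ) ∣ R := by
  obtain ⟨k1, k2, k3, k4, k5, k6, k7, k8, k9, k10⟩ := h.three_B3 hN hv hu hv3 hl3
  have hf3 : (3 : ℤ) ∣ f := by rw [← h.hf]; exact hp3.cr_right _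
  have ha9 : (9 : ℤ) ∣ a := by
    rw [← h.ha]
    obtain ⟨p0, hp0⟩ := hp3
    obtain ⟨l0, hl0⟩ := hl3
    rw [hp0, hl0, cr_smul_left, cr_smul_right]
    exact ⟨cr p0 l0, by ring⟩
  have hb9 : (9 : ℤ) ∣ b := by
    rw [← h.hb]
    obtain ⟨p0, hp0⟩ := hp3
    obtain ⟨v0, hv0⟩ := hv3
    rw [hp0, hv0, cr_smul_left, cr_smul_right]
    exact ⟨cr p0 v0, by ring⟩
  obtain ⟨e1, he1⟩ := k6
  have he1' : ¬ (3 : ℤ) ∣ e1 := by omega
  have hr : ∀ k : ℕ, (3 : ℤ) ^ k ∣ b → (3 : ℤ) ^ k ∣ Y + 3 := by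
    intro k hk
    obtain ⟨h1, -⟩ := h.thr_rig hk
    have h2 : (3 : ℤ) * 3 ^ k ∣ 3 * (e1 * (Y + 3)) := by
      have e2 : (3 : ℤ) * (e1 * (Y + 3)) = (3 + Y) * e := by rw [he1]; ring
      rw [e2, ← pow_succ']; exact h1
    exact thr_cancel he1' ((mul_dvd_mul_iff_left (by norm_num : (3 : ℤ) ≠ 0)).1 h2)
  refine ⟨?_, hf3, ha9, hb9, fun R hR => ?_⟩
  · have := hr 2 (by norm_num; exact hb9)
    norm_num at this
    exact this
  · obtain ⟨s, A1, z1, z2⟩ := exists_pow_mul Nat.prime_three h.A0.ne'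
    push_cast at z1 z2
    have hsA : (3 : ℤ) ^ s ∣ A := by rw [z1]; exact dvd_mul_right _ _
    have h1 := hr (s + 1) (k10 (dvd_add ha9 hb9) s hsA)
    have h2 : (3 : ℤ) ^ s * 3 ^ 2 ∣ 3 ^ s * (A1 * R) := by
      rw [← mul_assoc (3 ^ s) A1, ← z1, hR]
      have e2 : (3 : ℤ) ^ s * 3 ^ 2 = 3 * 3 ^ (s + 1) := by rw [pow_succ]; ring
      rw [e2]
      exact mul_dvd_mul_left 3 (h1.mul_right _)
    have := thr_cancel z2 ((mul_dvd_mul_iff_left (by positivity)).1 h2)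
    norm_num at this
    exact this

/-- the exit of level three in case BAD3 -/
theorem KF.three_lev3x (h : KF 3 S a' b c A a e f Y φ l p l' p') {N : ℕ} (hN : N.Prime)
    (hv : a + A + a' = N) (hu : ¬ Dz 3 S.u) (hv3 : Dz 3 S.v) (hl3 : Dz 3 l) (hp3 : Dz 3 p)
    (he9 : ¬ (9 : ℤ) ∣ e) (hA9 : ¬ (9 : ℤ) ∣ A + 3 * c) {q τ W κ : ℤ}
    (hW : W = 3 * q + τ * Y + 3 * φ) (hκ : IsC S.L (xvK S l' p' 3 q τ) κ)
    (hW9 : ¬ (9 : ℤ) ∣ W) :
    (∀ k : ℕ, (3 : ℤ) ^ k ∣ κ → (3 : ℤ) ^ k ∣ A + 3 * c) ∧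
      ∀ D : Z2, κ • D = (a + (A + 3 * c)) • xvK S l' p' 3 q τ → ¬ Dz 3 D := by
  obtain ⟨k1, k2, k3, k4, k5, k6, k7, k8, k9, k10⟩ := h.three_B3 hN hv hu hv3 hl3
  obtain ⟨j1, j2, j3, j4, -⟩ := h.three_lev3 hN hv hu hv3 hl3 hp3 he9
  obtain ⟨hW3, -, -⟩ := h.three_B3x hN hv hu hv3 hl3 hW hκ
  have hA3 : (3 : ℤ) ∣ A + 3 * c := dvd_add k5 (dvd_mul_right _ _)
  obtain ⟨W1, hW1⟩ := hW3
  have hW1' : ¬ (3 : ℤ) ∣ W1 := by omega
  have hκ9 : ¬ (9 : ℤ) ∣ κ := by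
    intro h1
    obtain ⟨h2, -⟩ := (h.xgap hW hκ).1 h1
    have h3 : (3 : ℤ) * 9 ∣ 3 * (W1 * e) := by
      have e1 : (3 : ℤ) * (W1 * e) = W * e := by rw [hW1]; ring
      rw [e1]; exact h2
    exact he9 (thr_cancel9 hW1' ((mul_dvd_mul_iff_left (by norm_num : (3 : ℤ) ≠ 0)).1 h3))
  have hκ3 : (3 : ℤ) ∣ κ := by
    refine (h.xgap hW hκ).2 ⟨?_, ?_⟩
    · exact mul_dvd_mul ⟨W1, hW1⟩ k6
    · norm_num
      refine dvd_sub (dvd_add (j4.mul_left _) (j3.mul_left _)) ?_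
      have := mul_dvd_mul (⟨W1, hW1⟩ : (3 : ℤ) ∣ W) j2
      norm_num at this
      exact this
  constructor
  · intro k hk
    rcases Nat.lt_or_ge k 2 with h1 | h1
    · interval_cases k
      · simp
      · simpa using hA3
    · exact absurd (by simpa using ((pow_dvd_pow (3 : ℤ) h1).trans hk)) hκ9
  · intro D hD h1
    obtain ⟨κ1, hκ1⟩ := hκ3
    obtain ⟨D1, hD1⟩ := h1
    obtain ⟨s, hs⟩ : (3 : ℤ) ∣ a + (A + 3 * c) := dvd_add (by omega) hA3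
    have hs' : ¬ (3 : ℤ) ∣ s := by
      intro h2
      obtain ⟨s1, hs1⟩ := h2
      apply hA9
      have e1 : A + 3 * c = (a + (A + 3 * c)) - a := by ring
      rw [e1, hs, hs1]
      exact dvd_sub ⟨s1, by ring⟩ j3
    have h4 : s • xvK S l' p' 3 q τ = (3 * κ1) • D1 := by
      refine smul_inj (by norm_num : (3 : ℤ) ≠ 0) ?_
      rw [hκ1, hs, hD1] at hD
      have e1 : (3 : ℤ) • s • xvK S l' p' 3 q τ = (3 * s) • xvK S l' p' 3 q τ := by module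
      rw [e1, ← hD]; module
    have h5 : Dz 3 (xvK S l' p' 3 q τ) := by
      have h6 : Dz 3 (s • xvK S l' p' 3 q τ) := by
        rw [h4]; exact Dz.of_dvd (dvd_mul_right _ _) _
      exact h6.thr.resolve_left hs'
    have h6 : Dz 3 (S.v + (S.v + l) + W1 • S.u) := by
      have h7 := h.xvK_smul 3 q τ
      rw [← hW, hW1] at h7
      have h8 : xvK S l' p' 3 q τ = S.v + (S.v + l) + W1 • S.u := by
        refine smul_inj (by norm_num : (3 : ℤ) ≠ 0) ?_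
        rw [h7]; module
      rw [← h8]; exact h5
    have h7 : Dz 3 (W1 • S.u) := by
      have := h6.sub (hv3.add (hv3.add hl3))
      have e1 : S.v + (S.v + l) + W1 • S.u - (S.v + (S.v + l)) = W1 • S.u := by module
      rwa [e1] at this
    rcases h7.thr with h8 | h8
    · exact hW1' h8
    · exact hu h8

/-- the class of `W` and of the number of the exit at level three -/
theorem KF.three_lev3c (h : KF 3 S a' b c A a e f Y φ l p l' p') {N : ℕ} (hN : N.Prime)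
    (hv : a + A + a' = N) (hu : ¬ Dz 3 S.u) (hv3 : Dz 3 S.v) (hl3 : Dz 3 l) (hp3 : Dz 3 p)
    (he9 : ¬ (9 : ℤ) ∣ e) (o t i : ℤ) :
    ((9 : ℤ) ∣ 3 * (o + 4 * i) + (t + i) * Y + 3 * φ ↔ (3 : ℤ) ∣ o - t) ∧
      ∀ R : ℤ, A * R = 3 * ((Y + 3) * c) →
        (27 : ℤ) ∣ (3 * t * Y + 9 * φ + 3 * i * (9 - R)) + 9 * t := by
  obtain ⟨k1, k2, k3, k4, k5, k6, k7, k8, k9, k10⟩ := h.three_B3 hN hv hu hv3 hl3
  obtain ⟨j1, j2, j3, j4, j5⟩ := h.three_lev3 hN hv hu hv3 hl3 hp3 he9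
  obtain ⟨y, hy⟩ := j1
  obtain ⟨φ1, hφ1⟩ := k3
  constructor
  · have e1 : 3 * (o + 4 * i) + (t + i) * Y + 3 * φ =
        3 * (o - t) + 9 * (i + (t + i) * y + φ1) := by
      have : Y = 9 * y - 3 := by linarith
      rw [this, hφ1]; ring
    rw [e1]
    constructor
    · intro h1
      omega
    · intro h1
      omega
  · intro R hR
    obtain ⟨r, hr⟩ := j5 R hR
    refine ⟨t * y + φ1 + i * (1 - r), ?_⟩
    have : Y = 9 * y - 3 := by linarith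
    rw [this, hφ1, hr]; ring

/-! ## B3b: not `3 ∣ u`, not `3 ∣ v, l`, `3 ∣ φ` -/

theorem KF.three_B3b (h : KF 3 S a' b c A a e f Y φ l p l' p') {N : ℕ} (hN : N.Prime)
    (hv : a + A + a' = N) (hA : (3 : ℤ) ∣ A) (hφ : (3 : ℤ) ∣ φ) (hu : ¬ Dz 3 S.u)
    (hw : ¬ (Dz 3 S.v ∧ Dz 3 l)) : ¬ (3 : ℤ) ∣ a := by
  intro ha
  obtain ⟨w, g, m, h1, h2, hco, -⟩ := h.exists_w
  have hw3 : ¬ Dz 3 w := fun h3 => hw ⟨by rw [h1]; exact h3.smul _, by rw [h2]; exact h3.smul _⟩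
  have hz : (3 : ℤ) ∣ g + m := by
    have h3 : Dz 3 ((g + m) • w) := by
      have h4 : Dz 3 ((3 : ℤ) • p') := Dz.of_dvd (dvd_refl _) _
      rw [h.hp'] at h4
      have h5 := h4.sub (Dz.of_dvd hφ S.u)
      rw [add_sub_cancel_left, h1, h2, ← add_smul] at h5
      exact h5
    exact h3.thr.resolve_right hw3
  have hg : ¬ (3 : ℤ) ∣ g := by
    intro h3
    have h4 : (3 : ℤ) ∣ m := (dvd_add_right h3).1 hz
    obtain ⟨s, t, hst⟩ := hco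
    have h5 : (3 : ℤ) ∣ 1 := by
      rw [← hst]; exact dvd_add (h3.mul_left _) (h4.mul_left _)
    norm_num at h5
  have hα : (3 : ℤ) ∣ cr S.u w := by
    have h3 : (3 : ℤ) ∣ g * cr S.u w := by
      have h4 := h.hA
      rw [h1, cr_smul_right] at h4
      rw [h4]; exact hA
    exact (thr_mul h3).resolve_left hg
  have hY3 : (3 : ℤ) ∣ Y := by
    have h3 : Dz 3 (Y • S.u) := by rw [← h.hl']; exact Dz.of_dvd (dvd_refl _) _
    exact h3.thr.resolve_right hu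
  have hc3 : (3 : ℤ) ∣ c := by
    have h3 := h.uw
    rw [h1, h2, ← add_smul, cr_smul_right] at h3
    have h4 : (3 : ℤ) * 3 ∣ 3 * c := by rw [← h3]; exact mul_dvd_mul hz hα
    exact (mul_dvd_mul_iff_left (by norm_num : (3 : ℤ) ≠ 0)).1 h4
  have ha' := h.thr_N hN hv ha hA
  apply ha'
  have h3 : (3 : ℤ) * 3 ∣ 3 * a' := by rw [h.hy]; exact mul_dvd_mul hY3 hc3
  exact (mul_dvd_mul_iff_left (by norm_num : (3 : ℤ) ≠ 0)).1 h3

/-! ## All cases, level prime to three -/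

/-- **the prime three at the levels prime to three** (`3 ∣ Y → 3 ∣ φ`, not BAD3): either no
condition, or one class of `W` modulo nine, and then `9 ∣ Y + 3`, `3 ∣ φ`, `9 ∣ R` -/
theorem KF.three_all (h : KF 3 S a' b c A a e f Y φ l p l' p') {N : ℕ} (hN : N.Prime)
    (hv : a + A + a' = N) (ha : (3 : ℤ) ∣ a) (hφ : (3 : ℤ) ∣ Y → (3 : ℤ) ∣ φ)
    (hbad : ¬ (¬ Dz 3 S.u ∧ Dz 3 S.v ∧ Dz 3 l ∧ Dz 3 p)) {n : ℤ} (hn : ¬ (3 : ℤ) ∣ n) :
    (∀ q τ κ : ℤ, IsC S.L (xvK S l' p' n q τ) κ →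
      (∀ k : ℕ, (3 : ℤ) ^ k ∣ κ → (3 : ℤ) ^ k ∣ A + n * c) ∧
      ∀ D : Z2, κ • D = (a + (A + n * c)) • xvK S l' p' n q τ → (3 : ℤ) ∣ κ → ¬ Dz 3 D) ∨
    ((9 : ℤ) ∣ Y + 3 ∧ (3 : ℤ) ∣ φ ∧ (∀ R : ℤ, A * R = 3 * ((Y + 3) * c) → (9 : ℤ) ∣ R) ∧
      ∃ w0 : ℤ, (3 : ℤ) ∣ w0 ∧ ∀ q τ W κ : ℤ, W = 3 * q + τ * Y + n * φ →
        IsC S.L (xvK S l' p' n q τ) κ → ¬ (9 : ℤ) ∣ W - w0 →
        (∀ k : ℕ, (3 : ℤ) ^ k ∣ κ → (3 : ℤ) ^ k ∣ A + n * c) ∧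
        ∀ D : Z2, κ • D = (a + (A + n * c)) • xvK S l' p' n q τ → (3 : ℤ) ∣ κ → ¬ Dz 3 D) := by
  have hone : ∀ {κ : ℤ}, ¬ (3 : ℤ) ∣ κ → ∀ k : ℕ, (3 : ℤ) ^ k ∣ κ → (3 : ℤ) ^ k ∣ A + n * c := by
    intro κ hκ k hk
    rcases Nat.eq_zero_or_pos k with h0 | h0
    · rw [h0, pow_zero]; exact one_dvd _
    · exact absurd ((dvd_pow_self _ h0.ne').trans hk) hκ
  by_cases hA : (3 : ℤ) ∣ A
  · by_cases hu : Dz 3 S.u
    · by_cases hw : Dz 3 S.v ∧ Dz 3 l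
      · left
        intro q τ κ hκ
        obtain ⟨-, -, h3, h4⟩ := h.three_B1x hN hv ha hu hw.1 hw.2 hn hκ
        exact ⟨h3, fun D hD _ => h4 D hD⟩
      · exact (h.three_B2 hN hv ha hu hw).elim
    · by_cases hw : Dz 3 S.v ∧ Dz 3 l
      · obtain ⟨k1, k2, k3, -⟩ := h.three_B3 hN hv hu hw.1 hw.2
        by_cases hf : (3 : ℤ) ∣ f
        · left
          have hab : ¬ (9 : ℤ) ∣ a + b := fun h9 =>
            hbad ⟨hu, hw.1, hw.2, h.three_bad hN hv hu hw.1 hw.2 hf h9⟩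
          intro q τ κ hκ
          have h3 := h.three_B3i hN hv hu hw.1 hw.2 hf hab hn hκ
          exact ⟨hone h3, fun _ _ h4 => absurd h4 h3⟩
        · right
          obtain ⟨h1, h2⟩ := h.three_B3Q hN hv hu hw.1 hw.2 hf
          obtain ⟨w0, hw0, h3⟩ := h.three_B3f hN hv hu hw.1 hw.2 hf n
          refine ⟨h1, k3, fun R hR => (h2 R hR).1, w0, hw0, fun q τ W κ hW hκ h9 => ?_⟩
          have h4 := h3 q τ W κ hW hκ h9
          exact ⟨hone h4, fun _ _ h5 => absurd h5 h4⟩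
      · exfalso
        have hY3 : (3 : ℤ) ∣ Y := by
          have h3 : Dz 3 (Y • S.u) := by rw [← h.hl']; exact Dz.of_dvd (dvd_refl _) _
          exact h3.thr.resolve_right hu
        exact h.three_B3b hN hv hA (hφ hY3) hu hw ha
  · right
    obtain ⟨he, -, hY, hφ3, hQ⟩ := h.three_T1 ha hA
    refine ⟨hY, hφ3, fun R hR => ?_, 0, dvd_zero _, fun q τ W κ hW hκ h9 => ?_⟩
    · exact thr_cancel9 hA (by
        rw [hR]
        exact Dvd.dvd.mul_left (hY.mul_right _) _)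
    · rw [sub_zero] at h9
      have h4 : ¬ (3 : ℤ) ∣ κ := fun h5 => h9 (h.three_T1_kap ha hA hW hκ h5)
      exact ⟨hone h4, fun _ _ h5 => absurd h5 h4⟩

end Pool.Agent.H4G
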