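import Pool.Agent.H4G.Arith.SL
import Pool.Agent.H4G.Arith.Crt

/-!
# The K-level in congruence form (helper40)

`Lc a p q` is the lattice `p x + q y ≡ 0 (mod a)`; it is used when `gcd (p, q, a) = 1`
(`Prm a p q`), and then it has area `a`.
-/

set_option autoImplicit false

open scoped MatrixGroups

namespace Pool.Agent.H4G

/-- The lattice `p x + q y ≡ 0 (mod a)`. -/
def Lc (a p q : ℤ) : AddSubgroup Z2 where
  carrier := {w | a ∣ p * w.1 + q * w.2}
  zero_mem' := by simp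
  add_mem' := by
    intro x y hx hy
    have : p * (x + y).1 + q * (x + y).2 = (p * x.1 + q * x.2) + (p * y.1 + q * y.2) := by
      simp only [Prod.fst_add, Prod.snd_add]; ring
    simp only [Set.mem_ofPred_eq] at hx hy ⊢
    rw [this]; exact dvd_add hx hy
  neg_mem' := by
    intro x hx
    have : p * (-x).1 + q * (-x).2 = -(p * x.1 + q * x.2) := by
      simp only [Prod.fst_neg, Prod.snd_neg]; ring
    simp only [Set.mem_ofPred_eq] at hx ⊢
    rw [this]; exact (dvd_neg).2 hx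

theorem mem_Lc {a p q : ℤ} {w : Z2} : w ∈ Lc a p q ↔ a ∣ p * w.1 + q * w.2 := Iff.rfl

/-- `gcd (p, q, a) = 1` -/
def Prm (a p q : ℤ) : Prop := ∀ l : ℕ, l.Prime → (l : ℤ) ∣ a → (l : ℤ) ∣ p → ¬ (l : ℤ) ∣ q

/-- the lattice depends only on `p, q` modulo `a` -/
theorem Lc_congr {a p q p' q' : ℤ} (hp : a ∣ p' - p) (hq : a ∣ q' - q) : Lc a p q = Lc a p' q' := by
  ext w
  rw [mem_Lc, mem_Lc]
  have : p' * w.1 + q' * w.2 = (p * w.1 + q * w.2) + ((p' - p) * w.1 + (q' - q) * w.2) := by ring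
  rw [this]
  exact (Iff.intro (fun h => dvd_add h (dvd_add (hp.mul_right _) (hq.mul_right _)))
    (fun h => (dvd_add_left (dvd_add (hp.mul_right _) (hq.mul_right _))).1 h))

/-- the lattice depends only on `p : q` -/
theorem Lc_unit {a p q t : ℤ} (ht : IsCoprime a t) : Lc a (t * p) (t * q) = Lc a p q := by
  ext w
  rw [mem_Lc, mem_Lc]
  have : t * p * w.1 + t * q * w.2 = t * (p * w.1 + q * w.2) := by ring
  rw [this]
  exact ⟨fun h => ht.dvd_of_dvd_mul_left h, fun h => h.mul_left t⟩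

/-- Hermite normal form of a lattice in congruence form -/
theorem Lc_eq_lat {s d p q1 z : ℤ} (hs : 0 < s) (hd : 0 < d) (h1 : IsCoprime q1 s)
    (h2 : IsCoprime p d) (hz : s ∣ p + q1 * z) : Lc (s * d) p (q1 * d) = lat (0, s) (d, z) := by
  apply le_antisymm
  · intro w hw
    rw [mem_Lc] at hw
    have k1 : d ∣ p * w.1 := by
      have := (Dvd.intro_left s rfl : d ∣ s * d).trans hw
      exact (dvd_add_left ((Dvd.intro_left q1 rfl : d ∣ q1 * d).mul_right _)).1 this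
    obtain ⟨k, hk⟩ := h2.symm.dvd_of_dvd_mul_left k1
    have k2 : s ∣ p * k + q1 * w.2 := by
      have : p * w.1 + q1 * d * w.2 = (p * k + q1 * w.2) * d := by rw [hk]; ring
      rw [this] at hw
      exact (mul_dvd_mul_iff_right hd.ne').1 hw
    have k3 : s ∣ q1 * (w.2 - z * k) := by
      have : q1 * (w.2 - z * k) = (p * k + q1 * w.2) - (p + q1 * z) * k := by ring
      rw [this]
      exact dvd_sub k2 (hz.mul_right _)
    obtain ⟨m, hm⟩ := h1.symm.dvd_of_dvd_mul_left k3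
    refine mem_lat.2 ⟨m, k, ?_⟩
    ext
    · simp only [Prod.fst_add, Prod.smul_fst, smul_eq_mul]; rw [hk]; ring
    · simp only [Prod.snd_add, Prod.smul_snd, smul_eq_mul]
      linear_combination -hm
  · rw [AddSubgroup.closure_le]
    rintro w (rfl | rfl)
    · change s * d ∣ _
      exact ⟨q1, by ring⟩
    · change s * d ∣ _
      obtain ⟨m, hm⟩ := hz
      exact ⟨m, by simp only; linear_combination d * hm⟩

/-- Hermite normal form, mirrored -/
theorem Lc_eq_lat' {r c p1 q x : ℤ} (hr : 0 < r) (hc : 0 < c) (h1 : IsCoprime p1 r)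
    (h2 : IsCoprime q c) (hx : r ∣ q + p1 * x) : Lc (r * c) (p1 * c) q = lat (r, 0) (x, c) := by
  apply le_antisymm
  · intro w hw
    rw [mem_Lc] at hw
    have k1 : c ∣ q * w.2 := by
      have := (Dvd.intro_left r rfl : c ∣ r * c).trans hw
      exact (dvd_add_right ((Dvd.intro_left p1 rfl : c ∣ p1 * c).mul_right _)).1 this
    obtain ⟨k, hk⟩ := h2.symm.dvd_of_dvd_mul_left k1
    have k2 : r ∣ p1 * w.1 + q * k := by
      have : p1 * c * w.1 + q * w.2 = (p1 * w.1 + q * k) * c := by rw [hk]; ring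
      rw [this] at hw
      exact (mul_dvd_mul_iff_right hc.ne').1 hw
    have k3 : r ∣ p1 * (w.1 - x * k) := by
      have : p1 * (w.1 - x * k) = (p1 * w.1 + q * k) - (q + p1 * x) * k := by ring
      rw [this]
      exact dvd_sub k2 (hx.mul_right _)
    obtain ⟨m, hm⟩ := h1.symm.dvd_of_dvd_mul_left k3
    refine mem_lat.2 ⟨m, k, ?_⟩
    ext
    · simp only [Prod.fst_add, Prod.smul_fst, smul_eq_mul]
      linear_combination -hm
    · simp only [Prod.snd_add, Prod.smul_snd, smul_eq_mul]; rw [hk]; ring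
  · rw [AddSubgroup.closure_le]
    rintro w (rfl | rfl)
    · change r * c ∣ _
      exact ⟨p1, by ring⟩
    · change r * c ∣ _
      obtain ⟨m, hm⟩ := hx
      exact ⟨m, by simp only; linear_combination c * hm⟩

theorem prm_of {s d p q1 : ℤ} (h1 : IsCoprime q1 s) (h2 : IsCoprime p d) :
    Prm (s * d) p (q1 * d) := by
  intro l hl h3 h4 h5
  have hl' := Nat.prime_iff_prime_int.1 hl
  have k1 : ¬ (l : ℤ) ∣ d := fun h => not_dvd_of_isCoprime h2 hl h h4
  rcases hl'.dvd_or_dvd h3 with h | h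
  · rcases hl'.dvd_or_dvd h5 with h' | h'
    · exact not_dvd_of_isCoprime h1 hl h h'
    · exact k1 h'
  · exact k1 h

/-- every primitive `Lc a p q` has the shape of `Lc_eq_lat` -/
theorem Prm.split {a p q : ℤ} (ha : 0 < a) (h : Prm a p q) : ∃ s d q1 : ℤ, 0 < s ∧ 0 < d ∧
    a = s * d ∧ q = q1 * d ∧ IsCoprime q1 s ∧ IsCoprime p d := by
  have hd : 0 < (Int.gcd q a : ℤ) := by
    have : 0 < Int.gcd q a := Int.gcd_pos_of_ne_zero_right _ ha.ne'
    exact_mod_cast this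
  obtain ⟨s, hs⟩ : (Int.gcd q a : ℤ) ∣ a := Int.gcd_dvd_right _ _
  obtain ⟨q1, hq⟩ : (Int.gcd q a : ℤ) ∣ q := Int.gcd_dvd_left _ _
  have hs0 : 0 < s := by
    rcases lt_trichotomy s 0 with h | h | h
    · have := mul_neg_of_pos_of_neg hd h
      omega
    · rw [h, mul_zero] at hs; omega
    · exact h
  refine ⟨s, Int.gcd q a, q1, hs0, hd, by linarith, by linarith, ?_, ?_⟩
  · refine isCoprime_of_prime fun l hl h1 h2 => ?_
    have h3 : (Int.gcd q a : ℤ) * l ∣ (Int.gcd q a : ℤ) := by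
      refine Int.dvd_coe_gcd ?_ ?_
      · conv_rhs => rw [hq]
        exact mul_dvd_mul_left _ h2
      · conv_rhs => rw [hs]
        exact mul_dvd_mul_left _ h1
    have h4 : (Int.gcd q a : ℤ) * l ∣ (Int.gcd q a : ℤ) * 1 := by rwa [mul_one]
    exact prime_not_dvd_one hl ((mul_dvd_mul_iff_left hd.ne').1 h4)
  · refine isCoprime_of_prime fun l hl h1 h2 => h l hl (h1.trans ⟨s, hs⟩) h2 ?_
    exact h1.trans (Int.gcd_dvd_left _ _)

/-- the symmetry `x ↔ y` -/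
theorem Prm.swap {a p q : ℤ} (h : Prm a p q) : Prm a q p := fun l hl h1 h2 h3 => h l hl h1 h3 h2

theorem Prm.split' {a p q : ℤ} (ha : 0 < a) (h : Prm a p q) : ∃ r c p1 : ℤ, 0 < r ∧ 0 < c ∧
    a = r * c ∧ p = p1 * c ∧ IsCoprime p1 r ∧ IsCoprime q c := Prm.split ha h.swap

/-- the remaining coordinate of the Hermite normal form -/
theorem exists_z {s q1 : ℤ} (p : ℤ) (h1 : IsCoprime q1 s) : ∃ z, s ∣ p + q1 * z := by
  obtain ⟨x, y, hxy⟩ := h1
  exact ⟨-p * x, p * y, by linear_combination (-p) * hxy⟩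

theorem isArea_Lc {a p q : ℤ} (ha : 0 < a) (h : Prm a p q) : IsArea (Lc a p q) a := by
  obtain ⟨s, d, q1, hs, hd, e1, e2, h1, h2⟩ := h.split ha
  obtain ⟨z, hz⟩ := exists_z p h1
  refine ⟨ha, (0, s), (d, z), ?_, ?_⟩
  · simp only [cr]; rw [e1]; ring
  · rw [e1, e2]; exact Lc_eq_lat hs hd h1 h2 hz

/-- two vectors of `Lc a p q` have product divisible by `a` -/
theorem Prm.cr_dvd {a p q : ℤ} (ha : 0 < a) (h : Prm a p q) {w w' : Z2} (hw : w ∈ Lc a p q)
    (hw' : w' ∈ Lc a p q) : a ∣ cr w w' := by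
  obtain ⟨_, l, p0, h1, h2⟩ := isArea_Lc ha h
  rw [h2] at hw hw'
  obtain ⟨m, n, e⟩ := mem_lat.1 hw
  obtain ⟨m', n', e'⟩ := mem_lat.1 hw'
  refine ⟨n * m' - m * n', ?_⟩
  rw [← e, ← e']
  simp only [cr_add_left, cr_add_right, cr_smul_left, cr_smul_right, cr_self]
  rw [cr_swap l p0, h1]; ring

/-- the action of the shears on lattices in congruence form -/
theorem map_shV_Lc (a p q k : ℤ) : (Lc a p q).map (act (shV k)) = Lc a (p - k * q) q := by
  ext w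
  rw [AddSubgroup.mem_map]
  constructor
  · rintro ⟨x, hx, rfl⟩
    rw [mem_Lc] at hx ⊢
    rw [act_shV]
    have : (p - k * q) * x.1 + q * (x.2 + k * x.1) = p * x.1 + q * x.2 := by ring
    rwa [this]
  · intro hw
    refine ⟨(w.1, w.2 - k * w.1), ?_, ?_⟩
    · rw [mem_Lc] at hw ⊢
      have : p * w.1 + q * (w.2 - k * w.1) = (p - k * q) * w.1 + q * w.2 := by ring
      simpa only [this] using hw
    · rw [act_shV]; ext <;> simp

theorem map_shH_Lc (a p q k : ℤ) : (Lc a p q).map (act (shH k)) = Lc a p (q - k * p) := by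
  ext w
  rw [AddSubgroup.mem_map]
  constructor
  · rintro ⟨x, hx, rfl⟩
    rw [mem_Lc] at hx ⊢
    rw [act_shH]
    have : p * (x.1 + k * x.2) + (q - k * p) * x.2 = p * x.1 + q * x.2 := by ring
    rwa [this]
  · intro hw
    refine ⟨(w.1 - k * w.2, w.2), ?_, ?_⟩
    · rw [mem_Lc] at hw ⊢
      have : p * (w.1 - k * w.2) + q * w.2 = p * w.1 + (q - k * p) * w.2 := by ring
      simpa only [this] using hw
    · rw [act_shH]; ext <;> simp

theorem Prm.shV {a p q : ℤ} (h : Prm a p q) (k : ℤ) : Prm a (p - k * q) q := by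
  intro l hl h1 h2 h3
  refine h l hl h1 ?_ h3
  have := dvd_add h2 (h3.mul_left k)
  simpa using this

theorem Prm.shH {a p q : ℤ} (h : Prm a p q) (k : ℤ) : Prm a p (q - k * p) := (h.swap.shV k).swap

theorem Prm.congr {a p q p' q' : ℤ} (h : Prm a p q) (hp : a ∣ p' - p) (hq : a ∣ q' - q) :
    Prm a p' q' := by
  intro l hl h1 h2 h3
  refine h l hl h1 ?_ ?_
  · have := dvd_sub h2 (h1.trans hp)
    simpa using this
  · have := dvd_sub h3 (h1.trans hq)
    simpa using this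

/-- The K-state `(a; p, q | a'; p', q')`. -/
abbrev KC (a p q a' p' q' : ℤ) : PSt := KS (Lc a p q) (Lc a' p' q')

/-- THE V-MOVE in congruence form: `q = q₁ d`, `a = s d`. -/
theorem KC.V {s d p q1 p2 : ℤ} (hs : 0 < s) (hd : 0 < d) (h1 : IsCoprime q1 s)
    (h2 : IsCoprime p d) (j : ℤ) (h3 : IsCoprime p2 d) (h4 : s ∣ p2 - (p - j * q1 * (d - 1)))
    {a' p' q' : ℤ} (hok : (KC (s * d) p (q1 * d) a' p' q').Ok) :
    SEq (KC (s * d) p (q1 * d) a' p' q')
      (KC (s * d) p2 (q1 * d) a' (p' - j * (s + 1) * q') q') := by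
  obtain ⟨z, hz⟩ := exists_z p h1
  unfold KC at hok ⊢
  rw [Lc_eq_lat hs hd h1 h2 hz] at hok ⊢
  have h5 := KS.V hs hd hok j
  rw [map_shV_Lc] at h5
  have e : s ∣ p2 + q1 * (z + j * (d - 1)) := by
    have : p2 + q1 * (z + j * (d - 1)) = (p2 - (p - j * q1 * (d - 1))) + (p + q1 * z) := by ring
    rw [this]; exact dvd_add h4 hz
  rw [Lc_eq_lat hs hd h1 h3 e]
  exact h5

/-- THE H-MOVE in congruence form: `p' = p₁ c`, `a' = r c`. -/
theorem KC.H {r c q' p1 q2 : ℤ} (hr : 0 < r) (hc : 0 < c) (h1 : IsCoprime p1 r)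
    (h2 : IsCoprime q' c) (k : ℤ) (h3 : IsCoprime q2 c) (h4 : r ∣ q2 - (q' - k * p1 * (c - 1)))
    {a p q : ℤ} (hok : (KC a p q (r * c) (p1 * c) q').Ok) :
    SEq (KC a p q (r * c) (p1 * c) q')
      (KC a p (q - k * (r + 1) * p) (r * c) (p1 * c) q2) := by
  obtain ⟨x, hx⟩ := exists_z q' h1
  unfold KC at hok ⊢
  rw [Lc_eq_lat' hr hc h1 h2 hx] at hok ⊢
  have h5 := KS.H hr hc hok k
  rw [map_shH_Lc] at h5
  have e : r ∣ q2 + p1 * (x + k * (c - 1)) := by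
    have : q2 + p1 * (x + k * (c - 1)) = (q2 - (q' - k * p1 * (c - 1))) + (q' + p1 * x) := by ring
    rw [this]; exact dvd_add h4 hx
  rw [Lc_eq_lat' hr hc h1 h3 e]
  exact h5

/-- the V-move when `q` is a unit modulo `a`: the left lattice is fixed -/
theorem KC.V1 {a p q a' p' q' : ℤ} (ha : 0 < a) (h1 : IsCoprime q a) (j : ℤ)
    (hok : (KC a p q a' p' q').Ok) :
    SEq (KC a p q a' p' q') (KC a p q a' (p' - j * (a + 1) * q') q') := by
  have := KC.V (s := a) (d := 1) (p := p) (q1 := q) (p2 := p) ha one_pos h1 isCoprime_one_right j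
    isCoprime_one_right (by simp) (a' := a') (p' := p') (q' := q') (by simpa using hok)
  simpa using this

/-- the H-move when `p'` is a unit modulo `a'`: the right lattice is fixed -/
theorem KC.H1 {a p q a' p' q' : ℤ} (ha' : 0 < a') (h1 : IsCoprime p' a') (k : ℤ)
    (hok : (KC a p q a' p' q').Ok) :
    SEq (KC a p q a' p' q') (KC a p (q - k * (a' + 1) * p) a' p' q') := by
  have := KC.H (r := a') (c := 1) (q' := q') (p1 := p') (q2 := q') ha' one_pos h1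
    isCoprime_one_right k isCoprime_one_right (by simp) (a := a) (p := p) (q := q)
    (by simpa using hok)
  simpa using this

/-- the V-move exists as soon as the new left lattice has content `1`: for every prime
`l ∣ gcd (s, d)` we need `l ∤ p + j q₁` -/
theorem KC.V_exists {s d p q1 : ℤ} (hs : 0 < s) (hd : 0 < d) (h1 : IsCoprime q1 s)
    (h2 : IsCoprime p d) (j : ℤ)
    (h : ∀ l : ℕ, l.Prime → (l : ℤ) ∣ d → (l : ℤ) ∣ s → ¬ (l : ℤ) ∣ p + j * q1)
    {a' p' q' : ℤ} (hok : (KC (s * d) p (q1 * d) a' p' q').Ok) :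
    ∃ p2, IsCoprime p2 d ∧ s ∣ p2 - (p - j * q1 * (d - 1)) ∧ Prm (s * d) p2 (q1 * d) ∧
    SEq (KC (s * d) p (q1 * d) a' p' q')
      (KC (s * d) p2 (q1 * d) a' (p' - j * (s + 1) * q') q') := by
  obtain ⟨t, ht⟩ := coprime_shift (p - j * q1 * (d - 1)) s d hd.ne' (by
    intro l hl k1 k2 k3
    refine h l hl k1 k2 ?_
    have : p + j * q1 = (p - j * q1 * (d - 1)) + j * q1 * d := by ring
    rw [this]
    exact dvd_add k3 (k1.mul_left _))
  have e : s ∣ p - j * q1 * (d - 1) + s * t - (p - j * q1 * (d - 1)) := ⟨t, by ring⟩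
  exact ⟨_, ht, e, prm_of h1 ht, KC.V hs hd h1 h2 j ht e hok⟩

/-- the H-move exists as soon as the new right lattice has content `1` -/
theorem KC.H_exists {r c q' p1 : ℤ} (hr : 0 < r) (hc : 0 < c) (h1 : IsCoprime p1 r)
    (h2 : IsCoprime q' c) (k : ℤ)
    (h : ∀ l : ℕ, l.Prime → (l : ℤ) ∣ c → (l : ℤ) ∣ r → ¬ (l : ℤ) ∣ q' + k * p1)
    {a p q : ℤ} (hok : (KC a p q (r * c) (p1 * c) q').Ok) :
    ∃ q2, IsCoprime q2 c ∧ r ∣ q2 - (q' - k * p1 * (c - 1)) ∧ Prm (r * c) (p1 * c) q2 ∧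
    SEq (KC a p q (r * c) (p1 * c) q')
      (KC a p (q - k * (r + 1) * p) (r * c) (p1 * c) q2) := by
  obtain ⟨t, ht⟩ := coprime_shift (q' - k * p1 * (c - 1)) r c hc.ne' (by
    intro l hl k1 k2 k3
    refine h l hl k1 k2 ?_
    have : q' + k * p1 = (q' - k * p1 * (c - 1)) + k * p1 * c := by ring
    rw [this]
    exact dvd_add k3 (k1.mul_left _))
  have e : r ∣ q' - k * p1 * (c - 1) + r * t - (q' - k * p1 * (c - 1)) := ⟨t, by ring⟩
  exact ⟨_, ht, e, (prm_of h1 ht).swap, KC.H hr hc h1 h2 k ht e hok⟩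

/-! ## Every K-state has contents `1` up to equivalence -/

/-- Hermite normal form -/
theorem IsArea.hnf {L : AddSubgroup Z2} {a : ℤ} (h : IsArea L a) : ∃ s d z : ℤ, 0 < s ∧ 0 < d ∧
    a = s * d ∧ L = lat (0, s) (d, z) := by
  obtain ⟨ha, l, p, h1, h2⟩ := h
  obtain ⟨e, f, k1, k2, k3, k4, k5, k6⟩ := exists_adapted (l := l) (p := p) (u := (0, 1))
    (v := (-1, 0)) (by rw [h1]; exact ha) (by simp [cr])
  obtain ⟨e1, e2⟩ := e
  obtain ⟨f1, f2⟩ := f
  simp only [cr] at k3 k4 k5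
  have e10 : e1 = 0 := by linarith
  subst e10
  refine ⟨-e2, -f1, -f2, by linarith, by linarith, ?_, ?_⟩
  · rw [← h1, ← k2]; simp only [cr]; ring
  · rw [h2, ← k1, show ((0, -e2) : Z2) = -(0, e2) by simp,
      show ((-f1, -f2) : Z2) = -(f1, f2) by simp, lat_neg_left, lat_neg_right]

theorem IsArea.hnf' {L : AddSubgroup Z2} {a : ℤ} (h : IsArea L a) : ∃ r c x : ℤ, 0 < r ∧ 0 < c ∧
    a = r * c ∧ L = lat (r, 0) (x, c) := by
  obtain ⟨ha, l, p, h1, h2⟩ := h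
  obtain ⟨e, f, k1, k2, k3, k4, k5, k6⟩ := exists_adapted (l := l) (p := p) (u := (1, 0))
    (v := (0, 1)) (by rw [h1]; exact ha) (by simp [cr])
  obtain ⟨e1, e2⟩ := e
  obtain ⟨f1, f2⟩ := f
  simp only [cr] at k3 k4 k5
  have e20 : e2 = 0 := by linarith
  subst e20
  refine ⟨-e1, f2, f1, by linarith, by linarith, ?_, ?_⟩
  · rw [← h1, ← k2]; simp only [cr]; ring
  · rw [h2, ← k1, show ((-e1, 0) : Z2) = -(e1, 0) by simp, lat_neg_left]

/-- a lattice with content `1` in congruence form -/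
theorem lat_eq_Lc {s d z : ℤ} (hs : 0 < s) (hd : 0 < d)
    (h : ∀ l : ℕ, l.Prime → (l : ℤ) ∣ d → (l : ℤ) ∣ s → ¬ (l : ℤ) ∣ z) :
    ∃ p q, Prm (s * d) p q ∧ lat (0, s) (d, z) = Lc (s * d) p q := by
  obtain ⟨t, ht⟩ := coprime_shift z s d hd.ne' h
  have h1 : IsCoprime (-1 : ℤ) s := (isCoprime_one_left).neg_left
  refine ⟨z + s * t, -1 * d, prm_of h1 ht, (Lc_eq_lat hs hd h1 ht ⟨t, by ring⟩).symm⟩

theorem lat_eq_Lc' {r c x : ℤ} (hr : 0 < r) (hc : 0 < c)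
    (h : ∀ l : ℕ, l.Prime → (l : ℤ) ∣ c → (l : ℤ) ∣ r → ¬ (l : ℤ) ∣ x) :
    ∃ p q, Prm (r * c) p q ∧ lat (r, 0) (x, c) = Lc (r * c) p q := by
  obtain ⟨t, ht⟩ := coprime_shift x r c hc.ne' h
  have h1 : IsCoprime (-1 : ℤ) r := (isCoprime_one_left).neg_left
  refine ⟨-1 * c, x + r * t, (prm_of h1 ht).swap, (Lc_eq_lat' hr hc h1 ht ⟨t, by ring⟩).symm⟩

/-- a choice of `j` with `z + j (d - 1)` prime to `gcd (s, d)` -/
theorem exists_content (s z : ℤ) {d : ℤ} (hd : 0 < d) : ∃ j : ℤ, ∀ l : ℕ, l.Prime → (l : ℤ) ∣ d →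
    (l : ℤ) ∣ s → ¬ (l : ℤ) ∣ z + j * (d - 1) := by
  apply crt_exists d hd.ne' (fun l j => (l : ℤ) ∣ s → ¬ (l : ℤ) ∣ z + j * (d - 1))
  · intro l hl h1
    by_cases hz : (l : ℤ) ∣ z
    · refine ⟨1, fun _ h2 => prime_not_dvd_one hl ?_⟩
      have h3 := dvd_sub (dvd_add hz h1) h2
      have : z + d - (z + 1 * (d - 1)) = 1 := by ring
      rwa [this] at h3
    · exact ⟨0, fun _ => by simpa using hz⟩
  · intro l hl h1 k k' h2 h3 h4 h5
    apply h3 h4
    have : z + k * (d - 1) = z + k' * (d - 1) - (k' - k) * (d - 1) := by ring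
    rw [this]
    exact dvd_sub h5 (h2.mul_right _)

/-- STEP (1): contents `1`. -/
theorem exists_KC {L L' : AddSubgroup Z2} (hok : (KS L L').Ok) {a a' : ℤ} (ha : IsArea L a)
    (ha' : IsArea L' a') : ∃ p q p' q', Prm a p q ∧ Prm a' p' q' ∧
    SEq (KS L L') (KC a p q a' p' q') := by
  obtain ⟨s, d, z, hs, hd, e1, e2⟩ := ha.hnf
  subst e2
  obtain ⟨j, hj⟩ := exists_content s z hd
  have h1 := KS.V hs hd hok j
  obtain ⟨p, q, k1, k2⟩ := lat_eq_Lc hs hd hj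
  rw [k2, ← e1] at h1
  rw [← e1] at k1
  obtain ⟨r, c, x, hr, hc, f1, f2⟩ := (ha'.act (shV (j * (s + 1)))).hnf'
  rw [f2] at h1
  obtain ⟨k, hk⟩ := exists_content r x hc
  have h2 := KS.H hr hc h1.ok' k
  obtain ⟨p', q', k3, k4⟩ := lat_eq_Lc' hr hc hk
  rw [k4, ← f1, map_shH_Lc] at h2
  rw [← f1] at k3
  exact ⟨p, _, p', q', k1.shH _, k3, h1.trans h2⟩

/-! ## Products with a vector, primitive vectors, level moves -/

/-- Bezout for three numbers, with the gcd described prime by prime -/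
theorem bezout3 {A B C c : ℤ} (hc : 0 < c) (h1 : c ∣ A) (h2 : c ∣ B) (h3 : c ∣ C)
    (h4 : ∀ l : ℕ, l.Prime → c * l ∣ A → c * l ∣ B → ¬ c * l ∣ C) :
    ∃ x y z : ℤ, A * x + B * y + C * z = c := by
  have hG : (Int.gcd ((Int.gcd A B : ℕ) : ℤ) C : ℤ) = c := by
    have hcG : c ∣ (Int.gcd ((Int.gcd A B : ℕ) : ℤ) C : ℤ) :=
      Int.dvd_coe_gcd (Int.dvd_coe_gcd h1 h2) h3
    obtain ⟨m, hm⟩ := hcG
    have hm1 : m.natAbs = 1 := by
      by_contra hne
      obtain ⟨l, hl, hd⟩ := Nat.exists_prime_and_dvd hne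
      have h5 : c * l ∣ (Int.gcd ((Int.gcd A B : ℕ) : ℤ) C : ℤ) := by
        rw [hm]; exact mul_dvd_mul_left c (Int.natCast_dvd.2 hd)
      have h6 : c * l ∣ ((Int.gcd A B : ℕ) : ℤ) := h5.trans (Int.gcd_dvd_left _ _)
      exact h4 l hl (h6.trans (Int.gcd_dvd_left _ _)) (h6.trans (Int.gcd_dvd_right _ _))
        (h5.trans (Int.gcd_dvd_right _ _))
    have hnn : 0 ≤ c * m := by rw [← hm]; exact Int.natCast_nonneg _
    rw [hm]
    rcases Int.natAbs_eq_iff.1 hm1 with h | h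
    · rw [h]; simp
    · rw [h] at hnn; simp at hnn; omega
  refine ⟨Int.gcdA A B * Int.gcdA (Int.gcd A B) C, Int.gcdB A B * Int.gcdA (Int.gcd A B) C,
    Int.gcdB (Int.gcd A B) C, ?_⟩
  have e1 := Int.gcd_eq_gcd_ab A B
  have e2 := Int.gcd_eq_gcd_ab (Int.gcd A B) C
  rw [hG] at e2
  linear_combination -e2 - Int.gcdA (Int.gcd A B) C * e1

theorem Prm.bezout {a p q : ℤ} (h : Prm a p q) : ∃ x y z : ℤ, a * x + p * y + q * z = 1 :=
  bezout3 one_pos (one_dvd _) (one_dvd _) (one_dvd _) (by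
    intro l hl h1 h2 h3
    rw [one_mul] at h1 h2 h3
    exact h l hl h1 h2 h3)

/-- `c = gcd (a X, a Y, p X + q Y)` is the gcd of the products of `Lc a p q` with `(X, Y)` -/
theorem isC_Lc {a p q : ℤ} (h : Prm a p q) {X Y c : ℤ} (hc : 0 < c)
    (h1 : c ∣ a * X) (h2 : c ∣ a * Y) (h3 : c ∣ p * X + q * Y)
    (h4 : ∀ l : ℕ, l.Prime → c * l ∣ a * X → c * l ∣ a * Y → ¬ c * l ∣ p * X + q * Y) :
    IsC (Lc a p q) (X, Y) c := by
  refine ⟨hc, ?_, ?_⟩
  · intro w hw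
    rw [mem_Lc] at hw
    obtain ⟨m, hm⟩ := hw
    obtain ⟨x, y, z, hxyz⟩ := h.bezout
    have e : cr (X, Y) w = (a * X) * (w.2 * x + m * z) + (a * Y) * (-(w.1 * x) - m * y) +
        (p * X + q * Y) * (w.2 * y - w.1 * z) := by
      simp only [cr]
      linear_combination (-(X * w.2 - Y * w.1)) * hxyz + (z * X - y * Y) * hm
    rw [e]
    exact dvd_add (dvd_add (h1.mul_right _) (h2.mul_right _)) (h3.mul_right _)
  · obtain ⟨x, y, z, e⟩ := bezout3 hc h1 h2 h3 h4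
    refine ⟨(-(a * y) - q * z, a * x + p * z), ?_, ?_⟩
    · rw [mem_Lc]
      exact ⟨-(p * y) + q * x, by ring⟩
    · simp only [cr]
      linear_combination e

/-- a primitive vector is part of a basis -/
theorem Prm.basis {a p q : ℤ} (ha : 0 < a) (h : Prm a p q) {d k m : ℤ} (hm : p * d + q * k = a * m)
    (hp : ∀ l : ℕ, l.Prime → (l : ℤ) ∣ d → (l : ℤ) ∣ k → ¬ (l : ℤ) ∣ m) :
    ∃ p0, Lc a p q = lat (d, k) p0 ∧ cr p0 (d, k) = a := by
  have hC : IsC (Lc a p q) (d, k) a := by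
    refine isC_Lc h ha (dvd_mul_right _ _) (dvd_mul_right _ _) ⟨m, hm⟩ ?_
    intro l hl h1 h2 h3
    rw [hm] at h3
    exact hp l hl ((mul_dvd_mul_iff_left ha.ne').1 h1) ((mul_dvd_mul_iff_left ha.ne').1 h2)
      ((mul_dvd_mul_iff_left ha.ne').1 h3)
  obtain ⟨_, _, w, hw, hw2⟩ := hC
  have hdk : ((d, k) : Z2) ∈ Lc a p q := by
    rw [mem_Lc]; exact ⟨m, hm⟩
  have hcr : cr (-w) (d, k) = a := by
    rw [cr_neg_left, cr_swap w (d, k), hw2, neg_neg]
  refine ⟨-w, ?_, hcr⟩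
  apply le_antisymm
  · intro x hx
    have h1 := cr_expand (-w) (d, k) x
    obtain ⟨i, hi⟩ := h.cr_dvd ha hx hdk
    obtain ⟨j, hj⟩ := h.cr_dvd ha hx ((Lc a p q).neg_mem hw)
    rw [hcr, hi, hj] at h1
    have h2 : a • x = a • (i • (-w) - j • (d, k)) := by
      rw [h1, smul_sub, smul_smul, smul_smul]
    rw [smul_inj ha.ne' h2]
    exact mem_lat.2 ⟨-j, i, by module⟩
  · rw [AddSubgroup.closure_le]
    rintro x (rfl | rfl)
    · exact hdk
    · exact (Lc a p q).neg_mem hw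

/-- LEVEL MOVE with `l = (d, k)`, `u* = (1 + d, 1 + k)` -/
theorem KC.level {a p q a' p' q' : ℤ} (ha : 0 < a) (ha' : 0 < a') (h : Prm a p q)
    (h' : Prm a' p' q') (hok : (KC a p q a' p' q').Ok) {d k m : ℤ} (hm : p * d + q * k = a * m)
    (hp : ∀ l : ℕ, l.Prime → (l : ℤ) ∣ d → (l : ℤ) ∣ k → ¬ (l : ℤ) ∣ m) (hd : 0 < d) (hdk : d < k)
    (hka : k ≤ a) {c : ℤ} (hc : IsC (Lc a' p' q') (1 + d, 1 + k) c) (hcd : c ∣ d) :
    ∃ p1 q1 p1' q1', Prm (a - d) p1 q1 ∧ Prm (a' + d) p1' q1' ∧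
      SEq (KC a p q a' p' q') (KC (a - d) p1 q1 (a' + d) p1' q1') := by
  obtain ⟨p0, e1, e2⟩ := h.basis ha hm hp
  obtain ⟨L1, L1', k1, k2, k3⟩ := KS.move' hok (isArea_Lc ha h) (isArea_Lc ha' h') e1 e2 hd hdk hka
    hc hcd
  obtain ⟨p1, q1, p1', q1', k4, k5, k6⟩ := exists_KC k1.ok' k2 k3
  exact ⟨p1, q1, p1', q1', k4, k5, k1.trans k6⟩

/-- LEVEL MOVE with `l = (-d, k)`, `u* = (1 + d, -(1 + k))` -/
theorem KC.level' {a p q a' p' q' : ℤ} (ha : 0 < a) (ha' : 0 < a') (h : Prm a p q)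
    (h' : Prm a' p' q') (hok : (KC a p q a' p' q').Ok) {d k m : ℤ}
    (hm : p * (-d) + q * k = a * m)
    (hp : ∀ l : ℕ, l.Prime → (l : ℤ) ∣ d → (l : ℤ) ∣ k → ¬ (l : ℤ) ∣ m) (hd : 0 < d) (hdk : d < k)
    (hka : k ≤ a) {c : ℤ} (hc : IsC (Lc a' p' q') (1 + d, -(1 + k)) c) (hcd : c ∣ d) :
    ∃ p1 q1 p1' q1', Prm (a - d) p1 q1 ∧ Prm (a' + d) p1' q1' ∧
      SEq (KC a p q a' p' q') (KC (a - d) p1 q1 (a' + d) p1' q1') := by
  obtain ⟨p0, e1, e2⟩ := h.basis ha hm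
    (fun l hl h1 h2 => hp l hl ((dvd_neg).1 h1) h2)
  obtain ⟨L1, L1', k1, k2, k3⟩ := KS.move hok (isArea_Lc ha h) (isArea_Lc ha' h') e1 e2 hd hdk hka
    hc hcd
  obtain ⟨p1, q1, p1', q1', k4, k5, k6⟩ := exists_KC k1.ok' k2 k3
  exact ⟨p1, q1, p1', q1', k4, k5, k1.trans k6⟩

/-- the rotation `(x, y) ↦ (y, -x)` -/
def rotJ : SL(2, ℤ) := ⟨!![0, 1; -1, 0], by simp [Matrix.det_fin_two_of]⟩

theorem act_rotJ (p : Z2) : act rotJ p = (p.2, -p.1) := by
  rw [act_apply]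
  ext
  · simp [rotJ]
  · simp [rotJ]

theorem map_rotJ_Lc (a p q : ℤ) : (Lc a p q).map (act rotJ) = Lc a q (-p) := by
  ext w
  rw [AddSubgroup.mem_map]
  constructor
  · rintro ⟨x, hx, rfl⟩
    rw [mem_Lc] at hx ⊢
    rw [act_rotJ]
    have : q * x.2 + -p * -x.1 = p * x.1 + q * x.2 := by ring
    rwa [this]
  · intro hw
    refine ⟨(-w.2, w.1), ?_, ?_⟩
    · rw [mem_Lc] at hw ⊢
      have : p * -w.2 + q * w.1 = q * w.1 + -p * w.2 := by ring
      simpa only [this] using hw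
    · rw [act_rotJ]; ext <;> simp

/-- the mirror (exchange of the two sides) in congruence form -/
theorem KC.mirror {a p q a' p' q' : ℤ} (hok : (KC a p q a' p' q').Ok) :
    SEq (KC a p q a' p' q') (KC a' q' (-p') a q (-p)) := by
  have h1 := SEq.mirror (L := Lc a p q) (L' := Lc a' p' q') (u := (1, 0)) (v := (0, 1)) hok
  have h2 := SEq.act rotJ h1.ok'
  have h3 := h1.trans h2
  unfold PSt.act at h3
  simp only [map_rotJ_Lc, act_rotJ] at h3
  have e1 : (((0, 1) : Z2).2, -((0, 1) : Z2).1) = ((1, 0) : Z2) := by simp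
  have e2 : ((-((1, 0) : Z2)).2, -(-((1, 0) : Z2)).1) = ((0, 1) : Z2) := by simp
  rw [e1, e2] at h3
  exact h3

/-- `p` may be multiplied by a unit (left) -/
theorem KC.unit {a p q a' p' q' t : ℤ} (ht : IsCoprime a t) :
    KC a (t * p) (t * q) a' p' q' = KC a p q a' p' q' := by
  unfold KC; rw [Lc_unit ht]

theorem KC.unit' {a p q a' p' q' t : ℤ} (ht : IsCoprime a' t) :
    KC a p q a' (t * p') (t * q') = KC a p q a' p' q' := by
  unfold KC; rw [Lc_unit ht]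

theorem KC.congr {a p q a' p' q' p1 q1 p1' q1' : ℤ} (h1 : a ∣ p1 - p) (h2 : a ∣ q1 - q)
    (h3 : a' ∣ p1' - p') (h4 : a' ∣ q1' - q') :
    KC a p q a' p' q' = KC a p1 q1 a' p1' q1' := by
  unfold KC; rw [Lc_congr h1 h2, Lc_congr h3 h4]

/-- the state `K(L, L')` is admissible iff `e₁ ∉ L` and `e₂ ∉ L'` -/
theorem KC.ok_iff {a p q a' p' q' : ℤ} (hok : (KC a p q a' p' q').Ok) :
    ¬ a ∣ p ∧ ¬ a' ∣ q' := by
  refine ⟨fun h => ?_, fun h => ?_⟩
  · apply hok.not_mem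
    rw [mem_Lc]
    simpa using h
  · apply (KC.mirror hok).ok'.not_mem
    rw [mem_Lc]
    simpa using h

end Pool.Agent.H4G
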