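import Pool.Agent.H4G.Arith.K1Vis

/-!
# LINE B, general `K`: V-rigidity of the gap, number core (helper29)

`γ j = gcd (Y, 1 + j φ)`.
-/

set_option autoImplicit false

namespace Pool.Agent.H4G

/-- **(V1)** for general `K`, number core: from the H-rigidity in all V-twisted states -/
theorem KVis.core {q : ℕ} (hq : q.Prime) (hq2 : q ≠ 2) {K Y φ e f D : ℤ}
    (hK : ¬ (q : ℤ) ∣ K) (hD : (q : ℤ) ∣ e → ¬ (q : ℤ) ∣ D) {k : ℕ}
    (hrig : ∀ j : ℤ, (q : ℤ) ^ k ∣ (K * (Int.gcd Y (1 + j * φ) : ℤ) + Y) * e ∧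
      (q : ℤ) ^ k ∣ (K * (Int.gcd Y (1 + j * φ) : ℤ) + Y) * (f + j * D)) (j : ℤ) :
    (q : ℤ) ^ k ∣ K * (Int.gcd Y (1 + j * φ) : ℤ) + Y := by
  rcases Nat.eq_zero_or_pos k with hk0 | hk0
  · rw [hk0, pow_zero]; exact one_dvd _
  have hpi := Nat.prime_iff_prime_int.1 hq
  have key : ∀ j : ℤ, (¬ (q : ℤ) ∣ e ∨ ¬ (q : ℤ) ∣ f + j * D) →
      (q : ℤ) ^ k ∣ K * (Int.gcd Y (1 + j * φ) : ℤ) + Y := by
    intro j hj
    obtain ⟨h1, h2⟩ := hrig j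
    rcases hj with hj | hj
    · exact pow_dvd_left hq h1 hj
    · exact pow_dvd_left hq h2 hj
  have hy : ¬ (q : ℤ) ∣ Y := by
    intro hy
    obtain ⟨j', h1, h2⟩ := exists_three (φ := φ) (f := f) hq hq2 hD
    have h3 := (dvd_pow_self (q : ℤ) hk0.ne').trans (key j' h2)
    have h4 : (q : ℤ) ∣ K * (Int.gcd Y (1 + j' * φ) : ℤ) := (dvd_add_left hy).1 h3
    exact h1 (((hpi.dvd_or_dvd h4).resolve_left hK).trans (Int.gcd_dvd_right ..))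
  have hg : ∀ t : ℤ, (Int.gcd Y (1 + (j + Y * t) * φ) : ℤ) = Int.gcd Y (1 + j * φ) := by
    intro t
    have : 1 + (j + Y * t) * φ = 1 + j * φ + Y * (t * φ) := by ring
    rw [this, Int.gcd_add_mul_left_right]
  by_cases he : (q : ℤ) ∣ e
  · by_cases h0 : (q : ℤ) ∣ f + j * D
    · have h1 := key (j + Y * 1) (Or.inr fun h2 => by
        have h3 : (q : ℤ) ∣ Y * D := by
          have : Y * D = (f + (j + Y * 1) * D) - (f + j * D) := by ring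
          rw [this]
          exact dvd_sub h2 h0
        rcases hpi.dvd_or_dvd h3 with h4 | h4
        · exact hy h4
        · exact hD he h4)
      rwa [hg] at h1
    · exact key j (Or.inr h0)
  · exact key j (Or.inl he)

/-- `j = 0` -/
theorem KVis.core0 {q : ℕ} {K Y φ : ℤ} {k : ℕ}
    (h : ∀ j : ℤ, (q : ℤ) ^ k ∣ K * (Int.gcd Y (1 + j * φ) : ℤ) + Y) :
    (q : ℤ) ^ k ∣ K + Y := by
  have h1 := h 0
  have h2 : (Int.gcd Y (1 + 0 * φ) : ℤ) = 1 := by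
    rw [zero_mul, add_zero]; simp
  rwa [h2, mul_one] at h1

/-- **(V2)** for general `K`, number core -/
theorem KVis.mob {q r : ℕ} (hq : q.Prime) (hr : r.Prime) {K Y φ : ℤ} {k : ℕ} (hY : Y ≠ 0)
    (hK : ¬ (q : ℤ) ∣ K)
    (h : ∀ j : ℤ, (q : ℤ) ^ k ∣ K * (Int.gcd Y (1 + j * φ) : ℤ) + Y) (h1 : (r : ℤ) ∣ Y)
    (h2 : ¬ (r : ℤ) ∣ φ) : (q : ℤ) ^ k ∣ K * (r - 1) ∧ (q : ℤ) ^ k ∣ r - 1 := by
  obtain ⟨j, hj⟩ := exists_gam hY hr h1 h2
  have h3 := h j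
  rw [hj] at h3
  have h4 := KVis.core0 h
  have h5 : (q : ℤ) ^ k ∣ K * (r - 1) := by
    have : K * ((r : ℤ) - 1) = (K * r + Y) - (K + Y) := by ring
    rw [this]
    exact dvd_sub h3 h4
  refine ⟨h5, ?_⟩
  exact (IsCoprime.pow_left (isCoprime_of_not_dvd hq hK)).dvd_of_dvd_mul_left h5

end Pool.Agent.H4G
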