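import Pool.Agent.H4G.Arith.LCount
import Pool.Agent.H4G.Arith.Full

/-!
# Class lemmas for left exits of level one (helper23)

Two bad exits of one state, at one prime, are congruent.
-/

set_option autoImplicit false

namespace Pool.Agent.H4G

variable {S : PSt} {a' b c : ℤ} {l p l' p' : Z2}

theorem IsArea.dvd_cr {L : AddSubgroup Z2} {a : ℤ} (ha : IsArea L a) {x y : Z2} (hx : x ∈ L)
    (hy : y ∈ L) : a ∣ cr x y := by
  obtain ⟨-, s, t, hst, hL⟩ := ha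
  rw [hL] at hx hy
  obtain ⟨m, n, rfl⟩ := mem_lat.1 hx
  obtain ⟨m', n', rfl⟩ := mem_lat.1 hy
  rw [← hst]
  refine ⟨-(m * n' - n * m'), ?_⟩
  simp only [cr_add_left, cr_add_right, cr_smul_left, cr_smul_right, cr_self]
  rw [cr_swap t s]; ring

/-- the class of `ρ = τ - q` at a prime dividing `c` and `a'` -/
theorem ExtB.clsW (h : ExtB S a' b c) (ad : Ad S l p l' p') (hfull : S.Full) {r : ℕ}
    (hr : r.Prime) (hrc : (r : ℤ) ∣ c) (hra : (r : ℤ) ∣ a') {q τ q1 τ1 : ℤ}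
    (h1 : ∀ z ∈ S.L', (r : ℤ) ∣ cr (S.u + q • S.v + τ • l + p) z)
    (h2 : ∀ z ∈ S.L', (r : ℤ) ∣ cr (S.u + q1 • S.v + τ1 • l + p) z) :
    (r : ℤ) ∣ (τ - q) - (τ1 - q1) := by
  have hri := Nat.prime_iff_prime_int.1 hr
  by_contra hn
  have hV : ∀ z ∈ S.L', (r : ℤ) ∣ cr (S.v + l) z := by
    intro z hz
    obtain ⟨v1, v2⟩ := h.vrig ad
    rw [ad.hL'] at hz
    obtain ⟨m, n, rfl⟩ := mem_lat.1 hz
    rw [cr_add_right, cr_smul_right, cr_smul_right]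
    exact hrc.trans (dvd_add (v1.mul_left _) (v2.mul_left _))
  refine con1_iff.1 h.con r hr fun z hz => ?_
  have g1 : (r : ℤ) ∣ cr S.v z := by
    have h3 := dvd_sub (h1 z hz) (h2 z hz)
    have h4 := dvd_sub h3 ((hV z hz).mul_left (τ - τ1))
    have e1 : cr (S.u + q • S.v + τ • l + p) z - cr (S.u + q1 • S.v + τ1 • l + p) z -
        (τ - τ1) * cr (S.v + l) z = -((τ - q) - (τ1 - q1)) * cr S.v z := by
      simp only [cr_add_left, cr_smul_left]; ring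
    rw [e1] at h4
    exact p_dvd_mul hr h4 (by rw [dvd_neg]; exact hn)
  have g2 : (r : ℤ) ∣ cr l z := by
    have := dvd_sub (hV z hz) g1
    rwa [cr_add_left, add_sub_cancel_left] at this
  have g3 : (r : ℤ) ∣ cr S.u z := hrc.trans (h.hc.2.1 z hz)
  have g4 : (r : ℤ) ∣ cr p z := by
    have h3 := h1 z hz
    simp only [cr_add_left, cr_smul_left] at h3
    have h4 := dvd_sub (dvd_sub (dvd_sub h3 g3) (g1.mul_left q)) (g2.mul_left τ)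
    have e1 : cr S.u z + q * cr S.v z + τ * cr l z + cr p z - cr S.u z - q * cr S.v z -
        τ * cr l z = cr p z := by ring
    rwa [e1] at h4
  have g5 : ∀ x : Z2, (r : ℤ) ∣ cr x z := by
    intro x
    have hx : x ∈ S.L ⊔ S.L' ⊔ lat S.u S.v := by
      have : S.L ⊔ S.L' ⊔ lat S.u S.v = ⊤ := hfull
      rw [this]; trivial
    obtain ⟨y, hy, y3, hy3, rfl⟩ := AddSubgroup.mem_sup.1 hx
    obtain ⟨y1, hy1, y2, hy2, rfl⟩ := AddSubgroup.mem_sup.1 hy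
    rw [cr_add_left, cr_add_left]
    refine dvd_add (dvd_add ?_ (hra.trans (h.ha'.dvd_cr hy2 hz))) ?_
    · rw [ad.hL] at hy1
      obtain ⟨m, n, rfl⟩ := mem_lat.1 hy1
      rw [cr_add_left, cr_smul_left, cr_smul_left]
      exact dvd_add (g2.mul_left _) (g4.mul_left _)
    · obtain ⟨m, n, rfl⟩ := mem_lat.1 hy3
      rw [cr_add_left, cr_smul_left, cr_smul_left]
      exact dvd_add (g3.mul_left _) (g1.mul_left _)
  rw [Dz.iff]
  intro x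
  rw [cr_swap z x, dvd_neg]
  exact g5 x

/-- if `r ∤ c` and `r ^ m ∤ u₁ × v` then `r ^ m` does not divide all `z × v` -/
theorem not_all_v (ad : Ad S l p l' p') {r : ℕ} (hr : r.Prime) (hrc : ¬ (r : ℤ) ∣ cr S.u p')
    {w1 : Z2} {m : ℕ} (hm : ¬ (r : ℤ) ^ m ∣ cr w1 S.v)
    (h1 : ∀ z ∈ S.L', (r : ℤ) ^ m ∣ cr w1 z) (h2 : ∀ z ∈ S.L', (r : ℤ) ^ m ∣ cr S.v z) :
    False := by
  have hp' : p' ∈ S.L' := by rw [ad.hL']; exact mem_lat.2 ⟨0, 1, by module⟩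
  have k := Pair.key (S := S) (w1 := w1) p'
  have h3 : (r : ℤ) ^ m ∣ cr S.u p' * cr w1 S.v := by
    have e1 : cr S.u p' * cr w1 S.v = cr S.u S.v * cr w1 p' - cr S.v p' * cr S.u w1 := by
      rw [cr_swap p' S.u, cr_swap p' w1, cr_swap p' S.v] at k
      linear_combination k
    rw [e1]
    exact dvd_sub ((h1 p' hp').mul_left _) ((h2 p' hp').mul_right _)
  exact hm (pow_dvd_of_mul hr h3 hrc)

/-- difference of two exits -/
theorem exit_diff (ad : Ad S l p l' p') (q τ q1 τ1 : ℤ) (z : Z2) :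
    cr S.u S.v * (cr (S.u + q • S.v + τ • l + p) z - cr (S.u + q1 • S.v + τ1 • l + p) z) =
      ((q - q1) * cr S.u S.v + (τ - τ1) * cr S.u l) * cr S.v z := by
  have k := plk S.u S.v z l
  rw [cr_swap S.v l, ad.h1, cr_swap z l, cr_swap z S.v] at k
  simp only [cr_add_left, cr_smul_left]
  linear_combination (-(τ - τ1)) * k

/-- the class of `q` at a prime `r ∣ e`, `r ∤ A c` -/
theorem clsT (ad : Ad S l p l' p') {r : ℕ} (hr : r.Prime) (hre : (r : ℤ) ∣ cr S.u l)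
    (hrA : ¬ (r : ℤ) ∣ cr S.u S.v) (hrc : ¬ (r : ℤ) ∣ cr S.u p') {q τ q1 τ1 : ℤ} {m : ℕ}
    (hm : ¬ (r : ℤ) ^ m ∣ cr (S.u + q • S.v + τ • l + p) S.v)
    (h1 : ∀ z ∈ S.L', (r : ℤ) ^ m ∣ cr (S.u + q • S.v + τ • l + p) z)
    (h2 : ∀ z ∈ S.L', (r : ℤ) ^ m ∣ cr (S.u + q1 • S.v + τ1 • l + p) z) :
    (r : ℤ) ∣ q - q1 := by
  by_contra hn
  refine not_all_v ad hr hrc hm h1 fun z hz => ?_
  have h3 : (r : ℤ) ^ m ∣ ((q - q1) * cr S.u S.v + (τ - τ1) * cr S.u l) * cr S.v z := by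
    rw [← exit_diff ad q τ q1 τ1 z]
    exact (dvd_sub (h1 z hz) (h2 z hz)).mul_left _
  refine pow_dvd_of_mul hr h3 fun h4 => ?_
  have h5 := dvd_sub h4 (hre.mul_left (τ - τ1))
  rw [add_sub_cancel_right] at h5
  exact hrA (p_dvd_mul hr h5 hn)

/-- the class of `q` modulo four, `4 ∣ e`, `A`, `c` odd -/
theorem clsT2 (ad : Ad S l p l' p') (hre : (4 : ℤ) ∣ cr S.u l)
    (hrA : ¬ (2 : ℤ) ∣ cr S.u S.v) (hrc : ¬ (2 : ℤ) ∣ cr S.u p') {q τ q1 τ1 : ℤ} {m : ℕ}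
    (hq : ¬ (2 : ℤ) ∣ q) (hq1 : ¬ (2 : ℤ) ∣ q1)
    (hm : ¬ (2 : ℤ) ^ m ∣ cr (S.u + q • S.v + τ • l + p) S.v)
    (h1 : ∀ z ∈ S.L', (2 : ℤ) ^ (m + 1) ∣ cr (S.u + q • S.v + τ • l + p) z)
    (h2 : ∀ z ∈ S.L', (2 : ℤ) ^ (m + 1) ∣ cr (S.u + q1 • S.v + τ1 • l + p) z) :
    (4 : ℤ) ∣ q - q1 := by
  by_contra hn
  have hle : (2 : ℤ) ^ m ∣ (2 : ℤ) ^ (m + 1) := pow_dvd_pow _ (by omega)
  refine not_all_v ad (r := 2) Nat.prime_two (by exact_mod_cast hrc) (m := m)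
    (w1 := S.u + q • S.v + τ • l + p) (by exact_mod_cast hm)
    (fun z hz => by exact_mod_cast hle.trans (h1 z hz)) fun z hz => ?_
  have h3 : (2 : ℤ) ^ (m + 1) ∣ ((q - q1) * cr S.u S.v + (τ - τ1) * cr S.u l) * cr S.v z := by
    rw [← exit_diff ad q τ q1 τ1 z]
    exact (dvd_sub (h1 z hz) (h2 z hz)).mul_left _
  obtain ⟨t, ht⟩ : ∃ t, q - q1 = 2 * t := ⟨(q - q1) / 2, by omega⟩
  have ht2 : ¬ (2 : ℤ) ∣ t := by
    rintro ⟨s, hs⟩
    apply hn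
    rw [ht, hs]; exact ⟨s, by ring⟩
  obtain ⟨e4, he4⟩ := hre
  have e1 : ((q - q1) * cr S.u S.v + (τ - τ1) * cr S.u l) * cr S.v z =
      2 * ((t * cr S.u S.v + 2 * ((τ - τ1) * e4)) * cr S.v z) := by
    rw [ht, he4]; ring
  rw [e1, pow_succ, mul_comm] at h3
  have h4 := (mul_dvd_mul_iff_left (two_ne_zero' ℤ)).1 h3
  have h5 : ((2 : ℕ) : ℤ) ^ m ∣ (t * cr S.u S.v + 2 * ((τ - τ1) * e4)) * cr S.v z := by
    exact_mod_cast h4
  refine pow_dvd_of_mul Nat.prime_two h5 fun h6 => ?_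
  have h7 : (2 : ℤ) ∣ t * cr S.u S.v := by
    have := dvd_sub (by exact_mod_cast h6 : (2 : ℤ) ∣ t * cr S.u S.v + 2 * ((τ - τ1) * e4))
      (dvd_mul_right 2 ((τ - τ1) * e4))
    rwa [add_sub_cancel_right] at this
  rcases Int.prime_two.dvd_or_dvd h7 with h8 | h8
  · exact ht2 h8
  · exact hrA h8

/-- the class of `ρ` at a prime with `v_r (A + e) > v_r (A)`, `r ∤ c` -/
theorem clsR (ad : Ad S l p l' p') {r : ℕ} (hr : r.Prime) {s : ℕ} {A0 : ℤ}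
    (hA : cr S.u S.v = (r : ℤ) ^ s * A0) (hA0 : ¬ (r : ℤ) ∣ A0)
    (hAe : (r : ℤ) ^ (s + 1) ∣ cr S.u S.v + cr S.u l) (hrc : ¬ (r : ℤ) ∣ cr S.u p')
    {q τ q1 τ1 : ℤ} {m : ℕ}
    (hm : ¬ (r : ℤ) ^ m ∣ cr (S.u + q • S.v + τ • l + p) S.v)
    (h1 : ∀ z ∈ S.L', (r : ℤ) ^ m ∣ cr (S.u + q • S.v + τ • l + p) z)
    (h2 : ∀ z ∈ S.L', (r : ℤ) ^ m ∣ cr (S.u + q1 • S.v + τ1 • l + p) z) :
    (r : ℤ) ∣ (τ - q) - (τ1 - q1) := by
  have hri := Nat.prime_iff_prime_int.1 hr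
  by_contra hn
  refine not_all_v ad hr hrc hm h1 fun z hz => ?_
  obtain ⟨E, hE⟩ := hAe
  have e1 : (q - q1) * cr S.u S.v + (τ - τ1) * cr S.u l =
      (r : ℤ) ^ s * (-((τ - q) - (τ1 - q1)) * A0 + (r : ℤ) * ((τ - τ1) * E)) := by
    have : cr S.u l = (r : ℤ) ^ (s + 1) * E - (r : ℤ) ^ s * A0 := by rw [← hA]; linarith
    rw [this, hA, pow_succ]; ring
  have h3 := exit_diff ad q τ q1 τ1 z
  rw [e1] at h3
  nth_rw 1 [hA] at h3
  have h4 : A0 * (cr (S.u + q • S.v + τ • l + p) z - cr (S.u + q1 • S.v + τ1 • l + p) z) =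
      (-((τ - q) - (τ1 - q1)) * A0 + (r : ℤ) * ((τ - τ1) * E)) * cr S.v z := by
    have hne : (r : ℤ) ^ s ≠ 0 := pow_ne_zero _ hri.ne_zero
    refine mul_left_cancel₀ hne ?_
    linear_combination h3
  have h5 : (r : ℤ) ^ m ∣ (-((τ - q) - (τ1 - q1)) * A0 + (r : ℤ) * ((τ - τ1) * E)) *
      cr S.v z := by
    rw [← h4]
    exact (dvd_sub (h1 z hz) (h2 z hz)).mul_left _
  refine pow_dvd_of_mul hr h5 fun h6 => ?_
  have h7 := dvd_sub h6 (dvd_mul_right (r : ℤ) ((τ - τ1) * E))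
  rw [add_sub_cancel_right] at h7
  rcases hri.dvd_or_dvd h7 with h8 | h8
  · exact hn ((dvd_neg).1 h8)
  · exact hA0 h8

end Pool.Agent.H4G
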