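import Pool.Agent.H4G.Arith.LGood

/-!
# Conclusion from a good left exit (helper23)
-/

set_option autoImplicit false

namespace Pool.Agent.H4G

theorem Dz.two_of {u : Z2} (h : ∀ z, (2 : ℤ) ∣ cr u z) : Dz 2 u := Dz.iff.2 h

/-- a good exit of a state `S` with `A < c`: after loops, `b` divides the left lattice of the exit -/
theorem ExtB.good_concl {N : ℕ} (hN : N.Prime) {S : PSt} {a' b c : ℤ} (h : ExtB S a' b c)
    {l p l' p' : Z2} (ad : Ad S l p l' p') (hv : cr p l + cr S.u S.v + cr l' p' = N)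
    (hb3 : 3 ≤ b) (hAc : cr S.u S.v < c) {q τ : ℤ}
    (hx : LEx (cr S.u S.v) (cr p S.v) (cr S.u l) (cr S.u p) (cr p l) q τ)
    (hw0 : q * cr S.u S.v + τ * cr S.u l + cr S.u p ≠ 0)
    {B0 : ℤ} (hB0 : IsC S.L' (S.u + q • S.v + τ • l + p) B0)
    (hg : GoodB (cr S.u S.v) b c (cr S.u l) (cr p l) a' B0) :
    ∃ (T : PSt) (l₁ p₁ l₁' p₁' : Z2), SEq S T ∧ ExtB T a' b c ∧ Ad T l₁ p₁ l₁' p₁' ∧
      T.u = S.u ∧ T.L = S.L ∧ cr T.u T.v = cr S.u S.v ∧ cr T.u l₁ = cr S.u l ∧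
      cr T.u p₁ = cr S.u p ∧ cr p₁ l₁ = cr p l ∧
      IsC T.L' (T.u + q • T.v + τ • l₁ + p₁) (cr (T.u + q • T.v + τ • l₁ + p₁) T.v) ∧
      (∀ r : ℕ, r.Prime → (r : ℤ) ∣ c → (r : ℤ) ∣ a' →
        ¬ (r : ℤ) ∣ cr (T.u + q • T.v + τ • l₁ + p₁) T.v) ∧
      ∀ w ∈ lat (l₁ - T.v) (p₁ + τ • T.v), Dz b w := by
  have E1 : cr p S.v = b := ad.isC.unique h.hb
  have E2 : cr S.u p' = c := ad.isC'.unique h.hc
  have E3 : cr l' p' = a' := ad.isArea'.unique h.ha'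
  have hA0 := ad.hA
  obtain ⟨T, l₁, p₁, l₁', p₁', B, k1, hM, kU, kL, n1, n2, n3, n4, hBd⟩ :=
    exists_exitMinD h ad q τ 1 (B0 := B0) (by rw [one_smul]; exact hB0)
  have hT := hM.ext
  have adT := hM.ad
  have F1 : cr p₁ T.v = b := adT.isC.unique hT.hb
  have F2 : cr T.u p₁' = c := adT.isC'.unique hT.hc
  have F3 : cr l₁' p₁' = a' := adT.isArea'.unique hT.ha'
  have hgB := hg.mono hBd
  have hvT : cr p₁ l₁ + cr T.u T.v + cr l₁' p₁' = N := by rw [n4, n1, F3, ← E3]; exact hv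
  have hxT : LEx (cr T.u T.v) (cr p₁ T.v) (cr T.u l₁) (cr T.u p₁) (cr p₁ l₁) q τ := by
    rw [n1, n2, n3, n4, F1, ← E1]; exact hx
  have hwT : cr T.u (T.u + q • T.v + τ • l₁ + p₁) ≠ 0 := by
    have e1 : cr T.u (T.u + q • T.v + τ • l₁ + p₁) =
        q * cr S.u S.v + τ * cr S.u l + cr S.u p := by
      simp only [cr_add_right, cr_smul_right, cr_self]
      rw [n1, n2, n3]; ring
    rw [e1]; exact hw0
  have hP := hM.pair' hN hvT hxT hwT
  set w1 := T.u + q • T.v + τ • l₁ + p₁ with hw1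
  have hA1 : cr w1 T.v = cr S.u S.v + b := by rw [hP.hA1, n1, F1]
  have hBC : IsC T.L' w1 B := by
    have := hM.hB
    rwa [one_smul] at this
  have hle : cr w1 T.v ≤ B := hT.exit_le adT hxT hBC
  -- the defect
  have hD : ¬ ((∀ z, (2 : ℤ) ∣ cr T.u z) ∧
      ∃ j : ℕ, (2 : ℤ) ^ (j + 2) ∣ cr T.u p₁' ∧ ¬ (2 : ℤ) ^ (j + 1) ∣ cr T.u T.v) := by
    rintro ⟨d1, j, d2, d3⟩
    rw [F2] at d2
    rw [n1] at d3
    rw [kU] at d1
    have h2c : ((2 : ℕ) : ℤ) ∣ c := by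
      have : (2 : ℤ) ∣ (2 : ℤ) ^ (j + 2) := dvd_pow_self _ (by omega)
      exact_mod_cast this.trans d2
    have h2a : ((2 : ℕ) : ℤ) ∣ a' := by
      by_contra hn
      have h3 : (((2 : ℕ) : ℤ)) ^ (j + 2) ∣ a' * cr S.u S.v := by
        have := ad.area'
        rw [E3, E2] at this
        rw [this]
        exact (by exact_mod_cast d2 : (((2 : ℕ) : ℤ)) ^ (j + 2) ∣ c).mul_left _
      have h4 := pow_dvd_of_mul Nat.prime_two h3 hn
      apply d3
      have h5 : (2 : ℤ) ^ (j + 2) ∣ cr S.u S.v := by exact_mod_cast h4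
      exact (pow_dvd_pow _ (by omega)).trans h5
    obtain ⟨o, jj, ho, hq, y1, y2⟩ := hx
    refine h.caseD hN ad hv hb3 ho hq y1 y2 hB0 ?_ (Dz.two_of d1) d2 d3 hg.W hg.R
    have := hg.W 2 Nat.prime_two h2c h2a
    exact_mod_cast this
  have hfin : B = cr w1 T.v := by
    refine hP.fin' (fun r hr h1 h2 => ?_) (fun r hr hr2 h1 h2 h3 h4 k hk => ?_)
      (fun h1 h2 h3 h4 k hk => ?_) (fun h1 h2 h3 h4 h5 h6 h7 => ?_) hD
      (by rw [n1, F2]; exact hAc) hle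
    · rw [F2] at h1; rw [F3] at h2
      exact hgB.W r hr h1 h2
    · rw [n2] at h1; rw [n1] at h2; rw [F2] at h3; rw [F3] at h4
      rw [hA1]
      exact hgB.T r hr hr2 h1 h2 h3 h4 k hk
    · rw [n2] at h1; rw [n1] at h2; rw [F2] at h3; rw [F3] at h4
      rw [hA1]
      exact hgB.T2 h1 h2 h3 h4 k hk
    · rw [F1] at h2; rw [F2] at h3; rw [F3] at h7
      have h8 := hT.hl adT h2 h3 h4 h5 h6 h7
      rw [n1] at h8
      have := Int.le_of_dvd hA0 h8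
      linarith
  rw [hfin] at hBC
  have hWT : ∀ r : ℕ, r.Prime → (r : ℤ) ∣ c → (r : ℤ) ∣ a' → ¬ (r : ℤ) ∣ cr w1 T.v := by
    intro r hr h1 h2
    rw [← hfin]
    exact hgB.W r hr h1 h2
  exact ⟨T, l₁, p₁, l₁', p₁', k1, hT, adT, kU, kL, n1, n2, n3, n4, hBC, hWT,
    hT.f3D hN adT hvT hxT hBC hWT⟩

/-- the numbers: `b ∣ e - A`, `b ∣ f + τ A`, `e = A (1 + b m)` -/
theorem ExtB.good_num {N : ℕ} (hN : N.Prime) {S : PSt} {a' b c : ℤ} (h : ExtB S a' b c)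
    {l p l' p' : Z2} (ad : Ad S l p l' p') (hv : cr p l + cr S.u S.v + cr l' p' = N)
    (hb3 : 3 ≤ b) (hAc : cr S.u S.v < c) {q τ : ℤ}
    (hx : LEx (cr S.u S.v) (cr p S.v) (cr S.u l) (cr S.u p) (cr p l) q τ)
    (hw0 : q * cr S.u S.v + τ * cr S.u l + cr S.u p ≠ 0)
    {B0 : ℤ} (hB0 : IsC S.L' (S.u + q • S.v + τ • l + p) B0)
    (hg : GoodB (cr S.u S.v) b c (cr S.u l) (cr p l) a' B0) :
    b ∣ cr S.u p + τ * cr S.u S.v ∧ ∃ m : ℤ, 0 < m ∧ cr S.u l = cr S.u S.v * (1 + b * m) := by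
  obtain ⟨T, l₁, p₁, l₁', p₁', k1, hT, adT, kU, kL, n1, n2, n3, n4, _, _, hd⟩ :=
    h.good_concl hN ad hv hb3 hAc hx hw0 hB0 hg
  have E1 : cr p S.v = b := ad.isC.unique h.hb
  have F1 : cr p₁ T.v = b := adT.isC.unique hT.hb
  have d1 := hd _ (mem_lat.2 ⟨1, 0, by module⟩ : l₁ - T.v ∈ _)
  have d2 := hd _ (mem_lat.2 ⟨0, 1, by module⟩ : p₁ + τ • T.v ∈ _)
  constructor
  · have := d2.cr_right T.u
    rwa [cr_add_right, cr_smul_right, n3, n1] at this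
  · obtain ⟨x, hx1⟩ := d1
    obtain ⟨y, hy1⟩ := d2
    have e1 : cr (p₁ + τ • T.v) (l₁ - T.v) = cr p l - b := by
      simp only [cr_add_left, cr_sub_right, cr_smul_left, cr_self]
      rw [cr_swap T.v l₁, adT.h1, n4, F1]; ring
    rw [hx1, hy1, cr_smul_left, cr_smul_right] at e1
    have hlt := hx.lt
    rw [E1] at hlt
    have hb0 := h.bpos
    have e2 : cr p l = b * (1 + b * cr y x) := by linear_combination -e1
    refine ⟨cr y x, ?_, ?_⟩
    · have h3 : 0 < b * (b * cr y x) := by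
        have : b * (b * cr y x) = cr p l - b := by linear_combination -e2
        rw [this]; linarith
      have h4 := (mul_pos_iff_of_pos_left hb0).1 h3
      exact (mul_pos_iff_of_pos_left hb0).1 h4
    · have area := ad.area
      rw [E1, e2] at area
      have : b * (cr S.u l - cr S.u S.v * (1 + b * cr y x)) = 0 := by linear_combination -area
      rcases mul_eq_zero.1 this with h9 | h9
      · exact absurd h9 hb0.ne'
      · linarith

end Pool.Agent.H4G
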