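import Pool.Agent.H4G.Arith.F3D
import Pool.Agent.H4G.Asy.CVE

/-!
# Counting left exits of level one, `e ≥ 3 A` (helper23)

An exit is given by `q = 1 + 2 l`, `τ = ρ + q`; it is allowed when `|2 f + 2 ρ e - q D| < M₀`,
`D = a + b - A - e`, `M₀ = e - A + a - b`.
-/

set_option autoImplicit false

namespace Pool.Agent.H4G

/-! ## Chinese remainders -/

theorem crt_finset (P : Finset ℕ) (hP : ∀ r ∈ P, r.Prime) (t : ℕ → ℤ) :
    ∃ x : ℤ, ∀ r ∈ P, (r : ℤ) ∣ x - t r := by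
  classical
  induction P using Finset.induction_on with
  | empty => exact ⟨0, by simp⟩
  | insert p P hp ih =>
    obtain ⟨x, hx⟩ := ih fun r hr => hP r (Finset.mem_insert_of_mem hr)
    have hpp := hP p (Finset.mem_insert_self _ _)
    have hco : IsCoprime (∏ r ∈ P, (r : ℤ)) (p : ℤ) := by
      refine IsCoprime.prod_left fun r hr => ?_
      have hrp := hP r (Finset.mem_insert_of_mem hr)
      rw [Nat.isCoprime_iff_coprime, Nat.coprime_primes hrp hpp]
      rintro rfl; exact hp hr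
    obtain ⟨α, β, hab⟩ := hco
    refine ⟨x + (∏ r ∈ P, (r : ℤ)) * (α * (t p - x)), fun r hr => ?_⟩
    rcases Finset.mem_insert.1 hr with rfl | hr
    · refine ⟨-(β * (t r - x)), ?_⟩
      linear_combination (t r - x) * hab
    · have h1 : (r : ℤ) ∣ ∏ s ∈ P, (s : ℤ) := Finset.dvd_prod_of_mem (fun s : ℕ => (s : ℤ)) hr
      have e1 : x + (∏ r ∈ P, (r : ℤ)) * (α * (t p - x)) - t r =
          (x - t r) + (∏ r ∈ P, (r : ℤ)) * (α * (t p - x)) := by ring
      rw [e1]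
      exact dvd_add (hx r hr) (h1.mul_right _)

/-- one of two consecutive shifts avoids a class -/
theorem shift_avoid (r : ℕ) {x d k : ℤ} (h : (r : ℤ) ∣ d → ¬ (r : ℤ) ∣ x - k) :
    ∃ t : ℤ, ∀ t' : ℤ, (r : ℤ) ∣ t' - t → ¬ (r : ℤ) ∣ x + d * t' - k := by
  by_cases hd : (r : ℤ) ∣ d
  · refine ⟨0, fun t' _ h1 => h hd ?_⟩
    have := dvd_sub h1 (hd.mul_right t')
    have e1 : x + d * t' - k - d * t' = x - k := by ring
    rwa [e1] at this
  · by_cases h0 : (r : ℤ) ∣ x - k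
    · refine ⟨1, fun t' h1 h2 => hd ?_⟩
      have e1 : d = (x + d * t' - k) - (x - k) - d * (t' - 1) := by ring
      rw [e1]
      exact dvd_sub (dvd_sub h2 h0) (h1.mul_left _)
    · refine ⟨0, fun t' h1 h2 => h0 ?_⟩
      have e1 : x - k = (x + d * t' - k) - d * (t' - 0) := by ring
      rw [e1]
      exact dvd_sub h2 (h1.mul_left _)

/-- solutions of `ρ e₁ - l D₁ = n` which avoid classes -/
theorem crt_pair {D1 e1 n : ℤ} (hco : IsCoprime D1 e1) (Pr Pl : Finset ℕ)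
    (hPr : ∀ r ∈ Pr, r.Prime) (hPl : ∀ r ∈ Pl, r.Prime) (hdis : Disjoint Pr Pl) (κ : ℕ → ℤ)
    (h1 : ∀ r ∈ Pr, (r : ℤ) ∣ D1 → ¬ (r : ℤ) ∣ n - κ r * e1)
    (h2 : ∀ r ∈ Pl, (r : ℤ) ∣ e1 → ¬ (r : ℤ) ∣ n + κ r * D1)
    {X Y Z : ℤ} (hXY : X * D1 + Y * e1 ≠ 0) :
    ∃ ρ l : ℤ, ρ * e1 - l * D1 = n ∧ (∀ r ∈ Pr, ¬ (r : ℤ) ∣ ρ - κ r) ∧
      (∀ r ∈ Pl, ¬ (r : ℤ) ∣ l - κ r) ∧ X * ρ + Y * l + Z ≠ 0 := by
  classical
  obtain ⟨α, β, hab⟩ := hco
  have c1 : ∀ r ∈ Pr, ∃ t : ℤ, ∀ t' : ℤ, (r : ℤ) ∣ t' - t →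
      ¬ (r : ℤ) ∣ β * n + D1 * t' - κ r := by
    intro r hr
    refine shift_avoid r fun hd h3 => h1 r hr hd ?_
    have e1' : n - κ r * e1 = (β * n - κ r) * e1 + n * α * D1 := by
      linear_combination -n * hab
    rw [e1']
    exact dvd_add (h3.mul_right _) (hd.mul_left _)
  have c2 : ∀ r ∈ Pl, ∃ t : ℤ, ∀ t' : ℤ, (r : ℤ) ∣ t' - t →
      ¬ (r : ℤ) ∣ -(α * n) + e1 * t' - κ r := by
    intro r hr
    refine shift_avoid r fun hd h3 => h2 r hr hd ?_
    have e1' : n + κ r * D1 = -(-(α * n) - κ r) * D1 + n * β * e1 := by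
      linear_combination -n * hab
    rw [e1']
    exact dvd_add ((dvd_neg.2 h3).mul_right _) (hd.mul_left _)
  choose! t1 ht1 using c1
  choose! t2 ht2 using c2
  obtain ⟨x, hx⟩ := crt_finset (Pr ∪ Pl) (fun r hr => by
    rcases Finset.mem_union.1 hr with h | h
    · exact hPr r h
    · exact hPl r h) (fun r => if r ∈ Pr then t1 r else t2 r)
  set M : ℤ := ∏ r ∈ Pr ∪ Pl, (r : ℤ) with hM
  have hM0 : M ≠ 0 := by
    rw [hM, Finset.prod_ne_zero_iff]
    intro r hr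
    have : r.Prime := by
      rcases Finset.mem_union.1 hr with h | h
      · exact hPr r h
      · exact hPl r h
    exact_mod_cast this.ne_zero
  have hprim : ∀ r ∈ Pr ∪ Pl, r.Prime := by
    intro r hr
    rcases Finset.mem_union.1 hr with h | h
    · exact hPr r h
    · exact hPl r h
  have main : ∀ x' : ℤ, M ∣ x' - x → (β * n + D1 * x') * e1 - (-(α * n) + e1 * x') * D1 = n ∧
      (∀ r ∈ Pr, ¬ (r : ℤ) ∣ (β * n + D1 * x') - κ r) ∧
      (∀ r ∈ Pl, ¬ (r : ℤ) ∣ (-(α * n) + e1 * x') - κ r) := by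
    intro x' hx'
    have hd : ∀ r ∈ Pr ∪ Pl, (r : ℤ) ∣ x' - x := fun r hr =>
      (Finset.dvd_prod_of_mem (fun r : ℕ => (r : ℤ)) hr).trans hx'
    refine ⟨by linear_combination n * hab, fun r hr => ?_, fun r hr => ?_⟩
    · have hm := Finset.mem_union_left Pl hr
      have h3 := hx r hm
      rw [if_pos hr] at h3
      refine ht1 r hr x' ?_
      have := dvd_add (hd r hm) h3
      rwa [sub_add_sub_cancel] at this
    · have hm := Finset.mem_union_right Pr hr
      have h3 := hx r hm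
      have hnr : r ∉ Pr := fun h => (Finset.disjoint_left.1 hdis) h hr
      rw [if_neg hnr] at h3
      refine ht2 r hr x' ?_
      have := dvd_add (hd r hm) h3
      rwa [sub_add_sub_cancel] at this
  by_cases hz : X * (β * n + D1 * x) + Y * (-(α * n) + e1 * x) + Z = 0
  · obtain ⟨m1, m2, m3⟩ := main (x + M) (by rw [add_sub_cancel_left])
    refine ⟨_, _, m1, m2, m3, ?_⟩
    intro h3
    have h4 : (X * D1 + Y * e1) * M = 0 := by linear_combination h3 - hz
    rcases mul_eq_zero.1 h4 with h | h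
    · exact hXY h
    · exact hM0 h
  · obtain ⟨m1, m2, m3⟩ := main x (by rw [sub_self]; exact dvd_zero _)
    exact ⟨_, _, m1, m2, m3, hz⟩

/-! ## Products of primes -/

theorem four_pow_le (T : Finset ℕ) (hT : ∀ r ∈ T, r.Prime) : 3 * 4 ^ T.card ≤ 8 * ∏ r ∈ T, r := by
  classical
  have h1 := Finset.prod_filter_mul_prod_filter_not T (fun r => r < 5) (fun r => r)
  have h2 := Finset.card_filter_add_card_filter_not (s := T) (fun r => r < 5)
  have h3 : 4 ^ (T.filter (fun r => ¬ r < 5)).card ≤ ∏ r ∈ T.filter (fun r => ¬ r < 5), r := by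
    rw [← Finset.prod_const]
    refine Finset.prod_le_prod' fun r hr => ?_
    simp only [Finset.mem_filter] at hr
    omega
  have h4 : T.filter (fun r => r < 5) ⊆ ({2, 3} : Finset ℕ) := by
    intro r hr
    simp only [Finset.mem_filter] at hr
    have hp := hT r hr.1
    have hr5 := hr.2
    have h5 := hp.two_le
    have h6 : r ≠ 4 := by rintro rfl; exact absurd hp (by norm_num)
    simp only [Finset.mem_insert, Finset.mem_singleton]
    omega
  have h5 : ∀ U ∈ ({2, 3} : Finset ℕ).powerset, 3 * 4 ^ U.card ≤ 8 * ∏ r ∈ U, r := by decide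
  have h6 := h5 _ (Finset.mem_powerset.2 h4)
  rw [← h1, ← h2, pow_add]
  calc 3 * (4 ^ (T.filter (fun r => r < 5)).card * 4 ^ (T.filter (fun r => ¬ r < 5)).card)
      = (3 * 4 ^ (T.filter (fun r => r < 5)).card) * 4 ^ (T.filter (fun r => ¬ r < 5)).card := by
        ring
    _ ≤ (8 * ∏ r ∈ T.filter (fun r => r < 5), r) * ∏ r ∈ T.filter (fun r => ¬ r < 5), r :=
        Nat.mul_le_mul h6 h3
    _ = _ := by ring

theorem prod_primes_int {T : Finset ℕ} (hT : ∀ r ∈ T, r.Prime) {x : ℤ}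
    (h : ∀ r ∈ T, (r : ℤ) ∣ x) : ((∏ r ∈ T, r : ℕ) : ℤ) ∣ x := by
  have h1 : (∏ r ∈ T, r) ∣ x.natAbs := by
    refine Finset.prod_primes_dvd _ (fun r hr => (hT r hr).prime) fun r hr => ?_
    have := h r hr
    rwa [← Int.natAbs_dvd_natAbs, Int.natAbs_natCast] at this
  rw [← Int.natAbs_dvd_natAbs, Int.natAbs_natCast]
  exact h1

theorem prod_primes_squarefree {T : Finset ℕ} (hT : ∀ r ∈ T, r.Prime) :
    ¬ (4 : ℕ) ∣ ∏ r ∈ T, r := by
  classical
  intro h
  by_cases h2 : 2 ∈ T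
  · rw [← Finset.mul_prod_erase T (fun r => r) h2] at h
    have h3 : (2 : ℕ) ∣ ∏ r ∈ T.erase 2, r := by
      have : (2 : ℕ) * 2 ∣ 2 * ∏ r ∈ T.erase 2, r := h
      exact (Nat.mul_dvd_mul_iff_left (by norm_num)).1 this
    rw [Nat.prime_two.prime.dvd_finsetProd_iff] at h3
    obtain ⟨r, hr, h4⟩ := h3
    have h5 := (Nat.prime_dvd_prime_iff_eq Nat.prime_two (hT r (Finset.mem_of_mem_erase hr))).1 h4
    exact (Finset.ne_of_mem_erase hr) h5.symm
  · have h3 : (2 : ℕ) ∣ ∏ r ∈ T, r := (by norm_num : (2 : ℕ) ∣ 4).trans h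
    rw [Nat.prime_two.prime.dvd_finsetProd_iff] at h3
    obtain ⟨r, hr, h4⟩ := h3
    have h5 := (Nat.prime_dvd_prime_iff_eq Nat.prime_two (hT r hr)).1 h4
    exact h2 (h5 ▸ hr)

/-! ## The window -/

theorem exists_window {Φ0 G M0 : ℤ} (hG : 0 < G) (T : Finset ℕ) (hT : ∀ r ∈ T, r.Prime)
    (a : ℕ → ℤ) (hM : G * 2 ^ T.card < M0) :
    ∃ n : ℤ, |Φ0 + 2 * G * n| < M0 ∧ ∀ r ∈ T, ¬ (r : ℤ) ∣ n - a r := by
  obtain ⟨x0, hx0⟩ := crt_finset T hT (fun r => a r + 1)
  have h0 : ∀ r ∈ T, ¬ (r : ℤ) ∣ x0 - a r := by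
    intro r hr h1
    have h2 := dvd_sub h1 (hx0 r hr)
    have e1 : x0 - a r - (x0 - (a r + 1)) = 1 := by ring
    rw [e1] at h2
    exact (Nat.prime_iff_prime_int.1 (hT r hr)).not_isUnit (isUnit_of_dvd_one h2)
  set s : ℤ := (-M0 - Φ0) / (2 * G) + 1 with hs
  have h1 : 2 * G * (s - 1) ≤ -M0 - Φ0 := by
    rw [hs, add_sub_cancel_right]
    exact Int.mul_ediv_self_le (by linarith)
  have h2 : -M0 - Φ0 < 2 * G * s := by
    rw [hs]
    have := Int.lt_mul_ediv_self_add (x := -M0 - Φ0) (k := 2 * G) (by linarith)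
    linarith
  obtain ⟨x, hx1, hx2, hx3⟩ := Asy.exists_avoid T (fun r => (r : ℤ)) a
    (fun r hr => by exact_mod_cast (hT r hr).pos) h0 s
  refine ⟨x, ?_, hx3⟩
  rw [abs_lt]
  constructor
  · have : 2 * G * s ≤ 2 * G * x := mul_le_mul_of_nonneg_left hx1 (by linarith)
    linarith
  · have h3 : x ≤ s + 2 ^ T.card - 1 := by linarith
    have h4 : 2 * G * x ≤ 2 * G * (s + 2 ^ T.card - 1) :=
      mul_le_mul_of_nonneg_left h3 (by linarith)
    have e1 : 2 * G * (s + 2 ^ T.card - 1) = 2 * G * (s - 1) + 2 * (G * 2 ^ T.card) := by ring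
    linarith

theorem main_ineq {A b e a G D1 e1 : ℤ} (hA : 0 < A) (hAb : A < b) (he : 3 * A ≤ e)
    (har : A * a = b * e) (hG : 0 < G) (hD : a + b - A - e = G * D1) (he1 : e = G * e1)
    (T : Finset ℕ) (hT : ∀ r ∈ T, r.Prime) (hTd : ∀ r ∈ T, (r : ℤ) ∣ D1 * e1) :
    G * 2 ^ T.card < e - A + a - b := by
  obtain ⟨D, hD0⟩ : ∃ D, D = a + b - A - e := ⟨_, rfl⟩
  obtain ⟨M, hM0⟩ : ∃ M, M = e - A + a - b := ⟨_, rfl⟩
  have e0 : 0 < e := by linarith
  have k1 : A * D = (b - A) * (A + e) := by rw [hD0]; linear_combination har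
  have k2 : A * M = (b + A) * (e - A) := by rw [hM0]; linear_combination har
  have Dpos : 0 < D := by
    have h1 : 0 < A * D := by rw [k1]; exact mul_pos (by linarith) (by linarith)
    exact (mul_pos_iff_of_pos_left hA).1 h1
  have Mpos : 0 < M := by
    have h1 : 0 < A * M := by rw [k2]; exact mul_pos (by linarith) (by linarith)
    exact (mul_pos_iff_of_pos_left hA).1 h1
  have hGD : D = G * D1 := by rw [hD0]; exact hD
  have D1pos : 0 < D1 := by rw [hGD] at Dpos; exact (mul_pos_iff_of_pos_left hG).1 Dpos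
  have e1pos : 0 < e1 := by rw [he1] at e0; exact (mul_pos_iff_of_pos_left hG).1 e0
  have hpos : 0 < D1 * e1 := mul_pos D1pos e1pos
  have hPd := prod_primes_int hT hTd
  set P : ℕ := ∏ r ∈ T, r with hP
  have hPle := Int.le_of_dvd hpos hPd
  have h4 : 3 * 4 ^ T.card ≤ 8 * (P : ℤ) := by exact_mod_cast four_pow_le T hT
  have key : A ^ 2 * (3 * M ^ 2 - 8 * (D * e)) =
      8 * A * (b - A) * ((2 * e - A) * (e - 3 * A)) + 3 * ((b - 3 * A) ^ 2 * (e - A) ^ 2) := by
    linear_combination (3 * (A * M + (b + A) * (e - A))) * k2 - (8 * A * e) * k1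
  by_contra hn
  push Not at hn
  rw [← hM0] at hn
  -- all inequalities are equalities
  have h5 : M ^ 2 ≤ (G * 2 ^ T.card) ^ 2 := pow_le_pow_left₀ Mpos.le hn 2
  have h6 : (G * 2 ^ T.card) ^ 2 = G ^ 2 * 4 ^ T.card := by
    rw [mul_pow, ← pow_mul, mul_comm T.card 2, pow_mul]; norm_num
  have h7 : D * e = G ^ 2 * (D1 * e1) := by rw [hGD, he1]; ring
  have G2 : 0 < G ^ 2 := by positivity
  have h8 : 3 * M ^ 2 ≤ 8 * (G ^ 2 * P) := by
    have := mul_le_mul_of_nonneg_left h4 G2.le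
    nlinarith
  have h9 : G ^ 2 * (P : ℤ) ≤ G ^ 2 * (D1 * e1) := mul_le_mul_of_nonneg_left hPle G2.le
  have x1 : 0 ≤ 8 * A * (b - A) * ((2 * e - A) * (e - 3 * A)) := by
    have a1 : 0 ≤ b - A := by linarith
    have a2 : 0 ≤ 2 * e - A := by linarith
    have a3 : 0 ≤ e - 3 * A := by linarith
    positivity
  have x2 : 0 ≤ 3 * ((b - 3 * A) ^ 2 * (e - A) ^ 2) := by positivity
  have x3 : 3 * M ^ 2 - 8 * (D * e) ≤ 0 := by rw [h7]; linarith
  have x4 : A ^ 2 * (3 * M ^ 2 - 8 * (D * e)) ≤ 0 :=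
    mul_nonpos_of_nonneg_of_nonpos (by positivity) x3
  have x5 : 8 * A * (b - A) * ((2 * e - A) * (e - 3 * A)) = 0 := by linarith
  have x6 : 3 * ((b - 3 * A) ^ 2 * (e - A) ^ 2) = 0 := by linarith
  have x7 : e = 3 * A := by
    rcases mul_eq_zero.1 x5 with h | h
    · have : 0 < 8 * A * (b - A) := by
        have : 0 < b - A := by linarith
        positivity
      omega
    · rcases mul_eq_zero.1 h with h | h <;> linarith
  have x8 : b = 3 * A := by
    rcases mul_eq_zero.1 x6 with h | h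
    · norm_num at h
    · rcases mul_eq_zero.1 h with h | h
      · have := pow_eq_zero_iff (two_ne_zero) |>.1 h
        linarith
      · have := pow_eq_zero_iff (two_ne_zero) |>.1 h
        linarith
  have x9 : 3 * M ^ 2 - 8 * (D * e) = 0 := by
    rw [x5, x6, add_zero] at key
    rcases mul_eq_zero.1 key with h | h
    · have : 0 < A ^ 2 := by positivity
      omega
    · exact h
  have y1 : G ^ 2 * (D1 * e1) ≤ G ^ 2 * P := by
    rw [h7] at x9; linarith
  have y2 : D1 * e1 = P := le_antisymm (le_of_mul_le_mul_left y1 G2) hPle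
  have y3 : A * D = 8 * A * A := by rw [k1, x7, x8]; ring
  have y4 : D = 8 * A := by
    have : A * (D - 8 * A) = 0 := by linear_combination y3
    rcases mul_eq_zero.1 this with h | h <;> linarith
  have y5 : 3 * D1 = 8 * e1 := by
    have : G * (3 * D1 - 8 * e1) = 0 := by
      linear_combination (-3 : ℤ) * hGD + 3 * y4 + 8 * he1 - 8 * x7
    rcases mul_eq_zero.1 this with h | h <;> linarith
  have y6 : (4 : ℤ) ∣ D1 := by omega
  have y7 : (4 : ℤ) ∣ (P : ℤ) := by rw [← y2]; exact y6.mul_right _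
  exact prod_primes_squarefree hT (by exact_mod_cast y7)

/-- exits which avoid classes -/
theorem exists_rl {A b e f a : ℤ} (hA : 0 < A) (hAb : A < b) (he : 3 * A ≤ e)
    (har : A * a = b * e) (Pr Pl : Finset ℕ)
    (hPr : ∀ r ∈ Pr, r.Prime) (hPl : ∀ r ∈ Pl, r.Prime) (hdis : Disjoint Pr Pl) (κ : ℕ → ℤ) :
    ∃ ρ l : ℤ, |2 * f + 2 * ρ * e - (1 + 2 * l) * (a + b - A - e)| < e - A + a - b ∧
      (∀ r ∈ Pr, ¬ (r : ℤ) ∣ ρ - κ r) ∧ (∀ r ∈ Pl, ¬ (r : ℤ) ∣ l - κ r) ∧
      (1 + 2 * l) * A + (ρ + (1 + 2 * l)) * e + f ≠ 0 := by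
  classical
  obtain ⟨D, hD⟩ : ∃ D, D = a + b - A - e := ⟨_, rfl⟩
  have k1 : A * D = (b - A) * (A + e) := by rw [hD]; linear_combination har
  have Dpos : 0 < D := by
    have h1 : 0 < A * D := by rw [k1]; exact mul_pos (by linarith) (by linarith)
    exact (mul_pos_iff_of_pos_left hA).1 h1
  have e0 : 0 < e := by linarith
  obtain ⟨g, D1, e1, hg, hco, hD1, he1⟩ := Int.exists_gcd_one' (m := D) (n := e)
    (Int.gcd_pos_of_ne_zero_left _ Dpos.ne')
  have hg' : (0 : ℤ) < g := by exact_mod_cast hg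
  have hco' := (Int.isCoprime_iff_gcd_eq_one (m := D1) (n := e1)).2 hco
  have D1pos : 0 < D1 := by rw [hD1] at Dpos; exact (mul_pos_iff_of_pos_right hg').1 Dpos
  have e1pos : 0 < e1 := by rw [he1] at e0; exact (mul_pos_iff_of_pos_right hg').1 e0
  set T : Finset ℕ := Pr.filter (fun r : ℕ => (r : ℤ) ∣ D1) ∪ Pl.filter (fun r : ℕ => (r : ℤ) ∣ e1)
    with hT
  have hTp : ∀ r ∈ T, r.Prime := by
    intro r hr
    rcases Finset.mem_union.1 hr with h | h
    · exact hPr r (Finset.mem_filter.1 h).1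
    · exact hPl r (Finset.mem_filter.1 h).1
  have hTd : ∀ r ∈ T, (r : ℤ) ∣ D1 * e1 := by
    intro r hr
    rcases Finset.mem_union.1 hr with h | h
    · exact (Finset.mem_filter.1 h).2.mul_right _
    · exact (Finset.mem_filter.1 h).2.mul_left _
  have hM := main_ineq hA hAb he har hg' (D1 := D1) (e1 := e1) (by rw [← hD, hD1]; ring)
    (by rw [he1]; ring) T hTp hTd
  obtain ⟨n, hn1, hn2⟩ := exists_window (Φ0 := 2 * f - D) hg' T hTp
    (fun r => if r ∈ Pr then κ r * e1 else -(κ r * D1)) hM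
  obtain ⟨ρ, l, m1, m2, m3, m4⟩ := crt_pair (n := n) hco' Pr Pl hPr hPl hdis κ
    (fun r hr hrd => by
      have := hn2 r (Finset.mem_union_left _ (Finset.mem_filter.2 ⟨hr, hrd⟩))
      rwa [if_pos hr] at this)
    (fun r hr hrd => by
      have := hn2 r (Finset.mem_union_right _ (Finset.mem_filter.2 ⟨hr, hrd⟩))
      rw [if_neg (fun h => (Finset.disjoint_left.1 hdis) h hr), sub_neg_eq_add] at this
      exact this)
    (X := e) (Y := 2 * (A + e)) (Z := A + e + f) (by positivity)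
  refine ⟨ρ, l, ?_, m2, m3, ?_⟩
  · have e2 : 2 * f + 2 * ρ * e - (1 + 2 * l) * (a + b - A - e) = 2 * f - D + 2 * g * n := by
      rw [← hD, ← m1]
      linear_combination (2 * ρ) * he1 - (2 * l) * hD1
    rw [e2]; exact hn1
  · intro h
    apply m4
    linear_combination h

theorem lex_of_abs {A b e f a ρ l : ℤ} (hA : 0 < A) (hAb : A ≤ b) (he : A ≤ e)
    (har : A * a = b * e)
    (h : |2 * f + 2 * ρ * e - (1 + 2 * l) * (a + b - A - e)| < e - A + a - b) :
    LEx A b e f a (1 + 2 * l) (ρ + (1 + 2 * l)) := by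
  have h0 : 0 ≤ a + A - e - b := by
    have h1 : A * (a + A - e - b) = (b - A) * (e - A) := by linear_combination har
    by_contra hn
    push Not at hn
    have h2 := mul_neg_of_pos_of_neg hA hn
    have h3 : 0 ≤ (b - A) * (e - A) := mul_nonneg (by linarith) (by linarith)
    linarith
  rw [abs_lt] at h
  obtain ⟨h1, h2⟩ := h
  by_cases hc : e + f + ρ * e - l * (a + b - A - e) ≤ a
  · refine ⟨1, -l, Or.inl rfl, by ring, ?_, ?_⟩
    · have e1 : (1 : ℤ) * ((ρ + (1 + 2 * l) + -l) * e + (f + -l * (a + b - A))) =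
          e + f + ρ * e - l * (a + b - A - e) := by ring
      rw [e1]; linarith
    · have e1 : (1 : ℤ) * ((ρ + (1 + 2 * l) + -l) * e + (f + -l * (a + b - A))) =
          e + f + ρ * e - l * (a + b - A - e) := by ring
      rw [e1]; exact hc
  · push Not at hc
    refine ⟨-1, -1 - l, Or.inr rfl, by ring, ?_, ?_⟩
    · have e1 : (-1 : ℤ) * ((ρ + (1 + 2 * l) + (-1 - l)) * e + (f + (-1 - l) * (a + b - A))) =
          e - f - ρ * e + (1 + l) * (a + b - A - e) := by ring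
      rw [e1]; linarith
    · have e1 : (-1 : ℤ) * ((ρ + (1 + 2 * l) + (-1 - l)) * e + (f + (-1 - l) * (a + b - A))) =
          e - f - ρ * e + (1 + l) * (a + b - A - e) := by ring
      rw [e1]; linarith

end Pool.Agent.H4G
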