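import Pool.Agent.H4G.Arith.LClass
import Pool.Agent.H4G.Arith.CaseD

/-!
# Good exits (helper23)

Good exits of an ExtB state lead to `b ∣ e - A`, `b ∣ f + τ A`, `b² ∣ a - b`.
-/

set_option autoImplicit false

namespace Pool.Agent.H4G

/-- the conditions on `B = gcd (L' × u₁)` -/
structure GoodB (A b c e a a' B : ℤ) : Prop where
  W : ∀ r : ℕ, r.Prime → (r : ℤ) ∣ c → (r : ℤ) ∣ a' → ¬ (r : ℤ) ∣ B
  T : ∀ r : ℕ, r.Prime → r ≠ 2 → (r : ℤ) ∣ e → ¬ (r : ℤ) ∣ A → ¬ (r : ℤ) ∣ c → (r : ℤ) ∣ a' →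
    ∀ k : ℕ, (r : ℤ) ^ k ∣ B → (r : ℤ) ^ k ∣ A + b
  T2 : (4 : ℤ) ∣ e → ¬ (2 : ℤ) ∣ A → ¬ (2 : ℤ) ∣ c → (2 : ℤ) ∣ a' →
    ∀ k : ℕ, (2 : ℤ) ^ (k + 2) ∣ B → (2 : ℤ) ^ (k + 1) ∣ A + b
  R : ∀ r : ℕ, r.Prime → (r : ℤ) ∣ a' → (∃ m : ℕ, (r : ℤ) ^ m ∣ a + b ∧ ¬ (r : ℤ) ^ m ∣ b) →
    ∀ k : ℕ, (r : ℤ) ^ k ∣ B → (r : ℤ) ^ k ∣ A + b

theorem GoodB.mono {A b c e a a' B B0 : ℤ} (h : GoodB A b c e a a' B0) (hd : B ∣ B0) :
    GoodB A b c e a a' B :=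
  ⟨fun r hr h1 h2 h3 => h.W r hr h1 h2 (h3.trans hd),
    fun r hr h2 h3 h4 h5 h6 k hk => h.T r hr h2 h3 h4 h5 h6 k (hk.trans hd),
    fun h3 h4 h5 h6 k hk => h.T2 h3 h4 h5 h6 k (hk.trans hd),
    fun r hr h1 h2 k hk => h.R r hr h1 h2 k (hk.trans hd)⟩

/-- a value which catches all bad exits -/
theorem exists_class {α : Type*} (bad : α → Prop) (val : α → ℤ) (d : ℤ)
    (h : ∀ x y, bad x → bad y → d ∣ val x - val y) : ∃ κ : ℤ, ∀ x, bad x → d ∣ val x - κ := by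
  by_cases hb : ∃ y, bad y
  · obtain ⟨y, hy⟩ := hb
    exact ⟨val y, fun x hx => h x y hx hy⟩
  · exact ⟨0, fun x hx => absurd ⟨x, hx⟩ hb⟩

/-- the bad classes of an ExtB state -/
theorem ExtB.exists_kappa {S : PSt} {a' b c : ℤ} (h : ExtB S a' b c) {l p l' p' : Z2}
    (ad : Ad S l p l' p') (hfull : S.Full) : ∃ κ : ℕ → ℤ, ∀ ρ t : ℤ,
      (∀ r : ℕ, r.Prime → (r : ℤ) ∣ cr S.u S.v + cr S.u l → (r : ℤ) ∣ a' →
        ¬ (r : ℤ) ∣ ρ - κ r) →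
      (∀ r : ℕ, r.Prime → (r : ℤ) ∣ cr S.u l → ¬ (r : ℤ) ∣ cr S.u S.v → (r : ℤ) ∣ a' →
        ¬ (r : ℤ) ∣ t - κ r) →
      ∀ B : ℤ, IsC S.L' (S.u + (1 + 2 * t) • S.v + (ρ + (1 + 2 * t)) • l + p) B →
        GoodB (cr S.u S.v) b c (cr S.u l) (cr p l) a' B := by
  have E1 : cr p S.v = b := ad.isC.unique h.hb
  have E2 : cr S.u p' = c := ad.isC'.unique h.hc
  have hA0 : 0 < cr S.u S.v := ad.hA
  have he0 : 0 < cr S.u l := ad.h2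
  have hb0 : 0 < b := h.bpos
  have area := ad.area
  rw [E1] at area
  have hKint := h.K_int ad
  -- the product with `v`
  have hw : ∀ x : ℤ × ℤ, cr (S.u + (1 + 2 * x.2) • S.v + (x.1 + (1 + 2 * x.2)) • l + p) S.v =
      cr S.u S.v + b := by
    intro x
    simp only [cr_add_left, cr_smul_left, cr_self]
    rw [ad.h1, E1]; ring
  set w : ℤ × ℤ → Z2 := fun x => S.u + (1 + 2 * x.2) • S.v + (x.1 + (1 + 2 * x.2)) • l + p with hwdef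
  have hodd : ∀ t : ℤ, ¬ (2 : ℤ) ∣ 1 + 2 * t := fun t => by omega
  -- the classes
  have cW : ∀ r : ℕ, r.Prime → (r : ℤ) ∣ c → (r : ℤ) ∣ a' → ∃ κ : ℤ, ∀ x : ℤ × ℤ,
      (∀ z ∈ S.L', (r : ℤ) ∣ cr (w x) z) → (r : ℤ) ∣ x.1 - κ := by
    intro r hr h1 h2
    refine exists_class _ (fun x : ℤ × ℤ => x.1) _ fun x y hx hy => ?_
    have := h.clsW ad hfull hr h1 h2 hx hy
    have e1 : x.1 + (1 + 2 * x.2) - (1 + 2 * x.2) - (y.1 + (1 + 2 * y.2) - (1 + 2 * y.2)) =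
        x.1 - y.1 := by ring
    rwa [e1] at this
  have cR : ∀ r : ℕ, r.Prime → ¬ (r : ℤ) ∣ c → (r : ℤ) ∣ a' →
      (∃ m : ℕ, (r : ℤ) ^ m ∣ cr p l + b ∧ ¬ (r : ℤ) ^ m ∣ b) →
      (r : ℤ) ∣ cr S.u S.v + cr S.u l ∧ ∃ κ : ℤ, ∀ x : ℤ × ℤ,
      (∃ k : ℕ, (∀ z ∈ S.L', (r : ℤ) ^ k ∣ cr (w x) z) ∧ ¬ (r : ℤ) ^ k ∣ cr S.u S.v + b) →
        (r : ℤ) ∣ x.1 - κ := by
    intro r hr hrc _ hm
    obtain ⟨m, hm1, hm2⟩ := hm
    obtain ⟨s, A0, hs, hA0'⟩ := exists_pow_mul hr hA0.ne'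
    obtain ⟨t, b0, ht, hb0'⟩ := exists_pow_mul hr hb0.ne'
    have hri := Nat.prime_iff_prime_int.1 hr
    have htm : t < m := by
      by_contra hn
      push Not at hn
      exact hm2 (by rw [ht]; exact (pow_dvd_pow _ hn).mul_right _)
    have hAe : (r : ℤ) ^ (s + 1) ∣ cr S.u S.v + cr S.u l := by
      have h1 : (r : ℤ) ^ (t + 1) * (r : ℤ) ^ s ∣ b * (cr S.u S.v + cr S.u l) := by
        have e1 : b * (cr S.u S.v + cr S.u l) = (cr p l + b) * cr S.u S.v := by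
          linear_combination -area
        rw [e1]
        refine mul_dvd_mul ((pow_dvd_pow _ (by omega)).trans hm1) ?_
        rw [hs]; exact dvd_mul_right _ _
      have h2 : (r : ℤ) ^ t * (r : ℤ) ^ (s + 1) ∣
          (r : ℤ) ^ t * (b0 * (cr S.u S.v + cr S.u l)) := by
        have e1 : (r : ℤ) ^ t * (r : ℤ) ^ (s + 1) = (r : ℤ) ^ (t + 1) * (r : ℤ) ^ s := by ring
        have e2 : (r : ℤ) ^ t * (b0 * (cr S.u S.v + cr S.u l)) =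
            b * (cr S.u S.v + cr S.u l) := by
          conv_rhs => rw [ht]
          ring
        rw [e1, e2]; exact h1
      have h3 := (mul_dvd_mul_iff_left (pow_ne_zero _ hri.ne_zero)).1 h2
      exact pow_dvd_of_mul hr h3 hb0'
    refine ⟨(dvd_pow_self _ (by omega)).trans hAe, ?_⟩
    refine exists_class _ (fun x : ℤ × ℤ => x.1) _ fun x y hx hy => ?_
    obtain ⟨k, hk1, hk2⟩ := hx
    obtain ⟨k', hk1', hk2'⟩ := hy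
    obtain ⟨n, hn1, hn2, hn3⟩ : ∃ n : ℕ, n ≤ k ∧ n ≤ k' ∧ ¬ (r : ℤ) ^ n ∣ cr S.u S.v + b := by
      rcases le_total k k' with h9 | h9
      · exact ⟨k, le_rfl, h9, hk2⟩
      · exact ⟨k', h9, le_rfl, hk2'⟩
    have := clsR ad hr hs hA0' hAe (by rw [E2]; exact hrc) (m := n)
      (q := 1 + 2 * x.2) (τ := x.1 + (1 + 2 * x.2)) (q1 := 1 + 2 * y.2)
      (τ1 := y.1 + (1 + 2 * y.2)) (by rw [hw x]; exact hn3)
      (fun z hz => (pow_dvd_pow _ hn1).trans (hk1 z hz))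
      (fun z hz => (pow_dvd_pow _ hn2).trans (hk1' z hz))
    have e1 : x.1 + (1 + 2 * x.2) - (1 + 2 * x.2) - (y.1 + (1 + 2 * y.2) - (1 + 2 * y.2)) =
        x.1 - y.1 := by ring
    rwa [e1] at this
  have cT : ∀ r : ℕ, r.Prime → r ≠ 2 → (r : ℤ) ∣ cr S.u l → ¬ (r : ℤ) ∣ cr S.u S.v →
      ¬ (r : ℤ) ∣ c → ∃ κ : ℤ, ∀ x : ℤ × ℤ,
      (∃ k : ℕ, (∀ z ∈ S.L', (r : ℤ) ^ k ∣ cr (w x) z) ∧ ¬ (r : ℤ) ^ k ∣ cr S.u S.v + b) →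
        (r : ℤ) ∣ x.2 - κ := by
    intro r hr hr2 hre hrA hrc
    refine exists_class _ (fun x : ℤ × ℤ => x.2) _ fun x y hx hy => ?_
    obtain ⟨k, hk1, hk2⟩ := hx
    obtain ⟨k', hk1', hk2'⟩ := hy
    obtain ⟨n, hn1, hn2, hn3⟩ : ∃ n : ℕ, n ≤ k ∧ n ≤ k' ∧ ¬ (r : ℤ) ^ n ∣ cr S.u S.v + b := by
      rcases le_total k k' with h9 | h9
      · exact ⟨k, le_rfl, h9, hk2⟩
      · exact ⟨k', h9, le_rfl, hk2'⟩
    have := clsT ad hr hre hrA (by rw [E2]; exact hrc) (m := n)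
      (q := 1 + 2 * x.2) (τ := x.1 + (1 + 2 * x.2)) (q1 := 1 + 2 * y.2)
      (τ1 := y.1 + (1 + 2 * y.2)) (by rw [hw x]; exact hn3)
      (fun z hz => (pow_dvd_pow _ hn1).trans (hk1 z hz))
      (fun z hz => (pow_dvd_pow _ hn2).trans (hk1' z hz))
    have e1 : 1 + 2 * x.2 - (1 + 2 * y.2) = 2 * (x.2 - y.2) := by ring
    rw [e1] at this
    refine p_dvd_mul hr this fun h9 => hr2 ?_
    have h10 : r ∣ 2 := by exact_mod_cast h9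
    exact (Nat.prime_dvd_prime_iff_eq hr Nat.prime_two).1 h10
  have cT2 : (4 : ℤ) ∣ cr S.u l → ¬ (2 : ℤ) ∣ cr S.u S.v → ¬ (2 : ℤ) ∣ c → ∃ κ : ℤ,
      ∀ x : ℤ × ℤ, (∃ k : ℕ, (∀ z ∈ S.L', (2 : ℤ) ^ (k + 2) ∣ cr (w x) z) ∧
        ¬ (2 : ℤ) ^ (k + 1) ∣ cr S.u S.v + b) → (2 : ℤ) ∣ x.2 - κ := by
    intro hre hrA hrc
    refine exists_class _ (fun x : ℤ × ℤ => x.2) _ fun x y hx hy => ?_
    obtain ⟨k, hk1, hk2⟩ := hx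
    obtain ⟨k', hk1', hk2'⟩ := hy
    obtain ⟨n, hn1, hn2, hn3⟩ : ∃ n : ℕ, n ≤ k + 1 ∧ n ≤ k' + 1 ∧
        ¬ (2 : ℤ) ^ n ∣ cr S.u S.v + b := by
      rcases le_total k k' with h9 | h9
      · exact ⟨k + 1, le_rfl, by omega, hk2⟩
      · exact ⟨k' + 1, by omega, le_rfl, hk2'⟩
    have := clsT2 ad hre hrA (by rw [E2]; exact hrc) (m := n)
      (q := 1 + 2 * x.2) (τ := x.1 + (1 + 2 * x.2)) (q1 := 1 + 2 * y.2)
      (τ1 := y.1 + (1 + 2 * y.2)) (hodd _) (hodd _) (by rw [hw x]; exact hn3)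
      (fun z hz => (pow_dvd_pow _ (by omega)).trans (hk1 z hz))
      (fun z hz => (pow_dvd_pow _ (by omega)).trans (hk1' z hz))
    have e1 : 1 + 2 * x.2 - (1 + 2 * y.2) = 2 * (x.2 - y.2) := by ring
    rw [e1] at this
    omega
  -- one function
  have cls : ∀ r : ℕ, ∃ κ : ℤ, r.Prime → (r : ℤ) ∣ a' →
      ((r : ℤ) ∣ c → ∀ x : ℤ × ℤ, (∀ z ∈ S.L', (r : ℤ) ∣ cr (w x) z) → (r : ℤ) ∣ x.1 - κ) ∧
      (¬ (r : ℤ) ∣ c → (∃ m : ℕ, (r : ℤ) ^ m ∣ cr p l + b ∧ ¬ (r : ℤ) ^ m ∣ b) →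
        ∀ x : ℤ × ℤ, (∃ k : ℕ, (∀ z ∈ S.L', (r : ℤ) ^ k ∣ cr (w x) z) ∧
          ¬ (r : ℤ) ^ k ∣ cr S.u S.v + b) → (r : ℤ) ∣ x.1 - κ) ∧
      (r ≠ 2 → (r : ℤ) ∣ cr S.u l → ¬ (r : ℤ) ∣ cr S.u S.v → ¬ (r : ℤ) ∣ c →
        ∀ x : ℤ × ℤ, (∃ k : ℕ, (∀ z ∈ S.L', (r : ℤ) ^ k ∣ cr (w x) z) ∧
          ¬ (r : ℤ) ^ k ∣ cr S.u S.v + b) → (r : ℤ) ∣ x.2 - κ) ∧
      (r = 2 → (4 : ℤ) ∣ cr S.u l → ¬ (2 : ℤ) ∣ cr S.u S.v → ¬ (2 : ℤ) ∣ c →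
        ∀ x : ℤ × ℤ, (∃ k : ℕ, (∀ z ∈ S.L', (2 : ℤ) ^ (k + 2) ∣ cr (w x) z) ∧
          ¬ (2 : ℤ) ^ (k + 1) ∣ cr S.u S.v + b) → (2 : ℤ) ∣ x.2 - κ) := by
    intro r
    by_cases hr : r.Prime
    swap
    · exact ⟨0, fun h9 => absurd h9 hr⟩
    by_cases hra : (r : ℤ) ∣ a'
    swap
    · exact ⟨0, fun _ h9 => absurd h9 hra⟩
    by_cases hrc : (r : ℤ) ∣ c
    · obtain ⟨κ, hκ⟩ := cW r hr hrc hra
      refine ⟨κ, fun _ _ => ⟨fun _ => hκ, fun h9 => absurd hrc h9, fun _ _ _ h9 => absurd hrc h9,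
        fun h8 _ _ h9 => ?_⟩⟩
      subst h8
      exact absurd (by exact_mod_cast hrc) h9
    by_cases hm : ∃ m : ℕ, (r : ℤ) ^ m ∣ cr p l + b ∧ ¬ (r : ℤ) ^ m ∣ b
    · obtain ⟨h10, κ, hκ⟩ := cR r hr hrc hra hm
      refine ⟨κ, fun _ _ => ⟨fun h9 => absurd h9 hrc, fun _ _ => hκ, fun _ h9 h8 _ => ?_,
        fun h7 h9 h8 _ => ?_⟩⟩
      · exact absurd (by have := dvd_sub h10 h9; rwa [add_sub_cancel_right] at this) h8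
      · exfalso
        subst h7
        apply h8
        have h11 : (2 : ℤ) ∣ cr S.u l := (by norm_num : (2 : ℤ) ∣ 4).trans h9
        have h12 : (2 : ℤ) ∣ cr S.u S.v + cr S.u l := by exact_mod_cast h10
        have := dvd_sub h12 h11
        rwa [add_sub_cancel_right] at this
    by_cases hr2 : r = 2
    · by_cases h3 : (4 : ℤ) ∣ cr S.u l ∧ ¬ (2 : ℤ) ∣ cr S.u S.v ∧ ¬ (2 : ℤ) ∣ c
      · obtain ⟨κ, hκ⟩ := cT2 h3.1 h3.2.1 h3.2.2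
        exact ⟨κ, fun _ _ => ⟨fun h9 => absurd h9 hrc, fun _ h9 => absurd h9 hm,
          fun h9 => absurd hr2 h9, fun _ _ _ _ => hκ⟩⟩
      · exact ⟨0, fun _ _ => ⟨fun h9 => absurd h9 hrc, fun _ h9 => absurd h9 hm,
          fun h9 => absurd hr2 h9, fun _ h7 h8 h9 => absurd ⟨h7, h8, h9⟩ h3⟩⟩
    · by_cases h3 : (r : ℤ) ∣ cr S.u l ∧ ¬ (r : ℤ) ∣ cr S.u S.v
      · obtain ⟨κ, hκ⟩ := cT r hr hr2 h3.1 h3.2 hrc
        exact ⟨κ, fun _ _ => ⟨fun h9 => absurd h9 hrc, fun _ h9 => absurd h9 hm,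
          fun _ _ _ _ => hκ, fun h9 => absurd h9 hr2⟩⟩
      · exact ⟨0, fun _ _ => ⟨fun h9 => absurd h9 hrc, fun _ h9 => absurd h9 hm,
          fun _ h7 h8 _ => absurd ⟨h7, h8⟩ h3, fun h9 => absurd h9 hr2⟩⟩
  choose κ hκ using cls
  refine ⟨κ, fun ρ t h1 h2 B hB => ?_⟩
  have hBz : ∀ (r k : ℕ), (r : ℤ) ^ k ∣ B → ∀ z ∈ S.L', (r : ℤ) ^ k ∣ cr (w (ρ, t)) z :=
    fun r k hk z hz => hk.trans (hB.2.1 z hz)
  have hcA : ∀ r : ℕ, (r : ℤ) ∣ c → (r : ℤ) ∣ cr S.u S.v + cr S.u l := fun r h9 =>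
    h9.trans hKint
  refine ⟨fun r hr hrc hra hrB => ?_, fun r hr hr2 hre hrA hrc hra k hk => ?_,
    fun hre hrA hrc hra k hk => ?_, fun r hr hra hm k hk => ?_⟩
  · have := (hκ r hr hra).1 hrc (ρ, t) (fun z hz => by
      have := hBz r 1 (by simpa using hrB) z hz
      simpa using this)
    exact h1 r hr (hcA r hrc) hra this
  · by_contra hn
    have := (hκ r hr hra).2.2.1 hr2 hre hrA hrc (ρ, t) ⟨k, hBz r k hk, hn⟩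
    exact h2 r hr hre hrA hra this
  · by_contra hn
    have := (hκ 2 Nat.prime_two (by exact_mod_cast hra)).2.2.2 rfl hre hrA hrc (ρ, t)
      ⟨k, fun z hz => by
        have := hBz 2 (k + 2) (by exact_mod_cast hk) z hz
        exact_mod_cast this, hn⟩
    refine h2 2 Nat.prime_two ?_ (by exact_mod_cast hrA) (by exact_mod_cast hra)
      (by exact_mod_cast this)
    have : (2 : ℤ) ∣ cr S.u l := (by norm_num : (2 : ℤ) ∣ 4).trans hre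
    exact_mod_cast this
  · by_cases hrc : (r : ℤ) ∣ c
    · rcases Nat.eq_zero_or_pos k with hk0 | hk0
      · rw [hk0, pow_zero]; exact one_dvd _
      · exfalso
        have hrB : (r : ℤ) ∣ B := (dvd_pow_self _ (by omega)).trans hk
        have := (hκ r hr hra).1 hrc (ρ, t) (fun z hz => by
          have := hBz r 1 (by simpa using hrB) z hz
          simpa using this)
        exact h1 r hr (hcA r hrc) hra this
    · by_contra hn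
      have := (hκ r hr hra).2.1 hrc hm (ρ, t) ⟨k, hBz r k hk, hn⟩
      exact h1 r hr (cR r hr hrc hra hm).1 hra this

end Pool.Agent.H4G
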