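import Pool.Agent.H4G.Arith.LThin23
import Pool.Agent.H4G.Arith.KVis

/-!
# The left criterion for `K = 3`, `A` odd, `e` even, without the prime two (helper23)

Page of helper9 / helper23, item (P0): an H-frame removes the bad class at `2`.
-/

set_option autoImplicit false

namespace Pool.Agent.H4G

variable {K : ℤ} {S : PSt} {a' b c A a e f Y φ : ℤ} {l p l' p' : Z2}

/-- the left criterion with a condition at `2` -/
theorem KF.left_gen (h : KF K S a' b c A a e f Y φ l p l' p') (hF : S.Full) {N : ℕ}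
    (hN : N.Prime) (hv : a + A + a' = N) (hb3 : 3 ≤ b) (hAc : A < c) (hAb : A < b)
    (he4 : e < 4 * A) {g D1 e1 : ℤ} (hg : 0 < g) (hco : IsCoprime D1 e1)
    (hD : a + b - A - e = g * D1) (he1 : e = g * e1)
    (bad2 : Prop) (hb2 : ¬ bad2 → (4 : ℤ) ∣ e → ¬ (2 : ℤ) ∣ A → ∀ q τ B : ℤ, ¬ (2 : ℤ) ∣ q →
      IsC S.L' (S.u + q • S.v + τ • l + p) B → ∀ k : ℕ, (2 : ℤ) ^ (k + 2) ∣ B →
      (2 : ℤ) ^ (k + 1) ∣ A + b)
    (T : Finset ℕ) (hTp : ∀ r ∈ T, r.Prime)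
    (hW : ∀ r : ℕ, r.Prime → (r : ℤ) ∣ a' → (r : ℤ) ∣ A + e → (¬ (r : ℤ) ∣ A ∨ (r : ℤ) ∣ K) →
      ((r : ℤ) ∣ c ∨ ∃ m : ℕ, (r : ℤ) ^ m ∣ a + b ∧ ¬ (r : ℤ) ^ m ∣ b) → (r : ℤ) ∣ D1 → r ∈ T)
    (hT : ∀ r : ℕ, r.Prime → (r : ℤ) ∣ a' → (r : ℤ) ∣ e → ¬ (r : ℤ) ∣ A →
      (r = 2 → (4 : ℤ) ∣ e ∧ bad2) → (r ≠ 2 → ¬ (r : ℤ) ∣ φ ∨ (r : ℤ) ∣ A + b) → (r : ℤ) ∣ e1 → r ∈ T)
    (hM : g * 2 ^ T.card < e - A + a - b ∨ (g * 2 ^ T.card = e - A + a - b ∧
      ¬ 2 * g ∣ 2 * f - (a + b - A - e) + (e - A + a - b))) : False := by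
  classical
  obtain ⟨κ, hκ⟩ := h.ext.exists_kappaL h.ad hF
  rw [h.hA, h.he, h.ha] at hκ
  have hA0 := h.A0
  have he0 := h.e0
  have hb0 := h.b0
  have ha0 := h.a0
  have hAe0 : A < e := by
    have h1 : 0 < e - A + a - b := by
      have h2 : 0 < g * 2 ^ T.card := by positivity
      rcases hM with h3 | h3
      · linarith
      · linarith [h3.1]
    have h2 : A * (e - A + a - b) = (b + A) * (e - A) := by linear_combination h.aA
    have h3 : 0 < (b + A) * (e - A) := by rw [← h2]; exact mul_pos hA0 h1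
    have h4 := (mul_pos_iff_of_pos_left (by linarith : 0 < b + A)).1 h3
    linarith
  have har : A * a = b * e := by linear_combination h.aA
  -- the sets of primes
  set P1 : ℕ → Prop := fun r => r.Prime ∧ (r : ℤ) ∣ A + e ∧ (r : ℤ) ∣ a' ∧
    (¬ (r : ℤ) ∣ A ∨ (r : ℤ) ∣ K) ∧
    ((r : ℤ) ∣ c ∨ ∃ m : ℕ, (r : ℤ) ^ m ∣ a + b ∧ ¬ (r : ℤ) ^ m ∣ b) with hP1
  set P2 : ℕ → Prop := fun r => r.Prime ∧ (r : ℤ) ∣ e ∧ ¬ (r : ℤ) ∣ A ∧ (r : ℤ) ∣ a' ∧
    (r = 2 → (4 : ℤ) ∣ e ∧ bad2) ∧ (r ≠ 2 → ¬ (r : ℤ) ∣ φ ∨ (r : ℤ) ∣ A + b) with hP2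
  set Pr : Finset ℕ := (A + e).natAbs.primeFactors.filter P1 with hPr
  set Pl : Finset ℕ := e.natAbs.primeFactors.filter P2 with hPl
  have mPr : ∀ r : ℕ, r ∈ Pr ↔ P1 r := by
    intro r
    rw [hPr, Finset.mem_filter, Nat.mem_primeFactors, ← Int.natCast_dvd]
    constructor
    · exact fun h9 => h9.2
    · intro h9
      refine ⟨⟨h9.1, h9.2.1, ?_⟩, h9⟩
      have : 0 < A + e := by linarith
      omega
  have mPl : ∀ r : ℕ, r ∈ Pl ↔ P2 r := by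
    intro r
    rw [hPl, Finset.mem_filter, Nat.mem_primeFactors, ← Int.natCast_dvd]
    constructor
    · exact fun h9 => h9.2
    · intro h9
      refine ⟨⟨h9.1, h9.2.1, ?_⟩, h9⟩
      omega
  have hprr : ∀ r ∈ Pr, r.Prime := fun r hr => ((mPr r).1 hr).1
  have hprl : ∀ r ∈ Pl, r.Prime := fun r hr => ((mPl r).1 hr).1
  have hdis : Disjoint Pr Pl := by
    rw [Finset.disjoint_left]
    intro r h1 h2
    have h3 := ((mPr r).1 h1).2.1
    obtain ⟨_, h4, h5, _⟩ := (mPl r).1 h2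
    apply h5
    have := dvd_sub h3 h4
    rwa [add_sub_cancel_right] at this
  -- the window
  set κT : ℕ → ℤ := fun r => if r ∈ Pr then κ r * e1 else -(κ r * D1) with hκT
  have eκ1 : ∀ r ∈ Pr, κT r = κ r * e1 := fun r hr => if_pos hr
  have eκ2 : ∀ r ∈ Pl, κT r = -(κ r * D1) := fun r hr =>
    if_neg (fun h9 => (Finset.disjoint_left.1 hdis) h9 hr)
  have D1pos : 0 < D1 := by
    have h1 : A * (a + b - A - e) = (b - A) * (A + e) := by linear_combination har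
    have h2 : 0 < a + b - A - e := by
      have h3 : 0 < A * (a + b - A - e) := by rw [h1]; exact mul_pos (by linarith) (by linarith)
      exact (mul_pos_iff_of_pos_left hA0).1 h3
    rw [hD] at h2
    exact (mul_pos_iff_of_pos_left hg).1 h2
  have e1pos : 0 < e1 := by rw [he1] at he0; exact (mul_pos_iff_of_pos_left hg).1 he0
  obtain ⟨n, hn1, hn2⟩ := exists_window' (Φ0 := 2 * f - (a + b - A - e)) hg T hTp κT hM
  obtain ⟨ρ, t, m1, m2, m3, m4⟩ := crt_pair (n := n) hco Pr Pl hprr hprl hdis κ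
    (fun r hr hrd => by
      obtain ⟨k1, k2, k3, k4, k5⟩ := (mPr r).1 hr
      have := hn2 r (hW r k1 k3 k2 k4 k5 hrd)
      rwa [eκ1 r hr] at this)
    (fun r hr hrd => by
      obtain ⟨k1, k2, k3, k4, k5, k6⟩ := (mPl r).1 hr
      have := hn2 r (hT r k1 k4 k2 k3 k5 k6 hrd)
      rwa [eκ2 r hr, sub_neg_eq_add] at this)
    (X := e) (Y := 2 * (A + e)) (Z := A + e + f) (by
      have : 0 < e * D1 + (2 * (A + e)) * e1 := by
        have := mul_pos he0 D1pos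
        have := mul_pos (by linarith : 0 < 2 * (A + e)) e1pos
        linarith
      exact this.ne')
  have hΦ : 2 * f + 2 * ρ * e - (1 + 2 * t) * (a + b - A - e) =
      2 * f - (a + b - A - e) + 2 * g * n := by
    rw [← m1]
    linear_combination (2 * ρ) * he1 - (2 * t) * hD
  have E1 : cr p S.v = b := h.hb
  have hx : LEx (cr S.u S.v) (cr p S.v) (cr S.u l) (cr S.u p) (cr p l) (1 + 2 * t)
      (ρ + (1 + 2 * t)) := by
    rw [E1, h.hA, h.he, h.hf, h.ha]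
    exact lex_of_abs hA0 hAb.le hAe0.le har (by rw [hΦ]; exact hn1)
  obtain ⟨T1, k1, k2, k3, k4, k5, k6⟩ := h.ext.exitT h.ad hx
  obtain ⟨l2, p2, l2', p2', ad2⟩ := exists_Ad k1.ok'
  have hC := ad2.isC'
  rw [k2] at hC
  rw [k5] at hC
  obtain ⟨B, hC⟩ : ∃ B : ℤ,
      IsC S.L' (S.u + (1 + 2 * t) • S.v + (ρ + (1 + 2 * t)) • l + p) B := ⟨_, hC⟩
  obtain ⟨c1, c2, c3, c4⟩ := hκ ρ t _ hC
  have hdz : ∀ (r : ℕ) (k : ℕ), 0 < k → (r : ℤ) ^ k ∣ B →
      ∀ z ∈ S.L', (r : ℤ) ∣ cr (S.u + (1 + 2 * t) • S.v + (ρ + (1 + 2 * t)) • l + p) z :=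
    fun r k hk0 hk z hz => ((dvd_pow_self _ hk0.ne').trans hk).trans (hC.2.1 z hz)
  have hAe : ∀ r : ℕ, (r : ℤ) ∣ c → (r : ℤ) ∣ A + e := fun r h9 => by
    rw [← h.hc]; exact h9.mul_left _
  -- a prime of `Pr` or never bad
  have badW : ∀ r : ℕ, r.Prime → (r : ℤ) ∣ c → (r : ℤ) ∣ a' → ¬ (r : ℤ) ∣ B := by
    intro r hr hrc hra hrB
    by_cases h9 : ¬ (r : ℤ) ∣ A ∨ (r : ℤ) ∣ K
    · exact m2 r ((mPr r).2 ⟨hr, hAe r hrc, hra, h9, Or.inl hrc⟩) (c1 r hr hrc hra hrB)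
    · push Not at h9
      exact h.dropA hN hv hr h9.2 h9.1 hrc _ _ (hdz r 1 one_pos (by simpa using hrB))
  have hgd : GoodB (cr S.u S.v) b c (cr S.u l) (cr p l) a' B := by
    rw [h.hA, h.he, h.ha]
    refine ⟨badW, fun r hr hr2 hre hrA hrc hra k hk => ?_, fun hre hrA hrc hra k hk => ?_,
      fun r hr hra hm k hk => ?_⟩
    · by_contra hn
      have hk0 : 0 < k := by
        rcases Nat.eq_zero_or_pos k with h9 | h9
        · exfalso; apply hn; rw [h9, pow_zero]; exact one_dvd _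
        · exact h9
      by_cases h9 : ¬ (r : ℤ) ∣ φ ∨ (r : ℤ) ∣ A + b
      · exact m3 r ((mPl r).2 ⟨hr, hre, hrA, hra, fun h8 => absurd h8 hr2, fun _ => h9⟩)
          (c3 r hr hr2 hre hrA hrc hra k hk hn)
      · push Not at h9
        exact h.dropT hr hre hrA h9.1 h9.2 _ _ (hdz r k hk0 hk)
    · by_contra hn
      by_cases hbad : bad2
      swap
      · exact hn (hb2 hbad hre hrA _ _ B (by omega) hC k hk)
      have h8 := c4 hre hrA hrc hra k hk hn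
      refine m3 2 ((mPl 2).2 ⟨Nat.prime_two, ?_, by exact_mod_cast hrA, by exact_mod_cast hra,
        fun _ => ⟨hre, hbad⟩, fun h9 => absurd rfl h9⟩) (by exact_mod_cast h8)
      have : (2 : ℤ) ∣ e := (by norm_num : (2 : ℤ) ∣ 4).trans hre
      exact_mod_cast this
    · by_cases hrc : (r : ℤ) ∣ c
      · rcases Nat.eq_zero_or_pos k with hk0 | hk0
        · rw [hk0, pow_zero]; exact one_dvd _
        · exact absurd ((dvd_pow_self _ hk0.ne').trans hk) (badW r hr hrc hra)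
      · by_contra hn
        have hk0 : 0 < k := by
          rcases Nat.eq_zero_or_pos k with h9 | h9
          · exfalso; apply hn; rw [h9, pow_zero]; exact one_dvd _
          · exact h9
        obtain ⟨h8, h7⟩ := c2 r hr hrc hra hm k hk hn
        have h6 : (r : ℤ) ∣ K := by
          rw [← h.hc] at h8
          exact ((Nat.prime_iff_prime_int.1 hr).dvd_or_dvd h8).resolve_right hrc
        exact m2 r ((mPr r).2 ⟨hr, h8, hra, Or.inr h6, Or.inr hm⟩) h7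
  obtain ⟨-, m, hm, hem⟩ := h.ext.good_num hN h.ad (by rw [h.ha, h.hA, h.lp']; exact hv) hb3
    (by rw [h.hA]; exact hAc) hx (by
      rw [h.hA, h.he, h.hf]
      intro h9
      apply m4
      linear_combination h9) hC hgd
  rw [h.hA, h.he] at hem
  have h9 : 3 ≤ b * m := by
    have := mul_le_mul hb3 (show (1 : ℤ) ≤ m by omega) (by norm_num) hb0.le
    linarith
  have h8 := mul_le_mul_of_nonneg_left h9 hA0.le
  rw [hem] at he4
  linarith


/-- the condition at `2` if it is not bad -/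
theorem KF.t2_good (h : KF 3 S a' b c A a e f Y φ l p l' p') (hA2 : ¬ (2 : ℤ) ∣ A)
    (he : (2 : ℤ) ∣ e) (hf : (2 : ℤ) ∣ f)
    (hnb : ∀ s : ℕ, (2 : ℤ) ^ s ∣ φ → ¬ (2 : ℤ) ^ (s + 1) ∣ φ → (2 : ℤ) ^ s ∣ A + b →
      ¬ (2 : ℤ) ^ (s + 1) ∣ A + b → ¬ (2 : ℤ) ^ (s + 2) ∣ Y) :
    ∀ q τ B : ℤ, ¬ (2 : ℤ) ∣ q → IsC S.L' (S.u + q • S.v + τ • l + p) B →
      ∀ k : ℕ, (2 : ℤ) ^ (k + 2) ∣ B → (2 : ℤ) ^ (k + 1) ∣ A + b := by
  intro q τ B hq hC k hk
  have p2 := Nat.prime_two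
  by_contra hn
  have hp' : p' ∈ S.L' := by rw [h.L'_eq]; exact mem_lat.2 ⟨0, 1, by module⟩
  have hl' : l' ∈ S.L' := by rw [h.L'_eq]; exact mem_lat.2 ⟨1, 0, by module⟩
  have hAb0 : A + b ≠ 0 := by
    have := h.A0
    have := h.b0
    linarith
  obtain ⟨s, y, hs, hy⟩ := exists_pow_mul p2 hAb0
  have e2 : ((2 : ℕ) : ℤ) = 2 := rfl
  rw [e2] at hs hy
  have hsk : s ≤ k := by
    by_contra h9
    push Not at h9
    exact hn ((pow_dvd_pow (2 : ℤ) (show k + 1 ≤ s by omega)).trans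
      (by rw [hs]; exact dvd_mul_right _ _))
  have hs1 : ¬ (2 : ℤ) ^ (s + 1) ∣ A + b := by
    intro h9
    rw [hs, pow_succ] at h9
    exact hy ((mul_dvd_mul_iff_left (pow_ne_zero s (two_ne_zero' ℤ))).1 h9)
  obtain ⟨w1, hw1⟩ : ∃ w1, w1 = S.u + q • S.v + τ • l + p := ⟨_, rfl⟩
  rw [← hw1] at hC
  have hX : cr w1 S.u = -(q * A + τ * e + f) := by
    rw [hw1]
    simp only [cr_add_left, cr_smul_left, cr_self]
    rw [cr_swap S.v S.u, cr_swap l S.u, cr_swap p S.u, h.hA, h.he, h.hf]; ring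
  have hXo : ¬ (2 : ℤ) ∣ cr w1 S.u := by
    rw [hX, dvd_neg]
    intro h9
    have h8 : (2 : ℤ) ∣ q * A := by
      have e1 : q * A = (q * A + τ * e + f) - τ * e - f := by ring
      rw [e1]
      exact dvd_sub (dvd_sub h9 (he.mul_left τ)) hf
    rcases Int.prime_two.dvd_or_dvd h8 with h7 | h7
    · exact hq h7
    · exact hA2 h7
  have hcan : ∀ (j : ℕ) (x : ℤ), (2 : ℤ) ^ j ∣ x * cr w1 S.u → (2 : ℤ) ^ j ∣ x := by
    intro j x h9
    rw [mul_comm] at h9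
    have hc : IsCoprime ((2 : ℤ) ^ j) (cr w1 S.u) :=
      ((Int.prime_two.coprime_iff_not_dvd).2 hXo).pow_left
    exact hc.dvd_of_dvd_mul_left h9
  have hcanA : ∀ (j : ℕ) (x : ℤ), (2 : ℤ) ^ j ∣ A * x → (2 : ℤ) ^ j ∣ x := by
    intro j x h9
    have hc : IsCoprime ((2 : ℤ) ^ j) A := ((Int.prime_two.coprime_iff_not_dvd).2 hA2).pow_left
    exact hc.dvd_of_dvd_mul_left h9
  have hAe : ¬ (2 : ℤ) ∣ A + e := fun h9 => hA2 ((dvd_add_left he).1 h9)
  have hcanAe : ∀ (j : ℕ) (x : ℤ), (2 : ℤ) ^ j ∣ (A + e) * x → (2 : ℤ) ^ j ∣ x := by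
    intro j x h9
    have hc : IsCoprime ((2 : ℤ) ^ j) (A + e) :=
      ((Int.prime_two.coprime_iff_not_dvd).2 hAe).pow_left
    exact hc.dvd_of_dvd_mul_left h9
  have hY : (2 : ℤ) ^ (k + 2) ∣ Y := by
    refine hcan _ _ ?_
    have h9 : (2 : ℤ) ^ (k + 2) ∣ 3 * cr w1 l' := (hk.trans (hC.2.1 l' hl')).mul_left _
    rw [← cr_smul_right, h.hl', cr_smul_right] at h9
    exact h9
  have hσ0 : (2 : ℤ) ^ (k + 2) ∣ φ * cr w1 S.u + (A + e + (a + b)) := by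
    have h9 : (2 : ℤ) ^ (k + 2) ∣ 3 * cr w1 p' := (hk.trans (hC.2.1 p' hp')).mul_left _
    rw [← cr_smul_right, h.hp', cr_add_right, cr_smul_right] at h9
    have h2 : cr w1 (S.v + l) = A + e + (a + b) := by
      rw [hw1]
      simp only [cr_add_left, cr_smul_left]
      rw [h.uw, h.pw, h.vw, ← h.hc]
      have : cr l (S.v + l) = 0 := by rw [cr_add_right, cr_self, h.lv]; ring
      rw [this]; ring
    rwa [h2] at h9
  have hσ : A * (A + e + (a + b)) = (A + e) * (A + b) := by linear_combination h.aA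
  have hσs : (2 : ℤ) ^ s ∣ A + e + (a + b) := by
    refine hcanA _ _ ?_
    rw [hσ]
    exact Dvd.dvd.mul_left (by rw [hs]; exact dvd_mul_right _ _) _
  have hφs : (2 : ℤ) ^ s ∣ φ := by
    refine hcan _ _ ?_
    have h9 := dvd_sub ((pow_dvd_pow (2 : ℤ) (by omega : s ≤ k + 2)).trans hσ0) hσs
    rwa [add_sub_cancel_right] at h9
  have hφs1 : ¬ (2 : ℤ) ^ (s + 1) ∣ φ := by
    intro h9
    apply hs1
    refine hcanAe _ _ ?_
    rw [← hσ]
    refine Dvd.dvd.mul_left ?_ _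
    have h8 := dvd_sub ((pow_dvd_pow (2 : ℤ) (by omega : s + 1 ≤ k + 2)).trans hσ0)
      (h9.mul_right (cr w1 S.u))
    rwa [add_sub_cancel_left] at h8
  exact hnb s hφs hφs1 (by rw [hs]; exact dvd_mul_right _ _) hs1
    ((pow_dvd_pow _ (by omega)).trans hY)

/-- a frame after an H-twist with the gap `b` -/
theorem KF.hframe (h : KF K S a' b c A a e f Y φ l p l' p') {i : ℤ}
    (hcon : Con1 (lat l' (p' + i • S.u))) (hgap : IsC S.L (S.v + i • (S.u + l')) b) :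
    ∃ (T : PSt) (f2 φ2 m : ℤ) (l2 p2 l2' p2' : Z2), SEq S T ∧
      KF K T a' b c A a e f2 Y φ2 l2 p2 l2' p2' ∧
      A * φ2 = A * φ + m * (Y * A) + K * i * (A - c - a') := by
  have hA0 := h.A0
  have hb0 := h.b0
  have hc0 := h.c0
  have e4 := h.ad.h4
  have e3 := h.up'
  have e5 := h.lp'
  have h1 : SEq S ⟨S.L, S.u, S.v + i • (S.u + l'), lat l' (p' + i • S.u)⟩ :=
    h.ad.twH h.ext.ok (by rw [e3, h.hA]; exact h.Ac) i
  set T : PSt := ⟨S.L, S.u, S.v + i • (S.u + l'), lat l' (p' + i • S.u)⟩ with hT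
  have hTA : cr T.u T.v = A := by
    show cr S.u (S.v + i • (S.u + l')) = A
    rw [cr_add_right, cr_smul_right, cr_add_right, cr_self, e4, h.hA]; ring
  have hTa' : IsArea T.L' a' := by
    refine ⟨h.a'0, p' + i • S.u, l', ?_, ?_⟩
    · rw [cr_add_right, cr_smul_right, cr_swap l' S.u, e4, e5]; ring
    · show lat l' (p' + i • S.u) = _
      rw [lat_comm]
  have hTc : IsC T.L' T.u c := by
    have h2 : IsC (lat l' (p' + i • S.u)) S.u
        (Int.gcd (cr S.u l') (cr S.u (p' + i • S.u)) : ℕ) := by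
      refine isC_lat (Or.inr ?_)
      rw [cr_add_right, cr_smul_right, cr_self, e3]
      have := hc0.ne'
      simpa using this
    have e6 : cr S.u (p' + i • S.u) = c := by
      rw [cr_add_right, cr_smul_right, cr_self, e3]; ring
    rw [e4, e6, Int.gcd_zero_left] at h2
    have e7 : ((c.natAbs : ℕ) : ℤ) = c := by omega
    rw [e7] at h2
    exact h2
  have hE : ExtB T a' b c := h.ext.of_eq h1 hTa' hcon hgap (by rw [hTA]; exact h.Ab) hTc
  obtain ⟨l2, p2, l2', p2', ad2⟩ := exists_Ad h1.ok'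
  obtain ⟨K2, Y2, φ2, h3⟩ := hE.KF ad2
  rw [hTA] at h3
  have g1 : cr p2 l2 = a := ad2.isArea.unique h.area
  rw [g1] at h3
  have g2 : cr T.u l2 = e := by
    have h4 := h3.aA
    have h5 := h.aA
    rw [h5] at h4
    exact (mul_right_cancel₀ hb0.ne' h4).symm
  rw [g2] at h3
  have hK2 : K2 = K := by
    have k1 := h3.hc
    rw [← h.hc] at k1
    exact mul_right_cancel₀ hc0.ne' k1
  subst hK2
  have hY2 : Y2 = Y := by
    have k1 := h3.hy
    rw [h.hy] at k1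
    exact (mul_right_cancel₀ hc0.ne' k1).symm
  subst hY2
  have hm : p2' ∈ T.L' := by rw [h3.L'_eq]; exact mem_lat.2 ⟨0, 1, by module⟩
  obtain ⟨m, n, hmn⟩ := mem_lat.1 hm
  have hn : n = 1 := by
    have k1 := h3.up'
    have k2 : cr T.u p2' = n * c := by
      rw [← hmn]
      show cr S.u (m • l' + n • (p' + i • S.u)) = n * c
      rw [cr_add_right, cr_smul_right, cr_smul_right, cr_add_right, cr_smul_right, cr_self, e4, e3]
      ring
    rw [k1] at k2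
    have k3 : (n - 1) * c = 0 := by linear_combination -k2
    rcases mul_eq_zero.1 k3 with k4 | k4
    · linarith
    · exact absurd k4 hc0.ne'
  refine ⟨T, _, φ2, m, l2, p2, l2', p2', h1, h3, ?_⟩
  have k1 := h3.p'v
  rw [← hmn, hn] at k1
  have k2 : cr (m • l' + (1 : ℤ) • (p' + i • S.u)) T.v =
      m * cr l' S.v + cr p' S.v + i * (A - c - a') := by
    show cr (m • l' + (1 : ℤ) • (p' + i • S.u)) (S.v + i • (S.u + l')) = _
    simp only [cr_add_left, cr_add_right, cr_smul_left, cr_smul_right, cr_self]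
    rw [cr_swap l' S.u, cr_swap p' S.u, cr_swap p' l', e4, e3, e5, h.hA]; ring
  rw [k2] at k1
  linear_combination -k1 + m * h.l'v + h.p'v

/-- the case `φ` odd, `A + b` odd is impossible -/
theorem KF.no_s0 (h : KF 3 S a' b c A a e f Y φ l p l' p') {N : ℕ} (hN : N.Prime)
    (hv : a + A + a' = N) (hAc : A < c) (hAb : A < b) (he3 : e < 3 * A)
    (hA2 : ¬ (2 : ℤ) ∣ A) (he : (2 : ℤ) ∣ e) (hY : (2 : ℤ) ∣ Y)
    (hφ : ¬ (2 : ℤ) ∣ φ) (hb : (2 : ℤ) ∣ b) : False := by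
  have p2 := Nat.prime_two
  have hA0 := h.A0
  have he0 := h.e0
  have hb0 := h.b0
  have hc3 := h.hc
  have hc : ¬ (2 : ℤ) ∣ c := by omega
  have ha : (2 : ℤ) ∣ a := by
    have h1 : (2 : ℤ) ∣ a * A := by rw [h.aA]; exact he.mul_right _
    exact (Int.prime_two.dvd_or_dvd h1).resolve_right hA2
  -- `4` does not divide `b`
  have hb4 : ¬ (4 : ℤ) ∣ b := by
    intro h4
    have hk : ((2 : ℕ) : ℤ) ^ 2 ∣ b := by exact_mod_cast h4
    have e4 : ((2 : ℕ) : ℤ) ^ 2 = 4 := by norm_num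
    have c2 : ∀ x y : ℤ, ¬ (2 : ℤ) ∣ x → (4 : ℤ) ∣ x * y → (4 : ℤ) ∣ y := by
      intro x y hx hxy
      have hc : IsCoprime ((2 : ℤ) ^ 2) x := ((Int.prime_two.coprime_iff_not_dvd).2 hx).pow_left
      have := hc.dvd_of_dvd_mul_left (by norm_num; exact hxy)
      norm_num at this
      exact this
    have g0 : (1 : ℤ) = Int.gcd Y (1 + 0 * φ) := by simp
    obtain ⟨-, h1⟩ := h.hrigV g0 p2 (Or.inr (by rw [mul_one]; exact_mod_cast hc)) hk
    have hg : ¬ (2 : ℤ) ∣ (Int.gcd Y (1 + 2 * φ) : ℤ) := by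
      intro h9
      have h8 := h9.trans (Int.gcd_dvd_right Y (1 + 2 * φ))
      omega
    obtain ⟨g, hgg⟩ : ∃ g : ℤ, g = Int.gcd Y (1 + 2 * φ) := ⟨_, rfl⟩
    rw [← hgg] at hg
    obtain ⟨-, h2⟩ := h.hrigV hgg p2 (Or.inr (by
      intro h9
      rcases Int.prime_two.dvd_or_dvd (by exact_mod_cast h9) with h8 | h8
      · exact hc h8
      · exact hg h8)) hk
    rw [e4] at h1 h2
    have h3 : (4 : ℤ) ∣ f := by
      refine c2 (3 + Y) f (by omega) ?_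
      have h5 : (4 : ℤ) ∣ 3 * (4 * 1) := ⟨3, by norm_num⟩
      have h6 := h5.trans h1
      have e1 : (3 * 1 + Y) * (f + 0 * (a + b - A)) = (3 + Y) * f := by ring
      rwa [e1] at h6
    have h5 : (4 : ℤ) ∣ f + 2 * (a + b - A) := by
      refine c2 (3 * g + Y) _ (by omega) ?_
      exact (Dvd.intro (3 * g) (by ring)).trans h2
    omega
  -- no odd prime but three
  have hq3 : ∀ q : ℕ, q.Prime → q ≠ 2 → q ≠ 3 → ¬ (q : ℤ) ∣ b := by
    intro q hq hq2 hq3 hqb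
    have h1 := (h.vmob hN hv p2 hY (by exact_mod_cast hφ) hq hq2 (by
      intro h9
      have h8 : q ∣ 3 := by exact_mod_cast h9
      exact hq3 ((Nat.prime_dvd_prime_iff_eq hq Nat.prime_three).1 h8)) (k := 1)
      (by rw [pow_one]; exact hqb)).2
    rw [pow_one] at h1
    have e1 : (((2 : ℕ) : ℤ) - 1) = 1 := by norm_num
    rw [e1] at h1
    exact prime_not_dvd_one hq h1
  obtain ⟨k, b1, hk1, hk2⟩ := exists_pow_mul Nat.prime_three hb0.ne'
  have e3 : ((3 : ℕ) : ℤ) = 3 := rfl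
  rw [e3] at hk1 hk2
  have h3k : (0 : ℤ) < 3 ^ k := by positivity
  have hb1p : 0 < b1 := by
    rw [hk1] at hb0
    exact (mul_pos_iff_of_pos_left h3k).1 hb0
  have h3k2 : ¬ (2 : ℤ) ∣ 3 ^ k := fun h9 => by
    have := Int.prime_two.dvd_of_dvd_pow h9
    norm_num at this
  have hb12 : b1 = 2 := by
    have h2 : (2 : ℤ) ∣ b1 := by
      rw [hk1] at hb
      exact (Int.prime_two.dvd_or_dvd hb).resolve_left h3k2
    obtain ⟨b2, hb2⟩ := h2
    have hb2p : 0 < b2 := by linarith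
    by_contra hne
    have hb21 : b2.natAbs ≠ 1 := by omega
    obtain ⟨q, hq, hqb⟩ := Nat.exists_prime_and_dvd hb21
    have hqb2 : (q : ℤ) ∣ b2 := Int.natCast_dvd.2 hqb
    have hqb : (q : ℤ) ∣ b := by rw [hk1, hb2]; exact (hqb2.mul_left _).mul_left _
    by_cases hq2 : q = 2
    · subst hq2
      apply hb4
      rw [hk1, hb2]
      obtain ⟨x, hx⟩ := hqb2
      push_cast at hx
      exact ⟨3 ^ k * x, by rw [hx]; ring⟩
    · by_cases hq3' : q = 3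
      · subst hq3'
        apply hk2
        rw [hb2]
        exact (by exact_mod_cast hqb2 : (3 : ℤ) ∣ b2).mul_left _
      · exact hq3 q hq hq2 hq3' hqb
  rw [hb12] at hk1
  -- `3 ^ k ∣ e`
  have h3e : (3 : ℤ) ^ k ∣ e := by
    have hkb : ((3 : ℕ) : ℤ) ^ k ∣ b := by rw [hk1]; push_cast; exact dvd_mul_right _ _
    have g0 : (1 : ℤ) = Int.gcd Y (1 + 0 * φ) := by simp
    obtain ⟨h1, -⟩ := h.hrigV g0 Nat.prime_three (Or.inl (by norm_num)) hkb
    obtain ⟨j, hj⟩ := exists_gam h.Y0.ne' p2 hY (by exact_mod_cast hφ)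
    obtain ⟨h2, -⟩ := h.hrigV hj.symm Nat.prime_three (Or.inl (by norm_num)) hkb
    push_cast at h1 h2
    have h4 : 3 * (3 : ℤ) ^ k ∣ 3 * e := by
      have h5 : 3 * (3 : ℤ) ^ k ∣ (3 * 2 + Y) * e := (Dvd.intro 2 (by ring)).trans h2
      have h6 : 3 * (3 : ℤ) ^ k ∣ (3 * 1 + Y) * e := by
        rw [mul_one] at h1; exact h1
      have := dvd_sub h5 h6
      have e1 : (3 * 2 + Y) * e - (3 * 1 + Y) * e = 3 * e := by ring
      rwa [e1] at this
    exact (mul_dvd_mul_iff_left (by norm_num : (3 : ℤ) ≠ 0)).1 h4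
  obtain ⟨e', he'⟩ := h3e
  have he'p : 0 < e' := by
    rw [he'] at he0
    exact (mul_pos_iff_of_pos_left h3k).1 he0
  have he'6 : e' < 6 := by
    have h1 : 3 ^ k * e' < 3 ^ k * 6 := by
      rw [← he']
      linarith
    exact lt_of_mul_lt_mul_left h1 h3k.le
  have he'2 : (2 : ℤ) ∣ e' := by
    rw [he'] at he
    exact (Int.prime_two.dvd_or_dvd he).resolve_left h3k2
  -- `A ∣ 3 ^ (2 k)`
  have hAd : A ∣ 3 ^ (2 * k) := by
    have h1 : A ∣ e * b := by rw [← h.aA]; exact dvd_mul_left _ _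
    have h2 : ∃ n : ℕ, e * b = 2 ^ n * 3 ^ (2 * k) := by
      have e1 : (3 : ℤ) ^ (2 * k) = 3 ^ k * 3 ^ k := by rw [two_mul, pow_add]
      rcases (show e' = 2 ∨ e' = 4 by omega) with h9 | h9
      · exact ⟨2, by rw [he', hk1, h9, e1]; ring⟩
      · exact ⟨3, by rw [he', hk1, h9, e1]; ring⟩
    obtain ⟨n, hn⟩ := h2
    rw [hn] at h1
    have hco : IsCoprime A ((2 : ℤ) ^ n) :=
      (((Int.prime_two.coprime_iff_not_dvd).2 hA2).pow_left (m := n)).symm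
    exact hco.dvd_of_dvd_mul_left h1
  obtain ⟨A', rfl⟩ := Int.eq_ofNat_of_zero_le hA0.le
  have hAd' : A' ∣ 3 ^ (2 * k) := by exact_mod_cast hAd
  obtain ⟨x, -, hx⟩ := (Nat.dvd_prime_pow Nat.prime_three).1 hAd'
  have hxk : x ≤ k := by
    by_contra h9
    push Not at h9
    have h8 : (3 : ℕ) ^ (k + 1) ≤ 3 ^ x := Nat.pow_le_pow_right (by norm_num) h9
    have h7 : (3 : ℤ) ^ (k + 1) ≤ A' := by rw [hx]; exact_mod_cast h8
    rw [pow_succ] at h7
    rw [hk1] at hAb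
    linarith
  have hAe : (A' : ℤ) ∣ e := by
    rw [hx, he']; push_cast
    exact (pow_dvd_pow _ hxk).mul_right _
  obtain ⟨t, ht⟩ := hAe
  have t1 : 2 < t := by
    have h9 : (A' : ℤ) * 2 < A' * t := by rw [← ht]; linarith
    exact lt_of_mul_lt_mul_left h9 hA0.le
  have t2 : t < 3 := by
    have h9 : (A' : ℤ) * t < A' * 3 := by rw [← ht]; linarith
    exact lt_of_mul_lt_mul_left h9 hA0.le
  omega

/-- **(P0)**, refined: a prime `r ∣ A`, `r ≠ 3`, never counts -/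
theorem KF.p0r (h : KF 3 S a' b c A a e f Y φ l p l' p') (hF : S.Full) {N : ℕ}
    (hN : N.Prime) (hv : a + A + a' = N) (hb3 : 3 ≤ b) (hAc : A < c) (hAb : A < b)
    (he3 : e < 3 * A) (hA2 : ¬ (2 : ℤ) ∣ A) (he2 : (2 : ℤ) ∣ e) {g D1 e1 : ℤ} (hg : 0 < g)
    (hco : IsCoprime D1 e1) (hD : a + b - A - e = g * D1) (he1 : e = g * e1)
    (T : Finset ℕ) (hTp : ∀ r ∈ T, r.Prime)
    (hW : ∀ r : ℕ, r.Prime → r ≠ 2 → (r : ℤ) ∣ a' → (r : ℤ) ∣ A + e →
      (¬ (r : ℤ) ∣ A ∨ (r : ℤ) ∣ 3) →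
      ((r : ℤ) ∣ c ∨ ∃ m : ℕ, (r : ℤ) ^ m ∣ a + b ∧ ¬ (r : ℤ) ^ m ∣ b) → (r : ℤ) ∣ D1 → r ∈ T)
    (hT : ∀ r : ℕ, r.Prime → r ≠ 2 → (r : ℤ) ∣ a' → (r : ℤ) ∣ e → ¬ (r : ℤ) ∣ A →
      (r : ℤ) ∣ e1 → r ∈ T)
    (hM : g * 2 ^ T.card < e - A + a - b) : False := by
  have hA0 := h.A0
  have he0 := h.e0
  have hodd : ¬ (2 : ℤ) ∣ a + A + a' := by
    intro h1
    rw [hv] at h1
    have h2 : 2 ∣ N := by exact_mod_cast h1
    have h3 := (Nat.prime_dvd_prime_iff_eq Nat.prime_two hN).1 h2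
    have h4 := h.a0
    have h6 := h.a'0
    have h7 : ((2 : ℕ) : ℤ) = (N : ℤ) := by rw [h3]
    push_cast at h7
    omega
  have ha : (2 : ℤ) ∣ a := by
    have h1 : (2 : ℤ) ∣ a * A := by rw [h.aA]; exact he2.mul_right _
    exact (Int.prime_two.dvd_or_dvd h1).resolve_right hA2
  have hc3 := h.hc
  have hc : ¬ (2 : ℤ) ∣ c := by omega
  have hy := h.hy
  have ha' : (2 : ℤ) ∣ a' := by omega
  have hY : (2 : ℤ) ∣ Y := by
    have h1 : (2 : ℤ) ∣ Y * c := by rw [← hy]; exact ha'.mul_left _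
    exact (Int.prime_two.dvd_or_dvd h1).resolve_right hc
  -- a frame without the bad class at two
  suffices H : ∃ (S2 : PSt) (f2 φ2 : ℤ) (l2 p2 l2' p2' : Z2), SEq S S2 ∧
      KF 3 S2 a' b c A a e f2 Y φ2 l2 p2 l2' p2' ∧ (2 : ℤ) ∣ f2 ∧ ((4 : ℤ) ∣ e →
        ∀ s : ℕ, (2 : ℤ) ^ s ∣ φ2 → ¬ (2 : ℤ) ^ (s + 1) ∣ φ2 → (2 : ℤ) ^ s ∣ A + b →
          ¬ (2 : ℤ) ^ (s + 1) ∣ A + b → ¬ (2 : ℤ) ^ (s + 2) ∣ Y) by
    obtain ⟨S2, f2, φ2, l2, p2, l2', p2', k1, k2, k3, k4⟩ := H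
    refine k2.left_gen (k1.full.1 hF) hN hv hb3 hAc hAb (by linarith) hg hco hD he1 False
      (fun _ h4 _ => k2.t2_good hA2 he2 k3 (k4 h4)) T hTp (fun r hr h1 h2 h3 h4 h5 => ?_)
      (fun r hr h1 h2 h3 h4 _ h6 => ?_) (Or.inl hM)
    · refine hW r hr ?_ h1 h2 h3 h4 h5
      rintro rfl
      have h9 : (2 : ℤ) ∣ A + e := by exact_mod_cast h2
      exact hA2 ((dvd_add_left he2).1 h9)
    · refine hT r hr (fun h9 => (h4 h9).2) h1 h2 h3 h6
  have hfe : ∀ {S2 : PSt} {f2 φ2 : ℤ} {l2 p2 l2' p2' : Z2},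
      KF 3 S2 a' b c A a e f2 Y φ2 l2 p2 l2' p2' → (2 : ℤ) ∣ f2 := by
    intro S2 f2 φ2 l2 p2 l2' p2' h2
    have h9 : ((2 : ℕ) : ℤ) ∣ f2 := by
      refine (h2.ft3 he3 hAc Nat.prime_two (by exact_mod_cast he2) (by exact_mod_cast hA2)
        (by exact_mod_cast hY)).resolve_right fun h9 => ?_
      have h8 := h9.2
      push_cast at h8
      linarith
    exact_mod_cast h9
  have hf := hfe h
  by_cases hbad : (4 : ℤ) ∣ e → ∀ s : ℕ, (2 : ℤ) ^ s ∣ φ → ¬ (2 : ℤ) ^ (s + 1) ∣ φ →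
      (2 : ℤ) ^ s ∣ A + b → ¬ (2 : ℤ) ^ (s + 1) ∣ A + b → ¬ (2 : ℤ) ^ (s + 2) ∣ Y
  · exact ⟨S, f, φ, l, p, l', p', h.ext.ok.seq, h, hf, hbad⟩
  push Not at hbad
  obtain ⟨he4, s, s1, s2, s3, s4, s5⟩ := hbad
  have hY4 : (4 : ℤ) ∣ Y := by
    have h1 : (2 : ℤ) ^ 2 ∣ 2 ^ (s + 2) := pow_dvd_pow _ (by omega)
    have h2 := h1.trans s5
    norm_num at h2
    exact h2
  have hs0 : s ≠ 0 := by
    rintro rfl
    refine h.no_s0 hN hv hAc hAb he3 hA2 he2 hY (by simpa using s2) ?_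
    have h9 : ¬ (2 : ℤ) ∣ A + b := by simpa using s4
    omega
  have hb : ¬ (2 : ℤ) ∣ b := by
    have h1 : (2 : ℤ) ∣ A + b := (dvd_pow_self _ hs0).trans s3
    omega
  have hXe : (2 : ℤ) ∣ cr (S.u + l') l := by
    have h1 := h.hXl
    have h2 : (2 : ℤ) ∣ 3 * cr (S.u + l') l := by rw [h1]; exact he2.mul_left _
    omega
  have hXp : (2 : ℤ) ∣ cr (S.u + l') p := by
    have h1 := h.hZp
    have h2 : (2 : ℤ) ∣ 3 * cr (S.u + l') p := by rw [h1]; exact hf.mul_left _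
    omega
  have e2 : ((2 : ℕ) : ℤ) = 2 := rfl
  obtain ⟨i, m1, m2, m3⟩ := h.up Nat.prime_two (α := 0) (b2 := b) (by simp)
    (by exact_mod_cast hb) (i0 := 1) (n := 0) (by simp) (by simp) (by
      rintro ⟨-, h9⟩
      rw [e2] at h9
      have h8 : (2 : ℤ) ∣ b - 1 * cr (S.u + l') p := by simpa using h9
      omega)
  have hi : ¬ (2 : ℤ) ∣ i := by
    rw [e2] at m1
    have h9 : (2 : ℤ) ∣ i - 1 := by simpa using m1
    omega
  obtain ⟨S2, f2, φ2, m, l2, p2, l2', p2', k1, k2, k3⟩ := h.hframe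
    (h.con_of m2 (Alw.of_not_dvd (by rw [h.up']; exact_mod_cast hc) i)) (by simpa using m3)
  refine ⟨S2, f2, φ2, l2, p2, l2', p2', k1, k2, hfe k2, fun _ s' t1 t2 t3 t4 _ => ?_⟩
  have hss : s' = s := by
    rcases lt_trichotomy s' s with h9 | h9 | h9
    · exact absurd ((pow_dvd_pow _ (by omega)).trans s3) t4
    · exact h9
    · exact absurd ((pow_dvd_pow _ (by omega)).trans t3) s4
  subst hss
  -- `A - c - a'` is twice an odd number
  obtain ⟨w, hw, hwo⟩ : ∃ w : ℤ, A - c - a' = 2 * w ∧ ¬ (2 : ℤ) ∣ w := by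
    have h1 : 3 * (A - c - a') = 2 * A - e - Y * c := by linear_combination -hc3 - hy
    obtain ⟨Y4, hY4'⟩ := hY4
    obtain ⟨e4, he4'⟩ := he4
    have h2 : 3 * (A - c - a') = 2 * A - 4 * (e4 + Y4 * c) := by rw [h1, he4', hY4']; ring
    refine ⟨(A - c - a') / 2, by omega, by omega⟩
  obtain ⟨Y4, hY4'⟩ := hY4
  have hφ2 : A * φ2 = A * φ + 4 * (m * Y4 * A) + 2 * (3 * (i * w)) := by
    rw [k3, hw, hY4']; ring
  have hiw : ¬ (2 : ℤ) ∣ 3 * (i * w) := by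
    intro h9
    rcases Int.prime_two.dvd_or_dvd h9 with h8 | h8
    · norm_num at h8
    · rcases Int.prime_two.dvd_or_dvd h8 with h7 | h7
      · exact hi h7
      · exact hwo h7
  generalize 3 * (i * w) = W at hφ2 hiw
  generalize m * Y4 * A = X at hφ2
  have c4 : ∀ y : ℤ, (4 : ℤ) ∣ A * y → (4 : ℤ) ∣ y := by
    intro y hxy
    have hc : IsCoprime ((2 : ℤ) ^ 2) A := ((Int.prime_two.coprime_iff_not_dvd).2 hA2).pow_left
    have := hc.dvd_of_dvd_mul_left (by norm_num; exact hxy)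
    norm_num at this
    exact this
  rcases Nat.lt_or_ge 1 s' with h9 | h9
  · -- `4 ∣ φ`, `4 ∣ φ2`
    have h4 : (4 : ℤ) ∣ φ := by
      have h1 : (2 : ℤ) ^ 2 ∣ 2 ^ s' := pow_dvd_pow _ h9
      have h2 := h1.trans s1
      norm_num at h2
      exact h2
    have h5 : (4 : ℤ) ∣ φ2 := by
      have h1 : (2 : ℤ) ^ 2 ∣ 2 ^ s' := pow_dvd_pow _ h9
      have h2 := h1.trans t1
      norm_num at h2
      exact h2
    have h6 : (4 : ℤ) ∣ A * φ := h4.mul_left _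
    have h7 : (4 : ℤ) ∣ A * φ2 := h5.mul_left _
    omega
  · have hs1 : s' = 1 := by omega
    subst hs1
    apply t2
    have h5 : (2 : ℤ) ∣ φ := by simpa using s1
    have h6 : ¬ (4 : ℤ) ∣ φ := by
      intro h8; apply s2; norm_num; exact h8
    have h7 : (4 : ℤ) ∣ A * φ2 := by
      obtain ⟨x, hx⟩ := h5
      have h8 : ¬ (2 : ℤ) ∣ A * x := by
        intro h9
        rcases Int.prime_two.dvd_or_dvd h9 with h7 | h7
        · exact hA2 h7
        · omega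
      have e1 : A * φ = 2 * (A * x) := by rw [hx]; ring
      rw [e1] at hφ2
      generalize A * x = Z at hφ2 h8
      omega
    have := c4 φ2 h7
    norm_num
    exact this

/-- **(P0)**: `K = 3`, `A` odd, `e` even: the left criterion without the prime `2` -/
theorem KF.p0 (h : KF 3 S a' b c A a e f Y φ l p l' p') (hF : S.Full) {N : ℕ}
    (hN : N.Prime) (hv : a + A + a' = N) (hb3 : 3 ≤ b) (hAc : A < c) (hAb : A < b)
    (he3 : e < 3 * A) (hA2 : ¬ (2 : ℤ) ∣ A) (he2 : (2 : ℤ) ∣ e) {g D1 e1 : ℤ} (hg : 0 < g)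
    (hco : IsCoprime D1 e1) (hD : a + b - A - e = g * D1) (he1 : e = g * e1)
    (T : Finset ℕ) (hTp : ∀ r ∈ T, r.Prime)
    (hW : ∀ r : ℕ, r.Prime → r ≠ 2 → (r : ℤ) ∣ a' → (r : ℤ) ∣ A + e → (r : ℤ) ∣ D1 → r ∈ T)
    (hT : ∀ r : ℕ, r.Prime → r ≠ 2 → (r : ℤ) ∣ a' → (r : ℤ) ∣ e → ¬ (r : ℤ) ∣ A →
      (r : ℤ) ∣ e1 → r ∈ T)
    (hM : g * 2 ^ T.card < e - A + a - b) : False := by
  exact h.p0r hF hN hv hb3 hAc hAb he3 hA2 he2 hg hco hD he1 T hTp
    (fun r hr h1 h2 h3 _ _ h5 => hW r hr h1 h2 h3 h5) hT hM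

end Pool.Agent.H4G
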