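import Pool.Agent.H4G.Arith.K2All40
import Pool.Agent.H4G.Arith.K3Stmt

/-!
# LINE B: all primes `N > 8` (helper40, helper9, helper5 and others)
-/

set_option autoImplicit false

namespace Pool.Agent.H4G

/-- the hyperelliptic orbits for every prime number of squares greater than 8 -/
theorem orbits_prime_all : ∀ N : ℕ, N.Prime → 8 < N →
    ∃ o : Fin 4 → Ori N, (∀ k, (o k).PH ∧ ∀ v, (o k).HLK v ↔ v = valO k) ∧
      ∀ p : Ori N, p.PH → ∃! k, p.SameOrbit (o k) :=
  orbits_prime_of_rows kStmt_two kStmt_three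

end Pool.Agent.H4G
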