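import Pool.Agent.H4G.Arith.ExtA

/-!
# The loop (helper23): exit, H-twist at the exit state, the same left move backwards (helper5)
-/

set_option autoImplicit false

namespace Pool.Agent.H4G

/-- a left exit read backwards; the right side `M'` is arbitrary -/
theorem SEq.exitInv {l p u v : Z2} {M' : AddSubgroup Z2} {n j o τ : ℤ}
    (hok : PSt.Ok ⟨lat (l - n • v) (p + τ • v),
      u + (o - j * (1 + n)) • v + τ • l + n • p, v, M'⟩)
    (k1 : cr l v = 0) (k2 : 0 < cr u l) (k3 : 0 < cr p v) (hA0 : 0 < cr u v)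
    (hAb : cr u v ≤ cr p v) (hn : 0 ≤ n) (ho : o = 1 ∨ o = -1) (hco : IsCoprime (τ + j) n)
    (h1 : n * cr p v < o * ((τ + j) * cr u l + n * (cr u p +
      j * (cr p l + cr p v - cr u v))))
    (h2 : o * ((τ + j) * cr u l + n * (cr u p + j * (cr p l + cr p v - cr u v))) ≤ cr p l) :
    SEq ⟨lat (l - n • v) (p + τ • v), u + (o - j * (1 + n)) • v + τ • l + n • p, v, M'⟩
      ⟨lat l p, u, v, M'⟩ := by
  -- `e ≤ a`
  have hea : cr u l ≤ cr p l := by
    have e1 := plucker p l u v
    rw [k1, cr_swap l u] at e1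
    have e2 : cr u l * cr u v ≤ cr u l * cr p v := mul_le_mul_of_nonneg_left hAb k2.le
    have e3 : cr u l * cr u v ≤ cr p l * cr u v := by linarith
    exact le_of_mul_le_mul_right e3 hA0
  have hco' : IsCoprime (o * (τ + j)) (o * n) := by
    rcases ho with rfl | rfl
    · simpa using hco
    · have := hco.neg_left.neg_right
      rwa [neg_one_mul, neg_one_mul]
  obtain ⟨y, m1, m2⟩ := exists_basis (l := l) (p := p - j • v)
    (w := (o * (τ + j)) • l + (o * n) • (p - j • v)) rfl hco'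
  set x := (o * (τ + j)) • l + (o * n) • (p - j • v) with hx
  have f1 : cr (u - j • (v + l)) x = o * ((τ + j) * cr u l + n * (cr u p +
      j * (cr p l + cr p v - cr u v))) := by
    simp only [hx]
    simp only [cr_sub_left, cr_sub_right, cr_add_left, cr_add_right, cr_smul_left, cr_smul_right,
      cr_self]
    rw [cr_swap v l, cr_swap v p, cr_swap l p, k1]; ring
  have f2 : cr y x = cr p l := by
    rw [m2, cr_sub_left, cr_smul_left, cr_swap v l, k1]; ring
  have f3 : cr x v = o * n * cr p v := by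
    simp only [hx]
    simp only [cr_sub_left, cr_add_left, cr_smul_left, cr_self]
    rw [k1]; ring
  have f4 : cr (u - j • (v + l)) v = cr u v := by
    rw [cr_sub_left, cr_smul_left, cr_add_left, cr_self, k1]; ring
  have f5 : cr (u - j • (v + l)) l = cr u l := by
    rw [cr_sub_left, cr_smul_left, cr_add_left, cr_self, cr_swap v l, k1]; ring
  have f6 : cr (p - j • v) l = cr p l := by
    rw [cr_sub_left, cr_smul_left, cr_swap v l, k1]; ring
  have hnb : 0 ≤ n * cr p v := mul_nonneg hn k3.le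
  obtain ⟨α, β, hαβ⟩ : ∃ α β : ℤ, y = α • l + β • (p - j • v) := by
    have : y ∈ lat l (p - j • v) := by rw [← m1]; exact mem_lat.2 ⟨0, 1, by module⟩
    obtain ⟨α, β, e⟩ := mem_lat.1 this
    exact ⟨α, β, e.symm⟩
  have hpos : 0 < cr p l := by
    have e3 := k2
    linarith
  have hdet : β * (o * (τ + j)) - α * (o * n) = 1 := by
    have h9 : cr y x = (β * (o * (τ + j)) - α * (o * n)) * cr p l := by
      rw [hαβ, hx]
      simp only [cr_sub_left, cr_sub_right, cr_add_left, cr_add_right, cr_smul_left,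
        cr_smul_right, cr_self]
      rw [cr_swap v l, cr_swap v p, cr_swap l p, k1]; ring
    rw [f2] at h9
    have : (β * (o * (τ + j)) - α * (o * n) - 1) * cr p l = 0 := by linarith
    rcases mul_eq_zero.1 this with h9 | h9
    · linarith
    · omega
  -- the last step: the twist back
  have last : ∀ {L0 : AddSubgroup Z2} {u0 : Z2}, L0 = lat l (p - j • v) →
      u0 = u - j • (v + l) → PSt.Ok ⟨L0, u0, v, M'⟩ →
      SEq ⟨L0, u0, v, M'⟩ ⟨lat l p, u, v, M'⟩ := by
    rintro L0 u0 rfl rfl hok0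
    have := SEq.twist hok0 (by rw [f5]; exact k2) (by rw [f5, f6]; exact hea) k1 (-j)
    have e1 : p - j • v - -j • v = p := by module
    have e2 : u - j • (v + l) - -j • (v + l) = u := by module
    rwa [e1, e2] at this
  rcases ho with rfl | rfl
  · rw [one_mul] at f1 h1 h2
    have hL : lat (l - n • v) (p + τ • v) = lat x (y + v) := by
      refine closure_pair_eq (α := β) (β := -n) (γ := -α) (δ := τ + j) ?_ ?_ (Or.inl ?_)
      · simp only [hx]
        rw [hαβ]
        have e1 : β • ((1 * (τ + j)) • l + (1 * n) • (p - j • v)) +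
            (-n) • (α • l + β • (p - j • v) + v) =
            (β * (1 * (τ + j)) - α * (1 * n)) • l - n • v := by module
        rw [e1, hdet, one_smul]
      · simp only [hx]
        rw [hαβ]
        have e1 : (-α) • ((1 * (τ + j)) • l + (1 * n) • (p - j • v)) +
            (τ + j) • (α • l + β • (p - j • v) + v) =
            (β * (1 * (τ + j)) - α * (1 * n)) • (p - j • v) + (τ + j) • v := by module
        rw [e1, hdet, one_smul]; module
      · linear_combination hdet
    have hu : u + (1 - j * (1 + n)) • v + τ • l + n • p = u - j • (v + l) + v + x := by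
      simp only [hx]; module
    rw [hL, hu] at hok ⊢
    have g1 : cr (u - j • (v + l) + v + x) x = cr (u - j • (v + l)) x - cr x v := by
      rw [cr_add_left, cr_add_left, cr_self, cr_swap v x]; ring
    have g2 : cr (y + v) x = cr y x - cr x v := by rw [cr_add_left, cr_swap v x]; ring
    have g3 : cr (u - j • (v + l) + v + x) v = cr (u - j • (v + l)) v + cr x v := by
      rw [cr_add_left, cr_add_left, cr_self]; ring
    have k := SEq.mMinus hok (by rw [g1, f1, f3, one_mul]; linarith)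
      (by rw [g1, g2, f1, f2]; linarith) (by rw [g1, f1]; linarith)
      (by rw [g3, f4]; linarith)
    refine k.trans (last ?_ ?_ k.ok')
    · rw [add_sub_cancel_right, m1]
    · abel
  · have hL : lat (l - n • v) (p + τ • v) = lat x (y - v) := by
      refine closure_pair_eq (α := β) (β := n) (γ := -α) (δ := -(τ + j)) ?_ ?_ (Or.inl ?_)
      · simp only [hx]
        rw [hαβ]
        have e1 : β • ((-1 * (τ + j)) • l + (-1 * n) • (p - j • v)) +
            n • (α • l + β • (p - j • v) - v) =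
            (β * (-1 * (τ + j)) - α * (-1 * n)) • l - n • v := by module
        rw [e1, hdet, one_smul]
      · simp only [hx]
        rw [hαβ]
        have e1 : (-α) • ((-1 * (τ + j)) • l + (-1 * n) • (p - j • v)) +
            (-(τ + j)) • (α • l + β • (p - j • v) - v) =
            (β * (-1 * (τ + j)) - α * (-1 * n)) • (p - j • v) + (τ + j) • v := by module
        rw [e1, hdet, one_smul]; module
      · linear_combination hdet
    have hu : u + (-1 - j * (1 + n)) • v + τ • l + n • p = u - j • (v + l) - v - x := by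
      simp only [hx]; module
    rw [hL, hu] at hok ⊢
    have g1 : cr (u - j • (v + l) - v - x) x = cr (u - j • (v + l)) x + cr x v := by
      rw [cr_sub_left, cr_sub_left, cr_self, cr_swap v x]; ring
    have g2 : cr (y - v) x = cr y x + cr x v := by rw [cr_sub_left, cr_swap v x]; ring
    have g3 : cr (u - j • (v + l) - v - x) v = cr (u - j • (v + l)) v - cr x v := by
      rw [cr_sub_left, cr_sub_left, cr_self]; ring
    have k := SEq.mPlus hok (by rw [g1, f1, f3]; linarith)
      (by rw [g1, g2, f1, f2]; linarith) (by rw [g3, f4]; linarith)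
      (by rw [g1, f1]; linarith)
    refine k.trans (last ?_ ?_ k.ok')
    · rw [sub_add_cancel, m1]
    · abel

/-! ## Sheared vectors -/

/-- `z'` is the image of `z` under the shear `z + (i cr u z / A) W`, `W` parallel to `u` -/
def Shr (A i : ℤ) (u W z z' : Z2) : Prop := A • z' = A • z + (i * cr u z) • W

theorem Shr.add {A i : ℤ} {u W z z' y y' : Z2} (h : Shr A i u W z z') (h' : Shr A i u W y y') :
    Shr A i u W (z + y) (z' + y') := by
  unfold Shr at h h' ⊢
  rw [smul_add, h, h', cr_add_right]; module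

theorem Shr.smul {A i : ℤ} {u W z z' : Z2} (h : Shr A i u W z z') (k : ℤ) :
    Shr A i u W (k • z) (k • z') := by
  unfold Shr at h ⊢
  rw [smul_comm, h, cr_smul_right]; module

theorem Shr.sub {A i : ℤ} {u W z z' y y' : Z2} (h : Shr A i u W z z') (h' : Shr A i u W y y') :
    Shr A i u W (z - y) (z' - y') := by
  have := h.add (h'.smul (-1))
  have e1 : z + (-1 : ℤ) • y = z - y := by module
  have e2 : z' + (-1 : ℤ) • y' = z' - y' := by module
  rwa [e1, e2] at this

theorem Shr.self (A i : ℤ) (u W : Z2) : Shr A i u W u u := by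
  unfold Shr; rw [cr_self]; module

theorem Shr.cross {A i : ℤ} {u W z z' y y' : Z2} (hA : A ≠ 0) (hW : cr u W = 0)
    (h : Shr A i u W z z') (h' : Shr A i u W y y') : cr z' y' = cr z y := by
  unfold Shr at h h'
  have e1 : cr (A • z') (A • y') = cr (A • z + (i * cr u z) • W) (A • y + (i * cr u y) • W) := by
    rw [h, h']
  simp only [cr_add_left, cr_add_right, cr_smul_left, cr_smul_right, cr_self] at e1
  have e2 := plucker u y z W
  rw [hW] at e2
  have e3 := cr_swap W y
  have e4 : (cr z' y' - cr z y) * (A * A) = 0 := by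
    linear_combination e1 + (A * i) * e2 + (A * i * cr u z) * e3
  rcases mul_eq_zero.1 e4 with e5 | e5
  · linarith
  · exact absurd e5 (mul_ne_zero hA hA)

/-- products with other vectors -/
theorem Shr.cross_other {A i : ℤ} {u W z z' : Z2} (h : Shr A i u W z z') (y : Z2) :
    A * cr z' y = A * cr z y + i * cr u z * cr W y := by
  unfold Shr at h
  have e1 : cr (A • z') y = cr (A • z + (i * cr u z) • W) y := by rw [h]
  simp only [cr_add_left, cr_smul_left] at e1
  linarith

/-- the sheared basis -/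
theorem lat_shear {f1 f2 ρ : Z2} {c1 c2 γ1 γ2 κ : ℤ} (hρ : ρ = γ1 • f1 + γ2 • f2)
    (h0 : γ1 * c1 + γ2 * c2 = 0) :
    lat (f1 + (κ * c1) • ρ) (f2 + (κ * c2) • ρ) = lat f1 f2 := by
  refine closure_pair_eq (α := 1 + κ * c1 * γ1) (β := κ * c1 * γ2) (γ := κ * c2 * γ1)
    (δ := 1 + κ * c2 * γ2) ?_ ?_ (Or.inl ?_)
  · rw [hρ]; module
  · rw [hρ]; module
  · linear_combination κ * h0

theorem eq_zero_of_cr {u v w : Z2} (h : cr u v ≠ 0) (h1 : cr u w = 0) (h2 : cr w v = 0) :
    w = 0 := by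
  have h3 := cr_expand u v w
  rw [h2, cr_swap w u, h1, neg_zero, zero_smul, zero_smul, sub_zero] at h3
  exact smul_inj h (by rw [h3, smul_zero])

/-- the second CRT lemma: if no `gcd (α, β - k γ)` is smaller than `g = gcd (α, β)`, then
`g ∣ γ` -/
theorem crt_min2 {g α β γ : ℤ} (hg : 0 < g) (hα : α ≠ 0) (h0 : (Int.gcd α β : ℤ) = g)
    (hmin : ∀ k : ℤ, g ≤ Int.gcd α (β - k * γ)) : g ∣ γ := by
  set G : ℤ := ((Int.gcd g γ : ℕ) : ℤ) with hG
  have hGpos : 0 < G := by
    rw [hG]
    have : 0 < Int.gcd g γ := Int.gcd_pos_of_ne_zero_left _ hg.ne'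
    exact_mod_cast this
  have hGg : G ∣ g := by rw [hG]; exact Int.gcd_dvd_left _ _
  have hGγ : G ∣ γ := by rw [hG]; exact Int.gcd_dvd_right _ _
  have hgα : g ∣ α := by rw [← h0]; exact Int.gcd_dvd_left _ _
  have hgβ : g ∣ β := by rw [← h0]; exact Int.gcd_dvd_right _ _
  obtain ⟨α1, hα1⟩ := hGg.trans hgα
  obtain ⟨β1, hβ1⟩ := hGg.trans hgβ
  obtain ⟨γ1, hγ1⟩ := hGγ
  have hα10 : α1 ≠ 0 := by rintro rfl; exact hα (by rw [hα1, mul_zero])
  obtain ⟨t, ht⟩ := coprime_shift β1 γ1 α1 hα10 (by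
    intro l hl h1 h2 h3
    have h4 : G * l ∣ G := by
      conv_rhs => rw [hG]
      refine Int.dvd_coe_gcd ?_ ?_
      · rw [← h0]
        refine Int.dvd_coe_gcd ?_ ?_
        · rw [hα1]; exact mul_dvd_mul_left G h1
        · rw [hβ1]; exact mul_dvd_mul_left G h3
      · rw [hγ1]; exact mul_dvd_mul_left G h2
    have h5 : (l : ℤ) ∣ 1 := by
      have : G * l ∣ G * 1 := by rwa [mul_one]
      exact (mul_dvd_mul_iff_left hGpos.ne').1 this
    exact prime_not_dvd_one hl h5)
  have h1 := hmin (-t)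
  have e1 : β - -t * γ = G * (β1 + γ1 * t) := by
    conv_lhs => rw [hβ1, hγ1]
    ring
  rw [e1, hα1, Int.gcd_mul_left, Int.isCoprime_iff_gcd_eq_one.1 ht.symm, mul_one,
    Int.natAbs_of_nonneg hGpos.le] at h1
  have h2 : G = g := le_antisymm (Int.le_of_dvd hg hGg) h1
  rw [← h2, hγ1]
  exact dvd_mul_right _ _

/-! ## The loop -/

/-- LOOP (E3) of helper23. `u₁ = u + q v + τ l + n p` an exit, `B = gcd (L' × u₁)`,
`hh = gcd (L₁ × u₁)`; if `m a₁ A₁ B = P hh² (B + a')`, then the minimality of `b'` gives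
`b' A₁ ∣ P (u × u₁) (B + a' - A₁)`. -/
theorem ExtA.loop {S : PSt} {a' b b' : ℤ} (h : ExtA S a' b b') {l p l' p' : Z2}
    (ad : Ad S l p l' p') {n j o τ : ℤ} (hn : 0 ≤ n) (ho : o = 1 ∨ o = -1)
    (hco : IsCoprime (τ + j) n)
    (h1 : n * cr p S.v < o * ((τ + j) * cr S.u l + n * (cr S.u p +
      j * (cr p l + cr p S.v - cr S.u S.v))))
    (h2 : o * ((τ + j) * cr S.u l + n * (cr S.u p + j * (cr p l + cr p S.v - cr S.u S.v))) ≤
      cr p l) {u₁ : Z2} (hu₁ : u₁ = S.u + (o - j * (1 + n)) • S.v + τ • l + n • p)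
    {B hh P m : ℤ} (hB : IsC S.L' u₁ B)
    (hhh : IsC (lat (l - n • S.v) (p + τ • S.v)) u₁ hh)
    (hPm : m * ((cr p l - n * b) * (cr S.u S.v + n * b) * B) = P * hh ^ 2 * (B + a')) :
    b' * (cr S.u S.v + n * b) ∣ P * cr S.u u₁ * (B + a' - (cr S.u S.v + n * b)) := by
  obtain ⟨T, k1, k2, k3, k4, k5, k6⟩ := h.exitSt ad hn ho hco h1 h2
  rw [← hu₁] at k5
  obtain ⟨Lt, ut, vt, Lt'⟩ := T
  dsimp only at k2 k3 k4 k5 k6
  subst k2 k3 k4
  have k5' := k5.symm
  subst k5'
  obtain ⟨LS, u, v, L'⟩ := S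
  dsimp only at hu₁ hB hhh hPm h1 h2 k1 k6 ⊢
  have E1 : cr p v = b := ad.isC.unique h.hb
  have E2 : cr u p' = b' := ad.isC'.unique h.hb'
  have hb0 := h.bpos
  have hA0 : 0 < cr u v := ad.hA
  have hl0 : cr l v = 0 := ad.h1
  set f1 := l - n • v with hf1
  set f2 := p + τ • v with hf2
  obtain ⟨l2, p2, l1', p1', ad2⟩ := exists_Ad k1.ok'
  have F1 : cr u₁ l1' = 0 := ad2.h4
  have F2 : cr u₁ p1' = B := ad2.isC'.unique hB
  have F3 : cr l1' p1' = a' := ad2.isArea'.unique h.ha'
  have A1def : cr u₁ v = cr u v + n * b := by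
    rw [hu₁]
    simp only [cr_add_left, cr_smul_left, cr_self]
    rw [hl0, E1]; ring
  have hA1 : 0 < cr u₁ v := ad2.hA
  rw [← A1def] at hPm ⊢
  have F4 : a' * cr u₁ v = cr l1' v * B := by
    have := ad2.area'
    dsimp only at this
    rw [F2, F3] at this
    exact this
  have hB0 : 0 < B := hB.1
  -- the `u₁`-basis of the left lattice
  have hdet : cr f2 f1 = cr p l - n * b := by
    rw [hf1, hf2]
    simp only [cr_add_left, cr_smul_left, cr_sub_right, cr_smul_right, cr_self]
    rw [E1, cr_swap v l, hl0]; ring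
  have hdet0 : 0 < cr f2 f1 := by
    obtain ⟨c, hc⟩ := k1.ok'
    obtain ⟨x1, x2, y1, y2, _⟩ := hc.areas
    obtain ⟨y3, s, t, y4, y5⟩ := y1
    dsimp only at y5
    -- the absolute value of the determinant is the area
    have m1 : f1 ∈ lat s t := by rw [← y5]; exact mem_lat.2 ⟨1, 0, by module⟩
    have m2 : f2 ∈ lat s t := by rw [← y5]; exact mem_lat.2 ⟨0, 1, by module⟩
    have m3 : s ∈ lat f1 f2 := by rw [y5]; exact mem_lat.2 ⟨1, 0, by module⟩
    have m4 : t ∈ lat f1 f2 := by rw [y5]; exact mem_lat.2 ⟨0, 1, by module⟩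
    obtain ⟨α, β, w1⟩ := mem_lat.1 m3
    obtain ⟨γ, δ, w2⟩ := mem_lat.1 m4
    have w3 : x1 = (α * δ - β * γ) * cr f2 f1 := by
      rw [← y4, ← w1, ← w2]
      simp only [cr_add_left, cr_add_right, cr_smul_left, cr_smul_right, cr_self]
      rw [cr_swap f1 f2]; ring
    have w4 : cr p l - n * b ≥ 0 := by
      have w5 := h1.trans_le h2
      rw [E1] at w5
      linarith
    rcases w4.lt_or_eq with w5 | w5
    · rw [hdet]; exact w5
    · exfalso
      rw [hdet, ← w5, mul_zero] at w3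
      omega
  obtain ⟨ρ0, π, r1, r2, r3, r4, r5, r6⟩ := exists_adapted (l := f1) (p := f2) (u := u₁) (v := v)
    hdet0 hA1
  have hhπ : cr u₁ π = hh := by
    have : IsC (lat ρ0 π) u₁ (cr u₁ π) := isC_adapted r3 r5
    rw [r1] at this
    exact this.unique hhh
  have hh0 : 0 < hh := hhh.1
  set ρ := -ρ0 with hρ
  have q1 : cr u₁ ρ = 0 := by rw [hρ, cr_neg_right, r3, neg_zero]
  have q2 : hh * cr ρ v = cr f2 f1 * cr u₁ v := by
    rw [hρ, cr_neg_left, cr_swap ρ0 v, neg_neg, ← hhπ]; exact r6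
  obtain ⟨γ1, γ2, hγ⟩ : ∃ γ1 γ2 : ℤ, ρ = γ1 • f1 + γ2 • f2 := by
    have : ρ ∈ lat f1 f2 := by
      rw [← r1, hρ]
      exact (lat ρ0 π).neg_mem (mem_lat.2 ⟨1, 0, by module⟩)
    obtain ⟨x, y, e⟩ := mem_lat.1 this
    exact ⟨x, y, e.symm⟩
  obtain ⟨c1, hc1⟩ : hh ∣ cr u₁ f1 := hhh.2.1 _ (mem_lat.2 ⟨1, 0, by module⟩)
  obtain ⟨c2, hc2⟩ : hh ∣ cr u₁ f2 := hhh.2.1 _ (mem_lat.2 ⟨0, 1, by module⟩)
  have hcγ : γ1 * c1 + γ2 * c2 = 0 := by
    have e1 : cr u₁ ρ = hh * (γ1 * c1 + γ2 * c2) := by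
      rw [hγ, cr_add_right, cr_smul_right, cr_smul_right, hc1, hc2]; ring
    rw [q1] at e1
    rcases mul_eq_zero.1 e1.symm with e2 | e2
    · omega
    · exact e2
  -- `W = u₁ + l₁'`
  set W := u₁ + l1' with hW
  have W1 : cr u₁ W = 0 := by rw [hW, cr_add_right, cr_self, F1]; ring
  have W2 : B * cr W v = (B + a') * cr u₁ v := by
    rw [hW, cr_add_left]
    linear_combination -F4
  have W3 : cr W l1' = 0 := by rw [hW, cr_add_left, cr_self, F1]; ring
  have W4 : cr W p1' = B + a' := by rw [hW, cr_add_left, F2, F3]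
  have hmρ : (cr u₁ v * m) • ρ = (P * hh) • W := by
    have e1 : (cr u₁ v * m) • ρ - (P * hh) • W = 0 := by
      refine eq_zero_of_cr hA1.ne' ?_ ?_
      · rw [cr_sub_right, cr_smul_right, cr_smul_right, q1, W1]; ring
      · rw [cr_sub_left, cr_smul_left, cr_smul_left]
        have e2 : (cr u₁ v * m * cr ρ v - P * hh * cr W v) * (hh * B) = 0 := by
          rw [hdet] at q2
          linear_combination (cr u₁ v * m * B) * q2 - (P * hh ^ 2) * W2 +
            (cr u₁ v) * hPm
        rcases mul_eq_zero.1 e2 with e3 | e3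
        · exact e3
        · exact absurd e3 (mul_ne_zero hh0.ne' hB0.ne')
    exact sub_eq_zero.1 e1
  -- the sheared states
  have key : ∀ k : ℤ, ∃ ui : Z2, Shr (cr u₁ v) (k * P) u₁ W u ui ∧
      b' ≤ Int.gcd (cr ui l1') (cr ui (p1' + (k * P) • u₁)) := by
    intro k
    set i := k * P with hi
    set vi := v + i • W with hvi
    set e1 := f1 + (k * m * c1) • ρ with he1
    set e2 := f2 + (k * m * c2) • ρ with he2
    have hle : lat e1 e2 = lat f1 f2 := lat_shear hγ hcγ
    have sv : Shr (cr u₁ v) i u₁ W v vi := by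
      unfold Shr
      rw [hvi]; module
    have s1 : Shr (cr u₁ v) i u₁ W f1 e1 := by
      unfold Shr
      rw [he1, hc1, smul_add, smul_smul]
      have : cr u₁ v * (k * m * c1) = (k * c1) * (cr u₁ v * m) := by ring
      rw [this, mul_smul, hmρ, smul_smul]
      congr 2
      rw [hi]; ring
    have s2 : Shr (cr u₁ v) i u₁ W f2 e2 := by
      unfold Shr
      rw [he2, hc2, smul_add, smul_smul]
      have : cr u₁ v * (k * m * c2) = (k * c2) * (cr u₁ v * m) := by ring
      rw [this, mul_smul, hmρ, smul_smul]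
      congr 2
      rw [hi]; ring
    set li := e1 + n • vi with hli
    set pi := e2 - τ • vi with hpi
    set ui := u₁ - (o - j * (1 + n)) • vi - τ • li - n • pi with hui
    have sl : Shr (cr u₁ v) i u₁ W l li := by
      have := s1.add (sv.smul n)
      have e : f1 + n • v = l := by rw [hf1]; module
      rwa [e] at this
    have sp : Shr (cr u₁ v) i u₁ W p pi := by
      have := s2.sub (sv.smul τ)
      have e : f2 - τ • v = p := by rw [hf2]; module
      rwa [e] at this
    have su : Shr (cr u₁ v) i u₁ W u ui := by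
      have := ((Shr.self (cr u₁ v) i u₁ W).sub (sv.smul (o - j * (1 + n)))).sub (sl.smul τ)
      have := this.sub (sp.smul n)
      have e : u₁ - (o - j * (1 + n)) • v - τ • l - n • p = u := by rw [hu₁]; module
      rwa [e] at this
    have hA1' : cr u₁ v ≠ 0 := hA1.ne'
    have g1 : cr li vi = cr l v := Shr.cross hA1' W1 sl sv
    have g2 : cr ui li = cr u l := Shr.cross hA1' W1 su sl
    have g3 : cr pi vi = cr p v := Shr.cross hA1' W1 sp sv
    have g4 : cr ui vi = cr u v := Shr.cross hA1' W1 su sv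
    have g5 : cr ui pi = cr u p := Shr.cross hA1' W1 su sp
    have g6 : cr pi li = cr p l := Shr.cross hA1' W1 sp sl
    -- the H-twist at the exit state
    have t1 := ad2.twH k1.ok' (h.leA k1 h.ha' ad2.isC') i
    dsimp only at t1
    have t2 : lat (li - n • vi) (pi + τ • vi) = lat f1 f2 := by
      have a1 : li - n • vi = e1 := by rw [hli, add_sub_cancel_right]
      have a2 : pi + τ • vi = e2 := by rw [hpi, sub_add_cancel]
      rw [a1, a2, hle]
    have t3 : ui + (o - j * (1 + n)) • vi + τ • li + n • pi = u₁ := by rw [hui]; module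
    have t4 : PSt.Ok ⟨lat (li - n • vi) (pi + τ • vi),
        ui + (o - j * (1 + n)) • vi + τ • li + n • pi, vi, lat l1' (p1' + i • u₁)⟩ := by
      rw [t2, t3]; exact t1.ok'
    have t5 := SEq.exitInv t4 (by rw [g1]; exact hl0) (by rw [g2]; exact ad.h2)
      (by rw [g3]; exact ad.h3) (by rw [g4]; exact hA0) (by rw [g4, g3, E1]; exact h.hA) hn ho hco
      (by rw [g2, g3, g4, g5, g6]; exact h1) (by rw [g2, g3, g4, g5, g6]; exact h2)
    rw [t2, t3] at t5
    have t6 : SEq ⟨LS, u, v, L'⟩ ⟨lat li pi, ui, vi, lat l1' (p1' + i • u₁)⟩ :=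
      (k1.trans t1).trans t5
    refine ⟨ui, su, ?_⟩
    have t7 : IsArea (lat l1' (p1' + i • u₁)) a' := by
      have : cr l1' (p1' + i • u₁) = a' := by
        rw [cr_add_right, cr_smul_right, cr_swap l1' u₁, F1, F3]; ring
      exact ⟨h.ha'.1, p1' + i • u₁, l1', this, lat_comm _ _⟩
    have t8 : IsC (lat li pi) vi b := by
      have := isC_of_par (l := li) (p := pi) (v := vi) (by rw [g1]; exact hl0)
        (by rw [g3]; exact ad.h3)
      rwa [g3, E1] at this
    have t9 : cr ui l1' ≠ 0 ∨ cr ui (p1' + i • u₁) ≠ 0 := by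
      by_contra hn'
      push Not at hn'
      obtain ⟨l3, p3, l3', p3', ad3⟩ := exists_Ad t6.ok'
      have n1 := ad3.h6
      have : p3' ∈ lat l1' (p1' + i • u₁) := by
        have := ad3.hL'
        dsimp only at this
        rw [this]
        exact mem_lat.2 ⟨0, 1, by module⟩
      obtain ⟨x, y, e⟩ := mem_lat.1 this
      rw [← e] at n1
      dsimp only at n1
      rw [cr_add_right, cr_smul_right, cr_smul_right, hn'.1, hn'.2] at n1
      simp at n1
    exact h.min' _ _ t6 t7 t8 (by dsimp only; rw [g4]; exact h.hA) (isC_lat t9)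
  -- arithmetic
  by_cases hw0 : cr u u₁ = 0
  · rw [hw0]; simp
  have hl1 : cr u l1' ≠ 0 := by
    intro h9
    have e1 := plucker l1' u u₁ v
    rw [cr_swap l1' u, h9, cr_swap l1' u₁, F1] at e1
    have e2 : cr l1' v * cr u u₁ = 0 := by linarith
    rcases mul_eq_zero.1 e2 with e3 | e3
    · have := ad2.h5
      dsimp only at this
      omega
    · exact hw0 e3
  have hval : ∀ k : ℤ, ∀ ui : Z2, Shr (cr u₁ v) (k * P) u₁ W u ui → cr ui l1' = cr u l1' ∧
      cr u₁ v * cr ui (p1' + (k * P) • u₁) = cr u₁ v * cr u p1' -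
        k * (P * cr u u₁ * (B + a' - cr u₁ v)) := by
    intro k ui su
    have e1 := su.cross_other l1'
    have e2 := su.cross_other p1'
    have e3 := su.cross_other u₁
    rw [W3] at e1
    rw [W4, cr_swap u₁ u] at e2
    rw [cr_swap W u₁, W1] at e3
    constructor
    · have : (cr ui l1' - cr u l1') * cr u₁ v = 0 := by linarith
      rcases mul_eq_zero.1 this with h9 | h9
      · linarith
      · omega
    · rw [cr_add_right, cr_smul_right]
      linear_combination e2 + (k * P) * e3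
  obtain ⟨u1i, su1, _⟩ := key 1
  obtain ⟨_, v1⟩ := hval 1 u1i su1
  set γ := cr u p1' - cr u1i (p1' + (1 * P) • u₁) with hγ'
  have hγA : cr u₁ v * γ = P * cr u u₁ * (B + a' - cr u₁ v) := by
    rw [hγ']; linear_combination -v1
  have hL'1 : L' = lat l1' p1' := ad2.hL'
  have hg : (Int.gcd (cr u l1') (cr u p1') : ℤ) = b' := by
    have := isC_lat (x := l1') (y := p1') (u := u) (Or.inl hl1)
    rw [← hL'1] at this
    exact this.unique h.hb'
  have hfin : b' ∣ γ := by
    refine crt_min2 h.hb'.1 hl1 hg fun k => ?_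
    obtain ⟨ui, su, hle⟩ := key k
    obtain ⟨w1, w2⟩ := hval k ui su
    have w3 : cr ui (p1' + (k * P) • u₁) = cr u p1' - k * γ := by
      have : (cr ui (p1' + (k * P) • u₁) - (cr u p1' - k * γ)) * cr u₁ v = 0 := by
        linear_combination w2 + k * hγA
      rcases mul_eq_zero.1 this with h9 | h9
      · linarith
      · omega
    rw [w1, w3] at hle
    exact hle
  rw [← hγA, mul_comm b']
  exact mul_dvd_mul_left _ hfin

/-- a shear along `u` which preserves the lattice `⟨f₁, f₂⟩` -/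
theorem shear_lattice {f1 f2 u v W : Z2} {hh B a' P m : ℤ} (hdet0 : 0 < cr f2 f1)
    (hA : 0 < cr u v) (hhh : IsC (lat f1 f2) u hh) (W1 : cr u W = 0)
    (W2 : B * cr W v = (B + a') * cr u v) (hB0 : 0 < B)
    (hPm : m * (cr f2 f1 * cr u v * B) = P * hh ^ 2 * (B + a')) (k : ℤ) :
    ∃ e1 e2 : Z2, lat e1 e2 = lat f1 f2 ∧ Shr (cr u v) (k * P) u W f1 e1 ∧
      Shr (cr u v) (k * P) u W f2 e2 := by
  obtain ⟨ρ0, π, r1, r2, r3, r4, r5, r6⟩ := exists_adapted (l := f1) (p := f2) (u := u) (v := v)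
    hdet0 hA
  have hhπ : cr u π = hh := by
    have : IsC (lat ρ0 π) u (cr u π) := isC_adapted r3 r5
    rw [r1] at this
    exact this.unique hhh
  have hh0 : 0 < hh := hhh.1
  set ρ := -ρ0 with hρ
  have q1 : cr u ρ = 0 := by rw [hρ, cr_neg_right, r3, neg_zero]
  have q2 : hh * cr ρ v = cr f2 f1 * cr u v := by
    rw [hρ, cr_neg_left, cr_swap ρ0 v, neg_neg, ← hhπ]; exact r6
  obtain ⟨γ1, γ2, hγ⟩ : ∃ γ1 γ2 : ℤ, ρ = γ1 • f1 + γ2 • f2 := by
    have : ρ ∈ lat f1 f2 := by
      rw [← r1, hρ]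
      exact (lat ρ0 π).neg_mem (mem_lat.2 ⟨1, 0, by module⟩)
    obtain ⟨x, y, e⟩ := mem_lat.1 this
    exact ⟨x, y, e.symm⟩
  obtain ⟨c1, hc1⟩ : hh ∣ cr u f1 := hhh.2.1 _ (mem_lat.2 ⟨1, 0, by module⟩)
  obtain ⟨c2, hc2⟩ : hh ∣ cr u f2 := hhh.2.1 _ (mem_lat.2 ⟨0, 1, by module⟩)
  have hcγ : γ1 * c1 + γ2 * c2 = 0 := by
    have e1 : cr u ρ = hh * (γ1 * c1 + γ2 * c2) := by
      rw [hγ, cr_add_right, cr_smul_right, cr_smul_right, hc1, hc2]; ring
    rw [q1] at e1
    rcases mul_eq_zero.1 e1.symm with e2 | e2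
    · omega
    · exact e2
  have hmρ : (cr u v * m) • ρ = (P * hh) • W := by
    have e1 : (cr u v * m) • ρ - (P * hh) • W = 0 := by
      refine eq_zero_of_cr hA.ne' ?_ ?_
      · rw [cr_sub_right, cr_smul_right, cr_smul_right, q1, W1]; ring
      · rw [cr_sub_left, cr_smul_left, cr_smul_left]
        have e2 : (cr u v * m * cr ρ v - P * hh * cr W v) * (hh * B) = 0 := by
          linear_combination (cr u v * m * B) * q2 - (P * hh ^ 2) * W2 + (cr u v) * hPm
        rcases mul_eq_zero.1 e2 with e3 | e3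
        · exact e3
        · exact absurd e3 (mul_ne_zero hh0.ne' hB0.ne')
    exact sub_eq_zero.1 e1
  refine ⟨f1 + (k * m * c1) • ρ, f2 + (k * m * c2) • ρ, lat_shear hγ hcγ, ?_, ?_⟩
  · unfold Shr
    rw [hc1, smul_add, smul_smul]
    have : cr u v * (k * m * c1) = (k * c1) * (cr u v * m) := by ring
    rw [this, mul_smul, hmρ, smul_smul]
    congr 2
    ring
  · unfold Shr
    rw [hc2, smul_add, smul_smul]
    have : cr u v * (k * m * c2) = (k * c2) * (cr u v * m) := by ring
    rw [this, mul_smul, hmρ, smul_smul]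
    congr 2
    ring

/-- LOOP (E4) of helper23: after an H-twist of the extremal state `S` which shears `(L, u)`,
`B = gcd (L' × u₁)`, `u₁ = u + q v + τ l + n p`, satisfies `A B ∣ P (u × u₁) (b' + a' - A)`.
All products of `u, v, l, p` are unchanged. -/
theorem ExtA.loop4 {S : PSt} {a' b b' : ℤ} (h : ExtA S a' b b') {l p l' p' : Z2}
    (ad : Ad S l p l' p') (q τ n : ℤ) {hh P m : ℤ} (hhh : IsC S.L S.u hh)
    (hPm : m * (cr p l * cr S.u S.v * b') = P * hh ^ 2 * (b' + a')) :
    ∃ (T : PSt) (l₁ p₁ p₁' : Z2) (B : ℤ), SEq S T ∧ ExtA T a' b b' ∧ Ad T l₁ p₁ l' p₁' ∧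
      T.u = S.u ∧ T.L = S.L ∧ cr T.u T.v = cr S.u S.v ∧ cr T.u l₁ = cr S.u l ∧
      cr T.u p₁ = cr S.u p ∧ cr p₁ l₁ = cr p l ∧
      (cr S.u (S.u + q • S.v + τ • l + n • p) ≠ 0 →
        IsC T.L' (T.u + q • T.v + τ • l₁ + n • p₁) B) ∧
      cr S.u S.v * B ∣ P * cr S.u (S.u + q • S.v + τ • l + n • p) * (b' + a' - cr S.u S.v) := by
  obtain ⟨LS, u, v, L'⟩ := S
  dsimp only at hhh hPm ⊢
  have E1 : cr p v = b := ad.isC.unique h.hb
  have E2 : cr u p' = b' := ad.isC'.unique h.hb'
  have E3 : cr l' p' = a' := ad.isArea'.unique h.ha'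
  have hb0 := h.bpos
  have hb0' : 0 < b' := h.hb'.1
  have hA0 : 0 < cr u v := ad.hA
  have hl0 : cr l v = 0 := ad.h1
  have hl'0 : cr u l' = 0 := ad.h4
  have hLS : LS = lat l p := ad.hL
  have hL'S : L' = lat l' p' := ad.hL'
  set W := u + l' with hW
  have W1 : cr u W = 0 := by rw [hW, cr_add_right, cr_self, hl'0]; ring
  have F4 : a' * cr u v = cr l' v * b' := by
    have := ad.area'
    dsimp only at this
    rw [E2, E3] at this
    exact this
  have W2 : b' * cr W v = (b' + a') * cr u v := by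
    rw [hW, cr_add_left]
    linear_combination -F4
  have W3 : cr W l' = 0 := by rw [hW, cr_add_left, cr_self, hl'0]; ring
  have W4 : cr W p' = b' + a' := by rw [hW, cr_add_left, E2, E3]
  set u₁ := u + q • v + τ • l + n • p with hu₁
  -- all twisted states
  have key : ∀ k : ℤ, ∃ (T : PSt) (l₁ p₁ : Z2), SEq ⟨LS, u, v, L'⟩ T ∧ ExtA T a' b b' ∧
      Ad T l₁ p₁ l' (p' + (k * P) • u) ∧ T.u = u ∧ T.L = LS ∧ cr T.u T.v = cr u v ∧
      cr T.u l₁ = cr u l ∧ cr T.u p₁ = cr u p ∧ cr p₁ l₁ = cr p l ∧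
      T.L' = lat l' (p' + (k * P) • u) ∧
      cr (T.u + q • T.v + τ • l₁ + n • p₁) l' = cr u₁ l' ∧
      cr u v * cr (T.u + q • T.v + τ • l₁ + n • p₁) (p' + (k * P) • u) =
        cr u v * cr u₁ p' + k * (P * cr u u₁ * (b' + a' - cr u v)) := by
    intro k
    obtain ⟨e1, e2, g1, s1, s2⟩ := shear_lattice (f1 := l) (f2 := p) (u := u) (v := v) (W := W)
      ad.pos hA0 (by rw [← hLS]; exact hhh) W1 W2 hb0' hPm k
    have sv : Shr (cr u v) (k * P) u W v (v + (k * P) • W) := by
      unfold Shr; module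
    have hA0' : cr u v ≠ 0 := hA0.ne'
    have t1 := ad.twH h.ok (by rw [E2]; exact (h.rig ad).2.2.2.2.1) (k * P)
    dsimp only at t1
    have c1 : cr e1 (v + (k * P) • W) = cr l v := Shr.cross hA0' W1 s1 sv
    have c2 : cr e2 (v + (k * P) • W) = cr p v := Shr.cross hA0' W1 s2 sv
    have c3 : cr u (v + (k * P) • W) = cr u v := Shr.cross hA0' W1 (Shr.self _ _ _ _) sv
    have c4 : cr u e1 = cr u l := Shr.cross hA0' W1 (Shr.self _ _ _ _) s1
    have c5 : cr u e2 = cr u p := Shr.cross hA0' W1 (Shr.self _ _ _ _) s2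
    have c6 : cr e2 e1 = cr p l := Shr.cross hA0' W1 s2 s1
    have c7 : cr l' (v + (k * P) • W) = cr l' v := by
      rw [cr_add_right, cr_smul_right, cr_swap l' W, W3]; ring
    have c8 : cr u (p' + (k * P) • u) = cr u p' := by
      rw [cr_add_right, cr_smul_right, cr_self]; ring
    have t2 : IsArea (lat l' (p' + (k * P) • u)) a' := by
      have : cr l' (p' + (k * P) • u) = a' := by
        rw [cr_add_right, cr_smul_right, cr_swap l' u, hl'0, E3]; ring
      exact ⟨h.ha'.1, p' + (k * P) • u, l', this, lat_comm _ _⟩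
    have t3 : IsC LS (v + (k * P) • W) b := by
      have := isC_of_par (l := e1) (p := e2) (v := v + (k * P) • W) (by rw [c1]; exact hl0)
        (by rw [c2]; exact ad.h3)
      rw [g1, c2, E1, ← hLS] at this
      exact this
    have t4 : IsC (lat l' (p' + (k * P) • u)) u b' := by
      have : IsC (lat l' (p' + (k * P) • u)) u (cr u (p' + (k * P) • u)) :=
        isC_adapted hl'0 (by rw [c8, E2]; exact hb0')
      rwa [c8, E2] at this
    have ext : ExtA ⟨LS, u, v + (k * P) • W, lat l' (p' + (k * P) • u)⟩ a' b b' :=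
      h.of_eq t1 t2 t3 (by dsimp only; rw [c3]; exact h.hA) t4
    have ad1 : Ad ⟨LS, u, v + (k * P) • W, lat l' (p' + (k * P) • u)⟩ e1 e2 l'
        (p' + (k * P) • u) := by
      refine ⟨?_, rfl, ?_, ?_, ?_, ?_, ?_, ?_, ?_⟩
      · dsimp only; rw [g1]; exact hLS
      · dsimp only; rw [c1]; exact hl0
      · dsimp only; rw [c4]; exact ad.h2
      · dsimp only; rw [c2]; exact ad.h3
      · exact hl'0
      · dsimp only; rw [c7]; exact ad.h5
      · dsimp only; rw [c8]; exact ad.h6
      · dsimp only; rw [c3]; exact hA0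
    have su : Shr (cr u v) (k * P) u W u₁
        (u + q • (v + (k * P) • W) + τ • e1 + n • e2) := by
      rw [hu₁]
      exact (((Shr.self _ _ _ _).add (sv.smul q)).add (s1.smul τ)).add (s2.smul n)
    have d1 := su.cross_other l'
    have d2 := su.cross_other p'
    have d3 := su.cross_other u
    rw [W3] at d1
    rw [W4] at d2
    rw [cr_swap W u, W1, cr_swap u₁ u] at d3
    refine ⟨_, e1, e2, t1, ext, ad1, rfl, rfl, c3, c4, c5, c6, rfl, ?_, ?_⟩
    · have : (cr (u + q • (v + (k * P) • W) + τ • e1 + n • e2) l' - cr u₁ l') * cr u v = 0 := by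
        linarith
      rcases mul_eq_zero.1 this with h9 | h9
      · dsimp only; linarith
      · omega
    · dsimp only
      rw [cr_add_right, cr_smul_right]
      linear_combination d2 + (k * P) * d3
  by_cases hw0 : cr u u₁ = 0
  · obtain ⟨T, l₁, p₁, x1, x2, x3, x4, x5, x6, x7, x8, x9, x10, x11, x12⟩ := key 0
    exact ⟨T, l₁, p₁, _, 1, x1, x2, x3, x4, x5, x6, x7, x8, x9, fun h9 => absurd hw0 h9,
      by rw [hw0]; simp⟩
  have hl1 : cr u₁ l' ≠ 0 := by
    intro h9
    have e1 := plucker l' u₁ u v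
    rw [cr_swap l' u₁, h9, cr_swap l' u, hl'0] at e1
    have e2 : cr l' v * cr u u₁ = 0 := by rw [cr_swap u u₁]; linarith
    rcases mul_eq_zero.1 e2 with e3 | e3
    · have := ad.h5
      dsimp only at this
      omega
    · exact hw0 e3
  obtain ⟨T1, l1, p1, _, _, _, _, _, _, _, _, _, _, _, x12⟩ := key 1
  set γ := cr (T1.u + q • T1.v + τ • l1 + n • p1) (p' + (1 * P) • u) - cr u₁ p' with hγ'
  have hγA : cr u v * γ = P * cr u u₁ * (b' + a' - cr u v) := by
    rw [hγ']; linear_combination x12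
  obtain ⟨B, ⟨k0, hk0⟩, hmin⟩ := exists_min_int
    (P := fun c => ∃ k : ℤ, (Int.gcd (cr u₁ l') (cr u₁ p' + k * γ) : ℤ) = c) (by
      rintro c ⟨k, rfl⟩
      have : 0 < Int.gcd (cr u₁ l') (cr u₁ p' + k * γ) := Int.gcd_pos_of_ne_zero_left _ hl1
      exact_mod_cast this) ⟨_, 0, rfl⟩
  have hB0 : 0 < B := by
    rw [← hk0]
    have : 0 < Int.gcd (cr u₁ l') (cr u₁ p' + k0 * γ) := Int.gcd_pos_of_ne_zero_left _ hl1
    exact_mod_cast this
  obtain ⟨T, l₁, p₁, y1, y2, y3, y4, y5, y6, y7, y8, y9, y10, y11, y12⟩ := key k0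
  refine ⟨T, l₁, p₁, _, B, y1, y2, y3, y4, y5, y6, y7, y8, y9, fun _ => ?_, ?_⟩
  · have e1 : cr (T.u + q • T.v + τ • l₁ + n • p₁) (p' + (k0 * P) • u) = cr u₁ p' + k0 * γ := by
      have : (cr (T.u + q • T.v + τ • l₁ + n • p₁) (p' + (k0 * P) • u) -
          (cr u₁ p' + k0 * γ)) * cr u v = 0 := by
        linear_combination y12 - k0 * hγA
      rcases mul_eq_zero.1 this with h9 | h9
      · linarith
      · omega
    have := isC_lat (x := l') (y := p' + (k0 * P) • u)
      (u := T.u + q • T.v + τ • l₁ + n • p₁) (Or.inl (by rw [y11]; exact hl1))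
    rw [y11, e1, hk0, ← y10] at this
    exact this
  · have : B ∣ γ := by
      refine crt_min2 hB0 hl1 hk0 fun k => hmin _ ⟨k0 - k, ?_⟩
      congr 2
      ring
    rw [← hγA]
    exact mul_dvd_mul_left _ this

end Pool.Agent.H4G
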