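import Pool.Agent.H4G.Arith.ExtA

/-!
# The loop lemmas (helper19, after helper23)

`S` extremal, `T` an exit of `S` (same `v` and `L'`). An `H`-twist at `T` by a multiple `i` of `P`
followed by the inverse of the exit is the shear along `u₁`; if this shear maps `L₁` to itself then
the end of the loop is a state with the same `a'`, `b` and `A`, and minimality of `b'` applies.
-/

set_option autoImplicit false

namespace Pool.Agent.H4G

/-- the shear along `u`: `D (z' - z) = s (u × z) u` -/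
def Sh (D s : ℤ) (u z z' : Z2) : Prop := D • (z' - z) = (s * cr u z) • u

theorem Sh.self {D s : ℤ} {u : Z2} : Sh D s u u u := by
  unfold Sh
  rw [sub_self, smul_zero, cr_self, mul_zero, zero_smul]

theorem Sh.add {D s : ℤ} {u z z' w w' : Z2} (hz : Sh D s u z z') (hw : Sh D s u w w') :
    Sh D s u (z + w) (z' + w') := by
  unfold Sh at *
  have e : z' + w' - (z + w) = (z' - z) + (w' - w) := by abel
  rw [e, smul_add, hz, hw, cr_add_right, ← add_smul]
  congr 1; ring

theorem Sh.smul {D s : ℤ} {u z z' : Z2} (hz : Sh D s u z z') (k : ℤ) :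
    Sh D s u (k • z) (k • z') := by
  unfold Sh at *
  rw [← smul_sub, smul_comm, hz, smul_smul, cr_smul_right]
  congr 1; ring

theorem Sh.sub {D s : ℤ} {u z z' w w' : Z2} (hz : Sh D s u z z') (hw : Sh D s u w w') :
    Sh D s u (z - w) (z' - w') := by
  have := hz.add (hw.smul (-1))
  rwa [neg_one_smul, neg_one_smul, ← sub_eq_add_neg, ← sub_eq_add_neg] at this

theorem Sh.cr_u {D s : ℤ} {u z z' : Z2} (hD : D ≠ 0) (hz : Sh D s u z z') : cr u z' = cr u z := by
  unfold Sh at hz
  have h1 := congrArg (cr u) hz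
  rw [cr_smul_right, cr_smul_right, cr_self, mul_zero, cr_sub_right] at h1
  rcases mul_eq_zero.1 h1 with h | h
  · exact absurd h hD
  · linarith

theorem Sh.cr_eq {D s : ℤ} {u z z' w w' : Z2} (hD : D ≠ 0) (hz : Sh D s u z z')
    (hw : Sh D s u w w') : cr z' w' = cr z w := by
  have hz2 := hz.cr_u hD
  unfold Sh at hz hw
  -- `D (z' - z) × w' = s (u × z) (u × w')`, `z × D (w' - w) = s (u × w) (z × u)`
  have h1 := congrArg (fun x => cr x w') hz
  have h2 := congrArg (cr z) hw
  rw [cr_smul_left, cr_smul_left, cr_sub_left] at h1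
  rw [cr_smul_right, cr_smul_right, cr_sub_right] at h2
  have h3 : cr u w' = cr u w := by
    have h4 := congrArg (cr u) hw
    rw [cr_smul_right, cr_smul_right, cr_self, mul_zero, cr_sub_right] at h4
    rcases mul_eq_zero.1 h4 with h | h
    · exact absurd h hD
    · linarith
  have h5 : D * (cr z' w' - cr z w) = 0 := by
    rw [h3] at h1
    rw [cr_swap z u] at h2
    linear_combination h1 + h2
  rcases mul_eq_zero.1 h5 with h | h
  · exact absurd h hD
  · linarith

/-- a sublattice of the same area is the lattice -/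
theorem lat_eq_of_mem {x y x' y' : Z2} (hx : x' ∈ lat x y) (hy : y' ∈ lat x y)
    (h : cr y' x' = cr y x) (h0 : cr y x ≠ 0) : lat x' y' = lat x y := by
  obtain ⟨α, β, e1⟩ := mem_lat.1 hx
  obtain ⟨γ, δ, e2⟩ := mem_lat.1 hy
  refine closure_pair_eq e1.symm e2.symm (Or.inl ?_)
  have d1 : cr y' x' = (α * δ - β * γ) * cr y x := by
    rw [← e1, ← e2]
    simp only [cr_add_left, cr_add_right, cr_smul_left, cr_smul_right, cr_self]
    rw [cr_swap x y]; ring
  rw [h] at d1
  have : (α * δ - β * γ - 1) * cr y x = 0 := by linear_combination -d1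
  rcases mul_eq_zero.1 this with h | h
  · linarith
  · exact absurd h h0

/-- the shear maps `z ∈ L` to an element of `L` -/
theorem Sh.exists_mem {D s : ℤ} {u x y z : Z2} (h0 : cr y x ≠ 0)
    (h1 : D * cr y x ∣ s * cr u z * cr u x) (h2 : D * cr y x ∣ s * cr u z * cr u y)
    (hz : z ∈ lat x y) : ∃ z' ∈ lat x y, Sh D s u z z' := by
  obtain ⟨t1, e1⟩ := h1
  obtain ⟨t2, e2⟩ := h2
  refine ⟨z + (t1 • y - t2 • x), ?_, ?_⟩
  · obtain ⟨m, n, rfl⟩ := mem_lat.1 hz
    exact mem_lat.2 ⟨m - t2, n + t1, by module⟩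
  · unfold Sh
    have h3 := cr_expand y x u
    -- `cr y x • u = cr u x • y - cr u y • x`
    apply smul_inj h0
    have e3 : cr y x • (D • (z + (t1 • y - t2 • x) - z)) =
        (D * cr y x * t1) • y - (D * cr y x * t2) • x := by module
    have e4 : cr y x • ((s * cr u z) • u) = (s * cr u z) • (cr y x • u) := by module
    rw [e3, e4, h3, ← e1, ← e2]
    module

/-- the `gcd` CRT lemma: `gcd (X, Z + k Y)` is minimal for `k = 0` -/
theorem crt_min3 {c X Y Z : ℤ} (hc : 0 < c) (hX : X ≠ 0) (hXZ : (Int.gcd X Z : ℤ) = c)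
    (hmin : ∀ k : ℤ, c ≤ Int.gcd X (Z + k * Y)) : c ∣ Y := by
  by_contra hn
  obtain ⟨X1, hX1⟩ : c ∣ X := by rw [← hXZ]; exact Int.gcd_dvd_left _ _
  obtain ⟨Z1, hZ1⟩ : c ∣ Z := by rw [← hXZ]; exact Int.gcd_dvd_right _ _
  have hco : IsCoprime X1 Z1 := by
    rw [Int.isCoprime_iff_gcd_eq_one]
    have h1 : (Int.gcd X Z : ℤ) = c * Int.gcd X1 Z1 := by
      rw [hX1, hZ1, Int.gcd_mul_left]
      push_cast
      rw [abs_of_pos hc]
    rw [hXZ] at h1
    have h2 : c * ((Int.gcd X1 Z1 : ℤ) - 1) = 0 := by linarith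
    rcases mul_eq_zero.1 h2 with h | h
    · omega
    · have : (Int.gcd X1 Z1 : ℤ) = 1 := by linarith
      exact_mod_cast this
  -- `g = gcd (c, Y) < c`
  set g : ℤ := ((Int.gcd c Y : ℕ) : ℤ) with hg
  have hg0 : 0 < g := by
    rw [hg]
    exact_mod_cast Int.gcd_pos_of_ne_zero_left _ hc.ne'
  obtain ⟨c1, hc1⟩ : g ∣ c := Int.gcd_dvd_left _ _
  obtain ⟨Y1, hY1⟩ : g ∣ Y := Int.gcd_dvd_right _ _
  have hcy : IsCoprime c1 Y1 := by
    rw [Int.isCoprime_iff_gcd_eq_one]
    have h1 : (Int.gcd c Y : ℤ) = g * Int.gcd c1 Y1 := by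
      conv_lhs => rw [hc1, hY1, Int.gcd_mul_left]
      push_cast
      rw [abs_of_pos hg0]
    rw [← hg] at h1
    have h2 : g * ((Int.gcd c1 Y1 : ℤ) - 1) = 0 := by linarith
    rcases mul_eq_zero.1 h2 with h | h
    · omega
    · have : (Int.gcd c1 Y1 : ℤ) = 1 := by linarith
      exact_mod_cast this
  have hc1pos : 0 < c1 := by
    by_contra h
    push Not at h
    have := mul_nonpos_of_nonneg_of_nonpos hg0.le h
    linarith
  have hc1ne : c1 ≠ 1 := by
    rintro rfl
    apply hn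
    rw [hc1, mul_one]; exact ⟨Y1, hY1⟩
  -- `k` with `c₁ Z₁ + k Y₁` prime to `c₁ X₁`
  have hX1ne : X1 ≠ 0 := by
    rintro rfl
    exact hX (by rw [hX1, mul_zero])
  obtain ⟨k, hk⟩ : ∃ k : ℤ, ∀ l : ℕ, l.Prime → (l : ℤ) ∣ c1 * X1 → ¬ (l : ℤ) ∣ c1 * Z1 + k * Y1 := by
    apply crt_exists (c1 * X1) (mul_ne_zero hc1pos.ne' hX1ne)
      (fun l k => ¬ (l : ℤ) ∣ c1 * Z1 + k * Y1)
    · intro l hl hd
      by_cases h1 : (l : ℤ) ∣ c1
      · refine ⟨1, fun h2 => ?_⟩
        have h3 : (l : ℤ) ∣ Y1 := by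
          have := dvd_sub h2 (h1.mul_right Z1)
          simpa using this
        exact not_dvd_of_isCoprime hcy hl h3 h1
      · refine ⟨0, fun h2 => ?_⟩
        rw [zero_mul, add_zero] at h2
        have hp := Nat.prime_iff_prime_int.1 hl
        have h3 : (l : ℤ) ∣ X1 := (hp.dvd_or_dvd hd).resolve_left h1
        have h4 : (l : ℤ) ∣ Z1 := (hp.dvd_or_dvd h2).resolve_left h1
        exact not_dvd_of_isCoprime hco hl h4 h3
    · intro l hl hd k k' h1 h2 h3
      apply h2
      have : c1 * Z1 + k * Y1 = (c1 * Z1 + k' * Y1) - (k' - k) * Y1 := by ring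
      rw [this]
      exact dvd_sub h3 (h1.mul_right _)
  have hk1 : Int.gcd (c1 * X1) (c1 * Z1 + k * Y1) = 1 := by
    rw [← Int.isCoprime_iff_gcd_eq_one]
    exact (isCoprime_of_prime fun l hl h1 h2 => hk l hl h1 h2).symm
  have h1 := hmin k
  have h2 : (Int.gcd X (Z + k * Y) : ℤ) = g := by
    have e1 : X = g * (c1 * X1) := by rw [hX1, hc1]; ring
    have e2 : Z + k * Y = g * (c1 * Z1 + k * Y1) := by rw [hZ1, hY1, hc1]; ring
    rw [e1, e2, Int.gcd_mul_left, hk1]
    push_cast
    rw [abs_of_pos hg0, mul_one]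
  rw [h2] at h1
  have h3 : c1 ≤ 1 := by
    by_contra h
    push Not at h
    have := mul_lt_mul_of_pos_left h hg0
    linarith
  omega

/-- the `H`-twist moves `v` by the shear along `u` -/
theorem Ad.sh_v {S : PSt} {l p l' p' : Z2} (h : Ad S l p l' p') (i : ℤ) :
    Sh (cr S.u p' * cr S.u S.v) (i * (cr S.u p' + cr l' p')) S.u S.v (S.v + i • (S.u + l')) := by
  unfold Sh
  have h1 := cr_expand S.u S.v l'
  rw [cr_swap l' S.u, h.h4, neg_zero, zero_smul, sub_zero] at h1
  have h2 := h.area'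
  have e1 : S.v + i • (S.u + l') - S.v = i • (S.u + l') := by abel
  rw [e1]
  have e2 : (cr S.u p' * cr S.u S.v) • (i • (S.u + l')) =
      (i * cr S.u p' * cr S.u S.v) • S.u + (i * cr S.u p') • (cr S.u S.v • l') := by module
  have e3 : i * (cr S.u p' + cr l' p') * cr S.u S.v =
      i * cr S.u p' * cr S.u S.v + (i * cr S.u p') * cr l' S.v := by linear_combination i * h2
  rw [e2, h1, e3]; module

/-- the products of a sheared vector with the twisted lattice -/
theorem Ad.sh_cr {S : PSt} {l p l' p' : Z2} (h : Ad S l p l' p') {i : ℤ} {w w2 : Z2}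
    (hw : Sh (cr S.u p' * cr S.u S.v) (i * (cr S.u p' + cr l' p')) S.u w w2) :
    cr w2 l' = cr w l' ∧ ∃ q, cr w2 (p' + i • S.u) = cr w p' + q ∧
      cr S.u S.v * q = i * (cr S.u w * (cr S.u p' + cr l' p' - cr S.u S.v)) := by
  have hA := h.hA
  have hg := h.h6
  have hD : cr S.u p' * cr S.u S.v ≠ 0 := (mul_pos hg hA).ne'
  have h0 := hw.cr_u hD
  unfold Sh at hw
  have h1 := congrArg (fun x => cr x l') hw
  have h2 := congrArg (fun x => cr x p') hw
  rw [cr_smul_left, cr_smul_left, cr_sub_left, h.h4, mul_zero] at h1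
  rw [cr_smul_left, cr_smul_left, cr_sub_left] at h2
  refine ⟨?_, cr w2 (p' + i • S.u) - cr w p', by ring, ?_⟩
  · rcases mul_eq_zero.1 h1 with h | h
    · exact absurd h hD
    · linarith
  · rw [cr_add_right, cr_smul_right, cr_swap w2 S.u, h0]
    have h3 : cr S.u p' * (cr S.u S.v * (cr w2 p' - cr w p') -
        i * (cr S.u w * (cr S.u p' + cr l' p'))) = 0 := by linear_combination h2
    rcases mul_eq_zero.1 h3 with h | h
    · exact absurd h hg.ne'
    · linear_combination h

/-- minimality along a family -/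
theorem loop_fin {c A X Z W : ℤ} (hc : 0 < c) (hA : A ≠ 0) (hX : X ≠ 0)
    (hXZ : (Int.gcd X Z : ℤ) = c)
    (h : ∀ k : ℤ, ∃ q, A * q = k * W ∧ c ≤ Int.gcd X (Z + q)) : c * A ∣ W := by
  obtain ⟨q1, h1, -⟩ := h 1
  have h2 : c ∣ q1 := crt_min3 (Z := Z) hc hX hXZ fun k => by
    obtain ⟨q, h3, h4⟩ := h k
    have : q = k * q1 := by
      have h5 : A * (q - k * q1) = 0 := by linear_combination h3 - k * h1
      rcases mul_eq_zero.1 h5 with h | h
      · exact absurd h hA
      · linarith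
    rwa [this] at h4
  obtain ⟨t, ht⟩ := h2
  exact ⟨t, by rw [← one_mul W, ← h1, ht]; ring⟩

/-- (E4): the exit of least `B` among the `H`-twists that fix the left data -/
theorem ExtA.loopS {S : PSt} {a' b c : ℤ} (h : ExtA S a' b c) {l p l' p' : Z2}
    (ad : Ad S l p l' p') {o τ n B P : ℤ} {w1 : Z2}
    (hw1 : w1 = S.u + o • S.v + τ • l + n • p) (hB : IsC S.L' w1 B) (hw0 : cr S.u w1 ≠ 0)
    (hmin : ∀ (S2 : PSt) (l2 p2 l2' p2' : Z2) (B2 : ℤ), SEq S S2 → ExtA S2 a' b c →
      Ad S2 l2 p2 l2' p2' → cr S2.u S2.v = cr S.u S.v → cr p2 S2.v = cr p S.v →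
      cr S2.u l2 = cr S.u l → cr S2.u p2 = cr S.u p →
      IsC S2.L' (S2.u + o • S2.v + τ • l2 + n • p2) B2 → B ≤ B2)
    (hP : ∀ z ∈ S.L, ∀ z' ∈ S.L,
      c * cr S.u S.v * cr p l ∣ P * (c + a') * (cr S.u z * cr S.u z')) :
    B * cr S.u S.v ∣ P * (cr S.u w1 * (c + a' - cr S.u S.v)) := by
  obtain ⟨E1, E2, E3, hA, hA', -⟩ := h.rig ad
  have hA0 := ad.hA
  have hc0 := h.hb'.1
  have hb0 := h.bpos
  have ha0 := ad.pos
  have hD : c * cr S.u S.v ≠ 0 := (mul_pos hc0 hA0).ne'
  have hX : cr w1 l' ≠ 0 := by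
    -- `A l' = e' u`
    intro h0
    have h1 := cr_expand S.u S.v l'
    rw [cr_swap l' S.u, ad.h4, neg_zero, zero_smul, sub_zero] at h1
    have h2 := congrArg (cr w1) h1
    rw [cr_smul_right, cr_smul_right, h0, mul_zero, cr_swap w1 S.u] at h2
    have h3 : cr l' S.v * cr S.u w1 = 0 := by linarith
    rcases mul_eq_zero.1 h3 with h | h
    · exact absurd h ad.h5.ne'
    · exact hw0 h
  have hXZ : (Int.gcd (cr w1 l') (cr w1 p') : ℤ) = B := by
    have := isC_lat (x := l') (y := p') (u := w1) (Or.inl hX)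
    rw [← ad.hL'] at this
    exact this.unique hB
  refine loop_fin hB.1 hA0.ne' hX hXZ fun k => ?_
  -- the twist
  have k1 := ad.twH h.ok (by rw [E2]; exact hA') (k * P)
  have sv := ad.sh_v (k * P)
  rw [E2, E3] at sv
  have hmem : ∀ z ∈ S.L, ∃ z' ∈ S.L, Sh (c * cr S.u S.v) (k * P * (c + a')) S.u z z' := by
    intro z hz
    rw [ad.hL] at hz ⊢
    refine Sh.exists_mem ha0.ne' ?_ ?_ hz
    · have := hP z (by rw [ad.hL]; exact hz) l (by rw [ad.hL]; exact mem_lat.2 ⟨1, 0, by module⟩)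
      have e : k * P * (c + a') * cr S.u z * cr S.u l =
        k * (P * (c + a') * (cr S.u z * cr S.u l)) := by ring
      rw [e]; exact this.mul_left _
    · have := hP z (by rw [ad.hL]; exact hz) p (by rw [ad.hL]; exact mem_lat.2 ⟨0, 1, by module⟩)
      have e : k * P * (c + a') * cr S.u z * cr S.u p =
        k * (P * (c + a') * (cr S.u z * cr S.u p)) := by ring
      rw [e]; exact this.mul_left _
  have ml : l ∈ S.L := by rw [ad.hL]; exact mem_lat.2 ⟨1, 0, by module⟩
  have mp : p ∈ S.L := by rw [ad.hL]; exact mem_lat.2 ⟨0, 1, by module⟩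
  obtain ⟨l2, ml2, sl⟩ := hmem l ml
  obtain ⟨p2, mp2, sp⟩ := hmem p mp
  have hL2 : lat l2 p2 = S.L := by
    rw [ad.hL] at ml2 mp2 ⊢
    exact lat_eq_of_mem ml2 mp2 (sp.cr_eq hD sl) ha0.ne'
  set v2 := S.v + (k * P) • (S.u + l') with hv2
  set S2 : PSt := ⟨S.L, S.u, v2, lat l' (p' + (k * P) • S.u)⟩ with hS2
  have e1 : cr l2 v2 = 0 := by rw [sl.cr_eq hD sv, ad.h1]
  have e2 : cr p2 v2 = b := by rw [sp.cr_eq hD sv, E1]
  have e3 : cr S.u v2 = cr S.u S.v := sv.cr_u hD
  have e4 : cr S.u l2 = cr S.u l := sl.cr_u hD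
  have e5 : cr S.u p2 = cr S.u p := sp.cr_u hD
  have e6 : cr S.u (p' + (k * P) • S.u) = c := by rw [cr_add_right, cr_smul_right, cr_self, E2]; ring
  have e7 : cr l' v2 = cr l' S.v := by
    rw [hv2, cr_add_right, cr_smul_right, cr_add_right, cr_self, cr_swap l' S.u, ad.h4]; ring
  have ad2 : Ad S2 l2 p2 l' (p' + (k * P) • S.u) :=
    ⟨hL2.symm, rfl, e1, by rw [show S2.u = S.u from rfl, e4]; exact ad.h2,
      by rw [show S2.v = v2 from rfl, e2]; exact hb0, ad.h4,
      by rw [show S2.v = v2 from rfl, e7]; exact ad.h5,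
      by rw [show S2.u = S.u from rfl, e6]; exact hc0,
      by rw [show S2.u = S.u from rfl, show S2.v = v2 from rfl, e3]; exact hA0⟩
  have k5 : IsArea S2.L' a' := by
    have h1 : cr l' (p' + (k * P) • S.u) = a' := by
      rw [cr_add_right, cr_smul_right, cr_swap l' S.u, ad.h4, E3]; ring
    exact ⟨h.ha'.1, p' + (k * P) • S.u, l', h1, lat_comm _ _⟩
  have k6 : IsC S2.L S2.v b := by
    have := ad2.isC
    rwa [show cr p2 S2.v = b from e2] at this
  have k7 : IsC S2.L' S2.u c := by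
    have := ad2.isC'
    rwa [show cr S2.u (p' + (k * P) • S.u) = c from e6] at this
  have hext : ExtA S2 a' b c := h.of_eq k1 k5 k6 (by
    rw [show S2.u = S.u from rfl, show S2.v = v2 from rfl, e3]; exact hA) k7
  -- the exit vector
  set w2 := S2.u + o • S2.v + τ • l2 + n • p2 with hw2
  have sw : Sh (c * cr S.u S.v) (k * P * (c + a')) S.u w1 w2 := by
    rw [hw1, hw2]
    exact ((Sh.self.add (sv.smul o)).add (sl.smul τ)).add (sp.smul n)
  have sw' := sw
  rw [← E2, ← E3] at sw'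
  obtain ⟨f1, q, f2, f3⟩ := ad.sh_cr sw'
  refine ⟨q, ?_, ?_⟩
  · rw [f3, E2, E3]; ring
  · have m1 : IsC S2.L' w2 (Int.gcd (cr w1 l') (cr w1 p' + q) : ℕ) := by
      have := isC_lat (x := l') (y := p' + (k * P) • S.u) (u := w2) (Or.inl (by rw [f1]; exact hX))
      rwa [f1, f2] at this
    exact hmin S2 l2 p2 l' (p' + (k * P) • S.u) _ k1 hext ad2 e3 (by rw [E1]; exact e2) e4 e5 m1

/-- (E3): the `H`-twists at the exit which fix the left lattice, followed by the way back -/
theorem ExtA.loopT {S : PSt} {a' b c : ℤ} (h : ExtA S a' b c) {l p l' p' : Z2}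
    (ad : Ad S l p l' p') {o τ n B P : ℤ} (hn : 0 ≤ n) (ho : o = 1 ∨ o = -1)
    (hco : IsCoprime τ n) (h1 : n * cr p S.v < o * (τ * cr S.u l + n * cr S.u p))
    (h2 : o * (τ * cr S.u l + n * cr S.u p) ≤ cr p l)
    {w1 : Z2} (hw1 : w1 = S.u + o • S.v + τ • l + n • p) (hB : IsC S.L' w1 B)
    (hP : ∀ z ∈ lat (l - n • S.v) (p + τ • S.v), ∀ z' ∈ lat (l - n • S.v) (p + τ • S.v),
      B * cr w1 S.v * (cr p l - n * b) ∣ P * (B + a') * (cr w1 z * cr w1 z')) :
    c * cr w1 S.v ∣ P * (cr S.u w1 * (B + a' - cr w1 S.v)) := by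
  obtain ⟨E1, E2, E3, hA, hA', -⟩ := h.rig ad
  have hA0 := ad.hA
  have hc0 := h.hb'.1
  have hb0 := h.bpos
  have ha0 := ad.pos
  have hoo : o * o = 1 := by rcases ho with rfl | rfl <;> norm_num
  -- the state `T`
  have hco' : IsCoprime (o * τ) (o * n) := by
    rcases ho with rfl | rfl
    · simpa using hco
    · have := hco.neg_left.neg_right
      rwa [neg_one_mul, neg_one_mul]
  obtain ⟨y, m1, m2⟩ := exists_basis (l := l) (p := p) (w := (o * τ) • l + (o * n) • p) rfl hco'
  set x := (o * τ) • l + (o * n) • p with hx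
  have f1 : cr S.u x = o * (τ * cr S.u l + n * cr S.u p) := by
    rw [hx, cr_add_right, cr_smul_right, cr_smul_right]; ring
  have f3 : cr x S.v = o * n * b := by
    rw [hx, cr_add_left, cr_smul_left, cr_smul_left, ad.h1, E1]; ring
  have hox : o • x = τ • l + n • p := by
    rw [hx, smul_add, smul_smul, smul_smul, ← mul_assoc, ← mul_assoc, hoo, one_mul, one_mul]
  have hw1' : w1 = S.u + o • S.v + o • x := by rw [hw1, hox]; abel
  have hoyx : lat x (y + o • S.v) = lat (l - n • S.v) (p + τ • S.v) := by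
    obtain ⟨α, β, hαβ⟩ : ∃ α β : ℤ, y = α • l + β • p := by
      have : y ∈ lat l p := by rw [← m1]; exact mem_lat.2 ⟨0, 1, by module⟩
      obtain ⟨α, β, e⟩ := mem_lat.1 this
      exact ⟨α, β, e.symm⟩
    have hdet : β * (o * τ) - α * (o * n) = 1 := by
      have h9 : cr y x = (β * (o * τ) - α * (o * n)) * cr p l := by
        rw [hαβ, hx]
        simp only [cr_add_left, cr_add_right, cr_smul_left, cr_smul_right, cr_self]
        rw [cr_swap l p]; ring
      rw [m2] at h9
      have : (β * (o * τ) - α * (o * n) - 1) * cr p l = 0 := by linarith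
      rcases mul_eq_zero.1 this with h9 | h9
      · linarith
      · omega
    refine (closure_pair_eq (α := β) (β := -(o * n)) (γ := -α) (δ := o * τ) ?_ ?_ (Or.inl ?_)).symm
    · rw [hαβ, hx]
      have e1 : β • ((o * τ) • l + (o * n) • p) +
          (-(o * n)) • (α • l + β • p + o • S.v) =
          (β * (o * τ) - α * (o * n)) • l - (n * (o * o)) • S.v := by module
      rw [e1, hdet, one_smul, hoo, mul_one]
    · rw [hαβ, hx]
      have e1 : (-α) • ((o * τ) • l + (o * n) • p) +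
          (o * τ) • (α • l + β • p + o • S.v) =
          (β * (o * τ) - α * (o * n)) • p + (τ * (o * o)) • S.v := by module
      rw [e1, hdet, one_smul, hoo, mul_one]
    · linear_combination hdet
  have hSxy : S = ⟨lat x y, S.u, S.v, S.L'⟩ := by rw [m1, ← ad.hL]
  have hnb : 0 ≤ n * b := mul_nonneg hn hb0.le
  rw [E1] at h1
  have hA1 : cr w1 S.v = cr S.u S.v + n * b := by
    rw [hw1', cr_add_left, cr_add_left, cr_smul_left, cr_smul_left, cr_self, f3]
    linear_combination n * b * hoo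
  have hA1pos : 0 < cr w1 S.v := by rw [hA1]; linarith
  have kT : SEq S ⟨lat x (y + o • S.v), w1, S.v, S.L'⟩ := by
    rcases ho with rfl | rfl
    · have k2 := SEq.mPlus (l := x) (p := y) (u := S.u) (v := S.v) (L' := S.L')
        (by rw [← hSxy]; exact h.ok) (by rw [f1]; linarith) (by rw [f1, m2]; exact h2)
        (by rw [f3]; linarith) (by rw [f1, f3]; linarith)
      rw [← hSxy] at k2
      rw [hw1', one_smul, one_smul]
      exact k2
    · have k2 := SEq.mMinus (l := x) (p := y) (u := S.u) (v := S.v) (L' := S.L')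
        (by rw [← hSxy]; exact h.ok) (by rw [f1]; linarith) (by rw [f1, m2]; exact h2)
        (by rw [f1, f3]; linarith) (by rw [f3]; linarith)
      rw [← hSxy] at k2
      have e1 : y + (-1 : ℤ) • S.v = y - S.v := by module
      have e2 : S.u + (-1 : ℤ) • S.v + (-1 : ℤ) • x = S.u - S.v - x := by module
      rw [hw1', e1, e2]
      exact k2
  set T : PSt := ⟨lat x (y + o • S.v), w1, S.v, S.L'⟩ with hT
  obtain ⟨l1, p1, l1', p1', adT⟩ := exists_Ad kT.ok'
  have F2 : cr T.u p1' = B := adT.isC'.unique hB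
  have F3 : cr l1' p1' = a' := adT.isArea'.unique h.ha'
  have hB0 := hB.1
  have hTA : cr T.u T.v ≤ cr T.u p1' := h.leA kT h.ha' adT.isC'
  have hD : B * cr w1 S.v ≠ 0 := (mul_pos hB0 hA1pos).ne'
  -- the area of `L₁`
  have hYx : cr (y + o • S.v) x = cr p l - n * b := by
    rw [cr_add_left, cr_smul_left, m2, cr_swap S.v x, f3]
    linear_combination -(n * b) * hoo
  have ha1 : 0 < cr p l - n * b := by linarith
  have huw : cr S.u w1 = o * (cr S.u S.v + cr S.u x) := by
    rw [hw1', cr_add_right, cr_add_right, cr_self, cr_smul_right, cr_smul_right]; ring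
  have hw0 : cr S.u w1 ≠ 0 := by
    rw [huw]
    refine mul_ne_zero (by rcases ho with rfl | rfl <;> norm_num) ?_
    rw [f1]
    have : 0 < cr S.u S.v + o * (τ * cr S.u l + n * cr S.u p) := by linarith
    exact this.ne'
  have hX : cr S.u l1' ≠ 0 := by
    intro h0
    have h1 := cr_expand T.u T.v l1'
    rw [cr_swap l1' T.u, adT.h4, neg_zero, zero_smul, sub_zero] at h1
    have h2 := congrArg (cr S.u) h1
    rw [cr_smul_right, cr_smul_right, h0, mul_zero] at h2
    have h3 : cr l1' T.v * cr S.u w1 = 0 := by rw [← h2]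
    rcases mul_eq_zero.1 h3 with h | h
    · exact absurd h adT.h5.ne'
    · exact hw0 h
  have hXZ : (Int.gcd (cr S.u l1') (cr S.u p1') : ℤ) = c := by
    have := isC_lat (x := l1') (y := p1') (u := S.u) (Or.inl hX)
    rw [← adT.hL'] at this
    exact this.unique h.hb'
  have huw' : cr w1 S.u = -cr S.u w1 := cr_swap _ _
  have goal : c * cr w1 S.v ∣ P * (cr w1 S.u * (B + a' - cr w1 S.v)) := by
    refine loop_fin hc0 hA1pos.ne' hX hXZ fun k => ?_
    -- the twist
    have k1 := adT.twH kT.ok' hTA (k * P)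
    have sv := adT.sh_v (k * P)
    rw [F2, F3] at sv
    have su1 : Sh (B * cr w1 S.v) (k * P * (B + a')) w1 w1 w1 := Sh.self
    have mx : x ∈ lat (l - n • S.v) (p + τ • S.v) := by
      rw [← hoyx]; exact mem_lat.2 ⟨1, 0, by module⟩
    have my : y + o • S.v ∈ lat (l - n • S.v) (p + τ • S.v) := by
      rw [← hoyx]; exact mem_lat.2 ⟨0, 1, by module⟩
    have hmem : ∀ z ∈ lat x (y + o • S.v), ∃ z' ∈ lat x (y + o • S.v),
        Sh (B * cr w1 S.v) (k * P * (B + a')) w1 z z' := by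
      intro z hz
      refine Sh.exists_mem (by rw [hYx]; exact ha1.ne') ?_ ?_ hz
      · have := hP z (by rw [← hoyx]; exact hz) x mx
        have e : k * P * (B + a') * cr w1 z * cr w1 x =
          k * (P * (B + a') * (cr w1 z * cr w1 x)) := by ring
        rw [e, hYx]; exact this.mul_left _
      · have := hP z (by rw [← hoyx]; exact hz) _ my
        have e : k * P * (B + a') * cr w1 z * cr w1 (y + o • S.v) =
          k * (P * (B + a') * (cr w1 z * cr w1 (y + o • S.v))) := by ring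
        rw [e, hYx]; exact this.mul_left _
    obtain ⟨x2, mx2, sx⟩ := hmem x (mem_lat.2 ⟨1, 0, by module⟩)
    obtain ⟨Y2, mY2, sY⟩ := hmem (y + o • S.v) (mem_lat.2 ⟨0, 1, by module⟩)
    have hL2 : lat x2 Y2 = lat x (y + o • S.v) :=
      lat_eq_of_mem mx2 mY2 (sY.cr_eq hD sx) (by rw [hYx]; exact ha1.ne')
    set v2 := T.v + (k * P) • (T.u + l1') with hv2
    set L2 : AddSubgroup Z2 := lat l1' (p1' + (k * P) • T.u) with hL2'
    have hok2 : PSt.Ok ⟨lat x2 Y2, w1, v2, L2⟩ := by rw [hL2]; exact k1.ok'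
    have g1 : cr w1 x2 = cr w1 x := sx.cr_u hD
    have g2 : cr Y2 x2 = cr p l - n * b := by rw [sY.cr_eq hD sx, hYx]
    have g3 : cr x2 v2 = cr x S.v := sx.cr_eq hD sv
    have g4 : cr w1 v2 = cr w1 S.v := sv.cr_u hD
    have g5 : cr w1 x = cr S.u x + o * cr S.v x := by
      rw [hw1', cr_add_left, cr_add_left, cr_smul_left, cr_smul_left, cr_self]; ring
    have g6 : cr w1 x = o * (τ * cr S.u l + n * cr S.u p) - n * b := by
      rw [g5, f1, cr_swap S.v x, f3]
      linear_combination -(n * b) * hoo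
    set u2 := w1 - o • v2 - o • x2 with hu2
    have su : Sh (B * cr w1 S.v) (k * P * (B + a')) w1 S.u u2 := by
      have e1 : S.u = w1 - o • S.v - o • x := by rw [hw1']; abel
      rw [e1]
      exact (su1.sub (sv.smul o)).sub (sx.smul o)
    have kW : SEq ⟨lat x2 Y2, w1, v2, L2⟩ ⟨lat x2 (Y2 - o • v2), u2, v2, L2⟩ := by
      rcases ho with rfl | rfl
      · have k2 := SEq.mMinus (l := x2) (p := Y2) (u := w1) (v := v2) (L' := L2) hok2
          (by rw [g1, g6]; linarith) (by rw [g1, g6, g2]; linarith)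
          (by rw [g1, g6, g3, f3]; linarith) (by rw [g3, g4, f3, hA1]; linarith)
        rw [hu2, one_smul, one_smul]
        exact k2
      · have k2 := SEq.mPlus (l := x2) (p := Y2) (u := w1) (v := v2) (L' := L2) hok2
          (by rw [g1, g6]; linarith) (by rw [g1, g6, g2]; linarith)
          (by rw [g3, g4, f3, hA1]; linarith) (by rw [g1, g6, g3, f3]; linarith)
        have e1 : Y2 - (-1 : ℤ) • v2 = Y2 + v2 := by module
        have e2 : u2 = w1 + v2 + x2 := by rw [hu2]; module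
        rw [e1, e2]
        exact k2
    have kS : SEq S ⟨lat x2 (Y2 - o • v2), u2, v2, L2⟩ := by
      refine kT.trans (k1.trans ?_)
      have := kW
      rw [hL2] at this
      exact this
    -- its invariants
    have i1 : IsArea L2 a' := by
      have h1 : cr l1' (p1' + (k * P) • T.u) = a' := by
        rw [cr_add_right, cr_smul_right, cr_swap l1' T.u, adT.h4, F3]; ring
      exact ⟨h.ha'.1, p1' + (k * P) • T.u, l1', h1, lat_comm _ _⟩
    have i2 : IsC (lat x2 (Y2 - o • v2)) v2 b := by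
      have j1 : IsC (lat x y) S.v b := by rw [m1, ← ad.hL]; exact h.hb
      obtain ⟨_, j2, w, hw, j3⟩ := j1
      have sy : Sh (B * cr w1 S.v) (k * P * (B + a')) w1 y (Y2 - o • v2) := by
        have e1 : y = (y + o • S.v) - o • S.v := by abel
        rw [e1]
        exact sY.sub (sv.smul o)
      refine ⟨hb0, fun z hz => ?_, ?_⟩
      · obtain ⟨m, n', rfl⟩ := mem_lat.1 hz
        have := sv.cr_eq hD ((sx.smul m).add (sy.smul n'))
        rw [this]
        exact j2 _ (mem_lat.2 ⟨m, n', rfl⟩)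
      · obtain ⟨m, n', rfl⟩ := mem_lat.1 hw
        refine ⟨m • x2 + n' • (Y2 - o • v2), mem_lat.2 ⟨m, n', rfl⟩, ?_⟩
        have := sv.cr_eq hD ((sx.smul m).add (sy.smul n'))
        rw [this]
        exact j3
    have i3 : cr u2 v2 = cr S.u S.v := su.cr_eq hD sv
    have su' := su
    rw [← F3] at su'
    rw [show B = cr T.u p1' from F2.symm] at su'
    obtain ⟨r1, q, r2, r3⟩ := adT.sh_cr su'
    refine ⟨q, ?_, ?_⟩
    · have : cr w1 S.v * q = k * P * (cr w1 S.u * (cr T.u p1' + cr l1' p1' - cr w1 S.v)) := r3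
      rw [this, F2, F3]; ring
    · have m1 : IsC L2 u2 (Int.gcd (cr S.u l1') (cr S.u p1' + q) : ℕ) := by
        have := isC_lat (x := l1') (y := p1' + (k * P) • T.u) (u := u2)
          (Or.inl (by rw [r1]; exact hX))
        rwa [r1, r2] at this
      exact h.min' _ _ kS i1 i2 (by dsimp only; rw [i3]; exact hA) m1
  rw [huw'] at goal
  have e : P * (-cr S.u w1 * (B + a' - cr w1 S.v)) =
      -(P * (cr S.u w1 * (B + a' - cr w1 S.v))) := by ring
  rw [e] at goal
  exact (dvd_neg).1 goal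

end Pool.Agent.H4G
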