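import Pool.Agent.H4G.Arith.Loop
import Pool.Agent.H4G.Arith.ExtB

/-!
# The loops of helper23, independent of the frame (helper5)
-/

set_option autoImplicit false

namespace Pool.Agent.H4G

/-- the exit state: `L₁ = ⟨l - n v, p + τ v⟩`, `u₁ = u + q v + τ l + n p`, `q = o - j (1 + n)` -/
theorem Ad.exitSt {S : PSt} {l p l' p' : Z2} (ad : Ad S l p l' p') (hok : S.Ok)
    (hAb : cr S.u S.v ≤ cr p S.v) {n j o τ : ℤ} (hn : 0 ≤ n) (ho : o = 1 ∨ o = -1)
    (hco : IsCoprime (τ + j) n)
    (h1 : n * cr p S.v < o * ((τ + j) * cr S.u l + n * (cr S.u p +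
      j * (cr p l + cr p S.v - cr S.u S.v))))
    (h2 : o * ((τ + j) * cr S.u l + n * (cr S.u p + j * (cr p l + cr p S.v - cr S.u S.v))) ≤
      cr p l) :
    ∃ T : PSt, SEq S T ∧ T.L' = S.L' ∧ T.v = S.v ∧
      T.L = lat (l - n • S.v) (p + τ • S.v) ∧
      T.u = S.u + (o - j * (1 + n)) • S.v + τ • l + n • p ∧ IsC T.L T.v (cr p S.v) := by
  have hb0 := ad.h3
  have k1 := ad.twV hok hAb j
  set T : PSt := ⟨lat l (p - j • S.v), S.u - j • (S.v + l), S.v, S.L'⟩ with hT
  -- the vector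
  have hco' : IsCoprime (o * (τ + j)) (o * n) := by
    rcases ho with rfl | rfl
    · simpa using hco
    · have := hco.neg_left.neg_right
      rwa [neg_one_mul, neg_one_mul]
  obtain ⟨y, m1, m2⟩ := exists_basis (l := l) (p := p - j • S.v)
    (w := (o * (τ + j)) • l + (o * n) • (p - j • S.v)) rfl hco'
  set x := (o * (τ + j)) • l + (o * n) • (p - j • S.v) with hx
  have f1 : cr T.u x = o * ((τ + j) * cr S.u l + n * (cr S.u p +
      j * (cr p l + cr p S.v - cr S.u S.v))) := by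
    simp only [hT, hx]
    simp only [cr_sub_left, cr_sub_right, cr_add_left, cr_add_right, cr_smul_left, cr_smul_right,
      cr_self]
    rw [cr_swap S.v l, cr_swap S.v p, cr_swap l p, ad.h1]; ring
  have f2 : cr y x = cr p l := by
    rw [m2, cr_sub_left, cr_smul_left, cr_swap S.v l, ad.h1]; ring
  have f3 : cr x T.v = o * n * cr p S.v := by
    simp only [hT, hx]
    simp only [cr_sub_left, cr_add_left, cr_smul_left, cr_self]
    rw [ad.h1]; ring
  have f4 : cr T.u T.v = cr S.u S.v := by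
    simp only [hT]
    rw [cr_sub_left, cr_smul_left, cr_add_left, cr_self, ad.h1]; ring
  have hTxy : T = ⟨lat x y, T.u, T.v, T.L'⟩ := by rw [m1]
  have hA0 := ad.hA
  have hnb : 0 ≤ n * cr p S.v := mul_nonneg hn hb0.le
  have hIC : IsC (lat x y) S.v (cr p S.v) := by
    rw [m1]
    have : cr (p - j • S.v) S.v = cr p S.v := by rw [cr_sub_left, cr_smul_left, cr_self]; ring
    rw [← this]
    exact isC_of_par ad.h1 (by rw [this]; exact hb0)
  obtain ⟨α, β, hαβ⟩ : ∃ α β : ℤ, y = α • l + β • (p - j • S.v) := by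
    have : y ∈ lat l (p - j • S.v) := by rw [← m1]; exact mem_lat.2 ⟨0, 1, by module⟩
    obtain ⟨α, β, e⟩ := mem_lat.1 this
    exact ⟨α, β, e.symm⟩
  have hdet : β * (o * (τ + j)) - α * (o * n) = 1 := by
    have h9 : cr y x = (β * (o * (τ + j)) - α * (o * n)) * cr p l := by
      rw [hαβ, hx]
      simp only [cr_sub_left, cr_sub_right, cr_add_left, cr_add_right, cr_smul_left,
        cr_smul_right, cr_self]
      rw [cr_swap S.v l, cr_swap S.v p, cr_swap l p, ad.h1]; ring
    rw [f2] at h9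
    have hpos := ad.pos
    have : (β * (o * (τ + j)) - α * (o * n) - 1) * cr p l = 0 := by linarith
    rcases mul_eq_zero.1 this with h9 | h9
    · linarith
    · omega
  rcases ho with rfl | rfl
  · rw [one_mul] at f1 h1 h2
    have k2 := SEq.mPlus (l := x) (p := y) (u := T.u) (v := T.v) (L' := T.L')
      (by rw [← hTxy]; exact k1.ok') (by rw [f1]; linarith) (by rw [f1, f2]; exact h2)
      (by rw [f3, f4, one_mul]; linarith) (by rw [f1, f3, one_mul]; exact h1)
    rw [← hTxy] at k2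
    refine ⟨_, k1.trans k2, rfl, rfl, ?_, ?_, ?_⟩
    · dsimp only
      refine (closure_pair_eq (α := β) (β := -n) (γ := -α) (δ := τ + j) ?_ ?_ (Or.inl ?_)).symm
      · simp only [hT, hx]
        rw [hαβ]
        have e1 : β • ((1 * (τ + j)) • l + (1 * n) • (p - j • S.v)) +
            (-n) • (α • l + β • (p - j • S.v) + S.v) =
            (β * (1 * (τ + j)) - α * (1 * n)) • l - n • S.v := by module
        rw [e1, hdet, one_smul]
      · simp only [hT, hx]
        rw [hαβ]
        have e1 : (-α) • ((1 * (τ + j)) • l + (1 * n) • (p - j • S.v)) +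
            (τ + j) • (α • l + β • (p - j • S.v) + S.v) =
            (β * (1 * (τ + j)) - α * (1 * n)) • (p - j • S.v) + (τ + j) • S.v := by module
        rw [e1, hdet, one_smul]; module
      · linear_combination hdet
    · simp only [hT, hx]; module
    · dsimp only
      have := hIC.congr (k := 1)
      rwa [one_smul] at this
  · have k2 := SEq.mMinus (l := x) (p := y) (u := T.u) (v := T.v) (L' := T.L')
      (by rw [← hTxy]; exact k1.ok') (by rw [f1]; linarith) (by rw [f1, f2]; exact h2)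
      (by rw [f1, f3]; linarith) (by rw [f3, f4]; linarith)
    rw [← hTxy] at k2
    refine ⟨_, k1.trans k2, rfl, rfl, ?_, ?_, ?_⟩
    · dsimp only
      refine (closure_pair_eq (α := β) (β := n) (γ := -α) (δ := -(τ + j)) ?_ ?_ (Or.inl ?_)).symm
      · simp only [hT, hx]
        rw [hαβ]
        have e1 : β • ((-1 * (τ + j)) • l + (-1 * n) • (p - j • S.v)) +
            n • (α • l + β • (p - j • S.v) - S.v) =
            (β * (-1 * (τ + j)) - α * (-1 * n)) • l - n • S.v := by module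
        rw [e1, hdet, one_smul]
      · simp only [hT, hx]
        rw [hαβ]
        have e1 : (-α) • ((-1 * (τ + j)) • l + (-1 * n) • (p - j • S.v)) +
            (-(τ + j)) • (α • l + β • (p - j • S.v) - S.v) =
            (β * (-1 * (τ + j)) - α * (-1 * n)) • (p - j • S.v) + (τ + j) • S.v := by module
        rw [e1, hdet, one_smul]; module
      · linear_combination hdet
    · simp only [hT, hx]; module
    · dsimp only
      have := hIC.congr (k := -1)
      have e9 : y + (-1 : ℤ) • S.v = y - S.v := by module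
      rwa [e9] at this


/-- LOOP, core form: from `S` by an exit to `(L₁, u₁, v, L')`, an H-twist there, and back. No
extremality is used; only `A ≤ b` at `S` and `A₁ ≤ B = gcd (L' × u₁)` at the exit. -/
theorem Ad.loopCore {S : PSt} {l p l' p' : Z2} (ad : Ad S l p l' p') (hok : S.Ok)
    (hAb : cr S.u S.v ≤ cr p S.v) {n j o τ : ℤ} (hn : 0 ≤ n) (ho : o = 1 ∨ o = -1)
    (hco : IsCoprime (τ + j) n)
    (h1 : n * cr p S.v < o * ((τ + j) * cr S.u l + n * (cr S.u p +
      j * (cr p l + cr p S.v - cr S.u S.v))))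
    (h2 : o * ((τ + j) * cr S.u l + n * (cr S.u p + j * (cr p l + cr p S.v - cr S.u S.v))) ≤
      cr p l) {u₁ : Z2} (hu₁ : u₁ = S.u + (o - j * (1 + n)) • S.v + τ • l + n • p)
    {B hh P m : ℤ} (hB : IsC S.L' u₁ B) (hAB : cr u₁ S.v ≤ B)
    (hhh : IsC (lat (l - n • S.v) (p + τ • S.v)) u₁ hh)
    (hPm : m * ((cr p l - n * cr p S.v) * cr u₁ S.v * B) =
      P * hh ^ 2 * (B + cr l' p')) :
    ∃ l₁ p₁ : Z2, S.L' = lat l₁ p₁ ∧ cr u₁ l₁ = 0 ∧ cr u₁ p₁ = B ∧ cr l₁ p₁ = cr l' p' ∧
      0 < cr l₁ S.v ∧ ∀ k : ℤ, ∃ li pi ui vi : Z2,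
        SEq S ⟨lat li pi, ui, vi, lat l₁ (p₁ + (k * P) • u₁)⟩ ∧
        cr li vi = 0 ∧ cr ui li = cr S.u l ∧ cr pi vi = cr p S.v ∧ cr ui vi = cr S.u S.v ∧
        cr ui pi = cr S.u p ∧ cr pi li = cr p l ∧ cr ui l₁ = cr S.u l₁ ∧
        cr u₁ S.v * cr ui (p₁ + (k * P) • u₁) = cr u₁ S.v * cr S.u p₁ -
          k * (P * cr S.u u₁ * (B + cr l' p' - cr u₁ S.v)) := by
  obtain ⟨T, k1, k2, k3, k4, k5, k6⟩ := ad.exitSt hok hAb hn ho hco h1 h2
  rw [← hu₁] at k5
  obtain ⟨Lt, ut, vt, Lt'⟩ := T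
  dsimp only at k2 k3 k4 k5 k6
  subst k2 k3 k4
  have k5' := k5.symm
  subst k5'
  obtain ⟨LS, u, v, L'⟩ := S
  dsimp only at hu₁ hB hAB hhh hPm h1 h2 hAb k1 k6 ⊢
  have hA0 : 0 < cr u v := ad.hA
  have hl0 : cr l v = 0 := ad.h1
  have hnb : 0 ≤ n * cr p v := mul_nonneg hn ad.h3.le
  set f1 := l - n • v with hf1
  set f2 := p + τ • v with hf2
  obtain ⟨l2, p2, l1', p1', ad2⟩ := exists_Ad k1.ok'
  have F1 : cr u₁ l1' = 0 := ad2.h4
  have F2 : cr u₁ p1' = B := ad2.isC'.unique hB
  have F3 : cr l1' p1' = cr l' p' := ad2.isArea'.unique ad.isArea'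
  have hA1 : 0 < cr u₁ v := ad2.hA
  have F4 : cr l' p' * cr u₁ v = cr l1' v * B := by
    have := ad2.area'
    dsimp only at this
    rw [F2, F3] at this
    exact this
  have hB0 : 0 < B := hB.1
  -- the `u₁`-basis of the left lattice
  have hdet : cr f2 f1 = cr p l - n * cr p v := by
    rw [hf1, hf2]
    simp only [cr_add_left, cr_smul_left, cr_sub_right, cr_smul_right, cr_self]
    rw [cr_swap v l, hl0]; ring
  have hdet0 : 0 < cr f2 f1 := by
    obtain ⟨c, hc⟩ := k1.ok'
    obtain ⟨x1, x2, y1, y2, _⟩ := hc.areas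
    obtain ⟨y3, s, t, y4, y5⟩ := y1
    dsimp only at y5
    -- the absolute value of the determinant is the area
    have m3 : s ∈ lat f1 f2 := by rw [y5]; exact mem_lat.2 ⟨1, 0, by module⟩
    have m4 : t ∈ lat f1 f2 := by rw [y5]; exact mem_lat.2 ⟨0, 1, by module⟩
    obtain ⟨α, β, w1⟩ := mem_lat.1 m3
    obtain ⟨γ, δ, w2⟩ := mem_lat.1 m4
    have w3 : x1 = (α * δ - β * γ) * cr f2 f1 := by
      rw [← y4, ← w1, ← w2]
      simp only [cr_add_left, cr_add_right, cr_smul_left, cr_smul_right, cr_self]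
      rw [cr_swap f1 f2]; ring
    have w4 : cr p l - n * cr p v ≥ 0 := by
      have w5 := h1.trans_le h2
      linarith
    rcases w4.lt_or_eq with w5 | w5
    · rw [hdet]; exact w5
    · exfalso
      rw [hdet, ← w5, mul_zero] at w3
      omega
  set W := u₁ + l1' with hW
  have W1 : cr u₁ W = 0 := by rw [hW, cr_add_right, cr_self, F1]; ring
  have W2 : B * cr W v = (B + cr l' p') * cr u₁ v := by
    rw [hW, cr_add_left]
    linear_combination -F4
  have W3 : cr W l1' = 0 := by rw [hW, cr_add_left, cr_self, F1]; ring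
  have W4 : cr W p1' = B + cr l' p' := by rw [hW, cr_add_left, F2, F3]
  refine ⟨l1', p1', ad2.hL', F1, F2, F3, ad2.h5, fun k => ?_⟩
  set i := k * P with hi
  set vi := v + i • W with hvi
  obtain ⟨e1, e2, hle, s1, s2⟩ := shear_lattice (f1 := f1) (f2 := f2) (u := u₁) (v := v) (W := W)
    hdet0 hA1 hhh W1 W2 hB0 (by rw [hdet]; exact hPm) k
  rw [← hi] at s1 s2
  have sv : Shr (cr u₁ v) i u₁ W v vi := by
    unfold Shr
    rw [hvi]; module
  set li := e1 + n • vi with hli
  set pi := e2 - τ • vi with hpi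
  set ui := u₁ - (o - j * (1 + n)) • vi - τ • li - n • pi with hui
  have sl : Shr (cr u₁ v) i u₁ W l li := by
    have := s1.add (sv.smul n)
    have e : f1 + n • v = l := by rw [hf1]; module
    rwa [e] at this
  have sp : Shr (cr u₁ v) i u₁ W p pi := by
    have := s2.sub (sv.smul τ)
    have e : f2 - τ • v = p := by rw [hf2]; module
    rwa [e] at this
  have su : Shr (cr u₁ v) i u₁ W u ui := by
    have := ((Shr.self (cr u₁ v) i u₁ W).sub (sv.smul (o - j * (1 + n)))).sub (sl.smul τ)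
    have := this.sub (sp.smul n)
    have e : u₁ - (o - j * (1 + n)) • v - τ • l - n • p = u := by rw [hu₁]; module
    rwa [e] at this
  have hA1' : cr u₁ v ≠ 0 := hA1.ne'
  have g1 : cr li vi = cr l v := Shr.cross hA1' W1 sl sv
  have g2 : cr ui li = cr u l := Shr.cross hA1' W1 su sl
  have g3 : cr pi vi = cr p v := Shr.cross hA1' W1 sp sv
  have g4 : cr ui vi = cr u v := Shr.cross hA1' W1 su sv
  have g5 : cr ui pi = cr u p := Shr.cross hA1' W1 su sp
  have g6 : cr pi li = cr p l := Shr.cross hA1' W1 sp sl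
  -- the H-twist at the exit state
  have t1 := ad2.twH k1.ok' (by dsimp only; rw [F2]; exact hAB) i
  dsimp only at t1
  have t2 : lat (li - n • vi) (pi + τ • vi) = lat f1 f2 := by
    have a1 : li - n • vi = e1 := by rw [hli, add_sub_cancel_right]
    have a2 : pi + τ • vi = e2 := by rw [hpi, sub_add_cancel]
    rw [a1, a2, hle]
  have t3 : ui + (o - j * (1 + n)) • vi + τ • li + n • pi = u₁ := by rw [hui]; module
  have t4 : PSt.Ok ⟨lat (li - n • vi) (pi + τ • vi),
      ui + (o - j * (1 + n)) • vi + τ • li + n • pi, vi, lat l1' (p1' + i • u₁)⟩ := by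
    rw [t2, t3]; exact t1.ok'
  have t5 := SEq.exitInv t4 (by rw [g1]; exact hl0) (by rw [g2]; exact ad.h2)
    (by rw [g3]; exact ad.h3) (by rw [g4]; exact hA0) (by rw [g4, g3]; exact hAb) hn ho hco
    (by rw [g2, g3, g4, g5, g6]; exact h1) (by rw [g2, g3, g4, g5, g6]; exact h2)
  rw [t2, t3] at t5
  have t6 : SEq ⟨LS, u, v, L'⟩ ⟨lat li pi, ui, vi, lat l1' (p1' + i • u₁)⟩ :=
    (k1.trans t1).trans t5
  refine ⟨li, pi, ui, vi, t6, g1.trans hl0, g2, g3, g4, g5, g6, ?_, ?_⟩
  · have e1 := su.cross_other l1'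
    rw [W3] at e1
    have : (cr ui l1' - cr u l1') * cr u₁ v = 0 := by linarith
    rcases mul_eq_zero.1 this with h9 | h9
    · linarith
    · omega
  · have e2 := su.cross_other p1'
    have e3 := su.cross_other u₁
    rw [W4, cr_swap u₁ u] at e2
    rw [cr_swap W u₁, W1] at e3
    rw [cr_add_right, cr_smul_right, hi]
    rw [hi] at e2 e3
    linear_combination e2 + (k * P) * e3

/-- H-twist at `S` which shears `(L, u)`, core form: `(L, u)` is fixed, `v` and `L'` move, all
products of `u, v, l, p` are unchanged. Only `A ≤ c = gcd (L' × u)` is used. -/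
theorem Ad.loop4Core {S : PSt} {l p l' p' : Z2} (ad : Ad S l p l' p') (hok : S.Ok)
    (hAc : cr S.u S.v ≤ cr S.u p') {hh P m : ℤ} (hhh : IsC S.L S.u hh)
    (hPm : m * (cr p l * cr S.u S.v * cr S.u p') = P * hh ^ 2 * (cr S.u p' + cr l' p')) (k : ℤ) :
    ∃ l₁ p₁ vi : Z2, SEq S ⟨S.L, S.u, vi, lat l' (p' + (k * P) • S.u)⟩ ∧
      Ad ⟨S.L, S.u, vi, lat l' (p' + (k * P) • S.u)⟩ l₁ p₁ l' (p' + (k * P) • S.u) ∧
      cr S.u vi = cr S.u S.v ∧ cr S.u l₁ = cr S.u l ∧ cr S.u p₁ = cr S.u p ∧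
      cr p₁ l₁ = cr p l ∧ cr p₁ vi = cr p S.v ∧
      ∀ q τ n : ℤ, cr (S.u + q • vi + τ • l₁ + n • p₁) l' =
          cr (S.u + q • S.v + τ • l + n • p) l' ∧
        cr S.u S.v * cr (S.u + q • vi + τ • l₁ + n • p₁) (p' + (k * P) • S.u) =
          cr S.u S.v * cr (S.u + q • S.v + τ • l + n • p) p' +
            k * (P * cr S.u (S.u + q • S.v + τ • l + n • p) *
              (cr S.u p' + cr l' p' - cr S.u S.v)) := by
  obtain ⟨LS, u, v, L'⟩ := S
  dsimp only at hhh hPm hAc ⊢
  have hA0 : 0 < cr u v := ad.hA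
  have hl0 : cr l v = 0 := ad.h1
  have hl'0 : cr u l' = 0 := ad.h4
  have hLS : LS = lat l p := ad.hL
  have hc0 : 0 < cr u p' := ad.h6
  set W := u + l' with hW
  have W1 : cr u W = 0 := by rw [hW, cr_add_right, cr_self, hl'0]; ring
  have F4 : cr l' p' * cr u v = cr l' v * cr u p' := ad.area'
  have W2 : cr u p' * cr W v = (cr u p' + cr l' p') * cr u v := by
    rw [hW, cr_add_left]
    linear_combination -F4
  have W3 : cr W l' = 0 := by rw [hW, cr_add_left, cr_self, hl'0]; ring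
  have W4 : cr W p' = cr u p' + cr l' p' := by rw [hW, cr_add_left]
  obtain ⟨e1, e2, g1, s1, s2⟩ := shear_lattice (f1 := l) (f2 := p) (u := u) (v := v) (W := W)
    ad.pos hA0 (by rw [← hLS]; exact hhh) W1 W2 hc0 hPm k
  have sv : Shr (cr u v) (k * P) u W v (v + (k * P) • W) := by
    unfold Shr; module
  have hA0' : cr u v ≠ 0 := hA0.ne'
  have t1 := ad.twH hok hAc (k * P)
  dsimp only at t1
  have c1 : cr e1 (v + (k * P) • W) = cr l v := Shr.cross hA0' W1 s1 sv
  have c2 : cr e2 (v + (k * P) • W) = cr p v := Shr.cross hA0' W1 s2 sv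
  have c3 : cr u (v + (k * P) • W) = cr u v := Shr.cross hA0' W1 (Shr.self _ _ _ _) sv
  have c4 : cr u e1 = cr u l := Shr.cross hA0' W1 (Shr.self _ _ _ _) s1
  have c5 : cr u e2 = cr u p := Shr.cross hA0' W1 (Shr.self _ _ _ _) s2
  have c6 : cr e2 e1 = cr p l := Shr.cross hA0' W1 s2 s1
  have c7 : cr l' (v + (k * P) • W) = cr l' v := by
    rw [cr_add_right, cr_smul_right, cr_swap l' W, W3]; ring
  have c8 : cr u (p' + (k * P) • u) = cr u p' := by
    rw [cr_add_right, cr_smul_right, cr_self]; ring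
  refine ⟨e1, e2, v + (k * P) • W, t1, ⟨?_, rfl, ?_, ?_, ?_, ?_, ?_, ?_, ?_⟩, c3, c4, c5, c6, c2,
    fun q τ n => ?_⟩
  · dsimp only; rw [g1]; exact hLS
  · dsimp only; rw [c1]; exact hl0
  · dsimp only; rw [c4]; exact ad.h2
  · dsimp only; rw [c2]; exact ad.h3
  · exact hl'0
  · dsimp only; rw [c7]; exact ad.h5
  · dsimp only; rw [c8]; exact ad.h6
  · dsimp only; rw [c3]; exact hA0
  · set u₁ := u + q • v + τ • l + n • p with hu₁
    have su : Shr (cr u v) (k * P) u W u₁
        (u + q • (v + (k * P) • W) + τ • e1 + n • e2) := by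
      rw [hu₁]
      exact (((Shr.self _ _ _ _).add (sv.smul q)).add (s1.smul τ)).add (s2.smul n)
    have d1 := su.cross_other l'
    have d2 := su.cross_other p'
    have d3 := su.cross_other u
    rw [W3] at d1
    rw [W4] at d2
    rw [cr_swap W u, W1, cr_swap u₁ u] at d3
    constructor
    · have : (cr (u + q • (v + (k * P) • W) + τ • e1 + n • e2) l' - cr u₁ l') * cr u v = 0 := by
        linarith
      rcases mul_eq_zero.1 this with h9 | h9
      · linarith
      · omega
    · rw [cr_add_right, cr_smul_right]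
      linear_combination d2 + (k * P) * d3

end Pool.Agent.H4G
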