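import Pool.Agent.H4G.Arith.State

/-!
# The moves M-, M+ between path states, twists (helper40)
-/

set_option autoImplicit false

namespace Pool.Agent.H4G

/-- three vectors of the plane -/
theorem cr_expand (p l w : Z2) : cr p l • w = cr w l • p - cr w p • l := by
  have := cr_dep w p l
  rw [cr_swap l w] at this
  have h2 : cr p l • w = -(-cr w l • p + cr w p • l) := by
    rw [eq_neg_iff_add_eq_zero, ← add_assoc]; exact this
  rw [h2]; module

theorem smul_inj {a : ℤ} (ha : a ≠ 0) {x y : Z2} (h : a • x = a • y) : x = y := by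
  have h1 := congrArg Prod.fst h
  have h2 := congrArg Prod.snd h
  simp only [Prod.smul_fst, Prod.smul_snd, smul_eq_mul] at h1 h2
  exact Prod.ext (mul_left_cancel₀ ha h1) (mul_left_cancel₀ ha h2)

/-- the slit is embedded -/
theorem Lft.not_mem {L : AddSubgroup Z2} {u q l : Z2} (h : Lft L u q l) : u ∉ L := by
  obtain ⟨h1, h2, h3⟩ := h
  intro hu
  rw [← h3] at hu
  obtain ⟨m, n, e⟩ := mem_lat.1 hu
  have e1 : cr l u = -n * (cr q l + cr l u) := by
    conv_lhs => rw [← e]
    rw [cr_add_right, cr_smul_right, cr_smul_right, cr_self, cr_sub_right, cr_swap q l]; ring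
  have h4 : 0 < cr q l + cr l u := by linarith
  rcases lt_trichotomy n 0 with hn | hn | hn
  · have : 1 * (cr q l + cr l u) ≤ -n * (cr q l + cr l u) :=
      mul_le_mul_of_nonneg_right (by omega) h4.le
    linarith
  · rw [hn] at e1; linarith
  · have : -n * (cr q l + cr l u) ≤ 0 := by
      apply mul_nonpos_of_nonpos_of_nonneg (by omega) h4.le
    linarith

theorem PSt.Ok.not_mem {L L' : AddSubgroup Z2} {u v : Z2} (h : PSt.Ok ⟨L, u, v, L'⟩) : u ∉ L := by
  obtain ⟨⟨a0, a1, a2, a3, a4, a5⟩, hc⟩ := h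
  exact hc.1.not_mem

theorem lat_comm (x y : Z2) : lat x y = lat y x := by
  unfold lat
  rw [Set.pair_comm]

theorem lat_neg_left (x y : Z2) : lat (-x) y = lat x y :=
  closure_pair_eq (α := -1) (β := 0) (γ := 0) (δ := 1) (by module) (by module)
    (Or.inr (by norm_num))

theorem lat_neg_right (x y : Z2) : lat x (-y) = lat x y :=
  closure_pair_eq (α := 1) (β := 0) (γ := 0) (δ := -1) (by module) (by module)
    (Or.inr (by norm_num))

theorem lat_add_smul (x y : Z2) (k : ℤ) : lat x (y + k • x) = lat x y :=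
  closure_pair_eq (α := 1) (β := 0) (γ := k) (δ := 1) (by module) (by module)
    (Or.inl (by norm_num))

/-- (B2), the move M- -/
theorem SEq.mMinus {l p u v : Z2} {L' : AddSubgroup Z2} (hok : PSt.Ok ⟨lat l p, u, v, L'⟩)
    (h1 : 0 < cr u l) (h2 : cr u l ≤ cr p l) (h3 : -cr u l < cr l v) (h4 : cr l v < cr u v) :
    SEq ⟨lat l p, u, v, L'⟩ ⟨lat l (p - v), u - v - l, v, L'⟩ := by
  have hnm := hok.not_mem
  obtain ⟨⟨a0, a1, a2, a3, a4, a5⟩, hl, e2, e3, hA, hr⟩ := hok
  dsimp only at hl e2 e3 hA hr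
  subst e2 e3
  have ecr : cr (a2 - a3 - l) a3 = cr a2 a3 - cr l a3 := by
    rw [cr_sub_left, cr_sub_left, cr_self]; ring
  rcases lt_or_eq_of_le h2 with h2' | h2'
  · -- the generic case: a flip
    have g1 : 0 < cr (a2 - p) (-l) := by
      rw [cr_neg_right, cr_sub_left]; linarith
    have g2 : 0 < cr (-l) a2 := by
      rw [cr_neg_left, cr_swap l a2]; linarith
    have e1 : a2 + -l - a3 = a2 - a3 - l := by abel
    have g3 : 0 < cr (-l) (a2 - a3 - l) := by
      rw [cr_neg_left, cr_sub_right, cr_sub_right, cr_self, cr_swap l a2]; linarith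
    have g4 : 0 < cr (a2 - a3 - l) a3 := by rw [ecr]; linarith
    have hm := Mv.flip2 (a2 - p) (-l) a2 a3 a4 a5 (by rw [e1]; exact g3) (by rw [e1]; exact g4)
    rw [e1] at hm
    refine ⟨(a2 - p, -l, a2, a3, a4, a5), (a2 - p, -l, a2 - a3 - l, a3, a4, a5),
      ⟨⟨g1, g2, ?_⟩, rfl, rfl, hA, hr⟩, ⟨⟨g1, g3, ?_⟩, rfl, rfl, g4, hr⟩,
      CEq.mv ⟨g1, g2, hA, hr.1, hr.2.1⟩ hm⟩
    · have : a2 - p - a2 = -p := by abel
      rw [this, lat_neg_left, lat_neg_right]
    · have : a2 - p - (a2 - a3 - l) = -(p - a3) + (1 : ℤ) • l := by module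
      dsimp only
      rw [this, lat_neg_left, lat_add_smul, lat_neg_right]
  · -- the boundary case: a star move
    set a := cr p l with ha
    have hapos : 0 < a := by rw [← h2']; exact h1
    set k := cr p a2 / a with hk
    set hh := cr p a2 % a with hhh
    have hdm : hh + a * k = cr p a2 := Int.emod_add_mul_ediv _ _
    have hh0 : 0 ≤ hh := Int.emod_nonneg _ hapos.ne'
    have hh1 : hh < a := Int.emod_lt_of_pos _ hapos
    set l0 := p + k • l with hl0
    have hexp : a • a2 = a • l0 + hh • l := by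
      have := cr_expand p l a2
      rw [← ha, h2', cr_swap a2 p, ← hdm] at this
      rw [this, hl0]; module
    have hh2 : 0 < hh := by
      rcases hh0.lt_or_eq with h | h
      · exact h
      · exfalso
        apply hnm
        rw [← h, zero_smul, add_zero] at hexp
        rw [smul_inj hapos.ne' hexp]
        exact mem_lat.2 ⟨k, 1, by rw [hl0]; module⟩
    have c1 : cr l0 a2 = hh := by
      rw [hl0, cr_add_left, cr_smul_left, cr_swap l a2, h2', ← hdm]; ring
    have c2 : cr l0 l = a := by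
      rw [hl0, cr_add_left, cr_smul_left, cr_self]; ring
    have c3 : cr (a2 - l) l0 = a - hh := by
      rw [cr_sub_left, cr_swap a2 l0, cr_swap l l0, c1, c2]; ring
    have hE : a * cr a2 a3 = a * cr l0 a3 + hh * cr l a3 := by
      have := congrArg (fun w => cr w a3) hexp
      simpa only [cr_add_left, cr_smul_left] using this
    have hth1 : -a < cr l a3 := by rw [← h2']; exact h3
    have s1 : 0 < cr l0 a3 := by
      by_contra hneg
      push Not at hneg
      have t1 : a * cr l0 a3 ≤ 0 := mul_nonpos_of_nonneg_of_nonpos hapos.le hneg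
      have t2 : 0 < a * cr a2 a3 := mul_pos hapos hA
      rcases le_or_gt (cr l a3) 0 with h | h
      · have := mul_nonpos_of_nonneg_of_nonpos hh2.le h
        linarith
      · have t3 : hh * cr l a3 < a * cr l a3 := mul_lt_mul_of_pos_right hh1 h
        have t4 : a * cr l a3 < a * cr a2 a3 := mul_lt_mul_of_pos_left h4 hapos
        linarith
    have s2 : cr l0 a3 < cr l0 a2 + cr a2 a3 := by
      rw [c1]
      by_contra hneg
      push Not at hneg
      have t1 : a * (hh + cr a2 a3) ≤ a * cr l0 a3 := mul_le_mul_of_nonneg_left hneg hapos.le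
      have t2 : hh * (-a) < hh * cr l a3 := mul_lt_mul_of_pos_left hth1 hh2
      nlinarith
    have s3 : 0 < cr (a2 - l) a3 := by rw [cr_sub_left]; linarith
    have s4 : cr (a2 - l) a3 < cr (a2 - l) l0 + cr l0 a3 := by
      rw [c3, cr_sub_left]
      by_contra hneg
      push Not at hneg
      have t1 := mul_le_mul_of_nonneg_left hneg hapos.le
      have t2 : (a - hh) * (-a) < (a - hh) * cr l a3 :=
        mul_lt_mul_of_pos_left hth1 (by linarith)
      nlinarith
    have hm := Mv.star (a2 - l) l0 a2 a3 a4 a5 s1 s2 s3 s4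
    have e1 : a2 - l - a3 = a2 - a3 - l := by abel
    rw [e1] at hm
    have g1 : 0 < cr (a2 - l) l0 := by rw [c3]; linarith
    have g2 : 0 < cr l0 a2 := by rw [c1]; exact hh2
    have g4 : 0 < cr (a2 - a3 - l) a3 := by rw [ecr]; linarith
    refine ⟨(a2 - l, l0, a2, a3, a4, a5), (a2 - a3, a3 - l0, a2 - a3 - l, a3, a4, a5),
      ⟨⟨g1, g2, ?_⟩, rfl, rfl, hA, hr⟩, ⟨⟨?_, ?_, ?_⟩, rfl, rfl, g4, hr⟩,
      CEq.mv ⟨g1, g2, hA, hr.1, hr.2.1⟩ hm⟩
    · have : a2 - l - a2 = -l := by abel
      rw [this, lat_neg_right, lat_comm, hl0, lat_add_smul]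
    · rw [cr_sub_left, cr_sub_right, cr_sub_right, cr_self, cr_swap a3 l0, cr_swap a2 l0]
      linarith
    · have : cr (a3 - l0) (a2 - a3 - l) = cr (a2 - l) l0 + cr l0 a3 - cr (a2 - l) a3 := by
        simp only [cr_sub_left, cr_sub_right, cr_self]
        rw [cr_swap a3 a2, cr_swap a3 l, cr_swap l0 a2, cr_swap l0 l]; ring
      rw [this]; linarith
    · have : a2 - a3 - (a2 - a3 - l) = l := by abel
      dsimp only
      rw [this, lat_comm, hl0]
      have e5 : a3 - (p + k • l) = -(p - a3) + (-k) • l := by module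
      rw [e5, lat_add_smul, lat_neg_right]

/-- (B2), the move M+ -/
theorem SEq.mPlus {l p u v : Z2} {L' : AddSubgroup Z2} (hok : PSt.Ok ⟨lat l p, u, v, L'⟩)
    (h1 : 0 < cr u l) (h2 : cr u l ≤ cr p l) (h3 : -cr u v < cr l v) (h4 : cr l v < cr u l) :
    SEq ⟨lat l p, u, v, L'⟩ ⟨lat l (p + v), u + v + l, v, L'⟩ := by
  have hnm := hok.not_mem
  obtain ⟨⟨a0, a1, a2, a3, a4, a5⟩, hl, e2, e3, hA, hr⟩ := hok
  dsimp only at hl e2 e3 hA hr
  subst e2 e3
  have ecr : cr (a2 + a3 + l) a3 = cr a2 a3 + cr l a3 := by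
    rw [cr_add_left, cr_add_left, cr_self]; ring
  rcases lt_or_eq_of_le h2 with h2' | h2'
  · -- the generic case: a flip
    have g1 : 0 < cr (a2 - p) (-l) := by
      rw [cr_neg_right, cr_sub_left]; linarith
    have g2 : 0 < cr (-l) a2 := by
      rw [cr_neg_left, cr_swap l a2]; linarith
    have e1 : a2 - -l + a3 = a2 + a3 + l := by abel
    have g3 : 0 < cr (-l) (a2 + a3 + l) := by
      rw [cr_neg_left, cr_add_right, cr_add_right, cr_self, cr_swap l a2]; linarith
    have g4 : 0 < cr (a2 + a3 + l) a3 := by rw [ecr]; linarith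
    have hm := Mv.flip2' (a2 - p) (-l) a2 a3 a4 a5 (by rw [e1]; exact g3) (by rw [e1]; exact g4)
    rw [e1] at hm
    refine ⟨(a2 - p, -l, a2, a3, a4, a5), (a2 - p, -l, a2 + a3 + l, a3, a4, a5),
      ⟨⟨g1, g2, ?_⟩, rfl, rfl, hA, hr⟩, ⟨⟨g1, g3, ?_⟩, rfl, rfl, g4, hr⟩,
      CEq.mv ⟨g1, g2, hA, hr.1, hr.2.1⟩ hm⟩
    · have : a2 - p - a2 = -p := by abel
      rw [this, lat_neg_left, lat_neg_right]
    · have : a2 - p - (a2 + a3 + l) = -(p + a3) + (-1 : ℤ) • l := by module
      dsimp only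
      rw [this, lat_neg_left, lat_add_smul, lat_neg_right]
  · -- the boundary case: a star move
    set a := cr p l with ha
    have hapos : 0 < a := by rw [← h2']; exact h1
    set k := -cr p a2 / a with hk
    set hh := -cr p a2 % a with hhh
    have hdm : hh + a * k = -cr p a2 := Int.emod_add_mul_ediv _ _
    have hh0 : 0 ≤ hh := Int.emod_nonneg _ hapos.ne'
    have hh1 : hh < a := Int.emod_lt_of_pos _ hapos
    set l0 := -p + k • l with hl0
    have hexp : a • a2 = (-a) • l0 - hh • l := by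
      have := cr_expand p l a2
      have e : cr a2 p = hh + a * k := by rw [cr_swap a2 p, hdm]
      rw [← ha, h2', e] at this
      rw [this, hl0]; module
    have hh2 : 0 < hh := by
      rcases hh0.lt_or_eq with h | h
      · exact h
      · exfalso
        apply hnm
        have h6 : a • a2 = a • (-l0) := by rw [hexp, ← h]; module
        rw [smul_inj hapos.ne' h6]
        exact mem_lat.2 ⟨-k, 1, by rw [hl0]; module⟩
    have c1 : cr l0 a2 = hh := by
      rw [hl0, cr_add_left, cr_smul_left, cr_neg_left, cr_swap l a2, h2']; linarith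
    have c2 : cr l0 l = -a := by
      rw [hl0, cr_add_left, cr_smul_left, cr_neg_left, cr_self]; linarith
    have c3 : cr (l0 + l + a2) l0 = a - hh := by
      rw [cr_add_left, cr_add_left, cr_self, cr_swap l l0, cr_swap a2 l0, c1, c2]; ring
    have hE : a * cr a2 a3 = -a * cr l0 a3 - hh * cr l a3 := by
      have := congrArg (fun w => cr w a3) hexp
      simpa only [cr_sub_left, cr_smul_left] using this
    have hth1 : cr l a3 < a := by rw [← h2']; exact h4
    have c4 : cr (l0 + l + a2) a3 = cr l0 a3 + cr l a3 + cr a2 a3 := by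
      rw [cr_add_left, cr_add_left]
    have s1 : cr l0 a3 < 0 := by
      by_contra hneg
      push Not at hneg
      have t1 : 0 ≤ a * cr l0 a3 := mul_nonneg hapos.le hneg
      have t2 : 0 < a * cr a2 a3 := mul_pos hapos hA
      rcases le_or_gt 0 (cr l a3) with h | h
      · have := mul_nonneg hh2.le h
        linarith
      · have t3 : hh * -cr l a3 < a * -cr l a3 := mul_lt_mul_of_pos_right hh1 (by linarith)
        have t4 : a * -cr l a3 < a * cr a2 a3 := mul_lt_mul_of_pos_left (by linarith) hapos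
        linarith
    have s2 : 0 < cr l0 a3 + cr l0 a2 + cr a2 a3 := by
      rw [c1]
      by_contra hneg
      push Not at hneg
      have t1 : a * (cr l0 a3 + hh + cr a2 a3) ≤ 0 :=
        mul_nonpos_of_nonneg_of_nonpos hapos.le hneg
      have t2 : hh * cr l a3 < hh * a := mul_lt_mul_of_pos_left hth1 hh2
      nlinarith
    have s3 : cr l0 a3 < cr (l0 + l + a2) a3 := by rw [c4]; linarith
    have s4 : cr (l0 + l + a2) a3 < cr (l0 + l + a2) l0 := by
      rw [c3, c4]
      by_contra hneg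
      push Not at hneg
      have t1 := mul_le_mul_of_nonneg_left hneg hapos.le
      have t2 : (a - hh) * cr l a3 < (a - hh) * a :=
        mul_lt_mul_of_pos_left hth1 (by linarith)
      nlinarith
    have hm := Mv.star' (l0 + l + a2) l0 a2 a3 a4 a5 s1 s2 s3 s4
    have e1 : l0 + l + a2 - l0 + a3 = a2 + a3 + l := by abel
    rw [e1] at hm
    have g1 : 0 < cr (l0 + l + a2) l0 := by rw [c3]; linarith
    have g2 : 0 < cr l0 a2 := by rw [c1]; exact hh2
    have g4 : 0 < cr (a2 + a3 + l) a3 := by rw [ecr]; linarith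
    refine ⟨(l0 + l + a2, l0, a2, a3, a4, a5), (a2 + a3, a3 - l0, a2 + a3 + l, a3, a4, a5),
      ⟨⟨g1, g2, ?_⟩, rfl, rfl, hA, hr⟩, ⟨⟨?_, ?_, ?_⟩, rfl, rfl, g4, hr⟩,
      CEq.mv ⟨g1, g2, hA, hr.1, hr.2.1⟩ hm⟩
    · have : l0 + l + a2 - a2 = l + (1 : ℤ) • l0 := by module
      rw [this, lat_add_smul, lat_comm, hl0, lat_add_smul, lat_neg_right]
    · rw [cr_add_left, cr_sub_right, cr_sub_right, cr_self, cr_swap a3 l0, cr_swap a2 l0]
      linarith
    · have : cr (a3 - l0) (a2 + a3 + l) = cr (l0 + l + a2) l0 - cr (l0 + l + a2) a3 := by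
        simp only [cr_sub_left, cr_add_left, cr_add_right, cr_self]
        rw [cr_swap a3 a2, cr_swap a3 l, cr_swap a2 l0, cr_swap l l0]; ring
      rw [this]; linarith
    · have : a2 + a3 - (a2 + a3 + l) = -l := by abel
      dsimp only
      rw [this, lat_neg_right, lat_comm, hl0]
      have e5 : a3 - (-p + k • l) = (p + a3) + (-k) • l := by module
      rw [e5, lat_add_smul]

/-! ## Half turn and the moves on the other side -/

theorem SEq.neg {L L' : AddSubgroup Z2} {u v : Z2} (h : PSt.Ok ⟨L, u, v, L'⟩) :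
    SEq ⟨L, u, v, L'⟩ ⟨L, -u, -v, L'⟩ := by
  obtain ⟨⟨a0, a1, a2, a3, a4, a5⟩, hc⟩ := h
  have hp := hc.pos
  refine ⟨_, (-a0, -a1, -a2, -a3, -a4, -a5), hc, ?_, CEq.mv hp (Mv.neg _ _ _ _ _ _)⟩
  obtain ⟨h1, h2, h3, h4, h5⟩ := hc
  dsimp only at h1 h2 h3 h4 h5
  subst h2 h3
  have e : ∀ a b : Z2, cr (-a) (-b) = cr a b := by
    intro a b; rw [cr_neg_left, cr_neg_right]; ring
  refine ⟨⟨?_, ?_, ?_⟩, rfl, rfl, ?_, ?_, ?_, ?_⟩
  · rw [e]; exact h1.1
  · dsimp only; rw [e]; exact h1.2.1
  · dsimp only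
    have : -a0 - -a2 = -(a0 - a2) := by abel
    rw [this, lat_neg_left, lat_neg_right]; exact h1.2.2
  · dsimp only; rw [e]; exact h4
  · dsimp only; rw [e]; exact h5.1
  · rw [e]; exact h5.2.1
  · dsimp only
    have : -a5 - -a3 = -(a5 - a3) := by abel
    rw [this, lat_neg_left, lat_neg_right]; exact h5.2.2

theorem SEq.mirror' {L L' : AddSubgroup Z2} {u v : Z2} (h : PSt.Ok ⟨L', v, -u, L⟩) :
    SEq ⟨L', v, -u, L⟩ ⟨L, u, v, L'⟩ := by
  have h1 := SEq.mirror h
  have h2 := SEq.neg h1.ok'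
  rw [neg_neg, neg_neg] at h2
  exact h1.trans h2

/-- the move M- on the other side: `v → v + u - l'` -/
theorem SEq.mMinus' {l p u v : Z2} {L : AddSubgroup Z2} (hok : PSt.Ok ⟨L, u, v, lat l p⟩)
    (h1 : 0 < cr v l) (h2 : cr v l ≤ cr p l) (h3 : -cr v l < cr u l) (h4 : cr u l < cr u v) :
    SEq ⟨L, u, v, lat l p⟩ ⟨L, u, v + u - l, lat l (p + u)⟩ := by
  have m1 := SEq.mirror hok
  have m2 := SEq.mMinus m1.ok' h1 h2 (by rw [cr_neg_right, cr_swap l u]; linarith)
    (by rw [cr_neg_right, cr_neg_right, cr_swap l u, cr_swap v u]; linarith)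
  have e1 : v - -u - l = v + u - l := by abel
  have e2 : p - -u = p + u := by abel
  rw [e1, e2] at m2
  exact m1.trans (m2.trans (SEq.mirror' m2.ok'))

/-- the move M+ on the other side: `v → v - u + l'` -/
theorem SEq.mPlus' {l p u v : Z2} {L : AddSubgroup Z2} (hok : PSt.Ok ⟨L, u, v, lat l p⟩)
    (h1 : 0 < cr v l) (h2 : cr v l ≤ cr p l) (h3 : -cr u v < cr u l) (h4 : cr u l < cr v l) :
    SEq ⟨L, u, v, lat l p⟩ ⟨L, u, v - u + l, lat l (p - u)⟩ := by
  have m1 := SEq.mirror hok
  have m2 := SEq.mPlus m1.ok' h1 h2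
    (by rw [cr_neg_right, cr_neg_right, cr_swap v u, cr_swap l u]; linarith)
    (by rw [cr_neg_right, cr_swap l u]; linarith)
  have e1 : v + -u + l = v - u + l := by abel
  have e2 : p + -u = p - u := by abel
  rw [e1, e2] at m2
  exact m1.trans (m2.trans (SEq.mirror' m2.ok'))

/-! ## Twists -/

/-- (B3): the primitive vector `l` of `L = ⟨l, p⟩` is parallel to `v` -/
theorem SEq.twist {l p u v : Z2} {L' : AddSubgroup Z2} (hok : PSt.Ok ⟨lat l p, u, v, L'⟩)
    (h1 : 0 < cr u l) (h2 : cr u l ≤ cr p l) (h3 : cr l v = 0) (j : ℤ) :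
    SEq ⟨lat l p, u, v, L'⟩ ⟨lat l (p - j • v), u - j • (v + l), v, L'⟩ := by
  have hA : 0 < cr u v := by
    obtain ⟨⟨a0, a1, a2, a3, a4, a5⟩, hl, e2, e3, hA, hr⟩ := hok
    exact hA
  have e : ∀ j : ℤ, cr (u - j • (v + l)) l = cr u l := by
    intro j
    rw [cr_sub_left, cr_smul_left, cr_add_left, cr_self, cr_swap v l, h3]; ring
  have e' : ∀ j : ℤ, cr (p - j • v) l = cr p l := by
    intro j
    rw [cr_sub_left, cr_smul_left, cr_swap v l, h3]; ring
  have e'' : ∀ j : ℤ, cr (u - j • (v + l)) v = cr u v := by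
    intro j
    rw [cr_sub_left, cr_smul_left, cr_add_left, cr_self, h3]; ring
  induction j using Int.induction_on with
  | zero => simpa using hok.seq
  | succ n ih =>
    refine ih.trans ?_
    have := SEq.mMinus ih.ok' (by rw [e]; exact h1) (by rw [e, e']; exact h2)
      (by rw [e, h3]; linarith) (by rw [h3, e'']; exact hA)
    have f1 : p - (n : ℤ) • v - v = p - ((n : ℤ) + 1) • v := by module
    have f2 : u - (n : ℤ) • (v + l) - v - l = u - ((n : ℤ) + 1) • (v + l) := by module
    rw [f1, f2] at this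
    exact this
  | pred n ih =>
    refine ih.trans ?_
    have := SEq.mPlus ih.ok' (by rw [e]; exact h1) (by rw [e, e']; exact h2)
      (by rw [h3, e'']; linarith) (by rw [e, h3]; linarith)
    have f1 : p - (-(n : ℤ)) • v + v = p - (-(n : ℤ) - 1) • v := by module
    have f2 : u - (-(n : ℤ)) • (v + l) + v + l = u - (-(n : ℤ) - 1) • (v + l) := by module
    rw [f1, f2] at this
    exact this

/-- (B3) on the other side: the primitive vector `l` of `L' = ⟨l, p⟩` is parallel to `u` -/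
theorem SEq.twist' {l p u v : Z2} {L : AddSubgroup Z2} (hok : PSt.Ok ⟨L, u, v, lat l p⟩)
    (h1 : 0 < cr v l) (h2 : cr v l ≤ cr p l) (h3 : cr u l = 0) (j : ℤ) :
    SEq ⟨L, u, v, lat l p⟩ ⟨L, u, v + j • (u - l), lat l (p + j • u)⟩ := by
  have m1 := SEq.mirror hok
  have m2 := SEq.twist m1.ok' h1 h2 (by rw [cr_neg_right, cr_swap l u, h3]; ring) j
  have e1 : v - j • (-u + l) = v + j • (u - l) := by module
  have e2 : p - j • -u = p + j • u := by module
  rw [e1, e2] at m2
  exact m1.trans (m2.trans (SEq.mirror' m2.ok'))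

end Pool.Agent.H4G
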