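import Pool.Agent.H4G.Arith.Moves

/-!
# The node lemma (helper40): for a fixed block `(L, u)` the area `A = u × v` can be reduced modulo
`c = gcd (L' × u)`, the area of `L'` growing accordingly.
-/

set_option autoImplicit false

namespace Pool.Agent.H4G

/-- The lattice `L` has index `a`. -/
def IsArea (L : AddSubgroup Z2) (a : ℤ) : Prop := 0 < a ∧ ∃ l p, cr p l = a ∧ L = lat l p

/-- `c = gcd (u × L)`. -/
def IsC (L : AddSubgroup Z2) (u : Z2) (c : ℤ) : Prop :=
  0 < c ∧ (∀ w ∈ L, c ∣ cr u w) ∧ ∃ w ∈ L, cr u w = c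

theorem IsArea.unique {L : AddSubgroup Z2} {a b : ℤ} (h : IsArea L a) (h' : IsArea L b) :
    a = b := by
  obtain ⟨h1, l, p, h2, h3⟩ := h
  obtain ⟨k1, l1, p1, k2, k3⟩ := h'
  obtain ⟨α, β, γ, δ, f1, f2, f3, f4⟩ := basis_change (k3.symm.trans h3) (by rw [h2]; exact h1)
    (by rw [k2]; exact k1)
  rw [← h2, ← k2, f4]

theorem Rgt.isArea {v l q : Z2} {L' : AddSubgroup Z2} (h : Rgt v L' l q) :
    IsArea L' (cr v l + cr l q) := by
  obtain ⟨h1, h2, h3⟩ := h
  refine ⟨by linarith, l, v - q, ?_, ?_⟩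
  · rw [cr_sub_left, cr_swap q l]; ring
  · rw [← h3]
    have : v - q = -(q - v) := by abel
    rw [this, lat_neg_right]

theorem Lft.isArea {u l q : Z2} {L : AddSubgroup Z2} (h : Lft L u q l) :
    IsArea L (cr q l + cr l u) := by
  obtain ⟨h1, h2, h3⟩ := h
  refine ⟨by linarith, l, q - u, ?_, h3.symm⟩
  rw [cr_sub_left, cr_swap u l]; ring

/-- a primitive vector can be completed to a basis -/
theorem exists_basis {l p w : Z2} {α β : ℤ} (hw : w = α • l + β • p) (hc : IsCoprime α β) :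
    ∃ p1, lat w p1 = lat l p ∧ cr p1 w = cr p l := by
  obtain ⟨x, y, hxy⟩ := hc
  refine ⟨(-y) • l + x • p, ?_, ?_⟩
  · refine closure_pair_eq (α := α) (β := β) (γ := -y) (δ := x) hw rfl (Or.inl ?_)
    linarith
  · rw [hw]
    simp only [cr_add_left, cr_add_right, cr_smul_left, cr_smul_right, cr_self]
    rw [cr_swap l p]
    linear_combination (cr p l) * hxy

/-- basis adapted to a direction -/
theorem exists_adapted {l p u v : Z2} (ha : 0 < cr p l) (hA : 0 < cr u v) :
    ∃ e f : Z2, lat e f = lat l p ∧ cr f e = cr p l ∧ cr u e = 0 ∧ 0 < cr v e ∧ 0 < cr u f ∧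
      cr u f * cr v e = cr p l * cr u v := by
  have hne : ¬ (cr u l = 0 ∧ cr u p = 0) := by
    rintro ⟨h1, h2⟩
    have h3 := cr_expand p l u
    rw [h1, h2, zero_smul, zero_smul, sub_zero] at h3
    have h4 : cr p l • u = cr p l • (0 : Z2) := by rw [h3, smul_zero]
    rw [smul_inj ha.ne' h4, cr_zero_left] at hA
    exact lt_irrefl _ hA
  have hg : 0 < Int.gcd (cr u l) (cr u p) := by
    rw [Int.gcd_pos_iff]
    by_contra h
    push Not at h
    exact hne h
  obtain ⟨g, x', y', hg0, hco, hx, hy⟩ := Int.exists_gcd_one' hg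
  have hco' : IsCoprime (-y') x' := by
    have := (Int.isCoprime_iff_gcd_eq_one (m := x') (n := y')).2 hco
    exact (IsCoprime.neg_left_iff _ _).2 this.symm
  set e0 := (-y') • l + x' • p with he0
  obtain ⟨f0, hf1, hf2⟩ := exists_basis (l := l) (p := p) he0 hco'
  have hue : cr u e0 = 0 := by
    rw [he0, cr_add_right, cr_smul_right, cr_smul_right, hx, hy]; ring
  have hve : cr v e0 ≠ 0 := by
    intro h
    have h3 := cr_expand u v e0
    rw [cr_swap e0 v, h, cr_swap e0 u, hue] at h3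
    have h4 : cr u v • e0 = cr u v • (0 : Z2) := by rw [h3]; module
    rw [smul_inj hA.ne' h4, cr_zero_right] at hf2
    exact ha.ne hf2
  have main : ∀ e f : Z2, lat e f = lat l p → cr f e = cr p l → cr u e = 0 → 0 < cr v e →
      0 < cr u f ∧ cr u f * cr v e = cr p l * cr u v := by
    intro e f h1 h2 h3 h4
    have h5 := congrArg (fun w => cr v w) (cr_expand f e u)
    simp only [cr_sub_right, cr_smul_right] at h5
    rw [h3, h2, cr_swap v u] at h5
    have h6 : cr u f * cr v e = cr p l * cr u v := by linarith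
    refine ⟨?_, h6⟩
    have h7 : 0 < cr u f * cr v e := by rw [h6]; exact mul_pos ha hA
    exact (mul_pos_iff_of_pos_right h4).1 h7
  rcases lt_or_gt_of_ne hve with h | h
  · have h1 : lat (-e0) (-f0) = lat l p := by rw [lat_neg_left, lat_neg_right]; exact hf1
    have h2 : cr (-f0) (-e0) = cr p l := by rw [cr_neg_left, cr_neg_right, neg_neg]; exact hf2
    have h3 : cr u (-e0) = 0 := by rw [cr_neg_right, hue, neg_zero]
    have h4 : 0 < cr v (-e0) := by rw [cr_neg_right]; linarith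
    exact ⟨-e0, -f0, h1, h2, h3, h4, main _ _ h1 h2 h3 h4⟩
  · exact ⟨e0, f0, hf1, hf2, hue, h, main _ _ hf1 hf2 hue h⟩

/-- no short vector of `L'` parallel to `v` -/
theorem Rgt.slit {u v l q w : Z2} {L' : AddSubgroup Z2} (h : Rgt v L' l q) (hA : 0 < cr u v)
    (hw : w ∈ L') (h0 : cr v w = 0) (h1 : |cr u w| ≤ cr u v) : w = 0 := by
  obtain ⟨h2, h3, h4⟩ := h
  rw [← h4] at hw
  obtain ⟨α, β, e⟩ := mem_lat.1 hw
  have e1 : cr l w = β * (cr l q + cr v l) := by
    rw [← e, cr_add_right, cr_smul_right, cr_smul_right, cr_self, cr_sub_right, cr_swap v l]; ring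
  have e2 : cr u v • w = cr u w • v := by
    have := cr_expand u v w
    rw [this, cr_swap w v, h0, cr_swap w u]; module
  have e3 : cr u v * cr l w = -(cr u w * cr v l) := by
    have := congrArg (fun x => cr l x) e2
    simp only [cr_smul_right] at this
    rw [this, cr_swap l v]; ring
  have hs : 0 < cr l q + cr v l := by linarith
  have hβ : β = 0 := by
    by_contra hβ
    have h5 : 1 ≤ |β| := Int.one_le_abs hβ
    have h6 : |cr u v * cr l w| = |cr u w| * cr v l := by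
      rw [e3, abs_neg, abs_mul, abs_of_pos h2]
    rw [e1, abs_mul, abs_mul, abs_of_pos hA, abs_of_pos hs] at h6
    have h7 : cr u v * (1 * (cr l q + cr v l)) ≤ cr u v * (|β| * (cr l q + cr v l)) :=
      mul_le_mul_of_nonneg_left (mul_le_mul_of_nonneg_right h5 hs.le) hA.le
    have h8 : |cr u w| * cr v l ≤ cr u v * cr v l := mul_le_mul_of_nonneg_right h1 h2.le
    nlinarith
  rw [hβ, zero_mul] at e1
  rw [e1, mul_zero] at e3
  have h9 : cr u w = 0 := by
    rcases mul_eq_zero.1 (neg_eq_zero.1 e3.symm) with h | h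
    · exact h
    · exact absurd h h2.ne'
  rw [h9, zero_smul] at e2
  have : cr u v • w = cr u v • (0 : Z2) := by rw [e2, smul_zero]
  exact smul_inj hA.ne' this

theorem IsC.unique {L : AddSubgroup Z2} {u : Z2} {c d : ℤ} (h : IsC L u c) (h' : IsC L u d) :
    c = d := by
  obtain ⟨h1, h2, w, hw, h3⟩ := h
  obtain ⟨k1, k2, x, hx, k3⟩ := h'
  exact Int.dvd_antisymm h1.le k1.le (by rw [← k3]; exact h2 x hx) (by rw [← h3]; exact k2 w hw)

/-- the constant `c` in an adapted basis -/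
theorem isC_adapted {e f u : Z2} (he : cr u e = 0) (hf : 0 < cr u f) : IsC (lat e f) u (cr u f) := by
  refine ⟨hf, ?_, f, mem_lat.2 ⟨0, 1, by module⟩, rfl⟩
  intro w hw
  obtain ⟨m, n, h⟩ := mem_lat.1 hw
  rw [← h, cr_add_right, cr_smul_right, cr_smul_right, he]
  exact ⟨n, by ring⟩

/-- there is a move which increases the area of `L'`, if `c < A` -/
theorem exists_node_vec {u v l0 q0 : Z2} {L' : AddSubgroup Z2} {a c : ℤ} (h : Rgt v L' l0 q0)
    (hA : 0 < cr u v) (ha : IsArea L' a) (hc : IsC L' u c) (hlt : c < cr u v) :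
    ∃ l p : Z2, lat l p = L' ∧ cr p l = a ∧ 0 < cr v l ∧ cr v l ≤ a ∧ |cr u l| < cr u v ∧
      cr u l ≠ 0 := by
  obtain ⟨ha0, l1, p1, h1, h2⟩ := ha
  obtain ⟨e, f, k1, k2, k3, k4, k5, k6⟩ := exists_adapted (l := l1) (p := p1) (u := u) (v := v)
    (by rw [h1]; exact ha0) hA
  have hc' : c = cr u f := by
    have := isC_adapted k3 k5
    rw [k1, ← h2] at this
    exact hc.unique this
  have hc0 : 0 < c := hc.1
  set A := cr u v with hAdef
  set n : ℕ := ((A - 1) / c).toNat with hn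
  have hdiv : 1 ≤ (A - 1) / c := by
    rw [Int.le_ediv_iff_mul_le hc0]; linarith
  have hnz : (n : ℤ) = (A - 1) / c := Int.toNat_of_nonneg (by linarith)
  have hn0 : 0 < n := by omega
  have hnA : (n : ℤ) * c < A := by
    have := Int.ediv_mul_le (A - 1) hc0.ne'
    rw [hnz]; linarith
  have hnA' : A ≤ ((n : ℤ) + 1) * c := by
    have := Int.lt_ediv_add_one_mul_self (A - 1) hc0
    rw [hnz]; linarith
  set E := cr v e with hE
  set F := cr v f with hF
  have hcE : c * E = a * A := by rw [hc', k6, h1]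
  have hEr : (0 : ℝ) < (E : ℝ) := by exact_mod_cast k4
  obtain ⟨j, k, hk0, hkn, hap⟩ := Real.exists_int_int_abs_mul_sub_le ((F : ℝ) / E) hn0
  have hap2 : |(k : ℝ) * F - j * E| ≤ a := by
    have e1 : (k : ℝ) * F - j * E = (k * ((F : ℝ) / E) - j) * E := by
      field_simp
    rw [e1, abs_mul, abs_of_pos hEr]
    have h3 : |(k : ℝ) * ((F : ℝ) / E) - j| * E ≤ 1 / (n + 1) * E :=
      mul_le_mul_of_nonneg_right hap hEr.le
    refine h3.trans ?_
    rw [one_div, inv_mul_le_iff₀ (by positivity)]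
    have h4 : (c : ℝ) * E ≤ c * ((n + 1) * a) := by
      have h5 : c * E ≤ c * (((n : ℤ) + 1) * a) := by
        rw [hcE]
        calc a * A ≤ a * (((n : ℤ) + 1) * c) := mul_le_mul_of_nonneg_left hnA' ha0.le
          _ = c * (((n : ℤ) + 1) * a) := by ring
      exact_mod_cast h5
    have hcr : (0 : ℝ) < c := by exact_mod_cast hc0
    exact le_of_mul_le_mul_left h4 hcr
  have hap3 : |k * F - j * E| ≤ a := by exact_mod_cast hap2
  -- the vector `w = k f - j e`
  set w := (-j) • e + k • f with hw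
  have w1 : cr v w = k * F - j * E := by
    rw [hw, cr_add_right, cr_smul_right, cr_smul_right]; ring
  have w2 : cr u w = k * c := by
    rw [hw, cr_add_right, cr_smul_right, cr_smul_right, k3, hc']; ring
  have w3 : w ∈ L' := by
    rw [h2, ← k1]; exact mem_lat.2 ⟨-j, k, rfl⟩
  have w4 : 0 < cr u w := by rw [w2]; exact mul_pos hk0 hc0
  have w5 : cr u w < A := by
    rw [w2]
    calc k * c ≤ n * c := mul_le_mul_of_nonneg_right hkn hc0.le
      _ < A := hnA
  have w6 : cr v w ≠ 0 := by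
    intro h0
    have := h.slit hA w3 h0 (by rw [abs_of_pos w4]; exact w5.le)
    rw [this, cr_zero_right] at w4
    exact lt_irrefl _ w4
  -- make it primitive
  have hg : 0 < Int.gcd (-j) k := Int.gcd_pos_of_ne_zero_right _ hk0.ne'
  obtain ⟨g, j', k', hg0, hco, hj, hk⟩ := Int.exists_gcd_one' hg
  have hco' : IsCoprime j' k' := (Int.isCoprime_iff_gcd_eq_one (m := j') (n := k')).2 hco
  set x := j' • e + k' • f with hx
  have hwx : w = (g : ℤ) • x := by
    rw [hw, hx, hj, hk]; module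
  have hg1 : (1 : ℤ) ≤ g := by exact_mod_cast hg0
  obtain ⟨y, hy1, hy2⟩ := exists_basis (l := e) (p := f) hx hco'
  have x1 : cr u w = g * cr u x := by rw [hwx, cr_smul_right]
  have x2 : cr v w = g * cr v x := by rw [hwx, cr_smul_right]
  have x3 : 0 < cr u x := by
    rw [x1] at w4
    exact (mul_pos_iff_of_pos_left (by linarith)).1 w4
  have x4 : cr u x < A := by
    rw [x1] at w5
    nlinarith
  have x5 : cr v x ≠ 0 := by
    intro h0; rw [x2, h0, mul_zero] at w6; exact w6 rfl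
  have x6 : |cr v x| ≤ a := by
    rw [← w1, x2, abs_mul, abs_of_pos (by linarith : (0 : ℤ) < g)] at hap3
    have := abs_nonneg (cr v x)
    nlinarith
  rcases lt_or_gt_of_ne x5 with h0 | h0
  · refine ⟨-x, -y, ?_, ?_, ?_, ?_, ?_, ?_⟩
    · rw [lat_neg_left, lat_neg_right, hy1, k1, ← h2]
    · rw [cr_neg_left, cr_neg_right, neg_neg, hy2, k2, h1]
    · rw [cr_neg_right]; linarith
    · rw [cr_neg_right]; rw [abs_of_neg h0] at x6; exact x6
    · rw [cr_neg_right, abs_neg, abs_of_pos x3]; exact x4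
    · rw [cr_neg_right]; intro h9; linarith
  · refine ⟨x, y, ?_, ?_, h0, ?_, ?_, x3.ne'⟩
    · rw [hy1, k1, ← h2]
    · rw [hy2, k2, h1]
    · rw [abs_of_pos h0] at x6; exact x6
    · rw [abs_of_pos x3]; exact x4

/-- `c` does not change when the second basis vector moves by multiples of `u` -/
theorem IsC.congr {l p u : Z2} {c k : ℤ} (h : IsC (lat l p) u c) : IsC (lat l (p + k • u)) u c := by
  obtain ⟨h1, h2, w, hw, h3⟩ := h
  refine ⟨h1, ?_, ?_⟩
  · intro x hx
    obtain ⟨m, n, e⟩ := mem_lat.1 hx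
    have := h2 (m • l + n • p) (mem_lat.2 ⟨m, n, rfl⟩)
    rw [← e]
    simpa only [cr_add_right, cr_smul_right, cr_self, mul_zero, add_zero] using this
  · obtain ⟨m, n, e⟩ := mem_lat.1 hw
    refine ⟨m • l + n • (p + k • u), mem_lat.2 ⟨m, n, rfl⟩, ?_⟩
    rw [← h3, ← e]
    simp only [cr_add_right, cr_smul_right, cr_self, mul_zero, add_zero]

/-- (B4), one step: if `c < A`, the area of `L'` can be increased, `(L, u)` being fixed. -/
theorem SEq.nodeStep {L L' : AddSubgroup Z2} {u v : Z2} {a c : ℤ}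
    (hok : PSt.Ok ⟨L, u, v, L'⟩) (ha : IsArea L' a) (hc : IsC L' u c) (hlt : c < cr u v) :
    ∃ (v1 : Z2) (L1 : AddSubgroup Z2) (θ : ℤ), SEq ⟨L, u, v, L'⟩ ⟨L, u, v1, L1⟩ ∧ 0 < θ ∧
      c ∣ θ ∧ cr u v1 = cr u v - θ ∧ IsArea L1 (a + θ) ∧ IsC L1 u c := by
  have hok' := hok
  obtain ⟨⟨a0, a1, a2, a3, a4, a5⟩, hl, e2, e3, hA, hr⟩ := hok'
  dsimp only at hl e2 e3 hA hr
  subst e2 e3
  obtain ⟨l, p, h1, h2, h3, h4, h5, h6⟩ := exists_node_vec hr hA ha hc hlt
  have hd : c ∣ cr a2 l := hc.2.1 l (by rw [← h1]; exact mem_lat.2 ⟨1, 0, by module⟩)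
  subst h1
  rw [abs_lt] at h5
  rcases lt_or_gt_of_ne h6 with h | h
  · have := SEq.mPlus' hok h3 (by rw [h2]; exact h4) h5.1 (by linarith)
    refine ⟨_, _, -cr a2 l, this, by linarith, (dvd_neg).2 hd, ?_, ?_, ?_⟩
    · rw [cr_add_right, cr_sub_right, cr_self]; ring
    · refine ⟨by linarith [ha.1], l, p - a2, ?_, rfl⟩
      rw [cr_sub_left, h2]; ring
    · have := hc.congr (k := -1)
      have e : p + (-1 : ℤ) • a2 = p - a2 := by module
      rwa [e] at this
  · have := SEq.mMinus' hok h3 (by rw [h2]; exact h4) (by linarith) h5.2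
    refine ⟨_, _, cr a2 l, this, h, hd, ?_, ?_, ?_⟩
    · rw [cr_sub_right, cr_add_right, cr_self]; ring
    · refine ⟨by linarith [ha.1], l, p + a2, ?_, rfl⟩
      rw [cr_add_left, h2]
    · have := hc.congr (k := 1)
      rwa [one_smul] at this

/-- (B4) NODE LEMMA: `A` can be replaced by the representative of its class modulo `c` in `[1, c]`. -/
theorem SEq.node (n : ℕ) : ∀ {L L' : AddSubgroup Z2} {u v : Z2} {a c : ℤ},
    (cr u v).toNat = n → PSt.Ok ⟨L, u, v, L'⟩ → IsArea L' a → IsC L' u c →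
    ∃ (v1 : Z2) (L1 : AddSubgroup Z2) (θ : ℤ), SEq ⟨L, u, v, L'⟩ ⟨L, u, v1, L1⟩ ∧ 0 ≤ θ ∧
      c ∣ θ ∧ cr u v1 = cr u v - θ ∧ 0 < cr u v1 ∧ cr u v1 ≤ c ∧ IsArea L1 (a + θ) ∧
      IsC L1 u c := by
  induction n using Nat.strong_induction_on with
  | _ n ih =>
  intro L L' u v a c hn hok ha hc
  have hA : 0 < cr u v := by
    obtain ⟨⟨a0, a1, a2, a3, a4, a5⟩, hl, e2, e3, hA, hr⟩ := hok
    exact hA
  by_cases hlt : c < cr u v
  · obtain ⟨v1, L1, θ, h1, h2, h3, h4, h5, h6⟩ := SEq.nodeStep hok ha hc hlt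
    have hok1 := h1.ok'
    have hA1 : 0 < cr u v1 := by
      obtain ⟨⟨a0, a1, a2, a3, a4, a5⟩, hl, e2, e3, hA, hr⟩ := hok1
      exact hA
    obtain ⟨v2, L2, θ', k1, k2, k3, k4, k5, k6, k7, k8⟩ := ih (cr u v1).toNat (by omega) rfl hok1 h5 h6
    refine ⟨v2, L2, θ + θ', h1.trans k1, by linarith, dvd_add h3 k3, by rw [k4, h4]; ring, k5, k6,
      ?_, k8⟩
    rw [← add_assoc]; exact k7
  · exact ⟨v, L', 0, hok.seq, le_rfl, dvd_zero c, by ring, hA, by linarith, by
      rw [add_zero]; exact ha, hc⟩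

end Pool.Agent.H4G
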