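import Pool.Agent.H4G.Arith.K511

/-!
# Row R12 (helper5): the states with `A = 1`, `a = 2`, `a' = N - 3`, `N` prime
-/

set_option autoImplicit false

namespace Pool.Agent.H4G

/-- ROW R12. `N` prime: every state with `A = 1`, areas `2` and `N - 3` is equivalent to a
Z-state or to `C511`. No condition on `gcd (L × v)`, `gcd (L' × u)`. -/
theorem PSt.Ok.z_or_C511_two {N : ℕ} (hN : N.Prime) (h11 : 11 ≤ N) {S : PSt} (hS : S.Ok)
    (hA : cr S.u S.v = 1) (ha : IsArea S.L 2) (ha' : IsArea S.L' ((N : ℤ) - 3)) :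
    (∃ b z b' x : ℤ, 0 < z ∧ z < b ∧ 0 < x ∧ x < b' ∧ b + 1 + b' = N ∧
      SEq S (KC b z (-1) b' 1 (-x))) ∨ SEq S (KC 2 1 0 (N - 3) 2 (-1)) := by
  obtain ⟨g, h1, h2, h3⟩ := exists_KS_all hS hA
  have hodd : Odd N := hN.odd_of_ne_two (by omega)
  have h5 : (2 : ℤ) ∣ (N : ℤ) - 3 := by
    obtain ⟨t, ht⟩ := hodd
    exact ⟨t - 1, by rw [ht]; push_cast; ring⟩
  have hM : (0 : ℤ) < (N : ℤ) - 3 := ha'.1
  rcases K511.base hM h5 (K511.cop hN two_pos hM (by ring)) h1 (ha.act g) (ha'.act g) with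
    ⟨z, x, n1, n2, n3, n4, n5⟩ | h6
  · exact Or.inl ⟨2, z, (N : ℤ) - 3, x, n1, n2, n3, n4, by ring, n5⟩
  · exact Or.inr h6

end Pool.Agent.H4G
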