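import Pool.Agent.H4G.Arith.Node
import Pool.Agent.H4G.Move

/-!
# The action of `SL₂(ℤ)` on path states, volumes, extremal states, K-states (helper40)
-/

set_option autoImplicit false

namespace Pool.Agent.H4G

open Matrix MatrixGroups

/-! ## The action -/

/-- The action of a matrix on lattice vectors. -/
def act (g : SL(2, ℤ)) : Z2 →+ Z2 where
  toFun p := (g 0 0 * p.1 + g 0 1 * p.2, g 1 0 * p.1 + g 1 1 * p.2)
  map_zero' := by simp
  map_add' p q := by
    ext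
    · simp only [Prod.fst_add, Prod.snd_add]; ring
    · simp only [Prod.fst_add, Prod.snd_add]; ring

theorem act_apply (g : SL(2, ℤ)) (p : Z2) :
    act g p = (g 0 0 * p.1 + g 0 1 * p.2, g 1 0 * p.1 + g 1 1 * p.2) := rfl

theorem act_one (p : Z2) : act 1 p = p := by
  simp [act_apply]

theorem act_mul (g h : SL(2, ℤ)) (p : Z2) : act (g * h) p = act g (act h p) := by
  simp only [act_apply, Matrix.SpecialLinearGroup.coe_mul, Matrix.mul_apply, Fin.sum_univ_two]
  ext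
  · simp only; ring
  · simp only; ring

theorem det_eq (g : SL(2, ℤ)) : g 0 0 * g 1 1 - g 0 1 * g 1 0 = 1 := by
  have := g.det_coe
  rwa [Matrix.det_fin_two] at this

theorem cr_act (g : SL(2, ℤ)) (a b : Z2) : cr (act g a) (act g b) = cr a b := by
  have := det_eq g
  simp only [cr, act_apply]
  linear_combination (a.1 * b.2 - a.2 * b.1) * this

theorem act_smul (g : SL(2, ℤ)) (k : ℤ) (a : Z2) : act g (k • a) = k • act g a :=
  map_zsmul (act g) k a

theorem C6.map_map (c : C6) (φ ψ : Z2 → Z2) : (c.map φ).map ψ = c.map (fun p => ψ (φ p)) := by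
  obtain ⟨a0, a1, a2, a3, a4, a5⟩ := c
  rfl

theorem C6.map_id' (c : C6) {φ : Z2 → Z2} (h : ∀ p, φ p = p) : c.map φ = c := by
  obtain ⟨a0, a1, a2, a3, a4, a5⟩ := c
  simp only [C6.map, h]

theorem pos_act (g : SL(2, ℤ)) {c : C6} (h : Pos c) : Pos (c.map (act g)) := by
  obtain ⟨a0, a1, a2, a3, a4, a5⟩ := c
  simp only [Pos, C6.map, cr_act] at h ⊢
  exact h

theorem CEq.act (g : SL(2, ℤ)) {c : C6} (hp : Pos c) : CEq c (c.map (act g)) := by
  have hg : g ∈ Subgroup.closure {ModularGroup.S, ModularGroup.T} := by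
    rw [SpecialLinearGroup.SL2Z_generators]; trivial
  induction hg using Subgroup.closure_induction generalizing c with
  | mem x hx =>
    rcases hx with rfl | rfl
    · have := CEq.mv hp (Mv.J c)
      have e : c.map shJ = c.map (Pool.Agent.H4G.act ModularGroup.S) := by
        congr 1
        funext p
        rw [act_apply]
        simp [ModularGroup.S, shJ]
      rw [e] at this
      exact this
    · have := CEq.mv hp (Mv.T c)
      have e : c.map shT = c.map (Pool.Agent.H4G.act ModularGroup.T) := by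
        congr 1
        funext p
        rw [act_apply]
        simp [ModularGroup.T, shT]
      rw [e] at this
      exact this
  | one =>
    rw [C6.map_id' c act_one]
    exact CEq.refl c
  | mul x y _ _ hx hy =>
    have h1 := hy hp
    have h2 := hx (pos_act y hp)
    rw [C6.map_map] at h2
    have e : (fun p => Pool.Agent.H4G.act x (Pool.Agent.H4G.act y p)) =
        fun p => Pool.Agent.H4G.act (x * y) p := by
      funext p; rw [act_mul]
    rw [e] at h2
    exact h1.trans h2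
  | inv x _ hx =>
    have h1 := hx (pos_act x⁻¹ hp)
    rw [C6.map_map] at h1
    have e : c.map (fun p => Pool.Agent.H4G.act x (Pool.Agent.H4G.act x⁻¹ p)) = c := by
      apply C6.map_id'
      intro p; rw [← act_mul, mul_inv_cancel, act_one]
    rw [e] at h1
    exact h1.symm

theorem map_lat (g : SL(2, ℤ)) (x y : Z2) : (lat x y).map (act g) = lat (act g x) (act g y) := by
  unfold lat
  rw [AddMonoidHom.map_closure, Set.image_pair]

/-- The action on path states. -/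
def PSt.act (g : SL(2, ℤ)) (S : PSt) : PSt :=
  ⟨S.L.map (Pool.Agent.H4G.act g), Pool.Agent.H4G.act g S.u, Pool.Agent.H4G.act g S.v,
    S.L'.map (Pool.Agent.H4G.act g)⟩

theorem IsRep.act (g : SL(2, ℤ)) {S : PSt} {c : C6} (h : IsRep S c) :
    IsRep (S.act g) (c.map (act g)) := by
  obtain ⟨a0, a1, a2, a3, a4, a5⟩ := c
  obtain ⟨⟨h1, h2, h3⟩, h4, h5, h6, h7, h8, h9⟩ := h
  refine ⟨⟨?_, ?_, ?_⟩, ?_, ?_, ?_, ?_, ?_, ?_⟩
  · rw [cr_act]; exact h1
  · simp only [PSt.act]; rw [cr_act]; exact h2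
  · simp only [PSt.act]; rw [← h3, map_lat, map_sub]
  · simp only [PSt.act]; rw [h4]
  · simp only [PSt.act]; rw [h5]
  · simp only [PSt.act]; rw [cr_act]; exact h6
  · simp only [PSt.act]; rw [cr_act]; exact h7
  · rw [cr_act]; exact h8
  · simp only [PSt.act]; rw [← h9, map_lat, map_sub]

theorem SEq.act (g : SL(2, ℤ)) {S : PSt} (h : S.Ok) : SEq S (S.act g) := by
  obtain ⟨c, hc⟩ := h
  exact ⟨c, _, hc, hc.act g, CEq.act g hc.pos⟩

theorem IsArea.act (g : SL(2, ℤ)) {L : AddSubgroup Z2} {a : ℤ} (h : IsArea L a) :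
    IsArea (L.map (Pool.Agent.H4G.act g)) a := by
  obtain ⟨h1, l, p, h2, h3⟩ := h
  exact ⟨h1, Pool.Agent.H4G.act g l, Pool.Agent.H4G.act g p, by rw [cr_act]; exact h2,
    by rw [h3, map_lat]⟩

theorem IsC.act (g : SL(2, ℤ)) {L : AddSubgroup Z2} {u : Z2} {c : ℤ} (h : IsC L u c) :
    IsC (L.map (Pool.Agent.H4G.act g)) (Pool.Agent.H4G.act g u) c := by
  obtain ⟨h1, h2, w, hw, h3⟩ := h
  refine ⟨h1, ?_, _, AddSubgroup.mem_map_of_mem _ hw, by rw [cr_act]; exact h3⟩
  rintro _ ⟨x, hx, rfl⟩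
  rw [cr_act]; exact h2 x hx

/-! ## Volumes -/

theorem CEq.vol_eq {c c' : C6} (h : CEq c c') : vol c' = vol c := by
  induction h with
  | rel x y h => exact Mv.vol_eq h.2
  | refl x => rfl
  | symm x y _ ih => exact ih.symm
  | trans x y z _ _ ih1 ih2 => exact ih2.trans ih1

theorem IsRep.areas {S : PSt} {c : C6} (h : IsRep S c) :
    ∃ a a', IsArea S.L a ∧ IsArea S.L' a' ∧ 0 < cr S.u S.v ∧ vol c = a + cr S.u S.v + a' := by
  obtain ⟨a0, a1, a2, a3, a4, a5⟩ := c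
  obtain ⟨h1, h2, h3, h4, h5⟩ := h
  refine ⟨_, _, h1.isArea, h5.isArea, h4, ?_⟩
  simp only [vol]
  rw [h2, h3]; ring

theorem PSt.Ok.pos {S : PSt} (h : S.Ok) : 0 < cr S.u S.v := by
  obtain ⟨c, hc⟩ := h
  obtain ⟨a, a', h1, h2, h3, h4⟩ := hc.areas
  exact h3

/-- The volume is the sum of the three areas. -/
theorem IsRep.vol {S : PSt} {c : C6} (h : IsRep S c) {a a' : ℤ} (ha : IsArea S.L a)
    (ha' : IsArea S.L' a') : vol c = a + cr S.u S.v + a' := by
  obtain ⟨b, b', h1, h2, h3, h4⟩ := h.areas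
  rw [h4, h1.unique ha, h2.unique ha']

theorem SEq.vol {S S1 : PSt} (h : SEq S S1) {a a' b b' : ℤ} (ha : IsArea S.L a)
    (ha' : IsArea S.L' a') (hb : IsArea S1.L b) (hb' : IsArea S1.L' b') :
    b + cr S1.u S1.v + b' = a + cr S.u S.v + a' := by
  obtain ⟨c, c', h1, h2, h3⟩ := h
  rw [← h1.vol ha ha', ← h2.vol hb hb', h3.vol_eq]

/-- EXTREMAL PRINCIPLE: in every class there is a state with maximal `a'`. -/
theorem exists_max {S : PSt} (hS : S.Ok) : ∃ (S1 : PSt) (a1 : ℤ), SEq S S1 ∧ IsArea S1.L' a1 ∧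
    ∀ (S2 : PSt) (a2 : ℤ), SEq S S2 → IsArea S2.L' a2 → a2 ≤ a1 := by
  classical
  obtain ⟨c, hc⟩ := hS
  have hex : ∃ n : ℕ, ∃ (S1 : PSt) (a1 : ℤ), SEq S S1 ∧ IsArea S1.L' a1 ∧
      a1 = H4G.vol c - n := by
    obtain ⟨a, a', h1, h2, h3, h4⟩ := hc.areas
    refine ⟨(a + cr S.u S.v).toNat, S, a', (show S.Ok from ⟨c, hc⟩).seq, h2, ?_⟩
    have := h1.1
    omega
  obtain ⟨S1, a1, h1, h2, h3⟩ := Nat.find_spec hex
  refine ⟨S1, a1, h1, h2, ?_⟩
  intro S2 a2 k1 k2
  by_contra hlt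
  push Not at hlt
  obtain ⟨d, d', m1, m2, m3⟩ := k1
  obtain ⟨b, b', n1, n2, n3, n4⟩ := m2.areas
  have e := n2.unique k2
  have e2 : H4G.vol d' = H4G.vol c := by rw [m3.vol_eq, (hc.ceq m1).vol_eq]
  have hb := n1.1
  refine Nat.find_min hex (m := (H4G.vol c - a2).toNat) (by omega) ⟨S2, a2, ⟨d, d', m1, m2, m3⟩,
    k2, by omega⟩

/-- every state of maximal `a'` is stuck -/
theorem max_stuck {S : PSt} {a : ℤ} (hS : S.Ok) (ha : IsArea S.L' a)
    (hmax : ∀ (S2 : PSt) (a2 : ℤ), SEq S S2 → IsArea S2.L' a2 → a2 ≤ a) {c : ℤ}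
    (hc : IsC S.L' S.u c) : cr S.u S.v ≤ c := by
  by_contra hlt
  push Not at hlt
  obtain ⟨v1, L1, θ, h1, h2, h3, h4, h5, h6⟩ := SEq.nodeStep (L := S.L) (L' := S.L') (u := S.u)
    (v := S.v) hS ha hc hlt
  have := hmax _ _ h1 h5
  linarith

/-! ## The node lemma on the other side -/

theorem IsC.neg {L : AddSubgroup Z2} {u : Z2} {c : ℤ} (h : IsC L u c) : IsC L (-u) c := by
  obtain ⟨h1, h2, w, hw, h3⟩ := h
  refine ⟨h1, ?_, -w, L.neg_mem hw, by rw [cr_neg_left, cr_neg_right, h3, neg_neg]⟩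
  intro x hx
  rw [cr_neg_left]; exact (dvd_neg).2 (h2 x hx)

/-- (B4) on the other side: `(v, L')` fixed. -/
theorem SEq.node' {L L' : AddSubgroup Z2} {u v : Z2} {a c : ℤ}
    (hok : PSt.Ok ⟨L, u, v, L'⟩) (ha : IsArea L a) (hc : IsC L v c) :
    ∃ (u1 : Z2) (L1 : AddSubgroup Z2) (θ : ℤ), SEq ⟨L, u, v, L'⟩ ⟨L1, u1, v, L'⟩ ∧ 0 ≤ θ ∧
      c ∣ θ ∧ cr u1 v = cr u v - θ ∧ 0 < cr u1 v ∧ cr u1 v ≤ c ∧ IsArea L1 (a + θ) ∧
      IsC L1 v c := by
  have m1 := SEq.mirror hok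
  have e1 : cr v (-u) = cr u v := by rw [cr_neg_right, cr_swap v u, neg_neg]
  obtain ⟨w, L1, θ, h1, h2, h3, h4, h5, h6, h7, h8⟩ :=
    SEq.node _ (L := L') (L' := L) (u := v) (v := -u) rfl m1.ok' ha hc
  have m2 := SEq.mirror h1.ok'
  have m3 := SEq.neg m2.ok'
  rw [neg_neg] at m3
  refine ⟨-w, L1, θ, m1.trans (h1.trans (m2.trans m3)), h2, h3, ?_, ?_, ?_, h7, h8⟩
  · rw [cr_neg_left, cr_swap w v, neg_neg, h4, e1]
  · rw [cr_neg_left, cr_swap w v, neg_neg]; exact h5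
  · rw [cr_neg_left, cr_swap w v, neg_neg]; exact h6

/-! ## K-states -/

/-- The K-state with the two lattices `L, L'`. -/
def KS (L L' : AddSubgroup Z2) : PSt := ⟨L, (1, 0), (0, 1), L'⟩

/-- every state with `A = 1` is a K-state up to `SL₂(ℤ)` -/
theorem exists_KS {S : PSt} (hS : S.Ok) (hA : cr S.u S.v = 1) {a a' : ℤ} (ha : IsArea S.L a)
    (ha' : IsArea S.L' a') :
    ∃ L L' : AddSubgroup Z2, SEq S (KS L L') ∧ IsArea L a ∧ IsArea L' a' := by
  have hdet : Matrix.det !![S.v.2, -S.v.1; -S.u.2, S.u.1] = 1 := by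
    rw [Matrix.det_fin_two_of]
    simp only [cr] at hA
    linarith
  set g : SL(2, ℤ) := ⟨!![S.v.2, -S.v.1; -S.u.2, S.u.1], hdet⟩ with hg
  have h1 : act g S.u = (1, 0) := by
    rw [act_apply]
    simp only [hg]
    simp only [cr] at hA
    ext
    · simp; linarith
    · simp; ring
  have h2 : act g S.v = (0, 1) := by
    rw [act_apply]
    simp only [hg]
    simp only [cr] at hA
    ext
    · simp; ring
    · simp; linarith
  have := SEq.act g hS
  unfold PSt.act at this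
  rw [h1, h2] at this
  exact ⟨_, _, this, ha.act g, ha'.act g⟩

/-- the shear `(x, y) ↦ (x, y + k x)` -/
def shV (k : ℤ) : SL(2, ℤ) := ⟨!![1, 0; k, 1], by simp [Matrix.det_fin_two_of]⟩

/-- the shear `(x, y) ↦ (x + k y, y)` -/
def shH (k : ℤ) : SL(2, ℤ) := ⟨!![1, k; 0, 1], by simp [Matrix.det_fin_two_of]⟩

theorem act_shV (k : ℤ) (p : Z2) : act (shV k) p = (p.1, p.2 + k * p.1) := by
  rw [act_apply]
  ext
  · simp [shV]
  · simp [shV]; ring

theorem act_shH (k : ℤ) (p : Z2) : act (shH k) p = (p.1 + k * p.2, p.2) := by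
  rw [act_apply]
  ext
  · simp [shH]
  · simp [shH]

/-- (B5), the V-move -/
theorem KS.V {y b t : ℤ} (hy : 0 < y) (hb : 0 < b) {L' : AddSubgroup Z2}
    (hok : (KS (lat (0, y) (b, t)) L').Ok) (k : ℤ) :
    SEq (KS (lat (0, y) (b, t)) L')
      (KS (lat (0, y) (b, t + k * (b - 1))) (L'.map (act (shV (k * (y + 1)))))) := by
  have h1 := SEq.twist (l := (0, y)) (p := (b, t)) (u := (1, 0)) (v := (0, 1)) hok
    (by simp [cr]; exact hy) (by simp [cr]; nlinarith) (by simp [cr]) k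
  have h2 := SEq.act (shV (k * (y + 1))) h1.ok'
  have h3 := h1.trans h2
  unfold PSt.act at h3
  simp only [map_lat, act_shV] at h3
  have e1 : ((1, 0) - k • ((0, 1) + (0, y)) : Z2) = (1, -(k * (y + 1))) := by
    ext
    · simp
    · simp only [Prod.snd_sub, Prod.smul_snd, Prod.snd_add, smul_eq_mul]; ring
  have e2 : ((b, t) - k • (0, 1) : Z2) = (b, t - k) := by
    ext <;> simp
  rw [e1, e2] at h3
  have e3 : ((1 : ℤ), -(k * (y + 1)) + k * (y + 1) * 1) = (1, 0) := by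
    ext <;> simp
  have e4 : ((0 : ℤ), (1 : ℤ) + k * (y + 1) * 0) = (0, 1) := by
    ext <;> simp
  have e5 : ((0 : ℤ), y + k * (y + 1) * 0) = (0, y) := by
    ext <;> simp
  simp only [e3, e4, e5] at h3
  have e6 : ((b, t - k + k * (y + 1) * b) : Z2) = (b, t + k * (b - 1)) + (k * b) • (0, y) := by
    ext
    · simp
    · simp; ring
  rw [e6, lat_add_smul] at h3
  exact h3

/-- (B5), the H-move -/
theorem KS.H {y b s : ℤ} (hy : 0 < y) (hb : 0 < b) {L : AddSubgroup Z2}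
    (hok : (KS L (lat (y, 0) (s, b))).Ok) (k : ℤ) :
    SEq (KS L (lat (y, 0) (s, b)))
      (KS (L.map (act (shH (k * (y + 1))))) (lat (y, 0) (s + k * (b - 1), b))) := by
  have e0 : lat (y, 0) (s, b) = lat (-y, 0) (s, b) := by
    rw [show ((-y, 0) : Z2) = -(y, 0) by simp, lat_neg_left]
  rw [e0] at hok ⊢
  have h1 := SEq.twist' (l := (-y, 0)) (p := (s, b)) (u := (1, 0)) (v := (0, 1)) hok
    (by simp [cr]; exact hy) (by simp [cr]; nlinarith) (by simp [cr]) (-k)
  have h2 := SEq.act (shH (k * (y + 1))) h1.ok'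
  have h3 := h1.trans h2
  unfold PSt.act at h3
  simp only [map_lat, act_shH] at h3
  have e1 : ((0, 1) + (-k) • ((1, 0) - (-y, 0)) : Z2) = (-(k * (y + 1)), 1) := by
    ext
    · simp only [Prod.fst_sub, Prod.smul_fst, Prod.fst_add, smul_eq_mul]; ring
    · simp
  have e2 : ((s, b) + (-k) • (1, 0) : Z2) = (s - k, b) := by
    ext
    · simp only [Prod.smul_fst, Prod.fst_add, smul_eq_mul]; ring
    · simp
  rw [e1, e2] at h3
  have e3 : (-(k * (y + 1)) + k * (y + 1) * 1, (1 : ℤ)) = (0, 1) := by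
    ext <;> simp
  have e4 : ((1 : ℤ) + k * (y + 1) * 0, (0 : ℤ)) = (1, 0) := by
    ext <;> simp
  have e5 : (-y + k * (y + 1) * 0, (0 : ℤ)) = (-y, 0) := by
    ext <;> simp
  simp only [e3, e4, e5] at h3
  have e6 : ((s - k + k * (y + 1) * b, b) : Z2) = (s + k * (b - 1), b) + (-(k * b)) • (-y, 0) := by
    ext
    · simp; ring
    · simp
  have e7 : lat (-y, 0) (s + k * (b - 1), b) = lat (y, 0) (s + k * (b - 1), b) := by
    rw [show ((-y, 0) : Z2) = -(y, 0) by simp, lat_neg_left]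
  rw [e6, lat_add_smul, e7] at h3
  exact h3

/-- (B5), the K-moves: `l = (-d, h)` -/
theorem KS.move {L L' : AddSubgroup Z2} {a a' : ℤ} (hok : (KS L L').Ok) (ha : IsArea L a)
    (ha' : IsArea L' a') {d h : ℤ} {p : Z2} (hL : L = lat (-d, h) p) (hp : cr p (-d, h) = a)
    (hd : 0 < d) (hdh : d < h) (hha : h ≤ a) {c : ℤ} (hc : IsC L' (1 + d, -(1 + h)) c)
    (hcd : c ∣ d) : ∃ L1 L1', SEq (KS L L') (KS L1 L1') ∧ IsArea L1 (a - d) ∧
      IsArea L1' (a' + d) := by
  subst hL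
  have h1 := SEq.mMinus (l := (-d, h)) (p := p) (u := (1, 0)) (v := (0, 1)) (L' := L') hok
    (by simp [cr]; linarith) (by rw [hp]; simp [cr]; exact hha) (by simp [cr]; exact hdh)
    (by simp [cr]; linarith)
  have e1 : ((1, 0) - (0, 1) - (-d, h) : Z2) = (1 + d, -(1 + h)) := by
    ext
    · simp
    · simp; ring
  rw [e1] at h1
  obtain ⟨v1, L1, θ, k1, k2, k3, k4, k5, k6, k7, k8⟩ := SEq.node _ rfl h1.ok' ha' hc
  have e2 : cr (1 + d, -(1 + h)) (0, 1) = 1 + d := by simp [cr]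
  rw [e2] at k4
  have hθ : θ = d := by
    obtain ⟨m, hm⟩ := hcd
    obtain ⟨n, hn⟩ := k3
    have hc0 := hc.1
    have h9 : 0 < 1 + c * m - c * n := by rw [← hm, ← hn]; linarith
    have h10 : 1 + c * m - c * n ≤ c := by rw [← hm, ← hn]; linarith
    have h11 : m = n := by
      by_contra hne
      rcases lt_or_gt_of_ne hne with h | h
      · have : c * (m + 1) ≤ c * n := mul_le_mul_of_nonneg_left (by omega) hc0.le
        nlinarith
      · have : c * (n + 1) ≤ c * m := mul_le_mul_of_nonneg_left (by omega) hc0.le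
        nlinarith
    rw [hn, hm, h11]
  rw [hθ] at k4 k7
  have hA1 : IsArea (lat (-d, h) (p - (0, 1))) (a - d) := by
    obtain ⟨b, b', m1, m2, m3, m4⟩ := k1.ok.choose_spec.areas
    have m5 := h1.vol (a := a) (a' := a') ha ha' m1 ha'
    simp only [e2] at m5
    have m6 : cr ((1, 0) : Z2) (0, 1) = 1 := by simp [cr]
    rw [m6] at m5
    have : b = a - d := by linarith
    rw [← this]; exact m1
  obtain ⟨M1, M1', n1, n2, n3⟩ := exists_KS k1.ok' (by simp only; rw [k4]; ring) hA1 k7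
  exact ⟨M1, M1', h1.trans (k1.trans n1), n2, n3⟩

/-- (B5), the K-moves: `l = (d, h)` -/
theorem KS.move' {L L' : AddSubgroup Z2} {a a' : ℤ} (hok : (KS L L').Ok) (ha : IsArea L a)
    (ha' : IsArea L' a') {d h : ℤ} {p : Z2} (hL : L = lat (d, h) p) (hp : cr p (d, h) = a)
    (hd : 0 < d) (hdh : d < h) (hha : h ≤ a) {c : ℤ} (hc : IsC L' (1 + d, 1 + h) c)
    (hcd : c ∣ d) : ∃ L1 L1', SEq (KS L L') (KS L1 L1') ∧ IsArea L1 (a - d) ∧
      IsArea L1' (a' + d) := by
  subst hL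
  have h1 := SEq.mPlus (l := (d, h)) (p := p) (u := (1, 0)) (v := (0, 1)) (L' := L') hok
    (by simp [cr]; linarith) (by rw [hp]; simp [cr]; exact hha) (by simp [cr]; linarith)
    (by simp [cr]; exact hdh)
  have e1 : ((1, 0) + (0, 1) + (d, h) : Z2) = (1 + d, 1 + h) := by
    ext <;> simp
  rw [e1] at h1
  obtain ⟨v1, L1, θ, k1, k2, k3, k4, k5, k6, k7, k8⟩ := SEq.node _ rfl h1.ok' ha' hc
  have e2 : cr (1 + d, 1 + h) (0, 1) = 1 + d := by simp [cr]
  rw [e2] at k4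
  have hθ : θ = d := by
    obtain ⟨m, hm⟩ := hcd
    obtain ⟨n, hn⟩ := k3
    have hc0 := hc.1
    have h9 : 0 < 1 + c * m - c * n := by rw [← hm, ← hn]; linarith
    have h10 : 1 + c * m - c * n ≤ c := by rw [← hm, ← hn]; linarith
    have h11 : m = n := by
      by_contra hne
      rcases lt_or_gt_of_ne hne with h | h
      · have : c * (m + 1) ≤ c * n := mul_le_mul_of_nonneg_left (by omega) hc0.le
        nlinarith
      · have : c * (n + 1) ≤ c * m := mul_le_mul_of_nonneg_left (by omega) hc0.le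
        nlinarith
    rw [hn, hm, h11]
  rw [hθ] at k4 k7
  have hA1 : IsArea (lat (d, h) (p + (0, 1))) (a - d) := by
    obtain ⟨b, b', m1, m2, m3, m4⟩ := k1.ok.choose_spec.areas
    have m5 := h1.vol (a := a) (a' := a') ha ha' m1 ha'
    simp only [e2] at m5
    have m6 : cr ((1, 0) : Z2) (0, 1) = 1 := by simp [cr]
    rw [m6] at m5
    have : b = a - d := by linarith
    rw [← this]; exact m1
  obtain ⟨M1, M1', n1, n2, n3⟩ := exists_KS k1.ok' (by simp only; rw [k4]; ring) hA1 k7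
  exact ⟨M1, M1', h1.trans (k1.trans n1), n2, n3⟩

end Pool.Agent.H4G
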