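import Pool.Agent.H4G.Arith.Con1
import Pool.Agent.H4G.Arith.SL

/-!
# Shears commute with the moves on one side; the criterion (R'') (helper40's page THIN, 3; typed
by helper5)

`RStep u x y`: one move M- or M+ of the right torus, `(v, L')` is replaced and `(L, u)` is fixed.
The rational shear `z ↦ z + t ((u × z) / c) D` with `c D = (a + A) u` commutes with these moves, and
at the node it is the twist. So if the right gap `c` divides `A`, the sheared states
`(L, u, v + k (A / c) D, L'ₖ)` are all in the class.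
-/

set_option autoImplicit false

namespace Pool.Agent.H4G

open Relation

variable {u v D z w x y : Z2} {c s t : ℤ}

/-- the shear along `u` -/
def shv (u D : Z2) (c t : ℤ) (z : Z2) : Z2 := z + (t * (cr u z / c)) • D

theorem shv_add (hx : c ∣ cr u x) : shv u D c t (x + y) = shv u D c t x + shv u D c t y := by
  unfold shv
  rw [cr_add_right, Int.add_ediv_of_dvd_left hx]
  module

theorem shv_smul (k : ℤ) (hx : c ∣ cr u x) : shv u D c t (k • x) = k • shv u D c t x := by
  unfold shv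
  rw [cr_smul_right, Int.mul_ediv_assoc _ hx]
  module

theorem shv_neg (hx : c ∣ cr u x) : shv u D c t (-x) = -shv u D c t x := by
  have := shv_smul (u := u) (D := D) (c := c) (t := t) (-1) hx
  rw [neg_one_smul, neg_one_smul] at this
  exact this

theorem shv_sub (hx : c ∣ cr u x) (hy : c ∣ cr u y) :
    shv u D c t (x - y) = shv u D c t x - shv u D c t y := by
  rw [sub_eq_add_neg, shv_add hx, shv_neg hy, ← sub_eq_add_neg]

theorem shv_self : shv u D c t u = u := by
  unfold shv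
  rw [cr_self]
  simp

theorem cr_uD (hc : c ≠ 0) (hD : c • D = s • u) : cr u D = 0 := by
  have h := congrArg (cr u) hD
  rw [cr_smul_right, cr_smul_right, cr_self, mul_zero] at h
  exact (mul_eq_zero.1 h).resolve_left hc

theorem cr_u_shv (hc : c ≠ 0) (hD : c • D = s • u) : cr u (shv u D c t z) = cr u z := by
  unfold shv
  rw [cr_add_right, cr_smul_right, cr_uD hc hD]
  ring

theorem cr_shv_shv (hc : c ≠ 0) (hD : c • D = s • u) (hx : c ∣ cr u x) (hy : c ∣ cr u y) :
    cr (shv u D c t x) (shv u D c t y) = cr x y := by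
  obtain ⟨i, hi⟩ := hx
  obtain ⟨j, hj⟩ := hy
  have e1 : cr u x / c = i := by rw [hi, Int.mul_ediv_cancel_left _ hc]
  have e2 : cr u y / c = j := by rw [hj, Int.mul_ediv_cancel_left _ hc]
  have d1 : cr D x = s * i := by
    have h := congrArg (fun q => cr q x) hD
    simp only [cr_smul_left] at h
    rw [hi] at h
    have : c * cr D x = c * (s * i) := by rw [h]; ring
    exact mul_left_cancel₀ hc this
  have d2 : cr D y = s * j := by
    have h := congrArg (fun q => cr q y) hD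
    simp only [cr_smul_left] at h
    rw [hj] at h
    have : c * cr D y = c * (s * j) := by rw [h]; ring
    exact mul_left_cancel₀ hc this
  unfold shv
  rw [e1, e2, cr_add_left, cr_add_right, cr_add_right, cr_smul_left, cr_smul_left, cr_smul_right,
    cr_smul_right, cr_self, d2, cr_swap x D, d1]
  ring

/-- the sheared lattice -/
def shL (u D : Z2) (c t : ℤ) (L : AddSubgroup Z2) : AddSubgroup Z2 :=
  AddSubgroup.closure (shv u D c t '' (L : Set Z2))

theorem shL_lat {l p : Z2} (hl : c ∣ cr u l) (hp : c ∣ cr u p) :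
    shL u D c t (lat l p) = lat (shv u D c t l) (shv u D c t p) := by
  apply le_antisymm
  · refine (AddSubgroup.closure_le _).2 ?_
    rintro _ ⟨w, hw, rfl⟩
    obtain ⟨m, n, rfl⟩ := mem_lat.1 hw
    refine mem_lat.2 ⟨m, n, ?_⟩
    rw [shv_add (by rw [cr_smul_right]; exact Dvd.dvd.mul_left hl _), shv_smul m hl, shv_smul n hp]
  · refine (AddSubgroup.closure_le _).2 ?_
    rintro w hw
    rcases hw with rfl | hw
    · exact AddSubgroup.subset_closure ⟨l, mem_lat.2 ⟨1, 0, by module⟩, rfl⟩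
    · rw [Set.mem_singleton_iff] at hw
      subst hw
      exact AddSubgroup.subset_closure ⟨p, mem_lat.2 ⟨0, 1, by module⟩, rfl⟩

/-- one move of the right torus -/
def RStep (u : Z2) (x y : Z2 × AddSubgroup Z2) : Prop :=
  ∃ l p : Z2, x.2 = lat l p ∧ 0 < cr x.1 l ∧ cr x.1 l ≤ cr p l ∧ 0 < cr u x.1 ∧
    ((-cr x.1 l < cr u l ∧ cr u l < cr u x.1 ∧ y = (x.1 + u - l, lat l (p + u))) ∨
      (-cr u x.1 < cr u l ∧ cr u l < cr x.1 l ∧ y = (x.1 - u + l, lat l (p - u))))

theorem RStep.symm {x y : Z2 × AddSubgroup Z2} (h : RStep u x y) : RStep u y x := by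
  obtain ⟨l, p, h1, h2, h3, h4, h5⟩ := h
  obtain ⟨v, L⟩ := x
  dsimp only at h1 h2 h3 h4 h5
  subst h1
  rcases h5 with ⟨g1, g2, rfl⟩ | ⟨g1, g2, rfl⟩
  · have e1 : cr (v + u - l) l = cr v l + cr u l := by
      rw [cr_sub_left, cr_add_left, cr_self]; ring
    have e2 : cr u (v + u - l) = cr u v - cr u l := by
      rw [cr_sub_right, cr_add_right, cr_self]; ring
    have e3 : cr (p + u) l = cr p l + cr u l := by rw [cr_add_left]
    refine ⟨l, p + u, rfl, ?_, ?_, ?_, Or.inr ⟨?_, ?_, ?_⟩⟩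
    · show 0 < cr (v + u - l) l
      rw [e1]; linarith
    · show cr (v + u - l) l ≤ cr (p + u) l
      rw [e1, e3]; linarith
    · show 0 < cr u (v + u - l)
      rw [e2]; linarith
    · show -cr u (v + u - l) < cr u l
      rw [e2]; linarith
    · show cr u l < cr (v + u - l) l
      rw [e1]; linarith
    · show (v, lat l p) = (v + u - l - u + l, lat l (p + u - u))
      have f1 : v + u - l - u + l = v := by abel
      have f2 : p + u - u = p := by abel
      rw [f1, f2]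
  · have e1 : cr (v - u + l) l = cr v l - cr u l := by
      rw [cr_add_left, cr_sub_left, cr_self]; ring
    have e2 : cr u (v - u + l) = cr u v + cr u l := by
      rw [cr_add_right, cr_sub_right, cr_self]; ring
    have e3 : cr (p - u) l = cr p l - cr u l := by rw [cr_sub_left]
    refine ⟨l, p - u, rfl, ?_, ?_, ?_, Or.inl ⟨?_, ?_, ?_⟩⟩
    · show 0 < cr (v - u + l) l
      rw [e1]; linarith
    · show cr (v - u + l) l ≤ cr (p - u) l
      rw [e1, e3]; linarith
    · show 0 < cr u (v - u + l)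
      rw [e2]; linarith
    · show -cr (v - u + l) l < cr u l
      rw [e1]; linarith
    · show cr u l < cr u (v - u + l)
      rw [e2]; linarith
    · show (v, lat l p) = (v - u + l + u - l, lat l (p - u + u))
      have f1 : v - u + l + u - l = v := by abel
      have f2 : p - u + u = p := by abel
      rw [f1, f2]

theorem RStep.seq {L : AddSubgroup Z2} {x y : Z2 × AddSubgroup Z2} (h : RStep u x y)
    (hok : PSt.Ok ⟨L, u, x.1, x.2⟩) : SEq ⟨L, u, x.1, x.2⟩ ⟨L, u, y.1, y.2⟩ := by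
  obtain ⟨l, p, h1, h2, h3, h4, h5⟩ := h
  obtain ⟨v, L'⟩ := x
  dsimp only at h1 h2 h3 h4 h5 hok ⊢
  subst h1
  rcases h5 with ⟨g1, g2, rfl⟩ | ⟨g1, g2, rfl⟩
  · exact SEq.mMinus' hok h2 h3 g1 g2
  · exact SEq.mPlus' hok h2 h3 g1 g2

/-- a chain of moves of the right torus, ending in a good state -/
theorem RP.seq {L : AddSubgroup Z2} {x y : Z2 × AddSubgroup Z2}
    (h : ReflTransGen (RStep u) x y) (hok : PSt.Ok ⟨L, u, y.1, y.2⟩) :
    SEq ⟨L, u, x.1, x.2⟩ ⟨L, u, y.1, y.2⟩ := by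
  induction h using ReflTransGen.head_induction_on with
  | refl => exact hok.seq
  | head h1 _ ih => exact ((h1.symm.seq ih.ok).symm).trans ih

/-- the shear commutes with the moves -/
theorem RStep.shear (hc : c ≠ 0) (hD : c • D = s • u) {x y : Z2 × AddSubgroup Z2}
    (h : RStep u x y) (hv : c ∣ cr u x.1) (hL : ∀ w ∈ x.2, c ∣ cr u w) :
    RStep u (shv u D c t x.1, shL u D c t x.2) (shv u D c t y.1, shL u D c t y.2) ∧
      c ∣ cr u y.1 ∧ ∀ w ∈ y.2, c ∣ cr u w := by
  obtain ⟨l, p, h1, h2, h3, h4, h5⟩ := h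
  obtain ⟨v, L'⟩ := x
  dsimp only at h1 h2 h3 h4 h5 hv hL ⊢
  subst h1
  have hl : c ∣ cr u l := hL l (mem_lat.2 ⟨1, 0, by module⟩)
  have hp : c ∣ cr u p := hL p (mem_lat.2 ⟨0, 1, by module⟩)
  have hu : c ∣ cr u u := by rw [cr_self]; exact dvd_zero c
  have k1 : cr (shv u D c t v) (shv u D c t l) = cr v l := cr_shv_shv hc hD hv hl
  have k2 : cr (shv u D c t p) (shv u D c t l) = cr p l := cr_shv_shv hc hD hp hl
  have k3 : cr u (shv u D c t l) = cr u l := cr_u_shv hc hD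
  have k4 : cr u (shv u D c t v) = cr u v := cr_u_shv hc hD
  have lat_dvd : ∀ {p' : Z2}, c ∣ cr u p' → ∀ w ∈ lat l p', c ∣ cr u w := by
    intro p' hp' w hw
    obtain ⟨m, n, rfl⟩ := mem_lat.1 hw
    rw [cr_add_right, cr_smul_right, cr_smul_right]
    exact dvd_add (Dvd.dvd.mul_left hl _) (Dvd.dvd.mul_left hp' _)
  rcases h5 with ⟨g1, g2, rfl⟩ | ⟨g1, g2, rfl⟩
  · have hp' : c ∣ cr u (p + u) := by rw [cr_add_right]; exact dvd_add hp hu
    have hv' : c ∣ cr u (v + u) := by rw [cr_add_right]; exact dvd_add hv hu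
    refine ⟨⟨shv u D c t l, shv u D c t p, shL_lat hl hp, ?_, ?_, ?_, Or.inl ⟨?_, ?_, ?_⟩⟩, ?_,
      lat_dvd hp'⟩
    · show 0 < cr (shv u D c t v) (shv u D c t l)
      rw [k1]; exact h2
    · show cr (shv u D c t v) (shv u D c t l) ≤ cr (shv u D c t p) (shv u D c t l)
      rw [k1, k2]; exact h3
    · show 0 < cr u (shv u D c t v)
      rw [k4]; exact h4
    · show -cr (shv u D c t v) (shv u D c t l) < cr u (shv u D c t l)
      rw [k1, k3]; exact g1
    · show cr u (shv u D c t l) < cr u (shv u D c t v)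
      rw [k3, k4]; exact g2
    · rw [shL_lat hl hp', shv_sub hv' hl, shv_add hv, shv_add hp, shv_self]
    · show c ∣ cr u (v + u - l)
      rw [cr_sub_right]; exact dvd_sub hv' hl
  · have hp' : c ∣ cr u (p - u) := by rw [cr_sub_right]; exact dvd_sub hp hu
    have hv' : c ∣ cr u (v - u) := by rw [cr_sub_right]; exact dvd_sub hv hu
    refine ⟨⟨shv u D c t l, shv u D c t p, shL_lat hl hp, ?_, ?_, ?_, Or.inr ⟨?_, ?_, ?_⟩⟩, ?_,
      lat_dvd hp'⟩
    · show 0 < cr (shv u D c t v) (shv u D c t l)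
      rw [k1]; exact h2
    · show cr (shv u D c t v) (shv u D c t l) ≤ cr (shv u D c t p) (shv u D c t l)
      rw [k1, k2]; exact h3
    · show 0 < cr u (shv u D c t v)
      rw [k4]; exact h4
    · show -cr u (shv u D c t v) < cr u (shv u D c t l)
      rw [k3, k4]; exact g1
    · show cr u (shv u D c t l) < cr (shv u D c t v) (shv u D c t l)
      rw [k1, k3]; exact g2
    · rw [shL_lat hl hp', shv_add hv', shv_sub hv hu, shv_sub hp hu, shv_self]
    · show c ∣ cr u (v - u + l)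
      rw [cr_add_right]; exact dvd_add hv' hl

theorem RP.shear (hc : c ≠ 0) (hD : c • D = s • u) {x y : Z2 × AddSubgroup Z2}
    (h : ReflTransGen (RStep u) x y) (hv : c ∣ cr u x.1) (hL : ∀ w ∈ x.2, c ∣ cr u w) :
    ReflTransGen (RStep u) (shv u D c t x.1, shL u D c t x.2)
      (shv u D c t y.1, shL u D c t y.2) ∧ c ∣ cr u y.1 ∧ ∀ w ∈ y.2, c ∣ cr u w := by
  induction h with
  | refl => exact ⟨ReflTransGen.refl, hv, hL⟩
  | tail _ h2 ih =>
    obtain ⟨i1, i2, i3⟩ := ih
    obtain ⟨j1, j2, j3⟩ := h2.shear (t := t) hc hD i2 i3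
    exact ⟨i1.tail j1, j2, j3⟩

/-- the node lemma with an explicit chain -/
theorem RP.node (n : ℕ) : ∀ {L L' : AddSubgroup Z2} {u v : Z2} {a c : ℤ},
    (cr u v).toNat = n → PSt.Ok ⟨L, u, v, L'⟩ → IsArea L' a → IsC L' u c →
    ∃ (v1 : Z2) (L1 : AddSubgroup Z2) (θ : ℤ), ReflTransGen (RStep u) (v, L') (v1, L1) ∧
      0 ≤ θ ∧ c ∣ θ ∧ cr u v1 = cr u v - θ ∧ 0 < cr u v1 ∧ cr u v1 ≤ c ∧ IsArea L1 (a + θ) ∧
      IsC L1 u c := by
  induction n using Nat.strong_induction_on with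
  | _ n ih =>
  intro L L' u v a c hn hok ha hc
  have hA : 0 < cr u v := by
    obtain ⟨⟨a0, a1, a2, a3, a4, a5⟩, hl, e2, e3, hA, hr⟩ := hok
    exact hA
  by_cases hlt : c < cr u v
  · have hex : ∃ (v1 : Z2) (L1 : AddSubgroup Z2) (θ : ℤ), RStep u (v, L') (v1, L1) ∧ 0 < θ ∧
        c ∣ θ ∧ cr u v1 = cr u v - θ ∧ IsArea L1 (a + θ) ∧ IsC L1 u c := by
      have hok' := hok
      obtain ⟨⟨a0, a1, a2, a3, a4, a5⟩, hl, e2, e3, hA', hr⟩ := hok'
      dsimp only at hl e2 e3 hA' hr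
      subst e2 e3
      obtain ⟨l, p, h1, h2, h3, h4, h5, h6⟩ := exists_node_vec hr hA ha hc hlt
      have hd : c ∣ cr a2 l := hc.2.1 l (by rw [← h1]; exact mem_lat.2 ⟨1, 0, by module⟩)
      subst h1
      rw [abs_lt] at h5
      rcases lt_or_gt_of_ne h6 with h | h
      · refine ⟨a3 - a2 + l, lat l (p - a2), -cr a2 l,
          ⟨l, p, rfl, h3, by rw [h2]; exact h4, hA, Or.inr ⟨h5.1, ?_, rfl⟩⟩, by linarith,
          (dvd_neg).2 hd, ?_, ?_, ?_⟩
        · show cr a2 l < cr a3 l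
          linarith
        · rw [cr_add_right, cr_sub_right, cr_self]; ring
        · refine ⟨by linarith [ha.1], l, p - a2, ?_, rfl⟩
          rw [cr_sub_left, h2]; ring
        · have := hc.congr (k := -1)
          have e : p + (-1 : ℤ) • a2 = p - a2 := by module
          rwa [e] at this
      · refine ⟨a3 + a2 - l, lat l (p + a2), cr a2 l,
          ⟨l, p, rfl, h3, by rw [h2]; exact h4, hA, Or.inl ⟨?_, h5.2, rfl⟩⟩, h, hd, ?_, ?_, ?_⟩
        · show -cr a3 l < cr a2 l
          linarith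
        · rw [cr_sub_right, cr_add_right, cr_self]; ring
        · refine ⟨by linarith [ha.1], l, p + a2, ?_, rfl⟩
          rw [cr_add_left, h2]
        · have := hc.congr (k := 1)
          rwa [one_smul] at this
    obtain ⟨v1, L1, θ, h1, h2, h3, h4, h5, h6⟩ := hex
    have hok1 : PSt.Ok ⟨L, u, v1, L1⟩ := (h1.seq hok).ok'
    have hA1 : 0 < cr u v1 := by
      obtain ⟨⟨a0, a1, a2, a3, a4, a5⟩, hl, e2, e3, hA, hr⟩ := hok1
      exact hA
    obtain ⟨v2, L2, θ', k1, k2, k3, k4, k5, k6, k7, k8⟩ :=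
      ih (cr u v1).toNat (by omega) rfl hok1 h5 h6
    refine ⟨v2, L2, θ + θ', ReflTransGen.head h1 k1, by linarith, dvd_add h3 k3,
      by rw [k4, h4]; ring, k5, k6, ?_, k8⟩
    rw [← add_assoc]; exact k7
  · exact ⟨v, L', 0, ReflTransGen.refl, le_rfl, dvd_zero c, by ring, hA, by linarith, by
      rw [add_zero]; exact ha, hc⟩

/-- a chain of moves of the right torus, starting in a good state -/
theorem RP.seq' {L : AddSubgroup Z2} {x y : Z2 × AddSubgroup Z2}
    (h : ReflTransGen (RStep u) x y) (hok : PSt.Ok ⟨L, u, x.1, x.2⟩) :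
    SEq ⟨L, u, x.1, x.2⟩ ⟨L, u, y.1, y.2⟩ := by
  induction h with
  | refl => exact hok.seq
  | tail _ h2 ih => exact ih.trans (h2.seq ih.ok')

/-- THE SHEAR along `u`, when the right gap divides `A` -/
theorem SEq.shearR {T : PSt} (hok : T.Ok) {a c : ℤ} (ha : IsArea T.L' a) (hc : IsC T.L' T.u c)
    (hd : c ∣ cr T.u T.v) {D : Z2} (hD : c • D = (a + cr T.u T.v) • T.u) (t : ℤ) :
    SEq T ⟨T.L, T.u, T.v + (t * (cr T.u T.v / c)) • D, shL T.u D c t T.L'⟩ := by
  obtain ⟨L, u, v, L'⟩ := T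
  dsimp only at ha hc hd hD ⊢
  have hc0 : c ≠ 0 := hc.1.ne'
  obtain ⟨v1, L1, θ, m1, m2, m3, m4, m5, m6, m7, m8⟩ := RP.node _ rfl hok ha hc
  have hv1 : cr u v1 = c := by
    have h1 : c ∣ cr u v1 := by rw [m4]; exact dvd_sub hd m3
    exact le_antisymm m6 (Int.le_of_dvd m5 h1)
  have hR := RP.seq' m1 hok
  dsimp only at hR
  obtain ⟨l, p, l', p', ad⟩ := exists_Ad hR.ok'
  have hp' : cr u p' = c := ad.isC'.unique m8
  have ha1 : cr l' p' = a + θ := ad.isArea'.unique m7
  have hul : cr u l' = 0 := ad.h4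
  have hL1 : L1 = lat l' p' := ad.hL'
  -- `D = u + l'`
  have hl' : c • l' = (a + θ) • u := by
    have h := cr_dep u l' p'
    rw [hul, zero_smul, add_zero, cr_swap p' u, hp', ha1] at h
    have h1 : c • l' = (a + θ) • u := by
      have : (a + θ) • u + -c • l' = 0 := h
      rw [neg_smul, ← sub_eq_add_neg, sub_eq_zero] at this
      exact this.symm
    exact h1
  have hDl : D = u + l' := by
    apply smul_inj hc0
    rw [hD, smul_add, hl']
    have : cr u v = c + θ := by linarith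
    rw [this]; module
  have htw := ad.twH hR.ok' (by
    show cr u v1 ≤ cr u p'
    rw [hv1, hp']) t
  dsimp only at htw
  -- the sheared chain
  have hL : ∀ w ∈ L', c ∣ cr u w := hc.2.1
  obtain ⟨s1, -, -⟩ := RP.shear (t := t) hc0 hD m1 hd hL
  dsimp only at s1
  have e1 : shv u D c t v1 = v1 + t • (u + l') := by
    unfold shv
    rw [hv1, Int.ediv_self hc0, mul_one, hDl]
  have e2 : shL u D c t L1 = lat l' (p' + t • u) := by
    rw [hL1, shL_lat (by rw [hul]; exact dvd_zero c) (by rw [hp'])]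
    have f1 : shv u D c t l' = l' := by
      unfold shv
      rw [hul]; simp
    have f2 : shv u D c t p' = (p' + t • u) + t • l' := by
      unfold shv
      rw [hp', Int.ediv_self hc0, mul_one, hDl]; module
    rw [f1, f2]
    exact lat_add_smul _ _ _
  rw [e1, e2] at s1
  have s2 := RP.seq (L := L) s1 htw.ok'
  dsimp only at s2
  exact (hR.trans htw).trans s2.symm

theorem isArea_shL {a : ℤ} {L' : AddSubgroup Z2} (hc : c ≠ 0) (hD : c • D = s • u)
    (hL : ∀ w ∈ L', c ∣ cr u w) (h : IsArea L' a) : IsArea (shL u D c t L') a := by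
  obtain ⟨h0, l, p, h1, h2⟩ := h
  have hl : c ∣ cr u l := hL l (by rw [h2]; exact mem_lat.2 ⟨1, 0, by module⟩)
  have hp : c ∣ cr u p := hL p (by rw [h2]; exact mem_lat.2 ⟨0, 1, by module⟩)
  refine ⟨h0, shv u D c t l, shv u D c t p, ?_, ?_⟩
  · rw [cr_shv_shv hc hD hp hl, h1]
  · rw [h2, shL_lat hl hp]

/-- the sheared states have the left area `a` and `A`: the criterion on the right torus -/
theorem Mx.rcritR {S : PSt} {a' : ℤ} (h : Mx S a') {T : PSt} (hST : SEq S T) {a b c : ℤ}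
    (ha : IsArea T.L a) (hb : IsArea T.L' b) (hc : IsC T.L' T.u c) (hd : c ∣ cr T.u T.v)
    {D : Z2} (hD : c • D = (b + cr T.u T.v) • T.u) (t : ℤ) {g : ℤ}
    (hg : IsC T.L (T.v + (t * (cr T.u T.v / c)) • D) g)
    (hn : ∀ q : ℕ, q.Prime → (∀ w ∈ T.L, Dz q w) →
      ¬ Dz q (T.v + (t * (cr T.u T.v / c)) • D)) : a + cr T.u T.v - g ≤ a' := by
  have h1 := SEq.shearR hST.ok' hb hc hd hD t
  have h2 := hST.trans h1
  have hA : cr (T.v + (t * (cr T.u T.v / c)) • D) (-T.u) = cr T.u T.v := by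
    rw [cr_neg_right, cr_add_left, cr_smul_left, cr_swap D T.u, cr_uD hc.1.ne' hD,
      cr_swap T.v T.u]
    ring
  have h3 := h.stuck (h2.trans (SEq.mirror h2.ok')) ha hg hn
  dsimp only at h3
  rw [hA] at h3
  linarith

/-- (R''), the criterion: left gap `κ` dividing `A` -/
theorem Mx.rcrit {S : PSt} {a' : ℤ} (h : Mx S a') {T : PSt} (hST : SEq S T) {a b κ : ℤ}
    (ha : IsArea T.L a) (hb : IsArea T.L' b) (hκ : IsC T.L T.v κ) (hd : κ ∣ cr T.u T.v)
    {D : Z2} (hD : κ • D = (a + cr T.u T.v) • T.v) (t : ℤ) {g : ℤ}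
    (hg : IsC T.L' (T.u + (t * (cr T.u T.v / κ)) • D) g)
    (hn : ∀ q : ℕ, q.Prime → (∀ w ∈ T.L', Dz q w) →
      ¬ Dz q (T.u + (t * (cr T.u T.v / κ)) • D)) : b + cr T.u T.v - g ≤ a' := by
  obtain ⟨L, u, v, L'⟩ := T
  dsimp only at ha hb hκ hd hD hg hn ⊢
  have m1 := SEq.mirror hST.ok'
  have e1 : cr v (-u) = cr u v := by rw [cr_neg_right, cr_swap v u, neg_neg]
  have e2 : -u + (-t * (cr u v / κ)) • D = -(u + (t * (cr u v / κ)) • D) := by module
  have hg' : IsC L' (-u + (-t * (cr v (-u) / κ)) • D) g := by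
    rw [e1, e2]
    obtain ⟨k1, k2, w, k3, k4⟩ := hg
    refine ⟨k1, fun z hz => ?_, -w, L'.neg_mem k3, ?_⟩
    · rw [cr_neg_left]; exact (dvd_neg).2 (k2 z hz)
    · rw [cr_neg_left, cr_neg_right, neg_neg]; exact k4
  have := h.rcritR (hST.trans m1) (a := b) (b := a) (c := κ) hb ha hκ (by rw [e1]; exact hd)
    (by rw [e1]; exact hD) (-t) hg' (by
    intro q hq hw hbad
    dsimp only at hw hbad
    rw [e1, e2] at hbad
    have := hbad.neg
    rw [neg_neg] at this
    exact hn q hq hw this)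
  rw [e1] at this
  exact this

/-! ## The corollary on the primes of the right gap -/

theorem rc_exists_val {p c : ℕ} : ∀ k : ℕ, ¬ p ^ k ∣ c → ∃ v, v < k ∧ p ^ v ∣ c ∧ ¬ p ^ (v + 1) ∣ c
  | 0, h => absurd (by simp) h
  | k + 1, h => by
      by_cases h1 : p ^ k ∣ c
      · exact ⟨k, by omega, h1, h⟩
      · obtain ⟨v, h2, h3, h4⟩ := rc_exists_val k h1
        exact ⟨v, by omega, h3, h4⟩

/-- the choice of `t`: `gcd (t α, c + t β)` divides `c` and is not divisible by `s ^ m` -/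
theorem exists_tw {α β c : ℤ} {s m : ℕ} (hs : s.Prime) (hα : α ≠ 0) (hc : c ≠ 0)
    (hm : (s : ℤ) ^ m ∣ c) (hn : ¬ ((s : ℤ) ^ m ∣ α ∧ (s : ℤ) ^ m ∣ β)) :
    ∃ t : ℤ, t ≠ 0 ∧ (Int.gcd (t * α) (c + t * β) : ℤ) ∣ c ∧
      ¬ (s : ℤ) ^ m ∣ (Int.gcd (t * α) (c + t * β) : ℤ) ∧
      ∀ q : ℕ, q.Prime → q ≠ s → (q : ℤ) ∣ c → (q : ℤ) ∣ t := by
  have hn0 : (c * α).natAbs ≠ 0 := Int.natAbs_ne_zero.2 (mul_ne_zero hc hα)
  obtain ⟨r, K, hK, hrK⟩ := Nat.exists_eq_pow_mul_and_not_dvd hn0 s hs.ne_one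
  have hK0 : K ≠ 0 := by
    intro h0
    rw [h0, mul_zero] at hrK
    exact hn0 hrK
  have hsK : Nat.Coprime s K := (Nat.Prime.coprime_iff_not_dvd hs).2 hK
  obtain ⟨g, hg⟩ : ∃ g : ℕ, g = Int.gcd ((K : ℤ) ^ 2 * α) (c + (K : ℤ) ^ 2 * β) := ⟨_, rfl⟩
  have g1 : (g : ℤ) ∣ (K : ℤ) ^ 2 * α := by rw [hg]; exact Int.gcd_dvd_left _ _
  have g2 : (g : ℤ) ∣ c + (K : ℤ) ^ 2 * β := by rw [hg]; exact Int.gcd_dvd_right _ _
  have hsg : ¬ (s : ℤ) ^ m ∣ (g : ℤ) := by
    intro h
    have hcop : IsCoprime ((s : ℤ) ^ m) ((K : ℤ) ^ 2) := by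
      have : IsCoprime (s : ℤ) (K : ℤ) := Nat.isCoprime_iff_coprime.2 hsK
      exact this.pow
    have k1 : (s : ℤ) ^ m ∣ α := hcop.dvd_of_dvd_mul_left (h.trans g1)
    have k2 : (s : ℤ) ^ m ∣ (K : ℤ) ^ 2 * β := by
      have := dvd_sub (h.trans g2) hm
      rwa [add_sub_cancel_left] at this
    exact hn ⟨k1, hcop.dvd_of_dvd_mul_left k2⟩
  refine ⟨(K : ℤ) ^ 2, pow_ne_zero 2 (by exact_mod_cast hK0), ?_, ?_, ?_⟩
  · rw [← hg]
    have : g ∣ c.natAbs := by
      rw [Nat.dvd_iff_prime_pow_dvd_dvd]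
      intro p k hp hpk
      by_cases hps : p = s
      · subst hps
        have hkm : k ≤ m := by
          by_contra hcon
          apply hsg
          have h1 : p ^ m ∣ g := (pow_dvd_pow p (by omega)).trans hpk
          exact_mod_cast h1
        have h1 : (p : ℤ) ^ k ∣ c := (pow_dvd_pow _ hkm).trans hm
        have h2 : ((p ^ k : ℕ) : ℤ) ∣ c := by push_cast; exact h1
        exact Int.natCast_dvd.1 h2
      · rcases Nat.eq_zero_or_pos k with h0 | h0
        · subst h0; simp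
        by_contra hcon
        obtain ⟨v, v1, v2, v3⟩ := rc_exists_val k hcon
        have hpcs : Nat.Coprime p s := (Nat.coprime_primes hp hs).2 hps
        have hKn : ∀ j : ℕ, p ^ j ∣ (c * α).natAbs → p ^ j ∣ K := by
          intro j hj
          rw [hrK] at hj
          exact (hpcs.pow j r).dvd_of_dvd_mul_left hj
        have hpK : p ∣ K := by
          have h1 : (p : ℤ) ∣ (K : ℤ) ^ 2 * α := by
            have h2 : (p : ℤ) ∣ (g : ℤ) := by
              have : p ∣ g := (dvd_pow_self p h0.ne').trans hpk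
              exact_mod_cast this
            exact h2.trans g1
          rcases (Nat.prime_iff_prime_int.1 hp).dvd_or_dvd h1 with h2 | h2
          · have := (Nat.prime_iff_prime_int.1 hp).dvd_of_dvd_pow h2
            exact_mod_cast this
          · have h3 : p ^ 1 ∣ (c * α).natAbs := by
              rw [pow_one]
              exact Int.natCast_dvd.1 (Dvd.dvd.mul_left h2 c)
            have := hKn 1 h3
            rwa [pow_one] at this
        have hpv : p ^ v ∣ K := by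
          refine hKn v ?_
          rw [Int.natAbs_mul]
          exact Dvd.dvd.mul_right v2 _
        have h4 : p ^ (v + 1) ∣ K ^ 2 := by
          rw [pow_succ, pow_two]
          exact mul_dvd_mul hpv hpK
        have h5 : ((p ^ (v + 1) : ℕ) : ℤ) ∣ c := by
          have k1 : ((p ^ (v + 1) : ℕ) : ℤ) ∣ c + (K : ℤ) ^ 2 * β := by
            have : p ^ (v + 1) ∣ g := (pow_dvd_pow p (by omega)).trans hpk
            have h6 : ((p ^ (v + 1) : ℕ) : ℤ) ∣ (g : ℤ) := by exact_mod_cast this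
            exact h6.trans g2
          have k2 : ((p ^ (v + 1) : ℕ) : ℤ) ∣ (K : ℤ) ^ 2 * β := by
            have : ((p ^ (v + 1) : ℕ) : ℤ) ∣ ((K ^ 2 : ℕ) : ℤ) := by exact_mod_cast h4
            push_cast at this ⊢
            exact Dvd.dvd.mul_right this _
          have := dvd_sub k1 k2
          rwa [add_sub_cancel_right] at this
        exact v3 (Int.natCast_dvd.1 h5)
    exact Int.natCast_dvd.2 this
  · rw [← hg]
    exact hsg
  · intro q hq hqs hqc
    have h1 : q ∣ s ^ r * K := by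
      rw [← hrK]
      exact Int.natCast_dvd.1 (Dvd.dvd.mul_right hqc α)
    have hqs' : Nat.Coprime q s := (Nat.coprime_primes hq hs).2 hqs
    have h2 : q ∣ K := (hqs'.pow_right r).dvd_of_dvd_mul_left h1
    have h3 : (q : ℤ) ∣ (K : ℤ) := by exact_mod_cast h2
    exact Dvd.dvd.pow h3 (by norm_num)

/-- the integral vector `D` with `κ D = (a + A) v` -/
theorem exists_Dvec {T : PSt} {a κ : ℤ} (hok : T.Ok) (ha : IsArea T.L a) (hκ : IsC T.L T.v κ)
    (hd : κ ∣ cr T.u T.v) : ∃ D : Z2, κ • D = (a + cr T.u T.v) • T.v := by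
  obtain ⟨l, p, l', p', ad⟩ := exists_Ad hok
  have h1 : cr p T.v = κ := ad.isC.unique hκ
  have h2 : cr p l = a := ad.isArea.unique ha
  obtain ⟨k, hk⟩ := hd
  have h3 : κ • l = a • T.v := by
    have h := cr_dep T.v l p
    have h0 : cr T.v l = 0 := by rw [cr_swap T.v l, ad.h1, neg_zero]
    rw [h0, zero_smul, add_zero, h1, cr_swap l p, h2, neg_smul] at h
    rw [neg_add_eq_zero] at h
    exact h.symm
  refine ⟨l + k • T.v, ?_⟩
  rw [smul_add, h3, hk, smul_smul]
  module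

/-- (R''), the corollary: if no divisor of the right gap `c` lies in `[A, c)`, then every power
`s ^ m | c`, `s` prime to `u × v` and to `a + u × v`, divides the content of the right torus -/
theorem Mx.content_dvd {S : PSt} {a' : ℤ} (h : Mx S a') {T : PSt} (hST : SEq S T)
    {a b κ A c : ℤ} (ha : IsArea T.L a) (hb : IsArea T.L' b) (hsum : b + cr T.u T.v = a' + A)
    (hκ : IsC T.L T.v κ) (hd : κ ∣ cr T.u T.v) (hc : IsC T.L' T.u c)
    (hst : ∀ q : ℕ, q.Prime → (∀ w ∈ T.L', Dz q w) → ¬ Dz q T.u)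
    (hno : ∀ d : ℤ, 0 < d → d ∣ c → A ≤ d → d = c) {s m : ℕ} (hs : s.Prime)
    (hm : (s : ℤ) ^ m ∣ c) (hsA : ¬ (s : ℤ) ∣ cr T.u T.v) (hsa : ¬ (s : ℤ) ∣ a + cr T.u T.v) :
    ∀ w ∈ T.L', Dz ((s : ℤ) ^ m) w := by
  obtain ⟨D, hD⟩ := exists_Dvec hST.ok' ha hκ hd
  obtain ⟨l, p, l', p', ad⟩ := exists_Ad hST.ok'
  have hp' : cr T.u p' = c := ad.isC'.unique hc
  have hul : cr T.u l' = 0 := ad.h4
  have hA : 0 < cr T.u T.v := ad.hA
  have hκ0 : 0 < κ := hκ.1
  have hc0 : 0 < c := hc.1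
  obtain ⟨j, hj⟩ := hd
  have hj1 : cr T.u T.v / κ = j := by rw [hj, Int.mul_ediv_cancel_left _ hκ0.ne']
  have hj0 : j ≠ 0 := by
    intro h0
    rw [hj, h0, mul_zero] at hA
    exact lt_irrefl _ hA
  -- products with `D`
  have hDw : ∀ w : Z2, κ * cr D w = (a + cr T.u T.v) * cr T.v w := by
    intro w
    have := congrArg (fun q => cr q w) hD
    simp only [cr_smul_left] at this
    exact this
  have hcopA : IsCoprime ((s : ℤ) ^ m) (cr T.u T.v) :=
    ((Nat.prime_iff_prime_int.1 hs).coprime_iff_not_dvd.2 hsA).pow_left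
  have hcopa : IsCoprime ((s : ℤ) ^ m) (a + cr T.u T.v) :=
    ((Nat.prime_iff_prime_int.1 hs).coprime_iff_not_dvd.2 hsa).pow_left
  by_contra hcon
  push Not at hcon
  obtain ⟨w0, hw0, hw1⟩ := hcon
  have hα : j * cr D l' ≠ 0 := by
    refine mul_ne_zero hj0 (fun h0 => ?_)
    have h1 := hDw l'
    rw [h0, mul_zero] at h1
    have h2 : cr T.v l' ≠ 0 := by
      rw [cr_swap T.v l']
      have := ad.h5
      intro h3
      linarith
    have h3 : a + cr T.u T.v ≠ 0 := by
      have := ha.1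
      intro h4
      linarith
    exact (mul_ne_zero h3 h2) h1.symm
  have hnn : ¬ ((s : ℤ) ^ m ∣ j * cr D l' ∧ (s : ℤ) ^ m ∣ j * cr D p') := by
    rintro ⟨h1, h2⟩
    apply hw1
    have h3 : ∀ w ∈ T.L', (s : ℤ) ^ m ∣ cr T.v w := by
      intro w hw
      rw [ad.hL'] at hw
      obtain ⟨x, y, rfl⟩ := mem_lat.1 hw
      have h4 : (s : ℤ) ^ m ∣ j * cr D (x • l' + y • p') := by
        rw [cr_add_right, cr_smul_right, cr_smul_right]
        have e : j * (x * cr D l' + y * cr D p') = x * (j * cr D l') + y * (j * cr D p') := by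
          ring
        rw [e]
        exact dvd_add (Dvd.dvd.mul_left h1 _) (Dvd.dvd.mul_left h2 _)
      have h5 : (s : ℤ) ^ m ∣ cr T.u T.v * ((a + cr T.u T.v) * cr T.v (x • l' + y • p')) := by
        rw [← hDw, hj]
        have e : κ * j * (κ * cr D (x • l' + y • p')) =
            κ * κ * (j * cr D (x • l' + y • p')) := by ring
        rw [e]
        exact Dvd.dvd.mul_left h4 _
      exact hcopa.dvd_of_dvd_mul_left (hcopA.dvd_of_dvd_mul_left h5)
    have h6 := h3 w0 hw0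
    have h7 : (s : ℤ) ^ m ∣ cr T.u w0 := hm.trans (hc.2.1 w0 hw0)
    refine Dz.iff.2 (fun z => ?_)
    have h8 : cr T.u T.v * cr w0 z = cr T.u w0 * cr T.v z - cr T.v w0 * cr T.u z := by
      simp only [cr]; ring
    have h9 : (s : ℤ) ^ m ∣ cr T.u T.v * cr w0 z := by
      rw [h8]
      exact dvd_sub (Dvd.dvd.mul_right h7 _) (Dvd.dvd.mul_right h6 _)
    exact hcopA.dvd_of_dvd_mul_left h9
  obtain ⟨t, ht0, ht1, ht2, ht3⟩ := exists_tw hs hα hc0.ne' hm hnn
  have e1 : cr (T.u + (t * (cr T.u T.v / κ)) • D) l' = t * (j * cr D l') := by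
    rw [hj1, cr_add_left, cr_smul_left, hul]; ring
  have e2 : cr (T.u + (t * (cr T.u T.v / κ)) • D) p' = c + t * (j * cr D p') := by
    rw [hj1, cr_add_left, cr_smul_left, hp']; ring
  have hg : IsC T.L' (T.u + (t * (cr T.u T.v / κ)) • D)
      (Int.gcd (t * (j * cr D l')) (c + t * (j * cr D p')) : ℕ) := by
    have := isC_lat (x := l') (y := p') (u := T.u + (t * (cr T.u T.v / κ)) • D)
      (Or.inl (by rw [e1]; exact mul_ne_zero ht0 hα))
    rw [e1, e2, ← ad.hL'] at this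
    exact this
  have hDv : cr D T.v = 0 := by
    have := hDw T.v
    rw [cr_self, mul_zero] at this
    exact (mul_eq_zero.1 this).resolve_left hκ0.ne'
  have h1 := h.rcrit hST ha hb hκ ⟨j, hj⟩ hD t hg (by
    intro q hq hw hbad
    by_cases hqs : q = s
    · subst hqs
      apply hsA
      have k1 := hbad.cr_left T.v
      rwa [cr_add_left, cr_smul_left, hDv, mul_zero, add_zero] at k1
    · have hqc : (q : ℤ) ∣ c := by
        rw [← hp']
        exact (hw p' (by rw [ad.hL']; exact mem_lat.2 ⟨0, 1, by module⟩)).cr_right _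
      have k1 : (q : ℤ) ∣ t * (cr T.u T.v / κ) := Dvd.dvd.mul_right (ht3 q hq hqs hqc) _
      have k2 := hbad.sub (Dz.of_dvd k1 D)
      rw [add_sub_cancel_right] at k2
      exact hst q hq hw k2)
  have h2 := hno _ hg.1 ht1 (by linarith)
  apply ht2
  rw [h2]
  exact hm

end Pool.Agent.H4G
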