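import Pool.Agent.H4G.Arith.ExtA

/-!
# Loops (helper83): exit, H-twist at the exit, the same move back

`T` a state with adapted bases, `g = 1 + κ u ⊗ u` the shear with `g v = v + i (u + l')`.
If `m ∣ i r²` it preserves `T.L`, so a left move at `T` can be transported by `g`.
-/

set_option autoImplicit false

namespace Pool.Agent.H4G.Sh83

open Pool.Agent.H4G

theorem isC_transport {x y v x1 y1 v1 : Z2} {c : ℤ} (hx : cr v1 x1 = cr v x)
    (hy : cr v1 y1 = cr v y) (h : IsC (lat x y) v c) : IsC (lat x1 y1) v1 c := by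
  obtain ⟨h0, h1, w, hw, h2⟩ := h
  refine ⟨h0, fun z hz => ?_, ?_⟩
  · obtain ⟨m, n, rfl⟩ := mem_lat.1 hz
    have := h1 (m • x + n • y) (mem_lat.2 ⟨m, n, rfl⟩)
    rw [cr_add_right, cr_smul_right, cr_smul_right] at this ⊢
    rwa [hx, hy]
  · obtain ⟨m, n, rfl⟩ := mem_lat.1 hw
    refine ⟨m • x1 + n • y1, mem_lat.2 ⟨m, n, rfl⟩, ?_⟩
    rw [cr_add_right, cr_smul_right, cr_smul_right] at h2 ⊢
    rwa [hx, hy]

/-- the data of the shear -/
structure Shr (T : PSt) (l p l' p' v1 gl gp : Z2) (i : ℤ) : Prop where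
  hv : v1 = T.v + i • (T.u + l')
  lat_eq : lat gl gp = lat l p
  ul : cr T.u gl = cr T.u l
  up : cr T.u gp = cr T.u p
  vl : cr v1 gl = cr T.v l
  vp : cr v1 gp = cr T.v p
  cc : cr gp gl = cr p l
  pl : cr T.u T.v * (cr p' gl - cr p' l) = -(i * (cr T.u p' + cr l' p') * cr T.u l)
  pp : cr T.u T.v * (cr p' gp - cr p' p) = -(i * (cr T.u p' + cr l' p') * cr T.u p)

theorem shear {T : PSt} {l p l' p' : Z2} (ad : Ad T l p l' p') {i m r n : ℤ}
    (hm : cr T.u l + cr l' l = cr p T.v * m) (hr : cr T.u p + cr l' p = cr p T.v * r)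
    (hn : i * r ^ 2 = m * n) :
    Shr T l p l' p' (T.v + i • (T.u + l')) ((1 - i * r) • l + (i * m) • p)
      ((-n) • l + (1 + i * r) • p) i := by
  have num := ad.nums
  have q1 := num.r1
  have q2 := num.r2
  have q3' := num.r3
  have q4' := num.r4
  have qa := num.ra'
  have hA0 := num.A0
  have hb0 := num.b0
  have he0 := num.e0
  have he0' := num.e0'
  have hbb := num.b0'
  have hk1 : 0 < cr l' l := by
    have : 0 < cr l' l * cr T.u T.v := by rw [q1]; exact mul_pos he0 he0'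
    exact (mul_pos_iff_of_pos_right hA0).1 this
  have hm0 : 0 < m := by
    have : 0 < cr p T.v * m := by rw [← hm]; linarith
    exact (mul_pos_iff_of_pos_left hb0).1 this
  have q4 : m * cr T.u p - r * cr T.u l = 0 := by
    have : (m * cr T.u p - r * cr T.u l) * (cr p T.v * cr T.u T.v) = 0 := by
      linear_combination -(cr T.u p * cr T.u T.v) * hm + (cr T.u l * cr T.u T.v) * hr +
        cr T.u p * q1 - cr T.u l * q3'
    rcases mul_eq_zero.1 this with q5 | q5
    · exact q5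
    · exact absurd q5 (mul_pos hb0 hA0).ne'
  have q6 : n * cr T.u l = i * r * cr T.u p := by
    have : m * (n * cr T.u l - i * r * cr T.u p) = 0 := by
      linear_combination -(cr T.u l) * hn - i * r * q4
    rcases mul_eq_zero.1 this with q5 | q5
    · omega
    · linarith
  -- `A (m k₄ - r k₂) = -(b' + a') e`
  have q7 : cr T.u T.v * (m * cr p' p - r * cr p' l) = -((cr T.u p' + cr l' p') * cr T.u l) := by
    have : (cr T.u T.v * (m * cr p' p - r * cr p' l) + (cr T.u p' + cr l' p') * cr T.u l) *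
        (cr p T.v * cr T.u T.v) = 0 := by
      have e1 : cr T.u l * cr l' p * cr T.u T.v = cr T.u p * cr l' l * cr T.u T.v := by
        linear_combination cr T.u l * q3' - cr T.u p * q1
      linear_combination (-(cr T.u T.v) ^ 2 * cr p' p) * hm + ((cr T.u T.v) ^ 2 * cr p' l) * hr +
        (cr T.u T.v * (cr T.u l + cr l' l)) * q4' - (cr T.u T.v * (cr T.u p + cr l' p)) * q2 +
        (cr T.u l * cr p T.v) * qa - (cr T.u p' * cr p T.v) * q1 - cr p' T.v * e1
    rcases mul_eq_zero.1 this with q5 | q5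
    · linarith
    · exact absurd q5 (mul_pos hb0 hA0).ne'
  have hdet : (1 - i * r) * (1 + i * r) - (i * m) * (-n) = 1 := by
    linear_combination -i * hn
  have n1 : cr l (T.v + i • (T.u + l')) = -(i * (cr p T.v * m)) := by
    rw [← hm, cr_add_right, cr_smul_right, cr_add_right, ad.h1, cr_swap l T.u, cr_swap l l']; ring
  have n2 : cr p (T.v + i • (T.u + l')) = cr p T.v - i * (cr p T.v * r) := by
    rw [← hr, cr_add_right, cr_smul_right, cr_add_right, cr_swap p T.u, cr_swap p l']; ring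
  refine ⟨rfl, closure_pair_eq rfl rfl (Or.inl hdet), ?_, ?_, ?_, ?_, ?_, ?_, ?_⟩
  · rw [cr_add_right, cr_smul_right, cr_smul_right]; linear_combination i * q4
  · rw [cr_add_right, cr_smul_right, cr_smul_right]; linear_combination -q6
  · rw [cr_swap _ l, ad.h1, cr_swap, cr_add_left, cr_smul_left, cr_smul_left, n1, n2]; ring
  · rw [cr_swap _ p, cr_swap (T.v + i • (T.u + l')), cr_add_left, cr_smul_left, cr_smul_left, n1,
      n2]
    linear_combination (i * cr p T.v) * hn
  · rw [cr_add_left, cr_add_right, cr_add_right]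
    simp only [cr_smul_left, cr_smul_right, cr_self]
    rw [cr_swap l p]
    linear_combination (cr p l) * hdet
  · rw [cr_add_right, cr_smul_right, cr_smul_right]
    linear_combination i * q7
  · rw [cr_add_right, cr_smul_right, cr_smul_right]
    have : m * (cr T.u T.v * (-n * cr p' l + (1 + i * r) * cr p' p - cr p' p) +
      i * (cr T.u p' + cr l' p') * cr T.u p) = 0 := by
      linear_combination (cr T.u T.v * cr p' l) * hn + i * r * q7 +
        i * (cr T.u p' + cr l' p') * q4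
    rcases mul_eq_zero.1 this with q5 | q5
    · omega
    · linarith

theorem par {T : PSt} {l p l' p' : Z2} (ad : Ad T l p l' p') (z : Z2) :
    cr l' z * cr T.u T.v = cr l' T.v * cr T.u z := by
  have := plucker l' z T.u T.v
  rw [cr_swap l' T.u, ad.h4, cr_swap z T.u] at this
  linarith

/-- conditions of the back move at `T` with the basis `x, y` and sign `o`: the move goes to
`⟨lat x (y - o v), u - o (v + x), v, L'⟩` -/
def Bck (T : PSt) (x y : Z2) (o : ℤ) : Prop :=
  0 < cr T.u x ∧ cr T.u x ≤ cr y x ∧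
    ((o = 1 ∧ -cr T.u x < cr x T.v ∧ cr x T.v < cr T.u T.v) ∨
      (o = -1 ∧ -cr T.u T.v < cr x T.v ∧ cr x T.v < cr T.u x))

/-- the back move -/
theorem Bck.seq {T : PSt} {x y : Z2} {o : ℤ} (h : Bck T x y o) (hT : T.Ok) (hL : T.L = lat x y) :
    SEq T ⟨lat x (y - o • T.v), T.u - o • (T.v + x), T.v, T.L'⟩ := by
  obtain ⟨L, u, v, L'⟩ := T
  dsimp only [Bck] at h hL ⊢
  subst hL
  obtain ⟨h1, h2, ⟨rfl, h3, h4⟩ | ⟨rfl, h3, h4⟩⟩ := h
  · have := SEq.mMinus hT h1 h2 h3 h4
    have e1 : y - (1 : ℤ) • v = y - v := by module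
    have e2 : u - (1 : ℤ) • (v + x) = u - v - x := by module
    rw [e1, e2]; exact this
  · have := SEq.mPlus hT h1 h2 h3 h4
    have e1 : y - (-1 : ℤ) • v = y + v := by module
    have e2 : u - (-1 : ℤ) • (v + x) = u + v + x := by module
    rw [e1, e2]; exact this

/-- LOOP: `H_i` at `T`, then the transported back move -/
theorem adLoop {T : PSt} {l p l' p' : Z2} (ad : Ad T l p l' p') (hT : T.Ok)
    (hA : cr T.u T.v ≤ cr T.u p') {i m r n : ℤ}
    (hm : cr T.u l + cr l' l = cr p T.v * m) (hr : cr T.u p + cr l' p = cr p T.v * r)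
    (hn : i * r ^ 2 = m * n) {x y : Z2} {o : ℤ} (hL : T.L = lat x y) (hb : Bck T x y o)
    {u0 : Z2} (hu0 : u0 = T.u - o • (T.v + x)) :
    ∃ (S' : PSt) (Y : ℤ), SEq T S' ∧ S'.L' = lat l' (p' + i • T.u) ∧
      S'.v = T.v + i • (T.u + l') ∧
      IsArea S'.L' (cr l' p') ∧ cr S'.u S'.v = cr u0 T.v ∧
      (∀ c, IsC (lat x (y - o • T.v)) T.v c → IsC S'.L S'.v c) ∧
      cr T.u T.v * Y = i * (cr T.u p' + cr l' p' - cr T.u T.v) * cr T.u u0 ∧
      IsC S'.L' S'.u (Int.gcd (cr l' u0) (cr p' u0 - Y) : ℕ) := by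
  have sh := shear ad hm hr hn
  set gl := (1 - i * r) • l + (i * m) • p with hgl
  set gp := (-n) • l + (1 + i * r) • p with hgp
  have k1 := ad.twH hT hA i
  set v1 := T.v + i • (T.u + l') with hv1
  have hA0 := ad.hA
  obtain ⟨b1, b2, b3⟩ := hb
  have hyx : 0 < cr y x := lt_of_lt_of_le b1 b2
  obtain ⟨α, β, γ, δ, ex, ey, hdet, hcc⟩ := basis_change (hL.symm.trans ad.hL) ad.pos hyx
  set gx := α • gl + β • gp with hgx
  set gy := γ • gl + δ • gp with hgy
  have hlat : T.L = lat gx gy := by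
    rw [closure_pair_eq hgx hgy (Or.inl hdet), sh.lat_eq, ad.hL]
  have c1 : cr T.u gx = cr T.u x := by
    rw [hgx, ex]; simp only [cr_add_right, cr_smul_right]; rw [sh.ul, sh.up]
  have c2 : cr v1 gx = cr T.v x := by
    rw [hgx, ex]; simp only [cr_add_right, cr_smul_right]; rw [sh.vl, sh.vp]
  have c3 : cr v1 gy = cr T.v y := by
    rw [hgy, ey]; simp only [cr_add_right, cr_smul_right]; rw [sh.vl, sh.vp]
  have c4 : cr gy gx = cr y x := by
    rw [hgx, hgy, ex, ey]
    simp only [cr_add_left, cr_add_right, cr_smul_left, cr_smul_right, cr_self]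
    rw [cr_swap gl gp, cr_swap l p, sh.cc]
  have c5 : cr T.u v1 = cr T.u T.v := by
    rw [hv1, cr_add_right, cr_smul_right, cr_add_right, cr_self, ad.h4]; ring
  have c6 : cr T.u T.v * (cr p' gx - cr p' x) = -(i * (cr T.u p' + cr l' p') * cr T.u x) := by
    rw [hgx, ex]; simp only [cr_add_right, cr_smul_right]
    linear_combination α * sh.pl + β * sh.pp
  have c7 : cr gx v1 = cr x T.v := by rw [cr_swap gx v1, c2, cr_swap x T.v]
  clear_value v1 gx gy
  have hbi : Bck ⟨T.L, T.u, v1, lat l' (p' + i • T.u)⟩ gx gy o := by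
    unfold Bck
    dsimp only
    rw [c1, c4, c7, c5]
    exact ⟨b1, b2, b3⟩
  have k2 := hbi.seq k1.ok' hlat
  dsimp only at k2
  have d1 : cr l' T.v * cr T.u u0 = cr l' u0 * cr T.u T.v := (par ad u0).symm
  have d2 : cr T.u u0 = -(o * (cr T.u T.v + cr T.u x)) := by
    rw [hu0, cr_sub_right, cr_smul_right, cr_add_right, cr_self]; ring
  have ho : o ≠ 0 := by
    rcases b3 with ⟨h, -⟩ | ⟨h, -⟩ <;> rw [h] <;> norm_num
  have d3 : cr T.u u0 ≠ 0 := by
    rw [d2]
    refine neg_ne_zero.2 (mul_ne_zero ho ?_)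
    linarith
  have d4 : cr l' u0 ≠ 0 := by
    intro h
    rw [h, zero_mul] at d1
    rcases mul_eq_zero.1 d1 with h1 | h1
    · have := ad.h5; omega
    · exact d3 h1
  -- the new `u`
  set u1 := T.u - o • (v1 + gx) with hu1
  have e1 : cr l' u1 = cr l' u0 := by
    have f1 := par ad gx
    rw [c1] at f1
    have f2 := par ad x
    have f3 : cr l' gx = cr l' x := by
      have : (cr l' gx - cr l' x) * cr T.u T.v = 0 := by linarith
      rcases mul_eq_zero.1 this with h | h
      · linarith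
      · omega
    have f4 : cr l' v1 = cr l' T.v := by
      rw [hv1, cr_add_right, cr_smul_right, cr_add_right, cr_self, cr_swap l' T.u, ad.h4]; ring
    rw [hu1, hu0, cr_sub_right, cr_sub_right, cr_smul_right, cr_smul_right, cr_add_right,
      cr_add_right, f3, f4]
  set Y := cr p' u0 - cr (p' + i • T.u) u1 with hY
  have e2 : cr (p' + i • T.u) u1 = -cr T.u p' - o * (cr p' T.v - i * (cr T.u p' + cr l' p')) -
      o * cr p' gx - i * o * cr T.u T.v - i * o * cr T.u x := by
    have f1 : cr p' v1 = cr p' T.v - i * (cr T.u p' + cr l' p') := by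
      rw [hv1, cr_add_right, cr_smul_right, cr_add_right, cr_swap p' T.u, cr_swap p' l']; ring
    rw [hu1, cr_add_left, cr_smul_left, cr_sub_right, cr_sub_right, cr_smul_right, cr_smul_right,
      cr_add_right, cr_add_right, cr_self, f1, c5, c1, cr_swap p' T.u]; ring
  have e3 : cr p' u0 = -cr T.u p' - o * cr p' T.v - o * cr p' x := by
    rw [hu0, cr_sub_right, cr_smul_right, cr_add_right, cr_swap p' T.u]; ring
  have e4 : cr T.u T.v * Y = i * (cr T.u p' + cr l' p' - cr T.u T.v) * cr T.u u0 := by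
    rw [hY, e2, e3, d2]
    linear_combination o * c6
  refine ⟨⟨lat gx (gy - o • v1), u1, v1, lat l' (p' + i • T.u)⟩, Y, k1.trans k2, rfl, rfl, ?_, ?_,
    ?_, e4, ?_⟩
  · have h1 : cr l' (p' + i • T.u) = cr l' p' := by
      rw [cr_add_right, cr_smul_right, cr_swap l' T.u, ad.h4]; ring
    exact ⟨ad.pos', p' + i • T.u, l', h1, lat_comm _ _⟩
  · dsimp only
    rw [hu1, hu0, cr_sub_left, cr_sub_left, cr_smul_left, cr_smul_left, cr_add_left, cr_add_left,
      cr_self, cr_self, c5, c7]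
  · intro c hc
    dsimp only
    refine isC_transport (x := x) (y := y - o • T.v) (v := T.v) c2 ?_ hc
    rw [cr_sub_right, cr_sub_right, cr_smul_right, cr_smul_right, cr_self, cr_self, c3]
  · dsimp only
    have h2 : cr p' u0 - Y = cr (p' + i • T.u) u1 := by rw [hY]; ring
    rw [h2, ← e1]
    have h3 : cr u1 l' = -cr l' u1 := cr_swap u1 l'
    have h4 : cr u1 (p' + i • T.u) = -cr (p' + i • T.u) u1 := cr_swap u1 _
    have := isC_lat (x := l') (y := p' + i • T.u) (u := u1) (Or.inl (by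
      rw [h3, e1]; exact neg_ne_zero.2 d4))
    rw [h3, h4, Int.neg_gcd, Int.gcd_neg] at this
    exact this

/-- CRT for the loops -/
theorem crt_min2 {c G X Y : ℤ} (hc : 0 < c) (hG : G ≠ 0) (h0 : (Int.gcd G X : ℤ) = c)
    (hmin : ∀ k : ℤ, c ≤ Int.gcd G (X - k * Y)) : c ∣ Y := by
  set d : ℤ := ((Int.gcd c Y : ℕ) : ℤ) with hd
  have hdpos : 0 < d := by
    rw [hd]
    have : 0 < Int.gcd c Y := Int.gcd_pos_of_ne_zero_left _ hc.ne'
    exact_mod_cast this
  have hdc : d ∣ c := by rw [hd]; exact Int.gcd_dvd_left _ _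
  have hdY : d ∣ Y := by rw [hd]; exact Int.gcd_dvd_right _ _
  have hcG : c ∣ G := by rw [← h0]; exact Int.gcd_dvd_left _ _
  have hcX : c ∣ X := by rw [← h0]; exact Int.gcd_dvd_right _ _
  obtain ⟨Y1, hY1⟩ := hdY
  obtain ⟨G1, hG1⟩ := hdc.trans hcG
  obtain ⟨X1, hX1⟩ := hdc.trans hcX
  have hG10 : G1 ≠ 0 := by rintro rfl; exact hG (by rw [hG1, mul_zero])
  obtain ⟨t, ht⟩ := coprime_shift X1 Y1 G1 hG10 (by
    intro l hl h1 h2 h3
    have h4 : d * l ∣ c := by
      rw [← h0]
      refine Int.dvd_coe_gcd ?_ ?_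
      · rw [hG1]; exact mul_dvd_mul_left d h1
      · rw [hX1]; exact mul_dvd_mul_left d h3
    have h5 : d * l ∣ Y := by rw [hY1]; exact mul_dvd_mul_left d h2
    have h6 : d * l ∣ d := by
      conv_rhs => rw [hd]
      exact Int.dvd_coe_gcd h4 h5
    have h7 : (l : ℤ) ∣ 1 := by
      have : d * l ∣ d * 1 := by rwa [mul_one]
      exact (mul_dvd_mul_iff_left hdpos.ne').1 this
    exact prime_not_dvd_one hl h7)
  have h1 := hmin (-t)
  have e1 : X - -t * Y = d * (X1 + Y1 * t) := by rw [hX1, hY1]; ring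
  have h2 : Int.gcd G1 (X1 + Y1 * t) = 1 := by
    rw [Int.gcd_comm]
    exact Int.isCoprime_iff_gcd_eq_one.1 ht
  rw [e1, hG1, Int.gcd_mul_left, h2, mul_one, Int.natAbs_of_nonneg hdpos.le] at h1
  have h3 := Int.le_of_dvd hc hdc
  have h4 : c = d := le_antisymm h1 h3
  rw [h4, hY1]; exact ⟨Y1, rfl⟩

/-- LOOP INEQUALITY (E3): `T` obtained from the extremal state `S` by a left move; the shears
`P k` preserve `T.L`; then `A^ b' ∣ P (B + a' - A^) (u^ × u)` -/
theorem extLoop {S T : PSt} {a' b b' : ℤ} (h : ExtA S a' b b') (hST : SEq S T)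
    (hL' : T.L' = S.L') (hv : T.v = S.v) {x y : Z2} {o : ℤ} (hL : T.L = lat x y)
    (hb : Bck T x y o) (hSL : S.L = lat x (y - o • T.v)) (hSu : S.u = T.u - o • (T.v + x))
    {l p l' p' : Z2} (ad : Ad T l p l' p') {P m r n : ℤ}
    (hm : cr T.u l + cr l' l = cr p T.v * m) (hr : cr T.u p + cr l' p = cr p T.v * r)
    (hn : P * r ^ 2 = m * n) :
    cr T.u T.v * b' ∣ P * (cr T.u p' + a' - cr T.u T.v) * cr T.u S.u := by
  have haT : IsArea T.L' a' := by rw [hL']; exact h.ha'
  have ea : cr l' p' = a' := ad.isArea'.unique haT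
  have hA : cr T.u T.v ≤ cr T.u p' := h.leA hST haT ad.isC'
  have hA0 := ad.hA
  have key : ∀ k : ℤ, ∃ Y : ℤ, cr T.u T.v * Y =
      k * P * (cr T.u p' + a' - cr T.u T.v) * cr T.u S.u ∧
      b' ≤ Int.gcd (cr l' S.u) (cr p' S.u - Y) := by
    intro k
    have hn' : (k * P) * r ^ 2 = m * (k * n) := by linear_combination k * hn
    obtain ⟨S', Y, k1, -, -, k2, k3, k4, k5, k6⟩ := adLoop ad hST.ok' hA hm hr hn' hL hb hSu
    rw [ea] at k2 k5
    refine ⟨Y, k5, h.min' S' _ (hST.trans k1) k2 (k4 b ?_) ?_ k6⟩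
    · rw [← hSL, hv]; exact h.hb
    · rw [k3, hv]; exact h.hA
  obtain ⟨Y, hY, -⟩ := key 1
  rw [one_mul] at hY
  have hc0 : (Int.gcd (cr l' S.u) (cr p' S.u) : ℤ) = b' := by
    have hne : cr S.u l' ≠ 0 := by
      have h1 := par ad S.u
      have h2 : cr T.u S.u ≠ 0 := by
        rw [hSu, cr_sub_right, cr_smul_right, cr_add_right, cr_self, zero_sub]
        refine neg_ne_zero.2 (mul_ne_zero ?_ ?_)
        · rcases hb.2.2 with ⟨h, -⟩ | ⟨h, -⟩ <;> rw [h] <;> norm_num
        · have := hb.1; omega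
      intro h3
      rw [cr_swap l' S.u, h3, neg_zero, zero_mul] at h1
      rcases mul_eq_zero.1 h1.symm with h4 | h4
      · have := ad.h5; omega
      · exact h2 h4
    have h1 := isC_lat (x := l') (y := p') (u := S.u) (Or.inl hne)
    rw [← ad.hL', hL'] at h1
    have h2 := h1.unique h.hb'
    rw [cr_swap S.u l', cr_swap S.u p', Int.neg_gcd, Int.gcd_neg] at h2
    exact h2
  have hG : cr l' S.u ≠ 0 := by
    intro h0
    have h1 := par ad S.u
    rw [h0, zero_mul] at h1
    have h2 : cr T.u S.u ≠ 0 := by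
      rw [hSu, cr_sub_right, cr_smul_right, cr_add_right, cr_self, zero_sub]
      refine neg_ne_zero.2 (mul_ne_zero ?_ ?_)
      · rcases hb.2.2 with ⟨h, -⟩ | ⟨h, -⟩ <;> rw [h] <;> norm_num
      · have := hb.1; omega
    rcases mul_eq_zero.1 h1.symm with h4 | h4
    · have := ad.h5; omega
    · exact h2 h4
  have hdvd : b' ∣ Y := by
    refine crt_min2 h.hb'.1 hG hc0 fun k => ?_
    obtain ⟨Yk, e1, e2⟩ := key k
    have : Yk = k * Y := by
      have : cr T.u T.v * (Yk - k * Y) = 0 := by linear_combination e1 - k * hY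
      rcases mul_eq_zero.1 this with h9 | h9
      · omega
      · linarith
    rw [← this]; exact e2
  rw [← hY]
  exact mul_dvd_mul_left _ hdvd

end Pool.Agent.H4G.Sh83
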