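import Pool.Agent.H4G.Arith.Block

/-!
# Path states and the elementary moves between them (helper40)
-/

set_option autoImplicit false

namespace Pool.Agent.H4G

/-- The lattice generated by two vectors. -/
abbrev lat (x y : Z2) : AddSubgroup Z2 := AddSubgroup.closure {x, y}

theorem mem_lat {x y w : Z2} : w ∈ lat x y ↔ ∃ m n : ℤ, m • x + n • y = w :=
  AddSubgroup.mem_closure_pair

/-- The chain vectors `q, l` represent the block `(L, u)`. -/
def Lft (L : AddSubgroup Z2) (u q l : Z2) : Prop :=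
  0 < cr q l ∧ 0 < cr l u ∧ lat l (q - u) = L

/-- The chain vectors `l', q'` represent the block `(v, L')`. -/
def Rgt (v : Z2) (L' : AddSubgroup Z2) (l' q' : Z2) : Prop :=
  0 < cr v l' ∧ 0 < cr l' q' ∧ lat l' (q' - v) = L'

/-- A path state `(L, u, v, L')`. -/
structure PSt : Type where
  L : AddSubgroup Z2
  u : Z2
  v : Z2
  L' : AddSubgroup Z2

/-- The chain `c` represents the path state `S`. -/
def IsRep (S : PSt) : C6 → Prop
  | (a0, a1, a2, a3, a4, a5) => Lft S.L S.u a0 a1 ∧ a2 = S.u ∧ a3 = S.v ∧ 0 < cr S.u S.v ∧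
      Rgt S.v S.L' a4 a5

/-- The path state comes from a chain. -/
def PSt.Ok (S : PSt) : Prop := ∃ c, IsRep S c

/-- Equivalence of path states. -/
def SEq (S S' : PSt) : Prop := ∃ c c', IsRep S c ∧ IsRep S' c' ∧ CEq c c'

theorem IsRep.pos {S : PSt} {c : C6} (h : IsRep S c) : Pos c := by
  obtain ⟨a0, a1, a2, a3, a4, a5⟩ := c
  obtain ⟨h1, h2, h3, h4, h5⟩ := h
  subst h2 h3
  exact ⟨h1.1, h1.2.1, h4, h5.1, h5.2.1⟩

/-- every positive chain represents a path state -/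
def stOf : C6 → PSt
  | (a0, a1, a2, a3, a4, a5) => ⟨lat a1 (a0 - a2), a2, a3, lat a4 (a5 - a3)⟩

theorem isRep_stOf {c : C6} (h : Pos c) : IsRep (stOf c) c := by
  obtain ⟨a0, a1, a2, a3, a4, a5⟩ := c
  obtain ⟨h1, h2, h3, h4, h5⟩ := h
  exact ⟨⟨h1, h2, rfl⟩, rfl, rfl, h3, h4, h5, rfl⟩

/-! ## Bases of lattices -/

theorem closure_pair_le {x y x' y' : Z2} {α β γ δ : ℤ} (hx : x' = α • x + β • y)
    (hy : y' = γ • x + δ • y) : lat x' y' ≤ lat x y := by
  rw [AddSubgroup.closure_le]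
  rintro w (rfl | rfl)
  · exact mem_lat.2 ⟨α, β, hx.symm⟩
  · exact mem_lat.2 ⟨γ, δ, hy.symm⟩

theorem closure_pair_eq {x y x' y' : Z2} {α β γ δ : ℤ} (hx : x' = α • x + β • y)
    (hy : y' = γ • x + δ • y) (hd : α * δ - β * γ = 1 ∨ α * δ - β * γ = -1) :
    lat x' y' = lat x y := by
  apply le_antisymm (closure_pair_le hx hy)
  rcases hd with hd | hd
  · refine closure_pair_le (α := δ) (β := -β) (γ := -γ) (δ := α) ?_ ?_
    · rw [hx, hy]
      have : x = (α * δ - β * γ) • x := by rw [hd, one_smul]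
      conv_lhs => rw [this]
      module
    · rw [hx, hy]
      have : y = (α * δ - β * γ) • y := by rw [hd, one_smul]
      conv_lhs => rw [this]
      module
  · refine closure_pair_le (α := -δ) (β := β) (γ := γ) (δ := -α) ?_ ?_
    · rw [hx, hy]
      have : x = (-(α * δ - β * γ)) • x := by rw [hd, neg_neg, one_smul]
      conv_lhs => rw [this]
      module
    · rw [hx, hy]
      have : y = (-(α * δ - β * γ)) • y := by rw [hd, neg_neg, one_smul]
      conv_lhs => rw [this]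
      module

/-- two bases of the same lattice with the same orientation -/
theorem basis_change {l p l1 p1 : Z2} (h : lat l1 p1 = lat l p) (hp : 0 < cr p l)
    (hp1 : 0 < cr p1 l1) : ∃ α β γ δ : ℤ, l1 = α • l + β • p ∧ p1 = γ • l + δ • p ∧
      α * δ - β * γ = 1 ∧ cr p1 l1 = cr p l := by
  have m1 : l1 ∈ lat l p := by
    rw [← h]; exact AddSubgroup.subset_closure (by simp)
  have m2 : p1 ∈ lat l p := by
    rw [← h]; exact AddSubgroup.subset_closure (by simp)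
  have m3 : l ∈ lat l1 p1 := by
    rw [h]; exact AddSubgroup.subset_closure (by simp)
  have m4 : p ∈ lat l1 p1 := by
    rw [h]; exact AddSubgroup.subset_closure (by simp)
  obtain ⟨α, β, e1⟩ := mem_lat.1 m1
  obtain ⟨γ, δ, e2⟩ := mem_lat.1 m2
  obtain ⟨α', β', e3⟩ := mem_lat.1 m3
  obtain ⟨γ', δ', e4⟩ := mem_lat.1 m4
  have d1 : cr p1 l1 = (α * δ - β * γ) * cr p l := by
    rw [← e1, ← e2]
    simp only [cr_add_left, cr_add_right, cr_smul_left, cr_smul_right, cr_self]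
    rw [cr_swap l p]; ring
  have d2 : cr p l = (α' * δ' - β' * γ') * cr p1 l1 := by
    rw [← e3, ← e4]
    simp only [cr_add_left, cr_add_right, cr_smul_left, cr_smul_right, cr_self]
    rw [cr_swap l1 p1]; ring
  have d3 : (α * δ - β * γ) * (α' * δ' - β' * γ') = 1 := by
    have : ((α * δ - β * γ) * (α' * δ' - β' * γ') - 1) * cr p l = 0 := by
      rw [d1] at d2
      linear_combination -d2
    rcases mul_eq_zero.1 this with h | h
    · linarith
    · exact absurd h hp.ne'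
  have d4 : 0 < α * δ - β * γ := by
    by_contra hn
    push Not at hn
    have : (α * δ - β * γ) * cr p l ≤ 0 := mul_nonpos_of_nonpos_of_nonneg hn hp.le
    linarith
  have d5 : α * δ - β * γ = 1 := by
    rcases Int.eq_one_or_neg_one_of_mul_eq_one d3 with h | h
    · exact h
    · linarith
  exact ⟨α, β, γ, δ, e1.symm, e2.symm, d5, by rw [d1, d5, one_mul]⟩

theorem coprime_of_det {α β γ δ : ℤ} (h : α * δ - β * γ = 1) : IsCoprime α β :=
  ⟨δ, -γ, by linarith⟩

/-- BLOCK LEMMA: the vectors representing a block can be changed. -/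
theorem CEq.block {L : AddSubgroup Z2} {u v a4 a5 q l q1 l1 : Z2} (h : Lft L u q l)
    (h1 : Lft L u q1 l1) (hp : Pos (q, l, u, v, a4, a5)) :
    CEq (q, l, u, v, a4, a5) (q1, l1, u, v, a4, a5) := by
  obtain ⟨x1, x2, x3⟩ := h
  obtain ⟨y1, y2, y3⟩ := h1
  have e1 : cr (q - u) l = cr q l + cr l u := by
    rw [cr_sub_left, cr_swap u l]; ring
  have e2 : cr (q1 - u) l1 = cr q1 l1 + cr l1 u := by
    rw [cr_sub_left, cr_swap u l1]; ring
  obtain ⟨α, β, γ, δ, f1, f2, f3, f4⟩ := basis_change (y3.trans x3.symm) (by rw [e1]; linarith)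
    (by rw [e2]; linarith)
  have := CEq.block_aux _ (q - u) l u v a4 a5 l1 (q1 - u) α β γ δ rfl
    (by rw [sub_add_cancel]; exact hp) f1 f2 (coprime_of_det f3) y2
    (by rw [← f4, e2]; linarith) f4
  rw [sub_add_cancel, sub_add_cancel] at this
  exact this

theorem CEq.rev {a0 a1 a2 a3 a4 a5 : Z2} (hp : Pos (a0, a1, a2, a3, a4, a5)) :
    CEq (a0, a1, a2, a3, a4, a5) (a5, -a4, a3, -a2, a1, -a0) :=
  CEq.mv hp (Mv.rev _ _ _ _ _ _)

theorem pos_rev {a0 a1 a2 a3 a4 a5 : Z2} (hp : Pos (a0, a1, a2, a3, a4, a5)) :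
    Pos (a5, -a4, a3, -a2, a1, -a0) := by
  obtain ⟨h1, h2, h3, h4, h5⟩ := hp
  refine ⟨?_, ?_, ?_, ?_, ?_⟩
  · rw [cr_neg_right, cr_swap a5 a4]; linarith
  · rw [cr_neg_left, cr_swap a4 a3]; linarith
  · rw [cr_neg_right, cr_swap a3 a2]; linarith
  · rw [cr_neg_left, cr_swap a2 a1]; linarith
  · rw [cr_neg_right, cr_swap a1 a0]; linarith

/-- the right block as a left block -/
theorem Rgt.lft {v l' q' : Z2} {L' : AddSubgroup Z2} (h : Rgt v L' l' q') : Lft L' v q' (-l') := by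
  obtain ⟨h1, h2, h3⟩ := h
  refine ⟨?_, ?_, ?_⟩
  · rw [cr_neg_right, cr_swap q' l']; linarith
  · rw [cr_neg_left, cr_swap l' v]; linarith
  · rw [← h3]
    exact closure_pair_eq (α := -1) (β := 0) (γ := 0) (δ := 1) (by module) (by module)
      (Or.inr (by norm_num))

theorem Lft.rgt {u q l : Z2} {L : AddSubgroup Z2} (h : Lft L u q l) : Rgt (-u) L l (-q) := by
  obtain ⟨h1, h2, h3⟩ := h
  refine ⟨?_, ?_, ?_⟩
  · rw [cr_neg_left, cr_swap u l]; linarith
  · rw [cr_neg_right, cr_swap l q]; linarith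
  · rw [← h3]
    exact closure_pair_eq (α := 1) (β := 0) (γ := 0) (δ := -1) (by module) (by module)
      (Or.inr (by norm_num))

/-- all chains representing a path state are equivalent -/
theorem IsRep.ceq {S : PSt} {c c' : C6} (h : IsRep S c) (h' : IsRep S c') : CEq c c' := by
  obtain ⟨a0, a1, a2, a3, a4, a5⟩ := c
  obtain ⟨b0, b1, b2, b3, b4, b5⟩ := c'
  have hp := h.pos
  have hp' := h'.pos
  obtain ⟨L, u, v, L'⟩ := S
  obtain ⟨h1, h2, h3, h4, h5⟩ := h
  obtain ⟨k1, k2, k3, k4, k5⟩ := h'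
  dsimp only at h1 h2 h3 h4 h5 k1 k2 k3 k4 k5
  subst h2 h3
  subst k2 k3
  refine (CEq.block h1 k1 hp).trans ?_
  have hp1 : Pos (b0, b1, b2, b3, a4, a5) := ⟨hp'.1, hp'.2.1, h4, hp.2.2.2⟩
  have e1 := CEq.rev hp1
  have e2 := CEq.rev hp'
  refine e1.trans (CEq.trans ?_ e2.symm)
  exact CEq.block h5.lft k5.lft (pos_rev hp1)

theorem PSt.Ok.seq {S : PSt} (h : S.Ok) : SEq S S := by
  obtain ⟨c, hc⟩ := h
  exact ⟨c, c, hc, hc, CEq.refl c⟩

theorem SEq.ok {S S' : PSt} (h : SEq S S') : S.Ok := by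
  obtain ⟨c, c', h1, h2, h3⟩ := h
  exact ⟨c, h1⟩

theorem SEq.ok' {S S' : PSt} (h : SEq S S') : S'.Ok := by
  obtain ⟨c, c', h1, h2, h3⟩ := h
  exact ⟨c', h2⟩

theorem SEq.symm {S S' : PSt} (h : SEq S S') : SEq S' S := by
  obtain ⟨c, c', h1, h2, h3⟩ := h
  exact ⟨c', c, h2, h1, h3.symm⟩

theorem SEq.trans {S S' S'' : PSt} (h : SEq S S') (h' : SEq S' S'') : SEq S S'' := by
  obtain ⟨c, c', h1, h2, h3⟩ := h
  obtain ⟨d, d', k1, k2, k3⟩ := h'
  exact ⟨c, d', h1, k2, h3.trans ((h2.ceq k1).trans k3)⟩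

/-- equivalence of states is equivalence of all their chains -/
theorem SEq.ceq {S S' : PSt} (h : SEq S S') {c c' : C6} (hc : IsRep S c) (hc' : IsRep S' c') :
    CEq c c' := by
  obtain ⟨d, d', h1, h2, h3⟩ := h
  exact (hc.ceq h1).trans (h3.trans (h2.ceq hc'))

/-! ## Mirror, half turn, action of `SL₂(ℤ)` -/

theorem SEq.mirror {L L' : AddSubgroup Z2} {u v : Z2} (h : PSt.Ok ⟨L, u, v, L'⟩) :
    SEq ⟨L, u, v, L'⟩ ⟨L', v, -u, L⟩ := by
  obtain ⟨⟨a0, a1, a2, a3, a4, a5⟩, hc⟩ := h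
  have hp := hc.pos
  refine ⟨_, (a5, -a4, a3, -a2, a1, -a0), hc, ?_, CEq.rev hp⟩
  obtain ⟨h1, h2, h3, h4, h5⟩ := hc
  dsimp only at h1 h2 h3 h4 h5
  subst h2 h3
  exact ⟨h5.lft, rfl, rfl, (pos_rev hp).2.2.1, h1.rgt⟩

end Pool.Agent.H4G
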