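import Pool.Agent.H4G.Asy.CVE
import Pool.Agent.H4G.Arith.CrtA

/-!
# Step C: the sieve (helper81)

Pure arithmetic for the states with `A = 1` and least gap `2`.
-/

set_option autoImplicit false

namespace Pool.Agent.H4G

open Finset

theorem three_mul_prod_four (S : Finset ℕ) (h : ∀ p ∈ S, p.Prime ∧ p ≠ 2) :
    3 * ∏ _p ∈ S, 4 ≤ 4 * ∏ p ∈ S, p := by
  classical
  have key : ∀ T : Finset ℕ, (∀ p ∈ T, p.Prime ∧ p ≠ 2 ∧ p ≠ 3) → ∏ _p ∈ T, 4 ≤ ∏ p ∈ T, p := by
    intro T hT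
    refine prod_le_prod' fun p hp => ?_
    obtain ⟨h1, h2, h3⟩ := hT p hp
    have := h1.two_le
    omega
  by_cases h3 : 3 ∈ S
  · rw [← mul_prod_erase S (fun _ => 4) h3, ← mul_prod_erase S (fun p => p) h3]
    have := key (S.erase 3) (fun p hp => ⟨(h p (mem_of_mem_erase hp)).1,
      (h p (mem_of_mem_erase hp)).2, ne_of_mem_erase hp⟩)
    calc 3 * (4 * ∏ _p ∈ S.erase 3, 4) = 12 * ∏ _p ∈ S.erase 3, 4 := by ring
      _ ≤ 12 * ∏ p ∈ S.erase 3, p := Nat.mul_le_mul_left _ this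
      _ = 4 * (3 * ∏ p ∈ S.erase 3, p) := by ring
  · have := key S (fun p hp => ⟨(h p hp).1, (h p hp).2, fun h4 => h3 (h4 ▸ hp)⟩)
    omega

theorem omega_sq {x : ℕ} (hx : 0 < x) : 3 * (2 ^ (2 * x).primeFactors.card) ^ 2 ≤ 16 * x := by
  classical
  set S := (2 * x).primeFactors with hS
  have h2 : 2 ∈ S := by
    rw [hS, Nat.mem_primeFactors]
    exact ⟨Nat.prime_two, Dvd.intro _ rfl, by omega⟩
  have e1 : (2 ^ S.card) ^ 2 = ∏ _p ∈ S, 4 := by
    rw [prod_const, ← pow_mul, mul_comm, pow_mul]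
    norm_num
  have e2 : ∏ p ∈ S, p ∣ 2 * x := Nat.prod_primeFactors_dvd (2 * x)
  rw [e1, ← mul_prod_erase S (fun _ => 4) h2]
  rw [← mul_prod_erase S (fun p => p) h2] at e2
  have e3 : ∏ p ∈ S.erase 2, p ≤ x :=
    Nat.le_of_dvd hx (Nat.dvd_of_mul_dvd_mul_left (by norm_num) e2)
  have e4 := three_mul_prod_four (S.erase 2) (fun p hp => ⟨Nat.prime_of_mem_primeFactors
    (mem_of_mem_erase hp), ne_of_mem_erase hp⟩)
  calc 3 * (4 * ∏ _p ∈ S.erase 2, 4) = 4 * (3 * ∏ _p ∈ S.erase 2, 4) := by ring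
    _ ≤ 4 * (4 * ∏ p ∈ S.erase 2, p) := Nat.mul_le_mul_left _ e4
    _ ≤ 16 * x := by omega

/-- the length of the window: `W` classes against the window of the first level -/
theorem window_bound {n m k W : ℤ} (hn : 3 ≤ n) (hm : 1 ≤ m) (hk : 1 ≤ k) (hkm : 3 ≤ k * m)
    (hW : 3 * W ^ 2 ≤ 16 * (n * m)) (hW0 : 0 ≤ W)
    (hk3 : k = 1 ∨ (3 ≤ k ∧ 14 ≤ n * m)) (hz : 14 ≤ n * m) :
    W * k ≤ n * (k * m - 1) - 1 := by
  have h1 : 3 * W ≤ 2 * (n * m) - 3 := by
    by_contra h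
    push Not at h
    have h2 : 2 * (n * m) - 2 ≤ 3 * W := by omega
    nlinarith
  rcases hk3 with rfl | ⟨hk3, _⟩
  · have : 3 * n ≤ n * m := by nlinarith
    nlinarith
  · have h3 : n ≤ n * m := by nlinarith
    have h4 : (n * m + 3) * k ≤ 3 * (n * m - W) * k := by
      apply mul_le_mul_of_nonneg_right _ (by omega)
      linarith
    nlinarith

theorem window_small {n k : ℕ} {W : ℤ} (hn : 5 ≤ n) (hn13 : n ≤ 13) (hk : k % 2 = 1) (hk3 : 3 ≤ k)
    (hkn : k ≤ n - 2) (hd : (k : ℤ) ∣ n - 2) (hex : ¬ (n = 5 ∧ k = 3)) (h8 : W ≤ 8)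
    (h4 : n ≤ 11 → W ≤ 4) : W * k ≤ n * (k - 1) - 1 := by
  interval_cases n <;> interval_cases k <;> omega

theorem card_24 : (2 * (4 * 3)).primeFactors.card = 2 := by decide +kernel

theorem window_count {n m k : ℕ} (hn : 3 ≤ n) (hm : m % 2 = 1) (hk : k % 2 = 1)
    (hkm : 3 ≤ k * m) (hd : (k : ℤ) ∣ n - 2) (hex : ¬ (n = 5 ∧ k * m = 3)) :
    (2 : ℤ) ^ (2 * (n * m)).primeFactors.card * k ≤ n * (k * m - 1) - 1 := by
  have hm1 : 1 ≤ m := by omega
  have hk1 : 1 ≤ k := by omega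
  have hz : 0 < n * m := Nat.mul_pos (by omega) (by omega)
  have h0 := omega_sq hz
  have hW : 3 * ((2 : ℤ) ^ (2 * (n * m)).primeFactors.card) ^ 2 ≤ 16 * (n * m) := by
    exact_mod_cast h0
  have hW0 : (0 : ℤ) ≤ 2 ^ (2 * (n * m)).primeFactors.card := by positivity
  have hkn : k ≤ n - 2 := by
    have h1 : (k : ℤ) ≤ n - 2 := Int.le_of_dvd (by omega) hd
    omega
  have hk13 : k = 1 ∨ 3 ≤ k := by omega
  by_cases hz14 : 14 ≤ n * m
  · refine window_bound (by omega) (by omega) (by omega) (by exact_mod_cast hkm) hW hW0 ?_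
      (by exact_mod_cast hz14)
    rcases hk13 with h | h
    · left; exact_mod_cast h
    · right; exact ⟨by omega, by exact_mod_cast hz14⟩
  · push Not at hz14
    have hm3 : m = 1 ∨ 3 ≤ m := by omega
    have hr : (2 * (n * m)).primeFactors.card ≤ 3 := by
      by_contra h
      push Not at h
      have h1 : 2 ^ 4 ≤ 2 ^ (2 * (n * m)).primeFactors.card :=
        Nat.pow_le_pow_right (by norm_num) h
      nlinarith
    have hr2 : n * m ≤ 11 → (2 * (n * m)).primeFactors.card ≤ 2 := by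
      intro h9
      by_contra h
      push Not at h
      have h1 : 2 ^ 3 ≤ 2 ^ (2 * (n * m)).primeFactors.card :=
        Nat.pow_le_pow_right (by norm_num) h
      nlinarith
    rcases hk13 with h | h
    · subst h
      have hm3' : 3 ≤ m := by omega
      have hn4 : n ≤ 4 := by nlinarith
      have hm4 : m ≤ 4 := by nlinarith
      have hm' : m = 3 := by omega
      subst hm'
      rcases (show n = 3 ∨ n = 4 by omega) with rfl | rfl
      · have h2 : (2 : ℤ) ^ (2 * (3 * 3)).primeFactors.card ≤ 2 ^ 2 :=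
          pow_le_pow_right₀ (by norm_num) (hr2 (by norm_num))
        norm_num at h2 ⊢
        linarith
      · rw [card_24]; norm_num
    · have hn5 : 5 ≤ n := by omega
      have hm' : m = 1 := by
        rcases hm3 with h1 | h1
        · exact h1
        · exfalso; nlinarith
      subst hm'
      rw [mul_one] at *
      have h8 : (2 : ℤ) ^ (2 * n).primeFactors.card ≤ 2 ^ 3 :=
        pow_le_pow_right₀ (by norm_num) hr
      have h4 : n ≤ 11 → (2 : ℤ) ^ (2 * n).primeFactors.card ≤ 2 ^ 2 := fun h9 =>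
        pow_le_pow_right₀ (by norm_num) (hr2 h9)
      have hn13 : n ≤ 13 := by omega
      norm_num at h8
      have h4' : n ≤ 11 → (2 : ℤ) ^ (2 * n).primeFactors.card ≤ 4 := fun h9 => by
        have := h4 h9
        norm_num at this
        exact this
      have := window_small hn5 hn13 hk h hkn hd hex h8 h4'
      push_cast
      linarith

/-- prime by prime, a linear condition excludes one class -/
theorem one_class {p : ℕ} (hp : p.Prime) {R : ℤ} (hR : ¬ (p : ℤ) ∣ R) (g : ℤ) :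
    ∃ a : ℤ, ∀ s : ℤ, (p : ℤ) ∣ g + R * s → (p : ℤ) ∣ s - a := by
  obtain ⟨a, ha⟩ := exists_mul_class hp hR (-g)
  refine ⟨a, fun s hs => ?_⟩
  have h1 : (p : ℤ) ∣ R * (s - a) := by
    have := dvd_sub hs ha
    have e : R * (s - a) = g + R * s - (R * a - -g) := by ring
    rw [e]; exact this
  exact ((Nat.prime_iff_prime_int.1 hp).dvd_or_dvd h1).resolve_left hR

theorem avoid_class {p : ℕ} (hp : p.Prime) {R : ℤ} (hR : ¬ (p : ℤ) ∣ R) (g : ℤ) :
    ∃ s : ℤ, ¬ (p : ℤ) ∣ g + R * s := by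
  obtain ⟨a, ha⟩ := one_class hp hR g
  refine ⟨a + 1, fun h => ?_⟩
  have := ha _ h
  rw [add_sub_cancel_left] at this
  exact prime_not_dvd_one hp this

theorem prime_two_of_dvd_sub {p : ℕ} (hp : p.Prime) {c : ℤ} (h1 : (p : ℤ) ∣ 1 + c)
    (h2 : (p : ℤ) ∣ c - 1) : p = 2 := by
  have h3 : (p : ℤ) ∣ 2 := by
    have := dvd_sub h1 h2
    have e : (1 + c) - (c - 1) = 2 := by ring
    rwa [e] at this
  have h4 : p ∣ 2 := by exact_mod_cast h3
  exact (Nat.prime_dvd_prime_iff_eq hp Nat.prime_two).1 h4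

/-- THE SIEVE of step C -/
theorem sieve_main {e f c e' f' : ℤ} (he : 0 < e) (hc : 2 ≤ c) (he3 : 3 ≤ e')
    (hodd : ¬ (2 : ℤ) ∣ e') (hex : ¬ (c = 4 ∧ e' = 3))
    (hZ : ∀ p : ℕ, p.Prime → (p : ℤ) ∣ e → (p : ℤ) ∣ e' → (p : ℤ) ∣ f → (p : ℤ) ∣ c) :
    ∃ i w : ℤ, 1 + c < f' + 1 + w * e' - i * (c * e' + c - 1) ∧
      f' + 1 + w * e' - i * (c * e' + c - 1) < (1 + c) * e' ∧
      (∀ p : ℕ, p.Prime → (p : ℤ) ∣ 2 * (1 + c) → ¬ (p : ℤ) ∣ f' + 1 + 2 * i + (w + i) * e') ∧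
      (∀ p : ℕ, p.Prime → (p : ℤ) ∣ e → (p : ℤ) ∣ e' →
        ¬ (p : ℤ) ∣ 2 * (1 + c) - f * (f' + 1 + 2 * i + (w + i) * e')) := by
  classical
  set D : ℤ := c * e' + c - 1 with hD
  have hgpos : 0 < Int.gcd e' D := Int.gcd_pos_of_ne_zero_left _ (by omega)
  set k : ℕ := Int.gcd e' D with hk
  obtain ⟨m', hm'⟩ : (k : ℤ) ∣ e' := Int.gcd_dvd_left _ _
  obtain ⟨D', hD'⟩ : (k : ℤ) ∣ D := Int.gcd_dvd_right _ _
  have hm0 : 0 < m' := by
    by_contra h
    push Not at h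
    have : (k : ℤ) * m' ≤ 0 := mul_nonpos_of_nonneg_of_nonpos (by positivity) h
    omega
  obtain ⟨m, rfl⟩ : ∃ m : ℕ, m' = m := ⟨m'.toNat, by rw [Int.toNat_of_nonneg hm0.le]⟩
  -- Bezout
  obtain ⟨i0, w0, hbz⟩ : ∃ i0 w0 : ℤ, w0 * e' - i0 * D = k :=
    ⟨-Int.gcdB e' D, Int.gcdA e' D, by rw [hk, Int.gcd_eq_gcd_ab]; ring⟩
  have hbz' : w0 * m - i0 * D' = 1 := by
    have : (k : ℤ) * (w0 * m - i0 * D') = k * 1 := by
      have e1 : (k : ℤ) * (w0 * m - i0 * D') = w0 * (k * m) - i0 * (k * D') := by ring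
      rw [e1, ← hm', ← hD', hbz, mul_one]
    exact mul_left_cancel₀ (by exact_mod_cast hgpos.ne') this
  have hk2 : ¬ (2 : ℤ) ∣ k := fun h => hodd (h.trans (Int.gcd_dvd_left _ _))
  have hm2 : ¬ (2 : ℤ) ∣ m := fun h => hodd (by rw [hm']; exact h.mul_left _)
  have hkc : (k : ℤ) ∣ c - 1 := by
    have h1 : (k : ℤ) ∣ c * e' := (Int.gcd_dvd_left e' D).mul_left c
    have h2 : (k : ℤ) ∣ D := Int.gcd_dvd_right _ _
    have := dvd_sub h2 h1
    have e1 : D - c * e' = c - 1 := by rw [hD]; ring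
    rwa [e1] at this
  -- the number of classes
  obtain ⟨n, hn⟩ : ∃ n : ℕ, 1 + c = n := ⟨(1 + c).toNat, by rw [Int.toNat_of_nonneg (by omega)]⟩
  set P : Finset ℕ := (2 * (n * m)).primeFactors with hP
  have hPp : ∀ p ∈ P, p.Prime := fun p hp => Nat.prime_of_mem_primeFactors hp
  have hPm : ∀ p : ℕ, p.Prime → ((p : ℤ) ∣ 2 * (1 + c) ∨ (p : ℤ) ∣ m) → p ∈ P := by
    intro p hp h
    rw [hP, Nat.mem_primeFactors]
    have h0 : 2 * (n * m) ≠ 0 := by
      have h1 : 0 < n := by omega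
      have h2 : 0 < m := by exact_mod_cast hm0
      positivity
    refine ⟨hp, ?_, h0⟩
    have h3 : (p : ℤ) ∣ 2 * (n * m) := by
      rcases h with h | h
      · rw [hn] at h
        have e1 : (2 : ℤ) * (n * m) = 2 * n * m := by ring
        rw [e1]; exact h.mul_right _
      · exact (h.mul_left _).mul_left _
    exact_mod_cast h3
  have hcount := window_count (n := n) (m := m) (k := k) (by omega) (by omega) (by omega)
    (by
      have : (3 : ℤ) ≤ k * m := by rw [← hm']; exact he3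
      exact_mod_cast this) (by
      have e1 : (n : ℤ) - 2 = c - 1 := by omega
      rw [e1]; exact hkc) (by
      rintro ⟨h1, h2⟩
      apply hex
      refine ⟨by omega, ?_⟩
      rw [hm']; exact_mod_cast h2)
  rw [← hP] at hcount
  -- the bad classes
  have hbad : ∀ p : ℕ, ∃ a : ℤ, p ∈ P → ∀ s : ℤ,
      (((p : ℤ) ∣ 2 * (1 + c) ∧ (p : ℤ) ∣ f' + 1 + k * s) ∨
        (¬ (p : ℤ) ∣ 2 * (1 + c) ∧
          (p : ℤ) ∣ 2 * (1 + c) - f * (f' + 1 + 2 * (i0 * s)))) → (p : ℤ) ∣ s - a := by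
    intro p
    by_cases hpP : p ∈ P
    · have hp := hPp p hpP
      have hpi := Nat.prime_iff_prime_int.1 hp
      by_cases h1 : (p : ℤ) ∣ 2 * (1 + c)
      · have hpk : ¬ (p : ℤ) ∣ k := by
          intro h2
          by_cases hp2 : p = 2
          · subst hp2; exact hk2 (by exact_mod_cast h2)
          · have h3 : (p : ℤ) ∣ 1 + c := by
              rcases hpi.dvd_or_dvd h1 with h | h
              · exfalso; apply hp2
                have h4 : p ∣ 2 := by exact_mod_cast h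
                exact (Nat.prime_dvd_prime_iff_eq hp Nat.prime_two).1 h4
              · exact h
            exact hp2 (prime_two_of_dvd_sub hp h3 (h2.trans hkc))
        obtain ⟨a, ha⟩ := one_class hp hpk (f' + 1)
        refine ⟨a, fun _ s hs => ?_⟩
        rcases hs with ⟨_, hs⟩ | ⟨hs, _⟩
        · exact ha s hs
        · exact absurd h1 hs
      · have hpm : (p : ℤ) ∣ m := by
          have h2 : p ∣ 2 * (n * m) := Nat.dvd_of_mem_primeFactors hpP
          have h3 : (p : ℤ) ∣ 2 * (1 + c) * m := by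
            rw [hn]
            have : ((2 * (n * m) : ℕ) : ℤ) = 2 * n * m := by push_cast; ring
            rw [← this]; exact_mod_cast h2
          exact (hpi.dvd_or_dvd h3).resolve_left h1
        by_cases hpf : (p : ℤ) ∣ f
        · refine ⟨0, fun _ s hs => ?_⟩
          exfalso
          rcases hs with ⟨hs, _⟩ | ⟨_, hs⟩
          · exact h1 hs
          · apply h1
            have := dvd_add hs (hpf.mul_right (f' + 1 + 2 * (i0 * s)))
            rwa [sub_add_cancel] at this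
        · have hR : ¬ (p : ℤ) ∣ -(2 * i0 * f) := by
            intro h2
            rw [dvd_neg] at h2
            rcases hpi.dvd_or_dvd h2 with h3 | h3
            · rcases hpi.dvd_or_dvd h3 with h4 | h4
              · exact h1 (h4.mul_right _)
              · have : (p : ℤ) ∣ 1 := by
                  rw [← hbz']; exact dvd_sub (hpm.mul_left _) (h4.mul_right _)
                exact prime_not_dvd_one hp this
            · exact hpf h3
          obtain ⟨a, ha⟩ := one_class hp hR (2 * (1 + c) - f * (f' + 1))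
          refine ⟨a, fun _ s hs => ?_⟩
          rcases hs with ⟨hs, _⟩ | ⟨_, hs⟩
          · exact absurd hs h1
          · apply ha s
            have e1 : 2 * (1 + c) - f * (f' + 1) + -(2 * i0 * f) * s =
                2 * (1 + c) - f * (f' + 1 + 2 * (i0 * s)) := by ring
            rw [e1]; exact hs
    · exact ⟨0, fun h => absurd h hpP⟩
  choose a ha using hbad
  obtain ⟨x0, hx0⟩ := crt_primes P hPp (fun _ => 1) (fun p => a p + 1)
  have hx0' : ∀ p ∈ P, ¬ (p : ℤ) ∣ x0 - a p := by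
    intro p hp h
    have h1 := hx0 p hp
    rw [pow_one] at h1
    have h2 := dvd_sub h h1
    have e1 : x0 - a p - (x0 - (a p + 1)) = 1 := by ring
    rw [e1] at h2
    exact prime_not_dvd_one (hPp p hp) h2
  obtain ⟨s, hs1, hs2, hs3⟩ := Asy.exists_avoid P (fun p => (p : ℤ)) a
    (fun p hp => by exact_mod_cast (hPp p hp).pos) hx0' ((c - f') / k + 1)
  have hkpos : (0 : ℤ) < k := by exact_mod_cast hgpos
  have hlow : 1 + c < f' + 1 + k * s := by
    have h1 := Int.lt_ediv_add_one_mul_self (c - f') hkpos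
    have h2 : ((c - f') / k + 1) * k ≤ s * k := mul_le_mul_of_nonneg_right hs1 hkpos.le
    linarith
  have hup : f' + 1 + k * s < (1 + c) * e' := by
    have h1 := Int.ediv_mul_le (c - f') hkpos.ne'
    have h2 : s ≤ (c - f') / k + 2 ^ P.card := by linarith
    have h3 : s * k ≤ ((c - f') / k + 2 ^ P.card) * k := mul_le_mul_of_nonneg_right h2 hkpos.le
    have h4 : (n : ℤ) * (k * m - 1) - 1 = (1 + c) * e' - (1 + c) - 1 := by rw [← hn, ← hm']; ring
    linarith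
  -- the second parameter
  obtain ⟨κ, hκ⟩ := crt_exists e he.ne' (fun p κ => (p : ℤ) ∣ e' → ¬ (p : ℤ) ∣ m →
      ¬ (p : ℤ) ∣ 2 * (1 + c) → ¬ (p : ℤ) ∣ 2 * (1 + c) - f * (f' + 1 + 2 * (i0 * s + m * κ)))
    (by
      intro p hp _
      have hpi := Nat.prime_iff_prime_int.1 hp
      by_cases h1 : (p : ℤ) ∣ 2 * (1 + c)
      · exact ⟨0, fun _ _ h => absurd h1 h⟩
      by_cases h2 : (p : ℤ) ∣ m
      · exact ⟨0, fun _ h => absurd h2 h⟩
      by_cases h3 : (p : ℤ) ∣ f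
      · refine ⟨0, fun _ _ _ h => h1 ?_⟩
        have := dvd_add h (h3.mul_right (f' + 1 + 2 * (i0 * s + m * 0)))
        rwa [sub_add_cancel] at this
      · have hR : ¬ (p : ℤ) ∣ -(2 * m * f) := by
          intro h4
          rw [dvd_neg] at h4
          rcases hpi.dvd_or_dvd h4 with h4 | h4
          · rcases hpi.dvd_or_dvd h4 with h5 | h5
            · exact h1 (h5.mul_right _)
            · exact h2 h5
          · exact h3 h4
        obtain ⟨κ, hκ⟩ := avoid_class hp hR (2 * (1 + c) - f * (f' + 1 + 2 * (i0 * s)))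
        refine ⟨κ, fun _ _ _ h => hκ ?_⟩
        have e1 : 2 * (1 + c) - f * (f' + 1 + 2 * (i0 * s)) + -(2 * m * f) * κ =
            2 * (1 + c) - f * (f' + 1 + 2 * (i0 * s + m * κ)) := by ring
        rw [e1]; exact h)
    (by
      intro p hp _ κ κ' h1 h2 h3 h4 h5 h6
      apply h2 h3 h4 h5
      have e1 : 2 * (1 + c) - f * (f' + 1 + 2 * (i0 * s + m * κ)) =
          2 * (1 + c) - f * (f' + 1 + 2 * (i0 * s + m * κ')) + (κ' - κ) * (2 * m * f) := by ring
      rw [e1]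
      exact dvd_add h6 (h1.mul_right _))
  have hΨ : f' + 1 + (w0 * s + D' * κ) * e' - (i0 * s + m * κ) * D = f' + 1 + k * s := by
    have e1 : f' + 1 + (w0 * s + D' * κ) * e' - (i0 * s + m * κ) * D =
        f' + 1 + (w0 * e' - i0 * D) * s + κ * (D' * e' - m * D) := by ring
    have e2 : D' * e' - m * D = 0 := by rw [hm', hD']; ring
    rw [e1, hbz, e2]; ring
  have hΦ : f' + 1 + 2 * (i0 * s + m * κ) + (w0 * s + D' * κ + (i0 * s + m * κ)) * e' =
      f' + 1 + k * s + (1 + c) * (1 + e') * (i0 * s + m * κ) := by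
    rw [← hΨ, hD]; ring
  have h3rd : ∀ p : ℕ, p.Prime → (p : ℤ) ∣ 2 * (1 + c) → ¬ (p : ℤ) ∣
      f' + 1 + 2 * (i0 * s + m * κ) + (w0 * s + D' * κ + (i0 * s + m * κ)) * e' := by
    intro p hp h1 h2
    have hpP := hPm p hp (Or.inl h1)
    have hpi := Nat.prime_iff_prime_int.1 hp
    refine hs3 p hpP (ha p hpP s (Or.inl ⟨h1, ?_⟩))
    rw [hΦ] at h2
    have h3 : (p : ℤ) ∣ (1 + c) * (1 + e') := by
      rcases hpi.dvd_or_dvd h1 with h | h
      · have h4 : p ∣ 2 := by exact_mod_cast h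
        have h5 := (Nat.prime_dvd_prime_iff_eq hp Nat.prime_two).1 h4
        subst h5
        have : ((2 : ℕ) : ℤ) ∣ 1 + e' := by push_cast; omega
        exact this.mul_left _
      · exact h.mul_right _
    have h4 := dvd_sub h2 (h3.mul_right (i0 * s + m * κ))
    rwa [add_sub_cancel_right] at h4
  refine ⟨i0 * s + m * κ, w0 * s + D' * κ, ?_, ?_, h3rd, ?_⟩
  · rw [hΨ]; exact hlow
  · rw [hΨ]; exact hup
  · intro p hp h1 h2 h3
    have hpi := Nat.prime_iff_prime_int.1 hp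
    by_cases h4 : (p : ℤ) ∣ 2 * (1 + c)
    · have h6 : (p : ℤ) ∣ 1 + c := by
        rcases hpi.dvd_or_dvd h4 with h | h
        · exfalso
          have h5 : p ∣ 2 := by exact_mod_cast h
          have h6 := (Nat.prime_dvd_prime_iff_eq hp Nat.prime_two).1 h5
          subst h6
          exact hodd (by exact_mod_cast h2)
        · exact h
      have h7 : (p : ℤ) ∣ f * (f' + 1 + 2 * (i0 * s + m * κ) +
          (w0 * s + D' * κ + (i0 * s + m * κ)) * e') := by
        have := dvd_sub h4 h3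
        rwa [sub_sub_cancel] at this
      have h8 := (hpi.dvd_or_dvd h7).resolve_right (h3rd p hp h4)
      have h9 := dvd_sub h6 (hZ p hp h1 h2 h8)
      rw [add_sub_cancel_right] at h9
      exact prime_not_dvd_one hp h9
    · by_cases h5 : (p : ℤ) ∣ m
      · have hpP := hPm p hp (Or.inr h5)
        refine hs3 p hpP (ha p hpP s (Or.inr ⟨h4, ?_⟩))
        have e1 : 2 * (1 + c) - f * (f' + 1 + 2 * (i0 * s)) =
            2 * (1 + c) - f * (f' + 1 + 2 * (i0 * s + m * κ) +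
              (w0 * s + D' * κ + (i0 * s + m * κ)) * e') +
            (m * (2 * κ * f) + e' * (f * (w0 * s + D' * κ + (i0 * s + m * κ)))) := by ring
        rw [e1]
        exact dvd_add h3 (dvd_add (h5.mul_right _) (h2.mul_right _))
      · refine hκ p hp h1 h2 h5 h4 ?_
        have e1 : 2 * (1 + c) - f * (f' + 1 + 2 * (i0 * s + m * κ)) =
            2 * (1 + c) - f * (f' + 1 + 2 * (i0 * s + m * κ) +
              (w0 * s + D' * κ + (i0 * s + m * κ)) * e') +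
            e' * (f * (w0 * s + D' * κ + (i0 * s + m * κ))) := by ring
        rw [e1]
        exact dvd_add h3 (h2.mul_right _)

/-- the exceptional window `c = 4`, `e' = 3` -/
theorem sieve_43 (f f' : ℤ) :
    ∃ i w : ℤ, 1 + 4 < f' + 1 + w * 3 - i * (4 * 3 + 4 - 1) ∧
      f' + 1 + w * 3 - i * (4 * 3 + 4 - 1) < (1 + 4) * 3 ∧
      (∀ p : ℕ, p.Prime → (p : ℤ) ∣ 2 * (1 + 4) → ¬ (p : ℤ) ∣ f' + 1 + 2 * i + (w + i) * 3) ∧
      (∀ p : ℕ, p.Prime → (p : ℤ) ∣ 3 →
        ¬ (p : ℤ) ∣ 2 * (1 + 4) - f * (f' + 1 + 2 * i + (w + i) * 3)) := by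
  obtain ⟨Ψ, hΨ, h3⟩ : ∃ Ψ : ℤ, (Ψ = 7 ∨ Ψ = 9 ∨ Ψ = 11) ∧ (3 : ℤ) ∣ Ψ - (f' + 1) := by
    rcases (show f' % 3 = 0 ∨ f' % 3 = 1 ∨ f' % 3 = 2 by omega) with h | h | h
    · exact ⟨7, Or.inl rfl, by omega⟩
    · exact ⟨11, by simp, by omega⟩
    · exact ⟨9, by simp, by omega⟩
  obtain ⟨q, hq⟩ := h3
  obtain ⟨i, hi⟩ : ∃ i : ℤ, ¬ (3 : ℤ) ∣ 2 * (1 + 4) - f * (Ψ + 20 * i) := by
    by_contra hcon
    push Not at hcon
    have h0 := hcon 0
    have h1 := hcon 1
    have h2 : (3 : ℤ) ∣ f * 20 := by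
      have := dvd_sub h0 h1
      have e1 : 2 * (1 + 4) - f * (Ψ + 20 * 0) - (2 * (1 + 4) - f * (Ψ + 20 * 1)) = f * 20 := by
        ring
      rwa [e1] at this
    have h3 : (3 : ℤ) ∣ f := by omega
    obtain ⟨f1, rfl⟩ := h3
    have e1 : 2 * (1 + 4) - 3 * f1 * (Ψ + 20 * 0) = 10 - 3 * (f1 * Ψ) := by ring
    rw [e1] at h0
    omega
  have e1 : f' + 1 + (q + 5 * i) * 3 - i * (4 * 3 + 4 - 1) = Ψ := by linarith
  have e2 : f' + 1 + 2 * i + (q + 5 * i + i) * 3 = Ψ + 20 * i := by linarith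
  refine ⟨i, q + 5 * i, ?_, ?_, ?_, ?_⟩
  · rw [e1]; omega
  · rw [e1]; omega
  · intro p hp h1
    rw [e2]
    have h4 : p ∣ 10 := by
      have : (p : ℤ) ∣ 10 := by simpa using h1
      exact_mod_cast this
    have h5 : p ≤ 10 := Nat.le_of_dvd (by norm_num) h4
    have h6 : p = 2 ∨ p = 5 := by
      interval_cases p <;> first | omega | (exfalso; revert hp; norm_num)
    rcases h6 with rfl | rfl <;> push_cast <;> omega
  · intro p hp h1
    rw [e2]
    have h4 : p ∣ 3 := by exact_mod_cast h1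
    have h5 := (Nat.prime_dvd_prime_iff_eq hp Nat.prime_three).1 h4
    subst h5
    exact_mod_cast hi

theorem sieve_all {e f c e' f' : ℤ} (he : 0 < e) (hc : 2 ≤ c) (he3 : 3 ≤ e')
    (hodd : ¬ (2 : ℤ) ∣ e')
    (hZ : ∀ p : ℕ, p.Prime → (p : ℤ) ∣ e → (p : ℤ) ∣ e' → (p : ℤ) ∣ f → (p : ℤ) ∣ c) :
    ∃ i w : ℤ, 1 + c < f' + 1 + w * e' - i * (c * e' + c - 1) ∧
      f' + 1 + w * e' - i * (c * e' + c - 1) < (1 + c) * e' ∧
      (∀ p : ℕ, p.Prime → (p : ℤ) ∣ 2 * (1 + c) → ¬ (p : ℤ) ∣ f' + 1 + 2 * i + (w + i) * e') ∧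
      (∀ p : ℕ, p.Prime → (p : ℤ) ∣ e → (p : ℤ) ∣ e' →
        ¬ (p : ℤ) ∣ 2 * (1 + c) - f * (f' + 1 + 2 * i + (w + i) * e')) := by
  by_cases hex : c = 4 ∧ e' = 3
  · obtain ⟨rfl, rfl⟩ := hex
    obtain ⟨i, w, h1, h2, h3, h4⟩ := sieve_43 f f'
    exact ⟨i, w, h1, h2, h3, fun p hp _ => h4 p hp⟩
  · exact sieve_main he hc he3 hodd hex hZ

/-- THE SIEVE of step C with the V-twists `j = 2 e' j'`: an exit with `b^ = 1` -/
theorem sieve_one {e f c e' f' : ℤ} (he : 0 < e) (hc : 2 ≤ c) (he3 : 3 ≤ e')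
    (hodd : ¬ (2 : ℤ) ∣ e') (hpar : ¬ ((2 : ℤ) ∣ e ∧ (2 : ℤ) ∣ f))
    (hZ : ∀ p : ℕ, p.Prime → (p : ℤ) ∣ e → (p : ℤ) ∣ e' → (p : ℤ) ∣ f → (p : ℤ) ∣ c) :
    ∃ i w j : ℤ, 1 + c < f' + 1 + w * e' - i * (c * e' + c - 1) ∧
      f' + 1 + w * e' - i * (c * e' + c - 1) < (1 + c) * e' ∧
      Int.gcd (e * (f' + 1 + 2 * i + (w + i) * e')) (2 * (1 + c) -
        (f + 2 * e' * j * (2 * e + 1)) * (f' + 1 + 2 * i + (w + i) * e')) = 1 := by
  obtain ⟨i, w, h1, h2, h3, h4⟩ := sieve_all (f' := f') he hc he3 hodd hZ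
  set Φ := f' + 1 + 2 * i + (w + i) * e' with hΦ
  obtain ⟨j, hj⟩ := crt_exists e he.ne' (fun p j => ¬ (p : ℤ) ∣ 2 * e' → ¬ (p : ℤ) ∣ Φ →
      ¬ (p : ℤ) ∣ 2 * (1 + c) - (f + 2 * e' * j * (2 * e + 1)) * Φ)
    (by
      intro p hp hpe
      have hpi := Nat.prime_iff_prime_int.1 hp
      by_cases h5 : (p : ℤ) ∣ 2 * e'
      · exact ⟨0, fun h => absurd h5 h⟩
      by_cases h6 : (p : ℤ) ∣ Φ
      · exact ⟨0, fun _ h => absurd h6 h⟩
      · have hR : ¬ (p : ℤ) ∣ -(2 * e' * (2 * e + 1) * Φ) := by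
          intro h7
          rw [dvd_neg] at h7
          rcases hpi.dvd_or_dvd h7 with h7 | h7
          · rcases hpi.dvd_or_dvd h7 with h8 | h8
            · exact h5 h8
            · have h9 := dvd_sub h8 (hpe.mul_left 2)
              rw [add_sub_cancel_left] at h9
              exact prime_not_dvd_one hp h9
          · exact h6 h7
        obtain ⟨j, hj⟩ := avoid_class hp hR (2 * (1 + c) - f * Φ)
        refine ⟨j, fun _ _ h => hj ?_⟩
        have e1 : 2 * (1 + c) - f * Φ + -(2 * e' * (2 * e + 1) * Φ) * j =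
            2 * (1 + c) - (f + 2 * e' * j * (2 * e + 1)) * Φ := by ring
        rw [e1]; exact h)
    (by
      intro p hp _ j j' h5 h6 h7 h8 h9
      apply h6 h7 h8
      have e1 : 2 * (1 + c) - (f + 2 * e' * j * (2 * e + 1)) * Φ =
          2 * (1 + c) - (f + 2 * e' * j' * (2 * e + 1)) * Φ +
            (j' - j) * (2 * e' * (2 * e + 1) * Φ) := by ring
      rw [e1]
      exact dvd_add h9 (h5.mul_right _))
  refine ⟨i, w, j, h1, h2, ?_⟩
  rw [← hΦ]
  by_contra hne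
  obtain ⟨p, hp, hpd⟩ := Nat.exists_prime_and_dvd hne
  have hpi := Nat.prime_iff_prime_int.1 hp
  have hd : (p : ℤ) ∣ (Int.gcd (e * Φ) (2 * (1 + c) -
      (f + 2 * e' * j * (2 * e + 1)) * Φ) : ℤ) := by exact_mod_cast hpd
  have hd1 := hd.trans (Int.gcd_dvd_left _ _)
  have hd2 := hd.trans (Int.gcd_dvd_right _ _)
  by_cases h5 : (p : ℤ) ∣ Φ
  · refine h3 p hp ?_ h5
    have := dvd_add hd2 (h5.mul_left (f + 2 * e' * j * (2 * e + 1)))
    rwa [sub_add_cancel] at this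
  have h6 : (p : ℤ) ∣ e := (hpi.dvd_or_dvd hd1).resolve_right h5
  by_cases hp2 : p = 2
  · subst hp2
    apply hpar
    refine ⟨by exact_mod_cast h6, ?_⟩
    have h7 : ((2 : ℕ) : ℤ) ∣ f * Φ := by
      have e1 : f * Φ = 2 * (1 + c - e' * j * (2 * e + 1) * Φ) -
          (2 * (1 + c) - (f + 2 * e' * j * (2 * e + 1)) * Φ) := by ring
      rw [e1]
      exact dvd_sub (Dvd.intro _ rfl) hd2
    exact_mod_cast (hpi.dvd_or_dvd h7).resolve_right h5
  by_cases h7 : (p : ℤ) ∣ e'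
  · refine h4 p hp h6 h7 ?_
    have e1 : 2 * (1 + c) - f * Φ = 2 * (1 + c) - (f + 2 * e' * j * (2 * e + 1)) * Φ +
        e' * (2 * j * (2 * e + 1) * Φ) := by ring
    rw [e1]
    exact dvd_add hd2 (h7.mul_right _)
  · refine hj p hp h6 ?_ h5 hd2
    intro h8
    rcases hpi.dvd_or_dvd h8 with h8 | h8
    · apply hp2
      have h9 : p ∣ 2 := by exact_mod_cast h8
      exact (Nat.prime_dvd_prime_iff_eq hp Nat.prime_two).1 h9
    · exact h7 h8

end Pool.Agent.H4G
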