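import Pool.Agent.H4G.Arith.F2
import Pool.Agent.H4G.Arith.StepCNum

/-!
# Step C: the states with `A = 1`, gap `2` in a class of least gap `2` (helper81)
-/

set_option autoImplicit false

namespace Pool.Agent.H4G

theorem Nums.one {b e f b' e' f' a a' k1 k2 k3 k4 : ℤ}
    (h : Nums 1 b e f b' e' f' a a' k1 k2 k3 k4) :
    a = e * b ∧ a' = e' * b' ∧ k1 = e * e' ∧ k2 = e * f' ∧ k3 = e' * f ∧
      k4 = f * f' - b * b' := by
  have h1 := h.ra
  have h2 := h.ra'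
  have h3 := h.r1
  have h4 := h.r2
  have h5 := h.r3
  have h6 := h.r4
  rw [mul_one] at *
  exact ⟨h1, h2, h3, h4, h5, h6⟩

/-- all right exits of the first level, `A = 1` -/
theorem Ext.exitPsi {S T : PSt} {β b0 : ℤ} (h : Ext S β b0) (hST : SEq S T) {l p l' p' : Z2}
    (ad : Ad T l p l' p') (hA : cr T.u T.v = 1) {i w : ℤ}
    (h1 : 1 + cr T.u p' < cr p' T.v + 1 + w * cr l' T.v -
      i * (cr T.u p' * cr l' T.v + cr T.u p' - 1))
    (h2 : cr p' T.v + 1 + w * cr l' T.v - i * (cr T.u p' * cr l' T.v + cr T.u p' - 1) <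
      (1 + cr T.u p') * cr l' T.v) :
    β ≤ Int.gcd (cr T.u l * (cr p' T.v + 1 + 2 * i + (w + i) * cr l' T.v))
      (cr p T.v * (1 + cr T.u p') -
        cr T.u p * (cr p' T.v + 1 + 2 * i + (w + i) * cr l' T.v)) := by
  have hn := ad.nums
  rw [hA] at hn
  obtain ⟨n1, n2, n3, n4, n5, n6⟩ := hn.one
  have hc := ad.h6
  have he := ad.h5
  by_cases hcase : cr p' T.v + 1 + w * cr l' T.v -
      i * (cr T.u p' * cr l' T.v + cr T.u p' - 1) ≤ 1 + cr T.u p' * cr l' T.v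
  · have := h.rexitZ hST ad (by rw [hA]; omega) (n := 1) (i := i) (o := 1) (t := w)
      (by norm_num) (Or.inl rfl) isCoprime_one_right (by rw [hA, n2]; linarith)
      (by rw [hA, n2]; linarith)
    have e1 : (1 + i * (1 + 1)) * cr T.u l + (w + i) * cr l' l + 1 * cr p' l =
        cr T.u l * (cr p' T.v + 1 + 2 * i + (w + i) * cr l' T.v) := by
      rw [n3, n4]; ring
    have e2 : cr p T.v - (1 + i * (1 + 1)) * cr T.u p - (w + i) * cr l' p - 1 * cr p' p =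
        cr p T.v * (1 + cr T.u p') -
          cr T.u p * (cr p' T.v + 1 + 2 * i + (w + i) * cr l' T.v) := by
      rw [n5, n6]; ring
    rwa [e1, e2] at this
  · push Not at hcase
    have h3 : 0 ≤ (cr T.u p' - 1) * (cr l' T.v - 1) :=
      mul_nonneg (by omega) (by omega)
    have := h.rexitZ hST ad (by rw [hA]; omega) (n := 1) (i := i + 1) (o := -1) (t := w - 1)
      (by norm_num) (Or.inr rfl) isCoprime_one_right (by rw [hA, n2]; linarith)
      (by rw [hA, n2]; linarith)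
    have e1 : (-1 + (i + 1) * (1 + 1)) * cr T.u l + (w - 1 + (i + 1)) * cr l' l + 1 * cr p' l =
        cr T.u l * (cr p' T.v + 1 + 2 * i + (w + i) * cr l' T.v) := by
      rw [n3, n4]; ring
    have e2 : cr p T.v - (-1 + (i + 1) * (1 + 1)) * cr T.u p - (w - 1 + (i + 1)) * cr l' p -
        1 * cr p' p = cr p T.v * (1 + cr T.u p') -
          cr T.u p * (cr p' T.v + 1 + 2 * i + (w + i) * cr l' T.v) := by
      rw [n5, n6]; ring
    rwa [e1, e2] at this

/-- the states considered in step C -/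
structure StC (S T : PSt) : Prop where
  seq : SEq S T
  A : cr T.u T.v = 1
  b : IsC T.L T.v 2
  par : ∃ w ∈ T.L, ¬ (2 : ℤ) ∣ cr T.u w

theorem StC.par' {S T : PSt} (h : StC S T) {l p l' p' : Z2} (ad : Ad T l p l' p') :
    ¬ ((2 : ℤ) ∣ cr T.u l ∧ (2 : ℤ) ∣ cr T.u p) := by
  rintro ⟨h1, h2⟩
  obtain ⟨w, hw, h3⟩ := h.par
  rw [ad.hL] at hw
  obtain ⟨m, n, rfl⟩ := mem_lat.1 hw
  apply h3
  rw [cr_add_right, cr_smul_right, cr_smul_right]
  exact dvd_add (h1.mul_left _) (h2.mul_left _)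

theorem StC.mk' {S T : PSt} (h1 : SEq S T) (h2 : cr T.u T.v = 1) (h3 : IsC T.L T.v 2)
    {l p l' p' : Z2} (ad : Ad T l p l' p')
    (h4 : ¬ ((2 : ℤ) ∣ cr T.u l ∧ (2 : ℤ) ∣ cr T.u p)) : StC S T := by
  refine ⟨h1, h2, h3, ?_⟩
  by_contra hcon
  push Not at hcon
  apply h4
  have e1 : l ∈ T.L := by rw [ad.hL]; exact mem_lat.2 ⟨1, 0, by module⟩
  have e2 : p ∈ T.L := by rw [ad.hL]; exact mem_lat.2 ⟨0, 1, by module⟩
  exact ⟨hcon l e1, hcon p e2⟩

/-- H-rigidity: `e'` is odd -/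
theorem StC.odd {S T : PSt} {b0 : ℤ} (h : Ext S 2 b0) (hT : StC S T) {l p l' p' : Z2}
    (ad : Ad T l p l' p') : ¬ (2 : ℤ) ∣ cr l' T.v := by
  intro h0
  have hn := ad.nums
  rw [hT.A] at hn
  obtain ⟨n1, n2, n3, n4, n5, n6⟩ := hn.one
  have hc := ad.h6
  obtain ⟨h1, h2⟩ := h.hrig hT.seq hT.b ad (by rw [hT.A]; omega)
  apply hT.par' ad
  rw [cr_add_left, n3] at h1
  rw [cr_add_left, n5] at h2
  constructor
  · have := dvd_sub h1 ((h0.mul_left (cr T.u l)))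
    rwa [add_sub_cancel_right] at this
  · have := dvd_sub h2 (h0.mul_right (cr T.u p))
    rwa [add_sub_cancel_right] at this

theorem StC.p2 {S T : PSt} (hT : StC S T) {l p l' p' : Z2} (ad : Ad T l p l' p') :
    cr p T.v = 2 := ad.isC.unique hT.b

/-- V-moves -/
theorem StC.V {S T : PSt} (hT : StC S T) {l p l' p' : Z2} (ad : Ad T l p l' p') (j : ℤ)
    (hj : (2 : ℤ) ∣ j ∨ ¬ (2 : ℤ) ∣ cr T.u l) :
    ∃ T1 : PSt, ∃ l1' p1' : Z2, StC S T1 ∧ Ad T1 l (p - j • T.v) l1' p1' ∧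
      T1.L = lat l (p - j • T.v) ∧ T1.u = T.u - j • (T.v + l) ∧ T1.v = T.v ∧ T1.L' = T.L' ∧
      cr T1.u l = cr T.u l ∧ cr T1.u (p - j • T.v) = cr T.u p + j * (2 * cr T.u l + 1) ∧
      IsC T1.L' T1.u (Int.gcd (j * ((1 + cr T.u l) * cr l' T.v))
        (cr T.u p' + j * ((1 + cr T.u l) * cr p' T.v)) : ℕ) := by
  have hn := ad.nums
  have hb2 := hT.p2 ad
  rw [hT.A, hb2] at hn
  obtain ⟨n1, n2, n3, n4, n5, n6⟩ := hn.one
  have k1 := ad.twV hT.seq.ok' (by rw [hb2, hT.A]; norm_num) j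
  set T1 : PSt := ⟨lat l (p - j • T.v), T.u - j • (T.v + l), T.v, T.L'⟩ with hT1
  have k2 : IsC T1.L T1.v 2 := by
    have : cr (p - j • T.v) T.v = 2 := by rw [cr_sub_left, cr_smul_left, cr_self, hb2]; ring
    rw [← this]
    exact isC_of_par ad.h1 (by rw [this]; norm_num)
  have e3 : cr T1.u T1.v = 1 := by
    simp only [hT1]
    rw [cr_sub_left, cr_smul_left, cr_add_left, cr_self, ad.h1, hT.A]; ring
  obtain ⟨l1, p1, l1', p1', ad1⟩ := exists_Ad k1.ok'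
  have e4 : cr T1.u l = cr T.u l := by
    simp only [hT1]
    rw [cr_sub_left, cr_smul_left, cr_add_left, cr_self, cr_swap T.v l, ad.h1]; ring
  have e5 : cr (p - j • T.v) T1.v = 2 := by
    simp only [hT1]
    rw [cr_sub_left, cr_smul_left, cr_self, hb2]; ring
  have ad2 : Ad T1 l (p - j • T.v) l1' p1' :=
    ⟨rfl, ad1.hL', ad.h1, by rw [e4]; exact ad.h2, by rw [e5]; norm_num, ad1.h4, ad1.h5, ad1.h6,
      ad1.hA⟩
  have e11 : cr T1.u (p - j • T.v) = cr T.u p + j * (2 * cr T.u l + 1) := by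
    simp only [hT1]
    simp only [cr_sub_left, cr_sub_right, cr_smul_left, cr_smul_right, cr_add_left, cr_self]
    rw [cr_swap T.v p, hb2, cr_swap l p, ad.h1, n1, hT.A]; ring
  have m3 : IsC T1.L' T1.u (Int.gcd (j * ((1 + cr T.u l) * cr l' T.v))
        (cr T.u p' + j * ((1 + cr T.u l) * cr p' T.v)) : ℕ) := by
    have m2 := isC_lat (x := l') (y := p') (u := T1.u)
    have n1' : cr T1.u l' = j * ((1 + cr T.u l) * cr l' T.v) := by
      simp only [hT1]
      rw [cr_sub_left, cr_smul_left, cr_add_left, ad.h4, cr_swap T.v l', cr_swap l l', n3]; ring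
    have n2' : cr T1.u p' = cr T.u p' + j * ((1 + cr T.u l) * cr p' T.v) := by
      simp only [hT1]
      rw [cr_sub_left, cr_smul_left, cr_add_left, cr_swap T.v p', cr_swap l p', n4]; ring
    rw [n1', n2'] at m2
    have m3 := m2 (by
      rcases eq_or_ne j 0 with h0 | h0
      · right
        rw [h0]
        have := ad.h6
        simp only [zero_mul, add_zero]
        omega
      · left
        have h5 := ad.h5
        have h2 := ad.h2
        exact mul_ne_zero h0 (mul_pos (by omega) h5).ne')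
    rw [← ad.hL'] at m3
    exact m3
  refine ⟨T1, l1', p1', StC.mk' (hT.seq.trans k1) e3 k2 ad2 ?_, ad2, rfl, rfl, rfl, rfl, e4, e11,
    m3⟩
  rintro ⟨h1, h2⟩
  rw [e4] at h1
  rw [e11] at h2
  apply hT.par' ad
  refine ⟨h1, ?_⟩
  rcases hj with hj | hj
  · have := dvd_sub h2 (hj.mul_right (2 * cr T.u l + 1))
    rwa [add_sub_cancel_right] at this
  · exact absurd h1 hj

/-- the frame of step C: `c` minimal, then `gcd (L × u)` minimal -/
structure FrC (S T : PSt) (c g : ℤ) : Prop where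
  st : StC S T
  hc : IsC T.L' T.u c
  hg : IsC T.L T.u g
  minc : ∀ (T1 : PSt) (d : ℤ), StC S T1 → IsC T1.L' T1.u d → c ≤ d
  ming : ∀ (T1 : PSt) (d : ℤ), StC S T1 → IsC T1.L' T1.u c → IsC T1.L T1.u d → g ≤ d

theorem isC_Lu {T : PSt} {l p l' p' : Z2} (ad : Ad T l p l' p') :
    IsC T.L T.u (Int.gcd (cr T.u l) (cr T.u p) : ℕ) := by
  have := isC_lat (x := l) (y := p) (u := T.u) (Or.inl ad.h2.ne')
  rwa [← ad.hL] at this

theorem exists_FrC {S T0 : PSt} (h0 : StC S T0) : ∃ (T : PSt) (c g : ℤ), FrC S T c g := by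
  obtain ⟨c, ⟨T1, k1, k2⟩, hmin⟩ := exists_min_int
    (P := fun c => ∃ T : PSt, StC S T ∧ IsC T.L' T.u c) (fun c ⟨T, _, h⟩ => h.1) (by
      obtain ⟨l, p, l', p', ad⟩ := exists_Ad h0.seq.ok'
      exact ⟨_, T0, h0, ad.isC'⟩)
  obtain ⟨g, ⟨T, m1, m2, m3⟩, hmin'⟩ := exists_min_int
    (P := fun g => ∃ T : PSt, StC S T ∧ IsC T.L' T.u c ∧ IsC T.L T.u g)
    (fun c ⟨T, _, _, h⟩ => h.1) (by
      obtain ⟨l, p, l', p', ad⟩ := exists_Ad k1.seq.ok'
      exact ⟨_, T1, k1, k2, isC_Lu ad⟩)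
  exact ⟨T, c, g, m1, m2, m3, fun T1 d h1 h2 => hmin d ⟨T1, h1, h2⟩,
    fun T1 d h1 h2 h3 => hmin' d ⟨T1, h1, h2, h3⟩⟩

/-- V-rigidity -/
theorem FrC.vrig {S T : PSt} {c g : ℤ} (h : FrC S T c g) {l p l' p' : Z2}
    (ad : Ad T l p l' p') :
    c ∣ 2 * ((1 + cr T.u l) * cr l' T.v) ∧ c ∣ 2 * ((1 + cr T.u l) * cr p' T.v) ∧
    (¬ (2 : ℤ) ∣ cr T.u l → c ∣ (1 + cr T.u l) * cr l' T.v ∧ c ∣ (1 + cr T.u l) * cr p' T.v) := by
  have hc : cr T.u p' = c := ad.isC'.unique h.hc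
  have hc0 := h.hc.1
  have h2 := ad.h2
  have h5 := ad.h5
  have hB : 0 < (1 + cr T.u l) * cr l' T.v := mul_pos (by omega) h5
  have key : c ∣ 2 * ((1 + cr T.u l) * cr l' T.v) ∧ c ∣ -(2 * ((1 + cr T.u l) * cr p' T.v)) := by
    refine crt_min hc0 (by omega) fun j => ?_
    obtain ⟨T1, l1', p1', k1, k2, _, _, _, _, _, _, k3⟩ := h.st.V ad (2 * j) (Or.inl ⟨j, rfl⟩)
    have := h.minc T1 _ k1 k3
    rw [hc] at this
    have e1 : 2 * j * ((1 + cr T.u l) * cr l' T.v) = j * (2 * ((1 + cr T.u l) * cr l' T.v)) := by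
      ring
    have e2 : c + 2 * j * ((1 + cr T.u l) * cr p' T.v) =
        c - j * -(2 * ((1 + cr T.u l) * cr p' T.v)) := by ring
    rwa [e1, e2] at this
  refine ⟨key.1, (dvd_neg).1 key.2, fun hodd => ?_⟩
  have key2 : c ∣ (1 + cr T.u l) * cr l' T.v ∧ c ∣ -((1 + cr T.u l) * cr p' T.v) := by
    refine crt_min hc0 (by omega) fun j => ?_
    obtain ⟨T1, l1', p1', k1, k2, _, _, _, _, _, _, k3⟩ := h.st.V ad j (Or.inr hodd)
    have := h.minc T1 _ k1 k3
    rw [hc] at this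
    have e2 : c + j * ((1 + cr T.u l) * cr p' T.v) =
        c - j * -((1 + cr T.u l) * cr p' T.v) := by ring
    rwa [e2] at this
  exact ⟨key2.1, (dvd_neg).1 key2.2⟩

/-- no prime divides `e`, `e'`, `f` and not `c` -/
theorem FrC.noZ {S T : PSt} {c g : ℤ} (h : FrC S T c g) {l p l' p' : Z2}
    (ad : Ad T l p l' p') (hodd : ¬ (2 : ℤ) ∣ cr l' T.v) {q : ℕ} (hq : q.Prime)
    (h1 : (q : ℤ) ∣ cr T.u l) (h2 : (q : ℤ) ∣ cr l' T.v) (h3 : (q : ℤ) ∣ cr T.u p) :
    (q : ℤ) ∣ c := by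
  by_contra hqc
  have hqi := Nat.prime_iff_prime_int.1 hq
  have hc : cr T.u p' = c := ad.isC'.unique h.hc
  have hg : ((Int.gcd (cr T.u l) (cr T.u p) : ℕ) : ℤ) = g := (isC_Lu ad).unique h.hg
  have hc0 := h.hc.1
  have he := ad.h2
  have he' := ad.h5
  have hq2 : ¬ (q : ℤ) ∣ 2 := by
    intro h4
    have h5 : q ∣ 2 := by exact_mod_cast h4
    have h6 := (Nat.prime_dvd_prime_iff_eq hq Nat.prime_two).1 h5
    subst h6
    exact hodd (by exact_mod_cast h2)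
  set e := cr T.u l with hed
  set e' := cr l' T.v with hed'
  set f' := cr p' T.v with hfd'
  set f := cr T.u p with hfd
  have hB : 0 < (1 + e) * e' := mul_pos (by omega) he'
  have hx : ((1 + e) * e') * e ≠ 0 := (mul_pos hB he).ne'
  obtain ⟨r, y, hy, hqy⟩ := exists_pow_mul hq hx
  -- the sign
  obtain ⟨σ, hσ, hσ2⟩ : ∃ σ : ℤ, (σ = 1 ∨ σ = -1) ∧
      ¬ (q : ℤ) ∣ 1 + 2 * σ * y * ((1 + e) * f') := by
    by_contra hcon
    push Not at hcon
    have h4 := hcon 1 (Or.inl rfl)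
    have h5 := hcon (-1) (Or.inr rfl)
    have h6 := dvd_add h4 h5
    have e1 : 1 + 2 * 1 * y * ((1 + e) * f') + (1 + 2 * -1 * y * ((1 + e) * f')) = 2 := by ring
    rw [e1] at h6
    exact hq2 h6
  have hσq : ¬ (q : ℤ) ∣ σ := by
    intro h4
    apply prime_not_dvd_one hq
    rcases hσ with h5 | h5
    · rwa [h5] at h4
    · rw [h5] at h4; exact (dvd_neg).1 h4
  set j : ℤ := 2 * (c * (σ * y)) with hj
  obtain ⟨T1, l1', p1', k1, k2, _, _, _, _, k3, k4, k5⟩ := h.st.V ad j (Or.inl ⟨_, hj⟩)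
  rw [hc, ← hed, ← hed', ← hfd'] at k5
  -- the right gap does not change
  have e1 : j * ((1 + e) * e') = c * (2 * σ * y * ((1 + e) * e')) := by rw [hj]; ring
  have e2 : c + j * ((1 + e) * f') = c * (1 + 2 * σ * y * ((1 + e) * f')) := by rw [hj]; ring
  have hone : Int.gcd (2 * σ * y * ((1 + e) * e')) (1 + 2 * σ * y * ((1 + e) * f')) = 1 := by
    by_contra hne
    obtain ⟨s, hs, hsd⟩ := Nat.exists_prime_and_dvd hne
    have hsi := Nat.prime_iff_prime_int.1 hs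
    have hd : (s : ℤ) ∣ (Int.gcd (2 * σ * y * ((1 + e) * e'))
      (1 + 2 * σ * y * ((1 + e) * f')) : ℤ) := by exact_mod_cast hsd
    have hd1 := hd.trans (Int.gcd_dvd_left _ _)
    have hd2 := hd.trans (Int.gcd_dvd_right _ _)
    have hs1 : ¬ (s : ℤ) ∣ 2 * σ * y := by
      intro h4
      have := dvd_sub hd2 (h4.mul_right ((1 + e) * f'))
      rw [add_sub_cancel_right] at this
      exact prime_not_dvd_one hs this
    have hs2 := (hsi.dvd_or_dvd hd1).resolve_left hs1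
    have hs3 : (s : ℤ) ∣ (q : ℤ) ^ r * y := by rw [← hy]; exact hs2.mul_right _
    have hs4 : ¬ (s : ℤ) ∣ y := fun h4 => hs1 (h4.mul_left _)
    have hs5 : (s : ℤ) ∣ (q : ℤ) := hsi.dvd_of_dvd_pow ((hsi.dvd_or_dvd hs3).resolve_right hs4)
    have hs6 : s ∣ q := by exact_mod_cast hs5
    have hs7 := (Nat.prime_dvd_prime_iff_eq hs hq).1 hs6
    subst hs7
    exact hσ2 hd2
  have k6 : IsC T1.L' T1.u c := by
    have e3 : ((Int.gcd (j * ((1 + e) * e')) (c + j * ((1 + e) * f')) : ℕ) : ℤ) = c := by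
      rw [e1, e2, Int.gcd_mul_left, hone, mul_one, Int.natCast_natAbs, abs_of_pos hc0]
    rw [e3] at k5
    exact k5
  -- the gcd on the left gets smaller
  have k7 := isC_Lu k2
  rw [k3, k4] at k7
  have k8 := h.ming T1 _ k1 k6 k7
  set G : ℕ := Int.gcd e (f + j * (2 * e + 1)) with hG
  have hG1 : (G : ℤ) ∣ e := Int.gcd_dvd_left _ _
  have hG2 : (G : ℤ) ∣ f + j * (2 * e + 1) := Int.gcd_dvd_right _ _
  have hqG : ¬ (q : ℤ) ∣ G := by
    intro h4
    have h5 := dvd_sub (h4.trans hG2) h3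
    rw [add_sub_cancel_left] at h5
    rcases hqi.dvd_or_dvd h5 with h6 | h6
    · rw [hj] at h6
      rcases hqi.dvd_or_dvd h6 with h7 | h7
      · exact hq2 h7
      · rcases hqi.dvd_or_dvd h7 with h8 | h8
        · exact hqc h8
        · rcases hqi.dvd_or_dvd h8 with h9 | h9
          · exact hσq h9
          · exact hqy h9
    · have := dvd_sub h6 (h1.mul_left 2)
      rw [add_sub_cancel_left] at this
      exact prime_not_dvd_one hq this
  have hGy : (G : ℤ) ∣ y := by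
    have h4 : (G : ℤ) ∣ (q : ℤ) ^ r * y := by rw [← hy]; exact hG1.mul_left _
    exact ((isCoprime_of_not_dvd hq hqG).pow_left.symm).dvd_of_dvd_mul_left h4
  have hGf : (G : ℤ) ∣ f := by
    have h4 : (G : ℤ) ∣ j * (2 * e + 1) := by
      rw [hj]
      exact (((hGy.mul_left σ).mul_left c).mul_left 2).mul_right _
    have := dvd_sub hG2 h4
    rwa [add_sub_cancel_right] at this
  have hqG2 : (q : ℤ) * G ∣ g := by
    have hco := isCoprime_of_not_dvd hq hqG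
    rw [← hg]
    exact Int.dvd_coe_gcd (hco.mul_dvd h1 hG1) (hco.mul_dvd h3 hGf)
  have hg0 := h.hg.1
  have h9 := Int.le_of_dvd hg0 hqG2
  have hG0 : 0 < (G : ℤ) := by
    have : 0 < G := Int.gcd_pos_of_ne_zero_left _ he.ne'
    exact_mod_cast this
  have hq1 : (2 : ℤ) ≤ q := by exact_mod_cast hq.two_le
  nlinarith

end Pool.Agent.H4G
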