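import Pool.Agent.H4G.Arith.StepC

/-!
# Step C, continued: the two endgames `e' ≥ 3` and `e' = 1` (helper81)
-/

set_option autoImplicit false

namespace Pool.Agent.H4G

theorem vec_one {u v : Z2} (h : cr u v = 1) (w : Z2) : w = cr w v • u + cr u w • v := by
  have h' : u.1 * v.2 - u.2 * v.1 = 1 := h
  ext
  · simp only [cr, Prod.fst_add, Prod.smul_fst, smul_eq_mul]
    linear_combination -(w.1) * h'
  · simp only [cr, Prod.snd_add, Prod.smul_snd, smul_eq_mul]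
    linear_combination -(w.2) * h'

/-- V-moves which keep `e'`, `f'`, `c` -/
theorem FrC.step8 {S T : PSt} {c g : ℤ} (h : FrC S T c g) {l p l' p' : Z2}
    (ad : Ad T l p l' p') (j' : ℤ) :
    ∃ T1 : PSt, ∃ p1 l1' p1' : Z2, StC S T1 ∧ Ad T1 l p1 l1' p1' ∧
      cr T1.u l = cr T.u l ∧
      cr T1.u p1 = cr T.u p + 2 * cr l' T.v * j' * (2 * cr T.u l + 1) ∧
      cr l1' T1.v = cr l' T.v ∧ cr p1' T1.v = cr p' T.v ∧ cr T1.u p1' = cr T.u p' := by
  have hc : cr T.u p' = c := ad.isC'.unique h.hc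
  have hc0 := h.hc.1
  obtain ⟨⟨x1, hx1⟩, ⟨x2, hx2⟩, -⟩ := h.vrig ad
  have hA := h.st.A
  obtain ⟨T1, m1', q1', k1, k2, k3, k4, k5, k6, k7, k8, k9⟩ :=
    h.st.V ad (2 * (cr l' T.v * j')) (Or.inl ⟨_, rfl⟩)
  have vl := vec_one hA l
  have vl' := vec_one hA l'
  have vp' := vec_one hA p'
  rw [ad.h1, zero_smul, zero_add] at vl
  rw [ad.h4, zero_smul, add_zero] at vl'
  rw [hc] at vp'
  set e := cr T.u l with he
  set e' := cr l' T.v with he'
  set f' := cr p' T.v with hf'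
  have hx : x1 * f' = x2 * e' := by
    have : c * (x1 * f' - x2 * e') = 0 := by
      linear_combination -f' * hx1 + e' * hx2
    rcases mul_eq_zero.1 this with h0 | h0
    · omega
    · linarith
  have hu1 : T1.u = T.u - (2 * (e' * j') * (1 + e)) • T.v := by
    rw [k4]
    conv_lhs => rw [vl]
    module
  set l1' : Z2 := (1 + j' * x1 * f') • l' + (-(j' * x1 * e')) • p' with hl1
  set p1' : Z2 := (j' * x2 * f') • l' + (1 - j' * x2 * e') • p' with hp1
  have vl1 : l1' = e' • T.u - (j' * x1 * e' * c) • T.v := by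
    rw [hl1]
    conv_lhs => rw [vl', vp']
    module
  have vp1 : p1' = f' • T.u + (c - j' * x2 * e' * c) • T.v := by
    rw [hp1]
    conv_lhs => rw [vl', vp']
    module
  have e1 : cr T1.u l1' = 0 := by
    rw [hu1, vl1]
    simp only [cr_sub_left, cr_sub_right, cr_smul_left, cr_smul_right, cr_self]
    rw [cr_swap T.v T.u, hA]
    linear_combination e' * j' * hx1
  have e2 : cr l1' T1.v = e' := by
    rw [k5, vl1]
    simp only [cr_sub_left, cr_smul_left, cr_self]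
    rw [hA]; ring
  have e3 : cr T1.u p1' = c := by
    rw [hu1, vp1]
    simp only [cr_sub_left, cr_add_right, cr_smul_left, cr_smul_right, cr_self]
    rw [cr_swap T.v T.u, hA]
    linear_combination e' * j' * hx2
  have e4 : cr p1' T1.v = f' := by
    rw [k5, vp1]
    simp only [cr_add_left, cr_smul_left, cr_self]
    rw [hA]; ring
  have e5 : lat l1' p1' = lat l' p' := by
    refine closure_pair_eq hl1 hp1 (Or.inl ?_)
    linear_combination j' * hx
  refine ⟨T1, _, l1', p1', k1, ⟨k3, ?_, k2.h1, k2.h2, k2.h3, e1, ?_, ?_, k2.hA⟩, k7, ?_, e2, e4, ?_⟩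
  · rw [k6, e5, ad.hL']
  · rw [e2]; exact ad.h5
  · rw [e3]; exact hc0
  · rw [k8]; ring
  · rw [e3, hc]

theorem FrC.not_three {S T : PSt} {c g b0 : ℤ} (hE : Ext S 2 b0) (h : FrC S T c g)
    {l p l' p' : Z2} (ad : Ad T l p l' p') (h3 : 3 ≤ cr l' T.v) : False := by
  have hodd := h.st.odd hE ad
  have hc : cr T.u p' = c := ad.isC'.unique h.hc
  have hc2 : 2 ≤ c := hE.min2 h.st.seq h.hc
  obtain ⟨i, w, j, k1, k2, k3⟩ := sieve_one (e := cr T.u l) (f := cr T.u p) (c := c)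
    (e' := cr l' T.v) (f' := cr p' T.v) ad.h2 hc2 h3 hodd (h.st.par' ad)
    (fun q hq h1 h2 h3 => h.noZ ad hodd hq h1 h2 h3)
  obtain ⟨T1, p1, l1', p1', m1, m2, m3, m4, m5, m6, m7⟩ := h.step8 ad j
  have := hE.exitPsi m1.seq m2 m1.A (i := i) (w := w) (by rw [m5, m6, m7, hc]; exact k1)
    (by rw [m5, m6, m7, hc]; exact k2)
  rw [m3, m4, m5, m6, m7, hc, m1.p2 m2, k3] at this
  norm_num at this

theorem exists_r {e : ℤ} (he : 2 ≤ e) :
    ∃ r : ℕ, r.Prime ∧ 1 + e < r ∧ (r : ℤ) < 3 * e ∧ 3 < (r : ℤ) := by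
  rcases he.lt_or_eq with h | h
  · obtain ⟨r, h1, h2, h3⟩ := Nat.exists_prime_lt_and_le_two_mul (e + 1).toNat (by omega)
    refine ⟨r, h1, by omega, by omega, by omega⟩
  · exact ⟨5, by norm_num, by omega, by omega, by omega⟩

/-- `e' = 1`, not (`e` and `c` even) -/
theorem FrC.not_b {S T : PSt} {c g b0 : ℤ} (hE : Ext S 2 b0) (h : FrC S T c g)
    {l p l' p' : Z2} (ad : Ad T l p l' p') (h1 : cr l' T.v = 1)
    (h2 : ¬ ((2 : ℤ) ∣ cr T.u l ∧ (2 : ℤ) ∣ c)) (h3 : 2 ≤ cr T.u l) : False := by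
  have hc : cr T.u p' = c := ad.isC'.unique h.hc
  have hc2 : 2 ≤ c := hE.min2 h.st.seq h.hc
  have hb2 := h.st.p2 ad
  have hA := h.st.A
  obtain ⟨v1, v2, v3⟩ := h.vrig ad
  rw [h1, mul_one] at v1 v3
  obtain ⟨r, r1, r2, r3, r4⟩ := exists_r h3
  have m1 : SEq S ⟨T.L', T.v, -T.u, T.L⟩ :=
    h.st.seq.trans (SEq.mirror (L := T.L) (L' := T.L') (u := T.u) (v := T.v) h.st.seq.ok')
  have E1 : cr T.v (-l') = 1 := by rw [cr_neg_right, cr_swap T.v l', neg_neg, h1]
  have E2 : cr T.v p' = -cr p' T.v := cr_swap _ _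
  have E3 : cr p' (-T.u) = c := by rw [cr_neg_right, cr_swap p' T.u, neg_neg, hc]
  have E4 : cr l (-T.u) = cr T.u l := by rw [cr_neg_right, cr_swap l T.u, neg_neg]
  have E5 : cr (-p) (-T.u) = -cr T.u p := by
    rw [cr_neg_right, cr_neg_left, neg_neg]; exact cr_swap _ _
  have E6 : cr T.v (-p) = 2 := by rw [cr_neg_right, cr_swap T.v p, neg_neg, hb2]
  have E7 : cr T.v (-T.u) = 1 := by rw [cr_neg_right, cr_swap T.v T.u, neg_neg, hA]
  set e := cr T.u l with he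
  set f := cr T.u p with hf
  set f' := cr p' T.v with hf'
  have key := hE.exitPsi m1 ad.mirror (by dsimp only; exact E7) (i := 1 - f - r)
    (w := 2 * (1 - f - r)) (by dsimp only; rw [E4, E5, E6]; linarith)
    (by dsimp only; rw [E4, E5, E6]; linarith)
  dsimp only at key
  rw [E1, E2, E3, E4, E5, E6] at key
  have hne : Int.gcd (1 * (-f + 1 + 2 * (1 - f - r) + (2 * (1 - f - r) + (1 - f - r)) * e))
      (c * (1 + 2) - -f' * (-f + 1 + 2 * (1 - f - r) +
        (2 * (1 - f - r) + (1 - f - r)) * e)) ≠ 1 := by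
    intro h0
    rw [h0] at key
    norm_num at key
  obtain ⟨s, hs, hsd⟩ := Nat.exists_prime_and_dvd hne
  have hsi := Nat.prime_iff_prime_int.1 hs
  have hd : (s : ℤ) ∣ (Int.gcd (1 * (-f + 1 + 2 * (1 - f - r) +
      (2 * (1 - f - r) + (1 - f - r)) * e))
      (c * (1 + 2) - -f' * (-f + 1 + 2 * (1 - f - r) +
        (2 * (1 - f - r) + (1 - f - r)) * e)) : ℤ) := by exact_mod_cast hsd
  have hd1 := hd.trans (Int.gcd_dvd_left _ _)
  have hd2 := hd.trans (Int.gcd_dvd_right _ _)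
  rw [one_mul] at hd1
  have hφ : -f + 1 + 2 * (1 - f - r) + (2 * (1 - f - r) + (1 - f - r)) * e =
      r + 3 * ((1 - f - r) * (1 + e)) := by ring
  rw [hφ] at hd1 hd2
  have hd3 : (s : ℤ) ∣ c * 3 := by
    have := dvd_sub hd2 (hd1.mul_left f')
    have e1 : c * (1 + 2) - -f' * (r + 3 * ((1 - f - r) * (1 + e))) -
        f' * (r + 3 * ((1 - f - r) * (1 + e))) = c * 3 := by ring
    rwa [e1] at this
  have hsr : ∀ x : ℤ, (s : ℤ) ∣ x → (s : ℤ) ∣ r + x → s = r := by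
    intro x hx1 hx2
    have := dvd_sub hx2 hx1
    rw [add_sub_cancel_right] at this
    have h4 : s ∣ r := by exact_mod_cast this
    exact (Nat.prime_dvd_prime_iff_eq hs r1).1 h4
  rcases hsi.dvd_or_dvd hd3 with h4 | h4
  · by_cases hs2 : s = 2
    · subst hs2
      have he2 : ¬ (2 : ℤ) ∣ e := fun h5 => h2 ⟨h5, by exact_mod_cast h4⟩
      have h5 : (2 : ℤ) ∣ 1 + e := by omega
      have := hsr (3 * ((1 - f - r) * (1 + e)))
        (by exact_mod_cast (h5.mul_left _).mul_left _) hd1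
      omega
    · have h5 : (s : ℤ) ∣ 1 + e := by
        rcases hsi.dvd_or_dvd (h4.trans v1) with h6 | h6
        · have h7 : s ∣ 2 := by exact_mod_cast h6
          exact absurd ((Nat.prime_dvd_prime_iff_eq hs Nat.prime_two).1 h7) hs2
        · exact h6
      have h6 := hsr (3 * ((1 - f - r) * (1 + e))) ((h5.mul_left _).mul_left _) hd1
      have h7 := Int.le_of_dvd (by omega) h5
      rw [h6] at h7
      omega
  · have := hsr (3 * ((1 - f - r) * (1 + e))) (h4.mul_right _) hd1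
    have h5 := Int.le_of_dvd (by norm_num) h4
    omega

/-- `e' = 1`, `e` and `c` even: the normal form is impossible -/
theorem FrC.core_a {S T : PSt} {c g b0 : ℤ} (hE : Ext S 2 b0) (h : FrC S T c g) {e o : ℤ}
    (he0 : 0 < e) (he : (2 : ℤ) ∣ e) (ho : ¬ (2 : ℤ) ∣ o) (hco : c = 2 * o) {u v : Z2}
    (huv : cr u v = 1)
    (hS : SEq S ⟨lat (e • v) ((2 : ℤ) • u + v), u, v, lat u (c • v)⟩) : False := by
  have hc0 := h.hc.1
  have hvu : cr v u = -1 := by rw [cr_swap v u, huv]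
  -- the H-move
  have ad1 : Ad ⟨lat (e • v) ((2 : ℤ) • u + v), u, v, lat u (c • v)⟩ (e • v) ((2 : ℤ) • u + v) u
      (c • v) := by
    refine ⟨rfl, rfl, ?_, ?_, ?_, ?_, ?_, ?_, ?_⟩ <;> dsimp only <;>
      simp only [cr_add_left, cr_smul_left, cr_smul_right, cr_self, huv] <;> omega
  have k1 := ad1.twH hS.ok' (by dsimp only; rw [cr_smul_right, huv]; omega) 1
  dsimp only at k1
  obtain ⟨w, hw⟩ : ∃ w : Z2, w = v + (1 : ℤ) • (u + u) := ⟨_, rfl⟩
  rw [← hw] at k1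
  have huw : cr u w = 1 := by
    rw [hw]; simp only [cr_add_right, cr_smul_right, cr_self, huv]; ring
  have hwu : cr w u = -1 := by rw [cr_swap w u, huw]
  have q1 : lat (e • v) ((2 : ℤ) • u + v) = lat w ((2 * e) • u) := by
    symm
    refine closure_pair_eq (α := 0) (β := 1) (γ := -1) (δ := e) ?_ ?_ (Or.inl (by ring))
    · rw [hw]; module
    · module
  have q2 : lat u (c • v + (1 : ℤ) • u) = lat u (c • w) := by
    symm
    refine closure_pair_eq (α := 1) (β := 0) (γ := 2 * c - 1) (δ := 1) ?_ ?_ (Or.inl (by ring))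
    · module
    · rw [hw]; module
  rw [q2] at k1
  have k2 : SEq S ⟨lat w ((2 * e) • u), u, w, lat u (c • w)⟩ := by
    rw [← q1]; exact hS.trans k1
  -- the V-move
  have ad2 : Ad ⟨lat w ((2 * e) • u), u, w, lat u (c • w)⟩ w ((2 * e) • u) u (c • w) := by
    refine ⟨rfl, rfl, ?_, ?_, ?_, ?_, ?_, ?_, ?_⟩ <;> dsimp only <;>
      simp only [cr_smul_left, cr_smul_right, cr_self, huw] <;> omega
  have k3 := ad2.twV k2.ok' (by dsimp only; rw [cr_smul_left, huw]; omega) 1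
  dsimp only at k3
  obtain ⟨z, hz⟩ : ∃ z : Z2, z = u - (1 : ℤ) • (w + w) := ⟨_, rfl⟩
  rw [← hz] at k3
  have hzw : cr z w = 1 := by
    rw [hz]; simp only [cr_sub_left, cr_smul_left, cr_add_left, cr_self, huw]; ring
  have q3 : lat w ((2 * e) • u - (1 : ℤ) • w) = lat w ((2 * e) • z) := by
    symm
    refine closure_pair_eq (α := 1) (β := 0) (γ := 1 - 4 * e) (δ := 1) ?_ ?_ (Or.inl (by ring))
    · module
    · rw [hz]; module
  have q4 : lat u (c • w) = lat (o • z) (z + (2 : ℤ) • w) := by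
    symm
    refine closure_pair_eq (α := o) (β := -1) (γ := 1) (δ := 0) ?_ ?_ (Or.inl (by ring))
    · rw [hz, hco]; module
    · rw [hz]; module
  rw [q3] at k3
  have k4 := k2.trans k3
  rw [q4] at k4
  -- the mirror
  have k5 := k4.trans (SEq.mirror k4.ok')
  obtain ⟨V, hV⟩ : ∃ V : Z2, V = -z := ⟨_, rfl⟩
  have hzV : z = -V := by rw [hV, neg_neg]
  have hUV : cr w V = 1 := by rw [hV, cr_neg_right, cr_swap w z, neg_neg, hzw]
  have hVU : cr V w = -1 := by rw [cr_swap V w, hUV]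
  have q5 : lat (o • z) (z + (2 : ℤ) • w) = lat (o • V) ((2 : ℤ) • w - V) := by
    refine closure_pair_eq (α := -1) (β := 0) (γ := 0) (δ := 1) ?_ ?_ (Or.inr (by ring))
    · rw [hzV]; module
    · rw [hzV]; module
  have q6 : lat w ((2 * e) • z) = lat w ((2 * e) • V) := by
    refine closure_pair_eq (α := 1) (β := 0) (γ := 0) (δ := -1) ?_ ?_ (Or.inr (by ring))
    · module
    · rw [hzV]; module
  rw [← hV, q5, q6] at k5
  have ho0 : 0 < o := by omega
  have ad4 : Ad ⟨lat (o • V) ((2 : ℤ) • w - V), w, V, lat w ((2 * e) • V)⟩ (o • V)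
      ((2 : ℤ) • w - V) w ((2 * e) • V) := by
    refine ⟨rfl, rfl, ?_, ?_, ?_, ?_, ?_, ?_, ?_⟩ <;> dsimp only <;>
      simp only [cr_sub_left, cr_smul_left, cr_smul_right, cr_self, hUV] <;> omega
  have hp4 : cr ((2 : ℤ) • w - V) V = 2 := by
    simp only [cr_sub_left, cr_smul_left, cr_self, hUV]; ring
  have hC4 := ad4.isC
  dsimp only at hC4
  rw [hp4] at hC4
  have hT4 : StC S ⟨lat (o • V) ((2 : ℤ) • w - V), w, V, lat w ((2 * e) • V)⟩ := by
    refine StC.mk' k5 hUV hC4 ad4 ?_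
    dsimp only
    rw [cr_smul_right, hUV, mul_one]
    exact fun h1 => ho h1.1
  obtain ⟨T5, l5', p5', n1, n2, n3, n4, n5, n6, n7, n8, n9⟩ := hT4.V ad4 1 (Or.inr (by
    dsimp only; rw [cr_smul_right, hUV, mul_one]; exact ho))
  dsimp only at n2 n3 n4 n5 n6 n7 n8 n9
  have n10 := h.minc T5 _ n1 n9
  have f1 : cr w (o • V) = o := by rw [cr_smul_right, hUV, mul_one]
  have f2 : cr w ((2 * e) • V) = 2 * e := by rw [cr_smul_right, hUV, mul_one]
  have f3 : cr ((2 * e) • V) V = 0 := by rw [cr_smul_left, cr_self, mul_zero]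
  rw [f1, f2, f3, hUV] at n10
  have f4 : ((Int.gcd (1 * ((1 + o) * 1)) (2 * e + 1 * ((1 + o) * 0)) : ℕ) : ℤ) ≤ 1 + o := by
    refine Int.le_of_dvd (by omega) ?_
    have := Int.gcd_dvd_left (1 * ((1 + o) * 1)) (2 * e + 1 * ((1 + o) * 0))
    have e1 : 1 * ((1 + o) * 1) = 1 + o := by ring
    exact this.trans (dvd_of_eq e1)
  have ho1 : o = 1 := by omega
  subst ho1
  have f5 : T5.u = w - (2 : ℤ) • V := by rw [n4]; module
  have f6 : cr (e • w - (2 * e) • V) V = e := by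
    simp only [cr_sub_left, cr_smul_left, cr_self, hUV]; ring
  have ad5 : Ad T5 (((1 : ℤ)) • V) ((2 : ℤ) • w - V - (1 : ℤ) • V) (e • w - (2 * e) • V) w := by
    refine ⟨n3, ?_, n2.h1, n2.h2, n2.h3, ?_, ?_, ?_, n2.hA⟩
    · rw [n6]
      symm
      refine closure_pair_eq (α := e) (β := -1) (γ := 1) (δ := 0) ?_ ?_ (Or.inl (by ring))
      · module
      · module
    · rw [f5]
      simp only [cr_sub_left, cr_sub_right, cr_smul_left, cr_smul_right, cr_self, hUV, hVU]; ring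
    · rw [n5, f6]; exact he0
    · rw [f5]
      simp only [cr_sub_left, cr_smul_left, cr_self, hVU]; norm_num
  have f7 := n1.odd hE ad5
  rw [n5, f6] at f7
  exact f7 he

/-- `e' = 1`, `e` and `c` even -/
theorem FrC.not_a {S T : PSt} {c g b0 : ℤ} (hE : Ext S 2 b0) (h : FrC S T c g)
    {l p l' p' : Z2} (ad : Ad T l p l' p') (h1 : cr l' T.v = 1)
    (h2 : (2 : ℤ) ∣ cr T.u l) (h3 : (2 : ℤ) ∣ c) : False := by
  have hc : cr T.u p' = c := ad.isC'.unique h.hc
  have hc0 := h.hc.1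
  have hb2 := h.st.p2 ad
  have hA := h.st.A
  have he0 := ad.h2
  obtain ⟨v1, v2, v3⟩ := h.vrig ad
  rw [h1, mul_one] at v1
  obtain ⟨m, hm⟩ : ∃ m, cr T.u p = 2 * m + 1 := by
    have := h.st.par' ad
    have h5 : ¬ (2 : ℤ) ∣ cr T.u p := fun h6 => this ⟨h2, h6⟩
    exact ⟨(cr T.u p - 1) / 2, by omega⟩
  obtain ⟨T1, l1', p1', k1, k2, k3, k4, k5, k6, k7, k8, -⟩ :=
    h.st.V ad (2 * (-m)) (Or.inl ⟨_, rfl⟩)
  obtain ⟨o, ho⟩ := h3
  have ho2 : ¬ (2 : ℤ) ∣ o := by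
    intro h4
    have h5 : (2 : ℤ) ∣ 1 + cr T.u l := by
      have h6 : 2 * (2 : ℤ) ∣ 2 * (1 + cr T.u l) :=
        (show 2 * (2 : ℤ) ∣ c by rw [ho]; exact mul_dvd_mul_left 2 h4).trans v1
      exact (mul_dvd_mul_iff_left (by norm_num)).1 h6
    omega
  have vl := vec_one hA l
  have vl' := vec_one hA l'
  have vp' := vec_one hA p'
  have vp := vec_one hA p
  rw [ad.h1, zero_smul, zero_add] at vl
  rw [ad.h4, zero_smul, add_zero, h1, one_smul] at vl'
  rw [hc] at vp'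
  rw [hb2, hm] at vp
  set e := cr T.u l with he
  set f' := cr p' T.v with hf'
  have hu1 : T.u = T1.u + (2 * (-m) * (1 + e)) • T.v := by
    rw [k4]
    conv_rhs => rw [vl]
    module
  have hA1 : cr T1.u T.v = 1 := by rw [← k5]; exact k1.A
  obtain ⟨d, hd⟩ := v1
  refine h.core_a hE he0 h2 ho2 ho hA1 ?_
  have k9 := k1.seq
  obtain ⟨L1, u1, v', L1'⟩ := T1
  dsimp only at k3 k4 k5 k6 k9 hu1 hA1 ⊢
  subst k5
  have q1 : L1 = lat (e • T.v) ((2 : ℤ) • u1 + T.v) := by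
    rw [k3]
    symm
    refine closure_pair_eq (α := 1) (β := 0) (γ := 4 * m) (δ := 1) ?_ ?_ (Or.inl (by ring))
    · conv_rhs => rw [vl]
      module
    · conv_rhs => rw [vl, vp, hu1]
      module
  have q2 : L1' = lat u1 (c • T.v) := by
    rw [k6, ad.hL']
    symm
    refine closure_pair_eq (α := 1 - m * d * f') (β := m * d) (γ := -f')
      (δ := 1) ?_ ?_ (Or.inl ?_)
    · conv_rhs => rw [vl', vp', hu1]
      have e1 : (1 - m * d * f') • (u1 + (2 * (-m) * (1 + e)) • T.v) +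
          (m * d) • (f' • (u1 + (2 * (-m) * (1 + e)) • T.v) + c • T.v) =
          u1 + (2 * (-m) * (1 + e) + m * d * c) • T.v := by module
      rw [e1]
      have e2 : 2 * (-m) * (1 + e) + m * d * c = 0 := by linear_combination -m * hd
      rw [e2]; module
    · conv_rhs => rw [vl', vp']
      module
    · ring
  rw [q1, q2] at k9
  exact k9

/-- the states of step C exist -/
theorem exists_StC {S T : PSt} (hST : SEq S T) (hA : cr T.u T.v = 1) (hb : IsC T.L T.v 2) :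
    ∃ T0, StC S T0 := by
  by_cases hpar : ∃ w ∈ T.L, ¬ (2 : ℤ) ∣ cr T.u w
  · exact ⟨T, hST, hA, hb, hpar⟩
  push Not at hpar
  obtain ⟨l, p, l', p', ad⟩ := exists_Ad hST.ok'
  have hb2 : cr p T.v = 2 := ad.isC.unique hb
  have k1 := ad.twV hST.ok' (by rw [hb2, hA]; norm_num) 1
  have hp : (2 : ℤ) ∣ cr T.u p := hpar p (by rw [ad.hL]; exact mem_lat.2 ⟨0, 1, by module⟩)
  have hn := ad.nums
  rw [hA, hb2] at hn
  obtain ⟨n1, n2, n3, n4, n5, n6⟩ := hn.one
  have e5 : cr (p - (1 : ℤ) • T.v) T.v = 2 := by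
    rw [cr_sub_left, cr_smul_left, cr_self, hb2]; ring
  refine ⟨_, hST.trans k1, ?_, ?_, p - (1 : ℤ) • T.v, ?_, ?_⟩
  · dsimp only
    rw [cr_sub_left, cr_smul_left, cr_add_left, cr_self, ad.h1, hA]; ring
  · dsimp only
    rw [← e5]
    exact isC_of_par ad.h1 (by rw [e5]; norm_num)
  · exact mem_lat.2 ⟨0, 1, by module⟩
  · dsimp only
    have e11 : cr (T.u - (1 : ℤ) • (T.v + l)) (p - (1 : ℤ) • T.v) =
        cr T.u p + (2 * cr T.u l + 1) := by
      simp only [cr_sub_left, cr_sub_right, cr_smul_left, cr_smul_right, cr_add_left, cr_self]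
      rw [cr_swap T.v p, hb2, cr_swap l p, ad.h1, n1, hA]; ring
    rw [e11]
    omega

/-- STEP C, all `N > 5`: the class of a state with `A = 1` and left gap `2` contains a state with
gap `1` -/
theorem stepC {S T : PSt} {c0 : C6} (hc0 : IsRep S c0) (hv : 5 < vol c0) (hST : SEq S T)
    (hA : cr T.u T.v = 1) (hb : IsC T.L T.v 2) : ∃ T', SEq S T' ∧ IsC T'.L T'.v 1 := by
  by_contra hcon
  push Not at hcon
  obtain ⟨S', b, b0, k1, hE⟩ := exists_ext (show S.Ok from ⟨c0, hc0⟩)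
  have hb1 := hE.min T 2 (k1.symm.trans hST) hb
  have hb2 := hE.bpos
  have hb3 : b = 2 := by
    rcases (show b = 1 ∨ b = 2 by omega) with rfl | h
    · exact absurd hE.hb (hcon S' k1)
    · exact h
  subst hb3
  obtain ⟨T0, hT0⟩ := exists_StC (k1.symm.trans hST) hA hb
  obtain ⟨T1, c, g, hF⟩ := exists_FrC hT0
  obtain ⟨l, p, l', p', ad⟩ := exists_Ad hF.st.seq.ok'
  have hodd := hF.st.odd hE ad
  have h5 := ad.h5
  by_cases h3 : 3 ≤ cr l' T1.v
  · exact hF.not_three hE ad h3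
  have h1 : cr l' T1.v = 1 := by omega
  by_cases h2 : (2 : ℤ) ∣ cr T1.u l ∧ (2 : ℤ) ∣ c
  · exact hF.not_a hE ad h1 h2.1 h2.2
  by_cases h4 : 2 ≤ cr T1.u l
  · exact hF.not_b hE ad h1 h2 h4
  have h6 := ad.h2
  have h7 : cr T1.u l = 1 := by omega
  obtain ⟨v1, v2, v3⟩ := hF.vrig ad
  have h8 := (v3 (by rw [h7]; norm_num)).1
  rw [h7, h1] at h8
  have h9 := Int.le_of_dvd (by norm_num) h8
  have hc : cr T1.u p' = c := ad.isC'.unique hF.hc
  have h10 : 2 ≤ c := hE.min2 hF.st.seq hF.hc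
  have h11 := ad.area
  have h12 := ad.area'
  have h13 := hF.st.p2 ad
  rw [hF.st.A, h7, h13] at h11
  rw [hF.st.A, h1, hc] at h12
  obtain ⟨c1, c2, m1, m2, m3⟩ := k1.trans hF.st.seq
  have h14 := ad.vol m2
  have h15 : vol c2 = vol c0 := by rw [m3.vol_eq, (hc0.ceq m1).vol_eq]
  rw [hF.st.A] at h14
  omega

/-- STEP C, the mirror -/
theorem stepC' {S T : PSt} {c0 : C6} (hc0 : IsRep S c0) (hv : 5 < vol c0) (hST : SEq S T)
    (hA : cr T.u T.v = 1) (hb : IsC T.L' T.u 2) : ∃ T', SEq S T' ∧ IsC T'.L T'.v 1 := by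
  have m1 : SEq S ⟨T.L', T.v, -T.u, T.L⟩ :=
    hST.trans (SEq.mirror (L := T.L) (L' := T.L') (u := T.u) (v := T.v) hST.ok')
  refine stepC hc0 hv m1 ?_ hb.neg
  dsimp only
  rw [cr_neg_right, cr_swap T.v T.u, neg_neg, hA]

end Pool.Agent.H4G
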