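import Pool.Agent.H4G.Arith.Loop
import Pool.Agent.H4G.Arith.SFree

/-!
# The tool (helper26): moves of `L'` with `(L, u, v)` fixed (helper5)

Go to a left exit `(L₁, u₁, v, L')`, apply an H-twist and an integral shear along `u₁` which
preserves `L₁`, and go back.
-/

set_option autoImplicit false

open scoped MatrixGroups

namespace Pool.Agent.H4G

/-- the shear by `κ` along `u` preserves `L` if `a ∣ κ h²`, `h = gcd (L × u)` -/
theorem IsArea.map_shU_sq {L : AddSubgroup Z2} {a : ℤ} (ha : IsArea L a) {u v : Z2}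
    (huv : 0 < cr u v) {hh κ : ℤ} (hhh : IsC L u hh) (h : a ∣ κ * hh ^ 2) :
    L.map (H4G.act (shU u κ)) = L := by
  have key : ∀ κ : ℤ, a ∣ κ * hh ^ 2 → L.map (H4G.act (shU u κ)) ≤ L := by
    intro κ h
    obtain ⟨ha0, l, p, h1, h2⟩ := ha
    obtain ⟨ρ, π, r1, r2, r3, r4, r5, r6⟩ := exists_adapted (l := l) (p := p) (u := u) (v := v)
      (by rw [h1]; exact ha0) huv
    have hhπ : cr u π = hh := by
      have : IsC (lat ρ π) u (cr u π) := isC_adapted r3 r5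
      rw [r1, ← h2] at this
      exact this.unique hhh
    have hvec : a • u = (-hh) • ρ := by
      have e1 : a • u - (-hh) • ρ = 0 := by
        refine eq_zero_of_cr (u := u) (v := π) (by rw [hhπ]; exact hhh.1.ne') ?_ ?_
        · rw [cr_sub_right, cr_smul_right, cr_smul_right, cr_self, r3]; ring
        · rw [cr_sub_left, cr_smul_left, cr_smul_left, hhπ, cr_swap ρ π, r2, h1]; ring
      exact sub_eq_zero.1 e1
    rintro _ ⟨w, hw, rfl⟩
    rw [act_shU]
    refine L.add_mem hw ?_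
    obtain ⟨c, hc⟩ := hhh.2.1 w hw
    obtain ⟨d, hd⟩ := h
    have e1 : (κ * cr u w) • u = (-(c * d)) • ρ := by
      refine smul_inj ha0.ne' ?_
      have e2 : a • ((κ * cr u w) • u) = (κ * cr u w) • (a • u) := by module
      rw [e2, hvec, hc, smul_smul, smul_smul]
      congr 1
      linear_combination (-c) * hd
    rw [e1, h2, ← r1]
    exact mem_lat.2 ⟨-(c * d), 0, by module⟩
  refine le_antisymm (key κ h) ?_
  intro w hw
  refine ⟨H4G.act (shU u (-κ)) w, key (-κ) ?_ ⟨w, hw, rfl⟩, ?_⟩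
  · rw [neg_mul]; exact h.neg_right
  · rw [act_shU_add, add_neg_cancel, act_shU, zero_mul, zero_smul, add_zero]

/-- H-twist followed by the shear which brings `v` back -/
theorem SEq.hshear {L1 : AddSubgroup Z2} {u1 v l' p' : Z2}
    (hok : PSt.Ok ⟨L1, u1, v, lat l' p'⟩) (h1 : cr u1 l' = 0) (h3 : 0 < cr u1 p')
    (hA : cr u1 v ≤ cr u1 p') {i κ : ℤ}
    (hik : κ * (cr u1 v * cr u1 p') = i * (cr u1 p' + cr l' p'))
    (hL : L1.map (H4G.act (shU u1 (-κ))) = L1) (h2 : 0 < cr l' v) :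
    SEq ⟨L1, u1, v, lat l' p'⟩ ⟨L1, u1, v, lat l' (p' + (i - κ * cr u1 p') • u1)⟩ := by
  have hA0 : 0 < cr u1 v := hok.pos
  obtain ⟨l2, p2, l2', p2', ad2⟩ := exists_Ad hok
  have ad : Ad ⟨L1, u1, v, lat l' p'⟩ l2 p2 l' p' :=
    ⟨ad2.hL, rfl, ad2.h1, ad2.h2, ad2.h3, h1, h2, h3, hA0⟩
  have t1 := ad.twH hok hA i
  dsimp only at t1
  have t2 := SEq.act (shU u1 (-κ)) t1.ok'
  have F4 : cr l' p' * cr u1 v = cr l' v * cr u1 p' := ad.area'
  -- the vector identity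
  have hvec : i • (u1 + l') = (κ * cr u1 v) • u1 := by
    have e1 : i • (u1 + l') - (κ * cr u1 v) • u1 = 0 := by
      refine eq_zero_of_cr (u := u1) (v := v) hA0.ne' ?_ ?_
      · rw [cr_sub_right, cr_smul_right, cr_smul_right, cr_add_right, cr_self, h1]; ring
      · rw [cr_sub_left, cr_smul_left, cr_smul_left, cr_add_left]
        have e2 : (i * (cr u1 v + cr l' v) - κ * cr u1 v * cr u1 v) * cr u1 p' = 0 := by
          linear_combination -(cr u1 v) * hik - i * F4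
        rcases mul_eq_zero.1 e2 with e3 | e3
        · exact e3
        · omega
    exact sub_eq_zero.1 e1
  have e1 : H4G.act (shU u1 (-κ)) (v + i • (u1 + l')) = v := by
    rw [act_shU, hvec, cr_add_right, cr_smul_right, cr_self]; module
  have e2 : H4G.act (shU u1 (-κ)) u1 = u1 := act_shU_self _ _
  have e3 : H4G.act (shU u1 (-κ)) l' = l' := by rw [act_shU, h1]; module
  have e4 : H4G.act (shU u1 (-κ)) (p' + i • u1) = p' + (i - κ * cr u1 p') • u1 := by
    rw [act_shU, cr_add_right, cr_smul_right, cr_self]; module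
  have e5 : PSt.act (shU u1 (-κ)) ⟨L1, u1, v + i • (u1 + l'), lat l' (p' + i • u1)⟩ =
      ⟨L1, u1, v, lat l' (p' + (i - κ * cr u1 p') • u1)⟩ := by
    simp only [PSt.act]
    rw [hL, e1, e2, map_lat, e3, e4]
  rw [e5] at t2
  exact t1.trans t2

/-- THE TOOL at `S` itself -/
theorem ExtA.tool0 {S : PSt} {a' b b' : ℤ} (h : ExtA S a' b b') {l' p' : Z2}
    (hL' : S.L' = lat l' p') (h1 : cr S.u l' = 0) (h2 : 0 < cr l' S.v) (h3 : cr S.u p' = b')
    {a hh i κ : ℤ} (ha : IsArea S.L a) (hhh : IsC S.L S.u hh)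
    (hik : κ * (cr S.u S.v * b') = i * (b' + a')) (hκ : a ∣ κ * hh ^ 2) :
    SEq S ⟨S.L, S.u, S.v, lat l' (p' + (i - κ * b') • S.u)⟩ := by
  obtain ⟨LS, u, v, L'⟩ := S
  dsimp only at hL' h1 h2 h3 ha hhh hik ⊢
  subst hL'
  have hA0 : 0 < cr u v := h.ok.pos
  have hb0 := h.hb'.1
  have hAle : cr u v ≤ b' := h.leA h.ok.seq h.ha' h.hb'
  have ha' : cr l' p' = a' := by
    obtain ⟨l2, p2, l2', p2', ad2⟩ := exists_Ad h.ok
    have ad : Ad ⟨LS, u, v, lat l' p'⟩ l2 p2 l' p' :=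
      ⟨ad2.hL, rfl, ad2.h1, ad2.h2, ad2.h3, h1, h2, by dsimp only; rw [h3]; exact hb0, hA0⟩
    exact ad.isArea'.unique h.ha'
  have := SEq.hshear h.ok h1 (by rw [h3]; exact hb0) (by rw [h3]; exact hAle) (i := i) (κ := κ)
    (by rw [h3, ha']; exact hik)
    (ha.map_shU_sq hA0 hhh (by rw [neg_mul]; exact hκ.neg_right)) h2
  rw [h3] at this
  exact this

/-- THE TOOL at an exit (all levels, both signs, all V-twists): `L'` moves, `(L, u, v)` fixed -/
theorem ExtA.tool {S : PSt} {a' b b' : ℤ} (h : ExtA S a' b b') {l p l' p' : Z2}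
    (ad : Ad S l p l' p') {n j o τ : ℤ} (hn : 0 ≤ n) (ho : o = 1 ∨ o = -1)
    (hco : IsCoprime (τ + j) n)
    (h1 : n * cr p S.v < o * ((τ + j) * cr S.u l + n * (cr S.u p +
      j * (cr p l + cr p S.v - cr S.u S.v))))
    (h2 : o * ((τ + j) * cr S.u l + n * (cr S.u p + j * (cr p l + cr p S.v - cr S.u S.v))) ≤
      cr p l) {u₁ : Z2} (hu₁ : u₁ = S.u + (o - j * (1 + n)) • S.v + τ • l + n • p)
    {l₁' p₁' : Z2} (hL' : S.L' = lat l₁' p₁') (k1 : cr u₁ l₁' = 0) (k2 : 0 < cr l₁' S.v)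
    {B : ℤ} (k3 : cr u₁ p₁' = B) {hh i κ : ℤ} (hB0 : 0 < B)
    (hhh : IsC (lat (l - n • S.v) (p + τ • S.v)) u₁ hh)
    (hik : κ * ((cr S.u S.v + n * b) * B) = i * (B + a')) (hκ : cr p l - n * b ∣ κ * hh ^ 2) :
    SEq S ⟨S.L, S.u, S.v, lat l₁' (p₁' + (i - κ * B) • u₁)⟩ := by
  obtain ⟨T, t1, t2, t3, t4, t5, t6⟩ := h.exitSt ad hn ho hco h1 h2
  rw [← hu₁] at t5
  obtain ⟨Lt, ut, vt, Lt'⟩ := T
  dsimp only at t2 t3 t4 t5 t6
  subst t2 t3 t4
  have t5' := t5.symm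
  subst t5'
  obtain ⟨LS, u, v, L'⟩ := S
  dsimp only at hu₁ hL' k1 k2 hhh hik h1 h2 t1 t6 ⊢
  have E1 : cr p v = b := ad.isC.unique h.hb
  have hA0 : 0 < cr u v := ad.hA
  have hl0 : cr l v = 0 := ad.h1
  have hLS : LS = lat l p := ad.hL
  have A1def : cr u₁ v = cr u v + n * b := by
    rw [hu₁]
    simp only [cr_add_left, cr_smul_left, cr_self]
    rw [hl0, E1]; ring
  have hA1 : 0 < cr u₁ v := t1.ok'.pos
  rw [← A1def] at hik
  have hIC : IsC L' u₁ B := by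
    have : IsC (lat l₁' p₁') u₁ (cr u₁ p₁') := isC_adapted k1 (by rw [k3]; exact hB0)
    rwa [k3, ← hL'] at this
  have hAle : cr u₁ v ≤ B := h.leA t1 h.ha' hIC
  have ha' : cr l₁' p₁' = a' := by
    obtain ⟨l2, p2, l2', p2', ad2⟩ := exists_Ad t1.ok'
    have ad3 : Ad ⟨lat (l - n • v) (p + τ • v), u₁, v, L'⟩ l2 p2 l₁' p₁' :=
      ⟨ad2.hL, hL', ad2.h1, ad2.h2, ad2.h3, k1, k2, by dsimp only; rw [k3]; exact hB0, hA1⟩
    exact ad3.isArea'.unique h.ha'
  have hdet : cr (p + τ • v) (l - n • v) = cr p l - n * b := by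
    simp only [cr_add_left, cr_smul_left, cr_sub_right, cr_smul_right, cr_self]
    rw [E1, cr_swap v l, hl0]; ring
  have hdet0 : 0 < cr (p + τ • v) (l - n • v) := by
    obtain ⟨c, hc⟩ := t1.ok'
    obtain ⟨x1, x2, y1, y2, _⟩ := hc.areas
    obtain ⟨y3, s, t, y4, y5⟩ := y1
    dsimp only at y5
    have m3 : s ∈ lat (l - n • v) (p + τ • v) := by rw [y5]; exact mem_lat.2 ⟨1, 0, by module⟩
    have m4 : t ∈ lat (l - n • v) (p + τ • v) := by rw [y5]; exact mem_lat.2 ⟨0, 1, by module⟩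
    obtain ⟨α, β, w1⟩ := mem_lat.1 m3
    obtain ⟨γ, δ, w2⟩ := mem_lat.1 m4
    have w3 : x1 = (α * δ - β * γ) * cr (p + τ • v) (l - n • v) := by
      rw [← y4, ← w1, ← w2]
      generalize l - n • v = F
      generalize p + τ • v = G
      simp only [cr_add_left, cr_add_right, cr_smul_left, cr_smul_right, cr_self]
      rw [cr_swap F G]; ring
    have w4 : 0 ≤ cr p l - n * b := by
      have w5 := h1.trans_le h2
      rw [E1] at w5
      linarith
    rcases w4.lt_or_eq with w5 | w5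
    · rw [hdet]; exact w5
    · exfalso
      rw [hdet, ← w5, mul_zero] at w3
      omega
  have hArea : IsArea (lat (l - n • v) (p + τ • v)) (cr p l - n * b) :=
    ⟨by rw [← hdet]; exact hdet0, l - n • v, p + τ • v, hdet, rfl⟩
  subst hL'
  have s1 := SEq.hshear t1.ok' k1 (by rw [k3]; exact hB0) (by rw [k3]; exact hAle)
    (i := i) (κ := κ) (by rw [k3, ha']; exact hik)
    (hArea.map_shU_sq hA1 hhh (by rw [neg_mul]; exact hκ.neg_right)) k2
  rw [k3] at s1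
  have s2 : PSt.Ok ⟨lat (l - n • v) (p + τ • v), u + (o - j * (1 + n)) • v + τ • l + n • p, v,
      lat l₁' (p₁' + (i - κ * B) • u₁)⟩ := by
    rw [← hu₁]; exact s1.ok'
  have s3 := SEq.exitInv s2 hl0 ad.h2 ad.h3 hA0 (by rw [E1]; exact h.hA) hn ho hco h1 h2
  rw [← hu₁, ← hLS] at s3
  exact (t1.trans s1).trans s3

end Pool.Agent.H4G
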