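import Pool.Agent.H4G.Arith.WCp

/-!
# X1 and WC in general form (helper40, helper9)

`N` prime, `κ = gcd (L × v)` divides `A = u × v`, `D = ((a + A) / κ) v`. If no prime `r` with
`r ∣ gcd (a, κ)` divides the vector `D` then the node and one V-twist make `gcd (L' × u)` equal to
the content of `L'`.
-/

set_option autoImplicit false

namespace Pool.Agent.H4G

theorem prime_dvd_of_not {r : ℕ} (hr : r.Prime) {x y : ℤ} (h : (r : ℤ) ∣ x * y)
    (h1 : ¬ (r : ℤ) ∣ x) : (r : ℤ) ∣ y :=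
  ((Nat.prime_iff_prime_int.1 hr).dvd_or_dvd h).resolve_left h1

/-- X1 for a lattice, general form -/
theorem x1_lat2 {M : AddSubgroup Z2} {a' : ℤ} (ha' : IsArea M a') {u v D : Z2}
    (hA : cr u v ≠ 0) (h1 : IsCoprime a' (cr u D)) (h3 : cr D v = 0)
    (h2 : ∀ r : ℕ, r.Prime → (r : ℤ) ∣ cr u v → ¬ (r : ℤ) ∣ a' → ¬ (Dz r u ∧ Dz r D)) :
    ∃ t : ℤ, ∀ c : ℤ, IsC M (u - t • D) c → ∀ w ∈ M, Dz c w := by
  obtain ⟨t1, ht1⟩ := x1_choice (M := M) ha'.1.ne' h1
  obtain ⟨t2, ht2⟩ := crt_exists (cr u v) hA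
    (fun r t => ¬ (r : ℤ) ∣ a' → ¬ Dz r (u - t • D))
    (fun r hr hrA => by
      by_cases hra : (r : ℤ) ∣ a'
      · exact ⟨0, fun h => absurd hra h⟩
      · by_cases hu : Dz r u
        · refine ⟨1, fun _ h4 => ?_⟩
          have h5 := hu.sub h4
          rw [one_smul, sub_sub_cancel] at h5
          exact h2 r hr hrA hra ⟨hu, h5⟩
        · refine ⟨0, fun _ h4 => hu ?_⟩
          rwa [zero_smul, sub_zero] at h4)
    (fun r hr hrA k k' hkk hQ hra h4 => hQ hra (by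
      have e : u - k • D = (u - k' • D) + (k' - k) • D := by module
      rw [e]
      exact h4.add (Dz.of_dvd hkk D)))
  -- glue the two choices
  obtain ⟨t, ht⟩ := crt_exists (a' * cr u v) (mul_ne_zero ha'.1.ne' hA)
    (fun r t => ((r : ℤ) ∣ a' → (r : ℤ) ∣ t - t1) ∧ (¬ (r : ℤ) ∣ a' → (r : ℤ) ∣ t - t2))
    (fun r hr _ => by
      by_cases hra : (r : ℤ) ∣ a'
      · exact ⟨t1, fun _ => by rw [sub_self]; exact dvd_zero _, fun h => absurd hra h⟩
      · exact ⟨t2, fun h => absurd h hra, fun _ => by rw [sub_self]; exact dvd_zero _⟩)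
    (fun r hr _ k k' hkk hQ => by
      refine ⟨fun h => ?_, fun h => ?_⟩
      · have := dvd_add hkk (hQ.1 h)
        rwa [sub_add_sub_cancel] at this
      · have := dvd_add hkk (hQ.2 h)
        rwa [sub_add_sub_cancel] at this)
  -- the property of `t1` only depends on classes modulo the primes
  refine ⟨t, fun c hc w hw => ?_⟩
  rw [Dz.iff]
  intro z
  refine dvd_of_prime_pow fun r k hr hk => ?_
  rcases Nat.eq_zero_or_pos k with h0 | h0
  · rw [h0, pow_zero]; exact one_dvd _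
  by_cases hra : (r : ℤ) ∣ a'
  · have htt : (r : ℤ) ∣ t - t1 := (ht r hr (hra.mul_right _)).1 hra
    have key : ∀ j : ℕ, (∀ w ∈ M, (r : ℤ) ^ j ∣ cr (u - t • D) w) →
        ∀ w ∈ M, Dz ((r : ℤ) ^ j) w := by
      intro j
      induction j with
      | zero =>
        intro _ w _
        rw [pow_zero]
        exact ⟨w, (one_smul _ _).symm⟩
      | succ j ih =>
        intro hj
        have h4 : ∀ w ∈ M, Dz ((r : ℤ) ^ j) w :=
          ih fun w hw => (pow_dvd_pow _ (Nat.le_succ j)).trans (hj w hw)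
        refine ht1 r hr hra (j + 1) fun w hw => ?_
        have e : cr (u - t1 • D) w = cr (u - t • D) w + (t - t1) * cr D w := by
          simp only [cr_sub_left, cr_smul_left]; ring
        rw [e]
        refine dvd_add (hj w hw) ?_
        rw [pow_succ, mul_comm ((r : ℤ) ^ j)]
        exact mul_dvd_mul htt ((h4 w hw).cr_right D)
    exact (key k (fun w hw => hk.trans (hc.2.1 w hw)) w hw).cr_left z
  · exfalso
    have hrc : (r : ℤ) ∣ c := (dvd_pow_self _ h0.ne').trans hk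
    have h4 : ∀ z, (r : ℤ) ∣ cr (u - t • D) z := by
      intro z
      have h5 := hrc.trans (hc.2.1 _ (ha'.smul_mem z))
      rw [cr_smul_right] at h5
      exact prime_dvd_of_not hr h5 hra
    have hDz : Dz r (u - t • D) := Dz.iff.2 h4
    have hrA : (r : ℤ) ∣ cr u v := by
      have h5 := h4 v
      rwa [cr_sub_left, cr_smul_left, h3, mul_zero, sub_zero] at h5
    have htt : (r : ℤ) ∣ t - t2 := (ht r hr (hrA.mul_left _)).2 hra
    refine ht2 r hr hrA hra ?_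
    have e : u - t2 • D = (u - t • D) + (t - t2) • D := by module
    rw [e]
    exact hDz.add (Dz.of_dvd htt D)

/-- X1, general form, in adapted bases -/
theorem Ad.xone2 {N : ℕ} (hN : N.Prime) {S : PSt} {l p l' p' : Z2} (ad : Ad S l p l' p')
    (hok : S.Ok) (hv : cr p l + cr S.u S.v + cr l' p' = N) (hA : cr S.u S.v = cr p S.v)
    (h2 : ∀ r : ℕ, r.Prime → (r : ℤ) ∣ cr S.u S.v → ¬ (r : ℤ) ∣ cr l' p' →
      ¬ (Dz r S.u ∧ Dz r (S.v + l))) :
    ∃ t c : ℤ, SEq S ⟨lat l (p - t • S.v), S.u - t • (S.v + l), S.v, S.L'⟩ ∧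
      IsC S.L' (S.u - t • (S.v + l)) c ∧ ∀ w ∈ S.L', Dz c w := by
  have ha0 := ad.pos
  have hA0 := ad.hA
  have ha0' := ad.pos'
  have e1 : cr S.u l = cr p l := by
    have h1 := ad.area
    rw [hA] at h1
    exact (mul_right_cancel₀ ad.h3.ne' h1).symm
  have e2 : cr S.u (S.v + l) = cr p S.v + cr p l := by rw [cr_add_right, e1, hA]
  have e3 : cr (S.v + l) S.v = 0 := by rw [cr_add_left, cr_self, ad.h1, add_zero]
  have h1 : IsCoprime (cr l' p') (cr S.u (S.v + l)) := by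
    refine isCoprime_of_prime fun r hr h2 h3 => ?_
    refine not_dvd_of_prime hN (x := cr S.u (S.v + l)) (y := cr l' p') ?_ ha0' ?_ hr h2 h3
    · rw [e2]; linarith
    · rw [e2]; linarith
  obtain ⟨t, ht⟩ := x1_lat2 ad.isArea' hA0.ne' h1 e3 h2
  have k1 := ad.twV hok hA.le t
  obtain ⟨l2, p2, l2', p2', ad2⟩ := exists_Ad k1.ok'
  exact ⟨t, _, k1, ad2.isC', ht _ ad2.isC'⟩

/-- X1, general form, without bases: `A = gcd (L × v)`, `A D = (a + A) v` -/
theorem SEq.xone2 {N : ℕ} (hN : N.Prime) {L L' : AddSubgroup Z2} {u v D : Z2} {a a' : ℤ}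
    (hok : PSt.Ok ⟨L, u, v, L'⟩) (ha : IsArea L a) (ha' : IsArea L' a')
    (hv : a + cr u v + a' = N) (hb : IsC L v (cr u v)) (hD : cr u v • D = (a + cr u v) • v)
    (h2 : ∀ r : ℕ, r.Prime → (r : ℤ) ∣ cr u v → ¬ (r : ℤ) ∣ a' → ¬ (Dz r u ∧ Dz r D)) :
    ∃ (L1 : AddSubgroup Z2) (u1 : Z2) (c : ℤ), SEq ⟨L, u, v, L'⟩ ⟨L1, u1, v, L'⟩ ∧ IsArea L1 a ∧
      cr u1 v = cr u v ∧ IsC L1 v (cr u v) ∧ IsC L' u1 c ∧ ∀ w ∈ L', Dz c w := by
  obtain ⟨l, p, l', p', ad⟩ := exists_Ad hok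
  have e1 : cr p l = a := ad.isArea.unique ha
  have e2 : cr l' p' = a' := ad.isArea'.unique ha'
  have e3 : cr p v = cr u v := ad.isC.unique hb
  have hA0 : 0 < cr u v := hok.pos
  have h1 := ad.h1
  dsimp only at h1
  have hDl : D = v + l := by
    refine smul_inj hA0.ne' ?_
    rw [hD]
    -- `cr p v • l = cr p l • v`
    have f1 := cr_expand p v l
    rw [h1, zero_smul, zero_sub, cr_swap l p, neg_smul, neg_neg, e3, e1] at f1
    rw [smul_add, f1]
    module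
  subst hDl
  obtain ⟨t, c, k1, k2, k3⟩ := ad.xone2 hN hok (by rw [e1, e2]; exact hv) e3.symm
    (by rw [e2]; exact h2)
  dsimp only at k1 k2 k3
  have e4 : cr (u - t • (v + l)) v = cr u v := by
    rw [cr_sub_left, cr_smul_left, cr_add_left, cr_self, h1]; ring
  refine ⟨_, _, c, k1, ?_, e4, ?_, k2, k3⟩
  · refine ⟨ha.1, l, p - t • v, ?_, rfl⟩
    rw [cr_sub_left, cr_smul_left, cr_swap v l, h1, ← e1]; ring
  · have e5 : cr (p - t • v) v = cr u v := by
      rw [cr_sub_left, cr_smul_left, cr_self, e3]; ring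
    rw [← e5]
    exact isC_of_par h1 (by rw [e5]; exact hb.1)

/-- a prime which divides `gcd (L × v)` but not the area of `L` -/
theorem Dz.of_isC {L : AddSubgroup Z2} {v : Z2} {a b : ℤ} (ha : IsArea L a) (hb : IsC L v b)
    {r : ℕ} (hr : r.Prime) (hra : ¬ (r : ℤ) ∣ a) {k : ℕ} (hk : (r : ℤ) ^ k ∣ b) :
    Dz ((r : ℤ) ^ k) v := by
  rw [Dz.iff]
  intro z
  have h1 := hk.trans (hb.2.1 _ (ha.smul_mem z))
  rw [cr_smul_right] at h1
  exact (isCoprime_pow_prime hr hra k).dvd_of_dvd_mul_left h1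

/-- WC2 : `κ = gcd (L × v)` divides `A`, `κ D = (a + A) v`, no prime `r ∣ gcd (a, κ)` divides `D` -/
theorem SEq.wc2 {N : ℕ} (hN : N.Prime) {L L' : AddSubgroup Z2} {u v D : Z2} {a a' b : ℤ}
    (hok : PSt.Ok ⟨L, u, v, L'⟩) (ha : IsArea L a) (ha' : IsArea L' a')
    (hv : a + cr u v + a' = N) (hb : IsC L v b) (hbA : b ∣ cr u v)
    (hD : b • D = (a + cr u v) • v)
    (h2 : ∀ r : ℕ, r.Prime → (r : ℤ) ∣ b → (r : ℤ) ∣ a → ¬ Dz r D) :
    ∃ (L1 : AddSubgroup Z2) (u1 : Z2) (c : ℤ), SEq ⟨L, u, v, L'⟩ ⟨L1, u1, v, L'⟩ ∧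
      IsArea L1 (a + cr u v - b) ∧ cr u1 v = b ∧ IsC L1 v b ∧
      IsC L' u1 c ∧ ∀ w ∈ L', Dz c w := by
  have hA0 : 0 < cr u v := hok.pos
  obtain ⟨u1, L1, θ, k1, k2, k3, k4, k5, k6, k7, k8⟩ := SEq.node' hok ha hb
  have h3 : cr u1 v = b := by
    have h3 : b ∣ cr u1 v := by rw [k4]; exact dvd_sub hbA k3
    exact le_antisymm k6 (Int.le_of_dvd k5 h3)
  have h4 : θ = cr u v - b := by linarith
  rw [h4] at k7 k3
  have h5 : a + (cr u v - b) = a + cr u v - b := by ring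
  rw [h5] at k7
  obtain ⟨L2, u2, c, m1, m2, m3, m4, m5, m6⟩ := SEq.xone2 hN k1.ok' k7 ha'
    (by rw [h3]; linarith) (by rw [h3]; exact k8) (D := D)
    (by rw [h3, hD]; congr 1; ring) (fun r hr h6 h7 h8 => by
      rw [h3] at h6
      by_cases hra : (r : ℤ) ∣ a
      · exact h2 r hr h6 hra h8.2
      · -- `u1 × D = a + A`
        have h9 : cr u1 D = a + cr u v := by
          have h10 : b * cr u1 D = b * (a + cr u v) := by
            rw [← cr_smul_right, hD, cr_smul_right, h3]; ring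
          exact mul_left_cancel₀ hb.1.ne' h10
        have h10 : (r : ℤ) ∣ a + cr u v := by rw [← h9]; exact h8.1.cr_left D
        apply hra
        have := dvd_sub h10 (h6.trans hbA)
        rwa [add_sub_cancel_right] at this)
  rw [h3] at m3 m4
  exact ⟨L2, u2, c, k1.trans m1, m2, m3, m4, m5, m6⟩

/-- the end of the proof, general form -/
theorem SEq.wc_end2 {N : ℕ} (hN : N.Prime) {S : PSt} {L L' : AddSubgroup Z2} {u v D : Z2}
    {a a' b : ℤ} (hS : SEq S ⟨L, u, v, L'⟩) (ha : IsArea L a) (ha' : IsArea L' a')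
    (hv : a + cr u v + a' = N) (hb : IsC L v b) (hbA : b ∣ cr u v)
    (hD : b • D = (a + cr u v) • v)
    (h2 : ∀ r : ℕ, r.Prime → (r : ℤ) ∣ b → (r : ℤ) ∣ a → ¬ Dz r D)
    {P : ℤ → Prop} (hP : ∀ c : ℤ, 0 < c → (∀ w ∈ L', Dz c w) → P c) :
    ∃ (T : PSt) (d : ℤ), SEq S T ∧ IsC T.L T.v d ∧ P d := by
  obtain ⟨L1, u1, c, m1, m2, m3, m4, m6, m7⟩ := SEq.wc2 hN hS.ok' ha ha' hv hb hbA hD h2
  have m8 := SEq.mirror (L := L1) (L' := L') (u := u1) (v := v) m1.ok'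
  exact ⟨_, c, hS.trans (m1.trans m8), m6.neg, hP c m6.1 m7⟩

end Pool.Agent.H4G
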