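import Pool.Agent.H4G.Arith.WC2

/-!
# WC2+ (helper40, helper9)

As WC+, but `gcd (a, κ) > 1` is allowed if no prime `r ∣ gcd (a, κ)` divides `D = ((a + κ) / κ) v`.
-/

set_option autoImplicit false

namespace Pool.Agent.H4G

/-- the exponent of a prime -/
theorem exists_val {r : ℕ} (hr : r.Prime) {κ : ℤ} (hκ : 0 < κ) :
    ∃ (j : ℕ) (m : ℤ), κ = (r : ℤ) ^ j * m ∧ ¬ (r : ℤ) ∣ m := by
  have hf : FiniteMultiplicity (r : ℤ) κ :=
    Int.finiteMultiplicity_iff.2 ⟨by simpa using hr.one_lt.ne', hκ.ne'⟩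
  obtain ⟨m, h1, h2⟩ := hf.exists_eq_pow_mul_and_not_dvd
  exact ⟨_, m, h1, h2⟩

theorem not_pow_succ_dvd {r : ℕ} (hr : r.Prime) {κ m : ℤ} {j : ℕ} (h : κ = (r : ℤ) ^ j * m)
    (hm : ¬ (r : ℤ) ∣ m) : ¬ (r : ℤ) ^ (j + 1) ∣ κ := by
  intro h1
  rw [h, pow_succ] at h1
  have h0 : ((r : ℤ) ^ j) ≠ 0 := pow_ne_zero _ (by exact_mod_cast hr.ne_zero)
  exact hm ((mul_dvd_mul_iff_left h0).1 h1)

theorem SEq.wcp2_aux {N : ℕ} (hN : N.Prime) {L L' : AddSubgroup Z2} {u v D l p l' p' : Z2}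
    {a a' c : ℤ} (hok : PSt.Ok ⟨L, u, v, L'⟩) (ad : Ad ⟨L, u, v, L'⟩ l p l' p') (ha : IsArea L a)
    (ha' : IsArea L' a') (hv : a + cr u v + a' = N) (hb : IsC L v (cr u v))
    (hD : cr u v • D = (a + cr u v) • v)
    (h2 : ∀ r : ℕ, r.Prime → (r : ℤ) ∣ cr u v → (r : ℤ) ∣ a → ¬ Dz r D)
    (hc : IsC L' u c) (hle : cr u v ≤ c) {i : ℤ}
    (hi : ∀ r : ℕ, r.Prime → (r : ℤ) ∣ cr u v → (r : ℤ) ∣ a → ∀ k : ℕ, (r : ℤ) ^ k ∣ cr u v →
      (r : ℤ) ^ (k + 1) ∣ i)
    (hw : ∀ r : ℕ, r.Prime → (r : ℤ) ∣ a → ¬ (r : ℤ) ∣ cr u v →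
      ∃ w ∈ L, ¬ (r : ℤ) ∣ cr (v + i • (u + l')) w)
    {P : ℤ → Prop} (hP : ∀ d : ℤ, 0 < d → (∀ w ∈ lat l' (p' + i • u), Dz d w) → P d) :
    ∃ (T : PSt) (d : ℤ), SEq ⟨L, u, v, L'⟩ T ∧ IsC T.L T.v d ∧ P d := by
  have hA0 : 0 < cr u v := hok.pos
  have ha0' := ha'.1
  have e1 : cr u p' = c := ad.isC'.unique hc
  have e2 : cr l' p' = a' := ad.isArea'.unique ha'
  have hul : cr u l' = 0 := ad.h4
  have tw : SEq ⟨L, u, v, L'⟩ ⟨L, u, v + i • (u + l'), lat l' (p' + i • u)⟩ :=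
    ad.twH hok (by show cr u v ≤ cr u p'; rw [e1]; exact hle) i
  have ta : IsArea (lat l' (p' + i • u)) a' := by
    have h1 : cr l' (p' + i • u) = a' := by
      rw [cr_add_right, cr_smul_right, cr_swap l' u, hul, e2]; ring
    exact ⟨ha0', p' + i • u, l', h1, lat_comm _ _⟩
  have tA : cr u (v + i • (u + l')) = cr u v := by
    rw [cr_add_right, cr_smul_right, cr_add_right, cr_self, hul]; ring
  obtain ⟨l2, p2, l2', p2', ad2⟩ := exists_Ad tw.ok'
  have hbi : IsC L (v + i • (u + l')) (cr p2 (v + i • (u + l'))) := ad2.isC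
  set vi := v + i • (u + l') with hvi
  set b := cr p2 vi with hbdef
  have key1 : ∀ r : ℕ, r.Prime → (r : ℤ) ∣ a → (r : ℤ) ∣ b → (r : ℤ) ∣ cr u v := by
    intro r hr hra hrb
    by_contra hn
    obtain ⟨w, hw1, hw2⟩ := hw r hr hra hn
    exact hw2 (hrb.trans (hbi.2.1 w hw1))
  have e3 : ∀ w, cr v w = cr vi w - i * cr (u + l') w := by
    intro w
    rw [hvi]
    simp only [cr_add_left, cr_smul_left]; ring
  have hbA : b ∣ cr u vi := by
    refine dvd_of_prime_pow fun r k hr hk => ?_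
    rcases Nat.eq_zero_or_pos k with h0 | h0
    · rw [h0, pow_zero]; exact one_dvd _
    by_cases hra : (r : ℤ) ∣ a
    · have hrκ := key1 r hr hra ((dvd_pow_self _ h0.ne').trans hk)
      obtain ⟨j, m, h3, h4⟩ := exists_val hr hA0
      have hj : (r : ℤ) ^ j ∣ cr u v := by
        conv_rhs => rw [h3]
        exact dvd_mul_right _ _
      rw [tA]
      by_contra hn
      have hjk : j + 1 ≤ k := by
        by_contra h5
        exact hn ((pow_dvd_pow _ (by omega)).trans hj)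
      refine not_pow_succ_dvd hr h3 h4 ?_
      obtain ⟨w, hw1, hw2⟩ := hb.2.2
      rw [← hw2, e3 w]
      exact dvd_sub (((pow_dvd_pow _ hjk).trans hk).trans (hbi.2.1 w hw1))
        ((hi r hr hrκ hra j hj).mul_right _)
    · exact (Dz.of_isC ha hbi hr hra hk).cr_right u
  -- the vector `D` of the twisted state
  have hDz : Dz b ((a + cr u vi) • vi) := by
    rw [Dz.iff]
    intro z
    rw [cr_smul_left, add_mul]
    refine dvd_add ?_ (hbA.mul_right _)
    have h3 := hbi.2.1 _ (ha.smul_mem z)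
    rwa [cr_smul_right] at h3
  obtain ⟨Di, hDi⟩ := hDz
  refine SEq.wc_end2 hN tw ha ta (by rw [tA]; exact hv) hbi hbA hDi.symm ?_ hP
  intro r hr hrb hra hrD
  have hrκ := key1 r hr hra hrb
  obtain ⟨j, m, h3, h4⟩ := exists_val hr hA0
  have hj : (r : ℤ) ^ j ∣ cr u v := by
    conv_rhs => rw [h3]
    exact dvd_mul_right _ _
  have hij := hi r hr hrκ hra j hj
  have hjb : (r : ℤ) ^ j ∣ b := by
    obtain ⟨w, hw1, hw2⟩ := hbi.2.2
    rw [← hw2]
    have e4 : cr vi w = cr v w + i * cr (u + l') w := by rw [e3 w]; ring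
    rw [e4]
    exact dvd_add (hj.trans (hb.2.1 w hw1))
      ((((pow_dvd_pow _ (Nat.le_succ j)).trans hij)).mul_right _)
  obtain ⟨m', hm'⟩ := hjb
  obtain ⟨D', hD'⟩ := hrD
  apply h2 r hr hrκ hra
  -- `r ^ (j + 1)` divides `κ D`
  have h5 : Dz ((r : ℤ) ^ (j + 1)) (cr u v • D) := by
    have e5 : cr u v • D = b • Di - (i * (a + cr u v)) • (u + l') := by
      rw [hD, ← hDi, tA, hvi]; module
    rw [e5]
    refine Dz.sub ⟨m' • D', ?_⟩ (Dz.of_dvd (hij.mul_right _) _)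
    rw [hm', hD', pow_succ]; module
  rw [h3, pow_succ] at h5
  have h6 : Dz r (m • D) := by
    rw [Dz.iff] at h5 ⊢
    intro z
    have h7 := h5 z
    rw [cr_smul_left, mul_assoc] at h7
    rw [cr_smul_left]
    exact (mul_dvd_mul_iff_left (pow_ne_zero _ (by exact_mod_cast hr.ne_zero))).1 h7
  exact (h6.mul_prime hr).resolve_left h4

/-- the auxiliary multiplier: it is divisible by high powers of the primes of `gcd (a, κ)` only -/
theorem exists_mult {a κ : ℤ} (ha : 0 < a) (hκ : 0 < κ) : ∃ G : ℤ, G ≠ 0 ∧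
    (∀ r : ℕ, r.Prime → ((r : ℤ) ∣ G ↔ (r : ℤ) ∣ κ ∧ (r : ℤ) ∣ a)) ∧
    ∀ r : ℕ, r.Prime → (r : ℤ) ∣ κ → (r : ℤ) ∣ a → ∀ k : ℕ, (r : ℤ) ^ k ∣ κ →
      (r : ℤ) ^ (k + 1) ∣ G := by
  have hg0 : (Int.gcd κ a : ℤ) ≠ 0 := by
    have := Int.gcd_pos_of_ne_zero_left a hκ.ne'
    omega
  have hn : κ.toNat ≠ 0 := by omega
  refine ⟨(Int.gcd κ a : ℤ) ^ κ.toNat, pow_ne_zero _ hg0, fun r hr => ⟨fun h => ?_, fun h => ?_⟩,
    fun r hr h1 h2 k hk => ?_⟩
  · have h1 : (r : ℤ) ∣ (Int.gcd κ a : ℤ) := (Nat.prime_iff_prime_int.1 hr).dvd_of_dvd_pow h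
    exact ⟨h1.trans (Int.gcd_dvd_left κ a), h1.trans (Int.gcd_dvd_right κ a)⟩
  · exact dvd_pow (Int.dvd_coe_gcd h.1 h.2) hn
  · have h3 : k < κ.toNat := by
      have h4 : (r : ℤ) ^ k ≤ κ := Int.le_of_dvd hκ hk
      have h5 : (k : ℤ) < (r : ℤ) ^ k := by exact_mod_cast Nat.lt_pow_self hr.one_lt
      omega
    exact (pow_dvd_pow _ h3).trans (pow_dvd_pow_of_dvd (Int.dvd_coe_gcd h1 h2) _)

/-- a prime which divides `u` divides `gcd (a, κ)` -/
theorem not_dz_of {L : AddSubgroup Z2} {u v : Z2} {a : ℤ} (ha : IsArea L a)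
    (hb : IsC L v (cr u v)) {r : ℕ} (hr : r.Prime)
    (h : ¬ ((r : ℤ) ∣ cr u v ∧ (r : ℤ) ∣ a)) : ¬ Dz r u := by
  intro h1
  have h2 : (r : ℤ) ∣ cr u v := h1.cr_left v
  have h3 : ¬ (r : ℤ) ∣ a := fun h3 => h ⟨h2, h3⟩
  obtain ⟨j, m, h4, h5⟩ := exists_val hr hb.1
  obtain ⟨v', hv'⟩ := Dz.of_isC ha hb hr h3 (k := j) (by
    conv_rhs => rw [h4]
    exact dvd_mul_right _ _)
  apply h5
  have h6 : (r : ℤ) ^ j * cr u v' = (r : ℤ) ^ j * m := by
    rw [← h4, ← cr_smul_right, ← hv']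
  have h7 := mul_left_cancel₀ (pow_ne_zero _ (by exact_mod_cast hr.ne_zero)) h6
  rw [← h7]
  exact h1.cr_left v'

theorem solve_mul {r : ℕ} (hr : r.Prime) {G : ℤ} (hG : ¬ (r : ℤ) ∣ G) (i : ℤ) :
    ∃ j : ℤ, (r : ℤ) ∣ G * j - i := by
  obtain ⟨x, y, hxy⟩ := ((Nat.prime_iff_prime_int.1 hr).coprime_iff_not_dvd).2 hG
  exact ⟨y * i, -(x * i), by linear_combination i * hxy⟩

/-- WC2+ -/
theorem SEq.wcp2 {N : ℕ} (hN : N.Prime) {L L' : AddSubgroup Z2} {u v D : Z2} {a a' c : ℤ}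
    (hok : PSt.Ok ⟨L, u, v, L'⟩) (ha : IsArea L a) (ha' : IsArea L' a')
    (hv : a + cr u v + a' = N) (hb : IsC L v (cr u v))
    (hD : cr u v • D = (a + cr u v) • v)
    (h2 : ∀ r : ℕ, r.Prime → (r : ℤ) ∣ cr u v → (r : ℤ) ∣ a → ¬ Dz r D)
    (hc : IsC L' u c) (hle : cr u v ≤ c) :
    ∃ (T : PSt) (d : ℤ), SEq ⟨L, u, v, L'⟩ T ∧ IsC T.L T.v d ∧
      (d = 1 ∨ (d = 2 ∧ (2 : ℤ) ∣ a ∧ ∀ w ∈ L', Dz 2 w)) := by
  obtain ⟨l, p, l', p', ad⟩ := exists_Ad hok
  have hA0 : 0 < cr u v := hok.pos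
  have ha0 := ha.1
  have ha0' := ha'.1
  have e2 : cr l' p' = a' := ad.isArea'.unique ha'
  have hul : cr u l' = 0 := ad.h4
  have hL' : L' = lat l' p' := ad.hL'
  obtain ⟨G, hG0, hG1, hG2⟩ := exists_mult (a := a) (κ := cr u v) ha0 hA0
  have hprim : ∀ r : ℕ, r.Prime → ¬ (r : ℤ) ∣ G → ¬ Dz r u := fun r hr h =>
    not_dz_of ha hb hr fun h1 => h ((hG1 r hr).2 h1)
  have h0 : ∀ r : ℕ, r.Prime → ¬ (r : ℤ) ∣ G → (r : ℤ) ∣ a → ∃ w ∈ L, ¬ (r : ℤ) ∣ cr v w := by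
    intro r hr hrG hra
    obtain ⟨w, hw, h1⟩ := hb.2.2
    exact ⟨w, hw, fun h3 => hrG ((hG1 r hr).2 ⟨by rwa [h1] at h3, hra⟩)⟩
  have hGa : ∀ r : ℕ, r.Prime → (r : ℤ) ∣ G → ¬ (r : ℤ) ∣ a' := by
    intro r hr hrG hra
    obtain ⟨h3, h4⟩ := (hG1 r hr).1 hrG
    have h5 : (r : ℤ) ∣ a + cr u v := dvd_add h4 h3
    exact not_dvd_of_prime hN (x := a + cr u v) (y := a') (by linarith) ha0' hv hr h5 hra
  have ta : ∀ i : ℤ, IsArea (lat l' (p' + i • u)) a' := by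
    intro i
    have h1 : cr l' (p' + i • u) = a' := by
      rw [cr_add_right, cr_smul_right, cr_swap l' u, hul, e2]; ring
    exact ⟨ha0', p' + i • u, l', h1, lat_comm _ _⟩
  have hne : a * a' ≠ 0 := mul_ne_zero ha0.ne' ha0'.ne'
  by_cases hE : (2 : ℤ) ∣ a ∧ Dz 2 l' ∧ Dz 2 p'
  · -- the exceptional case
    obtain ⟨hE1, hE2, hE3⟩ := hE
    have two : ((2 : ℕ) : ℤ) = 2 := rfl
    have hG2' : ¬ ((2 : ℕ) : ℤ) ∣ G := by
      intro h3
      refine hGa 2 Nat.prime_two h3 ?_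
      exact ha'.dvd_of_dz (by rw [hL']; exact dz_lat.2 ⟨hE2, hE3⟩)
    obtain ⟨j, hj⟩ := crt_exists (2 * (a * a')) (mul_ne_zero two_ne_zero hne)
      (fun r j => (r ≠ 2 → ¬ (r : ℤ) ∣ G → WQ L a u v l' p' r (G * (2 * j))) ∧
        (r = 2 → ¬ (Dz 4 l' ∧ Dz 4 (p' + (G * (2 * j)) • u))))
      (fun r hr _ => by
        by_cases h2 : r = 2
        · by_cases h3 : Dz 4 l' ∧ Dz 4 (p' + (G * (2 * (0 : ℤ))) • u)
          · refine ⟨1, fun h => absurd h2 h, fun _ h4 => ?_⟩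
            have h5 := h4.2.sub h3.2
            have e : p' + (G * (2 * (1 : ℤ))) • u - (p' + (G * (2 * (0 : ℤ))) • u) =
                (2 : ℤ) • (G • u) := by module
            rw [e] at h5
            have h8 : Dz 2 (G • u) := by
              rw [Dz.iff] at h5 ⊢
              intro z
              have h6 := h5 z
              rw [cr_smul_left] at h6
              have h7 : (2 : ℤ) * 2 ∣ 2 * cr (G • u) z := by simpa using h6
              exact (mul_dvd_mul_iff_left two_ne_zero).1 h7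
            rcases h8.mul_prime Nat.prime_two with h9 | h9
            · exact hG2' h9
            · exact hprim 2 Nat.prime_two hG2' h9
          · exact ⟨0, fun h => absurd h2 h, fun _ => h3⟩
        · by_cases hrG : (r : ℤ) ∣ G
          · exact ⟨0, fun _ h => absurd hrG h, fun h => absurd h h2⟩
          · rcases WQ.exists_aux (l' := l') (p' := p') hr (h0 r hr hrG) (hprim r hr hrG)
              with h3 | h3
            · obtain ⟨i, hi⟩ := h3
              have h4 : ¬ (r : ℤ) ∣ G * 2 := by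
                intro h4
                have h5 := prime_dvd_of_not hr h4 hrG
                have h6 : r ∣ 2 := by exact_mod_cast h5
                exact h2 ((Nat.prime_dvd_prime_iff_eq hr Nat.prime_two).1 h6)
              obtain ⟨j, hj⟩ := solve_mul hr h4 i
              exact ⟨j, fun _ _ => WQ.congr (by rw [← mul_assoc]; exact hj) hi,
                fun h => absurd h h2⟩
            · exact absurd h3.1 h2)
      (fun r hr _ k k' hkk hQ => by
        refine ⟨fun h2 h3 => WQ.congr ?_ (hQ.1 h2 h3), fun h2 hn => hQ.2 h2 ⟨hn.1, ?_⟩⟩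
        · have e : G * (2 * k') - G * (2 * k) = 2 * G * (k' - k) := by ring
          rw [e]; exact hkk.mul_left _
        · have e : p' + (G * (2 * k)) • u = (p' + (G * (2 * k')) • u) -
              (G * (2 * (k' - k))) • u := by module
          rw [e]
          refine hn.2.sub (Dz.of_dvd ?_ u)
          rw [h2] at hkk
          obtain ⟨m, hm⟩ := hkk
          exact ⟨G * m, by rw [hm, two]; ring⟩)
    have hQ : ∀ r : ℕ, r.Prime → (r : ℤ) ∣ a * a' → r ≠ 2 → ¬ (r : ℤ) ∣ G →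
        WQ L a u v l' p' r (G * (2 * j)) :=
      fun r hr h1 h2 => (hj r hr (h1.mul_left _)).1 h2
    have h4 : ¬ (Dz 4 l' ∧ Dz 4 (p' + (G * (2 * j)) • u)) :=
      (hj 2 Nat.prime_two (by rw [two]; exact dvd_mul_right _ _)).2 rfl
    refine SEq.wcp2_aux hN hok ad ha ha' hv hb hD h2 hc hle (i := G * (2 * j))
      (fun r hr h5 h6 k hk => (hG2 r hr h5 h6 k hk).mul_right _) (fun r hr hra hrκ => ?_)
      (P := fun d => d = 1 ∨ (d = 2 ∧ (2 : ℤ) ∣ a ∧ ∀ w ∈ L', Dz 2 w)) (fun d hd hdz => ?_)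
    · have hrG : ¬ (r : ℤ) ∣ G := fun h => hrκ ((hG1 r hr).1 h).1
      by_cases h2 : r = 2
      · obtain ⟨w, hw, h3⟩ := h0 r hr hrG hra
        refine ⟨w, hw, fun h5 => h3 ?_⟩
        have e : cr v w = cr (v + (G * (2 * j)) • (u + l')) w -
            2 * (G * j * cr (u + l') w) := by
          simp only [cr_add_left, cr_smul_left]; ring
        rw [e, h2]
        rw [h2] at h5
        exact dvd_sub h5 (by rw [two]; exact dvd_mul_right _ _)
      · exact (hQ r hr (hra.mul_right _) h2 hrG).1 hra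
    · have h5 : ∀ r : ℕ, r.Prime → (r : ℤ) ∣ d → r = 2 := by
        intro r hr hrd
        by_contra h2
        have h6 : ∀ w ∈ lat l' (p' + (G * (2 * j)) • u), Dz r w :=
          fun w hw => (hdz w hw).trans' hrd
        have h7 : (r : ℤ) ∣ a' := (ta (G * (2 * j))).dvd_of_dz h6
        exact (hQ r hr (h7.mul_left _) h2 (fun h => hGa r hr h h7)).2 (dz_lat.1 h6)
      have h6 : ¬ (4 : ℤ) ∣ d := fun h7 =>
        h4 (dz_lat.1 fun w hw => (hdz w hw).trans' h7)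
      have h7 : d = 1 ∨ d = 2 := by
        obtain ⟨n, rfl⟩ := Int.eq_ofNat_of_zero_le hd.le
        have h8 : ∀ r : ℕ, r.Prime → r ∣ n → r = 2 := fun r hr hrn =>
          h5 r hr (Int.natCast_dvd_natCast.2 hrn)
        have h9 : ¬ 4 ∣ n := fun h => h6 (by exact_mod_cast h)
        have h10 : n = 1 ∨ n = 2 := by
          have hn0 : n ≠ 0 := by rintro rfl; simp at hd
          by_cases h11 : n = 1
          · exact Or.inl h11
          · right
            obtain ⟨q, hq, hqn⟩ := Nat.exists_prime_and_dvd h11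
            have := h8 q hq hqn
            subst this
            obtain ⟨m, rfl⟩ := hqn
            by_cases h12 : m = 1
            · rw [h12]
            · obtain ⟨q, hq, hqm⟩ := Nat.exists_prime_and_dvd h12
              have := h8 q hq (hqm.mul_left _)
              subst this
              exact absurd (mul_dvd_mul_left 2 hqm) (by simpa using h9)
        rcases h10 with h | h
        · left; rw [h]; rfl
        · right; rw [h]; rfl
      rcases h7 with h | h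
      · exact Or.inl h
      · refine Or.inr ⟨h, hE1, ?_⟩
        rw [hL']
        exact dz_lat.2 ⟨hE2, hE3⟩
  · obtain ⟨j, hj⟩ := crt_exists (a * a') hne
      (fun r j => ¬ (r : ℤ) ∣ G → WQ L a u v l' p' r (G * j))
      (fun r hr _ => by
        by_cases hrG : (r : ℤ) ∣ G
        · exact ⟨0, fun h => absurd hrG h⟩
        · rcases WQ.exists_aux (l' := l') (p' := p') hr (h0 r hr hrG) (hprim r hr hrG) with h3 | h3
          · obtain ⟨i, hi⟩ := h3
            obtain ⟨j, hj⟩ := solve_mul hr hrG i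
            exact ⟨j, fun _ => WQ.congr hj hi⟩
          · exfalso
            obtain ⟨h4, h5, h6, h7⟩ := h3
            subst h4
            exact hE ⟨h5, h6, h7⟩)
      (fun r _ _ k k' hkk hQ h3 => (hQ h3).congr (by
        rw [← mul_sub]; exact hkk.mul_left _))
    refine SEq.wcp2_aux hN hok ad ha ha' hv hb hD h2 hc hle (i := G * j)
      (fun r hr h5 h6 k hk => (hG2 r hr h5 h6 k hk).mul_right _)
      (fun r hr hra hrκ => (hj r hr (hra.mul_right _) (fun h => hrκ ((hG1 r hr).1 h).1)).1 hra)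
      (P := fun d => d = 1 ∨ (d = 2 ∧ (2 : ℤ) ∣ a ∧ ∀ w ∈ L', Dz 2 w)) (fun d hd hdz => ?_)
    left
    obtain ⟨n, rfl⟩ := Int.eq_ofNat_of_zero_le hd.le
    by_contra h1
    have h2 : n ≠ 1 := by
      rintro rfl; exact h1 rfl
    obtain ⟨r, hr, hrn⟩ := Nat.exists_prime_and_dvd h2
    have h6 : ∀ w ∈ lat l' (p' + (G * j) • u), Dz r w :=
      fun w hw => (hdz w hw).trans' (Int.natCast_dvd_natCast.2 hrn)
    have h7 : (r : ℤ) ∣ a' := (ta (G * j)).dvd_of_dz h6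
    exact (hj r hr (h7.mul_left _) (fun h => hGa r hr h h7)).2 (dz_lat.1 h6)

/-- a V-twist of the node state makes `gcd (L' × u)` divisible by `m` -/
theorem ct_choice {M : AddSubgroup Z2} {u u1 D : Z2} {m : ℤ} (h : ∀ w ∈ M, m ∣ cr u w)
    (hco : IsCoprime m (cr u D)) : ∃ t : ℤ, ∀ w ∈ M, m ∣ cr (u1 - t • D) w := by
  obtain ⟨x, y, hxy⟩ := hco
  refine ⟨-(y * cr u1 u), fun w hw => ?_⟩
  have e1 := cr_expand u D u1
  have e2 : cr u D * cr u1 w = cr u1 D * cr u w - cr u1 u * cr D w := by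
    rw [← cr_smul_left, e1, cr_sub_left, cr_smul_left, cr_smul_left]
  have e3 : cr (u1 - -(y * cr u1 u) • D) w = m * (x * cr u1 w) + y * cr u1 D * cr u w := by
    rw [cr_sub_left, cr_smul_left]
    linear_combination (-(cr u1 w)) * hxy + y * e2
  rw [e3]
  exact dvd_add (dvd_mul_right _ _) ((h w hw).mul_left _)

/-- WCX, the criterion for exits: `κ = gcd (L × v)` divides `A`, `κ D = (a + A) v`, no prime
`r ∣ gcd (a, κ)` divides `D`, and some divisor `m ≥ κ` of `gcd (L' × u)` is prime to `u × D` -/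
theorem SEq.wcx {N : ℕ} (hN : N.Prime) {L L' : AddSubgroup Z2} {u v D : Z2} {a a' b m : ℤ}
    (hok : PSt.Ok ⟨L, u, v, L'⟩) (ha : IsArea L a) (ha' : IsArea L' a')
    (hv : a + cr u v + a' = N) (hb : IsC L v b) (hbA : b ∣ cr u v)
    (hD : b • D = (a + cr u v) • v)
    (h2 : ∀ r : ℕ, r.Prime → (r : ℤ) ∣ b → (r : ℤ) ∣ a → ¬ Dz r D)
    (hm : ∀ w ∈ L', m ∣ cr u w) (hco : IsCoprime m (cr u D)) (hle : b ≤ m) :
    ∃ (T : PSt) (d : ℤ), SEq ⟨L, u, v, L'⟩ T ∧ IsC T.L T.v d ∧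
      (d = 1 ∨ (d = 2 ∧ (2 : ℤ) ∣ a + cr u v - b ∧ ∀ w ∈ L', Dz 2 w)) := by
  have hA0 : 0 < cr u v := hok.pos
  obtain ⟨u1, L1, θ, k1, k2, k3, k4, k5, k6, k7, k8⟩ := SEq.node' hok ha hb
  have h3 : cr u1 v = b := by
    have h3 : b ∣ cr u1 v := by rw [k4]; exact dvd_sub hbA k3
    exact le_antisymm k6 (Int.le_of_dvd k5 h3)
  have h4 : θ = cr u v - b := by linarith
  rw [h4] at k7 k3
  have h5 : a + (cr u v - b) = a + cr u v - b := by ring
  rw [h5] at k7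
  obtain ⟨l, p, l', p', ad⟩ := exists_Ad k1.ok'
  have f1 : cr p l = a + cr u v - b := ad.isArea.unique k7
  have f3 : cr p v = b := ad.isC.unique k8
  have f4 := ad.h1
  dsimp only at f4
  have hDl : D = v + l := by
    refine smul_inj hb.1.ne' ?_
    rw [hD]
    have g1 := cr_expand p v l
    rw [f4, zero_smul, zero_sub, cr_swap l p, neg_smul, neg_neg, f3, f1] at g1
    rw [smul_add, g1]
    module
  obtain ⟨t, ht⟩ := ct_choice (u1 := u1) hm hco
  have m1 := ad.twV k1.ok' (by show cr u1 v ≤ cr p v; rw [h3, f3]) t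
  dsimp only at m1
  rw [← hDl] at m1
  obtain ⟨l2, p2, l2', p2', ad2⟩ := exists_Ad m1.ok'
  have g1 : cr (u1 - t • D) v = b := by
    rw [hDl, cr_sub_left, cr_smul_left, cr_add_left, cr_self, f4, h3]; ring
  have g2 : IsC (lat l (p - t • v)) v b := by
    have e5 : cr (p - t • v) v = b := by
      rw [cr_sub_left, cr_smul_left, cr_self, f3]; ring
    rw [← e5]
    exact isC_of_par f4 (by rw [e5]; exact hb.1)
  have g3 : IsArea (lat l (p - t • v)) (a + cr u v - b) := by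
    refine ⟨k7.1, l, p - t • v, ?_, rfl⟩
    rw [cr_sub_left, cr_smul_left, cr_swap v l, f4, ← f1]; ring
  have hc := ad2.isC'
  dsimp only at hc
  have hmc : m ∣ cr (u1 - t • D) p2' := by
    obtain ⟨w, hw, hw2⟩ := hc.2.2
    rw [← hw2]
    exact ht w hw
  have hle2 : b ≤ cr (u1 - t • D) p2' := hle.trans (Int.le_of_dvd hc.1 hmc)
  obtain ⟨T, d, n1, n2, n3⟩ := SEq.wcp2 hN m1.ok' g3 ha' (by rw [g1]; linarith)
    (by rw [g1]; exact g2) (D := D) (by rw [g1, hD]; congr 1; ring) (fun r hr h6 h7 => by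
      rw [g1] at h6
      refine h2 r hr h6 ?_
      have h8 : (r : ℤ) ∣ (a + cr u v - b) + b - cr u v :=
        dvd_sub (dvd_add h7 h6) (h6.trans hbA)
      have e6 : (a + cr u v - b) + b - cr u v = a := by ring
      rwa [e6] at h8) hc (by rw [g1]; exact hle2)
  exact ⟨T, d, (k1.trans m1).trans n1, n2, n3⟩

end Pool.Agent.H4G
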