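import Pool.Agent.H4G.Arith.XOne

/-!
# WC+ (helper9)

`N` prime, `u × v = gcd (L × v) = A ≤ gcd (L' × u)`, `A` prime to the area of `L`: one H-twist and
WC give a state with gap `1`, or gap `2` if `L` has even area and `L'` is even.
-/

set_option autoImplicit false

namespace Pool.Agent.H4G

theorem Dz.trans' {d e : ℤ} {x : Z2} (hx : Dz e x) (h : d ∣ e) : Dz d x := Dz.trans h hx

/-- the state is good at the prime `r` after the twist `i` -/
def WQ (L : AddSubgroup Z2) (a : ℤ) (u v l' p' : Z2) (r : ℕ) (i : ℤ) : Prop :=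
  ((r : ℤ) ∣ a → ∃ w ∈ L, ¬ (r : ℤ) ∣ cr (v + i • (u + l')) w) ∧
    ¬ (Dz r l' ∧ Dz r (p' + i • u))

theorem WQ.congr {L : AddSubgroup Z2} {a : ℤ} {u v l' p' : Z2} {r : ℕ} {i j : ℤ}
    (hij : (r : ℤ) ∣ j - i) (h : WQ L a u v l' p' r i) : WQ L a u v l' p' r j := by
  refine ⟨fun hra => ?_, fun hn => h.2 ⟨hn.1, ?_⟩⟩
  · obtain ⟨w, hw, h1⟩ := h.1 hra
    refine ⟨w, hw, fun h2 => h1 ?_⟩
    have e : cr (v + i • (u + l')) w = cr (v + j • (u + l')) w - (j - i) * cr (u + l') w := by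
      simp only [cr_add_left, cr_smul_left]; ring
    rw [e]
    exact dvd_sub h2 (hij.mul_right _)
  · have e : p' + i • u = (p' + j • u) - (j - i) • u := by module
    rw [e]
    exact hn.2.sub (Dz.of_dvd hij u)

/-- prime by prime existence of the twist -/
theorem WQ.exists_aux {L : AddSubgroup Z2} {a : ℤ} {u v l' p' : Z2} {r : ℕ} (hr : r.Prime)
    (h0 : (r : ℤ) ∣ a → ∃ w ∈ L, ¬ (r : ℤ) ∣ cr v w) (hu : ¬ Dz r u) :
    (∃ i, WQ L a u v l' p' r i) ∨ (r = 2 ∧ (r : ℤ) ∣ a ∧ Dz r l' ∧ Dz r p') := by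
  -- two different classes cannot both be bad for the content
  have hB : ∀ i j : ℤ, ¬ (r : ℤ) ∣ i - j → Dz r (p' + i • u) → ¬ Dz r (p' + j • u) := by
    intro i j hij h1 h2
    have h3 := h1.sub h2
    have e : p' + i • u - (p' + j • u) = (i - j) • u := by module
    rw [e] at h3
    rcases h3.mul_prime hr with h4 | h4
    · exact hij h4
    · exact hu h4
  have hA : ∀ i j : ℤ, (r : ℤ) ∣ a → ¬ (r : ℤ) ∣ i - j →
      (∀ w ∈ L, (r : ℤ) ∣ cr (v + i • (u + l')) w) →
      ¬ ∀ w ∈ L, (r : ℤ) ∣ cr (v + j • (u + l')) w := by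
    intro i j hra hij h1 h2
    obtain ⟨w, hw, h3⟩ := h0 hra
    apply h3
    have h4 : (r : ℤ) ∣ (i - j) * cr (u + l') w := by
      have := dvd_sub (h1 w hw) (h2 w hw)
      have e : cr (v + i • (u + l')) w - cr (v + j • (u + l')) w = (i - j) * cr (u + l') w := by
        simp only [cr_add_left, cr_smul_left]; ring
      rwa [e] at this
    have h5 := ((Nat.prime_iff_prime_int.1 hr).dvd_or_dvd h4).resolve_left hij
    have e : cr v w = cr (v + i • (u + l')) w - i * cr (u + l') w := by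
      simp only [cr_add_left, cr_smul_left]; ring
    rw [e]
    exact dvd_sub (h1 w hw) (h5.mul_left _)
  by_cases hc : Dz r l' ∧ Dz r (p' + (0 : ℤ) • u)
  · -- the class `0` is bad for the content
    have hc2 := hc.2
    have h1 : ¬ Dz r (p' + (1 : ℤ) • u) := hB 0 1 (by
      rw [zero_sub, dvd_neg]; exact prime_not_dvd_one hr) hc2
    by_cases hA1 : (r : ℤ) ∣ a ∧ ∀ w ∈ L, (r : ℤ) ∣ cr (v + (1 : ℤ) • (u + l')) w
    · by_cases h2 : r = 2
      · right
        refine ⟨h2, hA1.1, hc.1, ?_⟩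
        rw [zero_smul, add_zero] at hc2
        exact hc2
      · left
        have h3 : ¬ (r : ℤ) ∣ 2 := by
          intro h4
          have h5 : r ∣ 2 := by exact_mod_cast h4
          exact h2 ((Nat.prime_dvd_prime_iff_eq hr Nat.prime_two).1 h5)
        have h4 : ¬ Dz r (p' + (-1 : ℤ) • u) := hB 0 (-1) (by
          have : (0 : ℤ) - -1 = 1 := by ring
          rw [this]; exact prime_not_dvd_one hr) hc2
        have h5 := hA 1 (-1) hA1.1 (by
          have : (1 : ℤ) - -1 = 2 := by ring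
          rw [this]; exact h3) hA1.2
        push Not at h5
        exact ⟨-1, fun _ => h5, fun h => h4 h.2⟩
    · left
      refine ⟨1, fun hra => ?_, fun h => h1 h.2⟩
      by_contra hn
      push Not at hn
      exact hA1 ⟨hra, hn⟩
  · left
    refine ⟨0, fun hra => ?_, hc⟩
    obtain ⟨w, hw, h1⟩ := h0 hra
    exact ⟨w, hw, by rwa [zero_smul, add_zero]⟩

/-- the end of the proof: `gcd (a, gap) = 1` and the content of the right lattice is known -/
theorem SEq.wc_end {N : ℕ} (hN : N.Prime) {S : PSt} {L L' : AddSubgroup Z2} {u v : Z2} {a a' : ℤ}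
    (hS : SEq S ⟨L, u, v, L'⟩) (ha : IsArea L a) (ha' : IsArea L' a')
    (hv : a + cr u v + a' = N) (h : ∀ r : ℕ, r.Prime → (r : ℤ) ∣ a → ∃ w ∈ L, ¬ (r : ℤ) ∣ cr v w)
    {P : ℤ → Prop} (hP : ∀ c : ℤ, 0 < c → (∀ w ∈ L', Dz c w) → P c) :
    ∃ (T : PSt) (d : ℤ), SEq S T ∧ IsC T.L T.v d ∧ P d := by
  obtain ⟨l, p, l', p', ad⟩ := exists_Ad hS.ok'
  have hco : IsCoprime a (cr p v) := by
    refine (isCoprime_of_prime fun r hr h1 h2 => ?_).symm
    obtain ⟨w, hw, h3⟩ := h r hr h1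
    exact h3 (h2.trans (ad.isC.2.1 w hw))
  obtain ⟨L1, u1, c, m1, m2, m3, m4, m5, m6, m7⟩ := SEq.wc hN hS.ok' ha ha' hv ad.isC hco
  have m8 := SEq.mirror (L := L1) (L' := L') (u := u1) (v := v) m1.ok'
  exact ⟨_, c, hS.trans (m1.trans m8), m6.neg, hP c m6.1 m7⟩

/-- WC+ -/
theorem SEq.wcp {N : ℕ} (hN : N.Prime) {L L' : AddSubgroup Z2} {u v : Z2} {a a' c : ℤ}
    (hok : PSt.Ok ⟨L, u, v, L'⟩) (ha : IsArea L a) (ha' : IsArea L' a')
    (hv : a + cr u v + a' = N) (hb : IsC L v (cr u v)) (hco : IsCoprime a (cr u v))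
    (hc : IsC L' u c) (hle : cr u v ≤ c) :
    ∃ (T : PSt) (d : ℤ), SEq ⟨L, u, v, L'⟩ T ∧ IsC T.L T.v d ∧
      (d = 1 ∨ (d = 2 ∧ (2 : ℤ) ∣ a ∧ ∀ w ∈ L', Dz 2 w)) := by
  obtain ⟨l, p, l', p', ad⟩ := exists_Ad hok
  have hA0 : 0 < cr u v := hok.pos
  have ha0 := ha.1
  have ha0' := ha'.1
  have e1 : cr u p' = c := ad.isC'.unique hc
  have e2 : cr l' p' = a' := ad.isArea'.unique ha'
  have hul : cr u l' = 0 := ad.h4
  have hL' : L' = lat l' p' := ad.hL'
  -- `u` is primitive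
  have hprim : ∀ r : ℕ, r.Prime → ¬ Dz r u := by
    intro r hr h1
    obtain ⟨v', hv'⟩ := hb.dz_of_coprime ha hco
    have h2 : cr u v' = 1 := by
      have h3 : cr u v = cr u v * cr u v' := by
        conv_lhs => rw [hv']
        rw [cr_smul_right]
      exact (mul_left_cancel₀ hA0.ne' (by rw [mul_one]; exact h3)).symm
    have h4 := h1.cr_left v'
    rw [h2] at h4
    exact prime_not_dvd_one hr h4
  have h0 : ∀ r : ℕ, r.Prime → (r : ℤ) ∣ a → ∃ w ∈ L, ¬ (r : ℤ) ∣ cr v w := by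
    intro r hr hra
    obtain ⟨w, hw, h1⟩ := hb.2.2
    refine ⟨w, hw, ?_⟩
    rw [h1]
    exact not_dvd_of_isCoprime hco.symm hr hra
  -- the twisted states
  have tw : ∀ i : ℤ, SEq ⟨L, u, v, L'⟩ ⟨L, u, v + i • (u + l'), lat l' (p' + i • u)⟩ := fun i =>
    ad.twH hok (by show cr u v ≤ cr u p'; rw [e1]; exact hle) i
  have ta : ∀ i : ℤ, IsArea (lat l' (p' + i • u)) a' := by
    intro i
    have h1 : cr l' (p' + i • u) = a' := by
      rw [cr_add_right, cr_smul_right, cr_swap l' u, hul, e2]; ring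
    exact ⟨ha0', p' + i • u, l', h1, lat_comm _ _⟩
  have tA : ∀ i : ℤ, cr u (v + i • (u + l')) = cr u v := by
    intro i
    rw [cr_add_right, cr_smul_right, cr_add_right, cr_self, hul]; ring
  have hne : a * a' ≠ 0 := mul_ne_zero ha0.ne' ha0'.ne'
  by_cases hE : (2 : ℤ) ∣ a ∧ Dz 2 l' ∧ Dz 2 p'
  · -- the exceptional case
    obtain ⟨hE1, hE2, hE3⟩ := hE
    have two : ((2 : ℕ) : ℤ) = 2 := rfl
    obtain ⟨j, hj⟩ := crt_exists (2 * (a * a')) (mul_ne_zero two_ne_zero hne)
      (fun r j => (r ≠ 2 → WQ L a u v l' p' r (2 * j)) ∧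
        (r = 2 → ¬ (Dz 4 l' ∧ Dz 4 (p' + (2 * j) • u))))
      (fun r hr _ => by
        by_cases h2 : r = 2
        · by_cases h3 : Dz 4 l' ∧ Dz 4 (p' + (2 * (0 : ℤ)) • u)
          · refine ⟨1, fun h => absurd h2 h, fun _ h4 => ?_⟩
            have h5 := h4.2.sub h3.2
            have e : p' + (2 * (1 : ℤ)) • u - (p' + (2 * (0 : ℤ)) • u) = (2 : ℤ) • u := by module
            rw [e] at h5
            refine hprim 2 Nat.prime_two ?_
            rw [Dz.iff] at h5 ⊢
            intro z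
            have h6 := h5 z
            rw [cr_smul_left] at h6
            have h7 : (2 : ℤ) * 2 ∣ 2 * cr u z := by simpa using h6
            exact (mul_dvd_mul_iff_left two_ne_zero).1 h7
          · exact ⟨0, fun h => absurd h2 h, fun _ => h3⟩
        · rcases WQ.exists_aux (l' := l') (p' := p') hr (h0 r hr) (hprim r hr) with h3 | h3
          · obtain ⟨i, hi⟩ := h3
            have hodd : IsCoprime (r : ℤ) 2 := by
              have h4 : ¬ (r : ℤ) ∣ 2 := by
                intro h4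
                have h5 : r ∣ 2 := by exact_mod_cast h4
                exact h2 ((Nat.prime_dvd_prime_iff_eq hr Nat.prime_two).1 h5)
              exact ((Nat.prime_iff_prime_int.1 hr).coprime_iff_not_dvd).2 h4
            obtain ⟨x, y, hxy⟩ := hodd
            refine ⟨y * i, fun _ => WQ.congr ⟨-(x * i), ?_⟩ hi, fun h => absurd h h2⟩
            linear_combination i * hxy
          · exact absurd h3.1 h2)
      (fun r hr _ k k' hkk hQ => by
        refine ⟨fun h2 => WQ.congr ?_ (hQ.1 h2), fun h2 hn => hQ.2 h2 ⟨hn.1, ?_⟩⟩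
        · have e : 2 * k' - 2 * k = 2 * (k' - k) := by ring
          rw [e]; exact hkk.mul_left _
        · have e : p' + (2 * k) • u = (p' + (2 * k') • u) - (2 * (k' - k)) • u := by module
          rw [e]
          refine hn.2.sub (Dz.of_dvd ?_ u)
          rw [h2] at hkk
          obtain ⟨m, hm⟩ := hkk
          exact ⟨m, by rw [hm, two]; ring⟩)
    have hQ : ∀ r : ℕ, r.Prime → (r : ℤ) ∣ a * a' → r ≠ 2 → WQ L a u v l' p' r (2 * j) :=
      fun r hr h1 h2 => (hj r hr (h1.mul_left _)).1 h2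
    have h4 : ¬ (Dz 4 l' ∧ Dz 4 (p' + (2 * j) • u)) :=
      (hj 2 Nat.prime_two (by rw [two]; exact dvd_mul_right _ _)).2 rfl
    refine SEq.wc_end hN (tw (2 * j)) ha (ta _) (by rw [tA]; exact hv) (fun r hr hra => ?_)
      (P := fun d => d = 1 ∨ (d = 2 ∧ (2 : ℤ) ∣ a ∧ ∀ w ∈ L', Dz 2 w)) (fun d hd hdz => ?_)
    · by_cases h2 : r = 2
      · obtain ⟨w, hw, h3⟩ := h0 r hr hra
        refine ⟨w, hw, fun h5 => h3 ?_⟩
        have e : cr v w = cr (v + (2 * j) • (u + l')) w - 2 * (j * cr (u + l') w) := by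
          simp only [cr_add_left, cr_smul_left]; ring
        rw [e, h2]
        rw [h2] at h5
        exact dvd_sub h5 (by rw [two]; exact dvd_mul_right _ _)
      · exact (hQ r hr (hra.mul_right _) h2).1 hra
    · have h5 : ∀ r : ℕ, r.Prime → (r : ℤ) ∣ d → r = 2 := by
        intro r hr hrd
        by_contra h2
        have h6 : ∀ w ∈ lat l' (p' + (2 * j) • u), Dz r w := fun w hw => (hdz w hw).trans' hrd
        have h7 : (r : ℤ) ∣ a' := (ta (2 * j)).dvd_of_dz h6
        exact (hQ r hr (h7.mul_left _) h2).2 (dz_lat.1 h6)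
      have h6 : ¬ (4 : ℤ) ∣ d := fun h7 =>
        h4 (dz_lat.1 fun w hw => (hdz w hw).trans' h7)
      have h7 : d = 1 ∨ d = 2 := by
        obtain ⟨n, rfl⟩ := Int.eq_ofNat_of_zero_le hd.le
        have h8 : ∀ r : ℕ, r.Prime → r ∣ n → r = 2 := fun r hr hrn =>
          h5 r hr (Int.natCast_dvd_natCast.2 hrn)
        have h9 : ¬ 4 ∣ n := fun h => h6 (by exact_mod_cast h)
        have h10 : n = 1 ∨ n = 2 := by
          have hn0 : n ≠ 0 := by rintro rfl; simp at hd
          by_cases h11 : n = 1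
          · exact Or.inl h11
          · right
            obtain ⟨q, hq, hqn⟩ := Nat.exists_prime_and_dvd h11
            have := h8 q hq hqn
            subst this
            obtain ⟨m, rfl⟩ := hqn
            by_cases h12 : m = 1
            · rw [h12]
            · obtain ⟨q, hq, hqm⟩ := Nat.exists_prime_and_dvd h12
              have := h8 q hq (hqm.mul_left _)
              subst this
              exact absurd (mul_dvd_mul_left 2 hqm) (by simpa using h9)
        rcases h10 with h | h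
        · left; rw [h]; rfl
        · right; rw [h]; rfl
      rcases h7 with h | h
      · exact Or.inl h
      · refine Or.inr ⟨h, hE1, ?_⟩
        rw [hL']
        exact dz_lat.2 ⟨hE2, hE3⟩
  · obtain ⟨i, hi⟩ := crt_exists (a * a') hne (fun r i => WQ L a u v l' p' r i)
      (fun r hr _ => by
        rcases WQ.exists_aux (l' := l') (p' := p') hr (h0 r hr) (hprim r hr) with h3 | h3
        · exact h3
        · exfalso
          obtain ⟨h4, h5, h6, h7⟩ := h3
          subst h4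
          exact hE ⟨h5, h6, h7⟩)
      (fun r _ _ k k' hkk hQ => hQ.congr hkk)
    refine SEq.wc_end hN (tw i) ha (ta _) (by rw [tA]; exact hv)
      (fun r hr hra => (hi r hr (hra.mul_right _)).1 hra)
      (P := fun d => d = 1 ∨ (d = 2 ∧ (2 : ℤ) ∣ a ∧ ∀ w ∈ L', Dz 2 w)) (fun d hd hdz => ?_)
    left
    obtain ⟨n, rfl⟩ := Int.eq_ofNat_of_zero_le hd.le
    by_contra h1
    have h2 : n ≠ 1 := by
      rintro rfl; exact h1 rfl
    obtain ⟨r, hr, hrn⟩ := Nat.exists_prime_and_dvd h2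
    have h6 : ∀ w ∈ lat l' (p' + i • u), Dz r w :=
      fun w hw => (hdz w hw).trans' (Int.natCast_dvd_natCast.2 hrn)
    have h7 : (r : ℤ) ∣ a' := (ta i).dvd_of_dz h6
    exact (hi r hr (h7.mul_left _)).2 (dz_lat.1 h6)

end Pool.Agent.H4G
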